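import Pool.Agent.Lib.MP_b6945b_al.Normal

set_option autoImplicit false

/-!
Cancellation in the alternating sum over chains by adjoining a subgroup of maximal order.
-/

namespace Pool.Agent.Lib.MP_b6945b_al.St

open Finset

variable {p : ℕ} {G : Type} [Group G] [Finite G]

open Classical in
omit [Finite G] in
lemma stab_insert (T : Subgroup G) (σ : Finset (Subgroup G)) :
    stab (insert T σ) = stab σ ⊓ Subgroup.normalizer (T : Set G) := by
  ext g
  simp only [mem_stab, Subgroup.mem_inf, forall_mem_insert]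
  exact and_comm

open Classical in
omit [Finite G] in
/-- Adjoining a larger subgroup to a normal chain. -/
lemma insert_chain {σ : Finset (Subgroup G)} (hσ : IsPChain p σ) {T : Subgroup G}
    (hT : IsPGroup p T) (hT0 : T ≠ ⊥) (h1 : σ.sup id ≤ T) (h2 : T ≤ stab σ) :
    IsPChain p (insert T σ) ∧ IsNC (insert T σ) ∧ (insert T σ).sup id = T := by
  have h3 : (insert T σ).sup id = T := by
    rw [sup_insert]
    exact sup_eq_left.2 h1
  refine ⟨⟨?_, ?_⟩, ?_, h3⟩
  · rw [coe_insert]
    exact hσ.1.insert fun P hP _ => Or.inr ((le_sup (f := id) (mem_coe.1 hP)).trans h1)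
  · intro P hP
    rcases mem_insert.1 hP with rfl | hP
    · exact ⟨hT, hT0⟩
    · exact hσ.2 P hP
  · rw [IsNC, h3, stab_insert]
    exact le_inf h2 Subgroup.le_normalizer

open Classical in
omit [Finite G] in
/-- Removing the largest subgroup of a normal chain. -/
lemma erase_chain {τ : Finset (Subgroup G)} (hτ : IsPChain p τ) (hn : IsNC τ) :
    IsPChain p (τ.erase (τ.sup id)) ∧ IsNC (τ.erase (τ.sup id)) ∧
      (τ.erase (τ.sup id)).sup id ≤ τ.sup id ∧ τ.sup id ≤ stab (τ.erase (τ.sup id)) := by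
  have h1 : (τ.erase (τ.sup id)).sup id ≤ τ.sup id := sup_mono (erase_subset _ _)
  have h2 : τ.sup id ≤ stab (τ.erase (τ.sup id)) := fun g hg =>
    mem_stab.2 fun P hP => mem_stab.1 (hn hg) P (mem_of_mem_erase hP)
  exact ⟨⟨hτ.1.mono (coe_subset.2 (erase_subset _ _)), fun P hP => hτ.2 P (mem_of_mem_erase hP)⟩,
    h1.trans h2, h1, h2⟩

open Classical in
/-- `sum_normal` reduces to normal chains.  Let `A` be the normal chains without a member of order
`d` and `B` those whose largest member has order `d`; the other normal chains contribute nothing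
(`hF`, `top_spec`, `sup_chain_cases`).  For `σ ∈ A` apply `hloc` to `σ.sup id` and `stab σ`; the
pairs `(σ, T)` correspond to `B` by `insert T σ`, with the opposite sign (`Finset.sum_sigma'`,
`Finset.sum_nbij'`). -/
theorem chain_sum_zero (hp : p.Prime) [Fintype (Subgroup G)] [Fintype (Finset (Subgroup G))]
    (F : Subgroup G → ℕ) {d : ℕ}
    (hd : ∀ T : Subgroup G, Nat.card T = d → IsPGroup p T ∧ T ≠ ⊥)
    (hF : ∀ T L : Subgroup G, IsPGroup p T → T ≤ L → L ≤ Subgroup.normalizer (T : Set G) →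
      F L ≠ 0 → Nat.card T ∣ d)
    (hloc : ∀ P L : Subgroup G, IsPGroup p P → P ≤ L → L ≤ Subgroup.normalizer (P : Set G) →
      (∀ g, (∀ u ∈ P, u * g = g * u) → g ∈ L) →
      F L = ∑ T ∈ univ.filter (fun T : Subgroup G => P ≤ T ∧ T ≤ L ∧ Nat.card T = d),
        F (L ⊓ Subgroup.normalizer (T : Set G))) :
    ∑ σ : Finset (Subgroup G), (if IsPChain p σ then sgn σ * (F (stab σ) : ℤ) else 0) = 0 := by
  have : Fact p.Prime := ⟨hp⟩
  refine Int.cast_injective (α := ℂ) ?_
  have h0 := sum_normal p fun L : Subgroup G => (F L : ℂ)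
  push_cast
  rw [h0]
  have top : ∀ {τ : Finset (Subgroup G)}, IsPChain p τ → Nat.card (τ.sup id : Subgroup G) = d →
      τ.sup id ∈ τ := fun hτ h =>
    (sup_chain_cases hτ.1 _ (Subset.refl _)).resolve_left (hd _ h).2
  have h1 : ∀ σ : Finset (Subgroup G), (if IsPChain p σ then
      (if IsNC σ then (sgn σ : ℂ) * (F (stab σ) : ℂ) else 0) else 0) =
      (if IsPChain p σ ∧ IsNC σ ∧ ∀ P ∈ σ, Nat.card P ≠ d then (sgn σ : ℂ) * (F (stab σ) : ℂ)
        else 0) +
      if IsPChain p σ ∧ IsNC σ ∧ Nat.card (σ.sup id : Subgroup G) = d then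
        (sgn σ : ℂ) * (F (stab σ) : ℂ) else 0 := by
    intro σ
    by_cases e1 : IsPChain p σ
    · by_cases e2 : IsNC σ
      · by_cases e3 : Nat.card (σ.sup id : Subgroup G) = d
        · rw [if_pos e1, if_pos e2, if_neg fun h => h.2.2 _ (top e1 e3) e3, if_pos ⟨e1, e2, e3⟩,
            zero_add]
        · rw [if_pos e1, if_pos e2, if_neg (c := _ ∧ _ ∧ _ = d) fun h => e3 h.2.2, add_zero]
          split_ifs with e4
          · rfl
          · by_cases e5 : F (stab σ) = 0
            · rw [e5, Nat.cast_zero, mul_zero]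
            · refine absurd ⟨e1, e2, fun P hP e6 => e3 ?_⟩ e4
              refine Nat.dvd_antisymm (hF _ _ (top_spec e1).1 e2 (top_spec e1).2.1 e5) ?_
              rw [← e6]
              exact Subgroup.card_dvd_of_le (le_sup (f := id) hP)
      · simp [e2]
    · simp [e1]
  simp only [h1]
  rw [sum_add_distrib, ← sum_filter, ← sum_filter, add_eq_zero_iff_eq_neg, ← sum_neg_distrib,
    sum_congr rfl fun σ hσ => by
      have e := (mem_filter.1 hσ).2
      rw [hloc _ _ (top_spec e.1).1 e.2.1 (top_spec e.1).2.1 (top_spec e.1).2.2, Nat.cast_sum,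
        mul_sum],
    sum_sigma']
  refine sum_nbij' (fun x => insert x.2 x.1) (fun τ => ⟨τ.erase (τ.sup id), τ.sup id⟩)
    ?_ ?_ ?_ ?_ ?_
  · rintro ⟨σ, T⟩ h
    simp only [mem_sigma, mem_filter, mem_univ, true_and] at h ⊢
    obtain ⟨⟨a1, -, -⟩, b1, b2, b3⟩ := h
    obtain ⟨c1, c2, c3⟩ := insert_chain a1 (hd T b3).1 (hd T b3).2 b1 b2
    exact ⟨c1, c2, by rw [c3, b3]⟩
  · intro τ h
    simp only [mem_sigma, mem_filter, mem_univ, true_and] at h ⊢
    obtain ⟨a1, a2, a3⟩ := h
    obtain ⟨c1, c2, c3, c4⟩ := erase_chain a1 a2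
    refine ⟨⟨c1, c2, fun P hP e => (mem_erase.1 hP).1 ?_⟩, c3, c4, a3⟩
    exact Subgroup.eq_of_le_of_card_ge (le_sup (f := id) (mem_erase.1 hP).2) (by rw [a3, e])
  · rintro ⟨σ, T⟩ h
    simp only [mem_sigma, mem_filter, mem_univ, true_and] at h
    obtain ⟨⟨a1, -, a3⟩, b1, b2, b3⟩ := h
    obtain ⟨-, -, c3⟩ := insert_chain a1 (hd T b3).1 (hd T b3).2 b1 b2
    simp only [c3, erase_insert fun h => a3 T h b3]
  · intro τ h
    simp only [mem_filter, mem_univ, true_and] at h
    exact insert_erase (top h.1 h.2.2)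
  · rintro ⟨σ, T⟩ h
    simp only [mem_sigma, mem_filter, mem_univ, true_and] at h
    obtain ⟨⟨-, -, a3⟩, -, -, b3⟩ := h
    simp only [stab_insert, sgn, card_insert_of_notMem fun h => a3 T h b3]
    push_cast
    ring

end Pool.Agent.Lib.MP_b6945b_al.St
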