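import Pool.Agent.Lib.MP_b6945b_al.St.BlkE

set_option autoImplicit false

/-!
The Brauer correspondent.
-/

namespace Pool.Agent.Lib.MP_b6945b_al.St

open IsLocalRing Finset
open MonoidAlgebra (single)

variable {G : Type} [Group G] [Fintype G] {V : ValuationSubring ℂ} {p : ℕ} [Fact p.Prime]
  {I : IrrData G} {i : Fin I.n} {D H : Subgroup G} [Fintype H] {e : MonoidAlgebra V G}

/-- `eb` is the truncation of `e` to the centraliser of `D`. -/
structure IsCut {R : Type} [CommRing R] (D H : Subgroup G) (e : MonoidAlgebra R G)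
    (eb : MonoidAlgebra R H) : Prop where
  eq : ∀ h : H, (∀ δ ∈ D, (h : G) * δ = δ * h) → eb.coeff h = e.coeff h
  zero : ∀ h : H, ¬ (∀ δ ∈ D, (h : G) * δ = δ * h) → eb.coeff h = 0

omit [Fintype G] in
lemma exists_isCut {R : Type} [CommRing R] (D H : Subgroup G) [Fintype H]
    (e : MonoidAlgebra R G) : ∃ eb, IsCut D H e eb := by
  classical
  refine ⟨MonoidAlgebra.ofCoeff (Finsupp.equivFunOnFinite.symm fun h : H =>
    if ∀ δ ∈ D, (h : G) * δ = δ * h then e.coeff h else 0), fun h hh => ?_, fun h hh => ?_⟩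
  · exact if_pos hh
  · exact if_neg hh

lemma blkF_card_le {S : Subgroup G} {c : G} (h : ∀ s ∈ S, c⁻¹ * s * c ∈ D) :
    Nat.card S ≤ Nat.card D := by
  refine Nat.card_le_card_of_injective (fun s : S => (⟨c⁻¹ * s * c, h s s.2⟩ : D)) ?_
  intro s t hst
  have h1 : c⁻¹ * s * c = c⁻¹ * t * c := congrArg Subtype.val hst
  exact Subtype.ext (mul_left_cancel (mul_right_cancel h1))

lemma blkF_surj {S : Subgroup G} {c : G} (h : ∀ s ∈ S, c⁻¹ * s * c ∈ D)
    (hc : Nat.card D ≤ Nat.card S) {δ : G} (hδ : δ ∈ D) : ∃ s ∈ S, δ = c⁻¹ * s * c := by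
  have h1 : S.map (MulAut.conj c⁻¹).toMonoidHom ≤ D := by
    rintro _ ⟨s, hs, rfl⟩
    simpa using h s hs
  have h2 := Subgroup.eq_of_le_of_card_ge h1 (by
    rwa [Subgroup.card_map_of_injective (MulAut.conj c⁻¹).injective])
  rw [← h2] at hδ
  obtain ⟨s, hs, rfl⟩ := hδ
  exact ⟨s, hs, by simp⟩

omit [Fintype G] in
lemma blkF_cent_conj {g h : G} (hh : h ∈ Subgroup.normalizer (D : Set G)) :
    (∀ δ ∈ D, h * g * h⁻¹ * δ = δ * (h * g * h⁻¹)) ↔ ∀ δ ∈ D, g * δ = δ * g := by
  have aux : ∀ g h : G, h ∈ Subgroup.normalizer (D : Set G) → (∀ δ ∈ D, g * δ = δ * g) →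
      ∀ δ ∈ D, h * g * h⁻¹ * δ = δ * (h * g * h⁻¹) := by
    intro g h hh hg δ hδ
    have h1 := hg _ ((Subgroup.mem_normalizer_iff''.1 hh δ).1 hδ)
    calc h * g * h⁻¹ * δ = h * (g * (h⁻¹ * δ * h)) * h⁻¹ := by group
      _ = _ := by rw [h1]; group
  refine ⟨fun e => ?_, aux g h hh⟩
  have h1 := aux _ h⁻¹ (Subgroup.inv_mem _ hh) e
  have h2 : h⁻¹ * (h * g * h⁻¹) * h⁻¹⁻¹ = g := by group
  rwa [h2] at h1

lemma blkF_om_self (he : IsBlockIdem I i e) : I.om i (cf e) = 1 := by
  rw [he, I.om_zf]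
  exact ind_pos (fun a _ => by rw [sub_self]; exact zero_mem _)

lemma blkF_coeff_conj {e : MonoidAlgebra V G} (he : ∀ b, e * b = b * e) (h g : G) :
    e.coeff (h * g * h⁻¹) = e.coeff g :=
  Subtype.ext (isCF_cf_iff.2 he h g)

/-- From `1 = om i e` some class has `e y` and `om i (class of y)` units; a Sylow subgroup of the
centraliser of `y` has order at least that of `D` and is conjugate into `D`. -/
lemma DefV.exists_coeff (hp : (p : ℂ) ∈ V.nonunits) (hD : DefV V p I i D)
    (he : IsBlockIdem I i e) : ∃ y, (∀ δ ∈ D, y * δ = δ * y) ∧ e.coeff y ∉ maximalIdeal V := by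
  have hcf : IsCF (cf e) := isCF_cf_iff.2 he.isBlock.cent
  have h0 : ∃ y, cf e y ∉ V.nonunits ∧ I.om i (ind (IsConj y)) ∉ V.nonunits := by
    by_contra hno
    let _ : Fintype (ConjClasses G) := Fintype.ofFinite _
    apply one_not_mem_nonunits V
    rw [← blkF_om_self he, I.om_decomp i hcf]
    refine sum_mem fun K _ => ?_
    by_cases h1 : cf e K.out ∈ V.nonunits
    · exact mul_mem_nonunits h1 (I.om_mem i (isCF_ind (isConj_conj_iff _)) (ind_mem V _))
    · have h2 : I.om i (ind (IsConj K.out)) ∈ V.nonunits := by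
        by_contra h2
        exact hno ⟨_, h1, h2⟩
      rw [mul_comm]
      exact mul_mem_nonunits h2 (cf_mem _ _)
  obtain ⟨y, hy1, hy2⟩ := h0
  rw [cf_mem_nonunits_iff] at hy1
  obtain ⟨n, hn⟩ := IsPGroup.iff_card.1 hD.pD
  have h1 := hD.dvd y hy2
  rw [hn] at h1
  obtain ⟨K, hK⟩ := Sylow.exists_subgroup_card_pow_prime p h1
  have hc : ∀ s ∈ K.map (Subgroup.centralizer {y}).subtype, s * y = y * s := by
    rintro _ ⟨s, -, rfl⟩
    exact Subgroup.mem_centralizer_singleton_iff.1 s.2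
  obtain ⟨c, hc'⟩ := hD.conj_of_coeff hp he hy1 ((IsPGroup.of_card hK).map _) hc
  refine ⟨c⁻¹ * y * c⁻¹⁻¹, fun δ hδ => ?_, ?_⟩
  · obtain ⟨s, hs, rfl⟩ := blkF_surj hc' (by rw [Subgroup.card_subtype, hK, hn]) hδ
    calc c⁻¹ * y * c⁻¹⁻¹ * (c⁻¹ * s * c) = c⁻¹ * (y * s) * c := by group
      _ = _ := by rw [← hc s hs]; group
  · rwa [blkF_coeff_conj he.isBlock.cent]

omit [Fact p.Prime] in
lemma blkF_pmem (hp : (p : ℂ) ∈ V.nonunits) : (p : V) ∈ maximalIdeal V := by
  rw [← ValuationSubring.coe_mem_nonunits_iff]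
  simpa using hp

omit [Fintype H] in
lemma blkF_cut_cent (hH : H = Subgroup.normalizer (D : Set G)) (he : ∀ b, e * b = b * e)
    {eb : MonoidAlgebra V H} (h : IsCut D H e eb) : IsCF (cf eb) := by
  intro x g
  have hx : (x : G) ∈ Subgroup.normalizer (D : Set G) := hH ▸ x.2
  have h1 := blkF_cent_conj (g := (g : G)) hx
  unfold cf
  by_cases hg : ∀ δ ∈ D, (g : G) * δ = δ * g
  · rw [h.eq g hg, h.eq (x * g * x⁻¹) (h1.2 hg)]
    exact congrArg _ (blkF_coeff_conj he x g)
  · rw [h.zero g hg, h.zero (x * g * x⁻¹) (fun e => hg (h1.1 e))]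

/-- The truncation is central in the group ring of the normaliser and idempotent modulo the
maximal ideal (`pull_mul_brauer`; `eb` is `inc` of the pull-back to the centraliser). -/
lemma IsCut.basic (hp : (p : ℂ) ∈ V.nonunits) (hD : IsPGroup p D)
    (hH : H = Subgroup.normalizer (D : Set G)) (he : IsBlock e) {eb : MonoidAlgebra V H}
    (h : IsCut D H e eb) : (∀ b, eb * b = b * eb) ∧ toRes V H (eb * eb) = toRes V H eb ∧
      SuppCent ((D.subgroupOf H : Subgroup H) : Set H) eb := by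
  refine ⟨isCF_cf_iff.1 (blkF_cut_cent hH he.cent h), ?_, ?_⟩
  · let C := Subgroup.centralizer (D : Set G)
    let _ : Fintype C := Fintype.ofFinite _
    have hCH : C ≤ H := hH ▸ Subgroup.centralizer_le_normalizer _
    have hC : ∀ g, g ∈ C ↔ ∀ δ ∈ D, g * δ = δ * g := fun g =>
      ⟨fun hg δ hδ => (hg δ hδ).symm, fun hg δ hδ => (hg δ hδ).symm⟩
    have hfix : FixedBy (cjRep V G) D e := fun g _ => fixedBy_top_iff.2 he.cent g trivial
    have h1 := pull_mul_brauer (Fact.out : p.Prime) (blkF_pmem hp) hD C.subtype_injective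
      (fun g => by rw [Subgroup.range_subtype]; exact hC g) hfix hfix
    rw [he.idem, ← map_mul, ← sub_eq_zero, ← map_sub, toRes_eq_zero_iff] at h1
    have h2 : eb = inc V (Subgroup.inclusion hCH) (pull V C.subtype e) := by
      ext x
      by_cases hx : (x : G) ∈ C
      · have h3 : x = Subgroup.inclusion hCH ⟨x, hx⟩ := rfl
        rw [h.eq x ((hC _).1 hx)]
        conv_rhs => rw [h3, coeff_inc (Subgroup.inclusion_injective hCH), coeff_pull]
        rfl
      · rw [h.zero x (fun e => hx ((hC _).2 e)), coeff_inc_of_notMem]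
        rintro ⟨c, rfl⟩
        exact hx c.2
    have h4 := idem_inMax_map (inc V (Subgroup.inclusion hCH)).toLinearMap h1
    rw [AlgHom.toLinearMap_apply, map_sub, map_mul, ← h2, ← toRes_eq_zero_iff, map_sub,
      sub_eq_zero] at h4
    exact h4.symm
  · intro x hx δ hδ
    have h1 : ∀ δ ∈ D, (x : G) * δ = δ * x := by
      by_contra h1
      exact hx (h.zero x h1)
    exact Subtype.ext (h1 δ hδ)

omit [Fintype G] in
lemma blkF_om_nil (hp : (p : ℂ) ∈ V.nonunits) (hD : IsPGroup p D)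
    (hH : H = Subgroup.normalizer (D : Set G)) (I' : IrrData H) (j : Fin I'.n) {z : H → ℂ}
    (hz : IsCF z) (hV : ∀ h, z h ∈ V) (h0 : ∀ h : H, (∀ δ ∈ D, (h : G) * δ = δ * h) → z h = 0) :
    I'.om j z ∈ V.nonunits := by
  have hDH : D ≤ H := hH ▸ Subgroup.le_normalizer
  have : (D.subgroupOf H).Normal := (Subgroup.normal_subgroupOf_iff_le_normalizer hDH).2 hH.le
  refine I'.om_nil hp j (D.subgroupOf H) hD.comap_subtype hz hV fun x hx => h0 x fun δ hδ => ?_
  exact (congrArg Subtype.val (hx ⟨δ, hDH hδ⟩ hδ)).symm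

omit [Fintype G] in
lemma blkF_isCF_sub {a b : G → ℂ} (ha : IsCF a) (hb : IsCF b) : IsCF (a - b) := fun h g => by
  rw [Pi.sub_apply, Pi.sub_apply, ha h g, hb h g]

/-- `om_nil` compares `eb` with the restriction of `e`, then `exists_induced`. -/
lemma IsCut.om (hp : (p : ℂ) ∈ V.nonunits) (hD : IsPGroup p D)
    (hH : H = Subgroup.normalizer (D : Set G)) (he : IsBlockIdem I i e) {eb : MonoidAlgebra V H}
    (h : IsCut D H e eb) (I' : IrrData H) (j : Fin I'.n) :
    (IndV V I i I' j → I'.om j (cf eb) - 1 ∈ V.nonunits) ∧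
      (¬ IndV V I i I' j → I'.om j (cf eb) ∈ V.nonunits) := by
  have hcf : IsCF (cf e) := isCF_cf_iff.2 he.isBlock.cent
  have hcb := blkF_cut_cent hH he.isBlock.cent h
  have h1 : I'.om j (res H (cf e) - cf eb) ∈ V.nonunits := by
    refine blkF_om_nil hp hD hH I' j (blkF_isCF_sub (hcf.res H) hcb)
      (fun x => sub_mem (cf_mem e x) (cf_mem eb x)) fun x hx => ?_
    rw [Pi.sub_apply, res, cf, cf, h.eq x hx, sub_self]
  rw [I'.om_sub] at h1
  constructor
  · intro hj
    have h2 := hj.om hcf (cf_mem e)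
    rw [blkF_om_self he] at h2
    have h3 := sub_mem h2 h1
    rwa [sub_sub_sub_cancel_left] at h3
  · intro hj
    obtain ⟨k, hk⟩ := I.exists_induced hp H I' j D hD (hH ▸ Subgroup.le_normalizer) hH.le
      (fun g hg => hH ▸ Subgroup.centralizer_le_normalizer _ hg)
    have h2 : ¬ I.Bl V i k := by
      intro hb
      refine hj fun x => ?_
      have hx : IsCF (ind (IsConj x)) := isCF_ind (isConj_conj_iff x)
      have h3 := hk _ (I.om_mem_Lam hx (ind_mem V _))
      rw [I.zf_om hx] at h3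
      have h4 := add_mem h3 ((I.bl_iff i k).1 hb x)
      rwa [sub_add_sub_cancel] at h4
    have h3 := hk (ind (I.Bl V i)) (fun g => by rw [← he]; exact cf_mem e g)
    rw [← he, ind_neg h2, sub_zero] at h3
    have h4 := sub_mem h3 h1
    rwa [sub_sub_cancel] at h4

omit [Fintype G] [Fact p.Prime] in
/-- A maximal `p`-subgroup of `C`, as a Sylow subgroup. -/
lemma blkF_sylow {C : Subgroup G} (hD : IsPGroup p D) (hDC : D ≤ C)
    (hmax : ∀ S : Subgroup G, IsPGroup p S → D ≤ S → S ≤ C → S = D) :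
    ∃ P : Sylow p C, (P : Subgroup C) = D.subgroupOf C := by
  obtain ⟨P, hP⟩ := (hD.comap_subtype (K := C)).exists_le_sylow
  refine ⟨P, ?_⟩
  have h1 := hmax ((P : Subgroup C).map C.subtype) (P.isPGroup'.map _)
    (fun δ hδ => ⟨⟨δ, hDC hδ⟩, hP hδ, rfl⟩) (Subgroup.map_subtype_le _)
  rw [← h1]
  exact (Subgroup.comap_map_eq_self_of_injective C.subtype_injective _).symm

/-- If no `p`-subgroup of the normaliser centralising `w` is larger than `D`, the same holds in
`G` (normalisers grow in `p`-groups), and the conjugates of `w` centralising `D` are conjugate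
under the normaliser (Sylow in the centraliser). -/
lemma conj_of_max (hD : IsPGroup p D) (hH : H = Subgroup.normalizer (D : Set G)) {w : G}
    (hw : ∀ δ ∈ D, w * δ = δ * w)
    (hmax : ∀ S : Subgroup G, IsPGroup p S → D ≤ S → S ≤ H → (∀ s ∈ S, s * w = w * s) → S = D)
    {w' : G} (hc : IsConj w w') (hw' : ∀ δ ∈ D, w' * δ = δ * w') :
    ∃ h ∈ H, w' = h * w * h⁻¹ := by
  let C := Subgroup.centralizer ({w} : Set G)
  have hC : ∀ g, g ∈ C ↔ g * w = w * g := fun g => Subgroup.mem_centralizer_singleton_iff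
  have hDC : D ≤ C := fun δ hδ => (hC δ).2 (hw δ hδ).symm
  have hDH : D ≤ H := hH ▸ Subgroup.le_normalizer
  obtain ⟨P, hP⟩ := blkF_sylow hD hDC (by
    intro S hS hDS hSC
    have h1 := hmax (S ⊓ H) (hS.to_le inf_le_left) (le_inf hDS hDH) inf_le_right
      (fun s hs => (hC s).1 (hSC hs.1))
    have := hS.isNilpotent
    have h2 : D.subgroupOf S = ⊤ := by
      refine normalizerCondition_iff_only_full_group_self_normalizing.1
        Group.normalizerCondition_of_isNilpotent _ ?_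
      rw [← Subgroup.subgroupOf_normalizer_eq hDS, ← hH, ← h1, Subgroup.inf_subgroupOf_left]
    exact le_antisymm (Subgroup.subgroupOf_eq_top.1 h2) hDS)
  obtain ⟨c, rfl⟩ := isConj_iff.1 hc
  have hT : IsPGroup p ((D.map (MulAut.conj c⁻¹).toMonoidHom).subgroupOf C) :=
    (hD.map _).comap_subtype
  obtain ⟨Q, hQ⟩ := hT.exists_le_sylow
  obtain ⟨x, hx⟩ := MulAction.exists_smul_eq C Q P
  have h1 : (x : G) * c⁻¹ ∈ Subgroup.normalizer (D : Set G) := by
    refine Subgroup.mem_normalizer_fintype fun δ hδ => ?_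
    have h2 : c⁻¹ * δ * c ∈ C := by
      rw [hC]
      calc c⁻¹ * δ * c * w = c⁻¹ * (δ * (c * w * c⁻¹)) * c := by group
        _ = _ := by rw [← hw' δ hδ]; group
    have h3 : (⟨_, h2⟩ : C) ∈ (Q : Subgroup C) := hQ ⟨δ, hδ, by simp⟩
    have h4 : MulAut.conj x • (⟨_, h2⟩ : C) ∈ ((x • Q : Sylow p C) : Subgroup C) := by
      rw [Sylow.coe_subgroup_smul]
      exact Subgroup.smul_mem_pointwise_smul _ _ _ h3
    rw [hx, hP] at h4
    have h5 : (x : G) * (c⁻¹ * δ * c) * (x : G)⁻¹ ∈ D := h4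
    have h6 : (x : G) * c⁻¹ * δ * ((x : G) * c⁻¹)⁻¹ = (x : G) * (c⁻¹ * δ * c) * (x : G)⁻¹ := by
      group
    rw [h6]
    exact h5
  refine ⟨((x : G) * c⁻¹)⁻¹, hH ▸ Subgroup.inv_mem _ h1, ?_⟩
  calc c * w * c⁻¹ = c * (x : G)⁻¹ * (x * w) * c⁻¹ := by group
    _ = _ := by rw [(hC x).1 x.2]; group

/-- Orbit argument for a convolution. -/
lemma blkF_conv (hp : (p : ℂ) ∈ V.nonunits) {a b : G → ℂ} (ha : IsCF a) (hb : IsCF b)
    (haV : ∀ g, a g ∈ V) (hbV : ∀ g, b g ∈ V) {S : Subgroup G} (hS : IsPGroup p S) {v : G}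
    (hv : ∀ s ∈ S, s * v = v * s) (h : ∀ y, (∀ s ∈ S, s * y = y * s) → b y ∈ V.nonunits) :
    conv a b v ∈ V.nonunits := by
  rw [conv]
  refine sum_mem_of_conj S hS _ ?_ V.nonunits.toAddSubgroup ?_ ?_
  · intro g hg y
    have e2 : (g * y * g⁻¹)⁻¹ * v = g * (y⁻¹ * v) * g⁻¹ := by
      calc (g * y * g⁻¹)⁻¹ * v = g * y⁻¹ * g⁻¹ * (v * g) * g⁻¹ := by group
        _ = _ := by rw [← hv g hg]; group
    rw [ha g y, e2, hb g]
  · intro y
    rw [nsmul_eq_mul]
    exact mul_mem_nonunits hp (V.mul_mem _ _ (haV _) (hbV _))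
  · intro y hy
    rw [mul_comm]
    refine mul_mem_nonunits (h _ fun s hs => ?_) (haV _)
    calc s * (y⁻¹ * v) = y⁻¹ * (y * s) * y⁻¹ * v := by group
      _ = y⁻¹ * (s * v) := by rw [← hy s hs]; group
      _ = _ := by rw [hv s hs, mul_assoc]

lemma blkF_max (hp : (p : ℂ) ∈ V.nonunits) (hD : DefV V p I i D)
    (hH : H = Subgroup.normalizer (D : Set G)) (he : IsBlockIdem I i e) {eb : MonoidAlgebra V H}
    (h : IsCut D H e eb) {a : H → ℂ} (ha : IsCF a) (haV : ∀ g, a g ∈ V) {w : H}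
    (hw : conv a (cf eb) w ∉ V.nonunits) (S : Subgroup G) (hS : IsPGroup p S) (hDS : D ≤ S)
    (hSH : S ≤ H) (hc : ∀ s ∈ S, s * w = w * s) : S = D := by
  by_contra hne
  refine hw (blkF_conv hp ha (blkF_cut_cent hH he.isBlock.cent h) haV (cf_mem eb)
    (hS.comap_subtype (K := H)) (fun s hs => Subtype.ext (hc s hs)) fun y hy => ?_)
  have hy' : ∀ s ∈ S, s * (y : G) = y * s := fun s hs =>
    congrArg Subtype.val (hy ⟨s, hSH hs⟩ hs)
  rw [cf_mem_nonunits_iff, h.eq y (fun δ hδ => (hy' δ (hDS hδ)).symm)]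
  by_contra h1
  obtain ⟨c, hc'⟩ := hD.conj_of_coeff hp he h1 hS hy'
  exact hne (Subgroup.eq_of_le_of_card_ge hDS (blkF_card_le hc')).symm

lemma blkF_unique (hp : (p : ℂ) ∈ V.nonunits) (hD : DefV V p I i D)
    (hH : H = Subgroup.normalizer (D : Set G)) {I' : IrrData H} {j k : Fin I'.n}
    (hj : IndV V I i I' j) (hk : IndV V I i I' k) : I'.Bl V j k := by
  obtain ⟨e, he⟩ := exists_blockIdem (V := V) I i
  obtain ⟨eb, h⟩ := exists_isCut D H e
  have hcb := blkF_cut_cent hH he.isBlock.cent h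
  rw [I'.bl_iff]
  intro x
  have hx : ∀ x : H, IsCF (ind (IsConj x)) := fun x => isCF_ind (isConj_conj_iff x)
  have hz := (hx x).conv hcb
  have hzV : ∀ g, conv (ind (IsConj x)) (cf eb) g ∈ V := fun g =>
    sum_mem fun y _ => V.mul_mem _ _ (ind_mem _ _ _) (cf_mem _ _)
  have h1 : ∀ l, IndV V I i I' l →
      I'.om l (conv (ind (IsConj x)) (cf eb)) - I'.om l (ind (IsConj x)) ∈ V.nonunits := by
    intro l hl
    rw [I'.om_conv l (hx x) hcb, ← mul_sub_one, mul_comm]
    exact mul_mem_nonunits ((h.om hp hD.pD hH he I' l).1 hl) (I'.om_mem l (hx x) (ind_mem V _))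
  have h2 : I'.om k (conv (ind (IsConj x)) (cf eb)) - I'.om j (conv (ind (IsConj x)) (cf eb)) ∈
      V.nonunits := by
    let _ : Fintype (ConjClasses H) := Fintype.ofFinite _
    rw [I'.om_decomp k hz, I'.om_decomp j hz, ← Finset.sum_sub_distrib]
    refine sum_mem fun K _ => ?_
    rw [← mul_sub]
    generalize K.out = w
    by_cases hw : conv (ind (IsConj x)) (cf eb) w ∈ V.nonunits
    · exact mul_mem_nonunits hw (sub_mem (I'.om_mem k (hx w) (ind_mem V _))
        (I'.om_mem j (hx w) (ind_mem V _)))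
    rw [mul_comm]
    refine mul_mem_nonunits ?_ (hzV w)
    by_cases hc : ∀ δ ∈ D, (w : G) * δ = δ * w
    · have h3 : ∀ l, IndV V I i I' l →
          I'.om l (ind (IsConj w)) - I.om i (ind (IsConj (w : G))) ∈ V.nonunits := by
        intro l hl
        have h4 : I'.om l (res H (ind (IsConj (w : G))) - ind (IsConj w)) ∈ V.nonunits := by
          refine blkF_om_nil hp hD.pD hH I' l
            (blkF_isCF_sub ((isCF_ind (isConj_conj_iff _)).res H) (hx w))
            (fun y => sub_mem (ind_mem V _ _) (ind_mem V _ _)) fun y hy => ?_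
          rw [Pi.sub_apply, res, sub_eq_zero]
          by_cases hyw : IsConj (w : G) y
          · obtain ⟨c, hc1, hc2⟩ := conj_of_max hD.pD hH hc
              (blkF_max hp hD hH he h (hx x) (ind_mem V _) hw) hyw hy
            rw [ind_pos hyw, ind_pos (isConj_iff.2 ⟨⟨c, hc1⟩, Subtype.ext hc2.symm⟩)]
          · rw [ind_neg hyw, ind_neg (fun e => hyw (H.subtype.map_isConj e))]
        rw [I'.om_sub] at h4
        have h5 := sub_mem (hl w) h4
        rwa [sub_sub_sub_cancel_left] at h5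
      have h6 := sub_mem (h3 k hk) (h3 j hj)
      rwa [sub_sub_sub_cancel_right] at h6
    · have h3 : ∀ l, I'.om l (ind (IsConj w)) ∈ V.nonunits := by
        intro l
        refine blkF_om_nil hp hD.pD hH I' l (hx w) (ind_mem V _) fun y hy => ind_neg fun e => ?_
        obtain ⟨c, rfl⟩ := isConj_iff.1 e
        exact hc ((blkF_cent_conj (hH ▸ c.2)).1 hy)
      exact sub_mem (h3 k) (h3 j)
  have h3 := add_mem (sub_mem h2 (h1 k hk)) (h1 j hj)
  rwa [show ∀ a b c d : ℂ, a - b - (a - c) + (b - d) = c - d from fun a b c d => by ring] at h3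

omit [Fintype G] in
lemma blkF_nil_res {z : MonoidAlgebra V G} (h : NilR V z) : IsNilpotent (toRes V G z) := by
  obtain ⟨n, hn⟩ := h
  exact ⟨n, by rw [← map_pow]; exact toRes_eq_zero_iff.2 hn⟩

/-- Brauer's first main theorem.  Existence: `eb` is not nilpotent modulo the maximal ideal
(`exists_coeff`, `basic`), so by `nilR_of_om` and `IsCut.om` some `j` induces `i`.  Uniqueness:
for an `H`-class `L` of elements centralising `D` let `z = L * eb` (other classes are killed by
`om_nil`).  If the coefficient of `z` at `w` is a unit then `w` satisfies `hmax` (orbit argument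
for a `p`-subgroup `S` centralising `w`, and `conj_of_coeff`), so by `conj_of_max` and `om_nil`
the central character of the `H`-class of `w` is that of `i` at the `G`-class. -/
theorem exists_correspondent (hp : (p : ℂ) ∈ V.nonunits) (hD : DefV V p I i D)
    (hH : H = Subgroup.normalizer (D : Set G)) (I' : IrrData H) :
    ∃ i', ∀ j, I'.Bl V i' j ↔ IndV V I i I' j := by
  have h0 : ∃ j, IndV V I i I' j := by
    by_contra hno
    obtain ⟨e, he⟩ := exists_blockIdem (V := V) I i
    obtain ⟨eb, h⟩ := exists_isCut D H e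
    obtain ⟨h1, h2, -⟩ := h.basic hp hD.pD hH he.isBlock
    have h3 := blkF_nil_res (nilR_of_om I' h1
      fun j => (h.om hp hD.pD hH he I' j).2 fun e => hno ⟨j, e⟩)
    rw [map_mul] at h2
    have h4 := IsIdempotentElem.eq_zero_of_isNilpotent h2 h3
    rw [toRes_eq_zero_iff, inMax_monoidAlgebra_iff] at h4
    obtain ⟨y, hy1, hy2⟩ := hD.exists_coeff hp he
    have hy : y ∈ H := hH ▸ Subgroup.centralizer_le_normalizer _ fun δ hδ => (hy1 δ hδ).symm
    have h5 := h4 ⟨y, hy⟩
    rw [h.eq ⟨y, hy⟩ hy1] at h5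
    exact hy2 h5
  obtain ⟨i', hi'⟩ := h0
  refine ⟨i', fun j => ⟨fun hj x => ?_, fun hj => blkF_unique hp hD hH hi' hj⟩⟩
  have h1 := hj _ (I'.om_mem_Lam ((isCF_ind (isConj_conj_iff x)).res H) fun g => ind_mem V _ _)
  have h2 := add_mem h1 (hi' x)
  rwa [sub_add_sub_cancel] at h2

lemma blkF_idem_eq {A : Type} [Ring A] {a b : A} (ha : a * a = a) (hb : b * b = b)
    (hab : a * b = b * a) (h : IsNilpotent (a - b)) : a = b := by
  have h1 : (a - b) * (a - b) = a + b - (a * b + a * b) := by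
    rw [sub_mul, mul_sub, mul_sub, ha, hb, ← hab]; abel
  have h2 : a * (a * b) = a * b := by rw [← mul_assoc, ha]
  have h3 : b * (a * b) = a * b := by rw [← mul_assoc, ← hab, mul_assoc, hb]
  have h4 : (a - b) * ((a - b) * (a - b)) = a - b := by
    rw [h1]
    simp only [mul_sub, sub_mul, mul_add, ha, hb, h2, h3, ← hab]
    abel
  have h5 : IsIdempotentElem ((a - b) * (a - b)) := by
    change _ * _ = _
    rw [mul_assoc, h4]
  have h6 := h5.eq_zero_of_isNilpotent ((Commute.refl _).isNilpotent_mul_left h)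
  rw [h6, mul_zero] at h4
  exact sub_eq_zero.1 h4.symm

omit [Group G] [Fintype G] in
lemma blkF_cf_sum {ι : Type} [Fintype ι] (b : ι → MonoidAlgebra V G) (x : G) :
    cf (∑ i, b i) x = ∑ i, cf (b i) x := by
  simp [cf]

/-- The class sum as a relative trace. -/
lemma blkF_class (y : G) :
    cf (rtr (cjRep V G) (Subgroup.centralizer {y}) ⊤ (single y 1)) = ind (IsConj y) := by
  classical
  have hfix : FixedBy (cjRep V G) (Subgroup.centralizer {y}) (single y 1) := by
    intro g hg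
    rw [cjRep_apply, MonoidAlgebra.single_mul_single, MonoidAlgebra.single_mul_single,
      ← mul_assoc, Subgroup.mem_centralizer_singleton_iff.1 hg, mul_inv_cancel_right, mul_one,
      mul_one]
  obtain ⟨n, t, -, ht, hu⟩ := exists_transversal (le_top : Subgroup.centralizer {y} ≤ ⊤)
  rw [rtr_eq_sum le_top hfix t ht hu]
  funext x
  have h1 : cf (∑ i, cjRep V G (t i) (single y 1)) x =
      ∑ i, if y = (t i)⁻¹ * x * t i then (1 : ℂ) else 0 := by
    rw [blkF_cf_sum]
    refine Finset.sum_congr rfl fun i _ => ?_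
    rw [cf, coeff_cjRep, MonoidAlgebra.coeff_single, Finsupp.single_apply]
    split_ifs <;> rfl
  rw [h1]
  by_cases hx : IsConj y x
  · rw [ind_pos hx]
    obtain ⟨c, rfl⟩ := isConj_iff.1 hx
    have key : ∀ i, y = (t i)⁻¹ * (c * y * c⁻¹) * t i ↔
        (t i)⁻¹ * c ∈ Subgroup.centralizer {y} := by
      intro i
      have : (t i)⁻¹ * (c * y * c⁻¹) * t i = (t i)⁻¹ * c * y * ((t i)⁻¹ * c)⁻¹ := by group
      rw [this, Subgroup.mem_centralizer_singleton_iff, eq_comm, mul_inv_eq_iff_eq_mul]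
    obtain ⟨i, hi, hi'⟩ := hu c trivial
    rw [Finset.sum_eq_single i, if_pos ((key i).2 hi)]
    · intro j _ hj
      exact if_neg fun e => hj (hi' j ((key j).1 e))
    · intro e
      exact absurd (Finset.mem_univ i) e
  · rw [ind_neg hx]
    refine Finset.sum_eq_zero fun i _ => if_neg fun e => hx ?_
    exact isConj_iff.2 ⟨t i, by rw [e]; group⟩

/-- A central element is congruent to a trace from `D` if `D` is a Sylow subgroup of the
centraliser of each element at which the coefficient is a unit. -/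
lemma blkF_trace (hp : (p : ℂ) ∈ V.nonunits) (hD : IsPGroup p D) {f : MonoidAlgebra V G}
    (hf : ∀ b, f * b = b * f) (hs : SuppCent (D : Set G) f)
    (hmax : ∀ y, f.coeff y ∉ maximalIdeal V → ∀ S : Subgroup G, IsPGroup p S → D ≤ S →
      (∀ s ∈ S, s * y = y * s) → S = D) :
    ∃ a, SuppCent (D : Set G) a ∧ InMax V (f - rtr (cjRep V G) D ⊤ a) := by
  let _ : Fintype (ConjClasses G) := Fintype.ofFinite _
  have h1 : f = ∑ K : ConjClasses G, f.coeff K.out •
      rtr (cjRep V G) (Subgroup.centralizer {K.out}) ⊤ (single K.out 1) := by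
    apply cf_injective
    funext x
    rw [sum_class_decomp (isCF_cf_iff.2 hf) x]
    simp only [← blkF_class (V := V)]
    rw [blkF_cf_sum]
    rfl
  have h2 : f ∈ (centAlg V (D : Set G)).toSubmodule.map (rtr (cjRep V G) D ⊤) ⊔
      maximalIdeal V • ⊤ := by
    rw [h1]
    refine Submodule.sum_mem _ fun K _ => ?_
    generalize K.out = y
    by_cases hy : f.coeff y ∈ maximalIdeal V
    · exact Submodule.mem_sup_right (Submodule.smul_mem_smul hy Submodule.mem_top)
    refine Submodule.mem_sup_left (Submodule.smul_mem _ _ ?_)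
    have hc : ∀ δ ∈ D, y * δ = δ * y := hs y fun e => hy (e ▸ zero_mem _)
    have hDC : D ≤ Subgroup.centralizer {y} := fun δ hδ =>
      Subgroup.mem_centralizer_singleton_iff.2 (hc δ hδ).symm
    obtain ⟨P, hP⟩ := blkF_sylow hD hDC fun S hS hDS hSC =>
      hmax y hy S hS hDS fun s hs => Subgroup.mem_centralizer_singleton_iff.1 (hSC hs)
    have h3 : ¬ p ∣ D.relIndex (Subgroup.centralizer {y}) := by
      rw [Subgroup.relIndex, ← hP]
      exact P.not_dvd_index
    have h4 : ((D.relIndex (Subgroup.centralizer {y}) : ℕ) : ℂ) ≠ 0 :=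
      Nat.cast_ne_zero.2 fun e => h3 (e ▸ dvd_zero p)
    have hfix : FixedBy (cjRep V G) (Subgroup.centralizer {y}) (single y 1) := by
      intro g hg
      rw [cjRep_apply, MonoidAlgebra.single_mul_single, MonoidAlgebra.single_mul_single,
        ← mul_assoc, Subgroup.mem_centralizer_singleton_iff.1 hg, mul_inv_cancel_right, mul_one,
        mul_one]
    have h5 := rtr_trans hDC le_top (fun g hg => hfix g (hDC hg))
    rw [rtr_of_fixed hDC hfix, map_nsmul] at h5
    refine ⟨(⟨_, inv_nat_mem hp h3⟩ : V) • single y 1, Submodule.smul_mem _ _ ?_, ?_⟩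
    · intro x hx
      classical
      rw [MonoidAlgebra.coeff_single, Finsupp.single_apply] at hx
      have : y = x := by
        by_contra e
        exact hx (if_neg e)
      exact this ▸ hc
    · rw [map_smul, ← h5, ← Nat.cast_smul_eq_nsmul V, smul_smul]
      have : (⟨_, inv_nat_mem hp h3⟩ : V) * (D.relIndex (Subgroup.centralizer {y}) : ℕ) = 1 :=
        Subtype.ext (by simpa using inv_mul_cancel₀ h4)
      rw [this, one_smul]
  obtain ⟨_, ⟨a, ha, rfl⟩, m, hm, h3⟩ := Submodule.mem_sup.1 h2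
  refine ⟨a, ha, ?_⟩
  rw [← h3, add_sub_cancel_left]
  exact hm

lemma blkF_exact [D.Normal] {f a : MonoidAlgebra V G} (hi : f * f = f) (hf : ∀ b, f * b = b * f)
    (hs : SuppCent (D : Set G) f) (ha : SuppCent (D : Set G) a)
    (h : InMax V (f - rtr (cjRep V G) D ⊤ a)) :
    ∃ a', SuppCent (D : Set G) a' ∧ f = rtr (cjRep V G) D ⊤ a' := by
  have hr : ∀ b, rtr (cjRep V G) D ⊤ a * b = b * rtr (cjRep V G) D ⊤ a :=
    fixedBy_top_iff.1 (rtr_fixed le_top ha.fixedBy)
  have hm : f - rtr (cjRep V G) D ⊤ a ∈ centAlg V (D : Set G) :=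
    sub_mem (mem_centAlg.2 hs) (mem_centAlg.2 (ha.rtr D ⊤))
  have h1 : InMax V (⟨_, hm⟩ : centAlg V (D : Set G)) := by
    obtain ⟨c, hc, y, hy⟩ := inMax_iff_valuation.1 h
    by_cases hc0 : c = 0
    · have : (⟨_, hm⟩ : centAlg V (D : Set G)) = 0 := Subtype.ext (hy.trans (by
        rw [hc0, zero_smul]; rfl))
      rw [this]
      exact Submodule.zero_mem _
    · have hy' : y ∈ centAlg V (D : Set G) := by
        intro x hx
        refine hm x ?_
        rw [hy]
        exact mul_ne_zero hc0 hx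
      exact inMax_iff_valuation.2 ⟨c, hc, ⟨y, hy'⟩, Subtype.ext hy⟩
  obtain ⟨u, hu⟩ := h1.nilR.isUnit_one_sub
  have h2 : ((u⁻¹ : (centAlg V (D : Set G))ˣ) : centAlg V (D : Set G)).1 *
      (1 - (f - rtr (cjRep V G) D ⊤ a)) = 1 := by
    have := congrArg Subtype.val u.inv_mul
    rw [hu] at this
    exact this
  have h3 : (1 - (f - rtr (cjRep V G) D ⊤ a)) *
      ((u⁻¹ : (centAlg V (D : Set G))ˣ) : centAlg V (D : Set G)).1 = 1 := by
    have := congrArg Subtype.val u.mul_inv
    rw [hu] at this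
    exact this
  have hv := ((u⁻¹ : (centAlg V (D : Set G))ˣ) : centAlg V (D : Set G)).2
  generalize ((u⁻¹ : (centAlg V (D : Set G))ˣ) : centAlg V (D : Set G)).1 = v at h2 h3 hv
  have h4 : ∀ b, (1 - (f - rtr (cjRep V G) D ⊤ a)) * b = b * (1 - (f - rtr (cjRep V G) D ⊤ a)) := by
    intro b
    rw [sub_mul, sub_mul, mul_sub, mul_sub, hf, hr, one_mul, mul_one]
  have h5 : ∀ b, v * f * b = b * (v * f) := by
    intro b
    have : v * b = b * v := by
      calc v * b = v * b * ((1 - (f - rtr (cjRep V G) D ⊤ a)) * v) := by rw [h3, mul_one]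
        _ = v * (1 - (f - rtr (cjRep V G) D ⊤ a)) * b * v := by
          rw [mul_assoc v _ b, h4 b]; simp only [mul_assoc]
        _ = b * v := by rw [h2, one_mul]
    rw [mul_assoc, hf, ← mul_assoc, this, mul_assoc]
  refine ⟨v * f * a, mem_centAlg.1 (mul_mem (mul_mem hv (mem_centAlg.2 hs)) (mem_centAlg.2 ha)), ?_⟩
  rw [← (mul_rtr_cj (fixedBy_top_iff.2 h5) a).1]
  calc f = v * (1 - (f - rtr (cjRep V G) D ⊤ a)) * f := by rw [h2, one_mul]
    _ = _ := by
      rw [mul_assoc, mul_assoc, sub_mul, sub_mul, one_mul, hi, sub_sub_cancel, hf]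

/-- `eb - f` has nonunit central characters, so is nilpotent modulo the maximal ideal; commuting
idempotents with nilpotent difference agree.  Lift `eb` to an idempotent in its adjoin
(`exists_idem_lift`), inside `centAlg`; it equals `f` (`idem_eq_of_inMax`).  If `f.coeff y` is a
unit then `D` is a Sylow subgroup of the centraliser of `y` in `H`, so the class sum of `y` is a
unit times `rtr D ⊤ y` (`rtr_trans`, `rtr_of_fixed`).  Thus `f = rtr a₁ + m` with `m` central,
supported on the centraliser, with coefficients in the maximal ideal; `1 - m` is a unit of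
`centAlg` and `a = (1 - m)⁻¹ f a₁`. -/
theorem exists_blockF (hp : (p : ℂ) ∈ V.nonunits) (hD : DefV V p I i D)
    (hH : H = Subgroup.normalizer (D : Set G)) (he : IsBlockIdem I i e) {I' : IrrData H}
    {i' : Fin I'.n} (hi : ∀ j, I'.Bl V i' j ↔ IndV V I i I' j) {f : MonoidAlgebra V H}
    (hf : IsBlockIdem I' i' f) :
    (∃ a, BlockF (D.subgroupOf H) f a) ∧ ∀ h : H, (∀ δ ∈ D.subgroupOf H, h * δ = δ * h) →
      e.coeff h - f.coeff h ∈ maximalIdeal V := by
  obtain ⟨eb, h⟩ := exists_isCut D H e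
  obtain ⟨h1, h2, h3⟩ := h.basic hp hD.pD hH he.isBlock
  have hb := hf.isBlock
  have hDH : D ≤ H := hH ▸ Subgroup.le_normalizer
  have : (D.subgroupOf H).Normal := (Subgroup.normal_subgroupOf_iff_le_normalizer hDH).2 hH.le
  rw [map_mul] at h2
  have h4 : NilR V (eb - f) := by
    refine nilR_of_om I' (fun b => by rw [sub_mul, mul_sub, h1, hb.cent]) fun j => ?_
    have h5 : cf (eb - f) = cf eb - cf f := by
      funext x
      simp [cf]
    rw [h5, I'.om_sub, hf, I'.om_zf]
    by_cases hj : IndV V I i I' j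
    · rw [ind_pos ((hi j).2 hj)]
      exact (h.om hp hD.pD hH he I' j).1 hj
    · rw [ind_neg (fun e => hj ((hi j).1 e)), sub_zero]
      exact (h.om hp hD.pD hH he I' j).2 hj
  have h5 : toRes V H eb = toRes V H f := by
    refine blkF_idem_eq h2 (by rw [← map_mul, hb.idem]) (by rw [← map_mul, h1, map_mul]) ?_
    rw [← map_sub]
    exact blkF_nil_res h4
  have h6 : ∀ x : H, (∀ δ ∈ D.subgroupOf H, x * δ = δ * x) →
      e.coeff x - f.coeff x ∈ maximalIdeal V := by
    intro x hx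
    rw [← sub_eq_zero, ← map_sub, toRes_eq_zero_iff, inMax_monoidAlgebra_iff] at h5
    rw [← h.eq x fun δ hδ => congrArg Subtype.val (hx ⟨δ, hDH hδ⟩ hδ)]
    simpa using h5 x
  refine ⟨?_, h6⟩
  obtain ⟨ε, hε1, hε2, hε3⟩ := exists_idem_lift (monicSplit_valuationSubring V) (toRes V H)
    (fun z hz => toRes_eq_zero_iff.2 hz) (y := eb) h2
  have h7 : ε = f := idem_eq_of_inMax (R := V) hε2 hb.idem (hb.cent ε).symm (by
    rw [← toRes_eq_zero_iff, map_sub, hε3, h5, sub_self])
  have h8 : SuppCent ((D.subgroupOf H : Subgroup H) : Set H) f := by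
    rw [← mem_centAlg, ← h7]
    exact Algebra.adjoin_le (Set.singleton_subset_iff.2 (mem_centAlg.2 h3)) hε1
  obtain ⟨a, ha1, ha2⟩ := blkF_trace hp (hD.pD.comap_subtype (K := H)) hb.cent h8 (by
    intro y hy S hS hDS hc
    have hy' : e.coeff y ∉ maximalIdeal V := by
      intro h9
      have := sub_mem h9 (h6 y (h8 y fun e => hy (e ▸ zero_mem _)))
      rw [sub_sub_cancel] at this
      exact hy this
    obtain ⟨c, hc'⟩ := hD.conj_of_coeff hp he hy' (hS.map H.subtype) (by
      rintro _ ⟨s, hs, rfl⟩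
      exact congrArg Subtype.val (hc s hs))
    have h9 := blkF_card_le hc'
    rw [Subgroup.card_subtype] at h9
    refine (Subgroup.eq_of_le_of_card_ge hDS (h9.trans_eq ?_)).symm
    exact (Nat.card_congr (Subgroup.subgroupOfEquivOfLe hDH).toEquiv).symm)
  obtain ⟨a', h9, h10⟩ := blkF_exact hb.idem hb.cent h8 ha1 ha2
  exact ⟨a', hb, h9, h10⟩

end Pool.Agent.Lib.MP_b6945b_al.St
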