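import Pool.Agent.Lib.MP_b6945b_al.St.KR1
import Pool.Agent.Lib.MP_b6945b_al.St.BlkF

set_option autoImplicit false

/-!
Blocks of the normaliser of a subgroup of order `p`.
-/

namespace Pool.Agent.Lib.MP_b6945b_al.St

open Finset

variable {p : ℕ} {G : Type} [Group G] [Finite G] {M : Ideal (integralClosure ℤ ℂ)}

omit [Finite G] in
lemma kr1b_indTo_iff [Fintype G] {V : ValuationSubring ℂ}
    (hV : ∀ a : ℂ, IsIntegral ℤ a → (InIdeal M a ↔ a ∈ V.nonunits)) (I : IrrData G)
    (i : Fin I.n) {N : Subgroup G} [Fintype N] (I' : IrrData N) (j : Fin I'.n) :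
    IndTo M (I.χ i) N (I'.χ j) ↔ IndV V I i I' j := by
  refine forall_congr' fun x => ?_
  rw [omega_eq, omega_eq, hV _ ((I'.om_ind_int j _ (fun h g => isConj_conj_iff x h g)).sub
    (I.om_ind_int i _ (isConj_conj_iff x)))]
  rfl

omit [Finite G] in
lemma kr1b_card_cent_conj {x y : G} (h : IsConj x y) :
    Nat.card (Subgroup.centralizer ({y} : Set G)) =
      Nat.card (Subgroup.centralizer ({x} : Set G)) := by
  obtain ⟨c, rfl⟩ := isConj_iff.1 h
  refine Nat.card_congr (Equiv.subtypeEquiv (MulAut.conj c⁻¹).toEquiv fun g => ?_)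
  rw [Subgroup.mem_centralizer_singleton_iff, Subgroup.mem_centralizer_singleton_iff]
  change _ ↔ c⁻¹ * g * c⁻¹⁻¹ * x = x * (c⁻¹ * g * c⁻¹⁻¹)
  constructor
  · intro e
    calc c⁻¹ * g * c⁻¹⁻¹ * x = c⁻¹ * (g * (c * x * c⁻¹)) * c := by group
      _ = _ := by rw [e]; group
  · intro e
    calc g * (c * x * c⁻¹) = c * (c⁻¹ * g * c⁻¹⁻¹ * x) * c⁻¹ := by group
      _ = _ := by rw [e]; group

omit [Finite G] in
lemma kr1b_card_cent_dvd {N : Subgroup G} (y : N) :
    Nat.card (Subgroup.centralizer ({y} : Set N)) ∣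
      Nat.card (Subgroup.centralizer ({(y : G)} : Set G)) := by
  rw [← Subgroup.card_subtype N]
  refine Subgroup.card_dvd_of_le ?_
  rintro _ ⟨g, hg, rfl⟩
  rw [Subgroup.mem_centralizer_singleton_iff]
  exact congrArg Subtype.val (Subgroup.mem_centralizer_singleton_iff.1 hg)

/-- A maximal `p`-subgroup of the centraliser in the normaliser is Sylow in the centraliser. -/
lemma kr1b_sylow [Fact p.Prime] {Q : Subgroup G} (hQ : IsPGroup p Q) {w : G}
    (hw : ∀ δ ∈ Q, w * δ = δ * w)
    (hmax : ∀ S : Subgroup G, IsPGroup p S → Q ≤ S → S ≤ Subgroup.normalizer (Q : Set G) →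
      (∀ s ∈ S, s * w = w * s) → S = Q) {n : ℕ}
    (hn : p ^ n ∣ Nat.card (Subgroup.centralizer ({w} : Set G))) : p ^ n ∣ Nat.card Q := by
  have hC : ∀ g, g ∈ Subgroup.centralizer ({w} : Set G) ↔ g * w = w * g := fun g =>
    Subgroup.mem_centralizer_singleton_iff
  have hQC : Q ≤ Subgroup.centralizer ({w} : Set G) := fun δ hδ => (hC δ).2 (hw δ hδ).symm
  obtain ⟨P, hP⟩ := blkF_sylow hQ hQC (by
    intro S hS hDS hSC
    have h1 := hmax (S ⊓ Subgroup.normalizer (Q : Set G)) (hS.to_le inf_le_left)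
      (le_inf hDS Subgroup.le_normalizer) inf_le_right (fun s hs => (hC s).1 (hSC hs.1))
    have := hS.isNilpotent
    have h2 : Q.subgroupOf S = ⊤ := by
      refine normalizerCondition_iff_only_full_group_self_normalizing.1
        Group.normalizerCondition_of_isNilpotent _ ?_
      rw [← Subgroup.subgroupOf_normalizer_eq hDS]
      conv_rhs => rw [← h1]
      rw [Subgroup.inf_subgroupOf_left]
    exact le_antisymm (Subgroup.subgroupOf_eq_top.1 h2) hDS)
  have h3 := P.pow_dvd_card_of_pow_dvd_card hn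
  rwa [hP, Nat.card_congr (Subgroup.subgroupOfEquivOfLe hQC).toEquiv] at h3

/-- Upper bound: the class of `x` meets `N` in a class not killed by `θ`, so the order of `D'`
divides that of a centraliser with `p`-part `p ^ 2`.  Lower bound: `Q ≤ D'`; if they were equal,
`Q` would be a Sylow subgroup of the centraliser in `N` of an `x'` not killed by `θ`; by
`conj_of_max`-type arguments it is then Sylow in the centraliser in `G`, the conjugates of `x'`
centralising `Q` are `N`-conjugate, so by `om_nil` `χ` does not kill the class of `x'`, and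
`p ^ 2` divides the order of its centraliser. -/
theorem card_defect_local (hp : p.Prime) (hM : M.IsMaximal)
    (hpM : (p : integralClosure ℤ ℂ) ∈ M) {χ : G → ℂ} (hχ : IsIrrChar χ) {D : Subgroup G}
    (hD : IsDefectGroup p M χ D) (hc : Nat.card D = p ^ 2) {Q : Subgroup G}
    (hQ : Nat.card Q = p) {θ : Subgroup.normalizer (Q : Set G) → ℂ} (hθ : IsIrrChar θ)
    (hi : IndTo M χ _ θ) {D' : Subgroup (Subgroup.normalizer (Q : Set G))}
    (hD' : IsDefectGroup p M θ D') : Nat.card D' = p ^ 2 := by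
  classical
  have : Fact p.Prime := ⟨hp⟩
  let _ : Fintype G := Fintype.ofFinite G
  let _ : Fintype (Subgroup.normalizer (Q : Set G)) := Fintype.ofFinite _
  obtain ⟨I⟩ := exists_irrData G
  obtain ⟨I'⟩ := exists_irrData (Subgroup.normalizer (Q : Set G))
  obtain ⟨V, hV⟩ := exists_val_of_maximal M hM
  have hpV : (p : ℂ) ∈ V.nonunits := (hV _ (isIntegral_natCast p)).1 ⟨_, hpM, by simp⟩
  have hQp : IsPGroup p Q := IsPGroup.of_card (n := 1) (by rw [hQ, pow_one])
  have hQN : Q ≤ Subgroup.normalizer (Q : Set G) := Subgroup.le_normalizer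
  have hQD : Q.subgroupOf (Subgroup.normalizer (Q : Set G)) ≤ D' :=
    le_defectGroup hp hM hpM hθ hD' hQp.comap_subtype
  have hQc : Nat.card (Q.subgroupOf (Subgroup.normalizer (Q : Set G))) = p := by
    rw [Nat.card_congr (Subgroup.subgroupOfEquivOfLe hQN).toEquiv, hQ]
  obtain ⟨k, hk⟩ := IsPGroup.iff_card.1 (IsDefectGroup.isPGroup' hD')
  obtain ⟨i, rfl⟩ := (isIrrChar_iff I).1 hχ
  obtain ⟨j, rfl⟩ := (isIrrChar_iff I').1 hθ
  have hiV := (kr1b_indTo_iff hV I i I' j).1 hi
  have hint : ∀ x, IsIntegral ℤ (I.om i (ind (IsConj x))) := fun x =>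
    I.om_ind_int i _ (isConj_conj_iff x)
  have hint' : ∀ x, IsIntegral ℤ (I'.om j (ind (IsConj x))) := fun x =>
    I'.om_ind_int j _ (isConj_conj_iff x)
  obtain ⟨⟨x, hx, P, hP⟩, hmin⟩ := hD
  obtain ⟨⟨w, hw, P', hP'⟩, hmin'⟩ := hD'
  rw [omega_eq, hV _ (hint x)] at hx
  rw [omega_eq, hV _ (hint' w)] at hw
  have hup : k ≤ 2 := by
    have h1 : I'.om j (res _ (ind (IsConj x))) ∉ V.nonunits := by
      intro h
      have := sub_mem h (hiV x)
      rw [sub_sub_cancel] at this
      exact hx this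
    have h2 : ∃ y : Subgroup.normalizer (Q : Set G), IsConj x (y : G) ∧
        I'.om j (ind (IsConj y)) ∉ V.nonunits := by
      by_contra hno
      apply h1
      let _ : Fintype (ConjClasses (Subgroup.normalizer (Q : Set G))) := Fintype.ofFinite _
      rw [I'.om_decomp j ((isCF_ind (isConj_conj_iff x)).res _)]
      refine sum_mem fun K _ => ?_
      by_cases e : IsConj x (K.out : G)
      · rw [mul_comm]
        refine mul_mem_nonunits ?_ (ind_mem V _ _)
        by_contra h3
        exact hno ⟨_, e, h3⟩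
      · rw [res, ind_neg e, zero_mul]
        exact zero_mem _
    obtain ⟨y, hy1, hy2⟩ := h2
    have h3 := (hmin' y (by rwa [omega_eq, hV _ (hint' y)])).trans (kr1b_card_cent_dvd y)
    rw [kr1b_card_cent_conj hy1, hk] at h3
    have h4 := P.pow_dvd_card_of_pow_dvd_card h3
    rw [← Subgroup.card_subtype, ← hP, hc] at h4
    exact (Nat.pow_dvd_pow_iff_le_right hp.one_lt).1 h4
  have hlow : 1 ≤ k := by
    have h1 := Subgroup.card_dvd_of_le hQD
    rw [hQc, hk] at h1
    exact (Nat.pow_dvd_pow_iff_le_right hp.one_lt).1 (by rwa [pow_one])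
  by_contra hne
  have hk1 : k = 1 := by
    have : k ≠ 2 := fun e => hne (by rw [hk, e])
    omega
  rw [hk1, pow_one] at hk
  have hwQ : ∀ δ ∈ Q, (w : G) * δ = δ * w := by
    intro δ hδ
    have h1 : (⟨δ, hQN hδ⟩ : Subgroup.normalizer (Q : Set G)) ∈ D' := hQD hδ
    rw [hP'] at h1
    have h2 := Subgroup.mem_centralizer_singleton_iff.1 (Subgroup.map_subtype_le _ h1)
    exact (congrArg Subtype.val h2).symm
  have hmax : ∀ S : Subgroup G, IsPGroup p S → Q ≤ S → S ≤ Subgroup.normalizer (Q : Set G) →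
      (∀ s ∈ S, s * w = w * s) → S = Q := by
    intro S hS hQS hSN hSw
    obtain ⟨m, hm⟩ := IsPGroup.iff_card.1 hS
    have h1 : S.subgroupOf (Subgroup.normalizer (Q : Set G)) ≤ Subgroup.centralizer {w} :=
      fun s hs => Subgroup.mem_centralizer_singleton_iff.2 (Subtype.ext (hSw s hs))
    have h2 := Subgroup.card_dvd_of_le h1
    rw [Nat.card_congr (Subgroup.subgroupOfEquivOfLe hSN).toEquiv, hm] at h2
    have h3 := P'.pow_dvd_card_of_pow_dvd_card h2
    rw [← Subgroup.card_subtype, ← hP', hk, ← hm, ← hQ] at h3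
    exact (Subgroup.eq_of_le_of_card_ge hQS (Nat.le_of_dvd Nat.card_pos h3)).symm
  have hxw : ∀ y : Subgroup.normalizer (Q : Set G), IsCF (ind (IsConj y)) := fun y =>
    isCF_ind (isConj_conj_iff y)
  have h4 : I'.om j (res _ (ind (IsConj (w : G))) - ind (IsConj w)) ∈ V.nonunits := by
    refine blkF_om_nil hpV hQp rfl I' j
      (blkF_isCF_sub ((isCF_ind (isConj_conj_iff _)).res _) (hxw w))
      (fun y => sub_mem (ind_mem V _ _) (ind_mem V _ _)) fun y hy => ?_
    rw [Pi.sub_apply, res, sub_eq_zero]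
    by_cases hyw : IsConj (w : G) y
    · obtain ⟨c, hc1, hc2⟩ := conj_of_max hQp rfl hwQ hmax hyw hy
      rw [ind_pos hyw, ind_pos (isConj_iff.2 ⟨⟨c, hc1⟩, Subtype.ext hc2.symm⟩)]
    · rw [ind_neg hyw, ind_neg (fun e => hyw ((Subgroup.subtype _).map_isConj e))]
  rw [I'.om_sub] at h4
  have h5 := sub_mem (hiV w) h4
  rw [sub_sub_sub_cancel_left] at h5
  have h6 : I.om i (ind (IsConj (w : G))) ∉ V.nonunits := by
    intro h
    have := add_mem h5 h
    rw [sub_add_cancel] at this
    exact hw this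
  have h7 := hmin w (by rwa [omega_eq, hV _ (hint w)])
  rw [hc] at h7
  have h8 := kr1b_sylow hQp hwQ hmax h7
  rw [hQ] at h8
  have h9 := (Nat.pow_dvd_pow_iff_le_right hp.one_lt).1 (show p ^ 2 ∣ p ^ 1 by rwa [pow_one])
  omega

omit [Finite G] in
open Classical in
lemma kr1b_kInd_map [Fintype G] {V : ValuationSubring ℂ}
    (hV : ∀ a : ℂ, IsIntegral ℤ a → (InIdeal M a ↔ a ∈ V.nonunits)) (I : IrrData G)
    (i : Fin I.n) {N : Subgroup G} (L : Subgroup N) [Fintype L] (J : IrrData L) :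
    kInd M (I.χ i) (L.map N.subtype) = (univ.filter fun l : Fin J.n => ∀ x : G,
      J.om l (res L (res N (ind (IsConj x)))) - I.om i (ind (IsConj x)) ∈ V.nonunits).card := by
  have hint : ∀ x, IsIntegral ℤ (I.om i (ind (IsConj x))) := fun x =>
    I.om_ind_int i _ (isConj_conj_iff x)
  let e : L ≃* L.map N.subtype := Subgroup.equivMapOfInjective L N.subtype N.subtype_injective
  have he : ∀ x : G, {h : L | IsConj x ((h : N) : G)} =
      e ⁻¹' {h : L.map N.subtype | IsConj x (h : G)} := fun x => rfl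
  have h1 := J.card_irr (fun _ ψ => ∀ x : G,
    InIdeal M (omega ψ {h : L | IsConj x ((h : N) : G)} - omega (I.χ i) {g | IsConj x g}))
  have h2 : kInd M (I.χ i) (L.map N.subtype) = Nat.card {ψ : L → ℂ // IsIrrChar ψ ∧ ∀ x : G,
      InIdeal M (omega ψ {h : L | IsConj x ((h : N) : G)} - omega (I.χ i) {g | IsConj x g})} := by
    refine Nat.card_congr
      { toFun := fun ψ => ⟨ψ.1 ∘ e, ψ.2.1.comp _, fun x => ?_⟩
        invFun := fun ψ => ⟨ψ.1 ∘ e.symm, ψ.2.1.comp _, fun x => ?_⟩
        left_inv := fun ψ => Subtype.ext (by ext h; simp)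
        right_inv := fun ψ => Subtype.ext (by ext h; simp) }
    · rw [he, omega_comp]
      exact ψ.2.2 x
    · have h3 := ψ.2.2 x
      rw [← omega_comp e (ψ.1 ∘ e.symm), ← he]
      have h4 : (ψ.1 ∘ e.symm) ∘ e = ψ.1 := by
        ext h
        simp
      rw [h4]
      exact h3
  rw [h2, Nat.card_congr (Equiv.subtypeEquivRight (fun ψ => ?_)), h1]
  · refine congrArg Finset.card (Finset.ext fun j => ?_)
    simp only [Finset.mem_filter, Finset.mem_univ, true_and]
    refine forall_congr' (fun x => ?_)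
    rw [omega_eq, omega_eq, hV _ ((J.om_ind_int j _
      (fun h g => isConj_conj_iff x ((h : N) : G) ((g : N) : G))).sub (hint x))]
    rfl
  · exact ⟨fun ⟨⟨n, ρ, h1, h2, h3⟩, h4⟩ => ⟨n, ρ, h1, h4, h2, h3⟩,
      fun ⟨n, ρ, h1, h4, h2, h3⟩ => ⟨⟨n, ρ, h1, h2, h3⟩, h4⟩⟩

omit [Finite G] in
lemma kr1b_rep [Fintype G] (V : ValuationSubring ℂ) (I : IrrData G) :
    ∃ r : Fin I.n → Fin I.n, (∀ j, I.Bl V j (r j)) ∧ ∀ j k, I.Bl V j k → r j = r k := by
  let st : Setoid (Fin I.n) := ⟨I.Bl V, blkE_bl_self I, fun h a ha => by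
    have := neg_mem (h a ha)
    rwa [neg_sub] at this, fun h h' a ha => by
    have := add_mem (h' a ha) (h a ha)
    rwa [sub_add_sub_cancel] at this⟩
  exact ⟨fun j => (Quotient.mk st j).out, fun j => st.symm (Quotient.mk_out (s := st) j),
    fun j k h => congrArg Quotient.out (Quotient.sound (s := st) h)⟩

omit [Finite G] in
lemma kr1b_ind_bl [Fintype G] {V : ValuationSubring ℂ} {I : IrrData G} {j k : Fin I.n}
    {L : Subgroup G} [Fintype L] {J : IrrData L} {l : Fin J.n} (h : IndV V I j J l) :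
    IndV V I k J l ↔ I.Bl V j k := by
  rw [I.bl_iff]
  refine forall_congr' fun x => ⟨fun h1 => ?_, fun h1 => ?_⟩
  · have := sub_mem (h x) h1
    rwa [sub_sub_sub_cancel_left] at this
  · have := sub_mem (h x) h1
    rwa [sub_sub_sub_cancel_right] at this

/-- Take for `s` representatives of the blocks of `N` inducing the block of `χ`.  Every block of
`L` induces a unique block of `N` (`exists_induced`, `bl_iff`), and induction is transitive
(`IndV.om`); transport along `Subgroup.equivMapOfInjective` (`IsIrrChar.comp`, `omega_comp`). -/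
theorem exists_fibres (hp : p.Prime) (hM : M.IsMaximal) (hpM : (p : integralClosure ℤ ℂ) ∈ M)
    {χ : G → ℂ} (hχ : IsIrrChar χ) (N : Subgroup G) :
    ∃ s : Finset (N → ℂ), (∀ θ ∈ s, IsIrrChar θ ∧ IndTo M χ N θ) ∧
      ∀ L P : Subgroup N, IsPGroup p P → P ≤ L → L ≤ Subgroup.normalizer (P : Set N) →
        (∀ g, (∀ u ∈ P, u * g = g * u) → g ∈ L) →
        kInd M χ (L.map N.subtype) = ∑ θ ∈ s, kInd M θ L := by
  classical
  have : Fact p.Prime := ⟨hp⟩
  let _ : Fintype G := Fintype.ofFinite G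
  let _ : Fintype N := Fintype.ofFinite _
  obtain ⟨I⟩ := exists_irrData G
  obtain ⟨I'⟩ := exists_irrData N
  obtain ⟨V, hV⟩ := exists_val_of_maximal M hM
  have hpV : (p : ℂ) ∈ V.nonunits := (hV _ (isIntegral_natCast p)).1 ⟨_, hpM, by simp⟩
  obtain ⟨i, rfl⟩ := (isIrrChar_iff I).1 hχ
  obtain ⟨r, hr1, hr2⟩ := kr1b_rep V I'
  refine ⟨(univ.filter fun j => IndV V I i I' j ∧ r j = j).image I'.χ, fun θ hθ => ?_,
    fun L P hP hPL hL hC => ?_⟩
  · obtain ⟨j, hj, rfl⟩ := Finset.mem_image.1 hθ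
    exact ⟨(isIrrChar_iff I').2 ⟨j, rfl⟩,
      (kr1b_indTo_iff hV I i I' j).2 (Finset.mem_filter.1 hj).2.1⟩
  · let _ : Fintype L := Fintype.ofFinite _
    obtain ⟨J⟩ := exists_irrData L
    have h0 : ∀ l : Fin J.n, ∃ j, IndV V I' j J l ∧ r j = j := by
      intro l
      obtain ⟨j, hj⟩ := I'.exists_induced hpV L J l P hP hPL hL hC
      have h1 : IndV V I' j J l := by
        intro x
        have hx : IsCF (ind (IsConj x)) := isCF_ind (isConj_conj_iff x)
        have h2 := hj _ (I'.om_mem_Lam hx (ind_mem V _))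
        rwa [I'.zf_om hx] at h2
      exact ⟨r j, (kr1b_ind_bl h1).2 (hr1 j), (hr2 _ _ (hr1 j)).symm⟩
    choose f hf1 hf2 using h0
    have htr : ∀ j l, IndV V I' j J l → ((∀ x : G, J.om l (res L (res N (ind (IsConj x)))) -
        I.om i (ind (IsConj x)) ∈ V.nonunits) ↔ IndV V I i I' j) := by
      intro j l h
      refine forall_congr' fun x => ?_
      have h1 := h.om ((isCF_ind (isConj_conj_iff x)).res N) (fun g => ind_mem V _ _)
      refine ⟨fun h2 => ?_, fun h2 => ?_⟩
      · have := sub_mem h2 h1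
        rwa [sub_sub_sub_cancel_left] at this
      · have := add_mem h1 h2
        rwa [sub_add_sub_cancel] at this
    rw [Finset.sum_image (fun a _ b _ e => I'.χ_injective e), kr1b_kInd_map hV I i L J,
      Finset.card_eq_sum_card_fiberwise (f := f)
        (t := univ.filter fun j => IndV V I i I' j ∧ r j = j)]
    · refine Finset.sum_congr rfl fun j hj => ?_
      obtain ⟨hj1, hj2⟩ := (Finset.mem_filter.1 hj).2
      rw [kInd_eq_card hV I' j L J]
      refine congrArg Finset.card (Finset.ext fun l => ?_)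
      simp only [Finset.mem_filter, Finset.mem_univ, true_and]
      constructor
      · rintro ⟨-, rfl⟩
        exact hf1 l
      · intro h
        refine ⟨(htr j l h).2 hj1, ?_⟩
        rw [← hf2 l, ← hj2]
        exact hr2 _ _ ((kr1b_ind_bl (hf1 l)).1 h)
    · intro l hl
      simp only [Finset.coe_filter, Finset.mem_univ, true_and, Set.mem_ofPred_eq] at hl ⊢
      exact ⟨(htr _ l (hf1 l)).1 hl, hf2 l⟩

end Pool.Agent.Lib.MP_b6945b_al.St
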