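import Pool.Agent.Lib.MP_b6945b_al.St.FrChar

set_option autoImplicit false

/-!
Defect groups of blocks of local subgroups.
-/

namespace Pool.Agent.Lib.MP_b6945b_al.St

open IsLocalRing
open MonoidAlgebra (single)

section field

variable {k G : Type} [Field k] [IsAlgClosed k] [Group G] [Fintype G] {p : ℕ}

omit [Fintype G] in
lemma frlb_pgroup_comm {D : Subgroup G} (hc : ∀ x ∈ D, ∀ y ∈ D, x * y = y * x) (g : G) :
    ∀ x ∈ D.map (MulAut.conj g).toMonoidHom, ∀ y ∈ D.map (MulAut.conj g).toMonoidHom,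
      x * y = y * x := by
  rintro _ ⟨x, hx, rfl⟩ _ ⟨y, hy, rfl⟩
  rw [← map_mul, ← map_mul, hc x hx y hy]

lemma frlb_fix (hp : p.Prime) (hpk : (p : k) = 0) {e : MonoidAlgebra k G}
    (hee : e * e = e) (he : ∀ b, e * b = b * e) {P : Subgroup G} (hP : IsPGroup p P)
    {i f : MonoidAlgebra k G} (hi : LocPt ∅ P i) (hif : brT k (P : Set G) i * f = brT k P i)
    (hef : brT k (P : Set G) e * f = f) : e * i = i := by
  have hfe : FixedBy (cjRep k G) P e := fun g _ => fixedBy_top_iff.2 he g trivial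
  refine (hi.central_idem hee (fun _ _ _ h => h.elim) (fun b _ => he b)).resolve_left fun h => ?_
  apply hi.brT_ne
  rw [← hif, ← hef, ← mul_assoc, ← frpg_brT_mul hp hpk hP hi.fix hfe, ← he, h, map_zero, zero_mul]

/-- Every Brauer pair is contained in a maximal one.  Take `i` from `exists_locPt` for `P`, `f` and
`i₀` for `D`, `brT D e` (`brT_mul`, `inMax_field`); `e` fixes both (`LocPt.central_idem`,
`LocPt.brT_ne`).  `LocPt.exists_trace` gives a central `z = rtr D ⊤ (a i₀ a')` with `z i₀` not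
nilpotent; by `hloc` also `z i` is not nilpotent, so `i * b * i₀ ≠ 0` for some `b`
(`rtr_eq_sum`).  `LocPt.exists_conj` gives `g`; apply the Brauer homomorphism of `P` to
`i c (g i₀ g⁻¹) c' = i`.  The idempotent `f` fixes `i₁ = brT P (g i₀ g⁻¹)` (`LocPt.conj`,
`LocPt.brauer`, `LocPt.central_idem`), and the truncation of `i₁` is nonzero. -/
theorem exists_max_pair (hp : p.Prime) (hpk : (p : k) = 0) {e : MonoidAlgebra k G}
    (hee : e * e = e) (he : ∀ b, e * b = b * e)
    (hloc : ∀ z, (∀ b, z * b = b * z) → ∃ v : k, IsNilpotent (z * e - v • e))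
    {D : Subgroup G} (hD : IsPGroup p D) (hc : ∀ x ∈ D, ∀ y ∈ D, x * y = y * x)
    (h0 : brT k (D : Set G) e ≠ 0)
    (hb : ∀ y, e.coeff y ≠ 0 → ∀ T : Subgroup G, IsPGroup p T → (∀ t ∈ T, t * y = y * t) →
      Nat.card T ≤ Nat.card D)
    {P : Subgroup G} (hP : IsPGroup p P) {f : MonoidAlgebra k G} (hf : f * f = f) (hf0 : f ≠ 0)
    (hs : SuppCent (P : Set G) f) (hfc : ∀ b, SuppCent (P : Set G) b → f * b = b * f)
    (hef : brT k (P : Set G) e * f = f) :
    ∃ g : G, P ≤ D.map (MulAut.conj g).toMonoidHom ∧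
      brT k ((D.map (MulAut.conj g).toMonoidHom : Subgroup G) : Set G) f ≠ 0 := by
  classical
  have hE : ∀ b : MonoidAlgebra k G, SuppCent ∅ b := fun _ _ _ _ h => h.elim
  have hfe : FixedBy (cjRep k G) D e := fun g _ => fixedBy_top_iff.2 he g trivial
  have hDD : brT k (D : Set G) e * brT k (D : Set G) e = brT k (D : Set G) e := by
    rw [← frpg_brT_mul hp hpk hD hfe hfe, hee]
  obtain ⟨i, hi, hif⟩ := exists_locPt hp hpk hP hf hs hf0
  obtain ⟨i₀, hi₀, hif₀⟩ := exists_locPt hp hpk hD hDD (suppCent_brT _ _) h0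
  have hei : e * i = i := frlb_fix hp hpk hee he hP hi hif hef
  have hei₀ : e * i₀ = i₀ := frlb_fix hp hpk hee he hD hi₀ hif₀ hDD
  obtain ⟨a, a', ha, ha', hfa, hfa', hn⟩ := hi₀.exists_trace hp hpk (hE e) (fun b _ => he b) hei₀ hb
  have hm : FixedBy (cjRep k G) D (a * i₀ * a') := fun g hg => by
    rw [cjRep_mul, cjRep_mul, hfa g hg, hi₀.fix g hg, hfa' g hg]
  have hz : ∀ b, rtr (cjRep k G) D (Subgroup.centralizer ∅) (a * i₀ * a') * b =
      b * rtr (cjRep k G) D (Subgroup.centralizer ∅) (a * i₀ * a') := fun b =>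
    frpg_comm (rtr_fixed hi₀.frpg_le hm) (hE b)
  have hbb : ∃ b, i * b * i₀ ≠ 0 := by
    by_contra hno
    have hno' : ∀ b, i * b * i₀ = 0 := fun b => by
      by_contra h1
      exact hno ⟨b, h1⟩
    have h1 : i * rtr (cjRep k G) D (Subgroup.centralizer ∅) (a * i₀ * a') = 0 := by
      rw [tr_apply, Finset.mul_sum]
      refine Finset.sum_eq_zero fun q _ => ?_
      split_ifs
      · have h2 := congrArg (· * (a' * single q.out⁻¹ 1)) (hno' (single q.out 1 * a))
        simp only [zero_mul, mul_assoc] at h2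
        rw [cjRep_apply]
        simpa only [mul_assoc] using h2
      · exact mul_zero _
    obtain ⟨v, hv⟩ := hloc _ hz
    generalize rtr (cjRep k G) D (Subgroup.centralizer ∅) (a * i₀ * a') = z at hn hz h1 hv
    have key : ∀ x, e * x = x → IsNilpotent (z * x - v • x) := by
      intro x hx
      have h2 : Commute (z * e - v • e) x :=
        Commute.sub_left (Commute.mul_left (hz x) (he x)) (Commute.smul_left (he x) v)
      have h3 := h2.isNilpotent_mul_right hv
      rwa [sub_mul, mul_assoc, smul_mul_assoc, hx] at h3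
    have hv0 : v ≠ 0 := by
      rintro rfl
      have h2 := key i₀ hei₀
      rw [zero_smul, sub_zero] at h2
      exact hn h2
    have h2 := key i hei
    rw [hz, h1, zero_sub] at h2
    have h3 := h2.neg.smul v⁻¹
    rw [neg_neg, smul_smul, inv_mul_cancel₀ hv0, one_smul] at h3
    exact hi.frpg_not_nil h3
  obtain ⟨b, hb0⟩ := hbb
  obtain ⟨g, -, hle, c, c', hc1, hc2, hcc⟩ := hi.exists_conj hi₀ (hE b) hb0 ha ha' hfa hfa' hn
  refine ⟨g, hle, fun h => ?_⟩
  have hD' : IsPGroup p (D.map (MulAut.conj g).toMonoidHom) := hD.map _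
  have hcm : ∀ u ∈ D.map (MulAut.conj g).toMonoidHom, ∀ t ∈ P, u * t = t * u :=
    fun u hu t ht => frlb_pgroup_comm hc g u hu t (hle ht)
  have hj := hi₀.conj g
  have hj1 := hj.brauer hp hpk hD' hle hcm
  rw [Set.image_empty, Set.empty_union] at hj1
  have hjP : FixedBy (cjRep k G) P (cjRep k G g i₀) := fun u hu => hj.fix u (hle hu)
  rcases hj1.central_idem hf hs hfc with h1 | h1
  · apply hi.brT_ne
    have hic : FixedBy (cjRep k G) P (i * c) := fun u hu => by
      rw [cjRep_mul, hi.fix u hu, hc1 u hu]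
    have hicj : FixedBy (cjRep k G) P (i * c * cjRep k G g i₀) := fun u hu => by
      rw [cjRep_mul, hic u hu, hjP u hu]
    have h2 := congrArg (brT k (P : Set G)) hcc
    rw [frpg_brT_mul hp hpk hP hicj hc2, frpg_brT_mul hp hpk hP hic hjP] at h2
    rw [← hif, ← hfc _ (suppCent_brT _ _), ← h2, ← mul_assoc, ← mul_assoc,
      hfc _ (suppCent_brT _ (i * c)), mul_assoc _ f, h1, mul_zero, zero_mul]
  · apply hj1.brT_ne
    have hfD : FixedBy (cjRep k G) (D.map (MulAut.conj g).toMonoidHom) f := fun u hu =>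
      frpg_fix_of_comm hfc u (frpg_cent.1 (hcm u hu))
    rw [← h1, frpg_brT_mul hp hpk hD' hfD hj1.fix, h, zero_mul]

end field

variable {G : Type} [Group G] [Fintype G] {V : ValuationSubring ℂ} {p : ℕ} [Fact p.Prime]
  {I : IrrData G} {i : Fin I.n} {e : MonoidAlgebra V G}

/-- `IrrData.om_nil` applied to the class of `DefV.ex`; compare `le_defectGroup`. -/
lemma DefV.le (hp : (p : ℂ) ∈ V.nonunits) {D P : Subgroup G} (hD : DefV V p I i D) [P.Normal]
    (hP : IsPGroup p P) : P ≤ D := by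
  obtain ⟨x, hx, -, hS⟩ := hD.ex
  have key : ∃ y, IsConj x y ∧ ∀ g ∈ P, g * y = y * g := by
    by_contra hno
    exact hx (I.om_nil hp i P hP (isCF_ind (isConj_conj_iff x)) (fun y => ind_mem V _ _)
      (fun y hy => ind_neg (S := IsConj x) fun e => hno ⟨y, e, hy⟩))
  obtain ⟨y, hy, hc⟩ := key
  obtain ⟨c, rfl⟩ := isConj_iff.1 hy
  obtain ⟨c', hc'⟩ := hS P hP fun s hs => by
    have h1 := hc _ (‹P.Normal›.conj_mem s hs c)
    calc s * x = c⁻¹ * (c * s * c⁻¹ * (c * x * c⁻¹)) * c := by group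
      _ = x * s := by rw [h1]; group
  intro q hq
  have h2 := hc' _ (‹P.Normal›.conj_mem q hq c')
  rwa [show c'⁻¹ * (c' * q * c'⁻¹) * c' = q by group] at h2

omit [Fact p.Prime] in
/-- A central element over the residue field lifts to a central element (`exists_lift_fixed`,
`fixedBy_top_iff`). -/
lemma IsBlock.loc_res (he : IsBlock e) (z : MonoidAlgebra (ResidueField V) G)
    (hz : ∀ b, z * b = b * z) :
    ∃ v : ResidueField V, IsNilpotent (z * toRes V G e - v • toRes V G e) := by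
  obtain ⟨w, rfl, -, hw⟩ := exists_lift_fixed z
  obtain ⟨v, hv⟩ := he.loc w (fixedBy_top_iff.1 (hw ⊤ (fixedBy_top_iff.2 hz)))
  have h1 := (red_toRes G).nilR_iff.1 hv
  rw [map_sub, map_mul, (red_toRes G).smul] at h1
  exact ⟨_, h1⟩

omit [Fact p.Prime] in
lemma frlb_pk (hp : (p : ℂ) ∈ V.nonunits) : (p : ResidueField V) = 0 := by
  rw [← map_natCast (residue V), residue_eq_zero_iff]
  exact blkF_pmem hp

omit [Fintype G] in
lemma frlb_cent (he : ∀ b, e * b = b * e) (b : MonoidAlgebra (ResidueField V) G) :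
    toRes V G e * b = b * toRes V G e := by
  obtain ⟨c, rfl⟩ := (red_toRes (R := V) G).surj b
  rw [← map_mul, he, map_mul]

lemma frlb_ne {S : Set G} {y : G} (hy : ∀ s ∈ S, y * s = s * y)
    (h : e.coeff y ∉ maximalIdeal V) : brT (ResidueField V) S (toRes V G e) ≠ 0 := by
  intro h0
  have h1 := congrArg (fun b : MonoidAlgebra (ResidueField V) G => b.coeff y) h0
  simp only [coeff_brT, if_pos hy, coeff_toRes] at h1
  exact h ((residue_eq_zero_iff _).1 h1)

lemma frlb_ex {S : Set G} (h : brT (ResidueField V) S (toRes V G e) ≠ 0) :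
    ∃ y, (∀ s ∈ S, y * s = s * y) ∧ e.coeff y ∉ maximalIdeal V := by
  by_contra hno
  apply h
  ext y
  rw [coeff_brT]
  split_ifs with hy
  · rw [coeff_toRes]
    refine ((residue_eq_zero_iff _).2 ?_).trans rfl
    by_contra h1
    exact hno ⟨y, hy, h1⟩
  · rfl

variable {D P L : Subgroup G} [Fintype L] {I' : IrrData L} {i' : Fin I'.n}
  {e' : MonoidAlgebra V L} {D' : Subgroup L}

omit [Fintype G] in
lemma frlb_fix_inc (he' : ∀ b, e' * b = b * e') :
    FixedBy (cjRep (ResidueField V) G) L (toRes V G (inc V L.subtype e')) := by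
  intro g hg
  have h1 := congrArg (inc V L.subtype) (fixedBy_top_iff.2 he' (⟨g, hg⟩ : L) trivial)
  rw [cjRep_apply, map_mul, map_mul, inc_single, inc_single] at h1
  rw [← frset_toRes_cj]
  exact congrArg (toRes V G) h1

lemma frlb_inc_ne (hp : (p : ℂ) ∈ V.nonunits) (hD' : DefV V p I' i' D')
    (he' : IsBlockIdem I' i' e') {T : Subgroup G} (hT : T ≤ D'.map L.subtype) :
    brT (ResidueField V) (T : Set G) (toRes V G (inc V L.subtype e')) ≠ 0 := by
  obtain ⟨y, hy, hy'⟩ := hD'.exists_coeff hp he'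
  refine frlb_ne (y := L.subtype y) (fun s hs => ?_) ?_
  · obtain ⟨δ, hδ, rfl⟩ := hT hs
    rw [← map_mul, ← map_mul, hy δ hδ]
  · rwa [coeff_inc L.subtype_injective]

lemma frlb_below (hp : (p : ℂ) ∈ V.nonunits) (he : ∀ b, e * b = b * e)
    (he' : ∀ b, e' * b = b * e') {T : Subgroup G} (hT : IsPGroup p T) (hTL : T ≤ L) (hP : P ≤ T)
    (hb : InMax V (brT V (P : Set G) (e * inc V L.subtype e' - inc V L.subtype e'))) :
    brT (ResidueField V) (T : Set G) (toRes V G e) *
        brT (ResidueField V) (T : Set G) (toRes V G (inc V L.subtype e')) =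
      brT (ResidueField V) (T : Set G) (toRes V G (inc V L.subtype e')) := by
  have h1 := toRes_eq_zero_iff.2 (idem_inMax_map (brT V (T : Set G)) hb)
  rw [brT_brT (SetLike.coe_subset_coe.2 hP), toRes_brT, map_sub, map_sub, map_mul, sub_eq_zero,
    frpg_brT_mul Fact.out (frlb_pk hp) hT (fun g _ => fixedBy_top_iff.2 (frlb_cent he) g trivial)
      (fun g hg => frlb_fix_inc he' g (hTL hg))] at h1
  exact h1

/-- `DefV.exists_coeff` for `e'` shows that the truncation of `inc e'` at `T = D'.map L.subtype` is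
not in the maximal ideal; by `hb` (with `brT_brT`, `brT_mul`) the same holds for `e`;
`DefV.conj_of_coeff`. -/
lemma card_local_le (hp : (p : ℂ) ∈ V.nonunits) (hD : DefV V p I i D) (he : IsBlockIdem I i e)
    (hD' : DefV V p I' i' D') (he' : IsBlockIdem I' i' e') (hP : P ≤ D'.map L.subtype)
    (hb : InMax V (brT V (P : Set G) (e * inc V L.subtype e' - inc V L.subtype e'))) :
    Nat.card D' ≤ Nat.card D := by
  have hT : IsPGroup p (D'.map L.subtype) := hD'.pD.map _
  have h1 := frlb_below hp he.isBlock.cent he'.isBlock.cent hT (Subgroup.map_subtype_le D') hP hb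
  have h2 := frlb_inc_ne hp hD' he' le_rfl
  obtain ⟨y, hy, hy'⟩ := frlb_ex (e := e) (S := (D'.map L.subtype : Subgroup G)) fun h0 => by
    rw [h0, zero_mul] at h1
    exact h2 h1.symm
  obtain ⟨c, hc⟩ := hD.conj_of_coeff hp he hy' hT fun s hs => (hy s hs).symm
  have h3 := blkF_card_le hc
  rwa [Subgroup.card_subtype] at h3

/-- `exists_max_pair` over the residue field with `f = brT P (toRes (inc e'))` gives `g` and an
element `y` of `L` that centralises `T = g D g⁻¹ ≤ L` with `e'.coeff y` a unit.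
`DefV.conj_of_coeff` in `L` conjugates `T` into `D'`; compare the orders. -/
theorem local_conj (hp : (p : ℂ) ∈ V.nonunits) (hD : DefV V p I i D)
    (hc : ∀ x ∈ D, ∀ y ∈ D, x * y = y * x) (hP : IsPGroup p P) (hPL : P ≤ L)
    (hL : L ≤ Subgroup.normalizer (P : Set G)) (hC : ∀ g, (∀ u ∈ P, u * g = g * u) → g ∈ L)
    (hi : IndV V I i I' i') (hD' : DefV V p I' i' D') :
    P ≤ D'.map L.subtype ∧ ∃ g : G, D'.map L.subtype = D.map (MulAut.conj g).toMonoidHom := by
  obtain ⟨e, he⟩ := exists_blockIdem (V := V) I i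
  obtain ⟨e', he'⟩ := exists_blockIdem (V := V) I' i'
  have hN : (P.subgroupOf L).Normal := (Subgroup.normal_subgroupOf_iff_le_normalizer hPL).2 hL
  have hPD : P ≤ D'.map L.subtype := fun u hu =>
    ⟨⟨u, hPL hu⟩, DefV.le hp hD' (P := P.subgroupOf L) hP.comap_subtype hu, rfl⟩
  refine ⟨hPD, ?_⟩
  have hb := IndV.below hp he hP hPL hL hC hi he'
  have hcard := card_local_le hp hD he hD' he' hPD hb
  have := (monicSplit_valuationSubring V).isAlgClosed
  have hfix := frlb_fix_inc (V := V) he'.isBlock.cent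
  have hfP : FixedBy (cjRep (ResidueField V) G) P (toRes V G (inc V L.subtype e')) :=
    fun g hg => hfix g (hPL hg)
  obtain ⟨y₀, hy₀, hy₀'⟩ := hD.exists_coeff hp he
  obtain ⟨g, hg, hg0⟩ := exists_max_pair (k := ResidueField V) Fact.out (frlb_pk hp)
    (e := toRes V G e) (by rw [← map_mul, he.isBlock.idem]) (frlb_cent he.isBlock.cent)
    he.isBlock.loc_res hD.pD hc (frlb_ne hy₀ hy₀')
    (fun y hy T hT hTy => by
      rw [coeff_toRes, Ne, residue_eq_zero_iff] at hy
      obtain ⟨c, hc'⟩ := hD.conj_of_coeff hp he hy hT hTy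
      exact blkF_card_le hc')
    hP (f := brT (ResidueField V) (P : Set G) (toRes V G (inc V L.subtype e')))
    (by rw [← frpg_brT_mul Fact.out (frlb_pk hp) hP hfP hfP, ← map_mul, ← map_mul,
      he'.isBlock.idem])
    (frlb_inc_ne hp hD' he' hPD) (suppCent_brT _ _)
    (fun b hb' => frpg_comm (brT_fixed (fun u hu => frpg_cent.2 hu)
      (fun u hu => hfix u (hC u fun t ht => hu t ht))) hb')
    (frlb_below hp he.isBlock.cent he'.isBlock.cent hP hPL le_rfl hb)
  rw [brT_brT (SetLike.coe_subset_coe.2 hg)] at hg0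
  obtain ⟨y, hy, hy'⟩ := frlb_ex hg0
  have hyL : y ∈ L.subtype.range := by
    by_contra h1
    rw [coeff_inc_of_notMem _ _ h1] at hy'
    exact hy' (zero_mem _)
  obtain ⟨y, rfl⟩ := hyL
  rw [coeff_inc L.subtype_injective] at hy'
  have hTL : D.map (MulAut.conj g).toMonoidHom ≤ L := fun t ht =>
    hC t fun u hu => frlb_pgroup_comm hc g u (hg hu) t ht
  obtain ⟨c, hc'⟩ := hD'.conj_of_coeff hp he' hy'
    (S := (D.map (MulAut.conj g).toMonoidHom).subgroupOf L) (hD.pD.map _).comap_subtype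
    (fun s hs => Subtype.ext (hy s hs).symm)
  refine ⟨(c : G)⁻¹ * g, (Subgroup.eq_of_le_of_card_ge ?_ ?_).symm⟩
  · rintro _ ⟨d, hd, rfl⟩
    have h1 : g * d * g⁻¹ ∈ D.map (MulAut.conj g).toMonoidHom := ⟨d, hd, rfl⟩
    refine ⟨_, hc' ⟨_, hTL h1⟩ h1, ?_⟩
    change (c : G)⁻¹ * (g * d * g⁻¹) * c = (c : G)⁻¹ * g * d * ((c : G)⁻¹ * g)⁻¹
    group
  · rwa [Subgroup.card_subtype, Subgroup.card_map_of_injective (MulAut.conj _).injective]

/-- `local_conj`, `FreeB.conj`, `FreeB.local`, `IndV.below`, `brT_brT`. -/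
theorem FreeB.of_indV (hp : (p : ℂ) ∈ V.nonunits) (hD : DefV V p I i D)
    (hc : ∀ x ∈ D, ∀ y ∈ D, x * y = y * x) (hP : IsPGroup p P) (hPL : P ≤ L)
    (hL : L ≤ Subgroup.normalizer (P : Set G)) (hC : ∀ g, (∀ u ∈ P, u * g = g * u) → g ∈ L)
    (hi : IndV V I i I' i') (hD' : DefV V p I' i' D') (he : IsBlockIdem I i e)
    (he' : IsBlockIdem I' i' e') (h : FreeB e D) : FreeB e' D' := by
  obtain ⟨hPD, g, hg⟩ := local_conj hp hD hc hP hPL hL hC hi hD'
  have h1 := idem_inMax_map (brT V ((D'.map L.subtype : Subgroup G) : Set G))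
    (IndV.below hp he hP hPL hL hC hi he')
  rw [brT_brT (SetLike.coe_subset_coe.2 hPD)] at h1
  refine FreeB.local Fact.out (blkF_pmem hp) hD'.pD ?_ (fun u hu => hC u fun t ht => hu t (hPD ht))
    he.isBlock.cent he'.isBlock.cent h1
  rw [hg]
  exact h.conj he.isBlock.cent g

end Pool.Agent.Lib.MP_b6945b_al.St
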