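import Pool.Agent.Lib.MP_b6945b_al.St.FrKR0
import Pool.Agent.Lib.MP_b6945b_al.St.FrLB

set_option autoImplicit false

/-!
The alternating sum over chains vanishes for blocks with a freely acting inertial quotient.
-/

namespace Pool.Agent.Lib.MP_b6945b_al.St

open Finset

variable {p : ℕ} {G : Type} [Group G] [Finite G] {M : Ideal (integralClosure ℤ ℂ)}
  {V : ValuationSubring ℂ} {χ : G → ℂ} {D : Subgroup G}

/-- The standing hypotheses on the coefficients. -/
structure Coef (p : ℕ) (M : Ideal (integralClosure ℤ ℂ)) (V : ValuationSubring ℂ) : Prop where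
  prime : p.Prime
  max : M.IsMaximal
  mem : (p : integralClosure ℤ ℂ) ∈ M
  iff : ∀ a : ℂ, IsIntegral ℤ a → (InIdeal M a ↔ a ∈ V.nonunits)

lemma Coef.nonunit (h : Coef p M V) : (p : ℂ) ∈ V.nonunits :=
  (h.iff _ (isIntegral_natCast p)).1 ⟨_, h.mem, by simp⟩

/-- A block with a nontrivial abelian defect group on which the inertial quotient acts freely. -/
structure FreeC (p : ℕ) (M : Ideal (integralClosure ℤ ℂ)) (V : ValuationSubring ℂ) (χ : G → ℂ)
    (D : Subgroup G) : Prop where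
  irr : IsIrrChar χ
  defect : IsDefectGroup p M χ D
  ne : D ≠ ⊥
  comm : ∀ x ∈ D, ∀ y ∈ D, x * y = y * x
  free : ∀ (_ : Fintype G) (I : IrrData G) (i : Fin I.n) (e : MonoidAlgebra V G), χ = I.χ i →
    IsBlockIdem I i e → FreeB e D

/-- The order of a subgroup times the number of characters. -/
noncomputable def wf (M : Ideal (integralClosure ℤ ℂ)) (χ : G → ℂ) (L : Subgroup G) : ℕ :=
  Nat.card L * kInd M χ L

/-- As `kInd_eq` in `Final.lean`, with `finrank_eq_free`. -/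
theorem FreeC.kInd_eq (hM : Coef p M V) (h : FreeC p M V χ D) :
    kInd M χ ⊤ = kInd M χ (Subgroup.normalizer (D : Set G)) := by
  classical
  have : Fact p.Prime := ⟨hM.prime⟩
  let _ : Fintype G := Fintype.ofFinite G
  let _ : Fintype (Subgroup.normalizer (D : Set G)) := Fintype.ofFinite _
  obtain ⟨I⟩ := exists_irrData G
  obtain ⟨I'⟩ := exists_irrData (Subgroup.normalizer (D : Set G))
  have hV := hM.iff
  have hpV := hM.nonunit
  obtain ⟨i₀, rfl⟩ := (isIrrChar_iff I).1 h.irr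
  have hDV := defV_of_isDefectGroup hV I i₀ h.defect
  obtain ⟨e, he⟩ := exists_blockIdem (V := V) I i₀
  obtain ⟨i', hi'⟩ := exists_correspondent hpV hDV rfl I'
  obtain ⟨f, hf⟩ := exists_blockIdem (V := V) I' i'
  obtain ⟨⟨a, hF⟩, hb⟩ := exists_blockF hpV hDV rfl he hi' hf
  have h1 := finrank_eq_free hM.prime hpV rfl hDV.pD h.ne h.comm (hDV.blockE hpV h.ne he) hF hb
    (h.free _ I i₀ e rfl he)
  rw [he.finrank, hf.finrank] at h1
  rw [kInd_top_eq_card hV, kInd_eq_card hV I i₀ _ I', h1]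
  exact congrArg Finset.card (Finset.filter_congr fun j _ => hi' j)

open Classical in
/-- As `wt_top` in `KR2.lean`. -/
theorem FreeC.wf_top (hM : Coef p M V) (h : FreeC p M V χ D) [Fintype (Subgroup G)] :
    wf M χ ⊤ = ∑ T ∈ univ.filter (fun T : Subgroup G => Nat.card T = Nat.card D),
      wf M χ (Subgroup.normalizer (T : Set G)) := by
  simp only [wf]
  rw [sum_conj hM.prime hM.max hM.mem h.irr h.defect, h.kInd_eq hM, Subgroup.card_top]

omit [Finite G] in
lemma FrKR1_conj_card {T D : Subgroup G} {g : G} (h : ∀ t ∈ T, g⁻¹ * t * g ∈ D) :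
    T.map (MulAut.conj g⁻¹).toMonoidHom ≤ D ∧
      Nat.card (T.map (MulAut.conj g⁻¹).toMonoidHom) = Nat.card T := by
  refine ⟨?_, Subgroup.card_map_of_injective (MulAut.conj g⁻¹).injective⟩
  rintro _ ⟨t, ht, rfl⟩
  simpa using h t ht

/-- As `kr2_card_dvd` in `KR2.lean`. -/
lemma wf_card_dvd (hM : Coef p M V) (hχ : IsIrrChar χ) (hD : IsDefectGroup p M χ D)
    {T L : Subgroup G} (hT : IsPGroup p T) (hTL : T ≤ L)
    (hL : L ≤ Subgroup.normalizer (T : Set G)) (h : wf M χ L ≠ 0) : Nat.card T ∣ Nat.card D := by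
  obtain ⟨g, hg⟩ := conj_le_of_kInd hM.prime hM.max hM.mem hχ hD hT hTL hL (right_ne_zero_of_mul h)
  obtain ⟨h1, h2⟩ := FrKR1_conj_card hg
  rw [← h2]
  exact Subgroup.card_dvd_of_le h1

/-- As `kr2_le` in `KR2.lean`. -/
lemma wf_le (hM : Coef p M V) (hχ : IsIrrChar χ) (hD : IsDefectGroup p M χ D)
    {Q T : Subgroup G} [Q.Normal] (hQ : IsPGroup p Q) (hT : IsPGroup p T)
    (hc : Nat.card T = Nat.card D) (h : wf M χ (Subgroup.normalizer (T : Set G)) ≠ 0) :
    Q ≤ T := by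
  obtain ⟨g, hg⟩ := conj_le_of_kInd hM.prime hM.max hM.mem hχ hD hT Subgroup.le_normalizer le_rfl
    (right_ne_zero_of_mul h)
  obtain ⟨h1, h2⟩ := FrKR1_conj_card hg
  have h3 := Subgroup.eq_of_le_of_card_ge h1 (h2.trans hc).ge
  intro q hq
  have h4 := le_defectGroup hM.prime hM.max hM.mem hχ hD hQ
    (Subgroup.Normal.conj_mem inferInstance q hq g⁻¹)
  rw [← h3] at h4
  obtain ⟨t, ht, e⟩ := h4
  have h5 : t = q := (MulAut.conj g⁻¹).injective e
  exact h5 ▸ ht

/-- `isIrrChar_iff`, `kr1b_indTo_iff`, `defV_of_isDefectGroup`, `local_conj`, `FreeB.of_indV`. -/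
theorem FreeC.local (hM : Coef p M V) (h : FreeC p M V χ D) {P L : Subgroup G}
    (hP : IsPGroup p P) (hPL : P ≤ L) (hL : L ≤ Subgroup.normalizer (P : Set G))
    (hC : ∀ g, (∀ u ∈ P, u * g = g * u) → g ∈ L) {θ : L → ℂ} (hθ : IsIrrChar θ)
    (hi : IndTo M χ L θ) {D' : Subgroup L} (hD' : IsDefectGroup p M θ D') :
    FreeC p M V θ D' ∧ Nat.card D' = Nat.card D := by
  classical
  have : Fact p.Prime := ⟨hM.prime⟩
  let _ : Fintype G := Fintype.ofFinite G
  obtain ⟨I⟩ := exists_irrData G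
  have hV := hM.iff
  have hpV := hM.nonunit
  obtain ⟨i, rfl⟩ := (isIrrChar_iff I).1 h.irr
  have hDV := defV_of_isDefectGroup hV I i h.defect
  obtain ⟨g, hg⟩ : ∃ g : G, D'.map L.subtype = D.map (MulAut.conj g).toMonoidHom := by
    let _ : Fintype L := Fintype.ofFinite L
    obtain ⟨I'⟩ := exists_irrData L
    obtain ⟨j, rfl⟩ := (isIrrChar_iff I').1 hθ
    exact (local_conj hpV hDV h.comm hP hPL hL hC ((kr1b_indTo_iff hV I i I' j).1 hi)
      (defV_of_isDefectGroup hV I' j hD')).2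
  have hcard : Nat.card D' = Nat.card D := by
    rw [← Subgroup.card_map_of_injective (K := D') L.subtype_injective, hg,
      Subgroup.card_map_of_injective (MulAut.conj g).injective]
  refine ⟨⟨hθ, hD', fun e => h.ne ?_, fun x hx y hy => ?_, fun _ I' j e' hj he' => ?_⟩, hcard⟩
  · rw [e, Subgroup.card_bot] at hcard
    exact Subgroup.eq_bot_of_card_eq _ hcard.symm
  · have hx' : (x : G) ∈ D.map (MulAut.conj g).toMonoidHom := hg ▸ ⟨x, hx, rfl⟩
    have hy' : (y : G) ∈ D.map (MulAut.conj g).toMonoidHom := hg ▸ ⟨y, hy, rfl⟩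
    obtain ⟨a, ha, ea⟩ := hx'
    obtain ⟨b, hb, eb⟩ := hy'
    refine Subtype.ext ?_
    rw [Subgroup.coe_mul, Subgroup.coe_mul, ← ea, ← eb, ← map_mul, ← map_mul, h.comm a ha b hb]
  · subst hj
    obtain ⟨e, he⟩ := exists_blockIdem (V := V) I i
    exact FreeB.of_indV hpV hDV h.comm hP hPL hL hC ((kr1b_indTo_iff hV I i I' j).1 hi)
      (defV_of_isDefectGroup hV I' j hD') he he' (h.free _ I i e rfl he)

open Classical in
/-- As `wt_local` in `KR2.lean`, with `N = L`. -/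
theorem FreeC.wf_local (hM : Coef p M V) (h : FreeC p M V χ D) [Fintype (Subgroup G)]
    {P L : Subgroup G} (hP : IsPGroup p P) (hPL : P ≤ L)
    (hL : L ≤ Subgroup.normalizer (P : Set G)) (hC : ∀ g, (∀ u ∈ P, u * g = g * u) → g ∈ L) :
    wf M χ L = ∑ T ∈ univ.filter (fun T : Subgroup G => P ≤ T ∧ T ≤ L ∧ Nat.card T = Nat.card D),
      wf M χ (L ⊓ Subgroup.normalizer (T : Set G)) := by
  have hp := hM.prime
  have : Fact p.Prime := ⟨hp⟩
  let _ : Fintype (Subgroup L) := Fintype.ofFinite _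
  have hQ' : IsPGroup p (P.subgroupOf L) := hP.comap_subtype
  have hn : (P.subgroupOf L).Normal := (Subgroup.normal_subgroupOf_iff_le_normalizer hPL).2 hL
  obtain ⟨k, hk⟩ := IsPGroup.iff_card.1 (IsDefectGroup.isPGroup' h.defect)
  obtain ⟨s, hs, hs'⟩ := exists_fibres hp hM.max hM.mem h.irr L
  have key : ∀ L' P' : Subgroup L, IsPGroup p P' → P' ≤ L' →
      L' ≤ Subgroup.normalizer (P' : Set L) → (∀ g, (∀ u ∈ P', u * g = g * u) → g ∈ L') →
      wf M χ (L'.map L.subtype) = ∑ θ ∈ s, wf M θ L' := fun L' P' h1 h2 h3 h4 => by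
    simp only [wf]
    rw [hs' L' P' h1 h2 h3 h4, Subgroup.card_map_of_injective L.subtype_injective, Finset.mul_sum]
  have e1 : wf M χ L = ∑ θ ∈ s, wf M θ ⊤ := by
    rw [← key ⊤ _ hQ' le_top Subgroup.le_normalizer_of_normal fun _ _ => trivial,
      ← MonoidHom.range_eq_map, Subgroup.range_subtype]
  have e2 : ∀ θ ∈ s, wf M θ ⊤ = ∑ T ∈ univ.filter (fun T : Subgroup L =>
      P.subgroupOf L ≤ T ∧ Nat.card T = Nat.card D),
      wf M θ (Subgroup.normalizer (T : Set L)) := by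
    intro θ hθ
    obtain ⟨D', hD'⟩ := exists_defectGroup (M := M) hp hM.max (hs θ hθ).1
    obtain ⟨h0, h1⟩ := h.local hM hP hPL hL hC (hs θ hθ).1 (hs θ hθ).2 hD'
    rw [h0.wf_top hM]
    refine (Finset.sum_subset (fun T hT => ?_) fun T hT hT' => ?_).symm
    · rw [mem_filter] at hT ⊢
      exact ⟨hT.1, hT.2.2.trans h1.symm⟩
    · by_contra e
      have h3 := (mem_filter.1 hT).2
      exact hT' (mem_filter.2 ⟨mem_univ _, wf_le hM (hs θ hθ).1 hD' hQ'
        (IsPGroup.of_card ((h3.trans h1).trans hk)) h3 e, h3.trans h1⟩)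
  rw [e1, Finset.sum_congr rfl e2, Finset.sum_comm]
  have hcard : ∀ T : Subgroup G, T ≤ L → Nat.card (T.subgroupOf L) = Nat.card T := fun T hT =>
    Nat.card_congr (Subgroup.subgroupOfEquivOfLe hT).toEquiv
  symm
  refine Finset.sum_nbij' (fun T => T.subgroupOf L) (fun T => T.map L.subtype)
    (fun T hT => ?_) (fun T hT => ?_) (fun T hT => ?_) (fun T _ => ?_) fun T hT => ?_
  · obtain ⟨-, h1, h2, h3⟩ := mem_filter.1 hT
    exact mem_filter.2 ⟨mem_univ _, Subgroup.comap_mono h1, (hcard T h2).trans h3⟩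
  · obtain ⟨-, h1, h2⟩ := mem_filter.1 hT
    exact mem_filter.2 ⟨mem_univ _, fun q hq => ⟨⟨q, hPL hq⟩, h1 hq, rfl⟩,
      Subgroup.map_subtype_le _, (Subgroup.card_map_of_injective L.subtype_injective).trans h2⟩
  · exact Subgroup.map_subgroupOf_eq_of_le (mem_filter.1 hT).2.2.1
  · exact Subgroup.comap_map_eq_self_of_injective L.subtype_injective T
  · obtain ⟨-, -, h2, h3⟩ := mem_filter.1 hT
    have h1 : IsPGroup p (T.subgroupOf L) := (IsPGroup.of_card (h3.trans hk)).comap_subtype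
    rw [← key _ _ h1 Subgroup.le_normalizer le_rfl fun g hg => ?_,
      ← Subgroup.subgroupOf_normalizer_eq h2, Subgroup.subgroupOf_map_subtype, inf_comm]
    refine Subgroup.mem_normalizer_fintype fun u hu => ?_
    rwa [← hg u hu, mul_inv_cancel_right]

/-- `exists_val_of_maximal`, `freeB_of_freeInertia`, `chain_sum_zero`; convert the `finsum` as in
`kr_sum`. -/
theorem kr_sum_free (p : ℕ) (hp : p.Prime) (G : Type) [Group G] [Finite G]
    (M : Ideal (integralClosure ℤ ℂ)) (hM : M.IsMaximal) (hpM : (p : integralClosure ℤ ℂ) ∈ M)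
    (χ : G → ℂ) (hχ : IsIrrChar χ) (D : Subgroup G) (hD : IsDefectGroup p M χ D) (hD0 : D ≠ ⊥)
    (hc : ∀ x ∈ D, ∀ y ∈ D, x * y = y * x) (hF : FreeInertia M χ D) :
    ∑ᶠ (σ : Finset (Subgroup G))
      (_ : IsChain (· ≤ ·) (σ : Set (Subgroup G)) ∧ ∀ P ∈ σ, IsPGroup p P ∧ P ≠ ⊥),
      (-1 : ℤ) ^ σ.card *
        ((Nat.card (⨅ P ∈ σ, Subgroup.normalizer (P : Set G) : Subgroup G) : ℤ) *
          kInd M χ (⨅ P ∈ σ, Subgroup.normalizer (P : Set G))) = 0 := by
  classical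
  have : Fact p.Prime := ⟨hp⟩
  let _ : Fintype (Subgroup G) := Fintype.ofFinite _
  let _ : Fintype (Finset (Subgroup G)) := Fintype.ofFinite _
  obtain ⟨V, hV⟩ := exists_val_of_maximal M hM
  have hC : Coef p M V := ⟨hp, hM, hpM, hV⟩
  have hfree : FreeC p M V χ D := ⟨hχ, hD, hD0, hc, fun _ I i e hi he =>
    freeB_of_freeInertia hC.nonunit hV he (IsDefectGroup.isPGroup' hD) (hi ▸ hF)⟩
  obtain ⟨k, hk⟩ := IsPGroup.iff_card.1 (IsDefectGroup.isPGroup' hD)
  have h2 := chain_sum_zero hp (wf M χ) (d := Nat.card D)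
    (fun T hT => ⟨IsPGroup.of_card (hT.trans hk), fun e => hD0 (by
      rw [e, Subgroup.card_bot] at hT
      exact Subgroup.eq_bot_of_card_eq _ hT.symm)⟩)
    (fun T L h1 h2 h3 h4 => wf_card_dvd hC hχ hD h1 h2 h3 h4)
    fun P L h1 h2 h3 h4 => hfree.wf_local hC h1 h2 h3 h4
  rw [finsum_eq_sum_of_fintype]
  simp only [finsum_eq_if]
  refine Eq.trans (Finset.sum_congr rfl fun σ _ => ?_) h2
  rw [wf, Nat.cast_mul]
  exact if_congr Iff.rfl rfl rfl

end Pool.Agent.Lib.MP_b6945b_al.St
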