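import Pool.Agent.Lib.MP_b6945b_al.St.CornerT

set_option autoImplicit false

/-!
Fitting decomposition and lifting of idempotents over local rings in which monic polynomials
split.
-/

namespace Pool.Agent.Lib.MP_b6945b_al.St

open IsLocalRing

/-- Monic polynomials split. -/
def MonicSplit (R : Type) [CommRing R] : Prop :=
  ∀ f : Polynomial R, f.Monic → ∃ s : Multiset R, f = (s.map fun a => Polynomial.X - Polynomial.C a).prod

/-- `z` lies in the maximal ideal times the module. -/
def InMax (R : Type) [CommRing R] [IsLocalRing R] {M : Type} [AddCommGroup M] [Module R M]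
    (z : M) : Prop := z ∈ maximalIdeal R • (⊤ : Submodule R M)

/-- `z` is nilpotent modulo the maximal ideal. -/
def NilR (R : Type) [CommRing R] [IsLocalRing R] {A : Type} [Ring A] [Algebra R A] (z : A) :
    Prop := ∃ n : ℕ, InMax R (z ^ n)

lemma idem_monicSplit_of_root {R : Type} [CommRing R] [Nontrivial R]
    (h : ∀ f : Polynomial R, f.Monic → 0 < f.natDegree → ∃ a, f.IsRoot a) : MonicSplit R := by
  intro f hf
  induction hn : f.natDegree generalizing f with
  | zero =>
    refine ⟨0, ?_⟩
    rw [Multiset.map_zero, Multiset.prod_zero]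
    exact hf.natDegree_eq_zero.mp hn
  | succ n ih =>
    obtain ⟨a, ha⟩ := h f hf (by omega)
    have hfa := Polynomial.mul_divByMonic_eq_iff_isRoot.mpr ha
    have hX : (Polynomial.X - Polynomial.C a).Monic := Polynomial.monic_X_sub_C a
    have hq : (f /ₘ (Polynomial.X - Polynomial.C a)).Monic :=
      hX.of_mul_monic_left (by rw [hfa]; exact hf)
    have hdeg : (f /ₘ (Polynomial.X - Polynomial.C a)).natDegree = n := by
      have h1 := hX.natDegree_mul hq
      rw [hfa, Polynomial.natDegree_X_sub_C, hn] at h1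
      omega
    obtain ⟨s, hs⟩ := ih _ hq hdeg
    refine ⟨a ::ₘ s, ?_⟩
    rw [Multiset.map_cons, Multiset.prod_cons, ← hs, hfa]

/-- Roots of monic polynomials over a valuation subring are integral, so lie in it. -/
theorem monicSplit_valuationSubring {K : Type} [Field K] [IsAlgClosed K]
    (V : ValuationSubring K) : MonicSplit V := by
  apply idem_monicSplit_of_root
  intro f hf hdeg
  have hm : (f.map (algebraMap V K)).Monic := hf.map _
  have hd : (f.map (algebraMap V K)).degree ≠ 0 := by
    have h1 : 0 < (f.map (algebraMap V K)).natDegree := by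
      rw [hf.natDegree_map]; exact hdeg
    exact (Polynomial.natDegree_pos_iff_degree_pos.mp h1).ne'
  obtain ⟨x, hx⟩ := IsAlgClosed.exists_root _ hd
  have hx' : Polynomial.aeval x f = 0 := by
    rw [Polynomial.aeval_def, Polynomial.eval₂_eq_eval_map]; exact hx
  have hint : IsIntegral V x := ⟨f, hf, hx'⟩
  obtain ⟨b, hb⟩ := IsIntegrallyClosed.isIntegral_iff.mp hint
  refine ⟨b, ?_⟩
  rw [← hb, Polynomial.aeval_algebraMap_apply, Polynomial.coe_aeval_eq_eval] at hx'
  exact IsFractionRing.injective V K (by rw [hx', map_zero])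

theorem MonicSplit.isAlgClosed {R : Type} [CommRing R] [IsLocalRing R] (h : MonicSplit R) :
    IsAlgClosed (ResidueField R) := by
  apply IsAlgClosed.of_exists_root
  intro p hp hirr
  have hl : p ∈ Polynomial.lifts (residue R) :=
    (Polynomial.mem_lifts p).mpr (Polynomial.map_surjective _ residue_surjective p)
  obtain ⟨f, hfp, -, hf⟩ := Polynomial.lifts_and_natDegree_eq_and_monic hl hp
  obtain ⟨s, hs⟩ := h f hf
  rcases s.empty_or_exists_mem with h0 | ⟨a, ha⟩
  · rw [h0, Multiset.map_zero, Multiset.prod_zero] at hs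
    rw [hs, Polynomial.map_one] at hfp
    exact absurd (hfp ▸ isUnit_one) hirr.not_isUnit
  · obtain ⟨t, rfl⟩ := Multiset.exists_cons_of_mem ha
    refine ⟨residue R a, ?_⟩
    rw [← hfp, hs, Multiset.map_cons, Multiset.prod_cons, Polynomial.map_mul, Polynomial.eval_mul]
    simp

/-- Over a valuation ring a finite sum `∑ m i • y i` is `m • y` for the `m i` of largest value. -/
lemma inMax_iff_valuation {R : Type} [CommRing R] [IsDomain R] [ValuationRing R] {M : Type}
    [AddCommGroup M] [Module R M] {z : M} :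
    InMax R z ↔ ∃ m ∈ maximalIdeal R, ∃ y, z = m • y := by
  constructor
  · intro h
    refine Submodule.smul_induction_on (p := fun z => ∃ m ∈ maximalIdeal R, ∃ y, z = m • y) h
      (fun r hr n _ => ⟨r, hr, n, rfl⟩) ?_
    rintro _ _ ⟨m₁, hm₁, y₁, rfl⟩ ⟨m₂, hm₂, y₂, rfl⟩
    rcases ValuationRing.dvd_total m₁ m₂ with ⟨c, rfl⟩ | ⟨c, rfl⟩
    · exact ⟨m₁, hm₁, y₁ + c • y₂, by rw [smul_add, mul_smul]⟩
    · exact ⟨m₂, hm₂, c • y₁ + y₂, by rw [smul_add, mul_smul]⟩
  · rintro ⟨m, hm, y, rfl⟩
    exact Submodule.smul_mem_smul hm Submodule.mem_top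

lemma inMax_pi_iff {R : Type} [CommRing R] [IsLocalRing R] {Y : Type} [Finite Y] {z : Y → R} :
    InMax R z ↔ ∀ y, z y ∈ maximalIdeal R := by
  classical
  constructor
  · intro h
    refine Submodule.smul_induction_on (p := fun z : Y → R => ∀ y, z y ∈ maximalIdeal R) h
      (fun r hr n _ y => Ideal.mul_mem_right _ _ hr) ?_
    intro a b ha hb y
    exact Ideal.add_mem _ (ha y) (hb y)
  · intro h
    have := Fintype.ofFinite Y
    have hz : z = ∑ y, z y • (Pi.single y 1 : Y → R) := by
      ext x
      simp [Finset.sum_apply, Pi.single_apply]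
    rw [hz]
    exact Submodule.sum_mem _ fun y _ => Submodule.smul_mem_smul (h y) Submodule.mem_top

lemma inMax_monoidAlgebra_iff {R : Type} [CommRing R] [IsLocalRing R] {G : Type}
    {z : MonoidAlgebra R G} : InMax R z ↔ ∀ x, z.coeff x ∈ maximalIdeal R := by
  constructor
  · intro h
    refine Submodule.smul_induction_on
      (p := fun z : MonoidAlgebra R G => ∀ x, z.coeff x ∈ maximalIdeal R) h
      (fun r hr n _ x => ?_) ?_
    · simpa using Ideal.mul_mem_right (n.coeff x) _ hr
    · intro a b ha hb x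
      simpa using Ideal.add_mem _ (ha x) (hb x)
  · intro h
    rw [← MonoidAlgebra.sum_coeff_single z]
    refine Submodule.sum_mem _ fun x _ => ?_
    have h1 : (MonoidAlgebra.single x (z.coeff x) : MonoidAlgebra R G)
        = z.coeff x • MonoidAlgebra.single x (1 : R) := by
      rw [MonoidAlgebra.smul_single', mul_one]
    change MonoidAlgebra.single x (z.coeff x) ∈ _
    rw [h1]
    exact Submodule.smul_mem_smul (h x) Submodule.mem_top

lemma idem_inMax_map {R : Type} [CommRing R] [IsLocalRing R] {M N : Type} [AddCommGroup M]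
    [Module R M] [AddCommGroup N] [Module R N] (f : M →ₗ[R] N) {z : M} (h : InMax R z) :
    InMax R (f z) := by
  refine Submodule.smul_induction_on (p := fun z => InMax R (f z)) h (fun r hr n _ => ?_) ?_
  · rw [map_smul]
    exact Submodule.smul_mem_smul hr Submodule.mem_top
  · intro a b ha hb
    rw [map_add]
    exact Submodule.add_mem _ ha hb

lemma idem_inMax_mul_left {R A : Type} [CommRing R] [IsLocalRing R] [Ring A] [Algebra R A]
    (a : A) {z : A} (h : InMax R z) : InMax R (a * z) :=
  idem_inMax_map (LinearMap.mulLeft R a) h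

lemma idem_inMax_mul_right {R A : Type} [CommRing R] [IsLocalRing R] [Ring A] [Algebra R A]
    (a : A) {z : A} (h : InMax R z) : InMax R (z * a) :=
  idem_inMax_map (LinearMap.mulRight R a) h

/-- Nakayama for an endomorphism congruent to the identity. -/
lemma idem_surj {R : Type} [CommRing R] [IsLocalRing R] {M : Type} [AddCommGroup M]
    [Module R M] [Module.Finite R M] (f : M →ₗ[R] M) (hf : ∀ x, InMax R (x - f x)) :
    Function.Surjective f := by
  rw [← LinearMap.range_eq_top, eq_top_iff]
  refine Submodule.le_of_le_smul_of_le_jacobson_bot Module.Finite.fg_top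
    (maximalIdeal_le_jacobson ⊥) ?_
  intro x _
  have h1 : x = f x + (x - f x) := by abel
  rw [h1]
  exact Submodule.add_mem_sup (LinearMap.mem_range_self f x) (hf x)

lemma idem_isUnit_of {A : Type} [Ring A] {a b c : A} (h1 : a * b = 1) (h2 : c * a = 1) :
    IsUnit a := by
  have h3 : c = b := by rw [← mul_one c, ← h1, ← mul_assoc, h2, one_mul]
  exact ⟨⟨a, b, h1, h3 ▸ h2⟩, rfl⟩

lemma idem_cong {R : Type} [CommRing R] [IsLocalRing R] (c : R) (s : Multiset R)
    (hs : ∀ a ∈ s, a - c ∈ maximalIdeal R) :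
    InMax R ((Polynomial.X - Polynomial.C c) ^ Multiset.card s -
      (s.map fun a => Polynomial.X - Polynomial.C a).prod) := by
  induction s using Multiset.induction_on with
  | empty => simp [InMax]
  | cons a s ih =>
    have h1 := ih fun b hb => hs b (Multiset.mem_cons_of_mem hb)
    have h2 : a - c ∈ maximalIdeal R := hs a (Multiset.mem_cons_self a s)
    rw [Multiset.card_cons, Multiset.map_cons, Multiset.prod_cons]
    set P := (s.map fun a => Polynomial.X - Polynomial.C a).prod
    have h3 : (Polynomial.X - Polynomial.C c) ^ (Multiset.card s + 1) -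
        (Polynomial.X - Polynomial.C a) * P =
        (Polynomial.X - Polynomial.C c) * ((Polynomial.X - Polynomial.C c) ^ Multiset.card s - P) +
          (a - c) • P := by
      rw [Polynomial.smul_eq_C_mul, map_sub]; ring
    rw [h3]
    exact Submodule.add_mem _ (idem_inMax_mul_left _ h1)
      (Submodule.smul_mem_smul h2 Submodule.mem_top)

lemma idem_coprime_one {R : Type} [CommRing R] (c : R) (t : Multiset R)
    (ht : ∀ b ∈ t, IsUnit (c - b)) :
    IsCoprime (Polynomial.X - Polynomial.C c)
      (t.map fun a => Polynomial.X - Polynomial.C a).prod := by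
  induction t using Multiset.induction_on with
  | empty => simpa using isCoprime_one_right
  | cons b t ih =>
    rw [Multiset.map_cons, Multiset.prod_cons]
    exact (Polynomial.isCoprime_X_sub_C_of_isUnit_sub (ht b (Multiset.mem_cons_self b t))).mul_right
      (ih fun x hx => ht x (Multiset.mem_cons_of_mem hx))

lemma idem_coprime {R : Type} [CommRing R] (s t : Multiset R)
    (h : ∀ a ∈ s, ∀ b ∈ t, IsUnit (a - b)) :
    IsCoprime (s.map fun a => Polynomial.X - Polynomial.C a).prod
      (t.map fun a => Polynomial.X - Polynomial.C a).prod := by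
  induction s using Multiset.induction_on with
  | empty => simpa using isCoprime_one_left
  | cons a s ih =>
    rw [Multiset.map_cons, Multiset.prod_cons]
    exact (idem_coprime_one a t (h a (Multiset.mem_cons_self a s))).mul_left
      (ih fun x hx => h x (Multiset.mem_cons_of_mem hx))

variable {R A : Type} [CommRing R] [IsLocalRing R] [Ring A] [Algebra R A] [Module.Finite R A]

/-- Nakayama: `1 - z` is a unit if `z` is nilpotent modulo the maximal ideal. -/
lemma NilR.isUnit_one_sub {z : A} (h : NilR R z) : IsUnit (1 - z) := by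
  obtain ⟨n, hn⟩ := h
  obtain ⟨b, hb⟩ := idem_surj (LinearMap.mulLeft R (1 - z ^ n)) (fun x => by
    have h1 : x - LinearMap.mulLeft R (1 - z ^ n) x = z ^ n * x := by
      rw [LinearMap.mulLeft_apply, sub_mul, one_mul, sub_sub_cancel]
    rw [h1]
    exact idem_inMax_mul_right x hn) 1
  obtain ⟨c, hc⟩ := idem_surj (LinearMap.mulRight R (1 - z ^ n)) (fun x => by
    have h1 : x - LinearMap.mulRight R (1 - z ^ n) x = x * z ^ n := by
      rw [LinearMap.mulRight_apply, mul_sub, mul_one, sub_sub_cancel]
    rw [h1]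
    exact idem_inMax_mul_left x hn) 1
  rw [LinearMap.mulLeft_apply, ← mul_neg_geom_sum, mul_assoc] at hb
  rw [LinearMap.mulRight_apply, ← geom_sum_mul_neg, ← mul_assoc] at hc
  exact idem_isUnit_of hb hc

/-- Fitting decomposition at `c`: write a monic equation of `y` as `f₁ f₂`, the roots of `f₁`
congruent to `c` and those of `f₂` not; `f₁` and `f₂` are coprime, and so are `X - C c` and `f₂`.
Take `ε = (b f₂)(y)` for `a f₁ + b f₂ = 1`. -/
theorem exists_fitting (hR : MonicSplit R) (y : A) (c : R) :
    ∃ ε ∈ Algebra.adjoin R {y}, ∃ w ∈ Algebra.adjoin R {y}, IsIdempotentElem ε ∧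
      NilR R ((y - algebraMap R A c) * ε) ∧ (y - algebraMap R A c) * w = 1 - ε := by
  classical
  obtain ⟨f, hf, hfy⟩ := IsIntegral.of_finite R y
  rw [← Polynomial.aeval_def] at hfy
  obtain ⟨s, hs⟩ := hR f hf
  set s₁ := s.filter fun a => a - c ∈ maximalIdeal R with hs₁
  set s₂ := s.filter fun a => ¬ (a - c ∈ maximalIdeal R) with hs₂
  set f₁ := (s₁.map fun a => Polynomial.X - Polynomial.C a).prod with hf₁
  set f₂ := (s₂.map fun a => Polynomial.X - Polynomial.C a).prod with hf₂
  have hff : f = f₁ * f₂ := by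
    rw [hs, hf₁, hf₂, ← Multiset.prod_add, ← Multiset.map_add, hs₁, hs₂, Multiset.filter_add_not]
  have hm₁ : ∀ a ∈ s₁, a - c ∈ maximalIdeal R := fun a ha => (Multiset.mem_filter.mp ha).2
  have hm₂ : ∀ b ∈ s₂, ¬ (b - c ∈ maximalIdeal R) := fun b hb => (Multiset.mem_filter.mp hb).2
  have hu : ∀ a, a - c ∈ maximalIdeal R → ∀ b ∈ s₂, IsUnit (a - b) := by
    intro a ha b hb
    by_contra hn
    have h1 : a - b ∈ maximalIdeal R := (mem_maximalIdeal _).mpr hn
    have h2 : b - c = (a - c) - (a - b) := by ring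
    exact hm₂ b hb (h2 ▸ Ideal.sub_mem _ ha h1)
  obtain ⟨a, b, hab⟩ : IsCoprime f₁ f₂ := idem_coprime s₁ s₂ fun a ha => hu a (hm₁ a ha)
  obtain ⟨u, v, huv⟩ : IsCoprime (Polynomial.X - Polynomial.C c) f₂ :=
    idem_coprime_one c s₂ (hu c (by simp))
  have hyc : y - algebraMap R A c = Polynomial.aeval y (Polynomial.X - Polynomial.C c) := by simp
  have hzero : ∀ q : Polynomial R, Polynomial.aeval y (q * (f₁ * f₂)) = 0 := fun q => by
    rw [← hff, map_mul, hfy, mul_zero]
  have hidem : IsIdempotentElem (Polynomial.aeval y (b * f₂)) := by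
    have h1 : b * f₂ * (b * f₂) = b * f₂ - (a * b) * (f₁ * f₂) := by
      linear_combination (b * f₂) * hab
    change _ * _ = _
    rw [← map_mul, h1, map_sub, hzero, sub_zero]
  refine ⟨Polynomial.aeval y (b * f₂), Polynomial.aeval_mem_adjoin_singleton R y,
    Polynomial.aeval y (u * (a * f₁)), Polynomial.aeval_mem_adjoin_singleton R y, hidem,
    ⟨Multiset.card s₁ + 1, ?_⟩, ?_⟩
  · have h1 := idem_cong c s₁ hm₁
    rw [← hf₁] at h1
    set n := Multiset.card s₁
    set D := Polynomial.X - Polynomial.C c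
    have h2 : (D * (b * f₂)) ^ (n + 1) =
        (D ^ n - f₁) * (D * (b * f₂) ^ (n + 1)) + (D * b * (b * f₂) ^ n) * (f₁ * f₂) := by
      rw [mul_pow D, pow_succ D, pow_succ (b * f₂)]
      generalize (b * f₂) ^ n = E
      generalize D ^ n = F
      ring
    rw [hyc, ← map_mul, ← map_pow, h2, map_add, hzero, add_zero]
    exact idem_inMax_map (Polynomial.aeval y : Polynomial R →ₐ[R] A).toLinearMap
      (idem_inMax_mul_right _ h1)
  · have h1 : (Polynomial.X - Polynomial.C c) * (u * (a * f₁)) =
        1 - b * f₂ - (v * a) * (f₁ * f₂) := by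
      linear_combination (a * f₁) * huv + hab
    rw [hyc, ← map_mul, h1, map_sub, hzero, sub_zero, map_sub, map_one]

/-- Lifting idempotents along a ring homomorphism that kills the maximal ideal. -/
theorem exists_idem_lift (hR : MonicSplit R) {S : Type} [Ring S] (φ : A →+* S)
    (hφ : ∀ z : A, InMax R z → φ z = 0) {y : A} (hy : IsIdempotentElem (φ y)) :
    ∃ ε ∈ Algebra.adjoin R {y}, IsIdempotentElem ε ∧ φ ε = φ y := by
  obtain ⟨ε, hε, w, -, hi, ⟨n, hn⟩, hw⟩ := exists_fitting hR y 1
  refine ⟨ε, hε, hi, ?_⟩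
  rw [map_one] at hn hw
  have hc : Commute (φ y) (φ ε) := (Algebra.commute_of_mem_adjoin_self hε).map φ
  have hi' : IsIdempotentElem (φ ε) := hi.map φ
  have h1 : ((φ y - 1) * φ ε) ^ n = 0 := by
    have := hφ _ hn
    rwa [map_pow, map_mul, map_sub, map_one] at this
  have h2 : IsIdempotentElem ((1 - φ y) * φ ε) :=
    IsIdempotentElem.mul_of_commute ((Commute.one_left _).sub_left hc) hy.one_sub hi'
  have h3 : (1 - φ y) * φ ε = 0 := by
    have h4 : (1 - φ y) * φ ε = -((φ y - 1) * φ ε) := by rw [← neg_mul, neg_sub]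
    refine h2.eq_zero_of_isNilpotent ?_
    rw [h4]
    exact IsNilpotent.neg ⟨n, h1⟩
  have h5 : (φ y - 1) * φ w = 1 - φ ε := by
    have := congrArg φ hw
    rwa [map_mul, map_sub, map_one, map_sub, map_one] at this
  have h6 : φ y * (1 - φ ε) = 0 := by
    rw [← h5, ← mul_assoc, mul_sub, hy.eq, mul_one, sub_self, zero_mul]
  rw [sub_mul, one_mul, sub_eq_zero] at h3
  rw [mul_sub, mul_one, sub_eq_zero] at h6
  rw [h3, ← h6]

/-- An algebra without proper idempotents. -/
lemma idem_scalar (hR : MonicSplit R) (hp : ∀ ε : A, IsIdempotentElem ε → ε = 0 ∨ ε = 1)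
    (y : A) : ∃ c : R, NilR R (y - algebraMap R A c) := by
  by_contra hcon
  have hinv : ∀ c : R, ∃ w, (y - algebraMap R A c) * w = 1 := by
    intro c
    obtain ⟨ε, -, w, -, hi, hn, hw⟩ := exists_fitting hR y c
    rcases hp ε hi with h0 | h1
    · exact ⟨w, by rw [hw, h0, sub_zero]⟩
    · rw [h1, mul_one] at hn
      exact absurd ⟨c, hn⟩ hcon
  have hprod : ∀ s : Multiset R, ∃ w,
      Polynomial.aeval y (s.map fun a => Polynomial.X - Polynomial.C a).prod * w = 1 := by
    intro s
    induction s using Multiset.induction_on with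
    | empty => exact ⟨1, by simp⟩
    | cons a s ih =>
      obtain ⟨w, hw⟩ := ih
      obtain ⟨w', hw'⟩ := hinv a
      refine ⟨w * w', ?_⟩
      rw [Multiset.map_cons, Multiset.prod_cons, map_mul, mul_assoc, ← mul_assoc _ w w', hw,
        one_mul]
      simpa using hw'
  obtain ⟨f, hf, hfy⟩ := IsIntegral.of_finite R y
  rw [← Polynomial.aeval_def] at hfy
  obtain ⟨s, hs⟩ := hR f hf
  obtain ⟨w, hw⟩ := hprod s
  rw [← hs, hfy, zero_mul] at hw
  refine hcon ⟨0, 0, ?_⟩
  rw [pow_zero, ← hw]
  exact Submodule.zero_mem _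

/-- In a corner without proper idempotents every element is a scalar modulo nilpotents (apply
`exists_fitting` in the corner algebra to the roots of a monic equation). -/
theorem exists_scalar_of_primitive (hR : MonicSplit R) {j : A} (hj : IsIdempotentElem j)
    (hprim : ∀ ε, IsIdempotentElem ε → j * ε = ε → ε * j = ε → ε = 0 ∨ ε = j) {y : A}
    (h1 : j * y = y) (h2 : y * j = y) : ∃ c : R, NilR R (y - c • j) := by
  have : Module.Finite R hj.Corner :=
    Module.Finite.of_surjective (cproj R hj) fun a => ⟨a.1, cproj_cval hj a⟩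
  have hp : ∀ ε : hj.Corner, IsIdempotentElem ε → ε = 0 ∨ ε = 1 := by
    intro ε hε
    have h3 : IsIdempotentElem ε.1 := congrArg Subtype.val hε.eq
    rcases hprim ε.1 h3 (corner_left hj ε) (corner_right hj ε) with h0 | h0
    · exact Or.inl (Subtype.ext h0)
    · exact Or.inr (Subtype.ext h0)
  obtain ⟨c, n, hn⟩ := idem_scalar hR hp (cmk hj y)
  set z := cmk hj y - algebraMap R hj.Corner c with hz
  have hzv : z.1 = y - c • j := by
    have h3 : cval R hj z = cval R hj (cmk hj y) - cval R hj (algebraMap R hj.Corner c) := by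
      rw [hz, map_sub]
    have h4 : cval R hj (cmk hj y) = y := by rw [cval_apply, cmk_val, h1, h2]
    rw [h4] at h3
    exact h3
  have hpow : ∀ k : ℕ, (z ^ (k + 1)).1 = z.1 ^ (k + 1) := by
    intro k
    induction k with
    | zero => rw [zero_add, pow_one, pow_one]
    | succ k ih => rw [pow_succ, corner_mul, ih, ← pow_succ]
  refine ⟨c, n + 1, ?_⟩
  rw [← hzv, ← hpow, pow_succ]
  exact idem_inMax_map (cval R hj) (idem_inMax_mul_right z hn)

/-- Idempotents that commute and agree modulo the maximal ideal are equal. -/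
lemma idem_eq_of_inMax {a b : A} (ha : IsIdempotentElem a) (hb : IsIdempotentElem b)
    (hab : a * b = b * a) (h : InMax R (a - b)) : a = b := by
  have hu : IsUnit (1 - (a - b) * (a - b)) :=
    NilR.isUnit_one_sub (R := R) ⟨1, by rw [pow_one]; exact idem_inMax_mul_left _ h⟩
  have h1 : (a - b) * (a - b) = a + b - (a * b + a * b) := by
    rw [sub_mul, mul_sub, mul_sub, ha.eq, hb.eq, ← hab]; abel
  have h2 : a * (a * b) = a * b := by rw [← mul_assoc, ha.eq]
  have h3 : b * (a * b) = a * b := by rw [← mul_assoc, ← hab, mul_assoc, hb.eq]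
  have h4 : (a - b) * (1 - (a - b) * (a - b)) = 0 := by
    rw [h1]
    simp only [mul_sub, sub_mul, mul_add, mul_one, ha.eq, hb.eq, h2, h3, ← hab]
    abel
  exact sub_eq_zero.mp (hu.mul_left_eq_zero.mp h4)

end Pool.Agent.Lib.MP_b6945b_al.St
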