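import Pool.Agent.Lib.MP_b6945b_al.St.Tr
import Pool.Agent.Lib.MP_b6945b_al.St.Idem

set_option autoImplicit false

/-!
Equivariant projective covers by averaging.
-/

namespace Pool.Agent.Lib.MP_b6945b_al.St

open IsLocalRing

lemma coverk_rtr_mem {k N W : Type} [Field k] [Group N] [Fintype N] [AddCommGroup W]
    [Module k W] (ν : Representation k N W) (S : Subgroup N) (T : Submodule k W)
    (f : Module.End k W) (w : W) (h : ∀ g, ν g (f (ν g⁻¹ w)) ∈ T) :
    rtr (ν.linHom ν) S ⊤ f w ∈ T :=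
  rtr_mem (ρ := ν.linHom ν) (T.comap (LinearMap.applyₗ w)).toAddSubgroup (m := f)
    (fun g _ => h g)

/-- Let `π : W → W / S₀` with the quotient representation.  `π η₀ ι` is fixed by `S`, so
`η₁ = rtr S ⊤ (π η₀ ι)` is equivariant.  Lift `η₁` linearly to `W` and put
`η = P (rtr Z ⊤ (lift ∘ ι')) P`; then `π (rtr Z ⊤ (lift ∘ ι') (P w)) = η₁ (P w)`. -/
theorem exists_cover_endo {k N W : Type} [Field k] [Group N] [Fintype N] [AddCommGroup W]
    [Module k W] (ν : Representation k N W) (S Z : Subgroup N) (S₀ S₁ : Submodule k W)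
    (hle : S₀ ≤ S₁) (h0 : ∀ n, ∀ w ∈ S₀, ν n w ∈ S₀) (h1 : ∀ n, ∀ w ∈ S₁, ν n w ∈ S₁)
    (P : Module.End k W) (hP : EquivOn ν ν ⊤ P) (hPP : P * P = P) (hP0 : ∀ w ∈ S₀, P w ∈ S₀)
    (hP1 : ∀ w ∈ S₁, P w ∈ S₁) (η₀ : Module.End k W) (ha : ∀ w ∈ S₁, η₀ w ∈ S₀)
    (hb : ∀ w, η₀ w - w ∈ S₁) (hc : ∀ s ∈ S, ∀ w, η₀ (ν s w) - ν s (η₀ w) ∈ S₀)
    (ι : Module.End k W) (hι : EquivOn ν ν S ι) (hι1 : ∀ w ∈ S₁, ι w ∈ S₁)
    (hιP : rtr (ν.linHom ν) S ⊤ ι * P = P) (hZ : ∀ z ∈ Z, ∀ w, ν z w = w)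
    (ι' : Module.End k W) (hι' : rtr (ν.linHom ν) Z ⊤ ι' * P = P) :
    ∃ η : Module.End k W, EquivOn ν ν ⊤ η ∧ P * η * P = η ∧ (∀ w ∈ S₁, η w ∈ S₀) ∧
      ∀ w, η w - P w ∈ S₁ := by
  let ν' : Representation k N (W ⧸ S₀) := ν.quotient S₀ (fun g w hw => h0 g w hw)
  have hπ : EquivOn ν ν' ⊤ S₀.mkQ := fun g _ m => rfl
  let L : Module.End k W := rtr (ν.linHom ν) S ⊤ (η₀ ∘ₗ ι)
  have hθ : EquivOn ν ν' S (S₀.mkQ ∘ₗ (η₀ ∘ₗ ι)) := by
    intro s hs w
    simp only [LinearMap.comp_apply]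
    rw [hι s hs, ← hπ s trivial, Submodule.mkQ_apply, Submodule.mkQ_apply, Submodule.Quotient.eq]
    exact hc s hs _
  have hL : EquivOn ν ν' ⊤ (S₀.mkQ ∘ₗ L) := by
    rw [comp_rtr hπ]
    exact fixedBy_linHom.1 (rtr_fixed le_top (fixedBy_linHom.2 hθ))
  have hL0 : ∀ w ∈ S₁, L w ∈ S₀ := fun w hw =>
    coverk_rtr_mem ν S S₀ _ w fun g => h0 g _ (ha _ (hι1 _ (h1 _ w hw)))
  have hL1 : ∀ w, L (P w) - P w ∈ S₁ := by
    intro w
    have e1 : rtr (ν.linHom ν) S ⊤ ι (P w) = P w := LinearMap.congr_fun hιP w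
    have e2 : L (P w) - P w = rtr (ν.linHom ν) S ⊤ (η₀ ∘ₗ ι - ι) (P w) := by
      rw [map_sub, LinearMap.sub_apply, e1]
    rw [e2]
    exact coverk_rtr_mem ν S S₁ _ _ fun g => h1 g _ (hb _)
  let η' : Module.End k W := rtr (ν.linHom ν) Z ⊤ (L ∘ₗ ι')
  have hη' : EquivOn ν ν ⊤ η' :=
    fixedBy_linHom.1 (rtr_fixed le_top (fixedBy_linHom.2 fun z hz w => by rw [hZ z hz, hZ z hz]))
  have hη : ∀ w, η' (P w) - L (P w) ∈ S₀ := by
    intro w
    have e1 : rtr (ν.linHom ν) Z ⊤ ι' (P w) = P w := LinearMap.congr_fun hι' w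
    have e2 : S₀.mkQ ∘ₗ η' = (S₀.mkQ ∘ₗ L) ∘ₗ rtr (ν.linHom ν) Z ⊤ ι' := by
      rw [comp_rtr hπ, comp_rtr hL, LinearMap.comp_assoc]
    have e3 := LinearMap.congr_fun e2 (P w)
    simp only [LinearMap.comp_apply, e1, Submodule.mkQ_apply] at e3
    exact (Submodule.Quotient.eq S₀).1 e3
  have hPPw : ∀ w, P (P w) = P w := fun w => LinearMap.congr_fun hPP w
  refine ⟨P * η' * P, fun g hg w => ?_, ?_, fun w hw => ?_, fun w => ?_⟩
  · simp only [Module.End.mul_apply]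
    rw [hP g hg, hη' g hg, hP g hg]
  · rw [← mul_assoc, ← mul_assoc, hPP, mul_assoc (P * η'), hPP]
  · simp only [Module.End.mul_apply]
    refine hP0 _ ?_
    have := S₀.add_mem (hη w) (hL0 _ (hP1 w hw))
    rwa [sub_add_cancel] at this
  · simp only [Module.End.mul_apply]
    have := hP1 _ (S₁.add_mem (hle (hη w)) (hL1 w))
    rwa [sub_add_sub_cancel, map_sub, hPPw] at this

/-- Fitting's lemma at `c = 1`.  Here `φ` is multiplicative on the subalgebra `B`.  With `ε₀, w`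
from `exists_fitting`, in the adjoin of `y` and so in `B`, the images are polynomials in `η = φ y`,
so preserve `S₀`; modulo `S₀`, `η` is idempotent, `(η - 1) φ ε₀` is nilpotent and minus an
idempotent, so zero, and `η (1 - φ ε₀) = η (η - 1) φ w` is zero.  Take `ε = ε₀ P`. -/
theorem exists_idem_cover {R A W : Type} [CommRing R] [IsLocalRing R] [Ring A] [Algebra R A]
    [Module.Finite R A] [AddCommGroup W] [Module (ResidueField R) W] (hR : MonicSplit R)
    (B : Subalgebra R A) (φ : A →+ Module.End (ResidueField R) W) (hφ1 : φ 1 = 1)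
    (hφm : ∀ x ∈ B, ∀ y ∈ B, φ (x * y) = φ x * φ y)
    (hφs : ∀ (r : R) x, φ (r • x) = residue R r • φ x) {y P : A} (hy : y ∈ B) (hP : P ∈ B)
    (hPP : P * P = P) (hPy : P * y * P = y) (S₀ : Submodule (ResidueField R) W)
    (hP0 : ∀ w ∈ S₀, φ P w ∈ S₀) (hy0 : ∀ w ∈ S₀, φ y w ∈ S₀)
    (hyy : ∀ w, φ y (φ y w) - φ y w ∈ S₀) :
    ∃ ε ∈ B, ε * ε = ε ∧ P * ε = ε ∧ ε * P = ε ∧ ∀ w, φ ε w - φ y w ∈ S₀ := by
  have _hP0 := hP0
  let C : Subalgebra R A := Algebra.adjoin R {y}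
  have hCB : C ≤ B := Algebra.adjoin_le (Set.singleton_subset_iff.2 hy)
  have hfin : Module.Finite R C :=
    Algebra.finite_adjoin_simple_of_isIntegral (IsIntegral.of_finite R y)
  have hC : ∀ c ∈ C, S₀ ≤ S₀.comap (φ c) := by
    intro c hc
    induction hc using Algebra.adjoin_induction with
    | mem x hx =>
      rw [Set.mem_singleton_iff.1 hx]
      exact hy0
    | algebraMap r =>
      intro w hw
      rw [Submodule.mem_comap, Algebra.algebraMap_eq_smul_one, hφs, hφ1]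
      exact S₀.smul_mem _ hw
    | add x z _ _ ihx ihz =>
      intro w hw
      rw [Submodule.mem_comap, map_add]
      exact S₀.add_mem (ihx hw) (ihz hw)
    | mul x z hx hz ihx ihz =>
      intro w hw
      rw [Submodule.mem_comap, hφm x (hCB hx) z (hCB hz)]
      exact ihx (ihz hw)
  let ψ : C →+* Module.End (ResidueField R) (W ⧸ S₀) :=
    { toFun := fun c => S₀.mapQ S₀ (φ c.1) (hC c.1 c.2)
      map_one' := by
        refine Submodule.linearMap_qext _ (LinearMap.ext fun w => ?_)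
        change S₀.mkQ (φ 1 w) = S₀.mkQ w
        rw [hφ1]; rfl
      map_mul' := fun a b => by
        refine Submodule.linearMap_qext _ (LinearMap.ext fun w => ?_)
        change S₀.mkQ (φ (a.1 * b.1) w) = S₀.mkQ (φ a.1 (φ b.1 w))
        rw [hφm _ (hCB a.2) _ (hCB b.2)]; rfl
      map_zero' := by
        refine Submodule.linearMap_qext _ (LinearMap.ext fun w => ?_)
        change S₀.mkQ (φ 0 w) = 0
        rw [map_zero, LinearMap.zero_apply, map_zero]
      map_add' := fun a b => by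
        refine Submodule.linearMap_qext _ (LinearMap.ext fun w => ?_)
        change S₀.mkQ (φ (a.1 + b.1) w) = S₀.mkQ (φ a.1 w) + S₀.mkQ (φ b.1 w)
        rw [map_add, LinearMap.add_apply, map_add] }
  have hψ : ∀ (c : C) w, ψ c (S₀.mkQ w) = S₀.mkQ (φ c.1 w) := fun c w => rfl
  have hmax : ∀ z : C, InMax R z → ψ z = 0 := by
    intro z hz
    refine Submodule.smul_induction_on (p := fun z : C => ψ z = 0) hz (fun r hr n _ => ?_) ?_
    · refine Submodule.linearMap_qext _ (LinearMap.ext fun w => ?_)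
      change S₀.mkQ (φ (r • n.1) w) = 0
      rw [hφs, (residue_eq_zero_iff r).2 hr, zero_smul, LinearMap.zero_apply, map_zero]
    · intro a b ha hb
      rw [map_add, ha, hb, add_zero]
  let y' : C := ⟨y, Algebra.self_mem_adjoin_singleton R y⟩
  have hy' : IsIdempotentElem (ψ y') := by
    refine Submodule.linearMap_qext _ (LinearMap.ext fun w => ?_)
    change S₀.mkQ (φ y (φ y w)) = S₀.mkQ (φ y w)
    exact (Submodule.Quotient.eq S₀).2 (hyy w)
  obtain ⟨ε, -, hε, hεy⟩ := exists_idem_lift hR ψ hmax hy'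
  have hyP : y * P = y := by rw [← hPy, mul_assoc, hPP]
  have hPy' : P * y = y := by rw [← hPy, ← mul_assoc, ← mul_assoc, hPP]
  have hcom : Commute P ε.1 := by
    refine Algebra.commute_of_mem_adjoin_singleton_of_commute ε.2 ?_
    exact hPy'.trans hyP.symm
  have hεε : ε.1 * ε.1 = ε.1 := congrArg Subtype.val hε.eq
  refine ⟨ε.1 * P, B.mul_mem (hCB ε.2) hP, ?_, ?_, ?_, fun w => ?_⟩
  · rw [mul_assoc, ← mul_assoc P, hcom.eq, mul_assoc, hPP, ← mul_assoc, hεε]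
  · rw [← mul_assoc, hcom.eq, mul_assoc, hPP]
  · rw [mul_assoc, hPP]
  · have e1 : φ y w = φ y (φ P w) := by
      rw [← Module.End.mul_apply, ← hφm y hy P hP, hyP]
    rw [hφm _ (hCB ε.2) P hP, e1, Module.End.mul_apply]
    refine (Submodule.Quotient.eq S₀).1 ?_
    have e2 := hψ ε (φ P w)
    rw [hεy, hψ] at e2
    exact e2.symm

end Pool.Agent.Lib.MP_b6945b_al.St
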