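import Pool.Agent.Lib.MP_b6945b_al.St.Model2
import Pool.Agent.Lib.MP_b6945b_al.St.CoverK

set_option autoImplicit false

/-!
The projective cover of the long part, equivariantly for the normaliser.
-/

namespace Pool.Agent.Lib.MP_b6945b_al.St

open IsLocalRing

variable {R : Type} [CommRing R] [IsLocalRing R] {G : Type} [Group G] [Fintype G]
  {H : Subgroup G} [Fintype H] {X : Type} [Fintype X] [DecidableEq X] [MulAction (G × H) X]
  {p : ℕ} {D : Subgroup H} {e : MonoidAlgebra R G} {f a : MonoidAlgebra R H} {I : Type}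
  {Qf : I → Subgroup H} {c : I → G} {i₀ iT iF : I} {Reps : Finset (Subgroup H)} {κ : X → G}
  {comp : X → I} {b : I → X} {ef D₀ : Kern R H X} {P : (I → Prop) → Kern R H X}
  {ε : Subgroup H → Kern R H X} {ε₀ ε₁ d : Kern R H X}

/-- The elements of the normaliser whose second component lies in `D`. -/
def SQ (D Q : Subgroup H) : Subgroup (NQ Q) :=
  D.comap ((MonoidHom.snd G H).comp (NQ Q).subtype)

/-- The diagonal of `Q` in the normaliser. -/
def ZQ (Q : Subgroup H) : Subgroup (NQ Q) where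
  carrier := {γ | (γ : G × H).2 ∈ Q ∧ (γ : G × H).1 = (γ : G × H).2}
  one_mem' := ⟨Q.one_mem, rfl⟩
  mul_mem' := fun h h' => ⟨Q.mul_mem h.1 h'.1, by simp [h.2, h'.2]⟩
  inv_mem' := fun h => ⟨Q.inv_mem h.1, by simp [h.2]⟩

omit [IsLocalRing R] [Fintype G] in
lemma cover_rhoM_sum {ι : Type} (t : Finset ι) (x : ι → MonoidAlgebra R H) :
    rhoM R H X (∑ i ∈ t, x i) = ∑ i ∈ t, rhoM R H X (x i) := by
  unfold rhoM
  rw [Finset.sum_comm]
  refine Finset.sum_congr rfl fun g _ => ?_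
  rw [← Finset.sum_smul]
  congr 1
  exact map_sum (coef R g) x t

omit [IsLocalRing R] [Fintype G] [Fintype H] in
lemma cover_gInv_mul {u v : Kern R H X} (hu : GInv u) (hv : GInv v) : GInv (u * v) := fun g => by
  rw [← mul_assoc, hu g, mul_assoc, hv g, mul_assoc]

omit [IsLocalRing R] [Fintype G] [Fintype H] in
lemma cover_mem {M : Matrix X X R} : M ∈ Subalgebra.centralizer R (Set.range (pmat R H X)) ↔
    ∀ (γ : G × H) x y, M (γ • x) (γ • y) = M x y := by
  simp only [Subalgebra.mem_centralizer_iff, Set.forall_mem_range]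
  refine forall_congr' (fun γ => ⟨fun e x y => ?_, fun e => ?_⟩)
  · have := congrFun (congrFun e (γ • x)) y
    rw [pmat_mul_apply, mul_pmat_apply, inv_smul_smul] at this
    exact this.symm
  · ext x y
    rw [pmat_mul_apply, mul_pmat_apply, ← e, smul_inv_smul]

section Pres

variable {k : Type} [Field k] {Q : Subgroup H} {φ : Module.End k (Fix X Q → k)}
  {w : Fix X Q → k}

omit [Fintype G] [Fintype H] [Fintype X] in
lemma cover_entry (hφ : EquivOn (nRep X k Q) (nRep X k Q) ⊤ φ) (γ : NQ Q) (x y : Fix X Q) :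
    φ (Pi.single (γ • y) 1) (γ • x) = φ (Pi.single y 1) x := by
  have e : Pi.single (γ • y) 1 = nRep X k Q γ (Pi.single y 1) := by
    funext z
    change _ = (Pi.single y 1 : Fix X Q → k) (γ⁻¹ • z)
    simp only [Pi.single_apply, inv_smul_eq_iff]
  rw [e, hφ γ trivial]
  change φ (Pi.single y 1) (γ⁻¹ • γ • x) = _
  rw [inv_smul_smul]

omit [Fintype G] [Fintype H] [Fintype X] [DecidableEq X] in
lemma cover_JU (hφ : EquivOn (nRep X k Q) (nRep X k Q) (SQ D Q) φ) (hw : w ∈ JU (lamQ X k Q)) :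
    φ w ∈ JU (lamQ X k Q) :=
  map_JU (fun c _ u => hφ (inlN Q c) D.one_mem u) hw

omit [Fintype G] [Fintype H] [Fintype X] [DecidableEq X] in
lemma cover_rad (hφ : EquivOn (nRep X k Q) (nRep X k Q) (SQ D Q) φ) (hw : w ∈ radS X k D Q) :
    φ w ∈ radS X k D Q := by
  have h : radS X k D Q ≤ (radS X k D Q).comap φ := by
    refine sup_le (fun u hu => Submodule.mem_sup_left (cover_JU hφ hu)) (Submodule.span_le.2 ?_)
    rintro _ ⟨δ, hδ, u, rfl⟩
    refine Submodule.mem_sup_right (Submodule.subset_span ⟨δ, hδ, φ u, ?_⟩)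
    rw [map_sub]
    exact congrArg (· - φ u) (hφ (inrN Q δ) hδ u)
  exact h hw

omit [Fintype G] [Fintype H] [Fintype X] [DecidableEq X] in
lemma cover_short (hφ : EquivOn (nRep X k Q) (nRep X k Q) (SQ D Q) φ)
    (hw : w ∈ shortS X k p D Q) : φ w ∈ shortS X k p D Q := by
  have h : shortS X k p D Q ≤ (shortS X k p D Q).comap φ := by
    refine sup_le (fun u hu => Submodule.mem_sup_left (cover_rad hφ hu)) fun u hu => ?_
    refine Submodule.mem_sup_right (mem_kapS.2 fun δ hδ => ?_)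
    have hc : Commute (rhoQ X k Q δ) φ := LinearMap.ext fun u => (hφ (inrN Q δ) hδ u).symm
    rw [← Module.End.mul_apply, ((hc.sub_left (Commute.one_left φ)).pow_left _).eq,
      Module.End.mul_apply]
    exact cover_JU hφ (mem_kapS.1 hu δ hδ)
  exact h hw

omit [Fintype H] [Fintype X] [DecidableEq X] in
lemma cover_nRep_rad [D.Normal] (γ : NQ Q) (hw : w ∈ radS X k D Q) :
    nRep X k Q γ w ∈ radS X k D Q := by
  have h : radS X k D Q ≤ (radS X k D Q).comap (nRep X k Q γ) :=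
    sup_le (fun u hu => Submodule.mem_sup_left (nRep_mem_JU γ hu))
      fun u hu => Submodule.mem_sup_right (nRep_mem_augS γ hu)
  exact h hw

omit [Fintype H] [Fintype X] [DecidableEq X] in
lemma cover_nRep_short [D.Normal] (γ : NQ Q) (hw : w ∈ shortS X k p D Q) :
    nRep X k Q γ w ∈ shortS X k p D Q := by
  have h : shortS X k p D Q ≤ (shortS X k p D Q).comap (nRep X k Q γ) :=
    sup_le (fun u hu => Submodule.mem_sup_left (cover_nRep_rad γ hu))
      fun u hu => Submodule.mem_sup_right (nRep_mem_kapS _ γ hu)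
  exact h hw

omit [Fintype H] in
lemma cover_equiv {u : Kern R H X} (hu : GInv u) :
    EquivOn (nRep X (ResidueField R) Q) (nRep X (ResidueField R) Q) (SQ D Q) (loc Q u.1) :=
  fun g _ => hu.loc_equiv g trivial

end Pres

namespace Setup

lemma cover_loc_P (h : Setup p D e f a Qf c i₀ iT iF Reps κ comp b ef D₀ P) {Q : Subgroup H}
    (S : I → Prop) (w : Fix X Q → ResidueField R) (x : Fix X Q) :
    (S (comp x.1) → loc Q (P S).1 w x = w x) ∧ (¬ S (comp x.1) → loc Q (P S).1 w x = 0) := by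
  rw [loc_apply]
  refine ⟨fun hx => ?_, fun hx => Finset.sum_eq_zero fun y _ => ?_⟩
  · rw [Finset.sum_eq_single x, h.ker.P_val, if_pos ⟨rfl, hx⟩, map_one, one_mul]
    · intro y _ hy
      rw [h.ker.P_val, if_neg fun h0 => hy (Subtype.ext h0.1.symm), map_zero, zero_mul]
    · simp
  · rw [h.ker.P_val, if_neg fun h0 => hx h0.2, map_zero, zero_mul]

lemma cover_loc_mul (h : Setup p D e f a Qf c i₀ iT iF Reps κ comp b ef D₀ P) {Q : Subgroup H}
    (hQ : Q ∈ Reps) {u v : Kern R H X} (hu : GInv u) (hv : GInv v) :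
    loc Q (u * v).1 = loc Q u.1 * loc Q v.1 :=
  loc_mul h.set.prime h.pR (h.set.pD.to_le (h.fam.lt Q hQ).2.le) (hu.dInv Q) (hv.dInv Q)

lemma cover_P_idem (h : Setup p D e f a Qf c i₀ iT iF Reps κ comp b ef D₀ P) (S : I → Prop) :
    P S * P S = P S := by
  rw [h.P_mul]
  simp only [and_self]

lemma cover_Pf_idem (h : Setup p D e f a Qf c i₀ iT iF Reps κ comp b ef D₀ P) (S : I → Prop) :
    P S * ef * (P S * ef) = P S * ef := by
  rw [mul_assoc, ← mul_assoc ef, h.ef_comm (h.P_inv S), mul_assoc, h.ef_idem, ← mul_assoc,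
    h.cover_P_idem]

/-- Write `f = rtr D L a'` with `L` the normaliser of `Q` in `H` (`exists_rtr_intermediate`) and
take `ι = loc (rhoM a')`.  For a transversal `t` of `D` in `L` the `(t, t)` form a transversal of
`SQ` (`rtr_eq_sum`, `nRep_loc_rhoM`). -/
lemma exists_hig_S (h : Setup p D e f a Qf c i₀ iT iF Reps κ comp b ef D₀ P) {Q : Subgroup H}
    (hQ : Q ∈ Reps) : ∃ a' : MonoidAlgebra R H, SuppCent (D : Set H) a' ∧
      EquivOn (nRep X (ResidueField R) Q) (nRep X (ResidueField R) Q) (SQ D Q)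
        (loc Q (rhoM R H X a')) ∧
      rtr ((nRep X (ResidueField R) Q).linHom (nRep X (ResidueField R) Q)) (SQ D Q) ⊤
        (loc Q (rhoM R H X a')) = loc Q (rhoM R H X f) := by
  have hQD : Q ≤ D := (h.fam.lt Q hQ).2.le
  have hDL : D ≤ Subgroup.normalizer (Q : Set H) := by
    intro δ hδ
    rw [Subgroup.mem_normalizer_iff]
    intro q
    have e : ∀ x ∈ D, δ * x * δ⁻¹ = x := fun x hx => by
      rw [h.set.comm δ hδ x hx, mul_inv_cancel_right]
    refine ⟨fun hq => by rwa [e q (hQD hq)], fun hq => ?_⟩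
    have hqD : q ∈ D := by
      simpa [mul_assoc] using D.mul_mem (D.mul_mem (D.inv_mem hδ) (hQD hq)) hδ
    rwa [e q hqD] at hq
  have hN := h.set.normal
  obtain ⟨a', ha', e1⟩ := exists_rtr_intermediate D _ hDL h.blF.supp
  have hfix := tr_fixed_of_suppCent ha'
  have key : ∀ γ : NQ Q, (nRep X (ResidueField R) Q).linHom (nRep X (ResidueField R) Q) γ
      (loc Q (rhoM R H X a')) = loc Q (rhoM R H X (cjRep R H (γ : G × H).2 a')) :=
    fun γ => LinearMap.ext fun w => nRep_loc_rhoM γ a' w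
  have hι : FixedBy ((nRep X (ResidueField R) Q).linHom (nRep X (ResidueField R) Q)) (SQ D Q)
      (loc Q (rhoM R H X a')) := fun γ hγ => by rw [key, hfix (γ : G × H).2 hγ]
  refine ⟨a', ha', fixedBy_linHom.1 hι, ?_⟩
  obtain ⟨n, t, -, ht, hu⟩ := exists_transversal (le_top : SQ D Q ≤ ⊤)
  have e2 := rtr_comp_hom ((MonoidHom.snd G H).comp (NQ Q).subtype) (ρ := cjRep R H)
    (S' := SQ D Q) (T' := ⊤) hDL le_top (fun g _ => Subgroup.mem_normalizer_iff.2 g.2.1)
    (fun g _ => Iff.rfl) (fun g hg => ⟨⟨((g : G), g), Subgroup.mem_normalizer_iff.1 hg,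
      fun q _ => rfl⟩, trivial, by simp⟩) hfix
  rw [rtr_eq_sum (S := SQ D Q) le_top (fun γ hγ => hfix (γ : G × H).2 hγ) t ht hu] at e2
  rw [rtr_eq_sum le_top hι t ht hu, h.blF.tr, e1, ← e2, cover_rhoM_sum, loc_sum]
  exact Finset.sum_congr rfl fun i _ => key _

/-- `exists_higman_perm` with `stab_fix`. -/
lemma exists_hig_Z (h : Setup p D e f a Qf c i₀ iT iF Reps κ comp b ef D₀ P) {Q : Subgroup H}
    (hQ : Q ∈ Reps) : ∃ ι',
      rtr ((nRep X (ResidueField R) Q).linHom (nRep X (ResidueField R) Q)) (ZQ Q) ⊤ ι' =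
        loc Q (P (fun i => Qf i = Q)).1 := by
  have _ := hQ
  obtain ⟨ι, -, hι⟩ := exists_higman_perm (ResidueField R) (Γ := NQ Q) (Y := Fix X Q) (ZQ Q)
    (fun x => Qf (comp x.1) = Q) (fun g y hy => by rwa [NQ_smul_val, h.pre.comp_smul])
    (fun y hy g e => h.pre.stab_fix y hy (congrArg Subtype.val e))
  refine ⟨ι, LinearMap.ext fun w => funext fun y => ?_⟩
  by_cases hy : Qf (comp y.1) = Q
  · exact ((hι w y).1 hy).trans ((h.cover_loc_P _ w y).1 hy).symm
  · exact ((hι w y).2 hy).trans ((h.cover_loc_P _ w y).2 hy).symm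

/-- Equivariant local maps supported on the orbits of type `Q` extend (`exists_ext_zero` for
`G × H` and `Z x` meaning that `x` is fixed and of type `Q`; `mem_NQ_of_move`). -/
lemma exists_lift (h : Setup p D e f a Qf c i₀ iT iF Reps κ comp b ef D₀ P) {Q : Subgroup H}
    (hQ : Q ∈ Reps) {η : Module.End (ResidueField R) (Fix X Q → ResidueField R)}
    (hη : EquivOn (nRep X (ResidueField R) Q) (nRep X (ResidueField R) Q) ⊤ η)
    (hP : loc Q (P (fun i => Qf i = Q)).1 * η * loc Q (P (fun i => Qf i = Q)).1 = η) :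
    ∃ y : Kern R H X, GInv y ∧ loc Q y.1 = η := by
  classical
  have _ := hQ
  let M : X → X → ResidueField R := fun x y =>
    if hx : (∀ q ∈ Q, (((q : G), q) : G × H) • x = x) ∧ ∀ q ∈ Q, (((q : G), q) : G × H) • y = y then
      η (Pi.single ⟨y, hx.2⟩ 1) ⟨x, hx.1⟩ else 0
  have hM : ∀ x y : Fix X Q, M x.1 y.1 = η (Pi.single y 1) x := fun x y => dif_pos ⟨x.2, y.2⟩
  obtain ⟨N, h1, h2, -, h3⟩ := exists_ext_zero (Γ := G × H) (residue R) residue_surjective
    (fun x : X => (∀ q ∈ Q, (((q : G), q) : G × H) • x = x) ∧ Qf (comp x) = Q) M (by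
      intro γ x y hx hy hx' hy'
      have hγ : γ ∈ NQ Q := h.pre.mem_NQ_of_move ⟨x, hx.1⟩ ⟨γ • x, hx'.1⟩ hx.2 rfl
      have e1 := hM ((⟨γ, hγ⟩ : NQ Q) • (⟨x, hx.1⟩ : Fix X Q))
        ((⟨γ, hγ⟩ : NQ Q) • (⟨y, hy.1⟩ : Fix X Q))
      have e2 := hM ⟨x, hx.1⟩ ⟨y, hy.1⟩
      exact e1.trans ((cover_entry hη _ _ _).trans e2.symm))
  refine ⟨⟨N, (mem_Kern R H X).2 fun g x y => h1 _ x y⟩, gInv_iff.2 fun g x y => h1 _ x y, ?_⟩
  have e : br Q N = LinearMap.toMatrix' η := by
    ext x y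
    rw [LinearMap.toMatrix'_apply]
    change residue R (N x.1 y.1) = η (Pi.single y 1) x
    by_cases hxy : Qf (comp x.1) = Q ∧ Qf (comp y.1) = Q
    · rw [h2 _ _ ⟨x.2, hxy.1⟩ ⟨y.2, hxy.2⟩, hM]
    · have e1 : N x.1 y.1 = 0 := by
        by_contra h0
        obtain ⟨γ, a1, a2⟩ := h3 _ _ h0
        rw [h.pre.comp_smul] at a1 a2
        exact hxy ⟨a1.2, a2.2⟩
      rw [e1, map_zero, ← hP, Module.End.mul_apply, Module.End.mul_apply]
      by_cases hx : Qf (comp x.1) = Q
      · have e2 : loc Q (P fun i => Qf i = Q).1 (Pi.single y 1) = 0 := by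
          funext z
          by_cases hz : Qf (comp z.1) = Q
          · rw [(h.cover_loc_P _ _ z).1 hz, Pi.single_eq_of_ne]
            · rfl
            · rintro rfl
              exact hxy ⟨hx, hz⟩
          · exact (h.cover_loc_P _ _ z).2 hz
        rw [e2, map_zero, map_zero]
        rfl
      · exact ((h.cover_loc_P _ _ x).2 hx).symm
  unfold loc
  rw [e, Matrix.toLin'_toMatrix']

/-- `exists_cover_endo` for `S₀ = radS`, `S₁` the preimage of `shortS` under
`loc (ε₀ D₀)`, `P = loc (P _ * ef)`; `η₀` comes from `exists_compl_mod` (an element of `SQ` is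
`inlN c * inrN δ`, and `rhoQ δ w - w ∈ S₀`).  All `loc u` for `u` invariant, and `loc (rhoM a')`,
commute with `lamQ` and with `rhoQ δ`, so preserve `radS` and `shortS`; `loc_D_P` shows
`loc (ε₀ D₀) P = loc (ε₀ D₀)`. -/
lemma exists_endo (h : Setup p D e f a Qf c i₀ iT iF Reps κ comp b ef D₀ P) {Q : Subgroup H}
    (hQ : Q ∈ Reps) : ∃ η : Module.End (ResidueField R) (Fix X Q → ResidueField R),
      EquivOn (nRep X (ResidueField R) Q) (nRep X (ResidueField R) Q) ⊤ η ∧
      loc Q (P (fun i => Qf i = Q) * ef).1 * η * loc Q (P (fun i => Qf i = Q) * ef).1 = η ∧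
      (∀ w, loc Q (ef * P (· = i₀) * D₀).1 w ∈ shortS X (ResidueField R) p D Q →
        η w ∈ radS X (ResidueField R) D Q) ∧
      ∀ w, loc Q (ef * P (· = i₀) * D₀).1 (η w - loc Q (P (fun i => Qf i = Q) * ef).1 w) ∈
        shortS X (ResidueField R) p D Q := by
  have hN := h.set.normal
  have hQD : Q ≤ D := (h.fam.lt Q hQ).2.le
  have hQp : IsPGroup p Q := h.set.pD.to_le hQD
  have iP := cover_gInv_mul (h.P_inv fun i => Qf i = Q) h.ef_inv
  have i0 := cover_gInv_mul h.ef_inv (h.P_inv (· = i₀))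
  have iD := cover_gInv_mul i0 h.D_inv
  have hle : radS X (ResidueField R) D Q ≤ (shortS X (ResidueField R) p D Q).comap
      (loc Q (ef * P (· = i₀) * D₀).1) := fun w hw =>
    Submodule.mem_sup_left (cover_rad (cover_equiv iD) hw)
  have h1 : ∀ n, ∀ w ∈ (shortS X (ResidueField R) p D Q).comap (loc Q (ef * P (· = i₀) * D₀).1),
      nRep X (ResidueField R) Q n w ∈
        (shortS X (ResidueField R) p D Q).comap (loc Q (ef * P (· = i₀) * D₀).1) := by
    intro n w hw
    rw [Submodule.mem_comap, iD.loc_equiv n trivial]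
    exact cover_nRep_short n hw
  obtain ⟨η₀, a1, a2, a3⟩ := exists_compl_mod (lamQ X (ResidueField R) Q) le_sup_left hle
    (fun c u hu => cover_nRep_rad (inlN Q c) hu) fun c u hu => h1 (inlN Q c) u hu
  obtain ⟨a', b1, b2, b3⟩ := h.exists_hig_S hQ
  obtain ⟨ι', b4⟩ := h.exists_hig_Z hQ
  have hda : DInv Q (rhoM R H X a') :=
    dInv_rhoM fun g hg => tr_fixed_of_suppCent b1 g (hQD hg)
  have hdf : DInv Q (rhoM R H X f) :=
    dInv_rhoM fun g _ => fixedBy_top_iff.2 h.blF.cent g trivial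
  refine exists_cover_endo (nRep X (ResidueField R) Q) (SQ D Q) (ZQ Q) _ _ hle
    (fun n w hw => cover_nRep_rad n hw) h1 _ iP.loc_equiv ?_
    (fun w hw => cover_rad (cover_equiv iP) hw) (fun w hw => ?_) η₀ a1 a2 (fun s hs w => ?_)
    _ b2 (fun w hw => ?_) ?_ (fun z hz w => ?_) ι' ?_
  · rw [← h.cover_loc_mul hQ iP iP, h.cover_Pf_idem]
  · have e : ef * P (· = i₀) * D₀ * (P (fun i => Qf i = Q) * ef) =
        ef * P (· = i₀) * (D₀ * P fun i => Qf i = Q) := by
      rw [← mul_assoc, ← h.ef_comm (cover_gInv_mul iD (h.P_inv _))]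
      simp only [← mul_assoc, h.ef_idem]
    rw [Submodule.mem_comap, ← Module.End.mul_apply, ← h.cover_loc_mul hQ iD iP, e,
      h.cover_loc_mul hQ i0 (cover_gInv_mul h.D_inv (h.P_inv _)), h.loc_D_P hQ,
      ← h.cover_loc_mul hQ i0 h.D_inv]
    exact hw
  · have hδ : (s : G × H).2 ∈ CH Q := h.set.le_CH hQD hs
    have hc : (s : G × H).1 ∈ CG Q := mem_CG.2 fun q hq => by
      have e := s.2.2 q hq
      rw [← mem_CH.1 hδ q hq, mul_inv_cancel_right, mul_inv_eq_iff_eq_mul] at e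
      exact e.symm
    have e : s = inlN Q ⟨_, hc⟩ * inrN Q ⟨_, hδ⟩ := Subtype.ext (by
      rw [Subgroup.coe_mul, inlN_val, inrN_val]
      simp)
    have c1 : ∀ u, rhoQ X (ResidueField R) Q ⟨_, hδ⟩ u - u ∈ radS X (ResidueField R) D Q :=
      fun u => Submodule.mem_sup_right (Submodule.subset_span ⟨⟨_, hδ⟩, hs, u, rfl⟩)
    have c2 := a3 ⟨_, hc⟩ (rhoQ X (ResidueField R) Q ⟨_, hδ⟩ w)
    have c3 : lamQ X (ResidueField R) Q ⟨_, hc⟩ _ ∈ _ :=
      cover_nRep_rad (inlN Q ⟨_, hc⟩) (sub_mem (a1 _ (hle (c1 w))) (c1 (η₀ w)))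
    have c4 := add_mem c2 c3
    rw [map_sub, map_sub, map_sub, map_sub, sub_sub_sub_cancel_right, sub_add_sub_cancel] at c4
    rw [e, map_mul, Module.End.mul_apply, Module.End.mul_apply]
    exact c4
  · rw [Submodule.mem_comap, ← Module.End.mul_apply,
      ← loc_mul h.set.prime h.pR hQp (iD.dInv Q) hda, ← rhoM_comm,
      loc_mul h.set.prime h.pR hQp hda (iD.dInv Q), Module.End.mul_apply]
    exact cover_short b2 hw
  · rw [b3, ← loc_mul h.set.prime h.pR hQp hdf (iP.dInv Q), Subalgebra.coe_mul, ← mul_assoc,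
      rhoM_comm, mul_assoc, h.rhoM_ef]
  · funext y
    have hz' := (ZQ Q).inv_mem hz
    have e : z⁻¹ • y = y := Subtype.ext (by
      have e1 : ((z⁻¹ : NQ Q) : G × H) = ((((z⁻¹ : NQ Q) : G × H).2 : G), _) := Prod.ext hz'.2 rfl
      rw [NQ_smul_val, e1]
      exact y.2 _ hz'.1)
    change w (z⁻¹ • y) = w y
    rw [e]
  · rw [b4, ← h.cover_loc_mul hQ (h.P_inv _) iP, ← mul_assoc, h.cover_P_idem]

/-- Lift `η`, cut the lift by `P _ * ef`, and apply `exists_idem_cover` in `A = Matrix X X R` with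
`B` the matrices invariant under `G × H` (the centraliser of all `pmat γ`). -/
theorem exists_cover (h : Setup p D e f a Qf c i₀ iT iF Reps κ comp b ef D₀ P) {Q : Subgroup H}
    (hQ : Q ∈ Reps) :
    ∃ εQ, CoverOut p D Q (P (fun i => Qf i = Q) * ef) (ef * P (· = i₀) * D₀) εQ := by
  have iQ := h.P_inv fun i => Qf i = Q
  have iP := cover_gInv_mul iQ h.ef_inv
  have iD := cover_gInv_mul (cover_gInv_mul h.ef_inv (h.P_inv (· = i₀))) h.D_inv
  have hQp : IsPGroup p Q := h.set.pD.to_le (h.fam.lt Q hQ).2.le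
  obtain ⟨η, a1, a2, a3, a4⟩ := h.exists_endo hQ
  have e1 : loc Q (P fun i => Qf i = Q).1 * loc Q (P (fun i => Qf i = Q) * ef).1 =
      loc Q (P (fun i => Qf i = Q) * ef).1 := by
    rw [← h.cover_loc_mul hQ iQ iP, ← mul_assoc, h.cover_P_idem]
  have e2 : loc Q (P (fun i => Qf i = Q) * ef).1 * loc Q (P fun i => Qf i = Q).1 =
      loc Q (P (fun i => Qf i = Q) * ef).1 := by
    rw [← h.cover_loc_mul hQ iP iQ, mul_assoc, h.ef_comm iQ, ← mul_assoc, h.cover_P_idem]
  have e3 : loc Q (P (fun i => Qf i = Q) * ef).1 * loc Q (P (fun i => Qf i = Q) * ef).1 =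
      loc Q (P (fun i => Qf i = Q) * ef).1 := by
    rw [← h.cover_loc_mul hQ iP iP, h.cover_Pf_idem]
  obtain ⟨y₀, b1, b2⟩ := h.exists_lift hQ a1 (by
    rw [← a2, ← mul_assoc, ← mul_assoc, e1, mul_assoc, e2])
  have iy := cover_gInv_mul (cover_gInv_mul iP b1) iP
  have b3 : loc Q (P (fun i => Qf i = Q) * ef * y₀ * (P (fun i => Qf i = Q) * ef)).1 = η := by
    rw [h.cover_loc_mul hQ (cover_gInv_mul iP b1) iP, h.cover_loc_mul hQ iP b1, b2, a2]
  have hPP : (P (fun i => Qf i = Q) * ef).1 * (P (fun i => Qf i = Q) * ef).1 =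
      (P (fun i => Qf i = Q) * ef).1 := congrArg Subtype.val (h.cover_Pf_idem _)
  obtain ⟨ε', c1, c2, c3, c4, c5⟩ := exists_idem_cover h.split
    (Subalgebra.centralizer R (Set.range (pmat R H X))) (AddMonoidHom.mk' (loc Q) loc_add) loc_one
    (fun x hx y hy => loc_mul h.set.prime h.pR hQp (fun q _ => cover_mem.1 hx _)
      fun q _ => cover_mem.1 hy _)
    (fun r x => by
      change loc Q _ = _ • loc Q _
      unfold loc
      rw [br_smul, map_smul])
    (cover_mem.2 iy.entry) (cover_mem.2 iP.entry) hPP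
    (by
      rw [Subalgebra.coe_mul _ (_ * y₀), Subalgebra.coe_mul _ _ y₀, ← mul_assoc, ← mul_assoc, hPP,
        mul_assoc, hPP])
    (radS X (ResidueField R) D Q) (fun w hw => cover_rad (cover_equiv iP) hw)
    (fun w hw => cover_rad (cover_equiv iy) hw)
    (fun w => by
      change loc Q _ (loc Q _ w) - loc Q _ w ∈ _
      have e4 : η * loc Q (P (fun i => Qf i = Q) * ef).1 = η := by
        rw [← a2, mul_assoc, e3]
      have := a3 _ (a4 w)
      rwa [map_sub, ← Module.End.mul_apply η (loc Q _), e4, ← b3] at this)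
  have c6 : ∀ w, loc Q ε' w - η w ∈ radS X (ResidueField R) D Q := fun w => b3 ▸ c5 w
  refine ⟨⟨ε', (mem_Kern R H X).2 fun g => cover_mem.1 c1 _⟩,
    gInv_iff.2 fun g => cover_mem.1 c1 _, Subtype.ext c2, Subtype.ext c3, Subtype.ext c4,
    fun u => ?_, fun u hu => ?_⟩
  · have := add_mem (Submodule.mem_sup_left (cover_rad (cover_equiv iD) (c6 u))) (a4 u)
    rwa [← map_add, sub_add_sub_cancel] at this
  · have := add_mem (c6 u) (a3 u hu)
    rwa [sub_add_cancel] at this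

theorem exists_built (h : Setup p D e f a Qf c i₀ iT iF Reps κ comp b ef D₀ P) :
    ∃ ε ε₀ ε₁ d, Built p D Qf i₀ iT iF Reps ef D₀ P ε ε₀ ε₁ d := by
  choose! ε hε using fun Q (hQ : Q ∈ Reps) => h.exists_cover hQ
  exact ⟨ε, _, _, _, rfl, hε, rfl, rfl⟩

end Setup

end Pool.Agent.Lib.MP_b6945b_al.St
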