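import Pool.Agent.Lib.MP_b6945b_al.St.LocBuild
import Pool.Agent.Lib.MP_b6945b_al.St.Cover

set_option autoImplicit false

/-!
The local hypotheses of the global theorem hold.
-/

namespace Pool.Agent.Lib.MP_b6945b_al.St

open IsLocalRing
open MonoidAlgebra (single)

variable {R : Type} [CommRing R] [IsLocalRing R] {G : Type} [Group G] [Fintype G]
  {H : Subgroup G} [Fintype H] {X : Type} [Fintype X] [DecidableEq X] [MulAction (G × H) X]
  {p : ℕ} {D : Subgroup H} {e : MonoidAlgebra R G} {f a : MonoidAlgebra R H} {I : Type}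
  {Qf : I → Subgroup H} {c : I → G} {i₀ iT iF : I} {Reps : Finset (Subgroup H)} {κ : X → G}
  {comp : X → I} {b : I → X} {ef D₀ : Kern R H X} {P : (I → Prop) → Kern R H X}
  {ε : Subgroup H → Kern R H X} {ε₀ ε₁ d : Kern R H X}

omit [IsLocalRing R] [Group G] in
lemma finalA_exists_coeff (φ : G → R) : ∃ z : MonoidAlgebra R G, ∀ x, z.coeff x = φ x :=
  ⟨MonoidAlgebra.ofCoeff (Finsupp.equivFunOnFinite.symm φ), fun x => by simp⟩

omit [IsLocalRing R] [Fintype G] in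
lemma finalA_class {z : MonoidAlgebra R G} (hz : ∀ y, z * y = y * z) (u x : G) :
    z.coeff (u⁻¹ * x * u) = z.coeff x := by
  rw [← coeff_cjRep, cjRep_apply, ← mul_assoc, ← hz, mul_assoc, MonoidAlgebra.single_mul_single,
    mul_inv_cancel, mul_one, ← MonoidAlgebra.one_def, mul_one]

omit [IsLocalRing R] [Fintype G] in
lemma finalA_cj_pow (g : G) (z : MonoidAlgebra R G) (m : ℕ) :
    cjRep R G g (z ^ m) = cjRep R G g z ^ m := by
  induction m with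
  | zero =>
    rw [pow_zero, pow_zero, cjRep_apply, one_mul, MonoidAlgebra.single_mul_single,
      mul_inv_cancel, mul_one, MonoidAlgebra.one_def]
  | succ n ih => rw [pow_succ, pow_succ, cjRep_mul, ih]

/-- A `p`-subgroup of maximal order contains a conjugate of every `p`-subgroup. -/
lemma finalA_sylow (hp : p.Prime) {C S₁ S₂ : Subgroup G} (h1 : IsPGroup p S₁)
    (h2 : IsPGroup p S₂) (l1 : S₁ ≤ C) (l2 : S₂ ≤ C)
    (hmax : ∀ S : Subgroup G, IsPGroup p S → S ≤ C → Nat.card S ∣ Nat.card S₂) :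
    ∃ u ∈ C, ∀ s ∈ S₁, u * s * u⁻¹ ∈ S₂ := by
  have := Fact.mk hp
  obtain ⟨P₁, hP₁⟩ := (h1.comap_subtype (K := C)).exists_le_sylow
  obtain ⟨P₂, hP₂⟩ := (h2.comap_subtype (K := C)).exists_le_sylow
  have hle : S₂ ≤ (P₂ : Subgroup C).map C.subtype :=
    fun δ hδ => ⟨⟨δ, l2 hδ⟩, hP₂ hδ, rfl⟩
  have heq : S₂ = (P₂ : Subgroup C).map C.subtype :=
    Subgroup.eq_of_le_of_card_ge hle (Nat.le_of_dvd Nat.card_pos
      (hmax _ (P₂.isPGroup'.map _) (Subgroup.map_subtype_le _)))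
  obtain ⟨x, hx⟩ := MulAction.exists_smul_eq C P₁ P₂
  refine ⟨x, x.2, fun s hs => ?_⟩
  have h3 : (⟨s, l1 hs⟩ : C) ∈ (P₁ : Subgroup C) := hP₁ hs
  have h4 : MulAut.conj x • (⟨s, l1 hs⟩ : C) ∈ ((x • P₁ : Sylow p C) : Subgroup C) := by
    rw [Sylow.coe_subgroup_smul]
    exact Subgroup.smul_mem_pointwise_smul _ _ _ h3
  rw [hx] at h4
  rw [heq]
  exact ⟨_, h4, rfl⟩

/-- The conjugate of `D` by `g`, as a subgroup of `G`. -/
def finalA_conj (D : Subgroup H) (g : G) : Subgroup G :=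
  D.map ((MulAut.conj g).toMonoidHom.comp H.subtype)

omit [Fintype G] [Fintype H] in
lemma finalA_mem_conj {g s : G} : s ∈ finalA_conj D g ↔ ∃ δ ∈ D, g * (δ : G) * g⁻¹ = s :=
  Iff.rfl

omit [Fintype G] [Fintype H] in
lemma finalA_card_conj (g : G) : Nat.card (finalA_conj D g) = Nat.card D :=
  Subgroup.card_map_of_injective ((MulAut.conj g).injective.comp H.subtype_injective)

omit [Fintype H] in
lemma finalA_comm (hS : Setting p D) {x y : H} (hx : x ∈ D) (hy : y ∈ D) :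
    (x : G) * y = y * x := by
  exact_mod_cast hS.comm x hx y hy

omit [Fintype H] in
/-- The Sylow argument. -/
lemma finalA_key (hS : Setting p D) (hE : BlockE p (Nat.card D) e) {Q Q' : Subgroup H}
    (hQ : Q ≤ D) (hQ' : Q' ≤ D) {g : G} (hg : ∀ x : G, x ∈ imG Q' ↔ g * x * g⁻¹ ∈ imG Q)
    {x : G} (hx : ∀ δ ∈ D, x * (δ : G) = δ * x)
    (he : e.coeff (g * x * g⁻¹) ∉ maximalIdeal R) {c : G} (hc : c ∈ CG Q)
    (hcy : ∀ δ ∈ D, c⁻¹ * (g * x * g⁻¹) * c * (δ : G) = δ * (c⁻¹ * (g * x * g⁻¹) * c)) :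
    ∃ (c : G) (h : H), (∀ x ∈ imG Q, c * x = x * c) ∧ g = c * h := by
  set y := g * x * g⁻¹ with hyd
  let C : Subgroup G := CG Q ⊓ Subgroup.centralizer ({y} : Set G)
  have hC : ∀ s, s ∈ C ↔ s ∈ CG Q ∧ s * y = y * s := fun s => by
    rw [Subgroup.mem_inf, Subgroup.mem_centralizer_singleton_iff]
  have hD : ∀ δ ∈ D, (δ : G) ∈ CG Q := fun δ hδ =>
    mem_CG.2 fun q hq => finalA_comm hS (hQ hq) hδ
  have l1 : finalA_conj D c ≤ C := by
    intro s hs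
    obtain ⟨δ, hδ, rfl⟩ := finalA_mem_conj.1 hs
    refine (hC _).2 ⟨(CG Q).mul_mem ((CG Q).mul_mem hc (hD δ hδ)) ((CG Q).inv_mem hc), ?_⟩
    calc c * δ * c⁻¹ * y = c * (δ * (c⁻¹ * y * c)) * c⁻¹ := by group
      _ = c * (c⁻¹ * y * c * δ) * c⁻¹ := by rw [hcy δ hδ]
      _ = _ := by group
  have l2 : finalA_conj D g ≤ C := by
    intro s hs
    obtain ⟨δ, hδ, rfl⟩ := finalA_mem_conj.1 hs
    refine (hC _).2 ⟨mem_CG.2 fun q hq => ?_, ?_⟩
    · obtain ⟨q', hq', e1⟩ := (hg (g⁻¹ * q * g)).2 ⟨q, hq, by group⟩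
      have e2 := finalA_comm hS (hQ' hq') hδ
      calc (q : G) * (g * δ * g⁻¹) = g * (g⁻¹ * q * g * δ) * g⁻¹ := by group
        _ = g * (δ * (g⁻¹ * q * g)) * g⁻¹ := by rw [e1, e2]
        _ = _ := by group
    · calc g * δ * g⁻¹ * y = g * (δ * x) * g⁻¹ := by rw [hyd]; group
        _ = g * (x * δ) * g⁻¹ := by rw [hx δ hδ]
        _ = _ := by rw [hyd]; group
  obtain ⟨u, hu, hus⟩ := finalA_sylow hS.prime (C := C) (S₁ := finalA_conj D c)
    (S₂ := finalA_conj D g) (hS.pD.map _) (hS.pD.map _) l1 l2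
    (fun S hpS hSC => by
      rw [finalA_card_conj]
      exact hE.bound y he S hpS (fun s hs => ((hC s).1 (hSC hs)).2))
  have hw : c⁻¹ * u⁻¹ * g ∈ H := by
    refine hS.norm _ (fun δ hδ => ?_)
    obtain ⟨δ', hδ', e1⟩ := finalA_mem_conj.1 (hus _ (finalA_mem_conj.2 ⟨δ, hδ, rfl⟩))
    refine ⟨δ', hδ', ?_⟩
    calc (c⁻¹ * u⁻¹ * g)⁻¹ * δ * (c⁻¹ * u⁻¹ * g) = g⁻¹ * (u * (c * δ * c⁻¹) * u⁻¹) * g := by group
      _ = _ := by rw [← e1]; group
  refine ⟨u * c, ⟨_, hw⟩, ?_, ?_⟩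
  · rintro _ ⟨q, hq, rfl⟩
    exact (mem_CG.1 ((CG Q).mul_mem ((hC u).1 hu).1 hc) q hq).symm
  · change g = u * c * (c⁻¹ * u⁻¹ * g)
    group

omit [Fintype G] [Fintype H] [Fintype X] [DecidableEq X] in
lemma finalA_lk_zero {k : Type} [CommRing k] (Q : Subgroup H) :
    (0 : Matrix (Fix X Q) (Fix X Q) k) ∈ LK k Q := fun _ _ _ _ _ _ _ => rfl

omit [Fintype H] in
lemma finalA_null_zero (Q : Subgroup H) : Null ε₀ ε₁ d Q (0 : MonoidAlgebra R G) := by
  refine ⟨0, finalA_lk_zero Q, by simp, ?_⟩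
  rw [map_zero, ZeroMemClass.coe_zero, br_zero]
  simp

omit [Fintype G] [Fintype H] in
lemma finalA_null_out {Q : Subgroup H} (h0 : br Q ε₀.1 = 0) (h1 : br Q ε₁.1 = 0)
    (z : MonoidAlgebra R G) : Null ε₀ ε₁ d Q z := by
  refine ⟨0, finalA_lk_zero Q, by simp, ?_⟩
  rw [h0, h1]
  simp

omit [Fintype G] [Fintype H] in
lemma finalA_surj_triv {Q : Subgroup H} (h1 : br Q ε₁.1 = 0) : LocSurj ε₀ ε₁ d Q := by
  intro z _
  refine ⟨0, finalA_lk_zero Q, by simp, ?_⟩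
  rw [h1]
  simp

omit [Fintype G] [Fintype H] in
lemma finalA_gen_out {Q : Subgroup H} (h0 : br Q ε₀.1 = 0) (h1 : br Q ε₁.1 = 0) :
    LocGen ε₀ ε₁ d Q := by
  intro a _ ha _
  refine ⟨0, fun x hx => absurd rfl hx, 0, finalA_lk_zero Q, by simp, ?_⟩
  rw [ha, h0, h1]
  simp

omit [Fintype G] [Fintype H] in
lemma finalA_orth_left (hS : Setting p D) {Q' : Subgroup H} (hQ' : Q' ≤ D) :
    LocOrth ε₀ ε₁ d D Q' := by
  intro g hg hn
  have hH : g ∈ H := hS.norm g (fun δ hδ => by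
    obtain ⟨q', hq', e1⟩ := (hg (g⁻¹ * δ * g)).2 ⟨δ, hδ, by group⟩
    exact ⟨q', hQ' hq', e1⟩)
  exact absurd ⟨1, ⟨g, hH⟩, fun x _ => by rw [one_mul, mul_one], (one_mul g).symm⟩ hn

omit [Fintype G] [Fintype H] in
lemma finalA_orth_right (hS : Setting p D) {Q : Subgroup H} (hQ : Q ≤ D) :
    LocOrth ε₀ ε₁ d Q D := by
  intro g hg hn
  have hH : g⁻¹ ∈ H := hS.norm g⁻¹ (fun δ hδ => by
    obtain ⟨q, hq, e1⟩ := (hg δ).1 ⟨δ, hδ, rfl⟩
    exact ⟨q, hQ hq, by rw [inv_inv, e1]⟩)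
  exact absurd ⟨1, ⟨g, inv_mem_iff.1 hH⟩, fun x _ => by rw [one_mul, mul_one],
    (one_mul g).symm⟩ hn

/-- Let `z` be the part of `e` on the `x ∈ CG Q` centralising some `c D c⁻¹`, `c ∈ CG Q`.  At `Q`
use `null_one_sub`.  At `Q'` use `null_central` for `cjRep g⁻¹ z`: if its coefficient at `x`
centralising `D` is a unit, then `y = g x g⁻¹` centralises `g D g⁻¹` and `c D c⁻¹`, both contained
in `CG Q` and, by `BlockE.bound`, Sylow subgroups of the centraliser of `y` in `CG Q`; so they are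
conjugate there and `g ∈ CG Q * H` by `Setting.norm`. -/
theorem Built.locOrth (h : Setup p D e f a Qf c i₀ iT iF Reps κ comp b ef D₀ P)
    (hB : Built p D Qf i₀ iT iF Reps ef D₀ P ε ε₀ ε₁ d) {Q Q' : Subgroup H} (hQ : Q ∈ Reps)
    (hQ' : Q' ∈ Reps) : LocOrth ε₀ ε₁ d Q Q' := by
  classical
  intro g hg hn
  have hS := h.set
  have hQD : Q ≤ D := (h.fam.lt Q hQ).2.le
  have hQD' : Q' ≤ D := (h.fam.lt Q' hQ').2.le
  let T : G → Prop := fun x => x ∈ CG Q ∧ ∃ u ∈ CG Q, ∀ δ ∈ D,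
    u⁻¹ * x * u * (δ : G) = δ * (u⁻¹ * x * u)
  obtain ⟨z, hz⟩ := finalA_exists_coeff (R := R) (fun x => if T x then e.coeff x else 0)
  have hT : ∀ v ∈ CG Q, ∀ x, T x → T (v⁻¹ * x * v) := by
    rintro v hv x ⟨hx, u, hu, hux⟩
    refine ⟨(CG Q).mul_mem ((CG Q).mul_mem ((CG Q).inv_mem hv) hx) hv, v⁻¹ * u,
      (CG Q).mul_mem ((CG Q).inv_mem hv) hu, fun δ hδ => ?_⟩
    have e1 : (v⁻¹ * u)⁻¹ * (v⁻¹ * x * v) * (v⁻¹ * u) = u⁻¹ * x * u := by group
    rw [e1]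
    exact hux δ hδ
  have hzT : ∀ x, z.coeff x ≠ 0 → T x := fun x hx => by
    by_contra hc
    rw [hz, if_neg hc] at hx
    exact hx rfl
  have hsupp : SuppCent (imG Q) z := by
    rintro x hx _ ⟨q, hq, rfl⟩
    exact (mem_CG.1 (hzT x hx).1 q hq).symm
  have hcl : ∀ v ∈ CG Q, ∀ x, z.coeff (v⁻¹ * x * v) = z.coeff x := by
    intro v hv x
    rw [hz, hz]
    refine if_congr ⟨fun h1 => ?_, hT v hv x⟩ (finalA_class h.blE.cent v x) rfl
    have h2 := hT v⁻¹ ((CG Q).inv_mem hv) _ h1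
    have e1 : v⁻¹⁻¹ * (v⁻¹ * x * v) * v⁻¹ = x := by group
    rwa [e1] at h2
  obtain ⟨m₀, hm₀⟩ := hB.null_one_sub h hQ hsupp hcl (fun x hx => by
    have h1 : T x := ⟨mem_CG.2 fun q hq => (hx q (hQD hq)).symm, 1, (CG Q).one_mem,
      fun δ hδ => by simpa using hx δ hδ⟩
    rw [hz, if_pos h1, sub_self]
    exact zero_mem _)
  have hco : ∀ x, (cjRep R G g⁻¹ z).coeff x = z.coeff (g * x * g⁻¹) := fun x => by
    rw [coeff_cjRep, inv_inv]
  obtain ⟨m₁, hm₁⟩ := hB.null_central h hQ' (z := cjRep R G g⁻¹ z)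
    (fun x hx δ hδ => by
      rw [hco] at hx
      have h1 := hsupp _ hx _ ((hg δ).1 hδ)
      calc x * δ = g⁻¹ * (g * x * g⁻¹ * (g * δ * g⁻¹)) * g := by group
        _ = g⁻¹ * (g * δ * g⁻¹ * (g * x * g⁻¹)) * g := by rw [h1]
        _ = δ * x := by group)
    (fun v hv x => by
      have h1 : g * v * g⁻¹ ∈ CG Q := mem_CG.2 fun q hq => by
        obtain ⟨q', hq', e1⟩ := (hg (g⁻¹ * q * g)).2 ⟨q, hq, by group⟩
        have e2 := mem_CG.1 hv q' hq'
        calc (q : G) * (g * v * g⁻¹) = g * (g⁻¹ * q * g * v) * g⁻¹ := by group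
          _ = g * (v * (g⁻¹ * q * g)) * g⁻¹ := by rw [e1, e2]
          _ = _ := by group
      rw [hco, hco, ← hcl _ h1 (g * x * g⁻¹)]
      congr 1
      group)
    (fun x hx => by
      by_contra hm
      rw [hco] at hm
      have h1 : T (g * x * g⁻¹) := hzT _ (fun h0 => hm (by rw [h0]; exact zero_mem _))
      rw [hz, if_pos h1] at hm
      obtain ⟨-, u, hu, hux⟩ := h1
      exact hn (finalA_key hS h.blE hQD hQD' hg hx hm hu hux))
  refine ⟨z, hsupp, max m₀ m₁, hm₀ _ (le_max_left _ _), ?_⟩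
  rw [finalA_cj_pow]
  exact hm₁ _ (le_max_right _ _)

/-- All fixed points of `D` lie in the copy of `G`; a local kernel `a` is left multiplication by
the element with coefficients `a x (b i₀)`; take `y = 0`. -/
theorem Built.locGen_D (h : Setup p D e f a Qf c i₀ iT iF Reps κ comp b ef D₀ P)
    (hB : Built p D Qf i₀ iT iF Reps ef D₀ P ε ε₀ ε₁ d) : LocGen ε₀ ε₁ d D := by
  classical
  intro a ha hblock _
  have hS := h.set
  have hX := h.pre.biset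
  obtain ⟨σ, hC⟩ := hB.exists_cxData h
  obtain ⟨h1, h2⟩ := hB.br_D h
  have hfix : ∀ g ∈ CG D, ∀ q ∈ D, (((q : G), q) : G × H) • ((g, 1) : G × H) • b i₀ =
      ((g, 1) : G × H) • b i₀ := fun g hg =>
    h.pre.fix_of_cent h.fam (h.pre.kappa_pt h.fam g).2 (by rwa [(h.pre.kappa_pt h.fam g).1])
  obtain ⟨lift, hlift⟩ := (residue_surjective (R := R)).hasRightInverse
  obtain ⟨z, hz⟩ := finalA_exists_coeff (R := R) (fun g => if hg : g ∈ CG D then
    lift (a ⟨_, hfix g hg⟩ ⟨_, hfix 1 (CG D).one_mem⟩) else 0)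
  have hsupp : SuppCent (imG D) z := by
    rintro x hx _ ⟨q, hq, rfl⟩
    by_contra hc
    rw [hz, dif_neg (fun hx' => hc (mem_CG.1 hx' q hq).symm)] at hx
    exact hx rfl
  have hk : ∀ x : Fix X D, κ x.1 ∈ CG D := fun x =>
    mem_CG.2 fun q hq => (hX.kappa_cent x _ ⟨q, hq, rfl⟩).symm
  have hcomp : ∀ x : Fix X D, comp x.1 = i₀ := fun x => h.pre.comp_fix_D hS h.fam x
  have hbr : br D (piA R H X z).1 = a := by
    ext x y
    change residue R ((piA R H X z).1 x.1 y.1) = _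
    have hg : κ x.1 * (κ y.1)⁻¹ ∈ CG D := (CG D).mul_mem (hk x) ((CG D).inv_mem (hk y))
    have hyH : κ y.1 ∈ H := hS.norm _ (fun δ hδ => ⟨δ, hδ, by
      rw [mul_assoc, mem_CG.1 (hk y) δ hδ, inv_mul_cancel_left]⟩)
    rw [piA_apply, Finset.sum_eq_single (κ x.1 * (κ y.1)⁻¹), if_pos, hz, dif_pos hg, hlift]
    · refine ha ⟨κ y.1, hyH⟩ x y _ _ ?_ ?_
      · refine h.pre.kappa_inj h.fam (h.pre.kappa_pt h.fam _).2
          ((h.pre.comp_smul _ _).trans (hcomp x)) ?_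
        rw [(h.pre.kappa_pt h.fam _).1, hX.map]
        simp
      · refine h.pre.kappa_inj h.fam (h.pre.kappa_pt h.fam _).2
          ((h.pre.comp_smul _ _).trans (hcomp y)) ?_
        rw [(h.pre.kappa_pt h.fam _).1, hX.map]
        simp
    · refine h.pre.kappa_inj h.fam (hcomp x) ((h.pre.comp_smul _ _).trans (hcomp y)) ?_
      rw [hX.map]
      simp
    · intro g _ hne
      rw [if_neg]
      intro e1
      refine hne ?_
      rw [e1, hX.map]
      simp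
    · intro hx
      exact absurd (Finset.mem_univ _) hx
  have hE : br D ε₀.1 * br D ε₀.1 = br D ε₀.1 := by
    rw [← br_mul hS.prime h.pR hS.pD (hC.inv₀.dInv D) (hC.inv₀.dInv D)]
    exact congrArg (fun u : Kern R H X => br D u.1) hC.e00
  refine ⟨z, hsupp, 0, finalA_lk_zero D, by simp, ?_⟩
  rw [h1] at hblock
  rw [hbr, h1, h2]
  simp only [mul_zero, add_zero] at hblock ⊢
  conv_rhs => rw [hblock, mul_assoc, hE]
  exact hblock

/-- The family consists of the `p`-subgroups not contained in `D` (everything vanishes,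
`br_out`; for `orth` take `z = 0` or `z = 1` and `m = 1`), of `D`, and of the representatives;
mixed pairs inside `D` are excluded by orders, the pair `(D, D)` by `Setting.norm`. -/
theorem Built.locHyp (h : Setup p D e f a Qf c i₀ iT iF Reps κ comp b ef D₀ P)
    (hB : Built p D Qf i₀ iT iF Reps ef D₀ P ε ε₀ ε₁ d) :
    LocHyp p ε₀ ε₁ d {Q | (IsPGroup p Q ∧ ¬ Q ≤ D) ∨ Q = D ∨ Q ∈ Reps} := by
  have hS := h.set
  refine ⟨fun Q' hp' h0 => ?_, ?_, ?_, ?_, ?_⟩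
  · by_cases hle : Q' ≤ D
    · rcases hle.eq_or_lt with e1 | hlt
      · exact ⟨Q', Or.inr (Or.inl e1), 1, fun x => by simp⟩
      · obtain ⟨Q, hQ, hh⟩ := h.fam.cover Q' h0 hlt
        exact ⟨Q, Or.inr (Or.inr hQ), hh⟩
    · exact ⟨Q', Or.inl ⟨hp', hle⟩, 1, fun x => by simp⟩
  · rintro Q (hQ | hQ | hQ)
    · exact hQ.1
    · rw [hQ]; exact hS.pD
    · exact hS.pD.to_le (h.fam.lt Q hQ).2.le
  · rintro Q (hQ | hQ | hQ)
    · exact finalA_surj_triv (hB.br_out h hQ.1 hQ.2).2.1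
    · rw [hQ]; exact finalA_surj_triv (hB.br_D h).1
    · exact hB.locSurj h hQ
  · rintro Q (hQ | hQ | hQ)
    · exact finalA_gen_out (hB.br_out h hQ.1 hQ.2).1 (hB.br_out h hQ.1 hQ.2).2.1
    · rw [hQ]; exact hB.locGen_D h
    · exact hB.locGen h hQ
  · have hright : ∀ Q Q' : Subgroup H, IsPGroup p Q' ∧ ¬ Q' ≤ D → LocOrth ε₀ ε₁ d Q Q' := by
      intro Q Q' hQ' g _ _
      refine ⟨1, mem_centAlg.1 (one_mem _), 1, ?_,
        finalA_null_out (hB.br_out h hQ'.1 hQ'.2).1 (hB.br_out h hQ'.1 hQ'.2).2.1 _⟩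
      rw [sub_self, pow_one]
      exact finalA_null_zero Q
    rintro Q (hQ | hQ | hQ) Q' hQ'
    · intro g _ _
      refine ⟨0, mem_centAlg.1 (zero_mem _), 1,
        finalA_null_out (hB.br_out h hQ.1 hQ.2).1 (hB.br_out h hQ.1 hQ.2).2.1 _, ?_⟩
      rw [pow_one, map_zero]
      exact finalA_null_zero Q'
    · rcases hQ' with hQ' | hQ' | hQ'
      · exact hright Q Q' hQ'
      · rw [hQ]; exact finalA_orth_left hS hQ'.le
      · rw [hQ]; exact finalA_orth_left hS (h.fam.lt Q' hQ').2.le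
    · rcases hQ' with hQ' | hQ' | hQ'
      · exact hright Q Q' hQ'
      · rw [hQ']; exact finalA_orth_right hS (h.fam.lt Q hQ).2.le
      · exact hB.locOrth h hQ hQ'

theorem Built.modelData (h : Setup p D e f a Qf c i₀ iT iF Reps κ comp b ef D₀ P)
    (hB : Built p D Qf i₀ iT iF Reps ef D₀ P ε ε₀ ε₁ d) :
    ∃ σ, ModelData p D e f κ ε₀ ε₁ d σ (b iF) := by
  obtain ⟨σ, hC⟩ := hB.exists_cxData h
  obtain ⟨h0, h1, -⟩ := hB.ef_left h
  refine ⟨σ, h.pre.biset, hC, ⟨_, hB.locHyp h⟩, ?_, ?_, ?_, (hB.br_D h).1, ?_,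
    fun x => (hB.dead h x).1, fun x => (hB.dead h x).2, fun γ hγ => ?_⟩
  · rw [← h0, ← mul_assoc, h.piA_ef]
  · rw [← h1, ← mul_assoc, h.piA_ef]
  · have h2 : ε₁.1 = ef.1 * ε₁.1 := congrArg Subtype.val h1.symm
    rw [h2, ← mul_assoc, h.rhoM_ef]
  · rw [hB.e0]
    exact h.br_D_ne
  · obtain ⟨h2, h3⟩ := (h.pre.stab iF γ).1 hγ
    rw [h.fam.qF, Subgroup.mem_bot] at h2
    exact Prod.ext (by rw [h3, h2]; rfl) h2

theorem exists_model (hR : MonicSplit R) (hpR : (p : R) ∈ maximalIdeal R) (hS : Setting p D)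
    (hE : BlockE p (Nat.card D) e) (hF : BlockF D f a)
    (hb : ∀ h : H, (∀ δ ∈ D, h * δ = δ * h) → e.coeff h - f.coeff h ∈ maximalIdeal R) :
    ∃ (X : Type) (_ : Fintype X) (_ : DecidableEq X) (_ : MulAction (G × H) X) (κ : X → G)
      (ε₀ ε₁ d σ : Kern R H X) (x₀ : X), ModelData p D e f κ ε₀ ε₁ d σ x₀ := by
  have := hS.normal
  obtain ⟨I, _, Qf, c, i₀, iT, iF, Reps, hfam⟩ := exists_family D
  obtain ⟨X, _, _, _, κ, comp, b, hpre⟩ := exists_preModel Qf c hfam.cent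
  obtain ⟨ef, D₀, P, hker⟩ := hpre.exists_kers e hF.cent i₀ iF
  have h : Setup p D e f a Qf c i₀ iT iF Reps κ comp b ef D₀ P :=
    ⟨hR, hpR, hS, hfam, hpre, hker, hE, hF, hb⟩
  obtain ⟨ε, ε₀, ε₁, d, hB⟩ := h.exists_built
  obtain ⟨σ, hM⟩ := hB.modelData h
  exact ⟨X, inferInstance, inferInstance, inferInstance, κ, ε₀, ε₁, d, σ, _, hM⟩

end Pool.Agent.Lib.MP_b6945b_al.St
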