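import Pool.Agent.Lib.MP_b6945b_al.St.FinalK
import Pool.Agent.Lib.MP_b6945b_al.St.FinalA
import Pool.Agent.Lib.MP_b6945b_al.St.BlkF

set_option autoImplicit false

/-!
A block with a nontrivial defect group of order dividing `p ^ 2` has as many irreducible characters
as its Brauer correspondent.
-/

namespace Pool.Agent.Lib.MP_b6945b_al.St

open IsLocalRing

theorem finrank_eq {K : Type} [Field K] [CharZero K] [IsAlgClosed K] {V : ValuationSubring K}
    {G : Type} [Group G] [Fintype G] {H : Subgroup G} [Fintype H] {p : ℕ}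
    (hpV : (p : K) ∈ V.nonunits) {D : Subgroup H} (hS : Setting p D) {e : MonoidAlgebra V G}
    {f a : MonoidAlgebra V H} (hE : BlockE p (Nat.card D) e) (hF : BlockF D f a)
    (hb : ∀ h : H, (∀ δ ∈ D, h * δ = δ * h) → e.coeff h - f.coeff h ∈ maximalIdeal V) :
    Module.finrank K (Subalgebra.center K (idem_toK hE.idem).Corner) =
      Module.finrank K (Subalgebra.center K (idem_toK hF.idem).Corner) := by
  have hpR := natCast_mem_maximalIdeal hpV
  have := hS.normal
  obtain ⟨X, _, _, _, κ, ε₀, ε₁, d, σ, x₀, hM⟩ :=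
    exists_model (monicSplit_valuationSubring V) hpR hS hE hF hb
  obtain ⟨r, α, hN⟩ := hM.exists_normData hS.prime hpR hS.pD hS.ne hE.toIsBlock
  have hμ := idem_kerK hN.idem
  obtain ⟨h1, h2⟩ := hM.morita hE.toIsBlock hF.toIsBlock hμ
    (hF.good hS.prime hpV hS.pD hS.ne hS.comm)
  rw [← h2, hN.finrank hS.prime hpV hE hμ h1]

lemma setting_normalizer {G : Type} [Group G] [Finite G] {p : ℕ} (hp : p.Prime) {D : Subgroup G}
    (hD : IsPGroup p D) (hD0 : D ≠ ⊥) (hc : Nat.card D ∣ p ^ 2) :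
    Setting p (D.subgroupOf (Subgroup.normalizer (D : Set G))) ∧
      Nat.card (D.subgroupOf (Subgroup.normalizer (D : Set G))) = Nat.card D := by
  have hle : D ≤ Subgroup.normalizer (D : Set G) := Subgroup.le_normalizer
  have hcard : Nat.card (D.subgroupOf (Subgroup.normalizer (D : Set G))) = Nat.card D :=
    Nat.card_congr (Subgroup.subgroupOfEquivOfLe hle).toEquiv
  refine ⟨⟨hp, (Subgroup.normal_subgroupOf_iff_le_normalizer hle).2 le_rfl, hD.comap_subtype,
    fun h0 => hD0 ?_, hcard ▸ hc, fun g hg => ?_⟩, hcard⟩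
  · rw [h0, Subgroup.card_bot] at hcard
    exact Subgroup.eq_bot_of_card_eq _ hcard.symm
  · have h1 : D.map (MulAut.conj g⁻¹).toMonoidHom ≤ D := by
      rintro _ ⟨s, hs, rfl⟩
      obtain ⟨δ', h2, h3⟩ := hg ⟨s, hle hs⟩ hs
      have h4 : g⁻¹ * s * g ∈ D := by
        have h5 : g⁻¹ * s * g = (δ' : G) := h3
        rw [h5]
        exact h2
      simpa using h4
    have h2 := Subgroup.eq_of_le_of_card_ge h1 (by
      rw [Subgroup.card_map_of_injective (MulAut.conj g⁻¹).injective])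
    rw [Subgroup.mem_normalizer_iff'']
    intro δ
    constructor
    · intro hδ
      exact h1 ⟨δ, hδ, by simp⟩
    · intro hδ
      rw [← h2] at hδ
      obtain ⟨s, hs, e⟩ := hδ
      have h3 : g⁻¹ * s * g = g⁻¹ * δ * g := by simpa using e
      rwa [← mul_left_cancel (mul_right_cancel h3)]

/-- As in `final_block`: `exists_val_of_maximal`, `exists_irrData`, `IrrData.exists_eq`; then
`kInd_top_eq_card`, `kInd_eq_card`, `IsBlockIdem.finrank`, `exists_correspondent`,
`exists_blockF`, `DefV.blockE`, `finrank_eq`. -/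
theorem kInd_eq (p : ℕ) (hp : p.Prime) (G : Type) [Group G] [Finite G]
    (M : Ideal (integralClosure ℤ ℂ)) (hM : M.IsMaximal) (hpM : (p : integralClosure ℤ ℂ) ∈ M)
    (χ : G → ℂ) (hχ : IsIrrChar χ) (D : Subgroup G) (hD : IsDefectGroup p M χ D) (hD0 : D ≠ ⊥)
    (hc : Nat.card D ∣ p ^ 2) : kInd M χ ⊤ = kInd M χ (Subgroup.normalizer (D : Set G)) := by
  classical
  have : Fact p.Prime := ⟨hp⟩
  let _ : Fintype G := Fintype.ofFinite G
  let _ : Fintype (Subgroup.normalizer (D : Set G)) := Fintype.ofFinite _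
  obtain ⟨I⟩ := exists_irrData G
  obtain ⟨I'⟩ := exists_irrData (Subgroup.normalizer (D : Set G))
  obtain ⟨V, hV⟩ := exists_val_of_maximal M hM
  have hpV : (p : ℂ) ∈ V.nonunits := (hV _ (isIntegral_natCast p)).1 ⟨_, hpM, by simp⟩
  obtain ⟨n, ρ, hn, hirr, rfl⟩ := hχ
  obtain ⟨i₀, -, hi₀⟩ := I.exists_eq ρ hn hirr
  rw [hi₀] at hD ⊢
  have hDV := defV_of_isDefectGroup hV I i₀ hD
  obtain ⟨e, he⟩ := exists_blockIdem (V := V) I i₀
  obtain ⟨i', hi'⟩ := exists_correspondent hpV hDV rfl I'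
  obtain ⟨f, hf⟩ := exists_blockIdem (V := V) I' i'
  obtain ⟨⟨a, hF⟩, hb⟩ := exists_blockF hpV hDV rfl he hi' hf
  obtain ⟨hS, hcard⟩ := setting_normalizer hp hDV.pD hD0 hc
  have hE : BlockE p (Nat.card (D.subgroupOf (Subgroup.normalizer (D : Set G)))) e := by
    rw [hcard]
    exact hDV.blockE hpV hD0 he
  have h1 := finrank_eq hpV hS hE hF hb
  rw [he.finrank, hf.finrank] at h1
  rw [kInd_top_eq_card hV, kInd_eq_card hV I i₀ _ I', h1]
  exact congrArg Finset.card (Finset.filter_congr fun j _ => hi' j)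

end Pool.Agent.Lib.MP_b6945b_al.St
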