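import Pool.Agent.Lib.MP_b6945b_al.St.KR0
import Pool.Agent.Lib.MP_b6945b_al.St.KR1b
import Pool.Agent.Lib.MP_b6945b_al.St.Final

set_option autoImplicit false

/-!
The alternating sum over chains vanishes for blocks of defect one or two.
-/

namespace Pool.Agent.Lib.MP_b6945b_al.St

open Finset

variable {p : ℕ} {G : Type} [Group G] [Finite G] {M : Ideal (integralClosure ℤ ℂ)}

/-- The weight of a subgroup. -/
noncomputable def wt (M : Ideal (integralClosure ℤ ℂ)) (χ : G → ℂ) (L : Subgroup G) : ℕ :=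
  Nat.card L * kInd M χ L

open Classical in
/-- `kInd_eq` and `sum_conj`. -/
theorem wt_top (hp : p.Prime) (hM : M.IsMaximal) (hpM : (p : integralClosure ℤ ℂ) ∈ M)
    {χ : G → ℂ} (hχ : IsIrrChar χ) {D : Subgroup G} (hD : IsDefectGroup p M χ D) (hD0 : D ≠ ⊥)
    (hc : Nat.card D ∣ p ^ 2) [Fintype (Subgroup G)] :
    wt M χ ⊤ = ∑ T ∈ univ.filter (fun T : Subgroup G => Nat.card T = Nat.card D),
      wt M χ (Subgroup.normalizer (T : Set G)) := by
  simp only [wt]
  rw [sum_conj hp hM hpM hχ hD, kInd_eq p hp G M hM hpM χ hχ D hD hD0 hc, Subgroup.card_top]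

omit [Finite G] in
/-- A subgroup of order `p ^ 2` normalises its subgroups. -/
lemma kr2_le_normalizer (hp : p.Prime) {Q T : Subgroup G} (hQT : Q ≤ T)
    (hT : Nat.card T = p ^ 2) : T ≤ Subgroup.normalizer (Q : Set G) := by
  have : Fact p.Prime := ⟨hp⟩
  have h := IsPGroup.isMulCommutative_of_card_eq_prime_sq hT
  refine Subgroup.le_normalizer_iff.2 fun t ht q hq => ?_
  have h1 : t * q = q * t := congrArg Subtype.val (h.is_comm.comm (⟨t, ht⟩ : T) ⟨q, hQT hq⟩)
  rwa [h1, mul_inv_cancel_right]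

omit [Finite G] in
lemma kr2_conj_card {T D : Subgroup G} {g : G} (h : ∀ t ∈ T, g⁻¹ * t * g ∈ D) :
    T.map (MulAut.conj g⁻¹).toMonoidHom ≤ D ∧
      Nat.card (T.map (MulAut.conj g⁻¹).toMonoidHom) = Nat.card T := by
  refine ⟨?_, Subgroup.card_map_of_injective (MulAut.conj g⁻¹).injective⟩
  rintro _ ⟨t, ht, rfl⟩
  simpa using h t ht

lemma kr2_card_dvd (hp : p.Prime) (hM : M.IsMaximal) (hpM : (p : integralClosure ℤ ℂ) ∈ M)
    {χ : G → ℂ} (hχ : IsIrrChar χ) {D : Subgroup G} (hD : IsDefectGroup p M χ D)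
    {T L : Subgroup G} (hT : IsPGroup p T) (hTL : T ≤ L)
    (hL : L ≤ Subgroup.normalizer (T : Set G)) (h : wt M χ L ≠ 0) : Nat.card T ∣ Nat.card D := by
  obtain ⟨g, hg⟩ := conj_le_of_kInd hp hM hpM hχ hD hT hTL hL (right_ne_zero_of_mul h)
  obtain ⟨h1, h2⟩ := kr2_conj_card hg
  rw [← h2]
  exact Subgroup.card_dvd_of_le h1

/-- Subgroups of the order of a defect group that contribute contain the normal `p`-subgroups. -/
lemma kr2_le (hp : p.Prime) (hM : M.IsMaximal) (hpM : (p : integralClosure ℤ ℂ) ∈ M)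
    {χ : G → ℂ} (hχ : IsIrrChar χ) {D : Subgroup G} (hD : IsDefectGroup p M χ D)
    {Q T : Subgroup G} [hn : Q.Normal] (hQ : IsPGroup p Q) (hT : IsPGroup p T)
    (hc : Nat.card T = Nat.card D) (h : wt M χ (Subgroup.normalizer (T : Set G)) ≠ 0) :
    Q ≤ T := by
  obtain ⟨g, hg⟩ := conj_le_of_kInd hp hM hpM hχ hD hT Subgroup.le_normalizer le_rfl
    (right_ne_zero_of_mul h)
  obtain ⟨h1, h2⟩ := kr2_conj_card hg
  have h3 := Subgroup.eq_of_le_of_card_ge h1 (h2.trans hc).ge
  intro q hq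
  have h4 := le_defectGroup hp hM hpM hχ hD hQ (hn.conj_mem q hq g⁻¹)
  rw [← h3] at h4
  obtain ⟨t, ht, e⟩ := h4
  have h5 : t = q := (MulAut.conj g⁻¹).injective e
  exact h5 ▸ ht

open Classical in
/-- Let `N` be the normaliser of `Q` and `s` as in `exists_fibres`.  Apply `wt_top` in `N` to each
`θ ∈ s` (`exists_defectGroup`, `card_defect_local`).  Subgroups `T'` of `N` of order `p ^ 2` not
containing `Q` contribute nothing (`conj_le_of_kInd`, `le_defectGroup`); the others correspond to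
the `T > Q` of order `p ^ 2` (these are commutative, so lie in `N`), and the normaliser of `T'` in
`N` maps onto `N ⊓ normalizer T`. -/
theorem wt_local (hp : p.Prime) (hM : M.IsMaximal) (hpM : (p : integralClosure ℤ ℂ) ∈ M)
    {χ : G → ℂ} (hχ : IsIrrChar χ) {D : Subgroup G} (hD : IsDefectGroup p M χ D)
    (hc : Nat.card D = p ^ 2) {Q : Subgroup G} (hQ : Nat.card Q = p) [Fintype (Subgroup G)] :
    wt M χ (Subgroup.normalizer (Q : Set G)) =
      ∑ T ∈ univ.filter (fun T : Subgroup G => Q < T ∧ Nat.card T = p ^ 2),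
        wt M χ (Subgroup.normalizer (Q : Set G) ⊓ Subgroup.normalizer (T : Set G)) := by
  have : Fact p.Prime := ⟨hp⟩
  set N := Subgroup.normalizer (Q : Set G) with hN
  let _ : Fintype (Subgroup N) := Fintype.ofFinite _
  have hQN : Q ≤ N := Subgroup.le_normalizer
  have hQp : IsPGroup p Q := IsPGroup.of_card (n := 1) (by rw [hQ, pow_one])
  have hQ' : IsPGroup p (Q.subgroupOf N) := hQp.comap_subtype
  have hn : (Q.subgroupOf N).Normal := Subgroup.normal_in_normalizer
  obtain ⟨s, hs, hs'⟩ := exists_fibres hp hM hpM hχ N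
  have key : ∀ L P : Subgroup N, IsPGroup p P → P ≤ L → L ≤ Subgroup.normalizer (P : Set N) →
      (∀ g, (∀ u ∈ P, u * g = g * u) → g ∈ L) →
      wt M χ (L.map N.subtype) = ∑ θ ∈ s, wt M θ L := fun L P h1 h2 h3 h4 => by
    simp only [wt]
    rw [hs' L P h1 h2 h3 h4, Subgroup.card_map_of_injective N.subtype_injective, Finset.mul_sum]
  have e1 : wt M χ N = ∑ θ ∈ s, wt M θ ⊤ := by
    rw [← key ⊤ _ hQ' le_top Subgroup.le_normalizer_of_normal fun _ _ => trivial,
      ← MonoidHom.range_eq_map, Subgroup.range_subtype]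
  have e2 : ∀ θ ∈ s, wt M θ ⊤ = ∑ T ∈ univ.filter (fun T : Subgroup N =>
      Q.subgroupOf N ≤ T ∧ Nat.card T = p ^ 2), wt M θ (Subgroup.normalizer (T : Set N)) := by
    intro θ hθ
    obtain ⟨D', hD'⟩ := exists_defectGroup (M := M) hp hM (hs θ hθ).1
    have h1 := card_defect_local hp hM hpM hχ hD hc hQ (hs θ hθ).1 (hs θ hθ).2 hD'
    have h2 : D' ≠ ⊥ := fun e => by
      rw [e, Subgroup.card_bot] at h1
      exact (Nat.one_lt_pow two_ne_zero hp.one_lt).ne h1
    rw [wt_top hp hM hpM (hs θ hθ).1 hD' h2 h1.dvd]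
    refine (Finset.sum_subset (fun T hT => ?_) fun T hT hT' => ?_).symm
    · rw [mem_filter] at hT ⊢
      exact ⟨hT.1, hT.2.2.trans h1.symm⟩
    · by_contra e
      have h3 := (mem_filter.1 hT).2
      exact hT' (mem_filter.2 ⟨mem_univ _, kr2_le hp hM hpM (hs θ hθ).1 hD' hQ'
        (IsPGroup.of_card (h3.trans h1)) h3 e, h3.trans h1⟩)
  rw [e1, Finset.sum_congr rfl e2, Finset.sum_comm]
  have hle : ∀ T ∈ univ.filter (fun T : Subgroup G => Q < T ∧ Nat.card T = p ^ 2), T ≤ N :=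
    fun T hT => kr2_le_normalizer hp (mem_filter.1 hT).2.1.le (mem_filter.1 hT).2.2
  have hcard : ∀ T : Subgroup G, T ≤ N → Nat.card (T.subgroupOf N) = Nat.card T := fun T hT =>
    Nat.card_congr (Subgroup.subgroupOfEquivOfLe hT).toEquiv
  symm
  refine Finset.sum_nbij' (fun T => T.subgroupOf N) (fun T => T.map N.subtype)
    (fun T hT => ?_) (fun T hT => ?_) (fun T hT => ?_) (fun T _ => ?_) fun T hT => ?_
  · exact mem_filter.2 ⟨mem_univ _, Subgroup.comap_mono (mem_filter.1 hT).2.1.le,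
      (hcard T (hle T hT)).trans (mem_filter.1 hT).2.2⟩
  · obtain ⟨-, h1, h2⟩ := mem_filter.1 hT
    have h3 : Nat.card (T.map N.subtype) = p ^ 2 :=
      (Subgroup.card_map_of_injective N.subtype_injective).trans h2
    refine mem_filter.2 ⟨mem_univ _, lt_of_le_of_ne (fun q hq => ?_) fun e => ?_, h3⟩
    · exact ⟨⟨q, hQN hq⟩, h1 hq, rfl⟩
    · rw [← e, hQ] at h3
      exact (Nat.pow_lt_pow_right hp.one_lt one_lt_two).ne ((pow_one p).trans h3)
  · exact Subgroup.map_subgroupOf_eq_of_le (hle T hT)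
  · exact Subgroup.comap_map_eq_self_of_injective N.subtype_injective T
  · have h1 : IsPGroup p (T.subgroupOf N) :=
      (IsPGroup.of_card (mem_filter.1 hT).2.2).comap_subtype
    rw [← key _ _ h1 Subgroup.le_normalizer le_rfl fun g hg => ?_,
      ← Subgroup.subgroupOf_normalizer_eq (hle T hT), Subgroup.subgroupOf_map_subtype, inf_comm]
    refine Subgroup.mem_normalizer_fintype fun u hu => ?_
    rwa [← hg u hu, mul_inv_cancel_right]

/-- Convert the `finsum` as in `final_block`, apply `chain_sum_eq` to `wt M χ`, and distinguish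
the orders `p` (terms with `T` of order `p ^ 2` vanish by `conj_le_of_kInd`) and `p ^ 2`. -/
theorem kr_sum (p : ℕ) (hp : p.Prime) (G : Type) [Group G] [Finite G]
    (M : Ideal (integralClosure ℤ ℂ)) (hM : M.IsMaximal) (hpM : (p : integralClosure ℤ ℂ) ∈ M)
    (χ : G → ℂ) (hχ : IsIrrChar χ) (D : Subgroup G) (hD : IsDefectGroup p M χ D) (hD0 : D ≠ ⊥)
    (hc : Nat.card D ∣ p ^ 2) :
    ∑ᶠ (σ : Finset (Subgroup G))
      (_ : IsChain (· ≤ ·) (σ : Set (Subgroup G)) ∧ ∀ P ∈ σ, IsPGroup p P ∧ P ≠ ⊥),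
      (-1 : ℤ) ^ σ.card *
        ((Nat.card (⨅ P ∈ σ, Subgroup.normalizer (P : Set G) : Subgroup G) : ℤ) *
          kInd M χ (⨅ P ∈ σ, Subgroup.normalizer (P : Set G))) = 0 := by
  classical
  have : Fact p.Prime := ⟨hp⟩
  let _ : Fintype (Subgroup G) := Fintype.ofFinite _
  let _ : Fintype (Finset (Subgroup G)) := Fintype.ofFinite _
  have h0 := chain_sum_eq hp (wt M χ) fun T L h1 h2 h3 h4 =>
    (kr2_card_dvd hp hM hpM hχ hD h1 h2 h3 h4).trans hc
  have h1 := wt_top hp hM hpM hχ hD hD0 hc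
  have h2 : ∑ σ : Finset (Subgroup G),
      (if IsPChain p σ then sgn σ * (wt M χ (stab σ) : ℤ) else 0) = 0 := by
    rw [h0, h1]
    obtain ⟨i, hi, e⟩ := (Nat.dvd_prime_pow hp).1 hc
    interval_cases i
    · exact absurd (Subgroup.eq_bot_of_card_eq _ (e.trans (pow_zero p))) hD0
    · have h3 : ∀ T L : Subgroup G, Nat.card T = p ^ 2 → T ≤ L →
          L ≤ Subgroup.normalizer (T : Set G) → (wt M χ L : ℤ) = 0 := fun T L h4 h5 h6 => by
        by_contra h7
        have h8 := kr2_card_dvd hp hM hpM hχ hD (IsPGroup.of_card h4) h5 h6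
          (by exact_mod_cast h7)
        rw [h4, e, Nat.pow_dvd_pow_iff_le_right hp.one_lt] at h8
        omega
      rw [Finset.sum_eq_zero fun T hT =>
          h3 T _ (mem_filter.1 hT).2 Subgroup.le_normalizer le_rfl,
        Finset.sum_eq_zero fun Q _ => Finset.sum_eq_zero fun T hT =>
          h3 T _ (mem_filter.1 hT).2.2 (le_inf (kr2_le_normalizer hp (mem_filter.1 hT).2.1.le
            (mem_filter.1 hT).2.2) Subgroup.le_normalizer) inf_le_right, e, pow_one]
      simp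
    · have h3 : ∀ Q ∈ univ.filter (fun Q : Subgroup G => Nat.card Q = p),
          (wt M χ (Subgroup.normalizer (Q : Set G)) : ℤ) =
          ∑ T ∈ univ.filter (fun T : Subgroup G => Q < T ∧ Nat.card T = p ^ 2),
            (wt M χ (Subgroup.normalizer (Q : Set G) ⊓ Subgroup.normalizer (T : Set G)) : ℤ) :=
        fun Q hQ => by rw [wt_local hp hM hpM hχ hD e (mem_filter.1 hQ).2, Nat.cast_sum]
      rw [Finset.sum_congr rfl h3, e, Nat.cast_sum]
      ring
  rw [finsum_eq_sum_of_fintype]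
  simp only [finsum_eq_if]
  refine Eq.trans (Finset.sum_congr rfl fun σ _ => ?_) h2
  rw [wt, Nat.cast_mul]
  exact if_congr Iff.rfl rfl rfl

end Pool.Agent.Lib.MP_b6945b_al.St
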