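import Pool.Agent.Lib.MP_b6945b_al.St.Frame

set_option autoImplicit false

/-!
Computations with Higman data when the Casimir element of the subalgebra is invertible.
-/

namespace Pool.Agent.Lib.MP_b6945b_al.St

variable {R A Q : Type} [CommRing R] [Ring A] [Algebra R A] [AddCommGroup Q] [Module R Q]
  {ι κ : Type} [Fintype ι] [Fintype κ]

/-- The orthogonal projection onto the span of a frame. -/
def prB (s : A →ₗ[R] R) (f f' : ι → A) : A →ₗ[R] A where
  toFun y := ∑ i, s (y * f' i) • f i
  map_add' x y := by simp [add_mul, add_smul, Finset.sum_add_distrib]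
  map_smul' r y := by simp [Finset.smul_sum, smul_smul]

lemma prB_apply (s : A →ₗ[R] R) (f f' : ι → A) (y : A) :
    prB s f f' y = ∑ i, s (y * f' i) • f i := rfl

section

variable {s : A →ₗ[R] R} {B : Subalgebra R A} {f f' : ι → A}

lemma prB_mem (h : IsFrame s B.toSubmodule f f') (y : A) : prB s f f' y ∈ B := by
  exact B.toSubmodule.sum_mem fun i _ => B.toSubmodule.smul_mem _ (h.mem i)

lemma prB_of_mem (h : IsFrame s B.toSubmodule f f') {b : A} (hb : b ∈ B) : prB s f f' b = b := by
  exact h.repro b hb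

lemma form_prB (h : IsFrame s B.toSubmodule f f') (y : A) {b : A} (hb : b ∈ B) :
    s (prB s f f' y * b) = s (y * b) := by
  conv_rhs => rw [← h.repro' b hb]
  simp only [prB_apply, Finset.sum_mul, Finset.mul_sum, map_sum, smul_mul_assoc, mul_smul_comm,
    map_smul, smul_eq_mul]
  exact Finset.sum_congr rfl fun i _ => by rw [h.symm _ (h.mem i) _ hb, mul_comm]

lemma prB_eq_zero (h : IsFrame s B.toSubmodule f f') {y : A} (hy : ∀ b ∈ B, s (y * b) = 0) :
    prB s f f' y = 0 := by
  exact Finset.sum_eq_zero fun i _ => by rw [hy _ (h.mem' i), zero_smul]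

/-- The projection is a bimodule map. -/
lemma prB_bimod (hs : ∀ x y, s (x * y) = s (y * x)) (h : IsFrame s B.toSubmodule f f') (y : A)
    {b b' : A} (hb : b ∈ B) (hb' : b' ∈ B) : prB s f f' (b * y * b') = b * prB s f f' y * b' := by
  refine h.ext (prB_mem h _) (B.mul_mem (B.mul_mem hb (prB_mem h y)) hb') fun x hx => ?_
  have hm : b' * x * b ∈ B := B.mul_mem (B.mul_mem hb' hx) hb
  have e : ∀ u : A, s (b * u * b' * x) = s (u * (b' * x * b)) := fun u => by
    rw [show b * u * b' * x = b * (u * b' * x) by simp only [mul_assoc], hs]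
    simp only [mul_assoc]
  rw [form_prB h _ hx, e, e, form_prB h _ hm]

variable {α : A →ₗ[R] A} {β β' : κ → A}

lemma rat_pr_left (hs : ∀ x y, s (x * y) = s (y * x)) (h : IsFrame s B.toSubmodule f f') (y : A)
    {b : A} (hb : b ∈ B) : prB s f f' (b * y) = b * prB s f f' y := by
  simpa using prB_bimod hs h y hb B.one_mem

lemma rat_pr_right (hs : ∀ x y, s (x * y) = s (y * x)) (h : IsFrame s B.toSubmodule f f') (y : A)
    {b : A} (hb : b ∈ B) : prB s f f' (y * b) = prB s f f' y * b := by
  simpa using prB_bimod hs h y B.one_mem hb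

lemma rat_perp (h : IsFrame s B.toSubmodule f f') (y : A) :
    ∀ b ∈ B, s ((y - prB s f f' y) * b) = 0 := fun b hb => by
  rw [sub_mul, map_sub, form_prB h y hb, sub_self]

lemma rat_pr_sub (h : IsFrame s B.toSubmodule f f') (y : A) :
    prB s f f' (y - prB s f f' y) = 0 := prB_eq_zero h (rat_perp h y)

lemma rat_pr_comm (hs : ∀ x y, s (x * y) = s (y * x)) (h : IsFrame s B.toSubmodule f f') {z : A}
    (hz : ∀ b ∈ B, z * b = b * z) :
    ∀ b ∈ B, (z - prB s f f' z) * b = b * (z - prB s f f' z) := fun b hb => by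
  rw [sub_mul, mul_sub, ← rat_pr_right hs h z hb, ← rat_pr_left hs h z hb, hz b hb]

/-- The relative trace as a linear map. -/
def rat_trL (R : Type) [CommRing R] [Algebra R A] (f f' : ι → A) : A →ₗ[R] A where
  toFun := trF f f'
  map_add' x y := by simp [trF, mul_add, add_mul, Finset.sum_add_distrib]
  map_smul' r y := by simp [trF, Finset.smul_sum]

lemma rat_trL_apply (f f' : ι → A) (y : A) : rat_trL R f f' y = trF f f' y := rfl

lemma rat_trF_mul (h : IsFrame s B.toSubmodule f f') (y : A) {z : A}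
    (hz : ∀ b ∈ B, z * b = b * z) : trF f f' (y * z) = trF f f' y * z := by
  simp only [trF, Finset.sum_mul]
  refine Finset.sum_congr rfl fun i _ => ?_
  simp only [mul_assoc]
  rw [hz _ (h.mem' i)]

/-- An element of the complement that commutes with `B` is a relative trace
(slide `f'` past `z` and then onto the second frame). -/
lemma Hig.eq_trF (hH : Hig s B f f' α) {z : A} (hz : ∀ b ∈ B, z * b = b * z)
    (hp : ∀ b ∈ B, s (z * b) = 0) : z = trF f f' (∑ j, α (z * f' j) * f j) := by
  conv_lhs => rw [← hH.hig z hp]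
  simp only [trB, trF, Finset.mul_sum, Finset.sum_mul]
  refine Finset.sum_congr rfl fun i _ => ?_
  have hF : IsBilin R (fun x y : A => f i * α (z * y) * x) := by
    constructor <;> intros <;> simp [mul_add, add_mul]
  have h1 := hH.frame.slideB_right hF (hH.frame.mem' i)
  simp only [← hz _ (hH.frame.mem' i), mul_assoc] at h1 ⊢
  exact h1.symm

/-- The projection is multiplicative on the centraliser of `B` modulo relative traces. -/
lemma Hig.prB_mul (hH : Hig s B f f' α) {z z' : A} (hz : ∀ b ∈ B, z * b = b * z)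
    (hz' : ∀ b ∈ B, z' * b = b * z') :
    prB s f f' (z * z') = prB s f f' z * prB s f f' z' +
      trF f f' (prB s f f' ((∑ j, α ((z - prB s f f' z) * f' j) * f j) *
        (z' - prB s f f' z'))) := by
  have h := hH.frame
  have hs := hH.symm
  have h0 := hH.eq_trF (rat_pr_comm hs h hz) (rat_perp h z)
  set a := ∑ j, α ((z - prB s f f' z) * f' j) * f j with ha
  have h1 : prB s f f' ((z - prB s f f' z) * (z' - prB s f f' z')) =
      trF f f' (prB s f f' (a * (z' - prB s f f' z'))) := by
    conv_lhs => rw [h0, ← rat_trF_mul h a (rat_pr_comm hs h hz')]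
    simp only [trF, map_sum]
    exact Finset.sum_congr rfl fun i _ => prB_bimod hs h _ (h.mem i) (h.mem' i)
  have e : z * z' = prB s f f' z * prB s f f' z' + prB s f f' z * (z' - prB s f f' z') +
      (z - prB s f f' z) * prB s f f' z' + (z - prB s f f' z) * (z' - prB s f f' z') := by
    noncomm_ring
  rw [← h1]
  conv_lhs => rw [e]
  rw [map_add, map_add, map_add, prB_of_mem h (B.mul_mem (prB_mem h z) (prB_mem h z')),
    rat_pr_left hs h _ (prB_mem h z), rat_pr_right hs h _ (prB_mem h z'), rat_pr_sub h,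
    rat_pr_sub h, mul_zero, zero_mul, add_zero, add_zero]

lemma rat_alpha_sub (hH : Hig s B f f' α) (y : A) : α (y - prB s f f' y) = α y := by
  rw [map_sub, hH.zero _ (prB_mem hH.frame y), sub_zero]

lemma rat_alpha_sandwich (hH : Hig s B f f' α) (y : A) {b b' : A} (hb : b ∈ B) (hb' : b' ∈ B) :
    α (b * (y - prB s f f' y) * b') = α (b * y * b') := by
  rw [mul_sub, sub_mul, ← prB_bimod hH.symm hH.frame y hb hb', rat_alpha_sub hH]

lemma rat_trB (hH : Hig s B f f' α) (y : A) :
    ∑ i, ∑ j, f i * α (f' i * y * f' j) * f j = y - prB s f f' y := by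
  rw [← hH.hig _ (rat_perp hH.frame y)]
  refine Finset.sum_congr rfl fun i _ => Finset.sum_congr rfl fun j _ => ?_
  rw [rat_alpha_sandwich hH y (hH.frame.mem' i) (hH.frame.mem' j)]

lemma rat_slide_q (hs : ∀ x y, s (x * y) = s (y * x)) (h : IsFrame s B.toSubmodule f f')
    (hβ : IsFrame s ⊤ β β') {F : A → A → Q} (hF : IsBilin R F) :
    ∑ j, F (β j - prB s f f' (β j)) (β' j) = ∑ j, F (β j) (β' j - prB s f f' (β' j)) := by
  refine hβ.slide hF (LinearMap.id - prB s f f') (LinearMap.id - prB s f f') (fun _ _ => trivial)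
    (fun _ _ => trivial) fun x _ y _ => ?_
  change s ((x - prB s f f' x) * y) = s (x * (y - prB s f f' y))
  rw [sub_mul, mul_sub, map_sub, map_sub, hs (prB s f f' x) y, ← form_prB h y (prB_mem h x),
    ← form_prB h x (prB_mem h y), hs (prB s f f' y)]

lemma rat_balanced {α₀ : A →ₗ[R] A} (hH : Hig s B f f' α) (hH₀ : Hig s B f f' α₀)
    (hβ : IsFrame s ⊤ β β') {G : A → A → Q} (hG : IsBilin R G)
    (h1 : ∀ b ∈ B, ∀ x y, G (b * x) y = G x (y * b))
    (h2 : ∀ b ∈ B, ∀ x y, G (x * b) y = G x (b * y)) :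
    ∑ j, G (α (β j)) (β' j) = ∑ j, G (β j - prB s f f' (β j)) (α₀ (β' j)) := by
  have h := hH.frame
  have hF : IsBilin R (fun x y : A => G (α x) y) :=
    ⟨fun x x' y => by rw [map_add, hG.add_left], fun r x y => by rw [map_smul, hG.smul_left],
      fun x y y' => hG.add_right _ _ _, fun r x y => hG.smul_right _ _ _⟩
  have e1 := rat_slide_q hH.symm h hβ hF
  simp only [rat_alpha_sub hH] at e1
  have e2 : ∀ i k, ∑ j, G (f k * α (β j) * f i) (α₀ (f' i * β' j * f' k)) =
      ∑ j, G (f k * α (f' k * β j * f' i) * f i) (α₀ (β' j)) := by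
    intro i k
    have hF' : IsBilin R (fun x y : A => G (f k * α x * f i) (α₀ y)) :=
      ⟨fun x x' y => by rw [map_add, mul_add, add_mul, hG.add_left],
        fun r x y => by rw [map_smul, mul_smul_comm, smul_mul_assoc, hG.smul_left],
        fun x y y' => by rw [map_add, hG.add_right],
        fun r x y => by rw [map_smul, hG.smul_right]⟩
    refine (hβ.slide hF' (LinearMap.mulRight R (f' i) ∘ₗ LinearMap.mulLeft R (f' k))
      (LinearMap.mulRight R (f' k) ∘ₗ LinearMap.mulLeft R (f' i)) (fun _ _ => trivial)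
      (fun _ _ => trivial) fun x _ y _ => ?_).symm
    change s (f' k * x * f' i * y) = s (x * (f' i * y * f' k))
    rw [show f' k * x * f' i * y = f' k * (x * f' i * y) by simp only [mul_assoc], hH.symm]
    simp only [mul_assoc]
  calc ∑ j, G (α (β j)) (β' j)
      = ∑ j, ∑ i, ∑ k, G (f k * α (β j) * f i) (α₀ (f' i * β' j * f' k)) := by
        rw [e1]
        refine Finset.sum_congr rfl fun j _ => ?_
        rw [← rat_trB hH₀ (β' j), hG.sum_right']
        refine Finset.sum_congr rfl fun i _ => ?_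
        rw [hG.sum_right']
        refine Finset.sum_congr rfl fun k _ => ?_
        rw [h2 _ (h.mem i), h1 _ (h.mem k)]
    _ = ∑ i, ∑ k, ∑ j, G (f k * α (f' k * β j * f' i) * f i) (α₀ (β' j)) := by
        rw [Finset.sum_comm]
        refine Finset.sum_congr rfl fun i _ => ?_
        rw [Finset.sum_comm]
        exact Finset.sum_congr rfl fun k _ => e2 i k
    _ = ∑ j, ∑ k, ∑ i, G (f k * α (f' k * β j * f' i) * f i) (α₀ (β' j)) := by
        rw [Finset.sum_comm]
        simp only [Finset.sum_comm (s := (Finset.univ : Finset ι)) (t := (Finset.univ : Finset κ))]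
    _ = ∑ j, G (β j - prB s f f' (β j)) (α₀ (β' j)) := by
        refine Finset.sum_congr rfl fun j _ => ?_
        rw [← rat_trB hH (β j), hG.sum_left']
        exact Finset.sum_congr rfl fun k _ => (hG.sum_left' _ _ _).symm

/-- Balanced functionals do not see the choice of the Higman map.  Write `e = β - prB β`,
`e' = β' - prB β'` (a frame of the complement `P`); then `∑ G (α β) β' = ∑ G (α e) e'`; expand
`e' = ∑ f α₀ (f' e' g') g`, move `f, g` across `G`, slide in the frame of `P`, and use the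
Higman identity of `α` to get `∑ G e (α₀ e')`, which does not depend on `α`. -/
lemma Hig.balanced_eq {α₀ : A →ₗ[R] A} (hH : Hig s B f f' α) (hH₀ : Hig s B f f' α₀)
    (hβ : IsFrame s ⊤ β β') {G : A → A → Q} (hG : IsBilin R G)
    (h1 : ∀ b ∈ B, ∀ x y, G (b * x) y = G x (y * b))
    (h2 : ∀ b ∈ B, ∀ x y, G (x * b) y = G x (b * y)) :
    ∑ j, G (α (β j)) (β' j) = ∑ j, G (α₀ (β j)) (β' j) := by
  rw [rat_balanced hH hH₀ hβ hG h1 h2, rat_balanced hH₀ hH₀ hβ hG h1 h2]

lemma rat_sep (h : IsFrame s B.toSubmodule f f') {w : A} (hw : w ∈ B)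
    (hw1 : w * trF f f' 1 = 1) : (∀ b ∈ B, w * b = b * w) ∧ trF f f' w = 1 := by
  have hw2 : trF f f' 1 * w = 1 := by rw [← trF_comm h 1 hw, hw1]
  have hc : ∀ b ∈ B, w * b = b * w := fun b hb => by
    calc w * b = w * (b * trF f f' 1) * w := by rw [mul_assoc, mul_assoc, hw2, mul_one]
      _ = b * w := by rw [trF_comm h 1 hb, ← mul_assoc, hw1, one_mul]
  refine ⟨hc, ?_⟩
  have := rat_trF_mul h 1 hc
  rwa [one_mul, hw2] at this

/-- If the Casimir element has an inverse `w` in `B` (then `w` is central in `B` and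
`∑ f w f' = 1`), `y ↦ w (y - prB y) w` is a Higman map. -/
lemma Hig.exists_sep (hH : Hig s B f f' α) {w : A} (hw : w ∈ B) (hw1 : w * trF f f' 1 = 1) :
    ∃ α₀ : A →ₗ[R] A, Hig s B f f' α₀ ∧ ∀ y, α₀ y = w * (y - prB s f f' y) * w := by
  have h := hH.frame
  have hs := hH.symm
  obtain ⟨-, ht⟩ := rat_sep h hw hw1
  refine ⟨LinearMap.mulRight R w ∘ₗ LinearMap.mulLeft R w ∘ₗ (LinearMap.id - prB s f f'),
    ⟨hs, h, fun y b hb => ?_, fun b hb => ?_, fun y hy => ?_⟩, fun y => rfl⟩
  · change s (w * (y - prB s f f' y) * w * b) = 0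
    rw [show w * (y - prB s f f' y) * w * b = w * ((y - prB s f f' y) * w * b) by
      simp only [mul_assoc], hs, mul_assoc, mul_assoc]
    exact rat_perp h y _ (B.mul_mem hw (B.mul_mem hb hw))
  · change w * (b - prB s f f' b) * w = 0
    rw [prB_of_mem h hb, sub_self, mul_zero, zero_mul]
  · change ∑ i, ∑ j, f i * (w * (f' i * y * f' j - prB s f f' (f' i * y * f' j)) * w) * f j = y
    have e : ∀ i j, f i * (w * (f' i * y * f' j - prB s f f' (f' i * y * f' j)) * w) * f j =
        f i * w * f' i * y * (f' j * w * f j) := fun i j => by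
      rw [prB_bimod hs h y (h.mem' i) (h.mem' j), prB_eq_zero h hy]
      simp only [mul_zero, zero_mul, sub_zero, mul_assoc]
    simp only [e, ← Finset.mul_sum, ← Finset.sum_mul]
    change trF f f' w * y * trF f' f w = y
    rw [trF_swap h, ht, one_mul, mul_one]

lemma sep_comm (h : IsFrame s B.toSubmodule f f') {w : A} (hw : w ∈ B)
    (hw1 : w * trF f f' 1 = 1) : (∀ b ∈ B, w * b = b * w) ∧ trF f f' w = 1 := by
  exact rat_sep h hw hw1

lemma rat_pr_frame (h : IsFrame s B.toSubmodule f f') (hβ : IsFrame s ⊤ β β') {F : A → A → Q}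
    (hF : IsBilin R F) : ∑ j, F (prB s f f' (β j)) (β' j) = ∑ i, F (f i) (f' i) := by
  have _ := h
  simp only [prB_apply, hF.sum_left]
  rw [Finset.sum_comm]
  refine Finset.sum_congr rfl fun i _ => ?_
  conv_rhs => rw [← hβ.repro' (f' i) trivial, hF.sum_right]
  exact Finset.sum_congr rfl fun j _ => by rw [hβ.symm (β j) trivial (f' i) trivial]

lemma rat_q_frame (h : IsFrame s B.toSubmodule f f') (hβ : IsFrame s ⊤ β β') {F : A → A → Q}
    (hF : IsBilin R F) :
    ∑ j, F (β j - prB s f f' (β j)) (β' j) = ∑ j, F (β j) (β' j) - ∑ i, F (f i) (f' i) := by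
  rw [← rat_pr_frame h hβ hF, ← Finset.sum_sub_distrib]
  refine Finset.sum_congr rfl fun j _ => ?_
  change hF.lin _ _ = hF.lin _ _ - hF.lin _ _
  rw [map_sub, LinearMap.sub_apply]

lemma rat_trace (hH : Hig s B f f' α) (hβ : IsFrame s ⊤ β β') {w : A} (hw : w ∈ B)
    (hw1 : w * trF f f' 1 = 1) (T : A →ₗ[R] A) (hT : ∀ b ∈ B, ∀ y, T (b * y) = T (y * b)) :
    T (∑ j, α (β j) * β' j) = T (w * (trF β β' w - 1)) := by
  obtain ⟨α₀, hH₀, hα₀⟩ := hH.exists_sep hw hw1
  have hG : IsBilin R (fun x y : A => T (x * y)) := by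
    constructor <;> intros <;> simp [mul_add, add_mul]
  have h1 := hH.balanced_eq hH₀ hβ hG (fun b hb x y => by rw [mul_assoc, hT b hb, mul_assoc])
    (fun b _ x y => by rw [mul_assoc])
  have h2 := rat_q_frame hH.frame hβ (isBilin_sandwich (R := R) 1 w 1)
  simp only [one_mul, mul_one] at h2
  change _ = trF β β' w - trF f f' w at h2
  rw [(rat_sep hH.frame hw hw1).2] at h2
  rw [map_sum, h1, ← h2, ← map_sum, Finset.mul_sum]
  simp only [hα₀, mul_assoc]

/-- `u - 1` is a relative trace from `B`, for `u = Tr_A w`.  Use `balanced_eq` for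
`G x y = trF f f' (x * y)`; `∑ e w e'` commutes with `B`. -/
lemma Hig.u_sub_one (hH : Hig s B f f' α) (hβ : IsFrame s ⊤ β β') {w : A} (hw : w ∈ B)
    (hw1 : w * trF f f' 1 = 1) : trF β β' w - 1 = trF f f' (∑ j, α (β j) * β' j) := by
  have h1 := rat_trace hH hβ hw hw1 (rat_trL R f f') fun b hb y => trF_cyc hH.frame y hb
  rw [rat_trL_apply, rat_trL_apply] at h1
  rw [h1, rat_trF_mul hH.frame w (z := trF β β' w - 1) fun b _ => by
    rw [sub_mul, mul_sub, trF_comm_top hβ, one_mul, mul_one], (rat_sep hH.frame hw hw1).2, one_mul]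

/-- `u (u - 1)` is a trace from `A`.  Use `balanced_eq` for `G x y = trF β β' (x * y)`. -/
lemma Hig.u_mul (hH : Hig s B f f' α) (hβ : IsFrame s ⊤ β β') {w : A} (hw : w ∈ B)
    (hw1 : w * trF f f' 1 = 1) :
    trF β β' w * (trF β β' w - 1) = trF β β' (∑ j, α (β j) * β' j) := by
  have h1 := rat_trace hH hβ hw hw1 (rat_trL R β β') fun b _ y => trF_cyc_top hβ y b
  rw [rat_trL_apply, rat_trL_apply] at h1
  rw [h1]
  symm
  have hc : ∀ b, (trF β β' w - 1) * b = b * (trF β β' w - 1) := fun b => by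
    rw [sub_mul, mul_sub, trF_comm_top hβ, one_mul, mul_one]
  generalize trF β β' w - 1 = z at hc
  simp only [trF, Finset.sum_mul]
  refine Finset.sum_congr rfl fun i _ => ?_
  simp only [mul_assoc]
  rw [hc]

lemma rat_form (hH : Hig s B f f' α) (hβ : IsFrame s ⊤ β β') {w : A} (hw : w ∈ B)
    (hw1 : w * trF f f' 1 = 1) {ζ : A} (hζ : ∀ a, ζ * a = a * ζ) (T : A →ₗ[R] A)
    (hT : ∀ b ∈ B, ∀ y, T (b * y) = T (y * b)) (hT' : ∀ b ∈ B, ∀ y, b * T y = T y * b) :
    s (ζ * ∑ j, ∑ h, α (β j) * f h * T (f' h * β' j)) =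
      ∑ j, s (ζ * w * β j * T (β' j)) - ∑ i, s (ζ * w * f i * T (f' i)) := by
  have h := hH.frame
  have hs := hH.symm
  obtain ⟨α₀, hH₀, hα₀⟩ := hH.exists_sep hw hw1
  have hG : IsBilin R (fun x y : A => ∑ k, s (ζ * x * f k * T (f' k * y))) := by
    constructor <;> intros <;>
      simp [mul_add, add_mul, Finset.sum_add_distrib, Finset.mul_sum]
  have hK : ∀ x y : A, IsBilin R (fun u v : A => s (ζ * x * u * T (v * y))) := fun x y => by
    constructor <;> intros <;> simp [mul_add, add_mul]
  have h1 := hH.balanced_eq hH₀ hβ hG (fun b hb x y => by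
      have e := h.slideB_right (hK x y) hb
      have e1 : ∀ k, T (f' k * (y * b)) = T (b * f' k * y) := fun k => by
        rw [← mul_assoc, ← hT b hb, mul_assoc]
      simp only [e1]
      rw [← e]
      refine Finset.sum_congr rfl fun k _ => ?_
      rw [show ζ * (b * x) * f k * T (f' k * y) = b * (ζ * x * f k * T (f' k * y)) by
        rw [← mul_assoc ζ b x, hζ b]; simp only [mul_assoc], hs]
      simp only [mul_assoc]
      rw [hT' b hb])
    (fun b hb x y => by
      have e := h.slideB_left (hK x y) hb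
      simpa only [mul_assoc] using e)
  have hL : IsBilin R (fun x y : A => s (ζ * w * x * T y)) := by
    constructor <;> intros <;> simp [mul_add, add_mul]
  have h2 : ∀ k, ∑ j, s (ζ * α₀ (β j) * f k * T (f' k * β' j)) =
      ∑ j, s (ζ * w * (β j - prB s f f' (β j)) * T (f' k * w * f k * β' j)) := fun k => by
    have hM : IsBilin R (fun x y : A => s (ζ * w * (x - prB s f f' x) * T (f' k * y))) := by
      constructor <;> intros <;> simp [mul_add, add_mul, mul_sub, sub_mul]
      ring
    have e := hβ.slideA_right hM (w * f k)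
    simp only [rat_pr_right hs h _ (B.mul_mem hw (h.mem k)), ← sub_mul] at e
    simpa only [hα₀, mul_assoc] using e
  have h3 : ∑ k, f' k * w * f k = 1 := by
    change trF f' f w = 1
    rw [trF_swap h, (rat_sep h hw hw1).2]
  rw [← rat_q_frame h hβ hL]
  calc s (ζ * ∑ j, ∑ h, α (β j) * f h * T (f' h * β' j))
      = ∑ j, ∑ k, s (ζ * α (β j) * f k * T (f' k * β' j)) := by
        simp only [Finset.mul_sum, map_sum, mul_assoc]
    _ = ∑ k, ∑ j, s (ζ * α₀ (β j) * f k * T (f' k * β' j)) := by
        rw [h1, Finset.sum_comm]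
    _ = ∑ j, s (ζ * w * (β j - prB s f f' (β j)) * T (β' j)) := by
        simp only [h2]
        rw [Finset.sum_comm]
        refine Finset.sum_congr rfl fun j _ => ?_
        rw [← map_sum, ← Finset.mul_sum, ← map_sum, ← Finset.sum_mul, h3, one_mul]

/-- The rational value of the element in the cyclic identity.  For `T = trF β β'` and
`T = trF f f'` the functional `G x y = ∑ h, s (ζ x (f h) T (f' h y))` is balanced; at the
separable Higman map slide `w f h` from `e` to `e'` to get `∑ s (ζ w e T e')`, write the sum over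
the frame of `P` as the sum over `β` minus the sum over `f`; the two mixed terms cancel. -/
lemma Hig.form_z (hH : Hig s B f f' α) (hβ : IsFrame s ⊤ β β') {w : A} (hw : w ∈ B)
    (hw1 : w * trF f f' 1 = 1) {ζ : A} (hζ : ∀ a, ζ * a = a * ζ) :
    s (ζ * (zA f f' β β' α + zB f f' β β' α)) =
      s (ζ * w * handle β β') - s (ζ * w * handle f f') := by
  have h := hH.frame
  have h1 := rat_form hH hβ hw hw1 hζ (rat_trL R β β') (fun b _ y => trF_cyc_top hβ y b)
    fun b _ y => trF_comm_top hβ y b
  have h2 := rat_form hH hβ hw hw1 hζ (rat_trL R f f') (fun b hb y => trF_cyc h y hb)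
    fun b hb y => trF_comm h y hb
  simp only [rat_trL_apply] at h1 h2
  have hL : IsBilin R (fun x y : A => s (ζ * w * x * rat_trL R β β' y)) := by
    constructor <;> intros <;> simp [mul_add, add_mul]
  have h3 : ∑ j, s (ζ * w * β j * trF f f' (β' j)) = ∑ i, s (ζ * w * f i * trF β β' (f' i)) := by
    have e := h.sum_swap hL
    simp only [rat_trL_apply] at e
    rw [e]
    have e1 : ∀ i, ζ * w * f' i * trF β β' (f i) = ζ * w * (trF β β' (f i) * f' i) := fun i => by
      rw [mul_assoc (ζ * w), trF_comm_top hβ]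
    have e2 : ∀ j, s (ζ * w * β j * trF f f' (β' j)) = s (ζ * w * (β j * trF f f' (β' j))) :=
      fun j => by rw [mul_assoc (ζ * w)]
    have e4 : ∀ j, β j * trF f f' (β' j) = ∑ i, β j * f i * β' j * f' i := fun j => by
      simp only [trF, Finset.mul_sum, mul_assoc]
    have e5 : ∀ i, trF β β' (f i) * f' i = ∑ j, β j * f i * β' j * f' i := fun i => by
      simp only [trF, Finset.sum_mul]
    simp only [e1, e2, e4, e5, Finset.mul_sum, map_sum]
    exact Finset.sum_comm
  unfold zA zB
  rw [mul_add, map_add, h1, h2, h3]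
  simp only [handle, Finset.mul_sum, map_sum, mul_assoc]
  ring

end

end Pool.Agent.Lib.MP_b6945b_al.St
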