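import Pool.Agent.Lib.MP_b6945b_al.St.Order
import Pool.Agent.Lib.MP_b6945b_al.St.Rat

set_option autoImplicit false

/-!
After conjugation the subalgebra deforms inside the constant family.
-/

namespace Pool.Agent.Lib.MP_b6945b_al.St

open PowerSeries

variable {K : Type} [Field K] {V : ValuationSubring K} {A : Type} [Ring A] [Algebra K A]
  {O : Subring A} {s : A →ₗ[K] K} {B : Subalgebra K A} {ι : Type} [Fintype ι] {f f' : ι → A}
  {α : A →ₗ[K] A}

/-- The projection onto the orthogonal complement of the span of a frame. -/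
noncomputable def conjQ (s : A →ₗ[K] K) (f f' : ι → A) : A →ₗ[K] A := LinearMap.id - prB s f f'

lemma conjQ_apply (y : A) : conjQ s f f' y = y - prB s f f' y := rfl

lemma conjQ_of_mem (hH : Hig s B f f' α) {b : A} (hb : b ∈ B) : conjQ s f f' b = 0 := by
  rw [conjQ_apply, prB_of_mem hH.frame hb, sub_self]

lemma conjQ_sub_mem (hH : Hig s B f f' α) (y : A) : y - conjQ s f f' y ∈ B := by
  rw [conjQ_apply, sub_sub_cancel]
  exact prB_mem hH.frame y

lemma conjQ_perp (hH : Hig s B f f' α) (y : A) {b : A} (hb : b ∈ B) :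
    s (conjQ s f f' y * b) = 0 := by
  rw [conjQ_apply, sub_mul, map_sub, form_prB hH.frame y hb, sub_self]

lemma conjQ_left (hH : Hig s B f f' α) (y : A) {b : A} (hb : b ∈ B) :
    conjQ s f f' (b * y) = b * conjQ s f f' y := by
  have := prB_bimod hH.symm hH.frame y hb B.one_mem
  rw [mul_one, mul_one] at this
  rw [conjQ_apply, conjQ_apply, this, mul_sub]

lemma conjQ_right (hH : Hig s B f f' α) (y : A) {b : A} (hb : b ∈ B) :
    conjQ s f f' (y * b) = conjQ s f f' y * b := by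
  have := prB_bimod hH.symm hH.frame y B.one_mem hb
  rw [one_mul, one_mul] at this
  rw [conjQ_apply, conjQ_apply, this, sub_mul]

lemma conjQ_mem (hO : SymOrder V O s) (hf : ∀ i, f i ∈ O) (hf' : ∀ i, f' i ∈ O) {y : A}
    (hy : y ∈ O) : conjQ s f f' y ∈ O := by
  rw [conjQ_apply, prB_apply]
  exact O.sub_mem hy (O.sum_mem fun i _ =>
    hO.smul_mem _ (hO.form_mem _ (O.mul_mem hy (hf' i))) _ (hf i))

/-- The linear lift attached to lifts of the frame. -/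
noncomputable def conjS (s : A →ₗ[K] K) (f' : ι → A) (F : ι → A⟦X⟧) (b : A) : A⟦X⟧ :=
  ∑ i, s (b * f' i) • F i

lemma conjS_coeff (F : ι → A⟦X⟧) (b : A) (m : ℕ) :
    coeff m (conjS s f' F b) = ∑ i, s (b * f' i) • coeff m (F i) := by
  simp only [conjS, map_sum, coeff_smul]

lemma conjS_mem {Λ : Subring A⟦X⟧} {g : A⟦X⟧} (hD : Deform V O s Λ g) (hf' : ∀ i, f' i ∈ O)
    {F : ι → A⟦X⟧} (hF : ∀ i, F i ∈ Λ) {b : A} (hb : b ∈ O) : conjS s f' F b ∈ Λ :=
  Λ.sum_mem fun i _ => hD.smul_mem' (hD.symOrder.form_mem _ (O.mul_mem hb (hf' i))) (hF i)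

lemma conjS_zero (hH : Hig s B f f' α) {F : ι → A⟦X⟧} (h0 : ∀ i, coeff 0 (F i) = f i) {b : A}
    (hb : b ∈ B) : coeff 0 (conjS s f' F b) = b := by
  rw [conjS_coeff]
  simp only [h0]
  exact hH.frame.repro b hb

lemma conjS_coeff_mem {F : ι → A⟦X⟧} {m : ℕ} (hB : ∀ i, coeff m (F i) ∈ B) (b : A) :
    coeff m (conjS s f' F b) ∈ B := by
  rw [conjS_coeff]
  exact B.sum_mem fun i _ => B.smul_mem (hB i) _

/-- The obstruction map. -/
noncomputable def conjD (s : A →ₗ[K] K) (f f' : ι → A) (F : ι → A⟦X⟧) (N : ℕ) : A →ₗ[K] A where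
  toFun b := conjQ s f f' (coeff N (conjS s f' F b))
  map_add' x y := by
    simp only [conjS_coeff, add_mul, map_add, add_smul, Finset.sum_add_distrib]
  map_smul' r y := by
    simp only [conjS_coeff, smul_mul_assoc, map_smul, smul_eq_mul, mul_smul, RingHom.id_apply,
      ← Finset.smul_sum]

lemma conjD_apply (F : ι → A⟦X⟧) (N : ℕ) (b : A) :
    conjD s f f' F N b = conjQ s f f' (coeff N (conjS s f' F b)) := rfl

lemma conj_low {Λ : Subring A⟦X⟧} {g : A⟦X⟧} (hD : Deform V O s Λ g) (hH : Hig s B f f' α)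
    (hf : ∀ i, f i ∈ O) (hf' : ∀ i, f' i ∈ O) {n : ℕ} {F : ι → A⟦X⟧}
    (hF : ∀ i, F i ∈ Λ) (h0 : ∀ i, coeff 0 (F i) = f i)
    (hB : ∀ i, ∀ m ≤ n, coeff m (F i) ∈ B) :
    ∀ k ≤ n, ∀ G ∈ Λ, coeff 0 G = 0 → (∀ m ≤ k, coeff m G ∈ B) →
      conjQ s f f' (coeff (k + 1) G) ∈ O := by
  have hdiv : ∀ G ∈ Λ, coeff 0 G = 0 → ∃ G' ∈ Λ, G = X * G' := by
    intro G hG h
    obtain ⟨G', rfl⟩ := ord_iff_dvd.1 (ord_one_iff.2 h)
    exact ⟨G', hD.of_X_pow_mul 1 hG, by rw [pow_one]⟩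
  intro k
  induction k with
  | zero =>
    intro _ G hG h _
    obtain ⟨G', hG', rfl⟩ := hdiv G hG h
    rw [coeff_succ_X_mul]
    exact conjQ_mem hD.symOrder hf hf' ((hD.const _).2 ⟨G', hG', rfl⟩)
  | succ k ih =>
    intro hk G hG h hGB
    obtain ⟨G', hG', rfl⟩ := hdiv G hG h
    have hG'B : ∀ m ≤ k, coeff m G' ∈ B := fun m hm => by
      have := hGB (m + 1) (by omega)
      rwa [coeff_succ_X_mul] at this
    have hb : coeff 0 G' ∈ B := hG'B 0 (Nat.zero_le k)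
    have hbO : coeff 0 G' ∈ O := (hD.const _).2 ⟨G', hG', rfl⟩
    have h1 := ih (by omega) (G' - conjS s f' F (coeff 0 G'))
      (Λ.sub_mem hG' (conjS_mem hD hf' hF hbO))
      (by rw [map_sub, conjS_zero hH h0 hb, sub_self])
      (fun m hm => by
        rw [map_sub]
        exact B.sub_mem (hG'B m hm) (conjS_coeff_mem (fun i => hB i m (by omega)) _))
    rw [map_sub, map_sub, conjQ_of_mem hH (conjS_coeff_mem (fun i => hB i (k + 1) hk) _),
      sub_zero] at h1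
    rw [coeff_succ_X_mul]
    exact h1

lemma conj_mul_low {n : ℕ} {P Q : A⟦X⟧} (hP : ∀ m ≤ n, coeff m P ∈ B)
    (hQ : ∀ m ≤ n, coeff m Q ∈ B) : ∀ m ≤ n, coeff m (P * Q) ∈ B := by
  intro m hm
  rw [coeff_mul]
  refine B.sum_mem fun q hq => ?_
  have := Finset.HasAntidiagonal.mem_antidiagonal.1 hq
  exact B.mul_mem (hP _ (by omega)) (hQ _ (by omega))

lemma conj_mul_top {n : ℕ} {P Q : A⟦X⟧} (hP : ∀ m ≤ n, coeff m P ∈ B)
    (hQ : ∀ m ≤ n, coeff m Q ∈ B) :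
    coeff (n + 1) (P * Q) - coeff 0 P * coeff (n + 1) Q - coeff (n + 1) P * coeff 0 Q ∈ B := by
  rw [coeff_mul, Finset.Nat.sum_antidiagonal_succ]
  simp only
  rw [add_sub_cancel_left]
  have e : ∑ p ∈ Finset.HasAntidiagonal.antidiagonal n, coeff (p.1 + 1) P * coeff p.2 Q
      - coeff (n + 1) P * coeff 0 Q
      = ∑ p ∈ (Finset.HasAntidiagonal.antidiagonal n).erase (n, 0),
          coeff (p.1 + 1) P * coeff p.2 Q := by
    rw [← Finset.add_sum_erase _ _ (a := (n, 0)) (by simp), add_sub_cancel_left]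
  rw [e]
  refine B.sum_mem fun q hq => ?_
  obtain ⟨h1, h2⟩ := Finset.mem_erase.1 hq
  have h3 := Finset.HasAntidiagonal.mem_antidiagonal.1 h2
  have h4 : q.2 ≠ 0 := fun h => h1 (Prod.ext (by simp only; omega) h)
  exact B.mul_mem (hP _ (by omega)) (hQ _ (by omega))

lemma conj_der {Λ : Subring A⟦X⟧} {g : A⟦X⟧} (hD : Deform V O s Λ g) (hH : Hig s B f f' α)
    (hf : ∀ i, f i ∈ O) (hf' : ∀ i, f' i ∈ O) {n : ℕ} {F : ι → A⟦X⟧}
    (hF : ∀ i, F i ∈ Λ) (h0 : ∀ i, coeff 0 (F i) = f i)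
    (hB : ∀ i, ∀ m ≤ n, coeff m (F i) ∈ B) {b b' : A} (hb : b ∈ B) (hbO : b ∈ O) (hb' : b' ∈ B)
    (hbO' : b' ∈ O) :
    b * conjD s f f' F (n + 1) b' + conjD s f f' F (n + 1) b * b'
      - conjD s f f' F (n + 1) (b * b') ∈ O := by
  have hS : ∀ c, ∀ m ≤ n, coeff m (conjS s f' F c) ∈ B :=
    fun c m hm => conjS_coeff_mem (fun i => hB i m hm) c
  have h1 := conj_low hD hH hf hf' hF h0 hB n le_rfl
    (conjS s f' F b * conjS s f' F b' - conjS s f' F (b * b'))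
    (Λ.sub_mem (Λ.mul_mem (conjS_mem hD hf' hF hbO) (conjS_mem hD hf' hF hbO'))
      (conjS_mem hD hf' hF (O.mul_mem hbO hbO')))
    (by
      rw [map_sub, coeff_zero_mul' (A := A), conjS_zero hH h0 hb, conjS_zero hH h0 hb',
        conjS_zero hH h0 (B.mul_mem hb hb'), sub_self])
    (fun m hm => by
      rw [map_sub]
      exact B.sub_mem (conj_mul_low (hS b) (hS b') m hm) (hS _ m hm))
  have h2 := conjQ_of_mem hH (conj_mul_top (hS b) (hS b'))
  rw [conjS_zero hH h0 hb, conjS_zero hH h0 hb', map_sub, map_sub, conjQ_left hH _ hb,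
    conjQ_right hH _ hb', sub_sub, sub_eq_zero] at h2
  rw [map_sub, map_sub, h2] at h1
  exact h1

/-- A derivation modulo the order with values in the complement is inner modulo the order. -/
lemma conj_inner (hH : Hig s B f f' α) (hf : ∀ i, f i ∈ O) (hf' : ∀ i, f' i ∈ O)
    (hα : ∀ a ∈ O, α a ∈ O) (D : A →ₗ[K] A) (hp : ∀ y, ∀ b ∈ B, s (D y * b) = 0)
    (hd : ∀ b ∈ B, b ∈ O → ∀ b' ∈ B, b' ∈ O → b * D b' + D b * b' - D (b * b') ∈ O) :
    ∃ y : A, ∀ b ∈ B, b ∈ O → D b - (b * y - y * b) ∈ O := by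
  refine ⟨∑ i, ∑ j, f i * α (D (f' i) * f' j) * f j, fun b hb hbO => ?_⟩
  have e0 : D b = ∑ i, ∑ j, f i * α (f' i * D b * f' j) * f j := (hH.hig (D b) (hp b)).symm
  have e1 : b * ∑ i, ∑ j, f i * α (D (f' i) * f' j) * f j
      = ∑ i, ∑ j, f i * α (D (f' i * b) * f' j) * f j := by
    have hb1 : IsBilin K (fun x x' : A => ∑ j, x * α (D x' * f' j) * f j) := by
      constructor <;> intros <;>
        simp [mul_add, add_mul, Finset.sum_add_distrib, Finset.smul_sum]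
    have := hH.frame.slideB_left hb1 hb
    rw [← this]
    simp only [Finset.mul_sum, mul_assoc]
  have e2 : (∑ i, ∑ j, f i * α (D (f' i) * f' j) * f j) * b
      = ∑ i, ∑ j, f i * α (D (f' i) * b * f' j) * f j := by
    rw [Finset.sum_mul]
    refine Finset.sum_congr rfl fun i _ => ?_
    have hb2 : IsBilin K (fun x x' : A => f i * α (D (f' i) * x') * x) := by
      constructor <;> intros <;> simp [mul_add, add_mul]
    have := hH.frame.slideB_right hb2 hb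
    simp only [Finset.sum_mul, mul_assoc] at this ⊢
    exact this
  have e3 : D b - (b * ∑ i, ∑ j, f i * α (D (f' i) * f' j) * f j
        - (∑ i, ∑ j, f i * α (D (f' i) * f' j) * f j) * b)
      = ∑ i, ∑ j, f i * α ((f' i * D b + D (f' i) * b - D (f' i * b)) * f' j) * f j := by
    rw [e1, e2]
    simp only [sub_mul, add_mul, map_sub, map_add, mul_sub, mul_add, Finset.sum_sub_distrib,
      Finset.sum_add_distrib]
    rw [← e0]
    abel
  rw [e3]
  exact O.sum_mem fun i _ => O.sum_mem fun j _ => O.mul_mem (O.mul_mem (hf i)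
    (hα _ (O.mul_mem (hd _ (hH.frame.mem' i) (hf' i) b hb hbO) (hf' j)))) (hf j)

lemma conj_unit (K : Type) [Field K] [Algebra K A] (F : A⟦X⟧) (h : coeff 0 F = 1) :
    ∃ U : (A⟦X⟧)ˣ, (U : A⟦X⟧) = F := by
  obtain ⟨G, -, h1, h2, -⟩ := exists_inv_coefAlg (K := K) (⊤ : Subalgebra K A) (F := F)
    (fun _ => trivial) (w := 1) trivial (by rw [h, mul_one]) (by rw [h, mul_one])
  exact ⟨⟨F, G, h2, h1⟩, rfl⟩

/-- One step.  Let `q = 1 - prB s f f'`, `σ b = ∑ s (b f' i) • F i` the linear lift.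
(1) If `G ∈ Λ` has coefficients in `B` below `n + 1` and constant term `0` then
`q (coeff (n + 1) G) ∈ O` (induction on `n` for all such `G` with arbitrary constant term, in the
form `q (coeff (n+1) (G - σ (coeff 0 G))) ∈ O`: divide by `X` and subtract the lift).
(2) `D b = q (coeff (n + 1) (σ b))` is a derivation `B ∩ O → P` modulo `O`.
(3) With `y = ∑ f i α (D (f' i) f' j) f j` one has `D b - (b y - y b) ∈ O` (slides).
(4) Conjugate by `1 + X ^ (n + 1) * C y` and correct `F i` by `X ^ (n + 1)` times lifts of the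
elements `D (f i) - (f i y - y f i)` of `O`. -/
lemma conj_step {Λ : Subring A⟦X⟧} {g : A⟦X⟧} (hD : Deform V O s Λ g) (hH : Hig s B f f' α)
    (hf : ∀ i, f i ∈ O) (hf' : ∀ i, f' i ∈ O) (hα : ∀ a ∈ O, α a ∈ O) (n : ℕ) (F : ι → A⟦X⟧)
    (hF : ∀ i, F i ∈ Λ) (h0 : ∀ i, coeff 0 (F i) = f i)
    (hB : ∀ i, ∀ m ≤ n, coeff m (F i) ∈ B) :
    ∃ (U : (A⟦X⟧)ˣ) (F' : ι → A⟦X⟧), Ord (n + 1) ((U : A⟦X⟧) - 1) ∧ (∀ i, F' i ∈ Λ) ∧
      (∀ i, Ord (n + 1) (F' i - F i)) ∧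
      ∀ i, ∀ m ≤ n + 1, coeff m ((U : A⟦X⟧) * F' i * (↑U⁻¹ : A⟦X⟧)) ∈ B := by
  obtain ⟨y, hy⟩ := conj_inner hH hf hf' hα (conjD s f f' F (n + 1))
    (fun y b hb => conjQ_perp hH _ hb)
    (fun b hb hbO b' hb' hbO' => conj_der hD hH hf hf' hF h0 hB hb hbO hb' hbO')
  have he : ∀ i, conjQ s f f' (coeff (n + 1) (F i)) - (f i * y - y * f i) ∈ O := by
    intro i
    have h1 := conj_low hD hH hf hf' hF h0 hB n le_rfl (F i - conjS s f' F (f i))
      (Λ.sub_mem (hF i) (conjS_mem hD hf' hF (hf i)))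
      (by rw [map_sub, h0, conjS_zero hH h0 (hH.frame.mem i), sub_self])
      (fun m hm => by
        rw [map_sub]
        exact B.sub_mem (hB i m hm) (conjS_coeff_mem (fun j => hB j m hm) _))
    have h2 := O.add_mem h1 (hy (f i) (hH.frame.mem i) (hf i))
    rw [map_sub, map_sub, conjD_apply, sub_add_sub_cancel] at h2
    exact h2
  choose L hL hL0 using fun i => (hD.const _).1 (he i)
  have hT : Ord (n + 1) ((X : A⟦X⟧) ^ (n + 1) * C y) := ord_iff_dvd.2 ⟨_, rfl⟩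
  obtain ⟨U, hU⟩ := conj_unit K (1 + (X : A⟦X⟧) ^ (n + 1) * C y)
    (by rw [map_add, hT 0 (Nat.succ_pos n), add_zero, coeff_zero_one])
  have hXL : ∀ i, Ord (n + 1) ((X : A⟦X⟧) ^ (n + 1) * L i) := fun i => ord_iff_dvd.2 ⟨_, rfl⟩
  have hXm : ∀ (k : ℕ) (G : A⟦X⟧), G ∈ Λ → (X : A⟦X⟧) ^ k * G ∈ Λ := by
    intro k G hG
    induction k with
    | zero => simpa using hG
    | succ k ih =>
      rw [pow_succ', mul_assoc]
      exact hD.X_mul_mem ih
  refine ⟨U, fun i => F i - X ^ (n + 1) * L i, ?_, fun i => Λ.sub_mem (hF i) (hXm _ _ (hL i)),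
    fun i => ?_, fun i m hm => ?_⟩
  · rw [hU, add_sub_cancel_left]
    exact hT
  · rw [sub_sub_cancel_left]
    exact (hXL i).neg
  · have hF'0 : coeff 0 (F i - X ^ (n + 1) * L i) = f i := by
      rw [map_sub, h0, hXL i 0 (Nat.succ_pos n), sub_zero]
    have hc1 : coeff (n + 1) ((X : A⟦X⟧) ^ (n + 1) * C y * (F i - X ^ (n + 1) * L i))
        = y * f i := by
      have := coeff_X_pow_mul (C y * (F i - X ^ (n + 1) * L i)) (n + 1) 0
      rw [zero_add, coeff_C_mul, hF'0] at this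
      rw [mul_assoc, this]
    have hc2 : coeff (n + 1) ((F i - X ^ (n + 1) * L i) * ((X : A⟦X⟧) ^ (n + 1) * C y))
        = f i * y := by
      have := coeff_X_pow_mul ((F i - X ^ (n + 1) * L i) * C y) (n + 1) 0
      rw [zero_add, coeff_mul_C, hF'0] at this
      rw [← mul_assoc, ← X_pow_mul, mul_assoc, this]
    have hc3 : coeff (n + 1) ((X : A⟦X⟧) ^ (n + 1) * L i) = coeff 0 (L i) := by
      have := coeff_X_pow_mul (L i) (n + 1) 0
      rwa [zero_add] at this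
    have hlow : ∀ m < n + 1, coeff m (F i - X ^ (n + 1) * L i) ∈ B := fun m hm => by
      rw [map_sub, hXL i m hm, sub_zero]
      exact hB i m (by omega)
    have htop : coeff (n + 1) (F i - X ^ (n + 1) * L i) + y * f i - f i * y ∈ B := by
      rw [map_sub, hc3, hL0]
      have e : coeff (n + 1) (F i) - (conjQ s f f' (coeff (n + 1) (F i)) - (f i * y - y * f i))
          + y * f i - f i * y = coeff (n + 1) (F i) - conjQ s f f' (coeff (n + 1) (F i)) := by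
        abel
      rw [e]
      exact conjQ_sub_mem hH _
    beta_reduce
    generalize F i - X ^ (n + 1) * L i = G at hc1 hc2 hlow htop ⊢
    generalize (X : A⟦X⟧) ^ (n + 1) * C y = T at hT hU hc1 hc2
    have hTT : Ord (n + 2) (G * (T * T) - T * (G * T)) :=
      (((hT.mul hT).mul_left G).sub (hT.mul (hT.mul_left G))).mono (by omega)
    have e : (U : A⟦X⟧) * G * (↑U⁻¹ : A⟦X⟧)
        = (G + T * G - G * T) + (G * (T * T) - T * (G * T)) * (↑U⁻¹ : A⟦X⟧) := by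
      have e1 : (U : A⟦X⟧) * G
          = (G + T * G - G * T) * (U : A⟦X⟧) + (G * (T * T) - T * (G * T)) := by
        rw [hU]
        noncomm_ring
      rw [e1, add_mul, Units.mul_inv_cancel_right]
    rw [e, map_add, (hTT.mul_right _) m (by omega), add_zero, map_sub, map_add]
    rcases Nat.lt_or_eq_of_le hm with hlt | rfl
    · rw [(hT.mul_right G) m hlt, (hT.mul_left G) m hlt, add_zero, sub_zero]
      exact hlow m hlt
    · rw [hc1, hc2]
      exact htop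

/-- Iterate `conj_step` (applied to `conjSub U Λ`, `Deform.conj`), pass to the limit
(`exists_lim`, `Deform.closed`, `PowerSeries.isUnit_iff_constantCoeff`), and lift a general
`b = ∑ s (b f' i) • f i`. -/
theorem exists_conj {Λ : Subring A⟦X⟧} {g : A⟦X⟧} (hD : Deform V O s Λ g) (hH : Hig s B f f' α)
    (hf : ∀ i, f i ∈ O) (hf' : ∀ i, f' i ∈ O) (hα : ∀ a ∈ O, α a ∈ O) :
    ∃ U : (A⟦X⟧)ˣ, coeff 0 (U : A⟦X⟧) = 1 ∧
      ∀ b ∈ B, b ∈ O → ∃ F ∈ conjSub U Λ, coeff 0 F = b ∧ F ∈ coefAlg B := by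
  let St : ℕ → Type := fun n => {p : (A⟦X⟧)ˣ × (ι → A⟦X⟧) //
    coeff 0 (p.1 : A⟦X⟧) = 1 ∧ (∀ i, p.2 i ∈ conjSub p.1 Λ) ∧ (∀ i, coeff 0 (p.2 i) = f i) ∧
      ∀ i, ∀ m ≤ n, coeff m (p.2 i) ∈ B}
  have hstep : ∀ n (p : St n), ∃ p' : St (n + 1),
      Ord (n + 1) ((p'.1.1 : A⟦X⟧) - (p.1.1 : A⟦X⟧)) ∧ ∀ i, Ord (n + 1) (p'.1.2 i - p.1.2 i) := by
    rintro n ⟨⟨U, F⟩, hU, hF, h0, hB⟩
    obtain ⟨U', F', a1, a2, a3, a4⟩ := conj_step (hD.conj U hU) hH hf hf' hα n F hF h0 hB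
    have b1 : Ord (n + 1) (((U' * U : (A⟦X⟧)ˣ) : A⟦X⟧) - (U : A⟦X⟧)) := by
      have := a1.mul_right (U : A⟦X⟧)
      rwa [sub_mul, one_mul, ← Units.val_mul] at this
    have b2 : ∀ i, Ord (n + 1) ((U' : A⟦X⟧) * F' i * (↑U'⁻¹ : A⟦X⟧) - F i) := by
      intro i
      have e : (U' : A⟦X⟧) * F' i * (↑U'⁻¹ : A⟦X⟧) - F i
          = (((U' : A⟦X⟧) - 1) * F' i - F' i * ((U' : A⟦X⟧) - 1)) * (↑U'⁻¹ : A⟦X⟧)
            + (F' i - F i) := by
        have e1 : ((U' : A⟦X⟧) - 1) * F' i - F' i * ((U' : A⟦X⟧) - 1)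
            = (U' : A⟦X⟧) * F' i - F' i * (U' : A⟦X⟧) := by noncomm_ring
        rw [e1, sub_mul, Units.mul_inv_cancel_right]
        abel
      rw [e]
      exact (((a1.mul_right _).sub (a1.mul_left _)).mul_right _).add (a3 i)
    refine ⟨⟨(U' * U, fun i => (U' : A⟦X⟧) * F' i * (↑U'⁻¹ : A⟦X⟧)), ?_, fun i => ?_,
      fun i => ?_, a4⟩, b1, b2⟩
    · have := b1 0 (Nat.succ_pos n)
      rw [map_sub, sub_eq_zero] at this
      exact this.trans hU
    · obtain ⟨G, hG, e⟩ := mem_conjSub.1 (a2 i)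
      refine mem_conjSub.2 ⟨G, hG, ?_⟩
      simp only [← e, mul_inv_rev, Units.val_mul, mul_assoc]
    · have := b2 i 0 (Nat.succ_pos n)
      rw [map_sub, sub_eq_zero] at this
      exact this.trans (h0 i)
  choose nxt hnxt using hstep
  choose F0 hF0 hF00 using fun i => (hD.const _).1 (hf i)
  let p0 : St 0 := ⟨(1, F0), by simp, fun i => mem_conjSub.2 ⟨F0 i, hF0 i, by simp⟩, hF00,
    fun i m hm => by
      rw [Nat.le_zero.1 hm]
      change coeff 0 (F0 i) ∈ B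
      rw [hF00]
      exact hH.frame.mem i⟩
  let p : ∀ n, St n := fun n => Nat.rec p0 nxt n
  have hp : ∀ n, p (n + 1) = nxt n (p n) := fun n => rfl
  obtain ⟨Ul, hUl⟩ := exists_lim (fun n => ((p n).1.1 : A⟦X⟧)) (fun n => by
    rw [hp]
    exact (hnxt n (p n)).1.mono (Nat.le_succ n))
  choose Fl hFl using fun i => exists_lim (fun n => (p n).1.2 i) (fun n => by
    rw [hp]
    exact ((hnxt n (p n)).2 i).mono (Nat.le_succ n))
  have hUl0 : coeff 0 Ul = 1 := by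
    have := hUl 1 0 Nat.one_pos
    rw [map_sub, sub_eq_zero] at this
    exact this.trans (p 1).2.1
  obtain ⟨U, rfl⟩ := conj_unit K Ul hUl0
  have hc : ∀ i m, coeff m (Fl i) = coeff m ((p (m + 1)).1.2 i) := fun i m => by
    have := hFl i (m + 1) m (Nat.lt_succ_self m)
    rwa [map_sub, sub_eq_zero] at this
  have hFl0 : ∀ i, coeff 0 (Fl i) = f i := fun i => (hc i 0).trans ((p 1).2.2.2.1 i)
  have hFlB : ∀ i m, coeff m (Fl i) ∈ B := fun i m => by
    rw [hc]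
    exact (p (m + 1)).2.2.2.2 i m (Nat.le_succ m)
  have hFlm : ∀ i, Fl i ∈ conjSub U Λ := by
    intro i
    refine mem_conjSub.2 ⟨(↑U⁻¹ : A⟦X⟧) * Fl i * (U : A⟦X⟧), ?_, ?_⟩
    · refine hD.closed _ fun n => ?_
      obtain ⟨G, hG, e⟩ := mem_conjSub.1 ((p n).2.2.1 i)
      refine ⟨G, hG, ?_⟩
      have h1 := hUl n
      have h2 := hFl i n
      rw [← e] at h2
      generalize (p n).1.1 = W at h1 h2
      have e2 : (↑U⁻¹ : A⟦X⟧) * Fl i * (U : A⟦X⟧) - G
          = (↑U⁻¹ : A⟦X⟧) * (Fl i - (W : A⟦X⟧) * G * (↑W⁻¹ : A⟦X⟧)) * (U : A⟦X⟧)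
            + (↑U⁻¹ : A⟦X⟧) * ((W : A⟦X⟧) * G * (↑W⁻¹ : A⟦X⟧)) * ((U : A⟦X⟧) - (W : A⟦X⟧))
            - (↑U⁻¹ : A⟦X⟧) * ((U : A⟦X⟧) - (W : A⟦X⟧)) * G := by
        simp only [mul_sub, sub_mul, mul_assoc, Units.inv_mul, mul_one, one_mul]
        abel
      rw [e2]
      exact (((h2.mul_left _).mul_right _).add (h1.mul_left _)).sub
        ((h1.mul_left _).mul_right _)
    · simp only [mul_assoc, Units.mul_inv, mul_one, Units.mul_inv_cancel_left]
  refine ⟨U, hUl0, fun b hb hbO => ⟨conjS s f' Fl b, conjS_mem (hD.conj U hUl0) hf' hFlm hbO,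
    conjS_zero hH hFl0 hb, fun m => conjS_coeff_mem (fun i => hFlB i m) b⟩⟩

end Pool.Agent.Lib.MP_b6945b_al.St
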