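import Pool.Agent.Lib.MP_b6945b_al.St.Order

set_option autoImplicit false

/-!
Central characters of separable symmetric algebras over an algebraically closed field.
-/

namespace Pool.Agent.Lib.MP_b6945b_al.St

variable {K : Type} [Field K] {V : ValuationSubring K} {A : Type} [Ring A] [Algebra K A]

/-- The trace of an endomorphism in terms of a frame. -/
lemma trace_frame [FiniteDimensional K A] {s : A →ₗ[K] K} {κ : Type} [Fintype κ] {β β' : κ → A}
    (hβ : IsFrame s ⊤ β β') (T : A →ₗ[K] A) :
    LinearMap.trace K A T = ∑ j, s (T (β j) * β' j) := by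
  have e : T = ∑ j, ((s ∘ₗ LinearMap.mulRight K (β' j)).smulRight (T (β j)) : A →ₗ[K] A) := by
    ext y
    conv_lhs => rw [← hβ.repro y trivial]
    simp [map_sum]
  conv_lhs => rw [e]
  rw [map_sum]
  exact Finset.sum_congr rfl (fun j _ => by rw [LinearMap.trace_smulRight]; simp)

/-- The relative trace as a linear map. -/
def chars_trL {κ : Type} [Fintype κ] (β β' : κ → A) : A →ₗ[K] A where
  toFun := trF β β'
  map_add' x y := by simp [trF, mul_add, add_mul, Finset.sum_add_distrib]
  map_smul' r x := by simp [trF, Finset.smul_sum]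

/-- The relative trace is self-adjoint. -/
lemma chars_trF_adj {s : A →ₗ[K] K} {κ : Type} [Fintype κ] {β β' : κ → A}
    (hβ : IsFrame s ⊤ β β') (x y : A) : s (trF β β' x * y) = s (x * trF β β' y) := by
  rw [← trF_swap hβ y]
  simp only [trF, Finset.sum_mul, Finset.mul_sum, map_sum]
  refine Finset.sum_congr rfl (fun j _ => ?_)
  rw [mul_assoc, mul_assoc, hβ.symm (β j) trivial _ trivial]
  simp only [mul_assoc]

lemma chars_trF_mem_center {s : A →ₗ[K] K} {κ : Type} [Fintype κ] {β β' : κ → A}
    (hβ : IsFrame s ⊤ β β') (y : A) : trF β β' y ∈ Subalgebra.center K A :=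
  Subalgebra.mem_center_iff.2 (fun b => trF_comm_top hβ y b)

lemma chars_trF_mul_center {κ : Type} [Fintype κ] (β β' : κ → A) (y : A)
    (z : Subalgebra.center K A) : trF β β' (y * z) = trF β β' y * z := by
  simp only [trF, Finset.sum_mul]
  refine Finset.sum_congr rfl (fun j _ => ?_)
  have := Subalgebra.mem_center_iff.1 z.2 (β' j)
  simp only [mul_assoc, this]

/-- `s (c H)` is the trace of `a ↦ Tr (c a)`, whose image lies in the centre, where it is
multiplication by `Tr c`. -/
lemma form_handle [FiniteDimensional K A] {s : A →ₗ[K] K} {κ : Type} [Fintype κ] {β β' : κ → A}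
    (hβ : IsFrame s ⊤ β β') (c : A) (ζ : Subalgebra.center K A) (h : (ζ : A) = trF β β' c) :
    s (c * handle β β') = Algebra.trace K (Subalgebra.center K A) ζ := by
  let T : A →ₗ[K] Subalgebra.center K A :=
    { toFun := fun a => ⟨trF β β' (c * a), chars_trF_mem_center hβ _⟩
      map_add' := fun x y => Subtype.ext (by
        change chars_trL (K := K) β β' (c * (x + y)) =
          chars_trL (K := K) β β' (c * x) + chars_trL (K := K) β β' (c * y)
        rw [mul_add, map_add])
      map_smul' := fun r x => Subtype.ext (by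
        change chars_trL (K := K) β β' (c * (r • x)) = r • chars_trL (K := K) β β' (c * x)
        rw [mul_smul_comm, map_smul]) }
  have h1 : T ∘ₗ (Subalgebra.center K A).val.toLinearMap =
      Algebra.lmul K (Subalgebra.center K A) ζ := by
    ext z
    change trF β β' (c * z) = (ζ : A) * z
    rw [h, chars_trF_mul_center]
  rw [Algebra.trace_apply, ← h1, LinearMap.trace_comp_comm', trace_frame hβ, handle,
    Finset.mul_sum, map_sum]
  refine Finset.sum_congr rfl (fun j _ => ?_)
  change _ = s (trF β β' (c * β j) * β' j)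
  rw [chars_trF_adj hβ, mul_assoc]

/-- The centre of a separable algebra is reduced: `s (ζ a)` is the trace of `y ↦ ζ a y c`, which
is nilpotent when `ζ` is. -/
lemma isReduced_center [FiniteDimensional K A] {s : A →ₗ[K] K} {κ : Type} [Fintype κ]
    {β β' : κ → A} (hβ : IsFrame s ⊤ β β') (hc : ∃ c, trF β β' c = 1) :
    IsReduced (Subalgebra.center K A) := by
  obtain ⟨c, hc⟩ := hc
  refine ⟨fun ζ hζ => Subtype.ext (hβ.nondeg trivial (fun a _ => ?_))⟩
  have hz := Subalgebra.mem_center_iff.1 ζ.2
  let L : Module.End K A := LinearMap.mulLeft K (ζ : A)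
  let M : Module.End K A := LinearMap.mulLeft K a ∘ₗ LinearMap.mulRight K c
  have hL : IsNilpotent L := by
    have := (hζ.map (Subalgebra.center K A).val).map (Algebra.lmul K A)
    exact this
  have hcomm : Commute L M := by
    ext y
    change (ζ : A) * (a * (y * c)) = a * ((ζ : A) * y * c)
    rw [← mul_assoc, ← hz a]
    simp only [mul_assoc]
  have h0 := (LinearMap.isNilpotent_trace_of_isNilpotent
    (hcomm.isNilpotent_mul_right hL)).eq_zero
  rw [trace_frame hβ] at h0
  rw [← h0, ← mul_one ((ζ : A) * a), ← hc, trF, Finset.mul_sum, map_sum]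
  refine Finset.sum_congr rfl (fun j _ => ?_)
  change _ = s ((ζ : A) * (a * (β j * c)) * β' j)
  simp only [mul_assoc]

/-- A reduced finite-dimensional commutative algebra over an algebraically closed field is split
(`IsArtinianRing.equivPi`, `IsAlgClosed.algebraMap_bijective_of_isIntegral`). -/
lemma exists_algEquiv_pi [IsAlgClosed K] (Z : Type) [CommRing Z] [Algebra K Z]
    [FiniteDimensional K Z] [IsReduced Z] :
    Nonempty (Z ≃ₐ[K] (Fin (Module.finrank K Z) → K)) := by
  classical
  have : IsArtinianRing Z := isArtinian_of_tower K inferInstance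
  have : Fintype (MaximalSpectrum Z) := Fintype.ofFinite _
  have hq : ∀ I : MaximalSpectrum Z, Nonempty ((Z ⧸ I.asIdeal) ≃ₐ[K] K) := fun I => by
    have := I.isMaximal
    exact ⟨(AlgEquiv.ofBijective (Algebra.ofId K (Z ⧸ I.asIdeal))
      IsAlgClosed.algebraMap_bijective_of_isIntegral).symm⟩
  let e : Z ≃ₐ[K] (MaximalSpectrum Z → K) :=
    ((IsArtinianRing.equivPi Z).restrictScalars K).trans
      (AlgEquiv.piCongrRight fun I => (hq I).some)
  have hn : Fintype.card (MaximalSpectrum Z) = Module.finrank K Z := by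
    rw [e.toLinearEquiv.finrank_eq, Module.finrank_fintype_fun_eq_card]
  exact ⟨e.trans (AlgEquiv.piCongrLeft' K (fun _ => K) (Fintype.equivFinOfCardEq hn))⟩

lemma chars_trace_pi {n : ℕ} (x : Fin n → K) : Algebra.trace K (Fin n → K) x = ∑ i, x i := by
  rw [Algebra.trace_eq_matrix_trace (Pi.basisFun K (Fin n)), Matrix.trace]
  refine Finset.sum_congr rfl (fun i _ => ?_)
  simp [Algebra.leftMulMatrix_eq_repr_mul]

theorem exists_chars_top [IsAlgClosed K] [FiniteDimensional K A] {s : A →ₗ[K] K} {κ : Type}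
    [Fintype κ] {β β' : κ → A} (hβ : IsFrame s ⊤ β β') (hc : ∃ c, trF β β' c = 1) :
    ∃ lam : Fin (Module.finrank K (Subalgebra.center K A)) → A →ₗ[K] K,
      Chars ⊤ s β β' lam ∧ ∀ ζ : Subalgebra.center K A,
        Algebra.trace K (Subalgebra.center K A) ζ = ∑ i, lam i ζ := by
  have := isReduced_center hβ hc
  obtain ⟨e⟩ := exists_algEquiv_pi (K := K) (Subalgebra.center K A)
  obtain ⟨r, hr⟩ := LinearMap.exists_leftInverse_of_injective
    (Subalgebra.center K A).val.toLinearMap (LinearMap.ker_eq_bot.2 Subtype.val_injective)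
  have hr' : ∀ z : Subalgebra.center K A, r (z : A) = z := fun z => LinearMap.congr_fun hr z
  let lam : Fin (Module.finrank K (Subalgebra.center K A)) → A →ₗ[K] K :=
    fun i => LinearMap.proj i ∘ₗ e.toLinearMap ∘ₗ r
  have hl : ∀ i (z : Subalgebra.center K A), lam i (z : A) = e z i := fun i z => by
    change e (r (z : A)) i = e z i
    rw [hr']
  have ht : ∀ ζ : Subalgebra.center K A,
      Algebra.trace K (Subalgebra.center K A) ζ = ∑ i, lam i ζ := fun ζ => by
    rw [← Algebra.trace_eq_of_algEquiv e, chars_trace_pi]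
    exact Finset.sum_congr rfl (fun i _ => (hl i ζ).symm)
  refine ⟨lam, ⟨fun i => ?_, fun i z z' hz hz' => ?_, fun c _ => ?_⟩, ht⟩
  · have := hl i 1
    rw [map_one] at this
    exact this
  · let ζ : Subalgebra.center K A :=
      ⟨z, Subalgebra.mem_center_iff.2 (fun b => (hz.2 b trivial).symm)⟩
    let ζ' : Subalgebra.center K A :=
      ⟨z', Subalgebra.mem_center_iff.2 (fun b => (hz'.2 b trivial).symm)⟩
    have h1 := hl i (ζ * ζ')
    rw [map_mul, Pi.mul_apply, ← hl, ← hl] at h1
    exact h1
  · rw [form_handle hβ c ⟨_, chars_trF_mem_center hβ c⟩ rfl, ht]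

/-- Apply `exists_chars_top` to the algebra `B` and extend the functionals to `A`. -/
theorem exists_chars [IsAlgClosed K] [FiniteDimensional K A] {s : A →ₗ[K] K}
    {B : Subalgebra K A} {ι : Type} [Fintype ι] {f f' : ι → A}
    (hf : IsFrame s B.toSubmodule f f') (hc : ∃ c ∈ B, trF f f' c = 1) :
    ∃ lam : Fin (Module.finrank K (Subalgebra.center K B)) → A →ₗ[K] K, Chars B s f f' lam := by
  obtain ⟨c, hcB, hc⟩ := hc
  let g : ι → B := fun i => ⟨f i, hf.mem i⟩
  let g' : ι → B := fun i => ⟨f' i, hf.mem' i⟩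
  let t : B →ₗ[K] K := s ∘ₗ B.val.toLinearMap
  have hg : IsFrame t ⊤ g g' :=
    ⟨fun _ => trivial, fun _ => trivial, fun x _ y _ => hf.symm x x.2 y y.2, fun y _ => by
      apply Subtype.ext
      rw [AddSubmonoidClass.coe_finsetSum]
      exact hf.repro y y.2⟩
  have htr : ∀ y : B, ((trF g g' y : B) : A) = trF f f' y := fun y => by
    rw [trF, AddSubmonoidClass.coe_finsetSum]
    rfl
  have hh : ((handle g g' : B) : A) = handle f f' := by
    rw [handle, AddSubmonoidClass.coe_finsetSum]
    refine Finset.sum_congr rfl (fun i _ => ?_)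
    rw [MulMemClass.coe_mul, htr]
  obtain ⟨mu, hmu, -⟩ := exists_chars_top (K := K) (A := B) hg
    ⟨⟨c, hcB⟩, Subtype.ext (by rw [htr]; exact hc)⟩
  obtain ⟨r, hr⟩ := LinearMap.exists_leftInverse_of_injective
    B.val.toLinearMap (LinearMap.ker_eq_bot.2 Subtype.val_injective)
  have hr' : ∀ z : B, r (z : A) = z := fun z => LinearMap.congr_fun hr z
  have hl : ∀ i (z : B), (mu i ∘ₗ r) (z : A) = mu i z := fun i z => by
    rw [LinearMap.comp_apply, hr']
  refine ⟨fun i => mu i ∘ₗ r, fun i => ?_, fun i z z' hz hz' => ?_, fun c hc => ?_⟩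
  · exact (hl i 1).trans (hmu.one i)
  · have h1 := hmu.mul i ⟨z, hz.1⟩ ⟨z', hz'.1⟩
      ⟨trivial, fun b _ => Subtype.ext (hz.2 b b.2)⟩
      ⟨trivial, fun b _ => Subtype.ext (hz'.2 b b.2)⟩
    rw [← hl, ← hl, ← hl] at h1
    exact h1
  · have h1 := hmu.handle ⟨c, hc⟩ trivial
    simp only [← hl, htr] at h1
    rw [← h1, ← hh]
    rfl

section

variable {O : Subring A} {s s' : A →ₗ[K] K} {B : Subalgebra K A} {ι : Type} [Fintype ι]
  {f f' : ι → A} {n : ℕ} {lam : Fin n → A →ₗ[K] K}

lemma chars_bcent_pow {z : A} (hz : BCent B z) (k : ℕ) : BCent B (z ^ k) :=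
  ⟨B.pow_mem hz.1 k, fun b hb => (Commute.pow_left (hz.2 b hb) k).eq⟩

lemma chars_pow (h : Chars B s' f f' lam) (i : Fin n) {z : A} (hz : BCent B z) (k : ℕ) :
    lam i (z ^ k) = lam i z ^ k := by
  induction k with
  | zero => rw [pow_zero, pow_zero, h.one]
  | succ k ih => rw [pow_succ, h.mul i _ _ (chars_bcent_pow hz k) hz, ih, pow_succ]

/-- Central characters take integral values (a monic equation of `z` is one of `lam i z`). -/
lemma Chars.mem (h : Chars B s' f f' lam) (hO : SymOrder V O s) (i : Fin n) {z : A}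
    (hz : BCent B z) (hzO : z ∈ O) : lam i z ∈ V := by
  obtain ⟨p, hp, hp0⟩ := hO.isIntegral hzO
  have hint : IsIntegral V (lam i z) := by
    refine ⟨p, hp, ?_⟩
    rw [Polynomial.eval₂_eq_sum_range] at hp0 ⊢
    have := congrArg (lam i) hp0
    rw [map_zero, map_sum] at this
    rw [← this]
    refine Finset.sum_congr rfl (fun k _ => ?_)
    rw [IsScalarTower.algebraMap_apply V K A, ← Algebra.smul_def (algebraMap V K (p.coeff k)),
      map_smul, chars_pow h i hz, smul_eq_mul]
  obtain ⟨y, hy⟩ := IsIntegrallyClosed.isIntegral_iff.1 hint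
  rw [← hy]
  exact y.2

/-- If `z ^ k = m • y` with `m ≠ 0` then `y` is central in `B` as well. -/
lemma Chars.nil (h : Chars B s' f f' lam) (hO : SymOrder V O s) (i : Fin n) {z : A}
    (hz : BCent B z) (hn : NilMod V O z) : lam i z ∈ V.nonunits := by
  obtain ⟨k, m, hm, y, hy, e⟩ := hn
  have hk : lam i z ^ k ∈ V.nonunits := by
    rw [← chars_pow h i hz, e, map_smul, smul_eq_mul]
    by_cases h0 : m = 0
    · rw [h0, zero_mul]; exact V.nonunits.zero_mem
    · have ey : y = m⁻¹ • z ^ k := by rw [e, smul_smul, inv_mul_cancel₀ h0, one_smul]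
      have hk := chars_bcent_pow hz k
      have hyc : BCent B y := by
        rw [ey]
        exact ⟨B.smul_mem hk.1 _, fun b hb => by
          rw [smul_mul_assoc, mul_smul_comm, hk.2 b hb]⟩
      have h1 := (V.valuation_le_one_iff _).2 (h.mem hO i hyc hy)
      rw [ValuationSubring.mem_nonunits_iff] at hm ⊢
      rw [map_mul]
      exact lt_of_le_of_lt (mul_le_of_le_one_right' h1) hm
  rw [ValuationSubring.mem_nonunits_iff] at hk ⊢
  rw [map_pow] at hk
  by_contra hc
  exact absurd (one_le_pow_of_one_le' (not_lt.1 hc) k) (not_le.2 hk)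

end

end Pool.Agent.Lib.MP_b6945b_al.St
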