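import Pool.Agent.Lib.MP_b6945b_al.St.Defs

set_option autoImplicit false

/-!
Integrality of a difference of logarithmic derivatives forces equality of the numbers of factors.
-/

namespace Pool.Agent.Lib.MP_b6945b_al.St

open PowerSeries

lemma endgame_th_prod {K : Type} [Field K] {ι : Type} (γ δ : ι → K⟦X⟧)
    (hδ : ∀ i, γ i * δ i = th (γ i)) (s : Finset ι) :
    th (∏ i ∈ s, γ i) = (∑ i ∈ s, δ i) * ∏ i ∈ s, γ i := by
  classical
  induction s using Finset.induction_on with
  | empty => simp [th_one]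
  | insert i s hi ih =>
    rw [Finset.prod_insert hi, Finset.sum_insert hi, th_mul, ih, ← hδ]
    ring

lemma endgame_fact {K : Type} [Field K] {V : ValuationSubring K} {F c : K⟦X⟧}
    (hF : coeff 0 F = 1) (hc : c ∈ VX V) (h : th F = c * F) (m : ℕ) :
    (m.factorial : K) * coeff m F ∈ V := by
  have hc0 : coeff 0 c = 0 := by
    have h1 := congrArg (coeff 0) h
    rw [coeff_th, coeff_zero_mul', hF] at h1
    simpa using h1.symm
  induction m using Nat.strong_induction_on with
  | _ m ih =>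
    rcases m with _ | m
    · simp [hF, one_mem]
    have h1 := congrArg (coeff (m + 1)) h
    rw [coeff_th, coeff_mul] at h1
    have h2 : ((m + 1).factorial : K) * coeff (m + 1) F =
        (m.factorial : K) * (((m + 1 : ℕ) : K) * coeff (m + 1) F) := by
      rw [Nat.factorial_succ]
      push_cast
      ring
    rw [h2, h1, Finset.mul_sum]
    refine sum_mem fun q hq => ?_
    have hq' := Finset.HasAntidiagonal.mem_antidiagonal.1 hq
    rcases Nat.eq_zero_or_pos q.1 with h0 | h0
    · rw [h0, hc0, zero_mul, mul_zero]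
      exact zero_mem _
    · obtain ⟨r, hr⟩ := Nat.factorial_dvd_factorial (show q.2 ≤ m by omega)
      have h3 : (m.factorial : K) * (coeff q.1 c * coeff q.2 F) =
          (r : K) * coeff q.1 c * ((q.2.factorial : K) * coeff q.2 F) := by
        rw [hr]
        push_cast
        ring
      rw [h3]
      exact mul_mem (mul_mem (natCast_mem V r) (hc q.1)) (ih q.2 (by omega))

lemma endgame_mul_mem {K : Type} [Field K] {V : ValuationSubring K} {x y : K}
    (hx : x ∈ V.nonunits) (hy : y ∈ V) : x * y ∈ V.nonunits := by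
  rw [ValuationSubring.mem_nonunits_iff] at hx ⊢
  rw [map_mul]
  exact lt_of_le_of_lt (mul_le_of_le_one_right' ((V.valuation_le_one_iff y).2 hy)) hx

lemma endgame_one_notMem {K : Type} [Field K] (V : ValuationSubring K) : (1 : K) ∉ V.nonunits := by
  rw [ValuationSubring.mem_nonunits_iff, map_one]
  exact lt_irrefl _

lemma endgame_inv_mem {K : Type} [Field K] {V : ValuationSubring K} {p : ℕ} (hp : p.Prime)
    (hpV : (p : K) ∈ V.nonunits) {u : ℕ} (hu : ¬ p ∣ u) : (u : K)⁻¹ ∈ V := by
  by_contra hcon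
  have h1 : (u : K) ∈ V.nonunits := V.mem_nonunits_iff_or.2 (Or.inr hcon)
  have h2 : IsCoprime (p : ℤ) (u : ℤ) :=
    Nat.isCoprime_iff_coprime.2 ((Nat.Prime.coprime_iff_not_dvd hp).2 hu)
  obtain ⟨a, b, hab⟩ := h2
  have h3 : (p : K) * (a : K) + (u : K) * (b : K) = 1 := by
    have := congrArg (fun z : ℤ => (z : K)) hab
    push_cast at this
    rw [← this]
    ring
  refine endgame_one_notMem V ?_
  rw [← h3]
  exact add_mem (endgame_mul_mem hpV (intCast_mem V a)) (endgame_mul_mem h1 (intCast_mem V b))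

lemma endgame_pow_mem {K : Type} [Field K] [CharZero K] {V : ValuationSubring K} {p : ℕ}
    (hp : p.Prime) (hpV : (p : K) ∈ V.nonunits) {m : ℕ} (hm : m ≠ 0) {x : K}
    (hx : (m.factorial : K) * x ∈ V) : (p : K) ^ m * x ∈ V.nonunits := by
  have := Fact.mk hp
  obtain ⟨e, u, hu, he⟩ := Nat.exists_eq_pow_mul_and_not_dvd m.factorial_ne_zero p hp.ne_one
  have h1 : e < m := by
    refine lt_of_le_of_lt ?_ (padicValNat_factorial_lt_of_ne_zero p hm)
    exact (padicValNat_dvd_iff_le m.factorial_ne_zero).1 ⟨u, he⟩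
  obtain ⟨r, rfl⟩ := Nat.exists_eq_add_of_lt h1
  have hu0 : (u : K) ≠ 0 := Nat.cast_ne_zero.2 fun h => hu (h ▸ dvd_zero p)
  have h2 : (p : K) ^ (e + r + 1) * x =
      (p : K) * ((p : K) ^ r * (u : K)⁻¹ * (((e + r + 1).factorial : K) * x)) := by
    rw [he]
    push_cast
    field_simp
    ring
  rw [h2]
  exact endgame_mul_mem hpV
    (mul_mem (mul_mem (pow_mem (natCast_mem V p) r) (endgame_inv_mem hp hpV hu)) hx)

lemma endgame_lift {K : Type} [Field K] {V : ValuationSubring K} (G : K⟦X⟧) (u : ℕ → V)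
    (h : ∀ m, coeff m G - (u m : K) ∈ V.nonunits) :
    ∃ G' : V⟦X⟧, PowerSeries.map V.subtype G' = G ∧
      PowerSeries.map (IsLocalRing.residue V) G' = mk fun m => IsLocalRing.residue V (u m) := by
  have hm : ∀ m, coeff m G ∈ V := fun m => by
    have := add_mem (V.nonunits_subset (h m)) (u m).2
    rwa [sub_add_cancel] at this
  refine ⟨mk fun m => ⟨coeff m G, hm m⟩, ?_, ?_⟩
  · ext m
    rw [coeff_map, coeff_mk]
    rfl
  · ext m
    rw [coeff_map, coeff_mk, coeff_mk, ← sub_eq_zero, ← map_sub, IsLocalRing.residue_eq_zero_iff,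
      ← ValuationSubring.coe_mem_nonunits_iff]
    exact h m

lemma endgame_pow_eq_one {k : Type} [Field k] {p : ℕ} (hp : p.Prime) (hk : (p : k) = 0)
    {w : k⟦X⟧} (h0 : constantCoeff w = 1) (h1 : coeff 1 w ≠ 0) (n : ℕ) (hn : w ^ n = 1) :
    n = 0 := by
  have := Fact.mk hp
  have : CharP k p := (CharP.charP_iff_prime_eq_zero hp).2 hk
  have : CharP k⟦X⟧ p := (CharP.charP_iff_prime_eq_zero hp).2 (by
    rw [← map_natCast (C : k →+* k⟦X⟧), hk, map_zero])
  induction n using Nat.strong_induction_on with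
  | _ n ih =>
    by_contra hn0
    have h2 := congrArg (coeff 1) hn
    rw [coeff_one_pow, h0, one_pow, mul_one, coeff_one, if_neg one_ne_zero] at h2
    have h3 : (n : k) = 0 := (mul_eq_zero.1 h2).resolve_right h1
    obtain ⟨n', rfl⟩ := (CharP.cast_eq_zero_iff k p n).1 h3
    have h4 : (w ^ n' - 1) ^ p = 0 := by
      rw [sub_pow_char, one_pow, ← pow_mul, mul_comm n' p, hn, sub_self]
    have h5 : w ^ n' = 1 := sub_eq_zero.1 (pow_eq_zero_iff hp.ne_zero |>.1 h4)
    have h6 : n' ≠ 0 := fun h => hn0 (by rw [h, mul_zero])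
    exact h6 (ih n' (lt_mul_of_one_lt_left (Nat.pos_of_ne_zero h6) hp.one_lt) h5)

lemma endgame_pow_inj {k : Type} [Field k] {p : ℕ} (hp : p.Prime) (hk : (p : k) = 0)
    {w : k⟦X⟧} (h0 : constantCoeff w = 1) (h1 : coeff 1 w ≠ 0) {a b : ℕ} (h : w ^ a = w ^ b) :
    a = b := by
  have hw : w ≠ 0 := fun hw => h1 (by rw [hw, map_zero])
  have key : ∀ a b : ℕ, a ≤ b → w ^ a = w ^ b → a = b := by
    intro a b hab h
    obtain ⟨n, rfl⟩ := Nat.exists_eq_add_of_le hab
    have h2 : w ^ a * w ^ n = w ^ a * 1 := by rw [← pow_add, ← h, mul_one]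
    have h3 := endgame_pow_eq_one hp hk h0 h1 n (mul_left_cancel₀ (pow_ne_zero a hw) h2)
    omega
  rcases le_total a b with hab | hab
  · exact key a b hab h
  · exact (key b a hab h.symm).symm

/-- Put `F = ∏ γ * (∏ γ')⁻¹`, `c = ∑ δ - ∑ δ'`; then `th F = c F`, `coeff 0 c = 0`, so
`m F_m = ∑_{j ≥ 1} c_j F_{m - j}` and `m ! F_m ∈ V` by induction.  As `p ^ m / m !` lies in the
maximal ideal for `m ≥ 1` (`Nat.Prime.sub_one_mul_padicValNat_factorial` or
`Nat.Prime.emultiplicity_factorial_lt`-type bounds), `rescale p F` is `1` modulo the maximal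
ideal.  Reduce `∏ rescale p γ = rescale p F * ∏ rescale p γ'` to the residue field `k`:
`w ^ a = w ^ b` for `w = ∑ v_m x ^ m`, constant term `1`, linear term nonzero.  In the domain
`k⟦X⟧` of characteristic `p`, `w ^ n = 1` with `n = p ^ e n'` gives `w ^ n' = 1`, whose linear
term `n' v_1` is nonzero unless `n = 0`. -/
theorem endgame {K : Type} [Field K] [CharZero K] {V : ValuationSubring K} {p : ℕ} (hp : p.Prime)
    (hpV : (p : K) ∈ V.nonunits) {a b : ℕ} (γ δ : Fin a → K⟦X⟧) (γ' δ' : Fin b → K⟦X⟧)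
    (h0 : ∀ i, coeff 0 (γ i) = 1) (h0' : ∀ j, coeff 0 (γ' j) = 1)
    (hδ : ∀ i, γ i * δ i = th (γ i)) (hδ' : ∀ j, γ' j * δ' j = th (γ' j))
    (v : ℕ → K) (hv : ∀ m, v m ∈ V) (hv1 : v 1 ∉ V.nonunits)
    (hγ : ∀ i m, (p : K) ^ m * coeff m (γ i) - v m ∈ V.nonunits)
    (hγ' : ∀ j m, (p : K) ^ m * coeff m (γ' j) - v m ∈ V.nonunits)
    (hint : ∑ i, δ i - ∑ j, δ' j ∈ VX V) : a = b := by
  by_contra hab
  have hv0 : 1 - v 0 ∈ V.nonunits := by
    rcases Nat.eq_zero_or_pos a with ha | ha
    · have hb : 0 < b := by omega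
      have := hγ' ⟨0, hb⟩ 0
      rwa [pow_zero, one_mul, h0'] at this
    · have := hγ ⟨0, ha⟩ 0
      rwa [pow_zero, one_mul, h0] at this
  have hP0 : constantCoeff (∏ i, γ i) = 1 := by
    rw [map_prod]
    exact Finset.prod_eq_one fun i _ => by rw [← coeff_zero_eq_constantCoeff_apply, h0]
  have hQ0 : constantCoeff (∏ j, γ' j) = 1 := by
    rw [map_prod]
    exact Finset.prod_eq_one fun i _ => by rw [← coeff_zero_eq_constantCoeff_apply, h0']
  have hQ : (∏ j, γ' j) ≠ 0 := fun h => by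
    rw [h, map_zero] at hQ0
    exact zero_ne_one hQ0
  obtain ⟨F, hF⟩ : ∃ F : K⟦X⟧, F * ∏ j, γ' j = ∏ i, γ i :=
    ⟨(∏ i, γ i) * (∏ j, γ' j)⁻¹, by
      rw [mul_assoc, PowerSeries.inv_mul_cancel _ (by rw [hQ0]; exact one_ne_zero), mul_one]⟩
  have hF0 : coeff 0 F = 1 := by
    have := congrArg constantCoeff hF
    rwa [map_mul, hP0, hQ0, mul_one, ← coeff_zero_eq_constantCoeff_apply] at this
  have hth : th F = (∑ i, δ i - ∑ j, δ' j) * F := by
    apply mul_right_cancel₀ hQ
    have h1 := congrArg th hF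
    rw [th_mul, endgame_th_prod γ δ hδ, endgame_th_prod γ' δ' hδ', ← hF] at h1
    linear_combination h1
  obtain ⟨F', hF1, hF2⟩ := endgame_lift (V := V) (rescale (p : K) F)
    (fun m => if m = 0 then 1 else 0) (fun m => by
      rw [coeff_rescale]
      split_ifs with hm
      · rw [hm, pow_zero, one_mul, hF0]
        simp [zero_mem]
      · rw [ZeroMemClass.coe_zero, sub_zero]
        exact endgame_pow_mem hp hpV hm (endgame_fact hF0 hint hth m))
  choose G hG1 hG2 using fun i => endgame_lift (V := V) (rescale (p : K) (γ i))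
    (fun m => ⟨v m, hv m⟩) (fun m => by
      rw [coeff_rescale]
      exact hγ i m)
  choose G' hG1' hG2' using fun j => endgame_lift (V := V) (rescale (p : K) (γ' j))
    (fun m => ⟨v m, hv m⟩) (fun m => by
      rw [coeff_rescale]
      exact hγ' j m)
  have h1 : F' * ∏ j, G' j = ∏ i, G i := by
    apply PowerSeries.map_injective V.subtype Subtype.val_injective
    rw [map_mul, map_prod, map_prod, hF1]
    simp only [hG1, hG1']
    rw [← map_prod, ← map_prod, ← map_mul, hF]
  have h2 := congrArg (PowerSeries.map (IsLocalRing.residue V)) h1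
  have h3 : (mk fun m => IsLocalRing.residue V (if m = 0 then 1 else 0) :
      (IsLocalRing.ResidueField V)⟦X⟧) = 1 := by
    ext m
    rw [coeff_mk, coeff_one]
    split_ifs
    · exact map_one _
    · exact map_zero _
  rw [map_mul, map_prod, map_prod, hF2, h3, one_mul] at h2
  simp only [hG2, hG2', Finset.prod_const, Finset.card_univ, Fintype.card_fin] at h2
  refine hab (endgame_pow_inj hp ?_ ?_ ?_ h2).symm
  · rw [← map_natCast (IsLocalRing.residue V), IsLocalRing.residue_eq_zero_iff,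
      ← ValuationSubring.coe_mem_nonunits_iff]
    simpa using hpV
  · rw [← coeff_zero_eq_constantCoeff_apply, coeff_mk, eq_comm, ← sub_eq_zero,
      ← map_one (IsLocalRing.residue V), ← map_sub, IsLocalRing.residue_eq_zero_iff,
      ← ValuationSubring.coe_mem_nonunits_iff]
    exact hv0
  · rw [coeff_mk, Ne, IsLocalRing.residue_eq_zero_iff, ← ValuationSubring.coe_mem_nonunits_iff]
    exact hv1

end Pool.Agent.Lib.MP_b6945b_al.St
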