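import Pool.Agent.Lib.MP_b6945b_al.St.Order
import Pool.Agent.Lib.MP_b6945b_al.St.Rat

set_option autoImplicit false

/-!
Lifting frames and Higman data to the deformation.
-/

namespace Pool.Agent.Lib.MP_b6945b_al.St

open PowerSeries

section Gen

variable {R A : Type} [CommRing R] [Ring A] [Algebra R A] {ι : Type} [Fintype ι]

/-- The two-sided trace as a linear map. -/
def liftTr (f f' : ι → A) (a : A →ₗ[R] A) : A →ₗ[R] A where
  toFun y := trB f f' a y
  map_add' x y := by simp [trB, mul_add, add_mul, Finset.sum_add_distrib]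
  map_smul' r y := by simp [trB, Finset.smul_sum]

/-- The projection onto the complement. -/
def liftQ (s : A →ₗ[R] R) (f f' : ι → A) : A →ₗ[R] A := LinearMap.id - prB s f f'

/-- The operator that is inverted. -/
def liftT (s : A →ₗ[R] R) (f f' : ι → A) (a : A →ₗ[R] A) : A →ₗ[R] A :=
  liftQ s f f' ∘ₗ liftTr f f' a ∘ₗ liftQ s f f' + prB s f f'

lemma liftQ_apply (s : A →ₗ[R] R) (f f' : ι → A) (y : A) :
    liftQ s f f' y = y - prB s f f' y := rfl

lemma liftT_apply (s : A →ₗ[R] R) (f f' : ι → A) (a : A →ₗ[R] A) (y : A) :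
    liftT s f f' a y = liftQ s f f' (trB f f' a (liftQ s f f' y)) + prB s f f' y := rfl

variable {s : A →ₗ[R] R} {B : Subalgebra R A} {f f' : ι → A}

lemma lift_trB_bimod (h : IsFrame s B.toSubmodule f f') (a : A →ₗ[R] A) (y : A) {b b' : A}
    (hb : b ∈ B) (hb' : b' ∈ B) : trB f f' a (b * y * b') = b * trB f f' a y * b' := by
  have h1 : ∀ y, trB f f' a (b * y) = b * trB f f' a y := by
    intro y
    have := h.slideB_left (F := fun x x' => ∑ j, x * a (x' * y * f' j) * f j)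
      (by constructor <;> intros <;>
        simp [mul_add, add_mul, Finset.sum_add_distrib, Finset.smul_sum]) hb
    simp only [trB, Finset.mul_sum, mul_assoc] at this ⊢
    exact this.symm
  have h2 : ∀ y, trB f f' a (y * b') = trB f f' a y * b' := by
    intro y
    have := h.slideB_right (F := fun x x' => ∑ i, f i * a (f' i * y * x') * x)
      (by constructor <;> intros <;>
        simp [mul_add, add_mul, Finset.sum_add_distrib, Finset.smul_sum]) hb'
    rw [trB, trB, Finset.sum_comm, Finset.sum_comm (f := fun i j => f i * a (f' i * y * f' j) * f j)]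
    simp only [Finset.sum_mul, mul_assoc] at this ⊢
    exact this.symm
  rw [h2, h1]

lemma liftQ_perp (h : IsFrame s B.toSubmodule f f') (y : A) {b : A} (hb : b ∈ B) :
    s (liftQ s f f' y * b) = 0 := by
  rw [liftQ_apply, sub_mul, map_sub, form_prB h y hb, sub_self]

lemma lift_prB_liftQ (h : IsFrame s B.toSubmodule f f') (y : A) :
    prB s f f' (liftQ s f f' y) = 0 := prB_eq_zero h fun _ hb => liftQ_perp h y hb

lemma liftQ_bimod (hs : ∀ x y, s (x * y) = s (y * x)) (h : IsFrame s B.toSubmodule f f') (y : A)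
    {b b' : A} (hb : b ∈ B) (hb' : b' ∈ B) :
    liftQ s f f' (b * y * b') = b * liftQ s f f' y * b' := by
  rw [liftQ_apply, liftQ_apply, prB_bimod hs h y hb hb', mul_sub, sub_mul]

lemma lift_hig (hs : ∀ x y, s (x * y) = s (y * x)) (h : IsFrame s B.toSubmodule f f')
    (a T' : A →ₗ[R] A) (h1 : ∀ y, liftT s f f' a (T' y) = y) (h2 : ∀ y, T' (liftT s f f' a y) = y) :
    Hig s B f f' (liftQ s f f' ∘ₗ a ∘ₗ T' ∘ₗ liftQ s f f') := by
  have hT : ∀ y b b', b ∈ B → b' ∈ B →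
      liftT s f f' a (b * y * b') = b * liftT s f f' a y * b' := by
    intro y b b' hb hb'
    rw [liftT_apply, liftT_apply, liftQ_bimod hs h y hb hb', lift_trB_bimod h a _ hb hb',
      liftQ_bimod hs h _ hb hb', prB_bimod hs h y hb hb', mul_add, add_mul]
  have hT' : ∀ y b b', b ∈ B → b' ∈ B → T' (b * y * b') = b * T' y * b' := by
    intro y b b' hb hb'
    conv_lhs => rw [← h1 y, ← hT _ b b' hb hb', h2]
  refine ⟨hs, h, fun y b hb => liftQ_perp h _ hb, fun b hb => ?_, fun y hy => ?_⟩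
  · simp only [LinearMap.comp_apply]
    rw [liftQ_apply s f f' b, prB_of_mem h hb, sub_self, map_zero, map_zero, map_zero]
  · have p0 : prB s f f' y = 0 := prB_eq_zero h hy
    have p1 : prB s f f' (T' y) = 0 := by
      have := congrArg (prB s f f') (h1 y)
      rwa [liftT_apply, map_add, lift_prB_liftQ h, zero_add, prB_of_mem h (prB_mem h _), p0] at this
    have q0 : liftQ s f f' y = y := by rw [liftQ_apply, p0, sub_zero]
    have q1 : liftQ s f f' (T' y) = T' y := by rw [liftQ_apply, p1, sub_zero]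
    have e := h1 y
    rw [liftT_apply, q1, p1, add_zero, trB, map_sum] at e
    rw [← e, trB]
    refine Finset.sum_congr rfl fun i _ => ?_
    rw [map_sum]
    refine Finset.sum_congr rfl fun j _ => ?_
    simp only [LinearMap.comp_apply]
    rw [e, liftQ_bimod hs h y (h.mem' i) (h.mem' j), q0, hT' y _ _ (h.mem' i) (h.mem' j),
      liftQ_bimod hs h _ (h.mem i) (h.mem j)]

end Gen

variable {K : Type} [Field K] {V : ValuationSubring K} {A : Type} [Ring A] [Algebra K A]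
  {O : Subring A} {s : A →ₗ[K] K} {Λ : Subring A⟦X⟧} {g : A⟦X⟧}

lemma lift_prB_mem (hD : Deform V O s Λ g) {ι : Type} [Fintype ι] {F F' : ι → A⟦X⟧}
    (hF : ∀ i, F i ∈ Λ) (hF' : ∀ i, F' i ∈ Λ) {y : A⟦X⟧} (hy : y ∈ Λ) :
    prB (st s g) F F' y ∈ Λ := by
  rw [prB_apply]
  exact Λ.sum_mem fun i _ => hD.smul_mem _ (hD.form_mem _ (Λ.mul_mem hy (hF' i))) _ (hF i)

lemma lift_coeff_prB (hD : Deform V O s Λ g) {ι : Type} [Fintype ι] {F F' : ι → A⟦X⟧}
    {f f' : ι → A} (h0 : ∀ i, coeff 0 (F i) = f i) (h0' : ∀ i, coeff 0 (F' i) = f' i)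
    (y : A⟦X⟧) : coeff 0 (prB (st s g) F F' y) = prB s f f' (coeff 0 y) := by
  rw [prB_apply, prB_apply, map_sum]
  refine Finset.sum_congr rfl fun i _ => ?_
  rw [coeff_zero_ps_smul, hD.coeff_zero_st, coeff_zero_mul', h0, h0']

/-- Frames of a subalgebra lift.  With lifts `G, G'` in `Λ ∩ coefAlg B` put
`T y = ∑ st (y G' i) • G i`; `T + (1 - ext (prB s f f'))` is the identity modulo `t`, agrees with
`T` on `coefAlg B` and preserves `Λ ∩ coefAlg B`; take `F i = T⁻¹ (G i)` (`exists_neumann`). -/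
theorem exists_lift_frame (hD : Deform V O s Λ g) {B : Subalgebra K A} {ι : Type} [Fintype ι]
    {f f' : ι → A} (hfr : IsFrame s B.toSubmodule f f') (hf : ∀ i, f i ∈ O)
    (hf' : ∀ i, f' i ∈ O) (hl : ∀ b ∈ B, b ∈ O → ∃ F ∈ Λ, coeff 0 F = b ∧ F ∈ coefAlg B) :
    ∃ F F' : ι → A⟦X⟧, (∀ i, F i ∈ Λ) ∧ (∀ i, F' i ∈ Λ) ∧ (∀ i, coeff 0 (F i) = f i) ∧
      (∀ i, coeff 0 (F' i) = f' i) ∧ IsFrame (st s g) (coefAlg B).toSubmodule F F' := by
  choose G hG hG0 hGB using fun i => hl (f i) (hfr.mem i) (hf i)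
  choose G' hG' hG0' hGB' using fun i => hl (f' i) (hfr.mem' i) (hf' i)
  let T : A⟦X⟧ →ₗ[K⟦X⟧] A⟦X⟧ := prB (st s g) G G' + (LinearMap.id - ext (prB s f f'))
  have hT : ∀ y, T y = prB (st s g) G G' y + (y - ext (prB s f f') y) := fun y => rfl
  have hTB : ∀ y ∈ coefAlg B, T y = prB (st s g) G G' y := by
    intro y hy
    have : ext (prB s f f') y = y := by
      ext n
      rw [coeff_ext, prB_of_mem hfr (mem_coefAlg.1 hy n)]
    rw [hT, this, sub_self, add_zero]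
  obtain ⟨T', -, h2, h3, h4⟩ := exists_neumann T fun y => by
    rw [hT, map_add, map_sub, lift_coeff_prB hD hG0 hG0', coeff_ext, add_sub_cancel]
  have h5 := h4 (Λ.toAddSubgroup ⊓ (coefAlg B).toSubring.toAddSubgroup)
    (hD.closed.inter (closed_coeff fun _ a => a ∈ B)) fun y hy => by
      rw [hTB y hy.2]
      refine ⟨lift_prB_mem hD hG hG' hy.1, ?_⟩
      change _ ∈ coefAlg B
      rw [prB_apply]
      exact (coefAlg B).sum_mem fun i _ => (coefAlg B).smul_mem (hGB i) _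
  refine ⟨fun i => T' (G i), G', fun i => (h5 _ ⟨hG i, hGB i⟩).1, hG', fun i => ?_, hG0',
    fun i => (h5 _ ⟨hG i, hGB i⟩).2, hGB', fun x _ y _ => hD.st_symm x y, fun y hy => ?_⟩
  · rw [h3, hG0]
  · have := h2 y
    rw [hTB y hy, prB_apply, map_sum] at this
    simpa only [map_smul] using this

/-- Higman data lift.  Let `pr = prB (st s g) F F'`, `q = 1 - pr`, `a₀` a lift of `α`
(`Deform.exists_lift_map`).  `T = q ∘ trB F F' a₀ ∘ q + pr` is a `coefAlg B`-bimodule map, the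
identity modulo `t`, preserves `Λ` and the kernel of `pr`; take `a = q ∘ a₀ ∘ T⁻¹ ∘ q`. -/
theorem exists_lift (hD : Deform V O s Λ g) {B : Subalgebra K A} {ι : Type} [Fintype ι]
    {f f' : ι → A} {α : A →ₗ[K] A} (hH : Hig s B f f' α) (hf : ∀ i, f i ∈ O)
    (hf' : ∀ i, f' i ∈ O) (hα : ∀ a ∈ O, α a ∈ O)
    (hl : ∀ b ∈ B, b ∈ O → ∃ F ∈ Λ, coeff 0 F = b ∧ F ∈ coefAlg B) :
    ∃ (F F' : ι → A⟦X⟧) (a : A⟦X⟧ →ₗ[K⟦X⟧] A⟦X⟧), (∀ i, F i ∈ Λ) ∧ (∀ i, F' i ∈ Λ) ∧
      (∀ y ∈ Λ, a y ∈ Λ) ∧ (∀ i, coeff 0 (F i) = f i) ∧ (∀ i, coeff 0 (F' i) = f' i) ∧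
      Hig (st s g) (coefAlg B) F F' a := by
  obtain ⟨F, F', hF, hF', h0, h0', hfr⟩ := exists_lift_frame hD hH.frame hf hf' hl
  obtain ⟨a₀, ha, ha0⟩ := hD.exists_lift_map α hα
  have hQ : ∀ y ∈ Λ, liftQ (st s g) F F' y ∈ Λ := fun y hy =>
    Λ.sub_mem hy (lift_prB_mem hD hF hF' hy)
  have hQ0 : ∀ y, coeff 0 (liftQ (st s g) F F' y) = liftQ s f f' (coeff 0 y) := fun y => by
    rw [liftQ_apply, liftQ_apply, map_sub, lift_coeff_prB hD h0 h0']
  have hR0 : ∀ y, coeff 0 (trB F F' a₀ y) = trB f f' α (coeff 0 y) := fun y => by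
    simp only [trB, map_sum, coeff_zero_mul', ha0, h0, h0']
  obtain ⟨T', h1, h2, -, h4⟩ := exists_neumann (liftT (st s g) F F' a₀) fun y => by
    rw [liftT_apply, map_add, hQ0, hR0, hQ0, lift_coeff_prB hD h0 h0',
      hH.hig _ fun b hb => liftQ_perp hH.frame _ hb, liftQ_apply, lift_prB_liftQ hH.frame,
      sub_zero, liftQ_apply, sub_add_cancel]
  have h5 := h4 Λ.toAddSubgroup hD.closed fun y hy => by
    rw [liftT_apply]
    refine Λ.add_mem (hQ _ ?_) (lift_prB_mem hD hF hF' hy)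
    exact Λ.sum_mem fun i _ => Λ.sum_mem fun j _ => Λ.mul_mem (Λ.mul_mem (hF i)
      (ha _ (Λ.mul_mem (Λ.mul_mem (hF' i) (hQ y hy)) (hF' j)))) (hF j)
  exact ⟨F, F', liftQ (st s g) F F' ∘ₗ a₀ ∘ₗ T' ∘ₗ liftQ (st s g) F F', hF, hF',
    fun y hy => hQ _ (ha _ (h5 _ (hQ y hy))), h0, h0',
    lift_hig hD.st_symm hfr a₀ T' h1 h2⟩

end Pool.Agent.Lib.MP_b6945b_al.St
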