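import Pool.Agent.Lib.MP_b6945b_al.St.Frame

set_option autoImplicit false

/-!
The cyclic identity for a subalgebra with projective orthogonal complement.
-/

namespace Pool.Agent.Lib.MP_b6945b_al.St

variable {R A Q : Type} [CommRing R] [Ring A] [Algebra R A] [AddCommGroup Q] [Module R Q]
  {ι κ : Type} [Fintype ι] [Fintype κ]

/-- Relative traces kill derivations: sum `hφ (β a) β' x` and slide `x`. -/
theorem phi_tr {s : A →ₗ[R] R} {β β' : κ → A} (hβ : IsFrame s ⊤ β β')
    (φ : A →ₗ[R] A →ₗ[R] Q) (hφ : ∀ w x y, φ w (x * y) = φ (y * w) x + φ (w * x) y) (a x : A) :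
    φ (trF β β' a) x = 0 := by
  have h1 := hβ.slideA_left (F := fun u v => φ (u * a) v)
    (by constructor <;> intros <;> simp [add_mul]) x
  have h2 : ∑ i, φ (β i * a) (β' i * x) =
      ∑ i, φ (x * β i * a) (β' i) + ∑ i, φ (β i * a * β' i) x := by
    rw [← Finset.sum_add_distrib]
    exact Finset.sum_congr rfl fun i _ => by rw [hφ, mul_assoc x]
  rw [h1] at h2
  rw [trF, map_sum, LinearMap.sum_apply]
  exact left_eq_add.mp h2

/-- The orthogonal complement of `B`. -/
def l1P (s : A →ₗ[R] R) (B : Subalgebra R A) : Submodule R A where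
  carrier := {y | ∀ b ∈ B, s (y * b) = 0}
  add_mem' := fun {x y} hx hy b hb => by rw [add_mul, map_add, hx b hb, hy b hb, add_zero]
  zero_mem' := fun b _ => by rw [zero_mul, map_zero]
  smul_mem' := fun r y hy b hb => by rw [smul_mul_assoc, map_smul, hy b hb, smul_zero]

/-- The projection onto the orthogonal complement. -/
def l1q (s : A →ₗ[R] R) (f f' : ι → A) : A →ₗ[R] A where
  toFun y := y - ∑ i, s (y * f' i) • f i
  map_add' x y := by
    simp only [add_mul, map_add, add_smul, Finset.sum_add_distrib]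
    abel
  map_smul' r x := by
    simp only [smul_mul_assoc, map_smul, smul_eq_mul, mul_smul, RingHom.id_apply, smul_sub,
      Finset.smul_sum]

/-- The trilinear map `L`. -/
def l1L (φ : A →ₗ[R] A →ₗ[R] Q) (α : A →ₗ[R] A) (f f' : ι → A) : A →ₗ[R] A →ₗ[R] A →ₗ[R] Q :=
  LinearMap.mk₂ R (fun u y => ∑ a, ∑ b,
    φ.flip (u * f a) ∘ₗ LinearMap.mulLeft R (α (f' a * y * f' b) * f b))
    (by intros; ext; simp [add_mul, Finset.sum_add_distrib])
    (by intros; ext; simp [Finset.smul_sum])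
    (by intros; ext; simp [add_mul, mul_add, Finset.sum_add_distrib, mul_assoc])
    (by intros; ext; simp [Finset.smul_sum, mul_assoc])

lemma l1L_apply (φ : A →ₗ[R] A →ₗ[R] Q) (α : A →ₗ[R] A) (f f' : ι → A) (u y v : A) :
    l1L φ α f f' u y v = ∑ a, ∑ b, φ (α (f' a * y * f' b) * f b * v) (u * f a) := by
  simp [l1L, mul_assoc]

/-- The trilinear map `W`. -/
def l1W (L : A →ₗ[R] A →ₗ[R] A →ₗ[R] Q) : A →ₗ[R] A →ₗ[R] A →ₗ[R] Q :=
  LinearMap.mk₂ R (fun u y => L u y - L 1 u ∘ₗ LinearMap.mulLeft R y)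
    (by intros; ext; simp; abel)
    (by intros; ext; simp [smul_sub])
    (by intros; ext; simp [add_mul]; abel)
    (by intros; ext; simp [smul_sub])

lemma l1W_apply (L : A →ₗ[R] A →ₗ[R] A →ₗ[R] Q) (u y v : A) :
    l1W L u y v = L u y v - L 1 u (y * v) := rfl

/-- Balanced four-linear functions. -/
structure L1Bal (B : Subalgebra R A) (P : Submodule R A) (G : A → A → A → A → Q) : Prop where
  a1 : ∀ x x' b c d, G (x + x') b c d = G x b c d + G x' b c d
  a2 : ∀ x x' a c d, G a (x + x') c d = G a x c d + G a x' c d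
  a3 : ∀ x x' a b d, G a b (x + x') d = G a b x d + G a b x' d
  a4 : ∀ x x' a b c, G a b c (x + x') = G a b c x + G a b c x'
  s1 : ∀ (r : R) x b c d, G (r • x) b c d = r • G x b c d
  s2 : ∀ (r : R) x a c d, G a (r • x) c d = r • G a x c d
  s3 : ∀ (r : R) x a b d, G a b (r • x) d = r • G a b x d
  s4 : ∀ (r : R) x a b c, G a b c (r • x) = r • G a b c x
  b1 : ∀ z ∈ B, ∀ a ∈ P, ∀ b ∈ P, ∀ c ∈ P, ∀ d ∈ P, G (a * z) b c d = G a (z * b) c d
  b2 : ∀ z ∈ B, ∀ a ∈ P, ∀ b ∈ P, ∀ c ∈ P, ∀ d ∈ P, G a (b * z) c d = G a b (z * c) d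
  b3 : ∀ z ∈ B, ∀ a ∈ P, ∀ b ∈ P, ∀ c ∈ P, ∀ d ∈ P, G a b (c * z) d = G a b c (z * d)
  b4 : ∀ z ∈ B, ∀ a ∈ P, ∀ b ∈ P, ∀ c ∈ P, ∀ d ∈ P, G (z * a) b c d = G a b c (d * z)

lemma L1Bal.rot {B : Subalgebra R A} {P : Submodule R A} {G : A → A → A → A → Q}
    (h : L1Bal B P G) : L1Bal B P fun a b c d => G b c d a where
  a1 _ _ _ _ _ := h.a4 ..
  a2 _ _ _ _ _ := h.a1 ..
  a3 _ _ _ _ _ := h.a2 ..
  a4 _ _ _ _ _ := h.a3 ..
  s1 _ _ _ _ _ := h.s4 ..
  s2 _ _ _ _ _ := h.s1 ..
  s3 _ _ _ _ _ := h.s2 ..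
  s4 _ _ _ _ _ := h.s3 ..
  b1 z hz a ha b hb c hc d hd := (h.b4 z hz b hb c hc d hd a ha).symm
  b2 z hz a ha b hb c hc d hd := h.b1 z hz b hb c hc d hd a ha
  b3 z hz a ha b hb c hc d hd := h.b2 z hz b hb c hc d hd a ha
  b4 z hz a ha b hb c hc d hd := (h.b3 z hz b hb c hc d hd a ha).symm

variable (Q) in
/-- Higman pairs. -/
structure L1Pair (P : Submodule R A) (f f' : ι → A) (e e' p r : κ → A) : Prop where
  mp : ∀ t, p t ∈ P
  mr : ∀ t, r t ∈ P
  exp : ∀ F : A → A → Q, IsBilin R F →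
    ∑ j, F (e j) (e' j) = ∑ t, ∑ a, ∑ b, F (f a * p t * f b) (f' b * r t * f' a)

/-- Evaluation of a four-linear function. -/
def l1ev (f f' : ι → A) (e e' p r : κ → A) (G : A → A → A → A → Q) : Q :=
  ∑ t, ∑ h, ∑ j, G (p t * f h) (e j) (f' h * r t) (e' j)

/-- The sum `ℓ`. -/
def l1ell (W : A →ₗ[R] A →ₗ[R] A →ₗ[R] Q) (f f' : ι → A) (p r : κ → A) : Q :=
  ∑ t, ∑ h, ∑ a, W (p t * f h * f a) (f' h * r t * f' a) 1

section main

variable {s : A →ₗ[R] R} {B : Subalgebra R A} {f f' : ι → A} {α : A →ₗ[R] A}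
  {φ : A →ₗ[R] A →ₗ[R] Q} {e e' p r p' r' : κ → A}

lemma Hig.l1f (hH : Hig s B f f' α) (i : ι) : f i ∈ B := hH.frame.mem i

lemma Hig.l1f' (hH : Hig s B f f' α) (i : ι) : f' i ∈ B := hH.frame.mem' i

lemma l1P_right {y b : A} (hy : y ∈ l1P s B) (hb : b ∈ B) : y * b ∈ l1P s B :=
  fun c hc => by rw [mul_assoc]; exact hy _ (B.mul_mem hb hc)

lemma Hig.l1left (hH : Hig s B f f' α) {y b : A} (hb : b ∈ B) (hy : y ∈ l1P s B) :
    b * y ∈ l1P s B :=
  fun c hc => by rw [mul_assoc, hH.symm, mul_assoc]; exact hy _ (B.mul_mem hc hb)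

lemma l1q_apply (y : A) : l1q s f f' y = y - ∑ i, s (y * f' i) • f i := rfl

lemma Hig.l1q_mem (hH : Hig s B f f' α) (y : A) : l1q s f f' y ∈ l1P s B := fun b hb => by
  have h := congrArg (fun z => s (y * z)) (hH.frame.repro' b hb)
  simp only [Finset.mul_sum, mul_smul_comm, map_sum, map_smul, smul_eq_mul] at h
  simp only [l1q_apply, sub_mul, Finset.sum_mul, smul_mul_assoc, map_sub, map_sum, map_smul,
    smul_eq_mul]
  rw [← h, sub_eq_zero]
  exact Finset.sum_congr rfl fun i _ => by rw [hH.symm b, mul_comm]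

lemma Hig.l1q_P (hH : Hig s B f f' α) {y : A} (hy : y ∈ l1P s B) : l1q s f f' y = y := by
  rw [l1q_apply, Finset.sum_eq_zero fun i _ => by rw [hy _ (hH.l1f' i), zero_smul], sub_zero]

lemma Hig.l1q_B (hH : Hig s B f f' α) {b : A} (hb : b ∈ B) : l1q s f f' b = 0 := by
  rw [l1q_apply, hH.frame.repro b hb, sub_self]

lemma Hig.l1q_sub (hH : Hig s B f f' α) (y : A) : y - l1q s f f' y ∈ B := by
  rw [l1q_apply, sub_sub_cancel]
  exact B.sum_mem fun i _ => B.smul_mem (hH.l1f i) _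

lemma Hig.l1q_left (hH : Hig s B f f' α) {b : A} (hb : b ∈ B) (y : A) :
    l1q s f f' (b * y) = b * l1q s f f' y := by
  have h := hH.l1q_B (B.mul_mem hb (hH.l1q_sub y))
  rwa [mul_sub, map_sub, hH.l1q_P (hH.l1left hb (hH.l1q_mem y)), sub_eq_zero] at h

lemma Hig.l1q_right (hH : Hig s B f f' α) {b : A} (hb : b ∈ B) (y : A) :
    l1q s f f' (y * b) = l1q s f f' y * b := by
  have h := hH.l1q_B (B.mul_mem (hH.l1q_sub y) hb)
  rwa [sub_mul, map_sub, hH.l1q_P (l1P_right (hH.l1q_mem y) hb), sub_eq_zero] at h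

lemma Hig.l1s_q (hH : Hig s B f f' α) {z : A} (hz : z ∈ l1P s B) (y : A) :
    s (z * l1q s f f' y) = s (z * y) := by
  have h := hz _ (hH.l1q_sub y)
  rwa [mul_sub, map_sub, sub_eq_zero, eq_comm] at h

lemma Hig.l1frameP (hH : Hig s B f f' α) {β β' : κ → A} (hβ : IsFrame s ⊤ β β') :
    IsFrame s (l1P s B) (fun j => l1q s f f' (β j)) (fun j => l1q s f f' (β' j)) where
  mem _ := hH.l1q_mem _
  mem' _ := hH.l1q_mem _
  symm x _ y _ := hH.symm x y
  repro y hy := by
    have h := congrArg (l1q s f f') (hβ.repro y trivial)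
    rw [map_sum, hH.l1q_P hy] at h
    simpa only [hH.l1s_q hy, map_smul] using h

lemma Hig.l1frameA (hH : Hig s B f f' α) (he : IsFrame s (l1P s B) e e') :
    IsFrame s ⊤ (Sum.elim f e) (Sum.elim f' e') where
  mem _ := trivial
  mem' _ := trivial
  symm x _ y _ := hH.symm x y
  repro y _ := by
    have h := he.repro _ (hH.l1q_mem y)
    have h2 : ∀ j, s (l1q s f f' y * e' j) = s (y * e' j) := fun j => by
      rw [hH.symm, hH.l1s_q (he.mem' j), hH.symm]
    simp only [h2] at h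
    simp only [Fintype.sum_sum_type, Sum.elim_inl, Sum.elim_inr]
    rw [h, l1q_apply, add_sub_cancel]

lemma Hig.l1pair (hH : Hig s B f f' α) (he : IsFrame s (l1P s B) e e') :
    L1Pair Q (l1P s B) f f' e e' (fun j => α (e j)) e' where
  mp _ := hH.perp _
  mr := he.mem'
  exp F hF := by
    have h1 : ∀ j, F (e j) (e' j) =
        ∑ a, ∑ b, F (f a * α (f' a * e j * f' b) * f b) (e' j) := fun j => by
      conv_lhs => rw [← hH.hig _ (he.mem j), trB]
      simp only [hF.sum_left']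
    simp only [h1]
    rw [Finset.sum_comm]
    refine Eq.trans (Finset.sum_congr rfl fun a _ => ?_) Finset.sum_comm
    rw [Finset.sum_comm]
    refine Eq.trans (Finset.sum_congr rfl fun b _ => ?_) Finset.sum_comm
    exact he.slide (F := fun x y => F (f a * α x * f b) y)
      (by constructor <;> intros <;>
        simp [mul_add, add_mul, hF.add_left, hF.add_right, hF.smul_left, hF.smul_right])
      (LinearMap.mulRight R (f' b) ∘ₗ LinearMap.mulLeft R (f' a))
      (LinearMap.mulRight R (f' a) ∘ₗ LinearMap.mulLeft R (f' b))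
      (fun x hx => l1P_right (hH.l1left (hH.l1f' a) hx) (hH.l1f' b))
      (fun x hx => l1P_right (hH.l1left (hH.l1f' b) hx) (hH.l1f' a))
      (fun x _ y _ => by
        change s (f' a * x * f' b * y) = s (x * (f' b * y * f' a))
        rw [mul_assoc, mul_assoc, hH.symm]
        simp only [mul_assoc])

lemma L1Pair.exp' (hH : Hig s B f f' α) (he : IsFrame s (l1P s B) e e')
    (h : L1Pair Q (l1P s B) f f' e e' p r) (F : A → A → Q) (hF : IsBilin R F) :
    ∑ j, F (e j) (e' j) = ∑ t, ∑ b, ∑ a, F (f' b * r t * f a) (f' a * p t * f b) := by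
  rw [he.sum_swap hF, h.exp _ hF.flip]
  refine Finset.sum_congr rfl fun t _ => ?_
  rw [Finset.sum_comm]
  refine Finset.sum_congr rfl fun b _ => ?_
  exact hH.frame.sum_swap (F := fun x y => F (f' b * r t * y) (x * p t * f b))
    (by constructor <;> intros <;>
      simp [mul_add, add_mul, hF.add_left, hF.add_right, hF.smul_left, hF.smul_right])

lemma L1Pair.swap (hH : Hig s B f f' α) (he : IsFrame s (l1P s B) e e')
    (h : L1Pair Q (l1P s B) f f' e e' p r) : L1Pair Q (l1P s B) f f' e e' r p where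
  mp := h.mr
  mr := h.mp
  exp F hF := by
    rw [h.exp' hH he F hF]
    refine Finset.sum_congr rfl fun t _ => ?_
    rw [Finset.sum_comm]
    refine Eq.trans (Finset.sum_congr rfl fun a _ => ?_) Finset.sum_comm
    exact hH.frame.sum_swap (F := fun x y => F (y * r t * f a) (f' a * p t * x))
      (by constructor <;> intros <;>
        simp [mul_add, add_mul, hF.add_left, hF.add_right, hF.smul_left, hF.smul_right])

lemma L1Bal.core (hH : Hig s B f f' α) {G : A → A → A → A → Q} (hG : L1Bal B (l1P s B) G)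
    {x y x' y' : A} (hx : x ∈ l1P s B) (hy : y ∈ l1P s B) (hx' : x' ∈ l1P s B)
    (hy' : y' ∈ l1P s B) :
    ∑ h, ∑ a, ∑ g, G (f a * x' * f g) (f' h * y) (f' g * y' * f' a) (x * f h) =
      ∑ g, ∑ h, ∑ a, G (x' * f g) (f' h * y * f a) (f' g * y') (f' a * x * f h) := by
  have m1 := fun g => l1P_right hx' (hH.l1f g)
  have m2 := fun h => hH.l1left (hH.l1f' h) hy
  have m3 := fun g => hH.l1left (hH.l1f' g) hy'
  have m4 := fun h => l1P_right hx (hH.l1f h)
  have m5 := fun a h => l1P_right (hH.l1left (hH.l1f' a) hx) (hH.l1f h)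
  have h1 : ∀ a g, ∑ h, G (f a * x' * f g) (f' h * y) (f' g * y' * f' a) (x * f h) =
      ∑ h, G (x' * (f g * f a)) (f' h * y) (f' g * y') (f' a * x * f h) := fun a g => by
    have h2 := hH.frame.slideB_right
      (F := fun u v => G (x' * f g) (v * y) (f' g * y') (f' a * x * u))
      (by constructor <;> intros <;>
        simp only [mul_add, add_mul, mul_smul_comm, smul_mul_assoc, hG.a2, hG.a4, hG.s2, hG.s4])
      (hH.l1f a)
    refine (Finset.sum_congr rfl fun h _ => ?_).trans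
      (h2.trans (Finset.sum_congr rfl fun h _ => ?_))
    · rw [mul_assoc (f a), hG.b4 _ (hH.l1f a) _ (m1 g) _ (m2 h) _
        (l1P_right (m3 g) (hH.l1f' a)) _ (m4 h), hG.b3 _ (hH.l1f' a) _ (m1 g) _ (m2 h) _ (m3 g) _
        (l1P_right (m4 h) (hH.l1f a))]
      simp only [mul_assoc]
    · rw [← mul_assoc x', hG.b1 _ (hH.l1f a) _ (m1 g) _ (m2 h) _ (m3 g) _ (m5 a h), mul_assoc (f a)]
  have h3 : ∀ h a, ∑ g, G (x' * (f g * f a)) (f' h * y) (f' g * y') (f' a * x * f h) =
      ∑ g, G (x' * f g) (f' h * y * f a) (f' g * y') (f' a * x * f h) := fun h a => by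
    refine (hH.frame.slideB_right
      (F := fun u v => G (x' * u) (f' h * y) (v * y') (f' a * x * f h))
      (by constructor <;> intros <;>
        simp only [mul_add, add_mul, mul_smul_comm, smul_mul_assoc, hG.a1, hG.a3, hG.s1, hG.s3])
      (hH.l1f a)).trans (Finset.sum_congr rfl fun g _ => ?_)
    rw [hG.b2 _ (hH.l1f a) _ (m1 g) _ (m2 h) _ (m3 g) _ (m5 a h), mul_assoc (f a)]
  calc _ = ∑ a, ∑ g, ∑ h, G (f a * x' * f g) (f' h * y) (f' g * y' * f' a) (x * f h) :=
        Finset.sum_comm.trans (Finset.sum_congr rfl fun a _ => Finset.sum_comm)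
    _ = ∑ h, ∑ a, ∑ g, G (x' * (f g * f a)) (f' h * y) (f' g * y') (f' a * x * f h) := by
        simp only [h1]
        exact (Finset.sum_congr rfl fun a _ => Finset.sum_comm).trans Finset.sum_comm
    _ = _ := by
        simp only [h3]
        exact (Finset.sum_congr rfl fun h _ => Finset.sum_comm).trans Finset.sum_comm

lemma l1ev_rot (hH : Hig s B f f' α) (he : IsFrame s (l1P s B) e e')
    (h : L1Pair Q (l1P s B) f f' e e' p r) (h' : L1Pair Q (l1P s B) f f' e e' p' r')
    {G : A → A → A → A → Q} (hG : L1Bal B (l1P s B) G) :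
    l1ev f f' e e' p r (fun a b c d => G b c d a) = l1ev f f' e e' p' r' G := by
  have h1 : ∀ t k, ∑ j, G (e j) (f' k * r t) (e' j) (p t * f k) = ∑ u, ∑ a, ∑ g,
      G (f a * p' u * f g) (f' k * r t) (f' g * r' u * f' a) (p t * f k) := fun t k =>
    h'.exp (fun x y => G x (f' k * r t) y (p t * f k))
      (by constructor <;> intros <;> simp only [hG.a1, hG.a3, hG.s1, hG.s3])
  have h2 : ∀ u g, ∑ j, G (p' u * f g) (e j) (f' g * r' u) (e' j) = ∑ t, ∑ k, ∑ a,
      G (p' u * f g) (f' k * r t * f a) (f' g * r' u) (f' a * p t * f k) := fun u g =>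
    h.exp' hH he (fun x y => G (p' u * f g) x (f' g * r' u) y)
      (by constructor <;> intros <;> simp only [hG.a2, hG.a4, hG.s2, hG.s4])
  simp only [l1ev, h1, h2]
  refine ((Finset.sum_congr rfl fun t _ => Finset.sum_comm).trans Finset.sum_comm).trans
    (Finset.sum_congr rfl fun u _ => ?_)
  refine Eq.trans (Finset.sum_congr rfl fun t _ => ?_) Finset.sum_comm
  exact hG.core hH (h.mp t) (h.mr t) (h'.mp u) (h'.mr u)

lemma Hig.l1L1 (hH : Hig s B f f' α) {b : A} (hb : b ∈ B) (u y v : A) :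
    l1L φ α f f' (u * b) y v = l1L φ α f f' u (b * y) v := by
  have h := hH.frame.slideB_left
    (F := fun x x' => ∑ c, φ (α (x' * y * f' c) * f c * v) (u * x))
    (by constructor <;> intros <;>
      simp [mul_add, add_mul, Finset.sum_add_distrib, Finset.smul_sum]) hb
  simpa only [l1L_apply, mul_assoc] using h

lemma Hig.l1L2 (hH : Hig s B f f' α) {b : A} (hb : b ∈ B) (u y v : A) :
    l1L φ α f f' u (y * b) v = l1L φ α f f' u y (b * v) := by
  rw [l1L_apply, l1L_apply]
  refine Finset.sum_congr rfl fun a _ => ?_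
  have h := hH.frame.slideB_right (F := fun x x' => φ (α (f' a * y * x') * x * v) (u * f a))
    (by constructor <;> intros <;> simp [mul_add, add_mul]) hb
  simpa only [mul_assoc] using h.symm

lemma Hig.l1L3 (hH : Hig s B f f' α) (hφ : ∀ w x y, φ w (x * y) = φ (y * w) x + φ (w * x) y)
    {y : A} (hy : y ∈ l1P s B) (x u v : A) :
    l1L φ α f f' (x * u) y v = l1L φ α f f' u y (v * x) + φ (u * y * v) x := by
  have h : φ (u * y * v) x = φ (u * trB f f' α y * v) x := by rw [hH.hig y hy]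
  rw [h, trB]
  simp only [l1L_apply, Finset.mul_sum, Finset.sum_mul, map_sum, LinearMap.sum_apply,
    ← Finset.sum_add_distrib]
  refine Finset.sum_congr rfl fun a _ => Finset.sum_congr rfl fun b _ => ?_
  rw [mul_assoc x, hφ, add_comm]
  simp only [mul_assoc]

lemma Hig.l1L4 (hH : Hig s B f f' α) (hφ : ∀ w x y, φ w (x * y) = φ (y * w) x + φ (w * x) y)
    {y : A} (hy : y ∈ l1P s B) (x v : A) :
    l1L φ α f f' x y v = l1L φ α f f' 1 y (v * x) + φ (y * v) x := by
  simpa only [mul_one, one_mul] using hH.l1L3 hφ hy x 1 v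

lemma Hig.l1W1 (hH : Hig s B f f' α) {b : A} (hb : b ∈ B) (u y v : A) :
    l1W (l1L φ α f f') (u * b) y v = l1W (l1L φ α f f') u (b * y) v := by
  rw [l1W_apply, l1W_apply, hH.l1L1 hb, hH.l1L2 hb, mul_assoc]

lemma Hig.l1W2 (hH : Hig s B f f' α) {b : A} (hb : b ∈ B) (u y v : A) :
    l1W (l1L φ α f f') u (y * b) v = l1W (l1L φ α f f') u y (b * v) := by
  rw [l1W_apply, l1W_apply, hH.l1L2 hb, mul_assoc]

lemma Hig.l1W3 (hH : Hig s B f f' α) (hφ : ∀ w x y, φ w (x * y) = φ (y * w) x + φ (w * x) y)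
    {b u y : A} (hb : b ∈ B) (hu : u ∈ l1P s B) (hy : y ∈ l1P s B) (v : A) :
    l1W (l1L φ α f f') (b * u) y v = l1W (l1L φ α f f') u y (v * b) := by
  rw [l1W_apply, l1W_apply, hH.l1L3 hφ hy, ← hH.l1L1 hb, one_mul, hH.l1L4 hφ hu b]
  simp only [mul_assoc]
  abel

lemma Hig.l1bal_w (hH : Hig s B f f' α) (hφ : ∀ w x y, φ w (x * y) = φ (y * w) x + φ (w * x) y) :
    L1Bal B (l1P s B) fun a b c d => l1W (l1L φ α f f') a b (c * d) where
  a1 := by intros; simp
  a2 := by intros; simp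
  a3 := by intros; simp [add_mul]
  a4 := by intros; simp [mul_add]
  s1 := by intros; simp
  s2 := by intros; simp
  s3 := by intros; simp
  s4 := by intros; simp
  b1 z hz a _ b _ c _ d _ := hH.l1W1 hz ..
  b2 z hz a _ b _ c _ d _ := by rw [hH.l1W2 hz, mul_assoc]
  b3 z hz a _ b _ c _ d _ := by rw [mul_assoc]
  b4 z hz a ha b hb c _ d _ := by rw [hH.l1W3 hφ hz ha hb, mul_assoc]

lemma Hig.l1bal_q (hH : Hig s B f f' α) (hφ : ∀ w x y, φ w (x * y) = φ (y * w) x + φ (w * x) y) :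
    L1Bal B (l1P s B) fun a b c d => l1W (l1L φ α f f') a (l1q s f f' (b * c)) d where
  a1 := by intros; simp
  a2 := by intros; simp [add_mul]
  a3 := by intros; simp [mul_add]
  a4 := by intros; simp
  s1 := by intros; simp
  s2 := by intros; simp
  s3 := by intros; simp
  s4 := by intros; simp
  b1 z hz a _ b _ c _ d _ := by rw [hH.l1W1 hz, mul_assoc, hH.l1q_left hz]
  b2 z hz a _ b _ c _ d _ := by rw [mul_assoc]
  b3 z hz a _ b _ c _ d _ := by rw [← mul_assoc, hH.l1q_right hz, hH.l1W2 hz]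
  b4 z hz a ha b _ c _ d _ := hH.l1W3 hφ hz ha (hH.l1q_mem _) _

lemma l1ev_congr (hH : Hig s B f f' α) (he : IsFrame s (l1P s B) e e')
    (h : L1Pair Q (l1P s B) f f' e e' p r) {G G' : A → A → A → A → Q}
    (hG : ∀ a ∈ l1P s B, ∀ b ∈ l1P s B, ∀ c ∈ l1P s B, ∀ d ∈ l1P s B, G a b c d = G' a b c d) :
    l1ev f f' e e' p r G = l1ev f f' e e' p r G' :=
  Finset.sum_congr rfl fun t _ => Finset.sum_congr rfl fun k _ => Finset.sum_congr rfl fun j _ =>
    hG _ (l1P_right (h.mp t) (hH.l1f k)) _ (he.mem j) _ (hH.l1left (hH.l1f' k) (h.mr t)) _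
      (he.mem' j)

lemma l1ev_add (G G' : A → A → A → A → Q) :
    l1ev f f' e e' p r (fun a b c d => G a b c d + G' a b c d) =
      l1ev f f' e e' p r G + l1ev f f' e e' p r G' := by
  simp only [l1ev, Finset.sum_add_distrib]

lemma l1_slide (hH : Hig s B f f' α) (he : IsFrame s (l1P s B) e e') {F : A → A → Q}
    (hF : IsBilin R F) (y : A) :
    ∑ a, F (f a * y) (f' a) + ∑ j, F (e j * y) (e' j) =
      ∑ a, F (f a) (y * f' a) + ∑ j, F (e j) (y * e' j) := by
  simpa only [Fintype.sum_sum_type, Sum.elim_inl, Sum.elim_inr] using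
    (hH.l1frameA he).slideA_right hF y

/-- The identity `γ = - ℓ`. -/
lemma l1_gamma (hH : Hig s B f f' α) (hφ : ∀ w x y, φ w (x * y) = φ (y * w) x + φ (w * x) y)
    (he : IsFrame s (l1P s B) e e') (h : L1Pair Q (l1P s B) f f' e e' p r) :
    l1ev f f' e e' p r (fun a b c d => l1W (l1L φ α f f') a b (c * d)) +
      l1ell (l1W (l1L φ α f f')) f f' p r = 0 := by
  have hw := hH.l1bal_w hφ
  have r1 := l1ev_rot hH he h h hw
  have r2 := l1ev_rot hH he h h hw.rot
  have r3 := l1ev_rot hH he h h (hH.l1bal_q hφ)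
  set L := l1L φ α f f' with hL
  set q := l1q s f f' with hq
  have mx := fun t k => l1P_right (h.mp t) (hH.l1f k)
  have my := fun t k => hH.l1left (hH.l1f' k) (h.mr t)
  have e1 : l1ev f f' e e' p r (fun a b c d => L (a * b * c) d 1 - L 1 a (b * c * d)) =
      l1ev f f' e e' p r (fun a b c d => l1W L a b (c * d) + l1W L b c (d * a) +
        l1W L c d (a * b)) := l1ev_congr hH he h fun a _ b hb c hc d hd => by
    simp only [l1W_apply]
    rw [hH.l1L3 hφ hd (a * b) c 1, hH.l1L4 hφ hb a (c * d)]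
    have h1 := hH.l1L3 hφ hc a b d
    rw [hH.l1L4 hφ hc (a * b) d] at h1
    simp only [mul_assoc, mul_one, one_mul] at h1 ⊢
    linear_combination (norm := abel1) h1
  rw [l1ev_add, l1ev_add, r2, r1] at e1
  have e2 : l1ev f f' e e' p r (fun a b c d => L (a * b * c) d 1 - L 1 a (b * c * d)) =
      l1ell (l1W L) f f' p r + (l1ev f f' e e' p r (fun a b c d => l1W L a b (q (c * d))) +
        l1ev f f' e e' p r (fun a b c d => l1W L b (q (c * d)) a)) := by
    rw [← l1ev_add]
    simp only [l1ev, l1ell, ← Finset.sum_add_distrib]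
    refine Finset.sum_congr rfl fun t _ => Finset.sum_congr rfl fun k _ => ?_
    have h1 := l1_slide hH he (F := fun M M' => L (p t * f k * M) (q M') 1 -
      L 1 (p t * f k) (M * q M')) (by
        constructor <;> intros <;> simp [mul_add, add_mul, smul_sub] <;> abel) (f' k * r t)
    rw [Finset.sum_eq_zero fun a _ => by rw [hH.l1q_B (hH.l1f' a)]; simp, zero_add] at h1
    refine (Finset.sum_congr rfl fun j _ => ?_).trans (h1.trans (congrArg₂ _
      (Finset.sum_congr rfl fun a _ => ?_) (Finset.sum_congr rfl fun j _ => ?_)))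
    · rw [hH.l1q_P (he.mem' j), mul_assoc (p t * f k)]
    · rw [hH.l1q_P (l1P_right (my t k) (hH.l1f' a)), l1W_apply, mul_one, hH.l1L2 (hH.l1f a)]
    · have hz := hH.l1q_mem (f' k * r t * e' j)
      simp only [l1W_apply]
      rw [hH.l1L3 hφ hz, hH.l1L4 hφ (he.mem j) (p t * f k)]
      simp only [mul_one, one_mul]
      abel
  have e3 : l1ell (l1W L) f f' p r + l1ev f f' e e' p r (fun a b c d => l1W L a (q (b * c)) d) =
      l1ev f f' e e' p r (fun a b c d => l1W L a b (c * d)) := by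
    simp only [l1ev, l1ell, ← Finset.sum_add_distrib]
    refine Finset.sum_congr rfl fun t _ => Finset.sum_congr rfl fun k _ => ?_
    have h1 := l1_slide hH he (F := fun M M' => l1W L (p t * f k) (q M) M')
      (by constructor <;> intros <;> simp) (f' k * r t)
    rw [Finset.sum_eq_zero (f := fun a => l1W L (p t * f k) (q (f a)) (f' k * r t * f' a))
      fun a _ => by rw [hH.l1q_B (hH.l1f a)]; simp, zero_add] at h1
    refine (congrArg₂ _ (Finset.sum_congr rfl fun a _ => ?_) rfl).trans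
      (h1.trans (Finset.sum_congr rfl fun j _ => ?_))
    · rw [hH.l1q_P (hH.l1left (hH.l1f a) (my t k)), hH.l1W1 (hH.l1f a), ← mul_assoc,
        hH.l1W2 (hH.l1f' a), mul_one]
    · rw [hH.l1q_P (he.mem j)]
  have e4 : l1ev f f' e e' p r (fun a b c d => l1W L a (q (b * c)) d) =
      l1ev f f' e e' p r (fun a b c d => l1W L a b (q (c * d))) :=
    Finset.sum_congr rfl fun t _ => Finset.sum_congr rfl fun k _ =>
      he.slide (F := fun u v => l1W L (p t * f k) u v) (by constructor <;> intros <;> simp)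
        (q ∘ₗ LinearMap.mulRight R (f' k * r t)) (q ∘ₗ LinearMap.mulLeft R (f' k * r t))
        (fun _ _ => hH.l1q_mem _) (fun _ _ => hH.l1q_mem _) fun x hx y hy => by
          change s (q (x * (f' k * r t)) * y) = s (x * q (f' k * r t * y))
          rw [hH.symm, hH.l1s_q hy, hH.l1s_q hx, hH.symm, mul_assoc]
  rw [e1, r3, ← e4] at e2
  linear_combination (norm := abel1) e2 + e3 + e3

lemma l1_four (hH : Hig s B f f' α) (hφ : ∀ w x y, φ w (x * y) = φ (y * w) x + φ (w * x) y)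
    (he : IsFrame s (l1P s B) e e') (h : L1Pair Q (l1P s B) f f' e e' p r) :
    l1ev f f' e e' p r (fun a b c d => φ 1 (a * b * c * d)) =
      4 • l1ev f f' e e' p r (fun a b c d => l1W (l1L φ α f f') a b (c * d)) := by
  have hw := hH.l1bal_w hφ
  have r1 := l1ev_rot hH he h h hw
  have r2 := l1ev_rot hH he h h hw.rot
  have r3 := l1ev_rot hH he h h hw.rot.rot
  set L := l1L φ α f f' with hL
  have e1 : l1ev f f' e e' p r (fun a b c d => φ 1 (a * b * c * d)) =
      l1ev f f' e e' p r (fun a b c d => l1W L a b (c * d) + l1W L b c (d * a) +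
        l1W L c d (a * b) + l1W L d a (b * c)) := l1ev_congr hH he h fun a ha b hb c hc d hd => by
    simp only [l1W_apply]
    rw [hφ, hH.l1L4 hφ hb a (c * d), hH.l1L4 hφ ha d (b * c)]
    have h1 := hH.l1L3 hφ hc a b d
    rw [hH.l1L4 hφ hc (a * b) d] at h1
    have h2 := hH.l1L3 hφ hd (a * b) c 1
    rw [hH.l1L4 hφ hd (a * b * c) 1] at h2
    simp only [mul_assoc, mul_one, one_mul] at h1 h2 ⊢
    linear_combination (norm := abel1) h1 + h2
  rw [e1, l1ev_add, l1ev_add, l1ev_add, r3, r2, r1]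
  abel

lemma l1_two (hH : Hig s B f f' α) (hφ : ∀ w x y, φ w (x * y) = φ (y * w) x + φ (w * x) y)
    (h : L1Pair Q (l1P s B) f f' e e' p r) :
    l1ell (l1W (l1L φ α f f')) f f' p r + l1ell (l1W (l1L φ α f f')) f f' r p =
      ∑ t, ∑ k, ∑ a, φ 1 (p t * f k * f a * (f' k * r t) * f' a) := by
  set W := l1W (l1L φ α f f') with hW
  have e1 : ∀ t, ∑ k, ∑ a, W (r t * f k * f a) (f' k * p t * f' a) 1 =
      ∑ k, ∑ a, W (f' k * r t * f' a) (p t * f k * f a) 1 := fun t => by
    have h1 : ∀ k, ∑ a, W (r t * f k * f a) (f' k * p t * f' a) 1 =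
        ∑ a, W (r t) (f a * p t * (f' k * f' a * f k)) 1 := fun k => by
      refine (Finset.sum_congr rfl fun a _ => ?_).trans
        (hH.frame.slide (F := fun u v => W (r t) (u * p t * v) 1)
          (by constructor <;> intros <;> simp [mul_add, add_mul])
          (LinearMap.mulRight R (f' k) ∘ₗ LinearMap.mulLeft R (f k))
          (LinearMap.mulRight R (f k) ∘ₗ LinearMap.mulLeft R (f' k))
          (fun x hx => B.mul_mem (B.mul_mem (hH.l1f k) hx) (hH.l1f' k))
          (fun x hx => B.mul_mem (B.mul_mem (hH.l1f' k) hx) (hH.l1f k))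
          (fun x _ y _ => by
            change s (f k * x * f' k * y) = s (x * (f' k * y * f k))
            rw [mul_assoc, mul_assoc, hH.symm]
            simp only [mul_assoc]))
      change _ = W (r t) (f k * f a * f' k * p t * f' a) 1
      rw [hH.l1W1 (hH.l1f a), hH.l1W1 (hH.l1f k)]
      simp only [mul_assoc, hW]
    have h2 : ∀ k, ∑ a, W (f' k * r t * f' a) (p t * f k * f a) 1 =
        ∑ a, W (r t) (f a * p t * (f k * f' a * f' k)) 1 := fun k => by
      refine (Finset.sum_congr rfl fun a _ => ?_).trans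
        (hH.frame.sum_swap (F := fun u v => W (r t) (v * p t * (f k * u * f' k)) 1)
          (by constructor <;> intros <;> simp [mul_add, add_mul]))
      rw [mul_assoc (f' k), hH.l1W3 hφ (hH.l1f' k) (l1P_right (h.mr t) (hH.l1f' a))
        (l1P_right (l1P_right (h.mp t) (hH.l1f k)) (hH.l1f a)), one_mul, ← mul_one (f' k),
        ← hH.l1W2 (hH.l1f' k), hH.l1W1 (hH.l1f' a)]
      simp only [mul_assoc, mul_one, hW]
    simp only [h1, h2]
    rw [Finset.sum_comm]
    refine Eq.trans (Finset.sum_congr rfl fun a _ => ?_) Finset.sum_comm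
    exact hH.frame.sum_swap (F := fun u v => W (r t) (f a * p t * (v * f' a * u)) 1)
      (by constructor <;> intros <;> simp [mul_add, add_mul])
  simp only [l1ell, e1, ← Finset.sum_add_distrib]
  refine Finset.sum_congr rfl fun t _ => Finset.sum_congr rfl fun k _ =>
    Finset.sum_congr rfl fun a _ => ?_
  have hx := l1P_right (l1P_right (h.mp t) (hH.l1f k)) (hH.l1f a)
  have hy := l1P_right (hH.l1left (hH.l1f' k) (h.mr t)) (hH.l1f' a)
  rw [hW, l1W_apply, l1W_apply, hH.l1L4 hφ hy, hH.l1L4 hφ hx (f' k * r t * f' a),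
    mul_assoc (p t * f k * f a), hφ 1]
  simp only [mul_one, one_mul]
  abel

end main

/-- The cyclic identity.  Here: `P` the orthogonal complement of `B`, `q` the projection onto
`P`, `e = q β`, `e' = q β'` a frame of `P`; sums over the frames are implicit.

* `L u y v = ∑ φ (α (f' y g') g v) (u f)` is trilinear, `L (u b) y v = L u (b y) v`,
  `L u (y b) v = L u y (b v)` for `b ∈ B` (slides), and for `y ∈ P`
  `L (x u) y v = L u y (v x) + φ (u y v) x` (`hφ` and the Higman identity).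
* A pair of families `(p, r)` in `P` is Higman if `∑ F e e' = ∑ F (f p g) (g' r f')` for all
  bilinear `F`; `(α e, e')` is one (expand `e`, slide in the frame of `P`), and the swap of a Higman
  pair is one.  For `G` four-linear with `G (a b) c .. = G a (b c) ..` in the three inner places and
  `G (b a₁) a₂ a₃ a₄ = G a₁ a₂ a₃ (a₄ b)` on `P`, let `ev (p, r) G = ∑ G (p h) e (h' r) e'`.  Then
  `ev₁ (G ∘ rot) = ev₂ G` for any two Higman pairs, `(G ∘ rot) a₁ a₂ a₃ a₄ = G a₂ a₃ a₄ a₁`: expand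
  `e ⊗ e'` with the second pair, move `f` round the cycle, slide, and recombine the swap of the
  first pair.  So `ev` is rotation invariant and independent of the pair.
* `w a₁ a₂ a₃ a₄ = L a₁ a₂ (a₃ a₄) - L 1 a₁ (a₂ a₃ a₄)` is balanced.  On `P`:
  `w ∘ rot = L (a₁ a₂) a₃ a₄ - L a₁ a₂ (a₃ a₄)`, `w ∘ rot² = L (a₁ a₂ a₃) a₄ 1 - L (a₁ a₂) a₃ a₄`,
  and the four rotations add up to `φ 1 (a₁ a₂ a₃ a₄)`.  With `γ = ev w`, `(x, y) = (p h, h' r)`:
  `φ 1 (∑ x e y e') = 4 γ`.
* `W a₁ a₂ a₃ = L a₁ a₂ a₃ - L 1 a₁ (a₂ a₃)`, `ℓ = ∑ L (x f) (y f') 1 - L 1 x (f y f')`.  Slide `y`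
  in the full frame (`∑ F (β y) β' = ∑ F β (y β')`, and `∑ F β β' = ∑ F f f' + ∑ F e e'`) for
  `F M M' = L (x M) (q M') 1 - L 1 x (M q M')`: `3 γ = ℓ + ∑ W x e (q (y e')) + ∑ W e (q (y e')) x`;
  for `F M M' = L x (q M) M' - L 1 x (q M M')`: `ℓ + ∑ W x (q (e y)) e' = γ`.  The three `W` sums
  agree (the last two by rotation invariance of `ev` for `G a = W a₁ (q (a₂ a₃)) a₄`, the first and
  the last by sliding `y` in `∑ q (β y) ⊗ q β'`).  Hence `γ = - ℓ`, for every Higman pair.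
* `W₂ a₁ a₂ = L a₁ a₂ 1 - L 1 a₁ a₂` is balanced, `W₂ a₁ a₂ + W₂ a₂ a₁ = φ 1 (a₁ a₂)`,
  `ℓ = ∑ W₂ (x f) (y f')`, and the `ℓ` of the swapped pair is `∑ W₂ (y f') (x f)` (slide `h, h'`
  past `f`).  So `2 γ = - φ 1 (∑ x f y f')`, and `zA + zB = ∑ x e y e' + 2 ∑ x f y f'`. -/
theorem cyclic_identity {s : A →ₗ[R] R} {B : Subalgebra R A} {f f' : ι → A} {α : A →ₗ[R] A}
    (hH : Hig s B f f' α) {β β' : κ → A} (hβ : IsFrame s ⊤ β β')
    (φ : A →ₗ[R] A →ₗ[R] Q) (hφ : ∀ w x y, φ w (x * y) = φ (y * w) x + φ (w * x) y) :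
    φ 1 (zA f f' β β' α + zB f f' β β' α) = 0 := by
  have he := hH.l1frameP hβ
  set e : κ → A := fun j => l1q s f f' (β j)
  set e' : κ → A := fun j => l1q s f f' (β' j)
  have hp := hH.l1pair (Q := Q) he
  have hp' := hp.swap hH he
  have hw := hH.l1bal_w hφ
  have g1 := l1_gamma hH hφ he hp
  have g2 := l1_gamma hH hφ he hp'
  rw [← l1ev_rot hH he hp hp' hw, l1ev_rot hH he hp hp hw] at g2
  have g3 := l1_four hH hφ he hp
  have g4 := l1_two hH hφ hp
  have h1 : ∀ y, trF β β' y = trF f f' y + trF e e' y := fun y => by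
    simpa [trF, Fintype.sum_sum_type] using
      hβ.indep (hH.l1frameA he) (isBilin_sandwich (R := R) 1 y 1)
  have h2 := hβ.indep (hH.l1frameA he) (F := fun x y => ∑ h, (α x * f h * trF β β' (f' h * y) +
    α x * f h * trF f f' (f' h * y))) (by
      constructor <;> intros <;>
        simp [trF, mul_add, add_mul, Finset.sum_add_distrib, Finset.smul_sum, Finset.mul_sum] <;>
        abel)
  simp only [Fintype.sum_sum_type, Sum.elim_inl, Sum.elim_inr, hH.zero _ (hH.l1f _), zero_mul,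
    add_zero, Finset.sum_const_zero, zero_add] at h2
  have h3 : φ 1 (zA f f' β β' α + zB f f' β β' α) =
      l1ev f f' e e' (fun j => α (e j)) e' (fun a b c d => φ 1 (a * b * c * d)) +
      2 • ∑ t, ∑ k, ∑ a, φ 1 (α (e t) * f k * f a * (f' k * e' t) * f' a) := by
    simp only [zA, zB, ← Finset.sum_add_distrib]
    rw [h2]
    simp only [h1]
    simp only [l1ev, trF, mul_add, Finset.mul_sum, map_sum, map_add, Finset.sum_add_distrib,
      mul_assoc]
    abel
  rw [h3, g3, ← g4]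
  linear_combination (norm := abel1) g1 + g1 + g2 + g2

end Pool.Agent.Lib.MP_b6945b_al.St
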