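import Pool.Agent.Lib.MP_b6945b_al.St.Order
import Pool.Agent.Lib.MP_b6945b_al.St.L1

set_option autoImplicit false

/-!
The cyclic identity and the character formulas for deformations.
-/

namespace Pool.Agent.Lib.MP_b6945b_al.St

open PowerSeries

variable {K : Type} [Field K] {V : ValuationSubring K} {A : Type} [Ring A] [Algebra K A]
  {O : Subring A} {s : A →ₗ[K] K} {Λ : Subring A⟦X⟧} {g : A⟦X⟧} {ι κ : Type} [Fintype ι]
  [Fintype κ]

/-- The lattice as an algebra over `VX V`. -/
def series_sub (hD : Deform V O s Λ g) : Subalgebra (VX V) A⟦X⟧ where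
  toSubsemiring := Λ.toSubsemiring
  algebraMap_mem' r := by
    rw [Algebra.algebraMap_eq_smul_one]
    exact hD.smul_mem r r.2 1 Λ.one_mem

lemma series_coe_smul (hD : Deform V O s Λ g) (r : VX V) (F : series_sub hD) :
    ((r • F : series_sub hD) : A⟦X⟧) = (r : K⟦X⟧) • (F : A⟦X⟧) := rfl

/-- The form restricted to the lattice. -/
noncomputable def series_form (hD : Deform V O s Λ g) : series_sub hD →ₗ[VX V] VX V where
  toFun F := ⟨st s g F, hD.form_mem _ F.2⟩
  map_add' F G := Subtype.ext (map_add (st s g) (F : A⟦X⟧) G)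
  map_smul' r F := Subtype.ext (map_smul (st s g) (r : K⟦X⟧) (F : A⟦X⟧))

lemma series_form_coe (hD : Deform V O s Λ g) (F : series_sub hD) :
    ((series_form hD F : VX V) : K⟦X⟧) = st s g F := rfl

variable (V) in
/-- `VX V` as a submodule over itself. -/
def series_W : Submodule (VX V) K⟦X⟧ where
  carrier := VX V
  zero_mem' := (VX V).zero_mem
  add_mem' := fun ha hb => (VX V).add_mem ha hb
  smul_mem' := fun r _ h => (VX V).mul_mem r.2 h

lemma series_bilin (hD : Deform V O s Λ g) : IsBilin (VX V)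
    (fun w x : series_sub hD => (series_W V).mkQ (st s g ((w : A⟦X⟧) * th (x : A⟦X⟧)))) := by
  constructor
  · intro x x' y
    rw [Subalgebra.coe_add, add_mul, map_add, map_add]
  · intro r x y
    rw [series_coe_smul, smul_mul_assoc, map_smul]
    exact map_smul (series_W V).mkQ r _
  · intro x y y'
    rw [Subalgebra.coe_add, map_add, mul_add, map_add, map_add]
  · intro r x y
    have h0 : (series_W V).mkQ (th (r : K⟦X⟧) • st s g ((x : A⟦X⟧) * y)) = 0 := by
      rw [Submodule.mkQ_apply, Submodule.Quotient.mk_eq_zero]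
      exact (VX V).mul_mem (th_mem_coefSub r.2) (hD.form_mem _ (Λ.mul_mem x.2 y.2))
    rw [series_coe_smul, th_smul, mul_add, mul_smul_comm, mul_smul_comm, map_add, map_smul,
      map_smul, map_add, h0, zero_add]
    exact map_smul (series_W V).mkQ r _

/-- The bilinear map `(w, x) ↦ st (w * th x)` modulo `VX V`. -/
noncomputable def series_phi (hD : Deform V O s Λ g) :
    series_sub hD →ₗ[VX V] series_sub hD →ₗ[VX V] (K⟦X⟧ ⧸ series_W V) := (series_bilin hD).lin

lemma series_phi_apply (hD : Deform V O s Λ g) (w x : series_sub hD) :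
    series_phi hD w x = (series_W V).mkQ (st s g ((w : A⟦X⟧) * th (x : A⟦X⟧))) := rfl

lemma series_phi_mul (hD : Deform V O s Λ g) (w x y : series_sub hD) :
    series_phi hD w (x * y) = series_phi hD (y * w) x + series_phi hD (w * x) y := by
  simp only [series_phi_apply, Subalgebra.coe_mul]
  rw [th_mul, mul_add, map_add, map_add, ← mul_assoc, hD.st_symm, ← mul_assoc, ← mul_assoc]

lemma series_phi_zero (hD : Deform V O s Λ g) {w x : series_sub hD} (h : series_phi hD w x = 0) :
    st s g ((w : A⟦X⟧) * th (x : A⟦X⟧)) ∈ VX V := by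
  rw [series_phi_apply, Submodule.mkQ_apply, Submodule.Quotient.mk_eq_zero] at h
  exact h

lemma series_frame (hD : Deform V O s Λ g) {U : Submodule K⟦X⟧ A⟦X⟧}
    (U' : Submodule (VX V) (series_sub hD)) (hU : ∀ y, y ∈ U' ↔ (y : A⟦X⟧) ∈ U)
    {β β' : κ → series_sub hD}
    (hβ : IsFrame (st s g) U (fun j => (β j : A⟦X⟧)) (fun j => (β' j : A⟦X⟧))) :
    IsFrame (series_form hD) U' β β' where
  mem j := (hU _).2 (hβ.mem j)
  mem' j := (hU _).2 (hβ.mem' j)
  symm x _ y _ := Subtype.ext (hD.st_symm x y)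
  repro y hy := by
    apply Subtype.ext
    rw [← hβ.repro y ((hU _).1 hy), AddSubmonoidClass.coe_finsetSum]
    rfl

lemma series_coe_trF (hD : Deform V O s Λ g) (β β' : κ → series_sub hD) (y : series_sub hD) :
    ((trF β β' y : series_sub hD) : A⟦X⟧)
      = trF (fun j => (β j : A⟦X⟧)) (fun j => (β' j : A⟦X⟧)) y := by
  simp only [trF, AddSubmonoidClass.coe_finsetSum, Subalgebra.coe_mul]

/-- Apply `cyclic_identity` over the ring `VX V` to the subalgebra with carrier `Λ`, the form
`st s g` restricted to it, the subalgebra `Λ ∩ B`, the module `K⟦X⟧ ⧸ VX V` and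
`φ w x = st s g (w * th x)` (bilinear modulo `VX V` by `th_smul`). -/
theorem l1_series (hD : Deform V O s Λ g) {B : Subalgebra K⟦X⟧ A⟦X⟧} {F F' : ι → A⟦X⟧}
    {a : A⟦X⟧ →ₗ[K⟦X⟧] A⟦X⟧} (hH : Hig (st s g) B F F' a) (hF : ∀ i, F i ∈ Λ)
    (hF' : ∀ i, F' i ∈ Λ) (ha : ∀ y ∈ Λ, a y ∈ Λ) {β β' : κ → A⟦X⟧}
    (hβ : IsFrame (st s g) ⊤ β β') (hb : ∀ j, β j ∈ Λ) (hb' : ∀ j, β' j ∈ Λ) :
    st s g (th (zA F F' β β' a + zB F F' β β' a)) ∈ VX V := by
  let B' : Subalgebra (VX V) (series_sub hD) :=
    { carrier := {y | (y : A⟦X⟧) ∈ B}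
      mul_mem' := fun h1 h2 => B.mul_mem h1 h2
      add_mem' := fun h1 h2 => B.add_mem h1 h2
      algebraMap_mem' := fun r => by
        rw [Algebra.algebraMap_eq_smul_one]
        exact B.smul_mem B.one_mem (r : K⟦X⟧) }
  let a' : series_sub hD →ₗ[VX V] series_sub hD :=
    { toFun := fun y => ⟨a y, ha _ y.2⟩
      map_add' := fun x y => Subtype.ext (map_add a (x : A⟦X⟧) y)
      map_smul' := fun r x => Subtype.ext (map_smul a (r : K⟦X⟧) (x : A⟦X⟧)) }
  have ha' : ∀ y, ((a' y : series_sub hD) : A⟦X⟧) = a y := fun _ => rfl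
  let f : ι → series_sub hD := fun i => ⟨F i, hF i⟩
  let f' : ι → series_sub hD := fun i => ⟨F' i, hF' i⟩
  let e : κ → series_sub hD := fun j => ⟨β j, hb j⟩
  let e' : κ → series_sub hD := fun j => ⟨β' j, hb' j⟩
  have hH' : Hig (series_form hD) B' f f' a' :=
    { symm := fun x y => Subtype.ext (hD.st_symm x y)
      frame := series_frame hD B'.toSubmodule (fun _ => Iff.rfl) hH.frame
      perp := fun y b hb => Subtype.ext (hH.perp y b hb)
      zero := fun b hb => Subtype.ext (hH.zero b hb)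
      hig := fun y hy => by
        apply Subtype.ext
        rw [← hH.hig y (fun b hb => ?_)]
        · simp only [trB, AddSubmonoidClass.coe_finsetSum, Subalgebra.coe_mul, ha']
          rfl
        · rw [← hH.frame.repro b hb, Finset.mul_sum, map_sum]
          refine Finset.sum_eq_zero (fun i _ => ?_)
          have h0 : st s g ((y : A⟦X⟧) * F i) = 0 :=
            congrArg Subtype.val (hy (f i) (hH.frame.mem i))
          rw [mul_smul_comm, map_smul, h0, smul_zero] }
  have he : IsFrame (series_form hD) ⊤ e e' :=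
    series_frame hD ⊤ (fun _ => Iff.rfl) hβ
  have key := series_phi_zero hD (cyclic_identity hH' he (series_phi hD) (series_phi_mul hD))
  simp only [zA, zB, Subalgebra.coe_add, Subalgebra.coe_one, one_mul,
    AddSubmonoidClass.coe_finsetSum, Subalgebra.coe_mul, ha', series_coe_trF] at key
  exact key

/-- The same instance of `phi_tr`. -/
theorem tr_series (hD : Deform V O s Λ g) {β β' : κ → A⟦X⟧}
    (hβ : IsFrame (st s g) ⊤ β β') (hb : ∀ j, β j ∈ Λ) (hb' : ∀ j, β' j ∈ Λ) {c x : A⟦X⟧}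
    (hc : c ∈ Λ) (hx : x ∈ Λ) : st s g (trF β β' c * th x) ∈ VX V := by
  let e : κ → series_sub hD := fun j => ⟨β j, hb j⟩
  let e' : κ → series_sub hD := fun j => ⟨β' j, hb' j⟩
  have he : IsFrame (series_form hD) ⊤ e e' :=
    series_frame hD ⊤ (fun _ => Iff.rfl) hβ
  have key := series_phi_zero hD
    (phi_tr he (series_phi hD) (series_phi_mul hD) ⟨c, hc⟩ ⟨x, hx⟩)
  rw [series_coe_trF] at key
  exact key

/-- Characters are multiplicative on series with central coefficients. -/
lemma extF_mul {B : Subalgebra K A} {s' : A →ₗ[K] K} {f f' : ι → A} {n : ℕ}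
    {lam : Fin n → A →ₗ[K] K} (h : Chars B s' f f' lam) (i : Fin n) {y z : A⟦X⟧}
    (hy : ∀ m, BCent B (coeff m y)) (hz : ∀ m, BCent B (coeff m z)) :
    extF (lam i) (y * z) = extF (lam i) y * extF (lam i) z := by
  ext m
  rw [coeff_extF, coeff_mul, coeff_mul, map_sum]
  exact Finset.sum_congr rfl (fun q _ => by
    rw [h.mul i _ _ (hy _) (hz _), coeff_extF, coeff_extF])

lemma series_comm {B : Subalgebra K A} {γ : A⟦X⟧} (hγ : ∀ m, BCent B (coeff m γ)) {y : A⟦X⟧}
    (hy : y ∈ coefAlg B) : γ * y = y * γ := by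
  ext n
  rw [coeff_mul, coeff_mul, ← Finset.Nat.sum_antidiagonal_swap]
  exact Finset.sum_congr rfl (fun q _ => (hγ _).2 _ (hy _))

lemma series_C_mem {B : Subalgebra K A} {b : A} (hb : b ∈ B) : (C b : A⟦X⟧) ∈ coefAlg B := by
  intro n
  rw [coeff_C]
  split_ifs
  · exact hb
  · exact B.zero_mem

lemma series_coeff_smul_C (r : K⟦X⟧) (b : A) (n : ℕ) :
    coeff n (r • (C b : A⟦X⟧)) = coeff n r • b := by
  rw [ps_smul_def, coeff_mul_C, coeff_map, Algebra.smul_def]

/-- The handle formula for series.  `(C f, γ⁻¹ C f')` is a second frame of `coefAlg B`, so by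
`IsFrame.indep` the trace is `γ⁻¹` times the coefficientwise trace and the handle element is
`γ⁻² C (handle f f')`. -/
theorem series_handle {B : Subalgebra K A} {f f' : ι → A} (hf : IsFrame s B.toSubmodule f f')
    {n : ℕ} {lam : Fin n → A →ₗ[K] K} (h : Chars B s f f' lam) {γ : A⟦X⟧}
    (hγ : ∀ m, BCent B (coeff m γ)) (hγ0 : coeff 0 γ = 1)
    (hst : ∀ y ∈ coefAlg B, st s g y = extF s (γ * y)) {F F' : κ → A⟦X⟧}
    (hF : IsFrame (st s g) (coefAlg B).toSubmodule F F') {c : A⟦X⟧} (hc : c ∈ coefAlg B) :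
    st s g (c * handle F F') = ∑ i, extF (lam i) (trF F F' c) := by
  have hγB : γ ∈ coefAlg B := fun m => (hγ m).1
  obtain ⟨G, hG, hG1, hG2, -⟩ := exists_inv_coefAlg B hγB B.one_mem (by rw [hγ0, one_mul])
    (by rw [hγ0, one_mul])
  have hGc : ∀ y ∈ coefAlg B, G * y = y * G := fun y hy => by
    calc G * y = G * y * (γ * G) := by rw [hG2, mul_one]
      _ = G * (γ * y) * G := by rw [series_comm hγ hy]; simp only [mul_assoc]
      _ = y * G := by rw [← mul_assoc, hG1, one_mul]
  have hCf : ∀ i, (C (f i) : A⟦X⟧) ∈ coefAlg B := fun i => series_C_mem (hf.mem i)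
  have hCf' : ∀ i, (C (f' i) : A⟦X⟧) ∈ coefAlg B := fun i => series_C_mem (hf.mem' i)
  have hF1 : IsFrame (st s g) (coefAlg B).toSubmodule (fun i => C (f i))
      (fun i => G * C (f' i)) :=
    { mem := hCf
      mem' := fun i => (coefAlg B).mul_mem hG (hCf' i)
      symm := hF.symm
      repro := fun y hy => by
        have e : ∀ i, st s g (y * (G * C (f' i))) = extF s (y * C (f' i)) := fun i => by
          rw [hst _ ((coefAlg B).mul_mem hy ((coefAlg B).mul_mem hG (hCf' i))), ← mul_assoc y,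
            ← hGc y hy, mul_assoc G, ← mul_assoc γ, hG2, one_mul]
        ext m
        rw [map_sum, ← hf.repro (coeff m y) (hy m)]
        exact Finset.sum_congr rfl (fun i _ => by
          rw [e, series_coeff_smul_C, coeff_extF, coeff_mul_C]) }
  have htr : ∀ y, trF F F' y = ∑ i, C (f i) * (y * G) * C (f' i) := fun y => by
    have := hF.indep hF1 (isBilin_sandwich (R := K⟦X⟧) 1 y 1)
    simpa [trF, mul_assoc] using this
  have hb : IsBilin K⟦X⟧ (fun x y : A⟦X⟧ => x * trF F F' y) := by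
    constructor <;> intros <;>
      simp [trF, mul_add, add_mul, Finset.sum_add_distrib, ← Finset.smul_sum]
  have hh : handle F F' = G * G * C (handle f f') := by
    have e1 : handle F F' = ∑ i, C (f i) * trF F F' (G * C (f' i)) := hF.indep hF1 hb
    rw [e1, handle, map_sum, Finset.mul_sum]
    refine Finset.sum_congr rfl (fun i _ => ?_)
    rw [htr, map_mul, trF, map_sum, Finset.mul_sum, Finset.mul_sum, Finset.mul_sum]
    refine Finset.sum_congr rfl (fun j _ => ?_)
    have hGG : ∀ y ∈ coefAlg B, G * G * y = y * (G * G) := fun y hy => by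
      rw [mul_assoc, hGc y hy, ← mul_assoc, hGc y hy, mul_assoc]
    rw [map_mul, map_mul, mul_assoc G, ← hGc _ (hCf' i), ← mul_assoc G G, ← mul_assoc (G * G),
      hGG _ (hCf i), mul_assoc (C (f i)), ← mul_assoc (G * G), ← mul_assoc (G * G),
      hGG _ (hCf j), mul_assoc (C (f j)) (G * G)]
  have hhB : handle f f' ∈ B :=
    B.sum_mem (fun i _ => B.mul_mem (hf.mem i)
      (B.sum_mem (fun j _ => B.mul_mem (B.mul_mem (hf.mem j) (hf.mem' i)) (hf.mem' j))))
  have e2 : γ * (c * (G * G * C (handle f f'))) = c * G * C (handle f f') := by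
    rw [← mul_assoc γ, series_comm hγ hc, mul_assoc c, ← mul_assoc γ, ← mul_assoc γ, hG2, one_mul,
      mul_assoc]
  rw [hh, hst _ ((coefAlg B).mul_mem hc
    ((coefAlg B).mul_mem ((coefAlg B).mul_mem hG hG) (series_C_mem hhB))), e2]
  ext m
  rw [coeff_extF, coeff_mul_C, h.handle _ ((coefAlg B).mul_mem hc hG m), map_sum]
  refine Finset.sum_congr rfl (fun i _ => ?_)
  rw [coeff_extF, htr, map_sum (coeff m), trF]
  congr 1
  exact Finset.sum_congr rfl (fun j _ => by rw [coeff_mul_C, coeff_C_mul])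

/-- The defining property of `x` extends to central series (compare coefficients). -/
lemma xcond_series {x : A⟦X⟧} {n : ℕ} {lam : Fin n → A →ₗ[K] K}
    (hx : ∀ ζ : Subalgebra.center K A,
      st s g (C (ζ : A) * x) = C (Algebra.trace K (Subalgebra.center K A) ζ))
    (hl : ∀ ζ : Subalgebra.center K A,
      Algebra.trace K (Subalgebra.center K A) ζ = ∑ i, lam i ζ)
    (hg : ∀ F, g * F = F * g) {z : A⟦X⟧} (hz : ∀ m a, coeff m z * a = a * coeff m z) :
    st s g (z * x) = ∑ i, extF (lam i) z := by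
  let ζ : ℕ → Subalgebra.center K A := fun m =>
    ⟨coeff m z, Subalgebra.mem_center_iff.2 (fun b => (hz m b).symm)⟩
  let T : A⟦X⟧ →ₗ[K⟦X⟧] K⟦X⟧ := st s g ∘ₗ LinearMap.mulRight K⟦X⟧ x
  have hT : ∀ m, T (C (coeff m z)) = C (Algebra.trace K (Subalgebra.center K A) (ζ m)) :=
    fun m => hx (ζ m)
  ext k
  have ho : Ord (k + 1)
      (z - ∑ m ∈ Finset.range (k + 1), ((X : K⟦X⟧) ^ m) • (C (coeff m z) : A⟦X⟧)) := by
    intro j hj
    rw [map_sub, map_sum, sub_eq_zero, Finset.sum_eq_single j]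
    · rw [series_coeff_smul_C, coeff_X_pow_self, one_smul]
    · intro m _ hm
      rw [series_coeff_smul_C, coeff_X_pow, if_neg (Ne.symm hm), zero_smul]
    · intro h
      exact absurd (Finset.mem_range.2 hj) h
  have h1 := ho.mapF T k (Nat.lt_succ_self k)
  rw [map_sub, map_sub, sub_eq_zero, map_sum, map_sum, Finset.sum_eq_single k] at h1
  · rw [map_smul, hT, smul_eq_mul, coeff_mul_C, coeff_X_pow_self, one_mul, hl] at h1
    rw [map_sum]
    exact h1.trans (Finset.sum_congr rfl (fun i _ => (coeff_extF _ _ _).symm))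
  · intro m _ hm
    rw [map_smul, hT, smul_eq_mul, coeff_mul_C, coeff_X_pow, if_neg (Ne.symm hm), zero_mul]
  · intro h
    exact absurd (Finset.mem_range.2 (Nat.lt_succ_self k)) h

end Pool.Agent.Lib.MP_b6945b_al.St
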