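import Pool.Agent.Lib.MP_b6945b_al.St.Renorm
import Pool.Agent.Lib.MP_b6945b_al.St.Conj
import Pool.Agent.Lib.MP_b6945b_al.St.Lift
import Pool.Agent.Lib.MP_b6945b_al.St.Chars
import Pool.Agent.Lib.MP_b6945b_al.St.Endgame
import Pool.Agent.Lib.MP_b6945b_al.St.Series

set_option autoImplicit false

/-!
The core theorem: a subalgebra with projective complement of an order with a good deformation has
a centre of the same rank.
-/

namespace Pool.Agent.Lib.MP_b6945b_al.St

open PowerSeries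

variable {K : Type} [Field K] {V : ValuationSubring K} {A : Type} [Ring A] [Algebra K A]

section CoreAux

variable {R A' : Type} [CommRing R] [Ring A'] [Algebra R A'] {ι : Type} [Fintype ι]

lemma core_trF_mul {f f' : ι → A'} {z : A'} (hz : ∀ i, z * f i = f i * z) (y : A') :
    trF f f' (z * y) = z * trF f f' y := by
  simp only [trF, Finset.mul_sum]
  refine Finset.sum_congr rfl (fun i _ => ?_)
  rw [← mul_assoc (f i), ← hz i]
  simp only [mul_assoc]

lemma core_trF_memS {S : Subring A'} {f f' : ι → A'} (hf : ∀ i, f i ∈ S) (hf' : ∀ i, f' i ∈ S)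
    {y : A'} (hy : y ∈ S) : trF f f' y ∈ S :=
  S.sum_mem fun i _ => S.mul_mem (S.mul_mem (hf i) hy) (hf' i)

lemma core_trF_memB {s : A' →ₗ[R] R} {B : Subalgebra R A'} {f f' : ι → A'}
    (h : IsFrame s B.toSubmodule f f') {y : A'} (hy : y ∈ B) : trF f f' y ∈ B :=
  B.sum_mem fun i _ => B.mul_mem (B.mul_mem (h.mem i) hy) (h.mem' i)

lemma core_handle_memB {s : A' →ₗ[R] R} {B : Subalgebra R A'} {f f' : ι → A'}
    (h : IsFrame s B.toSubmodule f f') : handle f f' ∈ B :=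
  B.sum_mem fun i _ => B.mul_mem (h.mem i) (core_trF_memB h (h.mem' i))

lemma core_inv_comm {u u' y : A'} (h1 : u' * u = 1) (h2 : u * u' = 1) (h : u * y = y * u) :
    u' * y = y * u' := by
  calc u' * y = u' * y * (u * u') := by rw [h2, mul_one]
    _ = u' * (u * y) * u' := by rw [h]; simp only [mul_assoc]
    _ = y * u' := by rw [← mul_assoc, h1, one_mul]

lemma core_pr_comm {s : A' →ₗ[R] R} {B : Subalgebra R A'} {f f' : ι → A'}
    (hs : ∀ x y, s (x * y) = s (y * x)) (h : IsFrame s B.toSubmodule f f') {z : A'}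
    (hz : ∀ b ∈ B, z * b = b * z) {b : A'} (hb : b ∈ B) :
    prB s f f' z * b = b * prB s f f' z := by
  have h1 := prB_bimod hs h z B.one_mem hb
  have h2 := prB_bimod hs h z hb B.one_mem
  rw [one_mul, one_mul] at h1
  rw [mul_one, mul_one] at h2
  rw [← h1, ← h2, hz b hb]

lemma core_pr_trF {s : A' →ₗ[R] R} {B : Subalgebra R A'} {f f' : ι → A'}
    (hs : ∀ x y, s (x * y) = s (y * x)) (h : IsFrame s B.toSubmodule f f') (y : A') :
    prB s f f' (trF f f' y) = trF f f' (prB s f f' y) := by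
  simp only [trF, map_sum]
  exact Finset.sum_congr rfl (fun i _ => prB_bimod hs h y (h.mem i) (h.mem' i))

lemma core_coeff_zero_trF (F F' : ι → A'⟦X⟧) (y : A'⟦X⟧) :
    coeff 0 (trF F F' y) = trF (fun i => coeff 0 (F i)) (fun i => coeff 0 (F' i)) (coeff 0 y) := by
  simp only [trF, map_sum, coeff_zero_mul']

end CoreAux

lemma core_nu_mul {x y : K} (hx : x ∈ V.nonunits) (hy : y ∈ V) : x * y ∈ V.nonunits := by
  rw [ValuationSubring.mem_nonunits_iff] at hx ⊢
  rw [map_mul]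
  exact mul_lt_one_of_lt_of_le hx ((V.valuation_le_one_iff y).2 hy)

lemma core_nu_pow {x : K} {n : ℕ} (hx : x ^ n ∈ V.nonunits) : x ∈ V.nonunits := by
  rw [ValuationSubring.mem_nonunits_iff] at hx ⊢
  rw [map_pow] at hx
  by_contra h
  exact absurd hx (not_lt.2 (one_le_pow_of_one_le' (not_lt.1 h) n))

lemma core_nu_one : (1 : K) ∉ V.nonunits := by
  rw [ValuationSubring.mem_nonunits_iff, map_one]
  exact lt_irrefl _

lemma core_lam_alg {B : Subalgebra K A} {s : A →ₗ[K] K} {ι : Type} [Fintype ι] {f f' : ι → A}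
    {n : ℕ} {lam : Fin n → A →ₗ[K] K} (hl : Chars B s f f' lam) (i : Fin n) (v : K) :
    lam i (algebraMap K A v) = v := by
  rw [Algebra.algebraMap_eq_smul_one, map_smul, hl.one, smul_eq_mul, mul_one]

section AtZero

variable {O : Subring A} {s : A →ₗ[K] K} {B : Subalgebra K A} {ι : Type} [Fintype ι]
  {f f' : ι → A} {α : A →ₗ[K] A}

lemma core_pr_memO (hO : SymOrder V O s) (hf : ∀ i, f i ∈ O) (hf' : ∀ i, f' i ∈ O) {z : A}
    (hz : z ∈ O) : prB s f f' z ∈ O := by
  rw [prB_apply]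
  exact O.sum_mem fun i _ => hO.smul_mem _ (hO.form_mem _ (O.mul_mem hz (hf' i))) _ (hf i)

lemma core_bcent_pr (hH : Hig s B f f' α) {z : A} (hz : ∀ b ∈ B, z * b = b * z) :
    BCent B (prB s f f' z) :=
  ⟨prB_mem hH.frame z, fun _ hb => core_pr_comm hH.symm hH.frame hz hb⟩

lemma core_lam_trF (hO : SymOrder V O s) (hH : Hig s B f f' α) (hf : ∀ i, f i ∈ O)
    (hf' : ∀ i, f' i ∈ O) (hnd : ∀ b ∈ B, b ∈ O → NilMod V O (trF f f' b)) {n : ℕ}
    {lam : Fin n → A →ₗ[K] K} (hl : Chars B s f f' lam) (i : Fin n) {y : A} (hy : y ∈ O) :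
    lam i (trF f f' (prB s f f' y)) ∈ V.nonunits :=
  hl.nil hO i ⟨core_trF_memB hH.frame (prB_mem hH.frame y),
    fun _ hb => (trF_comm hH.frame _ hb).symm⟩
    (hnd _ (prB_mem hH.frame y) (core_pr_memO hO hf hf' hy))

lemma core_mu_mul (hO : SymOrder V O s) (hH : Hig s B f f' α) (hf : ∀ i, f i ∈ O)
    (hf' : ∀ i, f' i ∈ O) (hα : ∀ a ∈ O, α a ∈ O)
    (hnd : ∀ b ∈ B, b ∈ O → NilMod V O (trF f f' b)) {n : ℕ}
    {lam : Fin n → A →ₗ[K] K} (hl : Chars B s f f' lam) (i : Fin n) {z z' : A} (hz : z ∈ O)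
    (hz' : z' ∈ O) (hc : ∀ b ∈ B, z * b = b * z) (hc' : ∀ b ∈ B, z' * b = b * z') :
    lam i (prB s f f' (z * z')) - lam i (prB s f f' z) * lam i (prB s f f' z') ∈ V.nonunits := by
  rw [hH.prB_mul hc hc', map_add, hl.mul i _ _ (core_bcent_pr hH hc) (core_bcent_pr hH hc'),
    add_sub_cancel_left]
  refine core_lam_trF hO hH hf hf' hnd hl i (O.mul_mem (O.sum_mem fun j _ => O.mul_mem
    (hα _ (O.mul_mem (O.sub_mem hz (core_pr_memO hO hf hf' hz)) (hf' j))) (hf j))
    (O.sub_mem hz' (core_pr_memO hO hf hf' hz')))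

end AtZero

section SeriesAux

lemma core_extF_pr {s : A →ₗ[K] K} {B : Subalgebra K A} {ι : Type} [Fintype ι] {f f' : ι → A}
    (h : IsFrame s B.toSubmodule f f') (G : A⟦X⟧) {y : A⟦X⟧} (hy : y ∈ coefAlg B) :
    extF s (G * y) = extF s (ext (prB s f f') G * y) := by
  refine PowerSeries.ext fun m => ?_
  simp only [coeff_extF, coeff_mul, map_sum, coeff_ext]
  exact Finset.sum_congr rfl (fun q _ => (form_prB h _ (mem_coefAlg.1 hy q.2)).symm)

lemma core_comm_of_bcent {B : Subalgebra K A} {y F : A⟦X⟧} (hy : ∀ m, BCent B (coeff m y))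
    (hF : F ∈ coefAlg B) : y * F = F * y := by
  refine PowerSeries.ext fun m => ?_
  rw [coeff_mul, coeff_mul, ← Finset.Nat.sum_antidiagonal_swap]
  exact Finset.sum_congr rfl (fun q _ => (hy _).2 _ (mem_coefAlg.1 hF _))

lemma core_bcent_of_comm {B : Subalgebra K A} {y : A⟦X⟧} (hy : y ∈ coefAlg B)
    (h : ∀ F ∈ coefAlg B, y * F = F * y) (m : ℕ) : BCent B (coeff m y) := by
  refine ⟨mem_coefAlg.1 hy m, fun b hb => ?_⟩
  have hC : (C b : A⟦X⟧) ∈ coefAlg B := mem_coefAlg.2 fun k => by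
    rw [coeff_C]
    split_ifs
    · exact hb
    · exact B.zero_mem
  have := congrArg (coeff m) (h _ hC)
  rwa [coeff_mul_C, coeff_C_mul] at this

lemma core_bcent_th {B : Subalgebra K A} {y : A⟦X⟧} (hy : ∀ m, BCent B (coeff m y)) (m : ℕ) :
    BCent B (coeff m (th y)) := by
  rw [coeff_th]
  refine ⟨B.mul_mem (natCast_mem B m) (hy m).1, fun b hb => ?_⟩
  rw [mul_assoc, (hy m).2 b hb, ← mul_assoc, (Nat.cast_commute m b).eq, mul_assoc]

lemma core_central_th {y : A⟦X⟧} (hy : ∀ F, y * F = F * y) (F : A⟦X⟧) : th y * F = F * th y := by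
  refine central_series (fun m b => ?_) F
  rw [coeff_th, mul_assoc, central_coeff hy m b, ← mul_assoc, (Nat.cast_commute m b).eq, mul_assoc]

lemma core_th_st (s : A →ₗ[K] K) {g g' : A⟦X⟧} (h : g * g' = 1) (Z : A⟦X⟧) :
    st s g (th Z) + st s g (g' * th g * Z) = th (st s g Z) := by
  rw [st_apply, st_apply, st_apply, ← extF_th, th_mul, map_add, ← mul_assoc, ← mul_assoc, h,
    one_mul, add_comm]

/-- The contribution of a relative trace to the logarithmic derivative is integral. -/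
lemma core_A_err {O : Subring A} {s : A →ₗ[K] K} {Λ : Subring A⟦X⟧} {g g' : A⟦X⟧}
    (hD : Deform V O s Λ g) (hX : XCond s Λ g) (hg : g * g' = 1) (hg' : ∀ F, g' * F = F * g')
    {κ : Type} [Fintype κ] {β β' : κ → A⟦X⟧} (hβ : IsFrame (st s g) ⊤ β β')
    (hb : ∀ j, β j ∈ Λ) (hb' : ∀ j, β' j ∈ Λ) {c : A⟦X⟧} (hc : c ∈ Λ) {n : ℕ}
    {lam : Fin n → A →ₗ[K] K} (hl : ∀ ζ : Subalgebra.center K A,
      Algebra.trace K (Subalgebra.center K A) ζ = ∑ i, lam i ζ) :
    ∑ i, extF (lam i) (g' * th g * trF β β' c) ∈ VX V := by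
  obtain ⟨x, hx, hxc⟩ := hX
  have hT : ∀ F, trF β β' c * F = F * trF β β' c := fun F => (trF_comm_top hβ c F).symm
  have hζT : ∀ F, g' * th g * trF β β' c * F = F * (g' * th g * trF β β' c) := fun F => by
    rw [mul_assoc, hT, ← mul_assoc, mul_assoc g', core_central_th hD.g_comm, ← mul_assoc, hg']
    simp only [mul_assoc]
  have e1 := xcond_series hxc hl hD.g_comm (central_coeff hT)
  have e2 := xcond_series hxc hl hD.g_comm (central_coeff (core_central_th hT))
  have e3 := xcond_series hxc hl hD.g_comm (central_coeff hζT)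
  have e4 : st s g (th (trF β β' c) * x) = th (st s g (trF β β' c * x)) := by
    rw [e1, e2, map_sum]
    exact Finset.sum_congr rfl (fun i _ => extF_th _ _)
  have e5 := core_th_st s hg (trF β β' c * x)
  rw [th_mul, map_add, e4, add_assoc, add_eq_left, ← mul_assoc, e3] at e5
  rw [eq_neg_of_add_eq_zero_right e5]
  exact (VX V).neg_mem (tr_series hD hβ hb hb' hc hx)

/-- The term of the subalgebra. -/
lemma core_B_term {s : A →ₗ[K] K} {g g' : A⟦X⟧} (hg : g * g' = 1) {B : Subalgebra K A}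
    {ι : Type} [Fintype ι] {f f' : ι → A} (hf : IsFrame s B.toSubmodule f f') {n : ℕ}
    {lam : Fin n → A →ₗ[K] K} (hl : Chars B s f f' lam)
    (hγ : ∀ m, BCent B (coeff m (ext (prB s f f') g))) (hγ0 : coeff 0 (ext (prB s f f') g) = 1)
    {γ' : A⟦X⟧} (hγ' : γ' ∈ coefAlg B) (h1 : γ' * ext (prB s f f') g = 1)
    (h2 : ext (prB s f f') g * γ' = 1) {F F' : ι → A⟦X⟧}
    (hF : IsFrame (st s g) (coefAlg B).toSubmodule F F') {W : A⟦X⟧} (hW : W ∈ coefAlg B)
    (hW1 : W * trF F F' 1 = 1) :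
    st s g (g' * th g * W * handle F F') =
      ∑ i, extF (lam i) (γ' * th (ext (prB s f f') g)) := by
  have hst : ∀ y ∈ coefAlg B, st s g y = extF s (ext (prB s f f') g * y) := fun y hy => by
    rw [st_apply, core_extF_pr hf g hy]
  have hth : th (ext (prB s f f') g) ∈ coefAlg B := mem_coefAlg.2 fun m => (core_bcent_th hγ m).1
  have hζ : γ' * th (ext (prB s f f') g) ∈ coefAlg B := (coefAlg B).mul_mem hγ' hth
  have hy : W * handle F F' ∈ coefAlg B := (coefAlg B).mul_mem hW (core_handle_memB hF)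
  have hcomm : ∀ G ∈ coefAlg B, γ' * th (ext (prB s f f') g) * G =
      G * (γ' * th (ext (prB s f f') g)) := fun G hG => by
    rw [mul_assoc, core_comm_of_bcent (core_bcent_th hγ) hG, ← mul_assoc,
      core_inv_comm h1 h2 (core_comm_of_bcent hγ hG), mul_assoc]
  have e := series_handle hf hl hγ hγ0 hst hF ((coefAlg B).mul_mem hζ hW)
  rw [core_trF_mul (fun i => hcomm _ (hF.mem i)), (sep_comm hF hW hW1).2, mul_one] at e
  rw [← e, mul_assoc (γ' * _), hst _ ((coefAlg B).mul_mem hζ hy),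
    ← mul_assoc (ext (prB s f f') g), ← mul_assoc (ext (prB s f f') g), h2,
    one_mul, ← ext_th, ← core_extF_pr hf _ hy, st_apply, mul_assoc (g' * th g), ← mul_assoc g,
    ← mul_assoc g, hg, one_mul]

end SeriesAux

/-- At `t = 0`: `z ↦ lam i (prB z)` is a unital ring homomorphism modulo the maximal ideal on the
central elements of `O` (`Hig.prB_mul`, `Chars.mem`, `Chars.nil`), so kills `NilMod` elements. -/
lemma chars_prB_nil {O : Subring A} {s : A →ₗ[K] K} (hO : SymOrder V O s) {B : Subalgebra K A}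
    {ι : Type} [Fintype ι] {f f' : ι → A} {α : A →ₗ[K] A} (hH : Hig s B f f' α)
    (hf : ∀ i, f i ∈ O) (hf' : ∀ i, f' i ∈ O) (hα : ∀ a ∈ O, α a ∈ O)
    (hnd : ∀ b ∈ B, b ∈ O → NilMod V O (trF f f' b)) {n : ℕ} {lam : Fin n → A →ₗ[K] K}
    (hl : Chars B s f f' lam) (i : Fin n) {z : A} (hz : z ∈ O) (hc : ∀ a, z * a = a * z)
    (hn : NilMod V O z) : lam i (prB s f f' z) ∈ V.nonunits := by
  have hmem : ∀ y ∈ O, (∀ a, y * a = a * y) → lam i (prB s f f' y) ∈ V := fun y hy hyc =>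
    hl.mem hO i (core_bcent_pr hH fun b _ => hyc b) (core_pr_memO hO hf hf' hy)
  have hpc : ∀ (k : ℕ) (a : A), z ^ k * a = a * z ^ k := fun k a =>
    (Commute.pow_left (hc a) k).eq
  have hpow : ∀ k : ℕ, lam i (prB s f f' (z ^ k)) - lam i (prB s f f' z) ^ k ∈ V.nonunits := by
    intro k
    induction k with
    | zero =>
      rw [pow_zero, pow_zero, prB_of_mem hH.frame B.one_mem, hl.one, sub_self]
      exact V.nonunits.zero_mem
    | succ k ih =>
      have h1 := core_mu_mul hO hH hf hf' hα hnd hl i (O.pow_mem hz k) hz (fun b _ => hpc k b)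
        (fun b _ => hc b)
      have h2 := V.nonunits.add_mem h1 (core_nu_mul ih (hmem z hz hc))
      rw [pow_succ, pow_succ]
      convert h2 using 1
      ring
  obtain ⟨k, m, hm, y, hy, e⟩ := hn
  have h3 : lam i (prB s f f' (z ^ k)) ∈ V.nonunits := by
    rcases eq_or_ne m 0 with h0 | h0
    · rw [e, h0, zero_smul, map_zero, map_zero]
      exact V.nonunits.zero_mem
    · have ey : y = m⁻¹ • z ^ k := by rw [e, smul_smul, inv_mul_cancel₀ h0, one_smul]
      have hyc : ∀ a, y * a = a * y := fun a => by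
        rw [ey, smul_mul_assoc, mul_smul_comm, hpc]
      rw [e, map_smul, map_smul, smul_eq_mul]
      exact core_nu_mul hm (hmem y hy hyc)
  have h4 := V.nonunits.sub_mem h3 (hpow k)
  rw [sub_sub_cancel] at h4
  exact core_nu_pow h4

/-- `u = Tr_A w` is a unit of the order: `u - 1 ∈ O` is a relative trace (`Hig.u_sub_one`), `u` is
`v` modulo `NilMod`, and a character of `B` (there is one unless `A` is trivial) shows `v ≡ 1`. -/
lemma exists_u_inv [IsAlgClosed K] {O : Subring A} {s : A →ₗ[K] K} (hO : SymOrder V O s)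
    (hloc : LocalCentre V O) {B : Subalgebra K A}
    {ι : Type} [Fintype ι] {f f' : ι → A} {α : A →ₗ[K] A} (hH : Hig s B f f' α)
    (hf : ∀ i, f i ∈ O) (hf' : ∀ i, f' i ∈ O) (hα : ∀ a ∈ O, α a ∈ O)
    (hnd : ∀ b ∈ B, b ∈ O → NilMod V O (trF f f' b)) {w : A} (hw : w ∈ B)
    (hw1 : w * trF f f' 1 = 1) {κ : Type} [Fintype κ] {β β' : κ → A} (hβ : IsFrame s ⊤ β β')
    (hb : ∀ j, β j ∈ O) (hb' : ∀ j, β' j ∈ O) :
    ∃ u' ∈ O, u' * trF β β' w = 1 ∧ trF β β' w * u' = 1 := by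
  rcases subsingleton_or_nontrivial A with hA | hA
  · exact ⟨1, O.one_mem, Subsingleton.elim _ _, Subsingleton.elim _ _⟩
  have := hO.finiteDimensional
  have hcO : ∑ j, α (β j) * β' j ∈ O := O.sum_mem fun j _ => O.mul_mem (hα _ (hb j)) (hb' j)
  have eu := hH.u_sub_one hβ hw hw1
  have huO : trF β β' w ∈ O := by
    rw [eq_add_of_sub_eq eu]
    exact O.add_mem (core_trF_memS hf hf' hcO) O.one_mem
  have huc : ∀ a, trF β β' w * a = a * trF β β' w := fun a => (trF_comm_top hβ w a).symm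
  obtain ⟨v, hv, hn⟩ := hloc _ huO huc
  refine hO.exists_inv huO hv (fun hvn => ?_) hn
  obtain ⟨lam, hl⟩ := exists_chars hH.frame ⟨w, hw, (sep_comm hH.frame hw hw1).2⟩
  have hpos : 0 < Module.finrank K (Subalgebra.center K B) := Module.finrank_pos
  have h1 := chars_prB_nil hO hH hf hf' hα hnd hl ⟨0, hpos⟩
    (O.sub_mem huO (hO.algebraMap_mem hv))
    (fun a => by rw [sub_mul, mul_sub, huc, Algebra.commutes]) hn
  rw [eq_add_of_sub_eq eu, map_sub, map_add, core_pr_trF hH.symm hH.frame,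
    prB_of_mem hH.frame B.one_mem, prB_of_mem hH.frame (B.algebraMap_mem v), map_sub, map_add,
    hl.one, core_lam_alg hl] at h1
  have h2 := V.nonunits.add_mem (V.nonunits.sub_mem h1
    (core_lam_trF hO hH hf hf' hnd hl ⟨0, hpos⟩ hcO)) hvn
  refine core_nu_one (V := V) ?_
  convert h2 using 1
  ring

/-- `renorm`, `exists_conj` (replace `Λ` by the conjugate), `exists_lift`.  `W` inverse of
`trF F F' 1` in `coefAlg B` (`exists_inv_coefAlg`), `U = trF β β' W ∈ Λ` a unit of `Λ`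
(`exists_u_inv`, `Deform.exists_inv`), `U - 1 = trF β β' a` with `a ∈ Λ` (`Hig.u_mul`).
`ζ = g⁻¹ th g`; `st (th Z) + st (ζ Z) = th (st Z)`, so `l1_series` and `Hig.form_z` give
`st (ζ W H_A) - st (ζ W H_B) ∈ VX V`.  By `series_handle` (for `⊤` with `γ = g`, and for `B` with
`γ = ext (prB s f f'') g`) the two terms are `∑ extF lam (ζ U)` and `∑ extF lam' (γ⁻¹ th γ)`.
`∑ extF lam (ζ T) = st (ζ T x)` for `T = trF β β' a` (`xcond_series`) lies in `VX V`, being
`th (st (T x)) - st (th T * x) - st (T * th x)` with `st (th T * x) = th (st (T x))` and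
`tr_series`.  Conclude by `endgame` with `v m` from `LocalCentre` (`v 1` from `Good`),
`Chars.nil` and `chars_prB_nil`. -/
theorem core [CharZero K] [IsAlgClosed K] {p : ℕ} (hp : p.Prime) (hpV : (p : K) ∈ V.nonunits)
    {O : Subring A} (hG : Good V p O) {B : Subalgebra K A}
    {sB : A →ₗ[K] K} {ι : Type} [Fintype ι] {f f' : ι → A}
    (hfr : IsFrame sB B.toSubmodule f f') (hf : ∀ i, f i ∈ O) (hf' : ∀ i, f' i ∈ O)
    (hsB : ∀ b ∈ B, b ∈ O → sB b ∈ V) (r α : A →ₗ[K] A) (hrO : ∀ a ∈ O, r a ∈ O)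
    (hαO : ∀ a ∈ O, α a ∈ O) (hrB : ∀ y, r y ∈ B)
    (hr : ∀ b ∈ B, ∀ b' ∈ B, ∀ y, r (b * y * b') = b * r y * b') (hr1 : r 1 = 1)
    (hig : ∀ y, r y + trB f f' α y = y) (hz : ∃ w ∈ B, w * trF f f' 1 = 1)
    (hnd : ∀ b ∈ B, b ∈ O → NilMod V O (trF f f' b)) :
    Module.finrank K (Subalgebra.center K A) = Module.finrank K (Subalgebra.center K B) := by
  obtain ⟨s, Λ₀, g, hD₀, hX₀, hgO, ⟨v₁, hv₁V, hv₁, hv₁n⟩, hloc⟩ := hG
  have hO := hD₀.symOrder
  have := hO.finiteDimensional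
  obtain ⟨f'', α', hf'', hα', hH, ⟨w, hw, hw1⟩, hnd'⟩ :=
    renorm hO hfr hf hf' hsB r α hrO hαO hrB hr hr1 hig hz hnd
  obtain ⟨U₀, hU₀, hl⟩ := exists_conj hD₀ hH hf hf'' hα'
  have hD := hD₀.conj U₀ hU₀
  have hX := XCond.conj hD₀ hX₀ U₀
  generalize conjSub U₀ Λ₀ = Λ at hl hD hX
  obtain ⟨F, F', a, hF, hF', ha, hF0, hF'0, hHs⟩ := exists_lift hD hH hf hf'' hα' hl
  obtain ⟨n, β, β', hb, hb', hβ⟩ := hD.frame
  have hβ0 := hD.frame_zero hβ
  have hb0 : ∀ j, coeff 0 (β j) ∈ O := fun j => (hD.const _).2 ⟨β j, hb j, rfl⟩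
  have hb0' : ∀ j, coeff 0 (β' j) ∈ O := fun j => (hD.const _).2 ⟨β' j, hb' j, rfl⟩
  -- the inverse of the Casimir element of the subalgebra
  have hcas : coeff 0 (trF F F' 1) = trF f f'' 1 := by
    rw [core_coeff_zero_trF, funext hF0, funext hF'0, coeff_zero_one]
  obtain ⟨W, hW, hW1, -, hW0⟩ := exists_inv_coefAlg B
    (core_trF_memB hHs.frame (coefAlg B).one_mem) hw (by rw [hcas, hw1])
    (by rw [hcas, ← trF_comm hH.frame 1 hw, hw1])
  -- the unit `U`
  obtain ⟨u', hu'O, hu1, hu2⟩ := exists_u_inv hO hloc hH hf hf'' hα' hnd' hw hw1 hβ0 hb0 hb0'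
  have ha0 : ∑ j, a (β j) * β' j ∈ Λ := Λ.sum_mem fun j _ => Λ.mul_mem (ha _ (hb j)) (hb' j)
  have hUΛ : trF β β' W ∈ Λ := by
    rw [eq_add_of_sub_eq (hHs.u_sub_one hβ hW hW1)]
    exact Λ.add_mem (core_trF_memS hF hF' ha0) Λ.one_mem
  have hU0 : coeff 0 (trF β β' W) =
      trF (fun j => coeff 0 (β j)) (fun j => coeff 0 (β' j)) w := by
    rw [core_coeff_zero_trF, hW0]
  obtain ⟨U', hU'Λ, hU1, hU2⟩ := hD.exists_inv hUΛ hu'O (by rw [hU0, hu1]) (by rw [hU0, hu2])
  have hT : trF β β' W = 1 + trF β β' (U' * ∑ j, a (β j) * β' j) := by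
    rw [core_trF_mul (fun j => core_inv_comm hU1 hU2 (trF_comm_top hβ W (β j)).symm),
      ← hHs.u_mul hβ hW hW1, ← mul_assoc, hU1, one_mul, add_sub_cancel]
  -- characters
  obtain ⟨lam, hlam, htr⟩ := exists_chars_top hβ0 ⟨u' * w, by
    rw [core_trF_mul (fun j => core_inv_comm hu1 hu2 (trF_comm_top hβ0 w _).symm), hu1]⟩
  obtain ⟨lam', hlam'⟩ := exists_chars hH.frame ⟨w, hw, (sep_comm hH.frame hw hw1).2⟩
  obtain ⟨g', hg1, -, hg'⟩ := hD.exists_g_inv
  have hζ : ∀ G, g' * th g * G = G * (g' * th g) := fun G => by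
    rw [mul_assoc, core_central_th hD.g_comm, ← mul_assoc, hg', mul_assoc]
  have hgc : ∀ m, BCent (⊤ : Subalgebra K A) (coeff m g) :=
    fun m => ⟨trivial, fun b _ => hD.central m b⟩
  have hζc : ∀ m, BCent (⊤ : Subalgebra K A) (coeff m (g' * th g)) :=
    fun m => ⟨trivial, fun b _ => central_coeff hζ m b⟩
  have hγ : ∀ m, BCent B (coeff m (ext (prB s f f'') g)) := fun m => by
    rw [coeff_ext]
    exact core_bcent_pr hH fun b _ => hD.central m b
  have hγ0 : coeff 0 (ext (prB s f f'') g) = 1 := by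
    rw [coeff_ext, hD.g_zero, prB_of_mem hH.frame B.one_mem]
  obtain ⟨γ', hγ', hγ1, hγ2, -⟩ := exists_inv_coefAlg B (mem_coefAlg.2 fun m => (hγ m).1)
    B.one_mem (by rw [hγ0, one_mul]) (by rw [hγ0, one_mul])
  have hγ'c : ∀ m, BCent B (coeff m (γ' * th (ext (prB s f f'') g))) :=
    core_bcent_of_comm ((coefAlg B).mul_mem hγ' (mem_coefAlg.2 fun m => (core_bcent_th hγ m).1))
      (fun G hG => by
        rw [mul_assoc, core_comm_of_bcent (core_bcent_th hγ) hG, ← mul_assoc,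
          core_inv_comm hγ1 hγ2 (core_comm_of_bcent hγ hG), mul_assoc])
  -- the two terms
  have eB := core_B_term hg1 hH.frame hlam' hγ hγ0 hγ' hγ1 hγ2 hHs.frame hW hW1
  have eA : st s g (g' * th g * W * handle β β') = ∑ i, extF (lam i) (g' * th g) +
      ∑ i, extF (lam i) (g' * th g * trF β β' (U' * ∑ j, a (β j) * β' j)) := by
    have htop : (coefAlg (⊤ : Subalgebra K A)).toSubmodule = ⊤ :=
      eq_top_iff.2 fun y _ => mem_coefAlg.2 fun _ => trivial
    rw [series_handle (B := ⊤) (by rw [Algebra.top_toSubmodule]; exact hβ0) hlam hgc hD.g_zero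
      (fun y _ => st_apply s g y) (by rw [htop]; exact hβ) (mem_coefAlg.2 fun _ => trivial),
      core_trF_mul (fun j => hζ (β j)), hT, mul_add, mul_one, ← Finset.sum_add_distrib]
    exact Finset.sum_congr rfl (fun i _ => map_add _ _ _)
  have hZ : zA F F' β β' a + zB F F' β β' a ∈ Λ :=
    Λ.add_mem
      (Λ.sum_mem fun j _ => Λ.sum_mem fun h _ => Λ.mul_mem (Λ.mul_mem (ha _ (hb j)) (hF h))
        (core_trF_memS hb hb' (Λ.mul_mem (hF' h) (hb' j))))
      (Λ.sum_mem fun j _ => Λ.sum_mem fun h _ => Λ.mul_mem (Λ.mul_mem (ha _ (hb j)) (hF h))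
        (core_trF_memS hF hF' (Λ.mul_mem (hF' h) (hb' j))))
  have hint : ∑ i, extF (lam i) (g' * th g) -
      ∑ j, extF (lam' j) (γ' * th (ext (prB s f f'') g)) ∈ VX V := by
    have h1 : st s g (g' * th g * (zA F F' β β' a + zB F F' β β' a)) ∈ VX V := by
      rw [eq_sub_of_add_eq' (core_th_st s hg1 (zA F F' β β' a + zB F F' β β' a))]
      exact (VX V).sub_mem (th_mem_coefSub (hD.form_mem _ hZ))
        (l1_series hD hHs hF hF' ha hβ hb hb')
    rw [hHs.form_z hβ hW hW1 hζ, eA, eB] at h1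
    have h2 := (VX V).sub_mem h1
      (core_A_err hD hX hg1 hg' hβ hb hb' (Λ.mul_mem hU'Λ ha0) htr)
    convert h2 using 1
    ring
  -- the common residues
  have hgm : ∀ (m : ℕ) (b : A), (p : K) ^ m • coeff m g * b = b * (p : K) ^ m • coeff m g :=
    fun m b => by rw [smul_mul_assoc, mul_smul_comm, hD.central]
  have hv : ∀ m : ℕ, ∃ v ∈ V, (m = 1 → v ∉ V.nonunits) ∧
      NilMod V O ((p : K) ^ m • coeff m g - algebraMap K A v) := fun m => by
    rcases eq_or_ne m 1 with rfl | hm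
    · exact ⟨v₁, hv₁V, fun _ => hv₁, by rwa [pow_one]⟩
    · obtain ⟨v, hv, hn⟩ := hloc _ (hgO m) (hgm m)
      exact ⟨v, hv, fun h => absurd h hm, hn⟩
  choose v hvV hv1 hvn using hv
  have hcen : ∀ (m : ℕ) (b : A), ((p : K) ^ m • coeff m g - algebraMap K A (v m)) * b =
      b * ((p : K) ^ m • coeff m g - algebraMap K A (v m)) := fun m b => by
    rw [sub_mul, mul_sub, hgm, Algebra.commutes]
  refine endgame hp hpV (fun i => extF (lam i) g) (fun i => extF (lam i) (g' * th g))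
    (fun j => extF (lam' j) (ext (prB s f f'') g))
    (fun j => extF (lam' j) (γ' * th (ext (prB s f f'') g))) (fun i => ?_) (fun j => ?_)
    (fun i => ?_) (fun j => ?_) v hvV (hv1 1 rfl) (fun i m => ?_) (fun j m => ?_) hint
  · rw [coeff_extF, hD.g_zero, hlam.one]
  · rw [coeff_extF, hγ0, hlam'.one]
  · rw [← extF_mul hlam i hgc hζc, ← mul_assoc, hg1, one_mul, extF_th]
  · rw [← extF_mul hlam' j hγ hγ'c, ← mul_assoc, hγ2, one_mul, extF_th]
  · have := hlam.nil hO i ⟨trivial, fun b _ => hcen m b⟩ (hvn m)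
    rwa [map_sub, map_smul, core_lam_alg hlam, smul_eq_mul, ← coeff_extF] at this
  · have := chars_prB_nil hO hH hf hf'' hα' hnd' hlam' j
      (O.sub_mem (hgO m) (hO.algebraMap_mem (hvV m))) (hcen m) (hvn m)
    rwa [map_sub, map_smul, prB_of_mem hH.frame (B.algebraMap_mem _), map_sub, map_smul,
      core_lam_alg hlam', smul_eq_mul, ← coeff_ext, ← coeff_extF] at this

end Pool.Agent.Lib.MP_b6945b_al.St
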