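import Pool.Agent.Lib.MP_b6945b_al.St.Order
import Pool.Agent.Lib.MP_b6945b_al.St.Rat

set_option autoImplicit false

/-!
Changing the form on the subalgebra to the restriction of the form of the big algebra.
-/

namespace Pool.Agent.Lib.MP_b6945b_al.St

variable {K : Type} [Field K] {V : ValuationSubring K} {A : Type} [Ring A] [Algebra K A]

/-- A linear functional on the span of a frame is represented by an element of the span. -/
lemma renorm_rep {U : Submodule K A} {t : A →ₗ[K] K} {ι : Type} [Fintype ι] {f f' : ι → A}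
    (h : IsFrame t U f f') (l : A →ₗ[K] K) {c : A} (hc : c ∈ U) :
    t ((∑ i, l (f i) • f' i) * c) = l c := by
  conv_rhs => rw [← h.repro c hc]
  simp only [Finset.sum_mul, map_sum, smul_mul_assoc, map_smul, smul_eq_mul]
  exact Finset.sum_congr rfl (fun i _ => by rw [h.symm _ (h.mem' i) _ hc, mul_comm])

lemma renorm_trF_mem {B : Subalgebra K A} {t : A →ₗ[K] K} {ι : Type} [Fintype ι] {f f' : ι → A}
    (h : IsFrame t B.toSubmodule f f') {c : A} (hc : c ∈ B) : trF f f' c ∈ B :=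
  B.sum_mem (fun i _ => B.mul_mem (B.mul_mem (h.mem i) hc) (h.mem' i))

/-- The two-sided trace of an element commuting with `B` is a relative trace. -/
lemma renorm_trB {B : Subalgebra K A} {t : A →ₗ[K] K} {ι : Type} [Fintype ι] {f f' : ι → A}
    (h : IsFrame t B.toSubmodule f f') (α : A →ₗ[K] A) {z : A} (hz : ∀ b ∈ B, z * b = b * z) :
    trB f f' α z = trF f f' (∑ j, α (z * f' j) * f j) := by
  unfold trB trF
  refine Finset.sum_congr rfl (fun i _ => ?_)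
  have hF : IsBilin K (fun x y : A => α (z * y) * x) := by
    constructor <;> intros <;> simp [mul_add, add_mul]
  have h1 := h.slideB_right hF (h.mem' i)
  rw [mul_assoc, Finset.sum_mul]
  simp only [mul_assoc]
  rw [h1, Finset.mul_sum]
  refine Finset.sum_congr rfl (fun j _ => ?_)
  rw [← mul_assoc (f' i) z, ← hz _ (h.mem' i), mul_assoc]

/-- The element comparing the two forms on `B` is invertible in `B ∩ O`. -/
lemma renorm_unit {O : Subring A} {s : A →ₗ[K] K} (hO : SymOrder V O s) {B : Subalgebra K A}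
    {sB : A →ₗ[K] K} {ι : Type} [Fintype ι] {f f' : ι → A}
    (hfr : IsFrame sB B.toSubmodule f f') (hf : ∀ i, f i ∈ O) (hf' : ∀ i, f' i ∈ O)
    (hsB : ∀ b ∈ B, b ∈ O → sB b ∈ V) (r α : A →ₗ[K] A) (hrO : ∀ a ∈ O, r a ∈ O)
    (hαO : ∀ a ∈ O, α a ∈ O) (hrB : ∀ y, r y ∈ B)
    (hr : ∀ b ∈ B, ∀ b' ∈ B, ∀ y, r (b * y * b') = b * r y * b') (hr1 : r 1 = 1)
    (hig : ∀ y, r y + trB f f' α y = y)
    (hnd : ∀ b ∈ B, b ∈ O → NilMod V O (trF f f' b)) {π : A} (hπB : π ∈ B)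
    (hπ : ∀ b ∈ B, sB (π * b) = s b) : ∃ π' ∈ B, π' ∈ O ∧ π * π' = 1 := by
  obtain ⟨n, β, β', hβ, hβ', hfβ⟩ := hO.frame
  have := hO.finiteDimensional
  obtain ⟨y₀, hy₀O, hy₀⟩ : ∃ y₀ ∈ O, ∀ a, s (y₀ * a) = sB (r a) :=
    ⟨∑ j, (sB ∘ₗ r) (β j) • β' j,
      O.sum_mem (fun j _ => hO.smul_mem _ (hsB _ (hrB _) (hrO _ (hβ j))) _ (hβ' j)),
      fun a => renorm_rep hfβ (sB ∘ₗ r) trivial⟩
  have hrl : ∀ b ∈ B, ∀ y, r (b * y) = b * r y := fun b hb y => by
    simpa using hr b hb 1 B.one_mem y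
  have hrr : ∀ b ∈ B, ∀ y, r (y * b) = r y * b := fun b hb y => by
    simpa using hr 1 B.one_mem b hb y
  have hcomm : ∀ b ∈ B, y₀ * b = b * y₀ := by
    intro b hb
    refine hfβ.ext trivial trivial (fun x _ => ?_)
    rw [mul_assoc, hy₀, hrl b hb, hfr.symm b hb _ (hrB x), ← hrr b hb, ← hy₀, mul_assoc b,
      hO.symm b, mul_assoc]
  obtain ⟨a, haO, ha⟩ : ∃ a ∈ O, r y₀ + trF f f' a = y₀ :=
    ⟨∑ j, α (y₀ * f' j) * f j,
      O.sum_mem (fun j _ => O.mul_mem (hαO _ (O.mul_mem hy₀O (hf' j))) (hf j)),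
      by rw [← renorm_trB hfr α hcomm, hig]⟩
  obtain ⟨a₁, ha₁B, ha₁O, ha₁⟩ : ∃ a₁ ∈ B, a₁ ∈ O ∧ ∀ c ∈ B, sB (a₁ * c) = s (a * c) :=
    ⟨∑ i, (s ∘ₗ LinearMap.mulLeft K a) (f i) • f' i,
      B.sum_mem (fun i _ => B.smul_mem (hfr.mem' i) _),
      O.sum_mem (fun i _ => hO.smul_mem _ (hO.form_mem _ (O.mul_mem haO (hf i))) _ (hf' i)),
      fun c hc => renorm_rep hfr (s ∘ₗ LinearMap.mulLeft K a) hc⟩
  have hzB : trF f f' a₁ ∈ B := renorm_trF_mem hfr ha₁B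
  have hone : π * r y₀ = 1 - trF f f' a₁ := by
    rw [eq_sub_iff_add_eq]
    refine hfr.ext (B.add_mem (B.mul_mem hπB (hrB _)) hzB) B.one_mem (fun b hb => ?_)
    have h1 : sB (trF f f' a₁ * b) = s (trF f f' a * b) := by
      simp only [trF, Finset.sum_mul, map_sum]
      refine Finset.sum_congr rfl (fun i _ => ?_)
      have hm : f' i * b ∈ B := B.mul_mem (hfr.mem' i) hb
      rw [mul_assoc, mul_assoc, hfr.symm _ (hfr.mem i) _ (B.mul_mem ha₁B hm), mul_assoc,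
        ha₁ _ (B.mul_mem hm (hfr.mem i)), ← mul_assoc a, hO.symm _ (f i)]
      simp only [mul_assoc]
    have h2 : r b = b := by simpa [hr1] using hrl b hb 1
    rw [add_mul, map_add, h1, mul_assoc, hπ _ (B.mul_mem (hrB _) hb), ← map_add, ← add_mul, ha,
      hy₀, h2, one_mul]
  obtain ⟨w, hwO, hw1, hw2⟩ := hO.exists_inv_one_sub
    (O.sum_mem (fun i _ => O.mul_mem (O.mul_mem (hf i) ha₁O) (hf' i))) (hnd a₁ ha₁B ha₁O)
  have hwB : w ∈ B := (inv_mem_of_finite B (B.sub_mem B.one_mem hzB) hw1).1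
  exact ⟨r y₀ * w, B.mul_mem (hrB _) hwB, O.mul_mem (hrO _ hy₀O) hwO, by
    rw [← mul_assoc, hone]; exact hw2⟩

/-- Let `(β, β')` be a frame of `O`.  Put `π = ∑ s (f i) • f' i` (so `s b = sB (π b)` on `B`, `π`
central in `B`), `y₀ = ∑ sB (r (β j)) • β' j` (so `s (y₀ a) = sB (r a)`, and `y₀` commutes with
`B`).  Then `y₀ = r y₀ + trF f f' a` with `a = ∑ α (y₀ f' j) f j`, and with
`a₁ = ∑ s (a f i) • f' i` one gets `1 = π r y₀ + trF f f' a₁`, so `π` has an inverse `π'` in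
`B ∩ O` (`exists_inv_one_sub`, `inv_mem_of_finite`).  Take `f'' i = π' f' i` and
`α' y = q (α (π q y π))` with `q = 1 - prB s f f''`; `q` is a bimodule map killing `B`. -/
theorem renorm {O : Subring A} {s : A →ₗ[K] K} (hO : SymOrder V O s) {B : Subalgebra K A}
    {sB : A →ₗ[K] K} {ι : Type} [Fintype ι] {f f' : ι → A}
    (hfr : IsFrame sB B.toSubmodule f f') (hf : ∀ i, f i ∈ O) (hf' : ∀ i, f' i ∈ O)
    (hsB : ∀ b ∈ B, b ∈ O → sB b ∈ V) (r α : A →ₗ[K] A) (hrO : ∀ a ∈ O, r a ∈ O)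
    (hαO : ∀ a ∈ O, α a ∈ O) (hrB : ∀ y, r y ∈ B)
    (hr : ∀ b ∈ B, ∀ b' ∈ B, ∀ y, r (b * y * b') = b * r y * b') (hr1 : r 1 = 1)
    (hig : ∀ y, r y + trB f f' α y = y) (hz : ∃ w ∈ B, w * trF f f' 1 = 1)
    (hnd : ∀ b ∈ B, b ∈ O → NilMod V O (trF f f' b)) :
    ∃ (f'' : ι → A) (α' : A →ₗ[K] A), (∀ i, f'' i ∈ O) ∧ (∀ a ∈ O, α' a ∈ O) ∧
      Hig s B f f'' α' ∧ (∃ w ∈ B, w * trF f f'' 1 = 1) ∧
      ∀ b ∈ B, b ∈ O → NilMod V O (trF f f'' b) := by
  obtain ⟨π, hπB, hπO, hπ⟩ : ∃ π ∈ B, π ∈ O ∧ ∀ b ∈ B, sB (π * b) = s b :=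
    ⟨∑ i, s (f i) • f' i, B.sum_mem (fun i _ => B.smul_mem (hfr.mem' i) _),
      O.sum_mem (fun i _ => hO.smul_mem _ (hO.form_mem _ (hf i)) _ (hf' i)),
      fun b hb => renorm_rep hfr s hb⟩
  have hπc : ∀ b ∈ B, π * b = b * π := by
    intro b hb
    refine hfr.ext (B.mul_mem hπB hb) (B.mul_mem hb hπB) (fun x hx => ?_)
    rw [mul_assoc, hπ _ (B.mul_mem hb hx), hO.symm, ← hπ _ (B.mul_mem hx hb), mul_assoc b,
      hfr.symm b hb _ (B.mul_mem hπB hx), mul_assoc]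
  obtain ⟨π', hπ'B, hπ'O, h1⟩ :=
    renorm_unit hO hfr hf hf' hsB r α hrO hαO hrB hr hr1 hig hnd hπB hπ
  have h2 : π' * π = 1 := by rw [← hπc _ hπ'B, h1]
  have hπ'c : ∀ b ∈ B, π' * b = b * π' := by
    intro b hb
    calc π' * b = π' * b * (π * π') := by rw [h1, mul_one]
      _ = π' * (π * b) * π' := by rw [hπc b hb]; simp only [mul_assoc]
      _ = b * π' := by rw [← mul_assoc, h2, one_mul]
  have hfr' : IsFrame s B.toSubmodule f (fun i => π' * f' i) := by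
    refine ⟨hfr.mem, fun i => B.mul_mem hπ'B (hfr.mem' i), fun x _ y _ => hO.symm x y,
      fun y hy => ?_⟩
    conv_rhs => rw [← hfr.repro y hy]
    refine Finset.sum_congr rfl (fun i _ => ?_)
    rw [← hπ _ (B.mul_mem hy (B.mul_mem hπ'B (hfr.mem' i))), ← mul_assoc y, ← hπ'c y hy,
      ← mul_assoc, ← mul_assoc, h1, one_mul]
  obtain ⟨q, hq⟩ : ∃ q : A →ₗ[K] A, ∀ y, q y = y - prB s f (fun i => π' * f' i) y :=
    ⟨LinearMap.id - prB s f (fun i => π' * f' i), fun _ => rfl⟩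
  have hqO : ∀ a ∈ O, q a ∈ O := fun a ha => by
    rw [hq, prB_apply]
    exact O.sub_mem ha (O.sum_mem (fun i _ => hO.smul_mem _
      (hO.form_mem _ (O.mul_mem ha (O.mul_mem hπ'O (hf' i)))) _ (hf i)))
  have hqB : ∀ b ∈ B, q b = 0 := fun b hb => by rw [hq, prB_of_mem hfr' hb, sub_self]
  have hqbi : ∀ b ∈ B, ∀ b' ∈ B, ∀ y, q (b * y * b') = b * q y * b' := fun b hb b' hb' y => by
    rw [hq, hq, prB_bimod hO.symm hfr' y hb hb', mul_sub, sub_mul]
  have htr : ∀ c, trF f (fun i => π' * f' i) c = trF f f' (c * π') := fun c => by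
    simp only [trF, mul_assoc]
  refine ⟨fun i => π' * f' i,
    q ∘ₗ α ∘ₗ LinearMap.mulRight K π ∘ₗ LinearMap.mulLeft K π ∘ₗ q,
    fun i => O.mul_mem hπ'O (hf' i),
    fun a ha => hqO _ (hαO _ (O.mul_mem (O.mul_mem hπO (hqO a ha)) hπO)),
    ⟨hO.symm, hfr', fun y b hb => ?_, fun b hb => ?_, fun y hy => ?_⟩, ?_, fun b hb hbO => ?_⟩
  · rw [LinearMap.comp_apply, hq, sub_mul, map_sub, form_prB hfr' _ hb, sub_self]
  · simp [hqB b hb]
  · have hy' : q y = y := by rw [hq, prB_eq_zero hfr' hy, sub_zero]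
    have h3 : q (trB f f' α y) = y := by
      have := congrArg q (hig y)
      rwa [map_add, hqB _ (hrB y), zero_add, hy'] at this
    conv_rhs => rw [← h3]
    simp only [trB, map_sum, LinearMap.comp_apply, LinearMap.mulLeft_apply,
      LinearMap.mulRight_apply]
    refine Finset.sum_congr rfl (fun i _ => Finset.sum_congr rfl (fun j _ => ?_))
    rw [hqbi _ (hfr.mem i) _ (hfr.mem j), hqbi _ (hfr'.mem' i) _ (hfr'.mem' j), hy']
    congr 4
    calc π * (π' * f' i * y * (π' * f' j)) * π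
        = π * π' * f' i * y * (π' * (f' j * π)) := by simp only [mul_assoc]
      _ = f' i * y * f' j := by
        rw [h1, one_mul, ← hπc _ (hfr.mem' j), ← mul_assoc π', h2, one_mul]
  · obtain ⟨w, hw, hw1⟩ := hz
    refine ⟨w * π, B.mul_mem hw hπB, ?_⟩
    have h4 : trF f f' (1 * π') = π' * trF f f' 1 := by
      simp only [trF, Finset.mul_sum, one_mul, mul_one]
      exact Finset.sum_congr rfl (fun i _ => by rw [← hπ'c _ (hfr.mem i), mul_assoc])
    rw [htr, h4, mul_assoc, ← mul_assoc π, h1, one_mul, hw1]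
  · rw [htr]
    exact hnd _ (B.mul_mem hb hπ'B) (O.mul_mem hbO hπ'O)

end Pool.Agent.Lib.MP_b6945b_al.St
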