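import Pool.Agent.Lib.MP_b6945b_al.St.DefD

set_option autoImplicit false

/-!
The lattice spanned by the deformed group elements.
-/

namespace Pool.Agent.Lib.MP_b6945b_al.St

open PowerSeries
open MonoidAlgebra (single domCongr)

section General

variable {K : Type} [Field K] {A : Type} [Ring A] [Algebra K A]

/-- The operator `F ↦ ∑ c i F • Y i`. -/
noncomputable def defd2_op {ι : Type} [Fintype ι] (c : ι → A⟦X⟧ →ₗ[K⟦X⟧] K⟦X⟧) (Y : ι → A⟦X⟧) :
    A⟦X⟧ →ₗ[K⟦X⟧] A⟦X⟧ :=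
  ∑ i, (c i).smulRight (Y i)

lemma defd2_op_apply {ι : Type} [Fintype ι] (c : ι → A⟦X⟧ →ₗ[K⟦X⟧] K⟦X⟧) (Y : ι → A⟦X⟧)
    (F : A⟦X⟧) : defd2_op c Y F = ∑ i, c i F • Y i := by
  simp [defd2_op]

lemma defd2_coeff_zero_op {ι : Type} [Fintype ι] (c : ι → A⟦X⟧ →ₗ[K⟦X⟧] K⟦X⟧) (Y : ι → A⟦X⟧)
    (F : A⟦X⟧) : coeff 0 (defd2_op c Y F) = ∑ i, coeff 0 (c i F) • coeff 0 (Y i) := by
  rw [defd2_op_apply, map_sum]
  exact Finset.sum_congr rfl fun i _ => coeff_zero_ps_smul _ _

lemma defd2_extF_C (s : A →ₗ[K] K) (a : A) : extF s (C a : A⟦X⟧) = C (s a) := by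
  ext n
  rw [coeff_extF, coeff_C, coeff_C]
  split_ifs <;> simp

/-- The series whose coordinates are integral. -/
def defd2_lat (V : ValuationSubring K) {ι : Type} (c : ι → A⟦X⟧ →ₗ[K⟦X⟧] K⟦X⟧) :
    AddSubgroup A⟦X⟧ where
  carrier := {F | ∀ i, c i F ∈ VX V}
  zero_mem' := fun i => by rw [map_zero]; exact zero_mem _
  add_mem' := fun ha hb i => by rw [map_add]; exact add_mem (ha i) (hb i)
  neg_mem' := fun ha i => by rw [map_neg]; exact neg_mem (ha i)

variable {V : ValuationSubring K} {ι : Type} {c : ι → A⟦X⟧ →ₗ[K⟦X⟧] K⟦X⟧}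

lemma defd2_lat_smul {r : K⟦X⟧} (hr : r ∈ VX V) {F : A⟦X⟧} (hF : F ∈ defd2_lat V c) :
    r • F ∈ defd2_lat V c := fun i => by
  rw [map_smul, smul_eq_mul]; exact mul_mem hr (hF i)

lemma defd2_lat_closed : Closed ((defd2_lat V c : AddSubgroup A⟦X⟧) : Set A⟦X⟧) := by
  intro F hF i
  refine closed_VX _ fun n => ?_
  obtain ⟨G, hG, h⟩ := hF n
  exact ⟨c i G, hG i, by rw [← map_sub]; exact h.mapF _⟩

/-- Series that agree with an element of `L` to order `n`. -/
def defd2_near (L : AddSubgroup A⟦X⟧) (n : ℕ) : AddSubgroup A⟦X⟧ where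
  carrier := {F | ∃ H ∈ L, Ord n (F - H)}
  zero_mem' := ⟨0, zero_mem _, by simpa using Ord.zero n⟩
  add_mem' := by
    rintro a b ⟨H, hH, h⟩ ⟨H', hH', h'⟩
    refine ⟨H + H', add_mem hH hH', ?_⟩
    have := h.add h'
    rwa [show a - H + (b - H') = a + b - (H + H') by abel] at this
  neg_mem' := by
    rintro a ⟨H, hH, h⟩
    refine ⟨-H, neg_mem hH, ?_⟩
    have := h.neg
    rwa [show -(a - H) = -a - -H by abel] at this

lemma defd2_near_of_mem {L : AddSubgroup A⟦X⟧} (n : ℕ) {F : A⟦X⟧} (h : F ∈ L) :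
    F ∈ defd2_near L n := ⟨F, h, by simpa using Ord.zero n⟩

lemma defd2_near_mono {L : AddSubgroup A⟦X⟧} {n : ℕ} {F : A⟦X⟧} (h : F ∈ defd2_near L (n + 1)) :
    F ∈ defd2_near L n := let ⟨H, a, b⟩ := h; ⟨H, a, b.mono (Nat.le_succ n)⟩

lemma defd2_near_X {n : ℕ} {F : A⟦X⟧} (h : F ∈ defd2_near (defd2_lat V c) n) :
    X * F ∈ defd2_near (defd2_lat V c) (n + 1) := by
  obtain ⟨H, a, b⟩ := h
  refine ⟨X * H, ?_, by rw [← mul_sub]; exact b.X_mul⟩
  rw [← X_ps_smul (S := K)]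
  exact defd2_lat_smul X_mem_VX a

lemma defd2_near_smul {n : ℕ} {r : K⟦X⟧} (hr : r ∈ VX V) {F : A⟦X⟧}
    (h : F ∈ defd2_near (defd2_lat V c) n) : r • F ∈ defd2_near (defd2_lat V c) n := by
  obtain ⟨H, a, b⟩ := h
  exact ⟨r • H, defd2_lat_smul hr a, by rw [← smul_sub]; exact b.smul r⟩

lemma defd2_near_mul {L : AddSubgroup A⟦X⟧} {n : ℕ}
    (hP : ∀ F ∈ L, ∀ G ∈ L, F * G ∈ defd2_near L n) {F G : A⟦X⟧}
    (hF : F ∈ defd2_near L n) (hG : G ∈ defd2_near L n) : F * G ∈ defd2_near L n := by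
  obtain ⟨H, a, b⟩ := hF
  obtain ⟨H', a', b'⟩ := hG
  obtain ⟨J, d, e⟩ := hP H a H' a'
  refine ⟨J, d, ?_⟩
  have := ((b.mul_right G).add (b'.mul_left H)).add e
  rwa [show (F - H) * G + H * (G - H') + (H * H' - J) = F * G - J by noncomm_ring] at this

/-- Products of basis elements control all products. -/
lemma defd2_mul_basis [Fintype ι] {Y : ι → A⟦X⟧} (hrep : ∀ F, ∑ i, c i F • Y i = F)
    {n : ℕ} (h : ∀ i j, Y i * Y j ∈ defd2_near (defd2_lat V c) n) :
    ∀ F ∈ defd2_lat V c, ∀ G ∈ defd2_lat V c, F * G ∈ defd2_near (defd2_lat V c) n := by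
  intro F hF G hG
  rw [← hrep F, ← hrep G, Finset.sum_mul_sum]
  refine sum_mem fun i _ => sum_mem fun j _ => ?_
  rw [smul_mul_assoc, mul_smul_comm]
  exact defd2_near_smul (hF i) (defd2_near_smul (hG j) (h i j))

lemma defd2_map_smul {A' : Type} [Ring A'] [Algebra K A'] (ψ : A →+* A')
    (hψ : ∀ k, ψ (algebraMap K A k) = algebraMap K A' k) (r : K⟦X⟧) (F : A⟦X⟧) :
    PowerSeries.map ψ (r • F) = r • PowerSeries.map ψ F := by
  rw [ps_smul_def, ps_smul_def, map_mul]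
  congr 1
  ext n
  simp only [coeff_map, hψ]

lemma defd2_st_smul (s : A →ₗ[K] K) (g : A⟦X⟧) [Fintype ι] (r : ι → K⟦X⟧) (Y : ι → A⟦X⟧)
    (z : A⟦X⟧) : st s g ((∑ i, r i • Y i) * z) = ∑ i, r i * st s g (Y i * z) := by
  rw [Finset.sum_mul, map_sum]
  exact Finset.sum_congr rfl fun i _ => by rw [smul_mul_assoc, map_smul, smul_eq_mul]

/-- Coordinates with respect to a family that reduces to an orthogonal frame. -/
lemma defd2_coord [Fintype ι] [DecidableEq ι] {s : A →ₗ[K] K} {e e' : ι → A}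
    (he : IsFrame s ⊤ e e') (ho : ∀ i j, s (e i * e' j) = if i = j then 1 else 0)
    {Y : ι → A⟦X⟧} (hY : ∀ i, coeff 0 (Y i) = e i) :
    ∃ c : ι → A⟦X⟧ →ₗ[K⟦X⟧] K⟦X⟧, (∀ F, ∑ i, c i F • Y i = F) ∧
      (∀ i j, c j (Y i) = if i = j then 1 else 0) ∧
      (∀ i F, coeff 0 (c i F) = s (coeff 0 F * e' i)) ∧
      ∀ a, ∃ F, coeff 0 F = a ∧ ∀ i, c i F = C (s (a * e' i)) := by
  let c0 : ι → A⟦X⟧ →ₗ[K⟦X⟧] K⟦X⟧ := fun i => extF (s ∘ₗ LinearMap.mulRight K (e' i))
  have hc0 : ∀ i a, c0 i (C a) = C (s (a * e' i)) := fun i a => defd2_extF_C _ _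
  have hT : ∀ F, coeff 0 (defd2_op c0 Y F) = coeff 0 F := fun F => by
    rw [defd2_coeff_zero_op]
    conv_rhs => rw [← he.repro (coeff 0 F) trivial]
    exact Finset.sum_congr rfl fun i _ => by simp [c0, hY]
  obtain ⟨T', h1, h2, h3, -⟩ := exists_neumann _ hT
  refine ⟨fun i => c0 i ∘ₗ T', fun F => ?_, fun i j => ?_, fun i F => ?_, fun a => ?_⟩
  · have := h1 F
    rwa [defd2_op_apply] at this
  · have : defd2_op c0 Y (C (e i)) = Y i := by
      rw [defd2_op_apply, Finset.sum_eq_single i]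
      · rw [hc0, ho, if_pos rfl, map_one, one_smul]
      · intro j _ hj
        rw [hc0, ho, if_neg (Ne.symm hj), map_zero, zero_smul]
      · simp
    rw [LinearMap.comp_apply, ← this, h2, hc0, ho]
    split_ifs <;> simp
  · rw [LinearMap.comp_apply, ← h3 F]
    simp [c0]
  · refine ⟨defd2_op c0 Y (C a), by rw [hT, coeff_zero_C], fun i => ?_⟩
    rw [LinearMap.comp_apply, h2, hc0]

/-- The series representing a coordinate. -/
lemma defd2_dual [Fintype ι] [DecidableEq ι] {s : A →ₗ[K] K} {e e' : ι → A}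
    (he : IsFrame s ⊤ e e') (ho : ∀ i j, s (e i * e' j) = if i = j then 1 else 0)
    {Y : ι → A⟦X⟧} (hY : ∀ i, coeff 0 (Y i) = e i) (i₀ : ι) :
    ∃ g : A⟦X⟧, coeff 0 g = e' i₀ ∧ (∀ i, extF s (g * Y i) = if i = i₀ then 1 else 0) ∧
      ∀ g' : A⟦X⟧, (∀ i, extF s (g' * Y i) = if i = i₀ then 1 else 0) → g' = g := by
  let c0 : ι → A⟦X⟧ →ₗ[K⟦X⟧] K⟦X⟧ := fun i => extF s ∘ₗ LinearMap.mulRight K⟦X⟧ (Y i)
  have hc0 : ∀ i F, c0 i F = extF s (F * Y i) := fun _ _ => rfl
  have hT : ∀ F, coeff 0 (defd2_op c0 (fun i => C (e' i)) F) = coeff 0 F := fun F => by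
    rw [defd2_coeff_zero_op]
    conv_rhs => rw [← he.repro' (coeff 0 F) trivial]
    exact Finset.sum_congr rfl fun i _ => by
      rw [hc0, coeff_extF, coeff_zero_mul', hY, coeff_zero_C]
  obtain ⟨T', h1, h2, h3, -⟩ := exists_neumann _ hT
  have hd : ∀ i j, extF (s ∘ₗ LinearMap.mulLeft K (e i)) (C (e' j) : A⟦X⟧) =
      if i = j then 1 else 0 := fun i j => by
    rw [defd2_extF_C, LinearMap.comp_apply, LinearMap.mulLeft_apply, ho]
    split_ifs <;> simp
  refine ⟨T' (C (e' i₀)), by rw [h3, coeff_zero_C], fun i => ?_, fun g' hg' => ?_⟩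
  · have := congrArg (extF (s ∘ₗ LinearMap.mulLeft K (e i))) (h1 (C (e' i₀)))
    rw [defd2_op_apply, map_sum, hd, Finset.sum_eq_single i] at this
    · rwa [map_smul, hd, if_pos rfl, smul_eq_mul, mul_one] at this
    · intro j _ hj
      rw [map_smul, hd, if_neg (Ne.symm hj), smul_zero]
    · simp
  · rw [← h2 g']
    congr 1
    rw [defd2_op_apply, Finset.sum_eq_single i₀]
    · rw [hc0, hg', if_pos rfl, one_smul]
    · intro j _ hj
      rw [hc0, hg', if_neg hj, zero_smul]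
    · simp

/-- Correcting an approximate frame. -/
lemma defd2_frame [Fintype ι] (hcomm : ∀ x y : A⟦X⟧, x * y = y * x) {s : A →ₗ[K] K} {e : ι → A}
    (σ : ι ≃ ι) (hσ : ∀ i, σ (σ i) = i) (he : IsFrame s ⊤ e (fun i => e (σ i)))
    {Y : ι → A⟦X⟧} (hY : ∀ i, coeff 0 (Y i) = e i) {g : A⟦X⟧} (hg : coeff 0 g = 1)
    (hYL : ∀ i, Y i ∈ defd2_lat V c)
    (hmul : ∀ F ∈ defd2_lat V c, ∀ G ∈ defd2_lat V c, F * G ∈ defd2_lat V c)
    (hform : ∀ F ∈ defd2_lat V c, st s g F ∈ VX V) :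
    ∃ Y' : ι → A⟦X⟧, (∀ i, Y' i ∈ defd2_lat V c) ∧ IsFrame (st s g) ⊤ Y Y' := by
  let c0 : ι → A⟦X⟧ →ₗ[K⟦X⟧] K⟦X⟧ := fun i => st s g ∘ₗ LinearMap.mulRight K⟦X⟧ (Y (σ i))
  have hc0 : ∀ i F, c0 i F = st s g (F * Y (σ i)) := fun _ _ => rfl
  have hT : ∀ F, coeff 0 (defd2_op c0 Y F) = coeff 0 F := fun F => by
    rw [defd2_coeff_zero_op]
    conv_rhs => rw [← he.repro (coeff 0 F) trivial]
    exact Finset.sum_congr rfl fun i _ => by
      rw [hc0, st_apply, coeff_extF, coeff_zero_mul', coeff_zero_mul', hg, one_mul, hY, hY]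
  obtain ⟨T', h1, -, -, h4⟩ := exists_neumann _ hT
  have hadj : ∀ y z, st s g (defd2_op c0 Y y * z) = st s g (y * defd2_op c0 Y z) := fun y z => by
    rw [hcomm y, defd2_op_apply, defd2_op_apply, defd2_st_smul, defd2_st_smul,
      ← Equiv.sum_comp σ]
    refine Finset.sum_congr rfl fun i _ => ?_
    rw [hc0, hc0, hσ, mul_comm, hcomm z, hcomm y]
  refine ⟨fun i => T' (Y (σ i)), fun i => h4 _ defd2_lat_closed (fun F hF => ?_) _ (hYL _),
    fun _ => trivial, fun _ => trivial, fun x _ y _ => by rw [hcomm x], fun y _ => ?_⟩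
  · rw [defd2_op_apply]
    exact sum_mem fun j _ => defd2_lat_smul (hform _ (hmul _ hF _ (hYL _))) (hYL _)
  · have := h1 y
    rw [defd2_op_apply] at this
    conv_rhs => rw [← this]
    refine Finset.sum_congr rfl fun i _ => ?_
    rw [hc0]
    congr 1
    conv_lhs => rw [← h1 y, hadj, h1]

end General

lemma defd2_ord_prod {A ι : Type} [CommRing A] {n : ℕ} (t : Finset ι) (a b : ι → A⟦X⟧)
    (h : ∀ i, Ord n (a i - b i)) : Ord n (∏ i ∈ t, a i - ∏ i ∈ t, b i) := by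
  classical
  induction t using Finset.induction_on with
  | empty => simpa using Ord.zero n
  | insert i t hi ih =>
    rw [Finset.prod_insert hi, Finset.prod_insert hi]
    have := ((h i).mul_right (∏ i ∈ t, a i)).add (ih.mul_left (b i))
    rwa [show (a i - b i) * ∏ i ∈ t, a i + b i * (∏ i ∈ t, a i - ∏ i ∈ t, b i) =
      a i * ∏ i ∈ t, a i - b i * ∏ i ∈ t, b i by ring] at this

lemma defd2_coeff_zero_X_mul {A : Type} [Ring A] (F : A⟦X⟧) : coeff 0 (X * F) = 0 := by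
  rw [coeff_zero_mul']; simp

variable {K : Type} [Field K] [CharZero K] {D E : Type} [CommGroup D]
  [Fintype D] [Group E] [Fintype E]

section Fam

variable {p : ℕ} {φ : E →* MulAut D} {w : E → D} {r : E → D → ℚ}
  {Xs : D → (MonoidAlgebra K D)⟦X⟧}

omit [Fintype D] in
lemma defd2_zero (h : XFam p φ w r Xs) (v : D) : coeff 0 (Xs v) = single v 1 := by
  rw [h.fix v, coeff_zero_mul', coeff_zero_C, coeff_zero_eq_constantCoeff, map_prod,
    Finset.prod_eq_one, mul_one]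
  intro l _
  rw [← coeff_zero_eq_constantCoeff_apply]
  exact coeff_zero_bpow (defd2_coeff_zero_X_mul _) _

omit [Fintype D] in
lemma defd2_one (h : XFam p φ w r Xs) : Xs 1 = 1 := by
  rw [h.fix 1, Finset.prod_eq_one, mul_one, ← MonoidAlgebra.one_def, map_one]
  intro l _
  rw [h.r_one]
  exact bpow_zero (defd2_coeff_zero_X_mul _)

omit [Fintype D] in
lemma defd2_mul (h : XFam p φ w r Xs) (v v' : D) : ∃ n : E → ℕ,
    Xs v * Xs v' = Xs (v * v') * ∏ l, (1 + X * (Xs (w l) - 1)) ^ n l := by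
  choose n hn using fun l => h.r_add l v v'
  refine ⟨n, ?_⟩
  have e : ∀ l, bpow K (r l v) (X * (Xs (w l) - 1)) * bpow K (r l v') (X * (Xs (w l) - 1)) =
      bpow K (r l (v * v')) (X * (Xs (w l) - 1)) * (1 + X * (Xs (w l) - 1)) ^ n l := fun l => by
    rw [← bpow_add (defd2_coeff_zero_X_mul _), hn l, bpow_add (defd2_coeff_zero_X_mul _),
      bpow_nat (defd2_coeff_zero_X_mul _)]
  have h1 := h.fix v
  have h2 := h.fix v'
  have h3 := h.fix (v * v')
  calc Xs v * Xs v' = (C (single v 1) * ∏ l, bpow K (r l v) (X * (Xs (w l) - 1))) *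
        (C (single v' 1) * ∏ l, bpow K (r l v') (X * (Xs (w l) - 1))) := by rw [← h1, ← h2]
    _ = (C (single (v * v') 1) * ∏ l, bpow K (r l (v * v')) (X * (Xs (w l) - 1))) *
        ∏ l, (1 + X * (Xs (w l) - 1)) ^ n l := by
      rw [mul_mul_mul_comm, ← map_mul, MonoidAlgebra.single_mul_single, mul_one,
        ← Finset.prod_mul_distrib, mul_assoc, ← Finset.prod_mul_distrib]
      simp only [e]
    _ = _ := by rw [← h3]

omit [CharZero K] [Fintype D] [Fintype E] in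
lemma defd2_act_single (l : E) (v : D) : act K φ l (single v 1) = single (φ l v) 1 := by
  simp [act]

omit [CharZero K] [Fintype D] [Fintype E] in
lemma defd2_act_alg (l : E) (k : K) :
    act K φ l (algebraMap K (MonoidAlgebra K D) k) = algebraMap K (MonoidAlgebra K D) k :=
  (domCongr K K (φ l) : MonoidAlgebra K D ≃ₐ[K] MonoidAlgebra K D).commutes k

omit [CharZero K] [Fintype D] [Fintype E] in
lemma defd2_act_coef (l : E) (a : MonoidAlgebra K D) :
    coef K (1 : D) (act K φ l a) = coef K (1 : D) a := by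
  simp [act]

omit [Fintype D] in
lemma defd2_equiv (h : XFam p φ w r Xs) (l : E) (v : D) :
    PowerSeries.map (act K φ l) (Xs v) = Xs (φ l v) := by
  have hΨ : ∀ n (F : (MonoidAlgebra K D)⟦X⟧), Ord n F →
      Ord n (PowerSeries.map (act K φ l) F) := fun n F hF m hm => by
    rw [coeff_map, hF m hm, map_zero]
  have key : ∀ n v, Ord n (PowerSeries.map (act K φ l) (Xs v) - Xs (φ l v)) := by
    intro n
    induction n with
    | zero => exact fun v => ord_zero _
    | succ n ih =>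
      intro v
      have e1 : PowerSeries.map (act K φ l) (Xs v) = C (single (φ l v) 1) *
          ∏ m, bpow K (r m v) (X * (PowerSeries.map (act K φ l) (Xs (w m)) - 1)) := by
        conv_lhs => rw [h.fix v]
        rw [map_mul, map_C, defd2_act_single, map_prod]
        congr 1
        refine Finset.prod_congr rfl fun m _ => ?_
        rw [bpow_map _ hΨ (defd2_coeff_zero_X_mul _), map_mul, map_X, map_sub, map_one]
      have e2 : Xs (φ l v) = C (single (φ l v) 1) *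
          ∏ m, bpow K (r m v) (X * (Xs (φ l (w m)) - 1)) := by
        conv_lhs => rw [h.fix (φ l v), ← Equiv.prod_comp (Equiv.mulLeft l)]
        simp only [Equiv.coe_mulLeft, h.r_equiv, h.w_equiv]
      rw [e1, e2, ← mul_sub]
      refine Ord.mul_left (defd2_ord_prod _ _ _ fun m => ?_) _
      refine bpow_ord (defd2_coeff_zero_X_mul _) (defd2_coeff_zero_X_mul _) _ ?_
      rw [← mul_sub, sub_sub_sub_cancel_right]
      exact (ih _).X_mul
  rw [← sub_eq_zero]
  exact eq_zero_of_ord fun n => key n v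

end Fam

/-- `Λ` is the span of the `Xs v` over `VX V`.  The `Xs v` form a basis over `K⟦X⟧`
(`exists_neumann` for `F ↦ ∑ extF (coef v) F • Xs v`), so `Λ` is closed; `Xs v * Xs v'` is
`Xs (v * v')` times natural powers of the `1 + X * (Xs (w l) - 1)`, so `Λ Λ ⊆ Λ` modulo `X ^ n` by
induction on `n`.  `g` is the inverse image of `1` under
`F ↦ ∑ extF (coef 1) (F * Xs v) • C (single v⁻¹ 1)`.  The frame is obtained from
`(Xs v, Xs v⁻¹)` by `exists_neumann`.  Equivariance `map (act l) (Xs v) = Xs (φ l v)` holds by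
uniqueness of the fixed point (`bpow_map`, `bpow_ord`), and `g` is invariant by uniqueness. -/
theorem XFam.exists_deform {p : ℕ} {φ : E →* MulAut D} {w : E → D} {r : E → D → ℚ}
    {Xs : D → (MonoidAlgebra K D)⟦X⟧} (h : XFam p φ w r Xs) (V : ValuationSubring K) :
    ∃ (Λ : Subring (MonoidAlgebra K D)⟦X⟧) (g : (MonoidAlgebra K D)⟦X⟧),
      Deform V (GO V D) (coef K (1 : D)) Λ g ∧
      (∀ l, ∀ F ∈ Λ, PowerSeries.map (act K φ l) F ∈ Λ) ∧
      (∀ l m, act K φ l (coeff m g) = coeff m g) ∧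
      extF (coef K (1 : D)) (g * Xs 1) = 1 ∧
      ∀ v, v ≠ 1 → extF (coef K (1 : D)) (g * Xs v) = 0 := by
  classical
  have he := isFrame_group K D
  have hco : ∀ (a : MonoidAlgebra K D) (v : D), coef K (1 : D) (a * single v⁻¹ 1) = a.coeff v :=
    fun a v => by simp
  have ho : ∀ i j : D, coef K (1 : D) ((single i 1 : MonoidAlgebra K D) * single j⁻¹ 1) =
      if i = j then 1 else 0 := fun i j => by
    rw [hco, MonoidAlgebra.coeff_single, Finsupp.single_apply]
  obtain ⟨c, hrep, hc, hc0, hconst⟩ := defd2_coord he ho (defd2_zero h)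
  obtain ⟨g, hg0, hg, huniq⟩ := defd2_dual he ho (defd2_zero h) (1 : D)
  rw [inv_one, ← MonoidAlgebra.one_def] at hg0
  have hXL : ∀ v, Xs v ∈ defd2_lat V c := fun v u => by
    rw [hc]
    split_ifs
    · exact one_mem _
    · exact zero_mem _
  have h1L : (1 : (MonoidAlgebra K D)⟦X⟧) ∈ defd2_lat V c := defd2_one h ▸ hXL 1
  have hP : ∀ n, ∀ F ∈ defd2_lat V c, ∀ G ∈ defd2_lat V c,
      F * G ∈ defd2_near (defd2_lat V c) n := by
    intro n
    induction n with
    | zero => exact fun F _ G _ => ⟨0, zero_mem _, ord_zero _⟩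
    | succ n ih =>
      refine defd2_mul_basis hrep fun v v' => ?_
      obtain ⟨m, hm⟩ := defd2_mul h v v'
      let P : (MonoidAlgebra K D)⟦X⟧ → Prop :=
        fun F => ∃ Z ∈ defd2_near (defd2_lat V c) n, F = 1 + X * Z
      have P1 : P 1 := ⟨0, zero_mem _, by simp⟩
      have Pm : ∀ a b, P a → P b → P (a * b) := by
        rintro a b ⟨Z, hZ, rfl⟩ ⟨Z', hZ', rfl⟩
        exact ⟨Z + Z' + X * (Z * Z'), add_mem (add_mem hZ hZ')
          (defd2_near_mono (defd2_near_X (defd2_near_mul ih hZ hZ'))), by ring⟩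
      have Pp : ∀ a k, P a → P (a ^ k) := fun a k ha => by
        induction k with
        | zero => rwa [pow_zero]
        | succ k ik => rw [pow_succ]; exact Pm _ _ ik ha
      obtain ⟨Z, hZ, e⟩ : P (∏ l, (1 + X * (Xs (w l) - 1)) ^ m l) :=
        Finset.prod_induction _ P Pm P1 fun l _ => Pp _ _
          ⟨_, defd2_near_of_mem n (sub_mem (hXL _) h1L), rfl⟩
      rw [hm, e, show Xs (v * v') * (1 + X * Z) = Xs (v * v') + X * (Xs (v * v') * Z) by ring]
      exact add_mem (defd2_near_of_mem _ (hXL _))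
        (defd2_near_X (defd2_near_mul ih (defd2_near_of_mem n (hXL _)) hZ))
  have hmul : ∀ F ∈ defd2_lat V c, ∀ G ∈ defd2_lat V c, F * G ∈ defd2_lat V c :=
    fun F hF G hG => defd2_lat_closed _ fun n => hP n F hF G hG
  have hst : ∀ F, st (coef K (1 : D)) g F = c 1 F := fun F => by
    have := defd2_st_smul (coef K (1 : D)) g (fun v => c v F) Xs 1
    rw [hrep F, mul_one] at this
    rw [this, Finset.sum_eq_single 1]
    · rw [mul_one, st_apply, hg, if_pos rfl, mul_one]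
    · intro j _ hj
      rw [mul_one, st_apply, hg, if_neg hj, mul_zero]
    · simp
  have hform : ∀ F ∈ defd2_lat V c, st (coef K (1 : D)) g F ∈ VX V := fun F hF => by
    rw [hst]; exact hF 1
  obtain ⟨Y', hY', hfr⟩ := defd2_frame (V := V) (c := c) (fun x y => mul_comm x y) (Equiv.inv D)
    (fun i => inv_inv i) he (defd2_zero h) hg0 hXL hmul hform
  let Λ : Subring (MonoidAlgebra K D)⟦X⟧ :=
    { defd2_lat V c with
      one_mem' := h1L
      mul_mem' := fun {a b} ha hb => hmul a ha b hb }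
  have hΛ : ∀ F, F ∈ Λ ↔ F ∈ defd2_lat V c := fun _ => Iff.rfl
  refine ⟨Λ, g, ⟨fun r hr F hF => defd2_lat_smul hr hF, fun x y => by rw [mul_comm],
    fun m a => mul_comm _ _, hg0, hform, ?_, fun a => ⟨fun ha => ?_, ?_⟩⟩, fun l F hF => ?_,
    fun l m => ?_, by rw [hg, if_pos rfl], fun v hv => by rw [hg, if_neg hv]⟩
  · let e := (Fintype.equivFin D).symm
    refine ⟨_, fun i => Xs (e i), fun i => Y' (e i), fun i => hXL _, fun i => hY' _,
      fun _ => trivial, fun _ => trivial, hfr.symm, fun y hy => ?_⟩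
    exact (Equiv.sum_comp e (fun x : D => st (coef K (1 : D)) g (y * Y' x) • Xs x)).trans
      (hfr.repro y hy)
  · obtain ⟨F, hF, hF'⟩ := hconst a
    refine ⟨F, fun v => ?_, hF⟩
    rw [hF', hco]
    exact C_mem_VX (ha v)
  · rintro ⟨F, hF, rfl⟩ v
    rw [← hco, ← hc0]
    exact hF v 0
  · rw [hΛ, ← hrep F, map_sum]
    refine sum_mem fun v _ => ?_
    rw [defd2_map_smul _ (defd2_act_alg l), defd2_equiv h]
    exact defd2_lat_smul (hF v) (hXL _)
  · have : PowerSeries.map (act K φ l) g = g := huniq _ fun v => by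
      have e1 : Xs v = PowerSeries.map (act K φ l) (Xs ((φ l).symm v)) := by
        rw [defd2_equiv h, MulEquiv.apply_symm_apply]
      have e2 : ∀ F : (MonoidAlgebra K D)⟦X⟧,
          extF (coef K (1 : D)) (PowerSeries.map (act K φ l) F) = extF (coef K (1 : D)) F :=
        fun F => by
          ext n
          rw [coeff_extF, coeff_extF, coeff_map, defd2_act_coef]
      rw [e1, ← map_mul, e2, hg]
      simp only [EmbeddingLike.map_eq_one_iff]
    rw [← coeff_map, this]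

end Pool.Agent.Lib.MP_b6945b_al.St
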