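import Pool.Agent.Lib.MP_b6945b_al.St.DefD

set_option autoImplicit false

/-!
Integrality of the deformation after the substitution `t = p x`.
-/

namespace Pool.Agent.Lib.MP_b6945b_al.St

open PowerSeries
open MonoidAlgebra (single domCongr)

lemma scale_factorial {p : ℕ} (hp : p.Prime) (m : ℕ) :
    ∃ u : ℕ, ¬ p ∣ u ∧ m.factorial = p ^ (m / p) * (m / p).factorial * u := by
  induction m with
  | zero => exact ⟨1, hp.not_dvd_one, by simp⟩
  | succ m ih =>
    obtain ⟨u, hu, e⟩ := ih
    by_cases h : p ∣ m + 1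
    · have h1 : (m + 1) / p = m / p + 1 := by rw [Nat.succ_div, if_pos h]
      have h2 : m + 1 = p * (m / p + 1) := by rw [← h1, Nat.mul_div_cancel' h]
      refine ⟨u, hu, ?_⟩
      rw [h1, Nat.factorial_succ, Nat.factorial_succ, e]
      conv_lhs => rw [h2]
      ring
    · have h1 : (m + 1) / p = m / p := by rw [Nat.succ_div, if_neg h, add_zero]
      refine ⟨(m + 1) * u, fun hd => ?_, ?_⟩
      · rcases (Nat.Prime.dvd_mul hp).1 hd with h' | h'
        · exact h h'
        · exact hu h'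
      · rw [h1, Nat.factorial_succ, e]
        ring

lemma scale_pow_mem {A : Type} [CommRing A] (J : AddSubgroup A)
    (hmul : ∀ y ∈ J, ∀ z ∈ J, y * z ∈ J) {y : A} (hy : y ∈ J) (m : ℕ) (hm : m ≠ 0) :
    y ^ m ∈ J := by
  induction m with
  | zero => exact absurd rfl hm
  | succ m ih =>
    rcases Nat.eq_zero_or_pos m with h | h
    · subst h
      simpa using hy
    · rw [pow_succ]
      exact hmul _ (ih h.ne') _ hy

/-- Divided powers: if `J` is an additive subgroup of a commutative algebra in which every `p`-th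
power is `p` times an element, stable under products and under integers prime to `p` inverted,
then `y ^ m / m !` lies in `J` (strong induction, `m = p q + i`, `padicValNat_factorial_mul_add`,
`padicValNat_factorial_mul`). -/
lemma pow_div_factorial_mem {K A : Type} [Field K] [CharZero K] [CommRing A] [Algebra K A]
    {p : ℕ} (hp : p.Prime) (J : AddSubgroup A) (hmul : ∀ y ∈ J, ∀ z ∈ J, y * z ∈ J)
    (hinv : ∀ n : ℕ, ¬ p ∣ n → ∀ y ∈ J, ((n : K)⁻¹) • y ∈ J)
    (hpow : ∀ y ∈ J, ∃ z ∈ J, y ^ p = (p : K) • z) (m : ℕ) (hm : m ≠ 0) :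
    ∀ y ∈ J, ((m.factorial : K)⁻¹) • y ^ m ∈ J := by
  induction m using Nat.strong_induction_on with
  | _ m ih =>
    intro y hy
    obtain ⟨u, hu, e⟩ := scale_factorial hp m
    rcases Nat.eq_zero_or_pos (m / p) with h0 | h0
    · rw [h0] at e
      simp only [pow_zero, Nat.factorial_zero, mul_one, one_mul] at e
      rw [e]
      exact hinv u hu _ (scale_pow_mem J hmul hy m hm)
    · obtain ⟨z, hz, ez⟩ := hpow y hy
      have hlt : m / p < m := Nat.div_lt_self (Nat.pos_of_ne_zero hm) hp.one_lt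
      have h1 := ih (m / p) hlt h0.ne' z hz
      have h2 : (((m / p).factorial : K)⁻¹ • z ^ (m / p)) * y ^ (m % p) ∈ J := by
        rcases Nat.eq_zero_or_pos (m % p) with h | h
        · rw [h, pow_zero, mul_one]
          exact h1
        · exact hmul _ h1 _ (scale_pow_mem J hmul hy _ h.ne')
      have h3 := hinv u hu _ h2
      have hp0 : (p : K) ≠ 0 := Nat.cast_ne_zero.2 hp.ne_zero
      have hu0 : (u : K) ≠ 0 := Nat.cast_ne_zero.2 (fun h => hu (h ▸ dvd_zero p))
      have hf0 : ((m / p).factorial : K) ≠ 0 := Nat.cast_ne_zero.2 (Nat.factorial_ne_zero _)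
      have e1 : y ^ m = (p : K) ^ (m / p) • (z ^ (m / p) * y ^ (m % p)) := by
        conv_lhs => rw [← Nat.div_add_mod m p, pow_add, pow_mul, ez, smul_pow]
        rw [smul_mul_assoc]
      have e2 : ((m.factorial : K)⁻¹) • y ^ m
          = (u : K)⁻¹ • ((((m / p).factorial : K)⁻¹ • z ^ (m / p)) * y ^ (m % p)) := by
        rw [e1, smul_mul_assoc, smul_smul, smul_smul]
        congr 1
        rw [e]
        push_cast
        field_simp
      rw [e2]
      exact h3

variable {K : Type} [Field K] [CharZero K] {V : ValuationSubring K} {D E : Type} [CommGroup D]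
  [Fintype D] [Group E] [Fintype E]

omit [CharZero K] in
lemma scale_nonunit {p : ℕ} (hp : p.Prime) (hpV : (p : K) ∈ V.nonunits) {n : ℤ}
    (hn : ¬ (p : ℤ) ∣ n) : (n : K) ∉ V.nonunits := by
  intro h
  have hc : IsCoprime (p : ℤ) n :=
    ((Nat.prime_iff_prime_int.1 hp).irreducible.coprime_iff_not_dvd).2 hn
  obtain ⟨a, b, e⟩ := hc
  have hm : ∀ (c : ℤ) (x : K), x ∈ V.nonunits → (c : K) * x ∈ V.nonunits := fun c x hx => by
    rw [← zsmul_eq_mul]
    exact zsmul_mem hx c
  have h1 : (1 : K) ∈ V.nonunits := by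
    have e' : (a : K) * (p : K) + (b : K) * (n : K) = 1 := by exact_mod_cast congrArg (Int.cast : ℤ → K) e
    rw [← e']
    exact add_mem (hm a _ hpV) (hm b _ h)
  rw [ValuationSubring.mem_nonunits_iff, map_one] at h1
  exact lt_irrefl _ h1

omit [CharZero K] in
lemma scale_inv_mem {p : ℕ} (hp : p.Prime) (hpV : (p : K) ∈ V.nonunits) {n : ℕ}
    (hn : ¬ p ∣ n) : (n : K)⁻¹ ∈ V := by
  have h := scale_nonunit hp hpV (n := n) (fun h => hn (Int.natCast_dvd_natCast.1 h))
  rw [ValuationSubring.mem_nonunits_iff_or, not_or, not_not] at h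
  simpa using h.2

/-- Elements supported on the `p`-torsion subgroup. -/
def scaleS (K : Type) [Field K] (D : Type) [CommGroup D] [Fintype D] (p : ℕ) :
    Subring (MonoidAlgebra K D) where
  carrier := {a | ∀ x, x ^ p ≠ 1 → a.coeff x = 0}
  zero_mem' := fun x _ => by simp
  one_mem' := fun x hx => by
    classical
    rw [MonoidAlgebra.one_def, MonoidAlgebra.coeff_single, Finsupp.single_apply, if_neg]
    rintro rfl
    exact hx (one_pow p)
  add_mem' := fun {a b} ha hb x hx => by
    have : (a + b).coeff x = a.coeff x + b.coeff x := rfl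
    rw [this, ha x hx, hb x hx, add_zero]
  neg_mem' := fun {a} ha x hx => by
    have : (-a).coeff x = -a.coeff x := rfl
    rw [this, ha x hx, neg_zero]
  mul_mem' := fun {a b} ha hb x hx => by
    rw [coeff_mul_fin]
    refine Finset.sum_eq_zero fun y _ => ?_
    by_cases hy : y ^ p = 1
    · rw [hb (y⁻¹ * x) (by rwa [mul_pow, inv_pow, hy, inv_one, one_mul]), mul_zero]
    · rw [ha y hy, zero_mul]

omit [CharZero K] in
lemma scale_mem_S {p : ℕ} {a : MonoidAlgebra K D} :
    a ∈ scaleS K D p ↔ ∀ x, x ^ p ≠ 1 → a.coeff x = 0 := Iff.rfl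

omit [CharZero K] in
lemma scale_smul_S {p : ℕ} {a : MonoidAlgebra K D} (ha : a ∈ scaleS K D p) (c : K) :
    c • a ∈ scaleS K D p := fun x hx => by
  rw [MonoidAlgebra.coeff_smul_apply, ha x hx, smul_zero]

omit [CharZero K] in
lemma scale_single_S {p : ℕ} {v : D} (hv : v ^ p = 1) :
    (single v 1 : MonoidAlgebra K D) ∈ scaleS K D p := fun x hx => by
  classical
  rw [MonoidAlgebra.coeff_single, Finsupp.single_apply, if_neg]
  rintro rfl
  exact hx hv

omit [CharZero K] in
lemma scale_single_GO (v : D) : (single v 1 : MonoidAlgebra K D) ∈ GO V D := fun x => by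
  classical
  rw [MonoidAlgebra.coeff_single, Finsupp.single_apply]
  split_ifs
  · exact V.one_mem
  · exact V.zero_mem

omit [CharZero K] in
lemma scale_smul_GO {a : MonoidAlgebra K D} (ha : a ∈ GO V D) {c : K} (hc : c ∈ V) :
    c • a ∈ GO V D := fun x => V.mul_mem _ _ hc (ha x)

/-- The augmentation. -/
noncomputable def scaleEps (K : Type) [Field K] (D : Type) [CommGroup D] :
    MonoidAlgebra K D →ₐ[K] K := MonoidAlgebra.lift K K D 1

omit [CharZero K] [Fintype D] in
lemma scaleEps_single (v : D) : scaleEps K D (single v 1) = 1 := by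
  simp [scaleEps]

omit [CharZero K] in
lemma scaleEps_eq (a : MonoidAlgebra K D) : scaleEps K D a = ∑ x, a.coeff x := by
  conv_lhs => rw [eq_sum_single a]
  simp only [map_sum, map_smul, scaleEps_single, smul_eq_mul, mul_one]

/-- Integral elements supported on the `p`-torsion subgroup. -/
noncomputable def scaleT (V : ValuationSubring K) (D : Type) [CommGroup D] [Fintype D] (p : ℕ) :
    Subring (MonoidAlgebra K D) := GO V D ⊓ scaleS K D p

/-- Series whose coefficients are integral, supported on the `p`-torsion subgroup and of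
augmentation zero. -/
noncomputable def scaleJ (V : ValuationSubring K) (D : Type) [CommGroup D] [Fintype D] (p : ℕ) :
    AddSubgroup (MonoidAlgebra K D)⟦X⟧ where
  carrier := {F | ∀ n, coeff n F ∈ scaleT V D p ∧ scaleEps K D (coeff n F) = 0}
  zero_mem' := fun n => by simp
  add_mem' := fun {a b} ha hb n => by
    rw [map_add, map_add, (ha n).2, (hb n).2, add_zero]
    exact ⟨add_mem (ha n).1 (hb n).1, rfl⟩
  neg_mem' := fun {a} ha n => by
    rw [map_neg, map_neg, (ha n).2, neg_zero]
    exact ⟨neg_mem (ha n).1, rfl⟩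

omit [CharZero K] in
lemma scale_mem_J {p : ℕ} {F : (MonoidAlgebra K D)⟦X⟧} :
    F ∈ scaleJ V D p ↔ ∀ n, coeff n F ∈ scaleT V D p ∧ scaleEps K D (coeff n F) = 0 := Iff.rfl

omit [CharZero K] in
lemma scale_J_T {p : ℕ} {F : (MonoidAlgebra K D)⟦X⟧} (h : F ∈ scaleJ V D p) :
    F ∈ coefSub (scaleT V D p) := fun n => (h n).1

omit [CharZero K] in
lemma scale_T_mul_J {p : ℕ} {F G : (MonoidAlgebra K D)⟦X⟧} (hF : F ∈ coefSub (scaleT V D p))
    (hG : G ∈ scaleJ V D p) : F * G ∈ scaleJ V D p := fun n => by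
  refine ⟨mul_mem hF (scale_J_T hG) n, ?_⟩
  rw [coeff_mul, map_sum]
  exact Finset.sum_eq_zero fun q _ => by rw [map_mul, (hG _).2, mul_zero]

omit [CharZero K] in
lemma scale_smul_T {p : ℕ} {a : MonoidAlgebra K D} (ha : a ∈ scaleT V D p) {c : K} (hc : c ∈ V) :
    c • a ∈ scaleT V D p := ⟨scale_smul_GO ha.1 hc, scale_smul_S ha.2 c⟩

omit [CharZero K] in
lemma scale_smul_J {p : ℕ} {F : (MonoidAlgebra K D)⟦X⟧} (hF : F ∈ scaleJ V D p) {c : K}
    (hc : c ∈ V) : c • F ∈ scaleJ V D p := fun n => by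
  rw [coeff_smul, map_smul, (hF n).2, smul_zero]
  exact ⟨scale_smul_T (hF n).1 hc, rfl⟩

omit [CharZero K] in
lemma scale_C_T {p : ℕ} {a : MonoidAlgebra K D} (ha : a ∈ scaleT V D p) :
    (C a : (MonoidAlgebra K D)⟦X⟧) ∈ coefSub (scaleT V D p) := fun n => by
  rw [coeff_C]
  split_ifs
  · exact ha
  · exact zero_mem _

omit [CharZero K] in
lemma scale_C_J {p : ℕ} {a : MonoidAlgebra K D} (ha : a ∈ scaleT V D p)
    (h0 : scaleEps K D a = 0) : (C a : (MonoidAlgebra K D)⟦X⟧) ∈ scaleJ V D p := fun n => by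
  rw [coeff_C]
  split_ifs
  · exact ⟨ha, h0⟩
  · exact ⟨zero_mem _, map_zero _⟩

lemma scale_X_mem {A : Type} [Ring A] (W : Subring A) : (X : A⟦X⟧) ∈ coefSub W := fun n => by
  rw [coeff_X]
  split_ifs
  · exact one_mem _
  · exact zero_mem _

lemma scale_add_pow {A : Type} [CommRing A] {p : ℕ} (hp : p.Prime) (W : Subring A) {x y : A}
    (hx : x ∈ W) (hy : y ∈ W) : ∃ z ∈ W, (x + y) ^ p = x ^ p + y ^ p + p * z := by
  obtain ⟨r, hr⟩ := exists_add_pow_prime_eq hp (⟨x, hx⟩ : W) ⟨y, hy⟩
  refine ⟨x * y * r, mul_mem (mul_mem hx hy) r.2, ?_⟩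
  have := congrArg (fun z : W => (z : A)) hr
  push_cast at this
  rw [this]
  ring

lemma scale_sub_one_pow {A : Type} [CommRing A] {p : ℕ} (hp : p.Prime) (W : Subring A) {x : A}
    (hx : x ∈ W) (h1 : x ^ p = 1) : ∃ z ∈ W, (x - 1) ^ p = p * z := by
  obtain ⟨z, hz, e⟩ := scale_add_pow hp W hx (neg_mem (one_mem W))
  rw [sub_eq_add_neg, e, h1]
  rcases hp.eq_two_or_odd' with h | h
  · subst h
    exact ⟨z + 1, add_mem hz (one_mem W), by push_cast; ring⟩
  · exact ⟨z, hz, by rw [h.neg_one_pow]; ring⟩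

omit [CharZero K] in
lemma scale_decomp {p : ℕ} {F : (MonoidAlgebra K D)⟦X⟧} (hF : F ∈ scaleJ V D p) :
    F = ∑ x : D, PowerSeries.map (algebraMap K (MonoidAlgebra K D)) (extF (coef K x) F) *
      C (single x 1 - 1) := by
  refine PowerSeries.ext fun n => ?_
  simp only [map_sum, coeff_mul_C, coeff_map, coeff_extF, coef_apply, ← Algebra.smul_def,
    smul_sub, Finset.sum_sub_distrib, ← Finset.sum_smul]
  rw [← eq_sum_single, ← scaleEps_eq, (hF n).2, zero_smul, sub_zero]

lemma scale_J_pow {p : ℕ} (hp : p.Prime) {F : (MonoidAlgebra K D)⟦X⟧} (hF : F ∈ scaleJ V D p) :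
    ∃ z ∈ scaleJ V D p, F ^ p = (p : K) • z := by
  have key : F ∈ coefSub (scaleT V D p) ∧ ∃ z ∈ coefSub (scaleT V D p), F ^ p = p * z := by
    rw [scale_decomp hF]
    refine Finset.sum_induction _
      (fun G : (MonoidAlgebra K D)⟦X⟧ => G ∈ coefSub (scaleT V D p) ∧
        ∃ z ∈ coefSub (scaleT V D p), G ^ p = p * z) ?_ ?_ ?_
    · rintro a b ⟨ha, z, hz, ez⟩ ⟨hb, z', hz', ez'⟩
      obtain ⟨y, hy, ey⟩ := scale_add_pow hp _ ha hb
      exact ⟨add_mem ha hb, z + z' + y, add_mem (add_mem hz hz') hy, by rw [ey, ez, ez']; ring⟩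
    · exact ⟨zero_mem _, 0, zero_mem _, by rw [zero_pow hp.ne_zero, mul_zero]⟩
    · intro x _
      by_cases hx : x ^ p = 1
      · have hc : PowerSeries.map (algebraMap K (MonoidAlgebra K D)) (extF (coef K x) F)
            ∈ coefSub (scaleT V D p) := fun n => by
          rw [coeff_map, coeff_extF, coef_apply, Algebra.algebraMap_eq_smul_one]
          exact scale_smul_T (one_mem _) ((hF n).1.1 x)
        have hs : (single x 1 : MonoidAlgebra K D) ∈ scaleT V D p :=
          ⟨scale_single_GO x, scale_single_S hx⟩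
        obtain ⟨z, hz, ez⟩ := scale_sub_one_pow hp _ hs
          (by rw [MonoidAlgebra.single_pow, hx, one_pow, MonoidAlgebra.one_def])
        refine ⟨mul_mem hc (scale_C_T (sub_mem hs (one_mem _))), _,
          mul_mem (pow_mem hc p) (scale_C_T hz), ?_⟩
        rw [mul_pow, ← map_pow (C : MonoidAlgebra K D →+* _), ez, map_mul, map_natCast]
        ring
      · have h0 : extF (coef K x) F = 0 := by
          refine PowerSeries.ext fun n => ?_
          rw [coeff_extF, coef_apply, (hF n).1.2 x hx, map_zero]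
        rw [h0, map_zero, zero_mul]
        exact ⟨zero_mem _, 0, zero_mem _, by rw [zero_pow hp.ne_zero, mul_zero]⟩
  obtain ⟨-, z, hz, ez⟩ := key
  have ez' : F ^ p = (p : K) • z := by
    rw [ez, Nat.cast_smul_eq_nsmul, nsmul_eq_mul]
  refine ⟨z, fun n => ⟨hz n, ?_⟩, ez'⟩
  have h1 : F ^ p ∈ scaleJ V D p :=
    scale_pow_mem _ (fun y hy z hz => scale_T_mul_J (scale_J_T hy) hz) hF p hp.ne_zero
  have h2 := (h1 n).2
  rw [ez', coeff_smul, map_smul, smul_eq_mul, mul_eq_zero] at h2
  exact h2.resolve_left (Nat.cast_ne_zero.2 hp.ne_zero)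

lemma scale_J_div {p : ℕ} (hp : p.Prime) (hpV : (p : K) ∈ V.nonunits)
    {F : (MonoidAlgebra K D)⟦X⟧} (hF : F ∈ scaleJ V D p) {m : ℕ} (hm : m ≠ 0) :
    ((m.factorial : K)⁻¹) • F ^ m ∈ scaleJ V D p :=
  pow_div_factorial_mem hp (scaleJ V D p) (fun _ hy _ hz => scale_T_mul_J (scale_J_T hy) hz)
    (fun _ hn _ hy => scale_smul_J hy (scale_inv_mem hp hpV hn))
    (fun _ hy => scale_J_pow hp hy) m hm F hF

lemma scale_bpow_J {p : ℕ} (hp : p.Prime) (hpV : (p : K) ∈ V.nonunits)
    {Z : (MonoidAlgebra K D)⟦X⟧} (hZ : Z ∈ scaleJ V D p) (h0 : coeff 0 Z = 0) (a : ℤ) :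
    bpow K ((a : ℚ) / p) ((p : K) • Z) - 1 ∈ scaleJ V D p := by
  have h0' : coeff 0 ((p : K) • Z) = 0 := by rw [coeff_smul, h0, smul_zero]
  let W : AddSubgroup (MonoidAlgebra K D)⟦X⟧ :=
    { carrier := {F | ∀ n, n ≠ 0 → coeff n F ∈ scaleT V D p ∧ scaleEps K D (coeff n F) = 0}
      zero_mem' := fun n _ => by simp
      add_mem' := fun {a b} ha hb n hn => by
        rw [map_add, map_add, (ha n hn).2, (hb n hn).2, add_zero]
        exact ⟨add_mem (ha n hn).1 (hb n hn).1, rfl⟩
      neg_mem' := fun {a} ha n hn => by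
        rw [map_neg, map_neg, (ha n hn).2, neg_zero]
        exact ⟨neg_mem (ha n hn).1, rfl⟩ }
  have hW : Closed (W : Set (MonoidAlgebra K D)⟦X⟧) :=
    closed_coeff (fun n a => n ≠ 0 → a ∈ scaleT V D p ∧ scaleEps K D a = 0)
  have hmem : bpow K ((a : ℚ) / p) ((p : K) • Z) ∈ W := by
    refine bpow_mem W hW h0' _ fun m => ?_
    rcases Nat.eq_zero_or_pos m with hm | hm
    · subst hm
      intro n hn
      rw [pow_zero, coeff_smul, coeff_one, if_neg hn, smul_zero]
      exact ⟨zero_mem _, map_zero _⟩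
    · obtain ⟨z, ez⟩ := choose_div_int p hp.ne_zero a m
      have ezK : (p : K) ^ m * (m.factorial : K) * ((Ring.choose ((a : ℚ) / p) m : ℚ) : K) = z := by
        have := congrArg (Rat.cast : ℚ → K) ez
        push_cast at this
        exact this
      have hf0 : (m.factorial : K) ≠ 0 := Nat.cast_ne_zero.2 (Nat.factorial_ne_zero _)
      have e : ((Ring.choose ((a : ℚ) / p) m : ℚ) : K) • ((p : K) • Z) ^ m
          = (z : K) • (((m.factorial : K)⁻¹) • Z ^ m) := by
        rw [smul_pow, smul_smul, smul_smul, ← ezK]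
        congr 1
        field_simp
      rw [e]
      exact fun n _ => scale_smul_J (scale_J_div hp hpV hZ hm.ne') (intCast_mem V z) n
  intro n
  rcases Nat.eq_zero_or_pos n with hn | hn
  · subst hn
    rw [map_sub, coeff_zero_bpow h0', coeff_one, if_pos rfl, sub_self]
    exact ⟨zero_mem _, map_zero _⟩
  · rw [map_sub, coeff_one, if_neg hn.ne', sub_zero]
    exact hmem n hn.ne'

lemma scale_ord_prod {A ι : Type} [CommRing A] {n : ℕ} (t : Finset ι) {F G : ι → A⟦X⟧}
    (h : ∀ i, Ord n (F i - G i)) : Ord n (∏ i ∈ t, F i - ∏ i ∈ t, G i) := by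
  classical
  induction t using Finset.induction_on with
  | empty => simpa using Ord.zero n
  | insert i t hi ih =>
    rw [Finset.prod_insert hi, Finset.prod_insert hi]
    have e : F i * ∏ j ∈ t, F j - G i * ∏ j ∈ t, G j
        = (F i - G i) * ∏ j ∈ t, F j + G i * (∏ j ∈ t, F j - ∏ j ∈ t, G j) := by ring
    rw [e]
    exact ((h i).mul_right _).add (ih.mul_left _)

/-- Solutions of the fixed point equation stay in closed multiplicative sets. -/
lemma scale_fix {A D E : Type} [CommRing A] [Algebra K A] [Fintype E] (M : Set A⟦X⟧)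
    (hM : Closed M) (h1 : (1 : A⟦X⟧) ∈ M) (hmul : ∀ F G, F ∈ M → G ∈ M → F * G ∈ M)
    (P : D → Prop) (w : E → D) (hw : ∀ l, P (w l)) (r : E → D → ℚ) (U : D → A⟦X⟧)
    (Φ : E → A⟦X⟧ → A⟦X⟧) (hΦ0 : ∀ l F, coeff 0 (Φ l F) = 0)
    (hΦ : ∀ l n F G, Ord n (F - G) → Ord (n + 1) (Φ l F - Φ l G))
    (hU : ∀ v, U v = ∏ l, bpow K (r l v) (Φ l (U (w l))))
    (hmem : ∀ v, P v → ∀ l, ∀ G ∈ M, bpow K (r l v) (Φ l G) ∈ M) : ∀ v, P v → U v ∈ M := by
  have key : ∀ n v, P v → ∃ G ∈ M, Ord n (U v - G) := by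
    intro n
    induction n with
    | zero => exact fun v _ => ⟨1, h1, ord_zero _⟩
    | succ n ih =>
      intro v hv
      choose G hG hO using fun l => ih (w l) (hw l)
      refine ⟨∏ l, bpow K (r l v) (Φ l (G l)), ?_, ?_⟩
      · exact Finset.prod_induction _ (fun F => F ∈ M) hmul h1 fun l _ => hmem v hv l _ (hG l)
      · rw [hU v]
        exact scale_ord_prod _ fun l => bpow_ord (hΦ0 _ _) (hΦ0 _ _) _ (hΦ l n _ _ (hO l))
  exact fun v hv => hM _ fun n => key n v hv

lemma scale_coeff_mul_mem {A : Type} [Ring A] (W : Subring A) {F H : A⟦X⟧} {m : ℕ}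
    (h0 : coeff 0 H = 0) (hF : ∀ i < m, coeff i F ∈ W) (hH : ∀ j, coeff j H ∈ W) :
    coeff m (F * H) ∈ W := by
  rw [coeff_mul]
  refine sum_mem fun q hq => ?_
  have := Finset.HasAntidiagonal.mem_antidiagonal.1 hq
  rcases Nat.eq_zero_or_pos q.2 with h | h
  · rw [h, h0, mul_zero]
    exact zero_mem _
  · exact mul_mem (hF _ (by omega)) (hH _)

lemma scale_coeff_prod {A ι : Type} [CommRing A] (t : Finset ι) {F : ι → A⟦X⟧}
    (h : ∀ i, coeff 0 (F i) = 1) :
    coeff 0 (∏ i ∈ t, F i) = 1 ∧ coeff 1 (∏ i ∈ t, F i) = ∑ i ∈ t, coeff 1 (F i) := by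
  classical
  induction t using Finset.induction_on with
  | empty => simp [coeff_one]
  | insert i t hi ih =>
    rw [Finset.prod_insert hi, Finset.sum_insert hi, coeff_zero_mul', coeff_one_mul,
      ← coeff_zero_eq_constantCoeff_apply, ← coeff_zero_eq_constantCoeff_apply, ih.1, ih.2, h i]
    simp

/-- Let `Ω = {v | v ^ p = 1}`, `I` the elements of `GO V D` supported on `Ω` with coefficient sum
zero, `J` the series with coefficients in `I`.  `J` has divided powers: an element is a finite sum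
`∑ c_w (w - 1)` with `c_w ∈ VX V` and `(w - 1) ^ p ∈ p I`
(`exists_add_pow_prime_eq`); if `p • z` has coefficient sum zero so has `z`.  By the fixed point
equation, rescaled by `p` (`bpow_map` for `rescale`), `choose_div_int`, `bpow_mem` and induction on
the order, `rescale p (Xs v) * C (single v⁻¹ 1) - 1 ∈ J` for `v ∈ Ω`; for all `v` the series
`Xs v * C (single v⁻¹ 1)` has coefficients supported on `Ω`.  The equations for `g` read
`(g_m).coeff v⁻¹ = δ - ∑_{j < m} (g_j * (Xs v)_{m - j}).coeff 1`; induct on `m`.  Finally the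
coefficient sum of `p g_1` is `- card E * a`, and `p g_1` minus it lies in `I`. -/
theorem XFam.scale {p : ℕ} (hp : p.Prime) (hpV : (p : K) ∈ V.nonunits)
    (hE : ¬ p ∣ Fintype.card E) {φ : E →* MulAut D} {w : E → D} {r : E → D → ℚ}
    {Xs : D → (MonoidAlgebra K D)⟦X⟧} (h : XFam p φ w r Xs) {g : (MonoidAlgebra K D)⟦X⟧}
    (h1 : extF (coef K (1 : D)) (g * Xs 1) = 1)
    (h0 : ∀ v, v ≠ 1 → extF (coef K (1 : D)) (g * Xs v) = 0) :
    (∀ m, (p : K) ^ m • coeff m g ∈ GO V D) ∧
      ∃ v ∈ V, v ∉ V.nonunits ∧ ∃ y ∈ GO V D,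
        ((p : K) • coeff 1 g - algebraMap K _ v) ^ p = (p : K) • y := by
  classical
  let A := MonoidAlgebra K D
  obtain ⟨U, hUdef⟩ : ∃ U : D → A⟦X⟧, ∀ v, U v = ∏ l, bpow K (r l v) (X * (Xs (w l) - 1)) :=
    ⟨_, fun _ => rfl⟩
  have hXU : ∀ v, Xs v = C (single v 1) * U v := fun v => by rw [hUdef]; exact h.fix v
  have hU : ∀ v, U v = ∏ l, bpow K (r l v) (X * (C (single (w l) 1) * U (w l) - 1)) := by
    intro v
    simp only [← hXU]
    exact hUdef v
  have hΦ : ∀ (a : A) n (F G : A⟦X⟧), Ord n (F - G) →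
      Ord (n + 1) (X * (C a * F - 1) - X * (C a * G - 1)) := by
    intro a n F G hFG
    have e : X * (C a * F - 1) - X * (C a * G - 1) = X * (C a * (F - G)) := by ring
    rw [e]
    exact (hFG.mul_left _).X_mul
  have hU0 : ∀ v, coeff 0 (U v) = 1 := fun v => by
    rw [hU v]
    exact (scale_coeff_prod _ fun l => coeff_zero_bpow (coeff_zero_X_mul _) _).1
  have hU1 : ∀ v, coeff 1 (U v) = ∑ l, ((r l v : ℚ) : K) • ((single (w l) 1 : A) - 1) := fun v => by
    rw [hU v, (scale_coeff_prod _ fun l => coeff_zero_bpow (coeff_zero_X_mul _) _).2]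
    refine Finset.sum_congr rfl fun l _ => ?_
    rw [coeff_one_bpow (coeff_zero_X_mul _), coeff_succ_X_mul, map_sub, coeff_C_mul, hU0,
      coeff_one, if_pos rfl, mul_one]
  -- supports
  have hS : ∀ v, U v ∈ coefSub (scaleS K D p) := by
    intro v
    refine scale_fix (K := K) (coefSub (scaleS K D p) : Set A⟦X⟧)
      (closed_coeff fun _ a => a ∈ scaleS K D p) (one_mem _) (fun F G hF hG => mul_mem hF hG)
      (fun _ => True) w (fun _ => trivial) r U (fun l F => X * (C (single (w l) 1) * F - 1))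
      (fun l F => coeff_zero_X_mul _) (fun l n F G => hΦ _ n F G) hU ?_ v trivial
    intro v _ l G hG
    have hC : (C (single (w l) 1) : A⟦X⟧) ∈ coefSub (scaleS K D p) := fun n => by
      rw [coeff_C]
      split_ifs
      · exact scale_single_S (h.w_pow l)
      · exact zero_mem _
    have hY : X * (C (single (w l) 1) * G - 1) ∈ coefSub (scaleS K D p) :=
      mul_mem (scale_X_mem _) (sub_mem (mul_mem hC hG) (one_mem _))
    refine bpow_mem (coefSub (scaleS K D p)).toAddSubgroup
      (closed_coeff fun _ a => a ∈ scaleS K D p) (coeff_zero_X_mul _) _ fun m n => ?_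
    rw [coeff_smul]
    exact scale_smul_S (pow_mem hY m n) _
  -- integrality after rescaling
  have hRc : ∀ (F : A⟦X⟧) n, coeff n (rescale (p : A) F) = (p : K) ^ n • coeff n F := by
    intro F n
    rw [coeff_rescale, Algebra.smul_def, map_pow, map_natCast]
  have hRC : ∀ a : A, rescale (p : A) (C a) = C a := by
    intro a
    refine PowerSeries.ext fun n => ?_
    rw [coeff_rescale, coeff_C]
    split_ifs with hn
    · rw [hn, pow_zero, one_mul]
    · rw [mul_zero]
  have hRX : ∀ F : A⟦X⟧, rescale (p : A) (X * F) = (p : K) • (X * rescale (p : A) F) := by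
    intro F
    rw [map_mul, rescale_X, map_natCast, Nat.cast_smul_eq_nsmul, nsmul_eq_mul, mul_assoc]
  have hRO : ∀ n (F : A⟦X⟧), Ord n F → Ord n (rescale (p : A) F) := fun n F hF m hm => by
    rw [coeff_rescale, hF m hm, mul_zero]
  have hJ : ∀ v, v ^ p = 1 → rescale (p : A) (U v) - 1 ∈ scaleJ V D p := by
    refine scale_fix (K := K) {F : A⟦X⟧ | F - 1 ∈ scaleJ V D p} ?_ ?_ ?_
      (fun v => v ^ p = 1) w h.w_pow r (fun v => rescale (p : A) (U v))
      (fun l F => (p : K) • (X * (C (single (w l) 1) * F - 1))) ?_ ?_ ?_ ?_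
    · intro F hF
      refine closed_coeff (fun _ a => a ∈ scaleT V D p ∧ scaleEps K D a = 0) _ fun n => ?_
      obtain ⟨G, hG, hO⟩ := hF n
      exact ⟨G - 1, hG, by rwa [sub_sub_sub_cancel_right]⟩
    · change (1 : A⟦X⟧) - 1 ∈ scaleJ V D p
      rw [sub_self]
      exact zero_mem _
    · intro F G hF hG
      change F * G - 1 ∈ scaleJ V D p
      have e : F * G - 1 = (F - 1) * (G - 1) + (F - 1) + (G - 1) := by ring
      rw [e]
      exact add_mem (add_mem (scale_T_mul_J (scale_J_T hF) hG) hF) hG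
    · intro l F
      rw [coeff_smul, coeff_zero_X_mul, smul_zero]
    · intro l n F G hFG m hm
      rw [← smul_sub, coeff_smul, hΦ _ n F G hFG m hm, smul_zero]
    · intro v
      conv_lhs => rw [hU v]
      rw [map_prod]
      refine Finset.prod_congr rfl fun l _ => ?_
      rw [bpow_map _ hRO (coeff_zero_X_mul _), hRX, map_sub, map_mul, hRC, map_one]
    · intro v hv l G hG
      obtain ⟨a, ha⟩ := h.r_int l v hv
      have hs : (single (w l) 1 : A) ∈ scaleT V D p :=
        ⟨scale_single_GO _, scale_single_S (h.w_pow l)⟩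
      have hZ : X * (C (single (w l) 1) * G - 1) ∈ scaleJ V D p := by
        refine scale_T_mul_J (scale_X_mem _) ?_
        have e : C (single (w l) 1) * G - 1
            = C (single (w l) 1) * (G - 1) + C ((single (w l) 1 : A) - 1) := by
          rw [map_sub, map_one]
          ring
        rw [e]
        exact add_mem (scale_T_mul_J (scale_C_T hs) hG) (scale_C_J (sub_mem hs (one_mem _))
          (by rw [map_sub, scaleEps_single, map_one, sub_self]))
      change bpow K (r l v) _ - 1 ∈ scaleJ V D p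
      rw [ha]
      exact scale_bpow_J hp hpV hZ (coeff_zero_X_mul _) a
  -- the equations for `g`
  have hEq : ∀ (x : D) m, (coeff m (g * U x⁻¹)).coeff x = if x = 1 ∧ m = 0 then 1 else 0 := by
    intro x m
    have e : coeff m (extF (coef K (1 : D)) (g * Xs x⁻¹)) = (coeff m (g * U x⁻¹)).coeff x := by
      rw [coeff_extF, coef_apply, hXU, mul_left_comm, coeff_C_mul,
        MonoidAlgebra.coeff_single_mul_apply, one_mul, inv_inv, mul_one]
    rw [← e]
    by_cases hx : x = 1
    · subst hx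
      rw [inv_one, h1, coeff_one]
      simp
    · rw [h0 _ (inv_ne_one.2 hx), map_zero, if_neg (fun h => hx h.1)]
  have hsplit : ∀ (F H : (MonoidAlgebra K D)⟦X⟧) m (x : D),
      (coeff m F).coeff x = (coeff m (F * H)).coeff x - (coeff m (F * (H - 1))).coeff x := by
    intro F H m x
    have e : F * (H - 1) = F * H - F := by ring
    rw [e, map_sub]
    change _ = _ - ((coeff m (F * H)).coeff x - (coeff m F).coeff x)
    ring
  have hgS : ∀ m, coeff m g ∈ scaleS K D p := by
    intro m
    induction m using Nat.strong_induction_on with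
    | _ m ih =>
      intro x hx
      have hx1 : x ≠ 1 := by
        rintro rfl
        exact hx (one_pow p)
      have hm : coeff m (g * (U x⁻¹ - 1)) ∈ scaleS K D p :=
        scale_coeff_mul_mem _ (by rw [map_sub, hU0, coeff_one, if_pos rfl, sub_self]) ih
          (sub_mem (hS _) (one_mem _))
      rw [hsplit g (U x⁻¹), hEq, if_neg (fun h => hx1 h.1), hm x hx, sub_zero]
  have hgO : ∀ m, coeff m (rescale (p : A) g) ∈ GO V D := by
    intro m
    induction m using Nat.strong_induction_on with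
    | _ m ih =>
      intro x
      by_cases hx : x ^ p = 1
      · have hx' : x⁻¹ ^ p = 1 := by rw [inv_pow, hx, inv_one]
        have hm : coeff m (rescale (p : A) g * (rescale (p : A) (U x⁻¹) - 1)) ∈ GO V D :=
          scale_coeff_mul_mem _
            (by rw [map_sub, hRc, hU0, coeff_one, if_pos rfl, pow_zero, one_smul, sub_self]) ih
            (fun j => (hJ _ hx' j).1.1)
        rw [hsplit _ (rescale (p : A) (U x⁻¹)), ← map_mul, hRc, MonoidAlgebra.coeff_smul_apply, hEq]
        refine sub_mem ?_ (hm x)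
        rw [smul_eq_mul]
        refine mul_mem (pow_mem (natCast_mem V p) m) ?_
        split_ifs
        · exact one_mem _
        · exact zero_mem _
      · rw [hRc, MonoidAlgebra.coeff_smul_apply, hgS m x hx, smul_zero]
        exact zero_mem _
  have hgO' : ∀ m, (p : K) ^ m • coeff m g ∈ GO V D := fun m => hRc g m ▸ hgO m
  refine ⟨hgO', ?_⟩
  obtain ⟨a, ha, hr⟩ := h.r_unit
  have hg0 : coeff 0 g = 1 := by
    ext x
    have := hEq x 0
    rw [coeff_zero_mul', hU0, mul_one] at this
    rw [this, MonoidAlgebra.one_def, MonoidAlgebra.coeff_single, Finsupp.single_apply]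
    simp [eq_comm]
  have hg1 : ∀ x : D, (coeff 1 g).coeff x
      = -∑ l, ((r l x⁻¹ : ℚ) : K) * ((if w l = x then 1 else 0) - if 1 = x then 1 else 0) := by
    intro x
    have h2 := hEq x 1
    rw [coeff_one_mul, ← coeff_zero_eq_constantCoeff_apply, ← coeff_zero_eq_constantCoeff_apply,
      hU0, hg0, mul_one, mul_one, hU1, if_neg (by simp), ← coef_apply, map_add, map_sum] at h2
    rw [← coef_apply, eq_neg_of_add_eq_zero_left h2]
    congr 1
    refine Finset.sum_congr rfl fun l _ => ?_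
    rw [map_smul, map_sub, coef_apply, coef_apply, MonoidAlgebra.one_def,
      MonoidAlgebra.coeff_single, MonoidAlgebra.coeff_single, Finsupp.single_apply,
      Finsupp.single_apply, smul_eq_mul]
  have hp0 : (p : K) ≠ 0 := Nat.cast_ne_zero.2 hp.ne_zero
  have heps : scaleEps K D ((p : K) • coeff 1 g) = ((-(Fintype.card E * a) : ℤ) : K) := by
    rw [map_smul, scaleEps_eq]
    simp only [hg1, Finset.sum_neg_distrib]
    rw [Finset.sum_comm]
    simp only [mul_sub, Finset.sum_sub_distrib, mul_ite, mul_one, mul_zero, Finset.sum_ite_eq,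
      Finset.mem_univ, if_true, inv_one, h.r_one, hr, Rat.cast_zero,
      sub_zero, Finset.sum_const, Finset.card_univ, nsmul_eq_mul, smul_eq_mul]
    push_cast
    field_simp
  refine ⟨((-(Fintype.card E * a) : ℤ) : K), intCast_mem V _, scale_nonunit hp hpV ?_, ?_⟩
  · rw [dvd_neg]
    intro hd
    rcases (Nat.prime_iff_prime_int.1 hp).dvd_or_dvd hd with h' | h'
    · exact hE (Int.natCast_dvd_natCast.1 h')
    · exact ha h'
  · have hT : (p : K) • coeff 1 g - algebraMap K A ((-(Fintype.card E * a) : ℤ) : K)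
        ∈ scaleT V D p := by
      refine sub_mem ⟨?_, scale_smul_S (hgS 1) _⟩ ?_
      · simpa using hgO' 1
      · rw [map_intCast]
        exact intCast_mem _ _
    obtain ⟨z, hz, ez⟩ := scale_J_pow hp (scale_C_J hT
      (by rw [map_sub, heps, AlgHom.commutes, Algebra.algebraMap_self_apply, sub_self]))
    refine ⟨coeff 0 z, (hz 0).1.1, ?_⟩
    have := congrArg (coeff 0) ez
    rwa [← map_pow, coeff_zero_C, coeff_smul] at this

end Pool.Agent.Lib.MP_b6945b_al.St
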