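import Pool.Agent.Lib.MP_b6945b_al.St.CrossPure
import Pool.Agent.Lib.MP_b6945b_al.St.Scale
import Pool.Agent.Lib.MP_b6945b_al.St.DefD2

set_option autoImplicit false

/-!
Crossed products of abelian `p`-groups with `p'`-groups have good deformations.
-/

namespace Pool.Agent.Lib.MP_b6945b_al.St

open PowerSeries

variable {K : Type} [Field K] [CharZero K] {V : ValuationSubring K}

lemma cross_coeff_mul {A : Type} [Ring A] {k : ℕ} {F : A⟦X⟧} (h : Ord k F) (G : A⟦X⟧) :
    coeff k (F * G) = coeff k F * coeff 0 G := by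
  obtain ⟨F', rfl⟩ := ord_iff_dvd.1 h
  have e1 := coeff_X_pow_mul (F' * G) k 0
  have e2 := coeff_X_pow_mul F' k 0
  rw [zero_add] at e1 e2
  rw [mul_assoc, e1, e2]
  simp [coeff_mul]

lemma cross_ord_succ {A : Type} [Ring A] {k : ℕ} {F : A⟦X⟧} (h : Ord k F) (h' : coeff k F = 0) :
    Ord (k + 1) F := by
  intro m hm
  rcases Nat.lt_succ_iff_lt_or_eq.1 hm with e | e
  · exact h m e
  · rw [e]; exact h'

/-- Roots prime to `p` stay in the lattice: if `y - y₀` has order `m` with `y₀ ∈ Λ` a unit, compare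
leading coefficients of `(y y₀⁻¹) ^ n` (`Deform.coeff_mem_of_ord`), improve `y₀`, and use
`Deform.closed`. -/
lemma Deform.mem_of_pow_mem {A : Type} [CommRing A] [Algebra K A] {O : Subring A}
    {s : A →ₗ[K] K} {Λ : Subring A⟦X⟧} {g : A⟦X⟧} (h : Deform V O s Λ g) {n : ℕ}
    (hn : ((n : K))⁻¹ ∈ V) (hn0 : n ≠ 0) {y : A⟦X⟧} (h0 : coeff 0 y = 1) (hy : y ^ n ∈ Λ) :
    y ∈ Λ := by
  have hz0 : ∀ F G : A⟦X⟧, coeff 0 (F * G) = coeff 0 F * coeff 0 G := fun F G => by
    simp [coeff_mul]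
  have key : ∀ m, ∃ y₀ ∈ Λ, coeff 0 y₀ = 1 ∧ Ord (m + 1) (y - y₀) := by
    intro m
    induction m with
    | zero => exact ⟨1, Λ.one_mem, by simp, ord_one_iff.2 (by rw [map_sub, h0]; simp)⟩
    | succ m ih =>
      obtain ⟨y₀, hy₀, c0, ho⟩ := ih
      obtain ⟨G, hG, hG1, -⟩ := h.exists_inv hy₀ O.one_mem (by rw [c0, one_mul])
        (by rw [c0, one_mul])
      have cG : coeff 0 G = 1 := by
        have := congrArg (coeff 0) hG1
        rw [hz0, c0, mul_one] at this
        simpa using this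
      have hz : Ord (m + 1) (y * G - 1) := by
        have := ho.mul_right G
        rwa [sub_mul, mul_comm y₀ G, hG1] at this
      have cz : coeff 0 (y * G) = 1 := by rw [hz0, h0, cG, one_mul]
      have e1 : (y * G) ^ n - 1 = (y * G - 1) * ∑ i ∈ Finset.range n, (y * G) ^ i := by
        rw [mul_geom_sum]
      have e2 : coeff 0 (∑ i ∈ Finset.range n, (y * G) ^ i) = (n : A) := by
        rw [coeff_zero_eq_constantCoeff_apply] at cz ⊢
        simp [map_sum, map_pow, cz]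
      have hm : (y * G) ^ n - 1 ∈ Λ := by
        rw [mul_pow]; exact Λ.sub_mem (Λ.mul_mem hy (Λ.pow_mem hG n)) Λ.one_mem
      have h1 := h.coeff_mem_of_ord hm (e1 ▸ hz.mul_right _)
      rw [e1, cross_coeff_mul hz, e2] at h1
      have h2 := h.symOrder.smul_mem _ hn _ h1
      have e3 : ((n : K))⁻¹ • (coeff (m + 1) (y * G - 1) * (n : A)) =
          coeff (m + 1) (y * G - 1) := by
        rw [mul_comm, ← nsmul_eq_mul, ← Nat.cast_smul_eq_nsmul K, smul_smul,
          inv_mul_cancel₀ (Nat.cast_ne_zero.2 hn0), one_smul]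
      rw [e3] at h2
      obtain ⟨F, hF, cF⟩ := (h.const _).1 h2
      have hX : ∀ k, (X : A⟦X⟧) ^ k * F ∈ Λ := by
        intro k
        induction k with
        | zero => simpa using hF
        | succ k ih => rw [pow_succ', mul_assoc]; exact h.X_mul_mem ih
      have oX : Ord (m + 1) ((X : A⟦X⟧) ^ (m + 1) * F) := ord_iff_dvd.2 ⟨F, rfl⟩
      refine ⟨y₀ * (1 + X ^ (m + 1) * F), Λ.mul_mem hy₀ (Λ.add_mem Λ.one_mem (hX _)), ?_, ?_⟩
      · rw [hz0, c0, one_mul, map_add, oX 0 (Nat.succ_pos m)]; simp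
      · have e4 : y - y₀ * (1 + X ^ (m + 1) * F) = y₀ * (y * G - 1 - X ^ (m + 1) * F) := by
          linear_combination (-y) * hG1
        rw [e4]
        refine Ord.mul_left (cross_ord_succ (hz.sub oX) ?_) _
        have e5 := coeff_X_pow_mul F (m + 1) 0
        rw [zero_add] at e5
        rw [map_sub, e5, cF, sub_self]
  refine h.closed y fun m => ?_
  obtain ⟨y₀, hy₀, -, ho⟩ := key m
  exact ⟨y₀, hy₀, ho.mono (Nat.le_succ m)⟩

/-- Averaging a cochain whose coboundary lies in a subgroup. -/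
lemma cross_avg {G E : Type} [CommGroup G] [Group E] [Fintype E] (τ : E → G →* G)
    (H : Subgroup G) (hH : ∀ l, ∀ x ∈ H, τ l x ∈ H) (c c' : E → E → G)
    (hc : ∀ l m k, c l m * c (l * m) k = τ l (c m k) * c l (m * k)) (hc' : ∀ l m, c' l m ∈ H)
    (a : E → G) (ha : ∀ l, a l ^ Fintype.card E = ∏ k, c' l k / c l k) (l m : E) :
    (a l * τ l (a m) / (a (l * m) * (c' l m / c l m))) ^ Fintype.card E ∈ H := by
  have e1 : a l ^ Fintype.card E = ∏ k, c' l (m * k) / c l (m * k) := by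
    rw [ha]
    exact (Equiv.prod_comp (Equiv.mulLeft m) fun k => c' l k / c l k).symm
  have e2 : (c' l m / c l m) ^ Fintype.card E = ∏ _k : E, c' l m / c l m := by
    rw [Finset.prod_const, Finset.card_univ]
  rw [div_pow, mul_pow, mul_pow, ← map_pow, e1, e2, ha, ha, map_prod, ← Finset.prod_mul_distrib,
    ← Finset.prod_mul_distrib, ← Finset.prod_div_distrib]
  refine H.prod_mem fun k _ => ?_
  have e3 : c' l (m * k) / c l (m * k) * τ l (c' m k / c m k) /
      (c' (l * m) k / c (l * m) k * (c' l m / c l m)) =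
      c' l (m * k) * τ l (c' m k) / (c' (l * m) k * c' l m) *
        (c l m * c (l * m) k / (τ l (c m k) * c l (m * k))) := by
    rw [map_div]
    apply Additive.ofMul.injective
    simp only [ofMul_mul, ofMul_div]
    abel
  rw [e3, hc, div_self', mul_one]
  exact H.div_mem (H.mul_mem (hc' _ _) (hH _ _ (hc' _ _))) (H.mul_mem (hc' _ _) (hc' _ _))

variable {D E : Type} [CommGroup D] [Fintype D] [Group E] [Fintype E] {A : Type} [Ring A]
  [Algebra K A] {φ : E →* MulAut D} {O : Subring A} {δ : MonoidAlgebra K D →ₐ[K] A} {u : E → A}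
  {c : E → E → MonoidAlgebra K D}

/-- The cocycle deforms.  Lift `c l m` to `c' l m ∈ Λ`, put `θ l m = c' l m / C (c l m)`
(constant term one; its coboundary is that of `c'`, a unit of `Λ`), `b l = ∏ m, θ l m`, and let
`a l` be the `card E`-th root of `b l` (`exists_root`); the `card E`-th power of
`a l * act l (a m) / (a (l m) * θ l m)` lies in `Λ`. -/
lemma CrossData.exists_cochain (h : CrossData V φ O δ u c)
    (hE : ((Fintype.card E : K))⁻¹ ∈ V) {Λ : Subring (MonoidAlgebra K D)⟦X⟧}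
    {g : (MonoidAlgebra K D)⟦X⟧} (hD : Deform V (GO V D) (coef K (1 : D)) Λ g)
    (hΛ : ∀ l, ∀ F ∈ Λ, PowerSeries.map (act K φ l) F ∈ Λ) :
    ∃ a : E → (MonoidAlgebra K D)⟦X⟧, (∀ l, coeff 0 (a l) = 1) ∧
      ∀ l m, ∃ F ∈ Λ, a l * PowerSeries.map (act K φ l) (a m) * C (c l m) = F * a (l * m) := by
  choose ci hci hcc using h.c_unit
  choose c' hc' hc0 using fun l m => (hD.const (c l m)).1 (h.c_mem l m)
  choose c'' hc'' hcc' hcc'' using fun l m => hD.exists_inv (hc' l m) (hci l m)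
    (by rw [hc0, mul_comm, hcc]) (by rw [hc0, hcc])
  let cu : E → E → ((MonoidAlgebra K D)⟦X⟧)ˣ := fun l m =>
    ⟨C (c l m), C (ci l m), by rw [← map_mul, hcc, map_one],
      by rw [← map_mul, mul_comm, hcc, map_one]⟩
  let cv : E → E → ((MonoidAlgebra K D)⟦X⟧)ˣ := fun l m =>
    ⟨c' l m, c'' l m, hcc'' l m, hcc' l m⟩
  let τ : E → ((MonoidAlgebra K D)⟦X⟧)ˣ →* ((MonoidAlgebra K D)⟦X⟧)ˣ := fun l =>
    Units.map (PowerSeries.map (act K φ l)).toMonoidHom
  let H : Subgroup ((MonoidAlgebra K D)⟦X⟧)ˣ :=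
    { carrier := {x | x.val ∈ Λ ∧ x.inv ∈ Λ}
      one_mem' := ⟨Λ.one_mem, Λ.one_mem⟩
      mul_mem' := fun ha hb => ⟨Λ.mul_mem ha.1 hb.1, Λ.mul_mem hb.2 ha.2⟩
      inv_mem' := fun ha => ⟨ha.2, ha.1⟩ }
  let N : Subgroup ((MonoidAlgebra K D)⟦X⟧)ˣ :=
    (Units.map (constantCoeff (R := MonoidAlgebra K D)).toMonoidHom).ker
  have hN : ∀ x, x ∈ N ↔ coeff 0 x.val = 1 := by
    intro x
    rw [MonoidHom.mem_ker, Units.ext_iff, coeff_zero_eq_constantCoeff_apply]
    rfl
  have hNτ : ∀ l, ∀ x ∈ N, τ l x ∈ N := by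
    intro l x hx
    rw [hN] at hx ⊢
    change coeff 0 (PowerSeries.map (act K φ l) x.val) = 1
    rw [coeff_map, hx, map_one]
  have hθ : ∀ l m, cv l m / cu l m ∈ N := by
    intro l m
    rw [hN, div_eq_mul_inv]
    change coeff 0 (c' l m * C (ci l m)) = 1
    rw [coeff_mul_C, hc0, hcc]
  have hn0 : Fintype.card E ≠ 0 := Fintype.card_ne_zero
  have hroot : ∀ l, ∃ a ∈ N, a ^ Fintype.card E = ∏ k, cv l k / cu l k := by
    intro l
    obtain ⟨a, h1, h2⟩ := exists_root (K := K) ((hN _).1 (N.prod_mem fun k (_ : k ∈ Finset.univ) =>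
      hθ l k)) hn0
    have hu : IsUnit a := (isUnit_pow_iff hn0).1 (h2 ▸ Units.isUnit _)
    obtain ⟨a, rfl⟩ := hu
    exact ⟨a, (hN a).2 h1, Units.ext (by rw [Units.val_pow_eq_pow_val, h2])⟩
  choose a haN ha using hroot
  refine ⟨fun l => (a l).val, fun l => (hN _).1 (haN l), fun l m => ?_⟩
  have h1 := cross_avg τ H (fun l x hx => ⟨hΛ l _ hx.1, hΛ l _ hx.2⟩) cu cv (fun l m k => by
    refine Units.ext ?_
    change C (c l m) * C (c (l * m) k) = PowerSeries.map (act K φ l) (C (c m k)) * C (c l (m * k))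
    rw [map_C, ← map_mul, ← map_mul, h.cocycle]) (fun l m => ⟨hc' l m, hc'' l m⟩) a ha l m
  have h2 : a l * τ l (a m) / (a (l * m) * (cv l m / cu l m)) ∈ N :=
    N.div_mem (N.mul_mem (haN l) (hNτ l _ (haN m))) (N.mul_mem (haN _) (hθ l m))
  have h3 := hD.mem_of_pow_mem hE hn0 ((hN _).1 h2) (by
    rw [← Units.val_pow_eq_pow_val]; exact h1.1)
  refine ⟨_, Λ.mul_mem h3 (hc' l m), ?_⟩
  have h4 : a l * τ l (a m) * cu l m =
      a l * τ l (a m) / (a (l * m) * (cv l m / cu l m)) * cv l m * a (l * m) := by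
    apply Additive.ofMul.injective
    simp only [ofMul_mul, ofMul_div]
    abel
  exact congrArg Units.val h4

omit [CharZero K] in
lemma CrossData.cross_form (h : CrossData V φ O δ u c) {s : A →ₗ[K] K} (hs : IsCrossForm δ u s)
    (a : MonoidAlgebra K D) : s (δ a) = a.coeff 1 ∧ ∀ l, l ≠ 1 → s (δ a * u l) = 0 := by
  classical
  have key : ∀ l, ∑ m, δ ((Pi.single l a : E → MonoidAlgebra K D) m) * u m = δ a * u l := by
    intro l
    rw [Finset.sum_eq_single l (fun m _ hm => by rw [Pi.single_eq_of_ne hm, map_zero, zero_mul])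
      (fun c => absurd (Finset.mem_univ l) c), Pi.single_eq_same]
  refine ⟨?_, fun l hl => ?_⟩
  · have := hs (Pi.single 1 a)
    rwa [key, h.one, mul_one, Pi.single_eq_same] at this
  · have := hs (Pi.single l a)
    rw [key, Pi.single_eq_of_ne hl.symm] at this
    exact this

omit [CharZero K] in
lemma CrossData.cross_mem (h : CrossData V φ O δ u c) {a : MonoidAlgebra K D} (ha : a ∈ GO V D) :
    δ a ∈ O := by
  classical
  have := (h.mem_iff (Pi.single 1 a)).2 fun l => by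
    by_cases e : l = 1
    · rw [e, Pi.single_eq_same]; exact ha
    · rw [Pi.single_eq_of_ne e]; exact (GO V D).zero_mem
  rwa [Finset.sum_eq_single 1 (fun m _ hm => by rw [Pi.single_eq_of_ne hm, map_zero, zero_mul])
    (fun c => absurd (Finset.mem_univ 1) c), Pi.single_eq_same, h.one, mul_one] at this

omit [CharZero K] in
lemma cross_extF_symm {s : A →ₗ[K] K} (hs : ∀ x y, s (x * y) = s (y * x)) (F G : A⟦X⟧) :
    extF s (F * G) = extF s (G * F) := by
  ext n
  simp only [coeff_extF, coeff_mul, map_sum]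
  rw [← Finset.Nat.sum_antidiagonal_swap]
  exact Finset.sum_congr rfl fun q _ => hs _ _

/-- The span of the elements `v l` over the image of `Λ`. -/
def crossSub {R B : Type} [CommRing R] [Ring B] (Δ : R →+* B) (Λ : Subring R) (v : E → B) :
    AddSubgroup B where
  carrier := {x | ∃ F : E → R, (∀ l, F l ∈ Λ) ∧ x = ∑ l, Δ (F l) * v l}
  zero_mem' := ⟨0, fun _ => Λ.zero_mem, by simp⟩
  add_mem' := by
    rintro _ _ ⟨F, hF, rfl⟩ ⟨G, hG, rfl⟩
    exact ⟨F + G, fun l => Λ.add_mem (hF l) (hG l), by simp [add_mul, Finset.sum_add_distrib]⟩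
  neg_mem' := by
    rintro _ ⟨F, hF, rfl⟩
    exact ⟨-F, fun l => Λ.neg_mem (hF l), by simp⟩

omit [Group E] in
lemma crossSub_single {R B : Type} [CommRing R] [Ring B] (Δ : R →+* B) {Λ : Subring R}
    (v : E → B) {F : R} (hF : F ∈ Λ) (l : E) : Δ F * v l ∈ crossSub Δ Λ v := by
  classical
  refine ⟨Pi.single l F, fun m => ?_, ?_⟩
  · by_cases e : m = l
    · rw [e, Pi.single_eq_same]; exact hF
    · rw [Pi.single_eq_of_ne e]; exact Λ.zero_mem
  · rw [Finset.sum_eq_single l (fun m _ hm => by rw [Pi.single_eq_of_ne hm, map_zero, zero_mul])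
      (fun c => absurd (Finset.mem_univ l) c), Pi.single_eq_same]

/-- The lattice is `{∑ δ (F l) * δ (a l) * C (u l) | F l ∈ Λ}` and `g` is the image of the series
of `XFam.exists_deform`.  `a 1 ∈ Λ`; the frame is `(δ (β i) ũ l, (ũ l)⁻¹ δ (β' i))`. -/
theorem CrossData.exists_deform (h : CrossData V φ O δ u c)
    (hE : ((Fintype.card E : K))⁻¹ ∈ V) {s : A →ₗ[K] K} (hs : IsCrossForm δ u s)
    {Λ : Subring (MonoidAlgebra K D)⟦X⟧}
    {g : (MonoidAlgebra K D)⟦X⟧} (hD : Deform V (GO V D) (coef K (1 : D)) Λ g)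
    (hΛ : ∀ l, ∀ F ∈ Λ, PowerSeries.map (act K φ l) F ∈ Λ)
    (hg : ∀ l m, act K φ l (coeff m g) = coeff m g) :
    ∃ Λ' : Subring A⟦X⟧, Deform V O s Λ' (PowerSeries.map δ.toRingHom g) := by
  classical
  obtain ⟨a, a0, hF⟩ := h.exists_cochain hE hD hΛ
  choose Fm hFm eFm using hF
  generalize hΔ : PowerSeries.map δ.toRingHom = Δ
  have cΔ : ∀ F n, coeff n (Δ F) = δ (coeff n F) := fun F n => by rw [← hΔ, coeff_map]; rfl
  have ΔC : ∀ x, Δ (C x) = C (δ x) := fun x => by rw [← hΔ, map_C]; rfl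
  have Δs : ∀ (r : K⟦X⟧) F, Δ (r • F) = r • Δ F := by
    intro r F
    change Δ (PowerSeries.map (algebraMap K _) r * F) = _
    rw [ps_smul_def, map_mul]
    congr 1
    ext n
    rw [cΔ, coeff_map, coeff_map, δ.commutes]
  have r1 : ∀ l F, C (u l) * Δ F = Δ (PowerSeries.map (act K φ l) F) * C (u l) := by
    intro l F
    ext n
    rw [coeff_C_mul, coeff_mul_C, cΔ, cΔ, coeff_map, h.comm]
  have au : ∀ l, ∃ b, b * a l = 1 := fun l => by
    obtain ⟨G, -, e, -⟩ := exists_inv_coefAlg (K := K) ⊤ (F := a l) (fun _ => trivial)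
      (w := 1) trivial (by rw [a0, one_mul]) (by rw [a0, one_mul])
    exact ⟨G, e⟩
  choose ai hai using au
  obtain ⟨v, hv⟩ : ∃ v : E → A⟦X⟧, ∀ l, v l = Δ (a l) * C (u l) := ⟨_, fun _ => rfl⟩
  have r2 : ∀ l F, v l * Δ F = Δ (PowerSeries.map (act K φ l) F) * v l := by
    intro l F
    rw [hv, mul_assoc, r1, ← mul_assoc, ← mul_assoc, ← map_mul, ← map_mul, mul_comm (a l)]
  have r3 : ∀ l m, v l * v m = Δ (Fm l m) * v (l * m) := by
    intro l m
    rw [hv m, ← mul_assoc, r2, hv l, hv, mul_assoc, mul_assoc, ← map_mul C, h.mul, map_mul C,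
      ← ΔC, ← mul_assoc, ← mul_assoc, ← mul_assoc, ← map_mul, ← map_mul, ← map_mul, ← eFm,
      mul_comm (a l)]
  have v1 : v 1 = Δ (a 1) := by rw [hv, h.one, map_one, mul_one]
  have F0 : ∀ l m, coeff 0 (Fm l m) = c l m := by
    intro l m
    have := congrArg (coeff 0) (eFm l m)
    rw [coeff_zero_mul', coeff_zero_mul', coeff_zero_mul', coeff_map,
      a0, a0, a0, map_one] at this
    simpa using this.symm
  have a1 : a 1 ∈ Λ := by
    have e1 : PowerSeries.map (act K φ 1) (a 1) = a 1 := by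
      ext1 n
      have := h.comm 1 (coeff n (a 1))
      rw [coeff_map]
      refine h.inj 1 ?_
      rw [← this, h.one, one_mul, mul_one]
    have e2 := eFm 1 1
    rw [e1, (h.c_one 1).1, map_one, mul_one, mul_one] at e2
    have e3 : a 1 = Fm 1 1 := by
      linear_combination (ai 1) * e2 - (a 1 - Fm 1 1) * hai 1
    rw [e3]; exact hFm 1 1
  have hJ : ∀ l, ∃ J ∈ Λ, Fm l l⁻¹ * a 1 * J = 1 := by
    intro l
    obtain ⟨w, hw, e⟩ := h.c_unit l l⁻¹
    have e0 : coeff 0 (Fm l l⁻¹ * a 1) = c l l⁻¹ := by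
      rw [coeff_zero_mul', F0, a0, mul_one]
    obtain ⟨J, hJ, -, e'⟩ := hD.exists_inv (Λ.mul_mem (hFm l l⁻¹) a1) hw
      (by rw [e0, mul_comm, e]) (by rw [e0, e])
    exact ⟨J, hJ, e'⟩
  choose J hJ eJ using hJ
  have hmul : ∀ {x y}, x ∈ crossSub Δ Λ v → y ∈ crossSub Δ Λ v → x * y ∈ crossSub Δ Λ v := by
    rintro _ _ ⟨F, hF, rfl⟩ ⟨G, hG, rfl⟩
    rw [Finset.sum_mul_sum]
    refine sum_mem fun l _ => sum_mem fun m _ => ?_
    have e : Δ (F l) * v l * (Δ (G m) * v m) =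
        Δ (F l * PowerSeries.map (act K φ l) (G m) * Fm l m) * v (l * m) := by
      rw [mul_assoc, ← mul_assoc (v l), r2, mul_assoc, r3, map_mul, map_mul]
      simp only [mul_assoc]
    rw [e]
    exact crossSub_single Δ v (Λ.mul_mem (Λ.mul_mem (hF l) (hΛ l _ (hG m))) (hFm l m)) _
  have hΔm : ∀ F ∈ Λ, Δ F ∈ crossSub Δ Λ v := by
    intro F hF
    have := crossSub_single Δ v (Λ.mul_mem hF (Λ.mul_mem (hFm 1 1⁻¹) (hJ 1))) 1
    have e : F * (Fm 1 1⁻¹ * J 1) * a 1 = F := by linear_combination F * eJ 1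
    rwa [v1, ← map_mul, e] at this
  have hvm : ∀ l, v l ∈ crossSub Δ Λ v := fun l => by
    simpa using crossSub_single Δ v Λ.one_mem l
  let Λ' : Subring A⟦X⟧ :=
    { crossSub Δ Λ v with
      one_mem' := by simpa using hΔm 1 Λ.one_mem
      mul_mem' := hmul }
  have mΛ : ∀ {x}, x ∈ Λ' ↔ x ∈ crossSub Δ Λ v := Iff.rfl
  have s1 : ∀ G, st s (Δ g) (Δ G) = st (coef K (1 : D)) g G := by
    intro G
    ext n
    rw [st_apply, st_apply, ← map_mul, coeff_extF, coeff_extF, cΔ, (h.cross_form hs _).1]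
    rfl
  have s0 : ∀ G l, l ≠ 1 → st s (Δ g) (Δ G * v l) = 0 := by
    intro G l hl
    ext n
    rw [st_apply, hv, ← mul_assoc, ← mul_assoc, ← map_mul, ← map_mul, coeff_extF,
      coeff_mul_C, cΔ, (h.cross_form hs _).2 l hl, map_zero]
  have cen : ∀ m x, coeff m (Δ g) * x = x * coeff m (Δ g) := by
    intro m x
    obtain ⟨b, rfl⟩ := h.bij.2 x
    rw [cΔ, Finset.mul_sum, Finset.sum_mul]
    refine Finset.sum_congr rfl fun l _ => ?_
    rw [mul_assoc, h.comm, hg, ← mul_assoc, ← mul_assoc, ← map_mul, ← map_mul, mul_comm (b l)]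
  have c0 : ∀ F : E → (MonoidAlgebra K D)⟦X⟧,
      coeff 0 (∑ l, Δ (F l) * v l) = ∑ l, δ (coeff 0 (F l)) * u l := by
    intro F
    rw [map_sum]
    refine Finset.sum_congr rfl fun l _ => ?_
    rw [hv, coeff_zero_mul', coeff_mul_C, cΔ, cΔ, a0, map_one, one_mul]
  refine ⟨Λ', ?_, h.form_symm hs, cen, by rw [cΔ, hD.g_zero, map_one], ?_, ?_, fun x => ⟨?_, ?_⟩⟩
  · rintro r hr _ ⟨F, hF, rfl⟩
    refine ⟨fun l => r • F l, fun l => hD.smul_mem r hr _ (hF l), ?_⟩
    rw [Finset.smul_sum]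
    exact Finset.sum_congr rfl fun l _ => by rw [Δs, smul_mul_assoc]
  · rintro _ ⟨F, hF, rfl⟩
    rw [map_sum]
    refine sum_mem fun l _ => ?_
    by_cases e : l = 1
    · rw [e, v1, ← map_mul, s1]
      exact hD.form_mem _ (Λ.mul_mem (hF 1) a1)
    · rw [s0 _ l e]; exact zero_mem _
  · obtain ⟨n, β, β', hβ, hβ', hfr⟩ := hD.frame
    let e := (Fintype.equivFin (E × Fin n)).symm
    refine ⟨_, fun i => Δ (β (e i).2) * v (e i).1,
      fun i => v (e i).1⁻¹ * Δ (J (e i).1 * β' (e i).2),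
      fun i => crossSub_single Δ v (hβ _) _,
      fun i => hmul (hvm _) (hΔm _ (Λ.mul_mem (hJ _) (hβ' _))),
      fun _ => trivial, fun _ => trivial, fun x _ y _ => ?_, fun y _ => ?_⟩
    · rw [st_apply, st_apply, ← mul_assoc, cross_extF_symm (h.form_symm hs), ← mul_assoc,
        ← central_series cen y, mul_assoc]
    · refine (Equiv.sum_comp e fun q : E × Fin n =>
        st s (Δ g) (y * (v q.1⁻¹ * Δ (J q.1 * β' q.2))) • (Δ (β q.2) * v q.1)).trans ?_
      obtain ⟨G, rfl⟩ : ∃ G : E → (MonoidAlgebra K D)⟦X⟧, y = ∑ l, Δ (G l) * v l := by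
        choose b hb using fun k => h.bij.2 (coeff k y)
        refine ⟨fun l => (PowerSeries.mk fun k => b k l) * ai l, ?_⟩
        ext k
        rw [map_sum, ← hb k]
        refine Finset.sum_congr rfl fun l _ => ?_
        rw [hv, ← mul_assoc, ← map_mul, mul_assoc, hai, mul_one, coeff_mul_C, cΔ, coeff_mk]
      rw [Fintype.sum_prod_type]
      refine Finset.sum_congr rfl fun l _ => ?_
      have e1 : ∀ i, st s (Δ g) ((∑ m, Δ (G m) * v m) * (v l⁻¹ * Δ (J l * β' i))) =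
          st (coef K (1 : D)) g (G l * β' i) := by
        intro i
        rw [Finset.sum_mul, map_sum, Finset.sum_eq_single l _
          (fun c => absurd (Finset.mem_univ l) c)]
        · rw [mul_assoc, ← mul_assoc (v l), r3, mul_inv_cancel, v1, ← map_mul, ← map_mul,
            ← map_mul, s1, ← mul_assoc (Fm l l⁻¹ * a 1), eJ, one_mul]
        · intro m _ hm
          rw [mul_assoc, ← mul_assoc (v m), r3, mul_assoc, r2, ← mul_assoc, ← mul_assoc,
            ← map_mul, ← map_mul]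
          exact s0 _ _ fun c => hm (mul_inv_eq_one.1 c)
      simp only [e1]
      conv_rhs => rw [← hfr.repro (G l) trivial, map_sum, Finset.sum_mul]
      exact Finset.sum_congr rfl fun i _ => by rw [← smul_mul_assoc, ← Δs]
  · intro hx
    obtain ⟨b, rfl⟩ := h.bij.2 x
    choose F hF eF using fun l => (hD.const (b l)).1 ((h.mem_iff b).1 hx l)
    exact ⟨_, ⟨F, hF, rfl⟩, by simp only [c0, eF]⟩
  · rintro ⟨_, ⟨F, hF, rfl⟩, rfl⟩
    rw [c0]
    exact (h.mem_iff _).2 fun l => (hD.const _).2 ⟨_, hF l, rfl⟩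

lemma cross_inv_mem {p n : ℕ} (hp : p.Prime) (hpV : (p : K) ∈ V.nonunits) (hn : ¬ p ∣ n) :
    ((n : K))⁻¹ ∈ V := by
  by_contra c
  have h1 : (n : K) ∈ V.nonunits := V.mem_nonunits_iff_or.2 (Or.inr c)
  obtain ⟨x, y, e⟩ := Nat.isCoprime_iff_coprime.2 ((Nat.Prime.coprime_iff_not_dvd hp).2 hn)
  have e' : (x : K) * p + (y : K) * n = 1 := by exact_mod_cast congrArg (Int.cast : ℤ → K) e
  rw [V.mem_nonunits_iff] at h1 hpV
  have hz : ∀ (z : ℤ) (t : K), V.valuation t < 1 → V.valuation ((z : K) * t) < 1 := by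
    intro z t ht
    rw [map_mul]
    exact lt_of_le_of_lt (mul_le_of_le_one_left' ((V.valuation_le_one_iff _).2 (intCast_mem V z))) ht
  have := V.valuation.map_add_lt (hz x _ hpV) (hz y _ h1)
  rw [e', map_one] at this
  exact lt_irrefl _ this

theorem CrossData.good {p : ℕ} (hp : p.Prime) (hpV : (p : K) ∈ V.nonunits) [Nontrivial D]
    (hD : IsPGroup p D) (hE : ¬ p ∣ Fintype.card E) (h : CrossData V φ O δ u c)
    (hloc : LocalCentre V O) : Good V p O := by
  obtain ⟨w, r, Xs, hX⟩ := exists_xfam (K := K) hp hD φ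
  obtain ⟨Λ, g, hd, hΛ, hg, h1, h0⟩ := hX.exists_deform V
  have hE' := cross_inv_mem hp hpV hE
  obtain ⟨s, hs⟩ := h.exists_form
  obtain ⟨Λ', hd'⟩ := h.exists_deform hE' hs hd hΛ hg
  obtain ⟨k1, v, hv, hv', y, hy, e⟩ := hX.scale hp hpV hE h1 h0
  refine ⟨s, Λ', _, hd', xcond_of_pure hd'
    (h.pure hs hE' (Nat.cast_ne_zero.2 Fintype.card_ne_zero)), fun m => ?_,
    ⟨v, hv, hv', p, p, hpV, δ y, h.cross_mem hy, ?_⟩, hloc⟩
  · have := h.cross_mem (k1 m)
    rw [map_smul] at this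
    rw [coeff_map]
    exact this
  · have := congrArg δ e
    rw [map_pow, map_sub, map_smul, map_smul, δ.commutes] at this
    rw [coeff_map]
    exact this

end Pool.Agent.Lib.MP_b6945b_al.St
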