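import Pool.Agent.Lib.MP_b6945b_al.St.Morita

set_option autoImplicit false

/-!
The endomorphism algebra of an algebra over a subalgebra with projective complement.
-/

namespace Pool.Agent.Lib.MP_b6945b_al.St

variable {K : Type} [Field K] {V : ValuationSubring K} {A : Type} [Ring A] [Algebra K A]

/-- Endomorphisms of `A` as a right `L`-module. -/
def endR (L : Subalgebra K A) : Subalgebra K (Module.End K A) where
  carrier := {f | ∀ b ∈ L, ∀ x, f (x * b) = f x * b}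
  mul_mem' := fun {f g} hf hg b hb x => by
    rw [Module.End.mul_apply, Module.End.mul_apply, hg b hb, hf b hb]
  add_mem' := fun {f g} hf hg b hb x => by
    rw [LinearMap.add_apply, LinearMap.add_apply, hf b hb, hg b hb, add_mul]
  algebraMap_mem' := fun r b _ x => by
    simp [Module.algebraMap_end_apply]

/-- The endomorphisms preserving the order. -/
def endO (L : Subalgebra K A) (O : Subring A) : Subring (endR L) where
  carrier := {f | ∀ a ∈ O, f.1 a ∈ O}
  mul_mem' := fun hf hg a ha => hf _ (hg a ha)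
  one_mem' := fun _ ha => ha
  add_mem' := fun hf hg a ha => O.add_mem (hf a ha) (hg a ha)
  zero_mem' := fun _ _ => O.zero_mem
  neg_mem' := fun hf a ha => O.neg_mem (hf a ha)

/-- Left multiplications. -/
def lam (L : Subalgebra K A) : A →ₐ[K] endR L :=
  (Algebra.lmul K A).codRestrict (endR L) fun a b _ x => (mul_assoc a x b).symm

lemma lam_apply (L : Subalgebra K A) (a x : A) : (lam L a).1 x = a * x := rfl

variable (V) in
/-- A symmetric order `O` in `A` and a symmetric subalgebra `L` with projective complement. -/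
structure FlipD (O : Subring A) (s : A →ₗ[K] K) {ι : Type} [Fintype ι] (F F' : ι → A)
    (L : Subalgebra K A) (sL : A →ₗ[K] K) {κ : Type} [Fintype κ] (f f' : κ → A)
    (r α : A →ₗ[K] A) : Prop where
  smul_mem : ∀ v ∈ V, ∀ a ∈ O, v • a ∈ O
  frame : IsFrame s ⊤ F F'
  F_mem : ∀ i, F i ∈ O
  F'_mem : ∀ i, F' i ∈ O
  s_mem : ∀ a ∈ O, s a ∈ V
  frameL : IsFrame sL L.toSubmodule f f'
  f_mem : ∀ i, f i ∈ O
  f'_mem : ∀ i, f' i ∈ O
  sL_mem : ∀ b ∈ L, b ∈ O → sL b ∈ V
  r_O : ∀ a ∈ O, r a ∈ O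
  α_O : ∀ a ∈ O, α a ∈ O
  r_mem : ∀ y, r y ∈ L
  r_mul : ∀ b ∈ L, ∀ b' ∈ L, ∀ y, r (b * y * b') = b * r y * b'
  r_one : r 1 = 1
  hig : ∀ y, r y + trB f f' α y = y

variable {O : Subring A} {s sL : A →ₗ[K] K} {ι κ : Type} [Fintype ι] [Fintype κ] {F F' : ι → A}
  {L : Subalgebra K A} {f f' : κ → A} {r α : A →ₗ[K] A}

lemma frflip1_r_right (h : FlipD V O s F F' L sL f f' r α) : r ∈ endR L := by
  intro b hb x
  have := h.r_mul 1 L.one_mem b hb x
  simpa using this

lemma frflip1_r_left (h : FlipD V O s F F' L sL f f' r α) {b : A} (hb : b ∈ L) (x : A) :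
    r (b * x) = b * r x := by
  have := h.r_mul b hb 1 L.one_mem x
  simpa using this

lemma frflip1_r_self (h : FlipD V O s F F' L sL f f' r α) {b : A} (hb : b ∈ L) : r b = b := by
  have := frflip1_r_left h hb 1
  rwa [mul_one, h.r_one, mul_one] at this

lemma frflip1_apply_mem (χ : endR L) {b : A} (hb : b ∈ L) : χ.1 b = χ.1 1 * b := by
  have := χ.2 b hb 1
  rwa [one_mul] at this

lemma frflip1_ext {χ ψ : endR L} (e : ∀ x, χ.1 x = ψ.1 x) : χ = ψ :=
  Subtype.ext (LinearMap.ext e)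

lemma frflip1_sum_apply {μ : Type} (t : Finset μ) (χ : μ → endR L) (x : A) :
    (∑ k ∈ t, χ k).1 x = ∑ k ∈ t, (χ k).1 x := by
  rw [AddSubmonoidClass.coe_finsetSum, LinearMap.sum_apply]

lemma frflip1_mul_apply (χ ψ : endR L) (x : A) : (χ * ψ).1 x = χ.1 (ψ.1 x) := rfl

lemma frflip1_lam_mem {a : A} (ha : a ∈ O) : lam L a ∈ endO L O :=
  fun _ hx => O.mul_mem ha hx

/-- Evaluation of an endomorphism. -/
def frflip1_ev (L : Subalgebra K A) (a : A) : endR L →ₗ[K] A where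
  toFun χ := χ.1 a
  map_add' _ _ := rfl
  map_smul' _ _ := rfl

lemma frflip1_ev_apply (a : A) (χ : endR L) : frflip1_ev L a χ = χ.1 a := rfl

/-- With `γ = ∑ i, f i * α (f' i * ·)`: `x = r x + ∑ k, γ (x * f' k) * f k`; expand `γ y` in the
frame `F`.  Take `a = 1`, `τ = r`, and `a = F c`, `τ x = ∑ k, s (γ (x * f' k) * F' c) • f k`, which
is right `L`-linear by `IsFrame.slideB_left` for the swapped frame. -/
lemma FlipD.dual_basis (h : FlipD V O s F F' L sL f f' r α) :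
    ∃ (μ : Type) (_ : Fintype μ) (a : μ → A) (τ : μ → endR L), (∀ k, a k ∈ O) ∧
      (∀ k, τ k ∈ endO L O) ∧ (∀ k x, (τ k).1 x ∈ L) ∧ ∀ x, ∑ k, a k * (τ k).1 x = x := by
  classical
  let γ : A →ₗ[K] A := ∑ i, LinearMap.mulLeft K (f i) ∘ₗ α ∘ₗ LinearMap.mulLeft K (f' i)
  have hγ : ∀ y, γ y = ∑ i, f i * α (f' i * y) := fun y => by
    simp [γ, LinearMap.sum_apply]
  have hγO : ∀ y ∈ O, γ y ∈ O := fun y hy => by
    rw [hγ]
    exact O.sum_mem fun i _ => O.mul_mem (h.f_mem i) (h.α_O _ (O.mul_mem (h.f'_mem i) hy))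
  let T : ι → A →ₗ[K] A := fun c => ∑ k,
    (s ∘ₗ LinearMap.mulRight K (F' c) ∘ₗ γ ∘ₗ LinearMap.mulRight K (f' k)).smulRight (f k)
  have hT : ∀ c x, T c x = ∑ k, s (γ (x * f' k) * F' c) • f k := fun c x => by
    simp [T, LinearMap.sum_apply]
  have hTR : ∀ c, T c ∈ endR L := fun c b hb x => by
    have hB : IsBilin K (fun u v : A => s (γ (x * u) * F' c) • v) := by
      refine ⟨fun _ _ _ => ?_, fun _ _ _ => ?_, fun _ _ _ => ?_, fun _ _ _ => ?_⟩
      · simp [mul_add, add_mul, add_smul]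
      · simp [mul_smul]
      · rw [smul_add]
      · rw [smul_comm]
    have := h.frameL.swap.slideB_left hB hb
    rw [hT, hT, Finset.sum_mul]
    simp only [mul_assoc, smul_mul_assoc] at this ⊢
    exact this
  refine ⟨Option ι, inferInstance, fun k => k.elim 1 F,
    fun k => k.elim ⟨r, frflip1_r_right h⟩ (fun c => ⟨T c, hTR c⟩), ?_, ?_, ?_, ?_⟩
  · rintro (_ | c)
    · exact O.one_mem
    · exact h.F_mem c
  · rintro (_ | c)
    · exact h.r_O
    · intro a ha
      change T c a ∈ O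
      rw [hT]
      exact O.sum_mem fun k _ => h.smul_mem _ (h.s_mem _ (O.mul_mem
        (hγO _ (O.mul_mem ha (h.f'_mem k))) (h.F'_mem c))) _ (h.f_mem k)
  · rintro (_ | c) x
    · exact h.r_mem x
    · change T c x ∈ L
      rw [hT]
      exact L.sum_mem fun k _ => L.smul_mem (h.frameL.mem k) _
  · intro x
    rw [Fintype.sum_option]
    change 1 * r x + ∑ c, F c * T c x = x
    have e : ∑ c, F c * T c x = trB f f' α x := by
      calc ∑ c, F c * T c x = ∑ k, (∑ c, s (γ (x * f' k) * F' c) • F c) * f k := by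
            simp only [hT, Finset.mul_sum, Finset.sum_mul, mul_smul_comm, smul_mul_assoc]
            exact Finset.sum_comm
        _ = ∑ k, γ (x * f' k) * f k :=
            Finset.sum_congr rfl fun k _ => by rw [h.frame.repro _ trivial]
        _ = trB f f' α x := by
            simp only [hγ, trB, Finset.sum_mul, mul_assoc]
            exact Finset.sum_comm
    rw [one_mul, e, h.hig]

/-- `π z = sL (r z) • 1 + ∑ k, α (z * f' k) * f k`. -/
lemma FlipD.left_hig (h : FlipD V O s F F' L sL f f' r α) :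
    ∃ π : A →ₗ[K] A, (∀ a ∈ O, π a ∈ O) ∧ ∀ x, ∑ i, f i * π (f' i * x) = x := by
  let π : A →ₗ[K] A := (sL ∘ₗ r).smulRight 1 +
    ∑ k, LinearMap.mulRight K (f k) ∘ₗ α ∘ₗ LinearMap.mulRight K (f' k)
  have hπ : ∀ z, π z = sL (r z) • (1 : A) + ∑ k, α (z * f' k) * f k := fun z => by
    simp [π, LinearMap.sum_apply]
  refine ⟨π, fun a ha => ?_, fun x => ?_⟩
  · rw [hπ]
    exact O.add_mem (h.smul_mem _ (h.sL_mem _ (h.r_mem a) (h.r_O a ha)) _ O.one_mem)
      (O.sum_mem fun k _ => O.mul_mem (h.α_O _ (O.mul_mem ha (h.f'_mem k))) (h.f_mem k))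
  · have e : ∑ i, sL (r (f' i * x)) • f i = r x := by
      conv_rhs => rw [← h.frameL.repro _ (h.r_mem x)]
      exact Finset.sum_congr rfl fun i _ => by
        rw [frflip1_r_left h (h.frameL.mem' i), h.frameL.symm _ (h.frameL.mem' i) _ (h.r_mem x)]
    conv_rhs => rw [← h.hig x, ← e]
    simp only [hπ, mul_add, Finset.sum_add_distrib, mul_smul_comm, mul_one, trB, Finset.mul_sum,
      mul_assoc]

/-- `π' χ x = ∑ k, π (χ (a k)) * τ k x`. -/
lemma FlipD.left_hig_end (h : FlipD V O s F F' L sL f f' r α) :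
    ∃ π : endR L →ₗ[K] endR L, (∀ χ ∈ endO L O, π χ ∈ endO L O) ∧
      ∀ χ, ∑ i, lam L (f i) * π (lam L (f' i) * χ) = χ := by
  obtain ⟨μ, _, a, τ, ha, hτ, hL, hs⟩ := h.dual_basis
  obtain ⟨π, hπO, hπ⟩ := h.left_hig
  let π' : endR L →ₗ[K] endR L := ∑ k,
    LinearMap.mulRight K (τ k) ∘ₗ (lam L).toLinearMap ∘ₗ π ∘ₗ frflip1_ev L (a k)
  have hπ' : ∀ χ, π' χ = ∑ k, lam L (π (χ.1 (a k))) * τ k := fun χ => by
    simp only [π', LinearMap.sum_apply]
    rfl
  refine ⟨π', fun χ hχ => ?_, fun χ => frflip1_ext fun x => ?_⟩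
  · rw [hπ']
    exact Subring.sum_mem _ fun k _ =>
      Subring.mul_mem _ (frflip1_lam_mem (hπO _ (hχ _ (ha k)))) (hτ k)
  · calc (∑ i, lam L (f i) * π' (lam L (f' i) * χ)).1 x
        = ∑ k, (∑ i, f i * π (f' i * χ.1 (a k))) * (τ k).1 x := by
          simp only [frflip1_sum_apply, hπ', frflip1_mul_apply, lam_apply, Finset.mul_sum,
            Finset.sum_mul, mul_assoc]
          exact Finset.sum_comm
      _ = ∑ k, χ.1 (a k * (τ k).1 x) :=
          Finset.sum_congr rfl fun k _ => by rw [hπ, χ.2 _ (hL k x)]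
      _ = χ.1 x := by rw [← map_sum, hs]

/-- Let `Ψ χ = χ - lam (r (χ 1))`, an `L`-bimodule map.  `Ψ χ = T₁ χ + Ψ χ ∘ (id - r)` with
`T₁ χ x = (χ 1 - r (χ 1)) * r x = trB α₁ χ x` for `α₁ ψ x = α (ψ 1) * r x`.  Moreover
`id - r = ∑ k, lam (f' k) * γ * lam (f k)` with `γ z = ∑ k, α (z * f' k) * f k` (`IsFrame.sum_swap`),
and `Ψ χ * lam (f' k) = ∑ i, lam (f i) * π (Ψ (lam (f' i) * χ * lam (f' k)))`; so add
`α₂ ψ = π (Ψ ψ) * γ`. -/
theorem FlipD.hig_end (h : FlipD V O s F F' L sL f f' r α) :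
    ∃ β : endR L →ₗ[K] endR L, (∀ χ ∈ endO L O, β χ ∈ endO L O) ∧
      ∀ χ : endR L, lam L (r (χ.1 1)) +
        trB (fun i => lam L (f i)) (fun i => lam L (f' i)) β χ = χ := by
  obtain ⟨π, hπO, hπ⟩ := h.left_hig_end
  let R : endR L := ⟨r, frflip1_r_right h⟩
  have hR : ∀ x, R.1 x = r x := fun _ => rfl
  let γ : A →ₗ[K] A := ∑ k, LinearMap.mulRight K (f k) ∘ₗ α ∘ₗ LinearMap.mulRight K (f' k)
  have hγ : ∀ z, γ z = ∑ k, α (z * f' k) * f k := fun z => by
    simp [γ, LinearMap.sum_apply]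
  have hγR : γ ∈ endR L := fun b hb x => by
    have hB : IsBilin K (fun u v : A => α (x * u) * v) := by
      constructor <;> intros <;> simp [mul_add, add_mul]
    have := h.frameL.swap.slideB_left hB hb
    rw [hγ, hγ, Finset.sum_mul]
    simp only [mul_assoc] at this ⊢
    exact this
  let Γ : endR L := ⟨γ, hγR⟩
  have hΓ : ∀ x, Γ.1 x = γ x := fun _ => rfl
  have hΓO : Γ ∈ endO L O := fun a ha => by
    rw [hΓ, hγ]
    exact O.sum_mem fun k _ => O.mul_mem (h.α_O _ (O.mul_mem ha (h.f'_mem k))) (h.f_mem k)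
  let Ψ : endR L →ₗ[K] endR L :=
    (LinearMap.id : endR L →ₗ[K] endR L) + (lam L).toLinearMap ∘ₗ (-r) ∘ₗ frflip1_ev L 1
  have hΨ : ∀ χ, Ψ χ = χ + lam L (-r (χ.1 1)) := fun χ => rfl
  have hΨm : ∀ b ∈ L, ∀ b' ∈ L, ∀ χ, Ψ (lam L b * χ * lam L b') = lam L b * Ψ χ * lam L b' := by
    intro b hb b' hb' χ
    rw [hΨ, hΨ, frflip1_mul_apply, frflip1_mul_apply, lam_apply, lam_apply, mul_one,
      frflip1_apply_mem χ hb', ← mul_assoc, h.r_mul b hb b' hb', mul_add, add_mul, ← map_mul,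
      ← map_mul, mul_neg, neg_mul]
  let α₁ : endR L →ₗ[K] endR L :=
    LinearMap.mulRight K R ∘ₗ (lam L).toLinearMap ∘ₗ α ∘ₗ frflip1_ev L 1
  have hα₁ : ∀ ψ, α₁ ψ = lam L (α (ψ.1 1)) * R := fun _ => rfl
  let α₂ : endR L →ₗ[K] endR L := LinearMap.mulRight K Γ ∘ₗ π ∘ₗ Ψ
  have hα₂ : ∀ ψ, α₂ ψ = π (Ψ ψ) * Γ := fun _ => rfl
  have h1R : R + ∑ k, lam L (f' k) * Γ * lam L (f k) = 1 := by
    refine frflip1_ext fun x => ?_
    have hB : IsBilin K (fun u v : A => u * γ (v * x)) := by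
      constructor <;> intros <;> simp [mul_add, add_mul]
    have e := h.frameL.sum_swap hB
    change r x + (∑ k, lam L (f' k) * Γ * lam L (f k)).1 x = x
    simp only [frflip1_sum_apply, frflip1_mul_apply, lam_apply, hΓ]
    rw [← e]
    conv_rhs => rw [← h.hig x]
    simp only [trB, hγ, Finset.mul_sum, mul_assoc]
  refine ⟨α₁ + α₂, fun χ hχ => ?_, fun χ => ?_⟩
  · rw [LinearMap.add_apply, hα₁, hα₂, hΨ]
    exact Subring.add_mem _
      (Subring.mul_mem _ (frflip1_lam_mem (h.α_O _ (hχ _ O.one_mem))) h.r_O)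
      (Subring.mul_mem _ (hπO _ (Subring.add_mem _ hχ
        (frflip1_lam_mem (O.neg_mem (h.r_O _ (hχ _ O.one_mem)))))) hΓO)
  · have e1 : trB (fun i => lam L (f i)) (fun i => lam L (f' i)) α₁ χ = Ψ χ * R := by
      refine frflip1_ext fun x => ?_
      have e : χ.1 1 - r (χ.1 1) = trB f f' α (χ.1 1) := by
        rw [sub_eq_iff_eq_add', h.hig]
      rw [frflip1_mul_apply, hR, frflip1_apply_mem _ (h.r_mem x), hΨ]
      change _ = (χ.1 1 + -r (χ.1 1) * 1) * r x
      rw [mul_one, ← sub_eq_add_neg, e]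
      simp only [trB, frflip1_sum_apply, hα₁, frflip1_mul_apply, lam_apply, hR, Finset.sum_mul,
        mul_one]
      refine Finset.sum_congr rfl fun i _ => Finset.sum_congr rfl fun j _ => ?_
      rw [frflip1_r_left h (h.frameL.mem j), frflip1_apply_mem χ (h.frameL.mem' j)]
      simp only [mul_assoc]
    have e2 : trB (fun i => lam L (f i)) (fun i => lam L (f' i)) α₂ χ =
        Ψ χ * ∑ k, lam L (f' k) * Γ * lam L (f k) := by
      rw [Finset.mul_sum, trB, Finset.sum_comm]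
      refine Finset.sum_congr rfl fun k _ => ?_
      have e := hπ (Ψ χ * lam L (f' k))
      rw [← mul_assoc, ← mul_assoc, ← e, Finset.sum_mul, Finset.sum_mul]
      refine Finset.sum_congr rfl fun i _ => ?_
      rw [hα₂, hΨm _ (h.frameL.mem' i) _ (h.frameL.mem' k)]
      simp only [mul_assoc]
    have e3 : trB (fun i => lam L (f i)) (fun i => lam L (f' i)) (α₁ + α₂ : endR L →ₗ[K] endR L) χ
        = trB (fun i => lam L (f i)) (fun i => lam L (f' i)) α₁ χ +
          trB (fun i => lam L (f i)) (fun i => lam L (f' i)) α₂ χ := by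
      simp only [trB, LinearMap.add_apply, mul_add, add_mul, Finset.sum_add_distrib]
    rw [e3, e1, e2, ← mul_add, h1R, mul_one, hΨ, add_left_comm, ← map_add, add_neg_cancel,
      map_zero, add_zero]

/-- `ι₀ b = (x ↦ b * r x)` is a corner embedding with `ι₀ 1 = r`, and
`1 = ∑ lam (a k) * r * τ k`; `morita_good`, `morita_finrank` with `ι₁ = id`. -/
theorem FlipD.morita (h : FlipD V O s F F' L sL f f' r α) {p : ℕ}
    (hG : Good V p (O.comap L.val.toRingHom)) :
    Good V p (endO L O) ∧ Module.finrank K (Subalgebra.center K (endR L)) =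
      Module.finrank K (Subalgebra.center K L) := by
  obtain ⟨μ, _, a, τ, ha, hτ, hL, hs⟩ := h.dual_basis
  let R : endR L := ⟨r, frflip1_r_right h⟩
  have hR : ∀ x, R.1 x = r x := fun _ => rfl
  let ι₀ : L →ₗ[K] endR L := LinearMap.mulRight K R ∘ₗ (lam L).toLinearMap ∘ₗ L.val.toLinearMap
  have hι : ∀ (b : L) x, (ι₀ b).1 x = (b : A) * r x := fun _ _ => rfl
  have hι1 : ∀ x, (ι₀ 1).1 x = r x := fun x => by
    rw [hι, OneMemClass.coe_one, one_mul]
  have h₀ : CornerEmb ι₀ (O.comap L.val.toRingHom) (endO L O) := by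
    refine ⟨fun b b' => frflip1_ext fun x => ?_, fun b b' e => ?_, fun y => ?_,
      fun b => ⟨fun hb x hx => ?_, fun hb => ?_⟩⟩
    · rw [frflip1_mul_apply, hι, hι, hι, frflip1_r_self h (L.mul_mem b'.2 (h.r_mem x)),
        MulMemClass.coe_mul, mul_assoc]
    · have e1 : (ι₀ b).1 1 = (ι₀ b').1 1 := by rw [e]
      rw [hι, hι, h.r_one, mul_one, mul_one] at e1
      exact Subtype.ext e1
    · refine ⟨⟨r (y.1 1), h.r_mem _⟩, frflip1_ext fun x => ?_⟩
      rw [frflip1_mul_apply, frflip1_mul_apply, hι1, hι1, hι, frflip1_apply_mem y (h.r_mem x),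
        frflip1_r_right h _ (h.r_mem x)]
    · rw [hι]
      exact O.mul_mem hb (h.r_O x hx)
    · have := hb 1 O.one_mem
      rwa [hι, h.r_one, mul_one] at this
  have h₁ : CornerEmb (LinearMap.id : endR L →ₗ[K] endR L) (endO L O) (endO L O) :=
    ⟨fun _ _ => rfl, fun _ _ e => e, fun y => ⟨y, by simp⟩, fun _ => Iff.rfl⟩
  have h10 : InIdl (endO L O) (ι₀ 1) ((LinearMap.id : endR L →ₗ[K] endR L) 1) := by
    refine morita_inIdl (fun k => lam L (a k)) τ (fun k => frflip1_lam_mem (ha k)) hτ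
      (frflip1_ext fun x => ?_)
    change x = _
    simp only [frflip1_sum_apply, frflip1_mul_apply, lam_apply, hι1, frflip1_r_self h (hL _ x)]
    exact (hs x).symm
  have h01 : InIdl (endO L O) ((LinearMap.id : endR L →ₗ[K] endR L) 1) (ι₀ 1) := by
    refine morita_inIdl (ι := Unit) (fun _ => ι₀ 1) (fun _ => 1)
      (fun _ => (h₀.mem_iff 1).1 (Subring.one_mem _)) (fun _ => Subring.one_mem _) ?_
    simp
  refine ⟨?_, ?_⟩
  · exact morita_good (A := endR L) (A₀ := L) (A₁ := endR L) h₀ h₁ h10 h01 hG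
  · exact morita_finrank (A := endR L) (A₀ := L) (A₁ := endR L) h₀ h₁ h10 h01

end Pool.Agent.Lib.MP_b6945b_al.St
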