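import Pool.Agent.Lib.MP_b6945b_al.St.Corner

set_option autoImplicit false

/-!
Good deformations are invariant under Morita equivalence.
-/

namespace Pool.Agent.Lib.MP_b6945b_al.St

open PowerSeries

variable {K : Type} [Field K] {V : ValuationSubring K} {A A₀ A₁ : Type} [Ring A] [Algebra K A]
  [Ring A₀] [Algebra K A₀] [Ring A₁] [Algebra K A₁]

section MoritaAux

variable {n : Type} [Fintype n] [DecidableEq n]

lemma morita_mem_matrix {R : Type} [Ring R] {O : Subring R} {M : Matrix n n R} :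
    M ∈ O.matrix (n := n) ↔ ∀ i j, M i j ∈ O := Iff.rfl

lemma morita_scalar_mem {R : Type} [Ring R] {O : Subring R} {z : R} (hz : z ∈ O) :
    Matrix.scalar n z ∈ O.matrix (n := n) := by
  intro i j
  rw [Matrix.scalar_apply, Matrix.diagonal_apply]
  split_ifs
  · exact hz
  · exact O.zero_mem

lemma morita_single_mem {R : Type} [Ring R] {O : Subring R} {z : R} (hz : z ∈ O) (a b : n) :
    Matrix.single a b z ∈ O.matrix (n := n) := by
  intro i j
  rw [Matrix.single_apply]
  split_ifs
  · exact hz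
  · exact O.zero_mem

lemma morita_scalar_smul (c : K) (z : A) : Matrix.scalar n (c • z) = c • Matrix.scalar n z :=
  map_smul (Matrix.scalarAlgHom n K) c z

lemma morita_scalar_algebraMap (c : K) :
    Matrix.scalar n (algebraMap K A c) = algebraMap K (Matrix n n A) c := rfl

lemma morita_nilMod {O : Subring A} {z : A} (h : NilMod V O z) :
    NilMod V (O.matrix (n := n)) (Matrix.scalar n z) := by
  obtain ⟨k, m, hm, y, hy, e⟩ := h
  refine ⟨k, m, hm, Matrix.scalar n y, morita_scalar_mem hy, ?_⟩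
  rw [← map_pow, e, morita_scalar_smul]

lemma morita_localCentre_matrix [Nonempty n] {O : Subring A} (h : LocalCentre V O) :
    LocalCentre V (O.matrix (n := n)) := by
  intro z hz hc
  have h1 : z ∈ Set.center (Matrix n n A) := by
    rw [Semigroup.mem_center_iff]
    exact fun g => (hc g).symm
  rw [Matrix.center_eq_scalar_image] at h1
  obtain ⟨ζ, hζ, rfl⟩ := h1
  rw [Semigroup.mem_center_iff] at hζ
  obtain ⟨i⟩ := ‹Nonempty n›
  have h2 : ζ ∈ O := by
    have := morita_mem_matrix.1 hz i i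
    rwa [Matrix.scalar_apply, Matrix.diagonal_apply_eq] at this
  obtain ⟨v, hv, hn⟩ := h ζ h2 (fun a => (hζ a).symm)
  refine ⟨v, hv, ?_⟩
  have := morita_nilMod (n := n) hn
  rwa [map_sub, morita_scalar_algebraMap] at this

/-- A series of matrices as a matrix of series. -/
noncomputable def moritaTo (n : Type) [Fintype n] [DecidableEq n] (A : Type) [Ring A] :
    (Matrix n n A)⟦X⟧ →+* Matrix n n A⟦X⟧ where
  toFun F := Matrix.of fun i j => PowerSeries.mk fun m => coeff m F i j
  map_one' := by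
    ext i j m
    by_cases h : i = j
    · subst h
      rcases m with _ | m <;> simp [coeff_one]
    · rcases m with _ | m <;> simp [coeff_one, Matrix.one_apply_ne h]
  map_mul' F G := by
    ext i j m
    simp only [Matrix.of_apply, coeff_mk, coeff_mul, Matrix.sum_apply, Matrix.mul_apply, map_sum]
    exact Finset.sum_comm
  map_zero' := by ext i j m; simp
  map_add' F G := by ext i j m; simp

lemma coeff_moritaTo (F : (Matrix n n A)⟦X⟧) (i j : n) (m : ℕ) :
    coeff m (moritaTo n A F i j) = coeff m F i j := by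
  simp [moritaTo]

/-- A matrix of series as a series of matrices. -/
noncomputable def moritaOf (M : Matrix n n A⟦X⟧) : (Matrix n n A)⟦X⟧ :=
  PowerSeries.mk fun m => Matrix.of fun i j => coeff m (M i j)

lemma moritaTo_of (M : Matrix n n A⟦X⟧) : moritaTo n A (moritaOf M) = M := by
  ext i j m
  simp [coeff_moritaTo, moritaOf]

lemma moritaTo_inj {F G : (Matrix n n A)⟦X⟧} (h : moritaTo n A F = moritaTo n A G) : F = G := by
  ext m i j
  rw [← coeff_moritaTo, h, coeff_moritaTo]

lemma moritaTo_smul (r : K⟦X⟧) (F : (Matrix n n A)⟦X⟧) (i j : n) :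
    moritaTo n A (r • F) i j = r • moritaTo n A F i j := by
  ext m
  simp only [coeff_moritaTo, coeff_ps_smul, Matrix.sum_apply, Matrix.smul_apply]

lemma moritaTo_map (g : A⟦X⟧) :
    moritaTo n A (PowerSeries.map (Matrix.scalar n) g) = Matrix.scalar n g := by
  ext i j m
  rw [coeff_moritaTo, coeff_map, Matrix.scalar_apply, Matrix.scalar_apply, Matrix.diagonal_apply,
    Matrix.diagonal_apply]
  split_ifs <;> simp

lemma morita_st (s : A →ₗ[K] K) (g : A⟦X⟧) (F : (Matrix n n A)⟦X⟧) :
    st (s ∘ₗ Matrix.traceLinearMap n K A) (PowerSeries.map (Matrix.scalar n) g) F =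
      ∑ i, st s g (moritaTo n A F i i) := by
  ext m
  simp only [st_apply, coeff_extF, map_sum, LinearMap.comp_apply, Matrix.traceLinearMap_apply,
    Matrix.trace, Matrix.diag_apply]
  refine Finset.sum_congr rfl (fun i _ => ?_)
  rw [← coeff_moritaTo, map_mul, moritaTo_map, Matrix.scalar_apply, Matrix.diagonal_mul]

lemma morita_frame_reindex {R B : Type} [CommRing R] [Ring B] [Algebra R B] {ι κ : Type}
    [Fintype ι] [Fintype κ] {s : B →ₗ[R] R} {U : Submodule R B} {f f' : ι → B}
    (h : IsFrame s U f f') (e : κ ≃ ι) : IsFrame s U (fun k => f (e k)) (fun k => f' (e k)) :=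
  ⟨fun k => h.mem _, fun k => h.mem' _, h.symm, fun y hy => by
    rw [Equiv.sum_comp e (fun i => s (y * f' i) • f i)]
    exact h.repro y hy⟩

lemma morita_frame {s : A →ₗ[K] K} {g : A⟦X⟧} {N : ℕ} {β β' : Fin N → A⟦X⟧}
    (h : IsFrame (st s g) ⊤ β β') :
    IsFrame (st (s ∘ₗ Matrix.traceLinearMap n K A) (PowerSeries.map (Matrix.scalar n) g)) ⊤
      (fun t : n × n × Fin N => moritaOf (Matrix.single t.1 t.2.1 (β t.2.2)))
      (fun t : n × n × Fin N => moritaOf (Matrix.single t.2.1 t.1 (β' t.2.2))) := by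
  refine ⟨fun _ => trivial, fun _ => trivial, fun x _ y _ => ?_, fun y _ => ?_⟩
  · simp only [morita_st, map_mul, Matrix.mul_apply, map_sum]
    rw [Finset.sum_comm]
    exact Finset.sum_congr rfl (fun i _ => Finset.sum_congr rfl (fun j _ =>
      h.symm _ trivial _ trivial))
  · have key : ∀ (i j : n) (k : Fin N),
        st (s ∘ₗ Matrix.traceLinearMap n K A) (PowerSeries.map (Matrix.scalar n) g)
          (y * moritaOf (Matrix.single j i (β' k))) = st s g (moritaTo n A y i j * β' k) := by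
      intro i j k
      rw [morita_st, map_mul, moritaTo_of, Finset.sum_eq_single i]
      · rw [Matrix.mul_single_apply_same]
      · intro l _ hl
        rw [Matrix.mul_single_apply_of_ne _ _ _ _ _ hl, map_zero]
      · intro hi
        exact absurd (Finset.mem_univ i) hi
    refine moritaTo_inj ?_
    refine Matrix.ext (fun a b => ?_)
    rw [map_sum, Matrix.sum_apply]
    simp only [moritaTo_smul, moritaTo_of, key]
    rw [Fintype.sum_prod_type, Finset.sum_eq_single a, Fintype.sum_prod_type,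
      Finset.sum_eq_single b]
    · simp only [Matrix.single_apply_same]
      exact h.repro _ trivial
    · intro l _ hl
      refine Finset.sum_eq_zero (fun k _ => ?_)
      rw [Matrix.single_apply_of_col_ne _ _ hl, smul_zero]
    · intro hi
      exact absurd (Finset.mem_univ b) hi
    · intro l _ hl
      refine Finset.sum_eq_zero (fun k _ => ?_)
      rw [Matrix.single_apply_of_row_ne hl, smul_zero]
    · intro hi
      exact absurd (Finset.mem_univ a) hi

lemma morita_deform {O : Subring A} {s : A →ₗ[K] K} {Λ : Subring A⟦X⟧} {g : A⟦X⟧}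
    (h : Deform V O s Λ g) :
    Deform V (O.matrix (n := n)) (s ∘ₗ Matrix.traceLinearMap n K A)
      ((Λ.matrix (n := n)).comap (moritaTo n A)) (PowerSeries.map (Matrix.scalar n) g) where
  smul_mem r hr F hF := by
    rw [Subring.mem_comap, morita_mem_matrix] at hF ⊢
    intro i j
    rw [moritaTo_smul]
    exact h.smul_mem r hr _ (hF i j)
  symm x y := by
    simp only [LinearMap.comp_apply, Matrix.traceLinearMap_apply, Matrix.trace, Matrix.diag_apply,
      Matrix.mul_apply, map_sum]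
    rw [Finset.sum_comm]
    exact Finset.sum_congr rfl (fun i _ => Finset.sum_congr rfl (fun j _ => h.symm _ _))
  central m a := by
    rw [coeff_map]
    exact Matrix.scalar_comm _ (fun r' => h.central m r') a
  g_zero := by rw [coeff_map, h.g_zero, map_one]
  form_mem F hF := by
    rw [Subring.mem_comap, morita_mem_matrix] at hF
    rw [morita_st]
    exact Subring.sum_mem _ (fun i _ => h.form_mem _ (hF i i))
  frame := by
    obtain ⟨N, β, β', h1, h2, h3⟩ := h.frame
    refine ⟨_, _, _, fun k => ?_, fun k => ?_, morita_frame_reindex (morita_frame (n := n) h3)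
      (Fintype.equivFin (n × n × Fin N)).symm⟩
    · rw [Subring.mem_comap, moritaTo_of]
      exact morita_single_mem (h1 _) _ _
    · rw [Subring.mem_comap, moritaTo_of]
      exact morita_single_mem (h2 _) _ _
  const a := by
    constructor
    · intro ha
      choose F hF e using fun i j => (h.const (a i j)).1 (morita_mem_matrix.1 ha i j)
      refine ⟨moritaOf (Matrix.of F), ?_, ?_⟩
      · rw [Subring.mem_comap, moritaTo_of]
        exact hF
      · ext i j
        simp only [moritaOf, coeff_mk, Matrix.of_apply, e]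
    · rintro ⟨F, hF, rfl⟩
      rw [Subring.mem_comap, morita_mem_matrix] at hF
      intro i j
      exact (h.const _).2 ⟨_, hF i j, coeff_moritaTo F i j 0⟩

lemma morita_inIdl {R : Type} [Ring R] {O : Subring R} {e x : R} {ι : Type} [Fintype ι]
    (a b : ι → R) (ha : ∀ i, a i ∈ O) (hb : ∀ i, b i ∈ O) (hx : x = ∑ i, a i * e * b i) :
    InIdl O e x := by
  refine ⟨_, fun k => a ((Fintype.equivFin ι).symm k), fun k => b ((Fintype.equivFin ι).symm k),
    fun k => ha _, fun k => hb _, ?_⟩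
  rw [hx, Equiv.sum_comp (Fintype.equivFin ι).symm (fun i => a i * e * b i)]

end MoritaAux

/-- `Matrix.subalgebraCenter_eq_scalarAlgHom_map`-type lemmas in `Algebra/Central/Matrix.lean`
and `Data/Matrix/Basis.lean`. -/
lemma exists_center_matrix (n : Type) [Fintype n] [DecidableEq n] [Nonempty n] :
    ∃ e : Subalgebra.center K A ≃ₐ[K] Subalgebra.center K (Matrix n n A),
      ∀ z, (e z : Matrix n n A) = Matrix.scalar n (z : A) := by
  have hinj : Function.Injective (Matrix.scalarAlgHom n K : A →ₐ[K] Matrix n n A) :=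
    fun _ _ h => Matrix.scalar_inj.1 h
  refine ⟨((Subalgebra.center K A).equivMapOfInjective _ hinj).trans
    (Subalgebra.equivOfEq _ _ Matrix.subalgebraCenter_eq_scalarAlgHom_map.symm), fun z => rfl⟩

/-- The lattice consists of the series of matrices whose entry series lie in `Λ`; the form is
`s ∘ trace`, `g` is scalar, the frame is `(single i j β, single j i β')`, and `x` is placed in one
diagonal entry. -/
theorem Good.matrix {p : ℕ} {O : Subring A} (hG : Good V p O) (n : Type) [Fintype n]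
    [DecidableEq n] [Nonempty n] : Good V p (O.matrix (n := n)) := by
  obtain ⟨s, Λ, g, hD, ⟨x, hx, hX⟩, hp, ⟨v, hv, hv', hn⟩, hl⟩ := hG
  refine ⟨_, _, _, morita_deform (n := n) hD, ?_, fun m => ?_, ⟨v, hv, hv', ?_⟩,
    morita_localCentre_matrix hl⟩
  · obtain ⟨i⟩ := ‹Nonempty n›
    obtain ⟨e, he⟩ := exists_center_matrix (K := K) (A := A) n
    refine ⟨moritaOf (Matrix.single i i x), ?_, fun ζ' => ?_⟩
    · rw [Subring.mem_comap, moritaTo_of]
      exact morita_single_mem hx _ _
    · obtain ⟨ζ, rfl⟩ := e.surjective ζ'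
      rw [Algebra.trace_eq_of_algEquiv, ← hX ζ, he, morita_st, map_mul, moritaTo_of,
        ← PowerSeries.map_C, moritaTo_map, Finset.sum_eq_single i]
      · rw [Matrix.mul_single_apply_same, Matrix.scalar_apply, Matrix.diagonal_apply_eq]
      · intro l _ hl
        rw [Matrix.mul_single_apply_of_ne _ _ _ _ _ hl, map_zero]
      · intro hi
        exact absurd (Finset.mem_univ i) hi
  · rw [coeff_map, ← morita_scalar_smul]
    exact morita_scalar_mem (hp m)
  · have := morita_nilMod (n := n) hn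
    rwa [map_sub, morita_scalar_algebraMap, morita_scalar_smul, ← coeff_map] at this

/-- Two corners of one algebra that generate each other: with `ι₁ 1 = ∑ m i * ι₀ 1 * m' i`
(index set made nonempty by adding a zero term) send `a` to the matrix
`κ₀ (m' i * ι₁ a * m l)`. -/
lemma exists_morita {ι₀ : A₀ →ₗ[K] A} {ι₁ : A₁ →ₗ[K] A} {O₀ : Subring A₀} {O₁ : Subring A₁}
    {O : Subring A} (h₀ : CornerEmb ι₀ O₀ O) (h₁ : CornerEmb ι₁ O₁ O)
    (h10 : InIdl O (ι₀ 1) (ι₁ 1)) (h01 : InIdl O (ι₁ 1) (ι₀ 1)) :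
    ∃ (n : ℕ) (ι : A₁ →ₗ[K] Matrix (Fin (n + 1)) (Fin (n + 1)) A₀),
      CornerEmb ι O₁ O₀.matrix ∧ InIdl O₀.matrix (ι 1) 1 := by
  obtain ⟨n, a₀, b₀, ha₀, hb₀, e1⟩ := h10
  obtain ⟨k, c, d, hc, hd, e0⟩ := h01
  obtain ⟨κ, hκ, hκι, hκO⟩ := h₀.exists_retr
  obtain ⟨a, b, ha, hb, e1⟩ : ∃ a b : Fin (n + 1) → A, (∀ i, a i ∈ O) ∧ (∀ i, b i ∈ O) ∧
      ι₁ 1 = ∑ i, a i * ι₀ 1 * b i := by
    refine ⟨Fin.cons 0 a₀, Fin.cons 0 b₀, fun i => ?_, fun i => ?_, ?_⟩
    · refine Fin.cases ?_ (fun i => ?_) i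
      · exact O.zero_mem
      · exact ha₀ i
    · refine Fin.cases ?_ (fun i => ?_) i
      · exact O.zero_mem
      · exact hb₀ i
    · rw [Fin.sum_univ_succ, e1]
      simp
  have l0 : ∀ y, ι₀ 1 * ι₀ y = ι₀ y := fun y => by rw [← h₀.map_mul, one_mul]
  have r0 : ∀ y, ι₀ y * ι₀ 1 = ι₀ y := fun y => by rw [← h₀.map_mul, mul_one]
  have l1 : ∀ y, ι₁ 1 * ι₁ y = ι₁ y := fun y => by rw [← h₁.map_mul, one_mul]
  have r1 : ∀ y, ι₁ y * ι₁ 1 = ι₁ y := fun y => by rw [← h₁.map_mul, mul_one]
  have kmul : ∀ x y, κ x * κ y = κ (x * ι₀ 1 * y) := fun x y => h₀.inj (by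
    rw [h₀.map_mul, hκ, hκ, hκ]
    calc ι₀ 1 * x * ι₀ 1 * (ι₀ 1 * y * ι₀ 1) = ι₀ 1 * x * (ι₀ 1 * ι₀ 1) * y * ι₀ 1 := by
          simp only [mul_assoc]
      _ = ι₀ 1 * (x * ι₀ 1 * y) * ι₀ 1 := by rw [l0]; simp only [mul_assoc])
  have kmid : ∀ x y z, κ x * y * κ z = κ (x * ι₀ y * z) := fun x y z => by
    conv_lhs => rw [← hκι y]
    rw [kmul, kmul]
    congr 1
    calc x * ι₀ 1 * ι₀ y * ι₀ 1 * z = x * ((ι₀ 1 * ι₀ y) * ι₀ 1) * z := by simp only [mul_assoc]
      _ = x * ι₀ y * z := by rw [l0, r0]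
  have sand : ∀ x y : A, ∑ j, x * a j * ι₀ 1 * (b j * y) = x * ι₁ 1 * y := fun x y => by
    rw [e1, Finset.mul_sum, Finset.sum_mul]
    exact Finset.sum_congr rfl (fun j _ => by simp only [mul_assoc])
  let ι : A₁ →ₗ[K] Matrix (Fin (n + 1)) (Fin (n + 1)) A₀ :=
    { toFun := fun x => Matrix.of fun i l => κ (b i * ι₁ x * a l)
      map_add' := fun x y => by
        ext i l
        simp [mul_add, add_mul]
      map_smul' := fun r x => by
        ext i l
        simp }
  have hι : ∀ x i l, ι x i l = κ (b i * ι₁ x * a l) := fun _ _ _ => rfl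
  have back : ∀ x, ι₁ x = ∑ i, ∑ l, a i * ι₀ (ι x i l) * b l := fun x => by
    have : ι₁ x = ι₁ 1 * ι₁ x * ι₁ 1 := by rw [l1, r1]
    rw [this]
    conv_lhs => rw [e1]
    rw [Finset.sum_mul, Finset.sum_mul]
    refine Finset.sum_congr rfl (fun i _ => ?_)
    rw [Finset.mul_sum]
    refine Finset.sum_congr rfl (fun l _ => ?_)
    rw [hι, hκ]
    simp only [mul_assoc]
  refine ⟨n, ι, ⟨fun x y => ?_, ?_, fun Y => ?_, fun x => ⟨fun hx i l => ?_, fun hx => ?_⟩⟩, ?_⟩
  · ext i l
    simp only [Matrix.mul_apply, hι, kmul]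
    rw [← map_sum]
    congr 1
    have := sand (b i * ι₁ x) (ι₁ y * a l)
    simp only [mul_assoc] at this ⊢
    rw [this, h₁.map_mul, ← mul_assoc (ι₁ 1), l1, mul_assoc]
  · rw [injective_iff_map_eq_zero]
    intro x hx
    apply h₁.inj
    rw [back, hx]
    simp
  · obtain ⟨x, hx⟩ := h₁.range (∑ i, ∑ l, a i * ι₀ (Y i l) * b l)
    refine ⟨x, ?_⟩
    ext i l
    simp only [Matrix.mul_apply, Finset.sum_mul, hι, kmid]
    rw [hx]
    simp only [Finset.mul_sum, Finset.sum_mul, map_sum]
    rw [Finset.sum_comm]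
    simp only [mul_assoc]
  · rw [hι]
    exact hκO _ (O.mul_mem (O.mul_mem (hb i) ((h₁.mem_iff x).1 hx)) (ha l))
  · rw [h₁.mem_iff, back]
    exact O.sum_mem (fun i _ => O.sum_mem (fun l _ => O.mul_mem (O.mul_mem (ha i)
      ((h₀.mem_iff _).1 (morita_mem_matrix.1 hx i l))) (hb l)))
  · refine morita_inIdl (ι := Fin (n + 1) × Fin k)
      (fun t => Matrix.of fun r i => if r = t.1 then κ (c t.2 * a i) else 0)
      (fun t => Matrix.of fun l r => if r = t.1 then κ (b l * d t.2) else 0) (fun t r i => ?_)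
      (fun t l r => ?_) ?_
    · rw [Matrix.of_apply]
      split_ifs
      · exact hκO _ (O.mul_mem (hc _) (ha _))
      · exact O₀.zero_mem
    · rw [Matrix.of_apply]
      split_ifs
      · exact hκO _ (O.mul_mem (hb _) (hd _))
      · exact O₀.zero_mem
    · have key : ∀ j, ∑ l, (∑ i, κ (c j * a i) * ι 1 i l) * κ (b l * d j) =
          κ (c j * ι₁ 1 * d j) := fun j => by
        simp only [Finset.sum_mul, kmid]
        conv_rhs => rw [back 1]
        simp only [Finset.mul_sum, Finset.sum_mul, map_sum]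
        rw [Finset.sum_comm]
        simp only [mul_assoc]
      have key2 : ∑ j, κ (c j * ι₁ 1 * d j) = 1 := by
        rw [← map_sum, ← e0, hκι]
      ext r r'
      rw [Matrix.sum_apply, Fintype.sum_prod_type, Finset.sum_eq_single r]
      · by_cases hr : r = r'
        · subst hr
          simp only [Matrix.mul_apply, Matrix.of_apply, if_true, key, key2, Matrix.one_apply_eq]
        · have hr' : ¬ r' = r := fun h => hr h.symm
          simp [Matrix.mul_apply, hr', Matrix.one_apply_ne hr]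
      · intro t _ ht
        have ht' : ¬ r = t := fun h => ht h.symm
        simp [Matrix.mul_apply, ht']
      · intro hi
        exact absurd (Finset.mem_univ r) hi

theorem morita_good {p : ℕ} {ι₀ : A₀ →ₗ[K] A} {ι₁ : A₁ →ₗ[K] A} {O₀ : Subring A₀}
    {O₁ : Subring A₁} {O : Subring A} (h₀ : CornerEmb ι₀ O₀ O) (h₁ : CornerEmb ι₁ O₁ O)
    (h10 : InIdl O (ι₀ 1) (ι₁ 1)) (h01 : InIdl O (ι₁ 1) (ι₀ 1)) (hG : Good V p O₀) :
    Good V p O₁ := by
  obtain ⟨n, ι, h, hf⟩ := exists_morita h₀ h₁ h10 h01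
  exact h.good hf (hG.matrix _)

theorem morita_finrank {ι₀ : A₀ →ₗ[K] A} {ι₁ : A₁ →ₗ[K] A} {O₀ : Subring A₀}
    {O₁ : Subring A₁} {O : Subring A} (h₀ : CornerEmb ι₀ O₀ O) (h₁ : CornerEmb ι₁ O₁ O)
    (h10 : InIdl O (ι₀ 1) (ι₁ 1)) (h01 : InIdl O (ι₁ 1) (ι₀ 1)) :
    Module.finrank K (Subalgebra.center K A₁) = Module.finrank K (Subalgebra.center K A₀) := by
  obtain ⟨n, ι, h, hf⟩ := exists_morita h₀ h₁ h10 h01
  obtain ⟨e, -⟩ := h.exists_center hf
  obtain ⟨e', -⟩ := exists_center_matrix (K := K) (A := A₀) (Fin (n + 1))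
  exact (e'.trans e).toLinearEquiv.finrank_eq.symm

/-- Locality of the centre passes between corners that generate each other. -/
theorem morita_localCentre {ι₀ : A₀ →ₗ[K] A} {ι₁ : A₁ →ₗ[K] A} {O₀ : Subring A₀}
    {O₁ : Subring A₁} {O : Subring A} (h₀ : CornerEmb ι₀ O₀ O) (h₁ : CornerEmb ι₁ O₁ O)
    (h10 : InIdl O (ι₀ 1) (ι₁ 1)) (h01 : InIdl O (ι₁ 1) (ι₀ 1)) (hl : LocalCentre V O₀) :
    LocalCentre V O₁ := by
  obtain ⟨n, ι, h, hf⟩ := exists_morita h₀ h₁ h10 h01
  exact h.localCentre hf (morita_localCentre_matrix hl)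

end Pool.Agent.Lib.MP_b6945b_al.St
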