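import Pool.Agent.Lib.MP_b6945b_al.St.Defs

set_option autoImplicit false

/-!
Group algebras over a valuation ring inside group algebras over its fraction field.
-/

namespace Pool.Agent.Lib.MP_b6945b_al.St

open MonoidAlgebra

/-- A coefficient as a linear functional. -/
def coef (R : Type) [CommRing R] {G : Type} (g : G) : MonoidAlgebra R G →ₗ[R] R where
  toFun a := a.coeff g
  map_add' _ _ := rfl
  map_smul' _ _ := rfl

@[simp] lemma coef_apply {R : Type} [CommRing R] {G : Type} (g : G) (a : MonoidAlgebra R G) :
    coef R g a = a.coeff g := rfl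

lemma coeff_mul_fin {R G : Type} [CommRing R] [Group G] [Fintype G] (a b : MonoidAlgebra R G)
    (x : G) : (a * b).coeff x = ∑ y, a.coeff y * b.coeff (y⁻¹ * x) := by
  rw [coeff_mul_apply_left, Finsupp.sum_fintype _ _ (fun _ => by simp)]

lemma eq_sum_single {R G : Type} [CommRing R] [Fintype G] (a : MonoidAlgebra R G) :
    a = ∑ x, a.coeff x • (single x 1 : MonoidAlgebra R G) := by
  classical
  ext y
  simp

variable {K : Type} [Field K] (V : ValuationSubring K)

/-- The group ring over `V` as an order in the group algebra over `K`. -/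
def GO (G : Type) [Group G] [Fintype G] : Subring (MonoidAlgebra K G) where
  carrier := {a | ∀ x, a.coeff x ∈ V}
  zero_mem' := fun x => by simp
  one_mem' := fun x => by
    classical
    rw [one_def, coeff_single, Finsupp.single_apply]
    split_ifs
    · exact V.one_mem
    · exact V.zero_mem
  add_mem' := fun ha hb x => V.add_mem _ _ (ha x) (hb x)
  neg_mem' := fun ha x => V.neg_mem _ (ha x)
  mul_mem' := fun ha hb x => by
    rw [coeff_mul_fin]; exact sum_mem (fun y _ => V.mul_mem _ _ (ha _) (hb _))

lemma mem_GO {G : Type} [Group G] [Fintype G] {a : MonoidAlgebra K G} :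
    a ∈ GO V G ↔ ∀ x, a.coeff x ∈ V := Iff.rfl

/-- Extension of scalars to the fraction field. -/
noncomputable def toK (G : Type) [Group G] : MonoidAlgebra V G →+* MonoidAlgebra K G :=
  mapRingHom G (algebraMap V K)

lemma coeff_toK {G : Type} [Group G] (a : MonoidAlgebra V G) (x : G) :
    (toK V G a).coeff x = (a.coeff x : K) := by
  simp [toK]

lemma toK_injective (G : Type) [Group G] : Function.Injective (toK V G) := by
  intro a b h
  ext x
  have := congrArg (fun c => c.coeff x) h
  simpa only [coeff_toK] using this

lemma mem_GO_iff_range {G : Type} [Group G] [Fintype G] {a : MonoidAlgebra K G} :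
    a ∈ GO V G ↔ ∃ b, toK V G b = a := by
  constructor
  · intro h
    refine ⟨ofCoeff (Finsupp.equivFunOnFinite.symm fun x => ⟨a.coeff x, h x⟩), ?_⟩
    ext x
    simp [coeff_toK]
  · rintro ⟨b, rfl⟩ x
    rw [coeff_toK]; exact (b.coeff x).2

lemma isFrame_group (R G : Type) [CommRing R] [Group G] [Fintype G] :
    IsFrame (coef R (1 : G)) ⊤ (fun x : G => (single x 1 : MonoidAlgebra R G))
      (fun x => single x⁻¹ 1) where
  mem _ := trivial
  mem' _ := trivial
  symm x _ y _ := by
    simp only [coef_apply, coeff_mul_fin, mul_one]
    rw [← Equiv.sum_comp (Equiv.inv G)]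
    exact Finset.sum_congr rfl (fun z _ => by simp [mul_comm])
  repro y _ := by
    conv_rhs => rw [eq_sum_single y]
    exact Finset.sum_congr rfl (fun z _ => by simp)

lemma symOrder_GO (G : Type) [Group G] [Fintype G] : SymOrder V (GO V G) (coef K (1 : G)) where
  smul_mem v hv a ha x := V.mul_mem _ _ hv (ha x)
  form_mem a ha := ha 1
  frame := by
    classical
    have hs : ∀ y : G, (single y 1 : MonoidAlgebra K G) ∈ GO V G := fun y x => by
      rw [coeff_single, Finsupp.single_apply]
      split_ifs
      · exact V.one_mem
      · exact V.zero_mem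
    let e := (Fintype.equivFin G).symm
    have h := isFrame_group K G
    refine ⟨_, fun i => single (e i) 1, fun i => single (e i)⁻¹ 1, fun i => hs _, fun i => hs _,
      fun _ => trivial, fun _ => trivial, h.symm, fun y hy => ?_⟩
    exact (Equiv.sum_comp e (fun x : G => coef K (1 : G) (y * single x⁻¹ 1) •
      (single x 1 : MonoidAlgebra K G))).trans (h.repro y hy)

/-- Reduction of coefficients to the residue field. -/
noncomputable def toRes (R : Type) [CommRing R] [IsLocalRing R] (G : Type) [Group G] :
    MonoidAlgebra R G →+* MonoidAlgebra (IsLocalRing.ResidueField R) G :=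
  mapRingHom G (IsLocalRing.residue R)

lemma coeff_toRes {R : Type} [CommRing R] [IsLocalRing R] {G : Type} [Group G]
    (a : MonoidAlgebra R G) (x : G) :
    (toRes R G a).coeff x = IsLocalRing.residue R (a.coeff x) := by
  simp [toRes]

end Pool.Agent.Lib.MP_b6945b_al.St
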