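import Pool.Agent.Lib.MP_b6945b_al.St.FrFlip1
import Pool.Agent.Lib.MP_b6945b_al.St.Core
import Pool.Agent.Lib.MP_b6945b_al.St.Idem
import Pool.Agent.Lib.MP_b6945b_al.St.GA

set_option autoImplicit false

/-!
A separable extension with projective complement has as many central characters as the
subalgebra.
-/

namespace Pool.Agent.Lib.MP_b6945b_al.St

open MonoidAlgebra (single)

section frames

variable {R A : Type} [CommRing R] [Ring A] [Algebra R A] {s : A →ₗ[R] R} {ι μ : Type} [Fintype ι]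
  [Fintype μ] {F F' : ι → A}

/-- An invariant element of the tensor square is a multiple of the Casimir element: expand `Y t`
with `IsFrame.repro'` and apply the invariance to `(x, y) ↦ s y • x`; similarly expand `X t`. -/
lemma IsFrame.casimir (h : IsFrame s ⊤ F F') {X Y : μ → A}
    (hXY : ∀ (N : Type) [AddCommGroup N] [Module R N] (β : A → A → N), IsBilin R β →
      ∀ a, ∑ t, β (a * X t) (Y t) = ∑ t, β (X t) (Y t * a))
    {N : Type} [AddCommGroup N] [Module R N] {β : A → A → N} (hβ : IsBilin R β) :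
    ∑ t, β (X t) (Y t) = ∑ c, β (F c * ∑ t, s (Y t) • X t) (F' c) ∧
      ∑ t, β (X t) (Y t) = ∑ c, β (F' c) ((∑ t, s (X t) • Y t) * F c) := by
  constructor
  · calc _ = ∑ t, ∑ c, s (Y t * F c) • β (X t) (F' c) :=
          Finset.sum_congr rfl fun t _ => by rw [← hβ.sum_right, h.repro' _ trivial]
      _ = _ := by
        rw [Finset.sum_comm]
        refine Finset.sum_congr rfl fun c _ => ?_
        have := hXY A (fun x y => s y • x)
          (by constructor <;> intros <;> simp [add_smul, smul_smul, mul_comm]) (F c)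
        rw [← hβ.sum_left, ← this, Finset.mul_sum]
        simp only [mul_smul_comm]
  · calc _ = ∑ t, ∑ c, s (F c * X t) • β (F' c) (Y t) :=
          Finset.sum_congr rfl fun t _ => by
            simp only [h.symm (F _) trivial _ trivial]
            rw [← hβ.sum_left, h.repro' _ trivial]
      _ = _ := by
        rw [Finset.sum_comm]
        refine Finset.sum_congr rfl fun c _ => ?_
        have := hXY A (fun x y => s x • y)
          (by constructor <;> intros <;> simp [add_smul, smul_smul, mul_comm]) (F c)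
        rw [← hβ.sum_right, this, Finset.sum_mul]
        simp only [smul_mul_assoc]

lemma IsFrame.corner (h : IsFrame s ⊤ F F') {e : A} (he : IsIdempotentElem e) :
    IsFrame (s ∘ₗ cval R he) ⊤ (fun i => cmk he (F i)) (fun i => cmk he (F' i)) := by
  refine ⟨fun _ => trivial, fun _ => trivial, fun x _ y _ => h.symm x.1 trivial y.1 trivial,
    fun y _ => ?_⟩
  have h1 := congrArg (cproj R he) (h.repro y.1 trivial)
  rw [map_sum, cproj_cval] at h1
  refine Eq.trans (Finset.sum_congr rfl fun i _ => ?_) h1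
  have h2 : s (y.1 * (e * F' i * e)) = s (y.1 * F' i) := by
    rw [← mul_assoc, h.symm _ trivial e trivial, ← mul_assoc, ← mul_assoc, corner_left,
      corner_right]
  rw [map_smul, ← h2]
  rfl

lemma IsFrame.matrix (h : IsFrame s ⊤ F F') (κ : Type) [Fintype κ] [DecidableEq κ] :
    IsFrame (s ∘ₗ Matrix.traceLinearMap κ R A) ⊤
      (fun t : κ × κ × ι => Matrix.single t.1 t.2.1 (F t.2.2))
      (fun t : κ × κ × ι => Matrix.single t.2.1 t.1 (F' t.2.2)) := by
  refine ⟨fun _ => trivial, fun _ => trivial, fun x _ y _ => ?_, fun y _ => ?_⟩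
  · simp only [LinearMap.comp_apply, Matrix.traceLinearMap_apply, Matrix.trace, Matrix.diag_apply,
      Matrix.mul_apply, map_sum]
    rw [Finset.sum_comm]
    exact Finset.sum_congr rfl fun i _ => Finset.sum_congr rfl fun j _ => h.symm _ trivial _ trivial
  · simp only [LinearMap.comp_apply, Matrix.traceLinearMap_apply, Matrix.trace_mul_single,
      op_smul_eq_mul, Fintype.sum_prod_type]
    conv_rhs => rw [Matrix.matrix_eq_sum_single y]
    refine Finset.sum_congr rfl fun a _ => Finset.sum_congr rfl fun b _ => ?_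
    have h1 := congrArg (Matrix.singleLinearMap R a b) (h.repro (y a b) trivial)
    simp only [map_sum, map_smul] at h1
    exact h1

lemma trF_matrix (κ : Type) [Fintype κ] [DecidableEq κ] (y : Matrix κ κ A) :
    trF (fun t : κ × κ × ι => Matrix.single t.1 t.2.1 (F t.2.2))
      (fun t : κ × κ × ι => Matrix.single t.2.1 t.1 (F' t.2.2)) y =
      Matrix.scalar κ (trF F F' y.trace) := by
  simp only [trF, Matrix.single_mul_mul_single, Fintype.sum_prod_type, Matrix.scalar_apply,
    ← Matrix.sum_single_eq_diagonal, Matrix.trace, Matrix.diag_apply, Finset.mul_sum,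
    Finset.sum_mul]
  refine Finset.sum_congr rfl fun a _ => ?_
  rw [Finset.sum_comm]
  change _ = Matrix.singleAddMonoidHom a a _
  simp only [map_sum]
  rfl

lemma trF_corner (h : IsFrame s ⊤ F F') {e : A} (he : IsIdempotentElem e) (y : he.Corner) :
    (trF (fun i => cmk he (F i)) (fun i => cmk he (F' i)) y).1 = trF F F' y.1 * e := by
  have h1 : (trF (fun i => cmk he (F i)) (fun i => cmk he (F' i)) y).1 =
      e * trF F F' y.1 * e := by
    change cval R he _ = _
    simp only [trF, map_sum, Finset.mul_sum, Finset.sum_mul]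
    refine Finset.sum_congr rfl fun i _ => ?_
    change e * F i * e * y.1 * (e * F' i * e) = _
    rw [mul_assoc _ e y.1, corner_left, ← mul_assoc, ← mul_assoc, mul_assoc _ y.1 e, corner_right]
    simp only [mul_assoc]
  rw [h1, trF_comm_top h, mul_assoc, he.eq]

lemma frflip2_inv {κ : Type} [Fintype κ] {sL : A →ₗ[R] R} {L : Subalgebra R A} {g g' : κ → A}
    (hg : IsFrame sL L.toSubmodule g g') {x y : μ → A}
    (hsep : ∀ (N : Type) [AddCommGroup N] [Module R N] (β : A → A → N), IsBilin R β →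
      (∀ b ∈ L, ∀ x y, β (x * b) y = β x (b * y)) →
      ∀ a, ∑ i, β (a * x i) (y i) = ∑ i, β (x i) (y i * a))
    (N : Type) [AddCommGroup N] [Module R N] (β : A → A → N) (hβ : IsBilin R β) (a : A) :
    ∑ t : μ × κ, β (a * (x t.1 * g t.2)) (g' t.2 * y t.1) =
      ∑ t : μ × κ, β (x t.1 * g t.2) (g' t.2 * y t.1 * a) := by
  simp only [Fintype.sum_prod_type, ← mul_assoc a, mul_assoc (g' _)]
  refine hsep N (fun u v => ∑ i, β (u * g i) (g' i * v)) ?_ (fun b hb u v => ?_) a
  · constructor <;> intros <;>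
      simp only [add_mul, mul_add, smul_mul_assoc, mul_smul_comm, hβ.add_left, hβ.add_right,
        hβ.smul_left, hβ.smul_right, Finset.sum_add_distrib, Finset.smul_sum]
  · have := hg.slideB_left (F := fun c d => β (u * c) (d * v)) (by
      constructor <;> intros <;>
        simp only [add_mul, mul_add, smul_mul_assoc, mul_smul_comm, hβ.add_left, hβ.add_right,
          hβ.smul_left, hβ.smul_right]) hb
    simpa only [mul_assoc] using this

lemma frflip2_hig (h : IsFrame s ⊤ F F') {κ : Type} [Fintype κ] {sL : A →ₗ[R] R}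
    {L : Subalgebra R A} {f f' : κ → A} (hf : IsFrame sL L.toSubmodule f f') {x y : μ → A}
    (hsep : ∀ (N : Type) [AddCommGroup N] [Module R N] (β : A → A → N), IsBilin R β →
      (∀ b ∈ L, ∀ x y, β (x * b) y = β x (b * y)) →
      ∀ a, ∑ i, β (a * x i) (y i) = ∑ i, β (x i) (y i * a))
    (h1 : ∑ i, x i * y i = 1) {E : Type} [Ring E] [Algebra R E] (l : A →ₐ[R] E)
    {Θ γ : E →ₗ[R] E} (hΘ : ∀ a b χ, Θ (l a * χ * l b) = l a * Θ χ * l b)
    (hγ : ∀ χ, Θ χ = trB (fun i => l (f i)) (fun i => l (f' i)) γ χ) (χ : E) :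
    Θ χ = trB (fun i => l (F i)) (fun i => l (F' i)) (fun ψ =>
      l (∑ t : μ × κ, s (f' t.2 * y t.1) • (x t.1 * f t.2)) * γ ψ *
        l (∑ t : μ × κ, s (x t.1 * f' t.2) • (f t.2 * y t.1))) χ := by
  have e1 : Θ χ = ∑ t : μ × κ, ∑ t' : μ × κ, l (x t.1 * f t.2) *
      γ (l (f' t.2 * y t.1) * χ * l (x t'.1 * f' t'.2)) * l (f t'.2 * y t'.1) := by
    have e2 : χ = ∑ m, ∑ n, l (x m) * (l (y m) * χ * l (x n)) * l (y n) := by
      have e3 : ∑ m, l (x m) * l (y m) = 1 := by
        simp only [← map_mul, ← map_sum, h1, map_one]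
      calc χ = (∑ m, l (x m) * l (y m)) * χ * ∑ n, l (x n) * l (y n) := by
            rw [e3, one_mul, mul_one]
        _ = _ := by
          rw [Finset.sum_mul, Finset.sum_mul]
          simp only [Finset.mul_sum, mul_assoc]
    conv_lhs => rw [e2]
    simp only [map_sum, Fintype.sum_prod_type]
    refine Finset.sum_congr rfl fun m _ => ?_
    rw [Finset.sum_comm]
    refine Finset.sum_congr rfl fun n _ => ?_
    rw [hΘ, hγ]
    simp only [trB, Finset.mul_sum, Finset.sum_mul, map_mul, mul_assoc]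
  rw [e1, (h.casimir (frflip2_inv hf hsep) (β := fun u v => ∑ t' : μ × κ, l u *
    γ (l v * χ * l (x t'.1 * f' t'.2)) * l (f t'.2 * y t'.1)) ?_).1, trB]
  · refine Finset.sum_congr rfl fun c _ => ?_
    rw [(h.casimir (frflip2_inv hf.swap hsep) (β := fun u v => l (F c * _) *
      γ (l (F' c) * χ * l u) * l v) ?_).2]
    · simp only [map_mul, mul_assoc]
    · constructor <;> intros <;> simp [mul_add, add_mul]
  · constructor <;> intros <;> simp [mul_add, add_mul, Finset.sum_add_distrib, Finset.smul_sum]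

end frames

variable {K : Type} [Field K] {V : ValuationSubring K} {A : Type} [Ring A] [Algebra K A]

lemma finrank_center_congr {B B' : Type} [Ring B] [Algebra K B] [Ring B'] [Algebra K B']
    (φ : B ≃ₐ[K] B') :
    Module.finrank K (Subalgebra.center K B) = Module.finrank K (Subalgebra.center K B') := by
  have h : (Subalgebra.center K B).map (φ : B →ₐ[K] B') = Subalgebra.center K B' := by
    ext z
    obtain ⟨z, rfl⟩ := φ.surjective z
    rw [Subalgebra.mem_map]
    change (∃ x, _ ∧ φ x = φ z) ↔ _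
    simp only [Subalgebra.mem_center_iff, φ.surjective.forall, ← map_mul,
      φ.injective.eq_iff, exists_eq_right]
  rw [← h]
  exact (φ.subalgebraMap _).toLinearEquiv.finrank_eq

/-- Let `z = trF F F' e`, central.  `exists_fitting` (over the field `K`, `c = 0`) gives a central
idempotent `π` with `z π` nilpotent and `z w = 1 - π`.  The trace of `x ↦ a * x * b` is
`∑ s (a * F i * b * F' i)`; so `c * s y` is the trace of left multiplication by `y`, which gives
`s (z π) = 0`, and the idempotent map `x ↦ x * (e π)` has trace `s (z π) = 0`, so it vanishes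
(characteristic zero).  Hence `e π = 0`. -/
lemma exists_inv_trF_corner [CharZero K] [IsAlgClosed K] {s : A →ₗ[K] K} {ι : Type} [Fintype ι]
    {F F' : ι → A} (h : IsFrame s ⊤ F F') {c : K} (hc : c ≠ 0) (h1 : trF F F' 1 = c • 1) {e : A}
    (he : IsIdempotentElem e) :
    ∃ w : he.Corner, w * trF (fun i => cmk he (F i)) (fun i => cmk he (F' i)) 1 = 1 := by
  have hfin : Module.Finite K A := Module.Finite.of_surjective (Fintype.linearCombination K F)
    fun y => ⟨_, h.repro y trivial⟩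
  have htr : ∀ T : A →ₗ[K] A, LinearMap.trace K A T = ∑ i, s (T (F i) * F' i) := fun T => by
    have e1 : T = ∑ i, (s ∘ₗ LinearMap.mulRight K (F' i)).smulRight (T (F i)) := by
      ext y
      conv_lhs => rw [← h.repro y trivial]
      simp
    conv_lhs => rw [e1]
    simp only [map_sum, LinearMap.trace_smulRight]
    rfl
  obtain ⟨π, hπ, w, -, hi, ⟨n, hn⟩, hw⟩ := exists_fitting (idem_monicSplit_of_root
    fun f _ hf => IsAlgClosed.exists_root f (Polynomial.natDegree_pos_iff_degree_pos.1 hf).ne')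
    (trF F F' e) (0 : K)
  rw [map_zero, sub_zero] at hn hw
  have hc' : ∀ b, b * π = π * b := Subalgebra.mem_center_iff.1 (Algebra.adjoin_le
    (Set.singleton_subset_iff.2 (Subalgebra.mem_center_iff.2 (trF_comm_top h e))) hπ)
  rw [InMax, IsLocalRing.maximalIdeal_eq_bot, Submodule.bot_smul, Submodule.mem_bot] at hn
  have h2 := (LinearMap.isNilpotent_trace_of_isNilpotent
    (IsNilpotent.map ⟨n, hn⟩ (Algebra.lmul K A))).eq_zero
  have h3 : ∑ i, F i * F' i = c • 1 := by simpa only [trF, mul_one] using h1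
  rw [htr] at h2
  simp only [Algebra.coe_lmul_eq_mul, LinearMap.mul_apply', mul_assoc _ (F _), ← map_sum,
    ← Finset.mul_sum, h3, mul_smul_comm, mul_one, map_smul, smul_eq_mul] at h2
  have h4 : π * e * (π * e) = π * e := by
    rw [mul_assoc, ← mul_assoc e, hc', mul_assoc, he.eq, ← mul_assoc, hi.eq]
  have h5 : LinearMap.mulRight K (π * e) = 0 := by
    refine LinearMap.IsIdempotentElem.eq_zero_of_trace_eq_zero
      (LinearMap.ext fun y => (mul_assoc y _ _).trans (congrArg (y * ·) h4)) ?_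
    rw [htr, ← map_sum]
    change s (trF F F' (π * e)) = 0
    rw [core_trF_mul fun i => (hc' _).symm, ← hc']
    exact (mul_eq_zero.1 h2).resolve_left hc
  have h6 : π * e = 0 := by simpa using LinearMap.congr_fun h5 1
  refine ⟨cmk he w, Subtype.ext ?_⟩
  rw [corner_mul, trF_corner h, cmk_val, corner_one, mul_assoc, ← mul_assoc e (trF _ _ _),
    trF_comm_top h, mul_assoc (trF _ _ _), he.eq, mul_assoc, ← mul_assoc w, trF_comm_top h, hw,
    sub_mul, h6, one_mul, sub_zero, he.eq]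

lemma frflip2_core [CharZero K] [IsAlgClosed K] {p : ℕ} (hp : p.Prime)
    (hpV : (p : K) ∈ V.nonunits) {O : Subring A} {s sL : A →ₗ[K] K} {ι κ μ : Type} [Fintype ι]
    [Fintype κ] [Fintype μ] {F F' : ι → A} {L : Subalgebra K A} {f f' : κ → A} {r α : A →ₗ[K] A}
    (h : FlipD V O s F F' L sL f f' r α) {x y : μ → A}
    (hx : ∀ i, x i ∈ O) (hy : ∀ i, y i ∈ O)
    (hsep : ∀ (N : Type) [AddCommGroup N] [Module K N] (β : A → A → N), IsBilin K β →
      (∀ b ∈ L, ∀ x y, β (x * b) y = β x (b * y)) →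
      ∀ a, ∑ i, β (a * x i) (y i) = ∑ i, β (x i) (y i * a))
    (h1 : ∑ i, x i * y i = 1) (hz : ∃ w, w * trF F F' 1 = 1)
    (hnd : ∀ b ∈ O, NilMod V O (trF F F' b)) {E : Type} [Ring E] [Algebra K E] {OE : Subring E}
    (hG : Good V p OE) (l : A →ₐ[K] E) (ev : E →ₗ[K] A) (β ρ : E →ₗ[K] E)
    (l1 : ∀ a, ev (l a) = a) (lO : ∀ a ∈ O, l a ∈ OE) (evO : ∀ χ ∈ OE, ev χ ∈ O)
    (hβO : ∀ χ ∈ OE, β χ ∈ OE)
    (hβ : ∀ χ, l (r (ev χ)) + trB (fun i => l (f i)) (fun i => l (f' i)) β χ = χ)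
    (hρO : ∀ χ ∈ OE, ρ χ ∈ OE) (hρ : ∀ χ, ρ χ ∈ l.range)
    (r1 : ∀ a b χ, ρ (l a * χ * l b) = l a * ρ χ * l b) (r2 : ρ 1 = 1) :
    Module.finrank K (Subalgebra.center K E) = Module.finrank K (Subalgebra.center K A) := by
  have r3 : ∀ a b χ, (LinearMap.id - ρ : E →ₗ[K] E) (l a * χ * l b) =
      l a * (LinearMap.id - ρ : E →ₗ[K] E) χ * l b := fun a b χ => by
    simp only [LinearMap.sub_apply, LinearMap.id_apply, r1, mul_sub, sub_mul]
  have r4 := frflip2_hig h.frame h.frameL hsep h1 l (γ := (LinearMap.id - ρ) ∘ₗ β) r3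
    fun χ => by
      have e1 := r3 (r (ev χ)) 1 1
      rw [map_one, mul_one, mul_one, LinearMap.sub_apply _ _ 1, r2, LinearMap.id_apply, sub_self,
        mul_zero, zero_mul] at e1
      conv_lhs => rw [← hβ χ, map_add, e1, zero_add]
      simp only [trB, map_sum, r3, LinearMap.comp_apply]
  have hw₁ : ∑ t : μ × κ, s (f' t.2 * y t.1) • (x t.1 * f t.2) ∈ O := O.sum_mem fun t _ =>
    h.smul_mem _ (h.s_mem _ (O.mul_mem (h.f'_mem _) (hy _))) _ (O.mul_mem (hx _) (h.f_mem _))
  have hw₂ : ∑ t : μ × κ, s (x t.1 * f' t.2) • (f t.2 * y t.1) ∈ O := O.sum_mem fun t _ =>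
    h.smul_mem _ (h.s_mem _ (O.mul_mem (hx _) (h.f'_mem _))) _ (O.mul_mem (h.f_mem _) (hy _))
  generalize ∑ t : μ × κ, s (f' t.2 * y t.1) • (x t.1 * f t.2) = w₁ at r4 hw₁
  generalize ∑ t : μ × κ, s (x t.1 * f' t.2) • (f t.2 * y t.1) = w₂ at r4 hw₂
  have ht : ∀ a, trF (fun i => l (F i)) (fun i => l (F' i)) (l a) = l (trF F F' a) := fun a => by
    simp only [trF, map_sum, map_mul]
  rw [finrank_center_congr (AlgEquiv.ofInjective l fun a b e => by rw [← l1 a, e, l1])]
  refine core hp hpV hG (B := l.range) (sB := s ∘ₗ ev) (f := fun i => l (F i))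
    (f' := fun i => l (F' i)) ⟨fun i => ⟨_, rfl⟩, fun i => ⟨_, rfl⟩, ?_, ?_⟩
    (fun i => lO _ (h.F_mem i)) (fun i => lO _ (h.F'_mem i))
    (fun b _ hb => h.s_mem _ (evO b hb)) ρ (LinearMap.mulRight K (l w₂) ∘ₗ
      LinearMap.mulLeft K (l w₁) ∘ₗ (LinearMap.id - ρ) ∘ₗ β) hρO
    (fun χ hχ => OE.mul_mem (OE.mul_mem (lO _ hw₁)
      (OE.sub_mem (hβO χ hχ) (hρO _ (hβO χ hχ)))) (lO _ hw₂)) hρ ?_ r2
    (fun χ => add_eq_of_eq_sub' (r4 χ).symm) ?_ ?_
  · rintro _ ⟨a, rfl⟩ _ ⟨b, rfl⟩
    change s (ev (l a * l b)) = s (ev (l b * l a))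
    rw [← map_mul, ← map_mul, l1, l1]
    exact h.frame.symm a trivial b trivial
  · rintro _ ⟨a, rfl⟩
    change ∑ i, s (ev (l a * l (F' i))) • l (F i) = l a
    simp only [← map_mul, l1, ← map_smul, ← map_sum, h.frame.repro a trivial]
  · rintro _ ⟨a, rfl⟩ _ ⟨b, rfl⟩ χ
    exact r1 a b χ
  · obtain ⟨w, hw⟩ := hz
    exact ⟨l w, ⟨w, rfl⟩, by rw [← map_one l, ht, ← map_mul, hw]⟩
  · rintro _ ⟨a, rfl⟩ ha
    obtain ⟨n, m, hm, z, hz', e⟩ := hnd a (l1 a ▸ evO _ ha)
    refine ⟨n, m, hm, l z, lO z hz', ?_⟩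
    change trF _ _ (l a) ^ n = _
    rw [ht, ← map_pow, e, map_smul]

/-- Apply `core` to `endR L`, the order `endO L O`, `B = (lam L).range`, the frames `lam F`,
`lam F'`, `sB χ = s (χ 1)`, `r' χ = lam (∑ χ (x i) * y i)`.  `Θ = id - r'` is an `A`-bimodule map that
kills `B`, so `Θ χ = trB (lam f) (lam f') (Θ ∘ β) χ` (`FlipD.hig_end`), and
`Θ χ = ∑ m n, lam (x m) * Θ (lam (y m) * χ * lam (x n)) * lam (y n)`.  The families
`(x m * f i, f' i * y m)` and `(x n * f' k, f k * y n)` are invariant; `IsFrame.casimir` turns the sum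
into `trB (lam F) (lam F') (lam w * (Θ ∘ β) · * lam w') χ`. -/
theorem FlipD.finrank [CharZero K] [IsAlgClosed K] {p : ℕ} (hp : p.Prime)
    (hpV : (p : K) ∈ V.nonunits) {O : Subring A} {s sL : A →ₗ[K] K} {ι κ μ : Type} [Fintype ι]
    [Fintype κ] [Fintype μ] {F F' : ι → A} {L : Subalgebra K A} {f f' : κ → A} {r α : A →ₗ[K] A}
    (h : FlipD V O s F F' L sL f f' r α) (hG : Good V p (O.comap L.val.toRingHom)) {x y : μ → A}
    (hx : ∀ i, x i ∈ O) (hy : ∀ i, y i ∈ O)
    (hsep : ∀ (N : Type) [AddCommGroup N] [Module K N] (β : A → A → N), IsBilin K β →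
      (∀ b ∈ L, ∀ x y, β (x * b) y = β x (b * y)) →
      ∀ a, ∑ i, β (a * x i) (y i) = ∑ i, β (x i) (y i * a))
    (h1 : ∑ i, x i * y i = 1) (hz : ∃ w, w * trF F F' 1 = 1)
    (hnd : ∀ b ∈ O, NilMod V O (trF F F' b)) :
    Module.finrank K (Subalgebra.center K A) = Module.finrank K (Subalgebra.center K L) := by
  obtain ⟨hG', hfin⟩ := h.morita hG
  obtain ⟨β, hβO, hβ⟩ := h.hig_end
  have lO : ∀ a ∈ O, lam L a ∈ endO L O := fun a ha b hb => O.mul_mem ha hb
  obtain ⟨ρ, hρ⟩ : ∃ ρ : endR L →ₗ[K] endR L, ∀ χ, ρ χ = lam L (∑ i, χ.1 (x i) * y i) :=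
    ⟨(lam L).toLinearMap ∘ₗ ∑ i, LinearMap.mulRight K (y i) ∘ₗ LinearMap.applyₗ (x i) ∘ₗ
      (endR L).val.toLinearMap, fun χ => by simp⟩
  have r1 : ∀ a b χ, ρ (lam L a * χ * lam L b) = lam L a * ρ χ * lam L b := fun a b χ => by
    have e1 := hsep A (fun u v => χ.1 u * v)
      (by constructor <;> intros <;> simp [add_mul, mul_add])
      (fun c hc u v => by rw [χ.2 c hc, mul_assoc]) b
    rw [hρ, hρ, ← map_mul, ← map_mul, mul_assoc a, Finset.sum_mul]
    simp only [mul_assoc _ _ b]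
    rw [← e1, Finset.mul_sum]
    exact congrArg _ (Finset.sum_congr rfl fun i _ => mul_assoc _ _ _)
  have r2 : ρ 1 = 1 := by
    have e1 : ∑ i, (1 : endR L).1 (x i) * y i = 1 := h1
    rw [hρ, e1, map_one]
  rw [← hfin]
  refine (frflip2_core hp hpV h hx hy hsep h1 hz hnd (E := endR L) hG' (lam L)
    (LinearMap.applyₗ (1 : A) ∘ₗ (endR L).val.toLinearMap) β ρ (fun a => mul_one a) lO
    (fun χ hχ => hχ 1 O.one_mem) hβO hβ (fun χ hχ => ?_) (fun χ => ⟨_, (hρ χ).symm⟩) r1 r2).symm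
  exact (hρ χ).symm ▸ lO _ (O.sum_mem fun i _ => O.mul_mem (hχ _ (hx i)) (hy i))

end Pool.Agent.Lib.MP_b6945b_al.St
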