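import Pool.Agent.Lib.MP_b6945b_al.St.CrossPure

set_option autoImplicit false

/-!
The centre of a crossed product with a freely acting group.
-/

namespace Pool.Agent.Lib.MP_b6945b_al.St

open MonoidAlgebra (single)

section group

variable {D E : Type} [CommGroup D] [Finite D] [Group E] {φ : E →* MulAut D}

/-- `u ↦ φ l u * u⁻¹` is an injective endomorphism of a finite group. -/
lemma free_bij (hfree : ∀ l u, φ l u = u → l = 1 ∨ u = 1) {l : E} (hl : l ≠ 1) :
    Function.Bijective fun u : D => φ l u * u⁻¹ := by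
  refine Finite.injective_iff_bijective.1
    ((injective_iff_map_eq_one (crosspure_hom φ l)).2 fun u hu => ?_)
  exact (hfree l u (mul_inv_eq_one.1 hu)).resolve_left hl

/-- An abelian group acting freely is cyclic.  `Additive D` is a finite module over the
commutative ring `R = MonoidAlgebra ℤ B`; choose `y ≠ 0` whose annihilator `P` is maximal among the
annihilators of nonzero elements (equivalently, `R y` is a nonzero submodule of minimal
cardinality).  Then `P` is prime, and `B → R ⧸ P` is injective by freeness;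
`isCyclic_of_injective_ringHom`. -/
lemma isCyclic_of_free {B : Type} [CommGroup B] [Finite B] [Nontrivial D] (ψ : B →* MulAut D)
    (hfree : ∀ l u, ψ l u = u → l = 1 ∨ u = 1) : IsCyclic B := by
  let ρ : B →* Module.End ℤ (Additive D) :=
    { toFun := fun b => (MonoidHom.toAdditive (ψ b).toMonoidHom).toIntLinearMap
      map_one' := by
        ext x
        simp
      map_mul' := fun b b' => by
        ext x
        simp }
  have hρ : ∀ b x, ρ b x = Additive.ofMul (ψ b x.toMul) := fun _ _ => rfl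
  let F : MonoidAlgebra ℤ B →ₐ[ℤ] Module.End ℤ (Additive D) := MonoidAlgebra.lift ℤ _ B ρ
  have hfin : Finite (Module.End ℤ (Additive D)) :=
    Finite.of_injective (fun f => (f : Additive D → Additive D)) DFunLike.coe_injective
  obtain ⟨P, hP, hle⟩ := Ideal.exists_le_maximal (RingHom.ker F) (RingHom.ker_ne_top F)
  have hprime := hP.isPrime
  refine isCyclic_of_injective_ringHom
    ((Ideal.Quotient.mk P).toMonoidHom.comp (MonoidAlgebra.of ℤ B))
    ((injective_iff_map_eq_one _).2 fun b hb => ?_)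
  by_contra hb1
  have h1 : MonoidAlgebra.of ℤ B b - 1 ∈ P := by
    rw [← Ideal.Quotient.eq, map_one]
    exact hb
  have h2 : IsUnit (F (MonoidAlgebra.of ℤ B b - 1)) := by
    rw [map_sub, map_one, MonoidAlgebra.lift_of, Module.End.isUnit_iff]
    have h3 : ⇑(ρ b - 1) = Additive.ofMul ∘ (fun u : D => ψ b u * u⁻¹) ∘ Additive.toMul := by
      funext x
      rw [LinearMap.sub_apply, hρ, sub_eq_add_neg]
      rfl
    rw [h3]
    exact Additive.ofMul.bijective.comp ((free_bij hfree hb1).comp Additive.toMul.bijective)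
  obtain ⟨w, hw⟩ := h2
  obtain ⟨n, hn, e⟩ := (isOfFinOrder_of_finite w).exists_pow_eq_one
  have h4 : (MonoidAlgebra.of ℤ B b - 1) ^ n - 1 ∈ P := by
    refine hle ?_
    rw [RingHom.mem_ker, map_sub, map_pow, ← hw, ← Units.val_pow_eq_pow_val, e, map_one,
      Units.val_one, sub_self]
  have h5 := P.sub_mem (P.pow_mem_of_mem h1 n hn) h4
  rw [sub_sub_cancel] at h5
  exact hP.ne_top ((Ideal.eq_top_iff_one P).2 h5)

/-- Apply `isCyclic_of_free` to the subgroup generated by `l` and `m`. -/
lemma exists_pow_of_commute [Finite E] [Nontrivial D]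
    (hfree : ∀ l u, φ l u = u → l = 1 ∨ u = 1) {l m : E} (h : l * m = m * l) :
    ∃ (g : E) (i k : ℕ), l = g ^ (i + 1) ∧ m = g ^ (k + 1) := by
  have hc : IsMulCommutative (Subgroup.closure ({l, m} : Set E)) :=
    Subgroup.isMulCommutative_closure (by
      rintro x (rfl | rfl) y (rfl | rfl)
      · rfl
      · exact h
      · exact h.symm
      · rfl)
  let _ : CommGroup (Subgroup.closure ({l, m} : Set E)) :=
    { (inferInstance : Group (Subgroup.closure ({l, m} : Set E))) with
      mul_comm := hc.is_comm.comm }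
  have hcyc : IsCyclic (Subgroup.closure ({l, m} : Set E)) :=
    isCyclic_of_free (φ.comp (Subgroup.subtype _)) fun x y hxy =>
      (hfree x y hxy).imp_left fun e => Subtype.ext e
  obtain ⟨g, hg⟩ := IsCyclic.exists_monoid_generator (α := Subgroup.closure ({l, m} : Set E))
  obtain ⟨i, hi⟩ := hg ⟨l, Subgroup.subset_closure (by simp)⟩
  obtain ⟨k, hk⟩ := hg ⟨m, Subgroup.subset_closure (by simp)⟩
  have hi' : (g : E) ^ i = l := congrArg Subtype.val hi
  have hk' : (g : E) ^ k = m := congrArg Subtype.val hk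
  have ho : 0 < orderOf (g : E) := orderOf_pos _
  refine ⟨g, i + (orderOf (g : E) - 1), k + (orderOf (g : E) - 1), ?_, ?_⟩
  · rw [add_assoc, Nat.sub_add_cancel ho, pow_add, pow_orderOf_eq_one, mul_one, hi']
  · rw [add_assoc, Nat.sub_add_cancel ho, pow_add, pow_orderOf_eq_one, mul_one, hk']

/-- A cocycle of the conjugation action that is trivial on stabilisers is a coboundary: choose a
representative `r l` of the class of `l` and `t l` with `l = t l * r l * (t l)⁻¹`, and put
`ω l = γ (t l) (r l)`. -/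
lemma exists_rescale {K : Type} [Field K] (γ : E → E → K) (h0 : ∀ m l, γ m l ≠ 0)
    (hmul : ∀ m m' l, γ (m * m') l = γ m (m' * l * m'⁻¹) * γ m' l)
    (hc : ∀ m l, m * l = l * m → γ m l = 1) :
    ∃ ω : E → K, (∀ l, ω l ≠ 0) ∧ ∀ m l, ω (m * l * m⁻¹) = γ m l * ω l := by
  choose r hr using fun x : ConjClasses E => ConjClasses.mk_surjective x
  have h1 : ∀ l : E, ∃ t : E, t * r (ConjClasses.mk l) * t⁻¹ = l := fun l =>
    isConj_iff.1 (ConjClasses.mk_eq_mk_iff_isConj.1 (hr _))
  choose t ht using h1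
  refine ⟨fun l => γ (t l) (r (ConjClasses.mk l)), fun l => h0 _ _, fun m l => ?_⟩
  have e : ConjClasses.mk (m * l * m⁻¹) = ConjClasses.mk l :=
    ConjClasses.mk_eq_mk_iff_isConj.2 (isConj_iff.2 ⟨m, rfl⟩).symm
  have h2 := ht (m * l * m⁻¹)
  have h3 := ht l
  simp only
  rw [e] at h2 ⊢
  generalize r (ConjClasses.mk l) = x at h2 h3 ⊢
  generalize t (m * l * m⁻¹) = t' at h2 ⊢
  generalize t l = t₀ at h3 ⊢
  have h4 : (t'⁻¹ * (m * t₀)) * x = x * (t'⁻¹ * (m * t₀)) := by
    rw [← h3] at h2
    calc (t'⁻¹ * (m * t₀)) * x = t'⁻¹ * (m * (t₀ * x * t₀⁻¹) * m⁻¹) * (m * t₀) := by group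
      _ = x * (t'⁻¹ * (m * t₀)) := by rw [← h2]; group
  have h5 := hmul t' (t'⁻¹ * (m * t₀)) x
  rw [hc _ _ h4, mul_one, h4, mul_inv_cancel_right, mul_inv_cancel_left, hmul, h3] at h5
  exact h5.symm

end group

variable {K : Type} [Field K] {V : ValuationSubring K} {D E : Type} [CommGroup D]
  [Fintype D] [Group E] [Fintype E] {A : Type} [Ring A] [Algebra K A]
  {φ : E →* MulAut D} {O : Subring A} {δ : MonoidAlgebra K D →ₐ[K] A} {u : E → A}
  {c : E → E → MonoidAlgebra K D}

variable (K D) in
/-- The sum of all group elements. -/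
noncomputable def sumD : MonoidAlgebra K D := ∑ x : D, single x 1

variable (K D) in
/-- The augmentation. -/
noncomputable def augD : MonoidAlgebra K D →ₐ[K] K := MonoidAlgebra.lift K K D 1

omit [Fintype D] in
lemma frcenter_aug_single (x : D) (r : K) : augD K D (single x r) = r := by
  simp [augD]

omit [Fintype D] [Fintype E] in
lemma frcenter_aug_act (l : E) (a : MonoidAlgebra K D) : augD K D (act K φ l a) = augD K D a := by
  induction a using MonoidAlgebra.induction_linear with
  | zero => rw [map_zero]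
  | add x y hx hy => rw [map_add, map_add, map_add, hx, hy]
  | single x r => rw [crosspure_act_single, frcenter_aug_single, frcenter_aug_single]

omit [CommGroup D] in
lemma frcenter_sumD_coeff (x : D) : (sumD K D).coeff x = 1 := by
  classical
  simp [sumD, Finsupp.single_apply]

lemma frcenter_smul_sumD {r : K} (h : r • sumD K D = 0) : r = 0 := by
  have := congrArg (fun a : MonoidAlgebra K D => a.coeff 1) h
  simpa [frcenter_sumD_coeff] using this

lemma mul_sumD (a : MonoidAlgebra K D) : a * sumD K D = augD K D a • sumD K D := by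
  induction a using MonoidAlgebra.induction_linear with
  | zero => rw [map_zero, zero_mul, zero_smul]
  | add x y hx hy => rw [map_add, add_mul, add_smul, hx, hy]
  | single x r =>
    ext y
    rw [frcenter_aug_single, MonoidAlgebra.coeff_single_mul_apply, frcenter_sumD_coeff]
    simp [frcenter_sumD_coeff]

omit [Fintype E] in
lemma act_sumD (l : E) : act K φ l (sumD K D) = sumD K D := by
  ext y
  rw [crosspure_act_coeff, frcenter_sumD_coeff, frcenter_sumD_coeff]

lemma eq_smul_sumD {a : MonoidAlgebra K D} (h : ∀ x : D, a * single x 1 = a) :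
    a = a.coeff 1 • sumD K D := by
  ext x
  have := congrArg (fun a : MonoidAlgebra K D => a.coeff x) (h x)
  simp only [MonoidAlgebra.coeff_mul_single_apply, mul_inv_cancel, mul_one] at this
  simp [frcenter_sumD_coeff, this]

lemma frcenter_δ_sum (δ : MonoidAlgebra K D →ₐ[K] A) (a : MonoidAlgebra K D) :
    δ (sumD K D) * δ a = augD K D a • δ (sumD K D) := by
  rw [← map_mul, mul_comm, mul_sumD, map_smul]

lemma frcenter_u_sum (h : CrossData V φ O δ u c) (l : E) :
    u l * δ (sumD K D) = δ (sumD K D) * u l := by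
  rw [h.comm, act_sumD]

/-- The elements `n l = δ (sumD) * u l` multiply by the scalar cocycle `augD (c l m)`. -/
lemma CrossData.mul_n (h : CrossData V φ O δ u c) (l m : E) :
    u l * (δ (sumD K D) * u m) = augD K D (c l m) • (δ (sumD K D) * u (l * m)) ∧
      δ (sumD K D) * u l * u m = augD K D (c l m) • (δ (sumD K D) * u (l * m)) ∧
      augD K D (c l m) ≠ 0 := by
  have h1 : δ (sumD K D) * u l * u m = augD K D (c l m) • (δ (sumD K D) * u (l * m)) := by
    rw [mul_assoc, h.mul, ← mul_assoc, frcenter_δ_sum, smul_mul_assoc]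
  refine ⟨by rw [← mul_assoc, frcenter_u_sum h, h1], h1, ?_⟩
  obtain ⟨c', -, hc'⟩ := h.c_unit l m
  intro h0
  have := congrArg (augD K D) hc'
  rw [map_mul, h0, zero_mul, map_one] at this
  exact zero_ne_one this

lemma frcenter_pow (h : CrossData V φ O δ u c) (g : E) (i : ℕ) :
    ∃ κ : K, κ ≠ 0 ∧ δ (sumD K D) * u g ^ i = κ • (δ (sumD K D) * u (g ^ i)) := by
  induction i with
  | zero => exact ⟨1, one_ne_zero, by rw [pow_zero, pow_zero, h.one, one_smul]⟩
  | succ i ih =>
    obtain ⟨κ, hκ, e⟩ := ih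
    refine ⟨κ * augD K D (c (g ^ i) g), mul_ne_zero hκ (h.mul_n _ _).2.2, ?_⟩
    rw [pow_succ, ← mul_assoc, e, smul_mul_assoc, (h.mul_n _ _).2.1, smul_smul, pow_succ]

lemma frcenter_smul_n (h : CrossData V φ O δ u c) (l : E) {r r' : K}
    (e : r • (δ (sumD K D) * u l) = r' • (δ (sumD K D) * u l)) : r = r' := by
  rw [← smul_mul_assoc, ← smul_mul_assoc, ← map_smul, ← map_smul] at e
  have := h.inj l e
  rw [← sub_eq_zero, ← sub_smul] at this
  exact sub_eq_zero.1 (frcenter_smul_sumD this)

/-- With `g` from `exists_pow_of_commute`: `δ (sumD) * u g ^ (i + 1)` is a nonzero multiple of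
`δ (sumD) * u (g ^ (i + 1))`, and `δ (sumD)` commutes with all `u l`; so
`δ (sumD) * u l * u m = δ (sumD) * u m * u l`. -/
lemma CrossData.aug_symm [Nontrivial D] (hfree : ∀ l x, φ l x = x → l = 1 ∨ x = 1)
    (h : CrossData V φ O δ u c) {l m : E} (hlm : l * m = m * l) :
    augD K D (c l m) = augD K D (c m l) := by
  obtain ⟨g, i, k, rfl, rfl⟩ := exists_pow_of_commute hfree hlm
  generalize i + 1 = a at hlm ⊢
  generalize k + 1 = b at hlm ⊢
  have key : ∀ (a b : ℕ) (κ κ' : K), δ (sumD K D) * u g ^ a = κ • (δ (sumD K D) * u (g ^ a)) →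
      δ (sumD K D) * u g ^ b = κ' • (δ (sumD K D) * u (g ^ b)) →
      (κ * κ' * augD K D (c (g ^ a) (g ^ b))) • (δ (sumD K D) * u (g ^ a * g ^ b)) =
        δ (sumD K D) * u g ^ (a + b) := by
    intro a b κ κ' e e'
    have hc : Commute (δ (sumD K D)) (u g ^ a) :=
      (show Commute (δ (sumD K D)) (u g) from (frcenter_u_sum h g).symm).pow_right a
    calc (κ * κ' * augD K D (c (g ^ a) (g ^ b))) • (δ (sumD K D) * u (g ^ a * g ^ b))
        = κ' • (κ • (δ (sumD K D) * u (g ^ a)) * u (g ^ b)) := by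
          rw [smul_mul_assoc, (h.mul_n _ _).2.1, smul_smul, smul_smul, mul_comm κ']
      _ = u g ^ a * (κ' • (δ (sumD K D) * u (g ^ b))) := by
          rw [← e, hc.eq, mul_smul_comm, mul_assoc]
      _ = δ (sumD K D) * u g ^ (a + b) := by
          rw [← e', ← mul_assoc, ← hc.eq, mul_assoc, pow_add]
  obtain ⟨κ, hκ, e⟩ := frcenter_pow h g a
  obtain ⟨κ', hκ', e'⟩ := frcenter_pow h g b
  have h1 := key a b κ κ' e e'
  have h2 := key b a κ' κ e' e
  rw [add_comm b a, ← hlm, ← h1, mul_comm κ' κ] at h2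
  exact (mul_left_cancel₀ (mul_ne_zero hκ hκ') (frcenter_smul_n h _ h2)).symm

/-- `γ m l = augD (c m l) / augD (c (m l m⁻¹) m)` satisfies
`u m * n l = γ m l • n (m l m⁻¹) * u m`; the cocycle identity follows by computing
`u m * u m' * n l` in two ways. -/
lemma CrossData.exists_omega [Nontrivial D] (hfree : ∀ l x, φ l x = x → l = 1 ∨ x = 1)
    (h : CrossData V φ O δ u c) :
    ∃ ω : E → K, (∀ l, ω l ≠ 0) ∧ ∀ m l, u m * (ω l • (δ (sumD K D) * u l)) =
      ω (m * l * m⁻¹) • (δ (sumD K D) * u (m * l * m⁻¹)) * u m := by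
  have h0 : ∀ l m, augD K D (c l m) ≠ 0 := fun l m => (h.mul_n l m).2.2
  have hco : ∀ l m n, augD K D (c l m) * augD K D (c (l * m) n) =
      augD K D (c m n) * augD K D (c l (m * n)) := fun l m n => by
    rw [← map_mul, h.cocycle, map_mul, frcenter_aug_act]
  have h1 : ∀ m m' l, augD K D (c (m * m') l) / augD K D (c (m * m' * l * (m * m')⁻¹) (m * m')) =
      augD K D (c m (m' * l * m'⁻¹)) / augD K D (c (m * (m' * l * m'⁻¹) * m⁻¹) m) *
        (augD K D (c m' l) / augD K D (c (m' * l * m'⁻¹) m')) := by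
    intro m m' l
    have e0 : m * m' * l * (m * m')⁻¹ = m * (m' * l * m'⁻¹) * m⁻¹ := by group
    have e1 := hco m m' l
    have e2 := hco m (m' * l * m'⁻¹) m'
    have e3 := hco (m * (m' * l * m'⁻¹) * m⁻¹) m m'
    rw [inv_mul_cancel_right] at e2 e3
    rw [e0, div_mul_div_comm, div_eq_div_iff (h0 _ _) (mul_ne_zero (h0 _ _) (h0 _ _))]
    apply mul_left_cancel₀ (h0 m m')
    linear_combination
      (augD K D (c (m * (m' * l * m'⁻¹) * m⁻¹) m) * augD K D (c (m' * l * m'⁻¹) m')) * e1 -
        (augD K D (c (m * (m' * l * m'⁻¹) * m⁻¹) m) * augD K D (c m' l)) * e2 +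
        (augD K D (c m (m' * l * m'⁻¹)) * augD K D (c m' l)) * e3
  have h2 : ∀ m l, m * l = l * m → augD K D (c m l) / augD K D (c (m * l * m⁻¹) m) = 1 := by
    intro m l hml
    rw [hml, mul_inv_cancel_right, h.aug_symm hfree hml, div_self (h0 _ _)]
  obtain ⟨ω, hω, e⟩ := exists_rescale (fun m l => augD K D (c m l) / augD K D (c (m * l * m⁻¹) m))
    (fun m l => div_ne_zero (h0 _ _) (h0 _ _)) h1 h2
  refine ⟨ω, hω, fun m l => ?_⟩
  rw [mul_smul_comm, smul_mul_assoc, (h.mul_n _ _).1, (h.mul_n _ _).2.1, inv_mul_cancel_right,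
    smul_smul, smul_smul, e, div_mul_eq_mul_div, div_mul_cancel₀ _ (h0 _ _), mul_comm]

variable (K) in
/-- The model of the centre. -/
def centreModel (φ : E →* MulAut D) : Submodule K (MonoidAlgebra K D × (E → K)) where
  carrier := {x | (∀ l, act K φ l x.1 = x.1) ∧ x.2 1 = 0 ∧ ∀ m l, x.2 (m * l * m⁻¹) = x.2 l}
  add_mem' := fun {x y} hx hy => ⟨fun l => by rw [Prod.fst_add, map_add, hx.1, hy.1],
    by rw [Prod.snd_add, Pi.add_apply, hx.2.1, hy.2.1, add_zero],
    fun m l => by rw [Prod.snd_add, Pi.add_apply, Pi.add_apply, hx.2.2, hy.2.2]⟩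
  zero_mem' := ⟨fun l => map_zero _, rfl, fun _ _ => rfl⟩
  smul_mem' := fun r x hx => ⟨fun l => by
      ext y
      rw [crosspure_act_coeff]
      have := congrArg (fun a => a.coeff y) (hx.1 l)
      simp only [crosspure_act_coeff] at this
      change r * x.1.coeff _ = r * x.1.coeff _
      rw [this],
    by rw [Prod.smul_snd, Pi.smul_apply, hx.2.1, smul_zero],
    fun m l => by rw [Prod.smul_snd, Pi.smul_apply, Pi.smul_apply, hx.2.2]⟩

/-- The parametrisation of the centre. -/
noncomputable def frcenter_map (δ : MonoidAlgebra K D →ₐ[K] A) (u : E → A) (ω : E → K) :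
    (MonoidAlgebra K D × (E → K)) →ₗ[K] A where
  toFun x := δ x.1 + ∑ l, (x.2 l * ω l) • (δ (sumD K D) * u l)
  map_add' x y := by
    simp only [Prod.fst_add, Prod.snd_add, Pi.add_apply, map_add, add_mul, add_smul,
      Finset.sum_add_distrib]
    abel
  map_smul' r x := by
    simp only [Prod.smul_fst, Prod.smul_snd, Pi.smul_apply, map_smul, smul_eq_mul, smul_add,
      Finset.smul_sum, smul_smul, RingHom.id_apply, mul_assoc]

omit [Group E] in
lemma frcenter_map_apply (ω : E → K) (a : MonoidAlgebra K D) (t : E → K) :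
    frcenter_map δ u ω (a, t) = δ a + ∑ l, (t l * ω l) • (δ (sumD K D) * u l) := rfl

lemma frcenter_map_eq [DecidableEq E] (h : CrossData V φ O δ u c) (ω : E → K)
    (a : MonoidAlgebra K D) (t : E → K) : frcenter_map δ u ω (a, t) =
      ∑ l, δ ((Pi.single 1 a : E → MonoidAlgebra K D) l + (t l * ω l) • sumD K D) * u l := by
  simp only [map_add, add_mul, Finset.sum_add_distrib, map_smul, smul_mul_assoc]
  rw [crosspure_sum_single, h.one, mul_one, frcenter_map_apply]

lemma frcenter_map_inj (h : CrossData V φ O δ u c) {ω : E → K} (hω : ∀ l, ω l ≠ 0)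
    {x : MonoidAlgebra K D × (E → K)} (h1 : x.2 1 = 0) (h0 : frcenter_map δ u ω x = 0) :
    x = 0 := by
  classical
  obtain ⟨a, t⟩ := x
  rw [frcenter_map_eq h] at h0
  have h2 : (fun l => (Pi.single 1 a : E → MonoidAlgebra K D) l + (t l * ω l) • sumD K D) = 0 :=
    h.bij.1 (by simpa using h0)
  have h3 : t 1 = 0 := h1
  have h4 : a = 0 := by simpa [h3] using congrFun h2 1
  refine Prod.ext h4 (funext fun l => ?_)
  have h5 := congrFun h2 l
  simp only [h4, Pi.single_zero, Pi.zero_apply, zero_add] at h5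
  exact (mul_eq_zero.1 (frcenter_smul_sumD h5)).resolve_right (hω l)

lemma frcenter_map_u (h : CrossData V φ O δ u c) {ω : E → K}
    (hω : ∀ m l, u m * (ω l • (δ (sumD K D) * u l)) =
      ω (m * l * m⁻¹) • (δ (sumD K D) * u (m * l * m⁻¹)) * u m)
    (a : MonoidAlgebra K D) (t : E → K) (m : E) :
    u m * frcenter_map δ u ω (a, t) =
      frcenter_map δ u ω (act K φ m a, fun l => t (m⁻¹ * l * m)) * u m := by
  rw [frcenter_map_apply, frcenter_map_apply, mul_add, add_mul, h.comm, Finset.mul_sum,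
    Finset.sum_mul, ← Equiv.sum_comp (MulAut.conj m).toEquiv
      (fun l => (t (m⁻¹ * l * m) * ω l) • (δ (sumD K D) * u l) * u m)]
  congr 1
  refine Finset.sum_congr rfl fun l _ => ?_
  have e : m⁻¹ * (m * l * m⁻¹) * m = l := by group
  change _ = (t (m⁻¹ * (m * l * m⁻¹) * m) * ω (m * l * m⁻¹)) •
    (δ (sumD K D) * u (m * l * m⁻¹)) * u m
  rw [e, mul_smul, mul_smul, mul_smul_comm, hω, smul_mul_assoc (t l)]

lemma frcenter_map_δ (h : CrossData V φ O δ u c) (ω : E → K)
    (x : MonoidAlgebra K D × (E → K)) (b : MonoidAlgebra K D) :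
    δ b * frcenter_map δ u ω x = frcenter_map δ u ω x * δ b := by
  obtain ⟨a, t⟩ := x
  rw [frcenter_map_apply, mul_add, add_mul, ← map_mul, ← map_mul, mul_comm b, Finset.mul_sum,
    Finset.sum_mul]
  congr 1
  refine Finset.sum_congr rfl fun l _ => ?_
  rw [mul_smul_comm, smul_mul_assoc, mul_assoc, h.comm, ← mul_assoc, ← mul_assoc, frcenter_δ_sum,
    frcenter_aug_act, ← map_mul, mul_sumD, map_smul]

/-- The map `(a, t) ↦ δ a + ∑ l, (t l * ω l) • δ (sumD) * u l` is a bijection onto the centre.  If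
`∑ δ (a l) * u l` commutes with `δ (single x 1)` then `a l * single (φ l x) 1 = a l * single x 1`;
`free_bij`, `eq_smul_sumD`. -/
theorem CrossData.finrank_centre [Nontrivial D] (hfree : ∀ l x, φ l x = x → l = 1 ∨ x = 1)
    (h : CrossData V φ O δ u c) :
    Module.finrank K (Subalgebra.center K A) = Module.finrank K (centreModel K φ) := by
  classical
  obtain ⟨ω, hω0, hω⟩ := h.exists_omega hfree
  have hmem : ∀ x : centreModel K φ, (frcenter_map δ u ω ∘ₗ (centreModel K φ).subtype) x ∈
      (Subalgebra.center K A).toSubmodule := by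
    rintro ⟨⟨a, t⟩, h1, h2, h3⟩
    change frcenter_map δ u ω (a, t) ∈ Subalgebra.center K A
    rw [Subalgebra.mem_center_iff]
    intro y
    obtain ⟨b, rfl⟩ := h.bij.2 y
    simp only
    rw [Finset.sum_mul, Finset.mul_sum]
    refine Finset.sum_congr rfl fun m _ => ?_
    have e1 : act K φ m a = a := h1 m
    have e2 : (fun l => t (m⁻¹ * l * m)) = t := funext fun l => by
      have := h3 m⁻¹ l
      rwa [inv_inv] at this
    rw [mul_assoc, frcenter_map_u h hω, e1, e2, ← mul_assoc, frcenter_map_δ h, mul_assoc]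
  rw [← Subalgebra.finrank_toSubmodule]
  refine (LinearEquiv.ofBijective (LinearMap.codRestrict _ _ hmem) ⟨?_, ?_⟩).finrank_eq.symm
  · rw [injective_iff_map_eq_zero]
    intro x hx
    exact Subtype.ext (frcenter_map_inj h hω0 x.2.2.1 (congrArg Subtype.val hx))
  · rintro ⟨z, hz⟩
    have hz' : ∀ y, y * z = z * y := (Subalgebra.mem_center_iff (R := K)).1 hz
    obtain ⟨a, ha⟩ := h.bij.2 z
    simp only at ha
    have h1 : ∀ l x, a l * single (φ l x) 1 = single x 1 * a l := by
      intro l x
      have h2 : (fun l => a l * single (φ l x) 1) = fun l => single x 1 * a l := by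
        apply h.bij.1
        have h3 := hz' (δ (single x 1))
        rw [← ha, Finset.mul_sum, Finset.sum_mul] at h3
        simp only [map_mul]
        refine Eq.trans (Finset.sum_congr rfl fun l _ => ?_)
          (h3.symm.trans (Finset.sum_congr rfl fun l _ => (mul_assoc _ _ _).symm))
        rw [mul_assoc, mul_assoc, h.comm, crosspure_act_single]
      exact congrFun h2 l
    have h2 : ∀ l, l ≠ 1 → a l = (a l).coeff 1 • sumD K D := by
      intro l hl
      refine eq_smul_sumD fun y => ?_
      obtain ⟨x, rfl⟩ := (free_bij hfree hl).2 y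
      simp only
      rw [← mul_one (1 : K), ← MonoidAlgebra.single_mul_single, ← mul_assoc, h1,
        mul_comm _ (a l), mul_assoc, MonoidAlgebra.single_mul_single, mul_inv_cancel, mul_one,
        ← MonoidAlgebra.one_def, mul_one]
    let t : E → K := fun l => if l = 1 then 0 else (a l).coeff 1 / ω l
    have ht : t 1 = 0 := if_pos rfl
    have h3 : frcenter_map δ u ω (a 1, t) = z := by
      rw [frcenter_map_eq h, ← ha]
      refine Finset.sum_congr rfl fun l _ => ?_
      by_cases hl : l = 1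
      · rw [hl, ht, zero_mul, zero_smul, add_zero, Pi.single_eq_same]
      · rw [Pi.single_eq_of_ne hl, zero_add, show t l = (a l).coeff 1 / ω l from if_neg hl,
          div_mul_cancel₀ _ (hω0 l), ← h2 l hl]
    have h4 : ∀ m, (act K φ m (a 1), fun l => t (m⁻¹ * l * m)) = (a 1, t) := by
      intro m
      obtain ⟨w, -, hw, -⟩ := h.unit m
      have h5 := frcenter_map_u h hω (a 1) t m
      rw [h3, hz'] at h5
      have h6 := congrArg (· * w) h5
      simp only [mul_assoc, hw, mul_one] at h6
      refine sub_eq_zero.1 (frcenter_map_inj h hω0 ?_ ?_)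
      · simp [ht]
      · rw [map_sub, h3, sub_eq_zero, h6]
        simp only [mul_assoc]
    refine ⟨⟨(a 1, t), fun l => congrArg Prod.fst (h4 l), ht, fun m l => ?_⟩, Subtype.ext h3⟩
    have := congrFun (congrArg Prod.snd (h4 m⁻¹)) l
    simpa using this

end Pool.Agent.Lib.MP_b6945b_al.St
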