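import Pool.Agent.Lib.MP_b6945b_al.St.FrRk1

set_option autoImplicit false

/-!
Relative traces of invariant maps of rank one.
-/

namespace Pool.Agent.Lib.MP_b6945b_al.St

open IsLocalRing
open MonoidAlgebra (single)

section basic

variable {R Γ M M' : Type} [CommRing R] [Group Γ] [Fintype Γ] [AddCommGroup M] [Module R M]
  [AddCommGroup M'] [Module R M'] {ρ : Representation R Γ M} {ρ' : Representation R Γ M'}
  {Pr Pr' : Subgroup Γ → Prop} {S T U : Subgroup Γ}

omit [Fintype Γ] in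
lemma frrk2_equiv {f : M →ₗ[R] R} (hf : ∀ g ∈ S, ∀ m, f (ρ g m) = f m) :
    EquivOn ρ' (ρ.linHom ρ') S (LinearMap.smulRightₗ f) := by
  intro g hg a
  refine LinearMap.ext fun m => ?_
  change f m • ρ' g a = ρ' g (f (ρ g⁻¹ m) • a)
  rw [hf _ (S.inv_mem hg), map_smul]

omit [Fintype Γ] in
lemma frrk2_fixed {f : M →ₗ[R] R} (hf : ∀ g ∈ S, ∀ m, f (ρ g m) = f m) {a : M'}
    (ha : FixedBy ρ' S a) : FixedBy (ρ.linHom ρ') S (f.smulRight a) := by
  intro g hg
  have h := frrk2_equiv (ρ' := ρ') hf g hg a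
  rw [ha g hg] at h
  exact h.symm

lemma frrk2_rtr {f : M →ₗ[R] R} (hf : ∀ g ∈ T, ∀ m, f (ρ g m) = f m) (a : M') :
    f.smulRight (rtr ρ' S T a) = rtr (ρ.linHom ρ') S T (f.smulRight a) :=
  rtr_map (φ := LinearMap.smulRightₗ f) (frrk2_equiv hf) a

lemma frrk2_gen (h : Pr S) (hST : S ≤ T) {f : M →ₗ[R] R} (hf : ∀ g ∈ S, ∀ m, f (ρ g m) = f m)
    {a : M} (ha : FixedBy ρ S a) : rtr (ρ.linHom ρ) S T (f.smulRight a) ∈ rk1span ρ Pr T :=
  Submodule.subset_span ⟨S, f, a, h, hST, hf, ha, rfl⟩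

lemma frrk2_le {W : Submodule R (M →ₗ[R] M)}
    (h : ∀ (S : Subgroup Γ) (f : M →ₗ[R] R) (a : M), Pr S → S ≤ T →
      (∀ g ∈ S, ∀ m, f (ρ g m) = f m) → FixedBy ρ S a →
      rtr (ρ.linHom ρ) S T (f.smulRight a) ∈ W) : rk1span ρ Pr T ≤ W := by
  refine Submodule.span_le.2 ?_
  rintro _ ⟨S, f, a, h1, h2, h3, h4, rfl⟩
  exact h S f a h1 h2 h3 h4

lemma rk1span_le_trSpan : rk1span ρ Pr T ≤ trSpan (ρ.linHom ρ) Pr T := by
  exact frrk2_le fun S f a h1 h2 h3 h4 => rtr_mem_trSpan h1 h2 (frrk2_fixed h3 h4)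

lemma rk1span_mono (h : ∀ S, S ≤ T → Pr S → Pr' S) : rk1span ρ Pr T ≤ rk1span ρ Pr' T := by
  exact frrk2_le fun S f a h1 h2 h3 h4 => frrk2_gen (h S h2 h1) h2 h3 h4

/-- `rtr_self`. -/
lemma smulRight_mem_rk1span (h : Pr T) {f : M →ₗ[R] R} (hf : ∀ g ∈ T, ∀ m, f (ρ g m) = f m)
    {a : M} (ha : FixedBy ρ T a) : f.smulRight a ∈ rk1span ρ Pr T := by
  rw [← rtr_self (frrk2_fixed hf ha)]
  exact frrk2_gen h le_rfl hf ha

/-- `comp_rtr`, `rtr_comp`. -/
lemma rk1span_comp {F : M →ₗ[R] M'} {F' : M' →ₗ[R] M} (hF : EquivOn ρ ρ' T F)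
    (hF' : EquivOn ρ' ρ T F') {Θ : M →ₗ[R] M} (hΘ : Θ ∈ rk1span ρ Pr T) :
    F ∘ₗ Θ ∘ₗ F' ∈ rk1span ρ' Pr T := by
  have key : rk1span ρ Pr T ≤ (rk1span ρ' Pr T).comap
      (LinearMap.llcomp R M' M M' F ∘ₗ LinearMap.lcomp R M F') := by
    refine frrk2_le fun S f a h1 h2 h3 h4 => ?_
    change F ∘ₗ rtr (ρ.linHom ρ) S T (f.smulRight a) ∘ₗ F' ∈ rk1span ρ' Pr T
    rw [rtr_comp hF', comp_rtr hF]
    have e : F ∘ₗ f.smulRight a ∘ₗ F' = (f ∘ₗ F').smulRight (F a) :=
      LinearMap.ext fun m => by simp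
    rw [e]
    refine frrk2_gen h1 h2 (fun g hg m => ?_) (fun g hg => ?_)
    · rw [LinearMap.comp_apply, hF' g (h2 hg), h3 g hg, LinearMap.comp_apply]
    · rw [← hF g (h2 hg), h4 g hg]
  exact key hΘ

lemma rk1span_rtr (hTU : T ≤ U) {Θ : M →ₗ[R] M} (hΘ : Θ ∈ rk1span ρ Pr T) :
    rtr (ρ.linHom ρ) T U Θ ∈ rk1span ρ Pr U := by
  have key : rk1span ρ Pr T ≤ (rk1span ρ Pr U).comap (rtr (ρ.linHom ρ) T U) := by
    refine frrk2_le fun S f a h1 h2 h3 h4 => ?_
    rw [Submodule.mem_comap, rtr_trans h2 hTU (frrk2_fixed h3 h4)]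
    exact frrk2_gen h1 (h2.trans hTU) h3 h4
  exact key hΘ

/-- `f.smulRight (rtr ρ S' S m) = rtr (ρ.linHom ρ) S' S (f.smulRight m)` for `S`-invariant `f`
(`rtr_map` for the map `a ↦ f.smulRight a`), then `rtr_trans`. -/
lemma rk1span_refine (hST : S ≤ T) {f : M →ₗ[R] R} (hf : ∀ g ∈ S, ∀ m, f (ρ g m) = f m) {a : M}
    (ha : a ∈ trSpan ρ Pr S) : rtr (ρ.linHom ρ) S T (f.smulRight a) ∈ rk1span ρ Pr T := by
  have key : trSpan ρ Pr S ≤ (rk1span ρ Pr T).comap
      (rtr (ρ.linHom ρ) S T ∘ₗ LinearMap.smulRightₗ f) := by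
    refine Submodule.span_le.2 ?_
    rintro _ ⟨S', m, h1, h2, h3, rfl⟩
    change rtr (ρ.linHom ρ) S T (f.smulRight (rtr ρ S' S m)) ∈ rk1span ρ Pr T
    have hf' : ∀ g ∈ S', ∀ m, f (ρ g m) = f m := fun g hg => hf g (h2 hg)
    rw [frrk2_rtr hf, rtr_trans h2 hST (frrk2_fixed hf' h3)]
    exact frrk2_gen h1 (h2.trans hST) hf' h3
  exact key ha

/-- If all fixed points of the subgroups that occur are traces from subgroups in `Pr'`, the
stabilisers can be taken in `Pr'`. -/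
lemma rk1span_le_of_fixed (h : ∀ S, Pr S → S ≤ T → ∀ a, FixedBy ρ S a → a ∈ trSpan ρ Pr' S) :
    rk1span ρ Pr T ≤ rk1span ρ Pr' T := by
  exact frrk2_le fun S f a h1 h2 h3 h4 => rk1span_refine h2 h3 (h S h1 h2 a h4)

/-- Span induction, `rtr_map`, `rk1span_rtr`. -/
lemma rk1span_lift (L : (M →ₗ[R] M) →ₗ[R] (M' →ₗ[R] M'))
    (hL : EquivOn (ρ.linHom ρ) (ρ'.linHom ρ') T L)
    (h : ∀ S, Pr S → S ≤ T → ∀ (f : M →ₗ[R] R) (a : M), (∀ g ∈ S, ∀ m, f (ρ g m) = f m) →
      FixedBy ρ S a → L (f.smulRight a) ∈ rk1span ρ' Pr' S)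
    {Θ : M →ₗ[R] M} (hΘ : Θ ∈ rk1span ρ Pr T) : L Θ ∈ rk1span ρ' Pr' T := by
  have key : rk1span ρ Pr T ≤ (rk1span ρ' Pr' T).comap L := by
    refine frrk2_le fun S f a h1 h2 h3 h4 => ?_
    rw [Submodule.mem_comap, rtr_map hL]
    exact rk1span_rtr h2 (h S h1 h2 f a h3 h4)
  exact key hΘ

/-- `rtr_comp_hom` for the representation `ρ.linHom ρ` and the subgroups `S'.map π ≤ T'.map π`. -/
lemma rk1span_of_comp {Γ' : Type} [Group Γ'] [Fintype Γ'] (π : Γ' →* Γ)
    (hπ : Function.Injective π) {Pr₀ : Subgroup Γ' → Prop} {T' : Subgroup Γ'} :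
    rk1span (R := R) (M := M) (ρ.comp π) Pr₀ T' ≤
      rk1span ρ (fun S => ∃ S', Pr₀ S' ∧ S' ≤ T' ∧ S = S'.map π) (T'.map π) := by
  refine frrk2_le fun S f a h1 h2 h3 h4 => ?_
  have hf : ∀ g ∈ S.map π, ∀ m, f (ρ g m) = f m := by
    rintro _ ⟨g, hg, rfl⟩ m
    exact h3 g hg m
  have ha : FixedBy ρ (S.map π) a := by
    rintro _ ⟨g, hg, rfl⟩
    exact h4 g hg
  have e : Representation.linHom (ρ.comp π) (ρ.comp π) = (ρ.linHom ρ).comp π := by
    refine MonoidHom.ext fun g => LinearMap.ext fun θ => ?_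
    simp only [Representation.linHom_apply, MonoidHom.comp_apply, map_inv]
  rw [e, rtr_comp_hom π (Subgroup.map_mono h2) h2 (fun g hg => Subgroup.mem_map_of_mem π hg)
    (fun g _ => Subgroup.mem_map_iff_mem hπ) ?_ (frrk2_fixed hf ha)]
  · exact frrk2_gen ⟨S, h1, h2, rfl⟩ (Subgroup.map_mono h2) hf ha
  · rintro _ ⟨g, hg, rfl⟩
    exact ⟨g, hg, by rw [inv_mul_cancel]; exact Subgroup.one_mem _⟩

/-- If `S` acts trivially on a finite free module every endomorphism is a sum of invariant maps of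
rank one. -/
lemma rtr_mem_rk1span_of_triv [Module.Finite R M] [Module.Free R M] (h : Pr S) (hST : S ≤ T)
    (hS : ∀ m, FixedBy ρ S m) (θ : M →ₗ[R] M) : rtr (ρ.linHom ρ) S T θ ∈ rk1span ρ Pr T := by
  let b := Module.Free.chooseBasis R M
  have e : θ = ∑ i, (b.coord i).smulRight (θ (b i)) := by
    refine LinearMap.ext fun m => ?_
    conv_lhs => rw [← b.sum_repr m]
    simp only [map_sum, map_smul, LinearMap.sum_apply, LinearMap.smulRight_apply,
      Module.Basis.coord_apply]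
  rw [e, map_sum]
  refine Submodule.sum_mem _ fun i _ => frrk2_gen h hST (fun g hg m => ?_) (hS _)
  rw [hS m g hg]

/-- Splitting off the part that factors through the modules `σ l`.  For a generator
`rtr S ⊤ (f.smulRight a)` with `a = ι l c + rtr S₀ S m` take
`r l = rtr (ρ.linHom (σ l)) S ⊤ (f.smulRight c)` (`comp_rtr`) and
`t = rtr (ρ.linHom ρ) S₀ B (f.smulRight m)` (`rtr_trans`); the set of `Θ` with the conclusion is
a submodule. -/
lemma rk1span_split {E : Type} [Fintype E] (σ : E → Representation R Γ M')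
    (ι : E → M' →ₗ[R] M) (hι : ∀ l, EquivOn (σ l) ρ ⊤ (ι l)) (B : Subgroup Γ)
    (h : ∀ S, Pr S → ∀ a, FixedBy ρ S a → ∃ l c S₀ m, FixedBy (σ l) S c ∧ S₀ ≤ S ∧ S₀ ≤ B ∧
      FixedBy ρ S₀ m ∧ a = ι l c + rtr ρ S₀ S m)
    {Θ : M →ₗ[R] M} (hΘ : Θ ∈ rk1span ρ Pr ⊤) :
    ∃ (r : E → M →ₗ[R] M') (t : M →ₗ[R] M), (∀ l, EquivOn ρ (σ l) ⊤ (r l)) ∧ EquivOn ρ ρ B t ∧
      ∀ x, Θ x = ∑ l, ι l (r l x) + rtr (ρ.linHom ρ) B ⊤ t x := by
  classical
  induction hΘ using Submodule.span_induction with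
  | mem Θ hΘ =>
    obtain ⟨S, f, a, h1, h2, h3, h4, rfl⟩ := hΘ
    obtain ⟨l, c, S₀, m, hc, h5, h6, h7, rfl⟩ := h S h1 a h4
    have hf' : ∀ g ∈ S₀, ∀ m, f (ρ g m) = f m := fun g hg => h3 g (h5 hg)
    have hm := frrk2_fixed hf' h7
    refine ⟨Pi.single l (rtr (ρ.linHom (σ l)) S ⊤ (f.smulRight c)),
      rtr (ρ.linHom ρ) S₀ B (f.smulRight m), fun l' => ?_,
      fixedBy_linHom.1 (rtr_fixed h6 hm), fun x => ?_⟩
    · by_cases e : l' = l
      · subst e
        rw [Pi.single_eq_same]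
        exact fixedBy_linHom.1 (rtr_fixed le_top (frrk2_fixed h3 hc))
      · rw [Pi.single_eq_of_ne e]
        intro g _ y
        simp only [LinearMap.zero_apply, map_zero]
    · rw [Finset.sum_eq_single l (fun l' _ e => by
        rw [Pi.single_eq_of_ne e, LinearMap.zero_apply, map_zero])
        (fun e => absurd (Finset.mem_univ l) e), Pi.single_eq_same, rtr_trans h6 le_top hm,
        ← rtr_trans h5 le_top hm, ← frrk2_rtr h3, ← LinearMap.comp_apply (ι l), comp_rtr (hι l),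
        ← LinearMap.add_apply, ← map_add]
      congr 2
      refine LinearMap.ext fun y => ?_
      simp only [LinearMap.smulRight_apply, LinearMap.add_apply, LinearMap.comp_apply, map_smul,
        smul_add]
  | zero =>
    refine ⟨0, 0, fun l g _ y => ?_, fun g _ y => ?_, fun x => ?_⟩ <;> simp
  | add Θ Θ' _ _ ih ih' =>
    obtain ⟨r, t, h1, h2, h3⟩ := ih
    obtain ⟨r', t', h1', h2', h3'⟩ := ih'
    refine ⟨r + r', t + t', fun l g hg y => ?_, fun g hg y => ?_, fun x => ?_⟩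
    · simp only [Pi.add_apply, LinearMap.add_apply, map_add, h1 l g hg, h1' l g hg]
    · simp only [LinearMap.add_apply, map_add, h2 g hg, h2' g hg]
    · simp only [Pi.add_apply, LinearMap.add_apply, map_add, h3, h3', Finset.sum_add_distrib]
      abel
  | smul c Θ _ ih =>
    obtain ⟨r, t, h1, h2, h3⟩ := ih
    refine ⟨c • r, c • t, fun l g hg y => ?_, fun g hg y => ?_, fun x => ?_⟩
    · simp only [Pi.smul_apply, LinearMap.smul_apply, map_smul, h1 l g hg]
    · simp only [LinearMap.smul_apply, map_smul, h2 g hg]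
    · simp only [Pi.smul_apply, LinearMap.smul_apply, map_smul, h3, smul_add, Finset.smul_sum]

end basic

/-- Mackey: `(ρ.linHom ρ) g (f.smulRight a) = (f ∘ ρ g⁻¹).smulRight (ρ g a)`,
`mackey_mem_comm`. -/
lemma rk1span_res {R Γ M : Type} [CommRing R] [CommGroup Γ] [Fintype Γ] [AddCommGroup M]
    [Module R M] {ρ : Representation R Γ M} {Pr : Subgroup Γ → Prop} {T U : Subgroup Γ}
    (hT : T ≤ U) : rk1span ρ Pr U ≤ rk1span ρ (fun S' => ∃ S, Pr S ∧ S' = T ⊓ S) T := by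
  refine frrk2_le fun S f a h1 h2 h3 h4 => ?_
  refine mackey_mem_comm h2 hT (frrk2_fixed h3 h4)
    (rk1span ρ (fun S' => ∃ S, Pr S ∧ S' = T ⊓ S) T).toAddSubgroup fun g _ => ?_
  rw [Submodule.mem_toAddSubgroup]
  have e : (ρ.linHom ρ) g (f.smulRight a) = (f ∘ₗ ρ g⁻¹).smulRight (ρ g a) :=
    LinearMap.ext fun m => by simp [Representation.linHom_apply]
  rw [e]
  refine frrk2_gen ⟨S, h1, rfl⟩ inf_le_left (fun s hs m => ?_) (fun s hs => ?_)
  · rw [LinearMap.comp_apply, LinearMap.comp_apply, ← Module.End.mul_apply, ← map_mul, mul_comm,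
      map_mul, Module.End.mul_apply, h3 s hs.2]
  · rw [← Module.End.mul_apply, ← map_mul, mul_comm, map_mul, Module.End.mul_apply, h4 s hs.2]

/-- The projection of a permutation module onto an invariant set `Z` of basis vectors is the sum
over the orbits in `Z` of `rtr (stabP act y) ⊤ ((coef R y).smulRight (single y 1))`.  One can apply
`perm_fixed_mem` to the vector `∑ y ∈ Z, single y 1` and the equivariant linear map
`single y 1 ↦ (coef R y).smulRight (single y 1)` (`rtr_map`). -/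
lemma perm_mem_rk1span {R Γ Y : Type} [CommRing R] [Group Γ] [Fintype Γ] [Fintype Y]
    (ρ : Representation R Γ (MonoidAlgebra R Y)) (act : Γ →* Equiv.Perm Y)
    (hρ : ∀ g y, ρ g (single y 1) = single (act g y) 1) (Z : Y → Prop)
    (hZ : ∀ g y, Z y → Z (act g y)) (π : MonoidAlgebra R Y →ₗ[R] MonoidAlgebra R Y)
    (h1 : ∀ y, Z y → π (single y 1) = single y 1) (h0 : ∀ y, ¬ Z y → π (single y 1) = 0) :
    π ∈ rk1span ρ (fun S => ∃ y, Z y ∧ S = stabP act y) ⊤ := by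
  classical
  have hext : ∀ {N : Type} [AddCommGroup N] [Module R N] {φ ψ : MonoidAlgebra R Y →ₗ[R] N},
      (∀ y, φ (single y 1) = ψ (single y 1)) → φ = ψ := by
    intro N _ _ φ ψ h
    refine LinearMap.ext fun a => ?_
    rw [eq_sum_single a]
    simp only [map_sum, map_smul, h]
  have hco : ∀ y z : Y, coef R y (single z 1) = if z = y then 1 else 0 := by
    intro y z
    rw [coef_apply, MonoidAlgebra.coeff_single, Finsupp.single_apply]
  have hcoef : ∀ g y, coef R (act g y) ∘ₗ ρ g = coef R y := by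
    intro g y
    refine hext fun z => ?_
    rw [LinearMap.comp_apply, hρ, hco, hco]
    simp only [EmbeddingLike.apply_eq_iff_eq]
  let L : MonoidAlgebra R Y →ₗ[R] (MonoidAlgebra R Y →ₗ[R] MonoidAlgebra R Y) :=
    ∑ y, (coef R y).smulRight ((coef R y).smulRight (single y 1))
  have hL : ∀ y, L (single y 1) = (coef R y).smulRight (single y 1) := by
    intro y
    simp only [L, LinearMap.sum_apply, LinearMap.smulRight_apply, hco, ite_smul, one_smul,
      zero_smul, Finset.sum_ite_eq, Finset.mem_univ, if_true]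
  have hLe : EquivOn ρ (ρ.linHom ρ) ⊤ L := by
    intro g _ a
    have : L ∘ₗ ρ g = (ρ.linHom ρ) g ∘ₗ L := by
      refine hext fun y => ?_
      rw [LinearMap.comp_apply, LinearMap.comp_apply, hρ, hL, hL]
      refine LinearMap.ext fun m => ?_
      rw [Representation.linHom_apply, LinearMap.comp_apply, LinearMap.comp_apply,
        LinearMap.smulRight_apply, LinearMap.smulRight_apply, map_smul, hρ, ← hcoef g y,
        LinearMap.comp_apply, Representation.self_inv_apply]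
    exact LinearMap.congr_fun this a
  have hZ' : ∀ g y, Z (act g y) ↔ Z y := by
    refine fun g y => ⟨fun h => ?_, hZ g y⟩
    have := hZ g⁻¹ _ h
    rwa [← Equiv.Perm.mul_apply, ← map_mul, inv_mul_cancel, map_one, Equiv.Perm.one_apply] at this
  let a : MonoidAlgebra R Y := ∑ y, if Z y then single y 1 else 0
  have ha : FixedBy ρ ⊤ a := by
    intro g _
    simp only [a, map_sum]
    rw [← Equiv.sum_comp (act g) (fun y => if Z y then (single y 1 : MonoidAlgebra R Y) else 0)]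
    refine Finset.sum_congr rfl fun y _ => ?_
    by_cases hy : Z y
    · rw [if_pos hy, if_pos (hZ g y hy), hρ]
    · rw [if_neg hy, if_neg (fun e => hy ((hZ' g y).1 e)), map_zero]
  have hac : ∀ y, a.coeff y ≠ 0 → Z y := by
    intro y hy
    by_contra e
    apply hy
    change coef R y a = 0
    simp only [a, map_sum]
    refine Finset.sum_eq_zero fun z _ => ?_
    by_cases hz : Z z
    · rw [if_pos hz, hco, if_neg]
      rintro rfl
      exact e hz
    · rw [if_neg hz, map_zero]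
  have hπ : π = L a := by
    refine hext fun y => ?_
    simp only [a, map_sum, LinearMap.sum_apply]
    rw [Finset.sum_eq_single y]
    · by_cases hy : Z y
      · rw [if_pos hy, hL, LinearMap.smulRight_apply, hco, if_pos rfl, one_smul, h1 y hy]
      · rw [if_neg hy, map_zero, LinearMap.zero_apply, h0 y hy]
    · intro z _ hz
      by_cases hy : Z z
      · rw [if_pos hy, hL, LinearMap.smulRight_apply, hco, if_neg (Ne.symm hz), zero_smul]
      · rw [if_neg hy, map_zero, LinearMap.zero_apply]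
    · intro e
      exact absurd (Finset.mem_univ y) e
  rw [hπ]
  refine perm_fixed_mem ρ act hρ ha
    ((rk1span ρ (fun S => ∃ y, Z y ∧ S = stabP act y) ⊤).comap L) fun y hy => ?_
  rw [Submodule.mem_comap, rtr_map hLe, hL, top_inf_eq]
  refine frrk2_gen ⟨y, hac y hy, rfl⟩ le_top (fun g hg m => ?_) (fun g hg => ?_)
  · have := LinearMap.congr_fun (hcoef g y) m
    rwa [mem_stabP.1 hg] at this
  · rw [hρ, mem_stabP.1 hg]

end Pool.Agent.Lib.MP_b6945b_al.St
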