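import Pool.Agent.Lib.MP_b6945b_al.St.FrTr
import Pool.Agent.Lib.MP_b6945b_al.St.FrRk2

set_option autoImplicit false

/-!
The corner of a local idempotent.
-/

namespace Pool.Agent.Lib.MP_b6945b_al.St

open IsLocalRing
open MonoidAlgebra (single)

variable {R D A : Type} [CommRing R] [IsDomain R] [ValuationRing R] [CommGroup D] [Fintype D]
  [Ring A] [Algebra R A] [Module.Finite R A] [Module.IsTorsionFree R A] {δ : D →* A}
  {Q : Subgroup D} {J ε : A} {p : ℕ} {Pr : Subgroup (D × D) → Prop}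

omit [Module.Finite R A] [Module.IsTorsionFree R A] in
lemma frcor_cent (h : MinI R δ J ε) (hc : ∀ q ∈ Q, ∀ a, δ q * a = a * δ q) :
    ∀ q ∈ Q, ∀ a, h.cor q * a = a * h.cor q := by
  intro q hq a
  apply Subtype.ext
  change δ q * ε * a.1 = a.1 * (δ q * ε)
  rw [mul_assoc, corner_left h.idem a, ← mul_assoc, ← hc q hq, mul_assoc, corner_right h.idem a]

omit [Module.Finite R A] [Module.IsTorsionFree R A] in
lemma frcor_fixed_val (h : MinI R δ J ε) {S : Subgroup D} {z : h.idem.Corner}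
    (hz : FixedBy (cjI R h.cor) S z) : FixedBy (cjI R δ) S z.1 :=
  bouc_fixed_map h.cval_equiv.1 hz

omit [IsDomain R] [ValuationRing R] [Fintype D] [Module.Finite R A] [Module.IsTorsionFree R A] in
lemma frcor_top {S : Subgroup D} {a : A} (ha : FixedBy (cjI R δ) ⊤ a) : FixedBy (cjI R δ) S a :=
  fun g _ => ha g trivial

omit [Module.IsTorsionFree R A] in
lemma frcor_lg (hs : Std p R D) (h : MinI R δ J ε) {S : Subgroup D} (hlg : LG R δ J S)
    {a : h.idem.Corner} (ha : FixedBy (cjI R h.cor) S a) :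
    ∃ c, a - hatI R h.cor c ∈ trM R h.cor S := by
  obtain ⟨η, hη, -, hJ, hz⟩ := hlg
  obtain ⟨w, hw, hw0, hw1, hw2⟩ := h.exists_inv hs hη hJ
  have ha' := frcor_fixed_val h ha
  obtain ⟨c, hc⟩ := hz (w * a.1) ((fixI R δ S).mul_mem (frcor_top hw) ha')
  refine ⟨c, ?_⟩
  have h1 := trM_mul_right (frcor_top hw) (trM_mul_left (h.fixed S) hc)
  have h2 := brK_map (fun g _ => h.cproj_equiv.1 g trivial) h1
  have hεw : ε * w = w := by rw [← hw0, ← mul_assoc, ← mul_assoc, h.idem.eq]
  have hwε : w * ε = w := by rw [← hw0, mul_assoc, h.idem.eq]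
  have hl := corner_left h.idem a
  have hr := corner_right h.idem a
  have e1 : ε * η * w = ε := by
    conv_lhs => rw [← hεw, ← mul_assoc]
    exact hw2
  have e2 : a.1 * η * w = a.1 := by
    conv_lhs => rw [← hr, mul_assoc _ ε, mul_assoc _ (ε * η), e1]
    exact hr
  have e : cproj R h.idem (ε * (η * (w * a.1) * η - hatI R δ c * η) * w) =
      a - hatI R h.cor c := by
    apply Subtype.ext
    rw [cproj_val]
    change _ = a.1 - (hatI R h.cor c).1
    rw [MinI.cor, hatI_cornerI]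
    have e3 : ε * (η * (w * a.1) * η) * w = a.1 := by
      calc ε * (η * (w * a.1) * η) * w = (ε * η * w) * (a.1 * η * w) := by
            simp only [mul_assoc]
        _ = a.1 := by rw [e1, e2, hl]
    have e4 : ε * (hatI R δ c * η) * w = hatI R δ c * ε := by
      rw [← mul_assoc, ← hatI_comm h.comm, mul_assoc, mul_assoc, ← mul_assoc ε, e1]
    rw [mul_sub, sub_mul, e3, e4, mul_sub, sub_mul, hl, hr, ← mul_assoc, ← hatI_comm h.comm,
      mul_assoc, mul_assoc, h.idem.eq, h.idem.eq]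
  rw [e] at h2
  exact h2

/-- `nak_induct` in the corner with `B = Q` and `P S = range hat ⊔ (⊤.map (rtr Q S))`.  For `S = Q`
use `rtr_self`.  For `S > Q` take `η` from `LG`, `κ = ε η ε` with inverse `w`
(`MinI.exists_inv`); for fixed `z` of the corner apply `LG` to `w z w`-like elements:
`κ y κ = hat c * κ + t` gives `κ y = hat c * ε + t w`, and every fixed `z` is `κ y` with
`y = w z`; `brK_le_of_triv`.  In the second hypothesis `rtr S' S (hat c) = [S : S'] • hat c`. -/
theorem MinI.ls (hs : Std p R D) (h : MinI R δ J ε) (hc : ∀ q ∈ Q, ∀ a, δ q * a = a * δ q)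
    (hlg : ∀ S, Q < S → LG R δ J S) {S : Subgroup D} (hS : Q ≤ S) {z : h.idem.Corner}
    (hz : FixedBy (cjI R h.cor) S z) : ∃ c m, z = hatI R h.cor c + rtr (cjI R h.cor) Q S m := by
  have hQ : ∀ m, FixedBy (cjI R h.cor) Q m := fixedBy_of_cent (frcor_cent h hc)
  have key := nak_induct (ρ := cjI R h.cor) Q
    (fun T => LinearMap.range (hatI R h.cor).toLinearMap ⊔
      LinearMap.range (rtr (cjI R h.cor) Q T)) ?_ ?_ hS hz
  · obtain ⟨_, ⟨c, rfl⟩, _, ⟨m, rfl⟩, e⟩ := Submodule.mem_sup.1 key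
    exact ⟨c, m, e.symm⟩
  · intro T hT a ha
    rcases hT.eq_or_lt with rfl | hlt
    · exact Submodule.mem_sup_left (Submodule.mem_sup_right ⟨a, rtr_self ha⟩)
    · obtain ⟨c, hc'⟩ := frcor_lg hs h (hlg T hlt) ha
      have h1 := brK_le_of_triv hs.prime hs.pR (hs.pD.to_subgroup T) hT hQ hc'
      have e : a = hatI R h.cor c + (a - hatI R h.cor c) := by abel
      rw [e]
      exact Submodule.add_mem_sup (Submodule.mem_sup_left ⟨c, rfl⟩) h1
  · intro T' T hT' hlt a ha _
    obtain ⟨_, ⟨c, rfl⟩, _, ⟨m, rfl⟩, rfl⟩ := Submodule.mem_sup.1 ha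
    refine Submodule.mem_sup_left ?_
    rw [map_add, rtr_trans hT' hlt.le (hQ m)]
    refine Submodule.add_mem_sup ?_ ⟨m, rfl⟩
    rw [AlgHom.toLinearMap_apply, rtr_of_fixed hlt.le (hatI_fixed c T)]
    exact Submodule.smul_of_tower_mem _ _ ⟨c, rfl⟩

omit [Module.Finite R A] [Module.IsTorsionFree R A] in
lemma frcor_pow_sub {S : Subgroup D} {a b : A} (ha : FixedBy (cjI R δ) S a)
    (hb : FixedBy (cjI R δ) S b) (hab : a - b ∈ trM R δ S) (n : ℕ) :
    a ^ n - b ^ n ∈ trM R δ S := by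
  induction n with
  | zero => rw [pow_zero, pow_zero, sub_self]; exact Submodule.zero_mem _
  | succ n ih =>
    have e : a ^ (n + 1) - b ^ (n + 1) = a ^ n * (a - b) + (a ^ n - b ^ n) * b := by
      rw [pow_succ, pow_succ, mul_sub, sub_mul]; abel
    rw [e]
    exact Submodule.add_mem _ (trM_mul_left ((fixI R δ S).pow_mem ha n) hab) (trM_mul_right hb ih)

omit [Module.Finite R A] [Module.IsTorsionFree R A] in
lemma frcor_central (h : MinI R δ J ε) (hsp : SP R δ J) :
    ∃ (ι : Type) (_ : Fintype ι) (x y : ι → A) (c : R), SepI R δ x y ∧ IsUnit c ∧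
      (∀ a, a * ∑ i, x i * ε * y i = (∑ i, x i * ε * y i) * a) ∧
      NilR R ((∑ i, x i * ε * y i) * ε - c • ε) := by
  obtain ⟨ι, _, x, y, hsep, hM, c, N, hc, hN⟩ := hsp
  have hε := h.fixed ⊤
  have hJ : FixedBy (cjI R δ) ⊤ J := by
    have := (fixI R δ ⊤).add_mem (brK_fixed h.sub) hε
    rwa [sub_add_cancel] at this
  have hz := hsep.central hε
  have hzJ := hsep.central hJ
  refine ⟨ι, inferInstance, x, y, c, hsep, hc, hz, ?_⟩
  set z := ∑ i, x i * ε * y i with hzdef
  set zJ := ∑ i, x i * J * y i with hzJdef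
  have hcen : ∀ w : A, (∀ b, b * w = w * b) → ∀ b, b * (w - c • 1) = (w - c • 1) * b := by
    intro w hw b
    rw [mul_sub, sub_mul, hw, mul_smul_comm, smul_mul_assoc, mul_one, one_mul]
  have hfix : ∀ w : A, (∀ b, b * w = w * b) → FixedBy (cjI R δ) ⊤ w :=
    fun w hw => fixedBy_cjI_iff.2 fun u _ => hw _
  have hsub : (zJ - c • 1) - (z - c • 1) ∈ trM R δ ⊤ := by
    have e : (zJ - c • 1) - (z - c • 1) = ∑ i, x i * (J - ε) * y i := by
      rw [sub_sub_sub_cancel_right, hzdef, hzJdef, ← Finset.sum_sub_distrib]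
      exact Finset.sum_congr rfl fun i _ => by rw [mul_sub, sub_mul]
    rw [e]
    exact hM _ h.sub
  have h1 := trM_mul_right hε
    (frcor_pow_sub (hfix _ (hcen _ hzJ)) (hfix _ (hcen _ hz)) hsub N)
  have h2 := trM_mul_right hε hN
  rw [mul_assoc, h.left] at h2
  have h3 : (z - c • 1) ^ N * ε ∈ trM R δ ⊤ := by
    have := Submodule.sub_mem _ h2 h1
    rwa [sub_mul, sub_sub_cancel] at this
  have hcm : Commute (z - c • 1) ε := (hcen _ hz ε).symm
  have h4 := h.nt _ h3
  have e5 : ε * ((z - c • 1) ^ N * ε) * ε = (z - c • 1) ^ N * ε := by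
    rw [← mul_assoc, ← (hcm.pow_left N).eq, mul_assoc, mul_assoc, h.idem.eq, h.idem.eq]
  rw [e5] at h4
  have h5 := h4.mul_right (hcen _ hz _)
  have e6 : (z - c • 1) ^ N * ε * (z - c • 1) = (z * ε - c • ε) ^ (N + 1) := by
    have e7 : z * ε - c • ε = (z - c • 1) * ε := by rw [sub_mul, smul_mul_assoc, one_mul]
    rw [e7, hcm.mul_pow, h.idem.pow_succ_eq, pow_succ, mul_assoc, mul_assoc, hcm.eq]
  rw [e6] at h5
  exact nilR_of_pow h5

omit [Module.IsTorsionFree R A] in
/-- `z = ∑ x i * ε * y i` is central and congruent to `∑ x i * J * y i` modulo `trM`, so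
`(z - c) ^ N * ε ∈ trM`, `(z - c) ε` is nilpotent, `z ε` is a unit of the corner; `SepI.corner`,
`SepI.mul_central`, `corner_inv_comm`. -/
theorem MinI.sep (hs : Std p R D) (h : MinI R δ J ε) (hsp : SP R δ J) :
    ∃ (ι : Type) (_ : Fintype ι) (x y : ι → h.idem.Corner), SepI R h.cor x y ∧
      ∑ i, x i * y i = 1 := by
  obtain ⟨ι, _, x, y, c, hsep, hc, hz, hn⟩ := frcor_central h hsp
  set z := ∑ i, x i * ε * y i with hzdef
  have hey : ε * (z * ε) * ε = z * ε := by
    rw [← mul_assoc, hz ε, mul_assoc, mul_assoc, h.idem.eq, h.idem.eq]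
  obtain ⟨w, -, hw0, hw1, hw2⟩ := exists_inv_corner hs.split ⊤ h.idem.eq Algebra.mem_top
    Algebra.mem_top hey hc hn
  have hW : ∀ a : h.idem.Corner, cmk h.idem w * a = a * cmk h.idem w := by
    intro a
    apply Subtype.ext
    rw [corner_mul, corner_mul, cmk_val, hw0]
    refine (corner_inv_comm hw0 h.idem.eq hw1 hw2 ?_ ?_).symm
    · rw [corner_left, corner_right]
    · rw [← mul_assoc, hz, mul_assoc, mul_assoc, corner_left, corner_right]
  refine ⟨ι, inferInstance, fun i => cmk h.idem w * cmk h.idem (x i), fun i => cmk h.idem (y i),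
    (hsep.corner h.idem h.comm).mul_central hW, ?_⟩
  apply Subtype.ext
  have e : (∑ i, cmk h.idem w * cmk h.idem (x i) * cmk h.idem (y i)).1 =
      ∑ i, w * (ε * (x i * ε * y i) * ε) := by
    refine (map_sum (cval R h.idem) _ _).trans (Finset.sum_congr rfl fun i _ => ?_)
    rw [cval_apply, corner_mul, corner_mul, cmk_val, cmk_val, cmk_val, hw0]
    simp only [mul_assoc]
    rw [← mul_assoc ε ε, h.idem.eq]
  rw [e, ← Finset.mul_sum, ← Finset.sum_mul, ← Finset.mul_sum, ← hzdef, hz ε, mul_assoc z,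
    h.idem.eq, hw1, corner_one]

omit [Module.IsTorsionFree R A] in
/-- The same computation: a central element of the ideal generated by `ε` that is a unit modulo
nilpotent elements on `ε`. -/
theorem MinI.exists_central (h : MinI R δ J ε) (hsp : SP R δ J) :
    ∃ (ι : Type) (_ : Fintype ι) (x y : ι → A) (c : R), IsUnit c ∧
      (∀ a, a * ∑ i, x i * ε * y i = (∑ i, x i * ε * y i) * a) ∧
      NilR R ((∑ i, x i * ε * y i) * ε - c • ε) := by
  obtain ⟨ι, _, x, y, c, -, hc, hz, hn⟩ := frcor_central h hsp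
  exact ⟨ι, inferInstance, x, y, c, hc, hz, hn⟩

omit [Module.IsTorsionFree R A] in
/-- With `w` the inverse of `ε I ε`: `x = w ε I x I ε w` for `x` in the corner; `rk1span_comp`. -/
theorem MinI.pl (hs : Std p R D) (h : MinI R δ J ε) (hpl : PL R δ J Pr) :
    LinearMap.id ∈ rk1span (biI R h.cor) Pr ⊤ := by
  obtain ⟨I, hI, hJ, hΘ⟩ := hpl
  obtain ⟨w, hw, hw0, hw1, hw2⟩ := h.exists_inv hs hI hJ
  have hwc := fixedBy_cjI_iff.1 hw
  have hεw : ε * w = w := by rw [← hw0, ← mul_assoc, ← mul_assoc, h.idem.eq]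
  have hwε : w * ε = w := by rw [← hw0, mul_assoc, h.idem.eq]
  have hF : EquivOn (biI R δ) (biI R h.cor) ⊤ (cproj R h.idem ∘ₗ sandw R w w) := by
    intro g hg m
    rw [LinearMap.comp_apply, LinearMap.comp_apply, ← h.cproj_equiv.2 g hg]
    refine congrArg _ ?_
    rw [sandw_apply, sandw_apply, biI_apply, biI_apply]
    simp only [mul_assoc]
    rw [hwc _ trivial, ← mul_assoc w, ← hwc _ trivial, mul_assoc]
  have key := rk1span_comp hF h.cval_equiv.2 hΘ
  have e : (cproj R h.idem ∘ₗ sandw R w w) ∘ₗ sandw R I I ∘ₗ cval R h.idem = LinearMap.id := by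
    refine LinearMap.ext fun a => ?_
    simp only [LinearMap.comp_apply, sandw_apply, cval_apply, LinearMap.id_apply]
    have e1 : w * I * ε = ε := by
      conv_lhs => rw [← hwε, mul_assoc w, mul_assoc w]
      exact hw1
    have e2 : ε * I * w = ε := by
      conv_lhs => rw [← hεw, ← mul_assoc]
      exact hw2
    have e3 : w * (I * (a.1 * I) * w) = a.1 := by
      calc w * (I * (a.1 * I) * w) = w * (I * ((ε * a.1 * ε) * I) * w) := by
            rw [corner_left, corner_right]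
        _ = (w * I * ε) * a.1 * (ε * I * w) := by simp only [mul_assoc]
        _ = a.1 := by rw [e1, e2, corner_left, corner_right]
    rw [e3, cproj_cval]
  rwa [e] at key

theorem MinI.corI (hs : Std p R D) (h : MinI R δ J ε) (hc : ∀ q ∈ Q, ∀ a, δ q * a = a * δ q)
    (hlg : ∀ S, Q < S → LG R δ J S) (hsp : SP R δ J) (hpl : PL R δ J Pr) :
    CorI R h.cor Q Pr := by
  refine ⟨frcor_cent h hc, fun z hz => ?_, fun z hz => ?_, ?_,
    fun S hS z hz => h.ls hs hc hlg hS hz, h.pl hs hpl, h.sep hs hsp⟩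
  · obtain ⟨c, hc'⟩ := h.loc _ (frcor_fixed_val h hz)
    refine ⟨c, (nilR_corner h.idem).2 ?_⟩
    rw [corner_left, corner_right] at hc'
    exact hc'
  · have h1 := h.nt _ (brK_map h.cval_equiv.1 hz)
    rw [cval_apply, corner_left, corner_right] at h1
    exact (nilR_corner h.idem).2 h1
  · intro h1
    exact h.ne ((inMax_corner h.idem).1 h1)

omit [IsDomain R] [ValuationRing R] [Module.Finite R A] [Module.IsTorsionFree R A] in
lemma frcor_rtr_dg {S : Subgroup D} (hS : Q ≤ S) {m : A} (hm : FixedBy (biI R δ) (dg 1 Q) m) :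
    rtr (cjI R δ) Q S m = rtr (biI R δ) (dg 1 Q) (dg 1 S) m := by
  have e : cjI R δ = (biI R δ).comp ((MonoidHom.id D).prod (MonoidHom.id D)) :=
    MonoidHom.ext fun _ => rfl
  rw [e]
  refine rtr_comp_hom _ (Subgroup.map_mono hS) hS (fun g hg => mem_dg.2 ⟨hg, rfl⟩)
    (fun g _ => ⟨fun h1 => (mem_dg.1 h1).1, fun h1 => mem_dg.2 ⟨h1, rfl⟩⟩) ?_ hm
  intro g hg
  obtain ⟨h1, h2⟩ := mem_dg.1 hg
  refine ⟨g.2, h1, mem_dg.2 ⟨?_, ?_⟩⟩
  · change g.2⁻¹ * g.2 ∈ Q
    rw [inv_mul_cancel]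
    exact Q.one_mem
  · change g.2⁻¹ * g.1 = g.2⁻¹ * g.2
    rw [h2]
    rfl

omit [IsDomain R] [ValuationRing R] [Module.Finite R A] [Module.IsTorsionFree R A] in
lemma frcor_rtr_inl {t : A →ₗ[R] A} (ht : EquivOn (biI R δ) (biI R δ) (Q.prod ⊤) t) :
    rtr ((lI R δ).linHom (lI R δ)) Q ⊤ t = rtr ((biI R δ).linHom (biI R δ)) (Q.prod ⊤) ⊤ t := by
  have e : (lI R δ).linHom (lI R δ) =
      ((biI R δ).linHom (biI R δ)).comp (MonoidHom.inl D D) := by
    refine MonoidHom.ext fun u => LinearMap.ext fun θ => LinearMap.ext fun x => ?_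
    change δ u * θ (δ u⁻¹ * x) = δ u * (θ (δ u⁻¹ * (x * δ 1⁻¹⁻¹)) * δ 1⁻¹)
    rw [inv_one, inv_one, map_one, mul_one, mul_one]
  rw [e]
  refine rtr_comp_hom _ le_top le_top (fun _ _ => trivial)
    (fun g _ => ⟨fun h1 => (Subgroup.mem_prod.1 h1).1,
      fun h1 => Subgroup.mem_prod.2 ⟨h1, Subgroup.mem_top _⟩⟩) ?_ (fixedBy_linHom.2 ht)
  intro g _
  refine ⟨g.1, trivial, Subgroup.mem_prod.2 ⟨?_, trivial⟩⟩
  change g.1⁻¹ * g.1 ∈ Q
  rw [inv_mul_cancel]
  exact Q.one_mem

omit [Module.Finite R A] [Module.IsTorsionFree R A] in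
/-- `rk1span_split` with `E = Unit`, `σ = biI R (MonoidAlgebra.of R D)`, `ι = hatI`,
`B = Q.prod ⊤`, `S₀ = dg 1 Q`; `rtr_comp_hom` along the diagonal `D → D × D` turns
`rtr (cjI R δ) Q S` into `rtr (biI R δ) (dg 1 Q) (dg 1 S)`, and along `MonoidHom.inl` it turns
`rtr (Q.prod ⊤) ⊤ t` into the trace in `HigI`. -/
theorem CorI.nilI (h : CorI R δ Q Pr) (hQ : Q ≠ ⊤)
    (hPr : ∀ S, Pr S → ∃ S', Q ≤ S' ∧ S = dg 1 S') : NilI R δ Q := by
  refine ⟨⟨hQ, h.cent, h.sep, ?_⟩, fun a => h.nt _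
    (rtr_mem_brK (lt_top_iff_ne_top.2 hQ) (fixedBy_of_cent h.cent a)), h.ne⟩
  have hof : ∀ u, hatI R δ (MonoidAlgebra.of R D u) = δ u := fun u => by
    rw [MonoidAlgebra.of_apply, hatI_single, one_smul]
  obtain ⟨r, t, hr, ht, he⟩ := rk1span_split (E := Unit)
    (fun _ => biI R (MonoidAlgebra.of R D)) (fun _ => (hatI R δ).toLinearMap)
    (fun _ g _ m => by
      rw [AlgHom.toLinearMap_apply, AlgHom.toLinearMap_apply, biI_apply, biI_apply, map_mul,
        map_mul, hof, hof])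
    (Q.prod ⊤) (fun S hS a ha => by
      obtain ⟨S', hS', rfl⟩ := hPr S hS
      have ha' : FixedBy (cjI R δ) S' a := fixedBy_cjI_iff.2 (fixedBy_biI_dg.1 ha)
      obtain ⟨c, m, e⟩ := h.ls S' hS' a ha'
      have hm : FixedBy (biI R δ) (dg 1 Q) m := fixedBy_biI_dg.2 fun u hu => h.cent u hu m
      refine ⟨(), c, dg 1 Q, m, fixedBy_biI_dg.2 fun u _ => mul_comm _ _, Subgroup.map_mono hS',
        fun g hg => ?_, hm, ?_⟩
      · obtain ⟨h1, h2⟩ := mem_dg.1 hg
        refine Subgroup.mem_prod.2 ⟨?_, trivial⟩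
        rw [h2]
        exact h1
      · rw [← frcor_rtr_dg hS' hm]
        exact e) h.pl
  refine ⟨r (), t, fun u x => ?_, fun u x => ?_, fun u x => ?_, fun x => ?_⟩
  · have := hr () (u, 1) trivial x
    simpa only [biI_apply, inv_one, map_one, mul_one, MonoidAlgebra.of_apply] using this
  · have := hr () (1, u⁻¹) trivial x
    simpa only [biI_apply, inv_inv, map_one, one_mul, MonoidAlgebra.of_apply] using this
  · have := ht (1, u⁻¹) (Subgroup.mem_prod.2 ⟨Q.one_mem, trivial⟩) x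
    simpa only [biI_apply, inv_inv, map_one, one_mul] using this
  · have := he x
    rw [Fintype.sum_unique, ← frcor_rtr_inl ht] at this
    exact this

section twist

variable {κ : Type} [Fintype κ] [DecidableEq κ]

omit [IsDomain R] [ValuationRing R] [Module.Finite R A] [Module.IsTorsionFree R A]
  [DecidableEq κ] in
lemma frcor_val_mul (he : IsIdempotentElem ε) (x y : Matrix κ κ he.Corner) :
    (cval R he).mapMatrix (x * y) = (cval R he).mapMatrix x * (cval R he).mapMatrix y := by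
  ext a b
  simp only [LinearMap.mapMatrix_apply, Matrix.map_apply, Matrix.mul_apply, map_sum]
  rfl

omit [IsDomain R] [ValuationRing R] [Module.Finite R A] [Module.IsTorsionFree R A] in
lemma frcor_val_left (he : IsIdempotentElem ε) (x : Matrix κ κ he.Corner) :
    Matrix.scalar κ ε * (cval R he).mapMatrix x = (cval R he).mapMatrix x := by
  ext a b
  rw [Matrix.scalar_apply, Matrix.diagonal_mul]
  exact corner_left he _

omit [IsDomain R] [ValuationRing R] [Module.Finite R A] [Module.IsTorsionFree R A] in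
lemma frcor_val_right (he : IsIdempotentElem ε) (x : Matrix κ κ he.Corner) :
    (cval R he).mapMatrix x * Matrix.scalar κ ε = (cval R he).mapMatrix x := by
  ext a b
  rw [Matrix.scalar_apply, Matrix.mul_diagonal]
  exact corner_right he _

omit [IsDomain R] [ValuationRing R] [Module.Finite R A] [Module.IsTorsionFree R A] in
lemma frcor_val_one (he : IsIdempotentElem ε) :
    (cval R he).mapMatrix (1 : Matrix κ κ he.Corner) = Matrix.scalar κ ε := by
  ext a b
  rw [Matrix.scalar_apply, LinearMap.mapMatrix_apply, Matrix.map_apply, Matrix.one_apply,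
    Matrix.diagonal_apply]
  split_ifs <;> rfl

omit [IsDomain R] [ValuationRing R] [Module.Finite R A] [Module.IsTorsionFree R A] in
lemma frcor_val_proj (he : IsIdempotentElem ε) (z : Matrix κ κ A) :
    (cval R he).mapMatrix (z.map (cmk he)) = Matrix.scalar κ ε * z * Matrix.scalar κ ε := by
  ext a b
  rw [Matrix.scalar_apply, Matrix.mul_diagonal, Matrix.diagonal_mul]
  rfl

omit [Module.Finite R A] [Module.IsTorsionFree R A] in
lemma frcor_val_ten (h : MinI R δ J ε) (s : D →* Matrix κ κ R) (u : D) :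
    (cval R h.idem).mapMatrix (tenI s h.cor u) = tenI s δ u * Matrix.scalar κ ε := by
  ext a b
  rw [Matrix.scalar_apply, Matrix.mul_diagonal, tenI_apply, smul_mul_assoc]
  rfl

omit [Module.Finite R A] [Module.IsTorsionFree R A] in
lemma frcor_ten_comm (h : MinI R δ J ε) (s : D →* Matrix κ κ R) (u : D) :
    tenI s δ u * Matrix.scalar κ ε = Matrix.scalar κ ε * tenI s δ u := by
  ext a b
  rw [Matrix.scalar_apply, Matrix.mul_diagonal, Matrix.diagonal_mul, tenI_apply, smul_mul_assoc,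
    mul_smul_comm, h.comm]

omit [Module.Finite R A] [Module.IsTorsionFree R A] in
lemma frcor_val_equiv (h : MinI R δ J ε) (s : D →* Matrix κ κ R) :
    EquivOn (cjI R (tenI s h.cor)) (cjI R (tenI s δ)) ⊤ (cval R h.idem).mapMatrix := by
  intro g _ m
  rw [cjI_apply, cjI_apply, frcor_val_mul, frcor_val_mul, frcor_val_ten, frcor_val_ten,
    frcor_ten_comm h s g⁻¹, ← mul_assoc ((cval R h.idem).mapMatrix m), frcor_val_right, mul_assoc,
    ← mul_assoc (Matrix.scalar κ ε), frcor_val_left]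

omit [Module.Finite R A] [Module.IsTorsionFree R A] in
lemma frcor_val_hat (h : MinI R δ J ε) (s : D →* Matrix κ κ R) (c : MonoidAlgebra R D) :
    (cval R h.idem).mapMatrix (hatI R (tenI s h.cor) c) =
      hatI R (tenI s δ) c * Matrix.scalar κ ε := by
  rw [hatI_apply, hatI_apply, map_sum, Finset.sum_mul]
  exact Finset.sum_congr rfl fun u _ => by rw [map_smul, frcor_val_ten, smul_mul_assoc]

end twist

omit [Module.Finite R A] in
/-- Let `η = j.map val`.  `scalar J - η = scalar (J - ε) + (1 - j).map val`; the map `x ↦ x.map val`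
is equivariant.  `Q` is central in the matrix algebra, and `η z η = η (z.map proj).map val η`;
`inMax_mem_brK`. -/
theorem MinI.lg_of_twist (h : MinI R δ J ε) (hc : ∀ q ∈ Q, ∀ a, δ q * a = a * δ q) {κ : Type}
    [Fintype κ] [DecidableEq κ] {s : D →* Matrix κ κ R} (htriv : ∀ q ∈ Q, s q = 1)
    {j : Matrix κ κ h.idem.Corner} (hj : FixedBy (cjI R (tenI s h.cor)) ⊤ j)
    (h1 : 1 - j ∈ trM R (tenI s h.cor) ⊤)
    (h2 : ∀ x, ∃ c, InMax R (j * x * j - hatI R (tenI s h.cor) c * j)) :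
    LG R (tenI s δ) (Matrix.scalar κ J) Q := by
  have hV := frcor_val_equiv h s
  have hl := frcor_val_left (R := R) h.idem j
  have hr := frcor_val_right (R := R) h.idem j
  have hcent : ∀ q ∈ Q, ∀ a, tenI s δ q * a = a * tenI s δ q := by
    intro q hq a
    have e : tenI s δ q = Matrix.scalar κ (δ q) := by
      rw [(tenI_eq q).1, htriv q hq, Matrix.map_one _ (map_zero _) (map_one _), one_mul]
    rw [e]
    ext b d
    rw [Matrix.scalar_apply, Matrix.mul_diagonal, Matrix.diagonal_mul, hc q hq]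
  refine ⟨(cval R h.idem).mapMatrix j, bouc_fixed_map hV hj, ?_, ?_, fun z _ => ?_⟩
  · conv_lhs => rw [← hl, ← mul_assoc, ← map_mul, h.left, hl, ← hr, mul_assoc, ← map_mul, h.right]
    exact hr
  · have e : Matrix.scalar κ J - (cval R h.idem).mapMatrix j =
        Matrix.scalar κ (J - ε) + (cval R h.idem).mapMatrix (1 - j) := by
      rw [map_sub, map_sub, frcor_val_one]
      abel
    rw [e]
    exact Submodule.add_mem _ (scalar_mem_trM h.sub) (brK_map hV h1)
  · obtain ⟨c, hc'⟩ := h2 (z.map (cmk h.idem))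
    refine ⟨c, inMax_mem_brK ?_ (fixedBy_of_cent hcent _)⟩
    have h3 := idem_inMax_map (cval R h.idem).mapMatrix hc'
    rw [map_sub, frcor_val_mul, frcor_val_mul, frcor_val_mul, frcor_val_proj, frcor_val_hat,
      mul_assoc (hatI R (tenI s δ) c), hl, ← mul_assoc, ← mul_assoc, hr, mul_assoc _ _
        ((cval R h.idem).mapMatrix j), hl] at h3
    exact h3

end Pool.Agent.Lib.MP_b6945b_al.St
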