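import Pool.Agent.Lib.MP_b6945b_al.St.FrRed

set_option autoImplicit false

/-!
Matrix units.
-/

namespace Pool.Agent.Lib.MP_b6945b_al.St

open IsLocalRing

variable {R A κ : Type} [CommRing R] [Ring A] [Algebra R A] [Fintype κ] [DecidableEq κ]

/-- A full system of matrix units. -/
structure MUnits (e : κ → κ → A) : Prop where
  mul : ∀ a b c d, e a b * e c d = if b = c then e a d else 0
  sum : ∑ a, e a a = 1

lemma MUnits.map {B : Type} [Ring B] {e : κ → κ → A} (h : MUnits e) (τ : A →+* B) :
    MUnits fun a b => τ (e a b) := by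
  refine ⟨fun a b c d => ?_, ?_⟩
  · rw [← map_mul, h.mul]
    split_ifs
    · rfl
    · exact map_zero τ
  · rw [← map_sum, h.sum, map_one]

lemma frunits_single (S : Type) [Ring S] : MUnits fun a b : κ => Matrix.single a b (1 : S) := by
  refine ⟨fun a b c d => ?_, Matrix.sum_single_one⟩
  split_ifs with hbc
  · rw [hbc, Matrix.single_mul_single_same, one_mul]
  · exact Matrix.single_mul_single_of_ne _ _ _ _ hbc _

lemma frunits_same {e : κ → κ → A} (h : MUnits e) (a b d : κ) : e a b * e b d = e a d := by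
  rw [h.mul, if_pos rfl]

lemma frunits_theta_mul {e : κ → κ → A} (h : MUnits e) (x y : A) (a b : κ) :
    ∑ d, (∑ c, e c a * x * e d c) * (∑ c, e c d * y * e b c) = ∑ c, e c a * (x * y) * e b c := by
  have h1 : ∀ d, (∑ c, e c a * x * e d c) * (∑ c, e c d * y * e b c) =
      ∑ c, e c a * x * e d d * y * e b c := by
    intro d
    rw [Finset.sum_mul]
    refine Finset.sum_congr rfl fun c _ => ?_
    rw [Finset.mul_sum, Finset.sum_eq_single c]
    · rw [← frunits_same h d c d]
      simp only [mul_assoc]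
    · intro c' _ hc
      have h2 : e d c * e c' d = 0 := by rw [h.mul, if_neg (Ne.symm hc)]
      calc _ = e c a * x * (e d c * e c' d) * y * e b c' := by simp only [mul_assoc]
        _ = 0 := by rw [h2, mul_zero, zero_mul, zero_mul]
    · intro hc
      exact absurd (Finset.mem_univ c) hc
  simp only [h1]
  rw [Finset.sum_comm]
  refine Finset.sum_congr rfl fun c _ => ?_
  rw [← Finset.sum_mul, ← Finset.sum_mul, ← Finset.mul_sum, h.sum, mul_one, mul_assoc (e c a)]

lemma frunits_theta_central {e : κ → κ → A} (h : MUnits e) {z : A} (hz : ∀ x, x * z = z * x)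
    (a a' b' b : κ) : ∑ c, e c a * (z * e a' b') * e b c = if a = a' ∧ b' = b then z else 0 := by
  have h1 : ∀ c, e c a * (z * e a' b') * e b c = if a = a' ∧ b' = b then z * e c c else 0 := by
    intro c
    rw [← mul_assoc, hz, mul_assoc z, mul_assoc z, h.mul]
    by_cases ha : a = a'
    · rw [if_pos ha, h.mul]
      by_cases hb : b' = b
      · rw [if_pos hb, if_pos ⟨ha, hb⟩]
      · rw [if_neg hb, if_neg fun k => hb k.2, mul_zero]
    · rw [if_neg ha, if_neg fun k => ha k.1, zero_mul, mul_zero]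
  simp only [h1]
  split_ifs
  · rw [← Finset.mul_sum, h.sum, mul_one]
  · exact Finset.sum_const_zero

lemma frunits_theta_scalar {e : κ → κ → A} (h : MUnits e) {z : A} (hz : ∀ x, x * z = z * x)
    (a b : κ) : ∑ c, e c a * z * e b c = if a = b then z else 0 := by
  have h1 : ∀ c, e c a * z * e b c = if a = b then z * e c c else 0 := by
    intro c
    rw [hz, mul_assoc, h.mul]
    split_ifs
    · rfl
    · exact mul_zero z
  simp only [h1]
  split_ifs
  · rw [← Finset.mul_sum, h.sum, mul_one]
  · exact Finset.sum_const_zero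

lemma frunits_theta_inv {e : κ → κ → A} (h : MUnits e) (x : A) :
    ∑ a, ∑ b, (∑ c, e c a * x * e b c) * e a b = x := by
  have h1 : ∀ a b, (∑ c, e c a * x * e b c) * e a b = e a a * x * e b b := by
    intro a b
    rw [Finset.sum_mul, Finset.sum_eq_single a]
    · rw [mul_assoc, frunits_same h]
    · intro c _ hc
      rw [mul_assoc, h.mul, if_neg hc, mul_zero]
    · intro hc
      exact absurd (Finset.mem_univ a) hc
  simp only [h1]
  simp only [← Finset.mul_sum, h.sum, mul_one]
  rw [← Finset.sum_mul, h.sum, one_mul]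

/-- If `e a₀ a₀ * y * e a₀ a₀ = z * e a₀ a₀` for `y = e a₀ a * x * e b a₀` then
`∑ c, e c a * x * e b c = z`.  The inverse map is `m ↦ ∑ a b, m a b * e a b`. -/
lemma MUnits.exists_equiv {e : κ → κ → A} (h : MUnits e) (a₀ : κ)
    (hc : ∀ x, ∃ z : Subalgebra.center R A, e a₀ a₀ * x * e a₀ a₀ = z * e a₀ a₀) :
    ∃ Θ : A ≃ₐ[R] Matrix κ κ (Subalgebra.center R A),
      (∀ x a b, (Θ x a b : A) = ∑ c, e c a * x * e b c) ∧
      ∀ ζ : Subalgebra.center R A, Θ ζ = Matrix.scalar κ ζ := by
  have hcen : ∀ x a b, ∑ c, e c a * x * e b c ∈ Subalgebra.center R A := by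
    intro x a b
    obtain ⟨z, hz⟩ := hc (e a₀ a * x * e b a₀)
    have hz' : ∀ y, y * (z : A) = z * y := Subalgebra.mem_center_iff.1 z.2
    have h1 : ∀ c, e c a * x * e b c = z * e c c := by
      intro c
      calc e c a * x * e b c
          = e c a₀ * (e a₀ a₀ * (e a₀ a * x * e b a₀) * e a₀ a₀) * e a₀ c := by
            simp only [← mul_assoc, frunits_same h]
            simp only [mul_assoc, frunits_same h]
        _ = z * e c c := by
            rw [hz, ← mul_assoc, hz', mul_assoc, mul_assoc, frunits_same h, frunits_same h]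
    simp only [h1]
    rw [← Finset.mul_sum, h.sum, mul_one]
    exact z.2
  let L : A →ₗ[R] Matrix κ κ (Subalgebra.center R A) :=
    { toFun := fun x => Matrix.of fun a b => ⟨_, hcen x a b⟩
      map_add' := fun x y => by
        ext a b
        simp [mul_add, add_mul, Finset.sum_add_distrib]
      map_smul' := fun r x => by
        ext a b
        simp [Finset.smul_sum] }
  have hL : ∀ x a b, (L x a b : A) = ∑ c, e c a * x * e b c := fun _ _ _ => rfl
  have hsc : ∀ ζ : Subalgebra.center R A, L ζ = Matrix.scalar κ ζ := by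
    intro ζ
    ext a b
    rw [hL, frunits_theta_scalar h (Subalgebra.mem_center_iff.1 ζ.2), Matrix.scalar_apply,
      Matrix.diagonal_apply]
    split_ifs <;> rfl
  have h1 : L 1 = 1 := by simpa using hsc 1
  have hm : ∀ x y, L (x * y) = L x * L y := by
    intro x y
    ext a b
    rw [hL, Matrix.mul_apply, ← frunits_theta_mul h, AddSubmonoidClass.coe_finsetSum]
    rfl
  have hb : Function.Bijective (AlgHom.ofLinearMap L h1 hm) := by
    refine Function.bijective_iff_has_inverse.2 ⟨fun m => ∑ a, ∑ b, (m a b : A) * e a b,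
      fun x => frunits_theta_inv h x, fun m => ?_⟩
    ext a b
    change (L _ a b : A) = _
    have h2 : ∀ a' b', (L ((m a' b' : A) * e a' b') a b : A) =
        if a = a' ∧ b' = b then (m a' b' : A) else 0 := fun a' b' =>
      frunits_theta_central h (Subalgebra.mem_center_iff.1 (m a' b').2) a a' b' b
    simp only [map_sum, Matrix.sum_apply, AddSubmonoidClass.coe_finsetSum, h2]
    rw [Finset.sum_eq_single a, Finset.sum_eq_single b] <;> simp +contextual [eq_comm]
  exact ⟨AlgEquiv.ofBijective _ hb, hL, hsc⟩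

/-- Skolem-Noether.  Let `f = Ξ (single a₀ a₀ 1)`; then `f M f = R f`, and some entry `f a b` is a
unit since `1 = ∑ c, Ξ (single c a₀ 1) * f * Ξ (single a₀ c 1)`.  From `f * single b a 1 * f = c • f`
one gets `c = f a b`, so `f = w w'` with `w` column `b` of `f` and `w'` row `a` divided by
`f a b`, and `w' w = 1`.  The columns of `v` are `Ξ (single c a₀ 1) w`, the rows of `v'` are
`w' Ξ (single a₀ c 1)`. -/
lemma exists_conj_of_surjective [IsLocalRing R] {Z κ' : Type} [CommRing Z] [Fintype κ']
    [DecidableEq κ'] [Nonempty κ'] (Ξ : Matrix κ κ Z →+* Matrix κ' κ' R)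
    (hΞ : Function.Surjective Ξ) :
    ∃ (ω : Z →+* R) (v : Matrix κ' κ R) (v' : Matrix κ κ' R), v * v' = 1 ∧ v' * v = 1 ∧
      (∀ z, Ξ (Matrix.scalar κ z) = ω z • 1) ∧ ∀ x, Ξ x = v * x.map ω * v' := by
  obtain ⟨b₀⟩ := ‹Nonempty κ'›
  have hE : MUnits fun a b : κ => Ξ (Matrix.single a b 1) := (frunits_single Z).map Ξ
  have hsc : ∀ z, Ξ (Matrix.scalar κ z) = Ξ (Matrix.scalar κ z) b₀ b₀ • (1 : Matrix κ' κ' R) := by
    intro z
    obtain ⟨r, hr⟩ : Ξ (Matrix.scalar κ z) ∈ Set.range (Matrix.scalar κ') := by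
      refine Matrix.mem_range_scalar_iff_commute_single'.2 fun i j => ?_
      obtain ⟨x, hx⟩ := hΞ (Matrix.single i j 1)
      rw [← hx]
      exact (Matrix.scalar_commute z (fun r' => Commute.all _ _) x).symm.map Ξ
    rw [← hr, Matrix.scalar_apply, Matrix.diagonal_apply_eq, Matrix.smul_one_eq_diagonal]
  let ω : Z →+* R :=
    { toFun := fun z => Ξ (Matrix.scalar κ z) b₀ b₀
      map_one' := by simp
      map_mul' := fun z z' => by
        rw [map_mul, map_mul, hsc z, smul_mul_assoc, one_mul]
        simp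
      map_zero' := by simp
      map_add' := fun z z' => by rw [map_add, map_add, Matrix.add_apply] }
  have hω : ∀ z, Ξ (Matrix.scalar κ z) = ω z • 1 := hsc
  have hsing : ∀ c d z, Ξ (Matrix.single c d z) = ω z • Ξ (Matrix.single c d 1) := by
    intro c d z
    have h1 : Matrix.single c d z = Matrix.scalar κ z * Matrix.single c d 1 := by
      rw [Matrix.scalar_apply, ← Matrix.smul_eq_diagonal_mul, Matrix.smul_single, smul_eq_mul,
        mul_one]
    rw [h1, map_mul, hω, smul_mul_assoc, one_mul]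
  have hunit : ∃ a₀ a b, IsUnit (Ξ (Matrix.single a₀ a₀ 1) a b) := by
    by_contra hcon
    push Not at hcon
    have h1 : (∑ c, Ξ (Matrix.single c c 1)) b₀ b₀ ∈ maximalIdeal R := by
      rw [Matrix.sum_apply]
      exact Ideal.sum_mem _ fun c _ => (mem_maximalIdeal _).2 (hcon c b₀ b₀)
    rw [hE.sum, Matrix.one_apply_eq] at h1
    exact (mem_maximalIdeal _).1 h1 isUnit_one
  obtain ⟨a₀, a, b, u, hu⟩ := hunit
  obtain ⟨x, hx⟩ := hΞ (Matrix.single b a 1)
  have key : ∀ c d i j, Ξ (Matrix.single c a₀ 1) i b * Ξ (Matrix.single a₀ d 1) a j =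
      ω (x a₀ a₀) * Ξ (Matrix.single c d 1) i j := by
    intro c d i j
    have h1 : Ξ (Matrix.single c a₀ 1) * Matrix.single b a 1 * Ξ (Matrix.single a₀ d 1) =
        ω (x a₀ a₀) • Ξ (Matrix.single c d 1) := by
      rw [← hx, ← map_mul, ← map_mul, Matrix.single_mul_mul_single, one_mul, mul_one, hsing]
    have h2 := congrFun (congrFun h1 i) j
    rw [Matrix.smul_apply, smul_eq_mul, Matrix.mul_apply, Finset.sum_eq_single a,
      Matrix.mul_single_apply_same, mul_one] at h2
    · exact h2
    · intro k _ hk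
      rw [Matrix.mul_single_apply_of_ne _ _ _ _ _ hk, zero_mul]
    · intro hk
      exact absurd (Finset.mem_univ a) hk
  have hxu : ω (x a₀ a₀) = u := by
    have h1 := key a₀ a₀ a b
    rw [← hu] at h1
    exact (u.isUnit.mul_right_cancel h1).symm
  have key2 : ∀ c d i j, Ξ (Matrix.single c a₀ 1) i b * (↑u⁻¹ * Ξ (Matrix.single a₀ d 1) a j) =
      Ξ (Matrix.single c d 1) i j := by
    intro c d i j
    rw [mul_left_comm, key, hxu, Units.inv_mul_cancel_left]
  refine ⟨ω, Matrix.of fun i c => Ξ (Matrix.single c a₀ 1) i b,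
    Matrix.of fun d j => ↑u⁻¹ * Ξ (Matrix.single a₀ d 1) a j, ?_, ?_, hω, fun y => ?_⟩
  · ext i j
    rw [← hE.sum, Matrix.mul_apply, Matrix.sum_apply]
    exact Finset.sum_congr rfl fun c _ => key2 c c i j
  · ext d c
    have h1 := congrFun (congrFun (hE.mul a₀ d c a₀) a) b
    rw [Matrix.mul_apply] at h1
    simp only [Matrix.mul_apply, Matrix.of_apply, mul_assoc]
    rw [← Finset.mul_sum, h1, Matrix.one_apply]
    split_ifs
    · rw [← hu, Units.inv_mul]
    · rw [Matrix.zero_apply, mul_zero]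
  · ext i j
    conv_lhs => rw [Matrix.matrix_eq_sum_single y]
    simp only [map_sum, Matrix.sum_apply, Matrix.mul_apply, Matrix.of_apply, Matrix.map_apply,
      Finset.sum_mul]
    rw [Finset.sum_comm]
    refine Finset.sum_congr rfl fun d _ => Finset.sum_congr rfl fun c _ => ?_
    rw [hsing, Matrix.smul_apply, smul_eq_mul, ← key2]
    ring

variable [IsLocalRing R] [Module.Finite R A]

/-- Lift `single a₀ a₀ 1` to an idempotent `e` (`exists_idem_lift`), `single a a₀ 1` to
`x a ∈ A e`, `single a₀ a 1` to `y a ∈ e A`.  `σ = ∑ x a * y a` maps to `1`, so it is a unit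
(`nilR_of_central`); replace `x a` by `σ⁻¹ * x a`.  The matrix `F a b = δ a b e - y a * x b` is
idempotent with entries in the kernel, so it is nilpotent modulo `𝔪` in `Matrix κ κ A`
(`nilR_of_central` with scalar matrices), so zero.  Put `e a b = x a * y b`. -/
lemma exists_mUnits (hR : MonicSplit R) {k : Type} [Field k] (π : A →+* Matrix κ κ k)
    (hπ : Function.Surjective π) (h0 : ∀ x, InMax R x → π x = 0) {ι : Type} [Fintype ι]
    (c : ι → A) (hc : ∀ i a, c i * a = a * c i) (hn : ∀ i, NilR R (c i))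
    (hker : ∀ x, π x = 0 → ∃ y : ι → A, InMax R (x - ∑ i, c i * y i)) (a₀ : κ) :
    ∃ e : κ → κ → A, MUnits e ∧ ∀ a b, π (e a b) = Matrix.single a b 1 := by
  have hE : MUnits fun a b : κ => Matrix.single a b (1 : k) := frunits_single k
  obtain ⟨y₀, hy₀⟩ := hπ (Matrix.single a₀ a₀ 1)
  obtain ⟨e, -, he, hπe⟩ := exists_idem_lift hR π h0 (y := y₀) (by
    rw [hy₀]; exact frunits_same hE a₀ a₀ a₀)
  rw [hy₀] at hπe
  choose x' hx' using fun a => hπ (Matrix.single a a₀ 1)
  choose y' hy' using fun a => hπ (Matrix.single a₀ a 1)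
  have hπx : ∀ a, π (x' a * e) = Matrix.single a a₀ 1 := fun a => by
    rw [map_mul, hx', hπe]; exact frunits_same hE a a₀ a₀
  have hπy : ∀ a, π (e * y' a) = Matrix.single a₀ a 1 := fun a => by
    rw [map_mul, hy', hπe]; exact frunits_same hE a₀ a₀ a
  have hσ : π (∑ a, x' a * e * (e * y' a)) = 1 := by
    rw [map_sum, ← hE.sum]
    refine Finset.sum_congr rfl fun a _ => ?_
    rw [map_mul, hπx, hπy]
    exact frunits_same hE a a₀ a
  obtain ⟨u, hu⟩ : IsUnit (∑ a, x' a * e * (e * y' a)) := by
    obtain ⟨w, hw⟩ := hker (1 - ∑ a, x' a * e * (e * y' a)) (by rw [map_sub, map_one, hσ, sub_self])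
    have h1 := nilR_of_central Finset.univ c w hc hn hw
    rw [sub_add_cancel] at h1
    have h2 := h1.isUnit_one_sub
    rwa [sub_sub_cancel] at h2
  have hπu : π ↑u⁻¹ = 1 := by
    rw [← mul_one (π _), ← hσ, ← hu, ← map_mul, Units.inv_mul, map_one, hu, hσ]
  obtain ⟨X, hX⟩ : ∃ X : κ → A, X = fun a => ↑u⁻¹ * (x' a * e) := ⟨_, rfl⟩
  obtain ⟨Y, hY⟩ : ∃ Y : κ → A, Y = fun a => e * y' a := ⟨_, rfl⟩
  have hXe : ∀ a, X a * e = X a := fun a => by rw [hX]; simp only [mul_assoc, he.eq]
  have heY : ∀ a, e * Y a = Y a := fun a => by rw [hY]; simp only [← mul_assoc, he.eq]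
  have hπX : ∀ a, π (X a) = Matrix.single a a₀ 1 := fun a => by
    rw [hX, map_mul, hπu, one_mul, hπx]
  have hπY : ∀ a, π (Y a) = Matrix.single a₀ a 1 := fun a => by rw [hY, hπy]
  have hsum : ∑ a, X a * Y a = 1 := by
    rw [hX, hY, ← Units.inv_mul u, hu, Finset.mul_sum]
    exact Finset.sum_congr rfl fun a _ => mul_assoc _ _ _
  obtain ⟨F, hF⟩ : ∃ F : Matrix κ κ A,
      F = Matrix.scalar κ e - Matrix.of fun a b => Y a * X b := ⟨_, rfl⟩
  have hFa : ∀ a b, F a b = (if a = b then e else 0) - Y a * X b := fun a b => by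
    rw [hF, Matrix.sub_apply, Matrix.scalar_apply, Matrix.diagonal_apply, Matrix.of_apply]
  have hFF : F * F = F := by
    have h1 : Matrix.scalar κ e * Matrix.scalar κ e = Matrix.scalar κ e := by rw [← map_mul, he.eq]
    have h2 : Matrix.scalar κ e * (Matrix.of fun a b => Y a * X b) =
        Matrix.of fun a b => Y a * X b := by
      ext a b
      rw [Matrix.scalar_apply, Matrix.diagonal_mul, Matrix.of_apply, ← mul_assoc, heY]
    have h3 : (Matrix.of fun a b => Y a * X b) * Matrix.scalar κ e =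
        Matrix.of fun a b => Y a * X b := by
      ext a b
      rw [Matrix.scalar_apply, Matrix.mul_diagonal, Matrix.of_apply, mul_assoc, hXe]
    have h4 : (Matrix.of fun a b => Y a * X b) * (Matrix.of fun a b => Y a * X b) =
        Matrix.of fun a b => Y a * X b := by
      ext a b
      simp only [Matrix.mul_apply, Matrix.of_apply]
      calc ∑ d, Y a * X d * (Y d * X b) = Y a * (∑ d, X d * Y d) * X b := by
            rw [Finset.mul_sum, Finset.sum_mul]
            exact Finset.sum_congr rfl fun d _ => by simp only [mul_assoc]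
        _ = _ := by rw [hsum, mul_one]
    rw [hF, sub_mul, mul_sub, mul_sub, h1, h2, h3, h4, sub_self, sub_zero]
  have hFk : ∀ a b, π (F a b) = 0 := fun a b => by
    rw [hFa, map_sub, map_mul, hπX, hπY, hE.mul]
    split_ifs
    · rw [hπe, sub_self]
    · rw [map_zero, sub_self]
  choose w hw using fun a b => hker _ (hFk a b)
  have hF0 : F = 0 := by
    have : Module.Finite R (Matrix κ κ A) := inferInstanceAs (Module.Finite R (κ → κ → A))
    have hm : InMax R (F - ∑ i, Matrix.scalar κ (c i) * Matrix.of fun a b => w a b i) := by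
      rw [Matrix.matrix_eq_sum_single (F - _)]
      refine Submodule.sum_mem _ fun a _ => Submodule.sum_mem _ fun b _ => ?_
      refine idem_inMax_map (M := A) (N := Matrix κ κ A) (Matrix.singleLinearMap R a b) ?_
      have h1 := hw a b
      simpa [Matrix.sum_apply, Matrix.diagonal_mul] using h1
    have h1 := nilR_of_central Finset.univ (fun i => Matrix.scalar κ (c i))
      (fun i => Matrix.of fun a b => w a b i)
      (fun i m => (Matrix.scalar_commute (c i) (fun r => hc i r) m).eq) (fun i => by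
        obtain ⟨n, h1⟩ := hn i
        refine ⟨n, ?_⟩
        rw [← map_pow]
        exact idem_inMax_map (Matrix.scalarAlgHom κ R).toLinearMap h1) hm
    rw [sub_add_cancel] at h1
    have h2 : F * (1 - F) = 0 := by rw [mul_sub, mul_one, hFF, sub_self]
    exact h1.isUnit_one_sub.mul_left_eq_zero.1 h2
  have hYX : ∀ a b, Y a * X b = if a = b then e else 0 := fun a b => by
    have h1 := hFa a b
    rw [hF0, Matrix.zero_apply] at h1
    exact (sub_eq_zero.1 h1.symm).symm
  refine ⟨fun a b => X a * Y b, ⟨fun a b c d => ?_, hsum⟩, fun a b => ?_⟩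
  · rw [mul_assoc, ← mul_assoc (Y b), hYX]
    split_ifs
    · rw [heY]
    · rw [zero_mul, mul_zero]
  · rw [map_mul, hπX, hπY]
    exact frunits_same hE a a₀ b

/-- `le_of_central` with `N = f A f` (the range of `sandw R f f`), `P = Z(A) f`. -/
lemma corner_central {f : A} (hf : f * f = f) {ι : Type} [Fintype ι]
    (c : ι → A) (hc : ∀ i a, c i * a = a * c i) (hn : ∀ i, NilR R (c i))
    (h : ∀ x, ∃ (r : R) (y : ι → A), InMax R (f * x * f - r • f - ∑ i, c i * y i)) (x : A) :
    ∃ z : Subalgebra.center R A, f * x * f = z * f := by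
  have hsw : ∀ z : A, InMax R z → f * (z * f) ∈ maximalIdeal R • LinearMap.range (sandw R f f) := by
    intro z hz
    rw [LinearMap.range_eq_map, ← Submodule.map_smul'']
    exact Submodule.mem_map_of_mem hz
  have hff : ∀ a, f * (f * (a * f) * f) = f * (a * f) := fun a => by
    rw [← mul_assoc, ← mul_assoc, hf, mul_assoc, mul_assoc, hf]
  have hcf : ∀ i a, c i * (f * (a * f)) = f * (c i * a * f) := fun i a => by
    rw [← mul_assoc, hc i f, mul_assoc, mul_assoc]
  have key : LinearMap.range (sandw R f f) ≤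
      (Subalgebra.toSubmodule (Subalgebra.center R A)).map (LinearMap.mulRight R f) := by
    refine le_of_central c hc hn _ _ ?_ ?_ ?_ ?_ ?_
    · rw [LinearMap.range_eq_map]
      exact Module.Finite.fg_top.map _
    · rintro _ ⟨a, rfl⟩ ha
      have h1 := hsw _ ha
      rwa [sandw_apply, hff] at h1
    · rintro i _ ⟨a, rfl⟩
      exact ⟨c i * a, (hcf i a).symm⟩
    · rintro i _ ⟨z, hz, rfl⟩
      refine ⟨c i * z, Subalgebra.mul_mem _ ?_ hz, mul_assoc _ _ _⟩
      exact Subalgebra.mem_center_iff.2 fun b => (hc i b).symm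
    · rintro _ ⟨a, rfl⟩
      obtain ⟨r, y, hy⟩ := h a
      refine ⟨fun i => sandw R f f (y i), fun i => ⟨_, rfl⟩, ?_⟩
      have h1 := hsw _ hy
      have h2 : sandw R f f a - ∑ i, c i * sandw R f f (y i) =
          r • f + f * ((f * a * f - r • f - ∑ i, c i * y i) * f) := by
        simp only [sandw_apply, hcf, sub_mul, mul_sub, Finset.sum_mul, Finset.mul_sum,
          smul_mul_assoc, mul_smul_comm, hf, mul_assoc f a, hff]
        abel
      rw [h2]
      refine Submodule.add_mem_sup ⟨algebraMap R A r, Subalgebra.algebraMap_mem _ r, ?_⟩ h1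
      rw [LinearMap.mulRight_apply, Algebra.smul_def]
  obtain ⟨z, hz, e⟩ := key ⟨x, rfl⟩
  exact ⟨⟨z, hz⟩, by rw [mul_assoc]; exact e.symm⟩

end Pool.Agent.Lib.MP_b6945b_al.St
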