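import Pool.Agent.Lib.MP_b6945b_al.St.FrK5
import Pool.Agent.Lib.MP_b6945b_al.St.FrUnits

set_option autoImplicit false

/-!
The structure of local interior algebras over a valuation ring.
-/

namespace Pool.Agent.Lib.MP_b6945b_al.St

open IsLocalRing
open MonoidAlgebra (single)

section twist

variable {R D A κ κ' : Type} [CommRing R] [CommGroup D] [Ring A] [Algebra R A] [Fintype κ]
  [DecidableEq κ] [Fintype κ'] [DecidableEq κ'] {δ : D →* A}

lemma Canon.equiv {A' : Type} [Ring A'] [Algebra R A'] {δ' : D →* A'} {ψ : MulAut D}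
    (σ : A ≃ₐ[R] A') (hσ : ∀ u, σ (δ u) = δ' (ψ u)) {s : D →* Matrix κ κ R} (h : Canon δ' s) :
    Canon δ (s.comp ψ.toMonoidHom) := by
  obtain ⟨ρ, h1, h2, h3⟩ := h
  refine ⟨ρ.comp σ.toAlgHom, h1.comp σ.surjective, fun u => ?_, fun u => h3 _⟩
  change ρ (σ (δ u)) = s (ψ u)
  rw [hσ, h2]

lemma TwIso.dual {ψ : MulAut D} {s : D →* Matrix κ κ R} {s' : D →* Matrix κ' κ' R}
    (h : TwIso ψ s s') : TwIso ψ (dualS s) (dualS s') := by
  obtain ⟨v, v', h1, h2, h3⟩ := h
  refine ⟨v'.transpose, v.transpose, ?_, ?_, fun u => ?_⟩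
  · rw [← Matrix.transpose_mul, h1, Matrix.transpose_one]
  · rw [← Matrix.transpose_mul, h2, Matrix.transpose_one]
  · rw [dualS_apply, dualS_apply, ← Matrix.transpose_mul, ← Matrix.transpose_mul, ← map_inv ψ]
    congr 1
    calc s u⁻¹ * v' = v' * (v * s u⁻¹) * v' := by rw [← Matrix.mul_assoc, h2, Matrix.one_mul]
      _ = v' * s' (ψ u⁻¹) := by
        rw [h3, Matrix.mul_assoc, Matrix.mul_assoc, h1, Matrix.mul_one]

lemma twIso_comp_iff {ψ : MulAut D} {s : D →* Matrix κ κ R} {s' : D →* Matrix κ' κ' R} :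
    TwIso 1 s (s'.comp ψ.toMonoidHom) ↔ TwIso ψ s s' := by
  exact Iff.rfl

end twist

variable {R D A : Type} [CommRing R] [IsDomain R] [ValuationRing R] [CommGroup D] [Fintype D]
  [Ring A] [Algebra R A] [Module.Finite R A] [Module.IsTorsionFree R A] {δ : D →* A}
  {Q : Subgroup D} {p : ℕ}

lemma center_finite : Module.Finite R (Subalgebra.center R A) := by
  let f : A →ₗ[R] (A → A) :=
    LinearMap.pi fun a => LinearMap.mulLeft R a - LinearMap.mulRight R a
  have hk : LinearMap.ker f = Subalgebra.toSubmodule (Subalgebra.center R A) := by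
    ext x
    rw [LinearMap.mem_ker, Subalgebra.mem_toSubmodule, Subalgebra.mem_center_iff, funext_iff]
    refine forall_congr' fun a => ?_
    exact sub_eq_zero
  have h := fg_ker f
  rw [hk] at h
  exact Module.Finite.iff_fg.2 h

omit [Fintype D] in
/-- The `n`-th power map of a `p`-group is an automorphism. -/
lemma frlift_root {R' : Type} [CommRing R'] [IsLocalRing R'] (hs : Std p R' D) {n : ℕ}
    (hn : ¬ p ∣ n) : ∃ σ : D →* D, (∀ u, σ u ^ n = u) := by
  have hb : Function.Bijective (powMonoidHom n : D →* D) :=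
    (hs.pD.powEquiv ((Nat.Prime.coprime_iff_not_dvd hs.prime).2 hn)).bijective
  exact ⟨(MulEquiv.ofBijective _ hb).symm.toMonoidHom,
    fun u => (MulEquiv.ofBijective _ hb).apply_symm_apply u⟩

section red

variable {B : Type} [Ring B] [Algebra (ResidueField R) B]

/-- The reduction map on centres. -/
noncomputable def frliftZ (τ : A →+* B) (hτ : Function.Surjective τ) :
    Subalgebra.center R A →+* Subalgebra.center (ResidueField R) B :=
  (τ.comp (Subalgebra.center R A).val.toRingHom).codRestrict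
    (Subalgebra.center (ResidueField R) B) fun w => Subalgebra.mem_center_iff.2 fun b => by
      obtain ⟨a, rfl⟩ := hτ b
      change τ a * τ w = τ w * τ a
      rw [← map_mul, ← map_mul, Subalgebra.mem_center_iff.1 w.2 a]

omit [Module.Finite R A] [Module.IsTorsionFree R A] in
lemma frliftZ_val (τ : A →+* B) (hτ : Function.Surjective τ) (w : Subalgebra.center R A) :
    (frliftZ τ hτ w : B) = τ w := rfl

omit [CommGroup D] [Module.Finite R A] [Module.IsTorsionFree R A] in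
lemma frlift_ker {τ : A →+* B} (hτ : Red R τ) {κ : Type} [Fintype κ] [DecidableEq κ]
    (ρ : B →ₐ[ResidueField R] Matrix κ κ (ResidueField R)) {z : D → B}
    (hz : ∀ x, ρ x = 0 → ∃ y : D → B, x = ∑ u, (z u - 1) * y u) {c : D → A}
    (hc : ∀ u, τ (c u) = z u - 1) (x : A) (hx : ρ (τ x) = 0) :
    ∃ y : D → A, InMax R (x - ∑ u, c u * y u) := by
  obtain ⟨y, hy⟩ := hz _ hx
  choose y' hy' using fun u => hτ.surj (y u)
  refine ⟨y', (hτ.ker _).1 ?_⟩
  rw [map_sub, map_sum, hy, sub_eq_zero]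
  exact Finset.sum_congr rfl fun u _ => by rw [map_mul, hc, hy']

omit [CommGroup D] [Module.IsTorsionFree R A] in
/-- Compatible matrix decompositions of `A` and of its reduction. -/
lemma frlift_theta (hR : MonicSplit R) {τ : A →+* B} (hτ : Red R τ) {κ : Type} [Fintype κ]
    [DecidableEq κ] (a₀ : κ) (ρ : B →ₐ[ResidueField R] Matrix κ κ (ResidueField R))
    (hρ : Function.Surjective ρ) (c : D → A) (hc : ∀ i a, c i * a = a * c i)
    (hn : ∀ i, NilR R (c i))
    (hker : ∀ x, ρ (τ x) = 0 → ∃ y : D → A, InMax R (x - ∑ u, c u * y u)) :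
    ∃ (Θ : A ≃ₐ[R] Matrix κ κ (Subalgebra.center R A))
      (Θ' : B ≃ₐ[ResidueField R] Matrix κ κ (Subalgebra.center (ResidueField R) B)),
      (∀ ζ : Subalgebra.center R A, Θ ζ = Matrix.scalar κ ζ) ∧
      (∀ ζ : Subalgebra.center (ResidueField R) B, Θ' ζ = Matrix.scalar κ ζ) ∧
      (∀ x, (Θ x).map (frliftZ τ hτ.surj) = Θ' (τ x)) ∧
      ∀ x a b, ρ (Θ' x a b) = ρ x a b • 1 := by
  obtain ⟨e, he, heπ⟩ := exists_mUnits hR (ρ.toRingHom.comp τ) (hρ.comp hτ.surj)
    (fun x hx => by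
      change ρ (τ x) = 0
      rw [(hτ.ker x).2 hx, map_zero]) c hc hn hker a₀
  have heπ' : ∀ a b, ρ (τ (e a b)) = Matrix.single a b 1 := heπ
  have hff : e a₀ a₀ * e a₀ a₀ = e a₀ a₀ := by rw [he.mul, if_pos rfl]
  have hcA : ∀ x, ∃ z : Subalgebra.center R A, e a₀ a₀ * x * e a₀ a₀ = z * e a₀ a₀ := by
    refine corner_central hff c hc hn fun x => ?_
    obtain ⟨r, hr⟩ := residue_surjective (R := R) (ρ (τ x) a₀ a₀)
    refine ⟨r, hker _ ?_⟩
    rw [map_sub, hτ.smul, map_mul, map_mul, map_sub, map_smul, map_mul, map_mul, heπ',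
      Matrix.single_mul_mul_single, hr, Matrix.smul_single, one_mul, mul_one, smul_eq_mul,
      mul_one, sub_self]
  obtain ⟨Θ, hΘ, hΘs⟩ := he.exists_equiv a₀ hcA
  obtain ⟨Θ', hΘ', hΘs'⟩ := (he.map τ).exists_equiv (R := ResidueField R) a₀ (fun y => by
    obtain ⟨x, rfl⟩ := hτ.surj y
    obtain ⟨z, hz⟩ := hcA x
    refine ⟨frliftZ τ hτ.surj z, ?_⟩
    rw [frliftZ_val, ← map_mul, ← map_mul, ← map_mul, hz])
  refine ⟨Θ, Θ', hΘs, hΘs', fun x => ?_, fun x a b => ?_⟩
  · ext a b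
    rw [Matrix.map_apply, frliftZ_val, hΘ, hΘ', map_sum]
    exact Finset.sum_congr rfl fun i _ => by rw [map_mul, map_mul]
  · rw [hΘ', map_sum, ← Matrix.sum_single_one, Finset.smul_sum]
    refine Finset.sum_congr rfl fun i _ => ?_
    rw [map_mul, map_mul, heπ', heπ', Matrix.single_mul_mul_single, Matrix.smul_single, one_mul,
      smul_eq_mul]

omit [Module.Finite R A] [Module.IsTorsionFree R A] in
lemma frlift_hat {τ : A →+* B} (hτ : Red R τ) {ζ : D →* Subalgebra.center R A}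
    {z : D →* Subalgebra.center (ResidueField R) B} (hz : ∀ u, frliftZ τ hτ.surj (ζ u) = z u)
    (c : MonoidAlgebra R D) :
    frliftZ τ hτ.surj (hatI R ζ c) = hatI (ResidueField R) z (toRes R D c) := by
  rw [hatI_apply, hatI_apply, map_sum]
  refine Finset.sum_congr rfl fun u _ => Subtype.ext ?_
  rw [coeff_toRes, ← hz, frliftZ_val, Subalgebra.coe_smul, Subalgebra.coe_smul, hτ.smul,
    frliftZ_val]

end red

/-- Nakayama in the centre. -/
lemma frlift_surj (hs : Std p R D) {κ : Type} [Fintype κ] [DecidableEq κ] (a₀ : κ)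
    (Θ : A ≃ₐ[R] Matrix κ κ (Subalgebra.center R A))
    (hΘ : ∀ ζ : Subalgebra.center R A, Θ ζ = Matrix.scalar κ ζ)
    (ζ : D →* Subalgebra.center R A)
    (h : ∀ w : Subalgebra.center R A, ∃ (r : R) (y : D → A),
      InMax R ((w : A) - r • 1 - ∑ u, ((ζ u : A) - 1) * y u)) :
    Function.Surjective (hatI R ζ) := by
  have hfin : Module.Finite R (Subalgebra.center R A) := center_finite
  have key : (⊤ : Submodule R (Subalgebra.center R A)) ≤
      LinearMap.range (hatI R ζ).toLinearMap := by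
    refine le_of_central (fun u => ζ u - 1) (fun i a => mul_comm _ _)
      (fun u => hs.nil_delta ζ u) ⊤ _ Module.Finite.fg_top (fun x _ hx => hx)
      (fun _ _ _ => trivial) ?_ fun w _ => ?_
    · rintro u _ ⟨c, rfl⟩
      refine ⟨(single u 1 - 1) * c, ?_⟩
      change hatI R ζ _ = (ζ u - 1) * hatI R ζ c
      rw [map_mul, map_sub, map_one, hatI_single, one_smul]
    · obtain ⟨r, y, hy⟩ := h w
      refine ⟨fun u => Θ (y u) a₀ a₀, fun _ => trivial, ?_⟩
      let L : A →ₗ[R] Subalgebra.center R A :=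
        (Matrix.entryLinearMap R _ a₀ a₀) ∘ₗ Θ.toLinearMap
      have hL : ∀ x, L x = Θ x a₀ a₀ := fun _ => rfl
      have hLz : ∀ (v : Subalgebra.center R A) (x : A), L (v * x) = v * L x := by
        intro v x
        rw [hL, hL, map_mul, hΘ, Matrix.scalar_apply, Matrix.diagonal_mul]
      have hL1 : L 1 = 1 := by rw [hL, map_one, Matrix.one_apply_eq]
      have h1 := idem_inMax_map L hy
      have h2 : L ((w : A) - r • 1 - ∑ u, ((ζ u : A) - 1) * y u) =
          w - r • 1 - ∑ u, (ζ u - 1) * Θ (y u) a₀ a₀ := by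
        rw [map_sub, map_sub, map_smul, map_sum, hL1, ← mul_one (w : A), hLz, hL1, mul_one]
        congr 1
        exact Finset.sum_congr rfl fun u _ => hLz (ζ u - 1) (y u)
      rw [h2] at h1
      have h3 : w - ∑ u, (ζ u - 1) * Θ (y u) a₀ a₀ =
          r • 1 + (w - r • 1 - ∑ u, (ζ u - 1) * Θ (y u) a₀ a₀) := by abel
      rw [h3]
      refine Submodule.add_mem_sup ⟨r • 1, ?_⟩ h1
      change hatI R ζ _ = _
      rw [map_smul, map_one]
  exact fun w => key (Submodule.mem_top (x := w))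

/-- Reduce (`exists_red`, `NilI.red`), take `ρ` from `NilI.exists_rep`, `z` from `NilI.centre`,
central lifts `c u` of `z u - 1` (`PreI.center_lift`), matrix units `e` (`exists_mUnits`),
`corner_central` and `MUnits.exists_equiv` for `A` and for `B` (with `MUnits.map`), giving `Θ` and
`Θ'` with `τ (Θ x a b) = Θ' (τ x) a b`.  With `n n' ≡ 1` modulo `|D|` put
`ζ u = det (Θ (δ u)) ^ n'`; then `τ (ζ u) = z u`.  Surjectivity of `hatI R ζ`: `le_of_central` in the
ring `Z(A)` with `c u = ζ u - 1`; for central `w`, `w - r = m + ∑ (ζ u - 1) * y u` in `A`, take the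
entry `(a₀, a₀)` of `Θ`.  Injectivity: `injective_of_inMax`, `Red.map_hatI`. -/
theorem NilI.struct (hs : Std p R D) (h : NilI R δ Q) :
    ∃ (n : ℕ) (Θ : A ≃ₐ[R] Matrix (Fin n) (Fin n) (Subalgebra.center R A))
      (ζ : D →* Subalgebra.center R A), ¬ p ∣ n ∧
      (∀ u, (Θ (δ u)).det = ζ u ^ n) ∧ Function.Bijective (hatI R ζ) := by
  obtain ⟨B, _, _, τ, hτ⟩ := exists_red R A
  have := hs.split.isAlgClosed
  have : Module.Finite (ResidueField R) B := hτ.finite
  have hB := h.red hτ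
  have hsk := hs.res
  obtain ⟨n, ρ, hn, hρ⟩ := hB.exists_rep hsk
  have a₀ : Fin n := ⟨0, Nat.pos_of_ne_zero fun h0 => hn (h0 ▸ dvd_zero p)⟩
  obtain ⟨z, hz1, hzi, hzk, hzd⟩ := hB.centre hsk ρ hρ (by rwa [Fintype.card_fin])
  have hzc : ∀ u b, ((z u : B) - 1) * b = b * ((z u : B) - 1) := fun u b =>
    (Subalgebra.mem_center_iff.1 (z u - 1).2 b).symm
  choose c hc hcτ using fun u => h.toPreI.center_lift hτ (hzc u)
  have hcn : ∀ u, NilR R (c u) := fun u => by
    rw [hτ.nilR_iff, hcτ]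
    exact nilR_field.1 ((hsk.nil_delta z u).map (Subalgebra.center (ResidueField R) B).val)
  obtain ⟨Θ, Θ', hΘ, hΘ', hΘτ, hΘρ⟩ := frlift_theta hs.split hτ a₀ ρ hρ c hc hcn
    (frlift_ker hτ ρ hzk hcτ)
  have hdet := hzd Θ'.toAlgHom hΘ' hΘρ
  obtain ⟨σ, hσ⟩ := frlift_root hs hn
  let d : D →* Subalgebra.center R A :=
    Matrix.detMonoidHom.comp (Θ.toAlgHom.toRingHom.toMonoidHom.comp δ)
  have hd : ∀ u, d u = (Θ (δ u)).det := fun _ => rfl
  have hζ : ∀ u, frliftZ τ hτ.surj (d.comp σ u) = z u := by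
    intro u
    rw [MonoidHom.comp_apply, hd, RingHom.map_det, RingHom.mapMatrix_apply, hΘτ]
    refine (hdet (σ u)).trans ?_
    rw [Fintype.card_fin, ← map_pow, hσ]
  refine ⟨n, Θ, d.comp σ, hn, fun u => ?_, ?_, ?_⟩
  · rw [MonoidHom.comp_apply, ← map_pow, hσ, hd]
  · refine injective_of_inMax (hatI R (d.comp σ)).toLinearMap fun x hx => ?_
    refine ((red_toRes D).ker x).1 (hzi ?_)
    rw [map_zero, ← frlift_hat hτ hζ]
    exact Subtype.ext ((hτ.ker _).2 (idem_inMax_map (Subalgebra.center R A).val.toLinearMap hx))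
  · refine frlift_surj hs a₀ Θ hΘ _ fun w => ?_
    obtain ⟨r, hr⟩ := residue_surjective (R := R) (ρ (τ w) a₀ a₀)
    refine ⟨r, frlift_ker hτ ρ hzk (fun u => ?_) _ ?_⟩
    · rw [map_sub, map_one, ← hζ, frliftZ_val]
    · have h1 := hΘρ (τ w) a₀ a₀
      rw [← frliftZ_val τ hτ.surj w, hΘ', Matrix.scalar_apply, Matrix.diagonal_apply_eq,
        frliftZ_val] at h1
      rw [map_sub, hτ.smul, map_one, map_sub, map_smul, map_one, hr, ← h1, sub_self]

/-- `ω = aug ∘ (hat ζ)⁻¹`, `ρ = mapMatrix ω ∘ Θ`. -/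
theorem NilI.exists_canon (hs : Std p R D) (h : NilI R δ Q) :
    ∃ (n : ℕ) (s : D →* Matrix (Fin n) (Fin n) R), ¬ p ∣ n ∧ Canon δ s := by
  obtain ⟨n, Θ, ζ, hn, hdet, hb⟩ := h.struct hs
  let E := AlgEquiv.ofBijective (hatI R ζ) hb
  let ω : Subalgebra.center R A →ₐ[R] R := (augI R D).comp E.symm.toAlgHom
  have hω : ∀ u, ω (ζ u) = 1 := by
    intro u
    have h1 : E (single u 1) = ζ u := by
      change hatI R ζ _ = _
      rw [hatI_single, one_smul]
    change augI R D (E.symm (ζ u)) = 1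
    rw [← h1, AlgEquiv.symm_apply_apply, augI, hatI_single, one_smul, MonoidHom.one_apply]
  let ρ : A →ₐ[R] Matrix (Fin n) (Fin n) R := ω.mapMatrix.comp Θ.toAlgHom
  have hρ : ∀ x, ρ x = (Θ x).map ω := fun _ => rfl
  refine ⟨n, ρ.toRingHom.toMonoidHom.comp δ, hn, ρ, fun m => ?_, fun _ => rfl, fun u => ?_⟩
  · refine ⟨Θ.symm (m.map (algebraMap R _)), ?_⟩
    rw [hρ, AlgEquiv.apply_symm_apply]
    ext a b
    exact ω.commutes (m a b)
  · change (ω.mapMatrix (Θ (δ u))).det = 1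
    rw [← AlgHom.map_det, hdet, map_pow, hω, one_pow]

omit [Module.Finite R A] [Module.IsTorsionFree R A] in
lemma frlift_conj (hs : Std p R D) {n : ℕ}
    (Θ : A ≃ₐ[R] Matrix (Fin n) (Fin n) (Subalgebra.center R A))
    (ζ : D →* Subalgebra.center R A) (hn : ¬ p ∣ n) (hdet : ∀ u, (Θ (δ u)).det = ζ u ^ n)
    {κ : Type} [Fintype κ] [DecidableEq κ] [Nonempty κ] {s : D →* Matrix κ κ R}
    (h : Canon δ s) :
    ∃ (ω : Subalgebra.center R A →+* R) (v : Matrix κ (Fin n) R) (v' : Matrix (Fin n) κ R),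
      v * v' = 1 ∧ v' * v = 1 ∧ (∀ c, ω (hatI R ζ c) = augI R D c) ∧
      ∀ u, s u = v * (Θ (δ u)).map ω * v' := by
  obtain ⟨ρ, hρ, hρs, hρd⟩ := h
  obtain ⟨ω, v, v', h1, h2, h3, h4⟩ := exists_conj_of_surjective
    (ρ.comp Θ.symm.toAlgHom).toRingHom (hρ.comp Θ.symm.surjective)
  have h5 : ∀ u, s u = v * (Θ (δ u)).map ω * v' := by
    intro u
    rw [← h4, ← hρs]
    change _ = ρ (Θ.symm (Θ (δ u)))
    rw [AlgEquiv.symm_apply_apply]
  have h6 : ∀ u, ω (ζ u) = 1 := by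
    intro u
    obtain ⟨σ, hσ⟩ := frlift_root hs hn
    have h7 := hρd (σ u)
    rw [h5, Matrix.det_conj_of_mul_eq_one h1 h2, ← RingHom.mapMatrix_apply, ← RingHom.map_det,
      hdet, ← map_pow, hσ] at h7
    exact h7
  have h8 : ∀ r : R, ω (algebraMap R _ r) = r := by
    intro r
    have h9 : ω (algebraMap R _ r) • (1 : Matrix κ κ R) = r • 1 := by
      rw [← h3, ← Algebra.algebraMap_eq_smul_one]
      exact (ρ.comp Θ.symm.toAlgHom).commutes r
    obtain ⟨a⟩ := ‹Nonempty κ›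
    have h10 := congrFun (congrFun h9 a) a
    simpa using h10
  refine ⟨ω, v, v', h1, h2, fun c => ?_, h5⟩
  rw [hatI_apply, augI_apply, map_sum]
  refine Finset.sum_congr rfl fun u _ => ?_
  rw [Algebra.smul_def, map_mul, h8, h6, mul_one]

/-- `exists_conj_of_surjective` for `ρ ∘ Θ⁻¹`; `Matrix.det_conj_of_mul_eq_one` gives
`ω (ζ u) ^ n = 1`, so `ω (ζ u) = 1`; `ω` is `R`-linear, so it is determined. -/
theorem NilI.canon_unique (hs : Std p R D) (h : NilI R δ Q) {κ κ' : Type} [Fintype κ]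
    [DecidableEq κ] [Fintype κ'] [DecidableEq κ'] [Nonempty κ] [Nonempty κ']
    {s : D →* Matrix κ κ R} {s' : D →* Matrix κ' κ' R} (h1 : Canon δ s) (h2 : Canon δ s') :
    TwIso 1 s s' := by
  obtain ⟨n, Θ, ζ, hn, hdet, hb⟩ := h.struct hs
  obtain ⟨ω, v, v', a1, a2, a3, a4⟩ := frlift_conj hs Θ ζ hn hdet h1
  obtain ⟨ω', w, w', b1, b2, b3, b4⟩ := frlift_conj hs Θ ζ hn hdet h2
  have hω : ω' = ω := RingHom.ext fun x => by
    obtain ⟨c, rfl⟩ := hb.2 x
    rw [a3, b3]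
  subst hω
  refine ⟨w * v', v * w', ?_, ?_, fun u => ?_⟩
  · rw [Matrix.mul_assoc, ← Matrix.mul_assoc v', a2, Matrix.one_mul, b1]
  · rw [Matrix.mul_assoc, ← Matrix.mul_assoc w', b2, Matrix.one_mul, a1]
  · rw [MulAut.one_apply, a4, b4]
    simp only [Matrix.mul_assoc]
    rw [← Matrix.mul_assoc v' v, a2, Matrix.one_mul, ← Matrix.mul_assoc w' w, b2, Matrix.one_mul]

/-- Reduce `ρ` (`Red.descend_alg`); `PreI.endo`, `Canon.triv`, `Endo.lift`, `Endo.dual`.  Over the
residue field take `j₀` from `NilI.exists_min`, `1 - j₀ = rtr m₀` (`PreI.trM_le`), lift `m₀` to `m`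
and put `j = 1 - rtr m`; `NilI.corner_eq_hat`, `Red.matrix`. -/
theorem NilI.twist (hs : Std p R D) (h : NilI R δ Q) {κ : Type} [Fintype κ] [DecidableEq κ]
    {s : D →* Matrix κ κ R} (hn : ¬ p ∣ Fintype.card κ) (hc : Canon δ s) :
    Endo p Q (dualS s) ∧ ∃ j : Matrix κ κ A, FixedBy (cjI R (tenI (dualS s) δ)) ⊤ j ∧
      1 - j ∈ trM R (tenI (dualS s) δ) ⊤ ∧
      ∀ x, ∃ c, InMax R (j * x * j - hatI R (tenI (dualS s) δ) c * j) := by
  obtain ⟨B, _, _, τ, hτ⟩ := exists_red R A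
  have := hs.split.isAlgClosed
  have : Module.Finite (ResidueField R) B := hτ.finite
  have hB := h.red hτ
  have hsk := hs.res
  have htriv := hc.triv hs hn h.cent
  obtain ⟨ρ, hρ, hρs, -⟩ := hc
  have hτ' : Red R ((residue R).mapMatrix : Matrix κ κ R →+* Matrix κ κ (ResidueField R)) :=
    red_residue.matrix κ κ
  obtain ⟨g, hg⟩ := hτ.descend_alg hτ' ρ
  have hgs : Function.Surjective g := fun m => by
    obtain ⟨m', rfl⟩ := hτ'.surj m
    obtain ⟨x, rfl⟩ := hρ m'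
    exact ⟨τ x, hg x⟩
  have hres : resD g (τ.toMonoidHom.comp δ) = resS s := MonoidHom.ext fun u => by
    change g (τ (δ u)) = _
    rw [hg, hρs]
    rfl
  have hek := hB.toPreI.endo hsk g hgs hn
  have he : Endo p Q (dualS s) := (Endo.lift hs htriv (hres ▸ hek)).dual
  obtain ⟨j₀, hj⟩ := hB.exists_min hsk hek.dual
  obtain ⟨m₀, y, hy, hm₀⟩ := (hB.toPreI.matrix hsk hek.dual).trM_le hsk hj.sub
  rw [inMax_field.1 hy, add_zero] at hm₀
  have hT : Red R (τ.mapMatrix : Matrix κ κ A →+* Matrix κ κ B) := hτ.matrix κ κ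
  have hΔ : (τ.mapMatrix : Matrix κ κ A →+* Matrix κ κ B).toMonoidHom.comp (tenI (dualS s) δ) =
      tenI (dualS (resD g (τ.toMonoidHom.comp δ))) (τ.toMonoidHom.comp δ) := by
    rw [hres]
    refine MonoidHom.ext fun u => Matrix.ext fun a b => ?_
    exact hτ.smul _ _
  obtain ⟨m, rfl⟩ := hT.surj m₀
  have hfix : FixedBy (cjI R (tenI (dualS s) δ)) Q m :=
    fixedBy_of_cent (h.toPreI.matrix hs he).cent m
  have hTj : τ.mapMatrix (1 - rtr (cjI R (tenI (dualS s) δ)) Q ⊤ m) = j₀ := by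
    rw [map_sub, map_one, hT.map_rtr (σ := cjI (ResidueField R)
      (tenI (dualS (resD g (τ.toMonoidHom.comp δ))) (τ.toMonoidHom.comp δ))), ← hm₀,
      sub_sub_cancel]
    intro u x
    rw [cjI_apply, cjI_apply, map_mul, map_mul, ← hΔ]
    rfl
  refine ⟨he, 1 - rtr (cjI R (tenI (dualS s) δ)) Q ⊤ m, ?_, ?_, fun x => ?_⟩
  · exact (fixI R (tenI (dualS s) δ) ⊤).sub_mem (one_mem _) (rtr_fixed le_top hfix)
  · rw [sub_sub_cancel]
    exact rtr_mem_brK (lt_top_iff_ne_top.2 h.ne_top) hfix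
  · obtain ⟨c₀, hc₀⟩ := hB.corner_eq_hat hsk g hgs hn hj (τ.mapMatrix x)
    obtain ⟨c, rfl⟩ := (red_toRes (R := R) D).surj c₀
    refine ⟨c, (hT.ker _).1 ?_⟩
    rw [map_sub, map_mul, map_mul, map_mul, hTj, hT.map_hatI, hΔ, hc₀, sub_self]

end Pool.Agent.Lib.MP_b6945b_al.St
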