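import Pool.Agent.Lib.MP_b6945b_al.St.FrLink
import Pool.Agent.Lib.MP_b6945b_al.St.FrCor
import Pool.Agent.Lib.MP_b6945b_al.St.FrLift

set_option autoImplicit false

/-!
The tower of endotrivial twists.
-/

namespace Pool.Agent.Lib.MP_b6945b_al.St

open IsLocalRing
open MonoidAlgebra (single)

variable {R D G E : Type} [CommRing R] [IsDomain R] [ValuationRing R] [CommGroup D] [Fintype D]
  [Group G] [Fintype G] [Group E] [Fintype E] {p : ℕ} {ι : D →* G} {φ : E →* MulAut D}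
  {e j : MonoidAlgebra R G} {U U' : E → MonoidAlgebra R G} {Q : Subgroup D}

/-- The twisted interior structure at level `Q`. -/
noncomputable abbrev TD (ι : D →* G) (X : MRep R D) (Q : Subgroup D) :
    D →* Matrix X.κ X.κ (CA R ι Q) := tenI X.s (caD R ι Q)

/-- The source idempotent at level `Q`. -/
noncomputable abbrev TJ (h : FrSet p ι φ e j U U') (X : MRep R D) (Q : Subgroup D) :
    Matrix X.κ X.κ (CA R ι Q) := Matrix.scalar X.κ (caJ h.supp Q)

/-- `X` trivialises all levels above `Q`. -/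
structure Lvl (h : FrSet p ι φ e j U U') (Q : Subgroup D) (X : MRep R D) : Prop where
  np : NP p (Q ≤ ·) X.s
  triv : ∀ q ∈ Q, X.s q = 1
  lg : ∀ S, Q < S → LG R (TD ι X Q) (TJ h X Q) S
  tw : Q = ⊥ → ∀ l, TwIso (φ l) X.s X.s

/-- `W` trivialises level `Q`, in the canonical way. -/
structure Step (h : FrSet p ι φ e j U U') (Q : Subgroup D) (X W : MRep R D) : Prop where
  endo : Endo p Q W.s
  lg : LG R (TD ι (W.kron X) Q) (TJ h (W.kron X) Q) Q
  canon : ∃ (ε : Matrix X.κ X.κ (CA R ι Q)) (hε : MinI R (TD ι X Q) (TJ h X Q) ε),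
    Canon hε.cor (dualS W.s)

section aux

variable {R D A κ : Type} [CommRing R] [CommGroup D] [Ring A] [Algebra R A] [Fintype κ]
  [DecidableEq κ] {s : D →* Matrix κ κ R} {δ : D →* A}

lemma frtower_cent {q : D} (hs : s q = 1) (hc : ∀ a, δ q * a = a * δ q) (a : Matrix κ κ A) :
    tenI s δ q * a = a * tenI s δ q := by
  rw [(tenI_eq (s := s) (δ := δ) q).1, hs, Matrix.map_one _ (map_zero _) (map_one _), one_mul]
  exact Matrix.scalar_commute _ hc a

lemma frtower_comm {J : A} (u : D) (hc : δ u * J = J * δ u) :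
    tenI s δ u * Matrix.scalar κ J = Matrix.scalar κ J * tenI s δ u := by
  ext a b
  rw [Matrix.scalar_apply, Matrix.mul_diagonal, Matrix.diagonal_mul, tenI_apply, smul_mul_assoc,
    mul_smul_comm, hc]

omit [DecidableEq κ] in
scoped instance frtower_finite [Module.Finite R A] : Module.Finite R (Matrix κ κ A) :=
  inferInstanceAs (Module.Finite R (κ → κ → A))

lemma frtower_unit (m : Matrix Unit Unit R) :
    m = (Ring.inverse ((Fintype.card Unit : ℕ) : R) * Matrix.trace m) • (1 : Matrix Unit Unit R) := by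
  ext a b
  simp [Matrix.trace]

omit [DecidableEq κ] in
lemma frtower_nonempty {p : ℕ} (hn : ¬ p ∣ Fintype.card κ) : Nonempty κ := by
  by_contra hcon
  rw [not_nonempty_iff] at hcon
  exact hn (by simp)

lemma frtower_triv {ι : Type} (Q : Subgroup D) (t : Finset ι) (W : ι → MRep R D)
    (hW : ∀ i ∈ t, ∀ q ∈ Q, (W i).s q = 1) {X : MRep R D}
    (hX : MCl.mk X = ∏ i ∈ t, MCl.mk (W i)) : ∀ q ∈ Q, X.s q = 1 := by
  refine MCl.prod_induction (fun Y => ∀ q ∈ Q, Y.s q = 1) (fun _ _ h h' => h.triv h')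
    (fun _ _ => rfl) (fun Y Z hY hZ q hq => ?_) t W hW hX
  change Matrix.kroneckerMap (· * ·) (Y.s q) (Z.s q) = 1
  rw [hY q hq, hZ q hq]
  exact Matrix.one_kronecker_one

lemma frtower_np [Fintype D] [IsLocalRing R] {p : ℕ} (hR : Std p R D) {Pr : Subgroup D → Prop}
    (hPr : ∀ S S', Pr S → Pr S' → Pr (S ⊓ S')) {ι : Type} (t : Finset ι) (W : ι → MRep R D)
    (hW : ∀ i ∈ t, NP p Pr (W i).s) {X : MRep R D}
    (hX : MCl.mk X = ∏ i ∈ t, MCl.mk (W i)) : NP p Pr X.s :=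
  MCl.prod_induction (fun Y => NP p Pr Y.s) (fun _ _ h h' => NP.iso h h') (np_one hR.prime)
    (fun _ _ hY hZ => NP.kron hR hPr hY hZ) t W hW hX

lemma frtower_lt (ψ : MulAut D) (Q S : Subgroup D) :
    Q.map ψ.toMonoidHom < S.map ψ.toMonoidHom ↔ Q < S :=
  (MulEquiv.mapSubgroup ψ).lt_iff_lt

lemma frtower_index (ψ : MulAut D) (Q : Subgroup D) : (Q.map ψ.toMonoidHom).index = Q.index :=
  Subgroup.index_map_equiv Q ψ

lemma frtower_ne_bot (ψ : MulAut D) {Q : Subgroup D} (h : Q ≠ ⊥) : Q.map ψ.toMonoidHom ≠ ⊥ :=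
  fun h' => h ((Subgroup.map_eq_bot_iff_of_injective Q ψ.injective).mp h')

open Classical in
lemma frtower_tw [Fintype D] {ψ : MulAut D} {Q : Subgroup D} {W : Subgroup D → MRep R D}
    (hW : ∀ S, Q < S → TwIso ψ (W S).s (W (S.map ψ.toMonoidHom)).s) {X X' : MRep R D}
    (hX : MCl.mk X = ∏ Q' ∈ Finset.univ.filter (Q < ·), MCl.mk (W Q'))
    (hX' : MCl.mk X' = ∏ Q' ∈ Finset.univ.filter (Q.map ψ.toMonoidHom < ·), MCl.mk (W Q')) :
    TwIso ψ X.s X'.s :=
  MCl.twIso_prod _ _ W (MulEquiv.mapSubgroup ψ).toEquiv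
    (fun S => by
      simp only [Finset.mem_filter, Finset.mem_univ, true_and]
      exact (frtower_lt ψ Q S).symm)
    (fun S hS => hW S (Finset.mem_filter.mp hS).2) hX hX'

end aux

variable {h : FrSet p ι φ e j U U'} {X : MRep R D}

lemma Lvl.cent (hX : Lvl h Q X) : ∀ q ∈ Q, ∀ a, TD ι X Q q * a = a * TD ι X Q q := by
  intro q hq a
  exact frtower_cent (s := X.s) (δ := caD R ι Q) (hX.triv q hq) (caD_cent q hq) a

/-- `exists_minI`, `mem_trM_of_scalar`, `FrSet.not_mem_trM`. -/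
lemma Lvl.exists_min (hX : Lvl h Q X) (hQ : Q ≠ ⊤) : ∃ ε, MinI R (TD ι X Q) (TJ h X Q) ε := by
  have hn := bouc_unit h.std.prime h.std.pR hX.np.card
  refine exists_minI h.std ?_ (fun u => frtower_comm u (h.caJ_comm Q u))
    (hX.lg ⊤ (lt_top_iff_ne_top.mpr hQ)) fun hm => h.not_mem_trM Q (mem_trM_of_scalar hn hm)
  rw [← map_mul, h.caJ_idem]

/-- `MinI.corI`, `SP.matrix`, `FrSet.sp`, `FrSet.pl`. -/
lemma Lvl.corI (hX : Lvl h Q X) {ε : Matrix X.κ X.κ (CA R ι Q)}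
    (hε : MinI R (TD ι X Q) (TJ h X Q) ε) : CorI R hε.cor Q (PQ φ Q) := by
  exact hε.corI h.std hX.cent hX.lg
    (SP.matrix (bouc_unit h.std.prime h.std.pR hX.np.card) (h.sp Q)) (h.pl hX.np hX.tw)

lemma Lvl.nilI (hX : Lvl h Q X) (hQ : Q ≠ ⊤) (hQ0 : Q ≠ ⊥) {ε : Matrix X.κ X.κ (CA R ι Q)}
    (hε : MinI R (TD ι X Q) (TJ h X Q) ε) : NilI R hε.cor Q := by
  refine (hX.corI hε).nilI hQ ?_
  rintro S ⟨l, S', h1, h2, h3⟩
  exact ⟨S', h1, by rw [h3, h2 hQ0, map_one]⟩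

/-- `NilI.exists_canon`, `NilI.twist`, `MinI.lg_of_twist`, `LG.map_equiv` with `comp_tenI`,
`comp_scalar`; `W.s = dualS s`, `dualS_dualS`. -/
theorem Lvl.exists_step (hX : Lvl h Q X) (hQ : Q ≠ ⊤) (hQ0 : Q ≠ ⊥) : ∃ W, Step h Q X W := by
  obtain ⟨ε, hε⟩ := hX.exists_min hQ
  have hnil := hX.nilI hQ hQ0 hε
  obtain ⟨n, s, hn, hc⟩ := hnil.exists_canon h.std
  obtain ⟨hE, j', hj, h1, h2⟩ := hnil.twist h.std (by rwa [Fintype.card_fin]) hc
  have hl := (hε.lg_of_twist hX.cent hE.triv hj h1 h2).map_equiv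
    (Matrix.compAlgEquiv (Fin n) X.κ (CA R ι Q) R) (comp_tenI (dualS s) X.s (caD R ι Q))
  rw [comp_scalar] at hl
  refine ⟨{ κ := Fin n, s := dualS s }, hE, hl, ε, hε, ?_⟩
  change Canon hε.cor (dualS (dualS s))
  rw [dualS_dualS]
  exact hc

/-- `exists_tp` with `U l`, `U' l`; `Tp.exists_equiv`, `Canon.equiv`, `NilI.canon_unique`,
`twIso_comp_iff`, `TwIso.dual`, `dualS_dualS`. -/
theorem Step.twIso (hX : Lvl h Q X) (hQ : Q ≠ ⊤) (hQ0 : Q ≠ ⊥) {l : E} {Q' : Subgroup D}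
    (hQ' : Q' = Q.map (φ l).toMonoidHom) {X' W W' : MRep R D} (hXX : TwIso (φ l) X.s X'.s)
    (hW : Step h Q X W) (hW' : Step h Q' X' W') : TwIso (φ l) W.s W'.s := by
  obtain ⟨Φ, Ψ, htp⟩ := exists_tp h.supp h.idem (h.cut l) (h.cut' l) (h.inv l) (h.inv' l)
    (h.deg l) (h.deg' l) hXX hQ'
  obtain ⟨ε, hε, hc⟩ := hW.canon
  obtain ⟨ε', hε', hc'⟩ := hW'.canon
  obtain ⟨σ, hσ⟩ := htp.exists_equiv h.std hε hε'
  have := frtower_nonempty hW.endo.card
  have := frtower_nonempty hW'.endo.card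
  have h1 := (twIso_comp_iff.mp
    ((hX.nilI hQ hQ0 hε).canon_unique h.std hc (Canon.equiv σ hσ hc'))).dual
  rwa [dualS_dualS, dualS_dualS] at h1

open Classical in
/-- The family `W` is good at all nontrivial subgroups of index at most `m`. -/
def GoodUpTo (h : FrSet p ι φ e j U U') (m : ℕ) (W : Subgroup D → MRep R D) : Prop :=
  ∀ Q : Subgroup D, Q ≠ ⊥ → Q.index ≤ m → Endo p Q (W Q).s ∧
    (∀ l, TwIso (φ l) (W Q).s (W (Q.map (φ l).toMonoidHom)).s) ∧
    ∀ X : MRep R D, MCl.mk X = ∏ Q' ∈ Finset.univ.filter (Q ≤ ·), MCl.mk (W Q') →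
      LG R (TD ι X Q) (TJ h X Q) Q

open Classical in
/-- For `S > Q` split the product into the factors with `S ≤ Q'` and the others, choose
representatives `X'`, `Y`; `MCl.prod_induction` gives the hypotheses of `lg_kron`;
`FrSet.lg_iso`.  The field `tw` is `MCl.twIso_prod`. -/
theorem GoodUpTo.lvl {m : ℕ} {W : Subgroup D → MRep R D} (hW : GoodUpTo h m W)
    (hQ : ∀ S, Q < S → S.index ≤ m)
    (hX : MCl.mk X = ∏ Q' ∈ Finset.univ.filter (Q < ·), MCl.mk (W Q')) : Lvl h Q X := by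
  have hg := fun S (hS : Q < S) => hW S (ne_bot_of_gt hS) (hQ S hS)
  refine ⟨frtower_np h.std (fun _ _ => le_inf) _ W (fun S hS => ?_) hX,
    frtower_triv Q _ W (fun S hS q hq => ?_) hX, fun S hS => ?_, fun hQ0 l => ?_⟩
  · have hS' := (Finset.mem_filter.mp hS).2
    exact (hg S hS').1.np hS'.le
  · have hS' := (Finset.mem_filter.mp hS).2
    exact (hg S hS').1.triv q (hS'.le hq)
  · obtain ⟨X', hX'⟩ := MCl.exists_rep (∏ Q' ∈ Finset.univ.filter (S ≤ ·), MCl.mk (W Q'))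
    obtain ⟨Y, hY⟩ := MCl.exists_rep
      (∏ Q' ∈ (Finset.univ.filter (Q < ·)).filter (fun Q' => ¬ S ≤ Q'), MCl.mk (W Q'))
    have h1 : ∀ q ∈ S, X'.s q = 1 := frtower_triv S _ W (fun T hT q hq => by
      have hT' := (Finset.mem_filter.mp hT).2
      exact (hg T (hS.trans_le hT')).1.triv q (hT' hq)) hX'
    have h2 : NP p (fun S' => ¬ S ≤ S') Y.s := frtower_np h.std
      (fun _ _ h1 _ h3 => h1 (h3.trans inf_le_left)) _ W (fun T hT => by
        obtain ⟨hT1, hT2⟩ := Finset.mem_filter.mp hT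
        exact (hg T (Finset.mem_filter.mp hT1).2).1.np hT2) hY
    have h3 : MCl.mk (Y.kron X') = MCl.mk X := by
      rw [MCl.mk_kron, hX, hY, hX', mul_comm,
        ← Finset.prod_filter_mul_prod_filter_not (Finset.univ.filter (Q < ·)) (S ≤ ·)]
      congr 2
      ext T
      simp only [Finset.mem_filter, Finset.mem_univ, true_and]
      exact ⟨fun hT => ⟨hS.trans_le hT, hT⟩, fun hT => hT.2⟩
    exact h.lg_iso (MCl.mk_eq.mp h3) (lg_kron h.std h.supp hS.le h1 h2 ((hg S hS).2.2 X' hX'))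
  · refine frtower_tw (fun S hS => (hg S hS).2.1 l) hX ?_
    rw [hX, hQ0, Subgroup.map_bot]

lemma goodUpTo_one (h : FrSet p ι φ e j U U') : GoodUpTo h 1 fun _ => MRep.one R D := by
  intro Q _ hQ
  obtain rfl : Q = ⊤ := by
    rw [← Subgroup.index_eq_one]
    have := Q.index_ne_zero_of_finite
    omega
  refine ⟨⟨fun _ _ => rfl, (np_one (R := R) (D := D) (Pr := fun _ => True) h.std.prime).card,
    0, fun m => ?_⟩, fun l => ⟨1, 1, mul_one _, mul_one _, fun _ => rfl⟩, fun X hX => ?_⟩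
  · rw [map_zero, LinearMap.zero_apply, add_zero, ntr_apply]
    exact frtower_unit m
  · have h1 : MCl.mk (MRep.one R D) = MCl.mk X :=
      MCl.mk_one.trans (hX.trans (Finset.prod_eq_one fun _ _ => MCl.mk_one)).symm
    exact h.lg_iso (MCl.mk_eq.mp h1) h.lg_base

/-- For `Q ≠ ⊥` of index `m + 1` let `X Q` represent the product over `Q' > Q` and choose `W' Q`
by `Lvl.exists_step`; keep `W` elsewhere.  `Step.twIso` with `MCl.twIso_prod`, `FrSet.lg_iso`. -/
theorem GoodUpTo.succ {m : ℕ} (hm : 1 ≤ m) {W : Subgroup D → MRep R D} (hW : GoodUpTo h m W) :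
    ∃ W', GoodUpTo h (m + 1) W' := by
  classical
  choose X hX using fun Q : Subgroup D =>
    MCl.exists_rep (∏ Q' ∈ Finset.univ.filter (Q < ·), MCl.mk (W Q'))
  have hlt : ∀ Q S : Subgroup D, Q.index = m + 1 → Q < S → S.index ≤ m := fun Q S h1 h2 => by
    have := Subgroup.index_strictAnti h2
    omega
  have hL : ∀ Q : Subgroup D, Q.index = m + 1 → Lvl h Q (X Q) := fun Q hQ =>
    hW.lvl (fun S => hlt Q S hQ) (hX Q)
  have htop : ∀ Q : Subgroup D, Q.index = m + 1 → Q ≠ ⊤ := fun Q hQ h1 => by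
    rw [h1, Subgroup.index_top] at hQ
    omega
  have hex : ∀ Q : Subgroup D, ∃ W' : MRep R D, (Q.index ≤ m → W' = W Q) ∧
      (Q ≠ ⊥ → Q.index = m + 1 → Step h Q (X Q) W') := fun Q => by
    by_cases hc : Q ≠ ⊥ ∧ Q.index = m + 1
    · obtain ⟨W', hW'⟩ := (hL Q hc.2).exists_step (htop Q hc.2) hc.1
      exact ⟨W', fun h1 => by omega, fun _ _ => hW'⟩
    · exact ⟨W Q, fun _ => rfl, fun h1 h2 => absurd ⟨h1, h2⟩ hc⟩
  choose W' hW1 hW2 using hex
  refine ⟨W', fun Q hQ0 hQ => ?_⟩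
  rcases Nat.lt_or_eq_of_le hQ with hQ1 | hQ1
  · have hQm : Q.index ≤ m := by omega
    obtain ⟨g1, g2, g3⟩ := hW Q hQ0 hQm
    refine ⟨by rw [hW1 Q hQm]; exact g1, fun l => ?_, fun Y hY => g3 Y (hY.trans ?_)⟩
    · rw [hW1 Q hQm, hW1 _ ((frtower_index (φ l) Q).trans_le hQm)]
      exact g2 l
    · refine Finset.prod_congr rfl fun S hS => ?_
      rw [hW1 S ((Subgroup.index_antitone (Finset.mem_filter.mp hS).2).trans hQm)]
  · have hS := hW2 Q hQ0 hQ1
    refine ⟨hS.endo, fun l => ?_, fun Y hY => h.lg_iso (MCl.mk_eq.mp ?_) hS.lg⟩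
    · exact Step.twIso (hL Q hQ1) (htop Q hQ1) hQ0 rfl
        (frtower_tw (fun S hS => (hW S (ne_bot_of_gt hS) (hlt Q S hQ1 hS)).2.1 l) (hX Q) (hX _))
        hS (hW2 _ (frtower_ne_bot (φ l) hQ0) ((frtower_index (φ l) Q).trans hQ1))
    · have e1 : Finset.univ.filter (Q ≤ ·) = insert Q (Finset.univ.filter (Q < ·)) := by
        ext T
        simp only [Finset.mem_filter, Finset.mem_univ, true_and, Finset.mem_insert]
        rw [le_iff_eq_or_lt, eq_comm]
      rw [MCl.mk_kron, hY, hX, e1, Finset.prod_insert (by simp)]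
      congr 1
      refine Finset.prod_congr rfl fun S hS => ?_
      rw [hW1 S (hlt Q S hQ1 (Finset.mem_filter.mp hS).2)]

theorem FrSet.tower (h : FrSet p ι φ e j U U') : ∃ X, Lvl h ⊥ X := by
  classical
  have hall : ∀ m, ∃ W, GoodUpTo h (m + 1) W := fun m => by
    induction m with
    | zero => exact ⟨_, goodUpTo_one h⟩
    | succ m ih =>
      obtain ⟨W, hW⟩ := ih
      exact hW.succ (by omega)
  obtain ⟨W, hW⟩ := hall (⊥ : Subgroup D).index
  obtain ⟨X, hX⟩ := MCl.exists_rep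
    (∏ Q' ∈ Finset.univ.filter ((⊥ : Subgroup D) < ·), MCl.mk (W Q'))
  exact ⟨X, hW.lvl (fun S hS => (Subgroup.index_antitone hS.le).trans (Nat.le_succ _)) hX⟩

end Pool.Agent.Lib.MP_b6945b_al.St
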