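import Pool.Agent.Lib.MP_b6945b_al.St.FrLoca
import Pool.Agent.Lib.MP_b6945b_al.St.FrTower
import Pool.Agent.Lib.MP_b6945b_al.St.FrCenter

set_option autoImplicit false

/-!
The number of characters in a block with a freely acting inertial quotient.
-/

namespace Pool.Agent.Lib.MP_b6945b_al.St

open IsLocalRing
open MonoidAlgebra (single)

section frkaux

variable {R A κ : Type} [CommRing R] [IsLocalRing R] [Ring A] [Algebra R A] [Fintype κ]
  [DecidableEq κ]

lemma frk_full [Module.Finite R A] (hR : MonicSplit R) {e : A} (he : e * e = e)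
    (hc : ∀ b, e * b = b * e)
    (hloc : ∀ z, (∀ b, z * b = b * z) → ∃ v : R, NilR R (z * e - v • e)) {ε : Matrix κ κ A}
    (hε : ε * ε = ε) (hne : ¬ InMax R ε) (h1 : Matrix.scalar κ e * ε = ε) {μ : Type} [Fintype μ]
    (x y : μ → Matrix κ κ A) {c : R} (hcu : IsUnit c)
    (hz : ∀ a, a * ∑ i, x i * ε * y i = (∑ i, x i * ε * y i) * a)
    (hn : NilR R ((∑ i, x i * ε * y i) * ε - c • ε)) : InIdl ⊤ ε (Matrix.scalar κ e) := by
  have hmem : (∑ i, x i * ε * y i) ∈ Set.center (Matrix κ κ A) :=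
    Semigroup.mem_center_iff.2 hz
  rw [Matrix.center_eq_scalar_image] at hmem
  obtain ⟨z, hz0, hzz⟩ := hmem
  have hzc : ∀ b, z * b = b * z := fun b => (Semigroup.mem_center_iff.1 hz0 b).symm
  obtain ⟨v, hv⟩ := hloc z hzc
  have hcen : ∀ b, Commute (z * e - v • e) b := fun b => by
    change (z * e - v • e) * b = b * (z * e - v • e)
    rw [sub_mul, mul_sub, smul_mul_assoc, mul_smul_comm, hc b, mul_assoc, hc b, ← mul_assoc,
      hzc b, mul_assoc]
  have h2 := (hv.map (scalA R A κ)).mul_right (y := ε) (Matrix.scalar_commute _ hcen ε)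
  rw [map_sub, map_mul, map_smul, scalA_apply, scalA_apply, sub_mul, smul_mul_assoc, mul_assoc,
    h1] at h2
  rw [← hzz] at hn hz
  have hvu : IsUnit v := by
    by_contra hvn
    have hcv : IsUnit (c - v) := by
      by_contra hcv
      have h3 : c - v + v ∈ maximalIdeal R := (maximalIdeal R).add_mem hcv hvn
      rw [sub_add_cancel] at h3
      exact h3 hcu
    have hzε : ε * (Matrix.scalar κ z * ε) = Matrix.scalar κ z * ε := by
      rw [← mul_assoc, hz ε, mul_assoc, hε]
    have hzε' : Matrix.scalar κ z * ε * ε = Matrix.scalar κ z * ε := by rw [mul_assoc, hε]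
    have hcm : Commute (Matrix.scalar κ z * ε) ε := hzε'.trans hzε.symm
    have h3 := h2.add hn.neg (((Commute.refl _).sub_right (hcm.smul_right c)).sub_left
      ((hcm.symm.sub_right ((Commute.refl ε).smul_right c)).smul_left v)).neg_right
    have h4 : Matrix.scalar κ z * ε - v • ε + -(Matrix.scalar κ z * ε - c • ε) = (c - v) • ε := by
      rw [sub_smul]
      abel
    rw [h4] at h3
    obtain ⟨u, hu⟩ := hcv.exists_left_inv
    have h5 := h3.smul u
    rw [smul_smul, hu, one_smul] at h5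
    apply hne
    rw [h5.eq_zero hε]
    exact Submodule.zero_mem _
  obtain ⟨w, -, -, hw, -⟩ := exists_inv_corner hR ⊤ he Algebra.mem_top
    (Algebra.mem_top (x := z * e))
    (by rw [← mul_assoc, ← hzc e, mul_assoc z, he, mul_assoc, he]) hvu hv
  refine morita_inIdl (fun i => Matrix.scalar κ w * x i) (fun i => y i * Matrix.scalar κ e)
    (fun _ => Subring.mem_top _) (fun _ => Subring.mem_top _) ?_
  calc Matrix.scalar κ e = Matrix.scalar κ w * (Matrix.scalar κ z * Matrix.scalar κ e) := by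
        rw [← map_mul, ← map_mul, hw]
    _ = _ := by
        rw [hzz, Finset.sum_mul, Finset.mul_sum]
        exact Finset.sum_congr rfl fun i _ => by simp only [mul_assoc]

lemma frk_nil_scalar {z e : A} (hz : ∀ b, z * b = b * z) (he : ∀ b, e * b = b * e)
    (hn : NilR R (e * z)) {ε : Matrix κ κ A} (h1 : Matrix.scalar κ e * ε = ε) :
    NilR R (Matrix.scalar κ z * ε) := by
  have hc : ∀ b, Commute (e * z) b := fun b => Commute.mul_left (he b) (hz b)
  have h2 := (hn.map (scalA R A κ)).mul_right (y := ε) (Matrix.scalar_commute _ hc ε)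
  rwa [he, map_mul, scalA_apply, scalA_apply, mul_assoc, h1] at h2

omit [IsLocalRing R] in
lemma frk_map_scalar {A' : Type} [Ring A'] (τ : A →+* A') (a : A) :
    (τ.mapMatrix : Matrix κ κ A →+* Matrix κ κ A') (Matrix.scalar κ a) =
      Matrix.scalar κ (τ a) := by
  rw [RingHom.mapMatrix_apply, Matrix.scalar_apply, Matrix.scalar_apply,
    Matrix.diagonal_map (map_zero τ)]

lemma frk_inIdl {B B' : Type} [Ring B] [Ring B'] (τ : B →+* B') {e x : B} (h : InIdl ⊤ e x) :
    InIdl ⊤ (τ e) (τ x) := by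
  obtain ⟨n, a, b, -, -, hx⟩ := h
  refine ⟨n, fun i => τ (a i), fun i => τ (b i), fun _ => Subring.mem_top _,
    fun _ => Subring.mem_top _, ?_⟩
  rw [hx, map_sum]
  exact Finset.sum_congr rfl fun i _ => by rw [map_mul, map_mul]

end frkaux

section ring

variable {R D G E : Type} [CommRing R] [IsDomain R] [ValuationRing R] [CommGroup D] [Fintype D]
  [Group G] [Fintype G] [Group E] [Fintype E] {p : ℕ} {ι : D →* G} {φ : E →* MulAut D}
  {e j : MonoidAlgebra R G} {U U' : E → MonoidAlgebra R G}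

/-- An element of the group algebra as an element of `CA R ι ⊥`. -/
def caB (ι : D →* G) (b : MonoidAlgebra R G) : CA R ι ⊥ := ⟨b, mem_CA_bot ι b⟩

omit [IsDomain R] [ValuationRing R] [Fintype D] in
lemma caB_val (b : MonoidAlgebra R G) : (caB ι b : MonoidAlgebra R G) = b := rfl

/-- The identification of the group algebra with `CA R ι ⊥`. -/
noncomputable def frkA (ι : D →* G) : MonoidAlgebra R G →ₐ[R] CA R ι ⊥ :=
  (AlgHom.id R _).codRestrict (CA R ι ⊥) (mem_CA_bot ι)

omit [IsDomain R] [ValuationRing R] [Fintype D] in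
lemma frkA_apply (b : MonoidAlgebra R G) : frkA ι b = caB ι b := rfl

omit [IsDomain R] [ValuationRing R] [Fintype D] in
lemma frk_cent {z : MonoidAlgebra R G} (hz : ∀ b, z * b = b * z) (a : CA R ι ⊥) :
    caB ι z * a = a * caB ι z := Subtype.ext (hz a)

/-- `z = j - e j` is fixed by `D`; `ca_sub_brT`, `FrSet.br`, `inMax_mem_brK`. -/
lemma FrSet.sub_mem_trM (h : FrSet p ι φ e j U U') :
    caJ h.supp ⊥ - caB ι e * caJ h.supp ⊥ ∈ trM R (caD R ι ⊥) ⊤ := by
  have hz : FixedBy (cjI R (caD R ι ⊥)) ⊤ (caJ h.supp ⊥ - caB ι e * caJ h.supp ⊥) := by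
    refine fixedBy_cjI_iff.2 fun u _ => ?_
    rw [mul_sub, sub_mul, h.caJ_comm, ← mul_assoc, ← frk_cent h.blk.cent, mul_assoc, h.caJ_comm,
      mul_assoc]
  have h1 := ca_sub_brT hz
  have h2 := brK_fixed h1
  have h3 : FixedBy (cjI R (caD R ι ⊥)) ⊤ (caP R ι ⊥ (brT R (((⊤ : Subgroup D).map ι : Subgroup G) :
      Set G) (caJ h.supp ⊥ - caB ι e * caJ h.supp ⊥ : CA R ι ⊥))) := fun g hg => by
    have h4 := h2 g hg
    rw [map_sub, hz g hg] at h4
    exact sub_right_injective h4
  have h5 : InMax R (caP R ι ⊥ (brT R (((⊤ : Subgroup D).map ι : Subgroup G) :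
      Set G) (caJ h.supp ⊥ - caB ι e * caJ h.supp ⊥ : CA R ι ⊥))) := by
    refine idem_inMax_map _ ?_
    rw [← MonoidHom.range_eq_map]
    have h6 : InMax R (-brT R (Set.range ι) (e * j - j)) := Submodule.neg_mem _ h.br
    rw [← map_neg, neg_sub] at h6
    exact h6
  have h7 := Submodule.add_mem _ h1 (inMax_mem_brK h5 h3)
  rwa [sub_add_cancel] at h7

variable {h : FrSet p ι φ e j U U'} {X : MRep R D} {ε : Matrix X.κ X.κ (CA R ι ⊥)}

/-- `MinI.mul_eq`, `scalar_mem_trM`. -/
lemma Lvl.block_mul (hε : MinI R (TD ι X ⊥) (TJ h X ⊥) ε) :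
    Matrix.scalar X.κ (caB ι e) * ε = ε := by
  refine hε.mul_eq ?_ (Matrix.scalar_commute _ (frk_cent h.blk.cent) ε) ?_
  · rw [← map_mul]
    exact congrArg _ (Subtype.ext h.blk.idem)
  · rw [← map_mul, ← map_sub]
    exact scalar_mem_trM h.sub_mem_trM

lemma Lvl.nonempty (hX : Lvl h ⊥ X) : Nonempty X.κ := by
  exact frtower_nonempty hX.np.card

/-- `MinI.exists_central` (with `SP.matrix`, `FrSet.sp`) gives a central `z = ∑ x i * ε * y i` with
`z ε - c ε` nilpotent and `c` a unit.  `z` is a scalar matrix `z₀` with `z₀` central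
(`Matrix.center_eq_scalar_image` or compare entries), and `z₀ e - v e` is nilpotent (`IsBlock.loc`).
So `(c - v) ε` is nilpotent, `v` is a unit, and `w z₀ e = e` for some `w` (`exists_inv_corner`). -/
lemma Lvl.full (hX : Lvl h ⊥ X) (hε : MinI R (TD ι X ⊥) (TJ h X ⊥) ε) :
    InIdl ⊤ ε (Matrix.scalar X.κ (caB ι e)) := by
  obtain ⟨μ, _, x, y, c, hc, hz, hn⟩ := hε.exists_central
    (SP.matrix (bouc_unit h.std.prime h.std.pR hX.np.card) (h.sp ⊥))
  have h1 : caB ι e * caB ι e = caB ι e := Subtype.ext h.blk.idem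
  have h2 : ∀ z : CA R ι ⊥, (∀ b, z * b = b * z) → ∃ v : R, NilR R (z * caB ι e - v • caB ι e) := by
    intro z hz
    obtain ⟨v, hv⟩ := h.blk.loc z fun b => congrArg Subtype.val (hz (caB ι b))
    have h3 := hv.map (frkA ι)
    rw [map_sub, map_mul, map_smul, frkA_apply, frkA_apply] at h3
    exact ⟨v, h3⟩
  exact frk_full h.std.split h1 (frk_cent h.blk.cent) h2 hε.idem.eq hε.ne (Lvl.block_mul hε) x y
    hc hz hn

/-- The element is `scalar (e * z) * ε`, and `scalar (e * z)` is central and nilpotent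
(`BlockE.tr`, `NilR.map`, `NilR.mul_right`). -/
lemma Lvl.trace_nil (hε : MinI R (TD ι X ⊥) (TJ h X ⊥) ε) (b : MonoidAlgebra R G) :
    NilR R (Matrix.scalar X.κ (caB ι (∑ g : G, single g 1 * b * single g⁻¹ 1)) * ε) := by
  have hz : ∀ a : MonoidAlgebra R G, (∑ g : G, single g 1 * b * single g⁻¹ 1) * a =
      a * ∑ g : G, single g 1 * b * single g⁻¹ 1 := fun a =>
    (trF_comm_top (isFrame_group R G) b a).symm
  have h0 := h.blk.tr b
  generalize (∑ g : G, single g 1 * b * single g⁻¹ 1 : MonoidAlgebra R G) = z at hz h0 ⊢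
  have h1 := h0.map (frkA ι)
  rw [map_mul, frkA_apply, frkA_apply] at h1
  exact frk_nil_scalar (z := caB ι z) (e := caB ι e) (frk_cent hz) (frk_cent h.blk.cent) h1
    (Lvl.block_mul hε)

/-- `FrSet.exists_units`, `MinI.exists_unit`, `Lvl.corI`, `CorI.exists_finD`. -/
lemma Lvl.exists_finD [Nontrivial D] (hX : Lvl h ⊥ X) (hε : MinI R (TD ι X ⊥) (TJ h X ⊥) ε) :
    ∃ w w' a L r α, FinD (R := R) hε.cor φ w w' a L r α := by
  refine CorI.exists_finD h.std h.cardE h.free (hX.corI hε) fun l => ?_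
  obtain ⟨W, W', hW, hW', h1, h2, hδ⟩ := h.exists_units (hX.tw rfl l)
  exact hε.exists_unit h.std (by rw [← map_mul, h.caJ_idem])
    (fun u => frtower_comm u (h.caJ_comm ⊥ u)) hW hW' h1 h2 hδ

end ring

variable {K : Type} [Field K] {V : ValuationSubring K}

/-- Morita equivalence between the block and the corner of an idempotent matrix: `ι₀` is the
inclusion of the corner, `ι₁ a = single a₀ a₀ a`. -/
lemma finrank_corner_matrix {A : Type} [Ring A] [Algebra K A] {κ : Type} [Fintype κ]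
    [DecidableEq κ] [Nonempty κ] {e : A} (he : IsIdempotentElem e) {ε : Matrix κ κ A}
    (hε : IsIdempotentElem ε) (h1 : Matrix.scalar κ e * ε = ε)
    (h2 : InIdl ⊤ ε (Matrix.scalar κ e)) :
    Module.finrank K (Subalgebra.center K he.Corner) =
      Module.finrank K (Subalgebra.center K hε.Corner) := by
  obtain ⟨a₀⟩ := (inferInstance : Nonempty κ)
  have c0 := cornerEmb_cval (K := K) hε ⊤ (Subring.mem_top _)
  have c1 : CornerEmb (Matrix.singleLinearMap K a₀ a₀ ∘ₗ cval K he) (⊤ : Subring he.Corner)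
      (⊤ : Subring (Matrix κ κ A)) := by
    refine ⟨fun a b => ?_, fun a b hab => Subtype.ext ?_, fun y => ⟨cmk he (y a₀ a₀), ?_⟩,
      fun a => ⟨fun _ => Subring.mem_top _, fun _ => Subring.mem_top _⟩⟩
    · exact (Matrix.single_mul_single_same a.1 a₀ a₀ a₀ b.1).symm
    · have h3 : Matrix.single a₀ a₀ a.1 a₀ a₀ = Matrix.single a₀ a₀ b.1 a₀ a₀ :=
        congrFun (congrFun hab a₀) a₀
      rwa [Matrix.single_apply_same, Matrix.single_apply_same] at h3
    · exact (Matrix.single_mul_mul_single a₀ a₀ a₀ a₀ e y e).symm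
  refine morita_finrank c0 c1 ?_ ?_
  · obtain ⟨n, a, b, -, -, hx⟩ := h2
    refine ⟨n, fun i => Matrix.single a₀ a₀ 1 * a i, b, fun _ => Subring.mem_top _,
      fun _ => Subring.mem_top _, ?_⟩
    change Matrix.single a₀ a₀ e = ∑ i, Matrix.single a₀ a₀ 1 * a i * ε * b i
    calc Matrix.single a₀ a₀ e = Matrix.single a₀ a₀ 1 * Matrix.scalar κ e := by
          rw [frmat_single_scalar, one_mul]
      _ = _ := by
          rw [hx, Finset.mul_sum]
          exact Finset.sum_congr rfl fun i _ => by simp only [mul_assoc]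
  · refine morita_inIdl (fun k => Matrix.single k a₀ 1) (fun k => Matrix.single a₀ k 1 * ε)
      (fun _ => Subring.mem_top _) (fun _ => Subring.mem_top _) ?_
    change ε = ∑ k, Matrix.single k a₀ 1 * Matrix.single a₀ a₀ e * (Matrix.single a₀ k 1 * ε)
    calc ε = Matrix.scalar κ e * ε := h1.symm
      _ = _ := by
          rw [Matrix.scalar_apply, ← Matrix.sum_single_eq_diagonal, Finset.sum_mul]
          refine Finset.sum_congr rfl fun k _ => ?_
          rw [← mul_assoc, Matrix.single_mul_single_same, Matrix.single_mul_single_same, one_mul,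
            mul_one]

lemma frk_nd {A A' μ : Type} [Ring A] [Algebra V A] [Ring A'] [Algebra K A'] [Fintype μ]
    {τ : A →+* A'} {O : Subring A'} (hτ : Loca V τ O) {s : A' →ₗ[K] K} {F F' : μ → A'}
    (hF : IsFrame s ⊤ F F') {ε : A} (hε : IsIdempotentElem ε)
    (hn : ∀ b : A, ∃ z : A, NilR V (z * ε) ∧ τ z = trF F F' (τ b))
    (he' : IsIdempotentElem (τ ε)) (hO : τ ε ∈ O) {τ' : hε.Corner →+* he'.Corner}
    (hτv : ∀ a, (τ' a).1 = τ a.1) (hτ' : Loca V τ' (cornerO he' O hO)) (b : he'.Corner)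
    (hb : b ∈ cornerO he' O hO) :
    NilMod V (cornerO he' O hO) (trF (fun i => cmk he' (F i)) (fun i => cmk he' (F' i)) b) := by
  obtain ⟨b', hb'⟩ := (hτ.mem b.1).1 hb
  obtain ⟨z, hz1, hz2⟩ := hn b'
  have h2 : NilR V (cmk hε z) := by
    rw [nilR_corner, cmk_val, mul_assoc]
    exact nilR_swap (x := z * ε) (y := ε) (by rwa [mul_assoc, hε.eq])
  have h3 : τ' (cmk hε z) = trF (fun i => cmk he' (F i)) (fun i => cmk he' (F' i)) b := by
    refine Subtype.ext ?_
    rw [hτv, trF_corner hF, cmk_val, map_mul, map_mul, hz2, hb', trF_comm_top hF, mul_assoc,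
      he'.eq]
  rw [← h3]
  exact hτ'.nilMod h2

lemma frk_model [CharZero K] [IsAlgClosed K] {D E A A' μ : Type} [CommGroup D] [Fintype D]
    [Nontrivial D] [Group E] [Fintype E] [Ring A] [Algebra V A] [Module.Finite V A]
    [Module.IsTorsionFree V A] [Ring A'] [Algebra K A'] [Fintype μ] {p : ℕ} (hs : Std p V D)
    (hE : ¬ p ∣ Fintype.card E) {φ : E →* MulAut D} (hfree : ∀ l u, φ l u = u → l = 1 ∨ u = 1)
    {τ : A →+* A'} {O : Subring A'} (hτ : Loca V τ O) {s : A' →ₗ[K] K} {F F' : μ → A'}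
    (hF : IsFrame s ⊤ F F') (hFO : ∀ i, F i ∈ O) (hFO' : ∀ i, F' i ∈ O) (hsO : ∀ y ∈ O, s y ∈ V)
    {c : K} (hc0 : c ≠ 0) (h1 : trF F F' 1 = c • 1) {ε : A} (hε : IsIdempotentElem ε)
    {δ : IntHom D hε.Corner} {Pr : Subgroup (D × D) → Prop} (hc : CorI V δ ⊥ Pr)
    {w w' : E → hε.Corner} {a : E → E → V} {L : Subalgebra V hε.Corner}
    {r α : hε.Corner →ₗ[V] hε.Corner} (h : FinD δ φ w w' a L r α)
    (hn : ∀ b : A, ∃ z : A, NilR V (z * ε) ∧ τ z = trF F F' (τ b))
    (hε' : IsIdempotentElem (τ ε)) :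
    Module.finrank K (Subalgebra.center K hε'.Corner) = Module.finrank K (centreModel K φ) := by
  obtain ⟨he', hO, τ', hτv, hτ'⟩ := hτ.corner hε
  obtain ⟨L', δ', u, c', hX, hr⟩ := h.finrank hs hE hc hτ' (hF.corner he')
    (fun i => O.mul_mem (O.mul_mem hO (hFO i)) hO) (fun i => O.mul_mem (O.mul_mem hO (hFO' i)) hO)
    (fun y hy => hsO y.1 hy) (exists_inv_trF_corner hF hc0 h1 he')
    (frk_nd hτ hF hε hn he' hO hτv hτ')
  have h2 := CrossData.finrank_centre (A := L') hfree hX
  have h3 := hr.trans h2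
  exact h3

/-- An abstract form of the last step, to keep the types small.  Use `Loca.matrix`, `Loca.corner`
for `loca_caK`, the frames `IsFrame.corner (IsFrame.matrix (isFrame_group K G) κ)`,
`trF_corner`, `trF_matrix`, `exists_inv_trF_corner` with `c = |κ| |G|`, `Loca.nilMod`,
`nilR_corner`, `FinD.finrank`, `CrossData.finrank_centre`. -/
lemma finrank_corner_model [CharZero K] [IsAlgClosed K] {D G E κ : Type} [CommGroup D] [Fintype D]
    [Nontrivial D] [Group G] [Fintype G] [Group E] [Fintype E] [Fintype κ] [DecidableEq κ]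
    [Nonempty κ] {p : ℕ} (hs : Std p V D) (hE : ¬ p ∣ Fintype.card E) {ι : D →* G}
    {φ : E →* MulAut D} (hfree : ∀ l u, φ l u = u → l = 1 ∨ u = 1)
    {ε : Matrix κ κ (CA V ι ⊥)} (hε : IsIdempotentElem ε) {δ : IntHom D hε.Corner}
    {Pr : Subgroup (D × D) → Prop} (hc : CorI V δ ⊥ Pr) {w w' : E → hε.Corner} {a : E → E → V}
    {L : Subalgebra V hε.Corner} {r α : hε.Corner →ₗ[V] hε.Corner} (h : FinD δ φ w w' a L r α)
    (hn : ∀ b : MonoidAlgebra V G,
      NilR V (Matrix.scalar κ (caB ι (∑ g : G, single g 1 * b * single g⁻¹ 1)) * ε))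
    (hε' : IsIdempotentElem (ε.map (caK V ι))) :
    Module.finrank K (Subalgebra.center K hε'.Corner) = Module.finrank K (centreModel K φ) := by
  classical
  have hsg : ∀ y : G, (single y 1 : MonoidAlgebra K G) ∈ GO V G := fun y => by
    rw [← toK_single (V := V)]
    exact toK_mem _
  refine frk_model hs hE hfree ((loca_caK ι).matrix κ) ((isFrame_group K G).matrix κ)
    (fun t => morita_single_mem (hsg _) _ _) (fun t => morita_single_mem (hsg _) _ _)
    (fun y hy => ?_) (c := (Fintype.card G : K) * (Fintype.card κ : K))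
    (mul_ne_zero (Nat.cast_ne_zero.2 Fintype.card_ne_zero) (Nat.cast_ne_zero.2 Fintype.card_ne_zero))
    ?_ hε hc h (fun b => ⟨_, hn (b.trace : CA V ι ⊥), ?_⟩) hε'
  · exact (sum_mem fun i _ => morita_mem_matrix.1 hy i i : ∑ i, y i i ∈ GO V G) 1
  · rw [trF_matrix (F := fun x : G => (single x 1 : MonoidAlgebra K G))
      (F' := fun x => single x⁻¹ 1), Matrix.trace_one, ← Algebra.algebraMap_eq_smul_one,
      ← morita_scalar_algebraMap]
    refine congrArg _ ?_
    have h1 : ∀ g : G, (single g 1 : MonoidAlgebra K G) * (Fintype.card κ : MonoidAlgebra K G) *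
        single g⁻¹ 1 = (Fintype.card κ : MonoidAlgebra K G) := fun g => by
      rw [← Nat.cast_comm, mul_assoc, MonoidAlgebra.single_mul_single, mul_inv_cancel, mul_one,
        ← MonoidAlgebra.one_def, mul_one]
    rw [trF, Finset.sum_congr rfl fun g _ => h1 g, Finset.sum_const, Finset.card_univ,
      nsmul_eq_mul, map_mul, map_natCast, map_natCast]
  · rw [trF_matrix (F := fun x : G => (single x 1 : MonoidAlgebra K G))
      (F' := fun x => single x⁻¹ 1), frk_map_scalar, RingHom.mapMatrix_apply, ← AddMonoidHom.map_trace, caK_apply,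
      caK_apply, caB_val, trF, map_sum]
    refine congrArg _ (Finset.sum_congr rfl fun g _ => ?_)
    rw [map_mul, map_mul, toK_single, toK_single]

theorem FrSet.finrank [CharZero K] [IsAlgClosed K] {D G E : Type} [CommGroup D] [Fintype D]
    [Nontrivial D] [Group G] [Fintype G] [Group E] [Fintype E] {p : ℕ} {ι : D →* G}
    {φ : E →* MulAut D} {e j : MonoidAlgebra V G} {U U' : E → MonoidAlgebra V G}
    (h : FrSet p ι φ e j U U') :
    Module.finrank K (Subalgebra.center K (idem_toK h.blk.idem).Corner) =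
      Module.finrank K (centreModel K φ) := by
  obtain ⟨X, hX⟩ := h.tower
  obtain ⟨ε, hε⟩ := hX.exists_min bot_ne_top
  have := hX.nonempty
  obtain ⟨w, w', a, L, r, α, hD⟩ := hX.exists_finD hε
  have hε' : IsIdempotentElem (ε.map (caK V ι)) := hε.idem.map (caK V ι).mapMatrix
  have h1 := congrArg (caK V ι).mapMatrix (Lvl.block_mul hε)
  rw [map_mul, frk_map_scalar] at h1
  have h2 := frk_inIdl (caK V ι).mapMatrix (hX.full hε)
  rw [frk_map_scalar] at h2
  exact (finrank_corner_matrix (idem_toK h.blk.idem) hε' h1 h2).trans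
    (finrank_corner_model h.std h.cardE h.free hε.idem (hX.corI hε) hD (Lvl.trace_nil hε) hε')

end Pool.Agent.Lib.MP_b6945b_al.St
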