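import Pool.Agent.Lib.MP_b6945b_al.St.FrRed

set_option autoImplicit false

/-!
Endotrivial representations.
-/

namespace Pool.Agent.Lib.MP_b6945b_al.St

open IsLocalRing
open MonoidAlgebra (single)

variable {D : Type} [CommGroup D] [Fintype D] {Q : Subgroup D} {p : ℕ}

/-- A nonzero invariant subspace has a nonzero fixed vector: the operators `ρ u - 1` are commuting
and nilpotent. -/
lemma exists_fixed_ne_zero {k V : Type} [Field k] [AddCommGroup V] [Module k V] (hs : Std p k D)
    (ρ : Representation k D V) (W : Submodule k V) (hW : ∀ u, ∀ w ∈ W, ρ u w ∈ W) (h0 : W ≠ ⊥) :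
    ∃ w ∈ W, w ≠ 0 ∧ FixedBy ρ ⊤ w := by
  classical
  have key : ∀ t : Finset D, ∃ w ∈ W, w ≠ 0 ∧ ∀ u ∈ t, ρ u w = w := by
    intro t
    induction t using Finset.induction_on with
    | empty =>
      obtain ⟨w, hw, hw0⟩ := (Submodule.ne_bot_iff W).1 h0
      exact ⟨w, hw, hw0, fun u hu => absurd hu (Finset.notMem_empty u)⟩
    | insert a t _ ih =>
      obtain ⟨w, hw, hw0, hfix⟩ := ih
      obtain ⟨n, hn⟩ : IsNilpotent ((ρ a : Module.End k V) - 1) :=
        nilR_field.1 (hs.nil_delta (A := Module.End k V) ρ a)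
      set T : Module.End k V := ρ a - 1 with hT
      have hTa : ∀ v, T v = ρ a v - v := fun v => rfl
      have hgood : ∀ i, (T ^ i) w ∈ W ∧ ∀ u ∈ t, ρ u ((T ^ i) w) = (T ^ i) w := by
        intro i
        induction i with
        | zero => exact ⟨hw, hfix⟩
        | succ i ihi =>
          rw [pow_succ', Module.End.mul_apply, hTa]
          refine ⟨W.sub_mem (hW a _ ihi.1) ihi.1, fun u hu => ?_⟩
          rw [map_sub, ← Module.End.mul_apply, ← map_mul, mul_comm, map_mul,
            Module.End.mul_apply, ihi.2 u hu]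
      have hex : ∃ i, (T ^ i) w = 0 := ⟨n, by rw [hn, LinearMap.zero_apply]⟩
      have h1 := Nat.find_spec hex
      obtain ⟨i, hi⟩ : ∃ i, Nat.find hex = i + 1 := by
        refine Nat.exists_eq_succ_of_ne_zero fun e => hw0 ?_
        rw [e, pow_zero] at h1
        exact h1
      have h2 : (T ^ i) w ≠ 0 := Nat.find_min hex (by omega)
      rw [hi, pow_succ', Module.End.mul_apply, hTa, sub_eq_zero] at h1
      refine ⟨(T ^ i) w, (hgood i).1, h2, fun u hu => ?_⟩
      rcases Finset.mem_insert.1 hu with rfl | hu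
      · exact h1
      · exact (hgood i).2 u hu
  obtain ⟨w, hw, hw0, hfix⟩ := key Finset.univ
  exact ⟨w, hw, hw0, fun u _ => hfix u (Finset.mem_univ u)⟩

lemma bijective_of_fixed {k V : Type} [Field k] [AddCommGroup V] [Module k V]
    [FiniteDimensional k V] (hs : Std p k D) {ρ : Representation k D V} {F : V →ₗ[k] V}
    (hF : EquivOn ρ ρ ⊤ F) (h : ∀ w, FixedBy ρ ⊤ w → F w = w) : Function.Bijective F := by
  have hinj : Function.Injective F := by
    rw [← LinearMap.ker_eq_bot]
    by_contra h0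
    obtain ⟨w, hw, hw0, hfix⟩ := exists_fixed_ne_zero hs ρ (LinearMap.ker F) (fun u w hw => by
      rw [LinearMap.mem_ker] at hw ⊢
      rw [hF u (Subgroup.mem_top u), hw, map_zero]) h0
    exact hw0 ((h w hfix).symm.trans (LinearMap.mem_ker.1 hw))
  exact ⟨hinj, LinearMap.injective_iff_surjective.1 hinj⟩

variable {κ : Type} [Fintype κ] [DecidableEq κ]

omit [Fintype D] in
lemma ntr_cjI {R : Type} [CommRing R] (s : D →* Matrix κ κ R) (u : D) (m : Matrix κ κ R) :
    ntr R κ (cjI R s u m) = ntr R κ m := by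
  rw [ntr_apply, ntr_apply, cjI_apply, Matrix.trace_mul_comm, mul_assoc, delta_inv_mul, mul_one]

omit [DecidableEq κ] in
lemma Std.isUnit_card {R : Type} [CommRing R] [IsLocalRing R] (hs : Std p R D)
    (hn : ¬ p ∣ Fintype.card κ) : IsUnit (Fintype.card κ : R) := by
  exact bouc_unit hs.prime hs.pR hn

lemma ntr_one {R : Type} [CommRing R] (hn : IsUnit (Fintype.card κ : R)) :
    ntr R κ (1 : Matrix κ κ R) = 1 := by
  rw [ntr_apply, Matrix.trace_one, Ring.inverse_mul_cancel _ hn]

omit [Fintype D] in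
lemma frfree_one_fixed {R A : Type} [CommRing R] [Ring A] [Algebra R A] (δ : D →* A)
    (S : Subgroup D) : FixedBy (cjI R δ) S (1 : A) :=
  fixedBy_cjI_iff.2 fun u _ => by rw [mul_one, one_mul]

lemma frfree_equiv {R : Type} [CommRing R] {s : D →* Matrix κ κ R}
    (htriv : ∀ q ∈ Q, s q = 1) (θ : Matrix κ κ R →ₗ[R] Matrix κ κ R) :
    EquivOn (cjI R s) (cjI R s) ⊤ ((ntr R κ).smulRight (1 : Matrix κ κ R) +
      rtr ((cjI R s).linHom (cjI R s)) Q ⊤ θ) := by
  have hq : ∀ q ∈ Q, ∀ m, cjI R s q m = m := by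
    intro q hq m
    rw [cjI_apply, htriv q hq, htriv _ (Q.inv_mem hq), one_mul, mul_one]
  have h1 : FixedBy ((cjI R s).linHom (cjI R s)) Q θ :=
    fixedBy_linHom.2 fun q hq' m => by rw [hq q hq', hq q hq']
  have h2 := fixedBy_linHom.1 (rtr_fixed le_top h1)
  intro g hg m
  rw [LinearMap.add_apply, LinearMap.add_apply, map_add, h2 g hg m, LinearMap.smulRight_apply,
    LinearMap.smulRight_apply, ntr_cjI, map_smul, frfree_one_fixed s ⊤ g hg]

/-- If `F = ntr • 1 + rtr θ` is bijective, its inverse `F'` is equivariant and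
`id = ntr • F' 1 + rtr (F' ∘ θ)` (`comp_rtr`); moreover `F 1 = 1 + rtr (θ 1)`, so
`F' 1 = 1 - rtr (F' (θ 1))` and `ntr • rtr w = rtr (ntr.smulRight w)`. -/
lemma endo_of_bijective {R : Type} [CommRing R] {s : D →* Matrix κ κ R}
    (htriv : ∀ q ∈ Q, s q = 1) (hcard : ¬ p ∣ Fintype.card κ)
    (hn : IsUnit (Fintype.card κ : R)) (θ : Matrix κ κ R →ₗ[R] Matrix κ κ R)
    (h : Function.Bijective ((ntr R κ).smulRight (1 : Matrix κ κ R) +
      rtr ((cjI R s).linHom (cjI R s)) Q ⊤ θ)) : Endo p Q s := by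
  have hE := frfree_equiv htriv θ
  set F := (ntr R κ).smulRight (1 : Matrix κ κ R) +
    rtr ((cjI R s).linHom (cjI R s)) Q ⊤ θ with hF
  let e := LinearEquiv.ofBijective F h
  have he : ∀ m, e m = F m := fun _ => rfl
  have hE' : EquivOn (cjI R s) (cjI R s) ⊤ e.symm.toLinearMap := by
    intro g hg m
    apply e.injective
    change e (e.symm _) = e (cjI R s g (e.symm m))
    rw [e.apply_symm_apply, he, hE g hg, ← he, e.apply_symm_apply]
  have hF1 : F 1 = 1 + rtr (cjI R s) Q ⊤ (θ 1) := by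
    rw [hF, LinearMap.add_apply, LinearMap.smulRight_apply, ntr_one hn, one_smul,
      mackey_rtr_apply_fixed (frfree_one_fixed s ⊤)]
  have h1 : e.symm 1 = 1 - rtr (cjI R s) Q ⊤ (e.symm (θ 1)) := by
    have h2 : e.symm (F 1) = 1 := by rw [← he, e.symm_apply_apply]
    have h3 := rtr_map (S := Q) hE' (θ 1)
    rw [hF1, map_add] at h2
    rw [eq_sub_iff_add_eq]
    exact (congrArg (fun x => e.symm 1 + x) h3).symm.trans h2
  have hsm : EquivOn (cjI R s) ((cjI R s).linHom (cjI R s)) ⊤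
      (LinearMap.smulRightₗ (ntr R κ) : Matrix κ κ R →ₗ[R] Matrix κ κ R →ₗ[R] Matrix κ κ R) := by
    intro g _ w
    refine LinearMap.ext fun m => ?_
    change ntr R κ m • cjI R s g w = cjI R s g (ntr R κ (cjI R s g⁻¹ m) • w)
    rw [ntr_cjI, map_smul]
  refine ⟨htriv, hcard, e.symm.toLinearMap ∘ₗ θ - (ntr R κ).smulRight (e.symm (θ 1)),
    fun m => ?_⟩
  have h4 := LinearMap.congr_fun (rtr_map (S := Q) hsm (e.symm (θ 1))) m
  have h5 := LinearMap.congr_fun (comp_rtr (ρ := cjI R s) (S := Q) hE' θ) m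
  have h6 : e.symm (F m) = m := by rw [← he, e.symm_apply_apply]
  rw [hF, LinearMap.add_apply, LinearMap.smulRight_apply, map_add, map_smul, h1] at h6
  rw [map_sub, LinearMap.sub_apply, ← h5]
  have h7 : rtr ((cjI R s).linHom (cjI R s)) Q ⊤ ((ntr R κ).smulRight (e.symm (θ 1))) m =
      ntr R κ m • rtr (cjI R s) Q ⊤ (e.symm (θ 1)) := h4.symm
  rw [h7]
  conv_lhs => rw [← h6]
  rw [smul_sub, LinearMap.comp_apply]
  change _ = _ + (e.symm _ - _)
  abel

/-- For fixed `f = c • 1 + rtr m` one has `c = ntr f` because `ntr (rtr m) = |D / Q| ntr m = 0`.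
Choose a linear `θ` with `rtr (θ f) = f - ntr f • 1` for all fixed `f` (a projection onto the fixed
space followed by a linear section of `rtr (cjI k s) Q ⊤`); `bijective_of_fixed`,
`endo_of_bijective`. -/
lemma endo_of_fixed {k : Type} [Field k] (hs : Std p k D) (hQ : Q ≠ ⊤) {s : D →* Matrix κ κ k}
    (htriv : ∀ q ∈ Q, s q = 1) (hcard : ¬ p ∣ Fintype.card κ)
    (h : ∀ f, FixedBy (cjI k s) ⊤ f → ∃ (c : k) (m : Matrix κ κ k),
      f = c • 1 + rtr (cjI k s) Q ⊤ m) : Endo p Q s := by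
  classical
  have hn : IsUnit (Fintype.card κ : k) := hs.isUnit_card hcard
  have h0 : ∀ m, ntr k κ (rtr (cjI k s) Q ⊤ m) = 0 := by
    intro m
    let _ : Fintype (D ⧸ Q) := Fintype.ofFinite _
    have h1 := hs.card_quot_mem hQ
    rw [IsLocalRing.maximalIdeal_eq_bot, Ideal.mem_bot, Nat.card_eq_fintype_card] at h1
    rw [rtr_top_apply, map_sum, Finset.sum_congr rfl fun q _ => ntr_cjI s _ m, Finset.sum_const,
      Finset.card_univ, nsmul_eq_mul, h1, zero_mul]
  have hmem : ∀ f : bouc_fix (cjI k s) ⊤,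
      ((LinearMap.id - (ntr k κ).smulRight (1 : Matrix κ κ k)).domRestrict
        (bouc_fix (cjI k s) ⊤)) f ∈ LinearMap.range (rtr (cjI k s) Q ⊤) := by
    intro f
    obtain ⟨c, m, hf⟩ := h f.1 f.2
    refine ⟨m, ?_⟩
    change _ = f.1 - ntr k κ f.1 • 1
    have hc : ntr k κ f.1 = c := by
      rw [hf, map_add, map_smul, ntr_one hn, h0, smul_eq_mul, mul_one, add_zero]
    rw [hc, eq_sub_iff_add_eq, add_comm, ← hf]
  obtain ⟨g, hg⟩ := LinearMap.exists_rightInverse_of_surjective
    (rtr (cjI k s) Q ⊤).rangeRestrict (LinearMap.range_rangeRestrict _)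
  obtain ⟨θ, hθ⟩ := LinearMap.exists_extend (g ∘ₗ LinearMap.codRestrict _ _ hmem)
  refine endo_of_bijective htriv hcard hn θ
    (bijective_of_fixed hs (frfree_equiv htriv θ) fun w hw => ?_)
  have h1 := LinearMap.congr_fun hθ ⟨w, hw⟩
  have h2 := congrArg Subtype.val
    (LinearMap.congr_fun hg (LinearMap.codRestrict _ _ hmem ⟨w, hw⟩))
  have h3 : rtr (cjI k s) Q ⊤ (θ w) = w - ntr k κ w • 1 :=
    (congrArg (rtr (cjI k s) Q ⊤) h1).trans h2
  rw [LinearMap.add_apply, LinearMap.smulRight_apply, mackey_rtr_apply_fixed hw, h3,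
    add_sub_cancel]

variable {R : Type} [CommRing R] [IsLocalRing R]

/-- The reduction of a matrix representation. -/
noncomputable def resS (s : D →* Matrix κ κ R) : D →* Matrix κ κ (ResidueField R) :=
  (residue R).mapMatrix.toMonoidHom.comp s

omit [Fintype D] in
lemma resS_apply (s : D →* Matrix κ κ R) (u : D) : resS s u = (s u).map (residue R) := rfl

omit [Fintype D] in
lemma resS_dualS (s : D →* Matrix κ κ R) : resS (dualS s) = dualS (resS s) := by
  rfl

/-- Lift `θ` (`Red.lift`); the map `ntr • 1 + rtr θ` is the identity modulo the maximal ideal, so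
surjective (`idem_surj`), so bijective (`OrzechProperty`). -/
lemma Endo.lift (hs : Std p R D) {s : D →* Matrix κ κ R} (htriv : ∀ q ∈ Q, s q = 1)
    (h : Endo p Q (resS s)) : Endo p Q s := by
  classical
  obtain ⟨θ₀, hθ₀⟩ := h.hig
  have hτ : Red R (fun x : Matrix κ κ R => x.map (residue R)) := red_residue.matrix κ κ
  obtain ⟨θ, hθ⟩ := hτ.lift hτ θ₀
  have hn : IsUnit (Fintype.card κ : R) := hs.isUnit_card h.card
  have hcj : ∀ u (x : Matrix κ κ R), (cjI R s u x).map (residue R) =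
      cjI (ResidueField R) (resS s) u (x.map (residue R)) := by
    intro u x
    rw [cjI_apply, cjI_apply, Matrix.map_mul, Matrix.map_mul, resS_apply, resS_apply]
  have hntr : ∀ x : Matrix κ κ R,
      residue R (ntr R κ x) = ntr (ResidueField R) κ (x.map (residue R)) := by
    intro x
    have h1 : residue R (Ring.inverse (Fintype.card κ : R)) =
        Ring.inverse (Fintype.card κ : ResidueField R) := by
      have h2 : IsUnit (Fintype.card κ : ResidueField R) := by
        rw [← map_natCast (residue R)]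
        exact hn.map _
      apply h2.mul_right_cancel
      rw [Ring.inverse_mul_cancel _ h2, ← map_natCast (residue R), ← map_mul,
        Ring.inverse_mul_cancel _ hn, map_one]
    rw [ntr_apply, ntr_apply, map_mul, h1]
    congr 1
    simp only [Matrix.trace, map_sum, Matrix.diag_apply, Matrix.map_apply]
  have hrtr : ∀ x : Matrix κ κ R,
      (rtr ((cjI R s).linHom (cjI R s)) Q ⊤ θ x).map (residue R) =
        rtr ((cjI (ResidueField R) (resS s)).linHom (cjI (ResidueField R) (resS s))) Q ⊤ θ₀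
          (x.map (residue R)) := by
    intro x
    let _ : Fintype (D ⧸ Q) := Fintype.ofFinite _
    rw [rtr_top_apply, rtr_top_apply, LinearMap.sum_apply, LinearMap.sum_apply]
    refine (hτ.map_sum _ _).trans (Finset.sum_congr rfl fun q _ => ?_)
    change (cjI R s q.out (θ (cjI R s q.out⁻¹ x))).map (residue R) =
      cjI (ResidueField R) (resS s) q.out
        (θ₀ (cjI (ResidueField R) (resS s) q.out⁻¹ (x.map (residue R))))
    rw [hcj, ← hcj q.out⁻¹, hθ]
  have hsurj : Function.Surjective ((ntr R κ).smulRight (1 : Matrix κ κ R) +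
      rtr ((cjI R s).linHom (cjI R s)) Q ⊤ θ) := by
    refine idem_surj _ fun x => (hτ.ker _).1 ?_
    refine (hτ.map_sub _ _).trans (sub_eq_zero.2 ?_)
    rw [LinearMap.add_apply, LinearMap.smulRight_apply]
    refine Eq.trans ?_ (hτ.add _ _).symm
    have h3 := hτ.smul (ntr R κ x) 1
    rw [h3, hrtr, hntr, Matrix.map_one _ (map_zero _) (map_one _)]
    exact hθ₀ _
  exact endo_of_bijective htriv h.card hn θ
    ⟨OrzechProperty.injective_of_surjective_endomorphism _ hsurj, hsurj⟩

omit [IsLocalRing R] [Fintype D] in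
lemma frfree_scalar {A : Type} [Ring A] [Algebra R A] (ρ : A →ₐ[R] Matrix κ κ R)
    (hρ : Function.Surjective ρ) {b : A} (hb : ∀ a, b * a = a * b) :
    ∃ c : R, Matrix.scalar κ c = ρ b := by
  have h : ρ b ∈ Set.center (Matrix κ κ R) := Semigroup.mem_center_iff.2 fun m => by
    obtain ⟨a, rfl⟩ := hρ m
    rw [← map_mul, ← map_mul, hb]
  rw [Matrix.center_eq_scalar_image] at h
  obtain ⟨c, -, hc⟩ := h
  exact ⟨c, hc⟩

/-- A central element maps to a scalar `c` with `c ^ n = 1` and `c ^ |D| = 1`. -/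
lemma Canon.triv {A : Type} [Ring A] [Algebra R A] (hs : Std p R D) {δ : D →* A}
    {s : D →* Matrix κ κ R} (h : Canon δ s) (hn : ¬ p ∣ Fintype.card κ)
    (hc : ∀ q ∈ Q, ∀ a, δ q * a = a * δ q) : ∀ q ∈ Q, s q = 1 := by
  intro q hq
  obtain ⟨ρ, hρ, hδ, hdet⟩ := h
  obtain ⟨c, hcq⟩ := frfree_scalar ρ hρ (hc q hq)
  rw [hδ] at hcq
  haveI : Nonempty κ := by
    rw [← Fintype.card_pos_iff]
    refine Nat.pos_of_ne_zero fun h0 => hn ?_
    rw [h0]
    exact dvd_zero p
  have h1 : c ^ Fintype.card κ = 1 := by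
    have h2 := hdet q
    rwa [← hcq, Matrix.scalar_apply, Matrix.det_diagonal, Finset.prod_const,
      Finset.card_univ] at h2
  obtain ⟨e, he⟩ := hs.pD q
  have h3 : c ^ p ^ e = 1 := by
    refine (Matrix.scalar_inj (n := κ)).1 ?_
    rw [map_pow, hcq, ← map_pow, he, map_one, map_one]
  have h4 : Nat.Coprime (p ^ e) (Fintype.card κ) :=
    Nat.Coprime.pow_left e ((Nat.Prime.coprime_iff_not_dvd hs.prime).2 hn)
  have h5 : c = 1 := by
    have h6 : orderOf c ∣ Nat.gcd (p ^ e) (Fintype.card κ) :=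
      Nat.dvd_gcd (orderOf_dvd_of_pow_eq_one h3) (orderOf_dvd_of_pow_eq_one h1)
    rw [h4.gcd_eq_one, Nat.dvd_one] at h6
    exact orderOf_eq_one_iff.1 h6
  rw [← hcq, h5, map_one]

/-- Over a field of characteristic `p` a central image of a `p`-element is trivial. -/
lemma triv_of_cent {k B : Type} [Field k] [Ring B] [Algebra k B] (hs : Std p k D) {δ : D →* B}
    (ρ : B →ₐ[k] Matrix κ κ k) (hρ : Function.Surjective ρ)
    (hc : ∀ q ∈ Q, ∀ a, δ q * a = a * δ q) : ∀ q ∈ Q, ρ (δ q) = 1 := by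
  intro q hq
  obtain ⟨c, hcq⟩ := frfree_scalar ρ hρ (hc q hq)
  rcases isEmpty_or_nonempty κ with hκ | hκ
  · exact Subsingleton.elim _ _
  · have h1 : IsNilpotent (ρ (δ q - 1)) := (nilR_field.1 (hs.nil_delta δ q)).map ρ
    rw [map_sub, map_one, ← hcq, ← map_one (Matrix.scalar κ), ← map_sub] at h1
    have h2 : c - 1 = 0 := by
      by_contra h3
      exact ((IsUnit.mk0 _ h3).map (Matrix.scalar κ)).not_isNilpotent h1
    rw [← hcq, sub_eq_zero.1 h2, map_one]

/-- Over a field of characteristic `p` the determinant of a `p`-element is one. -/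
lemma Std.det_eq_one {k : Type} [Field k] (hs : Std p k D) (s : D →* Matrix κ κ k) (u : D) :
    (s u).det = 1 := by
  have h1 : IsNilpotent ((Matrix.detMonoidHom.comp s) u - 1) :=
    nilR_field.1 (hs.nil_delta (Matrix.detMonoidHom.comp s) u)
  exact sub_eq_zero.1 h1.eq_zero

end Pool.Agent.Lib.MP_b6945b_al.St
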