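import Pool.Agent.Lib.MP_b6945b_al.St.FrRk2
import Pool.Agent.Lib.MP_b6945b_al.St.FrFree

set_option autoImplicit false

/-!
Matrix representations of `D` up to isomorphism.
-/

namespace Pool.Agent.Lib.MP_b6945b_al.St

open IsLocalRing
open MonoidAlgebra (single)

section twiso

variable {R D κ κ' κ'' μ μ' : Type} [CommRing R] [CommGroup D] [Fintype κ] [DecidableEq κ]
  [Fintype κ'] [DecidableEq κ'] [Fintype κ''] [DecidableEq κ''] [Fintype μ] [DecidableEq μ]
  [Fintype μ'] [DecidableEq μ'] {s : D →* Matrix κ κ R} {s' : D →* Matrix κ' κ' R}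
  {s'' : D →* Matrix κ'' κ'' R} {t : D →* Matrix μ μ R} {t' : D →* Matrix μ' μ' R}
  {ψ ψ' : MulAut D}

lemma frRep_kronS (s : D →* Matrix κ κ R) (t : D →* Matrix μ μ R) (u : D) :
    kronS s t u = Matrix.kroneckerMap (· * ·) (s u) (t u) := rfl

lemma frRep_inv {v : Matrix κ' κ R} {v' : Matrix κ κ' R} (h1 : v * v' = 1) (h2 : v' * v = 1)
    (h3 : ∀ u, v * s u = s' (ψ u) * v) (u : D) : s u * v' = v' * s' (ψ u) := by
  calc s u * v' = v' * v * s u * v' := by rw [h2, Matrix.one_mul]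
    _ = v' * (v * s u) * v' := by simp only [Matrix.mul_assoc]
    _ = v' * s' (ψ u) * (v * v') := by rw [h3]; simp only [Matrix.mul_assoc]
    _ = v' * s' (ψ u) := by rw [h1, Matrix.mul_one]

/-- The map `m ↦ v * m * v'`. -/
def frRepSw (v : Matrix κ' κ R) (v' : Matrix κ κ' R) : Matrix κ κ R →ₗ[R] Matrix κ' κ' R where
  toFun m := v * m * v'
  map_add' a b := by rw [Matrix.mul_add, Matrix.add_mul]
  map_smul' r a := by rw [Matrix.mul_smul, Matrix.smul_mul, RingHom.id_apply]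

omit [DecidableEq κ] [Fintype κ'] [DecidableEq κ'] in
lemma frRepSw_apply (v : Matrix κ' κ R) (v' : Matrix κ κ' R) (m : Matrix κ κ R) :
    frRepSw v v' m = v * m * v' := rfl

lemma frRep_ext {W : Type} [AddCommGroup W] [Module R W]
    {F G : Matrix (κ × μ) (κ × μ) R →ₗ[R] W}
    (h : ∀ (a : Matrix κ κ R) (b : Matrix μ μ R),
      F (Matrix.kroneckerMap (· * ·) a b) = G (Matrix.kroneckerMap (· * ·) a b)) : F = G := by
  have e : F ∘ₗ (kroneckerLinearEquiv κ κ μ μ R).toLinearMap =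
      G ∘ₗ (kroneckerLinearEquiv κ κ μ μ R).toLinearMap :=
    TensorProduct.ext' fun a b => h a b
  refine LinearMap.ext fun m => ?_
  obtain ⟨x, rfl⟩ := (kroneckerLinearEquiv κ κ μ μ R).surjective m
  exact LinearMap.congr_fun e x

variable (μ) in
/-- The map `Θ ↦ Θ ⊗ id`. -/
noncomputable def frRepL : (Matrix κ κ R →ₗ[R] Matrix κ κ R) →ₗ[R]
    (Matrix (κ × μ) (κ × μ) R →ₗ[R] Matrix (κ × μ) (κ × μ) R) :=
  (kroneckerLinearEquiv κ κ μ μ R).conj.toLinearMap ∘ₗ
    LinearMap.rTensorHom (Matrix μ μ R)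

lemma frRepL_kron (Θ : Matrix κ κ R →ₗ[R] Matrix κ κ R) (a : Matrix κ κ R) (b : Matrix μ μ R) :
    frRepL μ Θ (Matrix.kroneckerMap (· * ·) a b) = Matrix.kroneckerMap (· * ·) (Θ a) b := by
  change kroneckerLinearEquiv κ κ μ μ R (LinearMap.rTensor (Matrix μ μ R) Θ
    ((kroneckerLinearEquiv κ κ μ μ R).symm (Matrix.kroneckerMap (· * ·) a b))) = _
  rw [kroneckerLinearEquiv_symm_kronecker, LinearMap.rTensor_tmul,
    kroneckerLinearEquiv_tmul]

variable (μ) in
/-- The map `m ↦ a ⊗ m`. -/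
noncomputable def frRepUp (a : Matrix κ κ R) : Matrix μ μ R →ₗ[R] Matrix (κ × μ) (κ × μ) R :=
  (kroneckerLinearEquiv κ κ μ μ R).toLinearMap ∘ₗ TensorProduct.mk R _ _ a

lemma frRepUp_apply (a : Matrix κ κ R) (b : Matrix μ μ R) :
    frRepUp μ a b = Matrix.kroneckerMap (· * ·) a b := rfl

variable (μ) in
/-- The contraction with `f`. -/
noncomputable def frRepDown (f : Matrix κ κ R →ₗ[R] R) :
    Matrix (κ × μ) (κ × μ) R →ₗ[R] Matrix μ μ R :=
  (TensorProduct.lid R (Matrix μ μ R)).toLinearMap ∘ₗ LinearMap.rTensor (Matrix μ μ R) f ∘ₗ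
    (kroneckerLinearEquiv κ κ μ μ R).symm.toLinearMap

lemma frRepDown_kron (f : Matrix κ κ R →ₗ[R] R) (a : Matrix κ κ R) (b : Matrix μ μ R) :
    frRepDown μ f (Matrix.kroneckerMap (· * ·) a b) = f a • b := by
  change TensorProduct.lid R (Matrix μ μ R) (LinearMap.rTensor (Matrix μ μ R) f
    ((kroneckerLinearEquiv κ κ μ μ R).symm (Matrix.kroneckerMap (· * ·) a b))) = _
  rw [kroneckerLinearEquiv_symm_kronecker, LinearMap.rTensor_tmul, TensorProduct.lid_tmul]

lemma frRep_cj_kron (s : D →* Matrix κ κ R) (t : D →* Matrix μ μ R) (g : D) (a : Matrix κ κ R)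
    (b : Matrix μ μ R) : cjI R (kronS s t) g (Matrix.kroneckerMap (· * ·) a b) =
      Matrix.kroneckerMap (· * ·) (cjI R s g a) (cjI R t g b) := by
  rw [cjI_apply, cjI_apply, cjI_apply, frRep_kronS, frRep_kronS, Matrix.mul_kronecker_mul,
    Matrix.mul_kronecker_mul]

lemma frRep_ntr_cj (s : D →* Matrix κ κ R) (g : D) (m : Matrix κ κ R) :
    ntr R κ (cjI R s g m) = ntr R κ m := by
  rw [ntr_apply, ntr_apply, cjI_apply, Matrix.trace_mul_comm, mul_assoc, delta_inv_mul, mul_one]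

lemma frRep_one_fixed (s : D →* Matrix κ κ R) (S : Subgroup D) :
    FixedBy (cjI R s) S (1 : Matrix κ κ R) := fun g _ => by
  rw [cjI_apply, one_mul, delta_mul_inv]

lemma frRep_e_mem [Fintype D] {Pr : Subgroup D → Prop} {S : Subgroup D} (hS : Pr S) :
    (ntr R κ).smulRight (1 : Matrix κ κ R) ∈ rk1span (cjI R s) Pr S :=
  smulRight_mem_rk1span hS (fun g _ m => frRep_ntr_cj s g m) (frRep_one_fixed s S)

lemma TwIso.refl (s : D →* Matrix κ κ R) : TwIso 1 s s := by
  exact ⟨1, 1, Matrix.mul_one _, Matrix.mul_one _, fun u => by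
    rw [Matrix.one_mul, Matrix.mul_one, MulAut.one_apply]⟩

lemma TwIso.symm (h : TwIso ψ s s') : TwIso ψ⁻¹ s' s := by
  obtain ⟨v, v', h1, h2, h3⟩ := h
  refine ⟨v', v, h2, h1, fun u => ?_⟩
  have h4 := h3 (ψ⁻¹ u)
  rw [MulAut.apply_inv_self] at h4
  calc v' * s' u = v' * s' u * (v * v') := by rw [h1, Matrix.mul_one]
    _ = v' * (s' u * v) * v' := by simp only [Matrix.mul_assoc]
    _ = v' * v * s (ψ⁻¹ u) * v' := by rw [← h4]; simp only [Matrix.mul_assoc]
    _ = s (ψ⁻¹ u) * v' := by rw [h2, Matrix.one_mul]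

lemma TwIso.trans (h : TwIso ψ s s') (h' : TwIso ψ' s' s'') : TwIso (ψ' * ψ) s s'' := by
  obtain ⟨v, v', h1, h2, h3⟩ := h
  obtain ⟨w, w', k1, k2, k3⟩ := h'
  refine ⟨w * v, v' * w', ?_, ?_, fun u => ?_⟩
  · rw [Matrix.mul_assoc, ← Matrix.mul_assoc v, h1, Matrix.one_mul, k1]
  · rw [Matrix.mul_assoc, ← Matrix.mul_assoc w', k2, Matrix.one_mul, h2]
  · rw [Matrix.mul_assoc, h3, ← Matrix.mul_assoc, k3, Matrix.mul_assoc, MulAut.mul_apply]

lemma TwIso.kron (h : TwIso ψ s s') (h' : TwIso ψ t t') : TwIso ψ (kronS s t) (kronS s' t') := by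
  obtain ⟨v, v', h1, h2, h3⟩ := h
  obtain ⟨w, w', k1, k2, k3⟩ := h'
  refine ⟨Matrix.kroneckerMap (· * ·) v w, Matrix.kroneckerMap (· * ·) v' w', ?_, ?_, fun u => ?_⟩
  · rw [← Matrix.mul_kronecker_mul, h1, k1, Matrix.one_kronecker_one]
  · rw [← Matrix.mul_kronecker_mul, h2, k2, Matrix.one_kronecker_one]
  · rw [frRep_kronS, frRep_kronS, ← Matrix.mul_kronecker_mul, ← Matrix.mul_kronecker_mul, h3, k3]

/-- An isomorphism induced by a bijection of the index sets. -/
lemma twIso_of_equiv (e : κ ≃ κ') (h : ∀ u a b, s' u (e a) (e b) = s u a b) : TwIso 1 s s' := by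
  refine ⟨(1 : Matrix κ κ R).submatrix e.symm id, (1 : Matrix κ κ R).submatrix id e.symm,
    ?_, ?_, fun u => ?_⟩
  · ext a b
    simp [Matrix.mul_apply, Matrix.one_apply]
  · ext a b
    rw [Matrix.mul_apply, ← e.sum_comp]
    simp [Matrix.one_apply]
  · ext a b
    obtain ⟨a, rfl⟩ := e.surjective a
    rw [Matrix.mul_apply, Matrix.mul_apply, ← e.sum_comp]
    simp [Matrix.one_apply, h]

lemma twIso_assoc (s : D →* Matrix κ κ R) (s' : D →* Matrix κ' κ' R)
    (s'' : D →* Matrix κ'' κ'' R) : TwIso 1 (kronS (kronS s s') s'') (kronS s (kronS s' s'')) := by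
  refine twIso_of_equiv (Equiv.prodAssoc κ κ' κ'') fun u a b => ?_
  simp only [kronS_apply, Equiv.prodAssoc_apply, mul_assoc]

lemma twIso_comm (s : D →* Matrix κ κ R) (s' : D →* Matrix κ' κ' R) :
    TwIso 1 (kronS s s') (kronS s' s) := by
  refine twIso_of_equiv (Equiv.prodComm κ κ') fun u a b => ?_
  simp only [kronS_apply, Equiv.prodComm_apply, Prod.fst_swap, Prod.snd_swap, mul_comm]

lemma twIso_one_kron (s : D →* Matrix κ κ R) :
    TwIso 1 (kronS (1 : D →* Matrix Unit Unit R) s) s := by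
  refine twIso_of_equiv (Equiv.punitProd κ) fun u a b => ?_
  simp [kronS_apply]

lemma TwIso.triv {Q : Subgroup D} (h : TwIso 1 s s') (hs : ∀ q ∈ Q, s q = 1) :
    ∀ q ∈ Q, s' q = 1 := by
  obtain ⟨v, v', h1, -, h3⟩ := h
  intro q hq
  have h4 := h3 q
  rw [hs q hq, Matrix.mul_one, MulAut.one_apply] at h4
  calc s' q = s' q * (v * v') := by rw [h1, Matrix.mul_one]
    _ = v * v' := by rw [← Matrix.mul_assoc, ← h4]
    _ = 1 := h1

/-- `Matrix.square_of_invertible` or invariance of the rank. -/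
lemma TwIso.card [Nontrivial R] (h : TwIso ψ s s') : Fintype.card κ = Fintype.card κ' := by
  obtain ⟨v, v', h1, h2, -⟩ := h
  exact Matrix.square_of_invertible v' v h2 h1

variable [Fintype D] {p : ℕ} {Pr : Subgroup D → Prop} {Q : Subgroup D}

/-- `rk1span_comp` with `m ↦ v * m * v'`. -/
lemma NP.iso [Nontrivial R] (h : TwIso 1 s s') (hs : NP p Pr s) : NP p Pr s' := by
  have hc := h.card
  refine ⟨hc ▸ hs.card, ?_⟩
  obtain ⟨v, v', h1, h2, h3⟩ := h
  have h4 := frRep_inv h1 h2 h3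
  simp only [MulAut.one_apply] at h3 h4
  have key := rk1span_comp (ρ := cjI R s) (ρ' := cjI R s') (F := frRepSw v v')
    (F' := frRepSw v' v) (fun g _ m => ?_) (fun g _ m => ?_) hs.rk
  · have e : frRepSw v v' ∘ₗ (LinearMap.id - (ntr R κ).smulRight (1 : Matrix κ κ R)) ∘ₗ
        frRepSw v' v = LinearMap.id - (ntr R κ').smulRight (1 : Matrix κ' κ' R) := by
      refine LinearMap.ext fun m => ?_
      simp only [LinearMap.comp_apply, LinearMap.sub_apply, LinearMap.id_apply,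
        LinearMap.smulRight_apply, map_sub, map_smul, frRepSw_apply]
      have t1 : ntr R κ (v' * m * v) = ntr R κ' m := by
        rw [ntr_apply, ntr_apply, hc, Matrix.trace_mul_comm, ← Matrix.mul_assoc, h1,
          Matrix.one_mul]
      rw [t1, Matrix.mul_one, h1]
      congr 1
      calc v * (v' * m * v) * v' = v * v' * m * (v * v') := by simp only [Matrix.mul_assoc]
        _ = m := by rw [h1, Matrix.one_mul, Matrix.mul_one]
    rwa [e] at key
  · simp only [frRepSw_apply, cjI_apply]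
    calc v * (s g * (m * s g⁻¹)) * v' = v * s g * m * (s g⁻¹ * v') := by
          simp only [Matrix.mul_assoc]
      _ = s' g * (v * m * v' * s' g⁻¹) := by rw [h3, h4]; simp only [Matrix.mul_assoc]
  · simp only [frRepSw_apply, cjI_apply]
    calc v' * (s' g * (m * s' g⁻¹)) * v = v' * s' g * m * (s' g⁻¹ * v) := by
          simp only [Matrix.mul_assoc]
      _ = s g * (v' * m * v * s g⁻¹) := by rw [← h3, ← h4]; simp only [Matrix.mul_assoc]

lemma np_one (hp : p.Prime) : NP p Pr (1 : D →* Matrix Unit Unit R) := by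
  refine ⟨by simpa using hp.one_lt.ne', ?_⟩
  have e : LinearMap.id - (ntr R Unit).smulRight (1 : Matrix Unit Unit R) = 0 := by
    refine LinearMap.ext fun m => ?_
    ext a b
    simp [ntr_apply, Matrix.trace]
  rw [e]
  exact Submodule.zero_mem _

/-- `rtr_mem_rk1span_of_triv`. -/
lemma Endo.np (h : Endo p Q s) (hQ : Pr Q) : NP p Pr s := by
  refine ⟨h.card, ?_⟩
  obtain ⟨θ, hθ⟩ := h.hig
  have e : LinearMap.id - (ntr R κ).smulRight (1 : Matrix κ κ R) =
      rtr ((cjI R s).linHom (cjI R s)) Q ⊤ θ := by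
    refine LinearMap.ext fun m => ?_
    rw [LinearMap.sub_apply, LinearMap.id_apply, LinearMap.smulRight_apply, sub_eq_iff_eq_add']
    exact hθ m
  rw [e]
  refine rtr_mem_rk1span_of_triv hQ le_top (fun m g hg => ?_) θ
  rw [cjI_apply, h.triv g hg, h.triv _ (Q.inv_mem hg), mul_one, one_mul]

/-- Write `e₁ = ntr.smulRight 1`; `id ⊗ id - e₁ ⊗ e₂ = (id - e₁) ⊗ id + e₁ ⊗ (id - e₂)`.  Use
`rk1span_lift` for `Θ ↦ Θ ⊗ id` on `Matrix (κ × μ) (κ × μ) R`: `(f.smulRight a) ⊗ id` is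
`up a ∘ id ∘ down f` with `up a m = a ⊗ m` and `down f` the contraction with `f` (`rk1span_comp`),
and `id = e₂ + (id - e₂)` lies in the span for `S` by `rk1span_res`, `smulRight_mem_rk1span`.  The
normalised trace is multiplicative since both cardinalities are units. -/
lemma NP.kron [IsLocalRing R] (hR : Std p R D) (hPr : ∀ S S', Pr S → Pr S' → Pr (S ⊓ S'))
    (hs : NP p Pr s) (ht : NP p Pr t) : NP p Pr (kronS s t) := by
  refine ⟨?_, ?_⟩
  · rw [Fintype.card_prod, hR.prime.dvd_mul, not_or]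
    exact ⟨hs.card, ht.card⟩
  have hid : ∀ S, Pr S → LinearMap.id ∈ rk1span (cjI R t) Pr S := fun S hS => by
    have a1 := rk1span_mono (Pr' := Pr) (fun S' _ h => by
      obtain ⟨S₀, h0, rfl⟩ := h
      exact hPr _ _ hS h0) (rk1span_res (T := S) le_top ht.rk)
    have a2 := frRep_e_mem (s := t) hS
    simpa using Submodule.add_mem _ a1 a2
  have hup : ∀ (S : Subgroup D) (a : Matrix κ κ R), FixedBy (cjI R s) S a →
      EquivOn (cjI R t) (cjI R (kronS s t)) S (frRepUp μ a) := fun S a ha g hg m => by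
    rw [frRepUp_apply, frRepUp_apply, frRep_cj_kron, ha g hg]
  have hdown : ∀ (S : Subgroup D) (f : Matrix κ κ R →ₗ[R] R),
      (∀ g ∈ S, ∀ m, f (cjI R s g m) = f m) →
      EquivOn (cjI R (kronS s t)) (cjI R t) S (frRepDown μ f) := fun S f hf g hg m => by
    have e : frRepDown μ f ∘ₗ cjI R (kronS s t) g = cjI R t g ∘ₗ frRepDown μ f := by
      refine frRep_ext fun a b => ?_
      rw [LinearMap.comp_apply, LinearMap.comp_apply, frRep_cj_kron, frRepDown_kron,
        frRepDown_kron, hf g hg, map_smul]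
    exact LinearMap.congr_fun e m
  have b1 : frRepL μ (LinearMap.id - (ntr R κ).smulRight (1 : Matrix κ κ R)) ∈
      rk1span (cjI R (kronS s t)) Pr ⊤ := by
    refine rk1span_lift (ρ := cjI R s) (frRepL μ) (fun g _ Θ => ?_)
      (fun S hS _ f a hf ha => ?_) hs.rk
    · refine frRep_ext fun a b => ?_
      rw [Representation.linHom_apply, Representation.linHom_apply]
      simp only [LinearMap.comp_apply, frRepL_kron, frRep_cj_kron]
      rw [← Module.End.mul_apply (cjI R t g), ← map_mul, mul_inv_cancel, map_one,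
        Module.End.one_apply]
    · have e : frRepL μ (f.smulRight a) = frRepUp μ a ∘ₗ LinearMap.id ∘ₗ frRepDown μ f := by
        refine frRep_ext fun x y => ?_
        simp only [LinearMap.comp_apply, frRepL_kron, frRepDown_kron, LinearMap.id_apply,
          frRepUp_apply, LinearMap.smulRight_apply, Matrix.smul_kronecker, Matrix.kronecker_smul]
      rw [e]
      exact rk1span_comp (hup S a ha) (hdown S f hf) (hid S hS)
  have b2 := rk1span_comp (hup ⊤ 1 (frRep_one_fixed s ⊤)) (hdown ⊤ (ntr R κ)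
    (fun g _ m => frRep_ntr_cj s g m)) ht.rk
  have e : LinearMap.id - (ntr R (κ × μ)).smulRight (1 : Matrix (κ × μ) (κ × μ) R) =
      frRepL μ (LinearMap.id - (ntr R κ).smulRight (1 : Matrix κ κ R)) +
      frRepUp μ (1 : Matrix κ κ R) ∘ₗ (LinearMap.id - (ntr R μ).smulRight (1 : Matrix μ μ R)) ∘ₗ
        frRepDown μ (ntr R κ) := by
    refine frRep_ext fun a b => ?_
    have t1 : ntr R (κ × μ) (Matrix.kroneckerMap (· * ·) a b) = ntr R κ a * ntr R μ b := by
      rw [ntr_apply, ntr_apply, ntr_apply, Matrix.trace_kronecker, Fintype.card_prod, Nat.cast_mul,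
        Ring.mul_inverse_rev]
      ring
    simp only [LinearMap.comp_apply, LinearMap.add_apply, frRepL_kron, frRepDown_kron,
      frRepUp_apply, LinearMap.sub_apply, LinearMap.id_apply, LinearMap.smulRight_apply, t1,
      map_smul]
    ext x y
    simp only [Matrix.kroneckerMap_apply, Matrix.sub_apply, Matrix.add_apply, Matrix.smul_apply,
      smul_eq_mul, ← Matrix.one_kronecker_one (m := κ) (n := μ) (α := R)]
    ring
  rw [e]
  exact Submodule.add_mem _ b1 b2

/-- `id ∈ rk1span (cjI R s) (Q ≤ ·) ⊤`.  With `v * s u = s (ψ u) * v` the map `m ↦ m * v'` is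
equivariant from `(biI R s).comp π`, `π u = (ψ u, u)`, to `(cjI R s).comp ψ`.  Use `rk1span_res`,
`rk1span_of_comp` (for `ψ⁻¹` and for `π`), `rk1span_comp`. -/
lemma NP.bi (hs : NP p (Q ≤ ·) s) (h : TwIso ψ s s) (hψ : Q ≠ ⊥ → ψ = 1) {S : Subgroup D}
    (hS : Q ≤ S) :
    LinearMap.id ∈ rk1span (biI R s) (fun T => ∃ S', Q ≤ S' ∧ T = dg ψ S') (dg ψ S) := by
  have a0 : LinearMap.id ∈ rk1span (cjI R s) (Q ≤ ·) ⊤ := by
    have a2 := frRep_e_mem (s := s) (Pr := (Q ≤ ·)) (S := ⊤) le_top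
    simpa using Submodule.add_mem _ hs.rk a2
  have e0 : cjI R s = MonoidHom.comp (MonoidHom.comp (cjI R s) ψ.toMonoidHom) ψ⁻¹.toMonoidHom := by
    refine MonoidHom.ext fun u => ?_
    change cjI R s u = cjI R s (ψ (ψ⁻¹ u))
    rw [MulAut.apply_inv_self]
  rw [e0] at a0
  have a1 := rk1span_of_comp (R := R) (ρ := MonoidHom.comp (cjI R s) ψ.toMonoidHom)
    ψ⁻¹.toMonoidHom (ψ⁻¹).injective a0
  rw [Subgroup.map_top_of_surjective _ (ψ⁻¹).surjective] at a1
  have a2 := rk1span_mono (Pr' := (Q ≤ ·)) (fun S' _ h' => by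
    obtain ⟨S₀, ⟨S₁, h1, -, rfl⟩, rfl⟩ := h'
    refine le_inf hS ?_
    by_cases hQ : Q = ⊥
    · rw [hQ]; exact bot_le
    · rw [hψ hQ]
      intro q hq
      exact ⟨q, h1 hq, rfl⟩) (rk1span_res (T := S) le_top a1)
  obtain ⟨v, v', h1, h2, h3⟩ := h
  have h4 := frRep_inv h1 h2 h3
  have a3 := rk1span_comp (ρ := MonoidHom.comp (cjI R s) ψ.toMonoidHom)
    (ρ' := MonoidHom.comp (biI R s) (ψ.toMonoidHom.prod (MonoidHom.id D)))
    (F := LinearMap.mulRight R v) (F' := LinearMap.mulRight R v')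
    (fun g _ m => ?_) (fun g _ m => ?_) a2
  · have e : LinearMap.mulRight R v ∘ₗ LinearMap.id ∘ₗ LinearMap.mulRight R v' =
        (LinearMap.id : Matrix κ κ R →ₗ[R] Matrix κ κ R) := by
      refine LinearMap.ext fun m => ?_
      change m * v' * v = m
      rw [mul_assoc, h2, mul_one]
    rw [e] at a3
    have a4 := rk1span_of_comp (R := R) (ρ := biI R s) (ψ.toMonoidHom.prod (MonoidHom.id D))
      (fun a b hab => congrArg Prod.snd hab) a3
    exact rk1span_mono (fun T _ h' => by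
      obtain ⟨S', k1, -, k2⟩ := h'
      exact ⟨S', k1, k2⟩) a4
  · change s (ψ g) * (m * s (ψ g)⁻¹) * v = s (ψ g) * (m * v * s g⁻¹)
    rw [mul_assoc m v, h3, map_inv ψ, mul_assoc, mul_assoc]
  · change s (ψ g) * (m * s g⁻¹) * v' = s (ψ g) * (m * v' * s (ψ g)⁻¹)
    rw [mul_assoc m v', ← map_inv ψ, ← h4, mul_assoc, mul_assoc]

end twiso

/-- A matrix representation of `D`. -/
structure MRep (R D : Type) [CommRing R] [CommGroup D] : Type 1 where
  κ : Type
  [fin : Fintype κ]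
  [dec : DecidableEq κ]
  s : D →* Matrix κ κ R

attribute [scoped instance] MRep.fin MRep.dec

variable {R D : Type} [CommRing R] [CommGroup D]

/-- The tensor product. -/
def MRep.kron (X Y : MRep R D) : MRep R D := { κ := X.κ × Y.κ, s := kronS X.s Y.s }

variable (R D) in
/-- The trivial representation. -/
def MRep.one : MRep R D := { κ := Unit, s := 1 }

/-- The twist by an automorphism. -/
def MRep.tw (ψ : MulAut D) (X : MRep R D) : MRep R D :=
  { κ := X.κ, s := X.s.comp ψ⁻¹.toMonoidHom }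

variable (R D) in
/-- Isomorphism of representations. -/
def mrepSetoid : Setoid (MRep R D) where
  r X Y := TwIso 1 X.s Y.s
  iseqv := ⟨fun X => TwIso.refl X.s, fun h => by simpa using h.symm,
    fun h h' => by simpa using h.trans h'⟩

variable (R D) in
/-- Isomorphism classes of representations. -/
def MCl : Type 1 := Quotient (mrepSetoid R D)

/-- The class of a representation. -/
def MCl.mk (X : MRep R D) : MCl R D := Quotient.mk (mrepSetoid R D) X

lemma MCl.mk_eq {X Y : MRep R D} : MCl.mk X = MCl.mk Y ↔ TwIso 1 X.s Y.s := Quotient.eq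

lemma MCl.exists_rep (w : MCl R D) : ∃ X, MCl.mk X = w := Quotient.exists_rep w

instance : CommMonoid (MCl R D) where
  mul := Quotient.map₂ MRep.kron fun _ _ h _ _ h' => TwIso.kron h h'
  one := MCl.mk (MRep.one R D)
  mul_assoc := by
    rintro ⟨X⟩ ⟨Y⟩ ⟨Z⟩
    exact Quotient.sound (twIso_assoc X.s Y.s Z.s)
  mul_comm := by
    rintro ⟨X⟩ ⟨Y⟩
    exact Quotient.sound (twIso_comm X.s Y.s)
  one_mul := by
    rintro ⟨X⟩
    exact Quotient.sound (twIso_one_kron X.s)
  mul_one := by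
    rintro ⟨X⟩
    have h := (twIso_comm X.s _).trans (twIso_one_kron X.s)
    rw [mul_one] at h
    exact Quotient.sound h

lemma MCl.mk_kron (X Y : MRep R D) : MCl.mk (X.kron Y) = MCl.mk X * MCl.mk Y := rfl

lemma MCl.mk_one : MCl.mk (MRep.one R D) = 1 := rfl

lemma MRep.twIso_iff {ψ : MulAut D} {X Y : MRep R D} :
    TwIso 1 (X.tw ψ).s Y.s ↔ TwIso ψ X.s Y.s := by
  change TwIso 1 (X.s.comp ψ⁻¹.toMonoidHom) Y.s ↔ _
  constructor
  · rintro ⟨v, v', h1, h2, h3⟩
    refine ⟨v, v', h1, h2, fun u => ?_⟩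
    have h4 := h3 (ψ u)
    change v * X.s (ψ⁻¹ (ψ u)) = Y.s (ψ u) * v at h4
    rwa [MulAut.inv_apply_self] at h4
  · rintro ⟨v, v', h1, h2, h3⟩
    refine ⟨v, v', h1, h2, fun u => ?_⟩
    have h4 := h3 (ψ⁻¹ u)
    rw [MulAut.apply_inv_self] at h4
    exact h4

/-- Twisting is a monoid homomorphism on classes. -/
lemma MCl.exists_tw (ψ : MulAut D) :
    ∃ τ : MCl R D →* MCl R D, ∀ X, τ (MCl.mk X) = MCl.mk (X.tw ψ) := by
  refine ⟨⟨⟨Quotient.map (MRep.tw ψ) fun X Y h => ?_, ?_⟩, ?_⟩, fun X => rfl⟩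
  · obtain ⟨v, v', h1, h2, h3⟩ := h
    exact ⟨v, v', h1, h2, fun u => h3 (ψ⁻¹ u)⟩
  · exact Quotient.sound (TwIso.refl _)
  · rintro ⟨X⟩ ⟨Y⟩
    exact Quotient.sound (TwIso.refl _)

/-- A property that is invariant under isomorphism and multiplicative passes to products. -/
lemma MCl.prod_induction (P : MRep R D → Prop) (hiso : ∀ X Y, TwIso 1 X.s Y.s → P X → P Y)
    (h1 : P (MRep.one R D)) (hm : ∀ X Y, P X → P Y → P (X.kron Y)) {ι : Type} (t : Finset ι)
    (W : ι → MRep R D) (hW : ∀ i ∈ t, P (W i)) {X : MRep R D}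
    (hX : MCl.mk X = ∏ i ∈ t, MCl.mk (W i)) : P X := by
  have key : ∀ w : MCl R D, w = ∏ i ∈ t, MCl.mk (W i) → ∃ Y, MCl.mk Y = w ∧ P Y := by
    rintro w rfl
    refine Finset.prod_induction _ (fun w => ∃ Y, MCl.mk Y = w ∧ P Y) ?_ ⟨_, rfl, h1⟩
      fun i hi => ⟨W i, rfl, hW i hi⟩
    rintro _ _ ⟨Y, rfl, hY⟩ ⟨Z, rfl, hZ⟩
    exact ⟨Y.kron Z, rfl, hm _ _ hY hZ⟩
  obtain ⟨Y, hY, hP⟩ := key _ hX
  exact hiso _ _ (MCl.mk_eq.1 hY) hP

/-- Twisted isomorphisms of the factors give a twisted isomorphism of the products. -/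
lemma MCl.twIso_prod {ψ : MulAut D} {ι : Type} (t t' : Finset ι) (W : ι → MRep R D) (e : ι ≃ ι)
    (he : ∀ i, i ∈ t ↔ e i ∈ t') (hW : ∀ i ∈ t, TwIso ψ (W i).s (W (e i)).s) {X X' : MRep R D}
    (hX : MCl.mk X = ∏ i ∈ t, MCl.mk (W i)) (hX' : MCl.mk X' = ∏ i ∈ t', MCl.mk (W i)) :
    TwIso ψ X.s X'.s := by
  obtain ⟨τ, hτ⟩ := MCl.exists_tw (R := R) ψ
  rw [← MRep.twIso_iff, ← MCl.mk_eq, ← hτ, hX, hX', map_prod]
  refine Finset.prod_equiv e he fun i hi => ?_
  rw [hτ, MCl.mk_eq, MRep.twIso_iff]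
  exact hW i hi

end Pool.Agent.Lib.MP_b6945b_al.St
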