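import Pool.Agent.Lib.MP_b6945b_al.St.FrPB
import Pool.Agent.Lib.MP_b6945b_al.St.FrRep

set_option autoImplicit false

/-!
Twisted matrix algebras over group algebras of centralisers.
-/

namespace Pool.Agent.Lib.MP_b6945b_al.St

open IsLocalRing
open MonoidAlgebra (single)

section ring

variable {R D A κ μ : Type} [CommRing R] [CommGroup D] [Ring A] [Algebra R A] [Fintype κ]
  [DecidableEq κ] [Fintype μ] [DecidableEq μ]

/-- Pure tensors. -/
def frlinkP (m : Matrix κ κ R) (a : A) : Matrix κ κ A := m.map (· • a)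

omit [DecidableEq κ] in
lemma frlinkP_mul (m m' : Matrix κ κ R) (a a' : A) :
    frlinkP m a * frlinkP m' a' = frlinkP (m * m') (a * a') := by
  ext i k
  simp only [frlinkP, Matrix.map_apply, Matrix.mul_apply, Finset.sum_smul, smul_mul_smul_comm]

lemma frlinkP_ten (s : D →* Matrix κ κ R) (δ : D →* A) (u : D) :
    tenI s δ u = frlinkP (s u) (δ u) := rfl

lemma frlinkP_one (a : A) : Matrix.scalar κ a = frlinkP (1 : Matrix κ κ R) a := by
  ext i k
  by_cases h : i = k <;> simp [frlinkP, h]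

omit [Fintype κ] [DecidableEq κ] in
lemma frlinkP_smul (r : R) (m : Matrix κ κ R) (a : A) :
    frlinkP (r • m) a = frlinkP m (r • a) := by
  ext i k
  simp only [frlinkP, Matrix.map_apply, Matrix.smul_apply, smul_eq_mul, smul_smul, mul_comm]

omit [Fintype κ] [DecidableEq κ] in
lemma frlinkP_map {A' : Type} [Ring A'] [Algebra R A'] (F : A →ₗ[R] A') (m : Matrix κ κ R)
    (a : A) : F.mapMatrix (frlinkP m a) = frlinkP m (F a) := by
  ext i k
  exact map_smul F _ _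

omit [DecidableEq κ] in
lemma frlinkP_ptr (m : Matrix κ κ R) (a : A) : ptr R A κ (frlinkP m a) = ntr R κ m • a := by
  simp only [ptr_apply, ntr_apply, frlinkP, Matrix.trace, Matrix.diag_apply, Matrix.map_apply,
    ← Finset.sum_smul, smul_smul]

variable (R) in
lemma frlinkP_ind {P : Matrix κ κ A → Prop} (h : ∀ (m : Matrix κ κ R) a, P (frlinkP m a))
    (hadd : ∀ x y, P x → P y → P (x + y)) (x : Matrix κ κ A) : P x := by
  refine Matrix.induction_on' x ?_ hadd fun i k a => ?_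
  · have e : frlinkP (0 : Matrix κ κ R) (0 : A) = 0 := by
      ext i k
      simp [frlinkP]
    exact e ▸ h 0 0
  · have e : frlinkP (Matrix.single i k (1 : R)) a = Matrix.single i k a := by
      ext i' k'
      simp [frlinkP, Matrix.single, ite_smul]
    exact e ▸ h _ a

variable (R A κ μ) in
omit [DecidableEq μ] [Fintype μ] in
lemma frlink_exists_ext : ∃ Λ : (Matrix κ κ R →ₗ[R] Matrix μ μ R) →ₗ[R]
    (Matrix κ κ A →ₗ[R] Matrix μ μ A), ∀ Θ m a, Λ Θ (frlinkP m a) = frlinkP (Θ m) a := by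
  refine ⟨LinearMap.mk₂ R (fun Θ z => ∑ d, ∑ d', frlinkP (Θ (Matrix.single d d' 1)) (z d d'))
    (fun Θ Θ' z => ?_) (fun r Θ z => ?_) (fun Θ z z' => ?_) (fun r Θ z => ?_), fun Θ m a => ?_⟩
  · ext i k
    simp [frlinkP, Matrix.sum_apply, add_smul, Finset.sum_add_distrib]
  · ext i k
    simp [frlinkP, Matrix.sum_apply, Finset.smul_sum, smul_smul]
  · ext i k
    simp [frlinkP, Matrix.sum_apply, Finset.sum_add_distrib]
  · ext i k
    simp [frlinkP, Matrix.sum_apply, Finset.smul_sum, smul_smul, mul_comm]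
  · have e : Θ m = ∑ d, ∑ d', m d d' • Θ (Matrix.single d d' 1) := by
      conv_lhs => rw [Matrix.matrix_eq_sum_single m]
      simp only [map_sum, ← map_smul, Matrix.smul_single, smul_eq_mul, mul_one]
    rw [e]
    ext i k
    simp [frlinkP, Matrix.sum_apply, Finset.sum_smul, smul_smul, mul_comm]

lemma frlink_cj_triv {s : D →* Matrix κ κ R} {δ : D →* A} {q : D} (h : s q = 1) (h' : s q⁻¹ = 1)
    (x : Matrix κ κ A) : cjI R (tenI s δ) q x = x.map (cjI R δ q) := by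
  rw [cjI_apply, frlinkP_ten, frlinkP_ten, h, h', ← frlinkP_one, ← frlinkP_one]
  ext i k
  simp [cjI_apply]

lemma frlink_half {A' : Type} [Ring A'] [Algebra R A'] {ψ : MulAut D} {δ : D →* A} {δ' : D →* A'}
    {J : A} {J' : A'} {F : A →ₗ[R] A'} {F' : A' →ₗ[R] A} (h : TpHalf ψ δ δ' J J' F F')
    {s : D →* Matrix κ κ R} {s' : D →* Matrix μ μ R} {v : Matrix μ κ R} {v' : Matrix κ μ R}
    (h1 : v * v' = 1) (h2 : v' * v = 1) (h3 : ∀ u, v * s u = s' (ψ u) * v)
    {Φ : Matrix κ κ A →ₗ[R] Matrix μ μ A'} {Ψ : Matrix μ μ A' →ₗ[R] Matrix κ κ A}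
    (hΦ : ∀ (m : Matrix κ κ R) a, Φ (frlinkP m a) = frlinkP (v * m * v') (F a))
    (hΨ : ∀ (m : Matrix μ μ R) a, Ψ (frlinkP m a) = frlinkP (v' * m * v) (F' a)) :
    TpHalf ψ (tenI s δ) (tenI s' δ') (Matrix.scalar κ J) (Matrix.scalar μ J') Φ Ψ := by
  have h4 : ∀ u, s u * v' = v' * s' (ψ u) := fun u => by
    calc s u * v' = v' * (v * s u) * v' := by rw [← Matrix.mul_assoc, h2, Matrix.one_mul]
      _ = _ := by rw [h3, Matrix.mul_assoc, Matrix.mul_assoc, h1, Matrix.mul_one]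
  have h5 : ∀ m : Matrix κ μ R, v' * (v * m) = m := fun m => by
    rw [← Matrix.mul_assoc, h2, Matrix.one_mul]
  have h6 : ∀ m : Matrix μ μ R, v * (v' * m) = m := fun m => by
    rw [← Matrix.mul_assoc, h1, Matrix.one_mul]
  rw [frlinkP_one (R := R), frlinkP_one (R := R)]
  refine ⟨?_, fun u => ?_, frlinkP_ind R (fun m a => frlinkP_ind R (fun m' a' => ?_)
    fun y y' e e' => ?_) fun x x' e e' y => ?_, ?_,
    frlinkP_ind R (fun m a => ?_) fun x x' e e' => ?_,
    fun u => frlinkP_ind R (fun m a => ?_) fun x x' e e' => ?_,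
    fun u => frlinkP_ind R (fun m a => ?_) fun x x' e e' => ?_,
    frlinkP_ind R (fun m a => ?_) fun x x' e e' => ?_⟩
  · rw [frlinkP_mul, h.idem, one_mul]
  · rw [frlinkP_ten, frlinkP_mul, frlinkP_mul, h.comm, one_mul, mul_one]
  · simp only [frlinkP_mul, hΦ, h.mul, mul_one, Matrix.mul_assoc, h5]
  · simp only [mul_add, map_add, e, e']
  · simp only [add_mul, map_add, e y, e' y]
  · rw [hΦ, h.one, Matrix.mul_one, h1]
  · rw [hΦ, frlinkP_mul, frlinkP_mul, h.cut, one_mul, mul_one]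
  · simp only [add_mul, mul_add, map_add, e, e']
  · simp only [frlinkP_ten, frlinkP_mul, hΦ, h.left, ← Matrix.mul_assoc, h3]
  · simp only [mul_add, map_add, e, e']
  · simp only [frlinkP_ten, frlinkP_mul, hΦ, h.right, Matrix.mul_assoc, h4]
  · simp only [add_mul, map_add, e, e']
  · simp only [frlinkP_mul, hΦ, hΨ, h.inv, Matrix.mul_assoc, h1, h6, mul_one, one_mul]
  · simp only [add_mul, mul_add, map_add, e, e']

lemma frlink_tp {A' : Type} [Ring A'] [Algebra R A'] {ψ : MulAut D} {δ : D →* A} {δ' : D →* A'}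
    {J : A} {J' : A'} {F : A →ₗ[R] A'} {F' : A' →ₗ[R] A} (h : Tp ψ δ δ' J J' F F')
    {s : D →* Matrix κ κ R} {s' : D →* Matrix μ μ R} (hs : TwIso ψ s s') :
    ∃ Φ Ψ, Tp (R := R) ψ (tenI s δ) (tenI s' δ') (Matrix.scalar κ J) (Matrix.scalar μ J') Φ Ψ := by
  obtain ⟨v, v', h1, h2, h3⟩ := hs
  obtain ⟨Λ, hΛ⟩ := frlink_exists_ext R A' κ μ
  obtain ⟨Λ', hΛ'⟩ := frlink_exists_ext R A μ κ
  have h4 : ∀ u, v' * s' u = s (ψ⁻¹ u) * v' := fun u => by
    calc v' * s' u = v' * (s' (ψ (ψ⁻¹ u)) * v) * v' := by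
          rw [MulAut.apply_inv_self, Matrix.mul_assoc, Matrix.mul_assoc, h1, Matrix.mul_one]
      _ = _ := by rw [← h3, ← Matrix.mul_assoc, h2, Matrix.one_mul]
  have k1 : ∀ (m : Matrix κ κ R) a, (Λ (mulRightLinearMap μ R v' ∘ₗ mulLeftLinearMap κ R v) ∘ₗ
      F.mapMatrix) (frlinkP m a) = frlinkP (v * m * v') (F a) := fun m a => by
    rw [LinearMap.comp_apply, frlinkP_map, hΛ]
    rfl
  have k2 : ∀ (m : Matrix μ μ R) a, (Λ' (mulRightLinearMap κ R v ∘ₗ mulLeftLinearMap μ R v') ∘ₗ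
      F'.mapMatrix) (frlinkP m a) = frlinkP (v' * m * v) (F' a) := fun m a => by
    rw [LinearMap.comp_apply, frlinkP_map, hΛ']
    rfl
  exact ⟨_, _, frlink_half h.1 h1 h2 h3 k1 k2, frlink_half h.2 h2 h1 h4 k2 k1⟩

lemma comp_tenI (s : D →* Matrix μ μ R) (t : D →* Matrix κ κ R) (δ : D →* A) (u : D) :
    Matrix.compAlgEquiv μ κ A R (tenI s (tenI t δ) u) = tenI (kronS s t) δ u := by
  ext ⟨a, b⟩ ⟨c, d⟩
  exact smul_smul (s u a c) (t u b d) (δ u)

lemma comp_scalar (a : A) :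
    Matrix.compAlgEquiv μ κ A R (Matrix.scalar μ (Matrix.scalar κ a)) =
      Matrix.scalar (μ × κ) a := by
  ext ⟨b, c⟩ ⟨b', c'⟩
  change Matrix.scalar μ (Matrix.scalar κ a) b b' c c' = _
  by_cases h : b = b' <;> simp [Matrix.diagonal_apply, h]

lemma biI_tenI_pure (s : D →* Matrix κ κ R) (δ : D →* A) (g : D × D) (m : Matrix κ κ R) (a : A) :
    biI R (tenI s δ) g (m.map (· • a)) = (biI R s g m).map (· • biI R δ g a) := by
  change tenI s δ g.1 * (frlinkP m a * tenI s δ g.2⁻¹) = _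
  rw [frlinkP_ten, frlinkP_ten, frlinkP_mul, frlinkP_mul]
  rfl

lemma cjI_tenI_pure (s : D →* Matrix κ κ R) (δ : D →* A) (u : D) (m : Matrix κ κ R) (a : A) :
    cjI R (tenI s δ) u (m.map (· • a)) = (cjI R s u m).map (· • cjI R δ u a) :=
  biI_tenI_pure s δ (u, u) m a

/-- Linear maps on matrices are determined by their values on pure tensors. -/
lemma matrix_pure_ext {N : Type} [AddCommGroup N] [Module R N] {F F' : Matrix κ κ A →ₗ[R] N}
    (h : ∀ (m : Matrix κ κ R) (a : A), F (m.map (· • a)) = F' (m.map (· • a))) : F = F' :=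
  LinearMap.ext (frlinkP_ind R h fun x y e e' => by rw [map_add, map_add, e, e'])

variable [Fintype D]

/-- `rk1span_lift` for `Θ ↦ (x ↦ x.map Θ)`; `(f.smulRight a)` lifts to `up a ∘ id ∘ down f` with
`down f x = x.map f` and `up a m = m.map (· • a)`. -/
lemma rk1span_matrix {s : D →* Matrix κ κ R} {δ : D →* A} {Pr : Subgroup (D × D) → Prop}
    (hs : ∀ T, Pr T → LinearMap.id ∈ rk1span (biI R s) Pr T) {i : A}
    (h : sandw R i i ∈ rk1span (biI R δ) Pr ⊤) :
    sandw R (Matrix.scalar κ i) (Matrix.scalar κ i) ∈ rk1span (biI R (tenI s δ)) Pr ⊤ := by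
  have hp : ∀ g m a, biI R (tenI s δ) g (frlinkP m a) = frlinkP (biI R s g m) (biI R δ g a) :=
    biI_tenI_pure s δ
  have e : sandw R (Matrix.scalar κ i) (Matrix.scalar κ i) =
      LinearMap.mapMatrixLinear R (sandw R i i) := by
    ext x a b
    simp [sandw_apply]
  rw [e]
  refine rk1span_lift (Pr := Pr) _ (fun g _ Θ => matrix_pure_ext fun m a => ?_)
    (fun T hT _ f a hf ha => ?_) h
  · change LinearMap.mapMatrix _ (frlinkP m a) =
      biI R (tenI s δ) g (Θ.mapMatrix (biI R (tenI s δ) g⁻¹ (frlinkP m a)))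
    rw [hp, frlinkP_map, frlinkP_map, hp, Representation.self_inv_apply]
    rfl
  · refine rk1span_comp (F := (LinearMap.toSpanSingleton R A a).mapMatrix) (F' := f.mapMatrix)
      (fun g hg m => ?_) (fun g hg => frlinkP_ind R (fun m b => ?_) fun x y e e' => ?_) (hs T hT)
    · change frlinkP (biI R s g m) a = biI R (tenI s δ) g (frlinkP m a)
      rw [hp, ha g hg]
    · have e : ∀ (m : Matrix κ κ R) (r : R), frlinkP m r = r • m := fun m r => by
        ext i k
        exact mul_comm _ _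
      rw [hp, frlinkP_map, frlinkP_map, hf g hg, e, e, map_smul]
    · simp only [map_add, e, e']

/-- Let `Λ Θ z = ∑ d d', (Θ (single d d' 1)).map (· • z d d')`, i.e. `Θ ⊗ 1`, a linear map from the
endomorphisms of `Matrix μ μ R` to those of `Matrix μ μ A`, equivariant for conjugation
(`cjI_tenI_pure`).  `Λ (id - e)` lies in the span of traces from subgroups not containing `S`
(`rk1span_le_trSpan`, `trSpan_map`); restrict to `S` (`trSpan_res`) and apply it to `z`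
(`trSpan_apply`). -/
lemma sub_ptr_mem [IsLocalRing R] {p : ℕ} {S : Subgroup D} {t : D →* Matrix μ μ R} {δ : D →* A}
    (ht : NP p (fun S' => ¬ S ≤ S') t) {z : Matrix μ μ A}
    (hz : FixedBy (cjI R (tenI t δ)) S z) :
    z - Matrix.scalar μ (ptr R A μ z) ∈ trM R (tenI t δ) S := by
  obtain ⟨Λ, hΛ⟩ := frlink_exists_ext R A μ μ
  have hp : ∀ g m a, cjI R (tenI t δ) g (frlinkP m a) = frlinkP (cjI R t g m) (cjI R δ g a) :=
    cjI_tenI_pure t δ
  have h1 : EquivOn ((cjI R t).linHom (cjI R t))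
      ((cjI R (tenI t δ)).linHom (cjI R (tenI t δ))) ⊤ Λ :=
    fun g _ Θ => matrix_pure_ext fun m a => by
      change Λ _ (frlinkP m a) = cjI R (tenI t δ) g (Λ Θ (cjI R (tenI t δ) g⁻¹ (frlinkP m a)))
      rw [hp, hΛ, hΛ, hp, Representation.self_inv_apply]
      rfl
  have h2 := trSpan_apply (trSpan_res le_top (trSpan_map h1 (rk1span_le_trSpan ht.rk))) hz
  have h3 : ∀ x, Λ (LinearMap.id - (ntr R μ).smulRight (1 : Matrix μ μ R)) x =
      x - Matrix.scalar μ (ptr R A μ x) := by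
    refine frlinkP_ind R (fun m a => ?_) fun x y e e' => ?_
    · rw [map_sub, LinearMap.sub_apply, hΛ, hΛ, frlinkP_ptr, LinearMap.smulRight_apply,
        frlinkP_smul, ← frlinkP_one]
      rfl
    · simp only [map_add, add_sub_add_comm, e, e']
  rw [h3] at h2
  refine Submodule.mem_sup_left (trSpan_mono ?_ h2)
  rintro _ - ⟨S', h, rfl⟩
  exact inf_lt_left.2 h

lemma frlink_entries [IsLocalRing R] {S : Subgroup D} {s : D →* Matrix κ κ R} {δ : D →* A}
    (hs : ∀ q ∈ S, s q = 1) {x : Matrix κ κ A} (hx : ∀ a b, x a b ∈ trM R δ S) :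
    x ∈ trM R (tenI s δ) S := by
  rw [Matrix.matrix_eq_sum_single x]
  refine Submodule.sum_mem _ fun a _ => Submodule.sum_mem _ fun b _ =>
    brK_map (φ := Matrix.singleLinearMap R a b) (fun q hq y => ?_) (hx a b)
  rw [frlink_cj_triv (hs q hq) (hs _ (inv_mem hq))]
  exact (Matrix.map_single a b y (cjI R δ q)).symm

lemma frlink_lg_unit [IsLocalRing R] {S : Subgroup D} {δ : D →* A} {J : A} (hl : LG R δ J S) :
    LG R (tenI (1 : D →* Matrix Unit Unit R) δ) (Matrix.scalar Unit J) S :=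
  hl.map_equiv (AlgEquiv.ofBijective (scalA R A Unit) ⟨fun _ _ => Matrix.scalar_inj.1,
    fun x => ⟨x () (), Matrix.ext fun _ _ => Matrix.diagonal_apply_eq _ ()⟩⟩)
    fun u => frlinkP_one (R := R) (δ u)

end ring

section group

variable {R G : Type} [CommRing R] [Group G]

lemma frlink_deg_mul [Fintype G] {a b : MonoidAlgebra R G} {x y z : G}
    (ha : ∀ g, a.coeff g ≠ 0 → g * y = x * g) (hb : ∀ g, b.coeff g ≠ 0 → g * z = y * g) :
    ∀ g, (a * b).coeff g ≠ 0 → g * z = x * g := by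
  intro g hg
  rw [coeff_mul_fin] at hg
  obtain ⟨w, -, hw⟩ := Finset.exists_ne_zero_of_sum_ne_zero hg
  calc g * z = w * (w⁻¹ * g * z) := by group
    _ = x * g := by
      rw [hb _ (right_ne_zero_of_mul hw), ← mul_assoc, ha w (left_ne_zero_of_mul hw)]
      group

lemma frlink_deg_single {a : MonoidAlgebra R G} {x y : G}
    (ha : ∀ g, a.coeff g ≠ 0 → g * y = x * g) : a * single y 1 = single x 1 * a := by
  ext g
  rw [MonoidAlgebra.coeff_mul_single_apply, MonoidAlgebra.coeff_single_mul_apply, mul_one, one_mul]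
  by_cases h1 : a.coeff (g * y⁻¹) = 0
  · by_contra h2
    have h3 := ha _ fun h => h2 (h1.trans h.symm)
    rw [mul_inv_cancel_left, ← eq_mul_inv_iff_mul_eq] at h3
    exact h2 (by rw [h3])
  · have h3 := ha _ h1
    rw [inv_mul_cancel_right, ← inv_mul_eq_iff_eq_mul] at h3
    rw [h3]

variable {D : Type} [CommGroup D] [Fintype G] {ι : D →* G} {ψ : MulAut D}
  {j W W' : MonoidAlgebra R G} {Q Q' : Subgroup D}

lemma frlink_exists_map (hd : ∀ g, W.coeff g ≠ 0 → ∀ u, g * ι u = ι (ψ u) * g)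
    (hd' : ∀ g, W'.coeff g ≠ 0 → ∀ u, g * ι (ψ u) = ι u * g) (hQ : ∀ q ∈ Q', ∃ u ∈ Q, ψ u = q) :
    ∃ F : CA R ι Q →ₗ[R] CA R ι Q', ∀ b, (F b : MonoidAlgebra R G) = W * (b * W') := by
  refine ⟨(sandw R W W' ∘ₗ (CA R ι Q).val.toLinearMap).codRestrict (CA R ι Q').toSubmodule ?_,
    fun _ => rfl⟩
  rintro b g hg _ ⟨q, hq, rfl⟩
  obtain ⟨u, hu, rfl⟩ := hQ q hq
  exact frlink_deg_mul (fun g hg => hd g hg u) (frlink_deg_mul
    (fun g hg => b.2 g hg _ ⟨u, hu, rfl⟩) fun g hg => hd' g hg u) g hg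

lemma frlink_base (hj : SuppCent (Set.range ι) j) (hjj : j * j = j) (hW : j * W * j = W)
    (hW' : j * W' * j = W') (h1 : W * W' = j) (h2 : W' * W = j)
    (hd : ∀ g, W.coeff g ≠ 0 → ∀ u, g * ι u = ι (ψ u) * g)
    (hd' : ∀ g, W'.coeff g ≠ 0 → ∀ u, g * ι (ψ u) = ι u * g) {F : CA R ι Q →ₗ[R] CA R ι Q'}
    {F' : CA R ι Q' →ₗ[R] CA R ι Q} (hF : ∀ b, (F b : MonoidAlgebra R G) = W * (b * W'))
    (hF' : ∀ b, (F' b : MonoidAlgebra R G) = W' * (b * W)) :
    TpHalf ψ (caD R ι Q) (caD R ι Q') (caJ hj Q) (caJ hj Q') F F' := by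
  have k1 : j * W = W := by rw [← hW, ← mul_assoc, ← mul_assoc, hjj]
  have k2 : W' * j = W' := by rw [← hW', mul_assoc, hjj]
  have k3 : j * W' = W' := by rw [← hW', ← mul_assoc, ← mul_assoc, hjj]
  refine ⟨Subtype.ext hjj, fun u => Subtype.ext
    (frlink_deg_single fun g hg => hj g hg _ ⟨u, rfl⟩).symm, fun x y => Subtype.ext ?_,
    Subtype.ext ?_, fun x => Subtype.ext ?_, fun u x => Subtype.ext ?_, fun u x => Subtype.ext ?_,
    fun y => Subtype.ext ?_⟩ <;>
  simp only [MulMemClass.coe_mul, hF, hF', caJ_val, caD_val]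
  · simp only [← h2, mul_assoc]
  · rw [k3, h1]
  · rw [← mul_assoc j, k1, mul_assoc, mul_assoc, k2]
  · rw [mul_assoc, ← mul_assoc W, frlink_deg_single fun g hg => hd g hg u, mul_assoc]
  · rw [mul_assoc, ← frlink_deg_single fun g hg => hd' g hg u, mul_assoc, mul_assoc]
  · simp only [← h1, mul_assoc]

end group

variable {R D G E : Type} [CommRing R] [IsDomain R] [ValuationRing R] [CommGroup D] [Fintype D]
  [Group G] [Fintype G] [Group E] [Fintype E] {p : ℕ} {ι : D →* G} {φ : E →* MulAut D}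
  {e j : MonoidAlgebra R G} {U U' : E → MonoidAlgebra R G} {Q S : Subgroup D}
  {κ μ : Type} [Fintype κ] [DecidableEq κ] [Fintype μ] [DecidableEq μ]

/-- `a = scalA ∘ mapMatrix (Subalgebra.inclusion (CA_mono hQS))`.  For `red`: after `sub_ptr_mem`
the element is a scalar matrix of `z₁` fixed by `S` for `tenI s (caD R ι Q)`; `s` is trivial on
`S`, so the entries of `z₁` are fixed, and `ca_sub_brT` applies to each entry (placing an element in
one entry is `S`-equivariant, `brK_map`; `scalar_mem_trM`).  For `hat`: `sub_ptr_mem` for `z = Δ u`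
and `Std.ntr_sub_one`. -/
theorem exists_link (hs : Std p R D) (hj : SuppCent (Set.range ι) j) (hQS : Q ≤ S)
    {s : D →* Matrix κ κ R} {t : D →* Matrix μ μ R} (htriv : ∀ q ∈ S, s q = 1)
    (ht : NP p (fun S' => ¬ S ≤ S') t) :
    ∃ a, Link (R := R) (tenI s (caD R ι S)) (tenI t (tenI s (caD R ι Q)))
      (Matrix.scalar κ (caJ hj S)) (Matrix.scalar μ (Matrix.scalar κ (caJ hj Q))) S a := by
  obtain ⟨b, hb⟩ : ∃ b : Matrix κ κ (CA R ι S) →ₐ[R] Matrix κ κ (CA R ι Q),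
    ∀ x i k, (b x i k : MonoidAlgebra R G) = x i k :=
    ⟨(Subalgebra.inclusion (CA_mono hQS)).mapMatrix, fun _ _ _ => rfl⟩
  have h1 : ∀ u, b (tenI s (caD R ι S) u) = tenI s (caD R ι Q) u := fun u =>
    Matrix.ext fun i k => Subtype.ext (hb _ i k)
  have h2 : ∀ u, FixedBy (cjI R (tenI s (caD R ι Q))) S (tenI s (caD R ι Q) u) := fun u =>
    fixedBy_cjI_iff.2 fun q _ => delta_comm _ q u
  refine ⟨(scalA R _ μ).comp b, fun q hq x => ?_, ?_, fun u x => ?_, fun u => ?_, fun z hz => ?_⟩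
  · rw [frlinkP_ten, htriv q hq, ← frlinkP_one]
    exact Matrix.scalar_commute _ (caD_cent q hq) x
  · refine congrArg (Matrix.scalar μ) (Matrix.ext fun i k => Subtype.ext ((hb _ i k).trans ?_))
    by_cases h : i = k <;> simp [h, caJ_val]
  · have h3 : b (cjI R (tenI s (caD R ι S)) u x) = cjI R (tenI s (caD R ι Q)) u (b x) := by
      rw [cjI_apply, cjI_apply, map_mul, map_mul, h1, h1]
    rw [AlgHom.comp_apply, h3]
    exact scalA_equiv u (Subgroup.mem_top u) (b x)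
  · have h3 := sub_ptr_mem ht (δ := tenI s (caD R ι Q)) (z := tenI t (tenI s (caD R ι Q)) u)
      (fixedBy_cjI_iff.2 fun q _ => delta_comm _ q u)
    have h4 := scalar_mem_trM (s := t) (smul_mem_brK (hs.ntr_sub_one ht.card t u) (h2 u))
    rw [sub_smul, one_smul, map_sub, ← frlinkP_ptr (t u) (tenI s (caD R ι Q) u),
      ← frlinkP_ten t (tenI s (caD R ι Q)) u] at h4
    have h5 := add_mem h3 h4
    rw [sub_add_sub_cancel] at h5
    rwa [AlgHom.comp_apply, h1]
  · have h3 : FixedBy (cjI R (tenI s (caD R ι Q))) S (ptr R _ μ z) := fun q hq => by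
      rw [← ptr_equiv (s := t) q (Subgroup.mem_top q), hz q hq]
    refine ⟨Matrix.of fun i k => caP R ι S (ptr R _ μ z i k), ?_⟩
    have h4 : ptr R _ μ z - b (Matrix.of fun i k => caP R ι S (ptr R _ μ z i k)) ∈
        trM R (tenI s (caD R ι Q)) S := by
      refine frlink_entries htriv fun i k => ?_
      have h5 := ca_sub_brT (z := ptr R _ μ z i k) (S := S) fun q hq =>
        congrFun (congrFun ((frlink_cj_triv (htriv q hq) (htriv _ (inv_mem hq)) _).symm.trans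
          (h3 q hq)) i) k
      refine Eq.subst (motive := fun w => _ - w ∈ _) (Subtype.ext ?_) h5
      rw [hb]
      exact brT_of_suppCent (CA_mono hQS (suppCent_brT _ _))
    have h5 := add_mem (sub_ptr_mem ht hz) (scalar_mem_trM (s := t) h4)
    rwa [map_sub, sub_add_sub_cancel] at h5

/-- `exists_link`, `Link.lg`, `LG.map_equiv` with `comp_tenI` and `comp_scalar`. -/
theorem lg_kron (hs : Std p R D) (hj : SuppCent (Set.range ι) j) (hQS : Q ≤ S)
    {s : D →* Matrix κ κ R} {t : D →* Matrix μ μ R} (htriv : ∀ q ∈ S, s q = 1)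
    (ht : NP p (fun S' => ¬ S ≤ S') t)
    (hl : LG R (tenI s (caD R ι S)) (Matrix.scalar κ (caJ hj S)) S) :
    LG R (tenI (kronS t s) (caD R ι Q)) (Matrix.scalar (μ × κ) (caJ hj Q)) S := by
  obtain ⟨a, ha⟩ := exists_link hs hj hQS htriv ht
  rw [← comp_scalar (R := R)]
  exact (ha.lg hl).map_equiv _ (comp_tenI t s _)

omit [IsDomain R] [ValuationRing R] [Fintype D] [Group E] [Fintype E] in
/-- `Φ x = (v ⊗ W) x (v' ⊗ W')`; the entries `∑ v a b * v' c d • W * x b c * W'` are supported on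
the centraliser of the image of `Q.map ψ` by the degree conditions. -/
theorem exists_tp {ψ : MulAut D} (hj : SuppCent (Set.range ι) j) (hjj : j * j = j)
    {W W' : MonoidAlgebra R G} (hW : j * W * j = W) (hW' : j * W' * j = W') (h1 : W * W' = j)
    (h2 : W' * W = j) (hd : ∀ g, W.coeff g ≠ 0 → ∀ u, g * ι u = ι (ψ u) * g)
    (hd' : ∀ g, W'.coeff g ≠ 0 → ∀ u, g * ι (ψ u) = ι u * g) {s : D →* Matrix κ κ R}
    {s' : D →* Matrix μ μ R} (hs : TwIso ψ s s') {Q' : Subgroup D}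
    (hQ : Q' = Q.map ψ.toMonoidHom) :
    ∃ Φ Ψ, Tp (R := R) ψ (tenI s (caD R ι Q)) (tenI s' (caD R ι Q'))
      (Matrix.scalar κ (caJ hj Q)) (Matrix.scalar μ (caJ hj Q')) Φ Ψ := by
  have k1 : ∀ g, W'.coeff g ≠ 0 → ∀ u, g * ι u = ι (ψ⁻¹ u) * g := fun g hg u => by
    rw [← hd' g hg, MulAut.apply_inv_self]
  have k2 : ∀ g, W.coeff g ≠ 0 → ∀ u, g * ι (ψ⁻¹ u) = ι u * g := fun g hg u => by
    rw [hd g hg, MulAut.apply_inv_self]
  obtain ⟨F, hF⟩ := frlink_exists_map (Q := Q) (Q' := Q') hd hd' fun q hq => by rwa [hQ] at hq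
  obtain ⟨F', hF'⟩ := frlink_exists_map (Q := Q') (Q' := Q) k1 k2 fun q hq =>
    ⟨ψ q, hQ ▸ ⟨q, hq, rfl⟩, MulAut.inv_apply_self _ ψ q⟩
  exact frlink_tp ⟨frlink_base hj hjj hW hW' h1 h2 hd hd' hF hF',
    frlink_base hj hjj hW' hW h2 h1 k1 k2 hF' hF⟩ hs

/-- `exists_tp` with `W = W' = j`, `Tp.lg`. -/
lemma FrSet.lg_iso (h : FrSet p ι φ e j U U') {s : D →* Matrix κ κ R} {s' : D →* Matrix μ μ R}
    (hs : TwIso 1 s s') (hl : LG R (tenI s (caD R ι Q)) (Matrix.scalar κ (caJ h.supp Q)) S) :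
    LG R (tenI s' (caD R ι Q)) (Matrix.scalar μ (caJ h.supp Q)) S := by
  have k1 : j * j * j = j := by rw [h.idem, h.idem]
  have k2 : ∀ g, j.coeff g ≠ 0 → ∀ u, g * ι u = ι u * g := fun g hg u => h.supp g hg _ ⟨u, rfl⟩
  obtain ⟨Φ, Ψ, hT⟩ := exists_tp (Q := Q) (Q' := Q) h.supp h.idem k1 k1 h.idem h.idem k2 k2 hs
    (Subgroup.map_id Q).symm
  exact (Subgroup.map_id S).subst (motive := LG R _ _) (hT.lg hl)

/-- `FrSet.pb`, `NP.bi`, `rk1span_matrix`, `scalar_mem_trM`. -/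
theorem FrSet.pl (h : FrSet p ι φ e j U U') {s : D →* Matrix κ κ R} (hs : NP p (Q ≤ ·) s)
    (htw : Q = ⊥ → ∀ l, TwIso (φ l) s s) :
    PL R (tenI s (caD R ι Q)) (Matrix.scalar κ (caJ h.supp Q)) (PQ φ Q) := by
  obtain ⟨i, hi⟩ := h.exists_min Q
  refine ⟨Matrix.scalar κ i, fun u hu => ?_, ?_, rk1span_matrix ?_ (h.pb hi)⟩
  · exact (scalA_equiv u hu i).symm.trans (congrArg (Matrix.scalar κ) (hi.fixed ⊤ u hu))
  · rw [← map_sub]
    exact scalar_mem_trM hi.sub
  · rintro _ ⟨l, S', h1, h2, rfl⟩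
    have h3 : Q ≠ ⊥ → φ l = 1 := fun hQ => by rw [h2 hQ, map_one]
    have h4 : TwIso (φ l) s s := by
      by_cases hQ : Q = ⊥
      · exact htw hQ l
      · rw [h3 hQ]
        exact TwIso.refl s
    refine rk1span_mono ?_ (hs.bi h4 h3 h1)
    rintro _ - ⟨S'', h5, rfl⟩
    exact ⟨l, S'', h5, h2, rfl⟩

/-- The base of the tower: every element of `CA ⊤` is supported on the centraliser of `D`. -/
lemma FrSet.lg_base (h : FrSet p ι φ e j U U') :
    LG R (tenI (1 : D →* Matrix Unit Unit R) (caD R ι ⊤)) (Matrix.scalar Unit (caJ h.supp ⊤)) ⊤ :=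
  frlink_lg_unit (h.lg_top ⊤)

/-- For `Q = ⊥` the elements `v ⊗ U l` are units of the corner of `j`. -/
lemma FrSet.exists_units (h : FrSet p ι φ e j U U') {s : D →* Matrix κ κ R} {l : E}
    (hs : TwIso (φ l) s s) :
    ∃ W W' : Matrix κ κ (CA R ι ⊥),
      Matrix.scalar κ (caJ h.supp ⊥) * W * Matrix.scalar κ (caJ h.supp ⊥) = W ∧
      Matrix.scalar κ (caJ h.supp ⊥) * W' * Matrix.scalar κ (caJ h.supp ⊥) = W' ∧
      W * W' = Matrix.scalar κ (caJ h.supp ⊥) ∧ W' * W = Matrix.scalar κ (caJ h.supp ⊥) ∧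
      ∀ u, W * tenI s (caD R ι ⊥) u = tenI s (caD R ι ⊥) (φ l u) * W := by
  obtain ⟨v, v', h1, h2, h3⟩ := hs
  have k : ∀ b : MonoidAlgebra R G, b ∈ CA R ι ⊥ := by
    rintro b g - _ ⟨q, hq, rfl⟩
    rw [Subgroup.mem_bot.1 hq, map_one, mul_one, one_mul]
  refine ⟨frlinkP v ⟨U l, k _⟩, frlinkP v' ⟨U' l, k _⟩, ?_, ?_, ?_, ?_, fun u => ?_⟩ <;>
  simp only [frlinkP_one (R := R), frlinkP_ten, frlinkP_mul, one_mul, mul_one, h1, h2, h3] <;>
  refine congrArg _ (Subtype.ext ?_)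
  exacts [h.cut l, h.cut' l, h.inv l, h.inv' l, frlink_deg_single fun g hg => h.deg l g hg u]

end Pool.Agent.Lib.MP_b6945b_al.St
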