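import Pool.Agent.Lib.MP_b6945b_al.St.Source3
import Pool.Agent.Lib.MP_b6945b_al.St.Cross
import Pool.Agent.Lib.MP_b6945b_al.St.Morita

set_option autoImplicit false

/-!
Blocks with a normal abelian defect group have good deformations.
-/

namespace Pool.Agent.Lib.MP_b6945b_al.St

open IsLocalRing
open MonoidAlgebra (single)

variable {K : Type} [Field K] {V : ValuationSubring K} {H : Type} [Group H] [Fintype H] {p : ℕ}

lemma mem_maximalIdeal_iff_nonunits {v : V} : v ∈ maximalIdeal V ↔ (v : K) ∈ V.nonunits := by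
  exact ValuationSubring.coe_mem_nonunits_iff.symm

lemma natCast_mem_maximalIdeal (hpV : (p : K) ∈ V.nonunits) : (p : V) ∈ maximalIdeal V := by
  rw [mem_maximalIdeal_iff_nonunits]
  simpa using hpV

omit [Fintype H] in
lemma idem_toK {f : MonoidAlgebra V H} (h : f * f = f) : IsIdempotentElem (toK V H f) := by
  change toK V H f * toK V H f = toK V H f
  rw [← map_mul, h]

lemma toK_mem (f : MonoidAlgebra V H) : toK V H f ∈ GO V H := (mem_GO_iff_range V).2 ⟨f, rfl⟩

omit [Fintype H] in
lemma toK_smul (v : V) (a : MonoidAlgebra V H) : toK V H (v • a) = (v : K) • toK V H a := by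
  ext x
  simp [coeff_toK]

omit [Fintype H] in
lemma toK_single (h : H) : toK V H (single h 1) = single h 1 := by
  simp [toK]

lemma toK_central {z : MonoidAlgebra V H} (hz : ∀ b, z * b = b * z) (b : MonoidAlgebra K H) :
    toK V H z * b = b * toK V H z := by
  rw [eq_sum_single b, Finset.mul_sum, Finset.sum_mul]
  refine Finset.sum_congr rfl fun x _ => ?_
  rw [mul_smul_comm, smul_mul_assoc, ← toK_single (V := V), ← map_mul, ← map_mul, hz]

lemma source4_corner_pow {A : Type} [Ring A] {e : A} (he : IsIdempotentElem e) (w : he.Corner)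
    (n : ℕ) : (w ^ (n + 1)).1 = w.1 ^ (n + 1) := by
  induction n with
  | zero => rw [zero_add, pow_one, pow_one]
  | succ n ih => rw [pow_succ, corner_mul, ih, ← pow_succ]

/-- A central element of the corner order is `toK z` with `z` central; use `IsBlock.loc` and
`inMax_iff_valuation`. -/
lemma IsBlock.localCentre {f : MonoidAlgebra V H} (hf : IsBlock f) :
    LocalCentre V (cornerO (idem_toK hf.idem) (GO V H) (toK_mem f)) := by
  intro z hz hc
  obtain ⟨z0, e0⟩ := (mem_GO_iff_range V).1 ((mem_cornerO _ _).1 hz)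
  have he := idem_toK (V := V) hf.idem
  have hF : ∀ b : MonoidAlgebra K H, toK V H f * b = b * toK V H f := toK_central hf.cent
  have hl : toK V H f * z.1 = z.1 := corner_left _ z
  have hr : z.1 * toK V H f = z.1 := corner_right _ z
  have hc0 : ∀ b, z0 * b = b * z0 := by
    intro b
    apply toK_injective V H
    have e := congrArg Subtype.val (hc (cmk (idem_toK hf.idem) (toK V H b)))
    change z.1 * (toK V H f * toK V H b * toK V H f) =
      (toK V H f * toK V H b * toK V H f) * z.1 at e
    rw [map_mul, map_mul, e0]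
    have e1 : toK V H f * toK V H b * toK V H f = toK V H f * toK V H b := by
      rw [mul_assoc, ← hF, ← mul_assoc, he.eq]
    rw [e1, ← mul_assoc, hr, hF, mul_assoc, hl] at e
    exact e
  obtain ⟨v, n, hn⟩ := hf.loc z0 hc0
  obtain ⟨m, hm, y, e⟩ := inMax_iff_valuation.1 hn
  refine ⟨v, v.2, n + 1, m, mem_maximalIdeal_iff_nonunits.1 hm,
    cproj K (idem_toK hf.idem) (toK V H (y * (z0 * f - v • f))), ?_, ?_⟩
  · rw [mem_cornerO, cproj_val]
    exact (GO V H).mul_mem ((GO V H).mul_mem (toK_mem _) (toK_mem _)) (toK_mem _)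
  · have e1 : (z - algebraMap K (idem_toK hf.idem).Corner (v : K)).1 =
        toK V H (z0 * f - v • f) := by
      rw [map_sub, map_mul, toK_smul, e0, hr]
      rfl
    rw [← map_smul, ← toK_smul, ← smul_mul_assoc, ← e, ← pow_succ, map_pow, ← e1,
      ← source4_corner_pow, cproj_cval]

omit [Fintype H] in
lemma source4_toK_inc {A : Type} [Group A] [Fintype A] (ι : A →* H) (a : MonoidAlgebra V A) :
    toK V H (inc V ι a) = inc K ι (toK V A a) := by
  rw [eq_sum_single a]
  simp only [map_sum]
  refine Finset.sum_congr rfl fun x _ => ?_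
  rw [map_smul, toK_smul, toK_smul, map_smul, inc_single, toK_single, toK_single, inc_single]

/-- A family of elements of a group algebra has a common denominator. -/
lemma source4_common {A E : Type} [Group A] [Fintype A] [Fintype E]
    (a : E → MonoidAlgebra K A) :
    ∃ d : K, d ≠ 0 ∧ ∃ a' : E → MonoidAlgebra V A, ∀ l, toK V A (a' l) = d • a l := by
  obtain ⟨d, hd, h⟩ := order0_common (V := V) Finset.univ (fun t : E × A => (a t.1).coeff t.2)
  refine ⟨d, hd, ?_⟩
  have : ∀ l, ∃ b, toK V A b = d • a l := fun l =>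
    (mem_GO_iff_range V).1 fun x => h (l, x) (Finset.mem_univ _)
  choose a' ha' using this
  exact ⟨a', ha'⟩

lemma source4_cross {A : Type} [CommGroup A] [Fintype A] (ι : A →* H) {E : Type} [Group E]
    [Fintype E] (φ : E →* MulAut A) {j : MonoidAlgebra V H} {U U' : E → MonoidAlgebra V H}
    (idem : j * j = j) (one : U 1 = j) (cut : ∀ l, j * U l * j = U l)
    (cut' : ∀ l, j * U' l * j = U' l) (inv : ∀ l, U l * U' l = j) (inv' : ∀ l, U' l * U l = j)
    (comm : ∀ l (x : A), U l * single (ι x) 1 = single (ι (φ l x)) 1 * U l)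
    (mul : ∀ l m, ∃ c : MonoidAlgebra V A, U l * U m = inc V ι c * U (l * m))
    (span : ∀ b, ∃ a : E → MonoidAlgebra V A, j * b * j = ∑ l, inc V ι (a l) * U l)
    (inj : ∀ a : E → MonoidAlgebra V A, ∑ l, inc V ι (a l) * U l = 0 → a = 0) :
    ∃ (δ : MonoidAlgebra K A →ₐ[K] (idem_toK idem).Corner) (u : E → (idem_toK idem).Corner)
      (c : E → E → MonoidAlgebra K A),
      CrossData V φ (cornerO (idem_toK idem) (GO V H) (toK_mem j)) δ u c := by
  have he := idem_toK (V := V) idem
  have hcomm : ∀ l (a : MonoidAlgebra K A),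
      toK V H (U l) * inc K ι a = inc K ι (act K φ l a) * toK V H (U l) := by
    intro l a
    have e1 : ∀ (x : A) (r : K), toK V H (U l) * inc K ι (single x r) =
        inc K ι (act K φ l (single x r)) * toK V H (U l) := by
      intro x r
      rw [crosspure_act_single, inc_single, inc_single]
      have e2 : ∀ g : H, (single g r : MonoidAlgebra K H) = r • toK V H (single g 1) := by
        intro g
        rw [toK_single]
        simp
      rw [e2, e2, mul_smul_comm, smul_mul_assoc, ← map_mul, ← map_mul, comm]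
    have e3 : a = ∑ x, single x (a.coeff x) := by
      conv_lhs => rw [eq_sum_single a]
      exact Finset.sum_congr rfl fun x _ => by simp
    rw [e3, map_sum, map_sum, map_sum, Finset.mul_sum, Finset.sum_mul]
    exact Finset.sum_congr rfl fun x _ => e1 x _
  have hJ : ∀ a : MonoidAlgebra K A, toK V H j * inc K ι a = inc K ι a * toK V H j := by
    intro a
    have e := hcomm 1 a
    have e2 : act K φ 1 a = a := by
      ext x
      rw [crosspure_act_coeff, map_one]
      rfl
    rwa [one, e2] at e
  have hv : ∀ a : MonoidAlgebra K A,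
      toK V H j * inc K ι a * toK V H j = inc K ι a * toK V H j := by
    intro a
    rw [hJ, mul_assoc, he.eq]
  have hU : ∀ l, toK V H j * toK V H (U l) * toK V H j = toK V H (U l) := by
    intro l
    rw [← map_mul, ← map_mul, cut]
  have hU' : ∀ l, toK V H j * toK V H (U' l) * toK V H j = toK V H (U' l) := by
    intro l
    rw [← map_mul, ← map_mul, cut']
  have hUl : ∀ l, toK V H j * toK V H (U l) = toK V H (U l) := by
    intro l
    rw [← hU l, ← mul_assoc, ← mul_assoc, he.eq]
  have hUr : ∀ l, toK V H (U l) * toK V H j = toK V H (U l) := by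
    intro l
    rw [← hU l, mul_assoc, he.eq]
  let δ : MonoidAlgebra K A →ₐ[K] (idem_toK idem).Corner :=
    AlgHom.ofLinearMap ((cproj K (idem_toK idem)).comp (inc K ι).toLinearMap)
      (Subtype.ext (by
        change toK V H j * inc K ι 1 * toK V H j = toK V H j
        rw [map_one, mul_one, he.eq]))
      (fun x y => Subtype.ext (by
        change toK V H j * inc K ι (x * y) * toK V H j =
          (toK V H j * inc K ι x * toK V H j) * (toK V H j * inc K ι y * toK V H j)
        rw [hv, hv x, map_mul, mul_assoc (inc K ι x) (toK V H j), ← mul_assoc (toK V H j),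
          ← mul_assoc (toK V H j), he.eq, hv, mul_assoc]))
  have hδ : ∀ a, (δ a).1 = inc K ι a * toK V H j := fun a => hv a
  let u : E → (idem_toK idem).Corner := fun l => cmk _ (toK V H (U l))
  have hu : ∀ l, (u l).1 = toK V H (U l) := fun l => hU l
  have hδu : ∀ a l, (δ a * u l).1 = inc K ι a * toK V H (U l) := by
    intro a l
    rw [corner_mul, hδ, hu, mul_assoc, hUl]
  have hsum : ∀ a : E → MonoidAlgebra K A,
      (∑ l, δ (a l) * u l).1 = ∑ l, inc K ι (a l) * toK V H (U l) := by
    intro a
    change cval K (idem_toK idem) (∑ l, δ (a l) * u l) = _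
    rw [map_sum]
    exact Finset.sum_congr rfl fun l _ => hδu _ _
  have hK : ∀ a : E → MonoidAlgebra V A, toK V H (∑ l, inc V ι (a l) * U l) =
      ∑ l, inc K ι (toK V A (a l)) * toK V H (U l) := by
    intro a
    rw [map_sum]
    exact Finset.sum_congr rfl fun l _ => by rw [map_mul, source4_toK_inc]
  have hinj0 : ∀ a : E → MonoidAlgebra K A, ∑ l, inc K ι (a l) * toK V H (U l) = 0 → a = 0 := by
    intro a ha
    obtain ⟨d, hd, a', ha'⟩ := source4_common (V := V) a
    have e : ∑ l, inc V ι (a' l) * U l = 0 := by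
      apply toK_injective V H
      rw [hK, map_zero, ← smul_zero d, ← ha, Finset.smul_sum]
      exact Finset.sum_congr rfl fun l _ => by rw [ha', map_smul, smul_mul_assoc]
    funext l
    have e2 := ha' l
    rw [inj a' e, Pi.zero_apply, map_zero] at e2
    exact (smul_eq_zero.1 e2.symm).resolve_left hd
  have hinj : Function.Injective (fun a : E → MonoidAlgebra K A => ∑ l, δ (a l) * u l) := by
    intro a b hab
    have e := congrArg Subtype.val hab
    change (∑ l, δ (a l) * u l).1 = (∑ l, δ (b l) * u l).1 at e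
    rw [hsum, hsum] at e
    refine sub_eq_zero.1 (hinj0 (a - b) ?_)
    rw [← sub_eq_zero, ← Finset.sum_sub_distrib] at e
    rw [← e]
    exact Finset.sum_congr rfl fun l _ => by rw [Pi.sub_apply, map_sub, sub_mul]
  have hspan : ∀ y : (idem_toK idem).Corner, y.1 ∈ GO V H →
      ∃ a : E → MonoidAlgebra V A, ∑ l, δ (toK V A (a l)) * u l = y := by
    intro y hy
    obtain ⟨b, hb⟩ := (mem_GO_iff_range V).1 hy
    obtain ⟨a, ha⟩ := span b
    refine ⟨a, Subtype.ext ?_⟩
    rw [hsum (fun l => toK V A (a l)), ← hK, ← ha, map_mul, map_mul, hb, corner_left,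
      corner_right]
  choose c hc using mul
  refine ⟨δ, u, fun l m => toK V A (c l m), ?_, fun l => ?_, fun l a => ?_, fun l m => ?_,
    fun l m => toK_mem _, ⟨hinj, fun y => ?_⟩, fun a => ⟨fun ha => ?_, fun ha => ?_⟩⟩
  · exact Subtype.ext (by rw [hu, one]; rfl)
  · have hw : (cmk (idem_toK idem) (toK V H (U' l))).1 = toK V H (U' l) := hU' l
    refine ⟨cmk _ (toK V H (U' l)), ?_, Subtype.ext ?_, Subtype.ext ?_⟩
    · rw [mem_cornerO, hw]
      exact toK_mem _
    · rw [corner_mul, hu, hw, ← map_mul, inv]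
      rfl
    · rw [corner_mul, hu, hw, ← map_mul, inv']
      rfl
  · refine Subtype.ext ?_
    rw [hδu, corner_mul, hu, hδ, ← hJ, ← mul_assoc, hUr, hcomm]
  · refine Subtype.ext ?_
    rw [hδu, corner_mul, hu, hu, ← map_mul, hc, map_mul, source4_toK_inc]
  · obtain ⟨d, hd, hy⟩ := (symOrder_GO V H).exists_smul_mem y.1
    obtain ⟨a, ha⟩ := hspan (d • y) hy
    refine ⟨fun l => d⁻¹ • toK V A (a l), ?_⟩
    have e : y = d⁻¹ • d • y := by rw [smul_smul, inv_mul_cancel₀ hd, one_smul]
    rw [e, ← ha, Finset.smul_sum]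
    exact Finset.sum_congr rfl fun l _ => by rw [map_smul, smul_mul_assoc]
  · obtain ⟨a', ha'⟩ := hspan _ ha
    have e : (fun l => toK V A (a' l)) = a := hinj ha'
    intro l
    rw [← e]
    exact toK_mem _
  · refine sum_mem fun l _ => ?_
    obtain ⟨b, hb⟩ := (mem_GO_iff_range V).1 (ha l)
    rw [mem_cornerO, hδu, ← hb, ← source4_toK_inc]
    exact (GO V H).mul_mem (toK_mem _) (toK_mem _)

/-- Build `CrossData` for the corner of `toK j`: `δ x = inc x * toK j`, `u l = toK (U l)`.  By
`span` and `inj` there is a `V`-linear `κ` with `κ (∑ inc (a l) * U l) = a` and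
`j b j = ∑ inc (κ b l) * U l`; extend it over `K` (`SymOrder.exists_extend`, `linear_ext` for
`symOrder_GO`) to get `bij` and `mem_iff`.  The commutative group structure on `D` is
`{ (inferInstance : Group D) with mul_comm := .. }`.  Then `morita_localCentre`,
`CrossData.good`, `morita_good` with `cornerEmb_cval` for the corners of `toK j` and `toK f`. -/
theorem SrcData.good [CharZero K] (hp : p.Prime) (hpV : (p : K) ∈ V.nonunits) {D : Subgroup H}
    [Fintype D] (hD : IsPGroup p D) (hD0 : D ≠ ⊥) (hc : ∀ x ∈ D, ∀ y ∈ D, x * y = y * x)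
    {E : Type} [Group E] [Fintype E] {φ : E →* MulAut D} {f j : MonoidAlgebra V H}
    {U U' : E → MonoidAlgebra V H} (hf : IsBlock f) (h : SrcData p D φ f j U U') :
    Good V p (cornerO (idem_toK hf.idem) (GO V H) (toK_mem f)) := by
  let _ : CommGroup D :=
    { (inferInstance : Group D) with mul_comm := fun x y => Subtype.ext (hc _ x.2 _ y.2) }
  have : Nontrivial D := (Subgroup.nontrivial_iff_ne_bot D).2 hD0
  obtain ⟨δ, u, c, hX⟩ := source4_cross (K := K) (V := V) (A := D) D.subtype φ h.idem h.one h.cut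
    h.cut' h.inv h.inv' h.comm h.mul h.span h.inj
  have h10 : InIdl (GO V H) (cval K (idem_toK h.idem) 1) (cval K (idem_toK hf.idem) 1) := by
    obtain ⟨n, a, b, -, -, e⟩ := h.full
    refine ⟨n, fun i => toK V H (a i), fun i => toK V H (b i), fun i => toK_mem _,
      fun i => toK_mem _, ?_⟩
    change toK V H f = ∑ i, toK V H (a i) * toK V H j * toK V H (b i)
    rw [e, map_sum]
    exact Finset.sum_congr rfl fun i _ => by rw [map_mul, map_mul]
  have h01 : InIdl (GO V H) (cval K (idem_toK hf.idem) 1) (cval K (idem_toK h.idem) 1) := by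
    refine ⟨1, fun _ => 1, fun _ => toK V H j, fun _ => (GO V H).one_mem, fun _ => toK_mem _, ?_⟩
    change toK V H j = ∑ _i : Fin 1, 1 * toK V H f * toK V H j
    rw [Fin.sum_univ_one, one_mul, ← map_mul, h.le]
  have c0 := cornerEmb_cval (K := K) (idem_toK h.idem) (GO V H) (toK_mem j)
  have c1 := cornerEmb_cval (K := K) (idem_toK hf.idem) (GO V H) (toK_mem f)
  have hl := morita_localCentre (V := V) c1 c0 h01 h10 hf.localCentre
  exact morita_good c0 c1 h10 h01 (hX.good hp hpV hD h.card hl)

theorem BlockF.good [CharZero K] [IsAlgClosed K] (hp : p.Prime) (hpV : (p : K) ∈ V.nonunits)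
    {D : Subgroup H} [D.Normal] (hD : IsPGroup p D) (hD0 : D ≠ ⊥)
    (hc : ∀ x ∈ D, ∀ y ∈ D, x * y = y * x) {f a : MonoidAlgebra V H} (hf : BlockF D f a) :
    Good V p (cornerO (idem_toK hf.idem) (GO V H) (toK_mem f)) := by
  let _ : Fintype D := Fintype.ofFinite _
  have hpR := natCast_mem_maximalIdeal hpV
  obtain ⟨j, c, hj⟩ := exists_srcIdem (monicSplit_valuationSubring V) hp hpR hD hc hf
  obtain ⟨E, _, _, φ, U, U', h⟩ := hj.exists_srcData hp hpR hc hf
  exact h.good hp hpV hD hD0 hc hf.toIsBlock

end Pool.Agent.Lib.MP_b6945b_al.St
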