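import Pool.Agent.Lib.MP_b6945b_al.St.FrFin
import Pool.Agent.Lib.MP_b6945b_al.St.FrFlip2
import Pool.Agent.Lib.MP_b6945b_al.St.Source4

set_option autoImplicit false

/-!
Extension of scalars to the fraction field.
-/

namespace Pool.Agent.Lib.MP_b6945b_al.St

open IsLocalRing
open MonoidAlgebra (single)

variable {K : Type} [Field K] {V : ValuationSubring K} {A A' : Type} [Ring A] [Algebra V A]
  [Ring A'] [Algebra K A']

variable (V) in
/-- `A'` is obtained from `A` by extension of scalars, and `O` is the image of `A`. -/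
structure Loca (τ : A →+* A') (O : Subring A') : Prop where
  inj : Function.Injective τ
  smul : ∀ (v : V) a, τ (v • a) = (v : K) • τ a
  mem : ∀ y, y ∈ O ↔ ∃ a, τ a = y
  span : ∀ y, ∃ d : K, d ≠ 0 ∧ d • y ∈ O

variable {τ : A →+* A'} {O : Subring A'}

lemma Loca.smul_mem (h : Loca V τ O) : ∀ v ∈ V, ∀ y ∈ O, v • y ∈ O := by
  intro v hv y hy
  obtain ⟨a, rfl⟩ := (h.mem y).1 hy
  exact (h.mem _).2 ⟨(⟨v, hv⟩ : V) • a, h.smul _ a⟩

lemma frloca_mem (h : Loca V τ O) (a : A) : τ a ∈ O := (h.mem _).2 ⟨a, rfl⟩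

lemma frloca_common (h : Loca V τ O) {ι : Type} (t : Finset ι) (y : ι → A') :
    ∃ d : K, d ≠ 0 ∧ ∀ i ∈ t, d • y i ∈ O := by
  classical
  have key : ∀ {d d' : K} {z : A'}, d' ≠ 0 → d / d' ∈ V → d' • z ∈ O → d • z ∈ O := by
    intro d d' z h0 hv hz
    have := h.smul_mem _ hv _ hz
    rwa [smul_smul, div_mul_cancel₀ _ h0] at this
  induction t using Finset.induction_on with
  | empty => exact ⟨1, one_ne_zero, fun i hi => absurd hi (Finset.notMem_empty i)⟩
  | insert j t _ ih =>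
    obtain ⟨d, hd, h1⟩ := ih
    obtain ⟨d', hd', h2⟩ := h.span (y j)
    rcases V.mem_or_inv_mem (d / d') with hv | hv
    · exact ⟨d, hd, Finset.forall_mem_insert _ _ _ |>.2 ⟨key hd' hv h2, h1⟩⟩
    · rw [inv_div] at hv
      exact ⟨d', hd', Finset.forall_mem_insert _ _ _ |>.2 ⟨h2, fun i hi => key hd hv (h1 i hi)⟩⟩

/-- Compare `SymOrder.exists_extend`: put `T' y = d⁻¹ • T a` for `d • y = τ a`; of two nonzero
scalars one is a multiple of the other over `V`. -/
lemma Loca.extend (h : Loca V τ O) {W : Type} [AddCommGroup W] [Module K W] (T : A → W)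
    (hadd : ∀ a b, T (a + b) = T a + T b) (hsmul : ∀ (v : V) a, T (v • a) = (v : K) • T a) :
    ∃ T' : A' →ₗ[K] W, ∀ a, T' (τ a) = T a := by
  have half : ∀ {y : A'} {d d' : K} {a a' : A}, d ≠ 0 → d' ≠ 0 → τ a = d • y → τ a' = d' • y →
      d / d' ∈ V → d⁻¹ • T a = d'⁻¹ • T a' := by
    intro y d d' a a' hd hd' e e' hv
    have h1 : a = (⟨d / d', hv⟩ : V) • a' := h.inj (by
      rw [h.smul, e, e', smul_smul, div_mul_cancel₀ _ hd'])
    rw [h1, hsmul, smul_smul]
    congr 1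
    change d⁻¹ * (d / d') = d'⁻¹
    field_simp
  have hex : ∀ y, ∃ (d : K) (a : A), d ≠ 0 ∧ τ a = d • y := fun y => by
    obtain ⟨d, hd, h1⟩ := h.span y
    obtain ⟨a, ha⟩ := (h.mem _).1 h1
    exact ⟨d, a, hd, ha⟩
  choose d0 a0 hd0 ha0 using hex
  have key : ∀ {y : A'} {d : K} {a : A}, d ≠ 0 → τ a = d • y →
      (d0 y)⁻¹ • T (a0 y) = d⁻¹ • T a := by
    intro y d a hd e
    rcases V.mem_or_inv_mem (d0 y / d) with hv | hv
    · exact half (hd0 y) hd (ha0 y) e hv
    · rw [inv_div] at hv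
      exact (half hd (hd0 y) e (ha0 y) hv).symm
  refine ⟨⟨⟨fun y => (d0 y)⁻¹ • T (a0 y), fun y z => ?_⟩, fun c y => ?_⟩, fun a => ?_⟩
  · obtain ⟨d, hd, h1⟩ := frloca_common h Finset.univ (fun b : Bool => cond b y z)
    obtain ⟨a, ha⟩ := (h.mem _).1 (h1 true (Finset.mem_univ _))
    obtain ⟨b, hb⟩ := (h.mem _).1 (h1 false (Finset.mem_univ _))
    rw [key (y := y) hd ha, key (y := z) hd hb,
      key (a := a + b) hd (by rw [map_add, ha, hb, smul_add]; rfl), hadd, smul_add]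
  · change (d0 (c • y))⁻¹ • T (a0 (c • y)) = c • (d0 y)⁻¹ • T (a0 y)
    by_cases hc : c = 0
    · have h0 : T 0 = 0 := by simpa using hsmul 0 0
      rw [key (a := 0) one_ne_zero (by rw [hc, zero_smul, smul_zero, map_zero]), h0, hc,
        zero_smul, smul_zero]
    · rw [key (a := a0 y) (div_ne_zero (hd0 y) hc)
        (by rw [ha0, smul_smul, div_mul_cancel₀ _ hc]), inv_div, smul_smul, div_eq_mul_inv]
  · change (d0 (τ a))⁻¹ • T (a0 (τ a)) = T a
    rw [key (a := a) one_ne_zero (one_smul _ _).symm, inv_one, one_smul]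

lemma Loca.extend_end (h : Loca V τ O) (T : A →ₗ[V] A) :
    ∃ T' : A' →ₗ[K] A', (∀ a, T' (τ a) = τ (T a)) ∧ ∀ y ∈ O, T' y ∈ O := by
  obtain ⟨T', hT⟩ := h.extend (fun a => τ (T a)) (fun a b => by rw [map_add, map_add])
    (fun v a => by rw [map_smul, h.smul])
  refine ⟨T', hT, fun y hy => ?_⟩
  obtain ⟨a, rfl⟩ := (h.mem y).1 hy
  rw [hT]
  exact frloca_mem h _

/-- A property that is closed under scalar multiplication holds everywhere. -/
lemma Loca.induct (h : Loca V τ O) {P : A' → Prop} (h0 : ∀ a, P (τ a))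
    (hs : ∀ (d : K) y, P y → P (d • y)) (y : A') : P y := by
  obtain ⟨d, hd, h1⟩ := h.span y
  obtain ⟨a, ha⟩ := (h.mem _).1 h1
  have := hs d⁻¹ _ (h0 a)
  rwa [ha, inv_smul_smul₀ hd] at this

/-- `inMax_iff_valuation`, `mem_maximalIdeal_iff_nonunits`. -/
lemma Loca.inMax_iff (h : Loca V τ O) {a : A} :
    InMax V a ↔ ∃ m ∈ V.nonunits, ∃ y ∈ O, τ a = m • y := by
  rw [inMax_iff_valuation]
  constructor
  · rintro ⟨m, hm, b, rfl⟩
    exact ⟨m, mem_maximalIdeal_iff_nonunits.1 hm, τ b, frloca_mem h b, h.smul m b⟩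
  · rintro ⟨m, hm, y, hy, e⟩
    obtain ⟨b, rfl⟩ := (h.mem y).1 hy
    exact ⟨⟨m, V.nonunits_subset hm⟩, mem_maximalIdeal_iff_nonunits.2 hm, b,
      h.inj (e.trans (h.smul ⟨m, V.nonunits_subset hm⟩ b).symm)⟩

lemma Loca.nilMod (h : Loca V τ O) {a : A} (ha : NilR V a) : NilMod V O (τ a) := by
  obtain ⟨n, hn⟩ := ha
  exact ⟨n, by rw [← map_pow]; exact h.inMax_iff.1 hn⟩

lemma Loca.corner (h : Loca V τ O) {e : A} (he : IsIdempotentElem e) :
    ∃ (he' : IsIdempotentElem (τ e)) (hO : τ e ∈ O) (τ' : he.Corner →+* he'.Corner),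
      (∀ a, (τ' a).1 = τ a.1) ∧ Loca V τ' (cornerO he' O hO) := by
  have he' : IsIdempotentElem (τ e) := he.map τ
  let τ' : he.Corner →+* he'.Corner :=
    { toFun := fun a => ⟨τ a.1, (Subsemigroup.mem_corner_iff he').2
        ⟨by rw [← map_mul, corner_left], by rw [← map_mul, corner_right]⟩⟩
      map_one' := rfl
      map_mul' := fun a b => Subtype.ext (map_mul τ a.1 b.1)
      map_zero' := Subtype.ext (map_zero τ)
      map_add' := fun a b => Subtype.ext (map_add τ a.1 b.1) }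
  refine ⟨he', frloca_mem h e, τ', fun _ => rfl,
    fun a b e => Subtype.ext (h.inj (congrArg Subtype.val e)),
    fun v a => Subtype.ext (h.smul v a.1), fun y => ⟨fun hy => ?_, ?_⟩, fun y => h.span y.1⟩
  · obtain ⟨b, hb⟩ := (h.mem _).1 hy
    refine ⟨cmk he b, Subtype.ext ?_⟩
    change τ (e * b * e) = y.1
    rw [map_mul, map_mul, hb, corner_left, corner_right]
  · rintro ⟨a, rfl⟩
    exact frloca_mem h a.1

lemma Loca.matrix (h : Loca V τ O) (κ : Type) [Fintype κ] [DecidableEq κ] :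
    Loca V (τ.mapMatrix : Matrix κ κ A →+* Matrix κ κ A') O.matrix := by
  refine ⟨fun m m' e => Matrix.ext fun i j => h.inj (congrFun (congrFun e i) j),
    fun v m => Matrix.ext fun i j => h.smul v (m i j), fun y => ⟨fun hy => ?_, ?_⟩, fun y => ?_⟩
  · choose m hm using fun i j => (h.mem _).1 (Set.mem_matrix.1 hy i j)
    exact ⟨Matrix.of m, Matrix.ext hm⟩
  · rintro ⟨m, rfl⟩
    exact Set.mem_matrix.2 fun i j => frloca_mem h (m i j)
  · obtain ⟨d, hd, h1⟩ := frloca_common h Finset.univ (fun t : κ × κ => y t.1 t.2)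
    exact ⟨d, hd, Set.mem_matrix.2 fun i j => h1 (i, j) (Finset.mem_univ _)⟩

section group

variable {D G : Type} [CommGroup D] [Group G] [Fintype G]

lemma mem_CA_bot {R : Type} [CommRing R] (ι : D →* G) (b : MonoidAlgebra R G) :
    b ∈ CA R ι ⊥ := by
  rintro x - _ ⟨q, hq, rfl⟩
  rw [Subgroup.mem_bot.1 hq, map_one, mul_one, one_mul]

variable (V) in
/-- Extension of scalars for the group algebra. -/
noncomputable def caK (ι : D →* G) : CA V ι ⊥ →+* MonoidAlgebra K G :=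
  (toK V G).comp (CA V ι ⊥).val.toRingHom

lemma caK_apply (ι : D →* G) (x : CA V ι ⊥) : caK V ι x = toK V G x := rfl

lemma loca_caK (ι : D →* G) : Loca V (caK V ι) (GO V G) := by
  refine ⟨fun a b e => Subtype.ext (toK_injective V G e), fun v a => toK_smul v a.1,
    fun y => (mem_GO_iff_range V).trans ⟨?_, ?_⟩, (symOrder_GO V G).exists_smul_mem⟩
  · rintro ⟨b, rfl⟩
    exact ⟨⟨b, mem_CA_bot ι b⟩, rfl⟩
  · rintro ⟨b, rfl⟩
    exact ⟨b.1, rfl⟩

end group

variable {D E : Type} [CommGroup D] [Fintype D] [Group E] [Fintype E] {δ : D →* A}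
  {φ : E →* MulAut D} {w w' : E → A} {a : E → E → V} {L : Subalgebra V A} {r α : A →ₗ[V] A}

omit [Fintype D] in
lemma Loca.map_hatI (h : Loca V τ O) (c : MonoidAlgebra V D) :
    τ (hatI V δ c) = hatI K (τ.toMonoidHom.comp δ) (toK V D c) := by
  induction c using MonoidAlgebra.induction_linear with
  | zero => simp only [map_zero]
  | add c c' e e' => simp only [map_add, e, e']
  | single u t =>
    have e : toK V D (single u t) = single u (t : K) := by simp [toK]
    rw [e, hatI_single, hatI_single, h.smul]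
    rfl

omit [Fintype D] [Fintype E] in
lemma Loca.cUnits (h : Loca V τ O) (hw : CUnits δ φ w w' a) :
    CUnits (τ.toMonoidHom.comp δ) φ (fun l => τ (w l)) (fun l => τ (w' l))
      fun l m => (a l m : K) := by
  refine ⟨by rw [hw.one, map_one], fun l => by rw [← map_mul, hw.inv, map_one],
    fun l => by rw [← map_mul, hw.inv', map_one], fun l u => ?_,
    fun l m => by rw [← map_mul, hw.mul, h.smul], fun l m => (hw.unit l m).map V.subtype⟩
  change τ (w l) * τ (δ u) = τ (δ (φ l u)) * τ (w l)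
  rw [← map_mul, hw.comm, map_mul]

/-- The data of `FinD` over the fraction field. -/
structure FinK (τ : A →+* A') (δ : D →* A) (w : E → A) (r α : A →ₗ[V] A) (L' : Subalgebra K A')
    (r' α' : A' →ₗ[K] A') : Prop where
  mem : ∀ x, x ∈ L' ↔ ∃ c : E → MonoidAlgebra K D,
    x = ∑ l, hatI K (τ.toMonoidHom.comp δ) (c l) * τ (w l)
  r_eq : ∀ x, r' (τ x) = τ (r x)
  α_eq : ∀ x, α' (τ x) = τ (α x)

lemma FinD.exists_finK (h : FinD δ φ w w' a L r α) (hτ : Loca V τ O) :
    ∃ L' r' α', FinK τ δ w r α L' r' α' := by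
  obtain ⟨L', hL⟩ := (hτ.cUnits h.cu).exists_alg
  obtain ⟨r', hr, -⟩ := hτ.extend_end r
  obtain ⟨α', hα, -⟩ := hτ.extend_end α
  exact ⟨L', r', α', hL, hr, hα⟩

variable {L' : Subalgebra K A'} {r' α' : A' →ₗ[K] A'}

omit [Fintype D] [Group E] in
lemma frloca_sum (hτ : Loca V τ O) (c : E → MonoidAlgebra V D) :
    τ (∑ l, hatI V δ (c l) * w l) =
      ∑ l, hatI K (τ.toMonoidHom.comp δ) (toK V D (c l)) * τ (w l) := by
  rw [map_sum]
  exact Finset.sum_congr rfl fun l _ => by rw [map_mul, hτ.map_hatI]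

lemma frloca_memL (hK : FinK τ δ w r α L' r' α') (h : FinD δ φ w w' a L r α) (hτ : Loca V τ O)
    {x : A} (hx : x ∈ L) : τ x ∈ L' := by
  obtain ⟨c, rfl⟩ := (h.mem x).1 hx
  exact (hK.mem _).2 ⟨_, frloca_sum hτ c⟩

lemma frloca_indL (hK : FinK τ δ w r α L' r' α') (h : FinD δ φ w w' a L r α) (hτ : Loca V τ O)
    {P : A' → Prop} (h0 : ∀ x ∈ L, P (τ x)) (hs : ∀ (d : K) y, P y → P (d • y)) {y : A'}
    (hy : y ∈ L') : P y := by
  obtain ⟨c, rfl⟩ := (hK.mem y).1 hy
  obtain ⟨d, hd, c', hc⟩ := source4_common (V := V) c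
  have h1 := hs d⁻¹ _ (h0 _ ((h.mem _).2 ⟨c', rfl⟩))
  simpa only [frloca_sum hτ, hc, map_smul, smul_mul_assoc, ← Finset.smul_sum,
    inv_smul_smul₀ hd] using h1

lemma frloca_r_self (h : FinD δ φ w w' a L r α) {b : A} (hb : b ∈ L) : r b = b := by
  have := h.r_mul b hb 1 L.one_mem 1
  rwa [h.r_one, mul_one, mul_one] at this

/-- Clear denominators with `source4_common`; `r'` is the identity on `L'`. -/
lemma FinK.basic (hK : FinK τ δ w r α L' r' α') (h : FinD δ φ w w' a L r α) (hτ : Loca V τ O) :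
    (∀ x, τ x ∈ L' ↔ x ∈ L) ∧ (∀ y, r' y ∈ L') ∧
      (∀ b ∈ L', ∀ b' ∈ L', ∀ y, r' (b * y * b') = b * r' y * b') ∧ r' 1 = 1 ∧
      ∀ y, r' y + trB (cfr (τ.toMonoidHom.comp δ) fun l => τ (w l))
        (cfr' (τ.toMonoidHom.comp δ) fun l => τ (w' l)) α' y = y := by
  have h3 : ∀ b ∈ L', ∀ b' ∈ L', ∀ y, r' (b * y * b') = b * r' y * b' := by
    intro b hb b' hb' y
    refine frloca_indL hK h hτ (P := fun b => r' (b * y * b') = b * r' y * b') (fun x hx => ?_)
      (fun d z e => by simp only [smul_mul_assoc, map_smul, e]) hb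
    refine frloca_indL hK h hτ (P := fun b' => r' (τ x * y * b') = τ x * r' y * b')
      (fun x' hx' => ?_) (fun d z e => by simp only [mul_smul_comm, map_smul, e]) hb'
    refine hτ.induct (P := fun y => r' (τ x * y * τ x') = τ x * r' y * τ x') (fun z => ?_)
      (fun d z e => by simp only [mul_smul_comm, smul_mul_assoc, map_smul, e]) y
    rw [← map_mul, ← map_mul, hK.r_eq, hK.r_eq, h.r_mul x hx x' hx', map_mul, map_mul]
  have h4 : r' 1 = 1 := by rw [← map_one τ, hK.r_eq, h.r_one]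
  refine ⟨fun x => ⟨fun hx => ?_, frloca_memL hK h hτ⟩, fun y => ?_, h3, h4, fun y => ?_⟩
  · have e := h3 _ hx 1 L'.one_mem 1
    rw [h4, mul_one, mul_one, hK.r_eq] at e
    exact hτ.inj e ▸ h.r_mem x
  · refine hτ.induct (P := fun y => r' y ∈ L') (fun z => ?_) (fun d z e => ?_) y
    · rw [hK.r_eq]
      exact frloca_memL hK h hτ (h.r_mem z)
    · rw [map_smul]
      exact L'.smul_mem e d
  · refine hτ.induct (P := fun y => r' y + trB (cfr (τ.toMonoidHom.comp δ) fun l => τ (w l))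
      (cfr' (τ.toMonoidHom.comp δ) fun l => τ (w' l)) α' y = y) (fun z => ?_) (fun d z e => ?_) y
    · conv_rhs => rw [← h.hig z]
      rw [map_add, hK.r_eq]
      simp only [trB, map_sum, map_mul, ← hK.α_eq, cfr, cfr']
      rfl
    · conv_rhs => rw [← e]
      simp only [trB, map_smul, mul_smul_comm, smul_mul_assoc, smul_add, Finset.smul_sum]

omit [Fintype D] [Fintype E] in
lemma frloca_act (l : E) (c : MonoidAlgebra K D) :
    act K φ l c = inc K (φ l).toMonoidHom c := by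
  induction c using MonoidAlgebra.induction_linear with
  | zero => rw [map_zero, map_zero]
  | add c c' h h' => rw [map_add, map_add, h, h']
  | single u t => rw [crosspure_act_single, inc_single]; rfl

lemma frloca_inj [Module.IsTorsionFree V A] (h : FinD δ φ w w' a L r α) (hτ : Loca V τ O)
    {c c' : E → MonoidAlgebra K D}
    (e : ∑ l, hatI K (τ.toMonoidHom.comp δ) (c l) * τ (w l) =
      ∑ l, hatI K (τ.toMonoidHom.comp δ) (c' l) * τ (w l)) : c = c' := by
  classical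
  let f : (E → MonoidAlgebra V D) →ₗ[V] A :=
    { toFun := fun c => ∑ l, hatI V δ (c l) * w l
      map_add' := fun c c' => by simp [add_mul, Finset.sum_add_distrib]
      map_smul' := fun t c => by simp [Finset.smul_sum] }
  have hf : Function.Injective f := injective_of_inMax f fun c hc => by
    rw [← Finset.univ_sum_single c]
    exact Submodule.sum_mem _ fun l _ =>
      idem_inMax_map (LinearMap.single V (fun _ : E => MonoidAlgebra V D) l) (h.pure c hc l)
  obtain ⟨d, hd, b, hb⟩ := source4_common (V := V) (c - c')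
  have h0 : f b = f 0 := by
    refine hτ.inj ?_
    rw [map_zero, map_zero]
    refine (frloca_sum hτ b).trans ?_
    simp only [hb, Pi.sub_apply, map_smul, map_sub, smul_mul_assoc, sub_mul, ← Finset.smul_sum,
      Finset.sum_sub_distrib, e, sub_self, smul_zero]
  funext l
  have h1 := hb l
  rw [hf h0, Pi.zero_apply, map_zero] at h1
  exact sub_eq_zero.1 ((smul_eq_zero.1 h1.symm).resolve_left hd)

/-- `δ'` is `hatI` with restricted codomain, `u l = τ (w l)`, `c l m = algebraMap (a l m)`.  For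
injectivity use `FinD.pure`, `injective_of_inMax` and `source4_common`. -/
lemma FinK.cross [Module.Finite V A] [Module.IsTorsionFree V A] (hK : FinK τ δ w r α L' r' α')
    (h : FinD δ φ w w' a L r α) (hτ : Loca V τ O) :
    ∃ (δ' : MonoidAlgebra K D →ₐ[K] L') (u : E → L') (c : E → E → MonoidAlgebra K D),
      (∀ x, (δ' x : A') = hatI K (τ.toMonoidHom.comp δ) x) ∧ (∀ l, (u l : A') = τ (w l)) ∧
      CrossData V φ (O.comap L'.val.toRingHom) δ' u c := by
  have cu := hτ.cUnits h.cu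
  obtain ⟨m1, m2, m3, -⟩ := cu.mem hK.mem
  have hhat : ∀ x, hatI K (τ.toMonoidHom.comp δ) x ∈ L' := fun x => by
    rw [eq_sum_single x, map_sum]
    refine L'.sum_mem fun u _ => ?_
    rw [map_smul, hatI_single, one_smul]
    exact L'.smul_mem (m1 u) _
  let δ' : MonoidAlgebra K D →ₐ[K] L' := (hatI K (τ.toMonoidHom.comp δ)).codRestrict L' hhat
  let u : E → L' := fun l => ⟨τ (w l), m2 l⟩
  have hsum : ∀ c : E → MonoidAlgebra K D, ((∑ l, δ' (c l) * u l : L') : A') =
      ∑ l, hatI K (τ.toMonoidHom.comp δ) (c l) * τ (w l) := fun c =>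
    AddSubmonoidClass.coe_finsetSum _ _
  refine ⟨δ', u, fun l m => algebraMap K _ (a l m : K), fun _ => rfl, fun _ => rfl,
    Subtype.ext cu.one, fun l => ⟨⟨τ (w' l), m3 l⟩, frloca_mem hτ _, Subtype.ext (cu.inv l),
      Subtype.ext (cu.inv' l)⟩, fun l c => Subtype.ext ?_, fun l m => ?_,
    fun l m => crosspure_single_mem 1 (a l m).2, ⟨fun c c' e => ?_, fun y => ?_⟩,
    fun c => ⟨fun hc => ?_, fun hc => ?_⟩⟩
  · rw [frloca_act]
    exact cu.mul_hat l c
  · rw [AlgHom.commutes, ← Algebra.smul_def]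
    exact Subtype.ext (cu.mul l m)
  · exact frloca_inj h hτ ((hsum c).symm.trans ((congrArg Subtype.val e).trans (hsum c')))
  · obtain ⟨c, hc⟩ := (hK.mem _).1 y.2
    exact ⟨c, Subtype.ext ((hsum c).trans hc.symm)⟩
  · obtain ⟨x, hx⟩ := (hτ.mem _).1 hc
    have hx' : τ x = ((∑ l, δ' (c l) * u l : L') : A') := hx
    obtain ⟨b, rfl⟩ := (h.mem x).1 (((hK.basic h hτ).1 x).1 (hx' ▸ Subtype.prop _))
    rw [hsum, frloca_sum hτ] at hx'
    intro l
    rw [← frloca_inj h hτ hx']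
    exact toK_mem _
  · choose b hb using fun l => (mem_GO_iff_range V).1 (hc l)
    change ((∑ l, δ' (c l) * u l : L') : A') ∈ O
    rw [hsum]
    simp only [← hb, ← frloca_sum hτ]
    exact frloca_mem hτ _

/-- A central element of the order is `τ z` with `z ∈ L` commuting with `δ`; apply `r` to
`(z - c) ^ n = m • y`. -/
lemma FinK.localCentre (hK : FinK τ δ w r α L' r' α') (h : FinD δ φ w w' a L r α)
    (hτ : Loca V τ O) (hloc : ∀ z, FixedBy (cjI V δ) ⊤ z → ∃ c : V, NilR V (z - c • 1)) :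
    LocalCentre V (O.comap L'.val.toRingHom) := by
  intro z hz hc
  obtain ⟨x, hx⟩ := (hτ.mem _).1 hz
  have hx' : τ x = (z : A') := hx
  have hxL : x ∈ L := ((hK.basic h hτ).1 x).1 (hx' ▸ z.2)
  obtain ⟨c, n, hn⟩ := hloc x (fixedBy_cjI_iff.2 fun u _ => hτ.inj (by
    have := congrArg Subtype.val (hc ⟨τ (δ u), frloca_memL hK h hτ ((h.cu.mem h.mem).1 u)⟩)
    rw [map_mul, map_mul, hx']
    exact this.symm))
  obtain ⟨m, hm, y, e⟩ := inMax_iff_valuation.1 hn
  have e' := congrArg r e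
  rw [frloca_r_self h (L.pow_mem (L.sub_mem hxL (L.smul_mem L.one_mem c)) n), map_smul] at e'
  refine ⟨c, c.2, n, m, mem_maximalIdeal_iff_nonunits.1 hm,
    ⟨τ (r y), frloca_memL hK h hτ (h.r_mem y)⟩, frloca_mem hτ _, Subtype.ext ?_⟩
  change ((z : A') - algebraMap K A' c) ^ n = (m : K) • τ (r y)
  rw [← hτ.smul, ← e', map_pow, map_sub, hτ.smul, map_one, hx', Algebra.algebraMap_eq_smul_one]

/-- `FlipD.finrank` with `sL = s₀ ∘ r'` for the form `s₀` of the crossed product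
(`CrossData.exists_form`, `CrossData.form_symm`, `CUnits.isFrame`), `CrossData.good`.  A bilinear
map that is balanced over `L'` gives a map with `Bal V δ` after composing with `τ`. -/
theorem FinD.finrank [CharZero K] [IsAlgClosed K] [Module.Finite V A] [Module.IsTorsionFree V A]
    [Nontrivial D] {p : ℕ} (hs : Std p V D) (hE : ¬ p ∣ Fintype.card E)
    {Pr : Subgroup (D × D) → Prop} (hc : CorI V δ ⊥ Pr) (h : FinD δ φ w w' a L r α)
    (hτ : Loca V τ O) {s : A' →ₗ[K] K} {ι : Type} [Fintype ι] {F F' : ι → A'}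
    (hF : IsFrame s ⊤ F F') (hFO : ∀ i, F i ∈ O) (hFO' : ∀ i, F' i ∈ O) (hsO : ∀ y ∈ O, s y ∈ V)
    (hz : ∃ y, y * trF F F' 1 = 1) (hnd : ∀ b ∈ O, NilMod V O (trF F F' b)) :
    ∃ (L' : Subalgebra K A') (δ' : MonoidAlgebra K D →ₐ[K] L') (u : E → L')
      (c : E → E → MonoidAlgebra K D), CrossData V φ (O.comap L'.val.toRingHom) δ' u c ∧
      Module.finrank K (Subalgebra.center K A') = Module.finrank K (Subalgebra.center K L') := by
  obtain ⟨L', r', α', hK⟩ := h.exists_finK hτ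
  obtain ⟨δ', u, c, e1, e2, hX⟩ := hK.cross h hτ
  obtain ⟨-, b2, b3, b4, b5⟩ := hK.basic h hτ
  obtain ⟨s₀, hs₀⟩ := hX.exists_form
  have cu := hτ.cUnits h.cu
  have hpV : (p : K) ∈ V.nonunits := by simpa using mem_maximalIdeal_iff_nonunits.1 hs.pR
  let sL : A' →ₗ[K] K := s₀ ∘ₗ r'.codRestrict L'.toSubmodule b2
  have hsL : ∀ b : L', sL b = s₀ b := fun b => by
    have e := b3 _ b.2 1 L'.one_mem 1
    rw [b4, mul_one, mul_one] at e
    exact congrArg s₀ (Subtype.ext e)
  have hsum : ∀ c : E → MonoidAlgebra K D, ((∑ l, δ' (c l) * u l : L') : A') =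
      ∑ l, hatI K (τ.toMonoidHom.comp δ) (c l) * τ (w l) := fun c => by
    rw [AddSubmonoidClass.coe_finsetSum]
    exact Finset.sum_congr rfl fun l _ => by rw [MulMemClass.coe_mul, e1, e2]
  have hD : FlipD V O s F F' L' sL (cfr (τ.toMonoidHom.comp δ) fun l => τ (w l))
      (cfr' (τ.toMonoidHom.comp δ) fun l => τ (w' l)) r' α' := by
    refine ⟨hτ.smul_mem, hF, hFO, hFO', hsO, cu.isFrame hK.mem (fun c => ?_) fun x hx y hy => ?_,
      fun i => O.mul_mem (frloca_mem hτ _) (frloca_mem hτ _),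
      fun i => O.mul_mem (frloca_mem hτ _) (frloca_mem hτ _), fun b hb hbO => ?_,
      fun y hy => ?_, fun y hy => ?_, b2, b3, b4, b5⟩
    · rw [← hsum, hsL, hs₀]
    · exact (hsL (⟨x, hx⟩ * ⟨y, hy⟩)).trans
        ((hX.form_symm hs₀ _ _).trans (hsL (⟨y, hy⟩ * ⟨x, hx⟩)).symm)
    · obtain ⟨t, ht⟩ := hX.bij.2 ⟨b, hb⟩
      have ht' : ∑ l, δ' (t l) * u l = ⟨b, hb⟩ := ht
      rw [hsL ⟨b, hb⟩, ← ht', hs₀]
      exact (hX.mem_iff t).1 (ht' ▸ hbO) 1 1
    · obtain ⟨x, rfl⟩ := (hτ.mem y).1 hy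
      rw [hK.r_eq]
      exact frloca_mem hτ _
    · obtain ⟨x, rfl⟩ := (hτ.mem y).1 hy
      rw [hK.α_eq]
      exact frloca_mem hτ _
  obtain ⟨μ, _, x, y, hxy, h1⟩ := hc.sep
  refine ⟨L', δ', u, c, hX, hD.finrank hs.prime hpV
    (hX.good hs.prime hpV hs.pD hE (hK.localCentre h hτ hc.loc)) (x := fun i => τ (x i))
    (y := fun i => τ (y i)) (fun i => frloca_mem hτ _) (fun i => frloca_mem hτ _)
    (fun N _ _ β hβ hb t => ?_) (by simp only [← map_mul, ← map_sum, h1, map_one]) hz hnd⟩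
  refine hτ.induct (P := fun t => ∑ i, β (t * τ (x i)) (τ (y i)) = ∑ i, β (τ (x i)) (τ (y i) * t))
    (fun z => ?_) (fun d z e => ?_) t
  · have := hxy N (fun a b => β (τ a) (τ b)) ⟨fun _ _ _ => by rw [map_add, hβ.add_left],
      fun _ _ _ => by rw [map_add, hβ.add_right],
      fun _ _ v => by rw [map_mul, map_mul, hb (τ (δ v)) ((cu.mem hK.mem).1 v)],
      fun _ _ _ => by rw [hτ.smul, hτ.smul, hβ.smul_left, hβ.smul_right]⟩ z
    simpa only [map_mul] using this
  · simp only [smul_mul_assoc, mul_smul_comm, hβ.smul_left, hβ.smul_right, ← Finset.smul_sum, e]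

end Pool.Agent.Lib.MP_b6945b_al.St
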