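import Pool.Agent.Lib.MP_b6945b_al.St.FrSet
import Pool.Agent.Lib.MP_b6945b_al.St.FrRk2

set_option autoImplicit false

/-!
The permutation structure and the separability of the source algebras of centralisers.
-/

namespace Pool.Agent.Lib.MP_b6945b_al.St

open IsLocalRing
open MonoidAlgebra (single)

/-- The two-sided action of `D × D` on `G`. -/
def biAct {D G : Type} [Group D] [Group G] (ι : D →* G) : D × D →* Equiv.Perm G where
  toFun g := (Equiv.mulLeft (ι g.1)).trans (Equiv.mulRight (ι g.2⁻¹))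
  map_one' := by
    ext y
    simp
  map_mul' g h := by
    ext y
    simp [mul_assoc]

lemma biAct_apply {D G : Type} [Group D] [Group G] (ι : D →* G) (g : D × D) (y : G) :
    biAct ι g y = ι g.1 * y * ι g.2⁻¹ := rfl

/-- Proper traces from subgroups containing `B`, and multiples of the maximal ideal. -/
def lowSpan (R : Type) {D A : Type} [CommRing R] [IsLocalRing R] [CommGroup D] [Fintype D] [Ring A]
    [Algebra R A] (δ : D →* A) (B T : Subgroup (D × D)) : Submodule R A :=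
  trSpan (biI R δ) (fun T' => B ≤ T' ∧ T' < T) T ⊔ maximalIdeal R • bouc_fix (biI R δ) T

/-- Fixed points for the two-sided action (this name avoids slow unification on corner types). -/
def FixBi (R : Type) {D A : Type} [CommRing R] [CommGroup D] [Ring A] [Algebra R A] (δ : D →* A)
    (T : Subgroup (D × D)) (a : A) : Prop := FixedBy (biI R δ) T a

/-- Invariance under a spanning set is enough. -/
lemma sepI_of_span {R D A : Type} [CommRing R] [CommGroup D] [Ring A] [Algebra R A] {δ : D →* A}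
    {ι : Type} [Fintype ι] {x y : ι → A} (s : Set A) (hs : Submodule.span R s = ⊤)
    (h : ∀ (N : Type) [AddCommGroup N] (β : A → A → N), Bal R δ β →
      ∀ a ∈ s, ∑ i, β (a * x i) (y i) = ∑ i, β (x i) (y i * a)) : SepI R δ x y := by
  intro N _ β hβ a
  have key : ∀ a ∈ Submodule.span R s, ∀ β : A → A → N, Bal R δ β →
      ∑ i, β (a * x i) (y i) = ∑ i, β (x i) (y i * a) := by
    intro a ha
    induction ha using Submodule.span_induction with
    | mem a ha => exact fun β hβ => h N β hβ a ha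
    | zero =>
      intro β hβ
      refine Finset.sum_congr rfl fun i _ => ?_
      have h1 := hβ.add_left 0 0 (y i)
      have h2 := hβ.add_right (x i) 0 0
      rw [add_zero, left_eq_add] at h1 h2
      rw [zero_mul, mul_zero, h1, h2]
    | add a b _ _ ha hb =>
      intro β hβ
      simp only [add_mul, mul_add, hβ.add_left, hβ.add_right, Finset.sum_add_distrib, ha β hβ,
        hb β hβ]
    | smul r a _ ha =>
      intro β hβ
      have h1 : Bal R δ (fun x y => β x (r • y)) :=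
        ⟨fun _ _ _ => hβ.add_left _ _ _, fun _ _ _ => by rw [smul_add, hβ.add_right],
          fun _ _ _ => by rw [hβ.mid, mul_smul_comm],
          fun _ _ _ => by rw [hβ.smul, smul_comm]⟩
      simp only [smul_mul_assoc, mul_smul_comm, hβ.smul]
      exact ha _ h1
  exact key a (hs ▸ Submodule.mem_top) β hβ

section frpbaux

variable {R D G : Type} [CommRing R] [CommGroup D] [Group G] [Fintype G] {ι : D →* G}
  {Q : Subgroup D}

omit [Fintype G] in
lemma frpb_biI_single (g : D × D) (y : G) :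
    biI R (gD R ι) g (single y 1) = single (biAct ι g y) 1 := by
  rw [biI_apply, gD_apply, gD_apply, biAct_apply, MonoidAlgebra.single_mul_single,
    MonoidAlgebra.single_mul_single, mul_one, mul_one, mul_assoc]

omit [Fintype G] in
lemma frpb_stab {g : D × D} {y : G} : g ∈ stabP (biAct ι) y ↔ y * ι g.2 = ι g.1 * y := by
  rw [mem_stabP, biAct_apply, map_inv, mul_inv_eq_iff_eq_mul, eq_comm]

omit [Fintype G] in
lemma frpb_dg_le {y : G} (hy : ∀ s ∈ ((Q.map ι : Subgroup G) : Set G), y * s = s * y) :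
    dg 1 Q ≤ stabP (biAct ι) y := by
  intro g hg
  obtain ⟨h1, h2⟩ := mem_dg.1 hg
  rw [frpb_stab, h2]
  exact hy _ ⟨g.2, h1, rfl⟩

omit [Fintype G] in
lemma frpb_suppCent_single {S : Set G} {y : G} (hy : ∀ s ∈ S, y * s = s * y) :
    SuppCent S (single y (1 : R)) := by
  intro x hx
  have : x = y := by
    by_contra e
    exact hx (by rw [MonoidAlgebra.coeff_single]; exact Finsupp.single_eq_of_ne e)
  rw [this]
  exact hy

omit [Fintype G] in
lemma frpb_fixed_single (y : G) : FixedBy (biI R (gD R ι)) (stabP (biAct ι) y) (single y 1) :=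
  fun g hg => by rw [frpb_biI_single, mem_stabP.1 hg]

end frpbaux

section frpbgen

variable {R Γ M M' M'' : Type} [CommRing R] [Group Γ] [AddCommGroup M] [Module R M]
  [AddCommGroup M'] [Module R M'] [AddCommGroup M''] [Module R M''] {ρ : Representation R Γ M}
  {ρ' : Representation R Γ M'} {ρ'' : Representation R Γ M''} {S T : Subgroup Γ}

lemma frpb_equiv_comp {F : M →ₗ[R] M'} {F' : M' →ₗ[R] M''} (h : EquivOn ρ ρ' T F)
    (h' : EquivOn ρ' ρ'' T F') : EquivOn ρ ρ'' T (F' ∘ₗ F) := fun g hg m => by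
  rw [LinearMap.comp_apply, LinearMap.comp_apply, h g hg, h' g hg]

lemma frpb_equiv_mono {F : M →ₗ[R] M'} (h : EquivOn ρ ρ' ⊤ F) (T : Subgroup Γ) :
    EquivOn ρ ρ' T F := fun g _ m => h g trivial m

lemma frpb_fixed_map {F : M →ₗ[R] M'} (h : EquivOn ρ ρ' ⊤ F) {m : M} (hm : FixedBy ρ S m) :
    FixedBy ρ' S (F m) := fun g hg => by rw [← h g trivial, hm g hg]

end frpbgen

/-- The argument for `FrSet.fixed_mem`, for an abstract retract `M` of the group algebra. -/
lemma frpb_low {R Γ Y M : Type} [CommRing R] [IsLocalRing R] [Group Γ] [Fintype Γ] [Fintype Y]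
    [AddCommGroup M] [Module R M] (ρ : Representation R Γ (MonoidAlgebra R Y))
    (act : Γ →* Equiv.Perm Y) (hρ : ∀ g y, ρ g (single y 1) = single (act g y) 1)
    (σ : Representation R Γ M) (F : MonoidAlgebra R Y →ₗ[R] M) (F' : M →ₗ[R] MonoidAlgebra R Y)
    (hF : EquivOn ρ σ ⊤ F) (hF' : EquivOn σ ρ ⊤ F') (hFF : ∀ m, F (F' m) = m) {B T : Subgroup Γ}
    (hT : B ≤ T) (hB : ∀ m y, (F' m).coeff y ≠ 0 → B ≤ stabP act y)
    (hm : ∀ m y, (F' m).coeff y ≠ 0 → T ≤ stabP act y → ∀ y', T ≤ stabP act y' →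
      (F' (F (single y 1))).coeff y' ∈ maximalIdeal R)
    {a : M} (ha : FixedBy σ T a) :
    a ∈ trSpan σ (fun T' => B ≤ T' ∧ T' < T) T ⊔ maximalIdeal R • bouc_fix σ T := by
  set W := trSpan σ (fun T' => B ≤ T' ∧ T' < T) T ⊔ maximalIdeal R • bouc_fix σ T with hW
  have hfix : ∀ y, FixedBy σ (stabP act y) (F (single y 1)) := fun y =>
    frpb_fixed_map hF fun g hg => by rw [hρ, mem_stabP.1 hg]
  have h1 : ∀ y, B ≤ stabP act y → ¬ T ≤ stabP act y →
      F (rtr ρ (T ⊓ stabP act y) T (single y 1)) ∈ W := by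
    intro y hy hy'
    rw [rtr_map (frpb_equiv_mono hF T)]
    refine Submodule.mem_sup_left (rtr_mem_trSpan ⟨le_inf hT hy, ?_⟩ inf_le_left
      fun g hg => hfix y g hg.2)
    exact lt_of_le_of_ne inf_le_left fun e => hy' (inf_eq_left.1 e)
  have h2 : ∀ y, T ≤ stabP act y →
      rtr ρ (T ⊓ stabP act y) T (single y 1) = single y 1 := by
    intro y hy
    rw [inf_eq_left.2 hy]
    exact rtr_self fun g hg => by rw [hρ, mem_stabP.1 (hy hg)]
  rw [← hFF a]
  refine perm_fixed_mem ρ act hρ (frpb_fixed_map hF' ha) (W.comap F) fun y hy => ?_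
  by_cases hTy : T ≤ stabP act y
  swap
  · exact h1 y (hB a y hy) hTy
  rw [h2 y hTy, Submodule.mem_comap, ← hFF (F (single y 1))]
  have h3 : FixedBy σ T (F (single y 1)) := fun g hg => hfix y g (hTy hg)
  refine perm_fixed_mem' ρ act hρ (frpb_fixed_map hF' h3) (W.comap F).toAddSubgroup fun y' => ?_
  change F _ ∈ W
  rw [map_smul]
  by_cases h0 : (F' (F (single y 1))).coeff y' = 0
  · rw [h0, zero_smul]
    exact W.zero_mem
  by_cases hTy' : T ≤ stabP act y'
  · rw [h2 y' hTy']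
    exact Submodule.mem_sup_right (Submodule.smul_mem_smul (hm a y hy hTy y' hTy')
      fun g hg => hfix y' g (hTy' hg))
  · exact W.smul_mem _ (h1 y' (hB _ y' h0) hTy')

section frpbcor

variable {R D Y A : Type} [CommRing R] [IsDomain R] [ValuationRing R] [CommGroup D] [Fintype D]
  [Fintype Y] [Ring A] [Algebra R A] {δ : D →* A} {J ε : A}

lemma frpb_low_cor (ρ : Representation R (D × D) (MonoidAlgebra R Y))
    (act : D × D →* Equiv.Perm Y) (hρ : ∀ g y, ρ g (single y 1) = single (act g y) 1)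
    (hε : MinI R δ J ε) (F : MonoidAlgebra R Y →ₗ[R] A) (F' : A →ₗ[R] MonoidAlgebra R Y)
    (hF : EquivOn ρ (biI R δ) ⊤ F) (hF' : EquivOn (biI R δ) ρ ⊤ F') (hFF : ∀ m, F (F' m) = m)
    {B T : Subgroup (D × D)} (hT : B ≤ T) (hB : ∀ m y, (F' m).coeff y ≠ 0 → B ≤ stabP act y)
    (hm : ∀ m y, (F' m).coeff y ≠ 0 → T ≤ stabP act y → ∀ y', T ≤ stabP act y' →
      (F' (ε * F (single y 1) * ε)).coeff y' ∈ maximalIdeal R)
    {a : hε.idem.Corner} (ha : FixBi R hε.cor T a) : a ∈ lowSpan R hε.cor B T := by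
  refine frpb_low ρ act hρ (biI R hε.cor) (cproj R hε.idem ∘ₗ F) (F' ∘ₗ cval R hε.idem)
    (frpb_equiv_comp hF hε.cproj_equiv.2) (frpb_equiv_comp hε.cval_equiv.2 hF') (fun m => ?_) hT
    (fun m => hB m.1) (fun m => hm m.1) ha
  change cproj R hε.idem (F (F' m.1)) = m
  rw [hFF, cproj_cval]

lemma frpb_pb_cor [Module.Finite R A] [Module.IsTorsionFree R A] (hε : MinI R δ J ε)
    {Pr Pr' : Subgroup (D × D) → Prop} {B : Subgroup (D × D)} (hB : ∀ S, Pr S → B ≤ S)
    (h1 : LinearMap.id ∈ rk1span (biI R δ) Pr ⊤)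
    (h2 : ∀ T, B ≤ T → ¬ Pr' T → ∀ a : hε.idem.Corner, FixBi R hε.cor T a →
      a ∈ lowSpan R hε.cor B T) : sandw R ε ε ∈ rk1span (biI R δ) Pr' ⊤ := by
  have h3 := rk1span_comp hε.cproj_equiv.2 hε.cval_equiv.2 h1
  have h4 := rk1span_le_of_fixed (ρ := biI R hε.cor) (Pr := Pr) (Pr' := Pr') (T := ⊤) (by
    intro S hS _ a ha
    refine nak_induct B (fun T => trSpan (biI R hε.cor) Pr' T) ?_ ?_ (hB S hS) ha
    · intro T hT b hb
      by_cases hP : Pr' T
      · refine Submodule.mem_sup_left ?_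
        have h4 := rtr_mem_trSpan hP le_rfl hb
        rwa [rtr_self hb] at h4
      · exact Submodule.mem_sup_right (h2 T hT hP b hb)
    · intro T' T _ hT b hb _
      exact Submodule.mem_sup_left (trSpan_rtr hT.le hb)) h3
  have h5 := rk1span_comp hε.cval_equiv.2 hε.cproj_equiv.2 h4
  refine (LinearMap.ext fun x => ?_ : _ = sandw R ε ε) ▸ h5
  change ε * (ε * x * ε) * ε = ε * (x * ε)
  rw [← mul_assoc, ← mul_assoc, hε.idem.eq, mul_assoc, hε.idem.eq, mul_assoc]

end frpbcor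

variable {R D G E : Type} [CommRing R] [IsDomain R] [ValuationRing R] [CommGroup D] [Fintype D]
  [Group G] [Fintype G] [Group E] [Fintype E] {p : ℕ} {ι : D →* G} {φ : E →* MulAut D}
  {e j : MonoidAlgebra R G} {U U' : E → MonoidAlgebra R G} {Q : Subgroup D}

omit [IsDomain R] [ValuationRing R] [Fintype G] in
lemma frpb_coeff (i : MonoidAlgebra R G) (y y' : G) :
    (i * cjRep R G y i).coeff (y' * y⁻¹) = (i * single y 1 * i).coeff y' := by
  rw [cjRep_apply, ← mul_assoc, ← mul_assoc, MonoidAlgebra.coeff_mul_single_apply]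
  simp

lemma frpb_coeff_mem (h : FrSet p ι φ e j U U') {i : CA R ι Q}
    (hi : MinI R (caD R ι Q) (caJ h.supp Q) i) {T : Subgroup (D × D)} (hT : dg 1 Q ≤ T)
    (hP : ¬ PQ φ Q T) {y y' : G} (hy : T ≤ stabP (biAct ι) y) (hy' : T ≤ stabP (biAct ι) y') :
    ((i : MonoidAlgebra R G) * single y 1 * (i : MonoidAlgebra R G)).coeff y' ∈ maximalIdeal R := by
  by_contra hc
  have hq : ∀ q ∈ Q, (q, q) ∈ T := fun q hq => hT (mem_dg.2 ⟨hq, rfl⟩)
  have hS : Q ≤ T.map (MonoidHom.snd D D) := fun q hq' => ⟨(q, q), hq q hq', rfl⟩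
  obtain ⟨l, hl, hl'⟩ := h.fusion hi (g := y) (fun q hq' => frpb_stab.1 (hy (hq q hq'))) hS
    (by
      rintro _ ⟨g, hg, rfl⟩
      exact ⟨g.1, frpb_stab.1 (hy hg)⟩)
    (by
      intro hm
      have h1 := inMax_monoidAlgebra_iff.1 hm (y' * y⁻¹)
      rw [coeff_brT, if_pos, frpb_coeff] at h1
      · exact hc h1
      · rintro _ ⟨_, ⟨_, ⟨g, hg, rfl⟩, rfl⟩, rfl⟩
        have h2 := frpb_stab.1 (hy hg)
        have h3 := frpb_stab.1 (hy' hg)
        change y' * y⁻¹ * (y * ι g.2 * y⁻¹) = y * ι g.2 * y⁻¹ * (y' * y⁻¹)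
        calc y' * y⁻¹ * (y * ι g.2 * y⁻¹) = y' * ι g.2 * y⁻¹ := by group
          _ = ι g.1 * y * y⁻¹ * (y' * y⁻¹) := by rw [h3]; group
          _ = _ := by rw [h2])
  have key : ∀ g ∈ T, g.1 = φ l g.2 := by
    intro g hg
    have h1 := frpb_stab.1 (hy hg)
    rw [hl' g.2 ⟨g, hg, rfl⟩] at h1
    exact (h.inj (mul_right_cancel h1)).symm
  refine hP ⟨l, T.map (MonoidHom.snd D D), hS, hl, ?_⟩
  ext g
  rw [mem_dg]
  refine ⟨fun hg => ⟨⟨g, hg, rfl⟩, key g hg⟩, ?_⟩
  rintro ⟨⟨g', hg', h1⟩, h2⟩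
  have h3 : g' = g := Prod.ext (by rw [key g' hg', h2]; exact congrArg _ h1) h1
  exact h3 ▸ hg'

/-- Let `F x = cproj (caP x)`, equivariant, `F a = a`.  Apply `perm_fixed_mem` for `biAct` with
`W` the preimage under `F` of the target.  For `y` in the support (it centralises the image of
`Q`, so `dg 1 Q ≤ stabP y`) that is not fixed by `T` the term is a proper trace.  If `y` is fixed by
`T` let `S = T.map snd`; if `FrSet.fusion` applied, `T = dg (φ l) S` would satisfy `PQ`.  So the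
coefficients of `x = i y i` at the `T`-fixed `y'` lie in the maximal ideal (`y' y⁻¹` centralises
`y S y⁻¹`), and `perm_fixed_mem'` for `x` finishes. -/
theorem FrSet.fixed_mem (h : FrSet p ι φ e j U U') {i : CA R ι Q}
    (hi : MinI R (caD R ι Q) (caJ h.supp Q) i) {T : Subgroup (D × D)} (hT : dg 1 Q ≤ T)
    (hP : ¬ PQ φ Q T) {a : hi.idem.Corner} (ha : FixBi R hi.cor T a) :
    a ∈ lowSpan R hi.cor (dg 1 Q) T := by
  refine frpb_low_cor (biI R (gD R ι)) (biAct ι) frpb_biI_single hi (caP R ι Q)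
    (CA R ι Q).val.toLinearMap caP_equiv.1 caVal_equiv.1 caP_coe hT
    (fun m y hy => frpb_dg_le (m.2 y hy)) (fun m y hy hTy y' hTy' => ?_) ha
  change ((i : MonoidAlgebra R G) * brT R _ (single y 1) * (i : MonoidAlgebra R G)).coeff y' ∈
    maximalIdeal R
  rw [brT_of_suppCent (frpb_suppCent_single (m.2 y hy))]
  exact frpb_coeff_mem h hi hT hP hTy hTy'

/-- `perm_mem_rk1span` for the truncation, `rk1span_comp` into the corner, `nak_induct` with
`P T = trSpan (PQ φ Q) T`, `rk1span_le_of_fixed`, and `rk1span_comp` back. -/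
theorem FrSet.pb (h : FrSet p ι φ e j U U') {i : CA R ι Q}
    (hi : MinI R (caD R ι Q) (caJ h.supp Q) i) :
    sandw R i i ∈ rk1span (biI R (caD R ι Q)) (PQ φ Q) ⊤ := by
  classical
  have h1 := perm_mem_rk1span (biI R (gD R ι)) (biAct ι) frpb_biI_single
    (fun y => ∀ s ∈ ((Q.map ι : Subgroup G) : Set G), y * s = s * y)
    (by
      rintro g y hy _ ⟨q, hq, rfl⟩
      have h2 := hy _ ⟨q, hq, rfl⟩
      have h3 : ∀ u, ι u * ι q = ι q * ι u := fun u => by rw [← map_mul, mul_comm, map_mul]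
      rw [biAct_apply, mul_assoc, h3, ← mul_assoc, mul_assoc _ y, h2, ← mul_assoc, h3]
      simp only [mul_assoc])
    (brT R ((Q.map ι : Subgroup G) : Set G))
    (fun y hy => brT_of_suppCent (frpb_suppCent_single hy))
    (fun y hy => by
      ext x
      rw [coeff_brT]
      split_ifs with hx
      · rw [MonoidAlgebra.coeff_single]
        exact Finsupp.single_eq_of_ne fun e => hy (e ▸ hx)
      · rfl)
  have h2 := rk1span_comp (caP_equiv (Q := Q)).1 caVal_equiv.1 h1
  have h3 : caP R ι Q ∘ₗ brT R ((Q.map ι : Subgroup G) : Set G) ∘ₗ (CA R ι Q).val.toLinearMap =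
      LinearMap.id := by
    refine LinearMap.ext fun x => ?_
    change caP R ι Q (brT R _ (x : MonoidAlgebra R G)) = x
    rw [brT_of_suppCent x.2, caP_coe]
  rw [h3] at h2
  refine frpb_pb_cor hi (B := dg 1 Q) ?_ h2 fun T hT hP a ha => h.fixed_mem hi hT hP ha
  rintro _ ⟨y, hy, rfl⟩
  exact frpb_dg_le hy

/-- The last part of `SP` for an abstract interior algebra. -/
lemma frpb_sp_abs {A : Type} [Ring A] [Algebra R A] [Module.Finite R A] [Module.IsTorsionFree R A]
    {δ : D →* A} {J ε : A} (hε : MinI R δ J ε) (hJ : FixedBy (cjI R δ) ⊤ J) {κ : Type} [Fintype κ]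
    {x y : κ → A} (hs : SepI R δ x y) (hM : ∀ w ∈ trM R δ ⊤, ∑ t, x t * w * y t ∈ trM R δ ⊤)
    (hn : ¬ NilR R ((∑ t, x t * ε * y t) * ε)) : SP R δ J := by
  refine ⟨κ, inferInstance, x, y, hs, hM, ?_⟩
  set z := ∑ t, x t * ε * y t with hz
  have hc : ∀ b, b * z = z * b := hs.central (hε.fixed ⊤)
  have hzf : z ∈ fixI R δ ⊤ := fixedBy_cjI_iff.2 fun u _ => hc _
  have hεf : ε ∈ fixI R δ ⊤ := hε.fixed ⊤
  obtain ⟨c, n, hcn⟩ := hε.loc z hzf
  have h1 : ε * z * ε = z * ε := by rw [hc, mul_assoc, hε.idem.eq]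
  have hcu : IsUnit c := by
    by_contra hcu
    have h2 := NilR.add_inMax ⟨n, hcn⟩ (inMax_smul (m := c) hcu ε)
    rw [sub_add_cancel, h1] at h2
    exact hn h2
  refine ⟨c, n + 1, hcu, ?_⟩
  set u := z - c • (1 : A) with hu
  have huf : u ∈ fixI R δ ⊤ := sub_mem hzf (Subalgebra.smul_mem _ (one_mem _) c)
  have huε : Commute u ε := by
    change u * ε = ε * u
    rw [hu, sub_mul, mul_sub, hc, smul_mul_assoc, mul_smul_comm, one_mul, mul_one]
  have h2 : ε * z * ε - c • ε = u * ε := by rw [h1, hu, sub_mul, smul_mul_assoc, one_mul]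
  have h3 : u ^ (n + 1) * ε ∈ trM R δ ⊤ := by
    refine inMax_mem_brK ?_ (mul_mem (pow_mem huf _) hεf)
    have h4 := idem_inMax_mul_right (u * ε) hcn
    rwa [h2, ← pow_succ, huε.mul_pow, hε.idem.pow_succ_eq] at h4
  have h4 : u ^ (n + 1) * J ∈ trM R δ ⊤ := by
    have h5 := add_mem h3 (trM_mul_left (pow_mem huf (n + 1)) hε.sub)
    rwa [← mul_add, add_sub_cancel] at h5
  set d := ∑ t, x t * (J - ε) * y t with hd
  have hdm : d ∈ trM R δ ⊤ := hM _ hε.sub
  have hdf : d ∈ fixI R δ ⊤ := brK_fixed hdm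
  have h5 : ∑ t, x t * J * y t - c • (1 : A) = u + d := by
    rw [hu, hz, hd]
    simp only [mul_sub, sub_mul, Finset.sum_sub_distrib]
    abel
  have h6 : ∀ N, (u + d) ^ N - u ^ N ∈ trM R δ ⊤ := by
    intro N
    induction N with
    | zero => rw [pow_zero, pow_zero, sub_self]; exact zero_mem _
    | succ N ih =>
      have h7 : (u + d) ^ (N + 1) - u ^ (N + 1) = (u + d) * ((u + d) ^ N - u ^ N) + d * u ^ N := by
        rw [pow_succ', pow_succ', mul_sub, add_mul u d (u ^ N)]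
        abel
      rw [h7]
      exact add_mem (trM_mul_left (add_mem huf hdf) ih) (trM_mul_right (pow_mem huf N) hdm)
  have h7 := add_mem (trM_mul_right hJ (h6 (n + 1))) h4
  rwa [← add_mul, sub_add_cancel, ← h5] at h7

section frpbtr

omit [IsDomain R] [ValuationRing R] [Fintype D] [Fintype G] in
lemma frpb_range_le (ι : D →* G) (Q : Subgroup D) :
    ι.range ≤ Subgroup.centralizer ((Q.map ι : Subgroup G) : Set G) := by
  rintro _ ⟨u, rfl⟩ _ ⟨q, -, rfl⟩
  rw [← map_mul, mul_comm, map_mul]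

variable (R) in
/-- An element of the centraliser as an element of `CA`. -/
noncomputable def frpbEl (ι : D →* G) (Q : Subgroup D) (g : G)
    (hg : g ∈ Subgroup.centralizer ((Q.map ι : Subgroup G) : Set G)) : CA R ι Q :=
  ⟨single g 1, frpb_suppCent_single fun s hs => (hg s hs).symm⟩

omit [IsDomain R] [ValuationRing R] [Fintype D] in
lemma frpbEl_mul {g g' g'' : G} (hg : g ∈ Subgroup.centralizer ((Q.map ι : Subgroup G) : Set G))
    (hg' : g' ∈ Subgroup.centralizer ((Q.map ι : Subgroup G) : Set G))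
    (hg'' : g'' ∈ Subgroup.centralizer ((Q.map ι : Subgroup G) : Set G)) (h : g * g' = g'') :
    frpbEl R ι Q g hg * frpbEl R ι Q g' hg' = frpbEl R ι Q g'' hg'' :=
  Subtype.ext (by
    change single g (1 : R) * single g' 1 = single g'' 1
    rw [MonoidAlgebra.single_mul_single, h, mul_one])

omit [IsDomain R] [ValuationRing R] [Fintype D] in
lemma frpb_span : Submodule.span R {b : CA R ι Q | ∃ g hg, b = frpbEl R ι Q g hg} = ⊤ := by
  refine eq_top_iff.2 fun b _ => ?_
  rw [← caP_coe b, eq_sum_single (b : MonoidAlgebra R G), map_sum]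
  refine Submodule.sum_mem _ fun g _ => ?_
  rw [map_smul]
  by_cases h0 : (b : MonoidAlgebra R G).coeff g = 0
  · rw [h0, zero_smul]
    exact zero_mem _
  · refine Submodule.smul_mem _ _ (Submodule.subset_span ⟨g, fun s hs => (b.2 g h0 s hs).symm, ?_⟩)
    exact caP_coe (frpbEl R ι Q g fun s hs => (b.2 g h0 s hs).symm)

variable {n : ℕ} {t : Fin n → G}
  (ht : ∀ k, t k ∈ Subgroup.centralizer ((Q.map ι : Subgroup G) : Set G))
  (hu : ∀ g ∈ Subgroup.centralizer ((Q.map ι : Subgroup G) : Set G), ∃! k, (t k)⁻¹ * g ∈ ι.range)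
  {a a' : CA R ι Q} (ha : FixedBy (cjI R (caD R ι Q)) ⊤ a) (ha' : FixedBy (cjI R (caD R ι Q)) ⊤ a')

include hu ha ha'

omit [IsDomain R] [ValuationRing R] [Fintype D] in
lemma frpb_sep : SepI R (caD R ι Q) (fun k => frpbEl R ι Q (t k) (ht k) * a)
    (fun k => a' * frpbEl R ι Q (t k)⁻¹ (inv_mem (ht k))) := by
  refine sepI_of_span _ frpb_span ?_
  rintro N _ β hβ _ ⟨c, hc, rfl⟩
  choose σ hσ hσ' using fun k => hu (c * t k) (mul_mem hc (ht k))
  have hinj : Function.Injective σ := by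
    intro k k' hk
    have h1 := hσ k
    have h2 := hσ k'
    rw [← hk] at h2
    have h3 : (t k)⁻¹ * t k' ∈ ι.range := by
      have h4 := mul_mem (inv_mem h1) h2
      have h5 : ((t (σ k))⁻¹ * (c * t k))⁻¹ * ((t (σ k))⁻¹ * (c * t k')) = (t k)⁻¹ * t k' := by
        group
      rwa [h5] at h4
    exact (hu _ (ht k')).unique h3 (by rw [inv_mul_cancel]; exact one_mem _)
  refine Fintype.sum_bijective σ (Finite.injective_iff_bijective.1 hinj) _ _ fun k => ?_
  obtain ⟨d, hd⟩ := hσ k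
  have hD : caD R ι Q d = frpbEl R ι Q (ι d) (frpb_range_le ι Q ⟨d, rfl⟩) := rfl
  have h1 : frpbEl R ι Q c hc * (frpbEl R ι Q (t k) (ht k) * a) =
      frpbEl R ι Q (t (σ k)) (ht _) * a * caD R ι Q d := by
    rw [mul_assoc, ← fixedBy_cjI_iff.1 ha d trivial, ← mul_assoc, ← mul_assoc, hD,
      frpbEl_mul hc (ht k) (mul_mem hc (ht k)) rfl,
      frpbEl_mul _ _ (mul_mem hc (ht k)) (by rw [hd]; group)]
  have h2 : caD R ι Q d * (a' * frpbEl R ι Q (t k)⁻¹ (inv_mem (ht k))) =
      a' * frpbEl R ι Q (t (σ k))⁻¹ (inv_mem (ht _)) * frpbEl R ι Q c hc := by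
    rw [← mul_assoc, fixedBy_cjI_iff.1 ha' d trivial, mul_assoc, mul_assoc, hD,
      frpbEl_mul (inv_mem (ht _)) hc (mul_mem (inv_mem (ht _)) hc) rfl,
      frpbEl_mul _ _ (mul_mem (inv_mem (ht (σ k))) hc) (by rw [hd]; group)]
  rw [h1, hβ.mid, h2]

omit [IsDomain R] [ValuationRing R] [Fintype D] in
lemma frpb_sum_eq {w : CA R ι Q} (hw : FixedBy (cjI R (caD R ι Q)) ⊤ w) :
    ((∑ k, frpbEl R ι Q (t k) (ht k) * a * w * (a' * frpbEl R ι Q (t k)⁻¹ (inv_mem (ht k))) :
      CA R ι Q) : MonoidAlgebra R G) =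
      rtr (cjRep R G) ι.range (Subgroup.centralizer ((Q.map ι : Subgroup G) : Set G))
        ((a * w * a' : CA R ι Q) : MonoidAlgebra R G) := by
  have h1 : FixedBy (cjI R (caD R ι Q)) ⊤ (a * w * a') :=
    mul_mem (mul_mem (mem_fixI.2 ha) (mem_fixI.2 hw)) (mem_fixI.2 ha')
  have h2 := ca_fixed_iff.1 h1
  rw [← MonoidHom.range_eq_map] at h2
  rw [rtr_eq_sum (frpb_range_le ι Q) h2 t ht hu, AddSubmonoidClass.coe_finsetSum]
  refine Finset.sum_congr rfl fun k _ => ?_
  rw [cjRep_apply]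
  change single (t k) 1 * (a : MonoidAlgebra R G) * (w : MonoidAlgebra R G) *
    ((a' : MonoidAlgebra R G) * single (t k)⁻¹ 1) = single (t k) 1 *
      ((a : MonoidAlgebra R G) * (w : MonoidAlgebra R G) * (a' : MonoidAlgebra R G) *
        single (t k)⁻¹ 1)
  simp only [mul_assoc]

lemma frpb_mackey (hι : Function.Injective ι) {w : CA R ι Q} (hw : w ∈ trM R (caD R ι Q) ⊤) :
    ∑ k, frpbEl R ι Q (t k) (ht k) * a * w * (a' * frpbEl R ι Q (t k)⁻¹ (inv_mem (ht k))) ∈
      trM R (caD R ι Q) ⊤ := by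
  let L : CA R ι Q →ₗ[R] CA R ι Q := ∑ k, sandw R (frpbEl R ι Q (t k) (ht k) * a)
    (a' * frpbEl R ι Q (t k)⁻¹ (inv_mem (ht k)))
  have hL : ∀ w, L w = ∑ k, frpbEl R ι Q (t k) (ht k) * a * w *
      (a' * frpbEl R ι Q (t k)⁻¹ (inv_mem (ht k))) := by
    intro w
    rw [LinearMap.sum_apply]
    exact Finset.sum_congr rfl fun k _ => by rw [sandw_apply, ← mul_assoc]
  rw [← hL]
  refine brK_le (W := (trM R (caD R ι Q) ⊤).comap L) (fun S m hS hm => ?_)
    (fun r hr m hm => ?_) hw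
  swap
  · rw [Submodule.mem_comap, map_smul, hL]
    exact smul_mem_brK hr (fixedBy_cjI_iff.2 fun u _ => (frpb_sep ht hu ha ha').central hm _)
  have hm' : FixedBy (cjI R (caD R ι Q)) S (a * m * a') :=
    mul_mem (mul_mem (mem_fixI.2 fun g _ => ha g trivial) (mem_fixI.2 hm))
      (mem_fixI.2 fun g _ => ha' g trivial)
  have hm2 := ca_fixed_iff.1 hm'
  have hSP : S.map ι ≤ ι.range := Subgroup.map_le_range ι S
  have h1 : ((L (rtr (cjI R (caD R ι Q)) S ⊤ m) : CA R ι Q) : MonoidAlgebra R G) =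
      rtr (cjRep R G) (S.map ι) (Subgroup.centralizer ((Q.map ι : Subgroup G) : Set G))
        ((a * m * a' : CA R ι Q) : MonoidAlgebra R G) := by
    rw [hL, frpb_sum_eq ht hu ha ha' (rtr_fixed le_top hm), (mul_rtr_cjI ha m).1,
      (mul_rtr_cjI ha' (a * m)).2, ca_rtr hι le_top hm', ← MonoidHom.range_eq_map,
      rtr_trans hSP (frpb_range_le ι Q) hm2]
  have h2 := mackey_mem (hSP.trans (frpb_range_le ι Q)) (frpb_range_le ι Q) hm2
    ((trM R (caD R ι Q) ⊤).map (CA R ι Q).val.toLinearMap).toAddSubgroup (by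
      intro g hg
      set S₁ := ι.range ⊓ (S.map ι).map (MulAut.conj g).toMonoidHom with hS₁
      have h3 : (S₁.comap ι).map ι = S₁ := Subgroup.map_comap_eq_self inf_le_left
      have h4 : S₁.comap ι < ⊤ := by
        refine lt_top_iff_ne_top.2 fun e => hS.ne (Subgroup.eq_top_of_le_card S ?_)
        have h5 : Nat.card (⊤ : Subgroup D) = Nat.card S₁ := by
          rw [← h3, e, Subgroup.card_map_of_injective hι]
        have h6 : Nat.card S₁ ≤ Nat.card S := by
          rw [← Subgroup.card_map_of_injective (K := S) hι,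
            ← Subgroup.card_map_of_injective (K := S.map ι) (f := (MulAut.conj g).toMonoidHom)
              (MulAut.conj g).injective]
          exact Subgroup.card_le_of_le inf_le_right
        rw [← Subgroup.card_top, h5]
        exact h6
      let m₁ : CA R ι Q := frpbEl R ι Q g hg * (a * m * a' * frpbEl R ι Q g⁻¹ (inv_mem hg))
      have h5 : (m₁ : MonoidAlgebra R G) =
        cjRep R G g ((a * m * a' : CA R ι Q) : MonoidAlgebra R G) := rfl
      have h6 : FixedBy (cjI R (caD R ι Q)) (S₁.comap ι) m₁ := by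
        rw [ca_fixed_iff, h3, h5]
        exact fixedBy_conj hm2 g
      refine ⟨_, rtr_mem_brK h4 h6, ?_⟩
      change ((rtr (cjI R (caD R ι Q)) (S₁.comap ι) ⊤ m₁ : CA R ι Q) : MonoidAlgebra R G) = _
      rw [ca_rtr hι le_top h6, h3, ← MonoidHom.range_eq_map, h5])
  rw [← h1] at h2
  obtain ⟨v, hv, hv'⟩ := h2
  have h3 : v = L (rtr (cjI R (caD R ι Q)) S ⊤ m) := Subtype.ext hv'
  rw [Submodule.mem_comap, ← h3]
  exact hv

end frpbtr

lemma frpb_trace (h : FrSet p ι φ e j U U') {i : CA R ι Q}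
    (hi : MinI R (caD R ι Q) (caJ h.supp Q) i) :
    ∃ a a' : CA R ι Q, FixedBy (cjI R (caD R ι Q)) ⊤ a ∧ FixedBy (cjI R (caD R ι Q)) ⊤ a' ∧
      ¬ NilR R (rtr (cjRep R G) ι.range (Subgroup.centralizer ((Q.map ι : Subgroup G) : Set G))
        ((a * i * a' : CA R ι Q) : MonoidAlgebra R G) * (i : MonoidAlgebra R G)) := by
  have := h.std.split.isAlgClosed
  have hpk : (p : ResidueField R) = 0 := by
    rw [← map_natCast (residue R), residue_eq_zero_iff]
    exact h.std.pR
  have h1 := (h.locPt hi).toRes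
  have h2 := h.block_mul hi 1 (T := Q.map ι)
    (by
      rintro _ ⟨q, -, rfl⟩
      exact ⟨ι q, ⟨q, rfl⟩, by simp⟩)
    (fun q hq => ⟨q, hq, by simp⟩)
  rw [map_one, Module.End.one_apply, brT_of_suppCent h1.supp] at h2
  have h3 : ∀ b, toRes R G e * b = b * toRes R G e := by
    intro b
    obtain ⟨b, rfl⟩ := toRes_surjective b
    rw [← map_mul, h.blk.cent, map_mul]
  obtain ⟨b, b', hb, hb', hf, hf', hn⟩ := h1.exists_trace h.std.prime hpk (suppCent_brT _ _)
    (fun b hb => by rw [← brT_mul_right hb, h3, brT_mul_left hb]) h2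
    (by
      intro y hy T hT hTy
      have h4 : e.coeff y ∉ maximalIdeal R := by
        intro h5
        apply hy
        rw [coeff_brT, coeff_toRes, (residue_eq_zero_iff _).2 h5, ite_self]
      have h5 : Nat.card ι.range = Nat.card D := by
        rw [MonoidHom.range_eq_map, Subgroup.card_map_of_injective h.inj, Subgroup.card_top]
      rw [h5]
      exact Nat.le_of_dvd Nat.card_pos (h.blk.bound y h4 T hT hTy))
  obtain ⟨a, rfl, ha, haf⟩ := exists_lift_fixed b
  obtain ⟨a', rfl, ha', haf'⟩ := exists_lift_fixed b'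
  refine ⟨⟨a, ha _ hb⟩, ⟨a', ha' _ hb'⟩, ?_, ?_, fun hN => hn ?_⟩
  · rw [ca_fixed_iff, ← MonoidHom.range_eq_map]
    exact haf _ hf
  · rw [ca_fixed_iff, ← MonoidHom.range_eq_map]
    exact haf' _ hf'
  · have h4 := (red_toRes G).nilR_iff.1 hN
    rw [map_mul, toRes_rtr] at h4
    change IsNilpotent (rtr _ _ _ (toRes R G (a * (i : MonoidAlgebra R G) * a')) * _) at h4
    rwa [map_mul (toRes R G), map_mul (toRes R G)] at h4

/-- Let `C` be the centraliser of the image of `Q`, `P` the image of `D`, `i` from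
`FrSet.exists_min`.  `LocPt.exists_trace` over the residue field (`FrSet.block_mul` with `g = 1`)
and `exists_lift_fixed` give `a`, `a'` such that `z = rtr P C (a i a')` has `z i` not nilpotent, so
`(z - c) i` is nilpotent with `c` a unit (`MinI.loc`).  With a transversal `g t` of `P` in `C`
(`exists_transversal`) put `x t = g t * a`, `y t = a' * (g t)⁻¹`; `∑ x t * w * y t = rtr P C (a w a')`
for fixed `w` (`rtr_eq_sum`).  The Mackey property is `mackey_mem` with `ca_rtr`. -/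
theorem FrSet.sp (h : FrSet p ι φ e j U U') (Q : Subgroup D) :
    SP R (caD R ι Q) (caJ h.supp Q) := by
  obtain ⟨i, hi⟩ := h.exists_min Q
  obtain ⟨a, a', ha, ha', hn⟩ := frpb_trace h hi
  obtain ⟨n, t, -, ht, hu⟩ := exists_transversal (frpb_range_le ι Q)
  refine frpb_sp_abs hi (fixedBy_cjI_iff.2 fun u _ => h.caJ_comm Q u) (frpb_sep ht hu ha ha')
    (fun w hw => frpb_mackey ht hu ha ha' h.inj hw) fun hN => hn ?_
  rw [← frpb_sum_eq ht hu ha ha' (hi.fixed ⊤)]
  exact hN.map (CA R ι Q).val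

end Pool.Agent.Lib.MP_b6945b_al.St
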