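import Pool.Agent.Lib.MP_b6945b_al.St.FrMat

set_option autoImplicit false

/-!
Local idempotents, links and transports.
-/

namespace Pool.Agent.Lib.MP_b6945b_al.St

open IsLocalRing
open MonoidAlgebra (single)

variable {R D A A' : Type} [CommRing R] [IsLocalRing R] [CommGroup D] [Fintype D] [Ring A]
  [Algebra R A] [Ring A'] [Algebra R A'] {δ : D →* A} {δ' : D →* A'} {Q S : Subgroup D}
  {J ε : A} {J' ε' : A'} {p : ℕ}

lemma frtr_cut₂ {B : Type} [Ring B] {e f x : B} (he : e * e = e) (hf : f * f = f)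
    (h : e * x * f = x) : e * x = x ∧ x * f = x := by
  constructor
  · rw [← h, ← mul_assoc, ← mul_assoc, he]
  · rw [← h, mul_assoc, hf]

lemma frtr_cut {B : Type} [Ring B] {e x : B} (he : e * e = e) (h : e * x * e = x) :
    e * x = x ∧ x * e = x := frtr_cut₂ he he h

lemma MinI.fixed (h : MinI R δ J ε) (S : Subgroup D) : FixedBy (cjI R δ) S ε := by
  exact fixedBy_cjI_iff.2 fun u _ => h.comm u

/-- `ε η ε = ε - ε (J - η) ε`; `exists_inv_corner` in `fixI R δ ⊤`. -/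
lemma MinI.exists_inv [Module.Finite R A] (hs : Std p R D) (h : MinI R δ J ε) {η : A}
    (hη : FixedBy (cjI R δ) ⊤ η) (hJ : J - η ∈ trM R δ ⊤) :
    ∃ w, FixedBy (cjI R δ) ⊤ w ∧ ε * w * ε = w ∧ w * (ε * η * ε) = ε ∧ ε * η * ε * w = ε := by
  have he : ε * ε = ε := h.idem.eq
  have hε : ε ∈ fixI R δ ⊤ := h.fixed ⊤
  have hη' : η ∈ fixI R δ ⊤ := hη
  have h1 : ε * (ε * η * ε) * ε = ε * η * ε := by
    rw [← mul_assoc, ← mul_assoc, he, mul_assoc, he]
  have h2 : ε * η * ε - (1 : R) • ε = -(ε * (J - η) * ε) := by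
    rw [mul_sub, sub_mul, h.right, he, one_smul, neg_sub]
  obtain ⟨w, hw, h3, h4, h5⟩ := exists_inv_corner hs.split (fixI R δ ⊤) he hε
    (mul_mem (mul_mem hε hη') hε) h1 isUnit_one (by rw [h2]; exact (h.nt _ hJ).neg)
  exact ⟨w, hw, h3, h4, h5⟩

/-- With `w` the inverse of `ε ε₁ ε` in the corner of `ε`: `α = ε ε₁`, `β = ε₁ ε w`.  Then
`β α` is an idempotent below `ε₁`, and `ε₁ - β α` is an idempotent in `trM`, so it vanishes
(`MinI.nt`, `NilR.eq_zero`). -/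
lemma MinI.conj [Module.Finite R A] (hs : Std p R D) {ε₁ : A} (h : MinI R δ J ε)
    (h₁ : MinI R δ J ε₁) :
    ∃ α β, FixedBy (cjI R δ) ⊤ α ∧ FixedBy (cjI R δ) ⊤ β ∧ ε * α * ε₁ = α ∧ ε₁ * β * ε = β ∧
      α * β = ε ∧ β * α = ε₁ := by
  have he : ε * ε = ε := h.idem.eq
  have he₁ : ε₁ * ε₁ = ε₁ := h₁.idem.eq
  have hε : ε ∈ fixI R δ ⊤ := h.fixed ⊤
  have hε₁ : ε₁ ∈ fixI R δ ⊤ := h₁.fixed ⊤
  obtain ⟨w, hw, h3, h4, h5⟩ := h.exists_inv hs hε₁ h₁.sub
  have hw' : w ∈ fixI R δ ⊤ := hw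
  obtain ⟨hl, hr⟩ := frtr_cut he h3
  have hab : ε * ε₁ * (ε₁ * ε * w) = ε := by
    rw [← mul_assoc, ← mul_assoc, mul_assoc ε ε₁ ε₁, he₁, h5]
  have hba : ε₁ * ε * w * (ε * ε₁) = ε₁ * w * ε₁ := by
    rw [mul_assoc ε₁ ε w, hl, ← mul_assoc, mul_assoc ε₁ w ε, hr]
  have hd : ε₁ - ε ∈ trM R δ ⊤ := by
    have := Submodule.sub_mem _ h.sub h₁.sub
    rwa [sub_sub_sub_cancel_left] at this
  have hd2 : ε₁ - w ∈ trM R δ ⊤ := by
    have e1 : ε₁ - w = (ε₁ - ε) + w * (ε * (ε₁ - ε) * ε) := by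
      rw [mul_sub ε, sub_mul, he, he, mul_sub w, h4, hr]
      abel
    rw [e1]
    exact Submodule.add_mem _ hd (trM_mul_left hw (trM_mul_right hε (trM_mul_left hε hd)))
  have e2 : ε₁ * (ε₁ - w) * ε₁ = ε₁ - ε₁ * w * ε₁ := by rw [mul_sub, sub_mul, he₁, he₁]
  have e3 : ε₁ * w * ε₁ * (ε₁ * w * ε₁) = ε₁ * w * ε₁ := by
    have e4 : w * ε₁ * w = w := by
      calc w * ε₁ * w = w * ε * ε₁ * (ε * w) := by rw [hl, hr]
        _ = w * (ε * ε₁ * ε) * w := by simp only [mul_assoc]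
        _ = w := by rw [h4, hl]
    calc ε₁ * w * ε₁ * (ε₁ * w * ε₁) = ε₁ * (w * (ε₁ * ε₁) * w) * ε₁ := by simp only [mul_assoc]
      _ = ε₁ * w * ε₁ := by rw [he₁, e4]
  have e5 : ε₁ * (ε₁ * w * ε₁) = ε₁ * w * ε₁ := by rw [← mul_assoc, ← mul_assoc, he₁]
  have e6 : ε₁ * w * ε₁ * ε₁ = ε₁ * w * ε₁ := by rw [mul_assoc, he₁]
  have hz : ε₁ - ε₁ * w * ε₁ = 0 := by
    refine NilR.eq_zero (R := R) (by rw [← e2]; exact h₁.nt _ hd2) ?_
    rw [mul_sub, sub_mul, sub_mul, he₁, e3, e5, e6, sub_self, sub_zero]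
  refine ⟨ε * ε₁, ε₁ * ε * w, mul_mem hε hε₁, mul_mem (mul_mem hε₁ hε) hw', ?_, ?_, hab, ?_⟩
  · rw [← mul_assoc, he, mul_assoc, he₁]
  · rw [← mul_assoc, ← mul_assoc, he₁, mul_assoc, hr]
  · rw [hba]
    exact (sub_eq_zero.1 hz).symm

/-- A fixed idempotent `f` commuting with `ε` such that `(1 - f) J` lies in `trM` fixes `ε`. -/
lemma MinI.mul_eq [Module.Finite R A] (h : MinI R δ J ε) {f : A} (hf : f * f = f)
    (hc : f * ε = ε * f) (hJ : J - f * J ∈ trM R δ ⊤) : f * ε = ε := by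
  have he : ε * ε = ε := h.idem.eq
  have e1 : ε * (f * ε) = f * ε := by rw [← mul_assoc, ← hc, mul_assoc, he]
  have e2 : f * ε * ε = f * ε := by rw [mul_assoc, he]
  have e3 : f * ε * (f * ε) = f * ε := by rw [mul_assoc, e1, ← mul_assoc, hf]
  have e4 : ε * (J - f * J) * ε = ε - f * ε := by
    rw [mul_assoc, sub_mul, mul_assoc, h.left, mul_sub, he, e1]
  have hz : ε - f * ε = 0 := by
    refine NilR.eq_zero (R := R) (by rw [← e4]; exact h.nt _ hJ) ?_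
    rw [mul_sub, sub_mul, sub_mul, he, e1, e2, e3, sub_self, sub_zero]
  exact (sub_eq_zero.1 hz).symm

lemma MinI.cval_equiv (h : MinI R δ J ε) :
    EquivOn (cjI R h.cor) (cjI R δ) ⊤ (cval R h.idem) ∧
      EquivOn (biI R h.cor) (biI R δ) ⊤ (cval R h.idem) := by
  have key : ∀ (u v : D) (a : h.idem.Corner),
      δ u * ε * (a.1 * (δ v * ε)) = δ u * (a.1 * δ v) := by
    intro u v a
    rw [h.comm v, ← mul_assoc a.1, corner_right, mul_assoc, ← mul_assoc ε, corner_left]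
  exact ⟨fun u _ a => key u u⁻¹ a, fun g _ a => key g.1 g.2⁻¹ a⟩

lemma MinI.cproj_equiv (h : MinI R δ J ε) :
    EquivOn (cjI R δ) (cjI R h.cor) ⊤ (cproj R h.idem) ∧
      EquivOn (biI R δ) (biI R h.cor) ⊤ (cproj R h.idem) := by
  have he : ε * ε = ε := h.idem.eq
  have key : ∀ (u v : D) (x : A),
      ε * (δ u * (x * δ v)) * ε = δ u * ε * (ε * x * ε * (δ v * ε)) := by
    intro u v x
    calc ε * (δ u * (x * δ v)) * ε = (ε * δ u) * x * (δ v * ε) := by simp only [mul_assoc]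
      _ = (δ u * (ε * ε)) * x * (δ v * (ε * ε)) := by rw [he, h.comm u]
      _ = (δ u * (ε * ε)) * x * ((δ v * ε) * ε) := by simp only [mul_assoc]
      _ = δ u * ε * (ε * x * ε * (δ v * ε)) := by
        conv_lhs => rw [h.comm v]
        simp only [mul_assoc]
  exact ⟨fun u _ x => Subtype.ext (key u u⁻¹ x), fun g _ x => Subtype.ext (key g.1 g.2⁻¹ x)⟩

/-- Put `η = a η'`.  Modulo `trM R δ S`: `η z η ≡ a (η' z' η') ≡ a (hat c * η') ≡ hat c * η`. -/
theorem Link.lg {a : A' →ₐ[R] A} (h : Link δ' δ J' J S a) (hl : LG R δ' J' S) : LG R δ J S := by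
  obtain ⟨η, h1, h2, h3, h4⟩ := hl
  have hE : ∀ T : Subgroup D, EquivOn (cjI R δ') (cjI R δ) T a.toLinearMap :=
    fun T u _ x => h.equiv u x
  have hη : ∀ T : Subgroup D, FixedBy (cjI R δ) T (a η) := fun T u _ => by
    rw [← h.equiv, h1 u trivial]
  refine ⟨a η, hη ⊤, by rw [← h.one, ← map_mul, ← map_mul, h2], ?_, fun z hz => ?_⟩
  · rw [← h.one, ← map_sub]
    exact brK_map (hE ⊤) h3
  · obtain ⟨z', hz'⟩ := h.red z hz
    obtain ⟨c, hc⟩ := h4 z' (fixedBy_of_cent h.cent z')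
    refine ⟨c, ?_⟩
    have e1 : hatI R δ c - a (hatI R δ' c) ∈ trM R δ S := by
      rw [hatI_apply, hatI_apply, map_sum, ← Finset.sum_sub_distrib]
      refine Submodule.sum_mem _ fun u _ => ?_
      rw [map_smul, ← smul_sub]
      exact Submodule.smul_mem _ _ (h.hat u)
    have e2 : a η * z * a η - hatI R δ c * a η = a η * (z - a z') * a η +
        a (η * z' * η - hatI R δ' c * η) - (hatI R δ c - a (hatI R δ' c)) * a η := by
      simp only [map_sub, map_mul, mul_sub, sub_mul]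
      abel
    rw [e2]
    exact Submodule.sub_mem _ (Submodule.add_mem _
      (trM_mul_right (hη S) (trM_mul_left (hη S) hz')) (brK_map (hE S) hc))
      (trM_mul_right (hη S) e1)

section tp

variable {ψ : MulAut D} {Φ : A →ₗ[R] A'} {Ψ : A' →ₗ[R] A}

omit [IsLocalRing R] [Fintype D] in
lemma Tp.symm (h : Tp ψ δ δ' J J' Φ Ψ) : Tp ψ⁻¹ δ' δ J' J Ψ Φ := by
  exact ⟨h.2, by rw [inv_inv]; exact h.1⟩

omit [IsLocalRing R] [Fintype D] in
lemma TpHalf.fixed (h : TpHalf ψ δ δ' J J' Φ Ψ) {x : A} (hx : FixedBy (cjI R δ) S x) :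
    FixedBy (cjI R δ') (S.map ψ.toMonoidHom) (Φ x) := by
  refine fixedBy_cjI_iff.2 ?_
  rintro _ ⟨u, hu, rfl⟩
  change δ' (ψ u) * Φ x = Φ x * δ' (ψ u)
  rw [← h.left, ← h.right, fixedBy_cjI_iff.1 hx u hu]

omit [IsLocalRing R] in
/-- `rtr_map` for the representation `(cjI R δ').comp ψ`, then `rtr_comp_hom`. -/
lemma TpHalf.map_rtr (h : TpHalf ψ δ δ' J J' Φ Ψ) {T : Subgroup D} (hST : S ≤ T) {x : A}
    (hx : FixedBy (cjI R δ) S x) : Φ (rtr (cjI R δ) S T x) =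
      rtr (cjI R δ') (S.map ψ.toMonoidHom) (T.map ψ.toMonoidHom) (Φ x) := by
  have hE : EquivOn (cjI R δ) ((cjI R δ').comp ψ.toMonoidHom) T Φ := fun u _ y => by
    change Φ (δ u * (y * δ u⁻¹)) = δ' (ψ u) * (Φ y * δ' (ψ u)⁻¹)
    rw [h.left, h.right, map_inv]
  rw [rtr_map hE]
  refine rtr_comp_hom ψ.toMonoidHom (Subgroup.map_mono hST) hST
    (fun g hg => Subgroup.mem_map_of_mem _ hg)
    (fun g _ => Subgroup.mem_map_iff_mem ψ.injective) ?_ (h.fixed hx)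
  rintro _ ⟨g, hg, rfl⟩
  exact ⟨g, hg, by rw [inv_mul_cancel]; exact Subgroup.one_mem _⟩

lemma TpHalf.map_trM (h : TpHalf ψ δ δ' J J' Φ Ψ) {x : A} (hx : x ∈ trM R δ S) :
    Φ x ∈ trM R δ' (S.map ψ.toMonoidHom) := by
  refine brK_le (W := (trM R δ' (S.map ψ.toMonoidHom)).comap Φ) (fun S' m hS hm => ?_)
    (fun r hr m hm => ?_) hx
  · rw [Submodule.mem_comap, h.map_rtr hS.le hm]
    exact rtr_mem_brK ((Subgroup.map_lt_map_iff_of_injective ψ.injective).2 hS) (h.fixed hm)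
  · rw [Submodule.mem_comap, map_smul]
    exact smul_mem_brK hr (h.fixed hm)

omit [IsLocalRing R] in
lemma TpHalf.map_hat (h : TpHalf ψ δ δ' J J' Φ Ψ) (c : MonoidAlgebra R D) (x : A) :
    Φ (hatI R δ c * x) = hatI R δ' (inc R ψ.toMonoidHom c) * Φ x := by
  induction c using MonoidAlgebra.induction_linear with
  | zero => simp
  | add c c' hc hc' => simp only [map_add, add_mul, hc, hc']
  | single u r =>
    rw [inc_single, hatI_single, hatI_single, smul_mul_assoc, smul_mul_assoc, map_smul, h.left]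
    rfl

omit [Fintype D] in
lemma frtr_map_top (ψ : MulAut D) : (⊤ : Subgroup D).map ψ.toMonoidHom = ⊤ :=
  Subgroup.map_top_of_surjective _ ψ.surjective

omit [Fintype D] in
lemma frtr_map_inv (ψ : MulAut D) (S : Subgroup D) :
    (S.map ψ.toMonoidHom).map (ψ⁻¹ : MulAut D).toMonoidHom = S := by
  ext g
  constructor
  · rintro ⟨_, ⟨u, hu, rfl⟩, rfl⟩
    change (ψ⁻¹ : MulAut D) (ψ u) ∈ S
    rwa [MulAut.inv_apply_self]
  · intro hg
    exact ⟨ψ g, ⟨g, hg, rfl⟩, MulAut.inv_apply_self D ψ g⟩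

omit [IsLocalRing R] [Fintype D] in
lemma frtr_fixed_top (h : TpHalf ψ δ δ' J J' Φ Ψ) {x : A} (hx : FixedBy (cjI R δ) ⊤ x) :
    FixedBy (cjI R δ') ⊤ (Φ x) := by
  have := h.fixed hx
  rwa [frtr_map_top] at this

lemma frtr_trM_top (h : TpHalf ψ δ δ' J J' Φ Ψ) {x : A} (hx : x ∈ trM R δ ⊤) :
    Φ x ∈ trM R δ' ⊤ := by
  have := h.map_trM hx
  rwa [frtr_map_top] at this

omit [IsLocalRing R] [Fintype D] in
lemma frtr_sandwich (h : Tp ψ δ δ' J J' Φ Ψ) {η : A} (hl : J * η = η) (hr : η * J = η)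
    (z : A') : Φ (η * Ψ z * η) = Φ η * z * Φ η := by
  obtain ⟨a1, a2⟩ := frtr_cut h.2.idem (h.1.cut η)
  calc Φ (η * Ψ z * η) = Φ (η * J * Ψ z * J * η) := by rw [hr, mul_assoc _ J, hl]
    _ = Φ η * J' * z * (J' * Φ η) := by
      rw [h.1.mul, h.1.mul, h.1.inv]
      simp only [mul_assoc]
    _ = Φ η * z * Φ η := by rw [a1, a2]

omit [Fintype D] in
lemma frtr_nil (h : TpHalf ψ δ δ' J J' Φ Ψ) {x : A} (hx : x * J = x) (hn : NilR R x) :
    NilR R (Φ x) := by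
  have key : ∀ n : ℕ, Φ (x ^ (n + 1)) = Φ x ^ (n + 1) := by
    intro n
    induction n with
    | zero => rw [zero_add, pow_one, pow_one]
    | succ n ih => rw [pow_succ' x, pow_succ' (Φ x), ← ih, ← h.mul, hx]
  obtain ⟨n, hn⟩ := hn
  refine ⟨n + 1, ?_⟩
  rw [← key, pow_succ]
  exact idem_inMax_map Φ (idem_inMax_mul_right x hn)

theorem Tp.lg (h : Tp ψ δ δ' J J' Φ Ψ) (hl : LG R δ J S) :
    LG R δ' J' (S.map ψ.toMonoidHom) := by
  obtain ⟨η, h1, h2, h3, h4⟩ := hl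
  obtain ⟨hl, hr⟩ := frtr_cut h.1.idem h2
  refine ⟨Φ η, frtr_fixed_top h.1 h1, h.1.cut η, ?_, fun z hz => ?_⟩
  · rw [← h.1.one, ← map_sub]
    exact frtr_trM_top h.1 h3
  · have hz' := h.2.fixed hz
    rw [frtr_map_inv] at hz'
    obtain ⟨c, hc⟩ := h4 _ hz'
    refine ⟨inc R ψ.toMonoidHom c, ?_⟩
    have := h.1.map_trM hc
    rwa [map_sub, h.1.map_hat, frtr_sandwich h hl hr] at this

theorem Tp.minI (h : Tp ψ δ δ' J J' Φ Ψ) (hε : MinI R δ J ε) : MinI R δ' J' (Φ ε) := by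
  have he : ε * ε = ε := hε.idem.eq
  obtain ⟨hl, hr⟩ := frtr_cut h.2.idem (h.1.cut ε)
  have hJ : ∀ x, ε * x * ε * J = ε * x * ε := fun x => by rw [mul_assoc, hε.right]
  refine ⟨?_, fun u => fixedBy_cjI_iff.1 (frtr_fixed_top h.1 (hε.fixed ⊤)) u trivial, hl, hr, ?_,
    fun z hz => ?_, fun z hz => ?_, fun hm => hε.ne ?_⟩
  · change Φ ε * Φ ε = Φ ε
    rw [← h.1.mul, hε.right, he]
  · rw [← h.1.one, ← map_sub]
    exact frtr_trM_top h.1 hε.sub
  · obtain ⟨c, hc⟩ := hε.loc _ (frtr_fixed_top h.2 hz)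
    refine ⟨c, ?_⟩
    have := frtr_nil h.1 (by rw [sub_mul, hJ, smul_mul_assoc, hε.right]) hc
    rwa [map_sub, map_smul, frtr_sandwich h hε.left hε.right] at this
  · have := frtr_nil h.1 (hJ _) (hε.nt _ (frtr_trM_top h.2 hz))
    rwa [frtr_sandwich h hε.left hε.right] at this
  · have := idem_inMax_map Ψ hm
    rwa [h.2.inv, hε.left, hε.right] at this

/-- With `α`, `β` from `MinI.conj` for `ε'` and `Φ ε`: `σ a = α * Φ a * β`, with inverse
`b ↦ Ψ (β * b * α)`. -/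
theorem Tp.exists_equiv [Module.Finite R A'] (hs : Std p R D) (h : Tp ψ δ δ' J J' Φ Ψ)
    (hε : MinI R δ J ε) (hε' : MinI R δ' J' ε') :
    ∃ σ : hε.idem.Corner ≃ₐ[R] hε'.idem.Corner, ∀ u, σ (hε.cor u) = hε'.cor (ψ u) := by
  have he' : ε' * ε' = ε' := hε'.idem.eq
  have hΦ := h.minI hε
  have heΦ : Φ ε * Φ ε = Φ ε := hΦ.idem.eq
  obtain ⟨α, β, hα, -, h1, h2, h3, h4⟩ := hε'.conj hs hΦ
  obtain ⟨a1, a2⟩ := frtr_cut₂ he' heΦ h1
  obtain ⟨b1, b2⟩ := frtr_cut₂ heΦ he' h2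
  have hJl : ∀ a : hε.idem.Corner, J * a.1 = a.1 := fun a => by
    rw [← corner_left hε.idem a, ← mul_assoc, hε.left]
  have hJr : ∀ a : hε.idem.Corner, a.1 * J = a.1 := fun a => by
    rw [← corner_right hε.idem a, mul_assoc, hε.right]
  have hml : ∀ a : hε.idem.Corner, Φ ε * Φ a.1 = Φ a.1 := fun a => by
    rw [← h.1.mul, hε.right, corner_left]
  have hmr : ∀ a : hε.idem.Corner, Φ a.1 * Φ ε = Φ a.1 := fun a => by
    rw [← h.1.mul, hJr, corner_right]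
  let L : hε.idem.Corner →ₗ[R] hε'.idem.Corner :=
    cproj R hε'.idem ∘ₗ sandw R α β ∘ₗ Φ ∘ₗ cval R hε.idem
  have hL : ∀ a, (L a).1 = α * Φ a.1 * β := fun a => by
    change ε' * (α * (Φ a.1 * β)) * ε' = _
    rw [← mul_assoc ε', a1, mul_assoc, mul_assoc, b2, mul_assoc]
  have hone : L 1 = 1 := Subtype.ext (by rw [hL, corner_one, corner_one, a2, h3])
  have hmul : ∀ a b, L (a * b) = L a * L b := fun a b => Subtype.ext (by
    rw [corner_mul, hL, hL, hL, corner_mul]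
    calc α * Φ (a.1 * b.1) * β = α * (Φ a.1 * Φ ε * Φ b.1) * β := by
          rw [hmr, ← h.1.mul, hJr]
      _ = α * Φ a.1 * β * (α * Φ b.1 * β) := by
          rw [← h4]
          simp only [mul_assoc])
  have hinj : Function.Injective (AlgHom.ofLinearMap L hone hmul) := by
    refine (injective_iff_map_eq_zero _).2 fun a ha => Subtype.ext ?_
    have e1 : α * Φ a.1 * β = 0 := by
      rw [← hL]
      exact congrArg Subtype.val ha
    have e2 : Φ a.1 = 0 := by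
      calc Φ a.1 = β * α * Φ a.1 * (β * α) := by rw [h4, hml, hmr]
        _ = β * (α * Φ a.1 * β) * α := by simp only [mul_assoc]
        _ = 0 := by rw [e1, mul_zero, zero_mul]
    have e3 := h.2.inv a.1
    rw [e2, map_zero, hJl, hJr] at e3
    exact e3.symm
  have hsurj : Function.Surjective (AlgHom.ofLinearMap L hone hmul) := by
    intro b
    refine ⟨cmk hε.idem (Ψ (β * b.1 * α)), Subtype.ext ?_⟩
    change (L _).1 = _
    rw [hL, cmk_val, frtr_sandwich h hε.left hε.right]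
    calc α * (Φ ε * (β * b.1 * α) * Φ ε) * β = α * (Φ ε * β) * b.1 * (α * Φ ε * β) := by
          simp only [mul_assoc]
      _ = b.1 := by rw [b1, a2, h3, corner_left, corner_right]
  refine ⟨AlgEquiv.ofBijective (AlgHom.ofLinearMap L hone hmul) ⟨hinj, hsurj⟩,
    fun u => Subtype.ext ?_⟩
  change (L _).1 = δ' (ψ u) * ε'
  rw [hL]
  change α * Φ (δ u * ε) * β = _
  rw [h.1.left, ← mul_assoc, ← fixedBy_cjI_iff.1 hα _ trivial, mul_assoc, mul_assoc, b1, h3]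

end tp

omit [IsLocalRing R] [Fintype D] in
lemma frtr_half {ψ : MulAut D} {W W' : A} (hJ : J * J = J) (hc : ∀ u, δ u * J = J * δ u)
    (hW : J * W * J = W) (hW' : J * W' * J = W') (h1 : W * W' = J) (h2 : W' * W = J)
    (hδ : ∀ u, W * δ u = δ (ψ u) * W) (hδ' : ∀ u, δ u * W' = W' * δ (ψ u)) :
    TpHalf ψ δ δ J J (sandw R W W') (sandw R W' W) := by
  obtain ⟨a1, -⟩ := frtr_cut hJ hW
  obtain ⟨b1, b2⟩ := frtr_cut hJ hW'
  refine ⟨hJ, hc, fun x y => ?_, ?_, fun x => ?_, fun u x => ?_, fun u x => ?_, fun y => ?_⟩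
  · simp only [sandw_apply]
    rw [← h2]
    simp only [mul_assoc]
  · rw [sandw_apply, b1, h1]
  · rw [sandw_apply, ← mul_assoc J, a1, mul_assoc, mul_assoc, b2]
  · rw [sandw_apply, sandw_apply, mul_assoc, ← mul_assoc W, hδ, mul_assoc]
  · rw [sandw_apply, sandw_apply, mul_assoc, hδ', mul_assoc, mul_assoc]
  · simp only [sandw_apply]
    rw [← h1]
    simp only [mul_assoc]

omit [IsLocalRing R] [Fintype D] in
/-- Conjugation by an invertible element of the corner of `J`. -/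
lemma tp_of_unit {ψ : MulAut D} {W W' : A} (hJ : J * J = J) (hc : ∀ u, δ u * J = J * δ u)
    (hW : J * W * J = W) (hW' : J * W' * J = W') (h1 : W * W' = J) (h2 : W' * W = J)
    (hδ : ∀ u, W * δ u = δ (ψ u) * W) : Tp ψ δ δ J J (sandw R W W') (sandw R W' W) := by
  obtain ⟨a1, a2⟩ := frtr_cut hJ hW
  obtain ⟨b1, b2⟩ := frtr_cut hJ hW'
  have hδ' : ∀ u, δ u * W' = W' * δ (ψ u) := fun u => by
    calc δ u * W' = W' * W * δ u * W' := by rw [h2, ← hc, mul_assoc, b1]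
      _ = W' * (δ (ψ u) * (W * W')) := by rw [mul_assoc W' W, hδ]; simp only [mul_assoc]
      _ = W' * δ (ψ u) := by rw [h1, hc, ← mul_assoc, b2]
  refine ⟨frtr_half hJ hc hW hW' h1 h2 hδ hδ', frtr_half hJ hc hW' hW h2 h1 (fun u => ?_)
    (fun u => ?_)⟩
  · rw [hδ', MulAut.apply_inv_self]
  · rw [hδ, MulAut.apply_inv_self]

/-- With `α`, `β` from `MinI.conj` for `ε` and `W ε W'`: `x = α W ε`, `x' = ε W' β`. -/
theorem MinI.exists_unit [Module.Finite R A] (hs : Std p R D) (hε : MinI R δ J ε) {ψ : MulAut D}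
    {W W' : A} (hJ : J * J = J) (hc : ∀ u, δ u * J = J * δ u) (hW : J * W * J = W)
    (hW' : J * W' * J = W') (h1 : W * W' = J) (h2 : W' * W = J)
    (hδ : ∀ u, W * δ u = δ (ψ u) * W) :
    ∃ x x' : hε.idem.Corner, x * x' = 1 ∧ x' * x = 1 ∧ ∀ u, x * hε.cor u = hε.cor (ψ u) * x := by
  have he : ε * ε = ε := hε.idem.eq
  have h₁ : MinI R δ J (W * (ε * W')) := (tp_of_unit hJ hc hW hW' h1 h2 hδ).minI hε
  obtain ⟨α, β, hα, -, h3, h4, h5, h6⟩ := hε.conj hs h₁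
  obtain ⟨a1, a2⟩ := frtr_cut₂ he h₁.idem.eq h3
  obtain ⟨b1, b2⟩ := frtr_cut₂ h₁.idem.eq he h4
  have hx : (cmk hε.idem (α * W)).1 = α * W * ε := by rw [cmk_val, ← mul_assoc, a1]
  have hx' : (cmk hε.idem (W' * β)).1 = ε * W' * β := by
    rw [cmk_val, mul_assoc, mul_assoc, b2, mul_assoc]
  refine ⟨cmk hε.idem (α * W), cmk hε.idem (W' * β), Subtype.ext ?_, Subtype.ext ?_,
    fun u => Subtype.ext ?_⟩
  · rw [corner_mul, hx, hx', corner_one]
    calc α * W * ε * (ε * W' * β) = α * (W * (ε * ε * W')) * β := by simp only [mul_assoc]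
      _ = ε := by rw [he, a2, h5]
  · rw [corner_mul, hx, hx', corner_one]
    calc ε * W' * β * (α * W * ε) = ε * W' * (β * α) * W * ε := by simp only [mul_assoc]
      _ = ε * (W' * W) * ε * (W' * W) * ε := by rw [h6]; simp only [mul_assoc]
      _ = ε := by rw [h2, hε.right, he, hε.right, he]
  · rw [corner_mul, corner_mul, hx]
    change α * W * ε * (δ u * ε) = δ (ψ u) * ε * (α * W * ε)
    calc α * W * ε * (δ u * ε) = α * W * (ε * δ u) * ε := by simp only [mul_assoc]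
      _ = α * (W * δ u) * (ε * ε) := by rw [← hε.comm]; simp only [mul_assoc]
      _ = α * δ (ψ u) * W * ε := by rw [hδ, he]; simp only [mul_assoc]
      _ = δ (ψ u) * (ε * α) * W * ε := by rw [← fixedBy_cjI_iff.1 hα _ trivial, a1]
      _ = δ (ψ u) * ε * (α * W * ε) := by simp only [mul_assoc]

lemma LG.map_equiv (Θ : A ≃ₐ[R] A') (hδ : ∀ u, Θ (δ u) = δ' u) (hl : LG R δ J S) :
    LG R δ' (Θ J) S := by
  obtain ⟨η, h1, h2, h3, h4⟩ := hl
  have hq : ∀ u x, Θ (cjI R δ u x) = cjI R δ' u (Θ x) := fun u x => by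
    rw [cjI_apply, cjI_apply, map_mul, map_mul, hδ, hδ]
  have hE : ∀ T : Subgroup D, EquivOn (cjI R δ) (cjI R δ') T Θ.toLinearMap :=
    fun T u _ x => hq u x
  refine ⟨Θ η, fun u _ => by rw [← hq, h1 u trivial], by rw [← map_mul, ← map_mul, h2], ?_,
    fun z hz => ?_⟩
  · rw [← map_sub]
    exact brK_map (hE ⊤) h3
  · obtain ⟨z, rfl⟩ := Θ.surjective z
    obtain ⟨c, hc⟩ := h4 z fun u hu => Θ.injective (by rw [hq, hz u hu])
    refine ⟨c, ?_⟩
    have e1 : hatI R δ' c = Θ (hatI R δ c) := by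
      rw [hatI_apply, hatI_apply, map_sum]
      exact Finset.sum_congr rfl fun u _ => by rw [map_smul, hδ]
    rw [e1, ← map_mul, ← map_mul, ← map_mul, ← map_sub]
    exact brK_map (hE S) hc

end Pool.Agent.Lib.MP_b6945b_al.St
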