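import Pool.Agent.Lib.MP_b6945b_al.St.FrPG
import Pool.Agent.Lib.MP_b6945b_al.St.FrTr

set_option autoImplicit false

/-!
Source idempotents of centralisers and control of fusion.
-/

namespace Pool.Agent.Lib.MP_b6945b_al.St

open IsLocalRing
open MonoidAlgebra (single)

section defs

variable {R D G : Type} [CommRing R] [CommGroup D] [Group G] [Fintype G]

variable (R) in
/-- The interior structure of the group algebra. -/
noncomputable def gD (ι : D →* G) : D →* MonoidAlgebra R G := (MonoidAlgebra.of R G).comp ι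

omit [Fintype G] in
lemma gD_apply (ι : D →* G) (u : D) : gD R ι u = single (ι u) 1 := rfl

variable (R) in
/-- Truncation as a map to `CA`. -/
noncomputable def caP (ι : D →* G) (Q : Subgroup D) : MonoidAlgebra R G →ₗ[R] CA R ι Q :=
  (brT R ((Q.map ι : Subgroup G) : Set G)).codRestrict (CA R ι Q).toSubmodule
    (suppCent_brT _)

lemma caP_val (ι : D →* G) (Q : Subgroup D) (b : MonoidAlgebra R G) :
    (caP R ι Q b : MonoidAlgebra R G) = brT R ((Q.map ι : Subgroup G) : Set G) b := rfl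

variable {ι : D →* G} {Q S : Subgroup D}

omit [Fintype G] in
lemma frset_cj : cjI R (gD R ι) = (cjRep R G).comp ι := by
  refine MonoidHom.ext fun u => LinearMap.ext fun m => ?_
  rw [cjI_apply, gD_apply, gD_apply, map_inv]
  rfl

lemma frset_cj_val (u : D) (x : CA R ι Q) :
    (cjI R (caD R ι Q) u x : MonoidAlgebra R G) = cjRep R G (ι u) x := by
  rw [cjRep_apply, ← map_inv]
  rfl

omit [Fintype G] in
lemma frset_coe_conj (P : Subgroup G) (g : G) :
    (P.map (MulAut.conj g).toMonoidHom : Set G) = (fun x => g * x * g⁻¹) '' (P : Set G) := rfl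

lemma caP_coe (x : CA R ι Q) : caP R ι Q x = x := by
  exact Subtype.ext (brT_of_suppCent x.2)

lemma caP_equiv : EquivOn (biI R (gD R ι)) (biI R (caD R ι Q)) ⊤ (caP R ι Q) ∧
    EquivOn (cjI R (gD R ι)) (cjI R (caD R ι Q)) ⊤ (caP R ι Q) := by
  have key : ∀ (u v : D) (m : MonoidAlgebra R G), caP R ι Q (gD R ι u * (m * gD R ι v)) =
      caD R ι Q u * (caP R ι Q m * caD R ι Q v) := fun u v m => Subtype.ext
    ((brT_mul_left (caD R ι Q u).2 _).trans (congrArg _ (brT_mul_right (caD R ι Q v).2 m)))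
  exact ⟨fun g _ m => key _ _ m, fun g _ m => key _ _ m⟩

lemma caVal_equiv : EquivOn (biI R (caD R ι Q)) (biI R (gD R ι)) ⊤ (CA R ι Q).val.toLinearMap ∧
    EquivOn (cjI R (caD R ι Q)) (cjI R (gD R ι)) ⊤ (CA R ι Q).val.toLinearMap := by
  exact ⟨fun _ _ _ => rfl, fun _ _ _ => rfl⟩

lemma caD_cent : ∀ q ∈ Q, ∀ a : CA R ι Q, caD R ι Q q * a = a * caD R ι Q q := by
  intro q hq a
  refine (fixedBy_cjI_iff (R := R)).1 (fun u hu => Subtype.ext ?_) q hq
  rw [frset_cj_val]
  exact SuppCent.fixedBy a.2 _ ⟨u, hu, rfl⟩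

lemma ca_fixed_iff {x : CA R ι Q} : FixedBy (cjI R (caD R ι Q)) S x ↔
    FixedBy (cjRep R G) (S.map ι) (x : MonoidAlgebra R G) := by
  constructor
  · rintro h _ ⟨u, hu, rfl⟩
    rw [← frset_cj_val, h u hu]
  · intro h u hu
    refine Subtype.ext ?_
    rw [frset_cj_val]
    exact h _ ⟨u, hu, rfl⟩

lemma CA_mono (h : Q ≤ S) : CA R ι S ≤ CA R ι Q := by
  intro a ha x hx s hs
  exact ha x hx s (Subgroup.map_mono h hs)

variable [Fintype D]

lemma hatI_caD (c : MonoidAlgebra R D) :
    (hatI R (caD R ι Q) c : MonoidAlgebra R G) = inc R ι c := by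
  induction c using MonoidAlgebra.induction_linear with
  | zero => simp
  | add a b ha hb => rw [map_add, map_add, AddMemClass.coe_add, ha, hb]
  | single u r =>
    rw [hatI_single, inc_single, SetLike.val_smul, caD_val, MonoidAlgebra.smul_single', mul_one]

lemma frset_val_rtr (T : Subgroup D) (x : CA R ι Q) :
    (rtr (cjI R (caD R ι Q)) S T x : MonoidAlgebra R G) = rtr ((cjRep R G).comp ι) S T x :=
  rtr_map (ρ := cjI R (caD R ι Q)) (ρ' := (cjRep R G).comp ι) (φ := (CA R ι Q).val.toLinearMap)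
    (fun u _ m => frset_cj_val u m) x

/-- `rtr_map`, `rtr_comp_hom`. -/
lemma ca_rtr (hι : Function.Injective ι) {T : Subgroup D} (hST : S ≤ T) {x : CA R ι Q}
    (hx : FixedBy (cjI R (caD R ι Q)) S x) :
    (rtr (cjI R (caD R ι Q)) S T x : MonoidAlgebra R G) =
      rtr (cjRep R G) (S.map ι) (T.map ι) x := by
  rw [frset_val_rtr]
  refine rtr_comp_hom ι (Subgroup.map_mono hST) hST (fun g hg => ⟨g, hg, rfl⟩)
    (fun g _ => Subgroup.mem_map_iff_mem hι) ?_ (ca_fixed_iff.1 hx)
  rintro _ ⟨g, hg, rfl⟩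
  exact ⟨g, hg, by rw [inv_mul_cancel]; exact one_mem _⟩

variable [IsLocalRing R]

/-- `perm_fixed_mem` for the conjugation action of `D` on `G`, then project with `caP`. -/
lemma ca_sub_brT {z : CA R ι Q} (hz : FixedBy (cjI R (caD R ι Q)) S z) :
    z - caP R ι Q (brT R ((S.map ι : Subgroup G) : Set G) z) ∈ trM R (caD R ι Q) S := by
  have h := sub_brT_mem (ca_fixed_iff.1 hz) ((trM R (caD R ι Q) S).comap (caP R ι Q))
    fun y _ hy => ?_
  · rwa [Submodule.mem_comap, map_sub, caP_coe] at h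
  have hf : FixedBy (cjRep R G) (S.map ι ⊓ Subgroup.centralizer {y}) (single y 1) := by
    intro g hg
    have h1 := Subgroup.mem_centralizer_singleton_iff.1 hg.2
    rw [cjRep_apply, MonoidAlgebra.single_mul_single, MonoidAlgebra.single_mul_single,
      ← mul_assoc, h1, mul_inv_cancel_right, mul_one, mul_one]
  have he : EquivOn ((cjRep R G).comp ι) (cjI R (caD R ι Q)) S (caP R ι Q) := fun g _ m => by
    rw [← frset_cj]
    exact caP_equiv.2 g trivial m
  rw [Submodule.mem_comap, ← rtr_comp_hom ι (S' := S ⊓ (Subgroup.centralizer {y}).comap ι)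
    (T' := S) (T := S.map ι) inf_le_left inf_le_left (fun g hg => ⟨g, hg, rfl⟩)
    (fun g hg => ⟨fun h1 => ⟨hg, h1.2⟩, fun h1 => ⟨⟨g, hg, rfl⟩, h1.2⟩⟩) ?_ hf, rtr_map he]
  · refine rtr_mem_brK (lt_of_le_of_ne inf_le_left fun h1 => hy ?_) fun u hu => ?_
    · rintro _ ⟨u, hu, rfl⟩
      rw [← h1] at hu
      exact (Subgroup.mem_centralizer_singleton_iff.1 hu.2).symm
    · rw [← he u hu.1]
      exact congrArg _ (hf _ ⟨⟨u, hu.1, rfl⟩, hu.2⟩)
  · rintro _ ⟨g, hg, rfl⟩
    exact ⟨g, hg, by rw [inv_mul_cancel]; exact one_mem _⟩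

/-- `rtr_functional_mem` for the coefficient functionals. -/
lemma inMax_brT_of_trM {p : ℕ} (hs : Std p R D) {z : CA R ι Q} (hz : z ∈ trM R (caD R ι Q) S) :
    InMax R (brT R ((S.map ι : Subgroup G) : Set G) z) := by
  refine brK_le (W := (maximalIdeal R • ⊤ : Submodule R (MonoidAlgebra R G)).comap
    (brT R ((S.map ι : Subgroup G) : Set G) ∘ₗ (CA R ι Q).val.toLinearMap))
    (fun S' m hS' hm => ?_) (fun r hr m _ => ?_) hz
  · change InMax R (brT R _ ((rtr (cjI R (caD R ι Q)) S' S m : CA R ι Q) : MonoidAlgebra R G))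
    rw [frset_val_rtr, inMax_monoidAlgebra_iff]
    intro x
    rw [coeff_brT]
    split_ifs with hx
    · let lam : MonoidAlgebra R G →ₗ[R] R :=
        { toFun := fun b => b.coeff x
          map_add' := fun _ _ => by simp
          map_smul' := fun _ _ => by simp }
      refine rtr_functional_mem hs.prime (ρ := (cjRep R G).comp ι) hS'.le le_rfl
        (hs.pD.to_subgroup S) (fun u hu => ?_) lam (fun u hu b => ?_) _ hs.pR
        fun g _ hg => absurd (fun u hu => ?_) hS'.not_ge
      · exact ca_fixed_iff.1 hm _ ⟨u, hu, rfl⟩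
      · change (cjRep R G (ι u) b).coeff x = b.coeff x
        rw [coeff_cjRep, mul_assoc, hx _ ⟨u, hu, rfl⟩, inv_mul_cancel_left]
      · have := hg u hu
        rwa [inv_mul_cancel_comm] at this
    · exact zero_mem _
  · rw [Submodule.mem_comap, map_smul]
    exact inMax_smul hr _

omit [Fintype G] [Fintype D] in
lemma frset_toRes_cj (g : G) (b : MonoidAlgebra R G) :
    toRes R G (cjRep R G g b) = cjRep (ResidueField R) G g (toRes R G b) := by
  ext x
  rw [coeff_toRes, coeff_cjRep, coeff_cjRep, coeff_toRes]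

omit [Fintype G] [Fintype D] in
lemma frset_toRes_single (g : G) : toRes R G (single g 1) = single g 1 := by
  simp [toRes]

omit [Fintype D] in
lemma frset_char {p : ℕ} (hs : Std p R D) : (p : ResidueField R) = 0 := by
  rw [← map_natCast (residue R), residue_eq_zero_iff]
  exact hs.pR

omit [Fintype D] in
lemma frset_brT_mul {p : ℕ} (hs : Std p R D) {P : Subgroup G} (hP : IsPGroup p P)
    {b b' : MonoidAlgebra (ResidueField R) G} (hb : FixedBy (cjRep (ResidueField R) G) P b)
    (hb' : FixedBy (cjRep (ResidueField R) G) P b') :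
    brT (ResidueField R) P (b * b') = brT (ResidueField R) P b * brT (ResidueField R) P b' :=
  sub_eq_zero.1 (inMax_field.1 (brT_mul hs.prime hs.res.pR hP hb hb'))

end defs

variable {R D G E : Type} [CommRing R] [IsDomain R] [ValuationRing R] [CommGroup D] [Fintype D]
  [Group G] [Fintype G] [Group E] [Fintype E] {p : ℕ} {ι : D →* G} {φ : E →* MulAut D}
  {e j : MonoidAlgebra R G} {U U' : E → MonoidAlgebra R G} {Q : Subgroup D}

lemma FrSet.caJ_idem (h : FrSet p ι φ e j U U') (Q : Subgroup D) :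
    caJ h.supp Q * caJ h.supp Q = caJ h.supp Q := by
  exact Subtype.ext h.idem

lemma FrSet.caJ_comm (h : FrSet p ι φ e j U U') (Q : Subgroup D) (u : D) :
    caD R ι Q u * caJ h.supp Q = caJ h.supp Q * caD R ι Q u := by
  refine fixedBy_cjI_iff.1 (ca_fixed_iff.2 ?_) u (Subgroup.mem_top u)
  rw [← MonoidHom.range_eq_map]
  exact SuppCent.fixedBy h.supp

/-- `η = j`, `ca_sub_brT`, `FrSet.span`. -/
lemma FrSet.lg_top (h : FrSet p ι φ e j U U') (Q : Subgroup D) :
    LG R (caD R ι Q) (caJ h.supp Q) ⊤ := by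
  have hJ : FixedBy (cjI R (caD R ι Q)) ⊤ (caJ h.supp Q) :=
    fixedBy_cjI_iff.2 fun u _ => h.caJ_comm Q u
  refine ⟨caJ h.supp Q, hJ, by rw [h.caJ_idem, h.caJ_idem], by rw [sub_self]; exact zero_mem _,
    fun z hz => ?_⟩
  have h1 := trM_mul_right hJ (trM_mul_left hJ (ca_sub_brT hz))
  rw [← MonoidHom.range_eq_map] at h1
  have hb : SuppCent (Set.range ι) (brT R (ι.range : Set G) (z : MonoidAlgebra R G)) :=
    suppCent_brT _ _
  obtain ⟨c, hc⟩ := h.span _ hb
  refine ⟨c, ?_⟩
  have h2 : hatI R (caD R ι Q) c * caJ h.supp Q =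
      caJ h.supp Q * caP R ι Q (brT R (ι.range : Set G) z) * caJ h.supp Q := by
    refine Subtype.ext ?_
    rw [MulMemClass.coe_mul, MulMemClass.coe_mul, MulMemClass.coe_mul, hatI_caD, caP_val, caJ_val,
      brT_of_suppCent (b := brT R (ι.range : Set G) z) (caJ hb Q).2, hc]
  rwa [h2, ← sub_mul, ← mul_sub]

lemma FrSet.not_mem_trM (h : FrSet p ι φ e j U U') (Q : Subgroup D) :
    caJ h.supp Q ∉ trM R (caD R ι Q) ⊤ := by
  intro h1
  have h2 := inMax_brT_of_trM h.std h1
  rw [← MonoidHom.range_eq_map, caJ_val, brT_of_suppCent (S := (ι.range : Set G)) h.supp] at h2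
  exact not_inMax_of_idem h.idem h.ne h2

lemma FrSet.exists_min (h : FrSet p ι φ e j U U') (Q : Subgroup D) :
    ∃ i, MinI R (caD R ι Q) (caJ h.supp Q) i := by
  exact exists_minI h.std (h.caJ_idem Q) (h.caJ_comm Q) (h.lg_top Q) (h.not_mem_trM Q)

lemma FrSet.locPt (h : FrSet p ι φ e j U U') {i : CA R ι Q}
    (hi : MinI R (caD R ι Q) (caJ h.supp Q) i) :
    LocPt ((Q.map ι : Subgroup G) : Set G) ι.range (i : MonoidAlgebra R G) := by
  refine ⟨?_, i.2, congrArg Subtype.val hi.idem.eq, ?_, fun z hz hf => ?_,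
    fun P' hP' z hz hf => ?_, fun h1 => hi.ne ?_⟩
  · rintro _ ⟨u, rfl⟩ _ ⟨q, -, rfl⟩
    rw [← map_mul, mul_comm, map_mul]
  · rw [MonoidHom.range_eq_map]
    exact ca_fixed_iff.1 (hi.fixed ⊤)
  · rw [MonoidHom.range_eq_map] at hf
    obtain ⟨c, hc⟩ := hi.loc ⟨z, hz⟩ (ca_fixed_iff.2 hf)
    exact ⟨c, hc.map (CA R ι Q).val⟩
  · have e1 : (P'.comap ι).map ι = P' := Subgroup.map_comap_eq_self hP'.le
    have h1 : P'.comap ι < ⊤ := lt_top_iff_ne_top.2 fun h2 => hP'.ne (by
      rw [← e1, h2, MonoidHom.range_eq_map])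
    have h2 : FixedBy (cjI R (caD R ι Q)) (P'.comap ι) ⟨z, hz⟩ := ca_fixed_iff.2 (by rwa [e1])
    have h3 := (hi.nt _ (rtr_mem_brK h1 h2)).map (CA R ι Q).val
    rw [map_mul, map_mul, Subalgebra.val_apply, Subalgebra.val_apply, ca_rtr h.inj le_top h2, e1,
      ← MonoidHom.range_eq_map] at h3
    exact h3
  · have h2 := idem_inMax_map (caP R ι Q) h1
    rwa [caP_coe] at h2

lemma FrSet.brT_min (h : FrSet p ι φ e j U U') {i : CA R ι Q}
    (hi : MinI R (caD R ι Q) (caJ h.supp Q) i) :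
    brT (ResidueField R) ι.range (toRes R G i) = toRes R G j := by
  have h1 := toRes_eq_zero_iff.2 (inMax_brT_of_trM h.std hi.sub)
  rw [← MonoidHom.range_eq_map, AddSubgroupClass.coe_sub, map_sub, caJ_val,
    brT_of_suppCent (S := (ι.range : Set G)) h.supp, map_sub, toRes_brT, sub_eq_zero] at h1
  exact h1.symm

lemma FrSet.frset_pgroup (h : FrSet p ι φ e j U U') (g : G) :
    IsPGroup p (ι.range.map (MulAut.conj g).toMonoidHom) := by
  rw [MonoidHom.range_eq_map]
  exact ((h.std.pD.to_subgroup ⊤).map ι).map _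

lemma FrSet.frset_comm (h : FrSet p ι φ e j U U') (b : MonoidAlgebra (ResidueField R) G) :
    toRes R G e * b = b * toRes R G e := by
  obtain ⟨w, rfl⟩ := toRes_surjective b
  rw [← map_mul, h.blk.cent, map_mul]

lemma FrSet.frset_fixed (h : FrSet p ι φ e j U U') (P : Subgroup G) :
    FixedBy (cjRep (ResidueField R) G) P (toRes R G e) :=
  fun g _ => fixedBy_top_iff.2 h.frset_comm g trivial

lemma FrSet.frset_cent (h : FrSet p ι φ e j U U') {T : Set G}
    (b : MonoidAlgebra (ResidueField R) G) (hb : SuppCent T b) :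
    brT (ResidueField R) T (toRes R G e) * b = b * brT (ResidueField R) T (toRes R G e) := by
  rw [← brT_mul_right hb, h.frset_comm, brT_mul_left hb]

lemma FrSet.frset_locPt (h : FrSet p ι φ e j U U') {i : CA R ι Q}
    (hi : MinI R (caD R ι Q) (caJ h.supp Q) i) (g : G) {T : Subgroup G}
    (hT : T ≤ ι.range.map (MulAut.conj g).toMonoidHom)
    (hQ : ∀ q ∈ Q, g * ι q * g⁻¹ ∈ T) :
    LocPt (T : Set G) (ι.range.map (MulAut.conj g).toMonoidHom)
      (brT (ResidueField R) T (cjRep (ResidueField R) G g (toRes R G i))) := by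
  have := h.std.split.isAlgClosed
  have h1 := ((h.locPt hi).toRes.conj g).brauer h.std.prime (frset_char h.std) (h.frset_pgroup g)
    hT (by
      rintro _ ⟨_, ⟨u, rfl⟩, rfl⟩ t ht
      obtain ⟨_, ⟨v, rfl⟩, rfl⟩ := hT ht
      rw [← map_mul, ← map_mul, mul_comm, map_mul, map_mul])
  rwa [Set.union_eq_self_of_subset_left] at h1
  rintro _ ⟨_, ⟨q, hq, rfl⟩, rfl⟩
  exact hQ q hq

/-- If `T ≤ g D g⁻¹` then the truncation `f` of the block idempotent fixes the truncation of
`g i g⁻¹`: by `LocPt.central_idem` the product is `0` or everything, and its truncation to the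
centraliser of `g D g⁻¹` is the conjugate of `j` (`FrSet.br`). -/
lemma FrSet.block_mul (h : FrSet p ι φ e j U U') {i : CA R ι Q}
    (hi : MinI R (caD R ι Q) (caJ h.supp Q) i) (g : G) {T : Subgroup G}
    (hT : T ≤ ι.range.map (MulAut.conj g).toMonoidHom)
    (hQ : ∀ q ∈ Q, g * ι q * g⁻¹ ∈ T) :
    brT (ResidueField R) T (toRes R G e) *
        brT (ResidueField R) T (cjRep (ResidueField R) G g (toRes R G i)) =
      brT (ResidueField R) T (cjRep (ResidueField R) G g (toRes R G i)) := by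
  have := h.std.split.isAlgClosed
  have hP := h.frset_pgroup g
  have he := h.frset_fixed
  have h₂ := h.frset_locPt hi g hT hQ
  have hf : brT (ResidueField R) T (toRes R G e) * brT (ResidueField R) T (toRes R G e) =
      brT (ResidueField R) T (toRes R G e) := by
    rw [← frset_brT_mul h.std (hP.to_le hT) (he T) (he T), ← map_mul, h.blk.idem]
  refine (h₂.central_idem hf (suppCent_brT _ _) h.frset_cent).resolve_left fun h0 => ?_
  have h1 := congrArg (brT (ResidueField R) (ι.range.map (MulAut.conj g).toMonoidHom)) h0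
  rw [frset_brT_mul h.std hP (brT_fixed h₂.le (he _)) h₂.fix, brT_brT hT, brT_brT hT, map_zero,
    ← he ⊤ g trivial, frset_coe_conj, brT_cjRep, brT_cjRep, ← cjRep_mul, h.brT_min hi] at h1
  have hj : SuppCent (ι.range : Set G) (toRes R G j) := by
    rw [← h.brT_min hi]
    exact suppCent_brT _ _
  have h2 := toRes_eq_zero_iff.2 h.br
  rw [toRes_brT, map_sub, map_mul, map_sub, ← MonoidHom.coe_range, brT_mul_right hj,
    brT_of_suppCent hj, sub_eq_zero] at h2
  rw [h2] at h1
  have h3 := congrArg (cjRep (ResidueField R) G g⁻¹) h1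
  rw [Representation.inv_self_apply, map_zero] at h3
  exact not_inMax_of_idem h.idem h.ne (toRes_eq_zero_iff.1 h3)

/-- Let `P` be the image of `D`, `i₁`, `i₂` the truncations of `i`, `g i g⁻¹` (over the residue
field) to the centraliser of `T`; they are local points of `P` and `g P g⁻¹` (`LocPt.toRes`,
`LocPt.conj`, `LocPt.brauer`; the image of `Q` lies in `T`) with `i₁ i₂ ≠ 0` (`brT_mul`).
`LocPt.exists_trace` (with `FrSet.block_mul` and `BlockE.bound`) and `LocPt.exists_conj` give `h`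
centralising `T` such that `n = h g` normalises `P` and `i₁ c (h i₂ h⁻¹) c' = i₁`.  Truncate to the
centraliser of `P`: `j c n j ≠ 0` (`FrSet.brT_min`, `brT_cjRep`), lift `c` (`exists_lift_fixed`)
and use `FrSet.fus`, `FrSet.free`. -/
theorem FrSet.fusion (h : FrSet p ι φ e j U U') {i : CA R ι Q}
    (hi : MinI R (caD R ι Q) (caJ h.supp Q) i) {g : G} (hg : ∀ q ∈ Q, g * ι q = ι q * g)
    {S : Subgroup D} (hS : Q ≤ S) (hgS : ∀ v ∈ S, ∃ u, g * ι v = ι u * g)
    (hn : ¬ InMax R (brT R (((S.map ι).map (MulAut.conj g).toMonoidHom : Subgroup G) : Set G)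
      (i * cjRep R G g i))) :
    ∃ l, (Q ≠ ⊥ → l = 1) ∧ ∀ v ∈ S, g * ι v = ι (φ l v) * g := by
  have := h.std.split.isAlgClosed
  set T : Subgroup G := (S.map ι).map (MulAut.conj g).toMonoidHom with hTdef
  have hmem : ∀ v ∈ S, g * ι v * g⁻¹ ∈ T := fun v hv => ⟨_, ⟨v, hv, rfl⟩, rfl⟩
  have hT : T ≤ ι.range.map (MulAut.conj g).toMonoidHom :=
    Subgroup.map_mono (Subgroup.map_le_range ι S)
  have hT' : T ≤ ι.range := by
    rintro _ ⟨_, ⟨v, hv, rfl⟩, rfl⟩
    obtain ⟨u, hu⟩ := hgS v hv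
    exact ⟨u, (mul_inv_eq_iff_eq_mul.2 hu).symm⟩
  have hP := h.frset_pgroup g
  have hP₁ : IsPGroup p ι.range := by
    rw [MonoidHom.range_eq_map]
    exact (h.std.pD.to_subgroup ⊤).map ι
  have hl := (h.locPt hi).toRes
  have h₂ := h.frset_locPt hi g hT fun q hq => hmem q (hS hq)
  have h₁ : LocPt (T : Set G) ι.range (brT (ResidueField R) T (toRes R G i)) := by
    have h1 := hl.brauer h.std.prime (frset_char h.std) hP₁ hT' (by
      rintro _ ⟨u, rfl⟩ t ht
      obtain ⟨v, rfl⟩ := hT' ht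
      rw [← map_mul, mul_comm, map_mul])
    rwa [Set.union_eq_self_of_subset_left] at h1
    rintro _ ⟨q, hq, rfl⟩
    have h2 := hmem q (hS hq)
    rwa [hg q hq, mul_inv_cancel_right] at h2
  have h0 : brT (ResidueField R) T (toRes R G i) * 1 *
      brT (ResidueField R) T (cjRep (ResidueField R) G g (toRes R G i)) ≠ 0 := by
    intro h1
    refine hn (toRes_eq_zero_iff.1 ?_)
    rw [toRes_brT, map_mul, frset_toRes_cj, frset_brT_mul h.std (hP.to_le hT)
      (fun u hu => hl.fix u (hT' hu)) (fun u hu => (hl.conj g).fix u (hT hu)), ← h1, mul_one]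
  have hcard : ∀ x : G, Nat.card (ι.range.map (MulAut.conj x).toMonoidHom) = Nat.card ι.range :=
    fun x => Subgroup.card_map_of_injective (MulAut.conj x).injective
  obtain ⟨a, a', ha, ha', hf, hf', hnil⟩ := h₂.exists_trace h.std.prime (frset_char h.std)
    (suppCent_brT _ _) h.frset_cent (h.block_mul hi g hT fun q hq => hmem q (hS hq))
    fun y hy T' hT₁ hT₂ => by
      have h1 : e.coeff y ∉ maximalIdeal R := fun h2 => hy (by
        rw [coeff_brT, coeff_toRes, (residue_eq_zero_iff _).2 h2, ite_self])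
      rw [hcard, ← Nat.card_congr (MonoidHom.ofInjective h.inj).toEquiv]
      exact Nat.le_of_dvd Nat.card_pos (h.blk.bound y h1 T' hT₁ hT₂)
  obtain ⟨x, hx, hle, c, c', hc, hc', heq⟩ := h₁.exists_conj h₂ (centAlg _ _).one_mem h0 ha ha'
    hf hf' hnil
  have hfix : FixedBy (cjRep (ResidueField R) G) ι.range (cjRep (ResidueField R) G x
      (brT (ResidueField R) T (cjRep (ResidueField R) G g (toRes R G i)))) :=
    fun u hu => (h₂.conj x).fix u (hle hu)
  have e1 : (ι.range.map (MulAut.conj g).toMonoidHom).map (MulAut.conj x).toMonoidHom =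
      ι.range.map (MulAut.conj (x * g)).toMonoidHom := by
    rw [Subgroup.map_map, map_mul]
    rfl
  have e2 : ι.range = ι.range.map (MulAut.conj (x * g)).toMonoidHom :=
    Subgroup.eq_of_le_of_card_ge (e1 ▸ hle) (hcard _).le
  have hxT : ∀ t ∈ T, x * t * x⁻¹ = t := fun t ht => by
    rw [← hx t ht, mul_inv_cancel_right]
  have e3 : (fun y => x * y * x⁻¹) '' (T : Set G) = T :=
    (Set.image_congr hxT).trans (Set.image_id' _)
  have e4 : brT (ResidueField R) ι.range (cjRep (ResidueField R) G x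
      (brT (ResidueField R) T (cjRep (ResidueField R) G g (toRes R G i)))) =
      cjRep (ResidueField R) G (x * g) (toRes R G j) := by
    rw [← brT_cjRep, e3, brT_brT hT', ← Module.End.mul_apply (cjRep _ G x), ← map_mul,
      ← h.brT_min hi,
      ← brT_cjRep, ← frset_coe_conj, ← e2]
  have hm : ∀ {b b' : MonoidAlgebra (ResidueField R) G},
      FixedBy (cjRep (ResidueField R) G) ι.range b → FixedBy (cjRep (ResidueField R) G) ι.range b' →
      FixedBy (cjRep (ResidueField R) G) ι.range (b * b') := fun hb hb' u hu => by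
    rw [cjRep_mul, hb u hu, hb' u hu]
  have h1 := congrArg (brT (ResidueField R) ι.range) heq
  rw [frset_brT_mul h.std hP₁ (hm (hm h₁.fix hc) hfix) hc',
    frset_brT_mul h.std hP₁ (hm h₁.fix hc) hfix, frset_brT_mul h.std hP₁ h₁.fix hc, e4,
    brT_brT hT', h.brT_min hi] at h1
  obtain ⟨w, hw, hw', -⟩ := exists_lift_fixed (brT (ResidueField R) ι.range c)
  obtain ⟨l, hl'⟩ := h.fus (x * g) (fun u => by
      obtain ⟨v, hv⟩ : (x * g) * ι u * (x * g)⁻¹ ∈ ι.range := by
        rw [e2]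
        exact ⟨_, ⟨u, rfl⟩, rfl⟩
      exact ⟨v, by rw [hv, inv_mul_cancel_right]⟩) w (hw' _ (suppCent_brT _ _)) fun h2 => by
    have h3 := toRes_eq_zero_iff.2 h2
    rw [map_mul, map_mul, map_mul, hw, frset_toRes_single] at h3
    rw [cjRep_apply, ← mul_assoc, ← mul_assoc, h3, zero_mul, zero_mul] at h1
    exact not_inMax_of_idem h.idem h.ne (toRes_eq_zero_iff.1 h1.symm)
  have key : ∀ v ∈ S, g * ι v = ι (φ l v) * g := fun v hv => by
    rw [← mul_inv_eq_iff_eq_mul, ← hxT _ (hmem v hv), ← mul_assoc, ← mul_assoc, hl' v]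
    group
  refine ⟨l, fun hQ => ?_, key⟩
  obtain ⟨q, hq⟩ := Subgroup.ne_bot_iff_exists_ne_one.1 hQ
  have h2 := key q (hS q.2)
  rw [hg q q.2, mul_left_inj] at h2
  exact (h.free l q (h.inj h2).symm).resolve_right fun h3 => hq (Subtype.ext h3)

end Pool.Agent.Lib.MP_b6945b_al.St
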