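import Pool.Agent.Lib.MP_b6945b_al.St.FrK

set_option autoImplicit false

/-!
A block with a freely acting inertial quotient has as many characters as its Brauer correspondent.
-/

namespace Pool.Agent.Lib.MP_b6945b_al.St

open IsLocalRing
open MonoidAlgebra (single)

section defs

variable {R G : Type} [CommRing R] [IsLocalRing R] [Group G] [Fintype G]

/-- The inertial quotient of `e` acts freely on `D`. -/
def FreeB (e : MonoidAlgebra R G) (D : Subgroup G) : Prop :=
  ∀ (j : MonoidAlgebra R G) (n : G), n ∈ Subgroup.normalizer (D : Set G) → j * j = j → j ≠ 0 →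
    SuppCent (D : Set G) j → InMax R (brT R (D : Set G) (e * j - j)) →
    (∀ z, SuppCent (D : Set G) z → FixedBy (cjRep R G) (Subgroup.centralizer (D : Set G)) z →
      NilR R ((z - cjRep R G n z) * j)) →
    ∀ u ∈ D, n * u = u * n → u = 1 ∨ ∀ d ∈ D, n * d = d * n

variable {A E : Type} [CommGroup A] [Group E] [Fintype E]

/-- Source data for a block with the normal abelian defect group `A`. -/
structure SrcA (p : ℕ) (ι : A →* G) (φ : E →* MulAut A) (f j : MonoidAlgebra R G)
    (U U' : E → MonoidAlgebra R G) : Prop where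
  inj : Function.Injective ι
  idem : j * j = j
  supp : SuppCent (Set.range ι) j
  ne : j ≠ 0
  le : f * j = j
  full : InIdl (⊤ : Subring (MonoidAlgebra R G)) j f
  one : U 1 = j
  cut : ∀ l, j * U l * j = U l
  cut' : ∀ l, j * U' l * j = U' l
  inv : ∀ l, U l * U' l = j
  inv' : ∀ l, U' l * U l = j
  comm : ∀ l (x : A), U l * single (ι x) 1 = single (ι (φ l x)) 1 * U l
  mul : ∀ l m, ∃ c : MonoidAlgebra R A, U l * U m = inc R ι c * U (l * m)
  span : ∀ b, ∃ a : E → MonoidAlgebra R A, j * b * j = ∑ l, inc R ι (a l) * U l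
  indep : ∀ a : E → MonoidAlgebra R A, ∑ l, inc R ι (a l) * U l = 0 → a = 0
  card : ¬ p ∣ Fintype.card E
  spanC : ∀ b, SuppCent (Set.range ι) b → ∃ c, j * b * j = inc R ι c * j
  deg : ∀ l g, (U l).coeff g ≠ 0 → ∀ u, g * ι u = ι (φ l u) * g
  deg' : ∀ l g, (U' l).coeff g ≠ 0 → ∀ u, g * ι (φ l u) = ι u * g
  fus : ∀ (g : G) b, SuppCent (Set.range ι) b → j * b * single g 1 * j ≠ 0 →
    ∃ l, ∀ u, g * ι u = ι (φ l u) * g
  faith : ∀ l, (∀ u, φ l u = u) → l = 1
  stab : ∀ l, ∃ n : G, (∀ u, n * ι u = ι (φ l u) * n) ∧ ∀ z, SuppCent (Set.range ι) z →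
    FixedBy (cjRep R G) (Subgroup.centralizer (Set.range ι)) z → NilR R ((z - cjRep R G n z) * j)

end defs

section loc

variable {R G : Type} [CommRing R] [IsLocalRing R] [Group G] [Fintype G] {p : ℕ}

/-- If `U` has degree `n` then `U * z = cjRep n z * U` for `z` central in the group algebra of the
centraliser (`source3_supp_right`, `source3_cent`, `source3_fixed_cj`); conjugate the nilpotent
element `z j - v j` of `SrcIdem.scalar` by `U` (`source3_nil_conj`). -/
lemma SrcIdem.stab {D : Subgroup G} [Fintype D] [D.Normal] {f j c U U' : MonoidAlgebra R G}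
    (h : SrcIdem D f j c) {n : G}
    (hU : source3_Good D j (n : G ⧸ Subgroup.centralizer (D : Set G)) U U')
    {z : MonoidAlgebra R G} (hz : SuppCent (D : Set G) z)
    (hf : FixedBy (cjRep R G) (Subgroup.centralizer (D : Set G)) z) :
    NilR R ((z - cjRep R G n z) * j) := by
  obtain ⟨v, hv⟩ := h.scalar z hz
  have hjz : Commute j z := source3_cent hf h.supp
  have hjz' : Commute j (cjRep R G n z) := source3_cent (source3_fixed_cj hf n) h.supp
  have hzz : Commute z (cjRep R G n z) := source3_cent (source3_fixed_cj hf n) hz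
  have h2 := source3_nil_conj (u := U) (u' := U') hv (by
    rw [hU.inv', mul_sub, mul_smul_comm, h.idem, ← mul_assoc, ← mul_assoc, h.idem])
  have h4 := (source3_cent (source3_fixed_cj hf n) (source3_supp_right hU.deg)).eq
  have h5 : U * z = cjRep R G n z * U := by
    have h6 := congrArg (· * (single n 1 : MonoidAlgebra R G)) h4
    simp only [mul_assoc, source3_ss, mul_one] at h6
    rw [← h6, cjRep_apply]
    simp only [mul_assoc, source3_ss, mul_one]
    rw [← mul_assoc (single n⁻¹ 1), source3_ss, one_mul]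
  have h7 : U * (j * z * j - v • j) * U' = cjRep R G n z * j - v • j := by
    rw [mul_sub, sub_mul, mul_smul_comm, smul_mul_assoc, ← mul_assoc, ← mul_assoc,
      hU.right h.idem, hU.inv, mul_assoc _ j, hU.symm.left h.idem, h5, mul_assoc, hU.inv]
  rw [h7] at h2
  rw [hjz.eq, mul_assoc, h.idem] at hv
  have a1 : Commute j (cjRep R G n z * j - v • j) :=
    (hjz'.mul_right (Commute.refl j)).sub_right ((Commute.refl j).smul_right v)
  have a2 : Commute z (cjRep R G n z * j - v • j) :=
    (hzz.mul_right hjz.symm).sub_right (hjz.symm.smul_right v)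
  have h8 := hv.add (h2.mul_right (Commute.neg_one_right _).eq)
    ((((a2.mul_left a1).sub_left (a1.smul_left v))).mul_right (Commute.neg_one_right _)).eq
  have e : z * j - v • j + (cjRep R G n z * j - v • j) * -1 = (z - cjRep R G n z) * j := by
    rw [mul_neg_one, sub_mul]
    abel
  rwa [e] at h8

lemma frsrc_data {D : Subgroup G} [Fintype D] [D.Normal] (hpR : (p : R) ∈ maximalIdeal R)
    (hc : ∀ x ∈ D, ∀ y ∈ D, x * y = y * x) {f a j c : MonoidAlgebra R G} (hf : BlockF D f a)
    (h : SrcIdem D f j c) [Fintype (source3_E h)] :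
    ∃ U U' : source3_E h → MonoidAlgebra R G,
      (∀ l : source3_E h, source3_Good D j (l : G ⧸ _) (U l) (U' l)) ∧
      SrcData p D ((source3_phi D).comp (source3_E h).subtype) f j U U' := by
  classical
  have hDC : D ≤ Subgroup.centralizer (D : Set G) := fun x hx =>
    Subgroup.mem_centralizer_iff.2 fun y hy => hc y hy x hx
  have hex : ∀ l : source3_E h, ∃ U U', source3_Good D j (l : G ⧸ _) U U' ∧ (l = 1 → U = j) := by
    intro l
    by_cases hl : l = 1
    · exact ⟨j, j, hl ▸ source3_good_one h, fun _ => rfl⟩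
    · obtain ⟨U, U', hU⟩ := l.2
      exact ⟨U, U', hU, fun h0 => absurd h0 hl⟩
  choose U U' hU hU1 using hex
  have hred : ∀ (l : source3_E h) b, source3_Deg D (l : G ⧸ _) b →
      ∃ a : MonoidAlgebra R D, j * b * j = inc R D.subtype a * U l := by
    intro l b hb
    have h1 := source3_deg_mul hb (hU l).deg'
    rw [mul_inv_cancel] at h1
    obtain ⟨a, ha⟩ := h.span _ (source3_deg_one.1 h1)
    refine ⟨a, ?_⟩
    rw [← (hU l).left h.idem, ← mul_assoc, ← ha, mul_assoc _ j, (hU l).left h.idem,
      ← mul_assoc j b, mul_assoc (j * b), (hU l).inv']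
  refine ⟨U, U', hU, h.idem, h.le, ?_, hU1 1 rfl,
    fun l => (hU l).cut, fun l => (hU l).cut', fun l => (hU l).inv, fun l => (hU l).inv',
    fun l δ => source3_comm (hU l).deg δ, fun l m => ?_, fun b => ?_, fun a ha => ?_, ?_⟩
  · obtain ⟨z', -, hz⟩ := h.exists_inv hf
    obtain ⟨n, t, -, ht, hu⟩ := exists_transversal (le_top : D ≤ ⊤)
    refine ⟨n, fun i => z' * single (t i) 1, fun i => c * single (t i)⁻¹ 1, fun _ => trivial,
      fun _ => trivial, ?_⟩
    rw [← hz, rtr_eq_sum le_top (tr_fixed_of_suppCent (source3_supp_mul h.supp h.csupp)) t ht hu,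
      Finset.mul_sum]
    refine Finset.sum_congr rfl fun i _ => ?_
    simp only [cjRep_apply, mul_assoc]
  · obtain ⟨a, ha⟩ := hred (l * m) _ (source3_deg_mul (hU l).deg (hU m).deg)
    refine ⟨a, ?_⟩
    rw [← ha, ← mul_assoc, (hU l).left h.idem, mul_assoc, (hU m).right h.idem]
  · induction b using MonoidAlgebra.induction_linear with
    | zero => exact ⟨0, by simp⟩
    | add b b' hb hb' =>
      obtain ⟨a, ha⟩ := hb
      obtain ⟨a', ha'⟩ := hb'
      refine ⟨a + a', ?_⟩
      rw [mul_add, add_mul, ha, ha', ← Finset.sum_add_distrib]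
      exact Finset.sum_congr rfl fun l _ => by rw [Pi.add_apply, map_add, add_mul]
    | single y r =>
      by_cases hy : (y : G ⧸ Subgroup.centralizer (D : Set G)) ∈ source3_E h
      · obtain ⟨a, ha⟩ := hred ⟨_, hy⟩ _ (source3_deg_single y r)
        refine ⟨Pi.single ⟨_, hy⟩ a, ?_⟩
        rw [ha, Finset.sum_eq_single ⟨_, hy⟩, Pi.single_eq_same]
        · intro l _ hl
          rw [Pi.single_eq_of_ne hl, map_zero, zero_mul]
        · simp
      · exact ⟨0, by simp [source3_zero h hy (source3_deg_single y r)]⟩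
  · funext m
    have hd : ∀ l : source3_E h, source3_Deg D (l : G ⧸ _) (inc R D.subtype (a l) * U l) := by
      intro l
      have := source3_deg_mul (source3_deg_inc hDC (a l)) (hU l).deg
      rwa [one_mul] at this
    have h1 : inc R D.subtype (a m) * U m = 0 := by
      ext y
      by_contra hy
      have h2 := congrArg (coef R y) ha
      rw [map_sum, map_zero, Finset.sum_eq_single m] at h2
      · exact hy h2
      · intro l _ hl
        by_contra h3
        exact hl (Subtype.ext ((hd l y h3).symm.trans (hd m y hy)))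
      · simp
    refine h.inj _ ?_
    rw [← (hU m).inv, ← mul_assoc, h1, zero_mul]
  · exact fun hd => source3_card hpR hDC hf h hd

omit [Fintype G] in
lemma frsrc_phi {D : Subgroup G} [D.Normal] {g : G} {q : G ⧸ Subgroup.centralizer (D : Set G)}
    (hg : (g : G ⧸ Subgroup.centralizer (D : Set G)) = q) (u : D) :
    g * u = (source3_phi D q u : D) * g := by
  subst hg
  have e : ((source3_phi D (g : G ⧸ Subgroup.centralizer (D : Set G)) u : D) : G) =
      g * u * g⁻¹ := MulAut.conjNormal_apply g u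
  rw [e, inv_mul_cancel_right]

/-- Copy the proof of `SrcIdem.exists_srcData` (`E = source3_E h`,
`φ = (source3_phi D).comp (source3_E h).subtype`), with `A = D` and the commutative group structure
`{ (inferInstance : Group D) with mul_comm := .. }` as in `SrcData.good`; `source3_zero` gives
`fus`, and `j ≠ 0` follows from `SrcIdem.nn`. -/
theorem exists_srcA (hR : MonicSplit R) (hp : p.Prime) (hpR : (p : R) ∈ maximalIdeal R)
    {D : Subgroup G} [D.Normal] (hD : IsPGroup p D) (hc : ∀ x ∈ D, ∀ y ∈ D, x * y = y * x)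
    {f a : MonoidAlgebra R G} (hf : BlockF D f a) :
    ∃ (A : Type) (_ : CommGroup A) (_ : Fintype A) (E : Type) (_ : Group E) (_ : Fintype E)
      (ι : A →* G) (φ : E →* MulAut A) (j : MonoidAlgebra R G) (U U' : E → MonoidAlgebra R G),
      ι.range = D ∧ SrcA p ι φ f j U U' := by
  classical
  let _ : Fintype D := Fintype.ofFinite _
  obtain ⟨j, c, h⟩ := exists_srcIdem hR hp hpR hD hc hf
  let _ : Fintype (source3_E h) := Fintype.ofFinite _
  obtain ⟨U, U', hU, hS⟩ := frsrc_data hpR hc hf h
  have hr : Set.range D.subtype = (D : Set G) := Subtype.range_coe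
  let cg : CommGroup D :=
    { (inferInstance : Group D) with mul_comm := fun x y => Subtype.ext (hc _ x.2 _ y.2) }
  refine ⟨D, cg, inferInstance, source3_E h, inferInstance, inferInstance, D.subtype,
    (source3_phi D).comp (source3_E h).subtype, j, U, U', D.range_subtype, D.subtype_injective,
    h.idem, hr ▸ h.supp, ?_, h.le, hS.full, hS.one, hS.cut, hS.cut', hS.inv, hS.inv', hS.comm,
    hS.mul, hS.span, hS.inj, hS.card, fun b hb => h.span b (hr ▸ hb),
    fun l g hg u => frsrc_phi ((hU l).deg g hg) u, fun l g hg u => ?_, fun g b hb h0 => ?_,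
    fun l hl => ?_, fun l => ?_⟩
  · rintro rfl
    refine h.nn ?_
    rw [zero_mul, map_zero]
    exact InMax.nilR (Submodule.zero_mem _)
  · have h1 := frsrc_phi ((hU l).deg' g hg) (source3_phi D l u)
    rw [map_inv, MulAut.inv_apply_self] at h1
    exact h1
  · have h1 : (g : G ⧸ Subgroup.centralizer (D : Set G)) ∈ source3_E h := by
      by_contra h1
      have h2 := source3_deg_mul (source3_deg_one.2 (hr ▸ hb : SuppCent (D : Set G) b))
        (source3_deg_single (D := D) g (1 : R))
      rw [one_mul] at h2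
      exact h0 (by rw [mul_assoc j]; exact source3_zero h h1 h2)
    exact ⟨⟨_, h1⟩, fun u => frsrc_phi rfl u⟩
  · obtain ⟨q, hq⟩ := l
    obtain ⟨g, rfl⟩ := QuotientGroup.mk_surjective q
    refine Subtype.ext ((QuotientGroup.eq_one_iff g).2
      (Subgroup.mem_centralizer_iff.2 fun δ hδ => ?_))
    have h1 := frsrc_phi (D := D) (g := g) rfl ⟨δ, hδ⟩
    have h2 : source3_phi D (g : G ⧸ Subgroup.centralizer (D : Set G)) ⟨δ, hδ⟩ = ⟨δ, hδ⟩ := hl _
    rw [h2] at h1
    exact h1.symm
  · obtain ⟨n, hn⟩ := QuotientGroup.mk_surjective (l : G ⧸ Subgroup.centralizer (D : Set G))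
    refine ⟨n, fun u => frsrc_phi hn u, fun z hz hz' => ?_⟩
    exact h.stab (hn ▸ hU l) (hr ▸ hz) (hr ▸ hz')

variable {H : Subgroup G} [Fintype H] {A E : Type} [CommGroup A] [Fintype A] [Group E] [Fintype E]
  {ι : A →* H} {φ : E →* MulAut A} {e : MonoidAlgebra R G} {f j : MonoidAlgebra R H}
  {U U' : E → MonoidAlgebra R H}

omit [IsLocalRing R] [Fintype G] [Fintype H] in
lemma frsrc_coeff {b : MonoidAlgebra R H} {g : G} (hg : (inc R H.subtype b).coeff g ≠ 0) :
    ∃ y : H, (y : G) = g ∧ b.coeff y ≠ 0 := by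
  by_cases h : g ∈ H.subtype.range
  · obtain ⟨y, rfl⟩ := h
    exact ⟨y, rfl, by rwa [coeff_inc H.subtype_injective] at hg⟩
  · exact absurd (coeff_inc_of_notMem _ _ h) hg

omit [IsLocalRing R] [Fintype G] in
lemma frsrc_inc_inj : Function.Injective (inc R H.subtype) :=
  Function.LeftInverse.injective (pull_inc H.subtype_injective)

omit [IsLocalRing R] [Fintype G] in
lemma frsrc_pull {S : Set G} (hC : Subgroup.centralizer S ≤ H) {b : MonoidAlgebra R G}
    (hb : SuppCent S b) : inc R H.subtype (pull R H.subtype b) = b :=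
  inc_pull H.subtype_injective fun g hg =>
    ⟨⟨g, hC (Subgroup.mem_centralizer_iff.2 fun δ hδ => (hb g hg δ hδ).symm)⟩, rfl⟩

omit [IsLocalRing R] [Fintype G] [Fintype H] [Fintype A] in
lemma frsrc_inc_inc (c : MonoidAlgebra R A) :
    inc R H.subtype (inc R ι c) = inc R (H.subtype.comp ι) c := by
  induction c using MonoidAlgebra.induction_linear with
  | zero => simp
  | add b b' hb hb' => rw [map_add, map_add, map_add, hb, hb']
  | single y r => rw [inc_single, inc_single, inc_single, MonoidHom.comp_apply]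

omit [IsLocalRing R] [Fintype G] [Fintype A] in
lemma suppCent_inc {b : MonoidAlgebra R H} :
    SuppCent (Set.range (H.subtype.comp ι)) (inc R H.subtype b) ↔ SuppCent (Set.range ι) b := by
  constructor
  · rintro h x hx _ ⟨u, rfl⟩
    exact Subtype.ext (h x (by
      rwa [show (x : G) = H.subtype x from rfl, coeff_inc H.subtype_injective]) _ ⟨u, rfl⟩)
  · rintro h x hx _ ⟨u, rfl⟩
    obtain ⟨y, rfl, hy⟩ := frsrc_coeff hx
    exact congrArg Subtype.val (h y hy _ ⟨u, rfl⟩)

omit [Fintype A] in
/-- `brT_mul_right`; the truncation of `e` is congruent to the image of the truncation of `f`. -/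
lemma SrcA.below (h : SrcA p ι φ f j U U')
    (hC : Subgroup.centralizer (Set.range (H.subtype.comp ι)) ≤ H)
    (hb : ∀ x : H, (∀ u, x * ι u = ι u * x) → e.coeff x - f.coeff x ∈ maximalIdeal R) :
    InMax R (brT R (Set.range (H.subtype.comp ι))
      (e * inc R H.subtype j - inc R H.subtype j)) := by
  have e1 : e * inc R H.subtype j - inc R H.subtype j =
      (e - inc R H.subtype f) * inc R H.subtype j := by
    rw [sub_mul, ← map_mul, h.le]
  rw [e1, brT_mul_right (suppCent_inc.2 h.supp)]
  refine idem_inMax_mul_right _ (inMax_monoidAlgebra_iff.2 fun x => ?_)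
  rw [coeff_brT]
  split_ifs with hx
  · have hxH : x ∈ H := hC (Subgroup.mem_centralizer_iff.2 fun δ hδ => (hx δ hδ).symm)
    have h1 := hb ⟨x, hxH⟩ fun u => Subtype.ext (hx _ ⟨u, rfl⟩)
    rw [← coeff_inc H.subtype_injective f] at h1
    simpa using h1
  · exact Submodule.zero_mem _

/-- Elements supported on the centraliser come from `H` (`inc_pull`, `pull_cjRep`). -/
lemma SrcA.free (h : SrcA p ι φ f j U U')
    (hC : Subgroup.centralizer (Set.range (H.subtype.comp ι)) ≤ H)
    (hb : ∀ x : H, (∀ u, x * ι u = ι u * x) → e.coeff x - f.coeff x ∈ maximalIdeal R)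
    (hF : FreeB e (H.subtype.comp ι).range) : ∀ l u, φ l u = u → l = 1 ∨ u = 1 := by
  intro l u hu
  obtain ⟨n, hn, hz⟩ := h.stab l
  have h1 := hF (inc R H.subtype j) n (Subgroup.mem_normalizer_fintype (by
      rintro _ ⟨v, rfl⟩
      refine ⟨φ l v, ?_⟩
      rw [eq_mul_inv_iff_mul_eq]
      exact congrArg Subtype.val (hn v).symm))
    (by rw [← map_mul, h.idem]) (fun h0 => h.ne (frsrc_inc_inj (h0.trans (map_zero _).symm)))
    (suppCent_inc.2 h.supp) (h.below hC hb) (fun z z1 z2 => ?_) (ι u) ⟨u, rfl⟩ (by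
      have h2 := hn u
      rw [hu] at h2
      exact congrArg Subtype.val h2)
  · rcases h1 with h1 | h1
    · exact Or.inr (h.inj ((Subtype.ext h1 : ι u = 1).trans (map_one ι).symm))
    · refine Or.inl (h.faith l fun v => h.inj (mul_right_cancel (b := n) ?_))
      rw [← hn v]
      exact Subtype.ext (h1 _ ⟨v, rfl⟩)
  · have e1 := frsrc_pull hC z1
    have h2 := (hz (pull R H.subtype z) (suppCent_inc.1 (e1.symm ▸ z1)) fun g hg => by
      rw [← pull_cjRep, z2]
      refine Subgroup.mem_centralizer_iff.2 ?_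
      rintro _ ⟨v, rfl⟩
      exact congrArg Subtype.val (Subgroup.mem_centralizer_iff.1 hg _ ⟨v, rfl⟩)).map
        (inc R H.subtype)
    rw [map_mul, map_sub, cjRep_apply, map_mul, map_mul, inc_single, inc_single, e1] at h2
    exact h2

lemma SrcA.frSet (h : SrcA p ι φ f j U U') (hs : Std p R A)
    (hH : Subgroup.normalizer (Set.range (H.subtype.comp ι)) ≤ H)
    (hb : ∀ x : H, (∀ u, x * ι u = ι u * x) → e.coeff x - f.coeff x ∈ maximalIdeal R)
    (hE : BlockE p (Nat.card A) e) (hF : FreeB e (H.subtype.comp ι).range) :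
    FrSet p (H.subtype.comp ι) φ e (inc R H.subtype j) (fun l => inc R H.subtype (U l))
      fun l => inc R H.subtype (U' l) := by
  have hC : Subgroup.centralizer (Set.range (H.subtype.comp ι)) ≤ H :=
    (Subgroup.centralizer_le_normalizer _).trans hH
  refine ⟨hs, H.subtype_injective.comp h.inj, h.free hC hb hF, h.card, hE,
    by rw [← map_mul, h.idem], suppCent_inc.2 h.supp,
    fun h0 => h.ne (frsrc_inc_inj (h0.trans (map_zero _).symm)), h.below hC hb, fun b hb' => ?_,
    fun l => by rw [← map_mul, ← map_mul, h.cut], fun l => by rw [← map_mul, ← map_mul, h.cut'],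
    fun l => by rw [← map_mul, h.inv], fun l => by rw [← map_mul, h.inv'], fun l g hg u => ?_,
    fun l g hg u => ?_, fun g hg b hb' h0 => ?_⟩
  · have e1 := frsrc_pull hC hb'
    obtain ⟨c, hc⟩ := h.spanC (pull R H.subtype b) (suppCent_inc.1 (e1.symm ▸ hb'))
    exact ⟨c, by rw [← e1, ← map_mul, ← map_mul, hc, map_mul, frsrc_inc_inc]⟩
  · obtain ⟨y, rfl, hy⟩ := frsrc_coeff hg
    exact congrArg Subtype.val (h.deg l y hy u)
  · obtain ⟨y, rfl, hy⟩ := frsrc_coeff hg
    exact congrArg Subtype.val (h.deg' l y hy u)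
  · have hgH : g ∈ H := hH (Subgroup.mem_normalizer_fintype (by
      rintro _ ⟨v, rfl⟩
      obtain ⟨w, hw⟩ := hg v
      exact ⟨w, by rw [hw, mul_inv_cancel_right]⟩))
    have e1 := frsrc_pull hC hb'
    obtain ⟨l, hl⟩ := h.fus ⟨g, hgH⟩ (pull R H.subtype b) (suppCent_inc.1 (e1.symm ▸ hb'))
      fun h1 => h0 (by
        have h2 := congrArg (inc R H.subtype) h1
        rw [map_mul, map_mul, map_mul, inc_single, e1, map_zero] at h2
        exact (show _ = _ from h2) ▸ Submodule.zero_mem _)
    exact ⟨l, fun u => congrArg Subtype.val (hl u)⟩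

end loc

variable {K : Type} [Field K] {V : ValuationSubring K} {G : Type} [Group G] [Fintype G] {p : ℕ}

/-- `source4_cross`, `CrossData.finrank_centre`, `morita_finrank` as in `SrcData.good`. -/
lemma SrcA.finrank {A E : Type} [CommGroup A] [Fintype A] [Nontrivial A] [Group E] [Fintype E]
    {ι : A →* G} {φ : E →* MulAut A} {f j : MonoidAlgebra V G} {U U' : E → MonoidAlgebra V G}
    (h : SrcA p ι φ f j U U') (hf : f * f = f) (hfree : ∀ l u, φ l u = u → l = 1 ∨ u = 1) :
    Module.finrank K (Subalgebra.center K (idem_toK hf).Corner) =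
      Module.finrank K (centreModel K φ) := by
  obtain ⟨δ, u, c, hX⟩ := source4_cross (K := K) (V := V) ι φ h.idem h.one h.cut
    h.cut' h.inv h.inv' h.comm h.mul h.span h.indep
  have h10 : InIdl (GO V G) (cval K (idem_toK h.idem) 1) (cval K (idem_toK hf) 1) := by
    obtain ⟨n, a, b, -, -, e⟩ := h.full
    refine ⟨n, fun i => toK V G (a i), fun i => toK V G (b i), fun i => toK_mem _,
      fun i => toK_mem _, ?_⟩
    change toK V G f = ∑ i, toK V G (a i) * toK V G j * toK V G (b i)
    rw [e, map_sum]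
    exact Finset.sum_congr rfl fun i _ => by rw [map_mul, map_mul]
  have h01 : InIdl (GO V G) (cval K (idem_toK hf) 1) (cval K (idem_toK h.idem) 1) := by
    refine ⟨1, fun _ => 1, fun _ => toK V G j, fun _ => (GO V G).one_mem, fun _ => toK_mem _, ?_⟩
    change toK V G j = ∑ _i : Fin 1, 1 * toK V G f * toK V G j
    rw [Fin.sum_univ_one, one_mul, ← map_mul, h.le]
  have c0 := cornerEmb_cval (K := K) (idem_toK h.idem) (GO V G) (toK_mem j)
  have c1 := cornerEmb_cval (K := K) (idem_toK hf) (GO V G) (toK_mem f)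
  exact (morita_finrank c0 c1 h10 h01).trans (hX.finrank_centre hfree)

theorem finrank_eq_free [CharZero K] [IsAlgClosed K] (hp : p.Prime) (hpV : (p : K) ∈ V.nonunits)
    {D H : Subgroup G} [Fintype H] (hH : H = Subgroup.normalizer (D : Set G))
    (hD : IsPGroup p D) (hD0 : D ≠ ⊥) (hc : ∀ x ∈ D, ∀ y ∈ D, x * y = y * x)
    {e : MonoidAlgebra V G} {f a : MonoidAlgebra V H} (hE : BlockE p (Nat.card D) e)
    (hF : BlockF (D.subgroupOf H) f a)
    (hb : ∀ h : H, (∀ δ ∈ D.subgroupOf H, h * δ = δ * h) → e.coeff h - f.coeff h ∈ maximalIdeal V)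
    (hfree : FreeB e D) :
    Module.finrank K (Subalgebra.center K (idem_toK hE.idem).Corner) =
      Module.finrank K (Subalgebra.center K (idem_toK hF.idem).Corner) := by
  have hpR := natCast_mem_maximalIdeal hpV
  have hR := monicSplit_valuationSubring V
  have hDH : D ≤ H := hH ▸ Subgroup.le_normalizer
  have hN : (D.subgroupOf H).Normal := (Subgroup.normal_subgroupOf_iff_le_normalizer hDH).2 hH.le
  obtain ⟨A, _, _, E, _, _, ι, φ, j, U, U', hι, h⟩ := exists_srcA hR hp hpR
    (D := D.subgroupOf H) hD.comap_subtype (fun x hx y hy => Subtype.ext (hc _ hx _ hy)) hF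
  have hr : (H.subtype.comp ι).range = D := by
    rw [MonoidHom.range_comp, hι, Subgroup.subgroupOf_map_subtype, inf_eq_left.2 hDH]
  subst hr
  have hi : Function.Injective (H.subtype.comp ι) := H.subtype_injective.comp h.inj
  have eA := MonoidHom.ofInjective hi
  have : Nontrivial (H.subtype.comp ι).range := (Subgroup.nontrivial_iff_ne_bot _).2 hD0
  have : Nontrivial A := eA.toEquiv.nontrivial
  have hS := h.frSet ⟨hR, hp, hpR, hD.of_equiv eA.symm⟩ hH.ge
    (fun x hx => hb x (by
      rw [← hι]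
      rintro _ ⟨u, rfl⟩
      exact hx u)) (Nat.card_congr eA.toEquiv ▸ hE) hfree
  exact hS.finrank.trans (h.finrank hF.idem hS.free).symm

end Pool.Agent.Lib.MP_b6945b_al.St
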