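import Pool.Agent.Lib.MP_b6945b_al.St.PS

set_option autoImplicit false

/-!
Rational powers `(1 + Y) ^ r` of series with constant term one.
-/

namespace Pool.Agent.Lib.MP_b6945b_al.St

open PowerSeries

variable (K : Type) [Field K] [CharZero K] {A A' : Type} [CommRing A] [Algebra K A]
  [CommRing A'] [Algebra K A']

/-- `(1 + Y) ^ r`. -/
noncomputable def bpow (r : ℚ) (Y : A⟦X⟧) : A⟦X⟧ := (binomialSeries K r).subst Y

variable {K}

lemma binom_hasSubst {Y : A⟦X⟧} (hY : coeff 0 Y = 0) : HasSubst Y :=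
  HasSubst.of_constantCoeff_zero' (by rwa [← coeff_zero_eq_constantCoeff_apply])

lemma binom_ord_pow {Y : A⟦X⟧} (hY : coeff 0 Y = 0) (m : ℕ) : Ord m (Y ^ m) := by
  induction m with
  | zero => exact ord_zero _
  | succ m ih => rw [pow_succ]; exact ih.mul (ord_one_iff.2 hY)

omit [CharZero K] in
lemma binom_ord_smul {n : ℕ} {F : A⟦X⟧} (h : Ord n F) (c : K) : Ord n (c • F) :=
  fun m hm => by rw [coeff_smul, h m hm, smul_zero]

lemma bpow_zero {Y : A⟦X⟧} (hY : coeff 0 Y = 0) : bpow K 0 Y = 1 := by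
  unfold bpow
  rw [binomialSeries_zero, ← coe_substAlgHom (binom_hasSubst hY), map_one]

lemma bpow_add {Y : A⟦X⟧} (hY : coeff 0 Y = 0) (r r' : ℚ) :
    bpow K (r + r') Y = bpow K r Y * bpow K r' Y := by
  unfold bpow
  rw [binomialSeries_add, subst_mul (binom_hasSubst hY)]

lemma bpow_nat {Y : A⟦X⟧} (hY : coeff 0 Y = 0) (n : ℕ) : bpow K (n : ℚ) Y = (1 + Y) ^ n := by
  unfold bpow
  rw [binomialSeries_nat, subst_pow (binom_hasSubst hY), subst_add (binom_hasSubst hY),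
    subst_X (binom_hasSubst hY), ← coe_substAlgHom (binom_hasSubst hY), map_one]

lemma bpow_pow {Y : A⟦X⟧} (hY : coeff 0 Y = 0) (r : ℚ) (n : ℕ) :
    bpow K r Y ^ n = bpow K (n * r) Y := by
  induction n with
  | zero => simp [bpow_zero hY]
  | succ n ih => rw [pow_succ, ih, ← bpow_add hY]; congr 1; push_cast; ring

/-- Partial sums of the binomial series (`coeff_subst'`). -/
lemma bpow_approx {Y : A⟦X⟧} (hY : coeff 0 Y = 0) (r : ℚ) (n : ℕ) :
    Ord n (bpow K r Y - ∑ m ∈ Finset.range n, ((Ring.choose r m : ℚ) : K) • Y ^ m) := by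
  intro e he
  rw [map_sub, sub_eq_zero, map_sum]
  unfold bpow
  rw [coeff_subst' (binom_hasSubst hY),
    finsum_eq_sum_of_support_subset (s := Finset.range n)]
  · refine Finset.sum_congr rfl (fun m _ => ?_)
    rw [binomialSeries_coeff, coeff_smul, Rat.smul_one_eq_cast]
  · intro m hm
    by_contra h
    have hm' : n ≤ m := by simpa using h
    refine hm ?_
    change coeff m (binomialSeries K r) • coeff e (Y ^ m) = 0
    rw [binom_ord_pow hY m e (lt_of_lt_of_le he hm'), smul_zero]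

lemma coeff_zero_bpow {Y : A⟦X⟧} (hY : coeff 0 Y = 0) (r : ℚ) : coeff 0 (bpow K r Y) = 1 := by
  have h := bpow_approx (K := K) hY r 1 0 Nat.one_pos
  rw [map_sub, sub_eq_zero] at h
  rw [h]
  simp

lemma coeff_one_bpow {Y : A⟦X⟧} (hY : coeff 0 Y = 0) (r : ℚ) :
    coeff 1 (bpow K r Y) = (r : K) • coeff 1 Y := by
  have h := bpow_approx (K := K) hY r 2 1 (by norm_num)
  rw [map_sub, sub_eq_zero] at h
  rw [h]
  simp [Finset.sum_range_succ, coeff_one]

lemma bpow_ord {Y Y' : A⟦X⟧} (hY : coeff 0 Y = 0) (hY' : coeff 0 Y' = 0) (r : ℚ) {n : ℕ}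
    (h : Ord n (Y - Y')) : Ord n (bpow K r Y - bpow K r Y') := by
  have h1 := bpow_approx (K := K) hY r n
  have h2 := bpow_approx (K := K) hY' r n
  have h3 : Ord n (∑ m ∈ Finset.range n, (((Ring.choose r m : ℚ) : K) • Y ^ m -
      ((Ring.choose r m : ℚ) : K) • Y' ^ m)) := by
    refine Ord.sum (fun m _ => ?_)
    rw [← smul_sub]
    refine binom_ord_smul ?_ _
    obtain ⟨c, hc⟩ := sub_dvd_pow_sub_pow Y Y' m
    rw [hc]
    exact h.mul_right c
  have h4 := (h1.sub h2).add h3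
  rw [Finset.sum_sub_distrib] at h4
  have e : ∀ a b c d : A⟦X⟧, a - b - (c - d) + (b - d) = a - c := fun a b c d => by ring
  rwa [e] at h4

/-- Order preserving ring homomorphisms commute with rational powers (they are linear over the
rationals). -/
lemma bpow_map (Ψ : A⟦X⟧ →+* A'⟦X⟧) (hΨ : ∀ n F, Ord n F → Ord n (Ψ F)) {Y : A⟦X⟧}
    (hY : coeff 0 Y = 0) (r : ℚ) : Ψ (bpow K r Y) = bpow K r (Ψ Y) := by
  have hY' : coeff 0 (Ψ Y) = 0 := ord_one_iff.1 (hΨ 1 Y (ord_one_iff.2 hY))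
  rw [← sub_eq_zero]
  refine eq_zero_of_ord (fun n => ?_)
  have h1 := hΨ n _ (bpow_approx (K := K) hY r n)
  have h2 := bpow_approx (K := K) hY' r n
  rw [map_sub, map_sum] at h1
  have e : ∀ m : ℕ, Ψ (((Ring.choose r m : ℚ) : K) • Y ^ m) =
      ((Ring.choose r m : ℚ) : K) • (Ψ Y) ^ m := fun m => by
    rw [map_ratCast_smul Ψ K K, map_pow]
  simp only [e] at h1
  have h3 := h1.sub h2
  rwa [sub_sub_sub_cancel_right] at h3

lemma bpow_mem (W : AddSubgroup A⟦X⟧) (hW : Closed (W : Set A⟦X⟧)) {Y : A⟦X⟧}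
    (hY : coeff 0 Y = 0) (r : ℚ) (h : ∀ m, ((Ring.choose r m : ℚ) : K) • Y ^ m ∈ W) :
    bpow K r Y ∈ W := by
  exact hW _ (fun n => ⟨_, W.sum_mem (fun m _ => h m), bpow_approx hY r n⟩)

/-- `p ^ m * m ! * choose (a / p) m` is an integer (`Ring.descPochhammer_eq_factorial_smul_choose`:
it is the product of the `a - i p`). -/
lemma choose_div_int (p : ℕ) (hp : p ≠ 0) (a : ℤ) (m : ℕ) :
    ∃ z : ℤ, (p : ℚ) ^ m * (m.factorial : ℚ) * Ring.choose ((a : ℚ) / p) m = z := by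
  have hp' : (p : ℚ) ≠ 0 := Nat.cast_ne_zero.2 hp
  have key : ∀ m : ℕ, ∃ z : ℤ,
      (p : ℚ) ^ m * (descPochhammer ℤ m).smeval ((a : ℚ) / p) = z := by
    intro m
    induction m with
    | zero => exact ⟨1, by simp⟩
    | succ m ih =>
      obtain ⟨z, hz⟩ := ih
      refine ⟨z * (a - m * p), ?_⟩
      rw [descPochhammer_succ_right, Polynomial.smeval_mul, Polynomial.smeval_sub,
        Polynomial.smeval_X, Polynomial.smeval_natCast]
      push_cast
      rw [← hz]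
      simp only [pow_one, pow_zero, nsmul_eq_mul, mul_one]
      field_simp
      ring
  obtain ⟨z, hz⟩ := key m
  refine ⟨z, ?_⟩
  rw [← hz, Ring.descPochhammer_eq_factorial_smul_choose, nsmul_eq_mul, mul_assoc]

include K in
/-- Roots of series with constant term one. -/
lemma exists_root {U : A⟦X⟧} (hU : coeff 0 U = 1) {n : ℕ} (hn : n ≠ 0) :
    ∃ a : A⟦X⟧, coeff 0 a = 1 ∧ a ^ n = U := by
  have hY : coeff 0 (U - 1) = 0 := by rw [map_sub, hU]; simp
  refine ⟨bpow K ((n : ℚ)⁻¹) (U - 1), coeff_zero_bpow hY _, ?_⟩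
  rw [bpow_pow hY, mul_inv_cancel₀ (Nat.cast_ne_zero.2 hn)]
  have h := bpow_nat (K := K) hY 1
  rw [Nat.cast_one] at h
  rw [h]
  ring

end Pool.Agent.Lib.MP_b6945b_al.St
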