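import Pool.Agent.Lib.MP_b6945b_al.FinalB
import Pool.Agent.Lib.MP_b6945b_al.St.Source4

set_option autoImplicit false

/-!
Block idempotents over a valuation ring of the complex numbers.
-/

namespace Pool.Agent.Lib.MP_b6945b_al.St

open IsLocalRing Finset
open MonoidAlgebra (single)

variable {G : Type} [Group G] [Fintype G] {V : ValuationSubring ℂ} {p : ℕ}

/-- The coefficients as a complex function. -/
noncomputable def cf (b : MonoidAlgebra V G) (g : G) : ℂ := (b.coeff g : ℂ)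

omit [Group G] [Fintype G] in
lemma cf_mem (b : MonoidAlgebra V G) (g : G) : cf b g ∈ V := (b.coeff g).2

omit [Group G] in
lemma exists_cf {z : G → ℂ} (hz : ∀ g, z g ∈ V) : ∃ b : MonoidAlgebra V G, cf b = z := by
  exact ⟨MonoidAlgebra.ofCoeff (Finsupp.equivFunOnFinite.symm fun g => (⟨z g, hz g⟩ : V)), rfl⟩

omit [Group G] [Fintype G] in
lemma cf_injective : Function.Injective (cf : MonoidAlgebra V G → G → ℂ) := by
  intro a b h
  ext g
  exact congrFun h g

lemma cf_mul (a b : MonoidAlgebra V G) : cf (a * b) = conv (cf a) (cf b) := by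
  ext x
  simp only [cf, conv, coeff_mul_fin, AddSubmonoidClass.coe_finsetSum, MulMemClass.coe_mul]

lemma blkE_cent_iff {R : Type} [CommRing R] {z : MonoidAlgebra R G} :
    IsCF (fun g => z.coeff g) ↔ ∀ b, z * b = b * z := by
  constructor
  · intro h b
    ext x
    rw [coeff_mul_fin, coeff_mul_fin, ← Equiv.sum_comp ((Equiv.inv G).trans (Equiv.mulLeft x))]
    refine Finset.sum_congr rfl fun y _ => ?_
    change z.coeff (x * y⁻¹) * b.coeff ((x * y⁻¹)⁻¹ * x) = _
    rw [mul_inv_rev, inv_inv, inv_mul_cancel_right, mul_comm, h.comm x y⁻¹]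
  · intro h u g
    have e := congrArg (fun a : MonoidAlgebra R G => a.coeff (u * g)) (h (single u 1))
    simpa [MonoidAlgebra.coeff_mul_single_apply, MonoidAlgebra.coeff_single_mul_apply] using e

lemma isCF_cf_iff {z : MonoidAlgebra V G} : IsCF (cf z) ↔ ∀ b, z * b = b * z := by
  rw [← blkE_cent_iff]
  exact ⟨fun h u g => Subtype.ext (h u g), fun h u g => congrArg Subtype.val (h u g)⟩

omit [Group G] [Fintype G] in
lemma cf_mem_nonunits_iff {b : MonoidAlgebra V G} {g : G} :
    cf b g ∈ V.nonunits ↔ b.coeff g ∈ maximalIdeal V := by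
  exact ValuationSubring.coe_mem_nonunits_iff

omit [Fintype G] in
lemma blkE_inMax_iff {z : MonoidAlgebra V G} : InMax V z ↔ ∀ g, cf z g ∈ V.nonunits := by
  rw [← toRes_eq_zero_iff]
  simp only [cf_mem_nonunits_iff, ← residue_eq_zero_iff, ← coeff_toRes]
  exact ⟨fun h g => by rw [h]; rfl, fun h => by ext g; exact h g⟩

omit [Fintype G] in
lemma blkE_cf_one : cf (1 : MonoidAlgebra V G) = ind (· = 1) := by
  classical
  ext g
  by_cases e : g = 1
  · rw [ind_pos (S := (· = 1)) e, e]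
    simp [cf, MonoidAlgebra.one_def]
  · rw [ind_neg (S := (· = 1)) e]
    simp [cf, MonoidAlgebra.one_def, Ne.symm e]

lemma blkE_cf_pow (I : IrrData G) {z : MonoidAlgebra V G} (hz : ∀ b, z * b = b * z) (n : ℕ) :
    cf (z ^ n) = I.zf ((fun j => I.om j (cf z)) ^ n) := by
  induction n with
  | zero => rw [pow_zero, pow_zero, blkE_cf_one, I.zf_one]
  | succ n ih => rw [pow_succ, pow_succ, cf_mul, I.zf_mul, ih, I.zf_om (isCF_cf_iff.2 hz)]

lemma blkE_bl_self (I : IrrData G) (i : Fin I.n) : I.Bl V i i := fun a _ => by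
  rw [sub_self]
  exact zero_mem _

/-- `e` is the idempotent of the block of `i`. -/
def IsBlockIdem (I : IrrData G) (i : Fin I.n) (e : MonoidAlgebra V G) : Prop :=
  cf e = I.zf (ind (I.Bl V i))

/-- `IrrData.exists_idem` with `x = 1`. -/
lemma exists_blockIdem (I : IrrData G) (i : Fin I.n) :
    ∃ e : MonoidAlgebra V G, IsBlockIdem I i e := by
  obtain ⟨c, hc, h⟩ := I.exists_idem (V := V) i (x := 1) (one_mem _) (one_not_mem_nonunits V)
  rw [one_mul] at h
  rw [h] at hc
  exact exists_cf hc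

/-- A central element all of whose central characters are nonunits is nilpotent modulo the
maximal ideal: `∏ j, (z - om j z) = 0`. -/
lemma nilR_of_om (I : IrrData G) {z : MonoidAlgebra V G} (hz : ∀ b, z * b = b * z)
    (h : ∀ j, I.om j (cf z) ∈ V.nonunits) : NilR V z := by
  classical
  obtain ⟨a, ha⟩ : ∃ a : Fin I.n → ℂ, a = fun j => I.om j (cf z) := ⟨_, rfl⟩
  have haL : a ∈ I.Lam V := ha ▸ I.om_mem_Lam (isCF_cf_iff.2 hz) (cf_mem z)
  have han : ∀ j, a j ∈ V.nonunits := ha ▸ h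
  have key : ∀ s : Finset (Fin I.n), ∀ g,
      I.zf (a ^ s.card - ∏ j ∈ s, (a - a j • (1 : Fin I.n → ℂ))) g ∈ V.nonunits := by
    intro s
    induction s using Finset.induction_on with
    | empty =>
      intro g
      simp [IrrData.zf]
    | insert j s hj ih =>
      intro g
      have hP : ∏ j ∈ s, (a - a j • (1 : Fin I.n → ℂ)) ∈ I.Lam V := prod_mem fun k _ =>
        sub_mem haL (I.smul_mem_Lam (I.apply_mem haL k) (one_mem _))
      have e : a ^ (insert j s).card - ∏ k ∈ insert j s, (a - a k • (1 : Fin I.n → ℂ)) =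
          (a ^ s.card - ∏ k ∈ s, (a - a k • (1 : Fin I.n → ℂ))) * a +
            a j • ∏ k ∈ s, (a - a k • (1 : Fin I.n → ℂ)) := by
        rw [Finset.card_insert_of_notMem hj, Finset.prod_insert hj, sub_mul, sub_mul,
          smul_mul_assoc, one_mul, pow_succ]
        ring
      rw [e, I.zf_add, I.zf_mul, I.zf_smul]
      exact add_mem (sum_mem fun y _ => mul_mem_nonunits (ih y) (haL _))
        (mul_mem_nonunits (han j) (hP g))
  have h0 : ∏ j, (a - a j • (1 : Fin I.n → ℂ)) = 0 := by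
    ext k
    rw [Finset.prod_apply]
    exact Finset.prod_eq_zero (Finset.mem_univ k) (by simp)
  refine ⟨(univ : Finset (Fin I.n)).card, blkE_inMax_iff.2 fun g => ?_⟩
  have := key univ g
  rw [h0, sub_zero] at this
  rw [blkE_cf_pow I hz, ← ha]
  exact this

/-- Conversely (`om_conv`, `om_mem_nonunits`). -/
lemma om_of_nilR (I : IrrData G) {z : MonoidAlgebra V G} (hz : ∀ b, z * b = b * z)
    (h : NilR V z) (j : Fin I.n) : I.om j (cf z) ∈ V.nonunits := by
  obtain ⟨n, hn⟩ := h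
  have h1 := blkE_inMax_iff.1 hn
  rw [blkE_cf_pow I hz] at h1
  have h2 := I.om_mem_nonunits j (I.zf_cf _) h1
  rw [I.om_zf, Pi.pow_apply] at h2
  by_contra h3
  revert h2
  clear h1 hn
  induction n with
  | zero => exact fun h => one_not_mem_nonunits V (by simpa using h)
  | succ n ih =>
    rw [pow_succ]
    exact mul_not_mem_nonunits ih h3

lemma blkE_om_mul {I : IrrData G} {i : Fin I.n} {e : MonoidAlgebra V G} (h : IsBlockIdem I i e)
    {z : MonoidAlgebra V G} (hz : IsCF (cf z)) (j : Fin I.n) :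
    I.om j (cf (z * e)) = I.om j (cf z) * ind (I.Bl V i) j := by
  rw [cf_mul, h, I.om_conv j hz (I.zf_cf _), I.om_zf]

lemma blkE_ind_mul {α : Type} (S : α → Prop) : ind S * ind S = ind S := by
  ext j
  by_cases e : S j
  · rw [Pi.mul_apply, ind_pos e, mul_one]
  · rw [Pi.mul_apply, ind_neg e, mul_zero]

lemma IsBlockIdem.isBlock {I : IrrData G} {i : Fin I.n} {e : MonoidAlgebra V G}
    (h : IsBlockIdem I i e) : IsBlock e := by
  have hc : ∀ b, e * b = b * e := isCF_cf_iff.1 (h ▸ I.zf_cf _)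
  refine ⟨cf_injective ?_, hc, fun h0 => ?_, fun z hz => ?_⟩
  · rw [cf_mul, h, ← I.zf_mul, blkE_ind_mul]
  · have h1 := I.om_zf (ind (I.Bl V i)) i
    rw [← h, h0, ind_pos (blkE_bl_self I i)] at h1
    simp [IrrData.om, cf] at h1
  · have hz' := isCF_cf_iff.2 hz
    refine ⟨⟨I.om i (cf z), I.om_mem i hz' (cf_mem z)⟩, nilR_of_om I (fun b => ?_) fun j => ?_⟩
    · rw [sub_mul, mul_sub, smul_mul_assoc, mul_smul_comm, hc b, mul_assoc, hc b, ← mul_assoc,
        hz b, mul_assoc]
    · have e1 : cf (z * e - (⟨I.om i (cf z), I.om_mem i hz' (cf_mem z)⟩ : V) • e) =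
          cf (z * e) - I.om i (cf z) • cf e := by
        ext g
        rfl
      rw [e1, I.om_sub, I.om_smul, blkE_om_mul h hz', h, I.om_zf, ← sub_mul]
      by_cases hj : I.Bl V i j
      · rw [ind_pos hj, mul_one]
        exact hj _ (I.om_mem_Lam hz' (cf_mem z))
      · rw [ind_neg hj, mul_zero]
        exact zero_mem _

lemma blkE_coeff_mul (a b : MonoidAlgebra ℂ G) :
    (fun g => (a * b).coeff g) = conv (fun g => a.coeff g) fun g => b.coeff g := by
  ext x
  exact coeff_mul_fin a b x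

open Classical in
/-- The centre of the corner is isomorphic to the functions on the block:
`z ↦ (j ↦ om j z)` with inverse `zf` of the extension by zero. -/
theorem IsBlockIdem.finrank {I : IrrData G} {i : Fin I.n} {e : MonoidAlgebra V G}
    (h : IsBlockIdem I i e) (he : IsIdempotentElem (toK V G e)) :
    Module.finrank ℂ (Subalgebra.center ℂ he.Corner) = (univ.filter (I.Bl V i)).card := by
  have hE : (fun g => (toK V G e).coeff g) = I.zf (ind (I.Bl V i)) := by
    rw [← h]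
    ext g
    exact coeff_toK V e g
  have hEc : ∀ b, toK V G e * b = b * toK V G e := blkE_cent_iff.1 (hE ▸ I.zf_cf _)
  let Φ : Subalgebra.center ℂ he.Corner →ₗ[ℂ] ({j // I.Bl V i j} → ℂ) :=
    { toFun := fun z j => I.om j.1 fun g => z.1.1.coeff g
      map_add' := fun z w => funext fun j => I.om_add j.1 _ _
      map_smul' := fun c z => funext fun j => I.om_smul j.1 c _ }
  have hinj : Function.Injective Φ := by
    rw [injective_iff_map_eq_zero]
    intro z hz
    have hc : ∀ b, z.1.1 * b = b * z.1.1 := by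
      intro b
      have e1 : toK V G e * b * toK V G e * z.1.1 = z.1.1 * (toK V G e * b * toK V G e) :=
        congrArg Subtype.val (Subalgebra.mem_center_iff.1 z.2 (cmk he b))
      rw [mul_assoc (toK V G e * b), corner_left, hEc b, mul_assoc b, corner_left, mul_assoc b,
        he.eq, ← hEc b, ← mul_assoc, corner_right] at e1
      exact e1.symm
    have hcf := blkE_cent_iff.2 hc
    have h0 : (fun j => I.om j fun g => z.1.1.coeff g) = 0 := by
      ext j
      by_cases hj : I.Bl V i j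
      · exact congrFun hz ⟨j, hj⟩
      · rw [← corner_left he z.1, blkE_coeff_mul, hE, I.om_conv j (I.zf_cf _) hcf, I.om_zf,
          ind_neg hj, zero_mul]
        rfl
    have h1 := I.zf_om hcf
    rw [h0] at h1
    refine Subtype.ext (Subtype.ext ?_)
    ext g
    have h2 := congrFun h1 g
    simp only [IrrData.zf, Pi.zero_apply, zero_mul, Finset.sum_const_zero] at h2
    exact h2.symm
  have hsurj : Function.Surjective Φ := by
    intro a
    obtain ⟨a', ha'⟩ : ∃ a' : Fin I.n → ℂ,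
        a' = fun j => if hj : I.Bl V i j then a ⟨j, hj⟩ else 0 := ⟨_, rfl⟩
    obtain ⟨x, hx⟩ : ∃ x : MonoidAlgebra ℂ G, (fun g => x.coeff g) = I.zf a' :=
      ⟨MonoidAlgebra.ofCoeff (Finsupp.equivFunOnFinite.symm (I.zf a')), rfl⟩
    have hxc : ∀ b, x * b = b * x := blkE_cent_iff.1 (hx ▸ I.zf_cf _)
    have hEx : toK V G e * x = x := by
      have e1 : ind (I.Bl V i) * a' = a' := by
        ext j
        by_cases hj : I.Bl V i j
        · rw [Pi.mul_apply, ind_pos hj, one_mul]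
        · rw [Pi.mul_apply, ind_neg hj, zero_mul, ha']
          simp only [dif_neg hj]
      have e2 := blkE_coeff_mul (toK V G e) x
      rw [hE, hx, ← I.zf_mul, e1, ← hx] at e2
      ext g
      exact congrFun e2 g
    refine ⟨⟨⟨x, (Subsemigroup.mem_corner_iff he).mpr ⟨hEx, by rw [hxc, hEx]⟩⟩,
      Subalgebra.mem_center_iff.2 fun b => Subtype.ext (hxc b.1).symm⟩, funext fun j => ?_⟩
    change I.om j.1 (fun g => x.coeff g) = a j
    rw [hx, I.om_zf, ha']
    exact dif_pos j.2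
  rw [(LinearEquiv.ofBijective Φ ⟨hinj, hsurj⟩).finrank_eq, Module.finrank_fintype_fun_eq_card,
    Fintype.card_subtype]

variable (V) in
/-- `D` is a defect group of the block of `i`. -/
structure DefV (p : ℕ) (I : IrrData G) (i : Fin I.n) (D : Subgroup G) : Prop where
  pD : IsPGroup p D
  ex : ∃ x, I.om i (ind (IsConj x)) ∉ V.nonunits ∧ (∀ δ ∈ D, δ * x = x * δ) ∧
    ∀ S : Subgroup G, IsPGroup p S → (∀ s ∈ S, s * x = x * s) → ∃ c, ∀ s ∈ S, c⁻¹ * s * c ∈ D
  dvd : ∀ y, I.om i (ind (IsConj y)) ∉ V.nonunits →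
    Nat.card D ∣ Nat.card (Subgroup.centralizer {y})

/-- `omega_eq`, `om_ind_int` and Sylow's theorems. -/
lemma defV_of_isDefectGroup [Fact p.Prime] {M : Ideal (integralClosure ℤ ℂ)}
    (hV : ∀ a : ℂ, IsIntegral ℤ a → (InIdeal M a ↔ a ∈ V.nonunits)) (I : IrrData G)
    (i : Fin I.n) {D : Subgroup G} (h : IsDefectGroup p M (I.χ i) D) : DefV V p I i D := by
  have hint : ∀ x, IsIntegral ℤ (I.om i (ind (IsConj x))) := fun x =>
    I.om_ind_int i _ (isConj_conj_iff x)
  obtain ⟨⟨x, hx, P, rfl⟩, hmin⟩ := h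
  rw [omega_eq, hV _ (hint x)] at hx
  refine ⟨P.isPGroup'.map _, ⟨x, hx, ?_, fun S hS hSx => ?_⟩,
    fun y hy => hmin y (by rwa [omega_eq, hV _ (hint y)])⟩
  · rintro _ ⟨δ, -, rfl⟩
    exact Subgroup.mem_centralizer_singleton_iff.1 δ.2
  · obtain ⟨Q, hQ⟩ := (hS.comap_subtype (K := Subgroup.centralizer {x})).exists_le_sylow
    obtain ⟨c, hc⟩ := MulAction.exists_smul_eq (Subgroup.centralizer {x}) Q P
    refine ⟨(c : G)⁻¹, fun s hs => ?_⟩
    have h1 : s ∈ Subgroup.centralizer {x} := Subgroup.mem_centralizer_singleton_iff.2 (hSx s hs)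
    have h2 : (⟨s, h1⟩ : Subgroup.centralizer {x}) ∈ Q := hQ hs
    refine ⟨c * ⟨s, h1⟩ * c⁻¹, ?_, by simp⟩
    rw [← hc]
    exact Subgroup.smul_mem_pointwise_smul _ (MulAut.conj c) _ h2

/-- If the coefficient of `e` at `y` is a unit, every `p`-subgroup centralising `y` is conjugate
into `D` (`exists_idem` for the class sum of `x`, `zf_class_mul`). -/
lemma DefV.conj_of_coeff [Fact p.Prime] (hp : (p : ℂ) ∈ V.nonunits) {I : IrrData G}
    {i : Fin I.n} {D : Subgroup G} (hD : DefV V p I i D) {e : MonoidAlgebra V G}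
    (he : IsBlockIdem I i e) {y : G} (hy : e.coeff y ∉ maximalIdeal V) {S : Subgroup G}
    (hS : IsPGroup p S) (hc : ∀ s ∈ S, s * y = y * s) : ∃ c, ∀ s ∈ S, c⁻¹ * s * c ∈ D := by
  obtain ⟨x, hx, -, hS'⟩ := hD.ex
  obtain ⟨c, hcL, hxc⟩ := I.exists_idem i (x := fun j => I.om j (ind (IsConj x)))
    (I.om_mem_Lam (isCF_ind (isConj_conj_iff x)) (ind_mem V _)) hx
  have h1 : ∃ y', IsConj x y' ∧ ∀ s ∈ S, s * y' = y' * s := by
    by_contra hno
    have := I.zf_class_mul hp x hcL y S hS hc fun y' h h' => hno ⟨y', h, h'⟩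
    rw [hxc, ← he] at this
    exact hy (cf_mem_nonunits_iff.1 this)
  obtain ⟨y', h2, h3⟩ := h1
  obtain ⟨g, rfl⟩ := isConj_iff.1 h2
  obtain ⟨c', hc'⟩ := hS' (S.map (MulAut.conj g⁻¹).toMonoidHom) (hS.map _) (by
    rintro _ ⟨s, hs, rfl⟩
    change g⁻¹ * s * g⁻¹⁻¹ * x = x * (g⁻¹ * s * g⁻¹⁻¹)
    calc g⁻¹ * s * g⁻¹⁻¹ * x = g⁻¹ * (s * (g * x * g⁻¹)) * g := by group
      _ = g⁻¹ * (g * x * g⁻¹ * s) * g := by rw [h3 s hs]
      _ = x * (g⁻¹ * s * g⁻¹⁻¹) := by group)
  refine ⟨g * c', fun s hs => ?_⟩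
  have h4 : c'⁻¹ * (g⁻¹ * s * g⁻¹⁻¹) * c' ∈ D := hc' _ ⟨s, hs, rfl⟩
  have e : (g * c')⁻¹ * s * (g * c') = c'⁻¹ * (g⁻¹ * s * g⁻¹⁻¹) * c' := by group
  rw [e]
  exact h4

lemma blkE_cf_tr (b : MonoidAlgebra V G) (y : G) :
    cf (∑ g : G, single g 1 * b * single g⁻¹ 1) y = ∑ g : G, cf b (g⁻¹ * y * g) := by
  have h1 : (∑ g : G, single g 1 * b * single g⁻¹ 1 : MonoidAlgebra V G).coeff y =
      ∑ g : G, b.coeff (g⁻¹ * y * g) := by
    refine (map_sum (coef V y) _ _).trans (Finset.sum_congr rfl fun g _ => ?_)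
    rw [mul_assoc]
    exact coeff_cjRep g y b
  unfold cf
  rw [h1, AddSubmonoidClass.coe_finsetSum]

lemma blkE_sum_conj [Fact p.Prime] (hp : (p : ℂ) ∈ V.nonunits) {f : G → ℂ} (hf : ∀ g, f g ∈ V)
    {y : G} (hy : p ∣ Nat.card (Subgroup.centralizer {y})) :
    ∑ g : G, f (g⁻¹ * y * g) ∈ V.nonunits := by
  obtain ⟨u, hu⟩ := exists_prime_orderOf_dvd_card' p hy
  have h1 : (u : G) ^ p ^ 1 = 1 := by
    rw [pow_one, ← hu, ← Subgroup.coe_pow, pow_orderOf_eq_one, Subgroup.coe_one]
  have hle : Subgroup.zpowers (u : G) ≤ Subgroup.centralizer {y} := Subgroup.zpowers_le.2 u.2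
  refine sum_mem_of_pgroup (Γ := Subgroup.zpowers (u : G)) (IsPElt.isPGroup ⟨1, h1⟩) _
    (fun c g => ?_) V.nonunits.toAddSubgroup (fun g => ?_) fun g hg => ?_
  · have e : (c : G) * y = y * c := Subgroup.mem_centralizer_singleton_iff.1 (hle c.2)
    change f (((c : G) * g)⁻¹ * y * (c * g)) = _
    refine congrArg f ?_
    calc ((c : G) * g)⁻¹ * y * (c * g) = g⁻¹ * (c : G)⁻¹ * (y * c) * g := by group
      _ = g⁻¹ * y * g := by rw [← e]; group
  · rw [nsmul_eq_mul]
    exact mul_mem_nonunits hp (hf _)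
  · have e : (u : G) * g = g := hg ⟨u, Subgroup.mem_zpowers _⟩
    have e1 : u = 1 := Subtype.ext (mul_eq_right.1 e)
    rw [e1, orderOf_one] at hu
    exact absurd hu (Fact.out : p.Prime).one_lt.ne

/-- For `tr`: the coefficients of `∑ g, g b g⁻¹` at `y` are multiples of the order of the
centraliser of `y`; use `om_decomp`, `dvd` and `nilR_of_om`. -/
theorem DefV.blockE [Fact p.Prime] (hp : (p : ℂ) ∈ V.nonunits) {I : IrrData G} {i : Fin I.n}
    {D : Subgroup G} (hD : DefV V p I i D) (hD0 : D ≠ ⊥) {e : MonoidAlgebra V G}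
    (he : IsBlockIdem I i e) : BlockE p (Nat.card D) e := by
  refine ⟨he.isBlock, fun y hy S hS hc => ?_, fun b => ?_⟩
  · obtain ⟨c, hc'⟩ := hD.conj_of_coeff hp he hy hS hc
    rw [← Subgroup.card_map_of_injective (K := S) (f := (MulAut.conj c⁻¹).toMonoidHom)
      (MulAut.conj c⁻¹).injective]
    refine Subgroup.card_dvd_of_le ?_
    rintro _ ⟨s, hs, rfl⟩
    change c⁻¹ * s * c⁻¹⁻¹ ∈ D
    rw [inv_inv]
    exact hc' s hs
  · obtain ⟨t, ht⟩ : ∃ t : MonoidAlgebra V G, t = ∑ g : G, single g 1 * b * single g⁻¹ 1 :=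
      ⟨_, rfl⟩
    have ht' : ∀ y, cf t y = ∑ g : G, cf b (g⁻¹ * y * g) := ht ▸ blkE_cf_tr b
    rw [← ht]
    have hcf : IsCF (cf t) := by
      intro u y
      rw [ht', ht', ← Equiv.sum_comp (Equiv.mulLeft u)]
      refine Finset.sum_congr rfl fun g _ => congrArg (cf b) ?_
      rw [Equiv.coe_mulLeft]
      group
    have hpD : p ∣ Nat.card D := hD.pD.card_eq_or_dvd.resolve_left
      fun e => hD0 (Subgroup.eq_bot_of_card_eq _ e)
    have hi : I.om i (cf t) ∈ V.nonunits := by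
      let _ : Fintype (ConjClasses G) := Fintype.ofFinite _
      rw [I.om_decomp i hcf]
      refine sum_mem fun K _ => ?_
      by_cases e : I.om i (ind (IsConj K.out)) ∈ V.nonunits
      · rw [mul_comm]
        exact mul_mem_nonunits e (cf_mem t _)
      · refine mul_mem_nonunits ?_ (mem_of_isIntegral V (I.om_ind_int i _ (isConj_conj_iff _)))
        rw [ht']
        exact blkE_sum_conj hp (cf_mem b) (hpD.trans (hD.dvd _ e))
    have hc := he.isBlock.cent
    have htc := isCF_cf_iff.1 hcf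
    refine nilR_of_om I (fun x => ?_) fun j => ?_
    · rw [mul_assoc, htc x, ← mul_assoc, hc x, mul_assoc]
    · rw [hc t, blkE_om_mul he hcf]
      by_cases hj : I.Bl V i j
      · have := add_mem (hj _ (I.om_mem_Lam hcf (cf_mem t))) hi
        rw [sub_add_cancel] at this
        rw [ind_pos hj, mul_one]
        exact this
      · rw [ind_neg hj, mul_zero]
        exact zero_mem _

variable (V) in
/-- The block of `j` induces the block of `i`. -/
def IndV (I : IrrData G) (i : Fin I.n) {L : Subgroup G} [Fintype L] (I' : IrrData L)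
    (j : Fin I'.n) : Prop :=
  ∀ x, I'.om j (res L (ind (IsConj x))) - I.om i (ind (IsConj x)) ∈ V.nonunits

open Classical in
/-- As in the proof of `final_block` (`card_irr`, `omega_eq`). -/
lemma kInd_eq_card {M : Ideal (integralClosure ℤ ℂ)}
    (hV : ∀ a : ℂ, IsIntegral ℤ a → (InIdeal M a ↔ a ∈ V.nonunits)) (I : IrrData G)
    (i : Fin I.n) (L : Subgroup G) [Fintype L] (I' : IrrData L) :
    kInd M (I.χ i) L = (univ.filter (IndV V I i I')).card := by
  have hint : ∀ x, IsIntegral ℤ (I.om i (ind (IsConj x))) := fun x =>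
    I.om_ind_int i _ (isConj_conj_iff x)
  have h1 := I'.card_irr (fun _ ψ => ∀ x : G,
    InIdeal M (omega ψ {h : L | IsConj x (h : G)} - omega (I.χ i) {g | IsConj x g}))
  unfold kInd
  rw [Nat.card_congr (Equiv.subtypeEquivRight (fun ψ => ?_)), h1]
  · refine congrArg Finset.card (Finset.ext fun j => ?_)
    simp only [Finset.mem_filter, Finset.mem_univ, true_and]
    refine forall_congr' (fun x => ?_)
    rw [omega_eq, omega_eq, hV _ ((I'.om_ind_int j _ (fun h g => isConj_conj_iff x h g)).sub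
      (hint x))]
    rfl
  · exact ⟨fun ⟨⟨n, ρ, h1, h2, h3⟩, h4⟩ => ⟨n, ρ, h1, h4, h2, h3⟩,
      fun ⟨n, ρ, h1, h4, h2, h3⟩ => ⟨⟨n, ρ, h1, h2, h3⟩, h4⟩⟩

open Classical in
/-- Transport characters along `Subgroup.topEquiv` (`IsIrrChar.comp`, `omega_comp`, `bl_iff`). -/
lemma kInd_top_eq_card {M : Ideal (integralClosure ℤ ℂ)}
    (hV : ∀ a : ℂ, IsIntegral ℤ a → (InIdeal M a ↔ a ∈ V.nonunits)) (I : IrrData G)
    (i : Fin I.n) : kInd M (I.χ i) ⊤ = (univ.filter (I.Bl V i)).card := by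
  have hint : ∀ j x, IsIntegral ℤ (I.om j (ind (IsConj x))) := fun j x =>
    I.om_ind_int j _ (isConj_conj_iff x)
  have h1 := I.card_irr (fun _ ψ => ∀ x : G,
    InIdeal M (omega ψ {g | IsConj x g} - omega (I.χ i) {g | IsConj x g}))
  have h2 : kInd M (I.χ i) ⊤ = Nat.card {ψ : G → ℂ // IsIrrChar ψ ∧ ∀ x : G,
      InIdeal M (omega ψ {g | IsConj x g} - omega (I.χ i) {g | IsConj x g})} := by
    refine Nat.card_congr
      { toFun := fun ψ => ⟨ψ.1 ∘ Subgroup.topEquiv.symm, ψ.2.1.comp _, fun x => ?_⟩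
        invFun := fun ψ => ⟨ψ.1 ∘ Subgroup.topEquiv, ψ.2.1.comp _, fun x => ?_⟩
        left_inv := fun ψ => rfl
        right_inv := fun ψ => rfl }
    · have := ψ.2.2 x
      rw [← omega_comp Subgroup.topEquiv.symm ψ.1] at this
      exact this
    · have := ψ.2.2 x
      rw [← omega_comp Subgroup.topEquiv ψ.1] at this
      exact this
  rw [h2, Nat.card_congr (Equiv.subtypeEquivRight (fun ψ => ?_)), h1]
  · refine congrArg Finset.card (Finset.ext fun j => ?_)
    simp only [Finset.mem_filter, Finset.mem_univ, true_and]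
    rw [I.bl_iff]
    refine forall_congr' (fun x => ?_)
    rw [omega_eq, omega_eq, hV _ ((hint j x).sub (hint i x))]
  · exact ⟨fun ⟨⟨n, ρ, h1, h2, h3⟩, h4⟩ => ⟨n, ρ, h1, h4, h2, h3⟩,
      fun ⟨n, ρ, h1, h4, h2, h3⟩ => ⟨⟨n, ρ, h1, h2, h3⟩, h4⟩⟩

lemma IndV.om {I : IrrData G} {i : Fin I.n} {L : Subgroup G} [Fintype L] {I' : IrrData L}
    {j : Fin I'.n} (h : IndV V I i I' j) {z : G → ℂ} (hz : IsCF z) (hV : ∀ g, z g ∈ V) :
    I'.om j (res L z) - I.om i z ∈ V.nonunits := by
  let _ : Fintype (ConjClasses G) := Fintype.ofFinite _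
  have h1 : I'.om j (res L z) =
      ∑ K : ConjClasses G, z K.out * I'.om j (res L (ind (IsConj K.out))) := by
    unfold IrrData.om res
    rw [Finset.sum_congr rfl (fun x _ => by rw [sum_class_decomp hz x])]
    simp only [Finset.sum_mul, Finset.sum_div]
    rw [Finset.sum_comm]
    refine Finset.sum_congr rfl (fun K _ => ?_)
    rw [Finset.mul_sum]
    refine Finset.sum_congr rfl (fun h _ => ?_)
    ring
  rw [h1, I.om_decomp i hz, ← Finset.sum_sub_distrib]
  refine sum_mem fun K _ => ?_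
  rw [← mul_sub, mul_comm]
  exact mul_mem_nonunits (h _) (hV _)

end Pool.Agent.Lib.MP_b6945b_al.St
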