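import Pool.Agent.Lib.MP_b6945b_al.St.Tr

set_option autoImplicit false

/-!
A map onto a summand of a permutation module that is surjective on Brauer quotients splits.
-/

namespace Pool.Agent.Lib.MP_b6945b_al.St

open IsLocalRing

variable {R Γ Y L : Type} [CommRing R] [IsLocalRing R] [Group Γ] [Fintype Γ] [MulAction Γ Y]
  [Finite Y] [AddCommGroup L] [Module R L]

section aux

/-- Fixed points as a submodule. -/
def bouc_fix {M : Type} [AddCommGroup M] [Module R M] (ρ : Representation R Γ M)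
    (S : Subgroup Γ) : Submodule R M where
  carrier := {m | FixedBy ρ S m}
  add_mem' := fun ha hb g hg => by rw [map_add, ha g hg, hb g hg]
  zero_mem' := fun g _ => map_zero _
  smul_mem' := fun r m h g hg => by rw [map_smul, h g hg]

open Classical in
/-- Indicator of the orbit of a point. -/
noncomputable def bouc_ind (R : Type) [CommRing R] (P : Subgroup Γ) (y₀ : Y) : Y → R :=
  fun y => if ∃ g ∈ P, g • y₀ = y then 1 else 0

open Classical in
/-- Point mass. -/
noncomputable def bouc_pt (R : Type) [CommRing R] (y₀ : Y) : Y → R :=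
  fun y => if y = y₀ then 1 else 0

omit [IsLocalRing R] [Fintype Γ] [Finite Y] in
lemma bouc_pt_smul (g : Γ) (y₀ : Y) : permRep R Γ Y g (bouc_pt R y₀) = bouc_pt R (g • y₀) := by
  funext y
  rw [permRep_apply]
  unfold bouc_pt
  by_cases h : y = g • y₀
  · rw [if_pos h, if_pos (inv_smul_eq_iff.2 h)]
  · rw [if_neg h, if_neg (fun e => h (inv_smul_eq_iff.1 e))]

omit [IsLocalRing R] [Fintype Γ] [Finite Y] in
lemma bouc_pt_fixed (S : Subgroup Γ) (y₀ : Y) (h : ∀ g ∈ S, g • y₀ = y₀) :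
    FixedBy (permRep R Γ Y) S (bouc_pt R y₀) := fun g hg => by
  rw [bouc_pt_smul, h g hg]

omit [IsLocalRing R] [Finite Y] in
lemma bouc_rtr_pt (P : Subgroup Γ) (y₀ : Y) :
    rtr (permRep R Γ Y) (P ⊓ MulAction.stabilizer Γ y₀) P (bouc_pt R y₀) = bouc_ind R P y₀ := by
  classical
  obtain ⟨n, t, -, ht, hu⟩ := exists_transversal (S := P ⊓ MulAction.stabilizer Γ y₀) (T := P)
    inf_le_left
  rw [rtr_eq_sum inf_le_left (bouc_pt_fixed (P ⊓ MulAction.stabilizer Γ y₀) y₀
    (fun g hg => hg.2)) t ht hu]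
  funext y
  rw [Finset.sum_apply]
  simp only [bouc_pt_smul]
  unfold bouc_pt bouc_ind
  by_cases hy : ∃ g ∈ P, g • y₀ = y
  · rw [if_pos hy]
    obtain ⟨g, hg, rfl⟩ := hy
    obtain ⟨i, hi, hi'⟩ := hu g hg
    rw [Finset.sum_eq_single i]
    · have h1 : ((t i)⁻¹ * g) • y₀ = y₀ := hi.2
      rw [mul_smul, inv_smul_eq_iff] at h1
      rw [if_pos h1]
    · intro j _ hj
      rw [if_neg]
      intro e
      refine hj (hi' j ⟨P.mul_mem (P.inv_mem (ht j)) hg, ?_⟩)
      change ((t j)⁻¹ * g) • y₀ = y₀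
      rw [mul_smul, inv_smul_eq_iff]
      exact e
    · intro h; exact absurd (Finset.mem_univ i) h
  · rw [if_neg hy]
    exact Finset.sum_eq_zero (fun i _ => if_neg (fun e => hy ⟨t i, ht i, e.symm⟩))

omit [IsLocalRing R] [Finite Y] in
lemma bouc_ind_fixed (P : Subgroup Γ) (y₀ : Y) : FixedBy (permRep R Γ Y) P (bouc_ind R P y₀) := by
  rw [← bouc_rtr_pt]
  exact rtr_fixed inf_le_left (bouc_pt_fixed _ y₀ (fun g hg => hg.2))

omit [IsLocalRing R] in
/-- A fixed function is a combination of orbit indicators. -/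
lemma bouc_decomp (P : Subgroup Γ) {u : Y → R} (hu : FixedBy (permRep R Γ Y) P u)
    (Z : Submodule R (Y → R)) (hZ : ∀ y₀, u y₀ • bouc_ind R P y₀ ∈ Z) : u ∈ Z := by
  classical
  have := Fintype.ofFinite (MulAction.orbitRel.Quotient P Y)
  have e : u = ∑ o : MulAction.orbitRel.Quotient P Y, u o.out • bouc_ind R P o.out := by
    funext y
    rw [Finset.sum_apply, Finset.sum_eq_single (Quotient.mk _ y)]
    · obtain ⟨g, hg⟩ : ∃ g : P, g • y = (Quotient.mk (MulAction.orbitRel P Y) y).out :=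
        Quotient.exact (Quotient.out_eq (Quotient.mk (MulAction.orbitRel P Y) y))
      have h1 : (g : Γ)⁻¹ • (Quotient.mk (MulAction.orbitRel P Y) y).out = y := by
        rw [← hg, inv_smul_eq_iff]; rfl
      have h2 := congrFun (hu g g.2) (Quotient.mk (MulAction.orbitRel P Y) y).out
      rw [permRep_apply, h1] at h2
      rw [Pi.smul_apply, bouc_ind, if_pos ⟨_, P.inv_mem g.2, h1⟩, smul_eq_mul, mul_one, h2]
    · intro o _ ho
      rw [Pi.smul_apply, bouc_ind, if_neg, smul_zero]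
      rintro ⟨g, hg, e⟩
      refine ho ?_
      rw [← Quotient.out_eq o]
      exact (Quotient.sound (s := MulAction.orbitRel P Y) ⟨⟨g, hg⟩, e⟩).symm
    · intro h; exact absurd (Finset.mem_univ _) h
  rw [e]
  exact Z.sum_mem (fun o _ => hZ _)

omit [IsLocalRing R] in
lemma bouc_fg (P : Subgroup Γ) : (bouc_fix (permRep R Γ Y) P).FG := by
  have e : bouc_fix (permRep R Γ Y) P = Submodule.span R (Set.range (bouc_ind R P)) := by
    refine le_antisymm (fun u hu => bouc_decomp P hu _ (fun y₀ =>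
      Submodule.smul_mem _ _ (Submodule.subset_span (Set.mem_range_self y₀)))) ?_
    · rw [Submodule.span_le]
      rintro _ ⟨y₀, rfl⟩
      exact bouc_ind_fixed P y₀
  rw [e]
  exact Submodule.fg_span (Set.finite_range _)

omit [IsLocalRing R] [Fintype Γ] in
lemma bouc_fixed_map {M M' : Type} [AddCommGroup M] [Module R M] [AddCommGroup M'] [Module R M']
    {ρ : Representation R Γ M} {ρ' : Representation R Γ M'} {φ : M →ₗ[R] M'}
    (hφ : EquivOn ρ ρ' ⊤ φ) {S : Subgroup Γ} {m : M} (hm : FixedBy ρ S m) :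
    FixedBy ρ' S (φ m) := fun g hg => by
  rw [← hφ g trivial, hm g hg]

lemma bouc_pgroup {p : ℕ}
    (ρ : Representation R Γ L) (ε : (Y → R) →ₗ[R] (Y → R))
    (hε : EquivOn (permRep R Γ Y) (permRep R Γ Y) ⊤ ε) (hεε : ∀ w, ε (ε w) = ε w)
    (θ : L →ₗ[R] (Y → R)) (hθ : EquivOn ρ (permRep R Γ Y) ⊤ θ) (hθε : ∀ l, ε (θ l) = θ l)
    (h : ∀ P : Subgroup Γ, IsPGroup p P → ∀ w, ε w = w → FixedBy (permRep R Γ Y) P w →
      ∃ l, FixedBy ρ P l ∧ ∀ y, (∀ g ∈ P, g • y = y) → θ l y - w y ∈ maximalIdeal R)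
    (P : Subgroup Γ) (hP : IsPGroup p P) :
    (bouc_fix (permRep R Γ Y) P).map ε ≤ (bouc_fix ρ P).map θ := by
  induction P using WellFoundedLT.induction with
  | ind P ih =>
    refine Submodule.le_of_le_smul_of_le_jacobson_bot ((bouc_fg P).map ε)
      (IsLocalRing.maximalIdeal_le_jacobson _) ?_
    rintro _ ⟨w, hw, rfl⟩
    obtain ⟨l, hl, hm⟩ := h P hP (ε w) (hεε w) (bouc_fixed_map hε hw)
    have hu : FixedBy (permRep R Γ Y) P (θ l - ε w) :=
      (bouc_fix (permRep R Γ Y) P).sub_mem (bouc_fixed_map hθ hl) (bouc_fixed_map hε hw)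
    have key : ε (θ l - ε w) ∈ (bouc_fix ρ P).map θ ⊔
        maximalIdeal R • (bouc_fix (permRep R Γ Y) P).map ε := by
      rw [← Submodule.mem_comap]
      refine bouc_decomp P hu _ (fun y₀ => ?_)
      rw [Submodule.mem_comap, map_smul]
      by_cases hy : ∀ g ∈ P, g • y₀ = y₀
      · exact Submodule.mem_sup_right (Submodule.smul_mem_smul (hm y₀ hy)
          ⟨_, bouc_ind_fixed P y₀, rfl⟩)
      · refine Submodule.mem_sup_left (Submodule.smul_mem _ _ ?_)
        have hlt : P ⊓ MulAction.stabilizer Γ y₀ < P :=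
          lt_of_le_of_ne inf_le_left (fun e => hy (fun g hg => (e.ge hg).2))
        obtain ⟨l', hl', e⟩ := ih _ hlt (hP.to_le inf_le_left)
          ⟨_, bouc_pt_fixed (R := R) _ y₀ (fun g hg => hg.2), rfl⟩
        refine ⟨rtr ρ (P ⊓ MulAction.stabilizer Γ y₀) P l', rtr_fixed inf_le_left hl', ?_⟩
        rw [rtr_map (fun g _ => hθ g trivial), e, ← bouc_rtr_pt,
          rtr_map (fun g _ => hε g trivial)]
    rw [map_sub, hθε, hεε] at key
    have e : ε w = θ l - (θ l - ε w) := by abel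
    rw [e]
    exact Submodule.sub_mem _ (Submodule.mem_sup_left ⟨l, hl, rfl⟩) key

lemma bouc_unit {p n : ℕ} (hp : p.Prime) (hpR : (p : R) ∈ maximalIdeal R) (hn : ¬ p ∣ n) :
    IsUnit (n : R) := by
  by_contra hu
  have h1 : (n : R) ∈ maximalIdeal R := hu
  obtain ⟨a, b, e⟩ : IsCoprime (p : R) (n : R) :=
    Nat.Coprime.cast ((Nat.Prime.coprime_iff_not_dvd hp).2 hn)
  have h2 : (1 : R) ∈ maximalIdeal R := by
    rw [← e]
    exact Ideal.add_mem _ (Ideal.mul_mem_left _ _ hpR) (Ideal.mul_mem_left _ _ h1)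
  exact (maximalIdeal.isMaximal R).ne_top ((Ideal.eq_top_iff_one _).2 h2)

omit [Finite Y] in
lemma bouc_all {p : ℕ} (hp : p.Prime) (hpR : (p : R) ∈ maximalIdeal R)
    (ρ : Representation R Γ L) (θ : L →ₗ[R] (Y → R)) (hθ : EquivOn ρ (permRep R Γ Y) ⊤ θ)
    {w : Y → R} (S : Subgroup Γ) (hw : FixedBy (permRep R Γ Y) S w)
    (h : ∀ P : Subgroup Γ, IsPGroup p P → P ≤ S → ∃ l, FixedBy ρ P l ∧ θ l = w) :
    ∃ l, FixedBy ρ S l ∧ θ l = w := by
  have := Fact.mk hp
  obtain ⟨Q⟩ : Nonempty (Sylow p S) := inferInstance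
  have hle : (Q : Subgroup S).map S.subtype ≤ S := Subgroup.map_subtype_le _
  obtain ⟨l, hl, e⟩ := h _ (Q.isPGroup'.map S.subtype) hle
  have hi : ((Q : Subgroup S).map S.subtype).relIndex S = (Q : Subgroup S).index := by
    rw [Subgroup.relIndex, Subgroup.subgroupOf,
      Subgroup.comap_map_eq_self_of_injective S.subtype_injective]
  obtain ⟨c, hc⟩ := (bouc_unit hp hpR (hi ▸ Q.not_dvd_index)).exists_left_inv
  refine ⟨c • rtr ρ _ S l, (bouc_fix ρ S).smul_mem c (rtr_fixed hle hl), ?_⟩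
  rw [map_smul, rtr_map (fun g _ => hθ g trivial), e, rtr_of_fixed hle hw, ← Nat.cast_smul_eq_nsmul R,
    smul_smul, hc, one_smul]

omit [IsLocalRing R] [Fintype Γ] in
lemma bouc_build (ρ : Representation R Γ L) (ε : (Y → R) →ₗ[R] (Y → R))
    (hε : EquivOn (permRep R Γ Y) (permRep R Γ Y) ⊤ ε)
    (θ : L →ₗ[R] (Y → R)) (hθ : EquivOn ρ (permRep R Γ Y) ⊤ θ)
    (h : ∀ y, ∃ l, FixedBy ρ (MulAction.stabilizer Γ y) l ∧ θ l = ε (bouc_pt R y)) :
    ∃ σ : (Y → R) →ₗ[R] L, EquivOn (permRep R Γ Y) ρ ⊤ σ ∧ ∀ w, θ (σ w) = ε w := by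
  classical
  have := Fintype.ofFinite Y
  choose l hl hθl using h
  let r : Y → Y := fun y => (Quotient.mk (MulAction.orbitRel Γ Y) y).out
  have hr : ∀ y, ∃ g : Γ, g • r y = y := fun y =>
    Quotient.exact (Quotient.out_eq (Quotient.mk (MulAction.orbitRel Γ Y) y)).symm
  have hr' : ∀ (g : Γ) y, r (g • y) = r y := fun g y =>
    congrArg Quotient.out (Quotient.sound (s := MulAction.orbitRel Γ Y) ⟨g, rfl⟩)
  choose t ht using hr
  let lam : Y → L := fun y => ρ (t y) (l (r y))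
  have h1 : ∀ (g : Γ) y, lam (g • y) = ρ g (lam y) := by
    intro g y
    have h2 : (t (g • y))⁻¹ * (g * t y) ∈ MulAction.stabilizer Γ (r y) := by
      rw [MulAction.mem_stabilizer_iff, mul_smul, mul_smul, ht, inv_smul_eq_iff, ← hr' g y, ht]
    have h3 := congrArg (ρ (t (g • y))) (hl (r y) _ h2)
    rw [← Module.End.mul_apply, ← map_mul, mul_inv_cancel_left, map_mul,
      Module.End.mul_apply] at h3
    change ρ (t (g • y)) (l (r (g • y))) = ρ g (ρ (t y) (l (r y)))
    rw [hr', h3]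
  have h2 : ∀ y, θ (lam y) = ε (bouc_pt R y) := by
    intro y
    change θ (ρ (t y) (l (r y))) = _
    rw [hθ _ trivial, hθl, ← hε _ trivial, bouc_pt_smul, ht]
  refine ⟨∑ y, (LinearMap.proj y : (Y → R) →ₗ[R] R).smulRight (lam y), fun g _ w => ?_,
    fun w => ?_⟩
  · simp only [LinearMap.sum_apply, LinearMap.smulRight_apply, LinearMap.proj_apply, map_sum,
      map_smul, ← h1, permRep_apply]
    rw [← Equiv.sum_comp (MulAction.toPerm g)]
    simp
  · simp only [LinearMap.sum_apply, LinearMap.smulRight_apply, LinearMap.proj_apply, map_sum,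
      map_smul, h2]
    simp only [← map_smul]
    rw [← map_sum]
    congr 1
    funext y
    simp [bouc_pt, Finset.sum_apply]

/-- The sum with a free module. -/
def bouc_rep (ρ : Representation R Γ L) (M : Type) [AddCommGroup M] [Module R M] :
    Representation R Γ (L × (Γ → M)) where
  toFun g := (ρ g).prodMap (LinearMap.funLeft R M (fun x => g⁻¹ * x))
  map_one' := by
    refine LinearMap.ext (fun a => Prod.ext (by simp) (funext fun x => by simp))
  map_mul' g h := by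
    refine LinearMap.ext (fun a => Prod.ext (by simp) (funext fun x => by simp [mul_assoc]))

end aux

/-- By induction on `P`, `θ` maps the `P`-fixed points of `L` onto those of the image `W` of `ε`:
a `P`-fixed function whose values at `P`-fixed points lie in the maximal ideal is, modulo the
maximal ideal times `P`-fixed functions, a combination of traces `rtr (stabiliser) P` of point
masses; apply `ε`, use the inductive hypothesis and Nakayama (the `P`-fixed functions are spanned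
by orbit indicators).  For any subgroup `S` take a Sylow subgroup and `rtr_of_fixed`.  Then define
`σ` on the point mass at `g • y₀` as `ρ g l` where `θ l = ε (point mass at y₀)`, `l` fixed by the
stabiliser of the orbit representative `y₀`. -/
theorem bouc_split {p : ℕ} (hp : p.Prime) (hpR : (p : R) ∈ maximalIdeal R)
    (ρ : Representation R Γ L) (ε : (Y → R) →ₗ[R] (Y → R))
    (hε : EquivOn (permRep R Γ Y) (permRep R Γ Y) ⊤ ε) (hεε : ∀ w, ε (ε w) = ε w)
    (θ : L →ₗ[R] (Y → R)) (hθ : EquivOn ρ (permRep R Γ Y) ⊤ θ) (hθε : ∀ l, ε (θ l) = θ l)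
    (h : ∀ P : Subgroup Γ, IsPGroup p P → ∀ w, ε w = w → FixedBy (permRep R Γ Y) P w →
      ∃ l, FixedBy ρ P l ∧ ∀ y, (∀ g ∈ P, g • y = y) → θ l y - w y ∈ maximalIdeal R) :
    ∃ σ : (Y → R) →ₗ[R] L, EquivOn (permRep R Γ Y) ρ ⊤ σ ∧ ∀ w, θ (σ w) = ε w := by
  refine bouc_build ρ ε hε θ hθ (fun y => ?_)
  refine bouc_all hp hpR ρ θ hθ _ (bouc_fixed_map hε (bouc_pt_fixed _ y (fun g hg => hg)))
    (fun P hP hle => ?_)
  exact bouc_pgroup ρ ε hε hεε θ hθ hθε h P hP ⟨_, bouc_pt_fixed _ y (fun g hg => hle hg), rfl⟩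

/-- The stable version: apply `bouc_split` to `L × (Γ → Y → R)` with the regular action on the
second factor and `θ' (l, φ) = θ l + ∑ x, x • ε (φ x)`. -/
theorem bouc_stable {p : ℕ} (hp : p.Prime) (hpR : (p : R) ∈ maximalIdeal R)
    (ρ : Representation R Γ L) (ε : (Y → R) →ₗ[R] (Y → R))
    (hε : EquivOn (permRep R Γ Y) (permRep R Γ Y) ⊤ ε) (hεε : ∀ w, ε (ε w) = ε w)
    (θ : L →ₗ[R] (Y → R)) (hθ : EquivOn ρ (permRep R Γ Y) ⊤ θ) (hθε : ∀ l, ε (θ l) = θ l)
    (h : ∀ P : Subgroup Γ, IsPGroup p P → P ≠ ⊥ → ∀ w, ε w = w →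
      FixedBy (permRep R Γ Y) P w →
      ∃ l, FixedBy ρ P l ∧ ∀ y, (∀ g ∈ P, g • y = y) → θ l y - w y ∈ maximalIdeal R) :
    ∃ (σ : (Y → R) →ₗ[R] L) (α : (Y → R) →ₗ[R] (Y → R)), EquivOn (permRep R Γ Y) ρ ⊤ σ ∧
      ∀ w, ε w = θ (σ w) + ∑ g, permRep R Γ Y g (α (permRep R Γ Y g⁻¹ w)) := by
  classical
  let θ' : (L × (Γ → Y → R)) →ₗ[R] (Y → R) :=
    θ.coprod (∑ x, permRep R Γ Y x ∘ₗ ε ∘ₗ LinearMap.proj x)
  have hθ' : ∀ a, θ' a = θ a.1 + ∑ x, permRep R Γ Y x (ε (a.2 x)) := by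
    intro a
    simp [θ', LinearMap.sum_apply]
  obtain ⟨σ', h1, h2⟩ := bouc_split hp hpR (bouc_rep ρ (Y → R)) ε hε hεε θ' (by
      intro g _ a
      rw [hθ', hθ', map_add, map_sum, ← hθ g trivial, ← Equiv.sum_comp (Equiv.mulLeft g)]
      refine congrArg₂ (· + ·) rfl (Finset.sum_congr rfl (fun x _ => ?_))
      change permRep R Γ Y (g * x) (ε (a.2 (g⁻¹ * (g * x)))) = _
      rw [inv_mul_cancel_left, map_mul, Module.End.mul_apply]) (by
      intro a
      rw [hθ', map_add, map_sum, hθε]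
      refine congrArg₂ (· + ·) rfl (Finset.sum_congr rfl (fun x _ => ?_))
      rw [hε x trivial, hεε]) (by
      intro P hP w hw hfix
      by_cases hb : P = ⊥
      · refine ⟨(0, Pi.single 1 w), fun g hg => ?_, fun y _ => ?_⟩
        · rw [hb, Subgroup.mem_bot] at hg
          rw [hg, map_one]
          rfl
        · rw [hθ', map_zero, zero_add, Finset.sum_eq_single 1]
          · simp [hw]
          · intro x _ hx
            simp [Pi.single_eq_of_ne hx]
          · intro h; exact absurd (Finset.mem_univ _) h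
      · obtain ⟨l, hl, hm⟩ := h P hP hb w hw hfix
        refine ⟨(l, 0), fun g hg => Prod.ext (hl g hg) rfl, fun y hy => ?_⟩
        rw [hθ']
        simpa using hm y hy)
  refine ⟨LinearMap.fst R _ _ ∘ₗ σ', ε ∘ₗ LinearMap.proj 1 ∘ₗ LinearMap.snd R _ _ ∘ₗ σ',
    fun g _ w => congrArg Prod.fst (h1 g trivial w), fun w => ?_⟩
  rw [← h2, hθ']
  refine congrArg₂ (· + ·) rfl (Finset.sum_congr rfl (fun x _ => ?_))
  change _ = permRep R Γ Y x (ε ((σ' (permRep R Γ Y x⁻¹ w)).2 1))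
  rw [h1 x⁻¹ trivial]
  change _ = permRep R Γ Y x (ε ((σ' w).2 (x⁻¹⁻¹ * 1)))
  rw [inv_inv, mul_one]

end Pool.Agent.Lib.MP_b6945b_al.St
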