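import Pool.Agent.Lib.MP_b6945b_al.St.Kern
import Pool.Agent.Lib.MP_b6945b_al.St.Bouc

set_option autoImplicit false

/-!
The splitting criterion for kernel algebras.
-/

namespace Pool.Agent.Lib.MP_b6945b_al.St

open IsLocalRing

variable {R : Type} [CommRing R] [IsLocalRing R] {G : Type} [Group G] [Fintype G]
  {H : Subgroup G} {X : Type} [Fintype X] [DecidableEq X] [MulAction (G × H) X]

variable (H) in
/-- The `H`-orbit of the pair `(x, y)` is fixed by `P`. -/
def FixP (P : Subgroup (G × G)) (x y : X) : Prop :=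
  ∀ r ∈ P, ∃ h : H, ((r.1, h) : G × H) • x = x ∧ ((r.2, h) : G × H) • y = y

/-- Pairs in the same `H`-orbit. -/
def bouckRel {G : Type} [Group G] (H : Subgroup G) (X : Type) [MulAction (G × H) X] :
    Setoid (X × X) where
  r a b := ∃ h : H, ((1, h) : G × H) • a.1 = b.1 ∧ ((1, h) : G × H) • a.2 = b.2
  iseqv :=
    { refl := fun a => ⟨1, one_smul (G × H) a.1, one_smul (G × H) a.2⟩
      symm := by
        rintro a b ⟨h, h1, h2⟩
        refine ⟨h⁻¹, ?_, ?_⟩
        · rw [← h1, ← mul_smul]; simp [Prod.mk_one_one]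
        · rw [← h2, ← mul_smul]; simp [Prod.mk_one_one]
      trans := by
        rintro a b c ⟨h, h1, h2⟩ ⟨h', h1', h2'⟩
        refine ⟨h' * h, ?_, ?_⟩
        · rw [← h1', ← h1, ← mul_smul]; simp
        · rw [← h2', ← h2, ← mul_smul]; simp }

lemma bouck_comm {G : Type} [Group G] {H : Subgroup G} {X : Type} [MulAction (G × H) X]
    (g : G) (h : H) (x : X) :
    ((1, h) : G × H) • ((g, 1) : G × H) • x = ((g, 1) : G × H) • ((1, h) : G × H) • x := by
  rw [← mul_smul, ← mul_smul]; simp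

/-- The action of `G × G` on the orbits of pairs. -/
@[reducible] def bouckAct {G : Type} [Group G] (H : Subgroup G) (X : Type) [MulAction (G × H) X] :
    MulAction (G × G) (Quotient (bouckRel H X)) where
  smul γ := Quotient.map (fun a => (((γ.1, 1) : G × H) • a.1, ((γ.2, 1) : G × H) • a.2)) (by
    rintro a b ⟨h, h1, h2⟩
    exact ⟨h, by rw [bouck_comm, h1], by rw [bouck_comm, h2]⟩)
  one_smul q := Quotient.inductionOn q fun a =>
    congrArg (Quotient.mk _) (Prod.ext (one_smul (G × H) a.1) (one_smul (G × H) a.2))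
  mul_smul γ γ' q := Quotient.inductionOn q fun a =>
    congrArg (Quotient.mk _) (Prod.ext
      (by
        change ((γ.1 * γ'.1, 1) : G × H) • a.1 =
          ((γ.1, 1) : G × H) • ((γ'.1, 1) : G × H) • a.1
        rw [← mul_smul]; simp)
      (by
        change ((γ.2 * γ'.2, 1) : G × H) • a.2 =
          ((γ.2, 1) : G × H) • ((γ'.2, 1) : G × H) • a.2
        rw [← mul_smul]; simp))

/-- Invariant kernels are functions on the orbits of pairs. -/
def bouckEquiv (R : Type) [CommRing R] {G : Type} [Group G] (H : Subgroup G) (X : Type)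
    [Fintype X] [DecidableEq X] [MulAction (G × H) X] :
    Kern R H X ≃ₗ[R] (Quotient (bouckRel H X) → R) where
  toFun w := Quotient.lift (fun a => w.1 a.1 a.2) (by
    rintro a b ⟨h, h1, h2⟩
    rw [← h1, ← h2]
    exact ((mem_Kern R H X).1 w.2 h a.1 a.2).symm)
  map_add' w w' := funext fun q => Quotient.inductionOn q fun _ => rfl
  map_smul' r w := funext fun q => Quotient.inductionOn q fun _ => rfl
  invFun f := ⟨fun x y => f (Quotient.mk _ (x, y)), (mem_Kern R H X).2 fun h x y =>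
    (congrArg f (Quotient.sound (s := bouckRel H X) (a := (x, y)) ⟨h, rfl, rfl⟩)).symm⟩
  left_inv _ := rfl
  right_inv f := funext fun q => Quotient.inductionOn q fun _ => rfl

omit [IsLocalRing R] in
lemma bouck_model : ∃ (Y : Type) (_ : MulAction (G × G) Y) (_ : Finite Y) (π : X → X → Y)
    (E : Kern R H X ≃ₗ[R] (Y → R)), (∀ w x y, E w (π x y) = w.1 x y) ∧
      (∀ q, ∃ x y, π x y = q) ∧
      (∀ γ w, E (biRep R H X γ w) = permRep R (G × G) Y γ (E w)) ∧
      ∀ (P : Subgroup (G × G)) x y, (∀ g ∈ P, g • π x y = π x y) → FixP H P x y := by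
  refine ⟨Quotient (bouckRel H X), bouckAct H X, inferInstance,
    fun x y => Quotient.mk _ (x, y), bouckEquiv R H X, fun _ _ _ => rfl,
    fun q => Quotient.inductionOn q fun a => ⟨a.1, a.2, rfl⟩, fun γ w => ?_,
    fun P x y hP r hr => ?_⟩
  · funext q
    exact Quotient.inductionOn q fun a => biRep_entry γ w a.1 a.2
  · obtain ⟨h, h1, h2⟩ := Quotient.exact (hP r hr)
    refine ⟨h, ?_, ?_⟩
    · refine Eq.trans ?_ h1
      change _ = ((1, h) : G × H) • ((r.1, 1) : G × H) • x
      rw [← mul_smul]; simp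
    · refine Eq.trans ?_ h2
      change _ = ((1, h) : G × H) • ((r.2, 1) : G × H) • y
      rw [← mul_smul]; simp

/-- `Kern R H X` is the permutation module of functions on the quotient `Y` of `X × X` by `H`;
build the action of `G × G` on `Y` and the equivariant linear equivalence, then apply
`bouc_split`. -/
theorem boucK_split {p : ℕ} (hp : p.Prime) (hpR : (p : R) ∈ maximalIdeal R) {L : Type}
    [AddCommGroup L] [Module R L] (ρ : Representation R (G × G) L)
    (ε : Kern R H X →ₗ[R] Kern R H X) (hε : EquivOn (biRep R H X) (biRep R H X) ⊤ ε)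
    (hεε : ∀ w, ε (ε w) = ε w) (θ : L →ₗ[R] Kern R H X) (hθ : EquivOn ρ (biRep R H X) ⊤ θ)
    (hθε : ∀ l, ε (θ l) = θ l)
    (h : ∀ P : Subgroup (G × G), IsPGroup p P → ∀ w, ε w = w → FixedBy (biRep R H X) P w →
      ∃ l, FixedBy ρ P l ∧ ∀ x y, FixP H P x y → (θ l).1 x y - w.1 x y ∈ maximalIdeal R) :
    ∃ σ : Kern R H X →ₗ[R] L, EquivOn (biRep R H X) ρ ⊤ σ ∧ ∀ w, θ (σ w) = ε w := by
  obtain ⟨Y, _, _, π, E, hE, hπ, hγ, hP⟩ := bouck_model (R := R) (H := H) (X := X)
  have hγ' : ∀ γ f, E.symm (permRep R (G × G) Y γ f) = biRep R H X γ (E.symm f) := fun γ f =>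
    E.injective (by rw [hγ, E.apply_symm_apply, E.apply_symm_apply])
  obtain ⟨σ, h1, h2⟩ := bouc_split hp hpR ρ (E.toLinearMap ∘ₗ ε ∘ₗ E.symm.toLinearMap)
    (fun g _ f => by
      change E (ε (E.symm _)) = permRep R (G × G) Y g (E (ε (E.symm f)))
      rw [hγ', hε g trivial, hγ])
    (fun f => by
      change E (ε (E.symm (E (ε (E.symm f))))) = E (ε (E.symm f))
      rw [E.symm_apply_apply, hεε])
    (E.toLinearMap ∘ₗ θ)
    (fun g _ l => by
      change E (θ _) = permRep R (G × G) Y g (E (θ l))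
      rw [hθ g trivial, hγ])
    (fun l => by
      change E (ε (E.symm (E (θ l)))) = E (θ l)
      rw [E.symm_apply_apply, hθε])
    (fun P hPp f hf hfix => by
      obtain ⟨w, rfl⟩ := E.surjective f
      have hw : ε w = w := by
        change E (ε (E.symm (E w))) = E w at hf
        rw [E.symm_apply_apply] at hf
        exact E.injective hf
      obtain ⟨l, hl, hl'⟩ := h P hPp w hw fun g hg => E.injective (by rw [hγ, hfix g hg])
      refine ⟨l, hl, fun q hq => ?_⟩
      obtain ⟨x, y, rfl⟩ := hπ q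
      change E (θ l) (π x y) - E w (π x y) ∈ _
      rw [hE, hE]
      exact hl' x y (hP P x y hq))
  refine ⟨σ ∘ₗ E.toLinearMap, fun g _ w => ?_, fun w => E.injective ?_⟩
  · change σ (E _) = ρ g (σ (E w))
    rw [hγ, h1 g trivial]
  · have e : E (θ (σ (E w))) = E (ε (E.symm (E w))) := h2 (E w)
    rwa [E.symm_apply_apply] at e

theorem boucK_stable {p : ℕ} (hp : p.Prime) (hpR : (p : R) ∈ maximalIdeal R) {L : Type}
    [AddCommGroup L] [Module R L] (ρ : Representation R (G × G) L)
    (ε : Kern R H X →ₗ[R] Kern R H X) (hε : EquivOn (biRep R H X) (biRep R H X) ⊤ ε)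
    (hεε : ∀ w, ε (ε w) = ε w) (θ : L →ₗ[R] Kern R H X) (hθ : EquivOn ρ (biRep R H X) ⊤ θ)
    (hθε : ∀ l, ε (θ l) = θ l)
    (h : ∀ P : Subgroup (G × G), IsPGroup p P → P ≠ ⊥ → ∀ w, ε w = w →
      FixedBy (biRep R H X) P w →
      ∃ l, FixedBy ρ P l ∧ ∀ x y, FixP H P x y → (θ l).1 x y - w.1 x y ∈ maximalIdeal R) :
    ∃ (σ : Kern R H X →ₗ[R] L) (α : Kern R H X →ₗ[R] Kern R H X),
      EquivOn (biRep R H X) ρ ⊤ σ ∧
      ∀ w, ε w = θ (σ w) + ∑ γ, biRep R H X γ (α (biRep R H X γ⁻¹ w)) := by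
  obtain ⟨Y, _, _, π, E, hE, hπ, hγ, hP⟩ := bouck_model (R := R) (H := H) (X := X)
  have hγ' : ∀ γ f, E.symm (permRep R (G × G) Y γ f) = biRep R H X γ (E.symm f) := fun γ f =>
    E.injective (by rw [hγ, E.apply_symm_apply, E.apply_symm_apply])
  obtain ⟨σ, α, h1, h2⟩ := bouc_stable hp hpR ρ (E.toLinearMap ∘ₗ ε ∘ₗ E.symm.toLinearMap)
    (fun g _ f => by
      change E (ε (E.symm _)) = permRep R (G × G) Y g (E (ε (E.symm f)))
      rw [hγ', hε g trivial, hγ])
    (fun f => by
      change E (ε (E.symm (E (ε (E.symm f))))) = E (ε (E.symm f))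
      rw [E.symm_apply_apply, hεε])
    (E.toLinearMap ∘ₗ θ)
    (fun g _ l => by
      change E (θ _) = permRep R (G × G) Y g (E (θ l))
      rw [hθ g trivial, hγ])
    (fun l => by
      change E (ε (E.symm (E (θ l)))) = E (θ l)
      rw [E.symm_apply_apply, hθε])
    (fun P hPp hP0 f hf hfix => by
      obtain ⟨w, rfl⟩ := E.surjective f
      have hw : ε w = w := by
        change E (ε (E.symm (E w))) = E w at hf
        rw [E.symm_apply_apply] at hf
        exact E.injective hf
      obtain ⟨l, hl, hl'⟩ := h P hPp hP0 w hw fun g hg => E.injective (by rw [hγ, hfix g hg])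
      refine ⟨l, hl, fun q hq => ?_⟩
      obtain ⟨x, y, rfl⟩ := hπ q
      change E (θ l) (π x y) - E w (π x y) ∈ _
      rw [hE, hE]
      exact hl' x y (hP P x y hq))
  refine ⟨σ ∘ₗ E.toLinearMap, E.symm.toLinearMap ∘ₗ α ∘ₗ E.toLinearMap, fun g _ w => ?_,
    fun w => E.injective ?_⟩
  · change σ (E _) = ρ g (σ (E w))
    rw [hγ, h1 g trivial]
  · have e : E (ε (E.symm (E w))) = E (θ (σ (E w))) +
        ∑ g, permRep R (G × G) Y g (α (permRep R (G × G) Y g⁻¹ (E w))) := h2 (E w)
    rw [E.symm_apply_apply] at e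
    rw [e, map_add, map_sum]
    refine congrArg _ (Finset.sum_congr rfl fun g _ => ?_)
    change _ = E (biRep R H X g (E.symm (α (E (biRep R H X g⁻¹ w)))))
    rw [hγ, hγ, E.apply_symm_apply]

end Pool.Agent.Lib.MP_b6945b_al.St
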