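import Pool.Agent.Lib.MP_b6945b_al.St.BoucK

set_option autoImplicit false

/-!
The fixed points of a `p`-subgroup of `G × G` on the kernel basis, chart by chart.
-/

namespace Pool.Agent.Lib.MP_b6945b_al.St

open IsLocalRing

variable {R : Type} [CommRing R] [IsLocalRing R] {G : Type} [Group G] [Fintype G]
  {H : Subgroup G} {X : Type} [Fintype X] [DecidableEq X] [MulAction (G × H) X] {κ : X → G}

/-- `P` is the conjugate by `γ` of the diagonal of `Q`. -/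
def IsChart (P : Subgroup (G × G)) (Q : Subgroup H) (γ : G × G) : Prop :=
  ∀ r : G × G, r ∈ P ↔ ∃ q ∈ Q, r = γ * ((q : G), (q : G)) * γ⁻¹

/-- Two charts induce `H`-conjugate embeddings of `P` in `H`. -/
def ChartRel (Q : Subgroup H) (γ : G × G) (Q' : Subgroup H) (γ' : G × G) : Prop :=
  ∃ (c : G) (h : H), (∀ x ∈ imG Q, c * x = x * c) ∧ γ.1⁻¹ * γ'.1 = c * h

/-- The Brauer map of a chart. -/
noncomputable def brc (Q : Subgroup H) (γ : G × G) (a : Kern R H X) :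
    Matrix (Fix X Q) (Fix X Q) (ResidueField R) := br Q (biRep R H X γ⁻¹ a).1

section

variable {P : Subgroup (G × G)} {Q Q' Q'' : Subgroup H} {γ γ' γ'' : G × G}

omit [Fintype G] in
lemma chart_pair (h : IsChart P Q γ) (h' : IsChart P Q' γ') {q : H} (hq : q ∈ Q) :
    ∃ q' ∈ Q', (γ.1⁻¹ * γ'.1) * (q' : G) * (γ.1⁻¹ * γ'.1)⁻¹ = q ∧
      (γ.2⁻¹ * γ'.2) * (q' : G) * (γ.2⁻¹ * γ'.2)⁻¹ = q := by
  obtain ⟨q', hq', e⟩ := (h' _).1 ((h _).2 ⟨q, hq, rfl⟩)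
  have e1 : γ.1 * (q : G) * γ.1⁻¹ = γ'.1 * (q' : G) * γ'.1⁻¹ := congrArg Prod.fst e
  have e2 : γ.2 * (q : G) * γ.2⁻¹ = γ'.2 * (q' : G) * γ'.2⁻¹ := congrArg Prod.snd e
  refine ⟨q', hq', ?_, ?_⟩
  · calc _ = γ.1⁻¹ * (γ'.1 * (q' : G) * γ'.1⁻¹) * γ.1 := by group
      _ = q := by rw [← e1]; group
  · calc _ = γ.2⁻¹ * (γ'.2 * (q' : G) * γ'.2⁻¹) * γ.2 := by group
      _ = q := by rw [← e2]; group

omit [Fintype G] [Fintype X] [DecidableEq X] in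
lemma chart_move {g : G} {k : H} (x : Fix X Q')
    (h : ∀ q ∈ Q, ∃ q' ∈ Q', g * (q' : G) * g⁻¹ = q ∧ k * q' * k⁻¹ = q) :
    ∀ q ∈ Q, (((q : G), q) : G × H) • (((g, k) : G × H) • x.1) = ((g, k) : G × H) • x.1 := by
  intro q hq
  obtain ⟨q', hq', e1, e2⟩ := h q hq
  have e : (((q : G), q) : G × H) * (g, k) = (g, k) * ((q' : G), q') := by
    refine Prod.ext ?_ ?_
    · change (q : G) * g = g * q'
      rw [← e1]; group
    · change q * k = k * q'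
      rw [← e2]; group
  rw [← mul_smul, e, mul_smul, x.2 q' hq']

lemma chart_entry (a : Kern R H X) (x y : Fix X Q) : brc Q γ a x y =
    residue R (a.1 (((γ.1, 1) : G × H) • x.1) (((γ.2, 1) : G × H) • y.1)) := by
  change residue R ((biRep R H X γ⁻¹ a).1 x.1 y.1) = _
  rw [biRep_entry]
  simp

omit [IsLocalRing R] [Fintype G] in
lemma chart_shift (a : Kern R H X) (g g' : G) (k : H) (x y : X) :
    a.1 (((g, k) : G × H) • x) (((g', k) : G × H) • y) =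
      a.1 (((g, 1) : G × H) • x) (((g', 1) : G × H) • y) := by
  rw [← (mem_Kern R H X).1 a.2 k (((g, 1) : G × H) • x), ← mul_smul, ← mul_smul]
  simp

omit [IsLocalRing R] [Fintype G] in
lemma chart_diag {g : G} {b : Kern R H X} :
    biRep R H X (g, g) b = b ↔ piK R H X g * b = b * piK R H X g := by
  rw [biRep_apply]
  constructor
  · intro e
    calc piK R H X g * b = piK R H X g * (b * piK R H X g⁻¹) * piK R H X g := by
          rw [mul_assoc, mul_assoc, ← map_mul, inv_mul_cancel, map_one, mul_one]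
      _ = b * piK R H X g := by rw [e]
  · intro e
    rw [← mul_assoc, e, mul_assoc, ← map_mul, mul_inv_cancel, map_one, mul_one]

omit [IsLocalRing R] [Fintype G] in
lemma chart_comp (g g' : G × G) (b : Kern R H X) :
    biRep R H X g (biRep R H X g' b) = biRep R H X (g * g') b := by
  rw [map_mul]; rfl

lemma chartRel_refl (Q : Subgroup H) (γ : G × G) : ChartRel Q γ Q γ := by
  exact ⟨1, 1, fun x _ => by simp, by simp⟩

lemma IsChart.conj (h : IsChart P Q γ) (h' : IsChart P Q' γ') (x : G) :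
    x ∈ imG Q' ↔ (γ.1⁻¹ * γ'.1) * x * (γ.1⁻¹ * γ'.1)⁻¹ ∈ imG Q := by
  constructor
  · rintro ⟨q', hq', rfl⟩
    obtain ⟨q, hq, e, -⟩ := chart_pair h' h hq'
    refine ⟨q, hq, ?_⟩
    rw [← e]; group
  · rintro ⟨q, hq, e⟩
    obtain ⟨q', hq', e', -⟩ := chart_pair h h' hq
    refine ⟨q', hq', ?_⟩
    rw [← e'] at e
    exact mul_left_cancel (mul_right_cancel e)

/-- The two components of the transition differ by an element centralising `Q'`. -/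
lemma IsChart.cent (h : IsChart P Q γ) (h' : IsChart P Q' γ') :
    ∀ x ∈ imG Q', (γ.1⁻¹ * γ'.1)⁻¹ * (γ.2⁻¹ * γ'.2) * x =
      x * ((γ.1⁻¹ * γ'.1)⁻¹ * (γ.2⁻¹ * γ'.2)) := by
  rintro _ ⟨q', hq', rfl⟩
  obtain ⟨q, -, e1, e2⟩ := chart_pair h' h hq'
  calc _ = (γ.1⁻¹ * γ'.1)⁻¹ * (γ.2⁻¹ * γ'.2) *
        (γ'.2⁻¹ * γ.2 * (q : G) * (γ'.2⁻¹ * γ.2)⁻¹) := by rw [e2]
    _ = (γ'.1⁻¹ * γ.1 * (q : G) * (γ'.1⁻¹ * γ.1)⁻¹) *
        ((γ.1⁻¹ * γ'.1)⁻¹ * (γ.2⁻¹ * γ'.2)) := by group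
    _ = _ := by rw [e1]

lemma ChartRel.symm (h : IsChart P Q γ) (h' : IsChart P Q' γ') (e : ChartRel Q γ Q' γ') :
    ChartRel Q' γ' Q γ := by
  obtain ⟨c, k, hc, e⟩ := e
  refine ⟨(k : G)⁻¹ * c⁻¹ * k, k⁻¹, fun x hx => ?_, ?_⟩
  · have h1 := hc _ ((h.conj h' x).1 hx)
    rw [e] at h1
    calc _ = (k : G)⁻¹ * c⁻¹ * c⁻¹ * (c * k * x * (c * k)⁻¹ * c) * k := by group
      _ = (k : G)⁻¹ * c⁻¹ * c⁻¹ * (c * (c * k * x * (c * k)⁻¹)) * k := by rw [h1]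
      _ = _ := by group
  · calc γ'.1⁻¹ * γ.1 = (γ.1⁻¹ * γ'.1)⁻¹ := by group
      _ = _ := by rw [e, Subgroup.coe_inv]; group

lemma ChartRel.trans (h : IsChart P Q γ) (h' : IsChart P Q' γ') (h'' : IsChart P Q'' γ'')
    (e : ChartRel Q γ Q' γ') (e' : ChartRel Q' γ' Q'' γ'') : ChartRel Q γ Q'' γ'' := by
  have _ := h''
  obtain ⟨c, k, hc, e⟩ := e
  obtain ⟨c', k', hc', e'⟩ := e'
  refine ⟨c * (k * c' * (k : G)⁻¹), k * k', fun x hx => ?_, ?_⟩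
  · have h0 := hc x hx
    have h1 : (k : G)⁻¹ * x * k ∈ imG Q' := by
      rw [h.conj h', e]
      have : c * k * ((k : G)⁻¹ * x * k) * (c * k)⁻¹ = x := by
        calc _ = c * x * c⁻¹ := by group
          _ = x := by rw [h0]; group
      rwa [this]
    have h2 := hc' _ h1
    calc _ = c * k * (c' * ((k : G)⁻¹ * x * k)) * (k : G)⁻¹ := by group
      _ = c * k * ((k : G)⁻¹ * x * k * c') * (k : G)⁻¹ := by rw [h2]
      _ = c * x * (k * c' * (k : G)⁻¹) := by group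
      _ = _ := by rw [h0]; group
  · calc γ.1⁻¹ * γ''.1 = (γ.1⁻¹ * γ'.1) * (γ'.1⁻¹ * γ''.1) := by group
      _ = _ := by rw [e, e', Subgroup.coe_mul]; group

lemma IsChart.comm (h : IsChart P Q γ) {a : Kern R H X} (ha : FixedBy (biRep R H X) P a) :
    ∀ q ∈ Q, piK R H X q * biRep R H X γ⁻¹ a = biRep R H X γ⁻¹ a * piK R H X q := by
  intro q hq
  refine chart_diag.1 ?_
  have e := ha _ ((h _).2 ⟨q, hq, rfl⟩)
  calc biRep R H X ((q : G), (q : G)) (biRep R H X γ⁻¹ a)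
      = biRep R H X γ⁻¹ (biRep R H X (γ * ((q : G), (q : G)) * γ⁻¹) a) := by
        rw [chart_comp, chart_comp]; congr 2; group
    _ = _ := by rw [e]

/-- Equivalent charts see the same pairs of points: `(γ.1, 1) • x` with `x` fixed by the diagonal
of `Q` is `(γ'.1, h) • x'` with `x'` fixed by the diagonal of `Q'`, and the same `h` serves for
the second component. -/
lemma ChartRel.brc_eq_zero (h : IsChart P Q γ) (h' : IsChart P Q' γ') (e : ChartRel Q γ Q' γ')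
    {a : Kern R H X} (ha : brc Q γ a = 0) : brc Q' γ' a = 0 := by
  obtain ⟨c, k, hc, e⟩ := e
  have key : ∀ q ∈ Q, ∃ q' ∈ Q', (γ.1⁻¹ * γ'.1) * (q' : G) * (γ.1⁻¹ * γ'.1)⁻¹ = q ∧
      (γ.2⁻¹ * γ'.2) * (q' : G) * (γ.2⁻¹ * γ'.2)⁻¹ = q ∧ k * q' * k⁻¹ = q := by
    intro q hq
    obtain ⟨q', hq', e1, e2⟩ := chart_pair h h' hq
    refine ⟨q', hq', e1, e2, Subtype.ext ?_⟩
    have h0 := hc q ⟨q, hq, rfl⟩
    rw [e] at e1
    calc ((k * q' * k⁻¹ : H) : G) = c⁻¹ * (c * k * q' * (c * k)⁻¹ * c) := by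
          simp only [Subgroup.coe_mul, Subgroup.coe_inv]; group
      _ = q := by rw [e1, ← h0]; group
  ext x' y'
  have hx := chart_move (g := γ.1⁻¹ * γ'.1) (k := k) x' fun q hq =>
    (key q hq).imp fun q' hq' => ⟨hq'.1, hq'.2.1, hq'.2.2.2⟩
  have hy := chart_move (g := γ.2⁻¹ * γ'.2) (k := k) y' fun q hq =>
    (key q hq).imp fun q' hq' => ⟨hq'.1, hq'.2.2.1, hq'.2.2.2⟩
  have h0 := congrFun (congrFun ha ⟨_, hx⟩) ⟨_, hy⟩
  rw [chart_entry, ← mul_smul, ← mul_smul] at h0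
  simp only [Prod.mk_mul_mk, mul_inv_cancel_left, one_mul] at h0
  rw [chart_entry, ← chart_shift a _ _ k, h0]
  rfl

/-- Every fixed pair is seen by a chart: `r ↦ h` is a homomorphism `ψ` (free right action), with
`ψ r = (κ x)⁻¹ r.1 (κ x) = (κ y)⁻¹ r.2 (κ y)`; conjugate its image to a representative. -/
lemma exists_chart (hX : Biset H X κ) {p : ℕ} {𝒬 : Set (Subgroup H)}
    (hc : ∀ Q' : Subgroup H, IsPGroup p Q' → Q' ≠ ⊥ →
      ∃ Q ∈ 𝒬, ∃ h : H, ∀ x, x ∈ Q ↔ h * x * h⁻¹ ∈ Q')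
    (hP : IsPGroup p P) (hP0 : P ≠ ⊥) {x y : X} (hxy : FixP H P x y) :
    ∃ Q ∈ 𝒬, ∃ γ, IsChart P Q γ ∧ ∃ (h : H) (x' y' : Fix X Q),
      x = ((γ.1, h) : G × H) • x'.1 ∧ y = ((γ.2, h) : G × H) • y'.1 := by
  have hk : ∀ (g : G) (k : H) (z : X), ((g, k) : G × H) • z = z →
      (k : G) = (κ z)⁻¹ * g * κ z := by
    intro g k z e
    have h1 := hX.map (g, k) z
    rw [e] at h1
    calc (k : G) = (κ z)⁻¹ * κ z * k := by group
      _ = (κ z)⁻¹ * (g * κ z * (k : G)⁻¹) * k := by rw [← h1]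
      _ = _ := by group
  let φ : G × G →* G := (MulAut.conj (κ x)⁻¹).toMonoidHom.comp (MonoidHom.fst G G)
  have hφ : ∀ r, φ r = (κ x)⁻¹ * r.1 * κ x := fun r => by simp [φ]
  have hmem : ∀ k : H, k ∈ (P.map φ).comap H.subtype ↔
      ∃ r ∈ P, ((r.1, k) : G × H) • x = x ∧ ((r.2, k) : G × H) • y = y := by
    intro k
    constructor
    · rintro ⟨r, hr, e⟩
      obtain ⟨k', e1, e2⟩ := hxy r hr
      obtain rfl : k' = k := Subtype.ext (by rw [hk _ _ _ e1, ← hφ, e]; rfl)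
      exact ⟨r, hr, e1, e2⟩
    · rintro ⟨r, hr, e1, -⟩
      exact ⟨r, hr, by rw [hφ, ← hk _ _ _ e1]; rfl⟩
  have hne : (P.map φ).comap H.subtype ≠ ⊥ := by
    intro hb
    refine hP0 ((Subgroup.eq_bot_iff_forall P).2 fun r hr => ?_)
    obtain ⟨k, e1, e2⟩ := hxy r hr
    have h1 : k ∈ (P.map φ).comap H.subtype := (hmem k).2 ⟨r, hr, e1, e2⟩
    rw [hb, Subgroup.mem_bot] at h1
    subst h1
    exact Prod.ext (hX.left _ _ e1) (hX.left _ _ e2)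
  obtain ⟨Q, hQ, k, hQk⟩ := hc _ ((hP.map φ).comap_subtype) hne
  have hr1 : ∀ (g : G) (q : H) (z : X), ((g, k * q * k⁻¹) : G × H) • z = z →
      g = κ z * k * q * (κ z * k)⁻¹ := by
    intro g q z e
    have h1 := hk _ _ _ e
    simp only [Subgroup.coe_mul, Subgroup.coe_inv] at h1
    calc g = κ z * ((κ z)⁻¹ * g * κ z) * (κ z)⁻¹ := by group
      _ = _ := by rw [← h1]; group
  have hfix : ∀ (g : G) (q : H) (z : X), ((g, k * q * k⁻¹) : G × H) • z = z →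
      (((q : G), q) : G × H) • (((κ z * k, k) : G × H)⁻¹ • z) = ((κ z * k, k) : G × H)⁻¹ • z := by
    intro g q z e
    have e' : (((q : G), q) : G × H) * ((κ z * k, k) : G × H)⁻¹ =
        ((κ z * k, k) : G × H)⁻¹ * (g, k * q * k⁻¹) := by
      refine Prod.ext ?_ ?_
      · change (q : G) * (κ z * k)⁻¹ = (κ z * k)⁻¹ * g
        conv_rhs => rw [hr1 g q z e]
        group
      · change q * k⁻¹ = k⁻¹ * (k * q * k⁻¹)
        group
    rw [← mul_smul, e', mul_smul, e]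
  refine ⟨Q, hQ, (κ x * k, κ y * k), fun r => ⟨fun hr => ?_, ?_⟩, k,
    ⟨((κ x * k, k) : G × H)⁻¹ • x, fun q hq => ?_⟩, ⟨((κ y * k, k) : G × H)⁻¹ • y, fun q hq => ?_⟩,
    (smul_inv_smul _ _).symm, (smul_inv_smul _ _).symm⟩
  · obtain ⟨k', e1, e2⟩ := hxy r hr
    have e : k' = k * (k⁻¹ * k' * k) * k⁻¹ := by group
    refine ⟨k⁻¹ * k' * k, (hQk _).2 (by rw [← e]; exact (hmem k').2 ⟨r, hr, e1, e2⟩), ?_⟩
    rw [e] at e1 e2
    exact Prod.ext (hr1 _ _ _ e1) (hr1 _ _ _ e2)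
  · rintro ⟨q, hq, rfl⟩
    obtain ⟨r, hr, e1, e2⟩ := (hmem _).1 ((hQk q).1 hq)
    have e : r = (κ x * k, κ y * k) * ((q : G), (q : G)) * (κ x * k, κ y * k)⁻¹ :=
      Prod.ext (hr1 _ _ _ e1) (hr1 _ _ _ e2)
    rwa [← e]
  · obtain ⟨r, -, e1, -⟩ := (hmem _).1 ((hQk q).1 hq)
    exact hfix _ _ _ e1
  · obtain ⟨r, -, -, e2⟩ := (hmem _).1 ((hQk q).1 hq)
    exact hfix _ _ _ e2

/-- Local kernels extend to fixed kernels that vanish in the inequivalent charts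
(`exists_br_lift`, translated by `γ`). -/
lemma exists_brc_lift (hX : Biset H X κ) (h : IsChart P Q γ)
    {M : Matrix (Fix X Q) (Fix X Q) (ResidueField R)} (hM : M ∈ LK (ResidueField R) Q) :
    ∃ a : Kern R H X, FixedBy (biRep R H X) P a ∧ brc Q γ a = M ∧
      ∀ Q' γ', IsChart P Q' γ' → ¬ ChartRel Q γ Q' γ' → brc Q' γ' a = 0 := by
  obtain ⟨a, ha, hc, hs⟩ := exists_br_lift (R := R) Q hM
  have e0 : biRep R H X γ⁻¹ (biRep R H X γ a) = a := by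
    rw [chart_comp, inv_mul_cancel, map_one]; rfl
  refine ⟨biRep R H X γ a, fun r hr => ?_, ?_, fun Q' γ' h' hn => ?_⟩
  · obtain ⟨q, hq, rfl⟩ := (h r).1 hr
    calc _ = biRep R H X γ (biRep R H X ((q : G), (q : G)) a) := by
          rw [chart_comp, chart_comp]; congr 2; group
      _ = _ := by rw [chart_diag.2 (hc q hq)]
  · rw [brc, e0, ha]
  · ext x' y'
    by_contra hne
    rw [chart_entry, biRep_entry, ← mul_smul, ← mul_smul] at hne
    have hne' : a.1 ((((γ.1⁻¹, 1) : G × H) * (γ'.1, 1)) • x'.1)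
        ((((γ.2⁻¹, 1) : G × H) * (γ'.2, 1)) • y'.1) ≠ 0 := by
      intro h0
      rw [h0, map_zero] at hne
      exact hne rfl
    obtain ⟨k, x, y, ex, -⟩ := hs _ _ hne'
    rw [← mul_smul] at ex
    simp only [Prod.mk_mul_mk, one_mul, mul_one] at ex
    refine hn ⟨γ.1⁻¹ * γ'.1 * (k : G)⁻¹, k, ?_, by group⟩
    rintro _ ⟨q, hq, rfl⟩
    obtain ⟨q', hq', e1, -⟩ := chart_pair h h' hq
    have h1 := x.2 q hq
    have h2 := x'.2 q' hq'
    have h3 : ((1, q'⁻¹ * (k⁻¹ * q * k)) : G × H) • x'.1 = x'.1 := by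
      have e : ((1, q'⁻¹ * (k⁻¹ * q * k)) : G × H) = (((q' : G), q') : G × H)⁻¹ *
          (((γ.1⁻¹ * γ'.1, k) : G × H)⁻¹ * (((q : G), q) * (γ.1⁻¹ * γ'.1, k))) := by
        refine Prod.ext ?_ ?_
        · change 1 = (q' : G)⁻¹ * ((γ.1⁻¹ * γ'.1)⁻¹ * ((q : G) * (γ.1⁻¹ * γ'.1)))
          rw [← e1]; group
        · change _ = q'⁻¹ * (k⁻¹ * (q * k))
          group
      rw [e, mul_smul, mul_smul, mul_smul, ← ex, h1, ex, inv_smul_smul, inv_smul_eq_iff, h2]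
    have h4 : (q' : G) = (k : G)⁻¹ * q * k := by
      have h5 := inv_mul_eq_one.1 (hX.right _ _ h3)
      rw [h5]; rfl
    calc _ = γ.1⁻¹ * γ'.1 * ((k : G)⁻¹ * q * k) * (γ.1⁻¹ * γ'.1)⁻¹ *
          (γ.1⁻¹ * γ'.1 * (k : G)⁻¹) := by group
      _ = _ := by rw [← h4, e1]

lemma brc_mul_right {p : ℕ} (hp : p.Prime) (hpR : (p : R) ∈ maximalIdeal R) (hQ : IsPGroup p Q)
    (h : IsChart P Q γ) {a u : Kern R H X} (ha : FixedBy (biRep R H X) P a) (hu : GInv u) :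
    brc Q γ (a * u) = brc Q γ a * br Q u.1 := by
  have e : biRep R H X γ⁻¹ (a * u) = biRep R H X γ⁻¹ a * u := by
    rw [biRep_apply, biRep_apply, mul_assoc, ← hu, mul_assoc, mul_assoc]
  rw [brc, e]
  exact br_mul hp hpR hQ (dInv_of_comm (h.comm ha)) (hu.dInv Q)

lemma brc_mul_left {p : ℕ} (hp : p.Prime) (hpR : (p : R) ∈ maximalIdeal R) (hQ : IsPGroup p Q)
    (h : IsChart P Q γ) {a u : Kern R H X} (ha : FixedBy (biRep R H X) P a) (hu : GInv u) :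
    brc Q γ (u * a) = br Q u.1 * brc Q γ a := by
  have e : biRep R H X γ⁻¹ (u * a) = u * biRep R H X γ⁻¹ a := by
    rw [biRep_apply, biRep_apply, mul_assoc, ← mul_assoc, hu, mul_assoc]
  rw [brc, e]
  exact br_mul hp hpR hQ (hu.dInv Q) (dInv_of_comm (h.comm ha))

lemma brc_add (a b : Kern R H X) : brc Q γ (a + b) = brc Q γ a + brc Q γ b := by
  rw [brc, map_add]
  exact br_add Q _ _

lemma brc_sub (a b : Kern R H X) : brc Q γ (a - b) = brc Q γ a - brc Q γ b := by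
  rw [brc, map_sub]
  exact br_sub Q _ _

lemma brc_mem_lk (a : Kern R H X) : brc Q γ a ∈ LK (ResidueField R) Q := by
  exact br_mem_lk Q _

end

/-- Gluing over the classes of charts: sum the local solutions over representatives of the
classes (the charts of `P` with `Q ∈ 𝒬` form a finite type with the setoid `ChartRel`). -/
theorem glue {L M : Type} [AddCommGroup L] [AddCommGroup M] (P : Subgroup (G × G))
    (𝒬 : Set (Subgroup H)) (S : AddSubgroup L) (θ : L →+ M) (w : M)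
    (U : Subgroup H → G × G → AddSubgroup M)
    (hU : ∀ Q γ Q' γ', IsChart P Q γ → IsChart P Q' γ' → ChartRel Q γ Q' γ' → U Q γ ≤ U Q' γ')
    (h : ∀ Q ∈ 𝒬, ∀ γ, IsChart P Q γ → ∃ l ∈ S, θ l - w ∈ U Q γ ∧
      ∀ Q' ∈ 𝒬, ∀ γ', IsChart P Q' γ' → ¬ ChartRel Q γ Q' γ' → θ l ∈ U Q' γ') :
    ∃ l ∈ S, ∀ Q ∈ 𝒬, ∀ γ, IsChart P Q γ → θ l - w ∈ U Q γ := by
  classical
  let T : Type := {t : Subgroup H × (G × G) // t.1 ∈ 𝒬 ∧ IsChart P t.1 t.2}
  let s : Setoid T := ⟨fun t t' => ChartRel t.1.1 t.1.2 t'.1.1 t'.1.2,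
    fun t => chartRel_refl _ _, fun {t t'} e => e.symm t.2.2 t'.2.2,
    fun {t t' t''} e e' => e.trans t.2.2 t'.2.2 t''.2.2 e'⟩
  have : Fintype (Quotient s) := Fintype.ofFinite _
  choose l hl h1 h2 using fun t : T => h t.1.1 t.2.1 t.1.2 t.2.2
  refine ⟨∑ c : Quotient s, l c.out, S.sum_mem fun c _ => hl _, fun Q hQ γ hγ => ?_⟩
  let t : T := ⟨(Q, γ), hQ, hγ⟩
  rw [map_sum, ← Finset.add_sum_erase _ _ (Finset.mem_univ (Quotient.mk s t)), add_sub_right_comm]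
  refine (U Q γ).add_mem (hU _ _ _ _ (Quotient.mk s t).out.2.2 hγ (Quotient.mk_out (s := s) t)
    (h1 _)) ((U Q γ).sum_mem fun c hc => h2 c.out Q hQ γ hγ fun e => ?_)
  refine (Finset.mem_erase.1 hc).1 ?_
  rw [← c.out_eq]
  exact Quotient.sound (s := s) e

/-- Vanishing in all charts means vanishing at all fixed pairs. -/
lemma entry_mem_of_brc (hX : Biset H X κ) {p : ℕ} {𝒬 : Set (Subgroup H)}
    (hc : ∀ Q' : Subgroup H, IsPGroup p Q' → Q' ≠ ⊥ →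
      ∃ Q ∈ 𝒬, ∃ h : H, ∀ x, x ∈ Q ↔ h * x * h⁻¹ ∈ Q')
    {P : Subgroup (G × G)} (hP : IsPGroup p P) (hP0 : P ≠ ⊥) {a : Kern R H X}
    (ha : ∀ Q ∈ 𝒬, ∀ γ, IsChart P Q γ → brc Q γ a = 0) {x y : X} (hxy : FixP H P x y) :
    a.1 x y ∈ maximalIdeal R := by
  obtain ⟨Q, hQ, γ, hγ, k, x', y', rfl, rfl⟩ := exists_chart hX hc hP hP0 hxy
  have h0 := congrFun (congrFun (ha Q hQ γ hγ) x') y'
  rw [chart_entry] at h0
  rw [chart_shift]
  exact (residue_eq_zero_iff _).1 h0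

end Pool.Agent.Lib.MP_b6945b_al.St
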