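import Mathlib

set_option autoImplicit false

/-!
The corner of an algebra as an algebra.
-/

namespace Pool.Agent.Lib.MP_b6945b_al.St

variable {R A : Type} [CommRing R] [Ring A] [Algebra R A] {e : A}

lemma corner_left (he : IsIdempotentElem e) (a : he.Corner) : e * a.1 = a.1 :=
  ((Subsemigroup.mem_corner_iff he).mp a.2).1

lemma corner_right (he : IsIdempotentElem e) (a : he.Corner) : a.1 * e = a.1 :=
  ((Subsemigroup.mem_corner_iff he).mp a.2).2

/-- The element `e y e` of the corner. -/
def cmk (he : IsIdempotentElem e) (y : A) : he.Corner := ⟨e * y * e, y, rfl⟩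

lemma cmk_val (he : IsIdempotentElem e) (y : A) : (cmk he y).1 = e * y * e := rfl

lemma corner_mul (he : IsIdempotentElem e) (a b : he.Corner) : (a * b).1 = a.1 * b.1 := rfl

lemma corner_add (he : IsIdempotentElem e) (a b : he.Corner) : (a + b).1 = a.1 + b.1 := rfl

lemma corner_one (he : IsIdempotentElem e) : (1 : he.Corner).1 = e := rfl

lemma corner_zero (he : IsIdempotentElem e) : (0 : he.Corner).1 = 0 := rfl

/-- The structure map of the corner. -/
def cornerMap (R : Type) [CommRing R] [Algebra R A] (he : IsIdempotentElem e) :
    R →+* he.Corner where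
  toFun r := ⟨r • e, r • (1 : A), by simp [he.eq]⟩
  map_one' := Subtype.ext (one_smul R e)
  map_mul' r r' := Subtype.ext (by
    change (r * r') • e = (r • e) * (r' • e)
    rw [smul_mul_smul_comm, he.eq])
  map_zero' := Subtype.ext (zero_smul R e)
  map_add' r r' := Subtype.ext (add_smul r r' e)

/-- The corner is an algebra. -/
scoped instance cornerAlgebra (he : IsIdempotentElem e) : Algebra R he.Corner where
  smul r a := ⟨r • a.1, (Subsemigroup.mem_corner_iff he).mpr
    ⟨by rw [mul_smul_comm, corner_left], by rw [smul_mul_assoc, corner_right]⟩⟩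
  algebraMap := cornerMap R he
  commutes' r a := Subtype.ext (by
    change (r • e) * a.1 = a.1 * (r • e)
    rw [smul_mul_assoc, mul_smul_comm, corner_left, corner_right])
  smul_def' r a := Subtype.ext (by
    change r • a.1 = (r • e) * a.1
    rw [smul_mul_assoc, corner_left])

lemma corner_smul (he : IsIdempotentElem e) (r : R) (a : he.Corner) : (r • a).1 = r • a.1 := rfl

/-- The inclusion of the corner. -/
def cval (R : Type) [CommRing R] [Algebra R A] (he : IsIdempotentElem e) : he.Corner →ₗ[R] A where
  toFun a := a.1
  map_add' _ _ := rfl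
  map_smul' _ _ := rfl

lemma cval_apply (he : IsIdempotentElem e) (a : he.Corner) : cval R he a = a.1 := rfl

/-- The projection to the corner. -/
def cproj (R : Type) [CommRing R] [Algebra R A] (he : IsIdempotentElem e) :
    A →ₗ[R] he.Corner where
  toFun := cmk he
  map_add' x y := Subtype.ext (by
    change e * (x + y) * e = e * x * e + e * y * e
    rw [mul_add, add_mul])
  map_smul' r x := Subtype.ext (by
    change e * (r • x) * e = r • (e * x * e)
    rw [mul_smul_comm, smul_mul_assoc])

lemma cproj_val (he : IsIdempotentElem e) (y : A) : (cproj R he y).1 = e * y * e := rfl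

lemma cproj_cval (he : IsIdempotentElem e) (a : he.Corner) : cproj R he a.1 = a :=
  Subtype.ext (by rw [cproj_val, corner_left, corner_right])

lemma corner_finite [Module.Finite R A] (he : IsIdempotentElem e) : Module.Finite R he.Corner :=
  Module.Finite.of_surjective (cproj R he) (fun a => ⟨a.1, cproj_cval he a⟩)

/-- The part of an order in the corner. -/
def cornerO (he : IsIdempotentElem e) (O : Subring A) (heO : e ∈ O) : Subring he.Corner where
  carrier := {a | a.1 ∈ O}
  zero_mem' := O.zero_mem
  one_mem' := heO
  add_mem' := fun ha hb => O.add_mem ha hb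
  neg_mem' := fun ha => O.neg_mem ha
  mul_mem' := fun ha hb => O.mul_mem ha hb

lemma mem_cornerO (he : IsIdempotentElem e) {O : Subring A} (heO : e ∈ O) {a : he.Corner} :
    a ∈ cornerO he O heO ↔ a.1 ∈ O := Iff.rfl

end Pool.Agent.Lib.MP_b6945b_al.St
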