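import Pool.Agent.Lib.MP_b6945b_al.St.Order
import Pool.Agent.Lib.MP_b6945b_al.St.CornerT

set_option autoImplicit false

/-!
Good deformations pass to full corners.
-/

namespace Pool.Agent.Lib.MP_b6945b_al.St

open PowerSeries

variable {K : Type} [Field K] {V : ValuationSubring K} {A A' A'' : Type} [Ring A] [Algebra K A]
  [Ring A'] [Algebra K A'] [Ring A''] [Algebra K A'']

lemma cornerEmb_cval {e : A} (he : IsIdempotentElem e) (O : Subring A) (heO : e ∈ O) :
    CornerEmb (cval K he) (cornerO he O heO) O :=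
  ⟨fun _ _ => rfl, fun _ _ h => Subtype.ext h, fun y => ⟨cmk he y, rfl⟩, fun _ => Iff.rfl⟩

lemma CornerEmb.corner_one_mul {ι : A →ₗ[K] A'} {O : Subring A} {O' : Subring A'}
    (h : CornerEmb ι O O') (a : A) : ι 1 * ι a = ι a := by
  rw [← h.map_mul, one_mul]

lemma CornerEmb.corner_mul_one {ι : A →ₗ[K] A'} {O : Subring A} {O' : Subring A'}
    (h : CornerEmb ι O O') (a : A) : ι a * ι 1 = ι a := by
  rw [← h.map_mul, mul_one]

lemma CornerEmb.corner_one_mem {ι : A →ₗ[K] A'} {O : Subring A} {O' : Subring A'}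
    (h : CornerEmb ι O O') : ι 1 ∈ O' := (h.mem_iff 1).1 O.one_mem

lemma CornerEmb.comp {ι : A →ₗ[K] A'} {ι' : A' →ₗ[K] A''} {O : Subring A} {O' : Subring A'}
    {O'' : Subring A''} (h : CornerEmb ι O O') (h' : CornerEmb ι' O' O'') :
    CornerEmb (ι' ∘ₗ ι) O O'' := by
  refine ⟨fun a b => ?_, h'.inj.comp h.inj, fun y => ?_, fun a => ?_⟩
  · simp only [LinearMap.comp_apply, h.map_mul, h'.map_mul]
  · obtain ⟨a', ha'⟩ := h'.range y
    obtain ⟨a, ha⟩ := h.range a'
    refine ⟨a, ?_⟩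
    simp only [LinearMap.comp_apply]
    rw [ha, h'.map_mul, h'.map_mul, ha', ← mul_assoc, ← mul_assoc, h'.corner_mul_one, mul_assoc,
      h'.corner_one_mul]
  · rw [h.mem_iff, h'.mem_iff, LinearMap.comp_apply]

/-- The retraction `y ↦ ι⁻¹ (ε y ε)`. -/
lemma CornerEmb.exists_retr {ι : A →ₗ[K] A'} {O : Subring A} {O' : Subring A'}
    (h : CornerEmb ι O O') :
    ∃ κ : A' →ₗ[K] A, (∀ y, ι (κ y) = ι 1 * y * ι 1) ∧ (∀ a, κ (ι a) = a) ∧
      ∀ y ∈ O', κ y ∈ O := by
  choose k hk using h.range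
  let κ : A' →ₗ[K] A :=
    { toFun := k
      map_add' := fun x y => h.inj (by rw [map_add, hk, hk, hk, mul_add, add_mul])
      map_smul' := fun r x => h.inj (by
        rw [RingHom.id_apply, map_smul, hk, hk, mul_smul_comm, smul_mul_assoc]) }
  refine ⟨κ, hk, fun a => h.inj ?_, fun y hy => (h.mem_iff _).2 ?_⟩
  · change ι (k (ι a)) = ι a
    rw [hk, h.corner_one_mul, h.corner_mul_one]
  · change ι (k y) ∈ O'
    rw [hk]
    exact O'.mul_mem (O'.mul_mem h.corner_one_mem hy) h.corner_one_mem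

/-- The retraction of a central element is central. -/
lemma CornerEmb.corner_central {ι : A →ₗ[K] A'} {O : Subring A} {O' : Subring A'}
    (h : CornerEmb ι O O') {z : A} {z' : A'} (hz : ι z = ι 1 * z' * ι 1)
    (hc : ∀ y, z' * y = y * z') (a : A) : z * a = a * z := by
  apply h.inj
  rw [h.map_mul, h.map_mul, hz, mul_assoc, h.corner_one_mul, mul_assoc, hc, ← mul_assoc,
    h.corner_one_mul, ← mul_assoc, ← mul_assoc, h.corner_mul_one, mul_assoc, hc, ← mul_assoc,
    h.corner_mul_one]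

lemma CornerEmb.corner_slide {ι : A →ₗ[K] A'} {O : Subring A} {O' : Subring A'}
    (h : CornerEmb ι O O') {w : A} (hw : ∀ a, a * w = w * a) (y : A') :
    ι 1 * y * ι w = ι w * y * ι 1 := by
  obtain ⟨a, ha⟩ := h.range y
  calc ι 1 * y * ι w = ι 1 * y * ι 1 * ι w := by rw [mul_assoc _ (ι 1), h.corner_one_mul]
    _ = ι w * (ι 1 * y * ι 1) := by rw [← ha, ← h.map_mul, hw, h.map_mul]
    _ = ι w * y * ι 1 := by rw [← mul_assoc, ← mul_assoc, h.corner_mul_one]

/-- The centres agree: `z ↦ ι⁻¹ (z ε)`, with inverse `z ↦ ∑ a i * ι z * b i`. -/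
lemma CornerEmb.exists_center {ι : A →ₗ[K] A'} {O : Subring A} {O' : Subring A'}
    (h : CornerEmb ι O O') (hf : InIdl O' (ι 1) 1) :
    ∃ e : Subalgebra.center K A' ≃ₐ[K] Subalgebra.center K A,
      ∀ z, ι (e z : A) = (z : A') * ι 1 ∧ ((e z : A) ∈ O ↔ (z : A') ∈ O') := by
  obtain ⟨κ, hκ, -, -⟩ := h.exists_retr
  obtain ⟨n, a, b, ha, hb, h1⟩ := hf
  have hc : ∀ (z : Subalgebra.center K A') (y : A'), (z : A') * y = y * z := fun z y =>
    (Subalgebra.mem_center_iff.1 z.2 y).symm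
  have hz : ∀ z : Subalgebra.center K A', ι (κ z) = (z : A') * ι 1 := fun z => by
    rw [hκ, ← hc, mul_assoc, h.corner_one_mul]
  have hm : ∀ z : Subalgebra.center K A',
      (κ ∘ₗ (Subalgebra.center K A').val.toLinearMap) z ∈ (Subalgebra.center K A).toSubmodule :=
    fun z => (Subalgebra.mem_center_iff (R := K)).2 fun c =>
      (h.corner_central (hκ z) (hc z) c).symm
  let f : Subalgebra.center K A' →ₗ[K] Subalgebra.center K A :=
    LinearMap.codRestrict (Subalgebra.center K A).toSubmodule _ hm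
  have hf : ∀ z, (f z : A) = κ z := fun z => rfl
  have hrec : ∀ z : Subalgebra.center K A', (z : A') = ∑ i, a i * ((z : A') * ι 1) * b i := by
    intro z
    conv_lhs => rw [← mul_one (z : A'), h1, Finset.mul_sum]
    refine Finset.sum_congr rfl fun i _ => ?_
    rw [← mul_assoc, ← mul_assoc, hc, mul_assoc (a i)]
  let φ : Subalgebra.center K A' →ₐ[K] Subalgebra.center K A :=
    AlgHom.ofLinearMap f
      (Subtype.ext (h.inj (by rw [hf, hz]; simp)))
      (fun x y => Subtype.ext (h.inj (by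
        rw [Subalgebra.coe_mul, h.map_mul, hf, hf, hf, hz, hz, hz, Subalgebra.coe_mul, mul_assoc,
          mul_assoc, ← mul_assoc (ι 1), ← hc, mul_assoc, h.corner_one_mul])))
  have hφ : ∀ z, (φ z : A) = κ z := fun z => rfl
  have hinj : Function.Injective φ := by
    rw [injective_iff_map_eq_zero]
    intro z h0
    have e : (z : A') * ι 1 = 0 := by rw [← hz, ← hφ, h0]; simp
    apply Subtype.ext
    rw [hrec z, e]
    simp
  have hsurj : Function.Surjective φ := by
    intro w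
    have hw : ∀ c, c * (w : A) = w * c := Subalgebra.mem_center_iff.1 w.2
    have hcen : (∑ i, a i * ι w * b i) ∈ Subalgebra.center K A' := by
      refine Subalgebra.mem_center_iff.2 fun y => ?_
      calc y * ∑ i, a i * ι w * b i = ∑ i, 1 * (y * a i * ι w * b i) := by
            simp only [Finset.mul_sum, one_mul, mul_assoc]
        _ = ∑ i, ∑ j, a j * (ι 1 * (b j * y * a i) * ι w) * b i := by
            refine Finset.sum_congr rfl fun i _ => ?_
            conv_lhs => rw [h1, Finset.sum_mul]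
            simp only [mul_assoc]
        _ = ∑ j, ∑ i, a j * (ι w * (b j * y * a i) * ι 1) * b i := by
            rw [Finset.sum_comm]
            simp only [h.corner_slide hw]
        _ = ∑ j, a j * ι w * b j * y * 1 := by
            refine Finset.sum_congr rfl fun j _ => ?_
            conv_rhs => rw [h1, Finset.mul_sum]
            simp only [mul_assoc]
        _ = (∑ i, a i * ι w * b i) * y := by simp only [Finset.sum_mul, mul_one]
    refine ⟨⟨_, hcen⟩, Subtype.ext (h.inj ?_)⟩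
    rw [hφ, hκ]
    calc ι 1 * (∑ i, a i * ι w * b i) * ι 1 = ∑ i, (ι 1 * a i * ι w) * b i * ι 1 := by
          simp only [Finset.mul_sum, Finset.sum_mul, mul_assoc]
      _ = ι w * (∑ i, a i * ι 1 * b i) * ι 1 := by
          simp only [h.corner_slide hw, Finset.mul_sum, Finset.sum_mul, mul_assoc]
      _ = ι w := by rw [← h1, mul_one, h.corner_mul_one]
  refine ⟨AlgEquiv.ofBijective φ ⟨hinj, hsurj⟩, fun z => ⟨hz z, ?_⟩⟩
  change κ z ∈ O ↔ _
  rw [h.mem_iff, hz]
  refine ⟨fun hm => ?_, fun hm => O'.mul_mem hm h.corner_one_mem⟩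
  rw [hrec z]
  exact O'.sum_mem fun i _ => O'.mul_mem (O'.mul_mem (ha i) hm) (hb i)

lemma CornerEmb.nilMod {ι : A →ₗ[K] A'} {O : Subring A} {O' : Subring A'}
    (h : CornerEmb ι O O') {z : A} {z' : A'} (hz : ι z = z' * ι 1) (hc : z' * ι 1 = ι 1 * z')
    (hn : NilMod V O' z') : NilMod V O z := by
  obtain ⟨κ, hκ, -, hO⟩ := h.exists_retr
  obtain ⟨n, m, hm, y, hy, e⟩ := hn
  have hp : ∀ k : ℕ, ι (z ^ k) = z' ^ k * ι 1 := by
    intro k
    induction k with
    | zero => rw [pow_zero, pow_zero, one_mul]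
    | succ k ih =>
      rw [pow_succ, h.map_mul, ih, hz, pow_succ, mul_assoc, ← mul_assoc (ι 1), ← hc, mul_assoc,
        h.corner_one_mul, mul_assoc]
  refine ⟨n, m, hm, κ y, hO y hy, h.inj ?_⟩
  rw [← h.corner_one_mul, hp, e, map_smul, hκ, smul_mul_assoc, mul_smul_comm, mul_assoc]

lemma CornerEmb.localCentre {ι : A →ₗ[K] A'} {O : Subring A} {O' : Subring A'}
    (h : CornerEmb ι O O') (hf : InIdl O' (ι 1) 1) (hl : LocalCentre V O') :
    LocalCentre V O := by
  intro z hz hc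
  obtain ⟨e, he⟩ := h.exists_center hf
  obtain ⟨z', hz'⟩ := e.surjective ⟨z, Subalgebra.mem_center_iff.2 fun b => (hc b).symm⟩
  obtain ⟨h1, h2⟩ := he z'
  rw [hz'] at h1 h2
  have hc' : ∀ y, (z' : A') * y = y * z' := fun y => (Subalgebra.mem_center_iff.1 z'.2 y).symm
  obtain ⟨v, hv, hn⟩ := hl z' (h2.1 hz) hc'
  refine ⟨v, hv, h.nilMod ?_ ?_ hn⟩
  · rw [map_sub, h1, sub_mul, Algebra.algebraMap_eq_smul_one, map_smul, ← Algebra.smul_def]
  · rw [sub_mul, mul_sub, hc', Algebra.commutes]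

/-- Newton iteration: an element of a closed subring that is idempotent modulo `t` is congruent
to an idempotent of the subring. -/
lemma corner_lift_idem {Λ : Subring A⟦X⟧} (hΛ : Closed (Λ : Set A⟦X⟧)) {E : A⟦X⟧} (hE : E ∈ Λ)
    (h0 : Ord 1 (E * E - E)) : ∃ L ∈ Λ, L * L = L ∧ coeff 0 L = coeff 0 E := by
  let Φ : A⟦X⟧ → A⟦X⟧ := fun F => F + (1 - (F + F)) * (F * F - F)
  have hΦ : ∀ F, Φ F * Φ F - Φ F =
      (F * F - F) * (F * F - F) * (4 * (F * F - F) - 3) := fun F => by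
    simp only [Φ]
    noncomm_ring
  have hm : ∀ n, Φ^[n] E ∈ Λ := by
    intro n
    induction n with
    | zero => exact hE
    | succ n ih =>
      rw [Function.iterate_succ_apply']
      exact Λ.add_mem ih (Λ.mul_mem (Λ.sub_mem Λ.one_mem (Λ.add_mem ih ih))
        (Λ.sub_mem (Λ.mul_mem ih ih) ih))
  have hN : ∀ n, Ord (n + 1) (Φ^[n] E * Φ^[n] E - Φ^[n] E) := by
    intro n
    induction n with
    | zero => exact h0
    | succ n ih =>
      rw [Function.iterate_succ_apply', hΦ]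
      exact ((ih.mul ih).mono (by omega)).mul_right _
  have hs : ∀ n, Ord (n + 1) (Φ^[n + 1] E - Φ^[n] E) := by
    intro n
    rw [Function.iterate_succ_apply']
    have e : ∀ F, Φ F - F = (1 - (F + F)) * (F * F - F) := fun F => add_sub_cancel_left _ _
    rw [e]
    exact (hN n).mul_left _
  obtain ⟨L, hL⟩ := exists_lim (fun n => Φ^[n] E) (fun n => (hs n).mono (Nat.le_succ n))
  refine ⟨L, hΛ L fun n => ⟨_, hm n, hL n⟩, ?_, ?_⟩
  · rw [← sub_eq_zero]
    refine eq_zero_of_ord fun n => ?_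
    have e : L * L - L = (L - Φ^[n] E) * L + Φ^[n] E * (L - Φ^[n] E) - (L - Φ^[n] E) +
        (Φ^[n] E * Φ^[n] E - Φ^[n] E) := by noncomm_ring
    rw [e]
    exact ((((hL n).mul_right _).add ((hL n).mul_left _)).sub (hL n)).add
      ((hN n).mono (Nat.le_succ n))
  · have e := ord_one_iff.1 ((hL 1).add (hs 0))
    rw [sub_add_sub_cancel, map_sub, sub_eq_zero] at e
    exact e

/-- Idempotents lift and are conjugate to their constant term.  With a lift `E ∈ Λ`,
`N = E ^ 2 - E`, solve `Y = Y ^ 2 + N (1 + 4 N)⁻¹` in the closed set of `Y ∈ Λ` with constant term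
`0` commuting with `E` (`exists_fixed`); `E' = E + (1 - 2 E) Y` is idempotent, and
`U = C ε * E' + (1 - C ε) * (1 - E')` satisfies `U E' = C ε U`. -/
lemma Deform.exists_conj_idem {O : Subring A} {s : A →ₗ[K] K} {Λ : Subring A⟦X⟧} {g : A⟦X⟧}
    (h : Deform V O s Λ g) {ε : A} (hε : IsIdempotentElem ε) (hO : ε ∈ O) :
    ∃ U : (A⟦X⟧)ˣ, coeff 0 (U : A⟦X⟧) = 1 ∧ (C ε : A⟦X⟧) ∈ conjSub U Λ := by
  obtain ⟨E, hE, hE0⟩ := (h.const ε).1 hO
  obtain ⟨L, hL, hLL, hL0⟩ := corner_lift_idem h.closed hE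
    (ord_one_iff.2 (by rw [map_sub, coeff_zero_mul', hE0, hε.eq, sub_self]))
  rw [hE0] at hL0
  have hCC : (C ε : A⟦X⟧) * C ε = C ε := by rw [← map_mul, hε.eq]
  have hU0 : coeff 0 (C ε * L + (1 - C ε) * (1 - L) : A⟦X⟧) = 1 := by
    rw [map_add, coeff_zero_mul', coeff_zero_mul', map_sub, map_sub, hL0, coeff_zero_C,
      coeff_zero_one, hε.eq, hε.one_sub.eq, add_sub_cancel]
  obtain ⟨G, -, hG1, hG2, -⟩ := exists_inv_coefAlg (⊤ : Subalgebra K A)
    (F := C ε * L + (1 - C ε) * (1 - L)) (fun _ => trivial) (w := 1) trivial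
    (by rw [hU0, one_mul]) (by rw [hU0, one_mul])
  refine ⟨⟨_, G, hG2, hG1⟩, hU0, mem_conjSub.2 ⟨L, hL, ?_⟩⟩
  change (C ε * L + (1 - C ε) * (1 - L)) * L * G = C ε
  have e1 : (C ε * L + (1 - C ε) * (1 - L)) * L = C ε * L := by
    rw [add_mul, mul_assoc, hLL, mul_assoc, sub_mul 1 L, one_mul, hLL, sub_self, mul_zero,
      add_zero]
  have e2 : C ε * (C ε * L + (1 - C ε) * (1 - L)) = C ε * L := by
    rw [mul_add, ← mul_assoc, hCC, ← mul_assoc, mul_sub (C ε), mul_one, hCC, sub_self, zero_mul,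
      add_zero]
  rw [e1, ← e2, mul_assoc, hG2, mul_one]

lemma corner_ext_mul {ι : A →ₗ[K] A'} (h : ∀ a b, ι (a * b) = ι a * ι b) (F G : A⟦X⟧) :
    ext ι (F * G) = ext ι F * ext ι G := by
  ext n
  simp only [coeff_ext, coeff_mul, map_sum, h]

lemma corner_ext_C (ι : A →ₗ[K] A') (a : A) : ext ι (C a : A⟦X⟧) = C (ι a) := by
  ext n
  rw [coeff_ext, coeff_C, coeff_C]
  split_ifs
  · rfl
  · exact map_zero ι

/-- The part of a lattice in a corner. -/
def cornerLat {ι : A →ₗ[K] A'} (h : ∀ a b, ι (a * b) = ι a * ι b) (Λ : Subring A'⟦X⟧)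
    (h1 : (C (ι 1) : A'⟦X⟧) ∈ Λ) : Subring A⟦X⟧ where
  carrier := {F | ext ι F ∈ Λ}
  zero_mem' := by
    change ext ι 0 ∈ Λ
    rw [map_zero]; exact Λ.zero_mem
  one_mem' := by
    change ext ι 1 ∈ Λ
    rw [← map_one (C : A →+* A⟦X⟧), corner_ext_C]; exact h1
  add_mem' := fun {a b} ha hb => by
    change ext ι (a + b) ∈ Λ
    rw [map_add]; exact Λ.add_mem ha hb
  neg_mem' := fun {a} ha => by
    change ext ι (-a) ∈ Λ
    rw [map_neg]; exact Λ.neg_mem ha
  mul_mem' := fun {a b} ha hb => by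
    change ext ι (a * b) ∈ Λ
    rw [corner_ext_mul h]; exact Λ.mul_mem ha hb

/-- After conjugation `C ε ∈ Λ'`; take `Λ = {F | ext ι F ∈ Λ'}`, `s = s' ∘ ι`, `g = ext κ g'`,
frames `ext κ β`.  For `x`: lift `a i, b i` to `Λ'`; `S = ∑ a i * C ε * b i` has constant term
one, so is a unit of `Λ'`; take `x = ext κ (∑ b i * S⁻¹ * x' * a i)`; traces on the centres agree
by `Algebra.trace_eq_of_algEquiv`. -/
theorem CornerEmb.good {p : ℕ} {ι : A →ₗ[K] A'} {O : Subring A} {O' : Subring A'}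
    (h : CornerEmb ι O O') (hf : InIdl O' (ι 1) 1) (hG : Good V p O') : Good V p O := by
  obtain ⟨s', Λ₀, g', D₀, X₀, hp, ⟨v, hv, hv', hn⟩, hl⟩ := hG
  obtain ⟨U, hU, hε⟩ := D₀.exists_conj_idem (ε := ι 1) (h.corner_one_mul 1) h.corner_one_mem
  have D := D₀.conj U hU
  obtain ⟨x', hx', hX⟩ := XCond.conj D₀ X₀ U
  generalize conjSub U Λ₀ = Λ' at hε D hx'
  obtain ⟨κ, hκ, hκι, hκO⟩ := h.exists_retr
  have hmul := corner_ext_mul h.map_mul
  have hικ : ∀ G, ext ι (ext κ G) = C (ι 1) * G * C (ι 1) := fun G => by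
    ext n
    rw [coeff_ext, coeff_ext, hκ, coeff_mul_C, coeff_C_mul]
  have hκι' : ∀ F, ext κ (ext ι F) = F := fun F => by
    ext n
    rw [coeff_ext, coeff_ext, hκι]
  have hl1 : ∀ F, C (ι 1) * ext ι F = ext ι F := fun F => by
    rw [← corner_ext_C, ← hmul, map_one, one_mul]
  have hr1 : ∀ F, ext ι F * C (ι 1) = ext ι F := fun F => by
    rw [← corner_ext_C, ← hmul, map_one, mul_one]
  have hCC : (C (ι 1) : A'⟦X⟧) * C (ι 1) = C (ι 1) := by
    rw [← _root_.map_mul, h.corner_one_mul]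
  have hst : ∀ F, st (s' ∘ₗ ι) (ext κ g') F = st s' g' (ext ι F) := fun F => by
    have e : ext ι (ext κ g' * F) = g' * ext ι F := by
      rw [hmul, hικ, mul_assoc, hl1, ← D.g_comm, mul_assoc, hl1]
    rw [st_apply, st_apply, ← e]
    ext n
    rw [coeff_extF, coeff_extF, coeff_ext, LinearMap.comp_apply]
  let Λ := cornerLat h.map_mul Λ' hε
  have hΛ : ∀ F, F ∈ Λ ↔ ext ι F ∈ Λ' := fun F => Iff.rfl
  have hκΛ : ∀ G ∈ Λ', ext κ G ∈ Λ := fun G hG => by
    rw [hΛ, hικ]
    exact Λ'.mul_mem (Λ'.mul_mem hε hG) hε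
  refine ⟨s' ∘ₗ ι, Λ, ext κ g', ⟨?_, ?_, ?_, ?_, ?_, ?_, ?_⟩, ?_, ?_, ⟨v, hv, hv', ?_⟩,
    h.localCentre hf hl⟩
  · intro r hr F hF
    rw [hΛ, map_smul]
    exact D.smul_mem r hr _ hF
  · intro x y
    rw [LinearMap.comp_apply, LinearMap.comp_apply, h.map_mul, h.map_mul, D.symm]
  · intro m a
    rw [coeff_ext]
    exact h.corner_central (hκ _) (D.central m) a
  · rw [coeff_ext, D.g_zero]
    apply h.inj
    rw [hκ, mul_one, h.corner_one_mul]
  · intro F hF
    rw [hst]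
    exact D.form_mem _ hF
  · obtain ⟨n, β, β', hβ, hβ', hF⟩ := D.frame
    refine ⟨n, fun i => ext κ (β i), fun i => ext κ (β' i), fun i => hκΛ _ (hβ i),
      fun i => hκΛ _ (hβ' i), fun _ => trivial, fun _ => trivial, fun x _ y _ => ?_,
      fun y _ => ?_⟩
    · rw [hst, hst, hmul, hmul, D.st_symm]
    · have e : ∀ i, st (s' ∘ₗ ι) (ext κ g') (y * ext κ (β' i)) = st s' g' (ext ι y * β' i) := by
        intro i
        rw [hst, hmul, hικ, ← mul_assoc, D.st_symm, ← mul_assoc, ← mul_assoc, hl1, hr1]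
      have e' := congrArg (ext κ) (hF.repro (ext ι y) trivial)
      rw [hκι', map_sum] at e'
      simpa only [e, map_smul] using e'
  · intro a
    constructor
    · intro ha
      obtain ⟨G, hG, e⟩ := (D.const _).1 ((h.mem_iff a).1 ha)
      exact ⟨ext κ G, hκΛ G hG, by rw [coeff_ext, e, hκι]⟩
    · rintro ⟨F, hF, rfl⟩
      exact (h.mem_iff _).2 ((D.const _).2 ⟨_, hF, coeff_ext _ _ _⟩)
  · obtain ⟨e, he⟩ := h.exists_center hf
    obtain ⟨n, a, b, ha, hb, h1⟩ := hf
    choose a' ha' ha0 using fun i => (D.const _).1 (ha i)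
    choose b' hb' hb0 using fun i => (D.const _).1 (hb i)
    have hS0 : coeff 0 (∑ i, a' i * C (ι 1) * b' i) = 1 := by
      rw [map_sum, h1]
      exact Finset.sum_congr rfl fun i _ => by
        rw [coeff_zero_mul', coeff_zero_mul', ha0, hb0, coeff_zero_C]
    obtain ⟨S, hS, -, hS2⟩ := D.exists_inv (F := ∑ i, a' i * C (ι 1) * b' i)
      (Λ'.sum_mem fun i _ => Λ'.mul_mem (Λ'.mul_mem (ha' i) hε) (hb' i)) O'.one_mem
      (by rw [hS0, one_mul]) (by rw [hS0, one_mul])
    refine ⟨ext κ (∑ i, b' i * S * x' * a' i), hκΛ _ (Λ'.sum_mem fun i _ =>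
      Λ'.mul_mem (Λ'.mul_mem (Λ'.mul_mem (hb' i) hS) hx') (ha' i)), fun ζ => ?_⟩
    obtain ⟨ζ', rfl⟩ := e.surjective ζ
    have hc : ∀ F : A'⟦X⟧, C (ζ' : A') * F = F * C (ζ' : A') := fun F => by
      ext m
      rw [coeff_C_mul, coeff_mul_C]
      exact (Subalgebra.mem_center_iff.1 ζ'.2 _).symm
    rw [Algebra.trace_eq_of_algEquiv, ← hX, hst, hmul, hικ, corner_ext_C, (he ζ').1,
      _root_.map_mul (C : A' →+* A'⟦X⟧)]
    calc st s' g' (C (ζ' : A') * C (ι 1) * (C (ι 1) * (∑ i, b' i * S * x' * a' i) * C (ι 1)))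
        = ∑ i, st s' g' ((C (ζ' : A') * C (ι 1) * b' i * S * x') * (a' i * C (ι 1))) := by
          rw [← map_sum, ← mul_assoc, ← mul_assoc, mul_assoc _ (C (ι 1)) (C (ι 1)), hCC]
          simp only [Finset.mul_sum, Finset.sum_mul, mul_assoc]
      _ = ∑ i, st s' g' (C (ζ' : A') * ((a' i * C (ι 1) * b' i) * S) * x') := by
          refine Finset.sum_congr rfl fun i _ => ?_
          rw [D.st_symm]
          congr 1
          calc a' i * C (ι 1) * (C (ζ' : A') * C (ι 1) * b' i * S * x')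
              = (a' i * C (ι 1) * C (ζ' : A')) * (C (ι 1) * b' i * S * x') := by
                simp only [mul_assoc]
            _ = C (ζ' : A') * (a' i * (C (ι 1) * C (ι 1)) * b' i * S) * x' := by
                rw [← hc]
                simp only [mul_assoc]
            _ = _ := by rw [hCC]
      _ = st s' g' (C (ζ' : A') * x') := by
          rw [← map_sum, ← Finset.sum_mul, ← Finset.mul_sum, ← Finset.sum_mul, hS2, mul_one]
  · intro m
    rw [coeff_ext, ← map_smul]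
    exact hκO _ (hp m)
  · refine h.nilMod ?_ ?_ hn
    · rw [coeff_ext, map_sub, map_smul, hκ, ← D.central, mul_assoc, h.corner_one_mul, sub_mul,
        smul_mul_assoc, Algebra.algebraMap_eq_smul_one, map_smul, ← Algebra.smul_def]
    · rw [sub_mul, mul_sub, smul_mul_assoc, mul_smul_comm, D.central, Algebra.commutes]

end Pool.Agent.Lib.MP_b6945b_al.St
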