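import Pool.Agent.Lib.MP_b6945b_al.St.DefD

set_option autoImplicit false

/-!
Crossed products of the group ring of an abelian group with a finite group.
-/

namespace Pool.Agent.Lib.MP_b6945b_al.St

variable {K : Type} [Field K] (V : ValuationSubring K) {D E : Type} [CommGroup D]
  [Fintype D] [Group E] [Fintype E] {A : Type} [Ring A] [Algebra K A]

/-- The order `O` is a crossed product of the group ring of `D` over `V` with `E`. -/
structure CrossData (φ : E →* MulAut D) (O : Subring A) (δ : MonoidAlgebra K D →ₐ[K] A)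
    (u : E → A) (c : E → E → MonoidAlgebra K D) : Prop where
  one : u 1 = 1
  unit : ∀ l, ∃ w ∈ O, u l * w = 1 ∧ w * u l = 1
  comm : ∀ l a, u l * δ a = δ (act K φ l a) * u l
  mul : ∀ l m, u l * u m = δ (c l m) * u (l * m)
  c_mem : ∀ l m, c l m ∈ GO V D
  bij : Function.Bijective (fun a : E → MonoidAlgebra K D => ∑ l, δ (a l) * u l)
  mem_iff : ∀ a : E → MonoidAlgebra K D, (∑ l, δ (a l) * u l) ∈ O ↔ ∀ l, a l ∈ GO V D

/-- The standard form of a crossed product. -/
def IsCrossForm (δ : MonoidAlgebra K D →ₐ[K] A) (u : E → A) (s : A →ₗ[K] K) : Prop :=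
  ∀ a : E → MonoidAlgebra K D, s (∑ l, δ (a l) * u l) = (a 1).coeff 1

end Pool.Agent.Lib.MP_b6945b_al.St
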