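import Pool.Agent.Lib.MP_b6945b_al.St.Order

set_option autoImplicit false

/-!
If the commutator space of the order is pure, the trace of the centre is represented by an element
of the deformation.
-/

namespace Pool.Agent.Lib.MP_b6945b_al.St

open PowerSeries

variable {K : Type} [Field K] {V : ValuationSubring K} {A : Type} [Ring A] [Algebra K A]

/-- Gaussian elimination over a valuation ring: induct on the dimension of `Z`; scale a nonzero
`z` so that all `s (z * β' j)` are in `V` and one of them is `1`. -/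
lemma SymOrder.exists_dual {O : Subring A} {s : A →ₗ[K] K} (h : SymOrder V O s)
    (Z : Submodule K A) :
    ∃ (n : ℕ) (z x : Fin n → A), (∀ i, z i ∈ Z) ∧ (∀ i, z i ∈ O) ∧ (∀ i, x i ∈ O) ∧
      (∀ i j, s (z i * x j) = if i = j then 1 else 0) ∧
      ∀ y ∈ Z, ∑ i, s (y * x i) • z i = y := by
  have hfd := h.finiteDimensional
  obtain ⟨m, β, β', hβ, hβ', hfr⟩ := h.frame
  induction hn : Module.finrank K Z using Nat.strong_induction_on generalizing Z with
  | _ n ih =>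
  by_cases hZ : Z = ⊥
  · refine ⟨0, Fin.elim0, Fin.elim0, fun i => i.elim0, fun i => i.elim0, fun i => i.elim0,
      fun i => i.elim0, fun y hy => ?_⟩
    rw [hZ, Submodule.mem_bot] at hy
    simp [hy]
  obtain ⟨z₀, hz₀, hne⟩ := Submodule.exists_mem_ne_zero_of_ne_bot hZ
  have hex : ∃ j, s (z₀ * β' j) ≠ 0 := by
    by_contra hc
    push Not at hc
    apply hne
    rw [← hfr.repro z₀ trivial]
    simp [hc]
  obtain ⟨j₁, hj₁⟩ := hex
  obtain ⟨j₀, -, hj₀⟩ := Finset.exists_max_image (Finset.univ : Finset (Fin m))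
    (fun j => V.valuation (s (z₀ * β' j))) ⟨j₁, Finset.mem_univ _⟩
  have hc : s (z₀ * β' j₀) ≠ 0 := by
    intro e
    have := hj₀ j₁ (Finset.mem_univ _)
    rw [e, map_zero, le_zero_iff, _root_.map_eq_zero] at this
    exact hj₁ this
  obtain ⟨z₁, hz₁⟩ : ∃ z₁ : A, z₁ = (s (z₀ * β' j₀))⁻¹ • z₀ := ⟨_, rfl⟩
  have hz₁Z : z₁ ∈ Z := by rw [hz₁]; exact Z.smul_mem _ hz₀
  have hz₁O : z₁ ∈ O := by
    rw [← hfr.repro z₁ trivial]
    refine O.sum_mem fun j _ => h.smul_mem _ ?_ _ (hβ j)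
    rw [hz₁, smul_mul_assoc, map_smul, smul_eq_mul, ← V.valuation_le_one_iff, map_mul, map_inv₀]
    have h0 : 0 < V.valuation (s (z₀ * β' j₀)) := zero_lt_iff.2 ((map_ne_zero _).2 hc)
    rw [inv_mul_le_iff₀ h0, mul_one]
    exact hj₀ j (Finset.mem_univ _)
  have h11 : s (z₁ * β' j₀) = 1 := by
    rw [hz₁, smul_mul_assoc, map_smul, smul_eq_mul, inv_mul_cancel₀ hc]
  let Z' : Submodule K A := Z ⊓ LinearMap.ker (s ∘ₗ LinearMap.mulRight K (β' j₀))
  have hZ' : ∀ y, y ∈ Z' ↔ y ∈ Z ∧ s (y * β' j₀) = 0 := fun y => Iff.rfl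
  have hlt : Z' < Z := by
    refine lt_of_le_of_ne inf_le_left fun e => ?_
    have : z₁ ∈ Z' := e ▸ hz₁Z
    rw [hZ', h11] at this
    exact one_ne_zero this.2
  obtain ⟨k, z, x, hzZ, hzO, hxO, hzx, hrep⟩ :=
    ih _ (hn ▸ Submodule.finrank_lt_finrank_of_lt hlt) Z' rfl
  refine ⟨k + 1, Fin.cons z₁ z, Fin.cons (β' j₀) fun i => x i - s (z₁ * x i) • β' j₀, ?_, ?_, ?_,
    ?_, ?_⟩
  · exact Fin.cases hz₁Z fun i => ((hZ' _).1 (hzZ i)).1
  · exact Fin.cases hz₁O hzO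
  · refine Fin.cases (hβ' j₀) fun i => ?_
    exact O.sub_mem (hxO i) (h.smul_mem _ (h.form_mem _ (O.mul_mem hz₁O (hxO i))) _ (hβ' j₀))
  · refine Fin.cases (Fin.cases ?_ fun j => ?_) fun i => Fin.cases ?_ fun j => ?_
    · simpa using h11
    · simp [mul_sub, h11, (Fin.succ_ne_zero j).symm]
    · simpa [Fin.succ_ne_zero] using ((hZ' _).1 (hzZ i)).2
    · simp [mul_sub, ((hZ' _).1 (hzZ i)).2, hzx]
  · intro y hy
    have hy' : y - s (y * β' j₀) • z₁ ∈ Z' := by
      rw [hZ']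
      refine ⟨Z.sub_mem hy (Z.smul_mem _ hz₁Z), ?_⟩
      simp [sub_mul, h11]
    have h2 := hrep _ hy'
    rw [Fin.sum_univ_succ]
    simp only [Fin.cons_zero, Fin.cons_succ]
    have h3 : ∀ i, s (y * (x i - s (z₁ * x i) • β' j₀))
        = s ((y - s (y * β' j₀) • z₁) * x i) := by
      intro i
      simp only [mul_sub, sub_mul, map_sub, mul_smul_comm, smul_mul_assoc, map_smul, smul_eq_mul]
      ring
    simp only [h3]
    rw [h2]
    abel

/-- The additive span of the commutators of an order. -/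
def commSpan (O : Subring A) : AddSubgroup A :=
  AddSubgroup.closure {z | ∃ a ∈ O, ∃ b ∈ O, z = a * b - b * a}

/-- The trace of an operator computed in a frame. -/
def px_ftr {R B ι : Type} [CommRing R] [Ring B] [Algebra R B] [Fintype ι] (σ : B →ₗ[R] R)
    (β β' : ι → B) (S : B →ₗ[R] B) : R := ∑ j, σ (S (β j) * β' j)

lemma px_ftr_comm {R B ι : Type} [CommRing R] [Ring B] [Algebra R B] [Fintype ι]
    {σ : B →ₗ[R] R} {β β' : ι → B} (h : IsFrame σ ⊤ β β') (S S' : B →ₗ[R] B) :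
    px_ftr σ β β' (S ∘ₗ S') = px_ftr σ β β' (S' ∘ₗ S) := by
  have key : ∀ S S' : B →ₗ[R] B, px_ftr σ β β' (S ∘ₗ S')
      = ∑ j, ∑ k, σ (S' (β j) * β' k) * σ (S (β k) * β' j) := by
    intro S S'
    refine Finset.sum_congr rfl fun j _ => ?_
    rw [LinearMap.comp_apply]
    conv_lhs => rw [← h.repro (S' (β j)) trivial]
    simp only [map_sum, map_smul, Finset.sum_mul, smul_mul_assoc, smul_eq_mul]
  rw [key, key, Finset.sum_comm]
  exact Finset.sum_congr rfl fun j _ => Finset.sum_congr rfl fun k _ => mul_comm _ _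

/-- The orthogonal complement of the centre. -/
def px_perp (s : A →ₗ[K] K) : Submodule K A where
  carrier := {y | ∀ ζ : Subalgebra.center K A, s ((ζ : A) * y) = 0}
  zero_mem' := fun ζ => by simp
  add_mem' := fun ha hb ζ => by rw [mul_add, map_add, ha ζ, hb ζ, add_zero]
  smul_mem' := fun c y hy ζ => by rw [mul_smul_comm, map_smul, hy ζ, smul_zero]

lemma px_mem_perp {s : A →ₗ[K] K} {y : A} :
    y ∈ px_perp s ↔ ∀ ζ : Subalgebra.center K A, s ((ζ : A) * y) = 0 := Iff.rfl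

lemma px_comm_mem {s : A →ₗ[K] K} (hs : ∀ x y, s (x * y) = s (y * x)) (a b : A) :
    a * b - b * a ∈ px_perp s := by
  intro ζ
  have h1 : b * (ζ : A) = ζ * b := Subalgebra.mem_center_iff.1 ζ.2 b
  rw [mul_sub, map_sub, ← mul_assoc, hs (ζ * a) b, ← mul_assoc, h1, mul_assoc, sub_self]

lemma px_comm_series {s : A →ₗ[K] K} (hs : ∀ x y, s (x * y) = s (y * x)) (F G : A⟦X⟧) :
    F * G - G * F ∈ coefMod (px_perp s) := by
  intro n
  rw [map_sub, coeff_mul, coeff_mul, ← Finset.Nat.sum_antidiagonal_swap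
    (f := fun p => coeff p.1 G * coeff p.2 F), ← Finset.sum_sub_distrib]
  exact Submodule.sum_mem _ fun p _ => px_comm_mem hs _ _

lemma px_lift {O : Subring A} {s : A →ₗ[K] K} {Λ : Subring A⟦X⟧} {g : A⟦X⟧}
    (hD : Deform V O s Λ g) {y : A} (hy : y ∈ commSpan O) :
    ∃ κ ∈ Λ, κ ∈ coefMod (px_perp s) ∧ coeff 0 κ = y := by
  induction hy using AddSubgroup.closure_induction with
  | mem y hy =>
    obtain ⟨a, ha, b, hb, rfl⟩ := hy
    obtain ⟨F, hF, rfl⟩ := (hD.const a).1 ha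
    obtain ⟨G, hG, rfl⟩ := (hD.const b).1 hb
    exact ⟨F * G - G * F, Λ.sub_mem (Λ.mul_mem hF hG) (Λ.mul_mem hG hF),
      px_comm_series hD.symm F G, by rw [map_sub, coeff_zero_mul', coeff_zero_mul']⟩
  | zero => exact ⟨0, Λ.zero_mem, Submodule.zero_mem _, map_zero _⟩
  | add a b _ _ ha hb =>
    obtain ⟨F, hF, hF', rfl⟩ := ha
    obtain ⟨G, hG, hG', rfl⟩ := hb
    exact ⟨F + G, Λ.add_mem hF hG, Submodule.add_mem _ hF' hG', map_add _ _ _⟩
  | neg a _ ha =>
    obtain ⟨F, hF, hF', rfl⟩ := ha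
    exact ⟨-F, Λ.neg_mem hF, Submodule.neg_mem _ hF', map_neg _ _⟩

lemma px_C_mul_mem {s : A →ₗ[K] K} (ζ : Subalgebra.center K A) {F : A⟦X⟧}
    (hF : F ∈ coefMod (px_perp s)) : C (ζ : A) * F ∈ coefMod (px_perp s) := by
  intro n ζ'
  rw [coeff_C_mul, ← mul_assoc]
  exact hF n (ζ' * ζ)

lemma px_trace [FiniteDimensional K A] {s : A →ₗ[K] K} {n : ℕ} {z x : Fin n → A}
    (hz : ∀ i, z i ∈ Subalgebra.center K A)
    (hrep : ∀ y ∈ Subalgebra.center K A, ∑ i, s (y * x i) • z i = y)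
    (ζ : Subalgebra.center K A) :
    Algebra.trace K (Subalgebra.center K A) ζ = ∑ i, s (z i * ((ζ : A) * x i)) := by
  have e : Algebra.lmul K (Subalgebra.center K A) ζ = ∑ i,
      (s ∘ₗ LinearMap.mulRight K ((ζ : A) * x i) ∘ₗ (Subalgebra.center K A).val.toLinearMap).smulRight
        (⟨z i, hz i⟩ : Subalgebra.center K A) := by
    refine LinearMap.ext fun y => Subtype.ext ?_
    have h1 := hrep _ (ζ * y).2
    have h2 : ∀ i, ((ζ * y : Subalgebra.center K A) : A) * x i = (y : A) * ((ζ : A) * x i) := by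
      intro i
      rw [mul_comm ζ y, ← mul_assoc]
      rfl
    simp only [h2] at h1
    simpa [LinearMap.sum_apply, mul_assoc] using h1.symm
  rw [Algebra.trace_apply, e, map_sum]
  refine Finset.sum_congr rfl fun i _ => ?_
  rw [LinearMap.trace_smulRight]
  rfl

/-- Let `z, x` be as in `exists_dual` for the centre, `P₀ y = ∑ s (z i * y) • x i`,
`π₀ = 1 - P₀` the projection onto `N = Z^⊥`.  Lift `π₀ (β j 0)` to `κ j` in the span of the
commutators of `Λ` (these have all coefficients in `N`).  `T F = ∑ st (F β' j) • κ j`,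
`T + ext P₀` is the identity modulo `t`; `Π = (T + ext P₀)⁻¹ T` is a projection onto `coefMod N`
preserving `Λ`.  Take `x = ∑ (β j - Π (β j)) * β' j`.  With the frame trace
`ftr S = ∑ st (S (β j) * β' j)` (cyclic: `ftr (S S') = ftr (S' S)`), `st (ζ x)` is
`ftr (L_ζ (1 - Π)) = ftr (L_ζ (ext P₀))`, as the difference maps into `coefMod N` and kills it,
and `ftr (L_ζ (ext P₀)) = ∑ s (ζ (z i) (x i))` is the trace of `ζ` on the centre. -/
theorem xcond_of_pure {O : Subring A} {s : A →ₗ[K] K} {Λ : Subring A⟦X⟧} {g : A⟦X⟧}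
    (hD : Deform V O s Λ g)
    (hp : ∀ y ∈ O, (∀ ζ : Subalgebra.center K A, s ((ζ : A) * y) = 0) → y ∈ commSpan O) :
    XCond s Λ g := by
  have hO := hD.symOrder
  have hfd := hO.finiteDimensional
  obtain ⟨n, z, x, hzZ, hzO, hxO, -, hrep⟩ := hO.exists_dual (Subalgebra.center K A).toSubmodule
  obtain ⟨m, β, β', hβ, hβ', hfr⟩ := hD.frame
  have hfr0 := hD.frame_zero hfr
  obtain ⟨P, hP⟩ : ∃ P : A →ₗ[K] A, ∀ y, P y = ∑ i, s (z i * y) • x i :=
    ⟨∑ i, (s ∘ₗ LinearMap.mulLeft K (z i)).smulRight (x i), fun y => by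
      simp [LinearMap.sum_apply]⟩
  have hPN : ∀ y, y - P y ∈ px_perp s := by
    intro y ζ
    have h1 := hrep ζ ζ.2
    rw [mul_sub, map_sub, hP, sub_eq_zero]
    conv_lhs => rw [← h1]
    simp only [Finset.sum_mul, Finset.mul_sum, map_sum, smul_mul_assoc, mul_smul_comm, map_smul,
      smul_eq_mul]
    exact Finset.sum_congr rfl fun i _ => mul_comm _ _
  have hP0 : ∀ y ∈ px_perp s, P y = 0 := by
    intro y hy
    rw [hP]
    exact Finset.sum_eq_zero fun i _ => by rw [hy ⟨z i, hzZ i⟩, zero_smul]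
  have hPO : ∀ y ∈ O, y - P y ∈ O := by
    intro y hy
    rw [hP]
    exact O.sub_mem hy (O.sum_mem fun i _ =>
      hO.smul_mem _ (hO.form_mem _ (O.mul_mem (hzO i) hy)) _ (hxO i))
  have hκ : ∀ j, ∃ κ ∈ Λ, κ ∈ coefMod (px_perp s) ∧
      coeff 0 κ = coeff 0 (β j) - P (coeff 0 (β j)) := fun j =>
    px_lift hD (hp _ (hPO _ ((hD.const _).2 ⟨β j, hβ j, rfl⟩)) (hPN _))
  choose κ hκΛ hκN hκ0 using hκ
  obtain ⟨T, hT⟩ : ∃ T : A⟦X⟧ →ₗ[K⟦X⟧] A⟦X⟧, ∀ F, T F = ∑ j, st s g (F * β' j) • κ j :=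
    ⟨∑ j, (st s g ∘ₗ LinearMap.mulRight K⟦X⟧ (β' j)).smulRight (κ j), fun F => by
      simp [LinearMap.sum_apply]⟩
  have hTN : ∀ F, T F ∈ coefMod (px_perp s) := fun F => by
    rw [hT]
    exact Submodule.sum_mem _ fun j _ => Submodule.smul_mem _ _ (hκN j)
  have hTΛ : ∀ F ∈ Λ, T F ∈ Λ := fun F hF => by
    rw [hT]
    exact Λ.sum_mem fun j _ => hD.smul_mem _ (hD.form_mem _ (Λ.mul_mem hF (hβ' j))) _ (hκΛ j)
  have hT0 : ∀ F, coeff 0 (T F) = coeff 0 F - P (coeff 0 F) := by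
    intro F
    rw [hT, map_sum]
    simp only [coeff_zero_ps_smul, hD.coeff_zero_st, coeff_zero_mul', hκ0, smul_sub,
      Finset.sum_sub_distrib, ← map_smul, ← map_sum]
    rw [hfr0.repro _ trivial]
  have hE0 : ∀ F ∈ coefMod (px_perp s), ext P F = 0 := by
    intro F hF
    ext k
    rw [coeff_ext, hP0 _ (hF k), map_zero]
  have hEN : ∀ F, F - ext P F ∈ coefMod (px_perp s) := by
    intro F k
    rw [map_sub, coeff_ext]
    exact hPN _
  obtain ⟨U, -, hU, -, hUW⟩ := exists_neumann (T + ext P) fun F => by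
    rw [LinearMap.add_apply, map_add, hT0, coeff_ext, sub_add_cancel]
  have hcl : Closed ((coefMod (px_perp s)).toAddSubgroup : Set A⟦X⟧) :=
    closed_coeff fun _ a => a ∈ px_perp s
  have hQN : ∀ F, U (T F) ∈ coefMod (px_perp s) := fun F =>
    hUW (coefMod (px_perp s)).toAddSubgroup hcl (fun G hG => by
      rw [LinearMap.add_apply, hE0 G hG, add_zero]
      exact hTN G) _ (hTN F)
  have hQΛ : ∀ F ∈ Λ, U (T F) ∈ Λ := fun F hF =>
    (hUW (Λ.toAddSubgroup ⊓ (coefMod (px_perp s)).toAddSubgroup) (hD.closed.inter hcl)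
      (fun G hG => by
        rw [LinearMap.add_apply, hE0 G hG.2, add_zero]
        exact ⟨hTΛ G hG.1, hTN G⟩) _ ⟨hTΛ F hF, hTN F⟩).1
  have hQid : ∀ F ∈ coefMod (px_perp s), U (T F) = F := by
    intro F hF
    have := hU F
    rwa [LinearMap.add_apply, hE0 F hF, add_zero] at this
  refine ⟨∑ j, (β j - U (T (β j))) * β' j, Λ.sum_mem fun j _ =>
    Λ.mul_mem (Λ.sub_mem (hβ j) (hQΛ _ (hβ j))) (hβ' j), fun ζ => ?_⟩
  let D : A⟦X⟧ →ₗ[K⟦X⟧] A⟦X⟧ :=
    LinearMap.mulLeft K⟦X⟧ (C (ζ : A)) ∘ₗ (LinearMap.id - ext P - U ∘ₗ T)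
  have hD' : ∀ F, D F = C (ζ : A) * (F - ext P F - U (T F)) := fun F => rfl
  have hD0 : px_ftr (st s g) β β' D = 0 := by
    have e1 : D = (U ∘ₗ T) ∘ₗ D := by
      refine LinearMap.ext fun F => ?_
      refine (hQid _ ?_).symm
      rw [hD']
      exact px_C_mul_mem ζ (Submodule.sub_mem _ (hEN F) (hQN F))
    have e2 : D ∘ₗ (U ∘ₗ T) = 0 := by
      refine LinearMap.ext fun F => ?_
      change D (U (T F)) = 0
      rw [hD', hE0 _ (hQN F), hQid _ (hQN F), sub_zero, sub_self, mul_zero]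
    rw [e1, px_ftr_comm hfr, e2]
    simp [px_ftr]
  have hE : ∀ F : A⟦X⟧, ext P F = ∑ i, extF s (C (z i) * F) • (C (x i) : A⟦X⟧) := by
    intro F
    ext k
    rw [coeff_ext, hP, map_sum]
    refine Finset.sum_congr rfl fun i _ => ?_
    rw [ps_smul_def, coeff_mul_C, coeff_map, coeff_extF, coeff_C_mul, Algebra.smul_def]
  have h1 : st s g (C (ζ : A) * ∑ j, (β j - U (T (β j))) * β' j)
      = px_ftr (st s g) β β' D + ∑ j, st s g (C (ζ : A) * ext P (β j) * β' j) := by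
    rw [px_ftr, ← Finset.sum_add_distrib, Finset.mul_sum, map_sum]
    refine Finset.sum_congr rfl fun j _ => ?_
    rw [hD', ← map_add]
    congr 1
    noncomm_ring
  rw [h1, hD0, zero_add, px_trace hzZ hrep ζ, map_sum]
  simp only [hE, Finset.mul_sum, Finset.sum_mul, map_sum, mul_smul_comm, smul_mul_assoc, map_smul,
    smul_eq_mul]
  rw [Finset.sum_comm]
  refine Finset.sum_congr rfl fun i _ => ?_
  have h2 := hfr.repro (C (ζ : A) * C (x i)) trivial
  have h3 : extF s (C (z i) * (C (ζ : A) * C (x i))) = C (s (z i * ((ζ : A) * x i))) := by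
    rw [← map_mul, ← map_mul]
    ext k
    rw [coeff_extF, coeff_C, coeff_C]
    split_ifs <;> simp
  rw [← h3]
  conv_rhs => rw [← h2]
  simp only [Finset.mul_sum, map_sum, mul_smul_comm, map_smul, smul_eq_mul]
  exact Finset.sum_congr rfl fun j _ => mul_comm _ _

end Pool.Agent.Lib.MP_b6945b_al.St
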