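import Pool.Agent.Lib.MP_b6945b_al.St.CrossDefs
import Pool.Agent.Lib.MP_b6945b_al.St.PX

set_option autoImplicit false

/-!
The form of a crossed product and purity of its commutator space.
-/

namespace Pool.Agent.Lib.MP_b6945b_al.St

open MonoidAlgebra (single)

variable {K : Type} [Field K] {V : ValuationSubring K} {D E : Type} [CommGroup D]
  [Fintype D] [Group E] [Fintype E] {A : Type} [Ring A] [Algebra K A]
  {φ : E →* MulAut D} {O : Subring A} {δ : MonoidAlgebra K D →ₐ[K] A} {u : E → A}
  {c : E → E → MonoidAlgebra K D}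

omit [Fintype D] [Fintype E] in
lemma crosspure_act_coeff (φ : E →* MulAut D) (l : E) (a : MonoidAlgebra K D) (x : D) :
    (act K φ l a).coeff x = a.coeff ((φ l).symm x) :=
  MonoidAlgebra.coeff_domCongr (R := K) (φ l) a x

omit [Fintype D] [Fintype E] in
lemma crosspure_act_single (φ : E →* MulAut D) (l : E) (x : D) (r : K) :
    act K φ l (single x r) = single (φ l x) r :=
  MonoidAlgebra.domCongr_single (R := K) (φ l) x r

omit [Fintype D] [Fintype E] in
lemma crosspure_act_coeff_one (φ : E →* MulAut D) (l : E) (a : MonoidAlgebra K D) :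
    (act K φ l a).coeff 1 = a.coeff 1 := by
  rw [crosspure_act_coeff, map_one]

omit [Fintype D] [Fintype E] in
lemma crosspure_act_act_inv (φ : E →* MulAut D) (l : E) (a : MonoidAlgebra K D) :
    act K φ l (act K φ l⁻¹ a) = a := by
  ext x
  rw [crosspure_act_coeff, crosspure_act_coeff, map_inv]
  congr 1
  exact (φ l).apply_symm_apply x

omit [Fintype D] [Group E] in
lemma crosspure_sum_single [DecidableEq E] (δ : MonoidAlgebra K D →ₐ[K] A) (u : E → A) (l : E)
    (a : MonoidAlgebra K D) :
    ∑ m, δ ((Pi.single l a : E → MonoidAlgebra K D) m) * u m = δ a * u l := by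
  rw [Finset.sum_eq_single l]
  · rw [Pi.single_eq_same]
  · intro m _ hm
    rw [Pi.single_eq_of_ne hm, map_zero, zero_mul]
  · intro hl
    exact absurd (Finset.mem_univ l) hl

lemma crosspure_single_mem (x : D) {r : K} (hr : r ∈ V) :
    (single x r : MonoidAlgebra K D) ∈ GO V D := by
  classical
  intro y
  rw [MonoidAlgebra.coeff_single, Finsupp.single_apply]
  split_ifs
  · exact hr
  · exact V.zero_mem

lemma CrossData.exists_form (h : CrossData V φ O δ u c) : ∃ s, IsCrossForm δ u s := by
  let Φ : (E → MonoidAlgebra K D) →ₗ[K] A :=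
    { toFun := fun a => ∑ l, δ (a l) * u l
      map_add' := fun a b => by simp [add_mul, Finset.sum_add_distrib]
      map_smul' := fun r a => by simp [Finset.smul_sum] }
  let e : (E → MonoidAlgebra K D) ≃ₗ[K] A := LinearEquiv.ofBijective Φ h.bij
  refine ⟨(coef K (1 : D)) ∘ₗ (LinearMap.proj (1 : E)) ∘ₗ e.symm.toLinearMap, fun a => ?_⟩
  have : e.symm (∑ l, δ (a l) * u l) = a := e.symm_apply_apply a
  change (e.symm (∑ l, δ (a l) * u l) 1).coeff 1 = _
  rw [this]

lemma CrossData.inj (h : CrossData V φ O δ u c) {a b : MonoidAlgebra K D} (l : E)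
    (e : δ a * u l = δ b * u l) : a = b := by
  classical
  have h1 : (Pi.single l a : E → MonoidAlgebra K D) = Pi.single l b := by
    apply h.bij.1
    simp only
    rw [crosspure_sum_single, crosspure_sum_single, e]
  have := congrFun h1 l
  simpa using this

/-- The cocycle identity, from associativity. -/
lemma CrossData.cocycle (h : CrossData V φ O δ u c) (l m n : E) :
    c l m * c (l * m) n = act K φ l (c m n) * c l (m * n) := by
  apply h.inj (l * m * n)
  have h1 : u l * u m * u n = δ (c l m * c (l * m) n) * u (l * m * n) := by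
    rw [h.mul, mul_assoc, h.mul, map_mul]
    simp only [mul_assoc]
  have h2 : u l * (u m * u n) = δ (act K φ l (c m n) * c l (m * n)) * u (l * m * n) := by
    rw [h.mul, ← mul_assoc, h.comm, mul_assoc, h.mul, map_mul, mul_assoc, mul_assoc]
  rw [← h1, ← h2, mul_assoc]

lemma CrossData.c_one (h : CrossData V φ O δ u c) (l : E) : c l 1 = 1 ∧ c 1 l = 1 := by
  constructor
  · apply h.inj l
    have := h.mul l 1
    rw [h.one, mul_one, mul_one] at this
    rw [← this, map_one, one_mul]
  · apply h.inj l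
    have := h.mul 1 l
    rw [h.one, one_mul, one_mul] at this
    rw [← this, map_one, one_mul]

lemma crosspure_mem (h : CrossData V φ O δ u c) {a : MonoidAlgebra K D} (ha : a ∈ GO V D)
    (l : E) : δ a * u l ∈ O := by
  classical
  rw [← crosspure_sum_single δ u l a, h.mem_iff]
  intro m
  by_cases hm : m = l
  · subst hm
    rw [Pi.single_eq_same]
    exact ha
  · rw [Pi.single_eq_of_ne hm]
    exact (GO V D).zero_mem

lemma crosspure_u_mem (h : CrossData V φ O δ u c) (l : E) : u l ∈ O := by
  have := crosspure_mem h (GO V D).one_mem l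
  rwa [map_one, one_mul] at this

lemma crosspure_δ_mem (h : CrossData V φ O δ u c) {a : MonoidAlgebra K D} (ha : a ∈ GO V D) :
    δ a ∈ O := by
  have := crosspure_mem h ha 1
  rwa [h.one, mul_one] at this

lemma crosspure_smul_mem (h : CrossData V φ O δ u c) {v : K} (hv : v ∈ V) {y : A} (hy : y ∈ O) :
    v • y ∈ O := by
  have h1 : δ (algebraMap K _ v) ∈ O :=
    crosspure_δ_mem h (crosspure_single_mem (V := V) (1 : D) hv)
  rw [δ.commutes] at h1
  rw [Algebra.smul_def]
  exact O.mul_mem h1 hy

/-- The values of the cocycle are units. -/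
lemma CrossData.c_unit (h : CrossData V φ O δ u c) (l m : E) :
    ∃ c' ∈ GO V D, c l m * c' = 1 := by
  classical
  obtain ⟨wl, hwl, hl1, -⟩ := h.unit l
  obtain ⟨wm, hwm, hm1, -⟩ := h.unit m
  have hz : u (l * m) * wm * wl ∈ O :=
    O.mul_mem (O.mul_mem (crosspure_u_mem h _) hwm) hwl
  obtain ⟨a, ha⟩ := h.bij.2 (u (l * m) * wm * wl)
  simp only at ha
  have haO : ∀ n, a n ∈ GO V D := (h.mem_iff a).1 (ha ▸ hz)
  refine ⟨a 1, haO 1, ?_⟩
  have h1 : (fun n => c l m * a n) = (Pi.single 1 1 : E → MonoidAlgebra K D) := by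
    apply h.bij.1
    simp only
    rw [crosspure_sum_single, map_one, one_mul, h.one]
    calc ∑ n, δ (c l m * a n) * u n = δ (c l m) * ∑ n, δ (a n) * u n := by
          rw [Finset.mul_sum]
          exact Finset.sum_congr rfl fun n _ => by rw [map_mul, mul_assoc]
      _ = (δ (c l m) * u (l * m)) * wm * wl := by rw [ha]; simp only [mul_assoc]
      _ = u l * (u m * wm) * wl := by rw [← h.mul]; simp only [mul_assoc]
      _ = 1 := by rw [hm1, mul_one, hl1]
  have := congrFun h1 1
  simpa using this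

omit [Fintype D] in
lemma crosspure_form_one {s : A →ₗ[K] K} (hs : IsCrossForm δ u s) (a : MonoidAlgebra K D) :
    s (δ a * u 1) = a.coeff 1 := by
  classical
  rw [← crosspure_sum_single δ u 1 a, hs, Pi.single_eq_same]

omit [Fintype D] in
lemma crosspure_form_ne {s : A →ₗ[K] K} (hs : IsCrossForm δ u s) (a : MonoidAlgebra K D) {l : E}
    (hl : l ≠ 1) : s (δ a * u l) = 0 := by
  classical
  rw [← crosspure_sum_single δ u l a, hs, Pi.single_eq_of_ne hl.symm]
  rfl

lemma crosspure_prod (h : CrossData V φ O δ u c) (a b : MonoidAlgebra K D) (l m : E) :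
    δ a * u l * (δ b * u m) = δ (a * act K φ l b * c l m) * u (l * m) := by
  calc δ a * u l * (δ b * u m) = δ a * (u l * δ b) * u m := by simp only [mul_assoc]
    _ = δ a * δ (act K φ l b) * (u l * u m) := by rw [h.comm]; simp only [mul_assoc]
    _ = _ := by rw [h.mul, map_mul, map_mul]; simp only [mul_assoc]

lemma crosspure_symm_gen (h : CrossData V φ O δ u c) {s : A →ₗ[K] K} (hs : IsCrossForm δ u s)
    (a b : MonoidAlgebra K D) (l m : E) :
    s (δ a * u l * (δ b * u m)) = s (δ b * u m * (δ a * u l)) := by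
  rw [crosspure_prod h, crosspure_prod h]
  by_cases hlm : l * m = 1
  · obtain rfl : m = l⁻¹ := (inv_eq_of_mul_eq_one_right hlm).symm
    rw [mul_inv_cancel, inv_mul_cancel, crosspure_form_one hs, crosspure_form_one hs,
      ← crosspure_act_coeff_one φ l (b * act K φ l⁻¹ a * c l⁻¹ l), map_mul, map_mul,
      crosspure_act_act_inv]
    have h1 := h.cocycle l l⁻¹ l
    rw [mul_inv_cancel, inv_mul_cancel, (h.c_one l).1, (h.c_one l).2, mul_one, mul_one] at h1
    rw [h1, mul_comm a]
  · have hml : m * l ≠ 1 := fun e => hlm (mul_eq_one_comm.1 e)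
    rw [crosspure_form_ne hs _ hlm, crosspure_form_ne hs _ hml]

/-- Symmetry: `c l l⁻¹ = act l (c l⁻¹ l)` and the coefficient of `1` is invariant. -/
lemma CrossData.form_symm (h : CrossData V φ O δ u c) {s : A →ₗ[K] K} (hs : IsCrossForm δ u s)
    (x y : A) : s (x * y) = s (y * x) := by
  obtain ⟨a, rfl⟩ := h.bij.2 x
  obtain ⟨b, rfl⟩ := h.bij.2 y
  simp only
  rw [Finset.sum_mul_sum, Finset.sum_mul_sum, Finset.sum_comm]
  simp only [map_sum]
  exact Finset.sum_congr rfl fun m _ => Finset.sum_congr rfl fun l _ =>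
    crosspure_symm_gen h hs _ _ _ _

omit [Algebra K A] in
lemma crosspure_comm_mem {O : Subring A} {a b : A} (ha : a ∈ O) (hb : b ∈ O) :
    a * b - b * a ∈ commSpan O :=
  AddSubgroup.subset_closure ⟨a, ha, b, hb, rfl⟩

/-- Averages of elements of the centraliser of `δ D` are central. -/
lemma crosspure_central (h : CrossData V φ O δ u c) {w : E → A} (hw1 : ∀ l, u l * w l = 1)
    (hw2 : ∀ l, w l * u l = 1) {z : A} (hz : ∀ a, z * δ a = δ a * z) :
    ∑ l, w l * z * u l ∈ Subalgebra.center K A := by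
  have hwδ : ∀ l a, δ a * w l = w l * δ (act K φ l a) := by
    intro l a
    calc δ a * w l = w l * (u l * δ a) * w l := by rw [← mul_assoc, hw2, one_mul]
      _ = w l * δ (act K φ l a) * (u l * w l) := by rw [h.comm]; simp only [mul_assoc]
      _ = _ := by rw [hw1, mul_one]
  have h1 : ∀ a, δ a * ∑ l, w l * z * u l = (∑ l, w l * z * u l) * δ a := by
    intro a
    rw [Finset.mul_sum, Finset.sum_mul]
    refine Finset.sum_congr rfl fun l _ => ?_
    calc δ a * (w l * z * u l) = δ a * w l * z * u l := by simp only [mul_assoc]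
      _ = w l * (δ (act K φ l a) * z) * u l := by rw [hwδ]; simp only [mul_assoc]
      _ = w l * z * (δ (act K φ l a) * u l) := by rw [← hz]; simp only [mul_assoc]
      _ = w l * z * u l * δ a := by rw [← h.comm]; simp only [mul_assoc]
  have h2 : ∀ m, u m * ∑ l, w l * z * u l = (∑ l, w l * z * u l) * u m := by
    intro m
    rw [Finset.mul_sum, Finset.sum_mul, ← Equiv.sum_comp (Equiv.mulRight m)]
    refine Finset.sum_congr rfl fun l _ => ?_
    simp only [Equiv.coe_mulRight]
    have h3 : u m * w (l * m) = w l * δ (c l m) := by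
      calc u m * w (l * m) = w l * (u l * u m) * w (l * m) := by
            rw [← mul_assoc, hw2, one_mul]
        _ = w l * δ (c l m) * (u (l * m) * w (l * m)) := by rw [h.mul]; simp only [mul_assoc]
        _ = _ := by rw [hw1, mul_one]
    calc u m * (w (l * m) * z * u (l * m)) = u m * w (l * m) * z * u (l * m) := by
          simp only [mul_assoc]
      _ = w l * (δ (c l m) * z) * u (l * m) := by rw [h3]; simp only [mul_assoc]
      _ = w l * z * (δ (c l m) * u (l * m)) := by rw [← hz]; simp only [mul_assoc]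
      _ = w l * z * u l * u m := by rw [← h.mul]; simp only [mul_assoc]
  rw [Subalgebra.mem_center_iff]
  intro b
  obtain ⟨a, rfl⟩ := h.bij.2 b
  simp only
  rw [Finset.sum_mul, Finset.mul_sum]
  refine Finset.sum_congr rfl fun m _ => ?_
  rw [mul_assoc, h2, ← mul_assoc, h1, mul_assoc]

lemma crosspure_form_inv (h : CrossData V φ O δ u c) {s : A →ₗ[K] K} (hs : IsCrossForm δ u s)
    {l : E} {w : A} (hw1 : u l * w = 1) (σ : MonoidAlgebra K D) (a : E → MonoidAlgebra K D) :
    s (w * δ σ * ∑ m, δ (a m) * u m) = (σ * a l).coeff 1 := by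
  rw [mul_assoc, h.form_symm hs, Finset.mul_sum, Finset.sum_mul, map_sum,
    Finset.sum_eq_single l]
  · rw [← crosspure_form_one hs, map_mul δ, h.one]
    simp only [mul_assoc, hw1]
  · intro m _ hm
    obtain ⟨c', -, hc'⟩ := h.c_unit (m * l⁻¹) l
    have h1 := h.mul (m * l⁻¹) l
    rw [inv_mul_cancel_right] at h1
    have h2 : u m * w = δ c' * u (m * l⁻¹) := by
      calc u m * w = δ (c' * c (m * l⁻¹) l) * u m * w := by
            rw [mul_comm c', hc', map_one, one_mul]
        _ = δ c' * (δ (c (m * l⁻¹) l) * u m) * w := by rw [map_mul]; simp only [mul_assoc]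
        _ = δ c' * u (m * l⁻¹) * (u l * w) := by rw [← h1]; simp only [mul_assoc]
        _ = _ := by rw [hw1, mul_one]
    have h3 : δ σ * (δ (a m) * u m) * w = δ (σ * a m * c') * u (m * l⁻¹) := by
      rw [map_mul, map_mul]
      simp only [mul_assoc, h2]
    rw [h3]
    exact crosspure_form_ne hs _ (fun e => hm (mul_inv_eq_one.1 e))
  · intro hl
    exact absurd (Finset.mem_univ l) hl

/-- The homomorphism whose range is the subgroup of the `φ l w * w⁻¹`. -/
def crosspure_hom (φ : E →* MulAut D) (l : E) : D →* D where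
  toFun d := φ l d * d⁻¹
  map_one' := by simp
  map_mul' a b := by
    rw [map_mul, mul_inv]
    exact mul_mul_mul_comm _ _ _ _

lemma crosspure_piece (h : CrossData V φ O δ u c) (l : E) {a : MonoidAlgebra K D}
    (ha : a ∈ GO V D)
    (h0 : ∀ σ : MonoidAlgebra K D, (∀ d : D, σ * single (φ l d) 1 = σ * single d 1) →
      (σ * a).coeff 1 = 0) : δ a * u l ∈ commSpan O := by
  classical
  let S : Subgroup D := (crosspure_hom φ l).range
  let rep : D → D := fun x => (QuotientGroup.mk x : D ⧸ S).out
  have hrep : ∀ x, ∃ d : D, x = rep x * φ l d * d⁻¹ := by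
    intro x
    have h1 : (QuotientGroup.mk (rep x) : D ⧸ S) = QuotientGroup.mk x :=
      QuotientGroup.out_eq' _
    obtain ⟨d, hd⟩ := QuotientGroup.eq.1 h1
    refine ⟨d, ?_⟩
    have hd' : φ l d * d⁻¹ = (rep x)⁻¹ * x := hd
    rw [mul_assoc, hd', mul_inv_cancel_left]
  have hzero : ∑ x, (single (rep x) (a.coeff x) : MonoidAlgebra K D) = 0 := by
    ext y
    let σ : MonoidAlgebra K D := MonoidAlgebra.ofCoeff
      (Finsupp.equivFunOnFinite.symm fun z => if rep z⁻¹ = y then (1 : K) else 0)
    have hσ : ∀ z, σ.coeff z = if rep z⁻¹ = y then (1 : K) else 0 := fun z => rfl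
    have h1 := h0 σ (fun d => by
      ext z
      rw [MonoidAlgebra.coeff_mul_single_apply, MonoidAlgebra.coeff_mul_single_apply, hσ, hσ]
      have h2 : (QuotientGroup.mk (z * (φ l d)⁻¹)⁻¹ : D ⧸ S) = QuotientGroup.mk (z * d⁻¹)⁻¹ := by
        symm
        rw [QuotientGroup.eq]
        refine ⟨d, ?_⟩
        change φ l d * d⁻¹ = _
        rw [inv_inv, mul_inv, inv_inv, mul_mul_mul_comm, mul_inv_cancel, one_mul, mul_comm]
      have h3 : rep (z * (φ l d)⁻¹)⁻¹ = rep (z * d⁻¹)⁻¹ := congrArg Quotient.out h2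
      rw [h3])
    rw [coeff_mul_fin, ← Equiv.sum_comp (Equiv.inv D)] at h1
    simp only [Equiv.inv_apply, hσ, inv_inv, mul_one, ite_mul, one_mul, zero_mul] at h1
    rw [MonoidAlgebra.coeff_sum, Finsupp.finsetSum_apply]
    simp only [MonoidAlgebra.coeff_single, Finsupp.single_apply]
    rw [h1]
    rfl
  have hdec : a = ∑ x, ((single x (a.coeff x) : MonoidAlgebra K D) - single (rep x) (a.coeff x)) := by
    rw [Finset.sum_sub_distrib, hzero, sub_zero]
    conv_lhs => rw [eq_sum_single a]
    exact Finset.sum_congr rfl fun x _ => by rw [MonoidAlgebra.smul_single', mul_one]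
  rw [hdec, map_sum, Finset.sum_mul]
  refine sum_mem fun x _ => ?_
  obtain ⟨d, hd⟩ := hrep x
  have h1 : δ (single (rep x * d⁻¹) (a.coeff x)) * u l ∈ O :=
    crosspure_mem h (crosspure_single_mem _ (ha x)) l
  have h2 : δ (single d (1 : K)) ∈ O := crosspure_δ_mem h (crosspure_single_mem _ V.one_mem)
  have h3 := crosspure_comm_mem h1 h2
  have h4 : δ (single (rep x * d⁻¹) (a.coeff x)) * u l * δ (single d (1 : K)) =
      δ (single x (a.coeff x)) * u l := by
    rw [mul_assoc, h.comm, crosspure_act_single, ← mul_assoc, ← map_mul,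
      MonoidAlgebra.single_mul_single, mul_one, mul_right_comm, ← hd]
  have h5 : δ (single d (1 : K)) * (δ (single (rep x * d⁻¹) (a.coeff x)) * u l) =
      δ (single (rep x) (a.coeff x)) * u l := by
    rw [← mul_assoc, ← map_mul, MonoidAlgebra.single_mul_single, one_mul, mul_comm d,
      inv_mul_cancel_right]
  rw [h4, h5] at h3
  rw [map_sub, sub_mul]
  exact h3

/-- Average over `E`: `y` is congruent to `y' = (card E)⁻¹ ∑ u l y (u l)⁻¹` modulo commutators,
and `y'` is orthogonal to the whole centraliser of `δ D` (average the other factor: it becomes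
central).  Write `y' = ∑ δ (a l) u l` and test against `(u l)⁻¹ δ (v ∑_{x ∈ S} x)` for the subgroup
`S = {φ l w * w⁻¹}`: the coefficient sums of `a l` over cosets of `S` vanish, so `a l` is a
combination of the `v (φ l w) w⁻¹ - v`, and
`δ (v (φ l w) w⁻¹ - v) u l` is the commutator of `δ (v w⁻¹) u l` and `δ w`. -/
theorem CrossData.pure (h : CrossData V φ O δ u c) {s : A →ₗ[K] K} (hs : IsCrossForm δ u s)
    (hE : ((Fintype.card E : K))⁻¹ ∈ V) (hE0 : (Fintype.card E : K) ≠ 0) :
    ∀ y ∈ O, (∀ ζ : Subalgebra.center K A, s ((ζ : A) * y) = 0) → y ∈ commSpan O := by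
  intro y hy hy0
  choose w hwO hw1 hw2 using h.unit
  set y₀ : A := ((Fintype.card E : K))⁻¹ • y with hy₀
  have hy₀O : y₀ ∈ O := crosspure_smul_mem h hE hy
  have hsum : y = ∑ _l : E, y₀ := by
    rw [Finset.sum_const, Finset.card_univ, ← Nat.cast_smul_eq_nsmul K, hy₀, smul_smul,
      mul_inv_cancel₀ hE0, one_smul]
  have hy'O : ∑ l, u l * y₀ * w l ∈ O :=
    sum_mem fun l _ => O.mul_mem (O.mul_mem (crosspure_u_mem h l) hy₀O) (hwO l)
  have hdiff : y - ∑ l, u l * y₀ * w l ∈ commSpan O := by
    conv => arg 2; arg 1; rw [hsum]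
    rw [← Finset.sum_sub_distrib]
    refine sum_mem fun l _ => ?_
    have h1 := crosspure_comm_mem (O.mul_mem hy₀O (hwO l)) (crosspure_u_mem h l)
    rwa [mul_assoc, hw2, mul_one, ← mul_assoc] at h1
  have horth : ∀ z : A, (∀ a, z * δ a = δ a * z) → s (z * ∑ l, u l * y₀ * w l) = 0 := by
    intro z hz
    have h1 := hy0 ⟨_, crosspure_central h hw1 hw2 hz⟩
    have h2 : s (z * ∑ l, u l * y₀ * w l) = s ((∑ l, w l * z * u l) * y₀) := by
      rw [Finset.mul_sum, Finset.sum_mul, map_sum, map_sum]
      refine Finset.sum_congr rfl fun l _ => ?_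
      rw [← mul_assoc, h.form_symm hs]
      simp only [mul_assoc]
    rw [h2, hy₀, mul_smul_comm, map_smul]
    simp only at h1
    rw [h1, smul_zero]
  obtain ⟨a, ha⟩ := h.bij.2 (∑ l, u l * y₀ * w l)
  simp only at ha
  have haO : ∀ n, a n ∈ GO V D := (h.mem_iff a).1 (ha ▸ hy'O)
  have hy' : ∑ l, u l * y₀ * w l ∈ commSpan O := by
    rw [← ha]
    refine sum_mem fun l _ => crosspure_piece h l (haO l) fun σ hσ => ?_
    rw [← crosspure_form_inv h hs (hw1 l) σ a, ha]
    apply horth
    intro b
    have hb : σ * act K φ l b = σ * b := by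
      conv_lhs => rw [eq_sum_single b]
      conv_rhs => rw [eq_sum_single b]
      rw [map_sum, Finset.mul_sum, Finset.mul_sum]
      refine Finset.sum_congr rfl fun x _ => ?_
      rw [MonoidAlgebra.smul_single', crosspure_act_single, ← MonoidAlgebra.smul_single',
        ← MonoidAlgebra.smul_single', mul_smul_comm, mul_smul_comm, hσ]
    have hwδ : δ b * w l = w l * δ (act K φ l b) := by
      calc δ b * w l = w l * (u l * δ b) * w l := by rw [← mul_assoc, hw2, one_mul]
        _ = w l * δ (act K φ l b) * (u l * w l) := by rw [h.comm]; simp only [mul_assoc]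
        _ = _ := by rw [hw1, mul_one]
    rw [← mul_assoc, hwδ, mul_assoc, mul_assoc, ← map_mul, ← map_mul, mul_comm (act K φ l b), hb]
  have := (commSpan O).add_mem hdiff hy'
  rwa [sub_add_cancel] at this

end Pool.Agent.Lib.MP_b6945b_al.St
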