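import Pool.Agent.Lib.MP_b6945b_al.St.Order0

set_option autoImplicit false

/-!
Basic facts on deformations of symmetric orders.
-/

namespace Pool.Agent.Lib.MP_b6945b_al.St

open PowerSeries

variable {K : Type} [Field K] {V : ValuationSubring K} {A : Type} [Ring A] [Algebra K A]

namespace Deform

variable {O : Subring A} {s : A →ₗ[K] K} {Λ : Subring A⟦X⟧} {g : A⟦X⟧}

lemma g_comm (h : Deform V O s Λ g) (F : A⟦X⟧) : g * F = F * g := central_series h.central F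

lemma coeff_zero_st (h : Deform V O s Λ g) (F : A⟦X⟧) :
    coeff 0 (st s g F) = s (coeff 0 F) := by
  rw [st_apply, coeff_extF, coeff_zero_mul', h.g_zero, one_mul]

lemma st_symm (h : Deform V O s Λ g) (F G : A⟦X⟧) : st s g (F * G) = st s g (G * F) := by
  have e : ∀ P Q : A⟦X⟧, extF s (P * Q) = extF s (Q * P) := by
    intro P Q
    ext n
    simp only [coeff_extF, coeff_mul, map_sum]
    rw [← Finset.Nat.sum_antidiagonal_swap]
    exact Finset.sum_congr rfl (fun q _ => h.symm _ _)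
  rw [st_apply, st_apply, ← mul_assoc, e, ← mul_assoc, ← mul_assoc, h.g_comm G]

/-- The constant terms of a frame form a frame (apply the frame identity to constants). -/
lemma frame_zero (h : Deform V O s Λ g) {ι : Type} [Fintype ι] {β β' : ι → A⟦X⟧}
    (hβ : IsFrame (st s g) ⊤ β β') :
    IsFrame s ⊤ (fun i => coeff 0 (β i)) (fun i => coeff 0 (β' i)) := by
  refine ⟨fun _ => trivial, fun _ => trivial, fun x _ y _ => h.symm x y, fun y _ => ?_⟩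
  have e := congrArg (coeff 0) (hβ.repro (C y) trivial)
  rw [map_sum, coeff_zero_C] at e
  rw [← e]
  refine Finset.sum_congr rfl (fun i _ => ?_)
  rw [coeff_zero_ps_smul, h.coeff_zero_st, coeff_zero_mul', coeff_zero_C, e]

lemma symOrder (h : Deform V O s Λ g) : SymOrder V O s := by
  refine ⟨fun v hv a ha => ?_, fun a ha => ?_, ?_⟩
  · obtain ⟨F, hF, rfl⟩ := (h.const a).1 ha
    refine (h.const _).2 ⟨(C v : K⟦X⟧) • F, h.smul_mem _ (C_mem_VX hv) _ hF, ?_⟩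
    rw [coeff_zero_ps_smul, coeff_zero_C]
  · obtain ⟨F, hF, rfl⟩ := (h.const a).1 ha
    rw [← h.coeff_zero_st]
    exact h.form_mem F hF 0
  · obtain ⟨n, β, β', h1, h2, h3⟩ := h.frame
    exact ⟨n, _, _, fun i => (h.const _).2 ⟨β i, h1 i, rfl⟩, fun i => (h.const _).2 ⟨β' i, h2 i, rfl⟩,
      h.frame_zero h3⟩

lemma mem_of_form (h : Deform V O s Λ g) {F : A⟦X⟧} (hF : ∀ G ∈ Λ, st s g (F * G) ∈ VX V) :
    F ∈ Λ := by
  obtain ⟨n, β, β', h1, h2, h3⟩ := h.frame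
  rw [← h3.repro F trivial]
  exact Λ.sum_mem (fun i _ => h.smul_mem _ (hF _ (h2 i)) _ (h1 i))

lemma X_mul_mem (h : Deform V O s Λ g) {F : A⟦X⟧} (hF : F ∈ Λ) : X * F ∈ Λ := by
  rw [← X_ps_smul (S := K)]
  exact h.smul_mem _ X_mem_VX _ hF

lemma smul_mem' (h : Deform V O s Λ g) {v : K} (hv : v ∈ V) {F : A⟦X⟧} (hF : F ∈ Λ) :
    v • F ∈ Λ := by
  rw [← C_ps_smul]
  exact h.smul_mem _ (C_mem_VX hv) _ hF

/-- The lattice is `t`-saturated. -/
lemma of_X_pow_mul (h : Deform V O s Λ g) (n : ℕ) {F : A⟦X⟧} (hF : X ^ n * F ∈ Λ) : F ∈ Λ := by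
  refine h.mem_of_form (fun G hG m => ?_)
  have h1 := h.form_mem _ (Λ.mul_mem hF hG) (m + n)
  have e : (X : A⟦X⟧) ^ n * F * G = ((X : K⟦X⟧) ^ n) • (F * G) := by
    rw [ps_smul_def, map_pow, map_X, mul_assoc]
  rw [e, map_smul, smul_eq_mul, coeff_X_pow_mul] at h1
  exact h1

/-- The leading coefficient of an element of the lattice lies in the order. -/
lemma coeff_mem_of_ord (h : Deform V O s Λ g) {n : ℕ} {F : A⟦X⟧} (hF : F ∈ Λ) (h0 : Ord n F) :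
    coeff n F ∈ O := by
  obtain ⟨G, rfl⟩ := ord_iff_dvd.1 h0
  have hG := h.of_X_pow_mul n hF
  have e : coeff n ((X : A⟦X⟧) ^ n * G) = coeff 0 G := by
    have := coeff_X_pow_mul G n 0
    rwa [zero_add] at this
  rw [e]
  exact (h.const _).2 ⟨G, hG, rfl⟩

lemma closed (h : Deform V O s Λ g) : Closed (Λ : Set A⟦X⟧) := by
  intro F hF
  refine h.mem_of_form (fun G hG => ?_)
  refine closed_VX _ (fun n => ?_)
  obtain ⟨F', hF', ho⟩ := hF n
  refine ⟨st s g (F' * G), h.form_mem _ (Λ.mul_mem hF' hG), ?_⟩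
  rw [← map_sub, ← sub_mul]
  exact (ho.mul_right G).mapF _

/-- Units are detected on the constant term (lift the inverse `w` to `W ∈ Λ` and use
`exists_neumann` for left multiplication by `W * F`, then the same on the other side). -/
lemma exists_inv (h : Deform V O s Λ g) {F : A⟦X⟧} (hF : F ∈ Λ) {w : A} (hw : w ∈ O)
    (h1 : w * coeff 0 F = 1) (h2 : coeff 0 F * w = 1) :
    ∃ G ∈ Λ, G * F = 1 ∧ F * G = 1 := by
  obtain ⟨W, hW, rfl⟩ := (h.const w).1 hw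
  obtain ⟨T, t1, -, -, t4⟩ := exists_neumann (S := K) (LinearMap.mulLeft K⟦X⟧ (F * W)) (fun H => by
    rw [LinearMap.mulLeft_apply, coeff_zero_mul', coeff_zero_mul', h2, one_mul])
  obtain ⟨T', t1', -, -, t4'⟩ := exists_neumann (S := K) (LinearMap.mulRight K⟦X⟧ (W * F))
    (fun H => by
      rw [LinearMap.mulRight_apply, coeff_zero_mul', coeff_zero_mul', h1, mul_one])
  have m1 : T 1 ∈ Λ := t4 Λ.toAddSubgroup h.closed
    (fun H hH => Λ.mul_mem (Λ.mul_mem hF hW) hH) 1 Λ.one_mem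
  have m2 : T' 1 ∈ Λ := t4' Λ.toAddSubgroup h.closed
    (fun H hH => Λ.mul_mem hH (Λ.mul_mem hW hF)) 1 Λ.one_mem
  have e1 : F * (W * T 1) = 1 := by
    have := t1 1
    rwa [LinearMap.mulLeft_apply, mul_assoc] at this
  have e2 : (T' 1 * W) * F = 1 := by
    have := t1' 1
    rwa [LinearMap.mulRight_apply, ← mul_assoc] at this
  have e3 : T' 1 * W = W * T 1 := left_inv_eq_right_inv e2 e1
  exact ⟨W * T 1, Λ.mul_mem hW m1, e3 ▸ e2, e1⟩

lemma exists_g_inv (h : Deform V O s Λ g) :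
    ∃ g' : A⟦X⟧, g * g' = 1 ∧ g' * g = 1 ∧ ∀ F, g' * F = F * g' := by
  obtain ⟨T, t1, -, -, -⟩ := exists_neumann (S := K) (LinearMap.mulLeft K⟦X⟧ g) (fun H => by
    rw [LinearMap.mulLeft_apply, coeff_zero_mul', h.g_zero, one_mul])
  have e1 : g * T 1 = 1 := t1 1
  have e2 : T 1 * g = 1 := by rw [← h.g_comm, e1]
  refine ⟨T 1, e1, e2, fun F => ?_⟩
  calc T 1 * F = T 1 * (F * g) * T 1 := by rw [mul_assoc, mul_assoc, e1, mul_one]
    _ = F * T 1 := by rw [← h.g_comm F, ← mul_assoc, e2, one_mul]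

/-- A linear map preserving the order lifts to the deformation:
`T' F = ∑ st (F β') • lift (T (β 0))`. -/
lemma exists_lift_map (h : Deform V O s Λ g) (T : A →ₗ[K] A) (hT : ∀ a ∈ O, T a ∈ O) :
    ∃ T' : A⟦X⟧ →ₗ[K⟦X⟧] A⟦X⟧, (∀ F ∈ Λ, T' F ∈ Λ) ∧
      ∀ F, coeff 0 (T' F) = T (coeff 0 F) := by
  obtain ⟨n, β, β', h1, h2, h3⟩ := h.frame
  have hl : ∀ i, ∃ G ∈ Λ, coeff 0 G = T (coeff 0 (β i)) := fun i =>
    (h.const _).1 (hT _ ((h.const _).2 ⟨β i, h1 i, rfl⟩))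
  choose G hG hG0 using hl
  refine ⟨∑ i, (LinearMap.toSpanSingleton K⟦X⟧ A⟦X⟧ (G i)) ∘ₗ (st s g) ∘ₗ
    LinearMap.mulRight K⟦X⟧ (β' i), fun F hF => ?_, fun F => ?_⟩
  · rw [LinearMap.sum_apply]
    refine Λ.sum_mem (fun i _ => ?_)
    exact h.smul_mem _ (h.form_mem _ (Λ.mul_mem hF (h2 i))) _ (hG i)
  · rw [LinearMap.sum_apply, map_sum]
    conv_rhs => rw [← (h.frame_zero h3).repro (coeff 0 F) trivial, map_sum]
    refine Finset.sum_congr rfl (fun i _ => ?_)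
    change coeff 0 (st s g (F * β' i) • G i) = _
    rw [coeff_zero_ps_smul, h.coeff_zero_st, coeff_zero_mul', hG0, map_smul]

end Deform

/-- The conjugate lattice `U Λ U⁻¹`. -/
noncomputable def conjSub (U : (A⟦X⟧)ˣ) (Λ : Subring A⟦X⟧) : Subring A⟦X⟧ :=
  Λ.map (MulSemiringAction.toRingHom (ConjAct (A⟦X⟧)ˣ) A⟦X⟧ (ConjAct.toConjAct U))

lemma mem_conjSub {U : (A⟦X⟧)ˣ} {Λ : Subring A⟦X⟧} {F : A⟦X⟧} :
    F ∈ conjSub U Λ ↔ ∃ G ∈ Λ, (U : A⟦X⟧) * G * (↑U⁻¹ : A⟦X⟧) = F := by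
  unfold conjSub
  rw [Subring.mem_map]
  rfl

lemma Deform.conj {O : Subring A} {s : A →ₗ[K] K} {Λ : Subring A⟦X⟧} {g : A⟦X⟧}
    (h : Deform V O s Λ g) (U : (A⟦X⟧)ˣ) (hU : coeff 0 (U : A⟦X⟧) = 1) :
    Deform V O s (conjSub U Λ) g := by
  have hst : ∀ G : A⟦X⟧, st s g ((U : A⟦X⟧) * G * (↑U⁻¹ : A⟦X⟧)) = st s g G := by
    intro G
    rw [h.st_symm, ← mul_assoc, Units.inv_mul, one_mul]
  have hU' : coeff 0 (↑U⁻¹ : A⟦X⟧) = 1 := by
    have := congrArg (coeff 0) U.mul_inv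
    rwa [coeff_zero_mul', hU, one_mul, coeff_zero_one] at this
  refine ⟨fun r hr F hF => ?_, h.symm, h.central, h.g_zero, fun F hF => ?_, ?_, fun a => ?_⟩
  · obtain ⟨G, hG, rfl⟩ := mem_conjSub.1 hF
    refine mem_conjSub.2 ⟨r • G, h.smul_mem r hr G hG, ?_⟩
    rw [mul_smul_comm, smul_mul_assoc]
  · obtain ⟨G, hG, rfl⟩ := mem_conjSub.1 hF
    rw [hst]
    exact h.form_mem G hG
  · obtain ⟨n, β, β', h1, h2, h3⟩ := h.frame
    refine ⟨n, fun i => (U : A⟦X⟧) * β i * (↑U⁻¹ : A⟦X⟧),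
      fun i => (U : A⟦X⟧) * β' i * (↑U⁻¹ : A⟦X⟧), fun i => mem_conjSub.2 ⟨_, h1 i, rfl⟩,
      fun i => mem_conjSub.2 ⟨_, h2 i, rfl⟩, fun _ => trivial, fun _ => trivial,
      fun x _ y _ => h.st_symm x y, fun y _ => ?_⟩
    have e := h3.repro ((↑U⁻¹ : A⟦X⟧) * y * (U : A⟦X⟧)) trivial
    have e' : y = (U : A⟦X⟧) * ((↑U⁻¹ : A⟦X⟧) * y * (U : A⟦X⟧)) * (↑U⁻¹ : A⟦X⟧) := by
      rw [← mul_assoc, ← mul_assoc, Units.mul_inv, one_mul, mul_assoc, Units.mul_inv, mul_one]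
    conv_rhs => rw [e', ← e, Finset.mul_sum, Finset.sum_mul]
    refine Finset.sum_congr rfl (fun i _ => ?_)
    rw [mul_smul_comm, smul_mul_assoc]
    congr 1
    rw [← hst ((↑U⁻¹ : A⟦X⟧) * y * (U : A⟦X⟧) * β' i)]
    congr 1
    simp only [← mul_assoc, Units.mul_inv, one_mul]
  · rw [h.const]
    constructor
    · rintro ⟨F, hF, rfl⟩
      refine ⟨_, mem_conjSub.2 ⟨F, hF, rfl⟩, ?_⟩
      rw [coeff_zero_mul', coeff_zero_mul', hU, hU', one_mul, mul_one]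
    · rintro ⟨F, hF, rfl⟩
      obtain ⟨G, hG, rfl⟩ := mem_conjSub.1 hF
      refine ⟨G, hG, ?_⟩
      rw [coeff_zero_mul', coeff_zero_mul', hU, hU', one_mul, mul_one]

lemma XCond.conj {O : Subring A} {s : A →ₗ[K] K} {Λ : Subring A⟦X⟧} {g : A⟦X⟧}
    (h : Deform V O s Λ g) (hx : XCond s Λ g) (U : (A⟦X⟧)ˣ) : XCond s (conjSub U Λ) g := by
  obtain ⟨x, hxm, hx⟩ := hx
  refine ⟨_, mem_conjSub.2 ⟨x, hxm, rfl⟩, fun ζ => ?_⟩
  have hc : ∀ F : A⟦X⟧, (C (ζ : A) : A⟦X⟧) * F = F * C (ζ : A) := by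
    refine central_series (fun m a => ?_)
    rw [coeff_C]
    split_ifs
    · exact (Subalgebra.mem_center_iff.1 ζ.2 a).symm
    · rw [zero_mul, mul_zero]
  rw [← hx ζ, ← mul_assoc, ← mul_assoc, hc, h.st_symm, ← mul_assoc, ← mul_assoc, Units.inv_mul,
    one_mul]

end Pool.Agent.Lib.MP_b6945b_al.St
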