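import Pool.Agent.Lib.MP_b6945b_al.St.Binom
import Pool.Agent.Lib.MP_b6945b_al.St.GA
import Pool.Agent.Lib.MP_b6945b_al.St.Order

set_option autoImplicit false

/-!
An equivariant deformation of the group ring of an abelian `p`-group.
-/

namespace Pool.Agent.Lib.MP_b6945b_al.St

open PowerSeries
open MonoidAlgebra (single domCongr)

/-- The action of an automorphism on the group algebra. -/
noncomputable def act (K : Type) [Field K] {D E : Type} [CommGroup D] [Group E]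
    (φ : E →* MulAut D) (l : E) : MonoidAlgebra K D →+* MonoidAlgebra K D :=
  (domCongr K K (φ l) : MonoidAlgebra K D ≃ₐ[K] MonoidAlgebra K D).toRingEquiv.toRingHom

variable {K : Type} [Field K] [CharZero K] {V : ValuationSubring K} {D E : Type} [CommGroup D]
  [Fintype D] [Group E] [Fintype E]

/-- The deformed group elements `X_v = v ∏ (1 + t (X_{w l} - 1)) ^ (r l v)`. -/
structure XFam (p : ℕ) (φ : E →* MulAut D) (w : E → D) (r : E → D → ℚ)
    (Xs : D → (MonoidAlgebra K D)⟦X⟧) : Prop where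
  w_pow : ∀ l, w l ^ p = 1
  r_one : ∀ l, r l 1 = 0
  r_add : ∀ l v v', ∃ n : ℕ, r l v + r l v' = r l (v * v') + n
  r_int : ∀ l v, v ^ p = 1 → ∃ a : ℤ, r l v = a / p
  r_unit : ∃ a : ℤ, ¬ (p : ℤ) ∣ a ∧ ∀ l, r l (w l)⁻¹ = a / p
  w_equiv : ∀ l m, φ l (w m) = w (l * m)
  r_equiv : ∀ l m v, r (l * m) (φ l v) = r m v
  fix : ∀ v, Xs v = C (single v 1) * ∏ l, bpow K (r l v) (X * (Xs (w l) - 1))

lemma defd_ord_prod {A ι : Type} [CommRing A] {n : ℕ} (t : Finset ι) {F G : ι → A⟦X⟧}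
    (h : ∀ i, Ord n (F i - G i)) : Ord n (∏ i ∈ t, F i - ∏ i ∈ t, G i) := by
  classical
  induction t using Finset.induction_on with
  | empty => simpa using Ord.zero n
  | insert a t ha ih =>
    rw [Finset.prod_insert ha, Finset.prod_insert ha]
    have e : F a * ∏ i ∈ t, F i - G a * ∏ i ∈ t, G i =
        (F a - G a) * ∏ i ∈ t, F i + G a * (∏ i ∈ t, F i - ∏ i ∈ t, G i) := by ring
    rw [e]
    exact ((h a).mul_right _).add (ih.mul_left _)

omit [Fintype D] in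
lemma defd_char {p : ℕ} (hp : p.Prime) {w₀ : D} (h1 : w₀ ≠ 1) (hw : w₀ ^ p = 1) :
    ∃ r₀ : D → ℚ, r₀ 1 = 0 ∧ (∀ v v', ∃ n : ℕ, r₀ v + r₀ v' = r₀ (v * v') + n) ∧
      (∀ v, v ^ p = 1 → ∃ a : ℤ, r₀ v = a / p) ∧
      ∃ a : ℤ, ¬ (p : ℤ) ∣ a ∧ r₀ w₀⁻¹ = a / p := by
  have h1' : (Additive.ofMul w₀ : Additive D) ≠ 0 := h1
  obtain ⟨χ, hχ⟩ := CharacterModule.exists_character_apply_ne_zero_of_ne_zero h1'
  have : Fact ((0 : ℚ) < 1) := ⟨one_pos⟩
  let r₀ : D → ℚ := fun v => (AddCircle.equivIco (1 : ℚ) 0 (χ (Additive.ofMul v)) : ℚ)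
  have hr : ∀ v, 0 ≤ r₀ v ∧ r₀ v < 1 := fun v => by
    have := (AddCircle.equivIco (1 : ℚ) 0 (χ (Additive.ofMul v))).2
    simpa using this
  have hc : ∀ v, ((r₀ v : ℚ) : AddCircle (1 : ℚ)) = χ (Additive.ofMul v) := fun v =>
    (AddCircle.equivIco (1 : ℚ) 0).symm_apply_apply (χ (Additive.ofMul v))
  have hz : ∀ q : ℚ, (q : AddCircle (1 : ℚ)) = 0 ↔ ∃ z : ℤ, (z : ℚ) = q := fun q => by
    rw [AddCircle.coe_eq_zero_iff]
    simp
  have hp0 : (p : ℚ) ≠ 0 := Nat.cast_ne_zero.2 hp.ne_zero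
  have hint : ∀ v, v ^ p = 1 → ∃ a : ℤ, r₀ v = a / p := fun v hv => by
    have h2 : (((p : ℚ) * r₀ v : ℚ) : AddCircle (1 : ℚ)) = 0 := by
      rw [← nsmul_eq_mul, AddCircle.coe_nsmul, hc, ← map_nsmul, ← ofMul_pow, hv, ofMul_one,
        map_zero]
    obtain ⟨z, h3⟩ := (hz _).1 h2
    exact ⟨z, by rw [h3]; field_simp⟩
  refine ⟨r₀, ?_, fun v v' => ?_, hint, ?_⟩
  · have h2 : ((r₀ 1 : ℚ) : AddCircle (1 : ℚ)) = 0 := by rw [hc, ofMul_one, map_zero]
    obtain ⟨z, h3⟩ := (hz _).1 h2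
    have h4 := hr 1
    rw [← h3] at h4 ⊢
    have h5 : 0 ≤ z := by exact_mod_cast h4.1
    have h6 : z < 1 := by exact_mod_cast h4.2
    have h7 : z = 0 := by omega
    simp [h7]
  · have h2 : ((r₀ v + r₀ v' - r₀ (v * v') : ℚ) : AddCircle (1 : ℚ)) = 0 := by
      rw [AddCircle.coe_sub, AddCircle.coe_add, hc, hc, hc, ofMul_mul, map_add, sub_self]
    obtain ⟨z, h3⟩ := (hz _).1 h2
    have h4 : (-1 : ℚ) < z := by
      rw [h3]; linarith [(hr v).1, (hr v').1, (hr (v * v')).2]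
    have h5 : (-1 : ℤ) < z := by exact_mod_cast h4
    obtain ⟨n, rfl⟩ := Int.eq_ofNat_of_zero_le (show 0 ≤ z by omega)
    refine ⟨n, ?_⟩
    rw [Int.cast_natCast] at h3
    linarith
  · obtain ⟨a, ha⟩ := hint w₀⁻¹ (by rw [inv_pow, hw, inv_one])
    refine ⟨a, ?_, ha⟩
    rintro ⟨b, rfl⟩
    have h2 : ((r₀ w₀⁻¹ : ℚ) : AddCircle (1 : ℚ)) = 0 :=
      (hz _).2 ⟨b, by rw [ha]; push_cast; field_simp⟩
    rw [hc, ofMul_inv, map_neg, neg_eq_zero] at h2
    exact hχ h2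

/-- Choose `w₀` of order `p` and a character `r₀ : Additive D →+ AddCircle (1 : ℚ)` with
`r₀ w₀ ≠ 0` (`CharacterModule.exists_character_apply_ne_zero_of_ne_zero`), lifted to `[0, 1)`
(`AddCircle.equivIco`); `w l = φ l w₀`, `r l v = lift (r₀ ((φ l)⁻¹ v))`; the family is a fixed
point (`exists_fixed_family`, `bpow_ord`). -/
theorem exists_xfam {p : ℕ} (hp : p.Prime) [Nontrivial D] (hD : IsPGroup p D)
    (φ : E →* MulAut D) :
    ∃ (w : E → D) (r : E → D → ℚ) (Xs : D → (MonoidAlgebra K D)⟦X⟧), XFam p φ w r Xs := by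
  have : Fact p.Prime := ⟨hp⟩
  obtain ⟨w₀, h1, hw⟩ : ∃ w₀ : D, w₀ ≠ 1 ∧ w₀ ^ p = 1 := by
    obtain ⟨n, hn, hc⟩ := hD.nontrivial_iff_card.1 inferInstance
    obtain ⟨x, hx⟩ := exists_prime_orderOf_dvd_card' (G := D) p
      (by rw [hc]; exact dvd_pow_self p hn.ne')
    refine ⟨x, fun h => ?_, by rw [← hx]; exact pow_orderOf_eq_one x⟩
    rw [h, orderOf_one] at hx
    exact hp.one_lt.ne hx
  obtain ⟨r₀, h2, h3, h4, a, h5, h6⟩ := defd_char hp h1 hw
  let w : E → D := fun l => φ l w₀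
  let r : E → D → ℚ := fun l v => r₀ ((φ l)⁻¹ v)
  obtain ⟨Xs, -, hX⟩ := exists_fixed_family (A := MonoidAlgebra K D) (ι := D)
    (fun _ => Set.univ) (fun _ _ _ => trivial)
    (fun F v => C (single v 1) * ∏ l, bpow K (r l v) (X * (F (w l) - 1))) (fun _ => 1)
    (fun _ => trivial) (fun _ _ _ => trivial) (fun n F G _ _ h v => by
      rw [← mul_sub]
      refine (defd_ord_prod _ fun l => bpow_ord (by simp) (by simp) _ ?_).mul_left _
      rw [← mul_sub, sub_sub_sub_cancel_right]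
      exact (h (w l)).X_mul)
  refine ⟨w, r, Xs, fun l => ?_, fun l => ?_, fun l v v' => ?_, fun l v hv => ?_,
    ⟨a, h5, fun l => ?_⟩, fun l m => ?_, fun l m v => ?_, fun v => (congrFun hX v).symm⟩
  · simp only [w]
    rw [← map_pow, hw, map_one]
  · simp only [r]
    rw [map_one, h2]
  · simp only [r]
    rw [map_mul]
    exact h3 _ _
  · exact h4 _ (by rw [← map_pow, hv, map_one])
  · simp only [r, w]
    rw [map_inv, ← h6]
    simp
  · simp only [w]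
    rw [map_mul, MulAut.mul_apply]
  · simp only [r]
    rw [map_mul, mul_inv_rev, MulAut.mul_apply]
    simp

end Pool.Agent.Lib.MP_b6945b_al.St
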