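import Mathlib

set_option autoImplicit false

/-!
Dual frames for a symmetric form and the sliding lemmas for their Casimir elements.
-/

namespace Pool.Agent.Lib.MP_b6945b_al.St

variable {R A Q : Type} [CommRing R] [Ring A] [Algebra R A] [AddCommGroup Q] [Module R Q]

/-- `f, f'` are dual frames of the submodule `U` for the form `(x, y) ↦ s (x y)`, which is
symmetric on `U`. -/
structure IsFrame {ι : Type} [Fintype ι] (s : A →ₗ[R] R) (U : Submodule R A) (f f' : ι → A) :
    Prop where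
  mem : ∀ i, f i ∈ U
  mem' : ∀ i, f' i ∈ U
  symm : ∀ x ∈ U, ∀ y ∈ U, s (x * y) = s (y * x)
  repro : ∀ y ∈ U, ∑ i, s (y * f' i) • f i = y

variable (R) in
/-- Bilinear functions of two variables. -/
structure IsBilin (F : A → A → Q) : Prop where
  add_left : ∀ x x' y, F (x + x') y = F x y + F x' y
  smul_left : ∀ (r : R) x y, F (r • x) y = r • F x y
  add_right : ∀ x y y', F x (y + y') = F x y + F x y'
  smul_right : ∀ (r : R) x y, F x (r • y) = r • F x y

lemma IsBilin.flip {F : A → A → Q} (h : IsBilin R F) : IsBilin R (fun x y => F y x) :=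
  ⟨fun x x' y => h.add_right y x x', fun r x y => h.smul_right r y x,
    fun x y y' => h.add_left y y' x, fun r x y => h.smul_left r y x⟩

/-- The bundled bilinear map. -/
def IsBilin.lin {F : A → A → Q} (h : IsBilin R F) : A →ₗ[R] A →ₗ[R] Q :=
  LinearMap.mk₂ R F h.add_left h.smul_left h.add_right h.smul_right

lemma IsBilin.sum_left {F : A → A → Q} (h : IsBilin R F) {ι : Type} (t : Finset ι) (c : ι → R)
    (x : ι → A) (y : A) : F (∑ i ∈ t, c i • x i) y = ∑ i ∈ t, c i • F (x i) y := by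
  change h.lin _ y = ∑ i ∈ t, c i • h.lin (x i) y
  simp [map_sum]

lemma IsBilin.sum_right {F : A → A → Q} (h : IsBilin R F) {ι : Type} (t : Finset ι) (c : ι → R)
    (x : A) (y : ι → A) : F x (∑ i ∈ t, c i • y i) = ∑ i ∈ t, c i • F x (y i) :=
  h.flip.sum_left t c y x

lemma IsBilin.sum_left' {F : A → A → Q} (h : IsBilin R F) {ι : Type} (t : Finset ι)
    (x : ι → A) (y : A) : F (∑ i ∈ t, x i) y = ∑ i ∈ t, F (x i) y := by
  simpa using h.sum_left t (fun _ => 1) x y

lemma IsBilin.sum_right' {F : A → A → Q} (h : IsBilin R F) {ι : Type} (t : Finset ι)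
    (x : A) (y : ι → A) : F x (∑ i ∈ t, y i) = ∑ i ∈ t, F x (y i) := by
  simpa using h.sum_right t (fun _ => 1) x y

namespace IsFrame

variable {ι κ : Type} [Fintype ι] [Fintype κ] {s : A →ₗ[R] R} {U : Submodule R A} {f f' : ι → A}

lemma nondeg (h : IsFrame s U f f') {y : A} (hy : y ∈ U) (h0 : ∀ x ∈ U, s (y * x) = 0) :
    y = 0 := by
  rw [← h.repro y hy]
  exact Finset.sum_eq_zero (fun i _ => by rw [h0 _ (h.mem' i), zero_smul])

lemma ext (h : IsFrame s U f f') {y z : A} (hy : y ∈ U) (hz : z ∈ U)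
    (h0 : ∀ x ∈ U, s (y * x) = s (z * x)) : y = z := by
  rw [← sub_eq_zero]
  exact h.nondeg (U.sub_mem hy hz) (fun x hx => by rw [sub_mul, map_sub, h0 x hx, sub_self])

lemma repro' (h : IsFrame s U f f') (y : A) (hy : y ∈ U) : ∑ i, s (y * f i) • f' i = y := by
  refine h.ext (U.sum_mem (fun i _ => U.smul_mem _ (h.mem' i))) hy (fun x hx => ?_)
  conv_rhs => rw [← h.repro x hx]
  simp only [Finset.sum_mul, Finset.mul_sum, map_sum, smul_mul_assoc, mul_smul_comm, map_smul,
    smul_eq_mul]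
  exact Finset.sum_congr rfl (fun i _ => by rw [h.symm _ (h.mem' i) _ hx, mul_comm])

lemma swap (h : IsFrame s U f f') : IsFrame s U f' f := ⟨h.mem', h.mem, h.symm, h.repro'⟩

/-- The Casimir element does not depend on the frame. -/
lemma indep {e e' : κ → A} (h : IsFrame s U f f') (h' : IsFrame s U e e') {F : A → A → Q}
    (hF : IsBilin R F) : ∑ i, F (f i) (f' i) = ∑ j, F (e j) (e' j) := by
  calc ∑ i, F (f i) (f' i) = ∑ i, ∑ j, s (f i * e' j) • F (e j) (f' i) :=
        Finset.sum_congr rfl (fun i _ => by rw [← hF.sum_left, h'.repro _ (h.mem i)])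
    _ = ∑ j, F (e j) (e' j) := by
        rw [Finset.sum_comm]
        refine Finset.sum_congr rfl (fun j _ => ?_)
        conv_rhs => rw [← h.repro' _ (h'.mem' j), hF.sum_right]
        exact Finset.sum_congr rfl (fun i _ => by rw [h.symm _ (h.mem i) _ (h'.mem' j)])

/-- The Casimir element is symmetric. -/
lemma sum_swap (h : IsFrame s U f f') {F : A → A → Q} (hF : IsBilin R F) :
    ∑ i, F (f i) (f' i) = ∑ i, F (f' i) (f i) := h.indep h.swap hF

/-- General sliding: `T` and `T'` are adjoint operators on `U`. -/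
lemma slide (h : IsFrame s U f f') {F : A → A → Q} (hF : IsBilin R F) (T T' : A →ₗ[R] A)
    (hT : ∀ x ∈ U, T x ∈ U) (hT' : ∀ x ∈ U, T' x ∈ U)
    (had : ∀ x ∈ U, ∀ y ∈ U, s (T x * y) = s (x * T' y)) :
    ∑ i, F (T (f i)) (f' i) = ∑ i, F (f i) (T' (f' i)) := by
  calc ∑ i, F (T (f i)) (f' i) = ∑ i, ∑ j, s (T (f i) * f' j) • F (f j) (f' i) :=
        Finset.sum_congr rfl (fun i _ => by rw [← hF.sum_left, h.repro _ (hT _ (h.mem i))])
    _ = ∑ j, F (f j) (T' (f' j)) := by
        rw [Finset.sum_comm]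
        refine Finset.sum_congr rfl (fun j _ => ?_)
        conv_rhs => rw [← h.repro' _ (hT' _ (h.mem' j)), hF.sum_right]
        exact Finset.sum_congr rfl (fun i _ => by
          rw [had _ (h.mem i) _ (h.mem' j), h.symm _ (h.mem i) _ (hT' _ (h.mem' j))])

/-- `∑ b f ⊗ f' = ∑ f ⊗ f' b`. -/
lemma slide_left (h : IsFrame s U f f') {F : A → A → Q} (hF : IsBilin R F) (b : A)
    (hl : ∀ x ∈ U, b * x ∈ U) (hr : ∀ x ∈ U, x * b ∈ U)
    (hs : ∀ x ∈ U, ∀ y ∈ U, s (b * x * y) = s (x * (y * b))) :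
    ∑ i, F (b * f i) (f' i) = ∑ i, F (f i) (f' i * b) :=
  h.slide hF (LinearMap.mulLeft R b) (LinearMap.mulRight R b) hl hr hs

/-- `∑ f b ⊗ f' = ∑ f ⊗ b f'`. -/
lemma slide_right (h : IsFrame s U f f') {F : A → A → Q} (hF : IsBilin R F) (b : A)
    (hl : ∀ x ∈ U, b * x ∈ U) (hr : ∀ x ∈ U, x * b ∈ U) :
    ∑ i, F (f i * b) (f' i) = ∑ i, F (f i) (b * f' i) :=
  h.slide hF (LinearMap.mulRight R b) (LinearMap.mulLeft R b) hr hl
    (fun x _ y _ => by simp [mul_assoc])

/-- Sliding in a subalgebra. -/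
lemma slideB_left {B : Subalgebra R A} (h : IsFrame s B.toSubmodule f f') {F : A → A → Q}
    (hF : IsBilin R F) {b : A} (hb : b ∈ B) :
    ∑ i, F (b * f i) (f' i) = ∑ i, F (f i) (f' i * b) :=
  h.slide_left hF b (fun _ hx => B.mul_mem hb hx) (fun _ hx => B.mul_mem hx hb)
    (fun x hx y hy => by
      rw [mul_assoc, h.symm b hb _ (B.mul_mem hx hy), mul_assoc])

lemma slideB_right {B : Subalgebra R A} (h : IsFrame s B.toSubmodule f f') {F : A → A → Q}
    (hF : IsBilin R F) {b : A} (hb : b ∈ B) :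
    ∑ i, F (f i * b) (f' i) = ∑ i, F (f i) (b * f' i) :=
  h.slide_right hF b (fun _ hx => B.mul_mem hb hx) (fun _ hx => B.mul_mem hx hb)

/-- Sliding for a frame of the whole algebra. -/
lemma slideA_left (h : IsFrame s ⊤ f f') {F : A → A → Q} (hF : IsBilin R F) (b : A) :
    ∑ i, F (b * f i) (f' i) = ∑ i, F (f i) (f' i * b) :=
  h.slide_left hF b (fun _ _ => trivial) (fun _ _ => trivial)
    (fun x _ y _ => by rw [mul_assoc, h.symm b trivial _ trivial, mul_assoc])

lemma slideA_right (h : IsFrame s ⊤ f f') {F : A → A → Q} (hF : IsBilin R F) (b : A) :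
    ∑ i, F (f i * b) (f' i) = ∑ i, F (f i) (b * f' i) :=
  h.slide_right hF b (fun _ _ => trivial) (fun _ _ => trivial)

end IsFrame

/-- The relative trace `y ↦ ∑ f y f'`. -/
def trF {ι : Type} [Fintype ι] (f f' : ι → A) (y : A) : A := ∑ i, f i * y * f' i

/-- The handle element `∑ f (trF f')`. -/
def handle {ι : Type} [Fintype ι] (f f' : ι → A) : A := ∑ i, f i * trF f f' (f' i)

/-- The two-sided trace `y ↦ ∑ f α (f' y g') g` of a map `α`. -/
def trB {ι : Type} [Fintype ι] (f f' : ι → A) (α : A → A) (y : A) : A :=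
  ∑ i, ∑ j, f i * α (f' i * y * f' j) * f j

/-- Higman data: `s` is symmetric, `B` has dual frames, and the orthogonal complement of `B` is
a projective `B`-bimodule, the identity being the two-sided trace of `α`. -/
structure Hig {ι : Type} [Fintype ι] (s : A →ₗ[R] R) (B : Subalgebra R A) (f f' : ι → A)
    (α : A →ₗ[R] A) : Prop where
  symm : ∀ x y, s (x * y) = s (y * x)
  frame : IsFrame s B.toSubmodule f f'
  perp : ∀ y, ∀ b ∈ B, s (α y * b) = 0
  zero : ∀ b ∈ B, α b = 0
  hig : ∀ y, (∀ b ∈ B, s (y * b) = 0) → trB f f' α y = y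

/-- The first element of the cyclic identity. -/
def zA {ι κ : Type} [Fintype ι] [Fintype κ] (f f' : ι → A) (β β' : κ → A) (α : A → A) : A :=
  ∑ j, ∑ h, α (β j) * f h * trF β β' (f' h * β' j)

/-- The second element of the cyclic identity. -/
def zB {ι κ : Type} [Fintype ι] [Fintype κ] (f f' : ι → A) (β β' : κ → A) (α : A → A) : A :=
  ∑ j, ∑ h, α (β j) * f h * trF f f' (f' h * β' j)

lemma isBilin_sandwich (a b c : A) : IsBilin R (fun x y : A => a * x * b * y * c) := by
  constructor <;> intros <;> simp [mul_add, add_mul]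

section trF

variable {ι : Type} [Fintype ι] {s : A →ₗ[R] R} {f f' : ι → A}

lemma trF_comm {B : Subalgebra R A} (h : IsFrame s B.toSubmodule f f') (y : A) {b : A}
    (hb : b ∈ B) : b * trF f f' y = trF f f' y * b := by
  have := h.slideB_left (isBilin_sandwich (R := R) 1 y 1) hb
  simpa [trF, Finset.mul_sum, Finset.sum_mul, mul_assoc] using this

lemma trF_cyc {B : Subalgebra R A} (h : IsFrame s B.toSubmodule f f') (y : A) {b : A}
    (hb : b ∈ B) : trF f f' (b * y) = trF f f' (y * b) := by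
  have := h.slideB_right (isBilin_sandwich (R := R) 1 y 1) hb
  simpa [trF, mul_assoc] using this

lemma trF_comm_top (h : IsFrame s ⊤ f f') (y b : A) : b * trF f f' y = trF f f' y * b := by
  have := h.slideA_left (isBilin_sandwich (R := R) 1 y 1) b
  simpa [trF, Finset.mul_sum, Finset.sum_mul, mul_assoc] using this

lemma trF_cyc_top (h : IsFrame s ⊤ f f') (y b : A) : trF f f' (b * y) = trF f f' (y * b) := by
  have := h.slideA_right (isBilin_sandwich (R := R) 1 y 1) b
  simpa [trF, mul_assoc] using this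

lemma trF_swap {U : Submodule R A} (h : IsFrame s U f f') (y : A) : trF f' f y = trF f f' y := by
  have := h.sum_swap (isBilin_sandwich (R := R) 1 y 1)
  simpa [trF] using this.symm

end trF

end Pool.Agent.Lib.MP_b6945b_al.St
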