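import Pool.Agent.Lib.MP_b6945b_al.St.PS
import Pool.Agent.Lib.MP_b6945b_al.St.Frame

set_option autoImplicit false

/-!
Symmetric orders over a valuation ring and their one-parameter deformations inside the constant
family of algebras over the fraction field.
-/

namespace Pool.Agent.Lib.MP_b6945b_al.St

open PowerSeries

variable {K : Type} [Field K] (V : ValuationSubring K) {A : Type} [Ring A] [Algebra K A]

/-- Series with coefficients in `V`. -/
def VX : Subring K⟦X⟧ := coefSub V.toSubring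

lemma mem_VX {F : K⟦X⟧} : F ∈ VX V ↔ ∀ n, coeff n F ∈ V := Iff.rfl

/-- `z` is nilpotent modulo the maximal ideal in the order `O`. -/
def NilMod (O : Subring A) (z : A) : Prop :=
  ∃ n : ℕ, ∃ m ∈ V.nonunits, ∃ y ∈ O, z ^ n = m • y

/-- `O` is an order in `A` on which `s` is a symmetrising form. -/
structure SymOrder (O : Subring A) (s : A →ₗ[K] K) : Prop where
  smul_mem : ∀ v ∈ V, ∀ a ∈ O, v • a ∈ O
  form_mem : ∀ a ∈ O, s a ∈ V
  frame : ∃ (n : ℕ) (β β' : Fin n → A), (∀ i, β i ∈ O) ∧ (∀ i, β' i ∈ O) ∧ IsFrame s ⊤ β β'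

/-- `Λ` is a deformation of the order `O`, with symmetrising form `F ↦ s (g F)`. -/
structure Deform (O : Subring A) (s : A →ₗ[K] K) (Λ : Subring A⟦X⟧) (g : A⟦X⟧) : Prop where
  smul_mem : ∀ r ∈ VX V, ∀ F ∈ Λ, r • F ∈ Λ
  symm : ∀ x y, s (x * y) = s (y * x)
  central : ∀ m a, coeff m g * a = a * coeff m g
  g_zero : coeff 0 g = 1
  form_mem : ∀ F ∈ Λ, st s g F ∈ VX V
  frame : ∃ (n : ℕ) (β β' : Fin n → A⟦X⟧), (∀ i, β i ∈ Λ) ∧ (∀ i, β' i ∈ Λ) ∧
    IsFrame (st s g) ⊤ β β'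
  const : ∀ a, a ∈ O ↔ ∃ F ∈ Λ, coeff 0 F = a

/-- The trace of the centre is represented by an element of the deformed order. -/
def XCond (s : A →ₗ[K] K) (Λ : Subring A⟦X⟧) (g : A⟦X⟧) : Prop :=
  ∃ x ∈ Λ, ∀ ζ : Subalgebra.center K A,
    st s g (C (ζ : A) * x) = C (Algebra.trace K (Subalgebra.center K A) ζ)

/-- The centre of the order is local. -/
def LocalCentre (O : Subring A) : Prop :=
  ∀ z ∈ O, (∀ a, z * a = a * z) → ∃ v ∈ V, NilMod V O (z - algebraMap K A v)

/-- The order has a good deformation. -/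
def Good (p : ℕ) (O : Subring A) : Prop :=
  ∃ (s : A →ₗ[K] K) (Λ : Subring A⟦X⟧) (g : A⟦X⟧), Deform V O s Λ g ∧ XCond s Λ g ∧
    (∀ m, (p : K) ^ m • coeff m g ∈ O) ∧
    (∃ v ∈ V, v ∉ V.nonunits ∧ NilMod V O ((p : K) • coeff 1 g - algebraMap K A v)) ∧
    LocalCentre V O

/-- Central elements of a subalgebra. -/
def BCent (B : Subalgebra K A) (z : A) : Prop := z ∈ B ∧ ∀ b ∈ B, z * b = b * z

/-- Linear functionals extending the central characters of a separable subalgebra. -/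
structure Chars {ι : Type} [Fintype ι] (B : Subalgebra K A) (s : A →ₗ[K] K) (f f' : ι → A)
    {n : ℕ} (lam : Fin n → A →ₗ[K] K) : Prop where
  one : ∀ i, lam i 1 = 1
  mul : ∀ i z z', BCent B z → BCent B z' → lam i (z * z') = lam i z * lam i z'
  handle : ∀ c ∈ B, s (c * handle f f') = ∑ i, lam i (trF f f' c)

/-- `ι` identifies `A` with the corner of `A'` cut out by `ι 1`, compatibly with the orders. -/
structure CornerEmb {A' : Type} [Ring A'] [Algebra K A'] (ι : A →ₗ[K] A') (O : Subring A)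
    (O' : Subring A') : Prop where
  map_mul : ∀ a b, ι (a * b) = ι a * ι b
  inj : Function.Injective ι
  range : ∀ y, ∃ a, ι a = ι 1 * y * ι 1
  mem_iff : ∀ a, a ∈ O ↔ ι a ∈ O'

/-- `x` lies in the two-sided ideal of `O` generated by `e`. -/
def InIdl {A : Type} [Ring A] (O : Subring A) (e x : A) : Prop :=
  ∃ (n : ℕ) (a b : Fin n → A), (∀ i, a i ∈ O) ∧ (∀ i, b i ∈ O) ∧ x = ∑ i, a i * e * b i

end Pool.Agent.Lib.MP_b6945b_al.St
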