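import Pool.Agent.Lib.MP_b6945b_al.St.Chart

set_option autoImplicit false

/-!
Fixed cocycles are, on Brauer quotients, left multiplications up to homotopy.
-/

namespace Pool.Agent.Lib.MP_b6945b_al.St

open IsLocalRing

variable {R : Type} [CommRing R] [IsLocalRing R] {G : Type} [Group G] [Fintype G]
  {H : Subgroup G} {X : Type} [Fintype X] [DecidableEq X] [MulAction (G × H) X] {κ : X → G}
  {p : ℕ} {ε₀ ε₁ d σ : Kern R H X} {𝒬 : Set (Subgroup H)}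

omit [IsLocalRing R] [Fintype G] in
lemma gtc_supp_cj {D D' : Set G} {g : G} (hg : ∀ x ∈ D', g * x * g⁻¹ ∈ D)
    {a : MonoidAlgebra R G} (ha : SuppCent D a) : SuppCent D' (cjRep R G g⁻¹ a) := by
  intro x hx δ hδ
  rw [coeff_cjRep, inv_inv] at hx
  have h1 := ha _ hx _ (hg δ hδ)
  calc x * δ = g⁻¹ * (g * x * g⁻¹ * (g * δ * g⁻¹)) * g := by group
    _ = g⁻¹ * (g * δ * g⁻¹ * (g * x * g⁻¹)) * g := by rw [h1]
    _ = δ * x := by group

omit [IsLocalRing R] [Fintype G] in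
lemma gtc_supp_single {D : Set G} {g : G} (hg : ∀ x ∈ D, g * x = x * g) :
    SuppCent D (MonoidAlgebra.single g (1 : R)) := by
  intro x hx δ hδ
  have e : x = g := by
    by_contra e
    exact hx (by simp [Finsupp.single_eq_of_ne e])
  rw [e]
  exact hg δ hδ

omit [IsLocalRing R] [Fintype G] in
lemma gtc_cj_fixed {D : Set G} {q : G} (hq : q ∈ D) {a : MonoidAlgebra R G} (ha : SuppCent D a) :
    cjRep R G q a = a := by
  ext x
  rw [coeff_cjRep]
  by_cases e : q⁻¹ * x * q = x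
  · rw [e]
  · have h1 : a.coeff x = 0 := by
      by_contra h
      exact e (by rw [mul_assoc, ha x h q hq, inv_mul_cancel_left])
    have h2 : a.coeff (q⁻¹ * x * q) = 0 := by
      by_contra h
      have h3 := ha _ h q hq
      refine e ?_
      calc q⁻¹ * x * q = q⁻¹ * x * q * q * q⁻¹ := by group
        _ = q * (q⁻¹ * x * q) * q⁻¹ := by rw [h3]
        _ = x := by group
    rw [h1, h2]

omit [Fintype G] [Fintype X] [DecidableEq X] in
lemma gtc_lk_zero {k : Type} [CommRing k] (Q : Subgroup H) :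
    (0 : Matrix (Fix X Q) (Fix X Q) k) ∈ LK k Q := fun _ _ _ _ _ _ _ => rfl

lemma gtc_null_zero (Q : Subgroup H) : Null ε₀ ε₁ d Q (0 : MonoidAlgebra R G) := by
  refine ⟨0, gtc_lk_zero Q, by simp, ?_⟩
  rw [map_zero, ZeroMemClass.coe_zero, br_zero]
  simp

/-- One inequivalent chart. -/
lemma gtc_sep_one (hp : p.Prime) (hpR : (p : R) ∈ maximalIdeal R) (hX : Biset H X κ)
    (hC : CxData ε₀ ε₁ d σ) (hL : LocHyp p ε₀ ε₁ d 𝒬) {P : Subgroup (G × G)} {Q : Subgroup H}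
    (hQ : Q ∈ 𝒬) {γ : G × G} (h : IsChart P Q γ) {Q' : Subgroup H} (hQ' : Q' ∈ 𝒬) {γ' : G × G}
    (h' : IsChart P Q' γ') (hn : ¬ ChartRel Q γ Q' γ') :
    ∃ c : MonoidAlgebra R G, SuppCent (imG Q) c ∧ Null ε₀ ε₁ d Q (1 - c) ∧
      Null ε₀ ε₁ d Q' (cjRep R G (γ.1⁻¹ * γ'.1)⁻¹ c) := by
  obtain ⟨z, hz, m, h1, h2⟩ := hL.orth Q hQ Q' hQ' (γ.1⁻¹ * γ'.1) (h.conj h') hn
  have hcop : IsCoprime ((1 - Polynomial.X : Polynomial R) ^ m) (Polynomial.X ^ m) :=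
    IsCoprime.pow ⟨1, 1, by ring⟩
  obtain ⟨A, B, e⟩ := hcop
  have hpol : ∀ F : Polynomial R, Polynomial.aeval z F ∈ centAlg R (imG Q) := fun F =>
    Algebra.adjoin_le (Set.singleton_subset_iff.2 (mem_centAlg.2 hz))
      (Polynomial.aeval_mem_adjoin_singleton R z)
  have e' := congrArg (Polynomial.aeval z) e
  simp only [map_add, map_mul, map_pow, map_sub, map_one, Polynomial.aeval_X] at e'
  have hz1 : SuppCent (imG Q) ((1 - z) ^ m) := mem_centAlg.1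
    (Subalgebra.pow_mem _ (Subalgebra.sub_mem _ (Subalgebra.one_mem _) (mem_centAlg.2 hz)) m)
  have hz2 : SuppCent (imG Q) (z ^ m) := mem_centAlg.1 (Subalgebra.pow_mem _ (mem_centAlg.2 hz) m)
  have hg : ∀ x ∈ imG Q', γ.1⁻¹ * γ'.1 * x * (γ.1⁻¹ * γ'.1)⁻¹ ∈ imG Q :=
    fun x hx => (h.conj h' x).1 hx
  refine ⟨Polynomial.aeval z B * z ^ m,
    mem_centAlg.1 (Subalgebra.mul_mem _ (hpol B) (mem_centAlg.2 hz2)), ?_, ?_⟩
  · rw [← eq_sub_of_add_eq e']
    exact h1.mul_left hp hpR hX hC (hL.pgroup Q hQ) hz1 (mem_centAlg.1 (hpol A))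
  · rw [cjRep_mul]
    exact h2.mul_left hp hpR hX hC (hL.pgroup Q' hQ') (gtc_supp_cj hg hz2)
      (gtc_supp_cj hg (mem_centAlg.1 (hpol B)))

omit [IsLocalRing R] [Fintype G] in
lemma gtc_bi_mul_left {u : Kern R H X} (hu : GInv u) (γ : G × G) (a : Kern R H X) :
    biRep R H X γ (u * a) = u * biRep R H X γ a := by
  rw [biRep_apply, biRep_apply, ← mul_assoc u, ← hu γ.1]
  simp only [mul_assoc]

omit [IsLocalRing R] [Fintype G] in
lemma gtc_bi_mul_right {u : Kern R H X} (hu : GInv u) (γ : G × G) (a : Kern R H X) :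
    biRep R H X γ (a * u) = biRep R H X γ a * u := by
  rw [biRep_apply, biRep_apply, mul_assoc a, ← hu γ.2⁻¹]
  simp only [mul_assoc]

omit [IsLocalRing R] [Fintype G] in
lemma gtc_fix_left {P : Subgroup (G × G)} {u a : Kern R H X} (hu : GInv u)
    (ha : FixedBy (biRep R H X) P a) : FixedBy (biRep R H X) P (u * a) :=
  fun γ hγ => by rw [gtc_bi_mul_left hu, ha γ hγ]

omit [IsLocalRing R] [Fintype G] in
lemma gtc_fix_right {P : Subgroup (G × G)} {u a : Kern R H X} (hu : GInv u)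
    (ha : FixedBy (biRep R H X) P a) : FixedBy (biRep R H X) P (a * u) :=
  fun γ hγ => by rw [gtc_bi_mul_right hu, ha γ hγ]

omit [IsLocalRing R] [Fintype G] in
lemma gtc_ginv_add {u v : Kern R H X} (hu : GInv u) (hv : GInv v) : GInv (u + v) :=
  fun g => by rw [mul_add, add_mul, hu g, hv g]

lemma gtc_brc_zero (Q : Subgroup H) (γ : G × G) : brc Q γ (0 : Kern R H X) = 0 := by
  rw [brc, map_zero, ZeroMemClass.coe_zero, br_zero]

lemma gtc_brc_neg (Q : Subgroup H) (γ : G × G) (a : Kern R H X) :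
    brc Q γ (-a) = -brc Q γ a := by
  rw [← zero_sub, brc_sub, gtc_brc_zero, zero_sub]

lemma gtc_brc_sandwich (hp : p.Prime) (hpR : (p : R) ∈ maximalIdeal R) {P : Subgroup (G × G)}
    {Q : Subgroup H} (hQ : IsPGroup p Q) {γ : G × G} (h : IsChart P Q γ) {a u v : Kern R H X}
    (ha : FixedBy (biRep R H X) P a) (hu : GInv u) (hv : GInv v) :
    brc Q γ (u * a * v) = br Q u.1 * brc Q γ a * br Q v.1 := by
  rw [brc_mul_right hp hpR hQ h (gtc_fix_left hu ha) hv, brc_mul_left hp hpR hQ h ha hu]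

lemma gtc_brc_bd (hp : p.Prime) (hpR : (p : R) ∈ maximalIdeal R) {P : Subgroup (G × G)}
    {Q : Subgroup H} (hQ : IsPGroup p Q) {γ : G × G} (h : IsChart P Q γ) {y : Kern R H X}
    (hy : FixedBy (biRep R H X) P y) (hd : GInv d) :
    brc Q γ (d * y + y * d) = br Q d.1 * brc Q γ y + brc Q γ y * br Q d.1 := by
  rw [brc_add, brc_mul_right hp hpR hQ h hy hd, brc_mul_left hp hpR hQ h hy hd]

/-- Local homotopies lift to fixed homotopies vanishing in the inequivalent charts. -/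
lemma gtc_lift (hp : p.Prime) (hpR : (p : R) ∈ maximalIdeal R) (hX : Biset H X κ)
    (hC : CxData ε₀ ε₁ d σ) (hL : LocHyp p ε₀ ε₁ d 𝒬) {P : Subgroup (G × G)} {Q : Subgroup H}
    (hQ : Q ∈ 𝒬) {γ : G × G} (h : IsChart P Q γ)
    {y₀ : Matrix (Fix X Q) (Fix X Q) (ResidueField R)} (hy₀ : y₀ ∈ LK (ResidueField R) Q)
    (e : y₀ = br Q ε₁.1 * y₀ * br Q ε₀.1) :
    ∃ y : Kern R H X, (FixedBy (biRep R H X) P y ∧ y = ε₁ * y * ε₀) ∧ brc Q γ y = y₀ ∧
      ∀ Q' ∈ 𝒬, ∀ γ', IsChart P Q' γ' → ¬ ChartRel Q γ Q' γ' → brc Q' γ' y = 0 := by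
  obtain ⟨a, ha, e1, e2⟩ := exists_brc_lift hX h hy₀
  refine ⟨ε₁ * a * ε₀, ⟨gtc_fix_right hC.inv₀ (gtc_fix_left hC.inv₁ ha), ?_⟩, ?_, ?_⟩
  · rw [mul_assoc ε₁ (ε₁ * a * ε₀), mul_assoc (ε₁ * a), hC.e00, ← mul_assoc, ← mul_assoc, hC.e11]
  · rw [gtc_brc_sandwich hp hpR (hL.pgroup Q hQ) h ha hC.inv₁ hC.inv₀, e1, ← e]
  · intro Q' hQ' γ' h' hn
    rw [gtc_brc_sandwich hp hpR (hL.pgroup Q' hQ') h' ha hC.inv₁ hC.inv₀, e2 Q' γ' h' hn,
      mul_zero, zero_mul]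

/-- Fixed homotopies. -/
def gtc_S (P : Subgroup (G × G)) (ε₀ ε₁ : Kern R H X) : AddSubgroup (Kern R H X) where
  carrier := {y | FixedBy (biRep R H X) P y ∧ y = ε₁ * y * ε₀}
  zero_mem' := ⟨fun _ _ => map_zero _, by simp⟩
  add_mem' := fun {a b} ha hb => ⟨fun γ hγ => by rw [map_add, ha.1 γ hγ, hb.1 γ hγ], by
    rw [mul_add, add_mul, ← ha.2, ← hb.2]⟩
  neg_mem' := fun {a} ha => ⟨fun γ hγ => by rw [map_neg, ha.1 γ hγ], by
    have e : ε₁ * -a * ε₀ = -(ε₁ * a * ε₀) := by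
      rw [eq_neg_iff_add_eq_zero, ← add_mul, ← mul_add, neg_add_cancel, mul_zero, zero_mul]
    rw [e, ← ha.2]⟩

/-- The kernel of the Brauer map of a chart. -/
def gtc_K (Q : Subgroup H) (γ : G × G) : AddSubgroup (Kern R H X) where
  carrier := {a | brc Q γ a = 0}
  zero_mem' := gtc_brc_zero Q γ
  add_mem' := fun {a b} ha hb => by
    change brc Q γ (a + b) = 0
    rw [brc_add, show brc Q γ a = 0 from ha, show brc Q γ b = 0 from hb, add_zero]
  neg_mem' := fun {a} ha => by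
    change brc Q γ (-a) = 0
    rw [gtc_brc_neg, show brc Q γ a = 0 from ha, neg_zero]

/-- The boundary of a homotopy. -/
def gtc_bd (d : Kern R H X) : Kern R H X →+ Kern R H X where
  toFun y := d * y + y * d
  map_zero' := by simp
  map_add' a b := by rw [mul_add, add_mul]; abel

/-- Fixed elements of the group algebra. -/
def gtc_F (R : Type) [CommRing R] (P : Subgroup (G × G)) : AddSubgroup (MonoidAlgebra R G) where
  carrier := {b | FixedBy (gaRep R G) P b}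
  zero_mem' := fun _ _ => map_zero _
  add_mem' := fun {a b} ha hb γ hγ => by rw [map_add, ha γ hγ, hb γ hγ]
  neg_mem' := fun {a} ha γ hγ => by rw [map_neg, ha γ hγ]

lemma gtc_mem_U (hp : p.Prime) (hpR : (p : R) ∈ maximalIdeal R) (hX : Biset H X κ)
    (hC : CxData ε₀ ε₁ d σ) (hL : LocHyp p ε₀ ε₁ d 𝒬) {P : Subgroup (G × G)} {Q : Subgroup H}
    (hQ : Q ∈ 𝒬) {γ : G × G} (h : IsChart P Q γ) {a : Kern R H X}
    {y₀ : Matrix (Fix X Q) (Fix X Q) (ResidueField R)} (hy₀ : y₀ ∈ LK (ResidueField R) Q)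
    (e : y₀ = br Q ε₁.1 * y₀ * br Q ε₀.1) (ea : brc Q γ a = br Q d.1 * y₀ + y₀ * br Q d.1) :
    a ∈ (gtc_S P ε₀ ε₁).map (gtc_bd d) ⊔ gtc_K Q γ := by
  obtain ⟨y, hy, e1, -⟩ := gtc_lift hp hpR hX hC hL hQ h hy₀ e
  refine AddSubgroup.mem_sup.2 ⟨d * y + y * d, ⟨y, hy, rfl⟩, a - (d * y + y * d), ?_, by abel⟩
  change brc Q γ (a - (d * y + y * d)) = 0
  rw [brc_sub, gtc_brc_bd hp hpR (hL.pgroup Q hQ) h hy.1 hC.invd, e1, ea, sub_self]

omit [IsLocalRing R] in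
lemma gtc_fix_piA {P : Subgroup (G × G)} {b : MonoidAlgebra R G} (hb : FixedBy (gaRep R G) P b) :
    FixedBy (biRep R H X) P (piA R H X b) := fun γ hγ => by
  have := piA_equiv (R := R) (H := H) (X := X) γ trivial b
  rw [hb γ hγ] at this
  exact this.symm

lemma gtc_brc_piA (Q : Subgroup H) (γ : G × G) (b : MonoidAlgebra R G) :
    brc Q γ (piA R H X b) = br Q (piA R H X (gaRep R G γ⁻¹ b)).1 := by
  have := piA_equiv (R := R) (H := H) (X := X) γ⁻¹ trivial b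
  rw [brc]
  exact congrArg (fun a : Kern R H X => br Q a.1) this.symm

omit [IsLocalRing R] [Fintype G] in
lemma gtc_ga_trans (γ γ' : G × G) (x : MonoidAlgebra R G) :
    gaRep R G γ'⁻¹ (gaRep R G γ x) = cjRep R G (γ.1⁻¹ * γ'.1)⁻¹ x *
      MonoidAlgebra.single ((γ.1⁻¹ * γ'.1)⁻¹ * (γ.2⁻¹ * γ'.2)) 1 := by
  rw [← Module.End.mul_apply, ← map_mul, gaRep_apply, cjRep_apply, mul_assoc, mul_assoc,
    MonoidAlgebra.single_mul_single]
  simp [mul_assoc]

omit [IsLocalRing R] [Fintype G] in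
lemma gtc_ga_fixed {P : Subgroup (G × G)} {Q : Subgroup H} {γ : G × G} (h : IsChart P Q γ)
    {x : MonoidAlgebra R G} (hx : SuppCent (imG Q) x) : FixedBy (gaRep R G) P (gaRep R G γ x) := by
  intro r hr
  obtain ⟨q, hq, rfl⟩ := (h r).1 hr
  rw [← Module.End.mul_apply, ← map_mul, inv_mul_cancel_right, map_mul, Module.End.mul_apply]
  exact congrArg (gaRep R G γ) (gtc_cj_fixed (D := imG Q) ⟨q, hq, rfl⟩ hx)

/-- Chinese remainder: by induction on a finite set of inequivalent charts multiply the elements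
`c' = B z ^ m` obtained from `1 = ((1 - z) + z) ^ (2 m) = A (1 - z) ^ m + B z ^ m` (`A, B` are
polynomials in `z`, so lie in `centAlg`), using `LocOrth` for `g = γ.1⁻¹ * γ'.1`. -/
lemma exists_separator (hp : p.Prime) (hpR : (p : R) ∈ maximalIdeal R) (hX : Biset H X κ)
    (hC : CxData ε₀ ε₁ d σ) (hL : LocHyp p ε₀ ε₁ d 𝒬) {P : Subgroup (G × G)} {Q : Subgroup H}
    (hQ : Q ∈ 𝒬) {γ : G × G} (h : IsChart P Q γ) :
    ∃ c : MonoidAlgebra R G, SuppCent (imG Q) c ∧ Null ε₀ ε₁ d Q (1 - c) ∧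
      ∀ Q' ∈ 𝒬, ∀ γ', IsChart P Q' γ' → ¬ ChartRel Q γ Q' γ' →
        Null ε₀ ε₁ d Q' (cjRep R G (γ.1⁻¹ * γ'.1)⁻¹ c) := by
  classical
  have key : ∀ t : Finset (Subgroup H × (G × G)), ∃ c : MonoidAlgebra R G,
      SuppCent (imG Q) c ∧ Null ε₀ ε₁ d Q (1 - c) ∧
      ∀ x ∈ t, x.1 ∈ 𝒬 → IsChart P x.1 x.2 → ¬ ChartRel Q γ x.1 x.2 →
        Null ε₀ ε₁ d x.1 (cjRep R G (γ.1⁻¹ * x.2.1)⁻¹ c) := by
    intro t
    induction t using Finset.induction_on with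
    | empty =>
      refine ⟨1, mem_centAlg.1 (Subalgebra.one_mem _), ?_, by simp⟩
      rw [sub_self]
      exact gtc_null_zero Q
    | insert x t _ ih =>
      obtain ⟨c, hc, h1, h2⟩ := ih
      by_cases hx : x.1 ∈ 𝒬 ∧ IsChart P x.1 x.2 ∧ ¬ ChartRel Q γ x.1 x.2
      · obtain ⟨c', hc', h1', h2'⟩ := gtc_sep_one hp hpR hX hC hL hQ h hx.1 hx.2.1 hx.2.2
        refine ⟨c * c', mem_centAlg.1 (Subalgebra.mul_mem _ (mem_centAlg.2 hc)
          (mem_centAlg.2 hc')), ?_, fun y hy hy1 hy2 hy3 => ?_⟩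
        · have e : 1 - c * c' = (1 - c) + c * (1 - c') := by rw [mul_sub, mul_one]; abel
          rw [e]
          exact h1.add (h1'.mul_left hp hpR hX hC (hL.pgroup Q hQ) (mem_centAlg.1
            (Subalgebra.sub_mem _ (Subalgebra.one_mem _) (mem_centAlg.2 hc'))) hc)
        · have hg : ∀ u ∈ imG y.1, γ.1⁻¹ * y.2.1 * u * (γ.1⁻¹ * y.2.1)⁻¹ ∈ imG Q :=
            fun u hu => (h.conj hy2 u).1 hu
          rw [cjRep_mul]
          rcases Finset.mem_insert.1 hy with rfl | hy'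
          · exact h2'.mul_left hp hpR hX hC (hL.pgroup _ hy1) (gtc_supp_cj hg hc')
              (gtc_supp_cj hg hc)
          · exact (h2 y hy' hy1 hy2 hy3).mul_right hp hpR hX hC (hL.pgroup _ hy1)
              (gtc_supp_cj hg hc) (gtc_supp_cj hg hc')
      · refine ⟨c, hc, h1, fun y hy hy1 hy2 hy3 => ?_⟩
        rcases Finset.mem_insert.1 hy with rfl | hy'
        · exact absurd ⟨hy1, hy2, hy3⟩ hx
        · exact h2 y hy' hy1 hy2 hy3
  have := Fintype.ofFinite (Subgroup H × (G × G))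
  obtain ⟨c, hc, h1, h2⟩ := key Finset.univ
  exact ⟨c, hc, h1, fun Q' hQ' γ' h' hn => h2 (Q', γ') (Finset.mem_univ _) hQ' h' hn⟩

/-- Two gluings.  First, in the group of `P`-fixed kernels let `U Q γ` consist of the `a` with
`brc Q γ (a - (d y + y d)) = 0` for some `P`-fixed `y = ε₁ y ε₀`; for a chart take `b₀` from
`LocGen`, `c` from `exists_separator` and `b = gaRep γ (b₀ c)`; in an inequivalent chart `b` acts
as `g⁻¹ (b₀ c) g` times a group element centralising `Q'` (`IsChart.cent`).  Then glue the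
homotopies `y` with `U Q γ` the kernel of `brc Q γ`. -/
theorem exists_fixed_approx (hp : p.Prime) (hpR : (p : R) ∈ maximalIdeal R) (hX : Biset H X κ)
    (hC : CxData ε₀ ε₁ d σ) (hL : LocHyp p ε₀ ε₁ d 𝒬) {P : Subgroup (G × G)}
    (hP : IsPGroup p P) (hP0 : P ≠ ⊥) {w : Kern R H X} (hw : FixedBy (biRep R H X) P w)
    (hw1 : w = ε₀ * w * ε₀ + ε₁ * w * ε₁) (hw2 : w * d = d * w) :
    ∃ (y : Kern R H X) (b : MonoidAlgebra R G), FixedBy (biRep R H X) P y ∧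
      FixedBy (gaRep R G) P b ∧ y = ε₁ * y * ε₀ ∧ ∀ u v, FixP H P u v →
        (d * y + y * d + piA R H X b * (ε₀ + ε₁)).1 u v - w.1 u v ∈ maximalIdeal R := by
  have hE : GInv (ε₀ + ε₁) := gtc_ginv_add hC.inv₀ hC.inv₁
  have hbrE : ∀ Q : Subgroup H, br Q (ε₀ + ε₁).1 = br Q ε₀.1 + br Q ε₁.1 := fun Q => br_add Q _ _
  obtain ⟨b, hb, hb1⟩ := glue P 𝒬 (gtc_F R P)
    ((AddMonoidHom.mulRight (ε₀ + ε₁)).comp (piA R H X).toLinearMap.toAddMonoidHom) w
    (fun Q γ => (gtc_S P ε₀ ε₁).map (gtc_bd d) ⊔ gtc_K Q γ)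
    (fun Q γ Q' γ' h h' e => sup_le_sup_left (fun a ha => e.brc_eq_zero h h' ha) _)
    (fun Q hQ γ h => by
      have hQp := hL.pgroup Q hQ
      obtain ⟨b₀, hb₀, y₀, hy₀, ey₀, e₀⟩ := hL.gen Q hQ (brc Q γ w) (brc_mem_lk w)
        (by
          conv_lhs => rw [hw1]
          rw [brc_add, gtc_brc_sandwich hp hpR hQp h hw hC.inv₀ hC.inv₀,
            gtc_brc_sandwich hp hpR hQp h hw hC.inv₁ hC.inv₁])
        (by rw [← brc_mul_right hp hpR hQp h hw hC.invd, ← brc_mul_left hp hpR hQp h hw hC.invd,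
          hw2])
      obtain ⟨c, hc, hc1, hc2⟩ := exists_separator hp hpR hX hC hL hQ h
      have hbc : SuppCent (imG Q) (b₀ * c) :=
        mem_centAlg.1 (Subalgebra.mul_mem _ (mem_centAlg.2 hb₀) (mem_centAlg.2 hc))
      have hfix := gtc_ga_fixed h hbc
      refine ⟨gaRep R G γ (b₀ * c), hfix, ?_, fun Q' hQ' γ' h' hn => ?_⟩
      · obtain ⟨y₁, hy₁, ey₁, e₁⟩ := hc1.mul_left hp hpR hX hC hQp (mem_centAlg.1
          (Subalgebra.sub_mem _ (Subalgebra.one_mem _) (mem_centAlg.2 hc))) hb₀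
        refine gtc_mem_U hp hpR hX hC hL hQ h
          (lk_sub (gtc_lk_zero Q) (lk_add hy₀ hy₁)) ?_ ?_
        · rw [zero_sub, mul_neg, neg_mul, mul_add, add_mul, ← ey₀, ← ey₁]
        · change brc Q γ (piA R H X (gaRep R G γ (b₀ * c)) * (ε₀ + ε₁) - w) = _
          rw [mul_sub, mul_one, map_sub, AddSubgroupClass.coe_sub, br_sub, sub_mul] at e₁
          rw [brc_sub, brc_mul_right hp hpR hQp h (gtc_fix_piA hfix) hE, gtc_brc_piA,
            ← Module.End.mul_apply, ← map_mul, inv_mul_cancel, map_one, Module.End.one_apply,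
            hbrE, e₀, ← sub_eq_of_eq_add' (eq_add_of_sub_eq e₁)]
          noncomm_ring
      · have hQ'p := hL.pgroup Q' hQ'
        have hg : ∀ u ∈ imG Q', γ.1⁻¹ * γ'.1 * u * (γ.1⁻¹ * γ'.1)⁻¹ ∈ imG Q :=
          fun u hu => (h.conj h' u).1 hu
        have h1 : Null ε₀ ε₁ d Q' (cjRep R G (γ.1⁻¹ * γ'.1)⁻¹ (b₀ * c)) := by
          rw [cjRep_mul]
          exact (hc2 Q' hQ' γ' h' hn).mul_left hp hpR hX hC hQ'p (gtc_supp_cj hg hc)
            (gtc_supp_cj hg hb₀)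
        obtain ⟨y₁, hy₁, ey₁, e₁⟩ := h1.mul_right hp hpR hX hC hQ'p (gtc_supp_cj hg hbc)
          (gtc_supp_single (h.cent h'))
        refine gtc_mem_U hp hpR hX hC hL hQ' h' hy₁ ey₁ ?_
        change brc Q' γ' (piA R H X (gaRep R G γ (b₀ * c)) * (ε₀ + ε₁)) = _
        rw [brc_mul_right hp hpR hQ'p h' (gtc_fix_piA hfix) hE, gtc_brc_piA, gtc_ga_trans, hbrE,
          e₁])
  obtain ⟨y, hy, hy1⟩ := glue P 𝒬 (gtc_S P ε₀ ε₁) (gtc_bd d) (w - piA R H X b * (ε₀ + ε₁))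
    (fun Q γ => gtc_K Q γ) (fun Q γ Q' γ' h h' e a ha => e.brc_eq_zero h h' ha)
    (fun Q hQ γ h => by
      have hQp := hL.pgroup Q hQ
      obtain ⟨_, ⟨y₀, hy₀, rfl⟩, a, ha, e⟩ := AddSubgroup.mem_sup.1 (hb1 Q hQ γ h)
      have hy₀' : -y₀ ∈ gtc_S P ε₀ ε₁ := AddSubgroup.neg_mem _ hy₀
      obtain ⟨y, hy, e1, e2⟩ := gtc_lift hp hpR hX hC hL hQ h (brc_mem_lk (γ := γ) (-y₀))
        (by rw [← gtc_brc_sandwich hp hpR hQp h hy₀'.1 hC.inv₁ hC.inv₀, ← hy₀'.2])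
      refine ⟨y, hy, ?_, fun Q' hQ' γ' h' hn => ?_⟩
      · have e' : d * y₀ + y₀ * d + a = piA R H X b * (ε₀ + ε₁) - w := e
        change brc Q γ (d * y + y * d - (w - piA R H X b * (ε₀ + ε₁))) = 0
        rw [← neg_sub (piA R H X b * (ε₀ + ε₁)), ← e', sub_neg_eq_add, brc_add, brc_add _ a,
          gtc_brc_bd hp hpR hQp h hy.1 hC.invd, gtc_brc_bd hp hpR hQp h hy₀.1 hC.invd, e1,
          gtc_brc_neg, show brc Q γ a = 0 from ha]
        noncomm_ring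
      · change brc Q' γ' (d * y + y * d) = 0
        rw [gtc_brc_bd hp hpR (hL.pgroup Q' hQ') h' hy.1 hC.invd, e2 Q' hQ' γ' h' hn]
        simp)
  refine ⟨y, b, hy.1, hb, hy.2, fun u v huv => ?_⟩
  have := entry_mem_of_brc hX hL.cover hP hP0
    (a := d * y + y * d + piA R H X b * (ε₀ + ε₁) - w) (fun Q hQ γ h => by
      have e : d * y + y * d + piA R H X b * (ε₀ + ε₁) - w =
          d * y + y * d - (w - piA R H X b * (ε₀ + ε₁)) := by abel
      rw [e]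
      exact hy1 Q hQ γ h) huv
  rwa [AddSubgroupClass.coe_sub, Matrix.sub_apply] at this

end Pool.Agent.Lib.MP_b6945b_al.St
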