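import Pool.Agent.Lib.MP_b6945b_al.St.GTa
import Pool.Agent.Lib.MP_b6945b_al.St.GTc

set_option autoImplicit false

/-!
The endomorphism algebra of the kernel of the differential is the group algebra up to a projective
bimodule.
-/

namespace Pool.Agent.Lib.MP_b6945b_al.St

open IsLocalRing
open MonoidAlgebra (single)

section ring

variable {A : Type} [Ring A]

/-- The ring identities of a two-term complex with a section. -/
structure GtRel (e₀ e₁ d s : A) : Prop where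
  e00 : e₀ * e₀ = e₀
  e11 : e₁ * e₁ = e₁
  e01 : e₀ * e₁ = 0
  e10 : e₁ * e₀ = 0
  d0 : e₀ * d = d
  d1 : d * e₁ = d
  s0 : s * e₀ = s
  s1 : e₁ * s = s
  ds : d * s = e₀

variable {e₀ e₁ d s : A}

lemma GtRel.e1d (h : GtRel e₀ e₁ d s) : e₁ * d = 0 := by
  rw [← h.d0, ← mul_assoc, h.e10, zero_mul]

lemma GtRel.de0 (h : GtRel e₀ e₁ d s) : d * e₀ = 0 := by
  rw [← h.d1, mul_assoc, h.e10, mul_zero]

lemma GtRel.dd (h : GtRel e₀ e₁ d s) : d * d = 0 := by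
  calc d * d = d * (e₀ * d) := by rw [h.d0]
    _ = 0 := by rw [← mul_assoc, h.de0, zero_mul]

lemma GtRel.dm (h : GtRel e₀ e₁ d s) : d * (e₁ - s * d) = 0 := by
  rw [mul_sub, h.d1, ← mul_assoc, h.ds, h.d0, sub_self]

lemma GtRel.e1m (h : GtRel e₀ e₁ d s) : e₁ * (e₁ - s * d) = e₁ - s * d := by
  rw [mul_sub, h.e11, ← mul_assoc, h.s1]

lemma GtRel.me1 (h : GtRel e₀ e₁ d s) : (e₁ - s * d) * e₁ = e₁ - s * d := by
  rw [sub_mul, h.e11, mul_assoc, h.d1]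

lemma GtRel.e0m (h : GtRel e₀ e₁ d s) : e₀ * (e₁ - s * d) = 0 := by
  rw [← h.e1m, ← mul_assoc, h.e01, zero_mul]

lemma GtRel.me0 (h : GtRel e₀ e₁ d s) : (e₁ - s * d) * e₀ = 0 := by
  rw [← h.me1, mul_assoc, h.e10, mul_zero]

lemma GtRel.md (h : GtRel e₀ e₁ d s) : (e₁ - s * d) * d = 0 := by
  rw [← h.me1, mul_assoc, h.e1d, mul_zero]

/-- An element commuting with `e₁` and `d` preserves the kernel of `d`. -/
lemma GtRel.mzm (h : GtRel e₀ e₁ d s) {z : A} (h1 : z * e₁ = e₁ * z) (h2 : z * d = d * z) :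
    (e₁ - s * d) * z * (e₁ - s * d) = z * (e₁ - s * d) := by
  rw [sub_mul, sub_mul, ← h1, mul_assoc z, h.e1m, mul_assoc s, ← h2, mul_assoc s, mul_assoc z,
    h.dm, mul_zero, mul_zero, sub_zero]

lemma GtRel.mm (h : GtRel e₀ e₁ d s) : (e₁ - s * d) * (e₁ - s * d) = e₁ - s * d := by
  have := h.mzm (z := 1) (by simp) (by simp)
  simpa using this

/-- Block diagonal elements commuting with the differential. -/
def GtZ (e₀ e₁ d z : A) : Prop := z = e₀ * z * e₀ + e₁ * z * e₁ ∧ z * d = d * z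

lemma GtZ.comm1 (h : GtRel e₀ e₁ d s) {z : A} (hz : GtZ e₀ e₁ d z) : z * e₁ = e₁ * z := by
  have h1 : z * e₁ = e₁ * z * e₁ := by
    conv_lhs => rw [hz.1]
    rw [add_mul, mul_assoc _ e₀, h.e01, mul_zero, zero_add, mul_assoc _ e₁, h.e11]
  have h2 : e₁ * z = e₁ * z * e₁ := by
    conv_lhs => rw [hz.1]
    rw [mul_add, ← mul_assoc, ← mul_assoc, h.e10, zero_mul, zero_mul, zero_add, ← mul_assoc,
      ← mul_assoc, h.e11]
  rw [h1, ← h2]

lemma GtZ.add {z z' : A} (hz : GtZ e₀ e₁ d z) (hz' : GtZ e₀ e₁ d z') : GtZ e₀ e₁ d (z + z') := by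
  refine ⟨?_, by rw [add_mul, mul_add, hz.2, hz'.2]⟩
  conv_lhs => rw [hz.1, hz'.1]
  simp only [mul_add, add_mul]
  abel

lemma GtZ.sub {z z' : A} (hz : GtZ e₀ e₁ d z) (hz' : GtZ e₀ e₁ d z') : GtZ e₀ e₁ d (z - z') := by
  refine ⟨?_, by rw [sub_mul, mul_sub, hz.2, hz'.2]⟩
  conv_lhs => rw [hz.1, hz'.1]
  simp only [mul_sub, sub_mul]
  abel

lemma GtRel.z_bdry (h : GtRel e₀ e₁ d s) {y : A} (hy : y = e₁ * y * e₀) :
    GtZ e₀ e₁ d (d * y + y * d) := by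
  have a1 : e₁ * y = y := by rw [hy, ← mul_assoc, ← mul_assoc, h.e11]
  have a2 : y * e₀ = y := by rw [hy, mul_assoc, h.e00]
  have a3 : e₀ * y = 0 := by rw [← a1, ← mul_assoc, h.e01, zero_mul]
  have a4 : y * e₁ = 0 := by rw [← a2, mul_assoc, h.e01, mul_zero]
  constructor
  · have b1 : e₀ * (d * y + y * d) * e₀ = d * y := by
      rw [mul_add, ← mul_assoc, ← mul_assoc, h.d0, a3, zero_mul, add_zero, mul_assoc, a2]
    have b2 : e₁ * (d * y + y * d) * e₁ = y * d := by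
      rw [mul_add, ← mul_assoc, ← mul_assoc, h.e1d, a1, zero_mul, zero_add, mul_assoc, h.d1]
    rw [b1, b2]
  · rw [add_mul, mul_add, mul_assoc y, h.dd, mul_zero, add_zero, ← mul_assoc d d, h.dd, zero_mul,
      zero_add, mul_assoc]

lemma GtRel.z_cent (h : GtRel e₀ e₁ d s) {b : A} (h0 : b * e₀ = e₀ * b) (h1 : b * e₁ = e₁ * b)
    (h2 : b * d = d * b) : GtZ e₀ e₁ d (b * (e₀ + e₁)) := by
  constructor
  · have b1 : e₀ * (b * (e₀ + e₁)) * e₀ = b * e₀ := by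
      rw [← mul_assoc, ← h0, mul_assoc b, mul_add, h.e00, h.e01, add_zero, mul_assoc, h.e00]
    have b2 : e₁ * (b * (e₀ + e₁)) * e₁ = b * e₁ := by
      rw [← mul_assoc, ← h1, mul_assoc b, mul_add, h.e10, h.e11, zero_add, mul_assoc, h.e11]
    rw [b1, b2, mul_add]
  · rw [mul_assoc, add_mul, h.d0, h.e1d, add_zero, ← mul_assoc, ← h2, mul_assoc, mul_add, h.de0,
      h.d1, zero_add]

lemma GtRel.z_cut (h : GtRel e₀ e₁ d s) {a : A} (ha : (e₁ - s * d) * a * (e₁ - s * d) = a) :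
    GtZ e₀ e₁ d a := by
  have a1 : e₁ * a = a := by rw [← ha, ← mul_assoc, ← mul_assoc, h.e1m]
  have a2 : a * e₁ = a := by rw [← ha, mul_assoc, h.me1]
  have a3 : e₀ * a = 0 := by rw [← a1, ← mul_assoc, h.e01, zero_mul]
  have a4 : d * a = 0 := by rw [← ha, ← mul_assoc, ← mul_assoc, h.dm, zero_mul, zero_mul]
  have a5 : a * d = 0 := by rw [← ha, mul_assoc, h.md, mul_zero]
  exact ⟨by rw [a3, a1, a2, zero_mul, zero_add], by rw [a4, a5]⟩

lemma GtRel.diag_diag (h : GtRel e₀ e₁ d s) (w : A) :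
    e₀ * w * e₀ + e₁ * w * e₁ =
      e₀ * (e₀ * w * e₀ + e₁ * w * e₁) * e₀ + e₁ * (e₀ * w * e₀ + e₁ * w * e₁) * e₁ := by
  simp only [mul_add, ← mul_assoc, h.e00, h.e01, h.e10, h.e11, zero_mul, add_zero, zero_add]
  rw [mul_assoc _ e₀ e₀, mul_assoc _ e₁ e₁, h.e00, h.e11]

lemma GtRel.diag_comm (h : GtRel e₀ e₁ d s) {w : A} (hw : w = e₀ * w * e₀ + e₁ * w * e₁) :
    e₀ * (w * d - d * w) * e₁ = w * d - d * w := by
  have b1 : w * d = e₀ * w * d := by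
    conv_lhs => rw [hw]
    rw [add_mul, mul_assoc _ e₀, h.d0, mul_assoc _ e₁, h.e1d, mul_zero, add_zero]
  have b2 : d * w = d * w * e₁ := by
    conv_lhs => rw [hw]
    rw [mul_add, ← mul_assoc, ← mul_assoc, h.de0, zero_mul, zero_mul, zero_add, ← mul_assoc,
      ← mul_assoc, h.d1]
  rw [mul_sub, sub_mul, ← mul_assoc, ← b1, mul_assoc w, h.d1, ← mul_assoc, h.d0, ← b2]

lemma GtRel.off (h : GtRel e₀ e₁ d s) (y : A) : e₁ * y * e₀ = e₁ * (e₁ * y * e₀) * e₀ := by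
  rw [← mul_assoc, ← mul_assoc, h.e11, mul_assoc _ e₀ e₀, h.e00]

lemma GtRel.m_bdry (h : GtRel e₀ e₁ d s) (y : A) :
    (e₁ - s * d) * (d * y + y * d) * (e₁ - s * d) = 0 := by
  rw [mul_add, ← mul_assoc, h.md, zero_mul, zero_add, mul_assoc, mul_assoc, h.dm, mul_zero,
    mul_zero]

/-- Cutting by the projection changes a product by a boundary. -/
lemma GtRel.cut_bdry (h : GtRel e₀ e₁ d s) {a u v : A} (ha : (e₁ - s * d) * a * (e₁ - s * d) = a)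
    (hu1 : u * e₁ = e₁ * u) (hu2 : u * d = d * u) (hv : v * e₁ = e₁ * v) :
    ∃ y, y = e₁ * y * e₀ ∧
      u * (e₁ - s * d) * a * (v * (e₁ - s * d)) = u * (a * v) - (d * y + y * d) := by
  have a0 : (e₁ - s * d) * a = a := by rw [← ha, ← mul_assoc, ← mul_assoc, h.mm]
  have a1 : e₁ * a = a := by rw [← ha, ← mul_assoc, ← mul_assoc, h.e1m]
  have a2 : a * e₁ = a := by rw [← ha, mul_assoc, h.me1]
  have a4 : d * a = 0 := by rw [← ha, ← mul_assoc, ← mul_assoc, h.dm, zero_mul, zero_mul]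
  refine ⟨u * a * v * s, ?_, ?_⟩
  · rw [mul_assoc e₁, mul_assoc _ s, h.s0, ← mul_assoc, ← mul_assoc, ← mul_assoc, ← hu1,
      mul_assoc u e₁, a1]
  · have b1 : d * (u * a * v * s) = 0 := by
      rw [← mul_assoc, ← mul_assoc, ← mul_assoc, ← hu2, mul_assoc u, a4, mul_zero, zero_mul,
        zero_mul]
    have b2 : a * (v * e₁) = a * v := by rw [hv, ← mul_assoc, a2]
    rw [b1, zero_add, mul_assoc u _ a, a0, mul_sub, mul_sub, mul_assoc u a, b2]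
    simp only [mul_assoc]

lemma GtRel.m_sub_bdry (h : GtRel e₀ e₁ d s) {a : A} (ha : (e₁ - s * d) * a * (e₁ - s * d) = a)
    (y : A) : (e₁ - s * d) * (a - (d * y + y * d)) * (e₁ - s * d) = a := by
  have h1 := h.m_bdry y
  generalize e₁ - s * d = μ at ha h1 ⊢
  rw [mul_sub, sub_mul, h1, ha, sub_zero]

lemma GtRel.m_cent (h : GtRel e₀ e₁ d s) {b : A} (h1 : b * e₁ = e₁ * b) (h2 : b * d = d * b) :
    (e₁ - s * d) * (b * (e₀ + e₁)) * (e₁ - s * d) = b * (e₁ - s * d) := by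
  rw [mul_assoc, mul_assoc, add_mul, h.e0m, h.e1m, zero_add, ← mul_assoc, h.mzm h1 h2]

lemma GtRel.m_prod (h : GtRel e₀ e₁ d s) {u v z : A} (hu1 : u * e₁ = e₁ * u) (hu2 : u * d = d * u)
    (hv1 : v * e₁ = e₁ * v) (hv2 : v * d = d * v) (hz : GtZ e₀ e₁ d z) :
    (e₁ - s * d) * (u * (z * v)) * (e₁ - s * d) =
      u * (e₁ - s * d) * ((e₁ - s * d) * z * (e₁ - s * d)) * (v * (e₁ - s * d)) := by
  have b1 := h.mzm hu1 hu2
  have b2 := h.mzm hv1 hv2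
  have b3 := h.mzm (hz.comm1 h) hz.2
  generalize e₁ - s * d = μ at b1 b2 b3 ⊢
  calc μ * (u * (z * v)) * μ = μ * u * z * (v * μ) := by simp only [mul_assoc]
    _ = μ * u * (z * μ) * (v * μ) := by
      conv_lhs => rw [← b2]
      simp only [mul_assoc]
    _ = μ * u * μ * (z * μ) * (v * μ) := by
      conv_lhs => rw [← b3]
      simp only [mul_assoc]
    _ = u * μ * (μ * z * μ) * (v * μ) := by rw [b1, b3]

lemma gt_distrib {ι : Type} [Fintype ι] (μ a b : A) (c : ι → A) :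
    μ * (a + b + ∑ i, c i) * μ = μ * a * μ + μ * b * μ + ∑ i, μ * c i * μ := by
  rw [mul_add, mul_add, add_mul, add_mul, Finset.mul_sum, Finset.sum_mul]

lemma gt_unit {e u b d y t w : A} (h1 : u = e - (d * t + t * d))
    (h2 : u = d * y + y * d + b + w) : e - b = d * (t + y) + (t + y) * d + w := by
  have h3 : e = u + (d * t + t * d) := by rw [h1, sub_add_cancel]
  rw [h3, h2, mul_add, add_mul]
  abel

end ring

variable {R : Type} [CommRing R] [IsLocalRing R] {G : Type} [Group G] [Fintype G]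
  {H : Subgroup G} {X : Type} [Fintype X] [DecidableEq X] [MulAction (G × H) X] {κ : X → G}
  {p : ℕ} {ε₀ ε₁ d σ : Kern R H X} {𝒬 : Set (Subgroup H)}

omit [IsLocalRing R] [Fintype G] in
lemma CxData.gtRel (hC : CxData ε₀ ε₁ d σ) : GtRel ε₀ ε₁ d σ :=
  ⟨hC.e00, hC.e11, hC.e01, hC.e10, hC.d0, hC.d1, hC.s0, hC.s1, hC.ds⟩

omit [IsLocalRing R] [Fintype G] in
/-- `μ = ε₁ - σ d` is the projection onto the kernel of `d`. -/
lemma CxData.mu (hC : CxData ε₀ ε₁ d σ) :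
    (ε₁ - σ * d) * (ε₁ - σ * d) = ε₁ - σ * d ∧ d * (ε₁ - σ * d) = 0 ∧
      ε₁ * (ε₁ - σ * d) = ε₁ - σ * d ∧ (ε₁ - σ * d) * ε₁ = ε₁ - σ * d ∧
      ∀ g, (ε₁ - σ * d) * piK R H X g * (ε₁ - σ * d) = piK R H X g * (ε₁ - σ * d) := by
  have h := hC.gtRel
  exact ⟨h.mm, h.dm, h.e1m, h.me1, fun g => h.mzm (hC.inv₁ g) (hC.invd g)⟩

omit [IsLocalRing R] [Fintype G] in
lemma gt_biRep_left {u : Kern R H X} (hu : GInv u) (γ : G × G) (a : Kern R H X) :
    biRep R H X γ (u * a) = u * biRep R H X γ a := by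
  rw [biRep_apply, biRep_apply, mul_assoc, ← mul_assoc, hu, mul_assoc]

omit [IsLocalRing R] [Fintype G] in
lemma gt_biRep_right {u : Kern R H X} (hu : GInv u) (γ : G × G) (a : Kern R H X) :
    biRep R H X γ (a * u) = biRep R H X γ a * u := by
  rw [biRep_apply, biRep_apply, mul_assoc, ← hu, mul_assoc, mul_assoc]

omit [IsLocalRing R] [Fintype G] in
lemma gt_gInv_iff {u : Kern R H X} : GInv u ↔ ∀ g : G, biRep R H X (g, g) u = u := by
  refine forall_congr' fun g => ?_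
  rw [biRep_apply]
  constructor
  · intro h
    rw [← mul_assoc, h, mul_assoc, ← map_mul, mul_inv_cancel, map_one, mul_one]
  · intro h
    conv_rhs => rw [← h]
    rw [mul_assoc, mul_assoc, ← map_mul, inv_mul_cancel, map_one, mul_one]

omit [IsLocalRing R] [Fintype G] in
lemma gt_gInv_map {φ : Kern R H X →ₗ[R] Kern R H X}
    (hφ : EquivOn (biRep R H X) (biRep R H X) ⊤ φ) {u : Kern R H X} (hu : GInv u) :
    GInv (φ u) := by
  rw [gt_gInv_iff] at hu ⊢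
  intro g
  rw [← hφ _ trivial, hu]

omit [IsLocalRing R] [Fintype G] in
lemma gt_gInv_add {u v : Kern R H X} (hu : GInv u) (hv : GInv v) : GInv (u + v) := fun g => by
  rw [mul_add, add_mul, hu, hv]

omit [IsLocalRing R] [Fintype G] in
lemma gt_gInv_sub {u v : Kern R H X} (hu : GInv u) (hv : GInv v) : GInv (u - v) := fun g => by
  rw [mul_sub, sub_mul, hu, hv]

omit [IsLocalRing R] [Fintype G] in
lemma gt_gInv_mul {u v : Kern R H X} (hu : GInv u) (hv : GInv v) : GInv (u * v) := fun g => by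
  rw [← mul_assoc, hu, mul_assoc, hv, mul_assoc]

omit [IsLocalRing R] [Fintype G] in
/-- The equivariant projection onto the cocycles. -/
lemma gt_exists_proj (hC : CxData ε₀ ε₁ d σ) (s₁ : Kern R H X →ₗ[R] Kern R H X)
    (h1 : EquivOn (biRep R H X) (biRep R H X) ⊤ s₁)
    (h2 : ∀ w, s₁ w = ε₀ * s₁ w * ε₀ + ε₁ * s₁ w * ε₁ ∧ s₁ w * d - d * s₁ w = ε₀ * w * ε₁) :
    ∃ ζ : Kern R H X →ₗ[R] Kern R H X, EquivOn (biRep R H X) (biRep R H X) ⊤ ζ ∧
      (∀ w, GtZ ε₀ ε₁ d (ζ w)) ∧ ∀ w, GtZ ε₀ ε₁ d w → ζ w = w := by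
  have h := hC.gtRel
  let D : Kern R H X →ₗ[R] Kern R H X :=
    LinearMap.mulRight R ε₀ ∘ₗ LinearMap.mulLeft R ε₀ +
      LinearMap.mulRight R ε₁ ∘ₗ LinearMap.mulLeft R ε₁
  have hD : ∀ w, D w = ε₀ * w * ε₀ + ε₁ * w * ε₁ := fun w => rfl
  let ζ : Kern R H X →ₗ[R] Kern R H X :=
    D - s₁ ∘ₗ (LinearMap.mulRight R d - LinearMap.mulLeft R d) ∘ₗ D
  have hζ : ∀ w, ζ w = D w - s₁ (D w * d - d * D w) := fun w => rfl
  have hDe : ∀ γ w, D (biRep R H X γ w) = biRep R H X γ (D w) := by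
    intro γ w
    rw [hD, hD, map_add, gt_biRep_right hC.inv₀, gt_biRep_left hC.inv₀, gt_biRep_right hC.inv₁,
      gt_biRep_left hC.inv₁]
  refine ⟨ζ, fun γ _ w => ?_, fun w => ⟨?_, ?_⟩, fun w hw => ?_⟩
  · rw [hζ, hζ, map_sub (biRep R H X γ), ← h1 _ trivial, map_sub (biRep R H X γ),
      gt_biRep_right hC.invd, gt_biRep_left hC.invd, hDe]
  · have a1 : D w = ε₀ * D w * ε₀ + ε₁ * D w * ε₁ := h.diag_diag w
    have a2 := (h2 (D w * d - d * D w)).1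
    rw [hζ]
    conv_lhs => rw [a1, ← a1, a2]
    conv_lhs => arg 1; rw [a1]
    simp only [mul_sub, sub_mul]
    abel
  · have a1 : D w = ε₀ * D w * ε₀ + ε₁ * D w * ε₁ := h.diag_diag w
    have a2 := (h2 (D w * d - d * D w)).2
    rw [h.diag_comm a1] at a2
    rw [hζ, sub_mul, mul_sub, sub_eq_sub_iff_sub_eq_sub, a2]
  · rw [hζ, hD, ← hw.1, hw.2, sub_self, map_zero, sub_zero]

/-- The conclusion of the global theorem. -/
structure StableData (ε₀ ε₁ d μ : Kern R H X) (r : Kern R H X →ₗ[R] MonoidAlgebra R G)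
    (α : Kern R H X →ₗ[R] Kern R H X) : Prop where
  bimod : ∀ a, μ * a * μ = a → ∀ g g' : G,
    r (piK R H X g * μ * a * (piK R H X g' * μ)) = single g 1 * r a * single g' 1
  cut : ∀ a, μ * α a * μ = α a
  hig : ∀ a, μ * a * μ = a → a = piA R H X (r a) * μ + ∑ g, ∑ g', piK R H X g * μ *
    α (piK R H X g⁻¹ * μ * a * (piK R H X g'⁻¹ * μ)) * (piK R H X g' * μ)
  unit : ∃ y w : Kern R H X, GInv y ∧ y = ε₁ * y * ε₀ ∧
    (ε₀ + ε₁) - piA R H X (r μ) * (ε₀ + ε₁) =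
      d * y + y * d + ∑ g, piK R H X g * w * piK R H X g⁻¹

/-- The stable splitting of the cocycles. -/
lemma gt_exists_split (hp : p.Prime) (hpR : (p : R) ∈ maximalIdeal R) (hX : Biset H X κ)
    (hC : CxData ε₀ ε₁ d σ) (hL : LocHyp p ε₀ ε₁ d 𝒬) (ζ : Kern R H X →ₗ[R] Kern R H X)
    (hζ : EquivOn (biRep R H X) (biRep R H X) ⊤ ζ) (hz1 : ∀ w, GtZ ε₀ ε₁ d (ζ w))
    (hz2 : ∀ w, GtZ ε₀ ε₁ d w → ζ w = w) :
    ∃ (y₀ α₀ : Kern R H X →ₗ[R] Kern R H X) (r₀ : Kern R H X →ₗ[R] MonoidAlgebra R G),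
      EquivOn (biRep R H X) (biRep R H X) ⊤ y₀ ∧ EquivOn (biRep R H X) (gaRep R G) ⊤ r₀ ∧
      (∀ w, y₀ w = ε₁ * y₀ w * ε₀) ∧ (∀ w, GtZ ε₀ ε₁ d (α₀ w)) ∧
      ∀ w, GtZ ε₀ ε₁ d w → w = d * y₀ w + y₀ w * d + piA R H X (r₀ w) * (ε₀ + ε₁) +
        ∑ γ, biRep R H X γ (α₀ (biRep R H X γ⁻¹ w)) := by
  have h := hC.gtRel
  let O : Kern R H X →ₗ[R] Kern R H X := LinearMap.mulRight R ε₀ ∘ₗ LinearMap.mulLeft R ε₁
  have hO : ∀ y, O y = ε₁ * y * ε₀ := fun y => rfl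
  have hOe : ∀ γ y, O (biRep R H X γ y) = biRep R H X γ (O y) := by
    intro γ y
    rw [hO, hO, gt_biRep_right hC.inv₀, gt_biRep_left hC.inv₁]
  let θ : (Kern R H X × MonoidAlgebra R G) →ₗ[R] Kern R H X :=
    (LinearMap.mulLeft R d + LinearMap.mulRight R d) ∘ₗ O ∘ₗ LinearMap.fst R _ _ +
      LinearMap.mulRight R (ε₀ + ε₁) ∘ₗ (piA R H X).toLinearMap ∘ₗ LinearMap.snd R _ _
  have hθ : ∀ l, θ l = d * O l.1 + O l.1 * d + piA R H X l.2 * (ε₀ + ε₁) := fun l => rfl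
  have hθZ : ∀ l, GtZ ε₀ ε₁ d (θ l) := fun l =>
    (h.z_bdry (h.off l.1)).add
      (h.z_cent (hC.inv₀.piA_comm l.2) (hC.inv₁.piA_comm l.2) (hC.invd.piA_comm l.2))
  have hρ : ∀ (γ : G × G) (l : Kern R H X × MonoidAlgebra R G),
      (biRep R H X).prod (gaRep R G) γ l = (biRep R H X γ l.1, gaRep R G γ l.2) := fun _ _ => rfl
  have hθe : EquivOn ((biRep R H X).prod (gaRep R G)) (biRep R H X) ⊤ θ := by
    intro γ _ l
    have a1 : piA R H X (gaRep R G γ l.2) = biRep R H X γ (piA R H X l.2) :=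
      piA_equiv γ trivial l.2
    rw [hρ, hθ, hθ, map_add, map_add, gt_biRep_left hC.invd, gt_biRep_right hC.invd,
      gt_biRep_right (gt_gInv_add hC.inv₀ hC.inv₁), hOe, a1]
  obtain ⟨σ₀, α₀, hσ, hs⟩ := boucK_stable hp hpR ((biRep R H X).prod (gaRep R G)) ζ hζ
    (fun w => hz2 _ (hz1 w)) θ hθe (fun l => hz2 _ (hθZ l)) (by
      intro P hP hP0 w hw hf
      have hwZ : GtZ ε₀ ε₁ d w := hw ▸ hz1 w
      obtain ⟨y, b, hy, hb, hy', he⟩ :=
        exists_fixed_approx hp hpR hX hC hL hP hP0 hf hwZ.1 hwZ.2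
      refine ⟨(y, b), fun γ hγ => ?_, fun u v huv => ?_⟩
      · rw [hρ, hy γ hγ, hb γ hγ]
      · rw [hθ, hO, ← hy']
        exact he u v huv)
  refine ⟨O ∘ₗ LinearMap.fst R _ _ ∘ₗ σ₀, ζ ∘ₗ α₀, LinearMap.snd R _ _ ∘ₗ σ₀, fun γ _ w => ?_,
    fun γ _ w => ?_, fun w => h.off _, fun w => hz1 _, fun w hw => ?_⟩
  · change O (σ₀ (biRep R H X γ w)).1 = biRep R H X γ (O (σ₀ w).1)
    rw [hσ γ trivial, hρ, hOe]
  · change (σ₀ (biRep R H X γ w)).2 = gaRep R G γ (σ₀ w).2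
    rw [hσ γ trivial, hρ]
  · have a1 := congrArg ζ (hs w)
    rw [hz2 _ (hz1 w), hz2 w hw, map_add, hz2 _ (hθZ _), map_sum] at a1
    refine a1.trans ?_
    rw [hθ]
    congr 1
    exact Finset.sum_congr rfl fun γ _ => hζ γ trivial _

omit [IsLocalRing R] in
lemma gt_trace {u : Kern R H X} (hu : GInv u) (α₀ : Kern R H X →ₗ[R] Kern R H X) :
    ∑ γ, biRep R H X γ (α₀ (biRep R H X γ⁻¹ u)) =
      ∑ g, piK R H X g * (∑ k : G, biRep R H X (1, k) (α₀ (biRep R H X (1, k)⁻¹ u))) *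
        piK R H X g⁻¹ := by
  rw [Fintype.sum_prod_type]
  refine Finset.sum_congr rfl fun g _ => ?_
  rw [mul_assoc, ← biRep_apply R H X (g, g), map_sum, ← Equiv.sum_comp (Equiv.mulLeft g)]
  refine Finset.sum_congr rfl fun k _ => ?_
  have b1 : ((g, Equiv.mulLeft g k) : G × G) = (g, g) * (1, k) := by simp
  rw [b1, mul_inv_rev, map_mul, map_mul, Module.End.mul_apply, Module.End.mul_apply,
    Prod.inv_mk g g, gt_gInv_iff.1 hu]

/-- Let `Z` be the block diagonal kernels commuting with `d`, `ζ w = w' - s₁ (w' d - d w')` with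
`w' = ε₀ w ε₀ + ε₁ w ε₁` the equivariant projection onto `Z`.  `boucK_stable` for `ε = ζ`,
`L = Kern × MonoidAlgebra`, `θ (y, b) = d y' + y' d + piA b (ε₀ + ε₁)` (`y' = ε₁ y ε₀`) gives
`ζ = θ (y ·, r₀ ·) + Tr α₀`.  With `sec a = a - (d t a + t a d)` (it kills boundaries, and
`sec (piK g μ a piK g' μ) = piK g sec a piK g'`) put `r = r₀ ∘ sec`, `α a = μ ζ (α₀ (sec a)) μ`;
`u ↦ μ u μ` is multiplicative against `piK g μ` on `Z` and kills boundaries.  For `unit` use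
`ε₀ + ε₁ - μ = d σ + σ d`. -/
theorem exists_stableData (hp : p.Prime) (hpR : (p : R) ∈ maximalIdeal R) (hX : Biset H X κ)
    (hC : CxData ε₀ ε₁ d σ) (hL : LocHyp p ε₀ ε₁ d 𝒬) :
    ∃ r α, StableData ε₀ ε₁ d (ε₁ - σ * d) r α := by
  have h := hC.gtRel
  obtain ⟨s₁, hs1, hs2⟩ := exists_section hp hpR hX hC hL
  obtain ⟨t, ht1, ht2, ht3⟩ := exists_retraction hX hC s₁ hs1 hs2
  obtain ⟨ζ, hζ, hz1, hz2⟩ := gt_exists_proj hC s₁ hs1 hs2
  obtain ⟨y₀, α₀, r₀, hy, hr, hy', hα, hs⟩ := gt_exists_split hp hpR hX hC hL ζ hζ hz1 hz2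
  obtain ⟨sec, hsec⟩ : ∃ sec : Kern R H X →ₗ[R] Kern R H X,
      ∀ a, sec a = a - (d * t a + t a * d) :=
    ⟨LinearMap.id - (LinearMap.mulLeft R d + LinearMap.mulRight R d) ∘ₗ t, fun _ => rfl⟩
  have hsb : ∀ y, y = ε₁ * y * ε₀ → sec (d * y + y * d) = 0 := by
    intro y hy
    rw [hsec, ht3 y hy, sub_self]
  have hse : ∀ γ a, sec (biRep R H X γ a) = biRep R H X γ (sec a) := by
    intro γ a
    rw [hsec, hsec, map_sub, map_add, gt_biRep_left hC.invd, gt_biRep_right hC.invd, ht1 γ trivial]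
  have hsZ : ∀ a, GtZ ε₀ ε₁ d a → GtZ ε₀ ε₁ d (sec a) := fun a ha => by
    rw [hsec]
    exact ha.sub (h.z_bdry (ht2 a))
  have hcut : ∀ a, (ε₁ - σ * d) * a * (ε₁ - σ * d) = a → ∀ g g' : G,
      sec (piK R H X g * (ε₁ - σ * d) * a * (piK R H X g' * (ε₁ - σ * d))) =
        biRep R H X (g, g'⁻¹) (sec a) := by
    intro a ha g g'
    obtain ⟨y, hy, he⟩ := h.cut_bdry ha (hC.inv₁ g) (hC.invd g) (hC.inv₁ g')
    rw [he, map_sub, hsb y hy, sub_zero, ← hse, biRep_apply, inv_inv]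
  obtain ⟨α, hαd⟩ : ∃ α : Kern R H X →ₗ[R] Kern R H X,
      ∀ a, α a = (ε₁ - σ * d) * α₀ (sec a) * (ε₁ - σ * d) :=
    ⟨LinearMap.mulRight R (ε₁ - σ * d) ∘ₗ LinearMap.mulLeft R (ε₁ - σ * d) ∘ₗ α₀ ∘ₗ sec,
      fun _ => rfl⟩
  refine ⟨r₀ ∘ₗ sec, α, fun a ha g g' => ?_, fun a => ?_, fun a ha => ?_, ?_⟩
  · rw [LinearMap.comp_apply, LinearMap.comp_apply, hcut a ha, hr _ trivial, gaRep_apply, inv_inv,
      mul_assoc]
  · rw [hαd, ← mul_assoc, ← mul_assoc, h.mm, mul_assoc, h.mm]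
  · have a1 := congrArg (fun u => (ε₁ - σ * d) * u * (ε₁ - σ * d)) (hs _ (hsZ a (h.z_cut ha)))
    have a2 : (ε₁ - σ * d) * sec a * (ε₁ - σ * d) = a := by
      rw [hsec]
      exact h.m_sub_bdry ha _
    beta_reduce at a1
    rw [a2, gt_distrib, h.m_bdry, zero_add,
      h.m_cent (hC.inv₁.piA_comm _) (hC.invd.piA_comm _), Fintype.sum_prod_type] at a1
    refine a1.trans (congrArg₂ (· + ·) rfl (Finset.sum_congr rfl fun g _ => ?_))
    rw [← Equiv.sum_comp (Equiv.inv G)]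
    refine Finset.sum_congr rfl fun g' _ => ?_
    rw [Equiv.inv_apply, biRep_apply, inv_inv,
      h.m_prod (hC.inv₁ g) (hC.invd g) (hC.inv₁ g') (hC.invd g') (hα _), hαd, hcut a ha,
      Prod.inv_mk]
  · have hσ : σ = ε₁ * σ * ε₀ := by rw [hC.s1, hC.s0]
    have he : GInv (ε₀ + ε₁) := gt_gInv_add hC.inv₀ hC.inv₁
    have a1 : sec (ε₁ - σ * d) = sec (ε₀ + ε₁) := by
      have : ε₁ - σ * d = (ε₀ + ε₁) - (d * σ + σ * d) := by rw [hC.ds]; abel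
      rw [this, map_sub, hsb σ hσ, sub_zero]
    have heZ : GtZ ε₀ ε₁ d (ε₀ + ε₁) := by
      have := h.z_cent (b := 1) (by simp) (by simp) (by simp)
      rwa [one_mul] at this
    have hu : GInv (sec (ε₀ + ε₁)) := gt_gInv_map (fun γ _ a => hse γ a) he
    have a2 := hs _ (hsZ _ heZ)
    rw [gt_trace hu] at a2
    refine ⟨t (ε₀ + ε₁) + y₀ (sec (ε₀ + ε₁)),
      ∑ k : G, biRep R H X (1, k) (α₀ (biRep R H X (1, k)⁻¹ (sec (ε₀ + ε₁)))),
      gt_gInv_add (gt_gInv_map ht1 he) (gt_gInv_map hy hu), ?_, ?_⟩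
    · rw [mul_add, add_mul, ← ht2, ← hy']
    · rw [LinearMap.comp_apply, a1]
      exact gt_unit (hsec _) a2

end Pool.Agent.Lib.MP_b6945b_al.St
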