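import Pool.Agent.Lib.MP_b6945b_al.St.ModelDefs
import Pool.Agent.Lib.MP_b6945b_al.St.GT

set_option autoImplicit false

/-!
Normalising the stable retraction.
-/

namespace Pool.Agent.Lib.MP_b6945b_al.St

open IsLocalRing
open MonoidAlgebra (single)

variable {R : Type} [CommRing R] [IsLocalRing R] {G : Type} [Group G] [Fintype G]
  {H : Subgroup G} [Fintype H] {X : Type} [Fintype X] [DecidableEq X] [MulAction (G × H) X]
  {p : ℕ} {D : Subgroup H} {e : MonoidAlgebra R G} {f : MonoidAlgebra R H} {κ : X → G}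
  {ε₀ ε₁ d σ : Kern R H X} {x₀ : X} {r : Kern R H X →ₗ[R] MonoidAlgebra R G}
  {α : Kern R H X →ₗ[R] Kern R H X}

omit [IsLocalRing R] [Fintype H] in
lemma finalu_stab {μ : Kern R H X} (h : ∀ g, μ * piK R H X g * μ = piK R H X g * μ)
    (b : MonoidAlgebra R G) : μ * piA R H X b * μ = piA R H X b * μ := by
  rw [eq_sum_single b, map_sum, Finset.mul_sum, Finset.sum_mul, Finset.sum_mul]
  refine Finset.sum_congr rfl (fun g _ => ?_)
  rw [map_smul, piA_single, mul_smul_comm, smul_mul_assoc, smul_mul_assoc, h g]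

omit [IsLocalRing R] [Fintype H] in
lemma finalu_bimod {μ : Kern R H X} (hS : StableData ε₀ ε₁ d μ r α) (a : Kern R H X)
    (ha : μ * a * μ = a) (b b' : MonoidAlgebra R G) :
    r (piA R H X b * μ * a * (piA R H X b' * μ)) = b * r a * b' := by
  have h1 : ∀ g : G, r (piK R H X g * μ * a * (piA R H X b' * μ)) = single g 1 * r a * b' := by
    intro g
    rw [eq_sum_single b', map_sum, Finset.sum_mul, Finset.mul_sum, Finset.mul_sum, map_sum]
    refine Finset.sum_congr rfl (fun g' _ => ?_)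
    rw [map_smul, piA_single, smul_mul_assoc, mul_smul_comm, map_smul, hS.bimod a ha,
      mul_smul_comm]
  rw [eq_sum_single b, map_sum, Finset.sum_mul, Finset.sum_mul, Finset.sum_mul, map_sum,
    Finset.sum_mul, Finset.sum_mul]
  refine Finset.sum_congr rfl (fun g _ => ?_)
  rw [map_smul, piA_single, smul_mul_assoc, smul_mul_assoc, smul_mul_assoc, map_smul, h1,
    smul_mul_assoc, smul_mul_assoc]

omit [IsLocalRing R] [Fintype H] in
lemma finalu_gInv {b : MonoidAlgebra R G} (h : ∀ b', b * b' = b' * b) : GInv (piA R H X b) := by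
  intro g
  rw [← piA_single, ← map_mul, ← map_mul, h]

omit [Fintype G] [Fintype H] in
lemma finalu_br_inMax (Q : Subgroup H) {z : Kern R H X} (h : InMax R z) : br Q z.1 = 0 := by
  refine Submodule.smul_induction_on (p := fun z : Kern R H X => br Q z.1 = 0) h
    (fun c hc n _ => ?_) (fun a b ha hb => ?_)
  · ext x y
    change residue R (c * n.1 x.1 y.1) = 0
    rw [residue_eq_zero_iff]
    exact Ideal.mul_mem_right _ _ hc
  · ext x y
    have h1 : residue R (a.1 x.1 y.1) = 0 := congrFun (congrFun ha x) y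
    have h2 : residue R (b.1 x.1 y.1) = 0 := congrFun (congrFun hb x) y
    change residue R (a.1 x.1 y.1 + b.1 x.1 y.1) = 0
    rw [map_add, h1, h2, add_zero]

omit [Fintype G] in
lemma finalu_unit (hM : ModelData p D e f κ ε₀ ε₁ d σ x₀) :
    piA R H X e * (ε₁ - σ * d) = ε₁ - σ * d := by
  have h := hM.cx.mu.2.2.1
  calc piA R H X e * (ε₁ - σ * d) = piA R H X e * (ε₁ * (ε₁ - σ * d)) := by rw [h]
    _ = ε₁ - σ * d := by rw [← mul_assoc, hM.e1, h]

omit [IsLocalRing R] [Fintype H] in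
lemma finalu_left {μ : Kern R H X} (hS : StableData ε₀ ε₁ d μ r α) (hμ : μ * μ = μ)
    (b : MonoidAlgebra R G) : r (piA R H X b * μ) = b * r μ := by
  have h := finalu_bimod hS μ (by rw [hμ, hμ]) b 1
  rwa [map_one, one_mul, mul_one, mul_assoc, mul_assoc, hμ, hμ] at h

omit [IsLocalRing R] [Fintype H] in
lemma finalu_cent {μ : Kern R H X} (hS : StableData ε₀ ε₁ d μ r α) (hμ : μ * μ = μ)
    (hs : ∀ g, μ * piK R H X g * μ = piK R H X g * μ) (b : MonoidAlgebra R G) :
    r μ * b = b * r μ := by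
  have h := finalu_bimod hS μ (by rw [hμ, hμ]) 1 b
  rw [map_one, one_mul, one_mul, hμ, ← mul_assoc, finalu_stab hs, finalu_left hS hμ] at h
  exact h.symm

/-- `c₀ = r μ` is central by `bimod`.  Write `c₀ e - v • e = n` nilpotent modulo the maximal
ideal.  Apply `br D` to `unit` (`br_mul`, `br_trace`, `br1`; `br D d = 0` as `d = d ε₁`):
`br (piA c₀) br ε₀ = br ε₀`, so `br (piA n) br ε₀ = (1 - v) • br ε₀`, and `br0` forces
`v ≡ 1`.  Then `e - c₀ e` is nilpotent modulo the maximal ideal, `u = 1 - (e - c₀ e)` is a central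
unit, and `c' = u⁻¹ e`. -/
theorem ModelData.exists_unit (hp : p.Prime) (hpR : (p : R) ∈ maximalIdeal R)
    (hD : IsPGroup p D) (hD0 : D ≠ ⊥) (hM : ModelData p D e f κ ε₀ ε₁ d σ x₀) (he : IsBlock e)
    (hS : StableData ε₀ ε₁ d (ε₁ - σ * d) r α) :
    ∃ c', (∀ b, c' * b = b * c') ∧ c' * r (ε₁ - σ * d) = e ∧ e * c' = c' := by
  obtain ⟨hμ, -, -, -, hs⟩ := hM.cx.mu
  have hC := hM.cx
  have hc := finalu_cent hS hμ hs
  have hec : e * r (ε₁ - σ * d) = r (ε₁ - σ * d) := by
    rw [← finalu_left hS hμ, finalu_unit hM]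
  obtain ⟨y, w, hy, -, hu⟩ := hS.unit
  generalize r (ε₁ - σ * d) = c at hc hec hu ⊢
  have hm : ∀ a b : Kern R H X, GInv a → GInv b → br D (a * b).1 = br D a.1 * br D b.1 :=
    fun a b ha hb => br_mul hp hpR hD (ha.dInv D) (hb.dInv D)
  have hd : br D d.1 = 0 := by
    rw [← hC.d1, hm _ _ hC.invd hC.inv₁, hM.br1, mul_zero]
  have h1 : br D (piA R H X c).1 * br D ε₀.1 = br D ε₀.1 := by
    have h := congrArg (fun z : Kern R H X => br D z.1) hu
    simp only [AddSubgroupClass.coe_sub, AddMemClass.coe_add, br_sub, br_add] at h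
    rw [br_trace hp hpR hD hD0, hm _ _ hC.invd hy, hm _ _ hy hC.invd,
      hm _ _ (finalu_gInv hc) (gt_gInv_add hC.inv₀ hC.inv₁), hd, hM.br1] at h
    simp only [AddMemClass.coe_add, br_add, hM.br1, add_zero, zero_mul, mul_zero] at h
    exact (sub_eq_zero.1 h).symm
  obtain ⟨v, hv⟩ := he.loc c hc
  have hn : ∀ b, (c * e - v • e) * b = b * (c * e - v • e) := fun b =>
    (Commute.sub_left (Commute.mul_left (hc b) (he.cent b)) (Commute.smul_left (he.cent b) v)).eq
  have h2 : br D (piA R H X (c * e - v • e)).1 * br D ε₀.1 = (1 - residue R v) • br D ε₀.1 := by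
    rw [← hm _ _ (finalu_gInv hn) hC.inv₀, map_sub, map_mul, map_smul, sub_mul, smul_mul_assoc,
      mul_assoc, hM.e0, AddSubgroupClass.coe_sub, br_sub, hm _ _ (finalu_gInv hc) hC.inv₀, h1,
      SetLike.val_smul, br_smul, sub_smul, one_smul]
  have h3 : ∀ k : ℕ, br D (piA R H X ((c * e - v • e) ^ k)).1 * br D ε₀.1 =
      (1 - residue R v) ^ k • br D ε₀.1 := by
    intro k
    induction k with
    | zero => rw [pow_zero, pow_zero, map_one, OneMemClass.coe_one, br_one, one_mul, one_smul]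
    | succ k ih =>
      have hk : ∀ b, (c * e - v • e) ^ k * b = b * (c * e - v • e) ^ k := fun b =>
        (Commute.pow_left (hn b) k).eq
      rw [pow_succ, map_mul, hm _ _ (finalu_gInv hk) (finalu_gInv hn), mul_assoc, h2,
        mul_smul_comm, ih, smul_smul, pow_succ']
  have h4 : 1 - v ∈ maximalIdeal R := by
    obtain ⟨k, hk⟩ := hv
    have h5 := h3 k
    have h7 : br D (piA R H X ((c * e - v • e) ^ k)).1 = 0 :=
      finalu_br_inMax D (idem_inMax_map (piA R H X).toLinearMap hk)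
    rw [h7, zero_mul] at h5
    have h6 := (smul_eq_zero.1 h5.symm).resolve_right hM.br0
    rw [← residue_eq_zero_iff, map_sub, map_one]
    exact eq_zero_of_pow_eq_zero h6
  have h5 : NilR R (e - c * e) := by
    have h6 := (hv.mul_right (y := -1) (by rw [mul_neg, neg_mul, mul_one, one_mul])).add
      (inMax_smul h4 e).nilR (by
        rw [mul_neg_one, neg_mul, mul_neg, hn])
    have h7 : (c * e - v • e) * -1 + (1 - v) • e = e - c * e := by
      rw [mul_neg_one, sub_smul, one_smul]; abel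
    rwa [h7] at h6
  obtain ⟨u, hu'⟩ := h5.isUnit_one_sub
  have huc : ∀ b, Commute (u : MonoidAlgebra R G) b := by
    intro b
    rw [hu']
    exact (Commute.one_left b).sub_left
      (Commute.sub_left (he.cent b) (Commute.mul_left (hc b) (he.cent b)))
  have hue : (u : MonoidAlgebra R G) * e = c := by
    rw [hu', sub_mul, sub_mul, one_mul, he.idem, mul_assoc, he.idem, sub_sub_cancel, hc, hec]
  refine ⟨(↑u⁻¹ : MonoidAlgebra R G) * e,
    fun b => (Commute.mul_left (huc b).units_inv_left (he.cent b)).eq, ?_, ?_⟩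
  · rw [mul_assoc, hec, ← hue, Units.inv_mul_cancel_left]
  · rw [he.cent, mul_assoc, he.idem]

/-- The normalised data. -/
structure NormData (e : MonoidAlgebra R G) (μ : Kern R H X)
    (r : Kern R H X →ₗ[R] MonoidAlgebra R G) (α : Kern R H X →ₗ[R] Kern R H X) : Prop where
  idem : μ * μ = μ
  stab : ∀ b, μ * piA R H X b * μ = piA R H X b * μ
  unit : piA R H X e * μ = μ
  bimod : ∀ a, μ * a * μ = a → ∀ b b',
    r (piA R H X b * μ * a * (piA R H X b' * μ)) = b * r a * b'
  one : r μ = e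
  cut : ∀ a, μ * α a * μ = α a
  hig : ∀ a, μ * a * μ = a → a = piA R H X (r a) * μ + ∑ g, ∑ g', piK R H X g * μ *
    α (piK R H X g⁻¹ * μ * a * (piK R H X g'⁻¹ * μ)) * (piK R H X g' * μ)

/-- Put `r' a = c' * r a`, `i b = piA b * μ` and `α' a = α (a - i (r' a))`.  From `hig` for
`i (r' a)` (note `r (i b) = b * r μ`, `i (e b) = i b`) one gets `i (r' a) = i (r a) + T (i (r' a))`
for the trace term `T`, hence `a = i (r' a) + T (a - i (r' a))`; `i ∘ r'` is a bimodule map. -/
theorem ModelData.exists_normData (hp : p.Prime) (hpR : (p : R) ∈ maximalIdeal R)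
    (hD : IsPGroup p D) (hD0 : D ≠ ⊥) (hM : ModelData p D e f κ ε₀ ε₁ d σ x₀) (he : IsBlock e) :
    ∃ r α, NormData e (ε₁ - σ * d) r α := by
  obtain ⟨𝒬, hL⟩ := hM.loc
  obtain ⟨r, α, hS⟩ := exists_stableData hp hpR hM.biset hM.cx hL
  obtain ⟨c, hc, hc1, -⟩ := hM.exists_unit hp hpR hD hD0 he hS
  obtain ⟨hμ, -, -, -, hs⟩ := hM.cx.mu
  have hun := finalu_unit hM
  have hce := finalu_cent hS hμ hs
  generalize ε₁ - σ * d = μ at hS hc1 hμ hs hun hce ⊢
  have hst := finalu_stab hs
  let r' : Kern R H X →ₗ[R] MonoidAlgebra R G := LinearMap.mulLeft R c ∘ₗ r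
  have hr' : ∀ a, r' a = c * r a := fun a => rfl
  let α' : Kern R H X →ₗ[R] Kern R H X :=
    α ∘ₗ (LinearMap.id - LinearMap.mulRight R μ ∘ₗ (piA R H X).toLinearMap ∘ₗ r')
  have hα' : ∀ a, α' a = α (a - piA R H X (c * r a) * μ) := fun a => rfl
  refine ⟨r', α', hμ, hst, hun, fun a ha b b' => ?_, hc1, fun a => hS.cut _, fun a ha => ?_⟩
  · rw [hr', hr', finalu_bimod hS a ha, ← mul_assoc, ← mul_assoc, hc, mul_assoc b]
  · have h1 : μ * (a - piA R H X (c * r a) * μ) * μ = a - piA R H X (c * r a) * μ := by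
      rw [mul_sub, sub_mul, ha, ← mul_assoc, hst, mul_assoc, hμ]
    have h2 : piA R H X (r (a - piA R H X (c * r a) * μ)) * μ = 0 := by
      rw [map_sub, finalu_left hS hμ, hc, mul_assoc, hc1, map_sub, map_mul, sub_mul, mul_assoc,
        hun, sub_self]
    have h3 := hS.hig _ h1
    rw [h2, zero_add] at h3
    rw [hr', ← sub_eq_iff_eq_add', h3]
    refine Finset.sum_congr rfl fun g _ => Finset.sum_congr rfl fun g' _ => ?_
    rw [hα', hS.bimod a ha, mul_sub, sub_mul]
    congr 4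
    have h4 : c * (single g⁻¹ 1 * r a * single g'⁻¹ 1) =
        single g⁻¹ 1 * (c * r a) * single g'⁻¹ 1 := by
      rw [← mul_assoc, ← mul_assoc, hc, mul_assoc (single g⁻¹ 1)]
    have h5 := hst (c * r a)
    rw [h4, map_mul _ _ (single g'⁻¹ 1), map_mul _ (single g⁻¹ 1), piA_single, piA_single]
    generalize piA R H X (c * r a) = z at h5 ⊢
    calc piK R H X g⁻¹ * μ * (z * μ) * (piK R H X g'⁻¹ * μ)
        = piK R H X g⁻¹ * (μ * z * μ) * (piK R H X g'⁻¹ * μ) := by simp only [mul_assoc]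
      _ = piK R H X g⁻¹ * z * (μ * piK R H X g'⁻¹ * μ) := by rw [h5]; simp only [mul_assoc]
      _ = _ := by rw [hs]; simp only [mul_assoc]

end Pool.Agent.Lib.MP_b6945b_al.St
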