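import Pool.Agent.Lib.MP_b6945b_al.St.KernEmb
import Pool.Agent.Lib.MP_b6945b_al.St.FinalU
import Pool.Agent.Lib.MP_b6945b_al.St.Core

set_option autoImplicit false

/-!
Application of the core theorem.
-/

namespace Pool.Agent.Lib.MP_b6945b_al.St

open IsLocalRing
open MonoidAlgebra (single)

variable {K : Type} [Field K] {V : ValuationSubring K} {G : Type} [Group G] [Fintype G]
  {A : Type} [Ring A] [Algebra K A]

/-- Isomorphic algebras have centres of the same dimension. -/
lemma finalk_center {B B' : Type} [Ring B] [Algebra K B] [Ring B'] [Algebra K B']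
    (φ : B ≃ₐ[K] B') :
    Module.finrank K (Subalgebra.center K B) = Module.finrank K (Subalgebra.center K B') := by
  have hm : ∀ {C C' : Type} [Ring C] [Algebra K C] [Ring C'] [Algebra K C'] (ψ : C ≃ₐ[K] C')
      (z : C), z ∈ Subalgebra.center K C → ψ z ∈ Subalgebra.center K C' := by
    intro C C' _ _ _ _ ψ z hz
    rw [Subalgebra.mem_center_iff] at hz ⊢
    intro b
    obtain ⟨c, rfl⟩ := ψ.surjective b
    rw [← map_mul, ← map_mul, hz]
  let e : Subalgebra.center K B ≃ₗ[K] Subalgebra.center K B' :=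
    { toFun := fun z => ⟨φ z.1, hm φ _ z.2⟩
      invFun := fun z => ⟨φ.symm z.1, hm φ.symm _ z.2⟩
      map_add' := fun x y => Subtype.ext (map_add φ x.1 y.1)
      map_smul' := fun c x => Subtype.ext (map_smul φ c x.1)
      left_inv := fun z => Subtype.ext (φ.symm_apply_apply z.1)
      right_inv := fun z => Subtype.ext (φ.apply_symm_apply z.1) }
  exact e.finrank_eq

lemma finalk_single_mem (g : G) : (single g 1 : MonoidAlgebra K G) ∈ GO V G := by
  rw [← toK_single (V := V)]
  exact toK_mem _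

/-- An abstract form.  `B` is the range of `i`, `sB = coef 1 ∘ r`, the frames are `i (single g 1)`
and `i (single g⁻¹ 1)`, the retraction is `i ∘ r`, `w = (card G)⁻¹ • 1`.  For `hnd`: an element
`b` of `B ∩ O` is `i (toK b₁)` with `toK b₁ = r b`, and `BlockE.tr`, `inMax_iff_valuation` apply.
`B` is isomorphic to the corner of `toK e` through `i ∘ cval` (`AlgEquiv.ofBijective`). -/
theorem finrank_of_retraction [CharZero K] [IsAlgClosed K] {p n : ℕ} (hp : p.Prime)
    (hpV : (p : K) ∈ V.nonunits) {O : Subring A} (hG : Good V p O) {e : MonoidAlgebra V G}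
    (he : BlockE p n e) (i : MonoidAlgebra K G →ₐ[K] A) (r : A →ₗ[K] MonoidAlgebra K G)
    (α : A →ₗ[K] A) (hi : ∀ b ∈ GO V G, i b ∈ O) (hie : i (toK V G e) = 1)
    (hr : ∀ a ∈ O, r a ∈ GO V G) (hα : ∀ a ∈ O, α a ∈ O)
    (hb : ∀ b a b', r (i b * a * i b') = b * r a * b') (h1 : r 1 = toK V G e)
    (hig : ∀ a, a = i (r a) + ∑ g : G, ∑ g' : G, i (single g 1) *
      α (i (single g⁻¹ 1) * a * i (single g'⁻¹ 1)) * i (single g' 1)) :
    Module.finrank K (Subalgebra.center K A) =
      Module.finrank K (Subalgebra.center K (idem_toK he.idem).Corner) := by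
  have hE : ∀ b : MonoidAlgebra K G, toK V G e * b = b * toK V G e := toK_central he.cent
  have hri : ∀ b, r (i b) = b * toK V G e := fun b => by
    have := hb b 1 1
    rwa [map_one, mul_one, mul_one, h1, mul_one] at this
  have hiE : ∀ b, i (b * toK V G e) = i b := fun b => by rw [map_mul, hie, mul_one]
  have hg := isFrame_group K G
  have hfr : IsFrame (coef K (1 : G) ∘ₗ r) (Subalgebra.toSubmodule i.range)
      (fun g : G => i (single g 1)) (fun g : G => i (single g⁻¹ 1)) := by
    refine ⟨fun g => ⟨_, rfl⟩, fun g => ⟨_, rfl⟩, ?_, ?_⟩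
    · rintro _ ⟨a, rfl⟩ _ ⟨b, rfl⟩
      change coef K 1 (r (i a * i b)) = coef K 1 (r (i b * i a))
      rw [← map_mul, ← map_mul, hri, hri, mul_assoc b, hg.symm b trivial _ trivial, mul_assoc,
        mul_assoc, hE]
    · rintro _ ⟨a, rfl⟩
      change ∑ g : G, coef K 1 (r (i a * i (single g⁻¹ 1))) • i (single g 1) = i a
      conv_rhs => rw [← hiE a, ← hg.repro (a * toK V G e) trivial, map_sum]
      refine Finset.sum_congr rfl fun g _ => ?_
      rw [map_smul, ← map_mul, hri, mul_assoc, mul_assoc, hE]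
  have key := core hp hpV hG (B := i.range) hfr (fun g => hi _ (finalk_single_mem g))
    (fun g => hi _ (finalk_single_mem g⁻¹)) (fun b _ hb => hr b hb 1) (i.toLinearMap ∘ₗ r) α
    (fun a ha => hi _ (hr a ha)) hα (fun y => ⟨r y, rfl⟩)
    (by
      rintro _ ⟨c, rfl⟩ _ ⟨c', rfl⟩ y
      change i (r (i c * y * i c')) = i c * i (r y) * i c'
      rw [hb, map_mul, map_mul])
    (by
      change i (r 1) = 1
      rw [h1, hie])
    (fun y => (hig y).symm)
    (by
      refine ⟨(Fintype.card G : K)⁻¹ • 1, i.range.smul_mem i.range.one_mem _, ?_⟩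
      have h2 : trF (fun g : G => i (single g 1)) (fun g : G => i (single g⁻¹ 1)) 1 =
          (Fintype.card G : K) • (1 : A) := by
        rw [trF, Nat.cast_smul_eq_nsmul, ← Finset.card_univ, ← Finset.sum_const]
        refine Finset.sum_congr rfl fun g _ => ?_
        rw [mul_one, ← map_mul, MonoidAlgebra.single_mul_single, mul_inv_cancel, mul_one,
          ← MonoidAlgebra.one_def, map_one]
      rw [h2, smul_mul_smul_comm, mul_one, inv_mul_cancel₀ (Nat.cast_ne_zero.2 Fintype.card_ne_zero),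
        one_smul])
    (by
      rintro _ ⟨c, rfl⟩ hc
      obtain ⟨b₁, hb₁⟩ := (mem_GO_iff_range V).1 (hr _ hc)
      have h3 : (i.toRingHom c : A) = i (toK V G b₁) := by
        rw [hb₁]
        change i c = i (r (i c))
        rw [hri, hiE]
      obtain ⟨m, hm⟩ := he.tr b₁
      obtain ⟨v, hv, y, hy⟩ := inMax_iff_valuation.1 hm
      refine ⟨m, v, mem_maximalIdeal_iff_nonunits.1 hv, i (toK V G y), hi _ (toK_mem y), ?_⟩
      have h4 : trF (fun g : G => i (single g 1)) (fun g : G => i (single g⁻¹ 1))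
          (i.toRingHom c) = i (toK V G (e * ∑ g : G, single g 1 * b₁ * single g⁻¹ 1)) := by
        rw [map_mul, map_mul, hie, one_mul, map_sum, map_sum, trF, h3]
        refine Finset.sum_congr rfl fun g _ => ?_
        rw [map_mul, map_mul, map_mul, map_mul, toK_single, toK_single]
      rw [h4, ← map_pow, ← map_pow, hy, toK_smul, map_smul])
  rw [key]
  let φ : (idem_toK he.idem).Corner →ₐ[K] i.range :=
    { toFun := fun a => ⟨i a.1, ⟨_, rfl⟩⟩
      map_one' := Subtype.ext hie
      map_mul' := fun a b => Subtype.ext (map_mul i a.1 b.1)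
      map_zero' := Subtype.ext (map_zero i)
      map_add' := fun a b => Subtype.ext (map_add i a.1 b.1)
      commutes' := fun c => Subtype.ext (by
        change i (c • toK V G e) = algebraMap K A c
        rw [map_smul, hie, Algebra.algebraMap_eq_smul_one]) }
  have hφ : Function.Bijective φ := by
    constructor
    · intro a b hab
      have h5 : i a.1 = i b.1 := congrArg Subtype.val hab
      have h6 := congrArg r h5
      rw [hri, hri, corner_right, corner_right] at h6
      exact Subtype.ext h6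
    · rintro ⟨_, c, rfl⟩
      refine ⟨cmk (idem_toK he.idem) c, Subtype.ext ?_⟩
      change i (toK V G e * c * toK V G e) = i c
      rw [map_mul, map_mul, hie, one_mul, mul_one]
  exact (finalk_center (AlgEquiv.ofBijective φ hφ)).symm

omit [Fintype G] in
lemma finalk_scale_b (i : MonoidAlgebra K G →ₐ[K] A) (r : A →ₗ[K] MonoidAlgebra K G)
    {c₁ c₂ c₃ : K} (h₁ : c₁ ≠ 0) (h₂ : c₂ ≠ 0) (h₃ : c₃ ≠ 0) {b b' : MonoidAlgebra K G} {a : A}
    (h : r (i (c₁ • b) * (c₂ • a) * i (c₃ • b')) = (c₁ • b) * r (c₂ • a) * (c₃ • b')) :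
    r (i b * a * i b') = b * r a * b' := by
  simp only [map_smul, smul_mul_assoc, mul_smul_comm] at h
  exact smul_right_injective _ h₁ (smul_right_injective _ h₂ (smul_right_injective _ h₃ h))

lemma finalk_scale_h (i : MonoidAlgebra K G →ₐ[K] A) (r : A →ₗ[K] MonoidAlgebra K G)
    (α : A →ₗ[K] A) {c : K} (hc : c ≠ 0) {a : A}
    (h : c • a = i (r (c • a)) + ∑ g : G, ∑ g' : G, i (single g 1) *
      α (i (single g⁻¹ 1) * (c • a) * i (single g'⁻¹ 1)) * i (single g' 1)) :
    a = i (r a) + ∑ g : G, ∑ g' : G, i (single g 1) *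
      α (i (single g⁻¹ 1) * a * i (single g'⁻¹ 1)) * i (single g' 1) := by
  simp only [map_smul, smul_mul_assoc, mul_smul_comm] at h
  refine smul_right_injective _ hc (h.trans ?_)
  simp only [smul_add, Finset.smul_sum]

variable {H : Subgroup G} {X : Type} [Fintype X] [DecidableEq X] [MulAction (G × H) X]

omit [Fintype G] in
lemma finalk_piA_single (R : Type) [CommRing R] (g : G) :
    piA R H X (single g 1) = piK R H X g := by
  simp [piA]

lemma finalk_stab {μ : Kern V H X}
    (h : ∀ b, μ * piA V H X b * μ = piA V H X b * μ) (b : MonoidAlgebra K G) :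
    kerK V H X μ * piA K H X b * kerK V H X μ = piA K H X b * kerK V H X μ := by
  rw [eq_sum_single b, map_sum, Finset.mul_sum, Finset.sum_mul, Finset.sum_mul]
  refine Finset.sum_congr rfl fun g _ => ?_
  rw [map_smul, mul_smul_comm, smul_mul_assoc, smul_mul_assoc, ← toK_single (V := V), ← kerK_piA,
    ← map_mul, ← map_mul, h, map_mul]

/-- The group algebra maps to the corner. -/
noncomputable def finalkI {μ : Kern V H X} (h : ∀ b, μ * piA V H X b * μ = piA V H X b * μ)
    (hμ : IsIdempotentElem (kerK V H X μ)) : MonoidAlgebra K G →ₐ[K] hμ.Corner where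
  toFun b := ⟨piA K H X b * kerK V H X μ, (Subsemigroup.mem_corner_iff hμ).2
    ⟨by rw [← mul_assoc, finalk_stab h], by rw [mul_assoc, hμ.eq]⟩⟩
  map_one' := Subtype.ext (by
    change piA K H X 1 * kerK V H X μ = kerK V H X μ
    rw [map_one, one_mul])
  map_mul' b b' := Subtype.ext (by
    change piA K H X (b * b') * kerK V H X μ =
      piA K H X b * kerK V H X μ * (piA K H X b' * kerK V H X μ)
    rw [map_mul, mul_assoc, mul_assoc, ← mul_assoc (kerK V H X μ), finalk_stab h])
  map_zero' := Subtype.ext (by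
    change piA K H X 0 * kerK V H X μ = 0
    rw [map_zero, zero_mul])
  map_add' b b' := Subtype.ext (by
    change piA K H X (b + b') * kerK V H X μ =
      piA K H X b * kerK V H X μ + piA K H X b' * kerK V H X μ
    rw [map_add, add_mul])
  commutes' c := Subtype.ext (by
    change piA K H X (algebraMap K _ c) * kerK V H X μ = c • kerK V H X μ
    rw [AlgHom.commutes, ← Algebra.smul_def])

lemma finalkI_val {μ : Kern V H X} (h : ∀ b, μ * piA V H X b * μ = piA V H X b * μ)
    (hμ : IsIdempotentElem (kerK V H X μ)) (b : MonoidAlgebra K G) :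
    (finalkI h hμ b).1 = piA K H X b * kerK V H X μ := rfl

lemma finalkI_toK {μ : Kern V H X} (h : ∀ b, μ * piA V H X b * μ = piA V H X b * μ)
    (hμ : IsIdempotentElem (kerK V H X μ)) (b : MonoidAlgebra V G) :
    (finalkI h hμ (toK V G b)).1 = kerK V H X (piA V H X b * μ) := by
  rw [finalkI_val, map_mul, kerK_piA]

omit [Fintype G] in
/-- Linear maps on integral kernels extend to the corner. -/
lemma finalk_extend {μ : Kern V H X} (hμ : IsIdempotentElem (kerK V H X μ))
    {s : hμ.Corner →ₗ[K] K} (hO : SymOrder V (cornerO hμ (KO V H X) ⟨_, rfl⟩) s)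
    {W : Type} [AddCommGroup W] [Module K W] (T : Kern V H X → W)
    (hadd : ∀ a b, T (a + b) = T a + T b) (hsmul : ∀ (v : V) a, T (v • a) = (v : K) • T a) :
    ∃ T' : hμ.Corner →ₗ[K] W, ∀ (a : hμ.Corner) a₀, a.1 = kerK V H X a₀ → T' a = T a₀ := by
  have hpre := Function.leftInverse_invFun (kerK_injective (V := V) (H := H) (X := X))
  obtain ⟨T', hT'⟩ := hO.exists_extend (fun a => T (Function.invFun (kerK V H X) a.1))
    (by
      rintro a ⟨a₀, ha⟩ b ⟨b₀, hb⟩
      rw [corner_add, ← ha, ← hb, ← map_add, hpre, hpre, hpre, hadd])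
    (by
      rintro v hv a ⟨a₀, ha⟩
      have := kerK_smul (⟨v, hv⟩ : V) a₀
      rw [corner_smul, ← ha, ← this, hpre, hpre, hsmul])
  refine ⟨T', fun a a₀ ha => ?_⟩
  rw [hT' a ⟨a₀, ha.symm⟩, ha, hpre]

omit [Fintype G] in
lemma finalk_cut {μ : Kern V H X} (hμ : IsIdempotentElem (kerK V H X μ)) {a : hμ.Corner}
    {a₀ : Kern V H X} (ha : a.1 = kerK V H X a₀) : μ * a₀ * μ = a₀ := by
  apply kerK_injective
  rw [map_mul, map_mul, ← ha, corner_left, corner_right]

/-- Extend `r` and `α` from the order to the corner algebra (`SymOrder.exists_extend` for the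
symmetric order given by `Good` and `Deform.symOrder`; identities extend by
`SymOrder.exists_smul_mem` or `linear_ext`); `i b` is `piA b * kerK μ`. -/
theorem NormData.finrank [CharZero K] [IsAlgClosed K] {p n : ℕ} (hp : p.Prime)
    (hpV : (p : K) ∈ V.nonunits) {e : MonoidAlgebra V G} (he : BlockE p n e) {μ : Kern V H X}
    {r : Kern V H X →ₗ[V] MonoidAlgebra V G} {α : Kern V H X →ₗ[V] Kern V H X}
    (h : NormData e μ r α) (hμ : IsIdempotentElem (kerK V H X μ))
    (hG : Good V p (cornerO hμ (KO V H X) ⟨_, rfl⟩)) :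
    Module.finrank K (Subalgebra.center K hμ.Corner) =
      Module.finrank K (Subalgebra.center K (idem_toK he.idem).Corner) := by
  obtain ⟨s, hO⟩ : ∃ s, SymOrder V (cornerO hμ (KO V H X) ⟨_, rfl⟩) s := by
    obtain ⟨s, Λ, g, hD, -⟩ := hG
    exact ⟨s, hD.symOrder⟩
  obtain ⟨r', hr'⟩ := finalk_extend hμ hO (fun a => toK V G (r a))
    (fun a b => by rw [map_add, map_add]) (fun v a => by rw [map_smul, toK_smul])
  obtain ⟨α', hα'⟩ := finalk_extend hμ hO (fun a => cproj K hμ (kerK V H X (α a)))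
    (fun a b => by rw [map_add, map_add, map_add])
    (fun v a => by rw [map_smul, kerK_smul, map_smul])
  have hαv : ∀ (a : hμ.Corner) a₀, a.1 = kerK V H X a₀ → (α' a).1 = kerK V H X (α a₀) := by
    intro a a₀ ha
    rw [hα' a a₀ ha, cproj_val, ← map_mul, ← map_mul, h.cut]
  have hsi : ∀ g : G, (finalkI h.stab hμ (single g 1)).1 = kerK V H X (piK V H X g * μ) := by
    intro g
    rw [← toK_single (V := V), finalkI_toK, finalk_piA_single]
  refine finrank_of_retraction hp hpV hG he (finalkI h.stab hμ) r' α' ?_ ?_ ?_ ?_ ?_ ?_ ?_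
  · intro b hb
    obtain ⟨b₀, rfl⟩ := (mem_GO_iff_range V).1 hb
    exact ⟨_, (finalkI_toK h.stab hμ b₀).symm⟩
  · apply Subtype.ext
    rw [finalkI_toK, h.unit]
    rfl
  · rintro a ⟨a₀, ha⟩
    rw [hr' a a₀ ha.symm]
    exact toK_mem _
  · rintro a ⟨a₀, ha⟩
    exact ⟨_, (hαv a a₀ ha.symm).symm⟩
  · intro b a b'
    obtain ⟨c₁, hc₁, hb⟩ := (symOrder_GO V G).exists_smul_mem b
    obtain ⟨c₂, hc₂, a₀, ha⟩ := hO.exists_smul_mem a
    obtain ⟨c₃, hc₃, hb'⟩ := (symOrder_GO V G).exists_smul_mem b'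
    obtain ⟨b₀, hb₀⟩ := (mem_GO_iff_range V).1 hb
    obtain ⟨b₁, hb₁⟩ := (mem_GO_iff_range V).1 hb'
    refine finalk_scale_b (A := hμ.Corner) (finalkI h.stab hμ) r' hc₁ hc₂ hc₃ ?_
    generalize c₂ • a = a' at ha
    have h1 : (finalkI h.stab hμ (toK V G b₀) * a' * finalkI h.stab hμ (toK V G b₁)).1 =
        kerK V H X (piA V H X b₀ * μ * a₀ * (piA V H X b₁ * μ)) := by
      rw [corner_mul, corner_mul, finalkI_toK, finalkI_toK, ← ha, ← map_mul, ← map_mul]
    rw [← hb₀, ← hb₁, hr' _ _ h1, hr' a' a₀ ha.symm, h.bimod a₀ (finalk_cut hμ ha.symm), map_mul,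
      map_mul]
  · rw [hr' 1 μ rfl, h.one]
  · have key : ∀ (a : hμ.Corner) a₀, a.1 = kerK V H X a₀ →
        a = finalkI h.stab hμ (r' a) + ∑ g : G, ∑ g' : G,
          finalkI h.stab hμ (single g 1) * α' (finalkI h.stab hμ (single g⁻¹ 1) * a *
            finalkI h.stab hμ (single g'⁻¹ 1)) * finalkI h.stab hμ (single g' 1) := by
      intro a a₀ ha
      have h2 : ∀ g g' : G, cval K hμ (finalkI h.stab hμ (single g 1) *
          α' (finalkI h.stab hμ (single g⁻¹ 1) * a * finalkI h.stab hμ (single g'⁻¹ 1)) *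
            finalkI h.stab hμ (single g' 1)) = kerK V H X (piK V H X g * μ *
          α (piK V H X g⁻¹ * μ * a₀ * (piK V H X g'⁻¹ * μ)) * (piK V H X g' * μ)) := by
        intro g g'
        have h3 : (finalkI h.stab hμ (single g⁻¹ 1) * a * finalkI h.stab hμ (single g'⁻¹ 1)).1 =
            kerK V H X (piK V H X g⁻¹ * μ * a₀ * (piK V H X g'⁻¹ * μ)) := by
          rw [corner_mul, corner_mul, hsi, hsi, ha, ← map_mul, ← map_mul]
        rw [cval_apply, corner_mul, corner_mul, hαv _ _ h3, hsi, hsi, ← map_mul, ← map_mul]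
      have h4 : cval K hμ (finalkI h.stab hμ (r' a)) = kerK V H X (piA V H X (r a₀) * μ) := by
        rw [cval_apply, hr' a a₀ ha, finalkI_toK]
      have h5 := congrArg (kerK V H X) (h.hig a₀ (finalk_cut hμ ha))
      have hinj : Function.Injective (cval K hμ) := fun _ _ h => Subtype.ext h
      apply hinj
      simp only [map_add, map_sum] at h5 ⊢
      simp only [h2, h4]
      exact ha.trans h5
    intro a
    obtain ⟨c, hc, a₀, ha⟩ := hO.exists_smul_mem a
    exact finalk_scale_h (A := hμ.Corner) (finalkI h.stab hμ) r' α' hc (key (c • a) a₀ ha.symm)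

end Pool.Agent.Lib.MP_b6945b_al.St
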