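import Pool.Agent.Lib.MP_b6945b_al.St.FrSrc
import Pool.Agent.Lib.MP_b6945b_al.St.KR1b
import Pool.Agent.Lib.MP_b6945b_al.FreeDefs

set_option autoImplicit false

/-!
Free action of the inertial quotient: from characters to idempotents, and to local subgroups.
-/

namespace Pool.Agent.Lib.MP_b6945b_al.St

open IsLocalRing
open MonoidAlgebra (single)

section ring

variable {R G : Type} [CommRing R] [IsLocalRing R] [Group G] [Fintype G] {p : ℕ}
  {e : MonoidAlgebra R G}

omit [IsLocalRing R] [Fintype G] in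
lemma frchar_inc_cj {A : Type} [Group A] (φ : A →* G) (a : A) (b : MonoidAlgebra R A) :
    inc R φ (cjRep R A a b) = cjRep R G (φ a) (inc R φ b) := by
  rw [cjRep_apply, cjRep_apply, map_mul, map_mul, inc_single, inc_single, map_inv]

omit [IsLocalRing R] [Fintype G] in
lemma frchar_fix_inc {L : Subgroup G} [Fintype L] {b : MonoidAlgebra R L}
    (hb : ∀ c, b * c = c * b) {P : Subgroup G} (hPL : P ≤ L) :
    FixedBy (cjRep R G) P (inc R L.subtype b) := by
  intro u hu
  have h1 := frchar_inc_cj L.subtype ⟨u, hPL hu⟩ b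
  rw [fixedBy_top_iff.2 hb _ trivial] at h1
  exact h1.symm

omit [IsLocalRing R] in
lemma frchar_fix_cent {b : MonoidAlgebra R G} (hb : ∀ c, b * c = c * b) (P : Subgroup G) :
    FixedBy (cjRep R G) P b := fun g _ => fixedBy_top_iff.2 hb g trivial

omit [IsLocalRing R] in
lemma frchar_pull_cent {A : Type} [Group A] [Fintype A] (φ : A →* G) {b : MonoidAlgebra R G}
    (hb : ∀ c, b * c = c * b) : ∀ c, pull R φ b * c = c * pull R φ b := by
  refine fixedBy_top_iff.1 fun a _ => ?_
  rw [← pull_cjRep, fixedBy_top_iff.2 hb _ trivial]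

omit [IsLocalRing R] [Fintype G] in
lemma frchar_supp_inc {L : Subgroup G} {S : Set G} {b : MonoidAlgebra R L}
    (hb : ∀ y : L, b.coeff y ≠ 0 → ∀ s ∈ S, (y : G) * s = s * y) :
    SuppCent S (inc R L.subtype b) := by
  intro x hx
  by_cases h : x ∈ L.subtype.range
  · obtain ⟨y, rfl⟩ := h
    rw [coeff_inc L.subtype_injective] at hx
    exact hb y hx
  · exact absurd (coeff_inc_of_notMem _ _ h) hx

omit [IsLocalRing R] [Fintype G] in
lemma frchar_supp_range {L : Subgroup G} {S : Set G} (hC : Subgroup.centralizer S ≤ L)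
    {b : MonoidAlgebra R G} (hb : SuppCent S b) : ∀ g, b.coeff g ≠ 0 → g ∈ L.subtype.range := by
  intro g hg
  rw [Subgroup.range_subtype]
  exact hC (frpg_cent.1 (hb g hg))

omit [IsLocalRing R] in
lemma frchar_brT_inc {L : Subgroup G} [Fintype L] (D : Subgroup L) (b : MonoidAlgebra R L) :
    brT R ((D.map L.subtype : Subgroup G) : Set G) (inc R L.subtype b) =
      inc R L.subtype (brT R (D : Set L) b) := by
  ext x
  by_cases h : x ∈ L.subtype.range
  · obtain ⟨y, rfl⟩ := h
    rw [coeff_inc L.subtype_injective]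
    by_cases e : ∀ s ∈ (D : Set L), y * s = s * y
    · rw [(coeff_brT _ b y).trans (if_pos e), coeff_brT, coeff_inc L.subtype_injective, if_pos]
      rintro _ ⟨t, ht, rfl⟩
      exact congrArg Subtype.val (e t ht)
    · rw [(coeff_brT _ b y).trans (if_neg e), coeff_brT, if_neg]
      exact fun e' => e fun s hs => Subtype.ext (e' s ⟨s, hs, rfl⟩)
  · rw [coeff_brT, coeff_inc_of_notMem _ _ h, coeff_inc_of_notMem _ _ h, ite_self]

omit [Fintype G] in
lemma frchar_nil_of_inc {L : Subgroup G} [Fintype L] {b : MonoidAlgebra R L}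
    (h : NilR R (inc R L.subtype b)) : NilR R b := by
  obtain ⟨n, hn⟩ := h
  refine ⟨n, ?_⟩
  have h1 := idem_inMax_map (pull R L.subtype) hn
  rwa [← map_pow, pull_inc L.subtype_injective] at h1

/-- Conjugate all data by `g⁻¹` (`brT_cjRep`, `cjRep_mul`). -/
lemma FreeB.conj {D : Subgroup G} (h : FreeB e D) (he : ∀ b, e * b = b * e) (g : G) :
    FreeB e (D.map (MulAut.conj g).toMonoidHom) := by
  intro j n hn hj h0 hs hb hz u hu hnu
  have m1 : ∀ s ∈ (D : Set G), g * s * g⁻¹ ∈ ((D.map (MulAut.conj g).toMonoidHom : Subgroup G) :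
      Set G) := fun s hs => ⟨s, hs, rfl⟩
  have m2 : ∀ s ∈ ((D.map (MulAut.conj g).toMonoidHom : Subgroup G) : Set G),
      g⁻¹ * s * g ∈ (D : Set G) := fun s hs => frpg_mem_conj.1 hs
  have hn' : g⁻¹ * n * g ∈ Subgroup.normalizer (D : Set G) := by
    refine Subgroup.mem_normalizer_iff.2 fun x => ?_
    have h1 := Subgroup.mem_normalizer_iff.1 hn (g * x * g⁻¹)
    rw [frpg_mem_conj, frpg_mem_conj] at h1
    rw [show g⁻¹ * n * g * x * (g⁻¹ * n * g)⁻¹ = g⁻¹ * (n * (g * x * g⁻¹) * n⁻¹) * g by group,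
      ← h1, show g⁻¹ * (g * x * g⁻¹) * g = x by group]
  have key := h (cjRep R G g⁻¹ j) (g⁻¹ * n * g) hn' (by rw [← cjRep_mul, hj])
    (fun e0 => h0 (by rw [← frpg_cj_inv g j, e0, map_zero]))
    (frpg_supp_cj hs fun s hs => by rw [inv_inv]; exact m1 s hs) ?_ ?_ (g⁻¹ * u * g) (m2 u hu) ?_
  · refine key.imp (fun e1 => ?_) fun e1 d hd => ?_
    · calc u = g * (g⁻¹ * u * g) * g⁻¹ := by group
        _ = 1 := by rw [e1]; group
    · calc n * d = g * (g⁻¹ * n * g * (g⁻¹ * d * g)) * g⁻¹ := by group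
        _ = d * n := by rw [e1 _ (m2 d hd)]; group
  · have h1 : e * cjRep R G g⁻¹ j - cjRep R G g⁻¹ j = cjRep R G g⁻¹ (e * j - j) := by
      rw [map_sub, cjRep_mul, fixedBy_top_iff.2 he _ trivial]
    rw [h1, frpg_brT_cj (S := ((D.map (MulAut.conj g).toMonoidHom : Subgroup G) : Set G)) g⁻¹
      (fun s hs => by rw [inv_inv]; exact m2 s hs) (fun s hs => by rw [inv_inv]; exact m1 s hs)]
    exact idem_inMax_map _ hb
  · intro z hz1 hz2
    have h1 := frpg_nilR_cj g⁻¹ (hz (cjRep R G g z) (frpg_supp_cj hz1 m2)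
      (frpg_fix_cj hz2 fun t ht s hs => ?_))
    · rwa [cjRep_mul, map_sub, frpg_inv_cj, frpg_cj_cj, frpg_cj_cj] at h1
    · calc s * (g⁻¹ * t * g) = g⁻¹ * (g * s * g⁻¹ * t) * g := by group
        _ = g⁻¹ * t * g * s := by rw [ht _ (m1 s hs)]; group
  · calc g⁻¹ * n * g * (g⁻¹ * u * g) = g⁻¹ * (n * u) * g := by group
      _ = _ := by rw [hnu]; group

/-- Let `br` be the truncation to the centraliser of `T = D.map L.subtype`, `j' = inc j`.  Modulo
the maximal ideal `br (inc e') * j' = j'` and `br e * br (inc e') = br (inc e')` (`brT_mul`,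
`brT_mul_right`), so `br e * j' = j'`.  Elements supported on the centraliser of `T` come from `L`
(`inc_pull`, `pull_cjRep`). -/
lemma FreeB.local (hp : p.Prime) (hpR : (p : R) ∈ maximalIdeal R) {L : Subgroup G} [Fintype L]
    {D : Subgroup L} (hD : IsPGroup p D) (h : FreeB e (D.map L.subtype))
    (hC : Subgroup.centralizer ((D.map L.subtype : Subgroup G) : Set G) ≤ L)
    (he : ∀ b, e * b = b * e) {e' : MonoidAlgebra R L} (he' : ∀ b, e' * b = b * e')
    (hb : InMax R (brT R ((D.map L.subtype : Subgroup G) : Set G)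
      (e * inc R L.subtype e' - inc R L.subtype e'))) : FreeB e' D := by
  intro j n hn hj h0 hs hb' hz u hu hnu
  have hTL : D.map L.subtype ≤ L := Subgroup.map_subtype_le D
  have hs' : SuppCent ((D.map L.subtype : Subgroup G) : Set G) (inc R L.subtype j) := by
    refine frchar_supp_inc fun y hy s hs1 => ?_
    obtain ⟨t, ht, rfl⟩ := hs1
    exact congrArg Subtype.val (hs y hy t ht)
  have key := h (inc R L.subtype j) n (Subgroup.le_normalizer_map L.subtype ⟨n, hn, rfl⟩)
    (by rw [← map_mul, hj])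
    (fun e0 => h0 (by rw [← pull_inc (R := R) L.subtype_injective j, e0, map_zero])) hs' ?_ ?_
    u ⟨u, hu, rfl⟩ (congrArg Subtype.val hnu)
  · exact key.imp (fun e1 => Subtype.ext e1) fun e1 d hd => Subtype.ext (e1 d ⟨d, hd, rfl⟩)
  · have h1 := idem_inMax_map (inc R L.subtype).toLinearMap hb'
    rw [AlgHom.toLinearMap_apply, ← frchar_brT_inc, map_sub, map_mul, map_sub, brT_mul_right hs',
      brT_of_suppCent hs'] at h1
    have h2 := brT_mul hp hpR (hD.map L.subtype) (frchar_fix_cent he _) (frchar_fix_inc he' hTL)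
    rw [map_sub] at hb
    rw [map_sub, brT_mul_right hs', brT_of_suppCent hs']
    generalize brT R ((D.map L.subtype : Subgroup G) : Set G) e = E at *
    generalize brT R ((D.map L.subtype : Subgroup G) : Set G) (inc R L.subtype e') = A at *
    generalize brT R ((D.map L.subtype : Subgroup G) : Set G) (e * inc R L.subtype e') = X at *
    generalize inc R L.subtype j = J at *
    have e1 : E * J - J = (X - A) * J - (X - E * A) * J + (A * J - J) - E * (A * J - J) := by
      noncomm_ring
    rw [e1]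
    exact sub_mem (add_mem (sub_mem (idem_inMax_mul_right J hb) (idem_inMax_mul_right J h2)) h1)
      (idem_inMax_mul_left E h1)
  · intro z hz1 hz2
    have h1 : inc R L.subtype (pull R L.subtype z) = z :=
      inc_pull L.subtype_injective (frchar_supp_range hC hz1)
    have h2 := (hz (pull R L.subtype z) (fun y hy s hs1 => ?_) fun c hc => ?_).map
      (inc R L.subtype)
    · rwa [map_mul, map_sub, frchar_inc_cj, h1] at h2
    · rw [coeff_pull] at hy
      exact Subtype.ext (hz1 _ hy s ⟨s, hs1, rfl⟩)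
    · rw [← pull_cjRep, hz2]
      rintro _ ⟨t, ht, rfl⟩
      exact congrArg Subtype.val (hc t ht)

end ring

variable {G : Type} [Group G] [Fintype G] {V : ValuationSubring ℂ} {p : ℕ} [Fact p.Prime]
  {I : IrrData G} {i : Fin I.n} {e : MonoidAlgebra V G}

omit [Fintype G] in
lemma frchar_cf_sub (a b : MonoidAlgebra V G) : cf (a - b) = cf a - cf b := by
  funext x
  simp [cf]

omit [Fintype G] in
lemma frchar_cf_smul (v : V) (a : MonoidAlgebra V G) : cf (v • a) = (v : ℂ) • cf a := by
  funext x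
  simp [cf]

lemma frchar_om_mul (I : IrrData G) (l : Fin I.n) {a b : MonoidAlgebra V G}
    (ha : ∀ c, a * c = c * a) (hb : ∀ c, b * c = c * b) :
    I.om l (cf (a * b)) = I.om l (cf a) * I.om l (cf b) := by
  rw [cf_mul, I.om_conv l (isCF_cf_iff.2 ha) (isCF_cf_iff.2 hb)]

omit [Fact p.Prime] in
/-- Otherwise choose for every `l` a central `z l` that is nilpotent on `j` with `om l (z l)` a
unit `c l`.  Then `w = ∏ (c l - z l)` is central and killed by all central characters, so nilpotent
(`nilR_of_om`), while `w * j` is a unit multiple of `j` up to a nilpotent element commuting with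
`j`.  So `j` is nilpotent, hence zero (`NilR.eq_zero`). -/
lemma exists_om_of_idem (I : IrrData G) {j : MonoidAlgebra V G} (hj : j * j = j) (h0 : j ≠ 0) :
    ∃ l, ∀ z : MonoidAlgebra V G, (∀ b, z * b = b * z) → NilR V (z * j) →
      I.om l (cf z) ∈ V.nonunits := by
  classical
  by_contra hno
  have h1 : ∀ l, ∃ z : MonoidAlgebra V G, (∀ b, z * b = b * z) ∧ NilR V (z * j) ∧
      I.om l (cf z) = 1 := by
    intro l
    by_contra h2
    refine hno ⟨l, fun z hz hn => ?_⟩
    by_contra h3
    refine h2 ⟨(⟨_, inv_mem_of_not_nonunit h3⟩ : V) • z, fun b => ?_, ?_, ?_⟩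
    · rw [smul_mul_assoc, mul_smul_comm, hz]
    · rw [smul_mul_assoc]
      exact hn.smul _
    · rw [frchar_cf_smul, I.om_smul]
      exact inv_mul_cancel₀ fun e0 => h3 (e0 ▸ zero_mem _)
  have h2 : ∀ s : Finset (Fin I.n), ∃ w : MonoidAlgebra V G, (∀ b, w * b = b * w) ∧
      NilR V (j - w * j) ∧ ∀ l ∈ s, I.om l (cf w) = 0 := by
    intro s
    induction s using Finset.induction_on with
    | empty => exact ⟨1, fun b => by rw [one_mul, mul_one], ⟨1, by
        rw [one_mul, sub_self, pow_one]; exact Submodule.zero_mem _⟩, fun l hl => absurd hl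
        (Finset.notMem_empty l)⟩
    | insert k s _ ih =>
      obtain ⟨w, hw, hn, ho⟩ := ih
      obtain ⟨z, hz, hzn, hzo⟩ := h1 k
      have hz' : ∀ b, (1 - z) * b = b * (1 - z) := fun b => by
        rw [sub_mul, mul_sub, one_mul, mul_one, hz]
      refine ⟨w * (1 - z), fun b => by rw [mul_assoc, hz', ← mul_assoc, hw, mul_assoc], ?_,
        fun l hl => ?_⟩
      · have cw : ∀ b, Commute w b := hw
        have cz : ∀ b, Commute z b := hz
        have e1 : j - w * (1 - z) * j = (j - w * j) + z * j * w := by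
          rw [← hw (z * j), mul_sub, mul_one, sub_mul, mul_assoc]
          abel
        rw [e1]
        refine hn.add (hzn.mul_right (hw _).symm) ?_
        have c1 : Commute j (z * j * w) :=
          ((cz j).symm.mul_right (Commute.refl j)).mul_right (cw j).symm
        exact (c1.sub_left ((cw _).mul_left c1)).eq
      · rw [frchar_om_mul I l hw hz']
        rcases Finset.mem_insert.1 hl with rfl | hl
        · rw [frchar_cf_sub, I.om_sub, blkE_cf_one, I.om_one, hzo, sub_self, mul_zero]
        · rw [ho l hl, zero_mul]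
  obtain ⟨w, hw, hn, ho⟩ := h2 Finset.univ
  have h3 : NilR V (w * j) :=
    (nilR_of_om I hw fun l => by rw [ho l (Finset.mem_univ l)]; exact zero_mem _).mul_right (hw j)
  have cw : ∀ b, Commute w b := hw
  have c1 : Commute j (w * j) := (cw j).symm.mul_right (Commute.refl j)
  have h4 := hn.add h3 (c1.sub_left (Commute.refl _)).eq
  rw [sub_add_cancel] at h4
  exact h0 (h4.eq_zero hj)

omit [Fact p.Prime] in
/-- `nilR_of_om`, `blkE_om_mul`, `om_mem_Lam`. -/
lemma IsBlockIdem.nil_sub (he : IsBlockIdem I i e) {z : MonoidAlgebra V G}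
    (hz : ∀ b, z * b = b * z) {v : V} (hv : I.om i (cf z) - v ∈ V.nonunits) :
    NilR V (z * e - v • e) := by
  have hc := he.isBlock.cent
  have hz' := isCF_cf_iff.2 hz
  refine nilR_of_om I (fun b => ?_) fun l => ?_
  · rw [sub_mul, mul_sub, smul_mul_assoc, mul_smul_comm, hc b, mul_assoc, hc b, ← mul_assoc,
      hz b, mul_assoc]
  · rw [frchar_cf_sub, frchar_cf_smul, I.om_sub, I.om_smul, blkE_om_mul he hz', he, I.om_zf,
      ← sub_mul]
    by_cases hl : I.Bl V i l
    · rw [ind_pos hl, mul_one]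
      have h1 := add_mem (hl _ (I.om_mem_Lam hz' (cf_mem z))) hv
      rwa [sub_add_sub_cancel] at h1
    · rw [ind_neg hl, mul_zero]
      exact zero_mem _

/-- `z = pull L.subtype (brT P e)` is central in the group algebra of `L`, idempotent modulo the
maximal ideal (`brT_mul`), and `om i' z` is congruent to `1` (`IndV.om`, `IrrData.om_nil`,
`blkF_om_self`).  So `z e' - e'` is nilpotent (`IsBlockIdem.nil_sub`) and `e' - z e'` is idempotent
modulo the maximal ideal, so it lies in it.  Finally `brT P (e * inc e')` is congruent to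
`brT P e * brT P (inc e') = brT P (brT P e * inc e')`. -/
theorem IndV.below (hp : (p : ℂ) ∈ V.nonunits) (he : IsBlockIdem I i e) {P L : Subgroup G}
    [Fintype L] (hP : IsPGroup p P) (hPL : P ≤ L) (hL : L ≤ Subgroup.normalizer (P : Set G))
    (hC : ∀ g, (∀ u ∈ P, u * g = g * u) → g ∈ L) {I' : IrrData L} {i' : Fin I'.n}
    (hi : IndV V I i I' i') {e' : MonoidAlgebra V L} (he' : IsBlockIdem I' i' e') :
    InMax V (brT V (P : Set G) (e * inc V L.subtype e' - inc V L.subtype e')) := by
  have hpp : p.Prime := Fact.out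
  have hb := he.isBlock
  have hb' := he'.isBlock
  have hCL : Subgroup.centralizer (P : Set G) ≤ L := fun g hg => hC g hg
  have hsup := frchar_supp_range hCL (suppCent_brT (P : Set G) e)
  obtain ⟨z, hz⟩ : ∃ z, z = pull V L.subtype (brT V (P : Set G) e) := ⟨_, rfl⟩
  have h1 : inc V L.subtype z = brT V (P : Set G) e := by
    rw [hz]
    exact inc_pull L.subtype_injective hsup
  have h2 : ∀ b, z * b = b * z := by
    refine fixedBy_top_iff.1 fun a _ => ?_
    rw [hz, ← pull_cjRep, ← frpg_brT_cj (S' := (P : Set G)), fixedBy_top_iff.2 hb.cent _ trivial]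
    · exact fun s hs => (Subgroup.mem_normalizer_iff.1 (hL a.2) s).1 hs
    · exact fun s hs => (Subgroup.mem_normalizer_iff''.1 (hL a.2) s).1 hs
  have h3 : I'.om i' (cf z) - ((1 : V) : ℂ) ∈ V.nonunits := by
    have hcf := isCF_cf_iff.2 hb.cent
    have h4 := hi.om hcf (cf_mem e)
    rw [blkF_om_self he] at h4
    have : (P.subgroupOf L).Normal := (Subgroup.normal_subgroupOf_iff_le_normalizer hPL).2 hL
    have h5 := I'.om_nil hp i' (P.subgroupOf L) hP.comap_subtype
      (blkF_isCF_sub (hcf.res L) (isCF_cf_iff.2 h2))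
      (fun x => sub_mem (cf_mem e _) (cf_mem z _)) fun x hx => by
        rw [Pi.sub_apply, res, sub_eq_zero, hz, cf, cf, coeff_pull, coeff_brT, if_pos]
        · rfl
        · exact fun s hs => (congrArg Subtype.val (hx ⟨s, hPL hs⟩ hs)).symm
    rw [I'.om_sub] at h5
    have h6 := sub_mem h4 h5
    rwa [sub_sub_sub_cancel_left] at h6
  have h4 := blkF_nil_res (he'.nil_sub h2 h3)
  rw [one_smul, map_sub] at h4
  have h5 : toRes V L (z * z) = toRes V L z := by
    have h6 := idem_inMax_map (pull V L.subtype) (brT_mul hpp (blkF_pmem hp) hP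
      (frchar_fix_cent hb.cent P) (frchar_fix_cent hb.cent P))
    rw [hb.idem, map_sub, pull_mul_left L.subtype_injective hsup, ← hz, ← toRes_eq_zero_iff,
      map_sub, sub_eq_zero] at h6
    exact h6.symm
  have h6 : toRes V L (z * e') = toRes V L e' := by
    refine blkF_idem_eq ?_ (by rw [← map_mul, hb'.idem]) (by rw [← map_mul, ← map_mul, hb'.cent])
      h4
    rw [← map_mul, mul_assoc, ← mul_assoc e', hb'.cent z, mul_assoc, hb'.idem, ← mul_assoc,
      map_mul, h5, map_mul]
  rw [← sub_eq_zero, ← map_sub, toRes_eq_zero_iff] at h6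
  have h7 := idem_inMax_map (brT V (P : Set G)) (idem_inMax_map (inc V L.subtype).toLinearMap h6)
  rw [AlgHom.toLinearMap_apply, map_sub, map_mul, h1, map_sub,
    brT_mul_left (suppCent_brT (P : Set G) e)] at h7
  have h8 := add_mem (brT_mul hpp (blkF_pmem hp) hP (frchar_fix_cent hb.cent P)
    (frchar_fix_inc hb'.cent hPL)) h7
  rw [sub_add_sub_cancel, ← map_sub] at h8
  exact h8

/-- Let `Z` be the class sum of `x` and `v = om i Z`.  `Z e - v e` is nilpotent; apply the Brauer
homomorphism and multiply by `j`. -/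
lemma indV_of_below (hp : (p : ℂ) ∈ V.nonunits) (he : IsBlockIdem I i e) {D C : Subgroup G}
    [Fintype C] (hD : IsPGroup p D) (hC : C = Subgroup.centralizer (D : Set G))
    {j : MonoidAlgebra V G} (hs : SuppCent (D : Set G) j)
    (hb : InMax V (brT V (D : Set G) (e * j - j))) {I' : IrrData C} {l : Fin I'.n}
    (hl : ∀ z : MonoidAlgebra V C, (∀ b, z * b = b * z) → NilR V (z * pull V C.subtype j) →
      I'.om l (cf z) ∈ V.nonunits) : IndV V I i I' l := by
  intro x
  have hpp : p.Prime := Fact.out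
  have hr : ∀ g, g ∈ C.subtype.range ↔ ∀ u ∈ D, g * u = u * g := fun g => by
    rw [Subgroup.range_subtype, hC]
    exact frpg_cent.symm
  have hmul : ∀ b b' : MonoidAlgebra V G, (∀ c, b * c = c * b) → (∀ c, b' * c = c * b') →
      toRes V C (pull V C.subtype (b * b')) =
        toRes V C (pull V C.subtype b) * toRes V C (pull V C.subtype b') := fun b b' h h' =>
    pull_mul_brauer hpp (blkF_pmem hp) hD C.subtype_injective hr (frchar_fix_cent h D)
      (frchar_fix_cent h' D)
  have hone : pull V C.subtype (1 : MonoidAlgebra V G) = 1 := by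
    rw [← map_one (inc V C.subtype), pull_inc C.subtype_injective]
  have hx : IsCF (ind (IsConj x)) := isCF_ind (isConj_conj_iff x)
  obtain ⟨Z, hZ⟩ := exists_cf (V := V) (ind_mem V (IsConj x))
  have hZc : ∀ b, Z * b = b * Z := isCF_cf_iff.1 (hZ ▸ hx)
  obtain ⟨v, hv⟩ : ∃ v : V, (v : ℂ) = I.om i (ind (IsConj x)) :=
    ⟨⟨_, I.om_mem i hx (ind_mem V _)⟩, rfl⟩
  have hec := he.isBlock.cent
  have hy : ∀ b, (Z - v • 1) * b = b * (Z - v • 1) := fun b => by
    rw [sub_mul, mul_sub, smul_mul_assoc, mul_smul_comm, one_mul, mul_one, hZc]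
  have hye : ∀ b, (Z - v • 1) * e * b = b * ((Z - v • 1) * e) := fun b => by
    rw [mul_assoc, hec, ← mul_assoc, hy, mul_assoc]
  have h1 : NilR V ((Z - v • 1) * e) := by
    rw [sub_mul, smul_mul_assoc, one_mul]
    exact he.nil_sub hZc (by rw [hZ, hv, sub_self]; exact zero_mem _)
  have h2 : NilR V (pull V C.subtype ((Z - v • 1) * e)) := by
    obtain ⟨n, hn⟩ := h1
    refine ⟨n, ?_⟩
    have h3 := idem_inMax_map (pull V C.subtype) hn
    rw [← toRes_eq_zero_iff] at h3 ⊢
    rw [← h3, map_pow]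
    clear h3 hn
    induction n with
    | zero => rw [pow_zero, pow_zero, hone, map_one]
    | succ n ih =>
      rw [pow_succ, pow_succ, hmul _ _ (fun c => (Commute.pow_left (hye c) n).eq) hye, ih]
  have h3 : InMax V (pull V C.subtype e * pull V C.subtype j - pull V C.subtype j) := by
    have h4 := idem_inMax_map (pull V C.subtype) hb
    have h5 : pull V C.subtype (brT V (D : Set G) (e * j - j)) = pull V C.subtype (e * j - j) := by
      ext y
      rw [coeff_pull, coeff_pull, coeff_brT, if_pos]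
      exact (hr _).1 ⟨y, rfl⟩
    rwa [h5, map_sub, pull_mul_right C.subtype_injective e
      fun g hg => (hr g).2 (hs g hg)] at h4
  have h4 : NilR V (pull V C.subtype (Z - v • 1) * pull V C.subtype j) := by
    have h5 := (h2.mul_right (frchar_pull_cent C.subtype hye (pull V C.subtype j))).add_inMax
      (y := pull V C.subtype (Z - v • 1) * pull V C.subtype j -
        pull V C.subtype ((Z - v • 1) * e) * pull V C.subtype j) (by
          rw [← toRes_eq_zero_iff, map_sub, sub_eq_zero] at h3 ⊢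
          rw [map_mul, map_mul, hmul _ _ hy hec, mul_assoc, ← map_mul _ (pull V C.subtype e), h3])
    rwa [add_sub_cancel] at h5
  have h5 := hl _ (frchar_pull_cent C.subtype hy) h4
  rw [map_sub, map_smul, hone, frchar_cf_sub, frchar_cf_smul, I'.om_sub, I'.om_smul, blkE_cf_one,
    I'.om_one, mul_one, hv] at h5
  have h6 : cf (pull V C.subtype Z) = res C (ind (IsConj x)) := by
    funext y
    rw [← hZ, cf, coeff_pull]
    rfl
  rwa [h6] at h5

/-- Take `ψ = I'.χ l` with `l` from `exists_om_of_idem` for `pull j`; `kr1b_indTo_iff`,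
`indV_of_below`.  For the stability apply the hypothesis to the class sum `z` of `x` in the
centraliser; compare the proof of `kr1b_indTo_iff` for `omega` and `om` (`om_ind_int`). -/
theorem freeB_of_freeInertia (hp : (p : ℂ) ∈ V.nonunits) {M : Ideal (integralClosure ℤ ℂ)}
    (hV : ∀ a : ℂ, IsIntegral ℤ a → (InIdeal M a ↔ a ∈ V.nonunits)) (he : IsBlockIdem I i e)
    {D : Subgroup G} (hD : IsPGroup p D) (h : FreeInertia M (I.χ i) D) : FreeB e D := by
  intro j n hn hj h0 hs hb hz u hu hnu
  let _ : Fintype (Subgroup.centralizer (D : Set G)) := Fintype.ofFinite _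
  obtain ⟨I'⟩ := exists_irrData (Subgroup.centralizer (D : Set G))
  have hinj := (Subgroup.centralizer (D : Set G)).subtype_injective
  have hsup := frchar_supp_range le_rfl hs
  have hj0 := inc_pull hinj hsup
  obtain ⟨l, hl⟩ := exists_om_of_idem I' (j := pull V (Subgroup.centralizer (D : Set G)).subtype j)
    (by rw [← pull_mul_left hinj hsup, hj]) (fun e0 => h0 (by rw [← hj0, e0, map_zero]))
  have hind := indV_of_below hp he hD rfl hs hb hl
  refine (h (I'.χ l) ((isIrrChar_iff I').2 ⟨l, rfl⟩) ((kr1b_indTo_iff hV I i I' l).2 hind) n hn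
    (fun x => ?_) u hu hnu).imp id fun e1 d hd => (e1 d hd).symm
  have hσ : ∀ y : Subgroup.centralizer (D : Set G),
      n⁻¹ * y * n ∈ Subgroup.centralizer (D : Set G) := by
    intro y s hs1
    have h1 := y.2 _ ((Subgroup.mem_normalizer_iff.1 hn s).1 hs1)
    calc s * (n⁻¹ * y * n) = n⁻¹ * (n * s * n⁻¹ * y) * n := by group
      _ = n⁻¹ * y * n * s := by rw [h1]; group
  have hS : ∀ y : Subgroup.centralizer (D : Set G),
      (∃ z : Subgroup.centralizer (D : Set G), IsConj x z ∧ (y : G) = n * z * n⁻¹) ↔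
        IsConj x ⟨_, hσ y⟩ := by
    intro y
    constructor
    · rintro ⟨z, hz1, hz2⟩
      have h1 : (⟨_, hσ y⟩ : Subgroup.centralizer (D : Set G)) = z :=
        Subtype.ext (show n⁻¹ * y * n = z by rw [hz2]; group)
      rwa [h1]
    · intro h1
      exact ⟨_, h1, show (y : G) = n * (n⁻¹ * y * n) * n⁻¹ by group⟩
  have hS' : ∀ c y : Subgroup.centralizer (D : Set G),
      (∃ z : Subgroup.centralizer (D : Set G), IsConj x z ∧
        ((c * y * c⁻¹ : Subgroup.centralizer (D : Set G)) : G) = n * z * n⁻¹) ↔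
      ∃ z : Subgroup.centralizer (D : Set G), IsConj x z ∧ (y : G) = n * z * n⁻¹ := by
    intro c y
    rw [hS, hS, ← isConj_conj_iff x ⟨_, hσ c⟩ ⟨_, hσ y⟩]
    refine iff_of_eq (congrArg _ (Subtype.ext ?_))
    change n⁻¹ * (c * y * (c : G)⁻¹) * n = n⁻¹ * c * n * (n⁻¹ * y * n) * (n⁻¹ * c * n)⁻¹
    group
  rw [omega_eq, omega_eq, hV _ ((I'.om_ind_int l _ (isConj_conj_iff x)).sub
    (I'.om_ind_int l _ hS')), ← I'.om_sub]
  obtain ⟨z, hz0⟩ := exists_cf (V := V) (ind_mem V (IsConj x))
  have hzc : ∀ b, z * b = b * z := isCF_cf_iff.1 (hz0 ▸ isCF_ind (isConj_conj_iff x))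
  have hz1 : SuppCent (D : Set G) (inc V (Subgroup.centralizer (D : Set G)).subtype z) :=
    frchar_supp_inc fun y _ s hs1 => (y.2 s hs1).symm
  have h1 := hz _ hz1 (frchar_fix_inc hzc le_rfl)
  have hz2 : SuppCent (D : Set G) (inc V (Subgroup.centralizer (D : Set G)).subtype z -
      cjRep V G n (inc V (Subgroup.centralizer (D : Set G)).subtype z)) :=
    mem_centAlg.1 (sub_mem (mem_centAlg.2 hz1) (mem_centAlg.2 (frpg_supp_cj hz1
      fun s hs1 => (Subgroup.mem_normalizer_iff''.1 hn s).1 hs1)))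
  rw [← inc_pull hinj (frchar_supp_range le_rfl hz2), ← hj0, ← map_mul] at h1
  have h2 : cf (pull V (Subgroup.centralizer (D : Set G)).subtype
      (inc V (Subgroup.centralizer (D : Set G)).subtype z -
        cjRep V G n (inc V (Subgroup.centralizer (D : Set G)).subtype z))) = ind (IsConj x) -
      ind fun y : Subgroup.centralizer (D : Set G) =>
        ∃ z : Subgroup.centralizer (D : Set G), IsConj x z ∧ (y : G) = n * z * n⁻¹ := by
    rw [map_sub, pull_inc hinj, frchar_cf_sub, hz0]
    refine congrArg _ (funext fun y => ?_)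
    have h3 : cf (pull V (Subgroup.centralizer (D : Set G)).subtype
        (cjRep V G n (inc V (Subgroup.centralizer (D : Set G)).subtype z))) y =
        cf z ⟨_, hσ y⟩ := by
      rw [cf, cf, coeff_pull, coeff_cjRep, ← coeff_inc hinj z ⟨_, hσ y⟩]
      rfl
    rw [h3, hz0]
    by_cases h4 : IsConj x ⟨_, hσ y⟩
    · rw [ind_pos h4, ind_pos]
      exact (hS y).2 h4
    · rw [ind_neg h4, ind_neg]
      exact fun h5 => h4 ((hS y).1 h5)
  rw [← h2]
  refine hl _ (isCF_cf_iff.1 ?_) (frchar_nil_of_inc h1)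
  rw [h2]
  exact blkF_isCF_sub (isCF_ind (isConj_conj_iff x)) (isCF_ind hS')

end Pool.Agent.Lib.MP_b6945b_al.St
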