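import Pool.Agent.Lib.MP_b6945b_al.St.Trunc
import Pool.Agent.Lib.MP_b6945b_al.St.Bouc

set_option autoImplicit false

/-!
Interior algebras over an abelian `p`-group: definitions.
-/

namespace Pool.Agent.Lib.MP_b6945b_al.St

open IsLocalRing
open MonoidAlgebra (single)

/-- Standing hypotheses on the coefficient ring and the group `D`. -/
structure Std (p : ℕ) (R D : Type) [CommRing R] [IsLocalRing R] [Group D] : Prop where
  split : MonicSplit R
  prime : p.Prime
  pR : (p : R) ∈ maximalIdeal R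
  pD : IsPGroup p D

section spans

variable {R Γ M : Type} [CommRing R] [Group Γ] [Fintype Γ] [AddCommGroup M] [Module R M]

/-- The span of the relative traces to `T` from subgroups satisfying `Pr`. -/
def trSpan (ρ : Representation R Γ M) (Pr : Subgroup Γ → Prop) (T : Subgroup Γ) : Submodule R M :=
  Submodule.span R {x | ∃ S m, Pr S ∧ S ≤ T ∧ FixedBy ρ S m ∧ x = rtr ρ S T m}

/-- The span of the relative traces to `T` of invariant maps of rank one. -/
def rk1span (ρ : Representation R Γ M) (Pr : Subgroup Γ → Prop) (T : Subgroup Γ) :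
    Submodule R (M →ₗ[R] M) :=
  Submodule.span R {Θ | ∃ (S : Subgroup Γ) (f : M →ₗ[R] R) (a : M), Pr S ∧ S ≤ T ∧
    (∀ g ∈ S, ∀ m, f (ρ g m) = f m) ∧ FixedBy ρ S a ∧
    Θ = rtr (ρ.linHom ρ) S T (f.smulRight a)}

/-- The kernel of the Brauer map at `T`. -/
def brK [IsLocalRing R] (ρ : Representation R Γ M) (T : Subgroup Γ) : Submodule R M :=
  trSpan ρ (· < T) T ⊔ maximalIdeal R • bouc_fix ρ T

end spans

section interior

variable {R D A : Type} [CommRing R] [CommGroup D] [Ring A] [Algebra R A]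

variable (R) in
/-- Left multiplication. -/
def lI (δ : D →* A) : Representation R D A where
  toFun u := LinearMap.mulLeft R (δ u)
  map_one' := LinearMap.ext fun a => by simp
  map_mul' u v := LinearMap.ext fun a => by simp

lemma lI_apply (δ : D →* A) (u : D) (x : A) : lI R δ u x = δ u * x := rfl

variable (R) in
/-- Two-sided multiplication. -/
def biI (δ : D →* A) : Representation R (D × D) A where
  toFun g := LinearMap.mulLeft R (δ g.1) ∘ₗ LinearMap.mulRight R (δ g.2⁻¹)
  map_one' := LinearMap.ext fun a => by simp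
  map_mul' g h := LinearMap.ext fun a => by
    simp only [Prod.fst_mul, Prod.snd_mul, mul_inv_rev, map_mul, LinearMap.comp_apply,
      LinearMap.mulLeft_apply, LinearMap.mulRight_apply, Module.End.mul_apply, mul_assoc]

lemma biI_apply (δ : D →* A) (g : D × D) (x : A) : biI R δ g x = δ g.1 * (x * δ g.2⁻¹) := rfl

variable (R) in
/-- Conjugation. -/
def cjI (δ : D →* A) : Representation R D A where
  toFun u := LinearMap.mulLeft R (δ u) ∘ₗ LinearMap.mulRight R (δ u⁻¹)
  map_one' := LinearMap.ext fun a => by simp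
  map_mul' g h := LinearMap.ext fun a => by
    simp only [mul_inv_rev, map_mul, LinearMap.comp_apply,
      LinearMap.mulLeft_apply, LinearMap.mulRight_apply, Module.End.mul_apply, mul_assoc]

lemma cjI_apply (δ : D →* A) (u : D) (x : A) : cjI R δ u x = δ u * (x * δ u⁻¹) := rfl

lemma delta_mul_inv (δ : D →* A) (u : D) : δ u * δ u⁻¹ = 1 := by
  rw [← map_mul, mul_inv_cancel, map_one]

lemma delta_inv_mul (δ : D →* A) (u : D) : δ u⁻¹ * δ u = 1 := by
  rw [← map_mul, inv_mul_cancel, map_one]

lemma delta_comm (δ : D →* A) (u v : D) : δ u * δ v = δ v * δ u := by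
  rw [← map_mul, mul_comm, map_mul]

lemma cjI_mul (δ : D →* A) (u : D) (x y : A) :
    cjI R δ u (x * y) = cjI R δ u x * cjI R δ u y := by
  simp only [cjI_apply, mul_assoc]
  rw [← mul_assoc (δ u⁻¹), delta_inv_mul, one_mul]

lemma fixedBy_cjI_iff {δ : D →* A} {S : Subgroup D} {a : A} :
    FixedBy (cjI R δ) S a ↔ ∀ u ∈ S, δ u * a = a * δ u := by
  refine forall₂_congr fun u _ => ?_
  rw [cjI_apply]
  constructor
  · intro h
    calc δ u * a = δ u * (a * δ u⁻¹) * δ u := by
          rw [mul_assoc, mul_assoc, delta_inv_mul, mul_one]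
      _ = a * δ u := by rw [h]
  · intro h
    rw [← mul_assoc, h, mul_assoc, delta_mul_inv, mul_one]

variable (R) in
/-- The algebra map from the group algebra. -/
noncomputable def hatI (δ : D →* A) : MonoidAlgebra R D →ₐ[R] A := MonoidAlgebra.lift R A D δ

lemma hatI_single (δ : D →* A) (u : D) (r : R) : hatI R δ (single u r) = r • δ u := by
  simp [hatI]

variable (R D) in
/-- The augmentation. -/
noncomputable def augI : MonoidAlgebra R D →ₐ[R] R := hatI R (1 : D →* R)

variable (R) in
/-- The subalgebra of elements commuting with a subgroup. -/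
def fixI (δ : D →* A) (S : Subgroup D) : Subalgebra R A where
  carrier := {a | FixedBy (cjI R δ) S a}
  mul_mem' := fun ha hb g hg => by rw [cjI_mul, ha g hg, hb g hg]
  add_mem' := fun ha hb g hg => by rw [map_add, ha g hg, hb g hg]
  algebraMap_mem' := fun r => fixedBy_cjI_iff.2 fun u _ => (Algebra.commutes r (δ u)).symm

lemma mem_fixI {δ : D →* A} {S : Subgroup D} {a : A} :
    a ∈ fixI R δ S ↔ FixedBy (cjI R δ) S a := Iff.rfl

variable (R) in
/-- Biadditive maps balanced over the group algebra of `D`. -/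
structure Bal (δ : D →* A) {N : Type} [AddCommGroup N] (β : A → A → N) : Prop where
  add_left : ∀ x x' y, β (x + x') y = β x y + β x' y
  add_right : ∀ x y y', β x (y + y') = β x y + β x y'
  mid : ∀ x y u, β (x * δ u) y = β x (δ u * y)
  smul : ∀ (r : R) x y, β (r • x) y = β x (r • y)

variable (R) in
/-- `∑ x i ⊗ y i` is an invariant element of the tensor square over the group algebra of `D`. -/
def SepI (δ : D →* A) {ι : Type} [Fintype ι] (x y : ι → A) : Prop :=
  ∀ (N : Type) [AddCommGroup N] (β : A → A → N), Bal R δ β →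
    ∀ a, ∑ i, β (a * x i) (y i) = ∑ i, β (x i) (y i * a)

/-- The diagonal of `S` twisted by `ψ`. -/
def dg (ψ : MulAut D) (S : Subgroup D) : Subgroup (D × D) :=
  S.map (ψ.toMonoidHom.prod (MonoidHom.id D))

lemma mem_dg {ψ : MulAut D} {S : Subgroup D} {g : D × D} :
    g ∈ dg ψ S ↔ g.2 ∈ S ∧ g.1 = ψ g.2 := by
  constructor
  · rintro ⟨u, hu, rfl⟩
    exact ⟨hu, rfl⟩
  · rintro ⟨h1, h2⟩
    exact ⟨g.2, h1, Prod.ext h2.symm rfl⟩

/-- Monoid homomorphisms to a ring (this fixes the instance path for corner types). -/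
abbrev IntHom (D A : Type) [CommGroup D] [Ring A] : Type := D →* A

/-- The corner of an interior algebra. -/
def cornerI (δ : D →* A) {e : A} (he : IsIdempotentElem e) (hc : ∀ u, δ u * e = e * δ u) :
    IntHom D he.Corner where
  toFun u := ⟨δ u * e, (Subsemigroup.mem_corner_iff he).2
    ⟨by rw [← mul_assoc, ← hc, mul_assoc, he.eq], by rw [mul_assoc, he.eq]⟩⟩
  map_one' := Subtype.ext (by
    change δ 1 * e = e
    rw [map_one, one_mul])
  map_mul' u v := Subtype.ext (by
    change δ (u * v) * e = δ u * e * (δ v * e)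
    rw [mul_assoc, ← mul_assoc e, ← hc, mul_assoc, he.eq, map_mul, mul_assoc])

lemma cornerI_val (δ : D →* A) {e : A} (he : IsIdempotentElem e) (hc : ∀ u, δ u * e = e * δ u)
    (u : D) : (cornerI δ he hc u).1 = δ u * e := rfl

scoped instance cornerFinite [Module.Finite R A] {e : A} (he : IsIdempotentElem e) :
    Module.Finite R he.Corner := corner_finite he

scoped instance cornerTorsionFree [Module.IsTorsionFree R A] {e : A} (he : IsIdempotentElem e) :
    Module.IsTorsionFree R he.Corner :=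
  Function.Injective.moduleIsTorsionFree (fun a : he.Corner => a.1) Subtype.val_injective
    fun _ _ => rfl

scoped instance subalgTorsionFree [Module.IsTorsionFree R A] (B : Subalgebra R A) :
    Module.IsTorsionFree R B :=
  Function.Injective.moduleIsTorsionFree (fun a : B => a.1) Subtype.val_injective fun _ _ => rfl

scoped instance matrixTorsionFree [Module.IsTorsionFree R A] (κ κ' : Type) :
    Module.IsTorsionFree R (Matrix κ κ' A) :=
  inferInstanceAs (Module.IsTorsionFree R (κ → κ' → A))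

variable [Fintype D]

variable (R) in
/-- `A` is the group algebra of `D` up to a part that is projective relative to `Q × D`. -/
structure HigI (δ : D →* A) (Q : Subgroup D) (r : A →ₗ[R] MonoidAlgebra R D) (t : A →ₗ[R] A) :
    Prop where
  r_left : ∀ u x, r (δ u * x) = single u 1 * r x
  r_right : ∀ u x, r (x * δ u) = r x * single u 1
  t_right : ∀ u x, t (x * δ u) = t x * δ u
  eq : ∀ x, x = hatI R δ (r x) + rtr ((lI R δ).linHom (lI R δ)) Q ⊤ t x

variable (R) in
/-- Separable interior algebras that are stably the group algebra of `D`. -/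
structure PreI (δ : D →* A) (Q : Subgroup D) : Prop where
  ne_top : Q ≠ ⊤
  cent : ∀ q ∈ Q, ∀ a, δ q * a = a * δ q
  sep : ∃ (ι : Type) (_ : Fintype ι) (x y : ι → A), SepI R δ x y ∧ ∑ i, x i * y i = 1
  hig : ∃ r t, HigI R δ Q r t

variable [IsLocalRing R]

variable (R) in
/-- The local case of `PreI`. -/
structure NilI (δ : D →* A) (Q : Subgroup D) : Prop extends PreI R δ Q where
  nt : ∀ a, NilR R (rtr (cjI R δ) Q ⊤ a)
  ne : ¬ InMax R (1 : A)

variable (R) in
/-- The kernel of the Brauer map for the conjugation action. -/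
abbrev trM (δ : D →* A) (S : Subgroup D) : Submodule R A := brK (cjI R δ) S

variable (R) in
/-- Below `J`, the Brauer quotient at `S` is a quotient of the group algebra of `D`. -/
def LG (δ : D →* A) (J : A) (S : Subgroup D) : Prop :=
  ∃ η, FixedBy (cjI R δ) ⊤ η ∧ J * η * J = η ∧ J - η ∈ trM R δ ⊤ ∧
    ∀ z, FixedBy (cjI R δ) S z → ∃ c, η * z * η - hatI R δ c * η ∈ trM R δ S

variable (R) in
/-- `ε` is a local idempotent with the same Brauer image as `J`. -/
structure MinI (δ : D →* A) (J ε : A) : Prop where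
  idem : IsIdempotentElem ε
  comm : ∀ u, δ u * ε = ε * δ u
  left : J * ε = ε
  right : ε * J = ε
  sub : J - ε ∈ trM R δ ⊤
  loc : ∀ z, FixedBy (cjI R δ) ⊤ z → ∃ c : R, NilR R (ε * z * ε - c • ε)
  nt : ∀ z ∈ trM R δ ⊤, NilR R (ε * z * ε)
  ne : ¬ InMax R ε

/-- The interior structure of the corner of a local idempotent. -/
def MinI.cor {δ : D →* A} {J ε : A} (h : MinI R δ J ε) : IntHom D h.idem.Corner :=
  cornerI δ h.idem h.comm

variable (R) in
/-- Separability below `J`, with a Mackey property. -/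
def SP (δ : D →* A) (J : A) : Prop :=
  ∃ (ι : Type) (_ : Fintype ι) (x y : ι → A), SepI R δ x y ∧
    (∀ w ∈ trM R δ ⊤, ∑ i, x i * w * y i ∈ trM R δ ⊤) ∧
    ∃ (c : R) (N : ℕ), IsUnit c ∧ (∑ i, x i * J * y i - c • 1) ^ N * J ∈ trM R δ ⊤

variable (R) in
/-- The map `x ↦ a * x * b`. -/
def sandw (a b : A) : A →ₗ[R] A := LinearMap.mulLeft R a ∘ₗ LinearMap.mulRight R b

omit [CommGroup D] [Fintype D] [IsLocalRing R] in
lemma sandw_apply (a b x : A) : sandw R a b x = a * (x * b) := rfl

variable (R) in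
/-- Below `J`, the bimodule is of permutation type with stabilisers in `Pr`. -/
def PL (δ : D →* A) (J : A) (Pr : Subgroup (D × D) → Prop) : Prop :=
  ∃ I, FixedBy (cjI R δ) ⊤ I ∧ J - I ∈ trM R δ ⊤ ∧ sandw R I I ∈ rk1span (biI R δ) Pr ⊤

variable (R) in
/-- The data available on the corner of a local idempotent. -/
structure CorI (δ : D →* A) (Q : Subgroup D) (Pr : Subgroup (D × D) → Prop) : Prop where
  cent : ∀ q ∈ Q, ∀ a, δ q * a = a * δ q
  loc : ∀ z, FixedBy (cjI R δ) ⊤ z → ∃ c : R, NilR R (z - c • 1)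
  nt : ∀ z ∈ trM R δ ⊤, NilR R z
  ne : ¬ InMax R (1 : A)
  ls : ∀ S, Q ≤ S → ∀ z, FixedBy (cjI R δ) S z →
    ∃ c m, z = hatI R δ c + rtr (cjI R δ) Q S m
  pl : LinearMap.id ∈ rk1span (biI R δ) Pr ⊤
  sep : ∃ (ι : Type) (_ : Fintype ι) (x y : ι → A), SepI R δ x y ∧ ∑ i, x i * y i = 1

/-- One direction of a transport between the corners below `J` and `J'`. -/
structure TpHalf {R D A A' : Type} [CommRing R] [CommGroup D] [Ring A] [Algebra R A] [Ring A']
    [Algebra R A'] (ψ : MulAut D) (δ : D →* A) (δ' : D →* A') (J : A) (J' : A')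
    (Φ : A →ₗ[R] A') (Ψ : A' →ₗ[R] A) : Prop where
  idem : J * J = J
  comm : ∀ u, δ u * J = J * δ u
  mul : ∀ x y, Φ (x * J * y) = Φ x * Φ y
  one : Φ J = J'
  cut : ∀ x, J' * Φ x * J' = Φ x
  left : ∀ u x, Φ (δ u * x) = δ' (ψ u) * Φ x
  right : ∀ u x, Φ (x * δ u) = Φ x * δ' (ψ u)
  inv : ∀ y, Φ (Ψ y) = J' * y * J'

/-- A transport between the corners below `J` and `J'`. -/
def Tp {R D A A' : Type} [CommRing R] [CommGroup D] [Ring A] [Algebra R A] [Ring A']
    [Algebra R A'] (ψ : MulAut D) (δ : D →* A) (δ' : D →* A') (J : A) (J' : A')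
    (Φ : A →ₗ[R] A') (Ψ : A' →ₗ[R] A) : Prop :=
  TpHalf ψ δ δ' J J' Φ Ψ ∧ TpHalf ψ⁻¹ δ' δ J' J Ψ Φ

/-- The Brauer quotient of `A` at `S` is covered by `A'`. -/
structure Link {A' : Type} [Ring A'] [Algebra R A'] (δ' : D →* A') (δ : D →* A) (J' : A') (J : A)
    (S : Subgroup D) (a : A' →ₐ[R] A) : Prop where
  cent : ∀ q ∈ S, ∀ x, δ' q * x = x * δ' q
  one : a J' = J
  equiv : ∀ u x, a (cjI R δ' u x) = cjI R δ u (a x)
  hat : ∀ u, δ u - a (δ' u) ∈ trM R δ S
  red : ∀ z, FixedBy (cjI R δ) S z → ∃ z', z - a z' ∈ trM R δ S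

end interior

section matrices

variable {R D A κ κ' : Type} [CommRing R] [CommGroup D] [Ring A] [Algebra R A] [Fintype κ]
  [DecidableEq κ] [Fintype κ'] [DecidableEq κ']

/-- The diagonal interior structure on matrices. -/
def tenI (s : D →* Matrix κ κ R) (δ : D →* A) : D →* Matrix κ κ A where
  toFun u := (s u).map fun r => r • δ u
  map_one' := by
    ext a b
    by_cases h : a = b <;> simp [Matrix.one_apply, h]
  map_mul' u v := by
    ext a b
    simp only [map_mul, Matrix.map_apply, Matrix.mul_apply, Finset.sum_smul, smul_mul_smul_comm]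

lemma tenI_apply (s : D →* Matrix κ κ R) (δ : D →* A) (u : D) (a b : κ) :
    tenI s δ u a b = s u a b • δ u := rfl

variable (R κ) in
/-- The normalised trace. -/
noncomputable def ntr : Matrix κ κ R →ₗ[R] R :=
  Ring.inverse (Fintype.card κ : R) • Matrix.traceLinearMap κ R R

omit [DecidableEq κ] in
lemma ntr_apply (m : Matrix κ κ R) : ntr R κ m = Ring.inverse (Fintype.card κ : R) * m.trace := rfl

/-- The dual representation. -/
def dualS (s : D →* Matrix κ κ R) : D →* Matrix κ κ R where
  toFun u := (s u⁻¹).transpose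
  map_one' := by simp
  map_mul' u v := by rw [mul_inv_rev, map_mul, Matrix.transpose_mul]

lemma dualS_apply (s : D →* Matrix κ κ R) (u : D) : dualS s u = (s u⁻¹).transpose := rfl

/-- The tensor product of representations. -/
def kronS (s : D →* Matrix κ κ R) (s' : D →* Matrix κ' κ' R) :
    D →* Matrix (κ × κ') (κ × κ') R where
  toFun u := Matrix.kroneckerMap (· * ·) (s u) (s' u)
  map_one' := by simp
  map_mul' u v := by rw [map_mul, map_mul, Matrix.mul_kronecker_mul]

lemma kronS_apply (s : D →* Matrix κ κ R) (s' : D →* Matrix κ' κ' R) (u : D) (a b : κ × κ') :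
    kronS s s' u a b = s u a.1 b.1 * s' u a.2 b.2 := rfl

/-- `s'` twisted by `ψ` is isomorphic to `s`. -/
def TwIso (ψ : MulAut D) (s : D →* Matrix κ κ R) (s' : D →* Matrix κ' κ' R) : Prop :=
  ∃ (v : Matrix κ' κ R) (v' : Matrix κ κ' R), v * v' = 1 ∧ v' * v = 1 ∧
    ∀ u, v * s u = s' (ψ u) * v

/-- `s` is the restriction to `D` of a split quotient of `A`, of determinant one. -/
def Canon (δ : D →* A) (s : D →* Matrix κ κ R) : Prop :=
  ∃ ρ : A →ₐ[R] Matrix κ κ R, Function.Surjective ρ ∧ (∀ u, ρ (δ u) = s u) ∧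
    ∀ u, (s u).det = 1

variable [Fintype D]

/-- `s` is an endotrivial representation of `D / Q`. -/
structure Endo (p : ℕ) (Q : Subgroup D) (s : D →* Matrix κ κ R) : Prop where
  triv : ∀ q ∈ Q, s q = 1
  card : ¬ p ∣ Fintype.card κ
  hig : ∃ θ : Matrix κ κ R →ₗ[R] Matrix κ κ R, ∀ m,
    m = ntr R κ m • (1 : Matrix κ κ R) + rtr ((cjI R s).linHom (cjI R s)) Q ⊤ θ m

/-- The endomorphisms of `s` are a trivial module plus a permutation type module with stabilisers
in `Pr`. -/
structure NP (p : ℕ) (Pr : Subgroup D → Prop) (s : D →* Matrix κ κ R) : Prop where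
  card : ¬ p ∣ Fintype.card κ
  rk : LinearMap.id - (ntr R κ).smulRight (1 : Matrix κ κ R) ∈ rk1span (cjI R s) Pr ⊤

end matrices

section group

variable {R D G E : Type} [CommRing R] [CommGroup D] [Group G] [Fintype G]

variable (R) in
/-- The group algebra of the centraliser of the image of `Q`. -/
abbrev CA (ι : D →* G) (Q : Subgroup D) : Subalgebra R (MonoidAlgebra R G) :=
  centAlg R ((Q.map ι : Subgroup G) : Set G)

variable (R) in
/-- The interior structure of `CA`. -/
noncomputable def caD (ι : D →* G) (Q : Subgroup D) : D →* CA R ι Q where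
  toFun u := ⟨single (ι u) 1, fun x hx g hg => by
    obtain ⟨q, -, rfl⟩ := hg
    have : x = ι u := by
      by_contra e
      exact hx (by rw [MonoidAlgebra.coeff_single]; exact Finsupp.single_eq_of_ne e)
    rw [this, ← map_mul, mul_comm, map_mul]⟩
  map_one' := Subtype.ext (by simp [MonoidAlgebra.one_def])
  map_mul' u v := Subtype.ext (by simp [MonoidAlgebra.single_mul_single])

lemma caD_val (ι : D →* G) (Q : Subgroup D) (u : D) :
    (caD R ι Q u : MonoidAlgebra R G) = single (ι u) 1 := rfl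

/-- An element supported on the centraliser of `D` as an element of `CA`. -/
def caJ {ι : D →* G} {j : MonoidAlgebra R G} (hj : SuppCent (Set.range ι) j) (Q : Subgroup D) :
    CA R ι Q := ⟨j, fun x hx g hg => by
  obtain ⟨q, -, rfl⟩ := hg
  exact hj x hx _ ⟨q, rfl⟩⟩

lemma caJ_val {ι : D →* G} {j : MonoidAlgebra R G} (hj : SuppCent (Set.range ι) j)
    (Q : Subgroup D) : (caJ hj Q : MonoidAlgebra R G) = j := rfl

open Classical in
variable (R) in
/-- Truncation to the centraliser of `S`. -/
noncomputable def brT (S : Set G) : MonoidAlgebra R G →ₗ[R] MonoidAlgebra R G where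
  toFun b := MonoidAlgebra.ofCoeff (b.coeff.filter fun x => ∀ s ∈ S, x * s = s * x)
  map_add' b b' := by
    ext x
    simp [Finsupp.filter_add]
  map_smul' r b := by
    ext x
    simp [Finsupp.filter_smul]

open Classical in
lemma coeff_brT (S : Set G) (b : MonoidAlgebra R G) (x : G) :
    (brT R S b).coeff x = if ∀ s ∈ S, x * s = s * x then b.coeff x else 0 :=
  Finsupp.filter_apply _ _ _

variable [IsLocalRing R]

/-- `i` lies in a local point of `P` on the group algebra of the centraliser of `S`. -/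
structure LocPt (S : Set G) (P : Subgroup G) (i : MonoidAlgebra R G) : Prop where
  le : ∀ u ∈ P, ∀ s ∈ S, u * s = s * u
  supp : SuppCent S i
  idem : i * i = i
  fix : FixedBy (cjRep R G) P i
  loc : ∀ z, SuppCent S z → FixedBy (cjRep R G) P z → ∃ c : R, NilR R (i * z * i - c • i)
  nt : ∀ P' < P, ∀ z, SuppCent S z → FixedBy (cjRep R G) P' z →
    NilR R (i * rtr (cjRep R G) P' P z * i)
  ne : ¬ InMax R i

variable [Fintype D] [Group E] [Fintype E]

/-- A block with abelian defect group `D`, inertial quotient `E` acting freely, and source data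
for the Brauer correspondent. -/
structure FrSet (p : ℕ) (ι : D →* G) (φ : E →* MulAut D) (e j : MonoidAlgebra R G)
    (U U' : E → MonoidAlgebra R G) : Prop where
  std : Std p R D
  inj : Function.Injective ι
  free : ∀ l u, φ l u = u → l = 1 ∨ u = 1
  cardE : ¬ p ∣ Fintype.card E
  blk : BlockE p (Nat.card D) e
  idem : j * j = j
  supp : SuppCent (Set.range ι) j
  ne : j ≠ 0
  br : InMax R (brT R (Set.range ι) (e * j - j))
  span : ∀ b, SuppCent (Set.range ι) b → ∃ c, j * b * j = inc R ι c * j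
  cut : ∀ l, j * U l * j = U l
  cut' : ∀ l, j * U' l * j = U' l
  inv : ∀ l, U l * U' l = j
  inv' : ∀ l, U' l * U l = j
  deg : ∀ l g, (U l).coeff g ≠ 0 → ∀ u, g * ι u = ι (φ l u) * g
  deg' : ∀ l g, (U' l).coeff g ≠ 0 → ∀ u, g * ι (φ l u) = ι u * g
  fus : ∀ g : G, (∀ u, ∃ v, g * ι u = ι v * g) → ∀ b, SuppCent (Set.range ι) b →
    ¬ InMax R (j * b * single g 1 * j) → ∃ l, ∀ u, g * ι u = ι (φ l u) * g

/-- The stabilisers that occur at level `Q`. -/
def PQ (φ : E →* MulAut D) (Q : Subgroup D) (S : Subgroup (D × D)) : Prop :=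
  ∃ l S', Q ≤ S' ∧ (Q ≠ ⊥ → l = 1) ∧ S = dg (φ l) S'

end group

end Pool.Agent.Lib.MP_b6945b_al.St
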