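import Pool.Agent.Lib.MP_b6945b_al.St.FrMin

set_option autoImplicit false

/-!
Normalising units of a graded algebra with local identity component.
-/

namespace Pool.Agent.Lib.MP_b6945b_al.St

open IsLocalRing

variable {R E : Type} [CommRing R] [IsLocalRing R] [Group E] [Fintype E]

lemma frnn_unit {x : R} (h : residue R x ≠ 0) : IsUnit x := by
  by_contra hx
  exact h ((residue_eq_zero_iff x).2 ((mem_maximalIdeal x).2 hx))

/-- Roots of unity of invertible order lift uniquely: factor `X ^ n - 1`; if `a ^ n = b ^ n = 1` and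
`a ≡ b` then `∑ a ^ i b ^ (n - 1 - i) ≡ n a ^ (n - 1)` is a unit. -/
lemma exists_root_lift (hR : MonicSplit R) {n : ℕ} (hn : IsUnit (n : R)) {a : ResidueField R}
    (ha : a ^ n = 1) : ∃! b : R, b ^ n = 1 ∧ residue R b = a := by
  have hn0 : n ≠ 0 := by
    rintro rfl
    simp at hn
  have ha0 : a ≠ 0 := by
    rintro rfl
    rw [zero_pow hn0] at ha
    exact zero_ne_one ha
  obtain ⟨s, hs⟩ := hR (Polynomial.X ^ n - Polynomial.C 1) (Polynomial.monic_X_pow_sub_C 1 hn0)
  have hev : ∀ x : R, x ^ n - 1 = (s.map fun b => x - b).prod := by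
    intro x
    have := congrArg (Polynomial.eval x) hs
    simpa [Polynomial.eval_multiset_prod, Multiset.map_map, Function.comp_def] using this
  obtain ⟨a0, rfl⟩ := residue_surjective a
  have h1 : (s.map fun b => residue R a0 - residue R b).prod = 0 := by
    have := congrArg (residue R) (hev a0)
    rw [map_sub, map_pow, ha, map_one, sub_self, map_multiset_prod, Multiset.map_map] at this
    simpa [Function.comp_def] using this.symm
  rw [Multiset.prod_eq_zero_iff, Multiset.mem_map] at h1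
  obtain ⟨b, hb, hb0⟩ := h1
  have hb1 : b ^ n = 1 := by
    have := hev b
    rw [Multiset.prod_eq_zero (Multiset.mem_map.2 ⟨b, hb, sub_self b⟩)] at this
    exact sub_eq_zero.1 this
  have hb2 : residue R b = residue R a0 := (sub_eq_zero.1 hb0).symm
  refine ⟨b, ⟨hb1, hb2⟩, ?_⟩
  rintro c ⟨hc1, hc2⟩
  have hg := Commute.geom_sum₂_mul (Commute.all c b) n
  rw [hc1, hb1, sub_self] at hg
  have hu : IsUnit (∑ i ∈ Finset.range n, c ^ i * b ^ (n - 1 - i)) := by
    apply frnn_unit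
    rw [map_sum]
    have h3 : ∀ i ∈ Finset.range n, residue R (c ^ i * b ^ (n - 1 - i)) =
        residue R a0 ^ (n - 1) := by
      intro i hi
      rw [map_mul, map_pow, map_pow, hc2, hb2, ← pow_add]
      congr 1
      have := Finset.mem_range.1 hi
      omega
    rw [Finset.sum_congr rfl h3, Finset.sum_const, Finset.card_range, nsmul_eq_mul]
    refine mul_ne_zero ?_ (pow_ne_zero _ ha0)
    have := (hn.map (residue R)).ne_zero
    rwa [map_natCast] at this
  exact sub_eq_zero.1 (hu.mul_right_eq_zero.1 hg)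

/-- With `β l = ∏ m, α l m` one has `α l m ^ |E| * β (l m) = β l * β m`; choose `γ l` with
`γ l ^ |E| * β l = 1`, `γ 1 = 1`. -/
lemma exists_cocycle_normal {k : Type} [Field k] [IsAlgClosed k] (α : E → E → k)
    (h0 : ∀ l m, α l m ≠ 0) (h1 : ∀ l, α 1 l = 1)
    (hc : ∀ l m n, α l m * α (l * m) n = α m n * α l (m * n)) :
    ∃ γ : E → k, γ 1 = 1 ∧ (∀ l, γ l ≠ 0) ∧
      ∀ l m, (γ l * γ m * (γ (l * m))⁻¹ * α l m) ^ Fintype.card E = 1 := by
  classical
  set β : E → k := fun l => ∏ m, α l m with hβ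
  have hβ0 : ∀ l, β l ≠ 0 := fun l => Finset.prod_ne_zero_iff.2 fun m _ => h0 l m
  have hβ1 : β 1 = 1 := by simp [hβ, h1]
  have hβm : ∀ l m, α l m ^ Fintype.card E * β (l * m) = β m * β l := by
    intro l m
    have h2 : ∏ n, (α l m * α (l * m) n) = ∏ n, (α m n * α l (m * n)) :=
      Finset.prod_congr rfl fun n _ => hc l m n
    rw [Finset.prod_mul_distrib, Finset.prod_mul_distrib, Finset.prod_const, Finset.card_univ] at h2
    have h3 : ∏ n, α l (m * n) = ∏ n, α l n := Equiv.prod_comp (Equiv.mulLeft m) (α l)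
    rw [h3] at h2
    exact h2
  have hex : ∀ l, ∃ g : k, (l = 1 → g = 1) ∧ g ^ Fintype.card E * β l = 1 := by
    intro l
    by_cases hl : l = 1
    · exact ⟨1, fun _ => rfl, by rw [hl, hβ1, one_pow, one_mul]⟩
    · obtain ⟨g, hg⟩ := IsAlgClosed.exists_pow_nat_eq (β l)⁻¹ (Fintype.card_pos (α := E))
      exact ⟨g, fun h => absurd h hl, by rw [hg, inv_mul_cancel₀ (hβ0 l)]⟩
  choose γ hγ1 hγ using hex
  have hγ0 : ∀ l, γ l ≠ 0 := by
    intro l h
    have := hγ l
    rw [h, zero_pow Fintype.card_ne_zero, zero_mul] at this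
    exact zero_ne_one this
  refine ⟨γ, hγ1 1 rfl, hγ0, fun l m => ?_⟩
  have e : ∀ l, γ l ^ Fintype.card E = (β l)⁻¹ := fun l => eq_inv_of_mul_eq_one_left (hγ l)
  rw [mul_pow, mul_pow, mul_pow, inv_pow, e, e, e, inv_inv, mul_assoc, mul_comm (β (l * m)), hβm]
  field_simp [hβ0 l, hβ0 m]

omit [IsLocalRing R] in
/-- The twisted regular representation: `t l` sends the basis vector `m` to `β l m` times the basis
vector `l m`. -/
lemma exists_twisted_rep [DecidableEq E] (β : E → E → R) (h1 : ∀ l, β l 1 = 1)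
    (h1' : ∀ l, β 1 l = 1) (hc : ∀ l m n, β l m * β (l * m) n = β m n * β l (m * n)) :
    ∃ t : E → Matrix E E R, t 1 = 1 ∧ (∀ l m, t l * t m = β l m • t (l * m)) ∧
      ∀ l m, t l m 1 = if m = l then 1 else 0 := by
  refine ⟨fun l => Matrix.of fun a b => if a = l * b then β l b else 0, ?_, ?_, ?_⟩
  · ext a b
    simp [Matrix.one_apply, h1']
  · intro l m
    ext a b
    rw [Matrix.mul_apply, Finset.sum_eq_single (m * b)]
    · simp only [Matrix.of_apply, Matrix.smul_apply, smul_eq_mul, if_true, mul_assoc]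
      split_ifs
      · rw [hc, mul_comm]
      · simp
    · intro c _ hcm
      simp [hcm]
    · simp
  · intro l m
    simp [h1]

variable {A : Type} [Ring A] [Algebra R A] [Module.Finite R A]

/-- Noncommutative Nakayama for a local subalgebra: the nilpotent elements lie in the Jacobson
radical (`Submodule.FG.eq_bot_of_le_jacobson_smul`). -/
lemma eq_bot_of_nil (hR : MonicSplit R) (Λ : Subalgebra R A)
    (hloc : ∀ z ∈ Λ, ∃ c : R, NilR R (z - c • 1)) {M : Type} [AddCommGroup M] [Module Λ M]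
    (K : Submodule Λ M) (hK : K.FG)
    (h : K ≤ Submodule.span Λ {x | ∃ a : Λ, NilR R (a : A) ∧ ∃ y ∈ K, x = a • y}) : K = ⊥ := by
  apply hK.eq_bot_of_le_jacobson_smul
  refine h.trans (Submodule.span_le.2 ?_)
  rintro x ⟨a, ha, y, hy, rfl⟩
  refine Submodule.smul_mem_smul ?_ hy
  rw [← Ideal.jacobson_bot, Ideal.mem_jacobson_iff]
  intro b
  have h1 : NilR R ((b : A) * a) := by
    have := (frm_loc_mul hR Λ (e := 1) (one_mul 1) Λ.one_mem (by simpa using hloc) a.2 b.2
      (by simpa using ha)).2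
    simpa using this
  have h2 : IsUnit ((1 : A) + b * a) := by
    have := NilR.isUnit_one_sub h1.neg
    rwa [sub_neg_eq_add] at this
  obtain ⟨w, hw, hw1, -⟩ := exists_inv_mem hR Λ (Λ.add_mem Λ.one_mem (Λ.mul_mem b.2 a.2)) h2
  refine ⟨⟨w, hw⟩, ?_⟩
  rw [Ideal.mem_bot]
  apply Subtype.ext
  change w * b * a + w - 1 = 0
  rw [← hw1]
  noncomm_ring

section core

/-- The residue character extended by zero. -/
structure FrnnChar (R : Type) {A : Type} [CommRing R] [IsLocalRing R] [Ring A] [Algebra R A]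
    (Λ : Subalgebra R A) (χ : A → ResidueField R) : Prop where
  add : ∀ x ∈ Λ, ∀ y ∈ Λ, χ (x + y) = χ x + χ y
  mul : ∀ x ∈ Λ, ∀ y ∈ Λ, χ (x * y) = χ x * χ y
  one : χ 1 = 1
  zero : χ 0 = 0
  iff : ∀ x ∈ Λ, ∀ c : R, χ x = residue R c ↔ NilR R (x - c • 1)

lemma frnn_exists_char (hR : MonicSplit R) (Λ : Subalgebra R A)
    (hloc : ∀ z ∈ Λ, ∃ c : R, NilR R (z - c • 1)) (hne : ¬ InMax R (1 : A)) :
    ∃ χ : A → ResidueField R, FrnnChar R Λ χ := by
  classical
  obtain ⟨χ, hχ⟩ := exists_res_char hR Λ hloc hne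
  refine ⟨fun z => if h : z ∈ Λ then χ ⟨z, h⟩ else 0, ?_, ?_, ?_, ?_, ?_⟩
  · intro x hx y hy
    simp only [dif_pos hx, dif_pos hy, dif_pos (Λ.add_mem hx hy)]
    exact map_add χ ⟨x, hx⟩ ⟨y, hy⟩
  · intro x hx y hy
    simp only [dif_pos hx, dif_pos hy, dif_pos (Λ.mul_mem hx hy)]
    exact map_mul χ ⟨x, hx⟩ ⟨y, hy⟩
  · simp only [dif_pos Λ.one_mem]
    exact map_one χ
  · simp only [dif_pos Λ.zero_mem]
    exact map_zero χ
  · intro x hx c
    simp only [dif_pos hx]
    exact hχ ⟨x, hx⟩ c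

variable {Λ : Subalgebra R A} {χ : A → ResidueField R}

omit [Module.Finite R A] in
lemma frnn_nil_zero : NilR R (0 : A) := ⟨1, by simp [InMax]⟩

omit [Module.Finite R A] in
lemma FrnnChar.nil (h : FrnnChar R Λ χ) {x : A} (hx : x ∈ Λ) : χ x = 0 ↔ NilR R x := by
  have := h.iff x hx 0
  simpa using this

omit [Module.Finite R A] in
lemma FrnnChar.smul (h : FrnnChar R Λ χ) (r : R) {x : A} (hx : x ∈ Λ) :
    χ (r • x) = residue R r * χ x := by
  have h1 : χ (r • (1 : A)) = residue R r :=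
    (h.iff _ (Λ.smul_mem Λ.one_mem r) r).2 (by rw [sub_self]; exact frnn_nil_zero)
  rw [← h1, ← h.mul _ (Λ.smul_mem Λ.one_mem r) x hx, smul_mul_assoc, one_mul]

omit [Module.Finite R A] in
lemma FrnnChar.conj (h : FrnnChar R Λ χ) {u u' x : A} (h1 : u * u' = 1) (h2 : u' * u = 1)
    (hx : x ∈ Λ) (hx' : u * x * u' ∈ Λ) : χ (u * x * u') = χ x := by
  obtain ⟨c, hc⟩ := residue_surjective (χ x)
  rw [← hc, h.iff _ hx']
  have h3 := (h.iff x hx c).1 hc.symm
  have h4 : NilR R ((x - c • 1) * u' * u) := by rwa [mul_assoc, h2, mul_one]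
  have h5 := nilR_swap h4
  have e : u * ((x - c • 1) * u') = u * x * u' - c • 1 := by
    rw [sub_mul, mul_sub, smul_mul_assoc, one_mul, mul_smul_comm, h1, mul_assoc]
  rwa [e] at h5

lemma FrnnChar.inv (hR : MonicSplit R) (h : FrnnChar R Λ χ) {x : A} (hx : x ∈ Λ)
    (h0 : χ x ≠ 0) : ∃ w ∈ Λ, w * x = 1 ∧ x * w = 1 := by
  obtain ⟨c, hc⟩ := residue_surjective (χ x)
  have hn := (h.iff x hx c).1 hc.symm
  obtain ⟨w, hw, -, h1, h2⟩ := exists_inv_corner hR Λ (e := 1) (one_mul 1) Λ.one_mem hx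
    (by simp) (frnn_unit (hc ▸ h0)) hn
  exact ⟨w, hw, h1, h2⟩

/-- The matrix `t l ⊗ a`. -/
def frnnT (t : E → Matrix E E R) (l : E) : A →ₗ[R] Matrix E E A where
  toFun a := (t l).map fun r => r • a
  map_add' a b := by
    ext i j
    simp [smul_add]
  map_smul' r a := by
    ext i j
    simp [smul_comm r]

omit [IsLocalRing R] [Module.Finite R A] [Group E] [Fintype E] in
lemma frnnT_apply (t : E → Matrix E E R) (l : E) (a : A) (i j : E) :
    frnnT t l a i j = t l i j • a := rfl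

omit [IsLocalRing R] [Module.Finite R A] in
lemma frnnT_mul {t : E → Matrix E E R} {β : E → E → R}
    (ht : ∀ l m, t l * t m = β l m • t (l * m)) (l m : E) (a b : A) :
    frnnT t l a * frnnT t m b = frnnT t (l * m) (β l m • (a * b)) := by
  ext i j
  have := congrFun (congrFun (ht l m) i) j
  rw [Matrix.mul_apply, Matrix.smul_apply, smul_eq_mul] at this
  rw [Matrix.mul_apply, frnnT_apply, smul_smul, mul_comm, ← this, Finset.sum_smul]
  exact Finset.sum_congr rfl fun k _ => by rw [frnnT_apply, frnnT_apply, smul_mul_smul_comm]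

omit [IsLocalRing R] [Module.Finite R A] in
lemma frnnT_one_mul [DecidableEq E] {t : E → Matrix E E R} (ht1 : t 1 = 1) (a : A)
    (X : Matrix E E A) (i j : E) : (frnnT t 1 a * X) i j = a * X i j := by
  rw [Matrix.mul_apply, Finset.sum_eq_single i]
  · rw [frnnT_apply, ht1, Matrix.one_apply_eq, one_smul]
  · intro k _ hk
    rw [frnnT_apply, ht1, Matrix.one_apply_ne hk.symm, zero_smul, zero_mul]
  · simp

omit [IsLocalRing R] [Module.Finite R A] in
lemma frnnT_col [DecidableEq E] {t : E → Matrix E E R}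
    (ht2 : ∀ l m, t l m 1 = if m = l then 1 else 0) (x : E → A) (m : E) :
    (∑ l, frnnT t l (x l)) m 1 = x m := by
  rw [Matrix.sum_apply, Finset.sum_eq_single m]
  · rw [frnnT_apply, ht2, if_pos rfl, one_smul]
  · intro l _ hl
    rw [frnnT_apply, ht2, if_neg hl.symm, zero_smul]
  · simp

/-- The graded algebra realised by matrices. -/
def frnnB [DecidableEq E] {t : E → Matrix E E R} {β : E → E → R} (ht1 : t 1 = 1)
    (ht : ∀ l m, t l * t m = β l m • t (l * m)) (Gr : E → Submodule R A)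
    (hmul : ∀ l m, ∀ x ∈ Gr l, ∀ y ∈ Gr m, x * y ∈ Gr (l * m)) (hone : (1 : A) ∈ Gr 1) :
    Subalgebra R (Matrix E E A) where
  carrier := {X | ∃ x : E → A, (∀ l, x l ∈ Gr l) ∧ X = ∑ l, frnnT t l (x l)}
  add_mem' := by
    rintro _ _ ⟨x, hx, rfl⟩ ⟨y, hy, rfl⟩
    exact ⟨x + y, fun l => (Gr l).add_mem (hx l) (hy l), by
      simp [Finset.sum_add_distrib]⟩
  mul_mem' := by
    rintro _ _ ⟨x, hx, rfl⟩ ⟨y, hy, rfl⟩
    refine ⟨fun n => ∑ l, β l (l⁻¹ * n) • (x l * y (l⁻¹ * n)), fun n => ?_, ?_⟩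
    · refine (Gr n).sum_mem fun l _ => (Gr n).smul_mem _ ?_
      have := hmul _ _ _ (hx l) _ (hy (l⁻¹ * n))
      rwa [mul_inv_cancel_left] at this
    · simp only [map_sum]
      rw [Finset.sum_comm, Finset.sum_mul_sum]
      refine Finset.sum_congr rfl fun l _ => ?_
      rw [← Equiv.sum_comp (Equiv.mulLeft l) fun n =>
        frnnT t n (β l (l⁻¹ * n) • (x l * y (l⁻¹ * n)))]
      refine Finset.sum_congr rfl fun m _ => ?_
      rw [frnnT_mul ht]
      simp
  algebraMap_mem' := by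
    intro r
    refine ⟨Pi.single 1 (r • 1), fun l => ?_, ?_⟩
    · by_cases hl : l = 1
      · subst hl
        simpa using (Gr 1).smul_mem r hone
      · simp [Pi.single_eq_of_ne hl]
    · rw [Finset.sum_eq_single 1]
      · ext i j
        rw [frnnT_apply, ht1, Matrix.algebraMap_matrix_apply, Matrix.one_apply,
          Algebra.algebraMap_eq_smul_one]
        split_ifs <;> simp
      · intro l _ hl
        simp [Pi.single_eq_of_ne hl]
      · simp

open MonoidAlgebra (single) in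
lemma frnn_core (hR : MonicSplit R) (hE : IsUnit (Fintype.card E : R))
    (Gr : E → Submodule R A) (hmul : ∀ l m, ∀ x ∈ Gr l, ∀ y ∈ Gr m, x * y ∈ Gr (l * m))
    (hone : (1 : A) ∈ Gr 1) (hfg : (Gr 1).FG) (hΛ : ∀ z, z ∈ Λ ↔ z ∈ Gr 1)
    (hloc : ∀ z ∈ Λ, ∃ c : R, NilR R (z - c • 1)) (hχ : FrnnChar R Λ χ) (u u' : E → A)
    (hu : ∀ l, u l ∈ Gr l) (hu' : ∀ l, u' l ∈ Gr l⁻¹) (huu : ∀ l, u l * u' l = 1)
    (huu' : ∀ l, u' l * u l = 1) (hu1 : u 1 = 1) (a β : E → E → R) (hab : ∀ l m, a l m * β l m = 1)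
    (h1 : ∀ l, β l 1 = 1) (h1' : ∀ l, β 1 l = 1)
    (hc : ∀ l m n, β l m * β (l * m) n = β m n * β l (m * n))
    (hβ : ∀ l m, residue R (β l m) * χ (u l * u m * u' (l * m)) = 1) :
    ∃ (w w' : E → A) (a : E → E → R), (∀ l, w l ∈ Gr l) ∧ (∀ l, w l * w' l = 1) ∧
      (∀ l, w' l * w l = 1) ∧ w 1 = 1 ∧ ∀ l m, w l * w m = a l m • w (l * m) := by
  classical
  obtain ⟨t, ht1, ht, ht2⟩ := exists_twisted_rep β h1 h1' hc
  set B := frnnB ht1 ht Gr hmul hone with hB
  have hu1' : u' 1 = 1 := by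
    have := huu 1
    rwa [hu1, one_mul] at this
  have memT : ∀ l, ∀ x ∈ Gr l, frnnT t l x ∈ B := by
    intro l x hx
    refine ⟨Pi.single l x, fun m => ?_, ?_⟩
    · by_cases hm : m = l
      · subst hm
        simpa using hx
      · simp [Pi.single_eq_of_ne hm]
    · rw [Finset.sum_eq_single l]
      · simp
      · intro m _ hm
        simp [Pi.single_eq_of_ne hm]
      · simp
  have comp1 : ∀ X ∈ B, ∀ l, X l 1 ∈ Gr l := by
    rintro _ ⟨x, hx, rfl⟩ l
    rw [frnnT_col ht2]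
    exact hx l
  have comp2 : ∀ X ∈ B, X = ∑ l, frnnT t l (X l 1) := by
    rintro _ ⟨x, hx, rfl⟩
    simp only [frnnT_col ht2]
  have memΛ : ∀ l, ∀ x ∈ Gr l, x * u' l ∈ Λ := by
    intro l x hx
    have := hmul _ _ _ hx _ (hu' l)
    rwa [mul_inv_cancel, ← hΛ] at this
  have memC : ∀ l, ∀ x ∈ Λ, u l * x * u' l ∈ Λ := by
    intro l x hx
    apply memΛ
    have := hmul _ _ _ (hu l) _ ((hΛ x).1 hx)
    rwa [mul_one] at this
  have colT : ∀ l m (x : A), frnnT t l x m 1 = if m = l then x else 0 := by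
    intro l m x
    rw [frnnT_apply, ht2]
    split_ifs <;> simp
  let π1 : B →+ MonoidAlgebra (ResidueField R) E := AddMonoidHom.mk'
    (fun X => ∑ l, single l (χ (X.1 l 1 * u' l))) (by
      intro X Y
      rw [← Finset.sum_add_distrib]
      refine Finset.sum_congr rfl fun l _ => ?_
      rw [← MonoidAlgebra.single_add, ← hχ.add _ (memΛ l _ (comp1 _ X.2 l)) _
        (memΛ l _ (comp1 _ Y.2 l)), ← add_mul]
      rfl)
  have π1_def : ∀ X : B, π1 X = ∑ l, single l (χ (X.1 l 1 * u' l)) := fun _ => rfl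
  have π1T : ∀ l x (hx : x ∈ Gr l), π1 ⟨frnnT t l x, memT l x hx⟩ = single l (χ (x * u' l)) := by
    intro l x hx
    rw [π1_def, Finset.sum_eq_single l]
    · simp [colT]
    · intro m _ hm
      simp [colT, hm, hχ.zero]
    · simp
  have dec : ∀ X : B, X = ∑ l, ⟨frnnT t l (X.1 l 1), memT l _ (comp1 _ X.2 l)⟩ := by
    intro X
    apply Subtype.ext
    rw [AddSubmonoidClass.coe_finsetSum]
    exact comp2 _ X.2
  have π1mulT : ∀ l m x y (hx : x ∈ Gr l) (hy : y ∈ Gr m),
      π1 (⟨frnnT t l x, memT l x hx⟩ * ⟨frnnT t m y, memT m y hy⟩) =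
        π1 ⟨frnnT t l x, memT l x hx⟩ * π1 ⟨frnnT t m y, memT m y hy⟩ := by
    intro l m x y hx hy
    have hxy := (Gr (l * m)).smul_mem (β l m) (hmul _ _ _ hx _ hy)
    have e1 : (⟨frnnT t l x, memT l x hx⟩ * ⟨frnnT t m y, memT m y hy⟩ : B) =
        ⟨frnnT t (l * m) (β l m • (x * y)), memT _ _ hxy⟩ := Subtype.ext (frnnT_mul ht l m x y)
    rw [e1, π1T _ _ hxy, π1T _ _ hx, π1T _ _ hy, MonoidAlgebra.single_mul_single]
    congr 1
    have e2 : x * y * u' (l * m) =
        x * u' l * (u l * (y * u' m) * u' l) * (u l * u m * u' (l * m)) := by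
      simp only [mul_assoc]
      rw [← mul_assoc (u' l) (u l), huu', one_mul, ← mul_assoc (u' l) (u l), huu', one_mul,
        ← mul_assoc (u' m) (u m), huu', one_mul]
    have m1 := memΛ l x hx
    have m2 := memΛ m y hy
    have m3 := memΛ _ _ (hmul _ _ _ (hu l) _ (hu m))
    rw [smul_mul_assoc, hχ.smul _ (memΛ _ _ (hmul _ _ _ hx _ hy)), e2,
      hχ.mul _ (Λ.mul_mem m1 (memC l _ m2)) _ m3, hχ.mul _ m1 _ (memC l _ m2),
      hχ.conj (huu l) (huu' l) m2 (memC l _ m2)]
    linear_combination χ (x * u' l) * χ (y * u' m) * hβ l m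
  have oneT : (1 : B) = ⟨frnnT t 1 1, memT 1 1 hone⟩ := by
    apply Subtype.ext
    ext i j
    change (1 : Matrix E E A) i j = frnnT t 1 1 i j
    rw [frnnT_apply, ht1, Matrix.one_apply, Matrix.one_apply]
    split_ifs <;> simp
  let π : B →+* MonoidAlgebra (ResidueField R) E :=
    { π1 with
      map_one' := by
        change π1 1 = 1
        rw [oneT, π1T 1 1 hone, hu1', one_mul, hχ.one]
        rfl
      map_mul' := by
        intro X Y
        change π1 (X * Y) = π1 X * π1 Y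
        rw [dec X, dec Y, Finset.sum_mul_sum, map_sum, map_sum, map_sum, Finset.sum_mul_sum]
        refine Finset.sum_congr rfl fun l _ => ?_
        rw [map_sum]
        exact Finset.sum_congr rfl fun m _ => π1mulT l m _ _ (comp1 _ X.2 l) (comp1 _ Y.2 m) }
  have πT : ∀ l x (hx : x ∈ Gr l), π ⟨frnnT t l x, memT l x hx⟩ = single l (χ (x * u' l)) := π1T
  have πc : ∀ (X : B) l, (π X).coeff l = χ (X.1 l 1 * u' l) := by
    intro X l
    change (π1 X).coeff l = _
    rw [π1_def]
    simp [MonoidAlgebra.coeff_single, Finsupp.single_apply]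
  have πmax : ∀ z : B, InMax R z → π z = 0 := by
    intro z hz
    ext l
    rw [πc]
    let g : B →ₗ[R] A :=
      { toFun := fun X => X.1 l 1 * u' l
        map_add' := fun X Y => add_mul _ _ _
        map_smul' := fun r X => smul_mul_assoc _ _ _ }
    exact (hχ.nil (memΛ l _ (comp1 _ z.2 l))).2 ⟨1, by
      rw [pow_one]; exact idem_inMax_map g hz⟩
  have memU : ∀ l, ∀ x ∈ Gr 1, x * u l ∈ Gr l := by
    intro l x hx
    have := hmul _ _ _ hx _ (hu l)
    rwa [one_mul] at this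
  have : Module.Finite R (Gr 1) := Module.Finite.iff_fg.2 hfg
  have : Module.Finite R B := by
    let g : (E → Gr 1) →ₗ[R] B :=
      { toFun := fun x => ∑ l, ⟨frnnT t l ((x l).1 * u l), memT l _ (memU l _ (x l).2)⟩
        map_add' := fun x y => by
          rw [← Finset.sum_add_distrib]
          exact Finset.sum_congr rfl fun l _ => Subtype.ext (by simp [add_mul])
        map_smul' := fun r x => by
          rw [RingHom.id_apply, Finset.smul_sum]
          exact Finset.sum_congr rfl fun l _ => Subtype.ext (by simp) }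
    refine Module.Finite.of_surjective g fun X => ?_
    refine ⟨fun l => ⟨X.1 l 1 * u' l, (hΛ _).1 (memΛ l _ (comp1 _ X.2 l))⟩, ?_⟩
    conv_rhs => rw [dec X]
    refine Finset.sum_congr rfl fun l _ => Subtype.ext ?_
    change frnnT t l (X.1 l 1 * u' l * u l) = frnnT t l (X.1 l 1)
    rw [mul_assoc, huu', mul_one]
  obtain ⟨r, hr⟩ := hE.exists_right_inv
  have hρ : (Fintype.card E : ResidueField R) * residue R r = 1 := by
    have := congrArg (residue R) hr
    rwa [map_mul, map_natCast, map_one] at this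
  set e : MonoidAlgebra (ResidueField R) E := ∑ l, single l (residue R r) with he
  have hle : ∀ l (c : ResidueField R), single l c * e = c • e := by
    intro l c
    rw [he, Finset.mul_sum, Finset.smul_sum,
      ← Equiv.sum_comp (Equiv.mulLeft l) fun n => c • single n (residue R r)]
    refine Finset.sum_congr rfl fun m _ => ?_
    rw [MonoidAlgebra.single_mul_single, MonoidAlgebra.smul_single]
    rfl
  have hee : IsIdempotentElem e := by
    change e * e = e
    nth_rewrite 1 [he]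
    rw [Finset.sum_mul]
    simp only [hle]
    rw [Finset.sum_const, Finset.card_univ, ← Nat.cast_smul_eq_nsmul (ResidueField R), smul_smul,
      hρ, one_smul]
  let y : B := ∑ l, ⟨frnnT t l (r • u l), memT l _ ((Gr l).smul_mem r (hu l))⟩
  have hy : π y = e := by
    rw [map_sum]
    refine Finset.sum_congr rfl fun l _ => ?_
    rw [πT l _ ((Gr l).smul_mem r (hu l)), smul_mul_assoc, huu, hχ.smul _ Λ.one_mem, hχ.one,
      mul_one]
  obtain ⟨f, -, hf, hπf⟩ := exists_idem_lift hR π πmax (y := y) (hy ▸ hee)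
  rw [hy] at hπf
  have hf1 : χ (f.1 1 1) ≠ 0 := by
    have := πc f 1
    rw [hπf, hu1', mul_one, he] at this
    rw [← this]
    simp only [MonoidAlgebra.coeff_sum, MonoidAlgebra.coeff_single, Finsupp.coe_finsetSum,
      Finset.sum_apply, Finsupp.single_apply, Finset.sum_ite_eq', Finset.mem_univ, if_true]
    intro h
    rw [h, mul_zero] at hρ
    exact zero_ne_one hρ
  have hf1m : f.1 1 1 ∈ Λ := (hΛ _).2 (comp1 _ f.2 1)
  obtain ⟨φ, -, -, hφ⟩ := hχ.inv hR hf1m hf1
  have canc : ∀ c : A, frnnT t 1 c * f.1 = f.1 → c = 1 := by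
    intro c h
    have := congrFun (congrFun h 1) 1
    rw [frnnT_one_mul ht1] at this
    rw [← mul_one c, ← hφ, ← mul_assoc, this]
  have smulT : ∀ (c : Λ) (X : Matrix E E A), c • X = frnnT t 1 (c : A) * X := by
    intro c X
    ext i j
    rw [frnnT_one_mul ht1]
    rfl
  have TT : ∀ l (c x : A), frnnT t 1 c * frnnT t l x = frnnT t l (c * x) := by
    intro l c x
    rw [frnnT_mul ht, one_mul, h1', one_smul]
  let U : E → B := fun l => ⟨frnnT t l (u l), memT l _ (hu l)⟩
  have hπU : ∀ l, π (U l * f) = e := by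
    intro l
    rw [map_mul, πT l _ (hu l), huu, hχ.one, hπf, hle, one_smul]
  have hsys : ∀ l, ∃ j : E → Λ, (∀ m, NilR R (j m : A)) ∧
      (U l * f).1 = f.1 + ∑ m, j m • (U m * f).1 := by
    intro l
    set z : B := U l * f - f with hz
    have hz0 : π z = 0 := by rw [hz, map_sub, hπU, hπf, sub_self]
    refine ⟨fun m => ⟨z.1 m 1 * u' m, memΛ m _ (comp1 _ z.2 m)⟩, fun m => ?_, ?_⟩
    · refine (hχ.nil (memΛ m _ (comp1 _ z.2 m))).1 ?_
      rw [← πc, hz0]
      rfl
    · have e1 : z * f = z := by rw [hz, sub_mul, mul_assoc, hf.eq]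
      have e2 : z.1 * f.1 = z.1 := congrArg Subtype.val e1
      have e3 : (U l * f).1 = f.1 + z.1 := by
        rw [hz]
        simp
      have e4 : z.1 = ∑ m, frnnT t m (z.1 m 1) * f.1 := by
        rw [← Finset.sum_mul, ← comp2 _ z.2, e2]
      rw [e3]
      refine congrArg (f.1 + ·) (e4.trans (Finset.sum_congr rfl fun m _ => ?_))
      rw [smulT]
      change _ = frnnT t 1 (z.1 m 1 * u' m) * (frnnT t m (u m) * f.1)
      rw [← mul_assoc, TT, mul_assoc, huu', mul_one]
  have hspan : ∀ l, ∃ c : Λ, c • f.1 = (U l * f).1 := by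
    let P : Submodule Λ (Matrix E E A) := Submodule.span Λ {f.1}
    let K : Submodule Λ (Matrix E E A ⧸ P) :=
      Submodule.span Λ (Set.range fun l => P.mkQ (U l * f).1)
    have hK : K = ⊥ := by
      refine eq_bot_of_nil hR Λ hloc K (Submodule.fg_span (Set.finite_range _)) ?_
      refine Submodule.span_le.2 ?_
      rintro _ ⟨l, rfl⟩
      obtain ⟨j, hj, hj2⟩ := hsys l
      have e0 : P.mkQ f.1 = 0 :=
        (Submodule.Quotient.mk_eq_zero P).2 (Submodule.mem_span_singleton_self _)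
      change P.mkQ (U l * f).1 ∈ _
      rw [hj2, map_add, e0, zero_add, map_sum]
      refine Submodule.sum_mem _ fun m _ => Submodule.subset_span ?_
      exact ⟨j m, hj m, P.mkQ (U m * f).1, Submodule.subset_span ⟨m, rfl⟩, map_smul _ _ _⟩
    intro l
    have : P.mkQ (U l * f).1 ∈ K := Submodule.subset_span ⟨l, rfl⟩
    rw [hK, Submodule.mem_bot] at this
    exact Submodule.mem_span_singleton.1 ((Submodule.Quotient.mk_eq_zero P).1 this)
  choose c hcf using hspan
  have hcχ : ∀ l, χ (c l) ≠ 0 := by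
    intro l h
    have e1 := πc (U l * f) 1
    rw [hπU, ← hcf, ← hπf, πc, hu1', mul_one, mul_one, smulT, frnnT_one_mul ht1,
      hχ.mul _ (c l).2 _ hf1m, h, zero_mul] at e1
    exact hf1 e1
  choose d hd hdc hcd using fun l => hχ.inv hR (c l).2 (hcχ l)
  have hW : ∀ l, frnnT t l (d l * u l) * f.1 = f.1 := by
    intro l
    rw [← TT, mul_assoc]
    change frnnT t 1 (d l) * (U l * f).1 = f.1
    rw [← hcf, smulT, ← mul_assoc, TT, hdc]
    exact congrArg Subtype.val (show (⟨frnnT t 1 1, memT 1 1 hone⟩ : B) * f = f by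
      rw [← oneT, one_mul])
  have hww : ∀ l, d l * u l * (u' l * c l) = 1 := by
    intro l
    rw [mul_assoc, ← mul_assoc (u l), huu, one_mul, hdc]
  have hww' : ∀ l, u' l * c l * (d l * u l) = 1 := by
    intro l
    rw [mul_assoc, ← mul_assoc (c l : A), hcd, one_mul, huu']
  refine ⟨fun l => d l * u l, fun l => u' l * c l, a, fun l => memU l _ ((hΛ _).1 (hd l)), hww,
    hww', canc _ (hW 1), fun l m => ?_⟩
  have e1 : β l m • (d l * u l * (d m * u m)) * (u' (l * m) * c (l * m)) = 1 := by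
    apply canc
    nth_rewrite 1 [← hW (l * m)]
    rw [← mul_assoc, TT, mul_assoc, hww', mul_one, ← frnnT_mul ht, mul_assoc, hW, hW]
  have e2 : β l m • (d l * u l * (d m * u m)) = d (l * m) * u (l * m) := by
    rw [← mul_one (β l m • _), ← hww' (l * m), ← mul_assoc, e1, one_mul]
  change d l * u l * (d m * u m) = a l m • (d (l * m) * u (l * m))
  rw [← e2, smul_smul, hab, one_smul]

end core

/-- Let `Λ` be the subalgebra `Gr 1`, `χ` its residue character (`exists_res_char`), invariant under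
conjugation by the `u l`.  Replace `u 1` by `1`; `α l m = χ (u l * u m * u' (l m))` is a cocycle;
rescale (`exists_cocycle_normal`) and lift it to a cocycle `a` of roots of unity in `R`
(`exists_root_lift`).  Let `t` be the twisted representation for `β = a⁻¹` and `𝔅` the subalgebra
of `Matrix E E A` of all `∑ l, (t l).map (· • x l)` with `x l ∈ Gr l` (the `x l` are the entries of
column `1`).  `π x = ∑ l, single l (χ (x l * u' l))` is a ring homomorphism to the group algebra of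
`E` over the residue field; lift the idempotent `|E|⁻¹ ∑ l` to `f ∈ 𝔅` (`exists_idem_lift`).  The
component `f 1` is a unit of `Λ`, and taking the component `1` is injective on `𝔅 f`
(`eq_bot_of_nil`: `𝔅 f = Λ f + J 𝔅 f`).  Hence `(u l ⊗ t l) f = c l • f` with `c l` a unit of `Λ`;
put `w l = (c l)⁻¹ * u l`. -/
theorem exists_normal_units (hR : MonicSplit R) (hE : IsUnit (Fintype.card E : R))
    (Gr : E → Submodule R A) (hmul : ∀ l m, ∀ x ∈ Gr l, ∀ y ∈ Gr m, x * y ∈ Gr (l * m))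
    (hone : (1 : A) ∈ Gr 1) (hfg : (Gr 1).FG) (hloc : ∀ z ∈ Gr 1, ∃ c : R, NilR R (z - c • 1))
    (hne : ¬ InMax R (1 : A))
    (hu : ∀ l, ∃ u ∈ Gr l, ∃ u' ∈ Gr l⁻¹, u * u' = 1 ∧ u' * u = 1) :
    ∃ (w w' : E → A) (a : E → E → R), (∀ l, w l ∈ Gr l) ∧ (∀ l, w l * w' l = 1) ∧
      (∀ l, w' l * w l = 1) ∧ w 1 = 1 ∧ ∀ l m, w l * w m = a l m • w (l * m) := by
  classical
  let Λ : Subalgebra R A := (Gr 1).toSubalgebra hone fun x y hx hy => by
    have := hmul _ _ _ hx _ hy
    rwa [mul_one] at this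
  have hΛ : ∀ z, z ∈ Λ ↔ z ∈ Gr 1 := fun _ => Iff.rfl
  obtain ⟨χ, hχ⟩ := frnn_exists_char hR Λ hloc hne
  have hu2 : ∀ l, ∃ u ∈ Gr l, ∃ u' ∈ Gr l⁻¹, u * u' = 1 ∧ u' * u = 1 ∧ (l = 1 → u = 1) := by
    intro l
    by_cases hl : l = 1
    · subst hl
      exact ⟨1, hone, 1, by rwa [inv_one], one_mul 1, one_mul 1, fun _ => rfl⟩
    · obtain ⟨u, h1, u', h2, h3, h4⟩ := hu l
      exact ⟨u, h1, u', h2, h3, h4, fun h => absurd h hl⟩
  choose u hu u' hu' huu huu' hu1 using hu2
  replace hu1 := hu1 1 rfl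
  have memΛ : ∀ l, ∀ x ∈ Gr l, x * u' l ∈ Λ := by
    intro l x hx
    have := hmul _ _ _ hx _ (hu' l)
    rwa [mul_inv_cancel, ← hΛ] at this
  have memC : ∀ l, ∀ x ∈ Λ, u l * x * u' l ∈ Λ := by
    intro l x hx
    apply memΛ
    have := hmul _ _ _ (hu l) _ ((hΛ x).1 hx)
    rwa [mul_one] at this
  have mem3 : ∀ l m, u l * u m * u' (l * m) ∈ Λ := fun l m =>
    memΛ _ _ (hmul _ _ _ (hu l) _ (hu m))
  let α : E → E → ResidueField R := fun l m => χ (u l * u m * u' (l * m))
  have hα0 : ∀ l m, α l m ≠ 0 := by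
    intro l m h
    have m2 : u (l * m) * (u' m * u' l) ∈ Λ := by
      have := hmul _ _ _ (hu (l * m)) _ (hmul _ _ _ (hu' m) _ (hu' l))
      rwa [← mul_inv_rev, mul_inv_cancel] at this
    have e := hχ.mul _ (mem3 l m) _ m2
    have e2 : u l * u m * u' (l * m) * (u (l * m) * (u' m * u' l)) = 1 := by
      rw [mul_assoc, ← mul_assoc (u' (l * m)), huu', one_mul, mul_assoc, ← mul_assoc (u m), huu,
        one_mul, huu]
    change χ _ = 0 at h
    rw [e2, hχ.one, h, zero_mul] at e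
    exact one_ne_zero e
  have hα1 : ∀ l, α 1 l = 1 := by
    intro l
    change χ _ = 1
    rw [hu1, one_mul, one_mul, huu, hχ.one]
  have hα1' : ∀ l, α l 1 = 1 := by
    intro l
    change χ _ = 1
    rw [hu1, mul_one, mul_one, huu, hχ.one]
  have hαc : ∀ l m n, α l m * α (l * m) n = α m n * α l (m * n) := by
    intro l m n
    change χ _ * χ _ = χ _ * χ _
    rw [← hχ.conj (huu l) (huu' l) (mem3 m n) (memC l _ (mem3 m n)),
      ← hχ.mul _ (mem3 l m) _ (mem3 (l * m) n),
      ← hχ.mul _ (memC l _ (mem3 m n)) _ (mem3 l (m * n))]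
    congr 1
    simp only [mul_assoc]
    rw [← mul_assoc (u' (l * m)), huu', one_mul, ← mul_assoc (u' l), huu', one_mul,
      ← mul_assoc (u' (m * n)), huu', one_mul]
  have := hR.isAlgClosed
  obtain ⟨γ, hγ1, hγ0, hγ⟩ := exists_cocycle_normal α hα0 hα1 hαc
  have hg : ∀ l, ∃ g h : R, residue R g = γ l ∧ g * h = 1 ∧ (l = 1 → g = 1) := by
    intro l
    by_cases hl : l = 1
    · subst hl
      exact ⟨1, 1, by rw [map_one, hγ1], one_mul 1, fun _ => rfl⟩
    · obtain ⟨g, hg⟩ := residue_surjective (γ l)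
      obtain ⟨h, hh⟩ := (frnn_unit (hg ▸ hγ0 l)).exists_right_inv
      exact ⟨g, h, hg, hh, fun h => absurd h hl⟩
  choose g h hg hgh hg1 using hg
  have hh : ∀ l, residue R (h l) = (γ l)⁻¹ := by
    intro l
    have := congrArg (residue R) (hgh l)
    rw [map_mul, hg, map_one] at this
    exact eq_inv_of_mul_eq_one_right this
  have hinv : ∀ l m, ((γ l * γ m * (γ (l * m))⁻¹ * α l m)⁻¹) ^ Fintype.card E = 1 := by
    intro l m
    rw [inv_pow, hγ, inv_one]
  choose β hβ hβu using fun l m => exists_root_lift hR hE (hinv l m)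
  have uniq : ∀ b c : R, b ^ Fintype.card E = 1 → c ^ Fintype.card E = 1 →
      residue R b = residue R c → b = c := by
    intro b c hb hc hbc
    have hc' : residue R c ^ Fintype.card E = 1 := by rw [← map_pow, hc, map_one]
    exact (exists_root_lift hR hE hc').unique ⟨hb, hbc⟩ ⟨hc, rfl⟩
  have hab : ∀ l m, β l m ^ (Fintype.card E - 1) * β l m = 1 := by
    intro l m
    rw [← pow_succ, Nat.sub_add_cancel Fintype.card_pos, (hβ l m).1]
  refine frnn_core hR hE Gr hmul hone hfg hΛ hloc hχ (fun l => g l • u l) (fun l => h l • u' l)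
    (fun l => (Gr l).smul_mem _ (hu l)) (fun l => (Gr l⁻¹).smul_mem _ (hu' l)) (fun l => ?_)
    (fun l => ?_) ?_ (fun l m => β l m ^ (Fintype.card E - 1)) β hab (fun l => ?_) (fun l => ?_)
    (fun l m n => ?_) (fun l m => ?_)
  · rw [smul_mul_smul_comm, hgh, huu, one_smul]
  · rw [smul_mul_smul_comm, mul_comm, hgh, huu', one_smul]
  · rw [hg1 1 rfl, hu1, one_smul]
  · refine uniq _ _ (hβ l 1).1 (one_pow _) ?_
    rw [(hβ l 1).2, hγ1, mul_one, mul_one, hα1', mul_inv_cancel₀ (hγ0 l), mul_one, inv_one,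
      map_one]
  · refine uniq _ _ (hβ 1 l).1 (one_pow _) ?_
    rw [(hβ 1 l).2, hγ1, one_mul, one_mul, hα1, mul_inv_cancel₀ (hγ0 l), mul_one, inv_one,
      map_one]
  · refine uniq _ _ ?_ ?_ ?_
    · rw [mul_pow, (hβ _ _).1, (hβ _ _).1, mul_one]
    · rw [mul_pow, (hβ _ _).1, (hβ _ _).1, mul_one]
    · rw [map_mul, map_mul, (hβ _ _).2, (hβ _ _).2, (hβ _ _).2, (hβ _ _).2, ← mul_inv, ← mul_inv,
        ← mul_assoc l m n]
      congr 1
      have e := hαc l m n
      have := hγ0 (l * m)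
      have := hγ0 (m * n)
      field_simp
      linear_combination γ l * γ m * γ n * (γ (l * m * n))⁻¹ * e
  · rw [smul_mul_smul_comm, smul_mul_smul_comm, hχ.smul _ (mem3 l m), map_mul, map_mul, hg, hg,
      hh, (hβ l m).2]
    exact inv_mul_cancel₀ (mul_ne_zero (mul_ne_zero (mul_ne_zero (hγ0 l) (hγ0 m))
      (inv_ne_zero (hγ0 _))) (hα0 l m))

end Pool.Agent.Lib.MP_b6945b_al.St
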