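import Pool.Agent.Lib.MP_b6945b_al.St.FrI1
import Pool.Agent.Lib.MP_b6945b_al.St.FrRk2
import Pool.Agent.Lib.MP_b6945b_al.St.FrNN

set_option autoImplicit false

/-!
The crossed product inside the final corner.
-/

namespace Pool.Agent.Lib.MP_b6945b_al.St

open IsLocalRing
open MonoidAlgebra (single)

section ring

variable {R D E A : Type} [CommRing R] [CommGroup D] [Group E] [Ring A] [Algebra R A]

/-- Units that generate a twisted group algebra of the semidirect product. -/
structure CUnits (δ : D →* A) (φ : E →* MulAut D) (w w' : E → A) (a : E → E → R) : Prop where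
  one : w 1 = 1
  inv : ∀ l, w l * w' l = 1
  inv' : ∀ l, w' l * w l = 1
  comm : ∀ l u, w l * δ u = δ (φ l u) * w l
  mul : ∀ l m, w l * w m = a l m • w (l * m)
  unit : ∀ l m, IsUnit (a l m)

/-- The basis of the crossed product. -/
def cfr (δ : D →* A) (w : E → A) (i : E × D) : A := δ i.2 * w i.1

/-- The dual basis of the crossed product. -/
def cfr' (δ : D →* A) (w' : E → A) (i : E × D) : A := w' i.1 * δ i.2⁻¹

variable [Fintype D] [Fintype E] {δ : D →* A} {φ : E →* MulAut D} {w w' : E → A}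
  {a : E → E → R}

omit [Fintype E] in
lemma CUnits.mul_hat (h : CUnits δ φ w w' a) (l : E) (c : MonoidAlgebra R D) :
    w l * hatI R δ c = hatI R δ (inc R (φ l).toMonoidHom c) * w l := by
  induction c using MonoidAlgebra.induction_linear with
  | zero => simp
  | add a b ha hb => rw [map_add, map_add, map_add, mul_add, add_mul, ha, hb]
  | single u r =>
    rw [inc_single, hatI_single, hatI_single, mul_smul_comm, smul_mul_assoc, h.comm]
    rfl

omit [Fintype D] [Group E] in
lemma frfin_gen [DecidableEq E] (δ : D →* A) (w : E → A) (l : E) (c : MonoidAlgebra R D) :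
    ∑ m, hatI R δ ((Pi.single l c : E → MonoidAlgebra R D) m) * w m = hatI R δ c * w l := by
  rw [Finset.sum_eq_single l, Pi.single_eq_same]
  · intro m _ hm
    rw [Pi.single_eq_of_ne hm, map_zero, zero_mul]
  · simp

omit [Group E] in
lemma frfin_span (δ : D →* A) (w : E → A) (x : A) :
    x ∈ Submodule.span R (Set.range (cfr δ w)) ↔
      ∃ c : E → MonoidAlgebra R D, x = ∑ l, hatI R δ (c l) * w l := by
  classical
  constructor
  · intro hx
    induction hx using Submodule.span_induction with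
    | mem x hx =>
      obtain ⟨i, rfl⟩ := hx
      exact ⟨Pi.single i.1 (single i.2 1), by rw [frfin_gen, hatI_single, one_smul]; rfl⟩
    | zero => exact ⟨0, by simp⟩
    | add x y _ _ hx hy =>
      obtain ⟨c, rfl⟩ := hx
      obtain ⟨d, rfl⟩ := hy
      exact ⟨c + d, by simp [add_mul, Finset.sum_add_distrib]⟩
    | smul r x _ hx =>
      obtain ⟨c, rfl⟩ := hx
      exact ⟨r • c, by simp [Finset.smul_sum]⟩
  · rintro ⟨c, rfl⟩
    refine Submodule.sum_mem _ fun l _ => ?_
    rw [hatI_apply, Finset.sum_mul]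
    refine Submodule.sum_mem _ fun u _ => ?_
    rw [smul_mul_assoc]
    exact Submodule.smul_mem _ _ (Submodule.subset_span ⟨(l, u), rfl⟩)

omit [Fintype D] [Fintype E] in
lemma CUnits.cfr_mul (h : CUnits δ φ w w' a) (l m : E) (u v : D) :
    cfr δ w (l, u) * cfr δ w (m, v) = a l m • cfr δ w (l * m, u * φ l v) := by
  simp only [cfr]
  rw [mul_assoc, ← mul_assoc (w l), h.comm, mul_assoc, h.mul, map_mul, mul_smul_comm,
    mul_smul_comm, mul_assoc]

omit [Fintype D] [Fintype E] in
lemma CUnits.comm' (h : CUnits δ φ w w' a) (l : E) (u : D) :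
    δ u * w' l = w' l * δ (φ l u) := by
  calc δ u * w' l = w' l * (w l * δ u) * w' l := by rw [← mul_assoc, h.inv', one_mul]
    _ = w' l * δ (φ l u) := by rw [h.comm, mul_assoc, mul_assoc, h.inv, mul_one]

omit [Fintype D] [Fintype E] in
lemma CUnits.inv_mul (h : CUnits δ φ w w' a) (l m : E) : w' (l * m) * w l = a l m • w' m := by
  calc w' (l * m) * w l = w' (l * m) * (w l * w m) * w' m := by
        rw [mul_assoc, mul_assoc, h.inv, mul_one]
    _ = a l m • w' m := by rw [h.mul, mul_smul_comm, h.inv', smul_mul_assoc, one_mul]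

omit [Fintype D] [Fintype E] in
lemma CUnits.mul_inv (h : CUnits δ φ w w' a) (l m : E) : w m * w' (l * m) = a l m • w' l := by
  calc w m * w' (l * m) = w' l * (w l * w m) * w' (l * m) := by
        rw [← mul_assoc, h.inv', one_mul]
    _ = a l m • w' l := by
        rw [h.mul, mul_smul_comm, smul_mul_assoc, mul_assoc, h.inv, mul_one]

lemma CUnits.exists_alg (h : CUnits δ φ w w' a) :
    ∃ L : Subalgebra R A, ∀ x, x ∈ L ↔ ∃ c : E → MonoidAlgebra R D,
      x = ∑ l, hatI R δ (c l) * w l := by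
  refine ⟨(Submodule.span R (Set.range (cfr δ w))).toSubalgebra ?_ ?_, frfin_span δ w⟩
  · exact Submodule.subset_span ⟨(1, 1), by simp [cfr, h.one]⟩
  · intro x y hx hy
    have := Submodule.mul_mem_mul hx hy
    rw [Submodule.span_mul_span] at this
    refine Submodule.span_le.2 ?_ this
    rintro _ ⟨_, ⟨⟨l, u⟩, rfl⟩, _, ⟨⟨m, v⟩, rfl⟩, rfl⟩
    change cfr δ w (l, u) * cfr δ w (m, v) ∈ Submodule.span R _
    rw [h.cfr_mul]
    exact Submodule.smul_mem _ _ (Submodule.subset_span ⟨_, rfl⟩)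

variable {L : Subalgebra R A}

lemma CUnits.mem (h : CUnits δ φ w w' a)
    (hL : ∀ x, x ∈ L ↔ ∃ c : E → MonoidAlgebra R D, x = ∑ l, hatI R δ (c l) * w l) :
    (∀ u, δ u ∈ L) ∧ (∀ l, w l ∈ L) ∧ (∀ l, w' l ∈ L) ∧ (∀ i, cfr δ w i ∈ L) ∧
      ∀ i, cfr' δ w' i ∈ L := by
  have h0 : ∀ i, cfr δ w i ∈ L := fun i =>
    (hL _).2 ((frfin_span δ w _).1 (Submodule.subset_span ⟨i, rfl⟩))
  have h1 : ∀ u, δ u ∈ L := fun u => by simpa [cfr, h.one] using h0 (1, u)
  have h2 : ∀ l, w l ∈ L := fun l => by simpa [cfr] using h0 (l, 1)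
  have h3 : ∀ l, w' l ∈ L := fun l => by
    have e := h.mul_inv l l⁻¹
    have e1 : w' 1 = 1 := by rw [← one_mul (w' 1), ← h.one, h.inv, h.one]
    rw [mul_inv_cancel, e1, mul_one] at e
    obtain ⟨k, hk⟩ := (h.unit l l⁻¹).exists_left_inv
    have : w' l = k • w l⁻¹ := by rw [e, smul_smul, hk, one_smul]
    rw [this]
    exact L.smul_mem (h2 _) _
  exact ⟨h1, h2, h3, h0, fun i => L.mul_mem (h3 _) (h1 _)⟩

/-- It suffices to treat `b = δ u` (reindex `v ↦ u v`) and `b = w m` (reindex
`(l, v) ↦ (m l, φ m v)` and use `w' (m l) * w m = a m l • w' l`). -/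
lemma CUnits.slide_left (h : CUnits δ φ w w' a)
    (hL : ∀ x, x ∈ L ↔ ∃ c : E → MonoidAlgebra R D, x = ∑ l, hatI R δ (c l) * w l)
    {N : Type} [AddCommGroup N] [Module R N] {F : A → A → N} (hF : IsBilin R F) {b : A}
    (hb : b ∈ L) :
    ∑ i, F (b * cfr δ w i) (cfr' δ w' i) = ∑ i, F (cfr δ w i) (cfr' δ w' i * b) := by
  have hb' := (frfin_span δ w b).2 ((hL b).1 hb)
  clear hb
  induction hb' using Submodule.span_induction with
  | mem x hx =>
    obtain ⟨⟨m, u⟩, rfl⟩ := hx
    refine Fintype.sum_equiv (Equiv.prodCongr (Equiv.mulLeft m)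
      ((φ m).toEquiv.trans (Equiv.mulLeft u))) _ _ fun ⟨l, v⟩ => ?_
    change _ = F (cfr δ w (m * l, u * φ m v)) (cfr' δ w' (m * l, u * φ m v) * cfr δ w (m, u))
    have : cfr' δ w' (m * l, u * φ m v) * cfr δ w (m, u) = a m l • cfr' δ w' (l, v) := by
      simp only [cfr, cfr']
      rw [mul_assoc, ← mul_assoc (δ _), ← map_mul, mul_inv_rev, inv_mul_cancel_right, ← map_inv,
        ← h.comm, ← mul_assoc, h.inv_mul, smul_mul_assoc]
    rw [h.cfr_mul, this, hF.smul_left, hF.smul_right]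
  | zero =>
    have h1 : ∀ y, F 0 y = 0 := fun y => by simpa using hF.smul_left 0 0 y
    have h2 : ∀ y, F y 0 = 0 := fun y => by simpa using hF.smul_right 0 y 0
    simp [h1, h2]
  | add x y _ _ hx hy =>
    simp only [add_mul, mul_add, hF.add_left, hF.add_right, Finset.sum_add_distrib, hx, hy]
  | smul r x _ hx =>
    simp only [smul_mul_assoc, mul_smul_comm, hF.smul_left, hF.smul_right, ← Finset.smul_sum, hx]

/-- As before, with `w m * w' (n m) = a n m • w' n`. -/
lemma CUnits.slide_right (h : CUnits δ φ w w' a)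
    (hL : ∀ x, x ∈ L ↔ ∃ c : E → MonoidAlgebra R D, x = ∑ l, hatI R δ (c l) * w l)
    {N : Type} [AddCommGroup N] [Module R N] {F : A → A → N} (hF : IsBilin R F) {b : A}
    (hb : b ∈ L) :
    ∑ i, F (cfr δ w i * b) (cfr' δ w' i) = ∑ i, F (cfr δ w i) (b * cfr' δ w' i) := by
  have hb' := (frfin_span δ w b).2 ((hL b).1 hb)
  clear hb
  induction hb' using Submodule.span_induction with
  | mem x hx =>
    obtain ⟨⟨m, u⟩, rfl⟩ := hx
    refine Fintype.sum_equiv (Equiv.prodShear (Equiv.mulRight m)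
      fun l => Equiv.mulRight (φ l u)) _ _ fun ⟨l, v⟩ => ?_
    change _ = F (cfr δ w (l * m, v * φ l u)) (cfr δ w (m, u) * cfr' δ w' (l * m, v * φ l u))
    have : cfr δ w (m, u) * cfr' δ w' (l * m, v * φ l u) = a l m • cfr' δ w' (l, v) := by
      simp only [cfr, cfr']
      rw [mul_assoc, ← mul_assoc (w m), h.mul_inv, smul_mul_assoc, mul_smul_comm, ← mul_assoc,
        h.comm', mul_assoc, ← map_mul, mul_inv_rev, mul_inv_cancel_left]
    rw [h.cfr_mul, this, hF.smul_left, hF.smul_right]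
  | zero =>
    have h1 : ∀ y, F 0 y = 0 := fun y => by simpa using hF.smul_left 0 0 y
    have h2 : ∀ y, F y 0 = 0 := fun y => by simpa using hF.smul_right 0 y 0
    simp [h1, h2]
  | add x y _ _ hx hy =>
    simp only [add_mul, mul_add, hF.add_left, hF.add_right, Finset.sum_add_distrib, hx, hy]
  | smul r x _ hx =>
    simp only [smul_mul_assoc, mul_smul_comm, hF.smul_left, hF.smul_right, ← Finset.smul_sum, hx]

lemma CUnits.trB_mul (h : CUnits δ φ w w' a)
    (hL : ∀ x, x ∈ L ↔ ∃ c : E → MonoidAlgebra R D, x = ∑ l, hatI R δ (c l) * w l)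
    (α : A →ₗ[R] A) {b b' : A} (hb : b ∈ L) (hb' : b' ∈ L) (y : A) :
    trB (cfr δ w) (cfr' δ w') α (b * y * b') = b * trB (cfr δ w) (cfr' δ w') α y * b' := by
  have h1 : ∀ z z' : A, ∑ j, z * α (z' * (b' * cfr' δ w' j)) * cfr δ w j =
      ∑ j, z * α (z' * cfr' δ w' j) * (cfr δ w j * b') := fun z z' =>
    (h.slide_right hL (F := fun x x' => z * α (z' * x') * x)
      ⟨fun _ _ _ => by simp only [mul_add], fun _ _ _ => by simp only [mul_smul_comm],
        fun _ _ _ => by simp only [mul_add, map_add, add_mul],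
        fun _ _ _ => by simp only [mul_smul_comm, map_smul, smul_mul_assoc]⟩ hb').symm
  have h2 : ∀ z z' : A, ∑ i, cfr δ w i * α (cfr' δ w' i * b * z) * z' =
      ∑ i, b * cfr δ w i * α (cfr' δ w' i * z) * z' := fun z z' =>
    (h.slide_left hL (F := fun x x' => x * α (x' * z) * z')
      ⟨fun _ _ _ => by simp only [add_mul], fun _ _ _ => by simp only [smul_mul_assoc],
        fun _ _ _ => by simp only [mul_add, map_add, add_mul],
        fun _ _ _ => by simp only [mul_smul_comm, map_smul, smul_mul_assoc]⟩ hb).symm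
  unfold trB
  calc ∑ i, ∑ j, cfr δ w i * α (cfr' δ w' i * (b * y * b') * cfr' δ w' j) * cfr δ w j
      = ∑ i, ∑ j, cfr δ w i * α (cfr' δ w' i * b * y * cfr' δ w' j) * (cfr δ w j * b') := by
        refine Finset.sum_congr rfl fun i _ => ?_
        rw [← h1]
        simp only [mul_assoc]
    _ = ∑ j, ∑ i, b * cfr δ w i * α (cfr' δ w' i * (y * cfr' δ w' j)) * (cfr δ w j * b') := by
        rw [Finset.sum_comm]
        refine Finset.sum_congr rfl fun j _ => ?_
        rw [← h2]
        simp only [mul_assoc]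
    _ = _ := by
        rw [Finset.sum_comm]
        simp only [Finset.mul_sum, Finset.sum_mul, mul_assoc]

/-- `y * cfr' (l, v)` has component `1` equal to `c l * v⁻¹`. -/
lemma CUnits.isFrame (h : CUnits δ φ w w' a)
    (hL : ∀ x, x ∈ L ↔ ∃ c : E → MonoidAlgebra R D, x = ∑ l, hatI R δ (c l) * w l)
    {s : A →ₗ[R] R} (hs : ∀ c : E → MonoidAlgebra R D,
      s (∑ l, hatI R δ (c l) * w l) = (c 1).coeff 1)
    (hsymm : ∀ x ∈ L, ∀ y ∈ L, s (x * y) = s (y * x)) :
    IsFrame s L.toSubmodule (cfr δ w) (cfr' δ w') := by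
  classical
  obtain ⟨-, -, -, h4, h5⟩ := h.mem hL
  refine ⟨h4, h5, hsymm, fun y hy => ?_⟩
  have hs' : ∀ n u, s (δ u * w n) = if n = 1 ∧ u = 1 then 1 else 0 := fun n u => by
    have := hs (Pi.single n (single u 1))
    rw [frfin_gen, hatI_single, one_smul] at this
    rw [this]
    by_cases hn : n = 1
    · subst hn
      rw [Pi.single_eq_same, MonoidAlgebra.coeff_single, Finsupp.single_apply]
      simp
    · rw [Pi.single_eq_of_ne (Ne.symm hn)]
      simp [hn]
  have hy' := (frfin_span δ w y).2 ((hL y).1 hy)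
  clear hy
  induction hy' using Submodule.span_induction with
  | mem x hx =>
    obtain ⟨⟨m, u⟩, rfl⟩ := hx
    rw [Finset.sum_eq_single (m, u)]
    · have : cfr δ w (m, u) * cfr' δ w' (m, u) = δ 1 * w 1 := by
        simp only [cfr, cfr']
        rw [mul_assoc, ← mul_assoc (w m), h.inv, one_mul, delta_mul_inv, h.one, map_one, mul_one]
      rw [this, hs']
      simp
    · rintro ⟨l, v⟩ - hne
      obtain ⟨n, rfl⟩ : ∃ n, m = n * l := ⟨m * l⁻¹, by simp⟩
      obtain ⟨k, hk⟩ := (h.unit n l).exists_left_inv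
      have e : w (n * l) * w' l = k • w n := by
        rw [← one_smul R (w (n * l)), ← hk, ← smul_smul, ← h.mul, smul_mul_assoc, mul_assoc, h.inv,
          mul_one]
      have : cfr δ w (n * l, u) * cfr' δ w' (l, v) = k • (δ (u * φ n v⁻¹) * w n) := by
        simp only [cfr, cfr']
        rw [mul_assoc, ← mul_assoc (w _), e, smul_mul_assoc, h.comm, mul_smul_comm, map_mul,
          mul_assoc]
      rw [this, map_smul, hs', if_neg, smul_zero, zero_smul]
      rintro ⟨rfl, h2⟩
      apply hne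
      rw [map_one, MulAut.one_apply, mul_inv_eq_one] at h2
      rw [h2, one_mul]
    · simp
  | zero => simp
  | add x y _ _ hx hy => simp only [add_mul, map_add, add_smul, Finset.sum_add_distrib, hx, hy]
  | smul r x _ hx =>
    simp only [smul_mul_assoc, map_smul, smul_assoc, ← Finset.smul_sum, hx]

omit [Fintype D] [Group E] [Fintype E] in
lemma frfin_absorb {ρ : MonoidAlgebra R D} (h : ∀ u, single u 1 * ρ = ρ) (c : MonoidAlgebra R D) :
    c * ρ = augI R D c • ρ := by
  induction c using MonoidAlgebra.induction_linear with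
  | zero => simp
  | add a b ha hb => rw [add_mul, map_add, add_smul, ha, hb]
  | single u r =>
    have : (single u r : MonoidAlgebra R D) = r • single u 1 := by simp
    rw [augI, hatI_single, MonoidHom.one_apply, smul_eq_mul, mul_one, this, smul_mul_assoc, h]

omit [Fintype D] [Group E] [Fintype E] in
lemma frfin_hat_left {r : A →ₗ[R] MonoidAlgebra R D} (h : ∀ u x, r (δ u * x) = single u 1 * r x)
    (c : MonoidAlgebra R D) (x : A) : r (hatI R δ c * x) = c * r x := by
  induction c using MonoidAlgebra.induction_linear with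
  | zero => simp
  | add a b ha hb => rw [map_add, add_mul, add_mul, map_add, ha, hb]
  | single u s =>
    have : (single u s : MonoidAlgebra R D) = s • single u 1 := by simp
    rw [hatI_single, smul_mul_assoc, map_smul, h, this, smul_mul_assoc]

omit [Group E] [Fintype E] in
lemma frfin_free {ψ ψ' : MulAut D} (h : ∀ u, ψ u = ψ' u → u = 1) (g : D) :
    ∃ u, ψ u * (ψ' u)⁻¹ = g := by
  refine Finite.surjective_of_injective (f := fun u => ψ u * (ψ' u)⁻¹) (fun u v e => ?_) g
  have e' : ψ u * (ψ' u)⁻¹ = ψ v * (ψ' v)⁻¹ := e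
  refine mul_inv_eq_one.1 (h _ ?_)
  rw [map_mul, map_mul, map_inv, map_inv]
  calc ψ u * (ψ v)⁻¹ = ψ u * (ψ' u)⁻¹ * (ψ' u * (ψ v)⁻¹) := by group
    _ = ψ v * (ψ v)⁻¹ * (ψ' u * (ψ' v)⁻¹) := by rw [e']; ac_rfl
    _ = _ := by rw [mul_inv_cancel, one_mul]

/-- The two-sided trace as a linear map. -/
def frfinT {ι : Type} [Fintype ι] (f f' : ι → A) (α : A →ₗ[R] A) : A →ₗ[R] A where
  toFun := trB f f' α
  map_add' x y := by simp only [trB, mul_add, add_mul, map_add, Finset.sum_add_distrib]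
  map_smul' r x := by
    simp only [trB, mul_smul_comm, smul_mul_assoc, map_smul, Finset.smul_sum, RingHom.id_apply]

lemma CUnits.trB_eq (h : CUnits δ φ w w' a) (t : A → A) (y : A) :
    trB (cfr δ w) (cfr' δ w') t y = ∑ l, ∑ m,
      w l * (∑ u, ∑ v, δ u * t (δ u⁻¹ * (w' l * y * w' m) * δ v) * δ v⁻¹) * w m := by
  unfold trB
  rw [Fintype.sum_prod_type]
  refine Finset.sum_congr rfl fun l _ => ?_
  simp only [Fintype.sum_prod_type]
  rw [Finset.sum_comm]
  refine Finset.sum_congr rfl fun m _ => ?_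
  rw [Finset.mul_sum, Finset.sum_mul]
  refine (Fintype.sum_equiv (φ l).toEquiv _ _ fun u => ?_).symm
  rw [Finset.mul_sum, Finset.sum_mul]
  refine Fintype.sum_equiv (Equiv.inv D) _ _ fun v => ?_
  change _ = δ (φ l u) * w l * t (w' l * δ (φ l u)⁻¹ * y * (w' m * δ v⁻¹⁻¹)) * (δ v⁻¹ * w m)
  rw [← h.comm, ← map_inv (φ l), ← h.comm', inv_inv]
  simp only [mul_assoc]

variable [IsLocalRing R]

lemma frfin_inMax {x : R} : InMax R x ↔ x ∈ maximalIdeal R := by
  rw [InMax, smul_eq_mul, Ideal.mul_top]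

/-- `A` is the crossed product `L` up to a projective bimodule. -/
structure FinD (δ : D →* A) (φ : E →* MulAut D) (w w' : E → A) (a : E → E → R)
    (L : Subalgebra R A) (r α : A →ₗ[R] A) : Prop where
  cu : CUnits δ φ w w' a
  mem : ∀ x, x ∈ L ↔ ∃ c : E → MonoidAlgebra R D, x = ∑ l, hatI R δ (c l) * w l
  pure : ∀ c : E → MonoidAlgebra R D, InMax R (∑ l, hatI R δ (c l) * w l) → ∀ l, InMax R (c l)
  r_mem : ∀ y, r y ∈ L
  r_mul : ∀ b ∈ L, ∀ b' ∈ L, ∀ y, r (b * y * b') = b * r y * b'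
  r_one : r 1 = 1
  hig : ∀ y, r y + trB (cfr δ w) (cfr' δ w') α y = y

end ring

variable {R D E A : Type} [CommRing R] [IsDomain R] [ValuationRing R] [CommGroup D] [Fintype D]
  [Group E] [Fintype E] [Ring A] [Algebra R A] [Module.Finite R A] [Module.IsTorsionFree R A]
  {δ : D →* A} {φ : E →* MulAut D} {w w' : E → A} {a : E → E → R} {p : ℕ}

/-- `exists_normal_units` for `Gr l = {x | ∀ u, x * δ u = δ (φ l u) * x}`; `a l m` is a unit since
`a l m • 1` is a unit and `1 ∉ 𝔪 A`. -/
lemma CorI.exists_cUnits (hs : Std p R D) (hE : ¬ p ∣ Fintype.card E) (h : CorI R δ ⊥ (PQ φ ⊥))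
    (hu : ∀ l, ∃ x x' : A, x * x' = 1 ∧ x' * x = 1 ∧ ∀ u, x * δ u = δ (φ l u) * x) :
    ∃ (w w' : E → A) (a : E → E → R), CUnits δ φ w w' a := by
  let Gr : E → Submodule R A := fun l =>
    { carrier := {x | ∀ u, x * δ u = δ (φ l u) * x}
      add_mem' := fun ha hb u => by rw [add_mul, mul_add, ha u, hb u]
      zero_mem' := fun u => by rw [zero_mul, mul_zero]
      smul_mem' := fun r x hx u => by rw [smul_mul_assoc, mul_smul_comm, hx u] }
  have hGr : ∀ l x, x ∈ Gr l ↔ ∀ u, x * δ u = δ (φ l u) * x := fun _ _ => Iff.rfl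
  have h1 : ∀ x, x ∈ Gr 1 ↔ FixedBy (cjI R δ) ⊤ x := fun x => by
    rw [hGr, fixedBy_cjI_iff, map_one]
    exact ⟨fun h u _ => (h u).symm, fun h u => (h u trivial).symm⟩
  have h2 : Gr 1 = bouc_fix (cjI R δ) ⊤ := Submodule.ext h1
  obtain ⟨w, w', a, hw, i1, i2, o, m⟩ := exists_normal_units hs.split
    (bouc_unit hs.prime hs.pR hE) Gr
    (fun l m x hx y hy u => by
      rw [mul_assoc, hy u, ← mul_assoc, hx, map_mul, MulAut.mul_apply, mul_assoc])
    (fun u => by rw [map_one, one_mul, mul_one]; rfl) (h2 ▸ fix_fg ⊤)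
    (fun z hz => h.loc z ((h1 z).1 hz)) h.ne (fun l => by
      obtain ⟨x, x', e1, e2, hx⟩ := hu l
      refine ⟨x, hx, x', fun u => ?_, e1, e2⟩
      have e := hx (φ l⁻¹ u)
      rw [← MulAut.mul_apply, ← map_mul, mul_inv_cancel, map_one, MulAut.one_apply] at e
      calc x' * δ u = x' * (δ u * x) * x' := by rw [mul_assoc, mul_assoc, e1, mul_one]
        _ = δ (φ l⁻¹ u) * x' := by rw [← e, ← mul_assoc, e2, one_mul])
  refine ⟨w, w', a, o, i1, i2, hw, m, fun l n => ?_⟩
  by_contra hn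
  apply h.ne
  have : (1 : A) = w l * w n * (w' n * w' l) := by
    rw [mul_assoc, ← mul_assoc (w n), i1, one_mul, i1]
  rw [this, m, smul_mul_assoc]
  exact inMax_smul ((mem_maximalIdeal _).2 hn) _

omit [Module.Finite R A] [Module.IsTorsionFree R A] in
/-- `rk1span_split` with `σ l = (biI R (MonoidAlgebra.of R D)).comp (id × φ l)`,
`ι l c = hat c * w l`, `B = S₀ = ⊥`: if `x` is fixed by `dg (φ l) S` then `x * w' l` commutes with
`S.map (φ l)`; use `CorI.ls`, `rtr_bot`, `rtr_bot_top`. -/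
lemma CorI.split (h : CorI R δ ⊥ (PQ φ ⊥)) (hw : CUnits δ φ w w' a) :
    ∃ (r : E → A →ₗ[R] MonoidAlgebra R D) (t : A →ₗ[R] A),
      (∀ l u x, r l (δ u * x) = single u 1 * r l x) ∧
      (∀ l u x, r l (x * δ u) = r l x * single (φ l u) 1) ∧
      ∀ x, x = ∑ l, hatI R δ (r l x) * w l + ∑ u, ∑ v, δ u * t (δ u⁻¹ * x * δ v) * δ v⁻¹ := by
  let σ : E → Representation R (D × D) (MonoidAlgebra R D) := fun l =>
    (biI R (MonoidAlgebra.of R D)).comp ((MonoidHom.id D).prodMap (φ l).toMonoidHom)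
  have hσ : ∀ l g c, σ l g c = single g.1 1 * (c * single (φ l g.2)⁻¹ 1) := fun _ _ _ => rfl
  let ι : E → MonoidAlgebra R D →ₗ[R] A := fun l =>
    LinearMap.mulRight R (w l) ∘ₗ (hatI R δ).toLinearMap
  have hι : ∀ l c, ι l c = hatI R δ c * w l := fun _ _ => rfl
  obtain ⟨r, t, hr, -, hx⟩ := rk1span_split (ρ := biI R δ) (Pr := PQ φ ⊥) σ ι
    (fun l g _ c => by
      rw [hι, hι, hσ, biI_apply, map_mul, map_mul, hatI_single, hatI_single, one_smul, one_smul,
        mul_assoc, mul_assoc, mul_assoc, hw.comm, map_inv (φ l)]) ⊥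
    (by
      rintro _ ⟨l, S, -, -, rfl⟩ x hx
      rw [fixedBy_biI_dg] at hx
      have hz : FixedBy (cjI R δ) (S.map (φ l).toMonoidHom) (x * w' l) := by
        rw [fixedBy_cjI_iff]
        rintro _ ⟨u, hu, rfl⟩
        change δ (φ l u) * _ = _ * δ (φ l u)
        rw [← mul_assoc, hx u hu, mul_assoc, hw.comm', mul_assoc]
      obtain ⟨c, m, e⟩ := h.ls _ bot_le _ hz
      refine ⟨l, c, ⊥, m * w l, fun g hg => ?_, bot_le, le_rfl, tr_fixedBy_bot _ _, ?_⟩
      · rw [hσ, (mem_dg.1 hg).2, mul_comm c, ← mul_assoc, MonoidAlgebra.single_mul_single,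
          mul_inv_cancel, mul_one, ← MonoidAlgebra.one_def, one_mul]
      · classical
        have e1 : rtr (cjI R δ) ⊥ (S.map (φ l).toMonoidHom) m =
            ∑ u : S, cjI R δ (φ l u) m := by
          refine rtr_eq_sum bot_le (tr_fixedBy_bot _ _) (fun u : S => φ l u)
            (fun u => ⟨u, u.2, rfl⟩) ?_
          rintro _ ⟨u, hu, rfl⟩
          refine ⟨⟨u, hu⟩, by simp, fun v hv => Subtype.ext ?_⟩
          change _ ∈ (⊥ : Subgroup D) at hv
          rw [Subgroup.mem_bot, inv_mul_eq_one] at hv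
          exact (φ l).injective hv
        have e2 : rtr (biI R δ) ⊥ (dg (φ l) S) (m * w l) =
            ∑ u : S, biI R δ (φ l u, u) (m * w l) := by
          refine rtr_eq_sum bot_le (tr_fixedBy_bot _ _) (fun u : S => ((φ l u, u) : D × D))
            (fun u => mem_dg.2 ⟨u.2, rfl⟩) ?_
          intro g hg
          obtain ⟨h1, h2⟩ := mem_dg.1 hg
          refine ⟨⟨g.2, h1⟩, ?_, fun v hv => Subtype.ext ?_⟩
          · change _ ∈ (⊥ : Subgroup (D × D))
            rw [Subgroup.mem_bot, inv_mul_eq_one]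
            exact Prod.ext h2.symm rfl
          · change _ ∈ (⊥ : Subgroup (D × D)) at hv
            rw [Subgroup.mem_bot, inv_mul_eq_one] at hv
            exact congrArg Prod.snd hv
        calc x = x * w' l * w l := by rw [mul_assoc, hw.inv', mul_one]
          _ = _ := by
            rw [e, add_mul, hι, e1, e2, Finset.sum_mul]
            congr 1
            refine Finset.sum_congr rfl fun u _ => ?_
            rw [cjI_apply, biI_apply, mul_assoc, mul_assoc, mul_assoc, hw.comm, map_inv (φ l)]) h.pl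
  refine ⟨r, t, fun l u x => ?_, fun l u x => ?_, fun x => ?_⟩
  · have := hr l (u, 1) trivial x
    rwa [hσ, biI_apply, inv_one, map_one, mul_one, map_one, inv_one, ← MonoidAlgebra.one_def,
      mul_one] at this
  · have := hr l (1, u⁻¹) trivial x
    rwa [hσ, biI_apply, inv_inv, map_one, one_mul, map_inv, inv_inv, ← MonoidAlgebra.one_def,
      one_mul] at this
  · have := hx x
    rw [rtr_bot_top, Fintype.sum_prod_type, LinearMap.id_apply] at this
    refine this.trans ?_
    congr 1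
    simp only [LinearMap.sum_apply, Representation.linHom_apply, LinearMap.comp_apply, biI_apply,
      Prod.fst_inv, Prod.snd_inv, inv_inv, mul_assoc]

omit [Module.Finite R A] [Module.IsTorsionFree R A] in
/-- Let `N = ∑ u, single u 1`.  For `l ≠ m`, `c = r l (w m)` satisfies `φ m u * c = c * φ l u`; the
map `u ↦ φ m u * (φ l u)⁻¹` is injective by freeness, so bijective, so `c` is a multiple of `N`.
From `1 = hat (r m (w m)) + ∑ (multiples of hat N * w l * w' m) + rtr ⊥ ⊤ _` and `CorI.loc`,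
`CorI.nt` (`exists_nil_submodule`; `N ^ 2 = |D| N`) the element `r m (w m)` has unit augmentation.
If `∑ hat (c m) * w m ∈ 𝔪 A`, apply `r l`: `c l * r l (w l)` is a multiple of `N` modulo `𝔪`, so all
`aug (c m)` lie in `𝔪`, so `c l * r l (w l) ∈ 𝔪`. -/
lemma CorI.pure [Module.Finite R A] [Nontrivial D] (hs : Std p R D)
    (hfree : ∀ l u, φ l u = u → l = 1 ∨ u = 1)
    (h : CorI R δ ⊥ (PQ φ ⊥)) (hw : CUnits δ φ w w' a) (c : E → MonoidAlgebra R D)
    (hc : InMax R (∑ l, hatI R δ (c l) * w l)) (l : E) : InMax R (c l) := by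
  classical
  obtain ⟨r, t, hl, hr, hx⟩ := h.split hw
  have hab : ∀ l m, l ≠ m → ∀ g, single g 1 * r l (w m) = r l (w m) := fun l m hlm g => by
    obtain ⟨u, rfl⟩ := frfin_free (ψ := φ m) (ψ' := φ l) (fun u e => by
      refine (hfree (l⁻¹ * m) u ?_).resolve_left fun e' => hlm (inv_mul_eq_one.1 e')
      rw [map_mul, MulAut.mul_apply, e, ← MulAut.mul_apply, ← map_mul, inv_mul_cancel, map_one,
        MulAut.one_apply]) g
    have e := hr l u (w m)
    rw [hw.comm, hl] at e
    rw [mul_comm (φ m u), ← mul_one (1 : R), ← MonoidAlgebra.single_mul_single, mul_assoc, e,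
      mul_comm (r l (w m)), ← mul_assoc, MonoidAlgebra.single_mul_single, inv_mul_cancel, mul_one,
      ← MonoidAlgebra.one_def, one_mul]
  have hau : ∀ l m, l ≠ m → augI R D (r l (w m)) ∈ maximalIdeal R := fun l m hlm => by
    by_contra hn
    obtain ⟨g, hg⟩ := exists_ne (1 : D)
    have e := hab l m hlm g
    rw [(hs.isUnit_of_aug hn).mul_eq_right] at e
    have := congrArg (fun z : MonoidAlgebra R D => z.coeff g) e
    simp [MonoidAlgebra.one_def, Finsupp.single_eq_of_ne hg] at this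
  obtain ⟨W, hW⟩ := exists_nil_submodule hs.split (fixI R δ ⊤) (one_mul (1 : A)) (one_mem _)
    (fun z hz => by simpa only [one_mul, mul_one] using h.loc z hz)
  simp only [one_mul, mul_one, mem_fixI] at hW
  have hun : ∀ m, augI R D (r m (w m)) ∉ maximalIdeal R := fun m hm => by
    have h1 : (1 : A) ∈ W := by
      rw [← hw.inv m, hx (w m), add_mul, Finset.sum_mul]
      refine W.add_mem (W.sum_mem fun l _ => ?_) ?_
      · by_cases e : l = m
        · subst e
          rw [mul_assoc, hw.inv, mul_one, ← sub_add_cancel (hatI R δ _) (augI R D (r l (w l)) • 1)]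
          refine W.add_mem ((hW _).2 ⟨?_, hs.nil_hat δ _⟩) ((hW _).2 ⟨?_, ?_⟩)
          · exact (fixI R δ ⊤).sub_mem (hatI_fixed _ _) ((fixI R δ ⊤).smul_mem (one_mem _) _)
          · exact (fixI R δ ⊤).smul_mem (one_mem _) _
          · exact (inMax_smul hm _).nilR
        · have a2 : ∀ g, δ g * hatI R δ (r l (w m)) = hatI R δ (r l (w m)) := fun g => by
            rw [← one_smul R (δ g), ← hatI_single, ← map_mul, hab l m e]
          have a3 : ∀ g, hatI R δ (r l (w m)) * δ g = hatI R δ (r l (w m)) := fun g => by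
            rw [← one_smul R (δ g), ← hatI_single, ← map_mul, mul_comm, hab l m e]
          have a4 : ∀ g, hatI R δ (r l (w m)) * w l * w' m * δ g =
              hatI R δ (r l (w m)) * w l * w' m := fun g => by
            obtain ⟨g, rfl⟩ := (φ m).surjective g
            rw [mul_assoc _ (w' m), ← hw.comm', ← mul_assoc, mul_assoc _ (w l), hw.comm,
              ← mul_assoc, a3]
          refine (hW _).2 ⟨fixedBy_cjI_iff.2 fun g _ => ?_, 2, ?_⟩
          · rw [a4, ← mul_assoc, ← mul_assoc, a2]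
          · have a5 : ∀ c, hatI R δ (r l (w m)) * w l * w' m * hatI R δ c =
                augI R D c • (hatI R δ (r l (w m)) * w l * w' m) := fun c => by
              rw [augI_apply, Finset.sum_smul, hatI_apply c, Finset.mul_sum]
              exact Finset.sum_congr rfl fun g _ => by rw [mul_smul_comm, a4]
            rw [pow_two, ← mul_assoc, ← mul_assoc, a5, smul_mul_assoc, smul_mul_assoc]
            exact inMax_smul (hau l m e) _
      · have e : (∑ u, ∑ v, δ u * t (δ u⁻¹ * w m * δ v) * δ v⁻¹) * w' m =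
            rtr (cjI R δ) ⊥ ⊤ (∑ s, δ s * t (δ s⁻¹ * w m) * w' m) := by
          rw [rtr_bot_top, Finset.sum_comm, Finset.sum_mul]
          refine Fintype.sum_equiv (φ m).toEquiv _ _ fun v => ?_
          rw [Finset.sum_mul, map_sum]
          refine (Fintype.sum_equiv (Equiv.mulLeft (φ m v)) _ _ fun s => ?_).symm
          change δ (φ m v) * (δ s * t (δ s⁻¹ * w m) * w' m * δ (φ m v)⁻¹) =
            δ (φ m v * s) * t (δ (φ m v * s)⁻¹ * w m * δ v) * δ v⁻¹ * w' m
          rw [mul_assoc _ (w m), hw.comm, ← mul_assoc (δ _) (δ _), ← map_mul, mul_inv_rev,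
            inv_mul_cancel_right, mul_assoc _ (δ v⁻¹), hw.comm', map_inv (φ m), map_mul δ]
          simp only [mul_assoc]
        rw [e]
        have := rtr_mem_brK (ρ := cjI R δ) bot_lt_top
          (tr_fixedBy_bot _ (∑ s, δ s * t (δ s⁻¹ * w m) * w' m))
        exact (hW _).2 ⟨brK_fixed this, h.nt _ this⟩
    obtain ⟨n, hn⟩ := ((hW _).1 h1).2
    rw [one_pow] at hn
    exact h.ne hn
  have hc' : ∀ l, InMax R (c l * r l (w l) + ∑ m ∈ Finset.univ.erase l, c m * r l (w m)) :=
    fun l => by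
      have := idem_inMax_map (r l) hc
      rw [map_sum, ← Finset.add_sum_erase _ _ (Finset.mem_univ l)] at this
      simpa only [frfin_hat_left (hl l)] using this
  have hc2 : ∀ l, augI R D (c l) ∈ maximalIdeal R := fun l => by
    have := frfin_inMax.1 (idem_inMax_map (augI R D).toLinearMap (hc' l))
    rw [AlgHom.toLinearMap_apply, map_add, map_sum, map_mul,
      Ideal.add_mem_iff_left _ (Ideal.sum_mem _ fun m hm => by
        rw [map_mul]
        exact Ideal.mul_mem_left _ _ (hau l m (Finset.ne_of_mem_erase hm).symm))] at this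
    exact ((maximalIdeal.isMaximal R).isPrime.mem_or_mem this).resolve_right (hun l)
  have h3 : InMax R (c l * r l (w l)) := by
    refine (Submodule.add_mem_iff_left _ (Submodule.sum_mem _ fun m hm => ?_)).1 (hc' l)
    rw [frfin_absorb (hab l m (Finset.ne_of_mem_erase hm).symm)]
    exact inMax_smul (hc2 m) _
  obtain ⟨k, hk⟩ := (hs.isUnit_of_aug (hun l)).exists_right_inv
  have := idem_inMax_mul_right k h3
  rwa [mul_assoc, hk, mul_one] at this

/-- With `t` from `CorI.split` put `α₀ = |E|⁻² • t` and `r₀ = id - trB α₀`.  Expanding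
`y = |E|⁻² ∑ l m, w l * (w' l * y * w' m) * w m` shows that `r₀` has values in `L`; it is a bimodule
map by `CUnits.trB_mul`.  `trB α₀ 1` is a trace from `⊥` (`slide_right`), so nilpotent, and
`ζ = r₀ 1` is a central unit of `L` (`exists_inv_mem`).  Put `r = ζ⁻¹ r₀`, `α = α₀ - α₀ ∘ r`. -/
theorem CorI.exists_finD [Nontrivial D] (hs : Std p R D) (hE : ¬ p ∣ Fintype.card E)
    (hfree : ∀ l u, φ l u = u → l = 1 ∨ u = 1) (h : CorI R δ ⊥ (PQ φ ⊥))
    (hu : ∀ l, ∃ x x' : A, x * x' = 1 ∧ x' * x = 1 ∧ ∀ u, x * δ u = δ (φ l u) * x) :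
    ∃ (w w' : E → A) (a : E → E → R) (L : Subalgebra R A) (r α : A →ₗ[R] A),
      FinD δ φ w w' a L r α := by
  obtain ⟨w, w', a, hw⟩ := h.exists_cUnits hs hE hu
  obtain ⟨L, hL⟩ := hw.exists_alg
  obtain ⟨m1, m2, m3, m4, m5⟩ := hw.mem hL
  obtain ⟨r, t, -, -, hx⟩ := h.split hw
  obtain ⟨k, hk⟩ := (bouc_unit hs.prime hs.pR hE).exists_left_inv
  set T : A →ₗ[R] A := frfinT (cfr δ w) (cfr' δ w') ((k * k) • t) with hT
  have hT' : ∀ y, T y = trB (cfr δ w) (cfr' δ w') ((k * k) • t : A →ₗ[R] A) y := fun _ => rfl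
  have hTm : ∀ b ∈ L, ∀ b' ∈ L, ∀ y, T (b * y * b') = b * T y * b' := fun b hb b' hb' y =>
    hw.trB_mul hL _ hb hb' y
  have h0 : ∀ y, y - T y ∈ L := fun y => by
    have e1 : T y = (k * k) • trB (cfr δ w) (cfr' δ w') t y := by
      simp only [hT', trB, LinearMap.smul_apply, mul_smul_comm, smul_mul_assoc, Finset.smul_sum]
    have e2 : y = (k * k) • ∑ l : E, ∑ m : E, w l * (w' l * y * w' m) * w m := by
      have : ∀ l m, w l * (w' l * y * w' m) * w m = y := fun l m => by
        rw [← mul_assoc, ← mul_assoc, hw.inv, one_mul, mul_assoc, hw.inv', mul_one]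
      simp only [this, Finset.sum_const, Finset.card_univ, ← Nat.cast_smul_eq_nsmul R, smul_smul]
      rw [mul_mul_mul_comm, hk, one_mul, one_smul]
    rw [e1, hw.trB_eq]
    nth_rw 1 [e2]
    rw [← smul_sub, ← Finset.sum_sub_distrib]
    refine L.smul_mem (L.sum_mem fun l _ => ?_) _
    rw [← Finset.sum_sub_distrib]
    refine L.sum_mem fun m _ => ?_
    rw [← sub_mul, ← mul_sub]
    refine L.mul_mem (L.mul_mem (m2 l) ?_) (m2 m)
    rw [sub_eq_iff_eq_add.2 (hx (w' l * y * w' m))]
    exact (hL _).2 ⟨_, rfl⟩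
  have hn : NilR R (T 1) := by
    have e : T 1 = rtr (cjI R δ) ⊥ ⊤
        (∑ l, ∑ j, w l * ((k * k) • t : A →ₗ[R] A) (w' l * cfr' δ w' j) * cfr δ w j) := by
      rw [rtr_bot_top, hT', trB, Fintype.sum_prod_type, Finset.sum_comm]
      refine Finset.sum_congr rfl fun u _ => ?_
      rw [map_sum]
      refine Finset.sum_congr rfl fun l _ => ?_
      have := hw.slide_right hL
        (F := fun x x' => δ u * w l * ((k * k) • t : A →ₗ[R] A) (w' l * x') * x)
        ⟨fun _ _ _ => by simp only [mul_add], fun _ _ _ => by simp only [mul_smul_comm],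
          fun _ _ _ => by simp only [mul_add, map_add, add_mul],
          fun _ _ _ => by simp only [mul_smul_comm, map_smul, smul_mul_assoc]⟩ (m1 u⁻¹)
      rw [cjI_apply, Finset.sum_mul, Finset.mul_sum]
      refine Eq.trans ?_ (this.symm.trans ?_)
      · refine Finset.sum_congr rfl fun j _ => ?_
        rw [mul_one]
        simp only [cfr, cfr', mul_assoc]
      · simp only [mul_assoc]
    rw [e]
    exact h.nt _ (rtr_mem_brK bot_lt_top (tr_fixedBy_bot _ _))
  obtain ⟨z, hz, z1, z2⟩ := exists_inv_mem hs.split L (h0 1) hn.isUnit_one_sub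
  have hc : ∀ b ∈ L, b * (1 - T 1) = (1 - T 1) * b := fun b hb => by
    have e1 := hTm b hb 1 L.one_mem 1
    have e2 := hTm 1 L.one_mem b hb 1
    simp only [mul_one, one_mul] at e1 e2
    rw [mul_sub, sub_mul, ← e1, ← e2, mul_one, one_mul]
  have hzc : ∀ b ∈ L, z * b = b * z := fun b hb => by
    calc z * b = z * (b * (1 - T 1)) * z := by rw [mul_assoc, mul_assoc, z2, mul_one]
      _ = b * z := by rw [hc b hb, ← mul_assoc, z1, one_mul]
  set ρ : A →ₗ[R] A := LinearMap.mulLeft R z ∘ₗ (LinearMap.id - T) with hρ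
  have hρ' : ∀ y, ρ y = z * (y - T y) := fun _ => rfl
  have hρm : ∀ b ∈ L, ∀ b' ∈ L, ∀ y, ρ (b * y * b') = b * ρ y * b' := fun b hb b' hb' y => by
    rw [hρ', hρ', hTm b hb b' hb', ← sub_mul, ← mul_sub, ← mul_assoc, ← mul_assoc, hzc b hb,
      mul_assoc b z]
  have hρL : ∀ y, ρ y ∈ L := fun y => L.mul_mem hz (h0 y)
  refine ⟨w, w', a, L, ρ, (k * k) • t - ((k * k) • t) ∘ₗ ρ, hw, hL,
    h.pure hs hfree hw, hρL, hρm, by rw [hρ', z1], fun y => ?_⟩
  have e1 : trB (cfr δ w) (cfr' δ w') ((k * k) • t - ((k * k) • t) ∘ₗ ρ : A →ₗ[R] A) y =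
      T y - T (ρ y) := by
    simp only [hT', trB, LinearMap.sub_apply, LinearMap.comp_apply, hρm _ (m5 _) _ (m5 _), mul_sub,
      sub_mul, Finset.sum_sub_distrib]
  have e2 := hTm 1 L.one_mem _ (hρL y) 1
  simp only [one_mul] at e2
  have e3 : (1 - T 1) * ρ y = y - T y := by rw [hρ', ← mul_assoc, z2, one_mul]
  rw [e1, e2, ← add_sub_assoc, add_sub_right_comm, ← one_sub_mul, e3, sub_add_cancel]

end Pool.Agent.Lib.MP_b6945b_al.St
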