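import Pool.Agent.Lib.MP_b6945b_al.St.Trunc

set_option autoImplicit false

/-!
Primitive idempotents in blocks with a central defect group.
-/

namespace Pool.Agent.Lib.MP_b6945b_al.St

open IsLocalRing
open MonoidAlgebra (single)

variable {R C : Type} [CommRing R] [IsLocalRing R] [Group C] [Fintype C] {p : ℕ}
  {D : Subgroup C}

/-- A primitive idempotent. -/
structure Prim {A : Type} [Ring A] (j : A) : Prop where
  idem : j * j = j
  ne : j ≠ 0
  prim : ∀ ε, ε * ε = ε → j * ε = ε → ε * j = ε → ε = 0 ∨ ε = j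

variable (R D) in
/-- Reduction modulo the maximal ideal and modulo `D`. -/
noncomputable def redD [D.Normal] :
    MonoidAlgebra R C →+* MonoidAlgebra (ResidueField R) (C ⧸ D) :=
  (inc (ResidueField R) (QuotientGroup.mk' D)).toRingHom.comp (toRes R C)

omit [Fintype C] in
lemma source1_single [D.Normal] (x : C) (r : R) :
    redD R D (single x r) = single (x : C ⧸ D) (residue R r) := by
  change inc (ResidueField R) (QuotientGroup.mk' D) (toRes R C (single x r)) = _
  rw [toRes, MonoidAlgebra.mapRingHom_single, inc_single]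
  rfl

omit [Fintype C] in
lemma source1_toRes_smul (r : R) (x : MonoidAlgebra R C) :
    toRes R C (r • x) = residue R r • toRes R C x := by
  ext y
  simp [coeff_toRes]

omit [Fintype C] in
lemma source1_smul [D.Normal] (r : R) (x : MonoidAlgebra R C) :
    redD R D (r • x) = residue R r • redD R D x := by
  change inc (ResidueField R) (QuotientGroup.mk' D) (toRes R C (r • x)) = _
  rw [source1_toRes_smul, map_smul]
  rfl

omit [Fintype C] in
lemma source1_swap [D.Normal] (x : MonoidAlgebra R C) :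
    redD R D x = toRes R (C ⧸ D) (inc R (QuotientGroup.mk' D) x) := by
  induction x using MonoidAlgebra.induction_linear with
  | zero => rw [map_zero, map_zero, map_zero]
  | add x y hx hy => rw [map_add, map_add, map_add, hx, hy]
  | single m r =>
    rw [source1_single, inc_single, toRes, MonoidAlgebra.mapRingHom_single]
    rfl

omit [Fintype C] in
lemma source1_inMax [D.Normal] {x : MonoidAlgebra R C} (h : InMax R x) : redD R D x = 0 := by
  change inc (ResidueField R) (QuotientGroup.mk' D) (toRes R C x) = 0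
  rw [toRes_eq_zero_iff.2 h, map_zero]

omit [Fintype C] in
lemma source1_nil [D.Normal] {x : MonoidAlgebra R C} (h : NilR R x) : IsNilpotent (redD R D x) := by
  obtain ⟨n, hn⟩ := h
  exact ⟨n, by rw [← map_pow, source1_inMax hn]⟩

omit [Fintype C] in
lemma source1_surj [D.Normal] : Function.Surjective (redD R D) := by
  intro y
  induction y using MonoidAlgebra.induction_linear with
  | zero => exact ⟨0, map_zero _⟩
  | add x y hx hy =>
    obtain ⟨a, rfl⟩ := hx
    obtain ⟨b, rfl⟩ := hy
    exact ⟨a + b, map_add _ _ _⟩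
  | single m r =>
    obtain ⟨g, rfl⟩ := QuotientGroup.mk_surjective m
    obtain ⟨s, rfl⟩ := residue_surjective r
    exact ⟨single g s, source1_single g s⟩

omit [IsLocalRing R] [Fintype C] in
lemma source1_cent (hc : ∀ δ ∈ D, ∀ x, δ * x = x * δ) {δ : C} (hδ : δ ∈ D) (r : R)
    (b : MonoidAlgebra R C) : single δ r * b = b * single δ r :=
  MonoidAlgebra.single_commute (fun x => hc δ hδ x) (fun s => Commute.all r s) b

omit [IsLocalRing R] [Fintype C] in
lemma source1_cent' (hc : ∀ δ ∈ D, ∀ x, δ * x = x * δ) {δ : C} (hδ : δ ∈ D)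
    (b : MonoidAlgebra R C) : (single δ 1 - 1) * b = b * (single δ 1 - 1) := by
  rw [sub_mul, mul_sub, source1_cent hc hδ, one_mul, mul_one]

omit [IsLocalRing R] [Fintype C] in
lemma source1_inc_cent (hc : ∀ δ ∈ D, ∀ x, δ * x = x * δ) (a : MonoidAlgebra R D)
    (b : MonoidAlgebra R C) : inc R D.subtype a * b = b * inc R D.subtype a := by
  induction a using MonoidAlgebra.induction_linear with
  | zero => rw [map_zero, zero_mul, mul_zero]
  | add x y hx hy => rw [map_add, add_mul, mul_add, hx, hy]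
  | single m r =>
    rw [inc_single]
    exact source1_cent hc m.2 r b

omit [Fintype C] in
lemma source1_normal (hc : ∀ δ ∈ D, ∀ x, δ * x = x * δ) : D.Normal :=
  ⟨fun δ hδ g => by rw [← hc δ hδ g, mul_inv_cancel_right]; exact hδ⟩

/-- The kernel of the reduction is generated by the maximal ideal and the `δ - 1`. -/
lemma redD_eq_zero_iff [D.Normal] {x : MonoidAlgebra R C} : redD R D x = 0 ↔
    x ∈ (maximalIdeal R • (⊤ : Submodule R (MonoidAlgebra R C))) ⊔
      Submodule.span R {y | ∃ δ ∈ D, ∃ b, y = (single δ 1 - 1) * b} := by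
  constructor
  · intro h
    classical
    let τ : MonoidAlgebra R (C ⧸ D) →ₗ[R] MonoidAlgebra R C :=
      ∑ q : C ⧸ D, (coef R q).smulRight (single q.out 1)
    have h1 : ∀ (q : C ⧸ D) (r : R), τ (single q r) = single q.out r := by
      intro q r
      simp only [τ, LinearMap.coe_sum, Finset.sum_apply, LinearMap.smulRight_apply, coef_apply]
      rw [Finset.sum_eq_single q]
      · simp
      · intro q' _ hq
        simp [Finsupp.single_eq_of_ne hq]
      · intro hq
        exact (hq (Finset.mem_univ _)).elim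
    have h2 : ∀ y : MonoidAlgebra R C, y - τ (inc R (QuotientGroup.mk' D) y) ∈
        Submodule.span R {y | ∃ δ ∈ D, ∃ b, y = (single δ 1 - 1) * b} := by
      intro y
      induction y using MonoidAlgebra.induction_linear with
      | zero => rw [map_zero, map_zero, sub_zero]; exact Submodule.zero_mem _
      | add a b ha hb =>
        rw [map_add, map_add, add_sub_add_comm]
        exact Submodule.add_mem _ ha hb
      | single g r =>
        rw [inc_single, h1]
        refine Submodule.subset_span ⟨g * ((g : C ⧸ D).out)⁻¹, ?_, single (g : C ⧸ D).out r, ?_⟩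
        · rw [← QuotientGroup.eq_one_iff, QuotientGroup.mk_mul, QuotientGroup.mk_inv,
            QuotientGroup.out_eq', mul_inv_cancel]
        · rw [sub_mul, one_mul, MonoidAlgebra.single_mul_single, inv_mul_cancel_right, one_mul]
          rfl
    rw [source1_swap, toRes_eq_zero_iff] at h
    rw [← add_sub_cancel (τ (inc R (QuotientGroup.mk' D) x)) x]
    exact Submodule.add_mem_sup (idem_inMax_map τ h) (h2 x)
  · intro h
    obtain ⟨a, ha, b, hb, rfl⟩ := Submodule.mem_sup.1 h
    rw [map_add, source1_inMax ha, zero_add]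
    clear h
    induction hb using Submodule.span_induction with
    | mem y hy =>
      obtain ⟨δ, hδ, b, rfl⟩ := hy
      rw [map_mul, map_sub, map_one, source1_single, (QuotientGroup.eq_one_iff δ).2 hδ, map_one,
        ← MonoidAlgebra.one_def, sub_self, zero_mul]
    | zero => exact map_zero _
    | add y z _ _ hy hz => rw [map_add, hy, hz, add_zero]
    | smul r y _ hy => rw [source1_smul, hy, smul_zero]

omit [IsLocalRing R] in
lemma source1_ops {M ι : Type} [AddCommGroup M] [Module R M] (T : ι → Module.End R M)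
    (N P : Submodule R M) (hc : ∀ i j y, T i (T j y) = T j (T i y))
    (hN : ∀ i, ∀ y ∈ N, T i y ∈ N) (hP : ∀ i, ∀ y ∈ P, T i y ∈ P)
    (hnil : ∀ i, ∃ e : ℕ, ∀ y ∈ N, (T i ^ e) y ∈ P) (s : Finset ι)
    (h : N ≤ P ⊔ s.sup fun i => N.map (T i)) : N ≤ P := by
  classical
  induction s using Finset.induction_on with
  | empty => simpa using h
  | insert a s _ ih =>
    refine ih ?_
    have hW : (P ⊔ s.sup fun i => N.map (T i)) ≤
        (P ⊔ s.sup fun i => N.map (T i)).comap (T a) := by
      refine sup_le (fun y hy => Submodule.mem_sup_left (hP a y hy)) (Finset.sup_le fun i hi => ?_)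
      rintro _ ⟨y, hy, rfl⟩
      refine Submodule.mem_sup_right (Finset.le_sup (f := fun i => N.map (T i)) hi ?_)
      exact ⟨T a y, hN a y hy, hc i a y⟩
    rw [Finset.sup_insert, sup_left_comm] at h
    have key : ∀ n : ℕ, ∀ y ∈ N, ∃ y' ∈ N,
        y - (T a ^ n) y' ∈ P ⊔ s.sup fun i => N.map (T i) := by
      intro n
      induction n with
      | zero => exact fun y hy => ⟨y, hy, by simp⟩
      | succ n ihn =>
        intro y hy
        obtain ⟨_, ⟨u, hu, rfl⟩, w, hw, rfl⟩ := Submodule.mem_sup.1 (h hy)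
        obtain ⟨u', hu', h1⟩ := ihn u hu
        refine ⟨u', hu', ?_⟩
        have h2 : T a (u - (T a ^ n) u') ∈ P ⊔ s.sup fun i => N.map (T i) := hW h1
        rw [pow_succ', Module.End.mul_apply, add_sub_right_comm, ← map_sub]
        exact Submodule.add_mem _ h2 hw
    obtain ⟨e, he⟩ := hnil a
    intro y hy
    obtain ⟨y', hy', h1⟩ := key e y hy
    rw [← sub_add_cancel y ((T a ^ e) y')]
    exact Submodule.add_mem _ h1 (Submodule.mem_sup_left (he y' hy'))

omit [Fintype C] in
lemma source1_pow (hp : p.Prime) (hpR : (p : R) ∈ maximalIdeal R) (hD : IsPGroup p D) {δ : C}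
    (hδ : δ ∈ D) (N : Submodule R (MonoidAlgebra R C)) (hs : ∀ y ∈ N, single δ 1 * y ∈ N) :
    ∃ e : ℕ, ∀ y ∈ N, (single δ 1 - 1 : MonoidAlgebra R C) ^ e * y ∈ maximalIdeal R • N := by
  obtain ⟨n, hn⟩ := hD ⟨δ, hδ⟩
  have hn' : δ ^ p ^ n = 1 := congrArg Subtype.val hn
  let S : Subring (MonoidAlgebra R C) :=
    { carrier := {a | ∀ y ∈ N, a * y ∈ N}
      mul_mem' := fun ha hb y hy => by rw [mul_assoc]; exact ha _ (hb y hy)
      one_mem' := fun y hy => by rw [one_mul]; exact hy
      add_mem' := fun ha hb y hy => by rw [add_mul]; exact N.add_mem (ha y hy) (hb y hy)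
      zero_mem' := fun y hy => by rw [zero_mul]; exact N.zero_mem
      neg_mem' := fun ha y hy => by rw [neg_mul]; exact N.neg_mem (ha y hy) }
  let x : S := ⟨single δ 1, hs⟩
  obtain ⟨r, hr⟩ := (Commute.one_right (x - 1)).exists_add_pow_prime_pow_eq hp n
  have hx : x ^ p ^ n = 1 := Subtype.ext (by
    change (single δ 1 : MonoidAlgebra R C) ^ p ^ n = 1
    rw [MonoidAlgebra.single_pow, hn', one_pow, MonoidAlgebra.one_def])
  rw [sub_add_cancel, hx, one_pow, mul_one, mul_assoc] at hr
  have h1 : (x - 1) ^ p ^ n = p * -((x - 1) * r) := by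
    rw [mul_neg]
    refine eq_neg_of_add_eq_zero_left (add_right_cancel (b := 1) ?_)
    rw [zero_add, add_right_comm]
    exact hr.symm
  refine ⟨p ^ n, fun y hy => ?_⟩
  have h2 : (single δ 1 - 1 : MonoidAlgebra R C) ^ p ^ n =
      (p : MonoidAlgebra R C) * (-((x - 1) * r) : S) := congrArg Subtype.val h1
  rw [h2, mul_assoc, ← nsmul_eq_mul, ← Nat.cast_smul_eq_nsmul R]
  exact Submodule.smul_mem_smul hpR ((-((x - 1) * r) : S).2 y hy)

/-- Nakayama: the `δ - 1` are central and `(δ - 1) ^ (p ^ n)` lies in the maximal ideal, so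
iterating gives `N ≤ N₀ ⊔ m • N` (`Submodule.le_of_le_smul_of_le_jacobson_bot`). -/
lemma le_of_le_aug (hp : p.Prime) (hpR : (p : R) ∈ maximalIdeal R) (hD : IsPGroup p D)
    (hc : ∀ δ ∈ D, ∀ x, δ * x = x * δ) (N N₀ : Submodule R (MonoidAlgebra R C)) (hN : N.FG)
    (hs : ∀ δ ∈ D, ∀ y ∈ N, single δ 1 * y ∈ N) (hs₀ : ∀ δ ∈ D, ∀ y ∈ N₀, single δ 1 * y ∈ N₀)
    (h : N ≤ N₀ ⊔ ((maximalIdeal R • N) ⊔
      Submodule.span R {y | ∃ δ ∈ D, ∃ b ∈ N, y = (single δ 1 - 1) * b})) : N ≤ N₀ := by
  classical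
  refine Submodule.le_of_le_smul_of_le_jacobson_bot hN (maximalIdeal_le_jacobson ⊥) ?_
  have hs' : ∀ (W : Submodule R (MonoidAlgebra R C)) (δ : C), (∀ y ∈ W, single δ 1 * y ∈ W) →
      ∀ y ∈ W, (single δ 1 - 1 : MonoidAlgebra R C) * y ∈ W := fun W δ hW y hy => by
    rw [sub_mul, one_mul]
    exact W.sub_mem (hW y hy) hy
  refine source1_ops (fun δ : D => LinearMap.mulLeft R (single (δ : C) 1 - 1)) N _ (fun i j y => ?_)
    (fun i y hy => hs' N i (hs i i.2) y hy) (fun i y hy => ?_) (fun i => ?_) Finset.univ ?_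
  · simp only [LinearMap.mulLeft_apply]
    rw [← mul_assoc, ← mul_assoc, source1_cent' hc i.2]
  · obtain ⟨a, ha, b, hb, rfl⟩ := Submodule.mem_sup.1 hy
    rw [map_add]
    refine Submodule.add_mem_sup (hs' N₀ i (hs₀ i i.2) a ha) ?_
    refine Submodule.smul_induction_on (p := fun b => LinearMap.mulLeft R
      (single (i : C) 1 - 1 : MonoidAlgebra R C) b ∈ maximalIdeal R • N) hb (fun r hr n hn => ?_)
      fun x y hx hy => ?_
    · rw [map_smul]
      exact Submodule.smul_mem_smul hr (hs' N i (hs i i.2) n hn)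
    · rw [map_add]
      exact Submodule.add_mem _ hx hy
  · obtain ⟨e, he⟩ := source1_pow hp hpR hD i.2 N (hs i i.2)
    refine ⟨e, fun y hy => Submodule.mem_sup_right ?_⟩
    rw [LinearMap.pow_mulLeft, LinearMap.mulLeft_apply]
    exact he y hy
  · refine h.trans (sup_le (le_sup_of_le_left le_sup_left)
      (sup_le (le_sup_of_le_left le_sup_right) (le_sup_of_le_right (Submodule.span_le.2 ?_))))
    rintro _ ⟨δ, hδ, b, hb, rfl⟩
    exact Finset.le_sup (f := fun δ : D => N.map (LinearMap.mulLeft R (single (δ : C) 1 - 1)))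
      (Finset.mem_univ ⟨δ, hδ⟩) ⟨b, hb, rfl⟩

lemma source1_add_nil {B : Type} [Ring B] {z w : B} (hz : ∀ b, z * b = b * z) (hn : IsNilpotent z)
    (hw : IsNilpotent w) (u : B) : IsNilpotent (z * u + w) := by
  have h1 : ∀ n : ℕ, ∃ v, (z * u + w) ^ n = z * v + w ^ n := by
    intro n
    induction n with
    | zero => exact ⟨0, by simp⟩
    | succ n ih =>
      obtain ⟨v, hv⟩ := ih
      refine ⟨v * (z * u + w) + w ^ n * u, ?_⟩
      rw [pow_succ, hv, add_mul, mul_add (w ^ n), ← mul_assoc (w ^ n), ← hz (w ^ n), pow_succ,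
        mul_add z, mul_assoc, mul_assoc, add_assoc]
  obtain ⟨n, hn'⟩ := hw
  obtain ⟨v, hv⟩ := h1 n
  rw [hn', add_zero] at hv
  refine IsNilpotent.of_pow (m := n) ?_
  rw [hv]
  exact Commute.isNilpotent_mul_right (hz v) hn

lemma nilR_of_redD [D.Normal] (hp : p.Prime) (hpR : (p : R) ∈ maximalIdeal R)
    (hD : IsPGroup p D) (hc : ∀ δ ∈ D, ∀ x, δ * x = x * δ) {x : MonoidAlgebra R C}
    (h : IsNilpotent (redD R D x)) : NilR R x := by
  let P : Submodule R (MonoidAlgebra R C) :=
    { carrier := {y | ∀ c w, IsNilpotent w → IsNilpotent (toRes R C (y * c) + w)}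
      add_mem' := fun ha hb c w hw => by
        rw [add_mul, map_add, add_assoc]
        exact ha c _ (hb c w hw)
      zero_mem' := fun c w hw => by
        rw [zero_mul, map_zero, zero_add]
        exact hw
      smul_mem' := fun r y hy c w hw => by
        rw [smul_mul_assoc, ← mul_smul_comm]
        exact hy _ w hw }
  have hle : (maximalIdeal R • (⊤ : Submodule R (MonoidAlgebra R C))) ⊔
      Submodule.span R {y | ∃ δ ∈ D, ∃ b, y = (single δ 1 - 1) * b} ≤ P := by
    refine sup_le (fun y hy c w hw => ?_) (Submodule.span_le.2 ?_)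
    · rw [toRes_eq_zero_iff.2 (idem_inMax_mul_right c hy), zero_add]
      exact hw
    · rintro _ ⟨δ, hδ, b, rfl⟩ c w hw
      rw [mul_assoc, map_mul]
      refine source1_add_nil (fun b' => ?_) ?_ hw _
      · obtain ⟨b'', rfl⟩ := toRes_surjective (R := R) b'
        rw [← map_mul, ← map_mul, source1_cent' hc hδ]
      · obtain ⟨e, he⟩ := source1_pow hp hpR hD hδ ⊤ fun _ _ => Submodule.mem_top
        refine ⟨e, ?_⟩
        rw [← map_pow, toRes_eq_zero_iff, ← mul_one (_ ^ e)]
        exact he 1 Submodule.mem_top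
  obtain ⟨n, hn⟩ := h
  rw [← map_pow, redD_eq_zero_iff] at hn
  obtain ⟨e, he⟩ := hle hn 1 0 IsNilpotent.zero
  rw [mul_one, add_zero, ← map_pow, toRes_eq_zero_iff, ← pow_mul] at he
  exact ⟨_, he⟩

omit [Fintype C] in
lemma source1_red_inc [D.Normal] [Fintype D] (a : MonoidAlgebra R D) :
    redD R D (inc R D.subtype a) = residue R (∑ δ, a.coeff δ) • 1 := by
  conv_lhs => rw [eq_sum_single a]
  rw [map_sum, map_sum, map_sum, Finset.sum_smul]
  refine Finset.sum_congr rfl fun δ _ => ?_
  rw [map_smul, source1_smul, inc_single, source1_single,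
    (QuotientGroup.eq_one_iff (D.subtype δ)).2 δ.2, map_one, ← MonoidAlgebra.one_def]

omit [Fintype C] in
lemma source1_unit [Fintype D] (hp : p.Prime) (hpR : (p : R) ∈ maximalIdeal R)
    (hD : IsPGroup p D) (hc : ∀ δ ∈ D, ∀ x, δ * x = x * δ) {a : MonoidAlgebra R D}
    (h : ∑ δ, a.coeff δ ∉ maximalIdeal R) : IsUnit a := by
  obtain ⟨u, hu⟩ := (notMem_maximalIdeal.1 h).exists_left_inv
  have h1 : redD R (⊤ : Subgroup D) a = residue R (∑ δ, a.coeff δ) • 1 := by
    conv_lhs => rw [eq_sum_single a]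
    rw [map_sum, map_sum, Finset.sum_smul]
    refine Finset.sum_congr rfl fun δ _ => ?_
    rw [source1_smul, source1_single, (QuotientGroup.eq_one_iff δ).2 (Subgroup.mem_top δ), map_one,
      ← MonoidAlgebra.one_def]
  have h2 : NilR R (1 - u • a) := by
    refine nilR_of_redD (D := ⊤) hp hpR (hD.to_subgroup ⊤)
      (fun δ _ x => Subtype.ext (hc δ δ.2 x)) ?_
    rw [map_sub, map_one, source1_smul, h1, smul_smul, ← map_mul, hu, map_one, one_smul, sub_self]
    exact IsNilpotent.zero
  have h3 := h2.isUnit_one_sub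
  rw [sub_sub_cancel] at h3
  obtain ⟨b, hb⟩ := h3.exists_right_inv
  obtain ⟨c, hc'⟩ := h3.exists_left_inv
  rw [smul_mul_assoc, ← mul_smul_comm] at hb
  rw [mul_smul_comm, ← smul_mul_assoc] at hc'
  exact idem_isUnit_of hb hc'

omit [IsLocalRing R] [Fintype C] in
lemma source1_dec [D.Normal] [Fintype D] [Fintype (C ⧸ D)] (b : MonoidAlgebra R C) :
    b = ∑ q : C ⧸ D, inc R D.subtype (pull R (fun δ : D => (δ : C) * q.out) b) * single q.out 1 := by
  ext y
  change coef R y b = coef R y _
  rw [map_sum, Finset.sum_eq_single (y : C ⧸ D)]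
  · have hm : y * ((y : C ⧸ D).out)⁻¹ ∈ D := by
      rw [← QuotientGroup.eq_one_iff, QuotientGroup.mk_mul, QuotientGroup.mk_inv,
        QuotientGroup.out_eq', mul_inv_cancel]
    rw [coef_apply, coef_apply, MonoidAlgebra.coeff_mul_single_apply, mul_one]
    have h1 := coeff_inc D.subtype_injective
      (pull R (fun δ : D => (δ : C) * (y : C ⧸ D).out) b) ⟨_, hm⟩
    rw [coeff_pull, inv_mul_cancel_right] at h1
    exact h1.symm
  · intro q _ hq
    rw [coef_apply, MonoidAlgebra.coeff_mul_single_apply, coeff_inc_of_notMem, zero_mul]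
    rw [Subgroup.range_subtype, ← QuotientGroup.eq_one_iff, QuotientGroup.mk_mul,
      QuotientGroup.mk_inv, QuotientGroup.out_eq', mul_inv_eq_one]
    exact fun e => hq e.symm
  · intro hq
    exact (hq (Finset.mem_univ _)).elim

omit [IsLocalRing R] [Fintype C] in
lemma source1_pull [Fintype D] (x : C) (a : MonoidAlgebra R D) (b : MonoidAlgebra R C) :
    pull R (fun δ : D => (δ : C) * x) (inc R D.subtype a * b) =
      a * pull R (fun δ : D => (δ : C) * x) b := by
  induction a using MonoidAlgebra.induction_linear with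
  | zero => rw [map_zero, zero_mul, zero_mul, map_zero]
  | add u v hu hv => rw [map_add, add_mul, add_mul, map_add, hu, hv]
  | single m r =>
    ext δ
    rw [inc_single, coeff_pull, MonoidAlgebra.coeff_single_mul_apply,
      MonoidAlgebra.coeff_single_mul_apply, coeff_pull, ← mul_assoc]
    rfl

lemma source1_ne [D.Normal] (hp : p.Prime) (hpR : (p : R) ∈ maximalIdeal R)
    (hD : IsPGroup p D) (hc : ∀ δ ∈ D, ∀ x, δ * x = x * δ) {j : MonoidAlgebra R C}
    (hj : j * j = j) (hj0 : j ≠ 0) : redD R D j ≠ 0 := fun h =>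
  hj0 ((nilR_of_redD hp hpR hD hc (by rw [h]; exact IsNilpotent.zero)).eq_zero hj)

/-- Some coset component `pull (fun δ => δ * x) j` of `j` has unit augmentation (otherwise
`redD j = 0`), so is a unit of the group ring of `D`; and the component of `inc a * j` is `a` times
the component of `j`. -/
theorem inc_mul_eq_zero [Fintype D] (hp : p.Prime) (hpR : (p : R) ∈ maximalIdeal R)
    (hD : IsPGroup p D) (hc : ∀ δ ∈ D, ∀ x, δ * x = x * δ) {j : MonoidAlgebra R C}
    (hj : j * j = j) (hj0 : j ≠ 0) {a : MonoidAlgebra R D} (h : inc R D.subtype a * j = 0) :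
    a = 0 := by
  classical
  have := source1_normal hc
  by_cases h1 : ∀ x : C, ∑ δ, (pull R (fun δ : D => (δ : C) * x) j).coeff δ ∈ maximalIdeal R
  · refine (source1_ne hp hpR hD hc hj hj0 ?_).elim
    rw [source1_dec (D := D) j, map_sum]
    refine Finset.sum_eq_zero fun q _ => ?_
    rw [map_mul, source1_red_inc, (residue_eq_zero_iff _).2 (h1 _), zero_smul, zero_mul]
  · obtain ⟨x, hx⟩ := not_forall.1 h1
    have h2 := source1_pull x a j
    rw [h, map_zero] at h2
    exact (source1_unit hp hpR hD hc hx).mul_left_eq_zero.1 h2.symm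

lemma source1_corner {k B : Type} [Field k] [Ring B] [Algebra k B] {e w : B} {c : k} (hc : c ≠ 0)
    (he : e * e = e) (hw : e * w = w) (hn : IsNilpotent (w - c • e)) : ∃ v, w * v = e := by
  obtain ⟨u, hu⟩ := (hn.smul c⁻¹).isUnit_one_add.exists_right_inv
  refine ⟨c⁻¹ • u, ?_⟩
  have h1 : c⁻¹ • w = e * (1 + c⁻¹ • (w - c • e)) := by
    rw [mul_add, mul_one, mul_smul_comm, mul_sub, hw, mul_smul_comm, he, smul_sub, smul_smul,
      inv_mul_cancel₀ hc, one_smul, add_sub_cancel]
  rw [mul_smul_comm, ← smul_mul_assoc, h1, mul_assoc, hu, mul_one]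

lemma source1_trace {k G : Type} [Field k] [Group G] [Fintype G] {r : MonoidAlgebra k G}
    (hr : IsNilpotent r) (c : MonoidAlgebra k G) :
    (r * ∑ x : G, single x 1 * (c * single x⁻¹ 1)).coeff 1 = 0 := by
  have h1 : IsNilpotent (LinearMap.mulLeft k r * LinearMap.mulRight k c) :=
    Commute.isNilpotent_mul_right (LinearMap.commute_mulLeft_right r c)
      ((LinearMap.isNilpotent_mulLeft_iff k r).2 hr)
  have h2 := (LinearMap.isNilpotent_trace_of_isNilpotent h1).eq_zero
  have h3 : LinearMap.mulLeft k r * LinearMap.mulRight k c =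
      ∑ x : G, (coef k x).smulRight (r * (single x 1 * c)) := by
    refine LinearMap.ext fun a => ?_
    simp only [LinearMap.coe_sum, Finset.sum_apply, LinearMap.smulRight_apply, coef_apply,
      Module.End.mul_apply, LinearMap.mulLeft_apply, LinearMap.mulRight_apply]
    conv_lhs => rw [eq_sum_single a]
    rw [Finset.sum_mul, Finset.mul_sum]
    exact Finset.sum_congr rfl fun x _ => by rw [smul_mul_assoc, mul_smul_comm]
  rw [h3, map_sum] at h2
  rw [← h2, Finset.mul_sum, ← coef_apply, map_sum]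
  refine Finset.sum_congr rfl fun x _ => ?_
  rw [LinearMap.trace_smulRight, coef_apply, coef_apply, ← mul_assoc, ← mul_assoc,
    MonoidAlgebra.coeff_mul_single_apply, mul_one, one_mul, inv_inv, mul_assoc]

lemma source1_nondeg {k G : Type} [Field k] [Group G] [Fintype G] {e u : MonoidAlgebra k G}
    (he : e * u = u) (h : ∀ b, (u * b * e).coeff 1 = 0) : u = 0 := by
  ext g
  have h1 := (isFrame_group k G).symm (u * single g⁻¹ 1) trivial e trivial
  rw [coef_apply, coef_apply, h, ← mul_assoc, he, MonoidAlgebra.coeff_mul_single_apply, mul_one,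
    one_mul, inv_inv] at h1
  exact h1.symm

lemma source1_sandwich [D.Normal] (hp : p.Prime) (hpR : (p : R) ∈ maximalIdeal R)
    (hD : IsPGroup p D) (hc : ∀ δ ∈ D, ∀ x, δ * x = x * δ) {j j' : MonoidAlgebra R C}
    (hj : j * j = j) (hj' : j' * j' = j') (N₀ : Submodule R (MonoidAlgebra R C))
    (hs₀ : ∀ δ ∈ D, ∀ y ∈ N₀, single δ 1 * y ∈ N₀)
    (h : ∀ b, ∃ y ∈ N₀, j * y * j' = y ∧ redD R D (j * b * j' - y) = 0) (b : MonoidAlgebra R C) :
    j * b * j' ∈ N₀ := by
  let E : MonoidAlgebra R C →ₗ[R] MonoidAlgebra R C :=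
    LinearMap.mulRight R j' ∘ₗ LinearMap.mulLeft R j
  have hE : ∀ y, E y = j * y * j' := fun y => rfl
  have hfg : (LinearMap.range E).FG := by
    rw [← Submodule.map_top]
    exact Module.Finite.fg_top.map E
  refine le_of_le_aug hp hpR hD hc (LinearMap.range E) N₀ hfg ?_ hs₀ ?_ ⟨b, rfl⟩
  · rintro δ hδ _ ⟨y, rfl⟩
    refine ⟨single δ 1 * y, ?_⟩
    rw [hE, hE, ← mul_assoc j, ← source1_cent hc hδ, mul_assoc (single δ 1), mul_assoc (single δ 1)]
  · rintro _ ⟨b, rfl⟩
    obtain ⟨y, hy, h1, h2⟩ := h b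
    have h3 : E b = y + E (j * b * j' - y) := by
      rw [map_sub, hE y, h1, add_sub_cancel, hE, hE, ← mul_assoc, ← mul_assoc, hj,
        mul_assoc _ j' j', hj']
    rw [h3]
    refine Submodule.add_mem_sup hy ?_
    have hle : (maximalIdeal R • (⊤ : Submodule R (MonoidAlgebra R C))) ⊔
        Submodule.span R {y | ∃ δ ∈ D, ∃ b, y = (single δ 1 - 1) * b} ≤
        ((maximalIdeal R • LinearMap.range E) ⊔ Submodule.span R
          {y | ∃ δ ∈ D, ∃ b ∈ LinearMap.range E, y = (single δ 1 - 1) * b}).comap E := by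
      refine sup_le (Submodule.smul_le.2 fun r hr n _ => ?_) (Submodule.span_le.2 ?_)
      · rw [Submodule.mem_comap, map_smul]
        exact Submodule.mem_sup_left (Submodule.smul_mem_smul hr ⟨n, rfl⟩)
      · rintro _ ⟨δ, hδ, b', rfl⟩
        refine Submodule.mem_sup_right (Submodule.subset_span ⟨δ, hδ, E b', ⟨b', rfl⟩, ?_⟩)
        rw [hE, hE, ← mul_assoc j, ← source1_cent' hc hδ, mul_assoc (single δ 1 - 1),
          mul_assoc (single δ 1 - 1)]
    exact hle (redD_eq_zero_iff.1 h2)

/-- In `A = k (C / D)` the image `y` of the trace is `∑ x, x c x⁻¹`, central, and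
`(y * r).coeff 1` is the trace of `a ↦ r a c`, zero for nilpotent `r`.  Every element of `j A j` is
a scalar multiple of `j` plus a nilpotent (`exists_scalar_of_primitive`); for nilpotent `n` in
`j A j` all `n j b j` are nilpotent, so `y n = 0`; `y j` is invertible in the corner, so `n = 0`.
Hence `j b j ∈ R j + ker redD`; apply `le_of_le_aug` to `N = j (R C) j`, `N₀ = inc (R D) j`. -/
theorem Prim.span [Fintype D] (hR : MonicSplit R) (hp : p.Prime)
    (hpR : (p : R) ∈ maximalIdeal R) (hD : IsPGroup p D) (hc : ∀ δ ∈ D, ∀ x, δ * x = x * δ)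
    {j c : MonoidAlgebra R C} (hj : Prim j) (h : ¬ NilR R (j * rtr (cjRep R C) D ⊤ c))
    (b : MonoidAlgebra R C) : ∃ a : MonoidAlgebra R D, j * b * j = inc R D.subtype a * j := by
  classical
  have := source1_normal hc
  have hj0 := source1_ne hp hpR hD hc hj.idem hj.ne
  have hfix : FixedBy (cjRep R C) D c := fun δ hδ => by
    rw [cjRep_apply, ← mul_assoc, source1_cent hc hδ, mul_assoc, MonoidAlgebra.single_mul_single,
      mul_inv_cancel, mul_one, ← MonoidAlgebra.one_def, mul_one]
  have hz : ∀ b, rtr (cjRep R C) D ⊤ c * b = b * rtr (cjRep R C) D ⊤ c :=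
    fixedBy_top_iff.1 (rtr_fixed le_top hfix)
  have hy : redD R D (rtr (cjRep R C) D ⊤ c) =
      ∑ q : C ⧸ D, single q 1 * (redD R D c * single q⁻¹ 1) := by
    rw [rtr_eq_sum le_top hfix (fun q : C ⧸ D => q.out) (fun _ => Subgroup.mem_top _)
      fun g _ => ⟨(g : C ⧸ D), QuotientGroup.eq.1 (QuotientGroup.out_eq' _),
        fun q hq => (QuotientGroup.out_eq' q).symm.trans (QuotientGroup.eq.2 hq)⟩, map_sum]
    refine Finset.sum_congr rfl fun q _ => ?_
    rw [cjRep_apply, map_mul, map_mul, source1_single, source1_single, QuotientGroup.mk_inv,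
      QuotientGroup.out_eq', map_one]
  generalize rtr (cjRep R C) D ⊤ c = z at h hz hy
  have hjj : redD R D j * redD R D j = redD R D j := by rw [← map_mul, hj.idem]
  have alt : ∀ w, j * w = w → w * j = w →
      IsNilpotent (redD R D w) ∨ ∃ v, redD R D w * v = redD R D j := by
    intro w h1 h2
    obtain ⟨s, hs⟩ := exists_scalar_of_primitive hR hj.idem hj.prim h1 h2
    have h3 := source1_nil (D := D) hs
    rw [map_sub, source1_smul] at h3
    by_cases h4 : residue R s = 0
    · rw [h4, zero_smul, sub_zero] at h3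
      exact Or.inl h3
    · exact Or.inr (source1_corner h4 hjj (by rw [← map_mul, h1]) h3)
  obtain ⟨v, hv⟩ : ∃ v, redD R D (j * z) * v = redD R D j := by
    refine (alt (j * z) (by rw [← mul_assoc, hj.idem])
      (by rw [mul_assoc, hz, ← mul_assoc, hj.idem])).resolve_left fun h1 => ?_
    exact h (nilR_of_redD hp hpR hD hc h1)
  have key : ∀ n, j * n = n → n * j = n → IsNilpotent (redD R D n) → redD R D n = 0 := by
    intro n h1 h2 h3
    have h4 : ∀ b, IsNilpotent (redD R D (n * b * j)) := by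
      intro b
      refine (alt (n * b * j) (by rw [← mul_assoc, ← mul_assoc, h1])
        (by rw [mul_assoc, hj.idem])).resolve_right ?_
      rintro ⟨s, hs⟩
      rw [mul_assoc n, map_mul, mul_assoc] at hs
      have h5 : ∀ m : ℕ, ∃ t, redD R D n ^ (m + 1) * t = redD R D j := by
        intro m
        induction m with
        | zero => exact ⟨_, by rw [zero_add, pow_one, hs]⟩
        | succ m ih =>
          obtain ⟨t, ht⟩ := ih
          refine ⟨t * (redD R D (b * j) * s), ?_⟩
          rw [pow_succ', mul_assoc, ← mul_assoc _ t, ht, ← mul_assoc, ← map_mul, h2, hs]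
      obtain ⟨m, hm⟩ := h3
      obtain ⟨t, ht⟩ := h5 m
      rw [pow_succ, hm, zero_mul, zero_mul] at ht
      exact hj0 ht.symm
    have h6 : redD R D (n * z) = 0 := by
      refine source1_nondeg (e := redD R D j) (by rw [← map_mul, ← mul_assoc, h1]) fun b' => ?_
      obtain ⟨b, rfl⟩ := source1_surj (R := R) b'
      have h7 := source1_trace (h4 b) (redD R D c)
      rw [← hy, ← map_mul] at h7
      rw [← map_mul, ← map_mul, mul_assoc n z, hz, mul_assoc n, mul_assoc b, hz, ← mul_assoc b,
        ← mul_assoc n, ← mul_assoc n]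
      exact h7
    rw [← h2, map_mul, ← hv, ← mul_assoc, ← map_mul, ← mul_assoc, h2, h6, zero_mul]
  obtain ⟨F, hF⟩ : ∃ F : MonoidAlgebra R D →ₗ[R] MonoidAlgebra R C,
      ∀ a, F a = inc R D.subtype a * j :=
    ⟨LinearMap.mulRight R j ∘ₗ (inc R D.subtype).toLinearMap, fun _ => rfl⟩
  have hmem := source1_sandwich hp hpR hD hc hj.idem hj.idem (LinearMap.range F) ?_ ?_ b
  · obtain ⟨a, ha⟩ := hmem
    exact ⟨a, ha.symm.trans (hF a)⟩
  · rintro δ hδ _ ⟨a, rfl⟩
    refine ⟨single ⟨δ, hδ⟩ 1 * a, ?_⟩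
    rw [hF, hF, map_mul, inc_single, mul_assoc]
    rfl
  · intro b
    have h1 : j * (j * b * j) = j * b * j := by rw [← mul_assoc, ← mul_assoc, hj.idem]
    have h2 : j * b * j * j = j * b * j := by rw [mul_assoc, hj.idem]
    obtain ⟨s, hs⟩ := exists_scalar_of_primitive hR hj.idem hj.prim h1 h2
    refine ⟨s • j, ⟨s • 1, ?_⟩, ?_, key _ ?_ ?_ (source1_nil hs)⟩
    · rw [hF, map_smul, map_one, smul_mul_assoc, one_mul]
    · rw [mul_smul_comm, smul_mul_assoc, hj.idem, hj.idem]
    · rw [mul_sub, h1, mul_smul_comm, hj.idem]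
    · rw [sub_mul, h2, smul_mul_assoc, hj.idem]

/-- If some `u u' = inc a * j` has `a` of unit augmentation, correct `u'` by the inverse of `a`;
`u' u` is a nonzero idempotent below `j'`.  Otherwise all `redD (u u')` vanish, so `redD u = 0`
by nondegeneracy of the coefficient form, and `le_of_le_aug` applies to `j (R C) j'` and `⊥`. -/
theorem Prim.dichotomy [Fintype D] (hp : p.Prime) (hpR : (p : R) ∈ maximalIdeal R)
    (hD : IsPGroup p D) (hc : ∀ δ ∈ D, ∀ x, δ * x = x * δ) {j j' : MonoidAlgebra R C}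
    (hj : Prim j) (hj' : Prim j')
    (hs : ∀ b, ∃ a : MonoidAlgebra R D, j * b * j = inc R D.subtype a * j) :
    (∀ b, j * b * j' = 0) ∨
      ∃ u u', j * u * j' = u ∧ j' * u' * j = u' ∧ u * u' = j ∧ u' * u = j' := by
  classical
  have := source1_normal hc
  by_cases hA : ∃ (b b' : MonoidAlgebra R C) (a : MonoidAlgebra R D),
      j * (b * j' * b') * j = inc R D.subtype a * j ∧ ∑ δ, a.coeff δ ∉ maximalIdeal R
  · right
    obtain ⟨b, b', a, h1, h2⟩ := hA
    obtain ⟨a', ha'⟩ := (source1_unit hp hpR hD hc h2).exists_right_inv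
    have e1 : j * (j * b * j') = j * b * j' := by rw [← mul_assoc, ← mul_assoc, hj.idem]
    have e2 : j * b * j' * j' = j * b * j' := by rw [mul_assoc, hj'.idem]
    have e3 : j' * (j' * b' * j * inc R D.subtype a') = j' * b' * j * inc R D.subtype a' := by
      rw [← mul_assoc, ← mul_assoc, ← mul_assoc, hj'.idem]
    have e4 : j' * b' * j * inc R D.subtype a' * j = j' * b' * j * inc R D.subtype a' := by
      rw [mul_assoc _ _ j, source1_inc_cent hc, ← mul_assoc, mul_assoc _ j j, hj.idem]
    have e5 : j * b * j' * (j' * b' * j * inc R D.subtype a') = j := by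
      rw [← mul_assoc, ← mul_assoc, ← mul_assoc, e2, mul_assoc j, mul_assoc j, h1,
        source1_inc_cent hc, mul_assoc, ← map_mul, ha', map_one, mul_one]
    generalize j * b * j' = u at e1 e2 e5
    generalize j' * b' * j * inc R D.subtype a' = u' at e3 e4 e5
    refine ⟨u, u', by rw [e1, e2], by rw [e3, e4], e5, ?_⟩
    refine (hj'.prim (u' * u) ?_ ?_ ?_).resolve_left fun h0 => hj.ne ?_
    · rw [mul_assoc, ← mul_assoc u, e5, e1]
    · rw [← mul_assoc, e3]
    · rw [mul_assoc, e2]
    · rw [← hj.idem, ← e5, mul_assoc, ← mul_assoc u', h0, zero_mul, mul_zero]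
  · left
    intro b
    refine (Submodule.mem_bot R).1 (source1_sandwich hp hpR hD hc hj.idem hj'.idem ⊥ ?_ ?_ b)
    · intro δ _ y hy
      rw [(Submodule.mem_bot R).1 hy, mul_zero]
      exact Submodule.zero_mem _
    · intro b
      refine ⟨0, Submodule.zero_mem _, by rw [mul_zero, zero_mul], ?_⟩
      rw [sub_zero]
      refine source1_nondeg (e := redD R D j)
        (by rw [← map_mul, ← mul_assoc, ← mul_assoc, hj.idem]) fun b'' => ?_
      obtain ⟨b', rfl⟩ := source1_surj (R := R) b''
      obtain ⟨a, ha⟩ := hs (b * j' * b')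
      have h1 : ∑ δ, a.coeff δ ∈ maximalIdeal R := by
        by_contra h2
        exact hA ⟨b, b', a, ha, h2⟩
      rw [← map_mul, ← map_mul, mul_assoc j, mul_assoc j, ha, map_mul, source1_red_inc,
        (residue_eq_zero_iff _).2 h1, zero_smul, zero_mul]
      rfl

end Pool.Agent.Lib.MP_b6945b_al.St
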