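import Pool.Agent.Lib.MP_b6945b_al.St.FrDefs
import Pool.Agent.Lib.MP_b6945b_al.St.Source1

set_option autoImplicit false

/-!
Local corners, minimal idempotents and elements that are nilpotent modulo the maximal ideal.
-/

namespace Pool.Agent.Lib.MP_b6945b_al.St

open IsLocalRing
open MonoidAlgebra (single)

variable {R A : Type} [CommRing R] [IsLocalRing R] [Ring A] [Algebra R A]

/-- The two-sided ideal generated by the maximal ideal. -/
def frminI (R A : Type) [CommRing R] [IsLocalRing R] [Ring A] [Algebra R A] : TwoSidedIdeal A :=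
  TwoSidedIdeal.mk' {x | InMax R x} (maximalIdeal R • (⊤ : Submodule R A)).zero_mem
    (fun h h' => (maximalIdeal R • (⊤ : Submodule R A)).add_mem h h')
    (fun h => (maximalIdeal R • (⊤ : Submodule R A)).neg_mem h)
    (fun h => idem_inMax_mul_left (R := R) _ h) (fun h => idem_inMax_mul_right (R := R) _ h)

variable (R) in
/-- Reduction modulo the maximal ideal. -/
def frminQ : A →+* (frminI R A).ringCon.Quotient := RingCon.mk' _

lemma frmin_surj : Function.Surjective (frminQ R : A → _) := Quot.mk_surjective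

lemma frmin_zero {x : A} : frminQ R x = 0 ↔ InMax R x := by
  have h : x ∈ frminI R A ↔ InMax R x :=
    TwoSidedIdeal.mem_mk' {x | InMax R x} _ _ _ _ _ x
  rw [← h, TwoSidedIdeal.mem_iff, ← RingCon.eq]
  rfl

lemma frmin_nil {x : A} : NilR R x ↔ IsNilpotent (frminQ R x) := by
  refine exists_congr fun n => ?_
  rw [← map_pow, frmin_zero]

omit [IsLocalRing R] in
lemma frmin_ee {e : A} (he : e * e = e) (x : A) : e * (e * x) = e * x := by
  rw [← mul_assoc, he]

lemma NilR.neg {x : A} (h : NilR R x) : NilR R (-x) := by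
  rw [frmin_nil] at h ⊢
  rw [map_neg]
  exact h.neg

lemma NilR.smul {x : A} (h : NilR R x) (r : R) : NilR R (r • x) := by
  obtain ⟨n, hn⟩ := h
  refine ⟨n, ?_⟩
  rw [smul_pow]
  exact Submodule.smul_mem _ _ hn

lemma NilR.add_inMax {x y : A} (h : NilR R x) (hy : InMax R y) : NilR R (x + y) := by
  rw [frmin_nil] at h ⊢
  rwa [map_add, frmin_zero.2 hy, add_zero]

lemma nilR_of_pow {x : A} {n : ℕ} (h : NilR R (x ^ n)) : NilR R x := by
  obtain ⟨m, hm⟩ := h
  exact ⟨n * m, by rwa [pow_mul]⟩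

lemma nilR_swap {x y : A} (h : NilR R (x * y)) : NilR R (y * x) := by
  obtain ⟨n, hn⟩ := h
  refine ⟨n + 1, ?_⟩
  rw [pow_succ, ← mul_assoc, mul_pow_mul]
  exact idem_inMax_mul_right _ (idem_inMax_mul_left _ hn)

lemma nilR_field {k B : Type} [Field k] [Ring B] [Algebra k B] {x : B} :
    NilR k x ↔ IsNilpotent x := by
  simp only [NilR, InMax, IsNilpotent, maximalIdeal_eq_bot, Submodule.bot_smul, Submodule.mem_bot]

lemma inMax_field {k N : Type} [Field k] [AddCommGroup N] [Module k N] {x : N} :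
    InMax k x ↔ x = 0 := by
  simp only [InMax, maximalIdeal_eq_bot, Submodule.bot_smul, Submodule.mem_bot]

lemma inMax_corner {e : A} (he : IsIdempotentElem e) {a : he.Corner} :
    InMax R a ↔ InMax R a.1 := by
  constructor
  · intro h
    exact idem_inMax_map (cval R he) h
  · intro h
    have h1 := idem_inMax_map (cproj R he) h
    rwa [cproj_cval] at h1

/-- Powers of exponent at least one agree (`source4_corner_pow`). -/
lemma nilR_corner {e : A} (he : IsIdempotentElem e) {a : he.Corner} :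
    NilR R a ↔ NilR R a.1 := by
  have hp : ∀ n : ℕ, (a ^ (n + 1)).1 = a.1 ^ (n + 1) := by
    intro n
    induction n with
    | zero => rw [zero_add, pow_one, pow_one]
    | succ n ih => rw [pow_succ, corner_mul, ih, ← pow_succ]
  constructor
  · rintro ⟨n, hn⟩
    refine ⟨n + 1, ?_⟩
    rw [← hp, ← inMax_corner he, pow_succ]
    exact idem_inMax_mul_right _ hn
  · rintro ⟨n, hn⟩
    refine ⟨n + 1, ?_⟩
    rw [inMax_corner he, hp, pow_succ]
    exact idem_inMax_mul_right _ hn

/-- An element of the ideal generated by the maximal ideal and finitely many central elements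
that are nilpotent modulo it.  Induct on the finset: `NilR.add` does not apply to `m`, work in
the quotient by `𝔪 A` or use `(m + y) ^ n - y ^ n ∈ 𝔪 A`; compare `source1_add_nil`. -/
lemma nilR_of_central {ι : Type} (s : Finset ι) (c y : ι → A) (hc : ∀ i a, c i * a = a * c i)
    (hn : ∀ i, NilR R (c i)) {m : A} (hm : InMax R m) : NilR R (m + ∑ i ∈ s, c i * y i) := by
  classical
  rw [add_comm]
  refine NilR.add_inMax ?_ hm
  rw [frmin_nil]
  induction s using Finset.induction_on with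
  | empty => simp
  | insert a s ha ih =>
    rw [Finset.sum_insert ha, map_add, map_mul]
    refine source1_add_nil (fun b => ?_) (frmin_nil.1 (hn a)) ih _
    obtain ⟨b, rfl⟩ := frmin_surj (R := R) b
    rw [← map_mul, ← map_mul, hc]

/-- `source1_ops` with `P ⊔ 𝔪 • N`, then Nakayama. -/
lemma le_of_central {ι : Type} [Fintype ι] (c : ι → A) (hc : ∀ i a, c i * a = a * c i)
    (hn : ∀ i, NilR R (c i)) (N P : Submodule R A) (hN : N.FG)
    (hsat : ∀ x ∈ N, InMax R x → x ∈ maximalIdeal R • N) (hcN : ∀ i, ∀ x ∈ N, c i * x ∈ N)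
    (hcP : ∀ i, ∀ x ∈ P, c i * x ∈ P)
    (h : ∀ x ∈ N, ∃ y : ι → A, (∀ i, y i ∈ N) ∧ x - ∑ i, c i * y i ∈ P ⊔ maximalIdeal R • N) :
    N ≤ P := by
  classical
  refine Submodule.le_of_le_smul_of_le_jacobson_bot hN (maximalIdeal_le_jacobson ⊥) ?_
  refine source1_ops (fun i => LinearMap.mulLeft R (c i)) N _ ?_ ?_ ?_ ?_ Finset.univ ?_
  · intro i j y
    simp only [LinearMap.mulLeft_apply]
    rw [← mul_assoc, ← mul_assoc, hc]
  · intro i y hy
    exact hcN i y hy
  · intro i y hy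
    obtain ⟨a, ha, b, hb, rfl⟩ := Submodule.mem_sup.1 hy
    rw [map_add]
    refine Submodule.add_mem_sup (hcP i a ha) ?_
    refine Submodule.smul_induction_on
      (p := fun b => LinearMap.mulLeft R (c i) b ∈ maximalIdeal R • N) hb (fun r hr n hn' => ?_) ?_
    · rw [map_smul]
      exact Submodule.smul_mem_smul hr (hcN i n hn')
    · intro x y hx hy
      rw [map_add]
      exact Submodule.add_mem _ hx hy
  · intro i
    obtain ⟨n, hn'⟩ := hn i
    refine ⟨n, fun y hy => Submodule.mem_sup_right ?_⟩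
    have h1 : ∀ k : ℕ, c i ^ k * y ∈ N := by
      intro k
      induction k with
      | zero => simpa using hy
      | succ k ih => rw [pow_succ', mul_assoc]; exact hcN i _ ih
    rw [LinearMap.pow_mulLeft, LinearMap.mulLeft_apply]
    exact hsat _ (h1 n) (idem_inMax_mul_right _ hn')
  · intro x hx
    obtain ⟨y, hy, hxy⟩ := h x hx
    rw [← sub_add_cancel x (∑ i, c i * y i)]
    refine Submodule.add_mem_sup hxy (Submodule.sum_mem _ fun i hi => ?_)
    exact (Finset.le_sup (f := fun i => N.map (LinearMap.mulLeft R (c i))) hi) ⟨y i, hy i, rfl⟩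

omit [IsLocalRing R] in
lemma corner_inv_comm {e y w b : A} (hw : e * w * e = w) (he : e * e = e) (h1 : w * y = e)
    (h2 : y * w = e) (hbe : b * e = e * b) (hby : b * y = y * b) : b * w = w * b := by
  have h3 : e * w = w := by rw [← hw, ← mul_assoc, ← mul_assoc, he]
  have h4 : w * e = w := by rw [← hw, mul_assoc, he]
  calc b * w = b * e * w := by rw [mul_assoc, h3]
    _ = w * (y * b) * w := by rw [hbe, ← h1, mul_assoc w]
    _ = w * (b * e) := by rw [← hby, ← h2]; simp only [mul_assoc]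
    _ = w * b := by rw [hbe, ← mul_assoc, h4]

variable [Module.Finite R A]

lemma not_inMax_of_idem {e : A} (he : e * e = e) (h0 : e ≠ 0) : ¬ InMax R e := by
  exact fun h => h0 (h.nilR.eq_zero he)

/-- The inverse of a unit lies in every subalgebra containing the unit (`exists_fitting` with
`c = 0`). -/
lemma exists_inv_mem (hR : MonicSplit R) (Λ : Subalgebra R A) {y : A} (hy : y ∈ Λ)
    (hu : IsUnit y) : ∃ w ∈ Λ, w * y = 1 ∧ y * w = 1 := by
  obtain ⟨ε, hε, w, hw, hi, ⟨n, hn⟩, hyw⟩ := exists_fitting hR y 0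
  rw [map_zero, sub_zero] at hn hyw
  have hc : Commute y ε := Algebra.commute_of_mem_adjoin_self hε
  have hc' : Commute y w := Algebra.commute_of_mem_adjoin_self hw
  obtain ⟨v, hv⟩ := (hu.pow n).exists_left_inv
  have h0 : ε = 0 := by
    refine NilR.eq_zero (R := R) ⟨n, ?_⟩ hi.eq
    have h1 := idem_inMax_mul_left v hn
    rwa [hc.mul_pow, ← mul_assoc, hv, one_mul] at h1
  rw [h0, sub_zero] at hyw
  have hle : Algebra.adjoin R {y} ≤ Λ := Algebra.adjoin_le (Set.singleton_subset_iff.2 hy)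
  exact ⟨w, hle hw, by rw [← hc'.eq, hyw], hyw⟩

/-- `y + c (1 - e) = c - (c e - y)` is a unit of `A`. -/
lemma exists_inv_corner (hR : MonicSplit R) (Λ : Subalgebra R A) {e y : A} (he : e * e = e)
    (heΛ : e ∈ Λ) (hy : y ∈ Λ) (hey : e * y * e = y) {c : R} (hc : IsUnit c)
    (hn : NilR R (y - c • e)) : ∃ w ∈ Λ, e * w * e = w ∧ w * y = e ∧ y * w = e := by
  have h3 : e * y = y := by rw [← hey, ← mul_assoc, ← mul_assoc, he]
  have h4 : y * e = y := by rw [← hey, mul_assoc, he]
  obtain ⟨d, hd⟩ := hc.exists_left_inv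
  have hu : IsUnit (y + c • (1 - e)) := by
    have h1 := (hn.neg.smul d).isUnit_one_sub
    have h2 : y + c • (1 - e) = algebraMap R A c * (1 - d • -(y - c • e)) := by
      rw [← Algebra.smul_def, smul_sub c 1 (d • _), smul_smul, mul_comm c d, hd, one_smul,
        smul_sub]
      abel
    rw [h2]
    exact (hc.map _).mul h1
  obtain ⟨w, hw, h1, h2⟩ := exists_inv_mem hR Λ
    (Λ.add_mem hy (Λ.smul_mem (Λ.sub_mem Λ.one_mem heΛ) c)) hu
  have h5 : (y + c • (1 - e)) * e = y := by
    rw [add_mul, smul_mul_assoc, sub_mul, one_mul, he, sub_self, smul_zero, add_zero, h4]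
  have h6 : e * (y + c • (1 - e)) = y := by
    rw [mul_add, mul_smul_comm, mul_sub, mul_one, he, sub_self, smul_zero, add_zero, h3]
  have h7 : w * y = e := by rw [← h5, ← mul_assoc, h1, one_mul]
  have h8 : y * w = e := by rw [← h6, mul_assoc, h2, mul_one]
  refine ⟨e * w * e, Λ.mul_mem (Λ.mul_mem heΛ hw) heΛ, ?_, ?_, ?_⟩
  · rw [← mul_assoc, ← mul_assoc, he, mul_assoc, he]
  · rw [mul_assoc, h3, mul_assoc, h7, he]
  · rw [← mul_assoc, ← mul_assoc, h4, h8, he]

/-- In a local corner an element that is not nilpotent is a unit. -/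
lemma exists_inv_of_not_nil (hR : MonicSplit R) (Λ : Subalgebra R A) {e : A} (he : e * e = e)
    (heΛ : e ∈ Λ) (hloc : ∀ z ∈ Λ, ∃ c : R, NilR R (e * z * e - c • e)) {y : A} (hy : y ∈ Λ)
    (hn : ¬ NilR R (e * y * e)) :
    ∃ w ∈ Λ, e * w * e = w ∧ w * (e * y * e) = e ∧ e * y * e * w = e := by
  obtain ⟨c, hc⟩ := hloc y hy
  refine exists_inv_corner hR Λ he heΛ (Λ.mul_mem (Λ.mul_mem heΛ hy) heΛ) ?_ ?_ hc
  · rw [← mul_assoc, ← mul_assoc, he, mul_assoc, he]
  · by_contra hu
    apply hn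
    have h1 := hc.add_inMax (inMax_smul ((mem_maximalIdeal c).2 hu) e)
    rwa [sub_add_cancel] at h1

/-- If `e x e y e` were a unit of the corner, `e x e` would be right invertible in the corner, so
`e` would be nilpotent, so zero. -/
lemma frm_loc_mul (hR : MonicSplit R) (Λ : Subalgebra R A) {e : A} (he : e * e = e)
    (heΛ : e ∈ Λ) (hloc : ∀ z ∈ Λ, ∃ c : R, NilR R (e * z * e - c • e)) {x y : A} (hx : x ∈ Λ)
    (hy : y ∈ Λ) (hn : NilR R (e * x * e)) :
    NilR R (e * x * e * y * e) ∧ NilR R (e * y * e * x * e) := by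
  have key : NilR R (e * x * e * y * e) := by
    by_contra hcon
    have h0 : e * (x * e * y) * e = e * x * e * y * e := by simp only [mul_assoc]
    obtain ⟨w, -, -, -, h2⟩ := exists_inv_of_not_nil hR Λ he heΛ hloc
      (Λ.mul_mem (Λ.mul_mem hx heΛ) hy) (by rwa [h0])
    have h3 : e * x * e * (y * e * w) = e := by
      simpa only [mul_assoc] using h2
    have h4 : ∀ n : ℕ, (e * x * e) ^ n * e * (y * e * w) ^ n = e := by
      intro n
      induction n with
      | zero => simp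
      | succ n ih =>
        have h5 : (e * x * e) ^ (n + 1) * e * (y * e * w) ^ (n + 1)
            = (e * x * e) ^ n * (e * x * (e * e) * (y * e * w)) * (y * e * w) ^ n := by
          rw [pow_succ, pow_succ']
          simp only [mul_assoc]
        rw [h5, he, h3, ih]
    obtain ⟨n, hn'⟩ := hn
    have h6 : InMax R e := by
      rw [← h4 n]
      exact idem_inMax_mul_right _ (idem_inMax_mul_right _ hn')
    apply hcon
    exact (idem_inMax_mul_left _ h6).nilR
  refine ⟨key, ?_⟩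
  have h7 : e * x * e * y * e = (e * x * e) * (e * y * e) := by
    simp only [mul_assoc, frmin_ee he]
  have h8 : e * y * e * x * e = (e * y * e) * (e * x * e) := by
    simp only [mul_assoc, frmin_ee he]
  rw [h8]
  rw [h7] at key
  exact nilR_swap key

lemma frm_loc_add (hR : MonicSplit R) (Λ : Subalgebra R A) {e : A} (he : e * e = e)
    (heΛ : e ∈ Λ) (hloc : ∀ z ∈ Λ, ∃ c : R, NilR R (e * z * e - c • e)) {x y : A} (hx : x ∈ Λ)
    (hy : y ∈ Λ) (hnx : NilR R (e * x * e)) (hny : NilR R (e * y * e)) :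
    NilR R (e * (x + y) * e) := by
  by_contra hcon
  obtain ⟨w, hw, h1, h2, -⟩ := exists_inv_of_not_nil hR Λ he heΛ hloc (Λ.add_mem hx hy) hcon
  have h3 := (frm_loc_mul hR Λ he heΛ hloc hx hw hnx).2
  have h4 := (frm_loc_mul hR Λ he heΛ hloc hy hw hny).2
  have h5 : e * w * e * x * e + e * w * e * y * e = e := by
    rw [h1, ← add_mul, ← mul_add]
    have h6 : w * e = w := by rw [← h1, mul_assoc, he]
    conv_lhs => rw [← h6]
    simpa only [mul_assoc] using h2
  have h7 : e * w * e * y * e = e - e * w * e * x * e := eq_sub_of_add_eq' h5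
  have h8 : e * w * e * x * e * (e * w * e * y * e) = e * w * e * y * e * (e * w * e * x * e) := by
    rw [h7, mul_sub, sub_mul]
    simp only [mul_assoc, frmin_ee he, he]
  have h9 := h3.add h4 h8
  rw [h5] at h9
  apply hcon
  rw [h9.eq_zero he, mul_zero]
  exact InMax.nilR (Submodule.zero_mem _)

/-- The elements of `Λ` that are nilpotent in a local corner form a submodule. -/
lemma exists_nil_submodule (hR : MonicSplit R) (Λ : Subalgebra R A) {e : A} (he : e * e = e)
    (heΛ : e ∈ Λ) (hloc : ∀ z ∈ Λ, ∃ c : R, NilR R (e * z * e - c • e)) :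
    ∃ W : Submodule R A, ∀ x, x ∈ W ↔ x ∈ Λ ∧ NilR R (e * x * e) := by
  refine ⟨{ carrier := {x | x ∈ Λ ∧ NilR R (e * x * e)}
            add_mem' := fun ha hb => ⟨Λ.add_mem ha.1 hb.1,
              frm_loc_add hR Λ he heΛ hloc ha.1 hb.1 ha.2 hb.2⟩
            zero_mem' := ⟨Λ.zero_mem, ?_⟩
            smul_mem' := fun r x hx => ⟨Λ.smul_mem hx.1 r, ?_⟩ }, fun x => Iff.rfl⟩
  · rw [mul_zero, zero_mul]
    exact InMax.nilR (Submodule.zero_mem _)
  · rw [mul_smul_comm, smul_mul_assoc]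
    exact hx.2.smul r

/-- An idempotent of a local corner is `0` or `e`. -/
lemma idem_dichotomy (hR : MonicSplit R) (Λ : Subalgebra R A) {e : A} (he : e * e = e)
    (heΛ : e ∈ Λ) (hloc : ∀ z ∈ Λ, ∃ c : R, NilR R (e * z * e - c • e)) {f : A} (hf : f ∈ Λ)
    (hff : f * f = f) (hef : e * f * e = f) : f = 0 ∨ f = e := by
  by_cases hn : NilR R (e * f * e)
  · left
    rw [hef] at hn
    exact hn.eq_zero hff
  · right
    obtain ⟨w, -, -, h2, -⟩ := exists_inv_of_not_nil hR Λ he heΛ hloc hf hn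
    rw [hef] at h2
    have h3 : e * f = f := by rw [← hef, ← mul_assoc, ← mul_assoc, he]
    rw [← h3, ← h2, mul_assoc, hff]

/-- The residue character of a local subalgebra. -/
lemma exists_res_char (hR : MonicSplit R) (Λ : Subalgebra R A)
    (hloc : ∀ z ∈ Λ, ∃ c : R, NilR R (z - c • 1)) (hne : ¬ InMax R (1 : A)) :
    ∃ χ : Λ →+* ResidueField R, ∀ (z : Λ) (c : R), χ z = residue R c ↔ NilR R ((z : A) - c • 1) := by
  have hloc' : ∀ z ∈ Λ, ∃ c : R, NilR R (1 * z * 1 - c • (1 : A)) := by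
    simpa only [one_mul, mul_one] using hloc
  have hadd : ∀ x ∈ Λ, ∀ y ∈ Λ, NilR R x → NilR R y → NilR R (x + y) := by
    intro x hx y hy h1 h2
    simpa only [one_mul, mul_one] using frm_loc_add hR Λ (mul_one 1) Λ.one_mem hloc' hx hy
      (by simpa only [one_mul, mul_one] using h1) (by simpa only [one_mul, mul_one] using h2)
  have hmul : ∀ x ∈ Λ, ∀ y ∈ Λ, NilR R x → NilR R (x * y) := by
    intro x hx y hy h1
    simpa only [one_mul, mul_one] using (frm_loc_mul hR Λ (mul_one 1) Λ.one_mem hloc' hx hy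
      (by simpa only [one_mul, mul_one] using h1)).1
  have hsub : ∀ x ∈ Λ, ∀ c : R, x - c • (1 : A) ∈ Λ :=
    fun x hx c => Λ.sub_mem hx (Λ.smul_mem Λ.one_mem c)
  choose ch hch using fun z : Λ => hloc z.1 z.2
  have key : ∀ (z : Λ) (c : R), residue R (ch z) = residue R c ↔ NilR R ((z : A) - c • 1) := by
    intro z c
    rw [← sub_eq_zero, ← map_sub, residue_eq_zero_iff]
    constructor
    · intro h
      have h1 := (hch z).add_inMax (inMax_smul h (1 : A))
      rwa [sub_smul, sub_add_sub_cancel] at h1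
    · intro h
      by_contra hu
      obtain ⟨d, hd⟩ := (notMem_maximalIdeal.1 hu).exists_left_inv
      have h1 := (hadd _ (hsub _ z.2 c) _ (Λ.neg_mem (hsub _ z.2 (ch z))) h (hch z).neg).smul d
      have h2 : (z : A) - c • 1 + -((z : A) - ch z • 1) = (ch z - c) • (1 : A) := by
        rw [sub_smul]; abel
      rw [h2, smul_smul, hd, one_smul] at h1
      obtain ⟨n, hn⟩ := h1
      rw [one_pow] at hn
      exact hne hn
  have hzero : NilR R (0 : A) := InMax.nilR (Submodule.zero_mem _)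
  refine ⟨{ toFun := fun z => residue R (ch z)
            map_one' := ?_
            map_mul' := fun x y => ?_
            map_zero' := ?_
            map_add' := fun x y => ?_ }, key⟩
  · rw [← map_one (residue R), key]
    simpa using hzero
  · rw [← map_mul, key]
    have h1 := hadd _ (Λ.mul_mem (hsub _ x.2 (ch x)) y.2) _ (Λ.smul_mem (hsub _ y.2 (ch y)) (ch x))
      (hmul _ (hsub _ x.2 (ch x)) _ y.2 (hch x)) ((hch y).smul (ch x))
    have h2 : ((x : A) - ch x • 1) * y + ch x • ((y : A) - ch y • 1)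
        = ((x * y : Λ) : A) - (ch x * ch y) • 1 := by
      rw [sub_mul, smul_mul_assoc, one_mul, smul_sub, smul_smul, MulMemClass.coe_mul]
      abel
    rwa [h2] at h1
  · rw [← map_zero (residue R), key]
    simpa using hzero
  · rw [← map_add, key]
    have h1 := hadd _ (hsub _ x.2 (ch x)) _ (hsub _ y.2 (ch y)) (hch x) (hch y)
    have h2 : ((x : A) - ch x • 1) + ((y : A) - ch y • 1)
        = ((x + y : Λ) : A) - (ch x + ch y) • 1 := by
      rw [add_smul, AddMemClass.coe_add]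
      abel
    rwa [h2] at h1

variable (R) in
/-- The rank of left multiplication modulo the maximal ideal. -/
noncomputable def frminRank (j : A) : ℕ :=
  Module.finrank (ResidueField R) (LinearMap.range (LinearMap.mulLeft (ResidueField R)
    ((1 : ResidueField R) ⊗ₜ[R] j : TensorProduct R (ResidueField R) A)))

omit [Module.Finite R A] in
lemma frmin_tmul {x : A}
    (h : ((1 : ResidueField R) ⊗ₜ[R] x : TensorProduct R (ResidueField R) A) = 0) :
    InMax R x := by
  have h1 := TensorProduct.quotTensorEquivQuotSMul_mk_tmul (maximalIdeal R) 1 x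
  have h2 : (Ideal.Quotient.mk (maximalIdeal R) 1 ⊗ₜ[R] x :
      TensorProduct R (R ⧸ maximalIdeal R) A) = 0 := h
  rw [h2, map_zero, one_smul] at h1
  exact (Submodule.Quotient.mk_eq_zero _).1 h1.symm

lemma frmin_eq_of_rank {j ε : A} (hj : j * j = j) (hε : ε * ε = ε)
    (h1 : j * ε = ε) (h2 : ε * j = ε) (h : frminRank R j ≤ frminRank R ε) : ε = j := by
  have hm : ∀ a b : A, ((1 : ResidueField R) ⊗ₜ[R] a : TensorProduct R (ResidueField R) A)
      * (1 : ResidueField R) ⊗ₜ[R] b = (1 : ResidueField R) ⊗ₜ[R] (a * b) := by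
    intro a b
    rw [Algebra.TensorProduct.tmul_mul_tmul, one_mul]
  have hle : LinearMap.range (LinearMap.mulLeft (ResidueField R)
      ((1 : ResidueField R) ⊗ₜ[R] ε : TensorProduct R (ResidueField R) A)) ≤
      LinearMap.range (LinearMap.mulLeft (ResidueField R)
        ((1 : ResidueField R) ⊗ₜ[R] j : TensorProduct R (ResidueField R) A)) := by
    rintro _ ⟨x, rfl⟩
    refine ⟨(1 : ResidueField R) ⊗ₜ[R] ε * x, ?_⟩
    simp only [LinearMap.mulLeft_apply]
    rw [← mul_assoc, hm, h1]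
  have heq := Submodule.eq_of_le_of_finrank_le hle h
  have hmem : ((1 : ResidueField R) ⊗ₜ[R] j : TensorProduct R (ResidueField R) A) ∈
      LinearMap.range (LinearMap.mulLeft (ResidueField R)
        ((1 : ResidueField R) ⊗ₜ[R] ε : TensorProduct R (ResidueField R) A)) := by
    rw [heq]
    exact ⟨1, by simp⟩
  obtain ⟨x, hx⟩ := hmem
  rw [LinearMap.mulLeft_apply] at hx
  have h3 : ((1 : ResidueField R) ⊗ₜ[R] ε : TensorProduct R (ResidueField R) A)
      = (1 : ResidueField R) ⊗ₜ[R] j := by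
    conv_lhs => rw [← h2, ← hm, ← hx, ← mul_assoc, hm, hε, hx]
  refine idem_eq_of_inMax (R := R) hε hj (h2.trans h1.symm) (frmin_tmul ?_)
  rw [TensorProduct.tmul_sub, h3, sub_self]

include R in
/-- Among the idempotents of `Λ` with a property there is one that is minimal.  Use the dimension
over the residue field of the image of `x A` in `A / 𝔪 A` (compare `source2Rank`,
`source2_eq_of_rank`; `idem_eq_of_inMax`). -/
lemma exists_minimal_idem (P : A → Prop) {J : A} (hJ : J * J = J) (hP : P J) :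
    ∃ ε, ε * ε = ε ∧ P ε ∧ ∀ π, π * π = π → P π → ε * π = π → π * ε = π → π = ε := by
  classical
  have hex : ∃ n, ∃ j, (j * j = j ∧ P j) ∧ frminRank R j = n := ⟨_, J, ⟨hJ, hP⟩, rfl⟩
  obtain ⟨ε, hε, hn⟩ := Nat.find_spec hex
  refine ⟨ε, hε.1, hε.2, fun π h1 h2 h3 h4 => frmin_eq_of_rank (R := R) hε.1 h1 h3 h4 ?_⟩
  rw [hn]
  exact Nat.find_min' hex ⟨π, ⟨h1, h2⟩, rfl⟩

/-- Take `ε` minimal among the idempotents of `Λ` below `J` with `J - ε ∈ I`.  For `z ∈ I` apply
`exists_fitting` to `y = ε z ε` with `c = 0`: `y w = 1 - π`, `y π` nilpotent; `ε` commutes with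
`π`, `ε π` is an idempotent with `ε - ε π = y w ε ∈ I`, so `ε π = ε`.  For the last claim
`(ε z ε - c ε) ^ (N + 1) ≡ (J z J - c J) ^ (N + 1)` modulo `I`. -/
lemma exists_min_idem (hR : MonicSplit R) (Λ : Subalgebra R A) (I : Submodule R A)
    (hIΛ : ∀ x ∈ I, x ∈ Λ) (hl : ∀ a ∈ Λ, ∀ x ∈ I, a * x ∈ I) (hr : ∀ a ∈ Λ, ∀ x ∈ I, x * a ∈ I)
    {J : A} (hJ : J * J = J) (hJΛ : J ∈ Λ)
    (hloc : ∀ z ∈ Λ, ∃ (c : R) (N : ℕ), (J * z * J - c • J) ^ (N + 1) ∈ I) :
    ∃ ε ∈ Λ, ε * ε = ε ∧ J * ε = ε ∧ ε * J = ε ∧ J - ε ∈ I ∧ (∀ z ∈ I, NilR R (ε * z * ε)) ∧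
      ∀ z ∈ Λ, ∃ c : R, NilR R (ε * z * ε - c • ε) := by
  obtain ⟨ε, hεε, ⟨hεΛ, hJε, hεJ, hI⟩, hmin⟩ := exists_minimal_idem (R := R)
    (fun x => x ∈ Λ ∧ J * x = x ∧ x * J = x ∧ J - x ∈ I) hJ
    ⟨hJΛ, hJ, hJ, by rw [sub_self]; exact I.zero_mem⟩
  have hnil : ∀ z ∈ I, NilR R (ε * z * ε) := by
    intro z hz
    have hyI : ε * z * ε ∈ I := hr _ hεΛ _ (hl _ hεΛ _ hz)
    have h1 : ε * (ε * z * ε) = ε * z * ε := by rw [← mul_assoc, ← mul_assoc, hεε]
    have h2 : ε * z * ε * ε = ε * z * ε := by rw [mul_assoc, hεε]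
    generalize ε * z * ε = y at hyI h1 h2
    obtain ⟨π, hπ, w, hw, hi, hn, hyw⟩ := exists_fitting hR y 0
    rw [map_zero, sub_zero] at hn hyw
    have hle : Algebra.adjoin R {y} ≤ Λ :=
      Algebra.adjoin_le (Set.singleton_subset_iff.2 (hIΛ y hyI))
    have hc : Commute ε π :=
      Algebra.commute_of_mem_adjoin_singleton_of_commute hπ (h1.trans h2.symm)
    have h3 : ε * π = ε := by
      refine hmin _ ?_ ⟨Λ.mul_mem hεΛ (hle hπ), ?_, ?_, ?_⟩ ?_ ?_
      · rw [mul_assoc, ← mul_assoc π, ← hc.eq, mul_assoc, hi.eq, ← mul_assoc, hεε]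
      · rw [← mul_assoc, hJε]
      · rw [hc.eq, mul_assoc, hεJ]
      · have h4 : J - ε * π = (J - ε) + ε * (y * w) := by
          rw [hyw, mul_sub, mul_one]; abel
        rw [h4]
        exact I.add_mem hI (hl _ hεΛ _ (hr _ (hle hw) _ hyI))
      · rw [← mul_assoc, hεε]
      · rw [hc.eq, mul_assoc, hεε]
    have h5 : y * π = y := by rw [← h2, mul_assoc, h3]
    rwa [h5] at hn
  refine ⟨ε, hεΛ, hεε, hJε, hεJ, hI, hnil, fun z hz => ?_⟩
  obtain ⟨c, N, hN⟩ := hloc z hz
  refine ⟨c, ?_⟩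
  have huΛ : J * z * J - c • J ∈ Λ :=
    Λ.sub_mem (Λ.mul_mem (Λ.mul_mem hJΛ hz) hJΛ) (Λ.smul_mem hJΛ c)
  have haΛ : ε * z * ε - c • ε ∈ Λ :=
    Λ.sub_mem (Λ.mul_mem (Λ.mul_mem hεΛ hz) hεΛ) (Λ.smul_mem hεΛ c)
  have hd : (J * z * J - c • J) - (ε * z * ε - c • ε) ∈ I := by
    have h1 : (J * z * J - c • J) - (ε * z * ε - c • ε)
        = (J - ε) * (z * J) + ε * z * (J - ε) - c • (J - ε) := by
      simp only [sub_mul, mul_sub, smul_sub, mul_assoc]
      abel
    rw [h1]
    exact I.sub_mem (I.add_mem (hr _ (Λ.mul_mem hz hJΛ) _ hI) (hl _ (Λ.mul_mem hεΛ hz) _ hI))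
      (I.smul_mem c hI)
  have h1 : ε * (ε * z * ε - c • ε) = ε * z * ε - c • ε := by
    rw [mul_sub, mul_smul_comm, hεε, ← mul_assoc, ← mul_assoc, hεε]
  have h2 : (ε * z * ε - c • ε) * ε = ε * z * ε - c • ε := by
    rw [sub_mul, smul_mul_assoc, hεε, mul_assoc, hεε]
  generalize J * z * J - c • J = u at hN huΛ hd
  generalize ε * z * ε - c • ε = a at haΛ hd h1 h2
  have hp : ∀ n : ℕ, u ^ n - a ^ n ∈ I := by
    intro n
    induction n with
    | zero => rw [pow_zero, pow_zero, sub_self]; exact I.zero_mem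
    | succ n ih =>
      have h3 : u ^ (n + 1) - a ^ (n + 1) = (u ^ n - a ^ n) * u + a ^ n * (u - a) := by
        rw [pow_succ, pow_succ, sub_mul, mul_sub]; abel
      rw [h3]
      exact I.add_mem (hr _ huΛ _ ih) (hl _ (Λ.pow_mem haΛ n) _ hd)
  have h4 : a ^ (N + 1) ∈ I := by
    have h5 := I.sub_mem hN (hp (N + 1))
    rwa [sub_sub_cancel] at h5
  have h6 := hnil _ h4
  have h7 : ε * a ^ (N + 1) * ε = a ^ (N + 1) := by
    rw [pow_succ' a N, ← mul_assoc, h1, ← pow_succ', pow_succ, mul_assoc, h2]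
  rw [h7] at h6
  exact nilR_of_pow h6

end Pool.Agent.Lib.MP_b6945b_al.St
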