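import Pool.Agent.Lib.MP_b6945b_al.St.FrRk1
import Pool.Agent.Lib.MP_b6945b_al.St.FrMin

set_option autoImplicit false

/-!
First properties of interior algebras.
-/

namespace Pool.Agent.Lib.MP_b6945b_al.St

open IsLocalRing
open MonoidAlgebra (single)

section ring

variable {R D A : Type} [CommRing R] [CommGroup D] [Fintype D] [Ring A] [Algebra R A]
  {δ : D →* A} {Q S : Subgroup D}

lemma hatI_apply (c : MonoidAlgebra R D) : hatI R δ c = ∑ u, c.coeff u • δ u := by
  rw [hatI, MonoidAlgebra.lift_apply, Finsupp.sum_fintype]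
  intro u
  exact zero_smul _ _

lemma augI_apply (c : MonoidAlgebra R D) : augI R D c = ∑ u, c.coeff u := by
  rw [augI, hatI_apply]
  simp

lemma hatI_comm {b : A} (hb : ∀ u, δ u * b = b * δ u) (c : MonoidAlgebra R D) :
    hatI R δ c * b = b * hatI R δ c := by
  rw [hatI_apply, Finset.sum_mul, Finset.mul_sum]
  exact Finset.sum_congr rfl fun u _ => by rw [smul_mul_assoc, mul_smul_comm, hb]

lemma hatI_fixed (c : MonoidAlgebra R D) (S : Subgroup D) : FixedBy (cjI R δ) S (hatI R δ c) := by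
  exact fixedBy_cjI_iff.2 fun u _ => (hatI_comm (fun v => delta_comm δ v u) c).symm

lemma hatI_cornerI {e : A} (he : IsIdempotentElem e) (hc : ∀ u, δ u * e = e * δ u)
    (c : MonoidAlgebra R D) : (hatI R (cornerI δ he hc) c).1 = hatI R δ c * e := by
  rw [← cval_apply (R := R), hatI_apply, hatI_apply, map_sum, Finset.sum_mul]
  refine Finset.sum_congr rfl fun u _ => ?_
  rw [map_smul, smul_mul_assoc]
  rfl

omit [Fintype D] in
lemma fixedBy_of_cent (h : ∀ q ∈ Q, ∀ a, δ q * a = a * δ q) (a : A) : FixedBy (cjI R δ) Q a := by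
  exact fixedBy_cjI_iff.2 fun u hu => h u hu a

omit [Fintype D] in
lemma fixedBy_biI_dg {ψ : MulAut D} {a : A} :
    FixedBy (biI R δ) (dg ψ S) a ↔ ∀ u ∈ S, δ (ψ u) * a = a * δ u := by
  constructor
  · intro h u hu
    have h1 : δ (ψ u) * (a * δ u⁻¹) = a := h (ψ u, u) (mem_dg.2 ⟨hu, rfl⟩)
    calc δ (ψ u) * a = δ (ψ u) * (a * δ u⁻¹) * δ u := by
          rw [mul_assoc, mul_assoc, delta_inv_mul, mul_one]
      _ = a * δ u := by rw [h1]
  · intro h g hg
    obtain ⟨h1, h2⟩ := mem_dg.1 hg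
    rw [biI_apply, h2, ← mul_assoc, h _ h1, mul_assoc, delta_mul_inv, mul_one]

lemma mul_rtr_cjI {T : Subgroup D} {z : A} (hz : FixedBy (cjI R δ) T z) (a : A) :
    z * rtr (cjI R δ) S T a = rtr (cjI R δ) S T (z * a) ∧
      rtr (cjI R δ) S T a * z = rtr (cjI R δ) S T (a * z) := by
  constructor
  · refine rtr_map (φ := LinearMap.mulLeft R z) (fun g hg b => ?_) a
    simp only [LinearMap.mulLeft_apply]
    rw [cjI_mul, hz g hg]
  · refine rtr_map (φ := LinearMap.mulRight R z) (fun g hg b => ?_) a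
    simp only [LinearMap.mulRight_apply]
    rw [cjI_mul, hz g hg]

lemma rtr_top_apply {M : Type} [AddCommGroup M] [Module R M] [Fintype (D ⧸ Q)]
    (ρ : Representation R D M) (m : M) : rtr ρ Q ⊤ m = ∑ q : D ⧸ Q, ρ q.out m := by
  rw [tr_apply]
  exact Finset.sum_congr (by ext; simp) fun q _ => if_pos (Subgroup.mem_top _)

omit [Fintype D] in
lemma SepI.central {ι : Type} [Fintype ι] {x y : ι → A} (h : SepI R δ x y) {a : A}
    (ha : FixedBy (cjI R δ) ⊤ a) (b : A) : b * ∑ i, x i * a * y i = (∑ i, x i * a * y i) * b := by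
  have h1 := h A (fun x y => x * a * y) ⟨fun x x' y => by rw [add_mul, add_mul],
    fun x y y' => by rw [mul_add], fun x y u => by
      rw [mul_assoc x, fixedBy_cjI_iff.1 ha u trivial]
      simp only [mul_assoc], fun r x y => by
      rw [smul_mul_assoc, smul_mul_assoc, mul_smul_comm]⟩ b
  rw [Finset.mul_sum, Finset.sum_mul]
  simpa only [mul_assoc] using h1

omit [Fintype D] in
lemma SepI.mul_central {ι : Type} [Fintype ι] {x y : ι → A} (h : SepI R δ x y) {w : A}
    (hw : ∀ a, w * a = a * w) : SepI R δ (fun i => w * x i) y := by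
  intro N _ β hβ a
  have h1 := h N (fun x y => β (w * x) y) ⟨fun x x' y => by rw [mul_add, hβ.add_left],
    fun x y y' => hβ.add_right _ _ _, fun x y u => by rw [← mul_assoc, hβ.mid],
    fun r x y => by rw [mul_smul_comm, hβ.smul]⟩ a
  rw [← h1]
  exact Finset.sum_congr rfl fun i _ => by rw [← mul_assoc, ← hw, mul_assoc]

omit [Fintype D] in
/-- Apply `h` to `β (e x e) (e y e)`. -/
lemma SepI.corner {ι : Type} [Fintype ι] {x y : ι → A} (h : SepI R δ x y) {e : A}
    (he : IsIdempotentElem e) (hc : ∀ u, δ u * e = e * δ u) :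
    SepI R (cornerI δ he hc) (fun i => cmk he (x i)) (fun i => cmk he (y i)) := by
  intro N _ β hβ a
  have e1 : ∀ z u, cmk he (z * δ u) = cmk he z * cornerI δ he hc u := fun z u => Subtype.ext (by
    rw [corner_mul, cornerI_val, cmk_val, cmk_val, hc, mul_assoc (e * z), ← mul_assoc e e, he.eq,
      ← hc]
    simp only [mul_assoc])
  have e2 : ∀ z u, cmk he (δ u * z) = cornerI δ he hc u * cmk he z := fun z u => Subtype.ext (by
    rw [corner_mul, cornerI_val, cmk_val, cmk_val, ← mul_assoc e, ← hc]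
    simp only [← mul_assoc]
    rw [mul_assoc (δ u) e e, he.eq])
  have e3 : ∀ z, cmk he (a.1 * z) = a * cmk he z := fun z => Subtype.ext (by
    rw [corner_mul, cmk_val, cmk_val]
    simp only [← mul_assoc]
    rw [corner_left, corner_right])
  have e4 : ∀ z, cmk he (z * a.1) = cmk he z * a := fun z => Subtype.ext (by
    rw [corner_mul, cmk_val, cmk_val]
    simp only [mul_assoc]
    rw [corner_left, corner_right])
  have e5 : ∀ z z', cmk he (z + z') = cmk he z + cmk he z' := map_add (cproj R he)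
  have e6 : ∀ (r : R) z, cmk he (r • z) = r • cmk he z := map_smul (cproj R he)
  have h1 := h N (fun x y => β (cmk he x) (cmk he y)) ⟨fun x x' y => by rw [e5, hβ.add_left],
    fun x y y' => by rw [e5, hβ.add_right], fun x y u => by rw [e1, e2, hβ.mid],
    fun r x y => by rw [e6, e6, hβ.smul]⟩ a.1
  simpa only [e3, e4] using h1

/-- For `S`-fixed `x`: `rtr Q ⊤ t = rtr S ⊤ (rtr Q S t)` is also `rtr Q S (rtr`-like sum over a
transversal `w` of `D / S` of `δ w * t (δ w⁻¹ * x))`, because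
`δ v * t (δ v⁻¹ * y) = δ v * t y * δ v⁻¹` when `y` commutes with `δ v`. -/
lemma HigI.fixed {r : A →ₗ[R] MonoidAlgebra R D} {t : A →ₗ[R] A} (h : HigI R δ Q r t)
    (hc : ∀ q ∈ Q, ∀ a, δ q * a = a * δ q) (hQS : Q ≤ S) {x : A}
    (hx : FixedBy (cjI R δ) S x) : ∃ m, x = hatI R δ (r x) + rtr (cjI R δ) Q S m := by
  classical
  have ht : FixedBy ((lI R δ).linHom (lI R δ)) Q t := fixedBy_linHom.2 fun q hq y => by
    rw [lI_apply, lI_apply, hc q hq, hc q hq, h.t_right]
  have h1 : ∀ y, FixedBy (cjI R δ) S y →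
      rtr ((lI R δ).linHom (lI R δ)) Q S t y = rtr (cjI R δ) Q S (t y) := by
    intro y hy
    rw [tr_apply, tr_apply, LinearMap.sum_apply]
    refine Finset.sum_congr rfl fun q _ => ?_
    split_ifs with hq
    · change δ q.out * t (δ q.out⁻¹ * y) = _
      rw [fixedBy_cjI_iff.1 hy _ (S.inv_mem hq), h.t_right, cjI_apply]
    · rfl
  have : Fintype (D ⧸ S) := Fintype.ofFinite _
  refine ⟨∑ w : D ⧸ S, δ w.out * t (δ w.out⁻¹ * x), ?_⟩
  conv_lhs => rw [h.eq x, ← rtr_trans hQS le_top ht, rtr_top_apply, LinearMap.sum_apply]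
  rw [map_sum]
  congr 1
  refine Finset.sum_congr rfl fun w _ => ?_
  have h2 : ∀ v, FixedBy (cjI R δ) S (δ v) := fun v =>
    fixedBy_cjI_iff.2 fun u _ => delta_comm δ u v
  change δ w.out * rtr ((lI R δ).linHom (lI R δ)) Q S t (δ w.out⁻¹ * x) = _
  rw [h1 _ ((fixI R δ S).mul_mem (h2 _) hx), (mul_rtr_cjI (h2 _) _).1]

section bal

variable {N : Type} [AddCommGroup N] {β : A → A → N}

omit [Fintype D] in
lemma fri1_sum_left (hβ : Bal R δ β) {ι : Type} (s : Finset ι) (f : ι → A) (y : A) :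
    β (∑ i ∈ s, f i) y = ∑ i ∈ s, β (f i) y :=
  map_sum (AddMonoidHom.mk' (fun x => β x y) fun x x' => hβ.add_left x x' y) f s

omit [Fintype D] in
lemma fri1_sum_right (hβ : Bal R δ β) {ι : Type} (s : Finset ι) (f : ι → A) (x : A) :
    β x (∑ i ∈ s, f i) = ∑ i ∈ s, β x (f i) :=
  map_sum (AddMonoidHom.mk' (β x) (hβ.add_right x)) f s

omit [Fintype D] in
lemma fri1_neg (hβ : Bal R δ β) (x y : A) : β (-x) y = -β x y :=
  map_neg (AddMonoidHom.mk' (fun x => β x y) fun x x' => hβ.add_left x x' y) x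

lemma fri1_hat (hβ : Bal R δ β) (c : MonoidAlgebra R D) (y : A) :
    β (hatI R δ c) y = β 1 (hatI R δ c * y) := by
  rw [hatI_apply, Finset.sum_mul, fri1_sum_left hβ, fri1_sum_right hβ]
  refine Finset.sum_congr rfl fun u _ => ?_
  rw [hβ.smul, smul_mul_assoc, ← mul_smul_comm, ← hβ.mid, one_mul]

end bal

/-- Restriction to `D` is full up to traces.  Write `x i = hat (r (x i)) + ∑ q, δ q * t (δ q⁻¹ * x i)`
and `1 = ∑ x i * y i`; for fixed `u` the map
`(x, y) ↦ β (δ u * t x) y - β 1 (δ u * t x * y)` is balanced, so `δ u⁻¹` moves to the right of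
`y i`.  Take the family `(t (x i), y i)`, `(-1, t (x i) * y i)`. -/
lemma HigI.full [Fintype (D ⧸ Q)] {r : A →ₗ[R] MonoidAlgebra R D} {t : A →ₗ[R] A}
    (h : HigI R δ Q r t) {ι : Type} [Fintype ι] {x y : ι → A} (hs : SepI R δ x y) (h1 : ∑ i, x i * y i = 1) :
    ∃ (κ : Type) (_ : Fintype κ) (X Y : κ → A), ∀ (N : Type) [AddCommGroup N] (β : A → A → N),
      Bal R δ β → ∑ i, β (x i) (y i) =
        β 1 1 + ∑ q : D ⧸ Q, ∑ k, β (δ q.out * X k) (Y k * δ q.out⁻¹) := by
  refine ⟨ι ⊕ ι, inferInstance, Sum.elim (fun i => t (x i)) fun _ => -1,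
    Sum.elim y fun i => t (x i) * y i, fun N _ β hβ => ?_⟩
  have hx : ∀ z, z = hatI R δ (r z) + ∑ q : D ⧸ Q, δ q.out * t (δ q.out⁻¹ * z) := fun z => by
    conv_lhs => rw [h.eq z, rtr_top_apply, LinearMap.sum_apply]
    rfl
  have h2 : ∀ u : D, ∑ i, (β (δ u * t (δ u⁻¹ * x i)) (y i) - β 1 (δ u * t (δ u⁻¹ * x i) * y i)) =
      ∑ i, β (δ u * t (x i)) (y i * δ u⁻¹) + ∑ i, β (δ u * -1) (t (x i) * y i * δ u⁻¹) := by
    intro u
    rw [hs N (fun x y => β (δ u * t x) y - β 1 (δ u * t x * y)) ⟨fun x x' y => by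
        rw [map_add, mul_add, add_mul, hβ.add_left, hβ.add_right]
        abel, fun x y y' => by
        rw [mul_add, hβ.add_right, hβ.add_right]
        abel, fun x y v => by
        rw [h.t_right, ← mul_assoc, hβ.mid, mul_assoc _ (δ v)], fun c x y => by
        rw [map_smul, mul_smul_comm, hβ.smul, smul_mul_assoc, mul_smul_comm]⟩ (δ u⁻¹),
      ← Finset.sum_add_distrib]
    refine Finset.sum_congr rfl fun i _ => ?_
    rw [mul_neg, mul_one, fri1_neg hβ, sub_eq_add_neg, mul_assoc (δ u), ← hβ.mid, one_mul,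
      mul_assoc (t (x i))]
  have h3 : ∀ i, β (x i) (y i) = β 1 (x i * y i) + ∑ q : D ⧸ Q,
      (β (δ q.out * t (δ q.out⁻¹ * x i)) (y i) - β 1 (δ q.out * t (δ q.out⁻¹ * x i) * y i)) := by
    intro i
    have e1 : β (x i) (y i) = β 1 (hatI R δ (r (x i)) * y i) +
        ∑ q : D ⧸ Q, β (δ q.out * t (δ q.out⁻¹ * x i)) (y i) := by
      conv_lhs => rw [hx (x i), hβ.add_left, fri1_sum_left hβ, fri1_hat hβ]
    have e2 : β 1 (x i * y i) = β 1 (hatI R δ (r (x i)) * y i) +
        ∑ q : D ⧸ Q, β 1 (δ q.out * t (δ q.out⁻¹ * x i) * y i) := by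
      conv_lhs => rw [hx (x i), add_mul, hβ.add_right, Finset.sum_mul, fri1_sum_right hβ]
    rw [e1, e2, Finset.sum_sub_distrib]
    abel
  simp only [h3]
  rw [Finset.sum_add_distrib, ← fri1_sum_right hβ, h1, Finset.sum_comm]
  congr 1
  refine Finset.sum_congr rfl fun q _ => ?_
  rw [h2, Fintype.sum_sum_type]
  rfl

lemma HigI.central {r : A →ₗ[R] MonoidAlgebra R D} {t : A →ₗ[R] A} (h : HigI R δ Q r t)
    {ι : Type} [Fintype ι] {x y : ι → A} (hs : SepI R δ x y) (h1 : ∑ i, x i * y i = 1) {a : A}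
    (ha : FixedBy (cjI R δ) ⊤ a) : ∃ m, ∑ i, x i * a * y i = a + rtr (cjI R δ) Q ⊤ m := by
  have : Fintype (D ⧸ Q) := Fintype.ofFinite _
  obtain ⟨κ, _, X, Y, hXY⟩ := h.full hs h1
  have h2 := hXY A (fun x y => x * a * y) ⟨fun x x' y => by rw [add_mul, add_mul],
    fun x y y' => by rw [mul_add], fun x y u => by
      rw [mul_assoc x, fixedBy_cjI_iff.1 ha u trivial]
      simp only [mul_assoc], fun r x y => by
      rw [smul_mul_assoc, smul_mul_assoc, mul_smul_comm]⟩
  refine ⟨∑ k, X k * a * Y k, ?_⟩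
  rw [h2, one_mul, mul_one, rtr_top_apply]
  congr 1
  refine Finset.sum_congr rfl fun q _ => ?_
  rw [map_sum]
  exact Finset.sum_congr rfl fun k _ => by simp only [cjI_apply, mul_assoc]

end ring

section loc

variable {R D A : Type} [CommRing R] [IsLocalRing R] [CommGroup D] [Fintype D] [Ring A]
  [Algebra R A] {δ : D →* A} {Q S : Subgroup D} {p : ℕ}

lemma trM_mul_left {a x : A} (ha : FixedBy (cjI R δ) S a) (hx : x ∈ trM R δ S) :
    a * x ∈ trM R δ S := by
  refine brK_map (φ := LinearMap.mulLeft R a) (fun g hg b => ?_) hx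
  simp only [LinearMap.mulLeft_apply]
  rw [cjI_mul, ha g hg]

lemma trM_mul_right {a x : A} (ha : FixedBy (cjI R δ) S a) (hx : x ∈ trM R δ S) :
    x * a ∈ trM R δ S := by
  refine brK_map (φ := LinearMap.mulRight R a) (fun g hg b => ?_) hx
  simp only [LinearMap.mulRight_apply]
  rw [cjI_mul, ha g hg]

/-- `(δ u - 1) ^ (p ^ k)` is divisible by `p`. -/
lemma Std.nil_delta (h : Std p R D) (δ : D →* A) (u : D) : NilR R (δ u - 1) := by
  obtain ⟨k, hk⟩ := h.pD u
  obtain ⟨z, hz⟩ := (Commute.one_right (δ u - 1)).exists_add_pow_prime_pow_eq h.prime k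
  rw [sub_add_cancel, ← map_pow, hk, map_one, one_pow] at hz
  refine ⟨p ^ k, ?_⟩
  have h1 : (δ u - 1) ^ p ^ k = (p : R) • (-((δ u - 1) * 1 * z)) := by
    rw [Nat.cast_smul_eq_nsmul, nsmul_eq_mul, mul_neg, eq_neg_iff_add_eq_zero, ← mul_assoc,
      ← mul_assoc]
    exact add_right_cancel (b := (1 : A)) (by rw [zero_add, add_right_comm]; exact hz.symm)
  rw [h1]
  exact inMax_smul h.pR _

lemma fri1_nil (h : Std p R D) (c : MonoidAlgebra R D) : NilR R (c - augI R D c • 1) := by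
  have h1 : c - augI R D c • 1 = ∑ u, c.coeff u • (MonoidAlgebra.of R D u - 1) := by
    simp only [smul_sub, Finset.sum_sub_distrib]
    rw [← Finset.sum_smul, ← augI_apply]
    congr 1
    exact eq_sum_single c
  rw [h1]
  exact Finset.sum_induction _ (NilR R) (fun a b ha hb => ha.add hb (mul_comm _ _))
    (InMax.nilR (Submodule.zero_mem _)) fun u _ => (h.nil_delta _ u).smul _

lemma Std.nil_hat (h : Std p R D) (δ : D →* A) (c : MonoidAlgebra R D) :
    NilR R (hatI R δ c - augI R D c • 1) := by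
  have h1 := (fri1_nil h c).map (hatI R δ)
  rwa [map_sub, map_smul, map_one] at h1

lemma Std.isUnit_of_aug (h : Std p R D) {c : MonoidAlgebra R D}
    (hc : augI R D c ∉ maximalIdeal R) : IsUnit c := by
  obtain ⟨a, ha⟩ := notMem_maximalIdeal.1 hc
  have h1 := (((fri1_nil h c).smul (↑a⁻¹ : R)).neg).isUnit_one_sub
  rw [smul_sub, smul_smul, ← ha, Units.inv_mul, one_smul, neg_sub, sub_sub_cancel,
    Algebra.smul_def] at h1
  exact isUnit_of_mul_isUnit_right h1

lemma Std.index_mem (h : Std p R D) {T : Subgroup D} (hST : S < T) :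
    (S.relIndex T : R) ∈ maximalIdeal R := by
  exact relIndex_mem_max h.prime h.pR (h.pD.to_subgroup T) hST

lemma Std.card_quot_mem (h : Std p R D) (hQ : Q ≠ ⊤) :
    (Nat.card (D ⧸ Q) : R) ∈ maximalIdeal R := by
  have h1 := h.index_mem (lt_top_iff_ne_top.2 hQ)
  rwa [Subgroup.relIndex_top_right] at h1

/-- `brK_le_of_triv`, `HigI.fixed` at the intermediate subgroup, `rtr_trans`. -/
lemma PreI.trM_le (hs : Std p R D) (h : PreI R δ Q) {x : A} (hx : x ∈ trM R δ ⊤) :
    ∃ m y, InMax R y ∧ x = rtr (cjI R δ) Q ⊤ m + y := by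
  obtain ⟨r, t, hr⟩ := h.hig
  have h1 : trM R δ ⊤ ≤ LinearMap.range (rtr (cjI R δ) Q ⊤) ⊔ maximalIdeal R • ⊤ := by
    refine (brK_le_of_triv hs.prime hs.pR (hs.pD.to_subgroup ⊤) le_top
      (fixedBy_of_cent h.cent)).trans (sup_le (Submodule.span_le.2 ?_)
      ((Submodule.smul_mono le_rfl le_top).trans le_sup_right))
    rintro _ ⟨S, m, ⟨hQS, hS⟩, -, hm, rfl⟩
    obtain ⟨m', hm'⟩ := hr.fixed h.cent hQS hm
    rw [hm', map_add, rtr_trans hQS le_top (fixedBy_of_cent h.cent _),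
      rtr_of_fixed le_top (hatI_fixed _ _), add_comm, ← Nat.cast_smul_eq_nsmul R]
    exact Submodule.add_mem_sup ⟨_, rfl⟩ (inMax_smul (hs.index_mem hS) _)
  obtain ⟨_, ⟨m, rfl⟩, y, hy, e⟩ := Submodule.mem_sup.1 (h1 hx)
  exact ⟨m, y, hy, e.symm⟩

lemma NilI.nil_trM (hs : Std p R D) (h : NilI R δ Q) {x : A} (hx : x ∈ trM R δ ⊤) : NilR R x := by
  obtain ⟨m, y, hy, rfl⟩ := h.toPreI.trM_le hs hx
  exact (h.nt m).add_inMax hy

lemma fri1_loc (hs : Std p R D) (h : NilI R δ Q) {r : A →ₗ[R] MonoidAlgebra R D} {t : A →ₗ[R] A}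
    (hr : HigI R δ Q r t) {z : A} (hz : FixedBy (cjI R δ) ⊤ z) :
    NilR R (z - augI R D (r z) • 1) := by
  obtain ⟨m, hm⟩ := hr.fixed h.cent le_top hz
  have h1 : z - augI R D (r z) • 1 =
      hatI R δ (r z) - augI R D (r z) • 1 + rtr (cjI R δ) Q ⊤ m := by
    rw [sub_add_eq_add_sub, ← hm]
  have h2 := fixedBy_cjI_iff.1 (rtr_fixed le_top (fixedBy_of_cent (R := R) h.cent m))
  rw [h1]
  refine (hs.nil_hat δ _).add (h.nt m) ?_
  rw [sub_mul, mul_sub, hatI_comm fun u => h2 u trivial, smul_mul_assoc, mul_smul_comm, one_mul,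
    mul_one]

/-- `z = hat c + rtr m`; `hat c - aug c` commutes with all fixed elements. -/
lemma NilI.loc (hs : Std p R D) (h : NilI R δ Q) {z : A} (hz : FixedBy (cjI R δ) ⊤ z) :
    ∃ c : R, NilR R (z - c • 1) := by
  obtain ⟨r, t, hr⟩ := h.hig
  exact ⟨_, fri1_loc hs h hr hz⟩

/-- `1 = hat (r 1) + rtr m`. -/
lemma NilI.aug_r_one [Module.Finite R A] (hs : Std p R D) (h : NilI R δ Q)
    {r : A →ₗ[R] MonoidAlgebra R D} {t : A →ₗ[R] A} (hr : HigI R δ Q r t) :
    augI R D (r 1) ∉ maximalIdeal R := by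
  intro hm
  have h1 := (fri1_loc hs h hr (z := 1) (fixI R δ ⊤).one_mem).add_inMax (inMax_smul hm 1)
  rw [sub_add_cancel] at h1
  obtain ⟨n, hn⟩ := h1
  rw [one_pow] at hn
  exact h.ne hn

/-- `r (hat c) = c * r 1` and `r 1` is a unit. -/
lemma NilI.hat_injective [Module.Finite R A] (hs : Std p R D) (h : NilI R δ Q) :
    Function.Injective (hatI R δ) := by
  obtain ⟨r, t, hr⟩ := h.hig
  have hu := hs.isUnit_of_aug (h.aug_r_one hs hr)
  have h1 : ∀ c, r (hatI R δ c) = c * r 1 := fun c => by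
    rw [hatI_apply, map_sum]
    conv_rhs => rw [eq_sum_single c, Finset.sum_mul]
    refine Finset.sum_congr rfl fun u _ => ?_
    rw [map_smul, ← mul_one (δ u), hr.r_left, smul_mul_assoc]
  intro c c' e
  exact hu.mul_right_cancel (by rw [← h1, ← h1, e])

end loc

end Pool.Agent.Lib.MP_b6945b_al.St
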