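import Pool.Agent.Lib.MP_b6945b_al.St.FrI1

set_option autoImplicit false

/-!
Simple modules of a local interior algebra over an algebraically closed field.
-/

namespace Pool.Agent.Lib.MP_b6945b_al.St

open IsLocalRing
open MonoidAlgebra (single)

variable {k B : Type} [Field k] [IsAlgClosed k] [Ring B] [Algebra k B]

/-- Burnside.  `Module.Finite.toModuleEnd_moduleEnd_surjective` (or `jacobson_density`) and
`IsSimpleModule.algebraMap_end_bijective_of_isAlgClosed`. -/
lemma burnside (M : Type) [AddCommGroup M] [Module k M] [Module B M] [IsScalarTower k B M]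
    [FiniteDimensional k M] [IsSimpleModule B M] (f : M →ₗ[k] M) :
    ∃ b : B, ∀ m, b • m = f m := by
  let g : Module.End (Module.End B M) M :=
    { toFun := f
      map_add' := f.map_add
      map_smul' := fun e m => by
        obtain ⟨c, rfl⟩ := (IsSimpleModule.algebraMap_end_bijective_of_isAlgClosed k).2 e
        exact f.map_smul c m }
  obtain ⟨s, hs⟩ := Module.Finite.fg_top (R := k) (M := M)
  obtain ⟨b, hb⟩ := jacobson_density g s
  refine ⟨b, fun m => ?_⟩
  induction hs.ge (trivial : m ∈ ⊤) using Submodule.span_induction with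
  | mem m hm => exact (hb m hm).symm
  | zero => rw [smul_zero, map_zero]
  | add x y _ _ hx hy => rw [smul_add, map_add, hx, hy]
  | smul c x _ hx => rw [smul_comm, map_smul, hx]

/-- A module of dimension prime to `p` has a composition factor of dimension prime to `p`
(strong induction on the dimension over all modules); `burnside` and a basis. -/
lemma exists_rep_of_module {p : ℕ} (M : Type) [AddCommGroup M] [Module k M] [Module B M]
    [IsScalarTower k B M] [FiniteDimensional k M] (h : ¬ p ∣ Module.finrank k M) :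
    ∃ (n : ℕ) (ρ : B →ₐ[k] Matrix (Fin n) (Fin n) k), ¬ p ∣ n ∧ Function.Surjective ρ := by
  induction hn : Module.finrank k M using Nat.strong_induction_on generalizing M with
  | _ n ih =>
  subst hn
  have : Nontrivial M := Module.nontrivial_of_finrank_pos (R := k)
    (Nat.pos_of_ne_zero fun e => h (e ▸ dvd_zero p))
  by_cases hS : IsSimpleModule B M
  · refine ⟨_, (LinearMap.toMatrixAlgEquiv (Module.finBasis k M)).toAlgHom.comp
      (Algebra.lsmul k k M), h, fun a => ?_⟩
    obtain ⟨f, rfl⟩ := (LinearMap.toMatrixAlgEquiv (Module.finBasis k M)).surjective a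
    obtain ⟨b, hb⟩ := burnside (B := B) M f
    exact ⟨b, congrArg (LinearMap.toMatrixAlgEquiv (Module.finBasis k M)) (LinearMap.ext hb)⟩
  · have : ∃ N : Submodule B M, N ≠ ⊥ ∧ N ≠ ⊤ := by
      by_contra hc
      push Not at hc
      exact hS ((isSimpleModule_iff B M).2
        ⟨fun N => (eq_or_ne N ⊥).imp_right (hc N)⟩)
    obtain ⟨N, h0, h1⟩ := this
    have e := (N.restrictScalars k).finrank_quotient_add_finrank
    rw [(Submodule.Quotient.restrictScalarsEquiv k N).finrank_eq,
      ((N.restrictScalarsEquiv k B M).restrictScalars k).finrank_eq] at e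
    have : FiniteDimensional k N := .of_injective (N.subtype.restrictScalars k) N.subtype_injective
    have : Nontrivial N := Submodule.nontrivial_iff_ne_bot.2 h0
    have : Nontrivial (M ⧸ N) := Submodule.Quotient.nontrivial_iff.2 h1
    have p1 := Module.finrank_pos (R := k) (M := N)
    have p2 := Module.finrank_pos (R := k) (M := M ⧸ N)
    by_cases hd : p ∣ Module.finrank k N
    · exact ih _ (by omega) (M ⧸ N) (fun h' => h (e ▸ dvd_add h' hd)) rfl
    · exact ih _ (by omega) N hd rfl

variable {D : Type} [CommGroup D] [Fintype D] [FiniteDimensional k B] {δ : D →* B}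
  {Q : Subgroup D} {p : ℕ}

/-- The left ideal generated by the augmentation ideal of `D`. -/
def augL (δ : D →* B) : Submodule B B := Submodule.span B {x | ∃ u, x = δ u - 1}

omit [IsAlgClosed k] [Fintype D] [FiniteDimensional k B] in
lemma frsimple_mem (b : B) (u : D) : b * δ u - b ∈ augL δ := by
  have := (augL δ).smul_mem b (Submodule.subset_span ⟨u, rfl⟩)
  rwa [smul_eq_mul, mul_sub, mul_one] at this

omit [IsAlgClosed k] [Fintype D] [FiniteDimensional k B] in
lemma frsimple_ind {N : Type} [AddCommGroup N] [Module k N] (g : B →ₗ[k] N) (W : Submodule k N)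
    (h : ∀ b u, g (b * δ u) - g b ∈ W) {x : B} (hx : x ∈ augL δ) : g x ∈ W := by
  suffices ∀ b, g (b * x) ∈ W by simpa using this 1
  induction hx using Submodule.span_induction with
  | mem x hx =>
    obtain ⟨u, rfl⟩ := hx
    intro b
    rw [mul_sub, mul_one, map_sub]
    exact h b u
  | zero => simp
  | add x y _ _ hx hy => exact fun b => by rw [mul_add, map_add]; exact W.add_mem (hx b) (hy b)
  | smul c x _ hx => exact fun b => by rw [smul_eq_mul, ← mul_assoc]; exact hx _

/-- Let `Y = B ⧸ augL δ`.  The maps `t` and `aug ∘ r` kill or preserve `augL δ` (they are right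
linear), so `id Y = (aug ∘ r).smulRight [1] + ∑ q, δ q ∘ t ∘ δ q⁻¹`.  Traces: the dimension of `Y`
is `aug (r 1) + |D / Q| * trace t = aug (r 1) ≠ 0` in `k` (`NilI.aug_r_one`,
`Std.card_quot_mem`, `charP_of_mem` or `CharP`-free argument: if `p` divides the dimension then it
is zero in `k`). -/
theorem NilI.exists_rep (hs : Std p k D) (h : NilI k δ Q) :
    ∃ (n : ℕ) (ρ : B →ₐ[k] Matrix (Fin n) (Fin n) k), ¬ p ∣ n ∧ Function.Surjective ρ := by
  obtain ⟨r, t, hH⟩ := h.hig
  refine exists_rep_of_module (B ⧸ augL δ) fun hp => h.aug_r_one hs hH ?_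
  let _ : Fintype (D ⧸ Q) := Fintype.ofFinite _
  let W : Submodule k B := (augL δ).restrictScalars k
  rw [← (Submodule.Quotient.restrictScalarsEquiv k (augL δ)).finrank_eq] at hp
  let tb : B ⧸ W →ₗ[k] B ⧸ W := W.mapQ W t fun x hx => frsimple_ind (δ := δ) t W (fun b u => by
    rw [hH.t_right]
    exact frsimple_mem _ u) hx
  let L : D → B ⧸ W →ₗ[k] B ⧸ W := fun u =>
    W.mapQ W (LinearMap.mulLeft k (δ u)) fun x hx => (augL δ).smul_mem (δ u) hx
  let φ : B ⧸ W →ₗ[k] k := W.liftQ ((augI k D).toLinearMap ∘ₗ r)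
    fun x hx => frsimple_ind (δ := δ) ((augI k D).toLinearMap ∘ₗ r) ⊥ (fun b u => by
      simp [hH.r_right, augI, hatI_single]) hx
  have hL : ∀ u, L u⁻¹ * L u = 1 := fun u => Submodule.linearMap_qext _ (LinearMap.ext fun x => by
    change W.mkQ (δ u⁻¹ * (δ u * x)) = W.mkQ x
    rw [← mul_assoc, delta_inv_mul, one_mul])
  have e : LinearMap.id = φ.smulRight (W.mkQ 1) + ∑ q : D ⧸ Q, L q.out * (tb * L q.out⁻¹) := by
    refine Submodule.linearMap_qext _ (LinearMap.ext fun x => ?_)
    have h1 := congrArg W.mkQ (hH.eq x)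
    rw [rtr_top_apply, LinearMap.sum_apply, map_add, map_sum] at h1
    rw [LinearMap.comp_apply, LinearMap.comp_apply, LinearMap.add_apply, LinearMap.sum_apply,
      LinearMap.id_apply, h1]
    refine congrArg₂ (· + ·) ?_ (by rw [← h1]; rfl)
    rw [← h1]
    change _ = augI k D (r x) • W.mkQ 1
    rw [← map_smul, ← sub_eq_zero, ← map_sub, Submodule.mkQ_apply, Submodule.Quotient.mk_eq_zero,
      hatI_apply, augI_apply, Finset.sum_smul, ← Finset.sum_sub_distrib]
    refine W.sum_mem fun u _ => ?_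
    rw [← smul_sub]
    exact W.smul_mem _ (Submodule.subset_span ⟨u, rfl⟩)
  have h2 := congrArg (LinearMap.trace k (B ⧸ W)) e
  rw [LinearMap.trace_id, map_add, map_sum, LinearMap.trace_smulRight,
    Finset.sum_congr rfl fun (q : D ⧸ Q) _ => by
      rw [LinearMap.trace_mul_comm, mul_assoc, hL, mul_one],
    Finset.sum_const, Finset.card_univ, ← Nat.card_eq_fintype_card, nsmul_eq_mul] at h2
  obtain ⟨c, hc⟩ := hp
  rw [hc, Nat.cast_mul] at h2
  have h3 : augI k D (r 1) = p * c - Nat.card (D ⧸ Q) * LinearMap.trace k (B ⧸ W) tb :=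
    eq_sub_of_add_eq h2.symm
  rw [h3]
  exact sub_mem (Ideal.mul_mem_right _ _ hs.pR)
    (Ideal.mul_mem_right _ _ (hs.card_quot_mem h.ne_top))

omit [FiniteDimensional k B] in
lemma frsimple_norm [Fintype (D ⧸ Q)] (hs : Std p k D) (h : NilI k δ Q) (T : Type)
    [AddCommGroup T] [Module k T] [Module B T] [IsScalarTower k B T] [FiniteDimensional k T]
    [IsSimpleModule B T] (t : T) : (∑ q : D ⧸ Q, δ q.out) • t = 0 := by
  have := IsSimpleModule.nontrivial B T
  let ρ : Representation k D T := (Algebra.lsmul k k T : B →ₐ[k] _).toMonoidHom.comp δ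
  have hρ : ∀ u m, ρ u m = δ u • m := fun _ _ => rfl
  have hQ : ∀ m, FixedBy ρ Q m := fun m q hq => by
    have hc : ∀ a, (δ q - 1) * a = a * (δ q - 1) := fun a => by
      rw [sub_mul, mul_sub, h.cent q hq, one_mul, mul_one]
    let g : T →ₗ[B] T :=
      { toFun := fun m => (δ q - 1) • m
        map_add' := smul_add _
        map_smul' := fun a m => by rw [smul_smul, hc, mul_smul, RingHom.id_apply] }
    rcases g.bijective_or_eq_zero with hg | hg
    · obtain ⟨n, hn⟩ := nilR_field.1 (hs.nil_delta δ q)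
      have key : ∀ (j : ℕ) (m : T), (δ q - 1) ^ j • m = 0 → m = 0 := fun j => by
        induction j with
        | zero => simp
        | succ j ih =>
          intro m hm
          rw [pow_succ, mul_smul] at hm
          exact hg.1 ((ih _ hm).trans g.map_zero.symm)
      rw [key n m (by rw [hn, zero_smul]), map_zero]
    · have h0 : (δ q - 1) • m = 0 := LinearMap.congr_fun hg m
      rwa [sub_smul, one_smul, sub_eq_zero] at h0
  have hN : (∑ q : D ⧸ Q, δ q.out) • t = rtr ρ Q ⊤ t := by
    rw [rtr_top_apply, Finset.sum_smul]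
    rfl
  by_contra hw
  have hfix := rtr_fixed le_top (hQ t)
  rw [← hN] at hfix
  obtain ⟨φ, hφ⟩ := Module.Projective.exists_dual_eq_one k hw
  obtain ⟨b, hb⟩ := burnside (B := B) T (φ.smulRight t)
  have h1 : rtr (cjI k δ) Q ⊤ b • (∑ q : D ⧸ Q, δ q.out) • t = (∑ q : D ⧸ Q, δ q.out) • t := by
    rw [rtr_top_apply, Finset.sum_smul]
    conv_rhs => rw [Finset.sum_smul]
    refine Finset.sum_congr rfl fun q _ => ?_
    rw [cjI_apply, mul_smul, mul_smul, ← hρ q.out⁻¹, hfix _ trivial, hb,
      LinearMap.smulRight_apply, hφ, one_smul]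
  obtain ⟨n, hn⟩ := nilR_field.1 (h.nt b)
  have h2 : ∀ j : ℕ, rtr (cjI k δ) Q ⊤ b ^ j • (∑ q : D ⧸ Q, δ q.out) • t =
      (∑ q : D ⧸ Q, δ q.out) • t := fun j => by
    induction j with
    | zero => rw [pow_zero, one_smul]
    | succ j ih => rw [pow_succ, mul_smul, h1, ih]
  exact hw (by rw [← h2 n, hn, zero_smul])

/-- The norm `N = ∑ q, δ q.out` lies in the radical.  If the left ideal generated by `1 + N m` is
proper it lies in a maximal left ideal `L`; `T = B ⧸ L` is simple.  If `N t ≠ 0` for some `t : T`,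
put `w = N t`, choose a functional `φ` with `φ w = 1` and (`burnside`) `b` acting as `φ(·) t`.
Elements of `Q` act trivially on `T` (`δ q - 1` is central and nilpotent), so `w` is fixed by `D`,
and `rtr Q ⊤ b` fixes `w`, although it is nilpotent.  So `N T = 0`, `N m ∈ L`, `1 ∈ L`.  A left
invertible element of a finite dimensional algebra is a unit. -/
lemma NilI.isUnit_one_add_norm [Fintype (D ⧸ Q)] (hs : Std p k D) (h : NilI k δ Q) (m : B) :
    IsUnit (1 + (∑ q : D ⧸ Q, δ q.out) * m) := by
  have : IsArtinianRing B := IsArtinianRing.of_finite k B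
  by_contra hu
  have hne : Ideal.span {1 + (∑ q : D ⧸ Q, δ q.out) * m} ≠ ⊤ := fun e => by
    obtain ⟨a, ha⟩ := Ideal.mem_span_singleton'.1 ((Ideal.eq_top_iff_one _).1 e)
    exact hu (IsUnit.of_mul_eq_one_right a ha)
  obtain ⟨L, hL, hle⟩ := Ideal.exists_le_maximal _ hne
  have : IsSimpleModule B (B ⧸ L) := isSimpleModule_iff_isCoatom.2 hL.out
  have h1 := frsimple_norm hs h (B ⧸ L) (Submodule.Quotient.mk m)
  rw [← Submodule.Quotient.mk_smul, Submodule.Quotient.mk_eq_zero, smul_eq_mul] at h1
  have h2 := L.sub_mem (hle (Ideal.mem_span_singleton_self _)) h1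
  rw [add_sub_cancel_right] at h2
  exact hL.ne_top ((Ideal.eq_top_iff_one _).2 h2)

/-- Apply `HigI.full` to `β x y = lam y • [x]` with values in `B ⧸ augL δ`: the class
`∑ lam (y i) • [x i]` equals `[1 + N m]` and is killed by the kernel of `lam` (`SepI`).  Since
`1 + N m` is a unit and the kernel is an ideal, the kernel lies in `augL δ`.  Then `le_of_central`
does not apply (the `δ u` need not be central); use `source1_ops` with the commuting nilpotent
operators of right multiplication by `δ u - 1`, `N = ⊤`, `P` the range of `hatI`. -/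
theorem NilI.hat_surjective (hs : Std p k D) (h : NilI k δ Q) (lam : B →ₐ[k] k)
    (hl : ∀ u, lam (δ u) = 1) : Function.Surjective (hatI k δ) := by
  let _ : Fintype (D ⧸ Q) := Fintype.ofFinite _
  obtain ⟨ι, _, x, y, hsep, h1⟩ := h.sep
  obtain ⟨r, t, hH⟩ := h.hig
  obtain ⟨κ, _, X, Y, hf⟩ := hH.full hsep h1
  let π : B →ₗ[k] B ⧸ augL δ := (augL δ).mkQ.restrictScalars k
  have hπ : ∀ b, π b = 0 ↔ b ∈ augL δ := fun b => Submodule.Quotient.mk_eq_zero _
  have hβ : Bal k δ fun a b => π (lam b • a) :=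
    ⟨fun a a' b => by rw [smul_add, map_add], fun a b b' => by rw [map_add, add_smul, map_add],
      fun a b u => by
        rw [map_mul, hl, one_mul, ← sub_eq_zero, ← map_sub, hπ, ← smul_mul_assoc]
        exact frsimple_mem _ u,
      fun c a b => by rw [map_smul lam, smul_smul, smul_eq_mul, mul_comm]⟩
  have e := hf _ _ hβ
  simp only [← map_sum, ← map_add, map_mul, hl, mul_one, map_one, one_smul, ← mul_smul_comm,
    ← Finset.mul_sum, ← Finset.sum_mul] at e
  obtain ⟨w, hw⟩ := h.isUnit_one_add_norm hs (∑ j, lam (Y j) • X j)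
  rw [← hw, ← sub_eq_zero, ← map_sub, hπ] at e
  have hker : ∀ a, lam a = 0 → a ∈ augL δ := fun a ha => by
    have ha' : lam (a * ↑w⁻¹) = 0 := by rw [map_mul, ha, zero_mul]
    have e2 := hsep _ _ hβ (a * ↑w⁻¹)
    simp only [← map_sum, map_mul lam (y _), ha', mul_zero, zero_smul, map_zero,
      Finset.sum_const_zero, ← mul_smul_comm, ← Finset.mul_sum] at e2
    have e3 := (augL δ).sub_mem ((hπ _).1 e2) ((augL δ).smul_mem (a * ↑w⁻¹) e)
    rwa [smul_eq_mul, mul_sub, sub_sub_cancel, mul_assoc, Units.inv_mul, mul_one] at e3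
  have key : (⊤ : Submodule k B) ≤ LinearMap.range (hatI k δ).toLinearMap := by
    refine source1_ops (fun u : D => LinearMap.mulRight k (δ u - 1)) ⊤ _ (fun i j b => ?_)
      (fun _ _ _ => trivial) ?_ (fun u => ?_) Finset.univ fun b _ => ?_
    · simp only [LinearMap.mulRight_apply, mul_assoc, mul_sub, sub_mul, mul_one,
        delta_comm δ i j]
      abel
    · rintro u _ ⟨c, rfl⟩
      refine ⟨c * (single u 1 - 1), ?_⟩
      simp [hatI_single]
    · obtain ⟨n, hn⟩ := nilR_field.1 (hs.nil_delta δ u)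
      exact ⟨n, fun b _ => by
        rw [LinearMap.pow_mulRight, hn, LinearMap.mulRight_apply, mul_zero]
        exact zero_mem _⟩
    · rw [← add_sub_cancel (lam b • 1) b]
      refine Submodule.add_mem_sup (Submodule.smul_mem _ _ ⟨1, map_one (hatI k δ)⟩)
        (frsimple_ind (δ := δ) (x := b - lam b • 1) LinearMap.id _ (fun a u => ?_)
          (hker _ (by simp)))
      exact Finset.le_sup (f := fun u : D => (⊤ : Submodule k B).map
        (LinearMap.mulRight k (δ u - 1))) (Finset.mem_univ u)
        ⟨a, trivial, by simp [mul_sub]⟩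
  exact fun b => key (Submodule.mem_top (x := b))

variable {κ : Type} [Fintype κ] [DecidableEq κ]

omit [IsAlgClosed k] [FiniteDimensional k B] in
/-- Apply `HigI.full` to `β x y = ρ x * f * ρ y`; the sum is central (`SepI`), so scalar. -/
lemma PreI.fixed_matrix (h : PreI k δ Q) (ρ : B →ₐ[k] Matrix κ κ k)
    (hρ : Function.Surjective ρ) {f : Matrix κ κ k}
    (hf : FixedBy (cjI k (ρ.toRingHom.toMonoidHom.comp δ)) ⊤ f) :
    ∃ (c : k) (m : Matrix κ κ k),
      f = c • 1 + rtr (cjI k (ρ.toRingHom.toMonoidHom.comp δ)) Q ⊤ m := by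
  let _ : Fintype (D ⧸ Q) := Fintype.ofFinite _
  obtain ⟨ι, _, x, y, hsep, h1⟩ := h.sep
  obtain ⟨r, t, hH⟩ := h.hig
  obtain ⟨κ', _, X, Y, hfull⟩ := hH.full hsep h1
  have hc : ∀ u, ρ (δ u) * f = f * ρ (δ u) := fun u => fixedBy_cjI_iff.1 hf u trivial
  have hβ : Bal k δ fun a b => ρ a * f * ρ b :=
    ⟨fun a a' b => by rw [map_add, add_mul, add_mul], fun a b b' => by rw [map_add, mul_add],
      fun a b u => by rw [map_mul, map_mul, mul_assoc (ρ a), hc]; simp only [mul_assoc],
      fun c a b => by rw [map_smul, map_smul, smul_mul_assoc, smul_mul_assoc, mul_smul_comm]⟩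
  obtain ⟨c, hc'⟩ : ∑ i, ρ (x i) * f * ρ (y i) ∈ Set.range (Matrix.scalar κ) := by
    refine Matrix.mem_range_scalar_iff_commute_single'.2 fun i j => ?_
    obtain ⟨a, ha⟩ := hρ (Matrix.single i j 1)
    have e := hsep _ _ hβ a
    simp only [map_mul, ha, mul_assoc] at e
    simpa only [Commute, SemiconjBy, Finset.mul_sum, Finset.sum_mul, mul_assoc] using e
  refine ⟨c, -∑ j, ρ (X j) * f * ρ (Y j), ?_⟩
  have e := hfull _ _ hβ
  rw [← hc', map_one, one_mul, mul_one] at e
  rw [map_neg, rtr_top_apply, Matrix.smul_one_eq_diagonal, ← Matrix.scalar_apply, e,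
    add_assoc, left_eq_add, add_neg_eq_zero]
  refine Finset.sum_congr rfl fun q _ => ?_
  rw [map_sum]
  refine Finset.sum_congr rfl fun j _ => ?_
  rw [cjI_apply, map_mul, map_mul]
  simp only [mul_assoc]
  rfl

end Pool.Agent.Lib.MP_b6945b_al.St
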