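import Pool.Agent.Lib.MP_b6945b_al.St.FrMat
import Pool.Agent.Lib.MP_b6945b_al.St.FrSimple
import Pool.Agent.Lib.MP_b6945b_al.St.FrFree

set_option autoImplicit false

/-!
Twisting a local interior algebra by the dual of its simple module.
-/

namespace Pool.Agent.Lib.MP_b6945b_al.St

open IsLocalRing
open MonoidAlgebra (single)

section act

variable {k B Z κ : Type} [CommRing k] [Ring B] [Algebra k B] [CommRing Z] [Algebra k Z]
  [Fintype κ] [DecidableEq κ]

/-- The underlying function of `actM`. -/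
def actF (Θ : B →ₐ[k] Matrix κ κ Z) (x : Matrix κ κ B) (m : Matrix κ κ Z) : Matrix κ κ Z :=
  ∑ a, ∑ b, Θ (x a b) * m * Matrix.single b a 1

lemma frk4_one (Θ : B →ₐ[k] Matrix κ κ Z) (b : B) (m : Matrix κ κ Z) :
    actF Θ (Matrix.scalar κ b) m = Θ b * m := by
  unfold actF
  have h : ∀ a : κ, ∑ c, Θ (Matrix.scalar κ b a c) * m * Matrix.single c a (1 : Z)
      = Θ b * m * Matrix.single a a 1 := by
    intro a
    rw [Finset.sum_eq_single a]
    · simp
    · intro c _ hc
      simp [Matrix.diagonal_apply_ne _ hc.symm]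
    · simp
  rw [Finset.sum_congr rfl fun a _ => h a, ← Finset.mul_sum, Matrix.sum_single_one, mul_one]

lemma frk4_mul (Θ : B →ₐ[k] Matrix κ κ Z) (x y : Matrix κ κ B) (m : Matrix κ κ Z) :
    actF Θ (x * y) m = actF Θ x (actF Θ y m) := by
  unfold actF
  refine Finset.sum_congr rfl fun a _ => ?_
  have h : ∀ c : κ, Θ (x a c) * (∑ a', ∑ b, Θ (y a' b) * m * Matrix.single b a' (1 : Z)) *
      Matrix.single c a 1 = ∑ b, Θ (x a c * y c b) * m * Matrix.single b a 1 := by
    intro c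
    rw [mul_assoc, Finset.sum_mul, Finset.sum_eq_single c]
    · rw [Finset.sum_mul, Finset.mul_sum]
      refine Finset.sum_congr rfl fun b _ => ?_
      rw [map_mul, mul_assoc (Θ (y c b) * m), Matrix.single_mul_single_same, mul_one]
      simp only [mul_assoc]
    · intro a' _ ha
      rw [Finset.sum_mul]
      refine Finset.sum_eq_zero fun b _ => ?_
      rw [mul_assoc, Matrix.single_mul_single_of_ne _ _ _ _ ha, mul_zero]
    · simp
  rw [Finset.sum_congr rfl fun c _ => h c, Finset.sum_comm]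
  refine Finset.sum_congr rfl fun b _ => ?_
  rw [Matrix.mul_apply, map_sum, Finset.sum_mul, Finset.sum_mul]

/-- The action as a bilinear map. -/
def frk4_lin (Θ : B →ₐ[k] Matrix κ κ Z) :
    Matrix κ κ B →ₗ[k] Matrix κ κ Z →ₗ[k] Matrix κ κ Z :=
  LinearMap.mk₂ k (actF Θ)
    (fun x y m => by
      simp only [actF, Matrix.add_apply, map_add, add_mul, Finset.sum_add_distrib])
    (fun r x m => by
      simp only [actF, Matrix.smul_apply, map_smul, smul_mul_assoc, Finset.smul_sum])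
    (fun x m m' => by
      simp only [actF, mul_add, add_mul, Finset.sum_add_distrib])
    (fun r x m => by
      simp only [actF, mul_smul_comm, smul_mul_assoc, Finset.smul_sum])

/-- Matrices over `B` act on matrices over `Z`: `B` acts on the left through `Θ`, and scalar
matrices act on the right through their transposes. -/
lemma exists_actM (Θ : B →ₐ[k] Matrix κ κ Z) :
    ∃ μ : Matrix κ κ B →ₐ[k] Module.End k (Matrix κ κ Z), ∀ x m, μ x m = actF Θ x m := by
  refine ⟨AlgHom.ofLinearMap (frk4_lin Θ) ?_ ?_, fun _ _ => rfl⟩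
  · refine LinearMap.ext fun m => ?_
    have h := frk4_one Θ 1 m
    rw [map_one, map_one, one_mul] at h
    exact h
  · intro x y
    exact LinearMap.ext fun m => frk4_mul Θ x y m

lemma actF_scalar (Θ : B →ₐ[k] Matrix κ κ Z) (b : B) (m : Matrix κ κ Z) :
    actF Θ (Matrix.scalar κ b) m = Θ b * m := by
  exact frk4_one Θ b m

lemma actF_tenI {D : Type} [CommGroup D] (Θ : B →ₐ[k] Matrix κ κ Z) (s : D →* Matrix κ κ k)
    (δ : D →* B) (u : D) (m : Matrix κ κ Z) :
    actF Θ (tenI (dualS s) δ u) m = Θ (δ u) * m * (s u⁻¹).map (algebraMap k Z) := by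
  unfold actF
  rw [Matrix.matrix_eq_sum_single ((s u⁻¹).map (algebraMap k Z)), Finset.sum_comm, Finset.mul_sum]
  refine Finset.sum_congr rfl fun b _ => ?_
  rw [Finset.mul_sum]
  refine Finset.sum_congr rfl fun a _ => ?_
  rw [tenI_apply, dualS_apply, Matrix.transpose_apply, map_smul, smul_mul_assoc, smul_mul_assoc,
    ← mul_smul_comm, Matrix.smul_single, Matrix.map_apply, Algebra.algebraMap_eq_smul_one]

lemma actF_map (Θ : B →ₐ[k] Matrix κ κ Z) (ρ : B →ₐ[k] Matrix κ κ k) (ω : Z →+* k)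
    (h : ∀ b, (Θ b).map ω = ρ b) (x : Matrix κ κ B) (m : Matrix κ κ Z) :
    (actF Θ x m).map ω = actF ρ x (m.map ω) := by
  unfold actF
  change ω.mapMatrix _ = _
  rw [map_sum]
  refine Finset.sum_congr rfl fun a _ => ?_
  rw [map_sum]
  refine Finset.sum_congr rfl fun b _ => ?_
  rw [map_mul, map_mul, RingHom.mapMatrix_apply, RingHom.mapMatrix_apply, RingHom.mapMatrix_apply,
    h, Matrix.map_single _ _ _ ω, map_one]

/-- The maps `m ↦ y * m * single b a 1` span the endomorphisms of the matrix algebra. -/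
lemma actF_surj (ρ : B →ₐ[k] Matrix κ κ k) (hρ : Function.Surjective ρ)
    (θ : Matrix κ κ k →ₗ[k] Matrix κ κ k) : ∃ x, ∀ m, actF ρ x m = θ m := by
  choose σ hσ using hρ
  refine ⟨Matrix.of fun a b => σ (Matrix.of fun i j => θ (Matrix.single j b 1) i a), fun m => ?_⟩
  unfold actF
  simp only [Matrix.of_apply, hσ]
  conv_rhs => rw [Matrix.matrix_eq_sum_single m]
  ext i a
  simp only [map_sum, Matrix.sum_apply]
  rw [Finset.sum_eq_single a, Finset.sum_comm]
  · refine Finset.sum_congr rfl fun b _ => ?_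
    rw [Matrix.mul_single_apply_same, mul_one, Matrix.mul_apply]
    refine Finset.sum_congr rfl fun j _ => ?_
    have h : Matrix.single j b (m j b) = m j b • Matrix.single j b (1 : k) := by
      rw [Matrix.smul_single, smul_eq_mul, mul_one]
    rw [h, map_smul, Matrix.smul_apply, Matrix.of_apply, smul_eq_mul, mul_comm]
  · intro a' _ ha
    refine Finset.sum_eq_zero fun b _ => ?_
    exact Matrix.mul_single_apply_of_ne _ _ _ _ _ ha.symm _
  · simp

end act

variable {k B D κ : Type} [Field k] [IsAlgClosed k] [Ring B] [Algebra k B] [FiniteDimensional k B]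
  [CommGroup D] [Fintype D] [Fintype κ] [DecidableEq κ] {δ : D →* B} {Q : Subgroup D} {p : ℕ}

/-- The restriction of `ρ` to `D`. -/
abbrev resD (ρ : B →ₐ[k] Matrix κ κ k) (δ : D →* B) : D →* Matrix κ κ k :=
  ρ.toRingHom.toMonoidHom.comp δ

omit [IsAlgClosed k] [FiniteDimensional k B] in
/-- `PreI.fixed_matrix`, `triv_of_cent`, `endo_of_fixed`. -/
lemma PreI.endo (hs : Std p k D) (h : PreI k δ Q) (ρ : B →ₐ[k] Matrix κ κ k)
    (hρ : Function.Surjective ρ) (hn : ¬ p ∣ Fintype.card κ) : Endo p Q (resD ρ δ) := by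
  exact endo_of_fixed hs h.ne_top (triv_of_cent hs ρ hρ h.cent) hn
    fun f hf => h.fixed_matrix ρ hρ hf

omit [IsAlgClosed k] in
/-- `PreI.matrix`, `exists_minI`, `PreI.lg`; `1 ∉ trM` by `mem_trM_of_scalar`, `NilI.nil_trM`. -/
lemma NilI.exists_min (hs : Std p k D) (h : NilI k δ Q) {s : D →* Matrix κ κ k}
    (he : Endo p Q s) : ∃ j, MinI k (tenI s δ) 1 j := by
  refine exists_minI hs (one_mul 1) (fun u => by rw [mul_one, one_mul])
    (PreI.lg (PreI.matrix hs h.toPreI he)) fun h1 => ?_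
  rw [← map_one (Matrix.scalar κ : B →+* Matrix κ κ B)] at h1
  obtain ⟨n, hn⟩ := h.nil_trM hs (mem_trM_of_scalar (hs.isUnit_card he.card) h1)
  rw [one_pow] at hn
  exact h.ne hn

omit [IsAlgClosed k] [FiniteDimensional k B] [Fintype D] in
lemma frk4_act_delta (ρ : B →ₐ[k] Matrix κ κ k) (δ : D →* B) (u : D) (m : Matrix κ κ k) :
    actF ρ (tenI (dualS (resD ρ δ)) δ u) m = cjI k (resD ρ δ) u m := by
  rw [actF_tenI, cjI_apply, mul_assoc]
  rfl

omit [IsAlgClosed k] [FiniteDimensional k B] [Fintype D] in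
lemma frk4_equiv (ρ : B →ₐ[k] Matrix κ κ k) (δ : D →* B) :
    EquivOn (cjI k (tenI (dualS (resD ρ δ)) δ))
      ((cjI k (resD ρ δ)).linHom (cjI k (resD ρ δ))) ⊤ (frk4_lin ρ) := by
  intro u _ x
  refine LinearMap.ext fun m => ?_
  change actF ρ (cjI k _ u x) m = cjI k (resD ρ δ) u (actF ρ x (cjI k (resD ρ δ) u⁻¹ m))
  rw [cjI_apply, frk4_mul, frk4_mul, frk4_act_delta, frk4_act_delta]

omit [IsAlgClosed k] [FiniteDimensional k B] [Fintype D] in
lemma frk4_equiv_one (ρ : B →ₐ[k] Matrix κ κ k) (δ : D →* B) :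
    EquivOn (cjI k (tenI (dualS (resD ρ δ)) δ)) (cjI k (resD ρ δ)) ⊤ ((frk4_lin ρ).flip 1) := by
  intro u _ x
  change actF ρ (cjI k _ u x) 1 = cjI k (resD ρ δ) u (actF ρ x 1)
  rw [cjI_apply, frk4_mul, frk4_mul, frk4_act_delta, frk4_act_delta, cjI_apply _ u⁻¹, one_mul,
    delta_mul_inv]

omit [IsAlgClosed k] [FiniteDimensional k B] [Fintype D] in
lemma frk4_equiv_rho (ρ : B →ₐ[k] Matrix κ κ k) (δ : D →* B) :
    EquivOn (cjI k δ) (cjI k (resD ρ δ)) ⊤ ρ.toLinearMap := by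
  intro u _ x
  change ρ (cjI k δ u x) = cjI k (resD ρ δ) u (ρ x)
  rw [cjI_apply, cjI_apply, map_mul, map_mul]
  rfl

omit [IsAlgClosed k] in
/-- `1 - j = rtr m` (`PreI.trM_le`), and `actF ρ (rtr m) 1 = rtr (actF ρ m 1) = ρ (rtr b)` is
nilpotent (`actF_tenI`, `NilI.nt`). -/
lemma NilI.act_one (hs : Std p k D) (h : NilI k δ Q) (ρ : B →ₐ[k] Matrix κ κ k)
    (hρ : Function.Surjective ρ) (hn : ¬ p ∣ Fintype.card κ) {j : Matrix κ κ B}
    (hj : MinI k (tenI (dualS (resD ρ δ)) δ) 1 j) :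
    IsUnit (actF ρ j 1) ∧ FixedBy (cjI k (resD ρ δ)) ⊤ (actF ρ j 1) := by
  have hP := PreI.matrix hs h.toPreI (h.toPreI.endo hs ρ hρ hn).dual
  constructor
  · obtain ⟨m, y, hy, e⟩ := hP.trM_le hs hj.sub
    rw [inMax_field.1 hy, add_zero] at e
    obtain ⟨b, hb⟩ := hρ ((frk4_lin ρ).flip 1 m)
    have h1 := rtr_map (S := Q) (frk4_equiv_one ρ δ) m
    have h2 := rtr_map (S := Q) (frk4_equiv_rho ρ δ) b
    rw [← e, ← hb, map_sub] at h1
    have h3 : (frk4_lin ρ).flip 1 1 = 1 := by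
      have h4 := frk4_one ρ 1 1
      rw [map_one, map_one, one_mul] at h4
      exact h4
    have h4 : actF ρ j 1 = 1 - ρ (rtr (cjI k δ) Q ⊤ b) := by
      rw [h3] at h1
      rw [show ρ (rtr (cjI k δ) Q ⊤ b) = 1 - actF ρ j 1 from h2.trans h1.symm, sub_sub_cancel]
    rw [h4]
    exact ((nilR_field.1 (h.nt b)).map ρ).isUnit_one_sub
  · intro u hu
    have h1 := frk4_equiv_one ρ δ u hu j
    rw [fixedBy_cjI_iff.2 (fun v _ => hj.comm v) u hu] at h1
    exact h1.symm

omit [IsAlgClosed k] in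
/-- Let `θ` come from `PreI.endo`, `θ = μ x` (`actF_surj`), `m₀ = μ j 1`.  The operator
`F = μ (j * rtr x * j)` is nilpotent (`MinI.nt`) and equals `y ↦ μ j y - ntr (μ j y) • m₀`.  On the
image of `μ j` it is the identity modulo `k m₀`, so this image is `k m₀`. -/
lemma NilI.act_range (hs : Std p k D) (h : NilI k δ Q) (ρ : B →ₐ[k] Matrix κ κ k)
    (hρ : Function.Surjective ρ) (hn : ¬ p ∣ Fintype.card κ) {j : Matrix κ κ B}
    (hj : MinI k (tenI (dualS (resD ρ δ)) δ) 1 j) (y : Matrix κ κ k) :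
    ∃ c : k, actF ρ j y = c • actF ρ j 1 := by
  have he := h.toPreI.endo hs ρ hρ hn
  have hP := PreI.matrix hs h.toPreI he.dual
  obtain ⟨θ, hθ⟩ := he.hig
  obtain ⟨x, hx⟩ := actF_surj ρ hρ θ
  have hx' : frk4_lin ρ x = θ := LinearMap.ext hx
  set z := rtr (cjI k (tenI (dualS (resD ρ δ)) δ)) Q ⊤ x with hz
  have hzm : z ∈ trM k (tenI (dualS (resD ρ δ)) δ) ⊤ :=
    Submodule.mem_sup_left (Submodule.subset_span
      ⟨Q, x, lt_top_iff_ne_top.2 h.ne_top, le_top, fixedBy_of_cent hP.cent x, hz⟩)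
  have h1 := rtr_map (S := Q) (frk4_equiv ρ δ) x
  rw [← hz, hx'] at h1
  have h2 : ∀ w, actF ρ z w = w - ntr k κ w • (1 : Matrix κ κ k) := by
    intro w
    have h3 := hθ w
    rw [← h1] at h3
    exact eq_sub_of_add_eq' h3.symm
  have hjj : ∀ w, actF ρ j (actF ρ j w) = actF ρ j w := by
    intro w
    rw [← frk4_mul, hj.idem.eq]
  have h3 : ∀ w, actF ρ (j * z * j) w = actF ρ j w - ntr k κ (actF ρ j w) • actF ρ j 1 := by
    intro w
    rw [frk4_mul, frk4_mul, h2]
    change frk4_lin ρ j _ = _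
    rw [map_sub, map_smul]
    exact congrArg (· - _) (hjj w)
  have h4 : ∀ w, actF ρ j (actF ρ (j * z * j) w) = actF ρ (j * z * j) w := by
    intro w
    rw [← frk4_mul, ← mul_assoc, ← mul_assoc, hj.idem.eq]
  have h5 : ∀ (n : ℕ) w, ∃ c : k,
      actF ρ ((j * z * j) ^ (n + 1)) w = actF ρ j w - c • actF ρ j 1 := by
    intro n
    induction n with
    | zero => exact fun w => ⟨_, by rw [zero_add, pow_one, h3]⟩
    | succ n ih =>
      intro w
      obtain ⟨c, hc⟩ := ih (actF ρ (j * z * j) w)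
      refine ⟨ntr k κ (actF ρ j w) + c, ?_⟩
      rw [pow_succ, frk4_mul, hc, h4, h3, add_smul, sub_sub]
  obtain ⟨n, hn⟩ := nilR_field.1 (hj.nt z hzm)
  obtain ⟨c, hc⟩ := h5 n y
  rw [pow_succ, hn, zero_mul] at hc
  have h6 : actF ρ 0 y = 0 := LinearMap.congr_fun (map_zero (frk4_lin ρ)) y
  rw [h6] at hc
  exact ⟨c, sub_eq_zero.1 hc.symm⟩

/-- The character given by an action on a line. -/
lemma frk4_char {K A V : Type} [Field K] [Ring A] [Algebra K A] [AddCommGroup V] [Module K V]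
    (f : A →ₗ[K] V →ₗ[K] V) (hf : ∀ a b v, f (a * b) v = f a (f b v)) {v : V} (hv : v ≠ 0)
    (h1 : f 1 v = v) (h : ∀ a, ∃ c : K, f a v = c • v) :
    ∃ lam : A →ₐ[K] K, ∀ a, f a v = lam a • v := by
  choose c hc using h
  have hi : ∀ {r r' : K}, r • v = r' • v → r = r' := fun e => smul_left_injective K hv e
  refine ⟨AlgHom.ofLinearMap
    { toFun := c
      map_add' := fun a b => hi ?_
      map_smul' := fun r a => hi ?_ } (hi ?_) (fun a b => hi ?_), hc⟩
  · rw [add_smul, ← hc, ← hc, ← hc, map_add, LinearMap.add_apply]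
  · rw [RingHom.id_apply, smul_eq_mul, mul_smul, ← hc, ← hc, map_smul, LinearMap.smul_apply]
  · change c 1 • v = _
    rw [← hc, h1, one_smul]
  · change c (a * b) • v = (c a * c b) • v
    rw [← hc, hf, hc b, map_smul, hc a, mul_comm, mul_smul]

lemma frk4_corner {A V : Type} [Ring A] [Algebra k A] [FiniteDimensional k A] [AddCommGroup V]
    [Module k V] {Δ : D →* A} (hs : Std p k D) (hP : PreI k Δ Q) {j : A} (hj : MinI k Δ 1 j)
    (f : A →ₗ[k] V →ₗ[k] V) (hf : ∀ a b v, f (a * b) v = f a (f b v)) {v : V} (hv : v ≠ 0)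
    (h1 : f j v = v) (h : ∀ w, ∃ c : k, f j w = c • v) (hd : ∀ u, f (Δ u) v = v) (x : A) :
    ∃ c, j * x * j = hatI k Δ c * j := by
  obtain ⟨lam, hl⟩ := frk4_char (f ∘ₗ cval k hj.idem) (fun a b w => hf a.1 b.1 w) hv h1
    (fun a => by
      change ∃ c : k, f a.1 v = c • v
      rw [← corner_left hj.idem a, hf]
      exact h _)
  have hl1 : ∀ u, lam (hj.cor u) = 1 := by
    intro u
    refine smul_left_injective k hv ?_
    change lam (hj.cor u) • v = (1 : k) • v
    rw [← hl, one_smul]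
    change f (Δ u * j) v = v
    rw [hf, h1, hd]
  obtain ⟨c, hc⟩ := (hP.nilI_corner hs hj).hat_surjective hs lam hl1 (cmk hj.idem x)
  exact ⟨c, (congrArg Subtype.val hc).symm.trans (hatI_cornerI hj.idem hj.comm c)⟩

/-- The corner of `j` acts on the line `k m₀` through a character that is trivial on `D`;
`PreI.nilI_corner`, `NilI.hat_surjective`, `hatI_cornerI`. -/
theorem NilI.corner_eq_hat (hs : Std p k D) (h : NilI k δ Q) (ρ : B →ₐ[k] Matrix κ κ k)
    (hρ : Function.Surjective ρ) (hn : ¬ p ∣ Fintype.card κ) {j : Matrix κ κ B}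
    (hj : MinI k (tenI (dualS (resD ρ δ)) δ) 1 j) (x : Matrix κ κ B) :
    ∃ c, j * x * j = hatI k (tenI (dualS (resD ρ δ)) δ) c * j := by
  have hP := PreI.matrix hs h.toPreI (h.toPreI.endo hs ρ hρ hn).dual
  obtain ⟨hu, hfix⟩ := h.act_one hs ρ hρ hn hj
  have : Nonempty κ := Fintype.card_pos_iff.1 (Nat.pos_of_ne_zero fun e => hn (e ▸ dvd_zero p))
  refine frk4_corner hs hP hj (frk4_lin ρ) (frk4_mul ρ) hu.ne_zero ?_
    (h.act_range hs ρ hρ hn hj) (fun u => ?_) x
  · change actF ρ j (actF ρ j 1) = _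
    rw [← frk4_mul, hj.idem.eq]
  · exact (frk4_act_delta ρ δ u _).trans (hfix u trivial)

end Pool.Agent.Lib.MP_b6945b_al.St
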