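import Pool.Agent.Lib.MP_b6945b_al.St.FrK4

set_option autoImplicit false

/-!
The centre of a local interior algebra over a field.
-/

namespace Pool.Agent.Lib.MP_b6945b_al.St

open IsLocalRing
open MonoidAlgebra (single)

section aux

variable {A : Type} [Ring A]

lemma frk5_central_zero {ι : Type} [Fintype ι] {X Y : ι → A} {j W : A}
    (h1 : ∑ i, X i * j * Y i = 1) (hW : ∀ a, W * a = a * W) (h0 : W * j = 0) : W = 0 := by
  calc W = W * ∑ i, X i * j * Y i := by rw [h1, mul_one]
    _ = ∑ i, X i * (W * j) * Y i := by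
        rw [Finset.mul_sum]
        refine Finset.sum_congr rfl fun i _ => ?_
        rw [← mul_assoc, ← mul_assoc, hW (X i), mul_assoc (X i)]
    _ = 0 := by simp [h0]

lemma frk5_scalar_comm {κ : Type} [Fintype κ] [DecidableEq κ] {ζ : A}
    (hζ : ∀ a, a * ζ = ζ * a) (M : Matrix κ κ A) :
    Matrix.scalar κ ζ * M = M * Matrix.scalar κ ζ :=
  (Matrix.scalar_commute ζ (fun r => (hζ r).symm) M).eq

lemma frk5_central_scalar {κ : Type} [Fintype κ] [DecidableEq κ] {W : Matrix κ κ A}
    (hW : ∀ b, b * W = W * b) : ∃ ζ : A, (∀ a, a * ζ = ζ * a) ∧ Matrix.scalar κ ζ = W := by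
  have h : W ∈ Set.center (Matrix κ κ A) := Semigroup.mem_center_iff.2 hW
  rw [Matrix.center_eq_scalar_image] at h
  obtain ⟨ζ, hζ, rfl⟩ := h
  exact ⟨ζ, Semigroup.mem_center_iff.1 hζ, rfl⟩

lemma frk5_nonempty {κ : Type} [Fintype κ] {p : ℕ} (hn : ¬ p ∣ Fintype.card κ) : Nonempty κ := by
  rw [← Fintype.card_pos_iff]
  refine Nat.pos_of_ne_zero fun h => hn ?_
  rw [h]
  exact dvd_zero p

end aux

variable {k B D κ : Type} [Field k] [IsAlgClosed k] [Ring B] [Algebra k B] [FiniteDimensional k B]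
  [CommGroup D] [Fintype D] [Fintype κ] [DecidableEq κ] {δ : D →* B} {Q : Subgroup D} {p : ℕ}

omit [IsAlgClosed k] in
/-- `z₀ = ∑ X i * j * Y i` is central in the matrix algebra, so it is a scalar matrix of a central
element of `B`, which is `c + nilpotent` (`NilI.loc`); `z₀ = j + rtr m` (`HigI.central`), so
`z₀ j` is not nilpotent (`MinI.nt`, `MinI.ne`) and `c ≠ 0`.  Divide `X` by `z₀`. -/
lemma NilI.full_idem (hs : Std p k D) (h : NilI k δ Q) {s : D →* Matrix κ κ k} (he : Endo p Q s)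
    {j : Matrix κ κ B} (hj : MinI k (tenI s δ) 1 j) :
    ∃ (ι : Type) (_ : Fintype ι) (X Y : ι → Matrix κ κ B), SepI k (tenI s δ) X Y ∧
      ∑ i, X i * j * Y i = 1 := by
  have hP : PreI k (tenI s δ) Q := h.toPreI.matrix hs he
  obtain ⟨ι, hι, X, Y, hXY, h1⟩ := hP.sep
  obtain ⟨r, t, hr⟩ := hP.hig
  have hjf : FixedBy (cjI k (tenI s δ)) ⊤ j := fixedBy_cjI_iff.2 fun u _ => hj.comm u
  have hcen := hXY.central hjf
  obtain ⟨ζ, hζ, hζe⟩ := frk5_central_scalar hcen
  obtain ⟨m, hm⟩ := hr.central hXY h1 hjf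
  obtain ⟨c, hc⟩ := h.loc hs (z := ζ) (fixedBy_cjI_iff.2 fun u _ => hζ (δ u))
  rw [nilR_field] at hc
  have hc0 : c ≠ 0 := by
    rintro rfl
    rw [zero_smul, sub_zero] at hc
    have hn1 : IsNilpotent (Matrix.scalar κ ζ) := hc.map (Matrix.scalar κ)
    have hw : rtr (cjI k (tenI s δ)) Q ⊤ m ∈ trM k (tenI s δ) ⊤ :=
      rtr_mem_brK (lt_top_iff_ne_top.2 hP.ne_top) (fixedBy_of_cent hP.cent m)
    have hn2 := nilR_field.1 (hj.nt _ hw)
    set w := rtr (cjI k (tenI s δ)) Q ⊤ m with hwdef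
    have hjj : j * j = j := hj.idem.eq
    have hn3 : IsNilpotent (Matrix.scalar κ ζ * j) :=
      Commute.isNilpotent_mul_right (frk5_scalar_comm hζ j) hn1
    have hcm : Commute (Matrix.scalar κ ζ * j) (j * w * j) := by
      change Matrix.scalar κ ζ * j * (j * w * j) = j * w * j * (Matrix.scalar κ ζ * j)
      rw [mul_assoc, ← mul_assoc j, ← mul_assoc j, hjj, frk5_scalar_comm hζ j,
        ← mul_assoc (j * w * j), mul_assoc (j * w) j j, hjj, frk5_scalar_comm hζ]
    have hje : j = Matrix.scalar κ ζ * j - j * w * j := by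
      have : Matrix.scalar κ ζ * j = j * Matrix.scalar κ ζ * j := by
        rw [← frk5_scalar_comm hζ j, mul_assoc, hjj]
      rw [this, hζe, hm, mul_add, add_mul, hjj, hjj, add_sub_cancel_right]
    have hn4 : IsNilpotent j := by
      rw [hje]
      exact hcm.isNilpotent_sub hn3 hn2
    exact hj.ne (inMax_field.2 (hj.idem.eq_zero_of_isNilpotent hn4))
  have hu : IsUnit ζ := by
    have h2 : IsUnit (c • (1 : B)) := by
      rw [← Algebra.algebraMap_eq_smul_one]
      exact (IsUnit.mk0 c hc0).map _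
    have h3 := hc.isUnit_add_right_of_commute h2 (by
      change (ζ - c • 1) * (c • 1) = (c • 1) * (ζ - c • 1)
      rw [mul_smul_comm, smul_mul_assoc, mul_one, one_mul])
    rwa [sub_add_cancel] at h3
  obtain ⟨v, hv⟩ := hu
  have hvc : ∀ a : B, a * (v⁻¹ : Bˣ) = (v⁻¹ : Bˣ) * a := by
    intro a
    rw [Units.mul_inv_eq_iff_eq_mul, mul_assoc, hv, hζ a, ← hv, ← mul_assoc, Units.inv_mul,
      one_mul]
  refine ⟨ι, hι, fun i => Matrix.scalar κ ((v⁻¹ : Bˣ) : B) * X i, Y,
    hXY.mul_central (frk5_scalar_comm hvc), ?_⟩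
  calc ∑ i, Matrix.scalar κ ((v⁻¹ : Bˣ) : B) * X i * j * Y i
      = Matrix.scalar κ ((v⁻¹ : Bˣ) : B) * ∑ i, X i * j * Y i := by
        rw [Finset.mul_sum]
        refine Finset.sum_congr rfl fun i _ => ?_
        simp only [mul_assoc]
    _ = 1 := by rw [← hζe, ← map_mul, ← hv, Units.inv_mul, map_one]

omit [IsAlgClosed k] in
/-- `∑ X i * (Δ u * j) * Y i` is central, so it is the scalar matrix of a central `z u`; the corner
of `j` is commutative, so `z u * j = Δ u * j`.  Since `j` is full, a central element is determined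
by its product with `j`, so `z` is multiplicative. -/
lemma NilI.exists_z (hs : Std p k D) (h : NilI k δ Q) {s : D →* Matrix κ κ k} (he : Endo p Q s)
    {j : Matrix κ κ B} (hj : MinI k (tenI s δ) 1 j)
    (hc : ∀ x, ∃ c, j * x * j = hatI k (tenI s δ) c * j) :
    ∃ z : D →* Subalgebra.center k B, ∀ u, Matrix.scalar κ (z u : B) * j = tenI s δ u * j := by
  haveI := frk5_nonempty he.card
  obtain ⟨ι, hι, X, Y, hXY, h1⟩ := h.full_idem hs he hj
  have hjj : j * j = j := hj.idem.eq
  have key : ∀ u, ∃ ζ : B, (∀ a, a * ζ = ζ * a) ∧ Matrix.scalar κ ζ * j = tenI s δ u * j := by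
    intro u
    have hf : FixedBy (cjI k (tenI s δ)) ⊤ (tenI s δ u * j) := fixedBy_cjI_iff.2 fun v _ => by
      rw [← mul_assoc, delta_comm, mul_assoc, hj.comm v, mul_assoc]
    obtain ⟨ζ, hζ, hζe⟩ := frk5_central_scalar (hXY.central hf)
    refine ⟨ζ, hζ, ?_⟩
    have h2 : Matrix.scalar κ ζ * j = j * Matrix.scalar κ ζ * j := by
      rw [← frk5_scalar_comm hζ j, mul_assoc, hjj]
    have h3 : ∀ i, j * (X i * (tenI s δ u * j) * Y i) * j =
        tenI s δ u * (j * (X i * j * Y i) * j) := by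
      intro i
      obtain ⟨c, hc⟩ := hc (X i)
      have h4 : j * X i * j * tenI s δ u = tenI s δ u * (j * X i * j) := by
        rw [hc, mul_assoc, ← hj.comm u, ← mul_assoc, ← mul_assoc,
          hatI_comm (fun v => delta_comm (tenI s δ) v u) c]
      calc j * (X i * (tenI s δ u * j) * Y i) * j
          = j * X i * j * tenI s δ u * (Y i * j) := by
            rw [hj.comm u]
            simp only [mul_assoc]
        _ = tenI s δ u * (j * (X i * j * Y i) * j) := by
            rw [h4]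
            simp only [mul_assoc]
    rw [h2, hζe, Finset.mul_sum, Finset.sum_mul, Finset.sum_congr rfl fun i _ => h3 i,
      ← Finset.mul_sum, ← Finset.sum_mul, ← Finset.mul_sum, h1, mul_one, hjj]
  choose ζ hζ hζj using key
  have ext : ∀ a b : B, (∀ x, x * a = a * x) → (∀ x, x * b = b * x) →
      Matrix.scalar κ a * j = Matrix.scalar κ b * j → a = b := by
    intro a b ha hb hab
    have h0 : Matrix.scalar κ a - Matrix.scalar κ b = 0 := by
      refine frk5_central_zero h1 (fun M => ?_) ?_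
      · rw [sub_mul, mul_sub, frk5_scalar_comm ha, frk5_scalar_comm hb]
      · rw [sub_mul, hab, sub_self]
    exact Matrix.scalar_inj.1 (sub_eq_zero.1 h0)
  refine ⟨⟨⟨fun u => ⟨ζ u, Subalgebra.mem_center_iff.2 (hζ u)⟩, ?_⟩, ?_⟩, hζj⟩
  · refine Subtype.ext (ext (ζ 1) 1 (hζ 1) (fun x => by rw [mul_one, one_mul]) ?_)
    rw [hζj, map_one, map_one]
  · intro u v
    refine Subtype.ext (ext (ζ (u * v)) (ζ u * ζ v) (hζ _) (fun x => ?_) ?_)
    · rw [← mul_assoc, hζ u x, mul_assoc, hζ v x, mul_assoc]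
    · rw [hζj, map_mul (Matrix.scalar κ), mul_assoc, hζj, ← mul_assoc,
        frk5_scalar_comm (hζ u), mul_assoc, hζj, ← mul_assoc, ← map_mul, mul_comm v u]

/-- With `j`, `z` as above and `m₀ = actF ρ j 1`:
(a) `ρ (z u) * m₀ = actF ρ (z u * j) 1 = actF ρ (Δ u) m₀ = m₀`;
(b) `hat z c * j = hat Δ c * j`, and `NilI.hat_injective` for the corner of `j`;
(c) `scalar x = ∑ X i * (j * Y i * scalar x * X i' * j) * Y i'`, the middle factor is `hat Δ c * j`
and acts as zero, so `aug c • m₀ = 0` and `hat Δ c * j = ∑ c u • (z u - 1) * j`; take a diagonal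
entry;
(d) let `ω ζ = ρ ζ a₀ a₀`, a ring homomorphism on the centre, `M₀ = actF Θ j 1`; `M₀.map ω = m₀`
(`actF_map`), so `det M₀` is a unit (`NilI.loc`), and
`Θ (δ u) * M₀ * (ρ (δ u⁻¹)).map _ = z u • M₀`; take determinants (`Std.det_eq_one`). -/
theorem NilI.centre (hs : Std p k D) (h : NilI k δ Q) (ρ : B →ₐ[k] Matrix κ κ k)
    (hρ : Function.Surjective ρ) (hn : ¬ p ∣ Fintype.card κ) :
    ∃ z : D →* Subalgebra.center k B, (∀ u, ρ (z u) = 1) ∧ Function.Injective (hatI k z) ∧
      (∀ x, ρ x = 0 → ∃ y : D → B, x = ∑ u, ((z u : B) - 1) * y u) ∧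
      ∀ Θ : B →ₐ[k] Matrix κ κ (Subalgebra.center k B),
        (∀ ζ : Subalgebra.center k B, Θ ζ = Matrix.scalar κ ζ) →
        (∀ x a b, ρ (Θ x a b) = ρ x a b • 1) → ∀ u, (Θ (δ u)).det = z u ^ Fintype.card κ := by
  haveI hne := frk5_nonempty hn
  obtain ⟨a₀⟩ := hne
  haveI : Nonempty κ := ⟨a₀⟩
  have he : Endo p Q (dualS (resD ρ δ)) := (h.toPreI.endo hs ρ hρ hn).dual
  obtain ⟨j, hj⟩ := h.exists_min hs he
  have hc := h.corner_eq_hat hs ρ hρ hn hj
  obtain ⟨z, hz⟩ := h.exists_z hs he hj hc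
  obtain ⟨hm0, hmf⟩ := h.act_one hs ρ hρ hn hj
  obtain ⟨μ, hμ⟩ := exists_actM ρ
  have hP : PreI k (tenI (dualS (resD ρ δ)) δ) Q := h.toPreI.matrix hs he
  have hzc : ∀ (ζ : Subalgebra.center k B) (a : B), a * (ζ : B) = (ζ : B) * a :=
    fun ζ => Subalgebra.mem_center_iff.1 ζ.2
  have hΔ : ∀ u, μ (tenI (dualS (resD ρ δ)) δ u * j) 1 = actF ρ j 1 := by
    intro u
    rw [map_mul, Module.End.mul_apply, hμ, hμ, actF_tenI]
    have h1 := hmf u (Subgroup.mem_top u)
    rw [cjI_apply, ← mul_assoc] at h1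
    have h2 : (resD ρ δ u⁻¹).map (algebraMap k k) = resD ρ δ u⁻¹ := by
      ext a b
      rfl
    rw [h2]
    exact h1
  have hhat : ∀ c, Matrix.scalar κ ((hatI k z c : Subalgebra.center k B) : B) * j =
      hatI k (tenI (dualS (resD ρ δ)) δ) c * j := by
    intro c
    rw [hatI_apply, hatI_apply, AddSubmonoidClass.coe_finset_sum, map_sum, Finset.sum_mul,
      Finset.sum_mul]
    refine Finset.sum_congr rfl fun u _ => ?_
    rw [smul_mul_assoc, ← hz u, ← smul_mul_assoc, Subalgebra.coe_smul, ← scalA_apply (R := k),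
      ← scalA_apply (R := k), map_smul]
  refine ⟨z, fun u => ?_, ?_, ?_, ?_⟩
  · have h1 := hΔ u
    rw [← hz u, map_mul, Module.End.mul_apply, hμ, hμ, actF_scalar] at h1
    exact hm0.mul_right_cancel (h1.trans (one_mul _).symm)
  · intro c c' hcc
    refine (hP.nilI_corner hs hj).hat_injective hs (Subtype.ext ?_)
    refine (hatI_cornerI hj.idem hj.comm c).trans
      (Eq.trans ?_ (hatI_cornerI hj.idem hj.comm c').symm)
    rw [← hhat, ← hhat, hcc]
  · intro x hx
    obtain ⟨ι, hι, X, Y, hXY, h1⟩ := h.full_idem hs he hj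
    have hμx : μ (Matrix.scalar κ x) = 0 := by
      refine LinearMap.ext fun m => ?_
      rw [hμ, actF_scalar, hx, zero_mul, LinearMap.zero_apply]
    have mid : ∀ i i', ∃ c : D → k, j * (Y i * Matrix.scalar κ x * X i') * j =
        ∑ u, Matrix.scalar κ ((z u : B) - 1) * (c u • j) := by
      intro i i'
      obtain ⟨c, hc'⟩ := hc (Y i * Matrix.scalar κ x * X i')
      have h2 : μ (hatI k (tenI (dualS (resD ρ δ)) δ) c * j) 1 = 0 := by
        rw [← hc']
        simp only [map_mul, hμx, mul_zero, zero_mul, LinearMap.zero_apply]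
      rw [hatI_apply, Finset.sum_mul, map_sum, LinearMap.sum_apply] at h2
      simp only [smul_mul_assoc, map_smul, LinearMap.smul_apply, hΔ] at h2
      rw [← Finset.sum_smul] at h2
      have h3 : ∑ u, c.coeff u = 0 := by
        rcases smul_eq_zero.1 h2 with h4 | h4
        · exact h4
        · exact absurd h4 hm0.ne_zero
      refine ⟨fun u => c.coeff u, ?_⟩
      rw [hc', hatI_apply, Finset.sum_mul]
      have h5 : ∀ u, Matrix.scalar κ ((z u : B) - 1) * (c.coeff u • j) =
          (c.coeff u • tenI (dualS (resD ρ δ)) δ u) * j - c.coeff u • j := by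
        intro u
        rw [map_sub, map_one, mul_smul_comm, sub_mul, hz u, one_mul, smul_sub, smul_mul_assoc]
      rw [Finset.sum_congr rfl fun u _ => h5 u, Finset.sum_sub_distrib, ← Finset.sum_smul, h3,
        zero_smul, sub_zero]
    choose c hcm using mid
    have hcz : ∀ u (a : B), a * ((z u : B) - 1) = ((z u : B) - 1) * a := by
      intro u a
      rw [mul_sub, sub_mul, hzc, mul_one, one_mul]
    have h6 : Matrix.scalar κ x = ∑ u, Matrix.scalar κ ((z u : B) - 1) *
        ∑ i, ∑ i', X i * (c i i' u • j) * Y i' := by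
      calc Matrix.scalar κ x
          = (∑ i, X i * j * Y i) * Matrix.scalar κ x * ∑ i', X i' * j * Y i' := by
            rw [h1, one_mul, mul_one]
        _ = ∑ i, ∑ i', X i * (j * (Y i * Matrix.scalar κ x * X i') * j) * Y i' := by
            rw [Finset.sum_mul, Finset.sum_mul]
            refine Finset.sum_congr rfl fun i _ => ?_
            rw [Finset.mul_sum]
            refine Finset.sum_congr rfl fun i' _ => ?_
            simp only [mul_assoc]
        _ = ∑ i, ∑ i', ∑ u, Matrix.scalar κ ((z u : B) - 1) * (X i * (c i i' u • j) * Y i') := by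
            refine Finset.sum_congr rfl fun i _ => Finset.sum_congr rfl fun i' _ => ?_
            rw [hcm, Finset.mul_sum, Finset.sum_mul]
            refine Finset.sum_congr rfl fun u _ => ?_
            rw [← mul_assoc (X i), ← frk5_scalar_comm (hcz u) (X i)]
            simp only [mul_assoc]
        _ = _ := by
            simp only [Finset.mul_sum]
            rw [Finset.sum_congr rfl fun i _ => Finset.sum_comm, Finset.sum_comm]
    refine ⟨fun u => (∑ i, ∑ i', X i * (c i i' u • j) * Y i') a₀ a₀, ?_⟩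
    have h7 := congrFun (congrFun h6 a₀) a₀
    rw [Matrix.sum_apply] at h7
    simp only [Matrix.scalar_apply, Matrix.diagonal_mul, Matrix.diagonal_apply_eq] at h7
    exact h7
  · intro Θ hΘ1 hΘ2 u
    have hρc : ∀ ζ : Subalgebra.center k B, ρ ζ = ρ ζ a₀ a₀ • 1 := by
      intro ζ
      have h1 := hΘ2 ζ a₀ a₀
      rw [hΘ1, Matrix.scalar_apply, Matrix.diagonal_apply_eq] at h1
      exact h1
    let ω : Subalgebra.center k B →+* k :=
      { toFun := fun ζ => ρ ζ a₀ a₀
        map_one' := by simp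
        map_mul' := fun ζ ζ' => by
          rw [Subalgebra.coe_mul, map_mul]
          conv_lhs => rw [hρc ζ]
          rw [smul_mul_assoc, one_mul, Matrix.smul_apply, smul_eq_mul]
        map_zero' := by simp
        map_add' := fun ζ ζ' => by simp }
    have hω : ∀ ζ, ω ζ = ρ ζ a₀ a₀ := fun _ => rfl
    have hmap : ∀ b, (Θ b).map ω = ρ b := by
      intro b
      ext a a'
      rw [Matrix.map_apply, hω, hΘ2, Matrix.smul_apply, Matrix.one_apply_eq, smul_eq_mul, mul_one]
    have hM : (actF Θ j 1).map ω = actF ρ j 1 := by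
      rw [actF_map Θ ρ ω hmap, Matrix.map_one _ (map_zero ω) (map_one ω)]
    have hdet : ω (actF Θ j 1).det ≠ 0 := by
      rw [RingHom.map_det, RingHom.mapMatrix_apply, hM]
      exact ((Matrix.isUnit_iff_isUnit_det _).1 hm0).ne_zero
    have hunit : ∀ ζ : Subalgebra.center k B, ω ζ ≠ 0 → IsUnit (ζ : B) := by
      intro ζ hζ
      obtain ⟨c, hc1⟩ := h.loc hs (z := (ζ : B)) (fixedBy_cjI_iff.2 fun v _ => hzc ζ (δ v))
      rw [nilR_field] at hc1
      have h2 : IsNilpotent (ρ ((ζ : B) - c • 1)) := hc1.map ρ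
      rw [map_sub, map_smul, map_one, hρc ζ, ← sub_smul, ← hω,
        ← Algebra.algebraMap_eq_smul_one] at h2
      have h3 : ω ζ - c = 0 := by
        by_contra h4
        exact ((IsUnit.mk0 _ h4).map (algebraMap k (Matrix κ κ k))).not_isNilpotent h2
      have hc0 : c ≠ 0 := by
        rw [← sub_eq_zero.1 h3]
        exact hζ
      have h5 : IsUnit (c • (1 : B)) := by
        rw [← Algebra.algebraMap_eq_smul_one]
        exact (IsUnit.mk0 c hc0).map _
      have h6 := hc1.isUnit_add_right_of_commute h5 (by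
        change ((ζ : B) - c • 1) * (c • 1) = (c • 1) * ((ζ : B) - c • 1)
        rw [mul_smul_comm, smul_mul_assoc, mul_one, one_mul])
      rwa [sub_add_cancel] at h6
    obtain ⟨ν, hν⟩ := exists_actM Θ
    have h1 : Θ (δ u) * actF Θ j 1 * (resD ρ δ u⁻¹).map (algebraMap k (Subalgebra.center k B)) =
        Matrix.scalar κ (z u) * actF Θ j 1 := by
      rw [← actF_tenI, ← hΘ1, ← actF_scalar, ← hν, ← hν, ← hν, ← Module.End.mul_apply,
        ← Module.End.mul_apply, ← map_mul, ← map_mul, hz u]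
    have h2 := congrArg Matrix.det h1
    have h3 : ((resD ρ δ u⁻¹).map (algebraMap k (Subalgebra.center k B))).det = 1 := by
      rw [← RingHom.mapMatrix_apply, ← RingHom.map_det, hs.det_eq_one, map_one]
    rw [Matrix.det_mul, Matrix.det_mul, Matrix.det_mul, h3, mul_one, Matrix.scalar_apply,
      Matrix.det_diagonal, Finset.prod_const, Finset.card_univ] at h2
    have h4 := congrArg (fun ζ : Subalgebra.center k B => (ζ : B)) h2
    simp only [Subalgebra.coe_mul] at h4
    exact Subtype.ext ((hunit _ hdet).mul_right_cancel h4)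

end Pool.Agent.Lib.MP_b6945b_al.St
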