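import Pool.Agent.Lib.MP_b6945b_al.St.FrI1

set_option autoImplicit false

/-!
Matrices over interior algebras, and corners.
-/

namespace Pool.Agent.Lib.MP_b6945b_al.St

open IsLocalRing
open MonoidAlgebra (single)

section ring

variable {R D A κ : Type} [CommRing R] [CommGroup D] [Ring A] [Algebra R A] [Fintype κ]
  [DecidableEq κ] {s : D →* Matrix κ κ R} {δ : D →* A} {Q : Subgroup D} {p : ℕ}

variable (R κ A) in
/-- The normalised trace with values in `A`. -/
noncomputable def ptr : Matrix κ κ A →ₗ[R] A :=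
  Ring.inverse (Fintype.card κ : R) • Matrix.traceLinearMap κ R A

omit [DecidableEq κ] in
lemma ptr_apply (m : Matrix κ κ A) :
    ptr R A κ m = Ring.inverse (Fintype.card κ : R) • m.trace := rfl

lemma ptr_scalar (hn : IsUnit (Fintype.card κ : R)) (a : A) :
    ptr R A κ (Matrix.scalar κ a) = a := by
  rw [ptr_apply, Matrix.scalar_apply, Matrix.trace_diagonal, Finset.sum_const, Finset.card_univ,
    ← Nat.cast_smul_eq_nsmul R, smul_smul, Ring.inverse_mul_cancel _ hn, one_smul]

lemma tenI_eq (u : D) :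
    tenI s δ u = (s u).map (algebraMap R A) * Matrix.scalar κ (δ u) ∧
      tenI s δ u = Matrix.scalar κ (δ u) * (s u).map (algebraMap R A) := by
  constructor
  · ext a b
    rw [Matrix.scalar_apply, Matrix.mul_diagonal, tenI_apply, Matrix.map_apply, Algebra.smul_def]
  · ext a b
    rw [Matrix.scalar_apply, Matrix.diagonal_mul, tenI_apply, Matrix.map_apply, Algebra.smul_def,
      Algebra.commutes]
variable (A) in
/-- Matrices over `R` as matrices over `A`. -/
noncomputable def frmatM : Matrix κ κ R →ₐ[R] Matrix κ κ A := (Algebra.ofId R A).mapMatrix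

lemma frmatM_apply (m : Matrix κ κ R) (a b : κ) : frmatM A m a b = algebraMap R A (m a b) := rfl

lemma frmat_ten (u : D) : tenI s δ u = frmatM A (s u) * Matrix.scalar κ (δ u) := (tenI_eq u).1

lemma frmat_ten' (u : D) : tenI s δ u = Matrix.scalar κ (δ u) * frmatM A (s u) := (tenI_eq u).2

lemma frmat_comm (m : Matrix κ κ R) (a : A) :
    frmatM A m * Matrix.scalar κ a = Matrix.scalar κ a * frmatM A m := by
  ext i j
  rw [Matrix.scalar_apply, Matrix.mul_diagonal, Matrix.diagonal_mul, frmatM_apply, Algebra.commutes]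

lemma frmat_inv_mul (u : D) : frmatM A (s u⁻¹) * frmatM A (s u) = 1 := by
  rw [← map_mul, delta_inv_mul, map_one]

lemma frmat_mul_inv (u : D) : frmatM A (s u) * frmatM A (s u⁻¹) = 1 := by
  rw [← map_mul, delta_mul_inv, map_one]

lemma frmat_trace_comm (m : Matrix κ κ R) (x : Matrix κ κ A) :
    (frmatM A m * x).trace = (x * frmatM A m).trace := by
  simp only [Matrix.trace, Matrix.diag_apply, Matrix.mul_apply, frmatM_apply]
  rw [Finset.sum_comm]
  simp only [Algebra.commutes]

lemma frmat_trace_scalar (a b : A) (x : Matrix κ κ A) :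
    (Matrix.scalar κ a * (x * Matrix.scalar κ b)).trace = a * (x.trace * b) := by
  simp only [Matrix.trace, Matrix.diag_apply, Matrix.scalar_apply, Matrix.diagonal_mul,
    Matrix.mul_diagonal, Finset.mul_sum, Finset.sum_mul]


lemma ptr_equiv : EquivOn (cjI R (tenI s δ)) (cjI R δ) ⊤ (ptr R A κ) := by
  intro g _ m
  have e : tenI s δ g * (m * tenI s δ g⁻¹) = Matrix.scalar κ (δ g) *
      (frmatM A (s g) * (m * frmatM A (s g⁻¹)) * Matrix.scalar κ (δ g⁻¹)) := by
    rw [frmat_ten' g, frmat_ten g⁻¹]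
    simp only [mul_assoc]
  rw [cjI_apply, cjI_apply, ptr_apply, ptr_apply, e, frmat_trace_scalar, frmat_trace_comm,
    mul_assoc, frmat_inv_mul, mul_one, smul_mul_assoc, mul_smul_comm]

variable (R κ A) in
/-- Scalar matrices. -/
noncomputable def scalA : A →ₐ[R] Matrix κ κ A := Matrix.scalarAlgHom κ R

lemma scalA_apply (a : A) : scalA R A κ a = Matrix.scalar κ a := rfl

lemma scalA_equiv : EquivOn (cjI R δ) (cjI R (tenI s δ)) ⊤ (scalA R A κ).toLinearMap := by
  intro g _ a
  change Matrix.scalar κ (δ g * (a * δ g⁻¹)) = tenI s δ g * (Matrix.scalar κ a * tenI s δ g⁻¹)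
  rw [frmat_ten' g, frmat_ten g⁻¹, map_mul, map_mul, mul_assoc, ← mul_assoc (Matrix.scalar κ a),
    ← frmat_comm, mul_assoc, ← mul_assoc (frmatM A (s g)), frmat_mul_inv, one_mul]

lemma dualS_dualS (s : D →* Matrix κ κ R) : dualS (dualS s) = s := by
  ext u a b
  simp only [dualS_apply, inv_inv, Matrix.transpose_transpose]
lemma frmat_bal {N : Type} [AddCommGroup N] {β : A → A → N} (h : Bal R δ β) :
    ∃ B : A →+ A →+ N, ∀ x y, β x y = B x y :=
  ⟨AddMonoidHom.mk' (fun x => AddMonoidHom.mk' (β x) (h.add_right x))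
    (fun x x' => AddMonoidHom.ext fun y => h.add_left x x' y), fun _ _ => rfl⟩

lemma frmat_single_mul (c b : κ) (x : A) (m : Matrix κ κ R) :
    Matrix.single c b x * frmatM A m = ∑ e, m b e • Matrix.single c e x := by
  ext i j
  rw [Matrix.sum_apply]
  by_cases h : c = i
  · subst h
    rw [Matrix.single_mul_apply_same, frmatM_apply, Finset.sum_eq_single j]
    · rw [Matrix.smul_apply, Matrix.single_apply_same, Algebra.smul_def, Algebra.commutes]
    · intro e _ he
      rw [Matrix.smul_apply, Matrix.single_apply_of_col_ne _ _ he, smul_zero]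
    · intro h
      exact absurd (Finset.mem_univ _) h
  · rw [Matrix.single_mul_apply_of_ne _ _ _ _ _ (Ne.symm h)]
    refine (Finset.sum_eq_zero fun e _ => ?_).symm
    rw [Matrix.smul_apply, Matrix.single_apply_of_row_ne h, smul_zero]

lemma frmat_mul_single (e d : κ) (y : A) (m : Matrix κ κ R) :
    frmatM A m * Matrix.single e d y = ∑ b, m b e • Matrix.single b d y := by
  ext i j
  rw [Matrix.sum_apply]
  by_cases h : d = j
  · subst h
    rw [Matrix.mul_single_apply_same, frmatM_apply, Finset.sum_eq_single i]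
    · rw [Matrix.smul_apply, Matrix.single_apply_same, Algebra.smul_def]
    · intro b _ hb
      rw [Matrix.smul_apply, Matrix.single_apply_of_row_ne hb, smul_zero]
    · intro h
      exact absurd (Finset.mem_univ _) h
  · rw [Matrix.mul_single_apply_of_ne _ _ _ _ _ (Ne.symm h)]
    refine (Finset.sum_eq_zero fun b _ => ?_).symm
    rw [Matrix.smul_apply, Matrix.single_apply_of_col_ne _ _ h, smul_zero]

lemma frmat_single_scalar (c b : κ) (x z : A) :
    Matrix.single c b x * Matrix.scalar κ z = Matrix.single c b (x * z) := by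
  ext i j
  rw [Matrix.scalar_apply, Matrix.mul_diagonal]
  by_cases h : c = i ∧ b = j
  · obtain ⟨rfl, rfl⟩ := h
    rw [Matrix.single_apply_same, Matrix.single_apply_same]
  · rw [Matrix.single_apply_of_ne _ _ _ _ _ h, Matrix.single_apply_of_ne _ _ _ _ _ h, zero_mul]

lemma frmat_scalar_single (c b : κ) (x z : A) :
    Matrix.scalar κ z * Matrix.single c b x = Matrix.single c b (z * x) := by
  ext i j
  rw [Matrix.scalar_apply, Matrix.diagonal_mul]
  by_cases h : c = i ∧ b = j
  · obtain ⟨rfl, rfl⟩ := h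
    rw [Matrix.single_apply_same, Matrix.single_apply_same]
  · rw [Matrix.single_apply_of_ne _ _ _ _ _ h, Matrix.single_apply_of_ne _ _ _ _ _ h, mul_zero]

/-- The balanced map attached to a pair of indices. -/
lemma frmat_bal_entry {N : Type} [AddCommGroup N] (B : Matrix κ κ A →+ Matrix κ κ A →+ N)
    (h : Bal R (tenI s δ) fun x y => B x y) (c d : κ) :
    Bal R δ fun x y => ∑ b, B (Matrix.single c b x) (Matrix.single b d y) where
  add_left x x' y := by
    simp only [Matrix.single_add, map_add, AddMonoidHom.add_apply, Finset.sum_add_distrib]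
  add_right x y y' := by
    simp only [Matrix.single_add, map_add, Finset.sum_add_distrib]
  smul r x y := by
    refine Finset.sum_congr rfl fun b _ => ?_
    rw [← Matrix.smul_single, ← Matrix.smul_single]
    exact h.smul r _ _
  mid x y u := by
    have h1 : ∀ b, B (Matrix.single c b (x * δ u)) (Matrix.single b d y) =
        ∑ e, B (Matrix.single c e x) (s u⁻¹ b e • (tenI s δ u * Matrix.single b d y)) := by
      intro b
      have e1 : Matrix.single c b (x * δ u) =
          Matrix.single c b x * frmatM A (s u⁻¹) * tenI s δ u := by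
        rw [frmat_ten, mul_assoc, ← mul_assoc (frmatM A (s u⁻¹)), frmat_inv_mul, one_mul,
          frmat_single_scalar]
      have e2 := h.mid (Matrix.single c b x * frmatM A (s u⁻¹)) (Matrix.single b d y) u
      rw [e1, e2, frmat_single_mul, map_sum, AddMonoidHom.finsetSum_apply]
      exact Finset.sum_congr rfl fun e _ => h.smul _ _ _
    rw [Finset.sum_congr rfl fun b _ => h1 b, Finset.sum_comm]
    refine Finset.sum_congr rfl fun e _ => ?_
    rw [← map_sum]
    simp only [← mul_smul_comm]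
    rw [← Finset.mul_sum, ← frmat_mul_single, frmat_ten', ← mul_assoc, mul_assoc _ (frmatM A (s u)),
      frmat_mul_inv, mul_one, frmat_scalar_single]


/-- Index set `κ × κ × ι`, `X (a, b, i) = n⁻¹ • single a b (x i)`, `Y (a, b, i) = single b a (y i)`.
For `a₀ = single c d z` apply `h` to `(x, y) ↦ ∑ b, β (single c b x) (single b d y)`, which is
balanced: `single c b (x * δ u) = single c b x * (s u⁻¹ ⊗ 1) * tenI s δ u`, expand and use
`s u * s u⁻¹ = 1`. -/
lemma SepI.matrix {ι : Type} [Fintype ι] {x y : ι → A} (h : SepI R δ x y)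
    (s : D →* Matrix κ κ R) :
    ∃ (ι' : Type) (_ : Fintype ι') (X Y : ι' → Matrix κ κ A), SepI R (tenI s δ) X Y ∧
      ∀ w, ∑ i, X i * w * Y i = Matrix.scalar κ (∑ i, x i * ptr R A κ w * y i) := by
  refine ⟨κ × κ × ι, inferInstance,
    fun k => Matrix.single k.1 k.2.1 (Ring.inverse (Fintype.card κ : R) • x k.2.2),
    fun k => Matrix.single k.2.1 k.1 (y k.2.2), fun N _ β hβ a => ?_, fun w => ?_⟩
  · obtain ⟨B, hB⟩ := frmat_bal hβ
    obtain rfl : β = fun x y => B x y := funext fun x => funext fun y => hB x y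
    induction a using Matrix.induction_on' with
    | h_zero => simp only [zero_mul, mul_zero, map_zero, AddMonoidHom.zero_apply]
    | h_add a a' ha ha' =>
      simp only [add_mul, mul_add, map_add, AddMonoidHom.add_apply, Finset.sum_add_distrib] at *
      rw [ha, ha']
    | h_std_basis c d z =>
      have hb := frmat_bal_entry B hβ c d
      have hl : ∑ k : κ × κ × ι, B (Matrix.single c d z *
          Matrix.single k.1 k.2.1 (Ring.inverse (Fintype.card κ : R) • x k.2.2))
            (Matrix.single k.2.1 k.1 (y k.2.2)) = ∑ i, ∑ b, B (Matrix.single c b (z * x i))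
              (Ring.inverse (Fintype.card κ : R) • Matrix.single b d (y i)) := by
        rw [Fintype.sum_prod_type, Finset.sum_eq_single d, Fintype.sum_prod_type, Finset.sum_comm]
        · refine Finset.sum_congr rfl fun i _ => Finset.sum_congr rfl fun b _ => ?_
          rw [Matrix.single_mul_single_same, mul_smul_comm, ← Matrix.smul_single]
          exact hβ.smul _ _ _
        · intro a _ ha
          refine Finset.sum_eq_zero fun k _ => ?_
          rw [Matrix.single_mul_single_of_ne _ _ _ _ (Ne.symm ha), map_zero, AddMonoidHom.zero_apply]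
        · intro h
          exact absurd (Finset.mem_univ _) h
      have hr : ∑ k : κ × κ × ι,
          B (Matrix.single k.1 k.2.1 (Ring.inverse (Fintype.card κ : R) • x k.2.2))
            (Matrix.single k.2.1 k.1 (y k.2.2) * Matrix.single c d z) =
              ∑ i, ∑ b, B (Matrix.single c b (x i))
                (Ring.inverse (Fintype.card κ : R) • Matrix.single b d (y i * z)) := by
        rw [Fintype.sum_prod_type, Finset.sum_eq_single c, Fintype.sum_prod_type, Finset.sum_comm]
        · refine Finset.sum_congr rfl fun i _ => Finset.sum_congr rfl fun b _ => ?_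
          rw [Matrix.single_mul_single_same, ← Matrix.smul_single]
          exact hβ.smul _ _ _
        · intro a _ ha
          refine Finset.sum_eq_zero fun k _ => ?_
          rw [Matrix.single_mul_single_of_ne _ _ _ _ ha, map_zero]
        · intro h
          exact absurd (Finset.mem_univ _) h
      have hb' : Bal R δ fun x y => ∑ b, B (Matrix.single c b x)
          (Ring.inverse (Fintype.card κ : R) • Matrix.single b d y) := by
        simp only [Matrix.smul_single]
        exact ⟨fun x x' y => hb.add_left x x' _,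
          fun x y y' => by rw [smul_add]; exact hb.add_right x _ _,
          fun x y u => by rw [← mul_smul_comm]; exact hb.mid x _ u,
          fun r x y => by rw [smul_comm]; exact hb.smul r x _⟩
      rw [hl, hr]
      exact h N _ hb' z
  · simp only [Matrix.single_mul_mul_single, Fintype.sum_prod_type]
    rw [Matrix.scalar_apply, ← Matrix.sum_single_eq_diagonal]
    refine Finset.sum_congr rfl fun a _ => ?_
    rw [Finset.sum_comm]
    change ∑ i, ∑ b, Matrix.singleAddMonoidHom a a _ = Matrix.singleAddMonoidHom a a _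
    simp only [← map_sum]
    refine congrArg _ (Finset.sum_congr rfl fun i _ => ?_)
    rw [ptr_apply, Matrix.trace, mul_smul_comm, smul_mul_assoc, Finset.mul_sum, Finset.sum_mul,
      Finset.smul_sum]
    exact Finset.sum_congr rfl fun b _ => by rw [smul_mul_assoc, smul_mul_assoc, Matrix.diag_apply]

variable [Fintype D]

lemma frmat_rtr {M M' : Type} [AddCommGroup M] [Module R M] [AddCommGroup M'] [Module R M']
    [Fintype (D ⧸ Q)] (ρ : Representation R D M) (ρ' : Representation R D M') (f : M →ₗ[R] M')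
    (x : M) : rtr (ρ.linHom ρ') Q ⊤ f x = ∑ q : D ⧸ Q, ρ' q.out (f (ρ q.out⁻¹ x)) := by
  rw [rtr_top_apply, LinearMap.sum_apply]
  rfl

/-- The twisted coefficient matrices. -/
noncomputable def frmatC (s : D →* Matrix κ κ R) (r : A →ₗ[R] MonoidAlgebra R D) (v : D) :
    Matrix κ κ A →ₗ[R] Matrix κ κ R :=
  LinearMap.mulRight R (s v⁻¹) ∘ₗ
    (Finsupp.lapply v ∘ₗ (MonoidAlgebra.coeffLinearEquiv R).toLinearMap ∘ₗ r).mapMatrix

omit [Fintype D] in
lemma frmatC_apply (r : A →ₗ[R] MonoidAlgebra R D) (v : D) (x : Matrix κ κ A) :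
    frmatC s r v x = (Matrix.of fun a b => (r (x a b)).coeff v) * s v⁻¹ := rfl

omit [Fintype D] in
lemma frmatC_left {r : A →ₗ[R] MonoidAlgebra R D} (h : ∀ u x, r (δ u * x) = single u 1 * r x)
    (v w : D) (x : Matrix κ κ A) :
    frmatC s r v (tenI s δ w * x) = s w * (frmatC s r (w⁻¹ * v) x * s w⁻¹) := by
  have e : (Matrix.of fun a b => (r ((tenI s δ w * x) a b)).coeff v) =
      s w * Matrix.of fun a b => (r (x a b)).coeff (w⁻¹ * v) := by
    ext a b
    simp only [Matrix.of_apply, Matrix.mul_apply, tenI_apply, smul_mul_assoc, map_sum, map_smul, h,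
      MonoidAlgebra.coeff_sum, Finsupp.finsetSum_apply, MonoidAlgebra.coeff_smul_apply,
      MonoidAlgebra.coeff_single_mul_apply, one_mul, smul_eq_mul]
  rw [frmatC_apply, frmatC_apply, e, mul_assoc, mul_assoc, ← map_mul, mul_inv_rev, inv_inv,
    mul_inv_cancel_right]

omit [Fintype D] in
lemma frmatC_right {r : A →ₗ[R] MonoidAlgebra R D} (h : ∀ u x, r (x * δ u) = r x * single u 1)
    (v w : D) (x : Matrix κ κ A) :
    frmatC s r v (x * tenI s δ w) = frmatC s r (v * w⁻¹) x := by
  have e : (Matrix.of fun a b => (r ((x * tenI s δ w) a b)).coeff v) =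
      (Matrix.of fun a b => (r (x a b)).coeff (v * w⁻¹)) * s w := by
    ext a b
    simp only [Matrix.of_apply, Matrix.mul_apply, tenI_apply, mul_smul_comm, map_sum, map_smul, h,
      MonoidAlgebra.coeff_sum, Finsupp.finsetSum_apply, MonoidAlgebra.coeff_smul_apply,
      MonoidAlgebra.coeff_mul_single_apply, mul_one, smul_eq_mul]
    exact Finset.sum_congr rfl fun c _ => mul_comm _ _
  rw [frmatC_apply, frmatC_apply, e, mul_assoc, ← map_mul, mul_inv_rev, inv_inv]

lemma frmatC_sum (r : A →ₗ[R] MonoidAlgebra R D) (x : Matrix κ κ A) :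
    ∑ v, frmatM A (frmatC s r v x) * tenI s δ v = x.map fun a => hatI R δ (r a) := by
  have e : ∀ v, frmatM A (frmatC s r v x) * tenI s δ v =
      Matrix.of fun a b => (r (x a b)).coeff v • δ v := by
    intro v
    rw [frmatC_apply, map_mul, frmat_ten, mul_assoc, ← mul_assoc (frmatM A (s v⁻¹)), frmat_inv_mul,
      one_mul]
    ext a b
    rw [Matrix.scalar_apply, Matrix.mul_diagonal, frmatM_apply, Matrix.of_apply, Matrix.of_apply,
      Algebra.smul_def]
  ext a b
  simp only [e, Matrix.sum_apply, Matrix.of_apply, Matrix.map_apply, hatI_apply]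

omit [Fintype D] in
lemma frmat_ntr_conj (w : D) (m : Matrix κ κ R) : ntr R κ (s w * (m * s w⁻¹)) = ntr R κ m := by
  rw [ntr_apply, ntr_apply, Matrix.trace_mul_comm, mul_assoc, delta_inv_mul, mul_one]

omit [Fintype D] in
lemma frmat_map_left (t : A →ₗ[R] A) (m : Matrix κ κ R) (x : Matrix κ κ A) :
    (frmatM A m * x).map t = frmatM A m * x.map t := by
  ext a b
  simp only [Matrix.map_apply, Matrix.mul_apply, frmatM_apply, ← Algebra.smul_def, map_sum,
    map_smul]

omit [Fintype D] in
lemma frmat_map_right {t : A →ₗ[R] A} (h : ∀ u x, t (x * δ u) = t x * δ u) (w : D)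
    (x : Matrix κ κ A) : (x * tenI s δ w).map t = x.map t * tenI s δ w := by
  ext a b
  simp only [Matrix.map_apply, Matrix.mul_apply, tenI_apply, mul_smul_comm, map_sum, map_smul, h]

omit [Fintype D] in
lemma frmat_map_conj (t : A →ₗ[R] A) (g : D) (x : Matrix κ κ A) :
    tenI s δ g * (tenI s δ g⁻¹ * x).map t = x.map fun a => δ g * t (δ g⁻¹ * a) := by
  rw [frmat_ten g⁻¹, frmat_ten' g, mul_assoc (frmatM A (s g⁻¹)), frmat_map_left, mul_assoc,
    ← mul_assoc (frmatM A (s g)), frmat_mul_inv, one_mul]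
  ext a b
  simp only [Matrix.scalar_apply, Matrix.diagonal_mul, Matrix.map_apply]

omit [Fintype D] in
lemma frmat_conj (g v : D) (m : Matrix κ κ R) :
    tenI s δ g * (frmatM A m * tenI s δ v) =
      frmatM A (s g * (m * s g⁻¹)) * tenI s δ (g * v) := by
  have e : Matrix.scalar κ (δ g) * tenI s δ v = frmatM A (s g⁻¹) * tenI s δ (g * v) := by
    rw [map_mul (tenI s δ), frmat_ten g, mul_assoc, ← mul_assoc (frmatM A (s g⁻¹)), frmat_inv_mul,
      one_mul]
  rw [frmat_ten g, mul_assoc, ← mul_assoc (Matrix.scalar κ (δ g)), ← frmat_comm, mul_assoc, e,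
    map_mul (frmatM A), map_mul (frmatM A)]
  simp only [mul_assoc]

/-- Let `m v x : Matrix κ κ R` have entries `(r (x a b)).coeff v` and `m' v x = m v x * s v⁻¹`.
Then `m' v (Δ w * x) = s w * m' (w⁻¹ v) x * s w⁻¹`, `m' v (x * Δ w) = m' (v w⁻¹) x`, and
`x.map (hat ∘ r) = ∑ v, (m' v x ⊗ 1) * Δ v`.  Put `r' x = ∑ v, single v (ntr (m' v x))` and
`t' x = x.map t + ∑ v, (θ (m' v x) ⊗ 1) * Δ v`. -/
lemma HigI.matrix {r : A →ₗ[R] MonoidAlgebra R D} {t : A →ₗ[R] A} (h : HigI R δ Q r t)
    (hs : Endo p Q s) : ∃ r' t', HigI R (tenI s δ) Q r' t' := by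
  obtain ⟨θ, hθ⟩ := hs.hig
  have : Fintype (D ⧸ Q) := Fintype.ofFinite _
  let r' : Matrix κ κ A →ₗ[R] MonoidAlgebra R D :=
    ∑ v, MonoidAlgebra.lsingle v ∘ₗ ntr R κ ∘ₗ frmatC s r v
  let t' : Matrix κ κ A →ₗ[R] Matrix κ κ A := t.mapMatrix +
    ∑ v, LinearMap.mulRight R (tenI s δ v) ∘ₗ (frmatM A).toLinearMap ∘ₗ θ ∘ₗ frmatC s r v
  have hr' : ∀ x, r' x = ∑ v, single v (ntr R κ (frmatC s r v x)) := fun x =>
    LinearMap.sum_apply _ _ _
  have ht' : ∀ x, t' x = x.map t + ∑ v, frmatM A (θ (frmatC s r v x)) * tenI s δ v := fun x => by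
    rw [LinearMap.add_apply, LinearMap.sum_apply]
    rfl
  refine ⟨r', t', fun u x => ?_, fun u x => ?_, fun u x => ?_, fun x => ?_⟩
  · rw [hr', hr', Finset.mul_sum, ← Equiv.sum_comp (Equiv.mulLeft u)]
    refine Finset.sum_congr rfl fun v _ => ?_
    rw [Equiv.coe_mulLeft, frmatC_left h.r_left, frmat_ntr_conj, inv_mul_cancel_left,
      MonoidAlgebra.single_mul_single, one_mul]
  · rw [hr', hr', Finset.sum_mul, ← Equiv.sum_comp (Equiv.mulRight u)]
    refine Finset.sum_congr rfl fun v _ => ?_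
    rw [Equiv.coe_mulRight, frmatC_right h.r_right, mul_inv_cancel_right,
      MonoidAlgebra.single_mul_single, mul_one]
  · rw [ht', ht', add_mul, frmat_map_right h.t_right, Finset.sum_mul,
      ← Equiv.sum_comp (Equiv.mulRight u)]
    refine congrArg _ (Finset.sum_congr rfl fun v _ => ?_)
    rw [Equiv.coe_mulRight, frmatC_right h.r_right, mul_inv_cancel_right, map_mul, mul_assoc]
  · have e1 : ∀ g : D, lI R (tenI s δ) g (t' (lI R (tenI s δ) g⁻¹ x)) =
        (x.map fun a => δ g * t (δ g⁻¹ * a)) +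
          ∑ v, frmatM A (cjI R s g (θ (cjI R s g⁻¹ (frmatC s r v x)))) * tenI s δ v := by
      intro g
      rw [lI_apply, lI_apply, ht', mul_add, frmat_map_conj, Finset.mul_sum,
        ← Equiv.sum_comp (Equiv.mulLeft g)
          (fun v => frmatM A (cjI R s g (θ (cjI R s g⁻¹ (frmatC s r v x)))) * tenI s δ v)]
      refine congrArg _ (Finset.sum_congr rfl fun v _ => ?_)
      rw [frmat_conj, frmatC_left h.r_left, Equiv.coe_mulLeft, cjI_apply, cjI_apply, inv_inv]
    have e2 : ∑ q : D ⧸ Q, (x.map fun a => δ q.out * t (δ q.out⁻¹ * a)) =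
        x - x.map fun a => hatI R δ (r a) := by
      ext a b
      rw [Matrix.sum_apply, Matrix.sub_apply, Matrix.map_apply, eq_sub_iff_add_eq']
      have := h.eq (x a b)
      rw [frmat_rtr] at this
      exact this.symm
    have e3 : ∀ v, ∑ q : D ⧸ Q, frmatM A (cjI R s q.out (θ (cjI R s q.out⁻¹ (frmatC s r v x)))) *
        tenI s δ v = frmatM A (frmatC s r v x) * tenI s δ v -
          ntr R κ (frmatC s r v x) • tenI s δ v := by
      intro v
      have := hθ (frmatC s r v x)
      rw [frmat_rtr, ← sub_eq_iff_eq_add'] at this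
      rw [← Finset.sum_mul, ← map_sum, ← this, map_sub, map_smul, map_one, sub_mul, smul_mul_assoc,
        one_mul]
    rw [frmat_rtr, Finset.sum_congr rfl fun q _ => e1 q.out, Finset.sum_add_distrib, e2,
      Finset.sum_comm, Finset.sum_congr rfl fun v _ => e3 v, Finset.sum_sub_distrib, frmatC_sum,
      hr', map_sum]
    simp only [hatI_single]
    abel

/-- Conjugate `θ` by the transposition. -/
lemma Endo.dual (h : Endo p Q s) : Endo p Q (dualS s) := by
  obtain ⟨θ, hθ⟩ := h.hig
  let T : Matrix κ κ R →ₗ[R] Matrix κ κ R := (Matrix.transposeLinearEquiv κ κ R R).toLinearMap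
  have hT : ∀ m, T m = m.transpose := fun _ => rfl
  have h1 : ∀ s : D →* Matrix κ κ R, EquivOn (cjI R s) (cjI R (dualS s)) ⊤ T := by
    intro s g _ m
    simp only [hT, cjI_apply, dualS_apply, Matrix.transpose_mul, inv_inv, mul_assoc]
  have h2 : EquivOn (cjI R (dualS s)) (cjI R s) ⊤ T := by
    have := h1 (dualS s)
    rwa [dualS_dualS] at this
  refine ⟨fun q hq => ?_, h.card, T ∘ₗ (θ ∘ₗ T), fun m => ?_⟩
  · rw [dualS_apply, h.triv _ (Q.inv_mem hq), Matrix.transpose_one]
  · rw [← comp_rtr (h1 s), ← rtr_comp h2, LinearMap.comp_apply, LinearMap.comp_apply, hT, hT]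
    have := congrArg Matrix.transpose (hθ m.transpose)
    rwa [Matrix.transpose_transpose, Matrix.transpose_add, Matrix.transpose_smul,
      Matrix.transpose_one, ntr_apply, Matrix.trace_transpose, ← ntr_apply] at this

end ring

section loc

variable {R D A κ : Type} [CommRing R] [IsLocalRing R] [CommGroup D] [Fintype D] [Ring A]
  [Algebra R A] [Fintype κ] [DecidableEq κ] {s : D →* Matrix κ κ R} {δ : D →* A}
  {Q S : Subgroup D} {p : ℕ}

lemma PreI.matrix (hs : Std p R D) (h : PreI R δ Q) (he : Endo p Q s) :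
    PreI R (tenI s δ) Q := by
  obtain ⟨ι, _, x, y, hxy, h1⟩ := h.sep
  obtain ⟨r, t, hrt⟩ := h.hig
  obtain ⟨ι', _, X, Y, hXY, h2⟩ := hxy.matrix s
  refine ⟨h.ne_top, fun q hq a => ?_, ⟨ι', inferInstance, X, Y, hXY, ?_⟩, hrt.matrix he⟩
  · rw [frmat_ten, he.triv q hq, map_one, one_mul]
    exact Matrix.scalar_commute _ (fun b => h.cent q hq b) a
  · have h3 := h2 1
    have h4 := ptr_scalar (κ := κ) (bouc_unit hs.prime hs.pR he.card) (1 : A)
    rw [map_one] at h4
    simp only [h4, mul_one, h1, map_one] at h3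
    exact h3

lemma scalar_mem_trM {a : A} (ha : a ∈ trM R δ S) :
    Matrix.scalar κ a ∈ trM R (tenI s δ) S := by
  exact brK_map (φ := (scalA R A κ).toLinearMap) (fun g _ => scalA_equiv g trivial) ha

lemma mem_trM_of_scalar (hn : IsUnit (Fintype.card κ : R)) {a : A}
    (ha : Matrix.scalar κ a ∈ trM R (tenI s δ) S) : a ∈ trM R δ S := by
  have h := brK_map (φ := ptr R A κ) (fun g _ => ptr_equiv g trivial) ha
  rwa [ptr_scalar hn] at h

/-- `SepI.matrix`; `ptr` and scalar matrices preserve `trM`. -/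
lemma SP.matrix (hn : IsUnit (Fintype.card κ : R)) {J : A} (h : SP R δ J) :
    SP R (tenI s δ) (Matrix.scalar κ J) := by
  obtain ⟨ι, _, x, y, hxy, h1, c, N, hc, h2⟩ := h
  obtain ⟨ι', _, X, Y, hXY, h3⟩ := hxy.matrix s
  refine ⟨ι', inferInstance, X, Y, hXY, fun w hw => ?_, c, N, hc, ?_⟩
  · rw [h3]
    exact scalar_mem_trM (h1 _ (brK_map ptr_equiv hw))
  · have h4 := scalar_mem_trM (s := s) h2
    rw [← scalA_apply (R := R), map_mul, map_pow, map_sub, map_smul, map_one, scalA_apply,
      scalA_apply] at h4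
    rwa [h3, ptr_scalar hn]

/-- The trace of `s u` is `n` modulo the maximal ideal: over the residue field `s u - 1` is
nilpotent (`Matrix.isNilpotent_trace_of_isNilpotent`). -/
lemma Std.ntr_sub_one (hs : Std p R D) (hn : ¬ p ∣ Fintype.card κ) (s : D →* Matrix κ κ R)
    (u : D) : ntr R κ (s u) - 1 ∈ maximalIdeal R := by
  obtain ⟨N, hN⟩ := hs.nil_delta s u
  have h1 : IsNilpotent ((residue R).mapMatrix (s u - 1)) := by
    refine ⟨N, ?_⟩
    rw [← map_pow]
    ext a b
    have h2 := idem_inMax_map (Matrix.entryLinearMap R R a b) hN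
    rw [InMax, smul_eq_mul, Ideal.mul_top] at h2
    exact (residue_eq_zero_iff _).2 h2
  have h3 := (Matrix.isNilpotent_trace_of_isNilpotent h1).eq_zero
  rw [RingHom.mapMatrix_apply, ← AddMonoidHom.map_trace, residue_eq_zero_iff] at h3
  have h4 : ntr R κ (s u) - 1 = Ring.inverse (Fintype.card κ : R) * (s u - 1).trace := by
    rw [ntr_apply, Matrix.trace_sub, Matrix.trace_one, mul_sub,
      Ring.inverse_mul_cancel _ (bouc_unit hs.prime hs.pR hn)]
  rw [h4]
  exact Ideal.mul_mem_left _ _ h3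

end loc

section val

variable {R D A : Type} [CommRing R] [IsDomain R] [ValuationRing R] [CommGroup D] [Fintype D]
  [Ring A] [Algebra R A] [Module.Finite R A] [Module.IsTorsionFree R A] {δ : D →* A}
  {Q : Subgroup D} {p : ℕ}

omit [Module.Finite R A] [Module.IsTorsionFree R A] in
lemma frmat_pow {y i : A} (hy : FixedBy (cjI R δ) ⊤ y) (hi : i ∈ trM R δ ⊤) (n : ℕ) :
    (y + i) ^ n - y ^ n ∈ trM R δ ⊤ := by
  induction n with
  | zero => simp only [pow_zero, sub_self, zero_mem]
  | succ n ih =>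
    have e : (y + i) ^ (n + 1) - y ^ (n + 1) = ((y + i) ^ n - y ^ n) * (y + i) + y ^ n * i := by
      rw [pow_succ, pow_succ]
      noncomm_ring
    rw [e]
    exact add_mem (trM_mul_right ((fixI R δ ⊤).add_mem hy (brK_fixed hi)) ih)
      (trM_mul_left ((fixI R δ ⊤).pow_mem hy n) hi)

/-- `exists_min_idem` for `Λ = fixI R δ ⊤`, `I = trM R δ ⊤`.  With `η` from `LG`:
`J z J ≡ η z η ≡ hat c * η ≡ hat c * J`, and `(hat c - aug c) ^ N` lies in `𝔪 A`, so
`((hat c - aug c) J) ^ N ∈ trM` by `inMax_mem_brK`.  If `ε` were in `𝔪 A` then `J ∈ trM`. -/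
lemma exists_minI (hs : Std p R D) {J : A} (hJ : J * J = J) (hc : ∀ u, δ u * J = J * δ u)
    (hlg : LG R δ J ⊤) (hne : J ∉ trM R δ ⊤) : ∃ ε, MinI R δ J ε := by
  have hJf : FixedBy (cjI R δ) ⊤ J := fixedBy_cjI_iff.2 fun u _ => hc u
  obtain ⟨η, hη, -, hJη, hz⟩ := hlg
  obtain ⟨ε, hεΛ, h1, h2, h3, h4, h5, h6⟩ := exists_min_idem hs.split (fixI R δ ⊤) (trM R δ ⊤)
    (fun x hx => brK_fixed hx) (fun a ha x hx => trM_mul_left ha hx)
    (fun a ha x hx => trM_mul_right ha hx) hJ hJf (fun z hzΛ => by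
      obtain ⟨c, hcz⟩ := hz z hzΛ
      have hh := hatI_fixed (δ := δ) c ⊤
      have hcomm : (hatI R δ c - augI R D c • 1) * J = J * (hatI R δ c - augI R D c • 1) := by
        rw [sub_mul, mul_sub, hatI_comm hc, smul_mul_assoc, mul_smul_comm, one_mul, mul_one]
      obtain ⟨N, hN⟩ := (hs.nil_hat δ c).mul_right hcomm
      have hyf : (hatI R δ c - augI R D c • 1) * J ∈ fixI R δ ⊤ :=
        mul_mem (sub_mem hh (Subalgebra.smul_mem _ (one_mem _) _)) hJf
      have hi : (J - η) * (z * J) + η * z * (J - η) + (η * z * η - hatI R δ c * η) -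
          hatI R δ c * (J - η) ∈ trM R δ ⊤ :=
        sub_mem (add_mem (add_mem (trM_mul_right ((fixI R δ ⊤).mul_mem hzΛ hJf) hJη)
          (trM_mul_left ((fixI R δ ⊤).mul_mem hη hzΛ) hJη)) hcz) (trM_mul_left hh hJη)
      refine ⟨augI R D c, N, ?_⟩
      have e : J * z * J - augI R D c • J = (hatI R δ c - augI R D c • 1) * J +
          ((J - η) * (z * J) + η * z * (J - η) + (η * z * η - hatI R δ c * η) -
            hatI R δ c * (J - η)) := by
        rw [sub_mul (hatI R δ c), smul_mul_assoc, one_mul]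
        noncomm_ring
      have h7 := frmat_pow hyf hi (N + 1)
      have h8 : ((hatI R δ c - augI R D c • 1) * J) ^ (N + 1) ∈ trM R δ ⊤ :=
        inMax_mem_brK (by rw [pow_succ]; exact idem_inMax_mul_right _ hN)
          ((fixI R δ ⊤).pow_mem hyf _)
      have h9 := add_mem h7 h8
      rwa [sub_add_cancel, ← e] at h9)
  refine ⟨ε, h1, fun u => fixedBy_cjI_iff.1 hεΛ u trivial, h2, h3, h4, h6, h5, fun hm => hne ?_⟩
  have h7 := add_mem h4 (inMax_mem_brK hm hεΛ)
  rwa [sub_add_cancel] at h7

omit [Module.Finite R A] [Module.IsTorsionFree R A] in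
lemma PreI.lg (h : PreI R δ Q) : LG R δ 1 ⊤ := by
  obtain ⟨r, t, hrt⟩ := h.hig
  refine ⟨1, (fixI R δ ⊤).one_mem, by rw [one_mul, one_mul], by rw [sub_self]; exact zero_mem _,
    fun z hz => ?_⟩
  obtain ⟨m, hm⟩ := hrt.fixed h.cent le_top hz
  refine ⟨r z, ?_⟩
  rw [one_mul, mul_one, mul_one, sub_eq_iff_eq_add'.2 hm]
  exact rtr_mem_brK (lt_top_iff_ne_top.2 h.ne_top) (fixedBy_of_cent h.cent m)
omit [IsDomain R] [ValuationRing R] [Module.Finite R A] [Module.IsTorsionFree R A] in
/-- The maps of a Higman decomposition restrict to a corner. -/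
lemma frmat_hig_corner {r : A →ₗ[R] MonoidAlgebra R D} {t : A →ₗ[R] A} (h : HigI R δ Q r t)
    {e : A} (he : IsIdempotentElem e) (hc : ∀ u, δ u * e = e * δ u) :
    HigI R (cornerI δ he hc) Q (r ∘ₗ cval R he) (cproj R he ∘ₗ t ∘ₗ cval R he) := by
  have hl : ∀ (u : D) (x : he.Corner), (cornerI δ he hc u * x).1 = δ u * x.1 := fun u x => by
    rw [corner_mul, cornerI_val, mul_assoc, corner_left]
  have hr : ∀ (u : D) (x : he.Corner), (x * cornerI δ he hc u).1 = x.1 * δ u := fun u x => by
    rw [corner_mul, cornerI_val, hc, ← mul_assoc, corner_right]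
  have : Fintype (D ⧸ Q) := Fintype.ofFinite _
  refine ⟨fun u x => ?_, fun u x => ?_, fun u x => Subtype.ext ?_, fun x => Subtype.ext ?_⟩
  · change r (cornerI δ he hc u * x).1 = _
    rw [hl]
    exact h.r_left u x.1
  · change r (x * cornerI δ he hc u).1 = _
    rw [hr]
    exact h.r_right u x.1
  · rw [hr]
    change e * t (x * cornerI δ he hc u).1 * e = e * t x.1 * e * δ u
    rw [hr, h.t_right, mul_assoc (e * t x.1), ← hc, mul_assoc, mul_assoc, mul_assoc]
  · have h1 := h.eq x.1
    rw [frmat_rtr] at h1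
    have h2 : x.1 = e * x.1 * e := by rw [corner_left, corner_right]
    rw [corner_add, hatI_cornerI, frmat_rtr, ← cval_apply (R := R) he (∑ _, _), map_sum, h2]
    conv_lhs => rw [h1]
    rw [mul_add, add_mul, ← hatI_comm hc, mul_assoc _ e e, he.eq, Finset.mul_sum, Finset.sum_mul]
    refine congrArg₂ _ rfl (Finset.sum_congr rfl fun q _ => ?_)
    rw [cval_apply, lI_apply, lI_apply, lI_apply, lI_apply, hl]
    change _ = δ q.out * (e * t (cornerI δ he hc q.out⁻¹ * x).1 * e)
    rw [hl, ← mul_assoc e, ← hc]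
    simp only [mul_assoc]

omit [IsDomain R] [ValuationRing R] [Module.Finite R A] [Module.IsTorsionFree R A] [Fintype D] in
lemma frmat_cval_equiv {e : A} (he : IsIdempotentElem e) (hc : ∀ u, δ u * e = e * δ u) :
    EquivOn (cjI R (cornerI δ he hc)) (cjI R δ) ⊤ (cval R he) := by
  intro g _ x
  change δ g * e * (x.1 * (δ g⁻¹ * e)) = δ g * (x.1 * δ g⁻¹)
  rw [hc g⁻¹, ← mul_assoc x.1, corner_right, mul_assoc, ← mul_assoc e, corner_left]


/-- `z = ∑ x i * ε * y i = ε + rtr m` is central (`HigI.central`), `z ε` is a unit of the corner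
with central inverse `w` (`exists_inv_corner`, `corner_inv_comm`); `SepI.corner`,
`SepI.mul_central`.  The maps `r`, `t` restrict to the corner. -/
lemma PreI.nilI_corner (hs : Std p R D) (h : PreI R δ Q) {ε : A} (hε : MinI R δ 1 ε) :
    NilI R hε.cor Q := by
  obtain ⟨ι, _, x, y, hxy, h1⟩ := h.sep
  obtain ⟨r, t, hrt⟩ := h.hig
  have hQ : Q < ⊤ := lt_top_iff_ne_top.2 h.ne_top
  have hεf : FixedBy (cjI R δ) ⊤ ε := fixedBy_cjI_iff.2 fun u _ => hε.comm u
  have hee : ε * ε = ε := hε.idem.eq
  have hcent : ∀ q ∈ Q, ∀ a, hε.cor q * a = a * hε.cor q := fun q hq a => Subtype.ext (by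
    change δ q * ε * a.1 = a.1 * (δ q * ε)
    rw [mul_assoc, corner_left, h.cent q hq, ← mul_assoc, ← h.cent q hq a.1, mul_assoc,
      corner_right, h.cent q hq])
  refine ⟨⟨h.ne_top, hcent, ?_, _, _, frmat_hig_corner hrt hε.idem hε.comm⟩, fun a => ?_,
    fun hm => hε.ne ((inMax_corner hε.idem).1 hm)⟩
  · obtain ⟨m, hm⟩ := hrt.central hxy h1 hεf
    have hz := hxy.central hεf
    generalize hzd : ∑ i, x i * ε * y i = z at hm hz
    have hn := hε.nt _ (rtr_mem_brK hQ (fixedBy_of_cent h.cent m))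
    have e1 : ε * rtr (cjI R δ) Q ⊤ m * ε = ε * z * ε - (1 : R) • ε := by
      rw [hm, mul_add, add_mul, hee, hee, one_smul, add_sub_cancel_left]
    rw [e1] at hn
    obtain ⟨w, -, hw1, hw2, hw3⟩ := exists_inv_corner hs.split ⊤ hee trivial
      (y := ε * z * ε) trivial (by rw [← mul_assoc, ← mul_assoc, hee, mul_assoc _ ε ε, hee])
      isUnit_one hn
    have hw : ∀ a, cmk hε.idem w * a = a * cmk hε.idem w := fun a => Subtype.ext (by
      rw [corner_mul, corner_mul, cmk_val, hw1]
      have ha : a.1 * ε = ε * a.1 := by rw [corner_left, corner_right]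
      refine (corner_inv_comm hw1 hee hw2 hw3 ha ?_).symm
      rw [← mul_assoc, ← mul_assoc, ha, mul_assoc ε, hz a.1, mul_assoc, mul_assoc, ha]
      simp only [mul_assoc])
    refine ⟨ι, inferInstance, _, _, (hxy.corner hε.idem hε.comm).mul_central hw, Subtype.ext ?_⟩
    rw [← cval_apply (R := R), map_sum, corner_one]
    refine Eq.trans ?_ hw2
    rw [← hzd, Finset.mul_sum, Finset.sum_mul, Finset.mul_sum]
    refine Finset.sum_congr rfl fun i _ => ?_
    rw [cval_apply, corner_mul, corner_mul, cmk_val, cmk_val, cmk_val, hw1]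
    simp only [mul_assoc]
    rw [← mul_assoc ε ε, hee]
  · rw [nilR_corner]
    have e1 : (rtr (cjI R hε.cor) Q ⊤ a).1 = rtr (cjI R δ) Q ⊤ a.1 :=
      rtr_map (frmat_cval_equiv hε.idem hε.comm) a
    have hn := hε.nt _ (rtr_mem_brK hQ (fixedBy_of_cent h.cent a.1))
    rwa [← e1, corner_left, corner_right] at hn

end val

end Pool.Agent.Lib.MP_b6945b_al.St
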