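import Pool.Agent.Lib.MP_b6945b_al.St.FrRed

set_option autoImplicit false

/-!
Local pointed groups on group algebras of centralisers.
-/

namespace Pool.Agent.Lib.MP_b6945b_al.St

open IsLocalRing
open MonoidAlgebra (single)

section trunc

variable {R G : Type} [CommRing R] [Group G] [Fintype G] {S S' : Set G}

omit [Fintype G] in
lemma frpg_cent {x : G} : (∀ s ∈ S, x * s = s * x) ↔ x ∈ Subgroup.centralizer S :=
  ⟨fun h s hs => (h s hs).symm, fun h s hs => (h s hs).symm⟩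

omit [Fintype G] in
lemma frpg_mem_conj {T : Subgroup G} {g t : G} :
    t ∈ T.map (MulAut.conj g).toMonoidHom ↔ g⁻¹ * t * g ∈ T := by
  constructor
  · rintro ⟨u, hu, rfl⟩
    simpa [mul_assoc] using hu
  · intro h
    exact ⟨_, h, by simp [mul_assoc]⟩

omit [Fintype G] in
lemma frpg_cj_cj (g g' : G) (a : MonoidAlgebra R G) :
    cjRep R G g (cjRep R G g' a) = cjRep R G (g * g') a := by
  rw [map_mul, Module.End.mul_apply]

omit [Fintype G] in
lemma frpg_cj_inv (g : G) (a : MonoidAlgebra R G) : cjRep R G g (cjRep R G g⁻¹ a) = a := by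
  rw [frpg_cj_cj, mul_inv_cancel, map_one, Module.End.one_apply]

omit [Fintype G] in
lemma frpg_inv_cj (g : G) (a : MonoidAlgebra R G) : cjRep R G g⁻¹ (cjRep R G g a) = a := by
  rw [frpg_cj_cj, inv_mul_cancel, map_one, Module.End.one_apply]

omit [Fintype G] in
lemma frpg_cj_single (g y : G) : cjRep R G g (single y 1) = single (g * y * g⁻¹) 1 := by
  rw [cjRep_apply, MonoidAlgebra.single_mul_single, MonoidAlgebra.single_mul_single, mul_assoc,
    mul_one, mul_one]

omit [Fintype G] in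
lemma frpg_cj_one (g : G) : cjRep R G g 1 = 1 := by
  rw [MonoidAlgebra.one_def, frpg_cj_single, mul_one, mul_inv_cancel]

omit [Fintype G] in
lemma frpg_cj_pow (g : G) (a : MonoidAlgebra R G) (n : ℕ) :
    cjRep R G g (a ^ n) = cjRep R G g a ^ n := by
  induction n with
  | zero => rw [pow_zero, pow_zero, frpg_cj_one]
  | succ n ih => rw [pow_succ, pow_succ, cjRep_mul, ih]

omit [Fintype G] in
lemma frpg_supp_cj {a : MonoidAlgebra R G} (ha : SuppCent S a) {g : G}
    (hg : ∀ s ∈ S', g⁻¹ * s * g ∈ S) : SuppCent S' (cjRep R G g a) := by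
  intro x hx s hs
  rw [coeff_cjRep] at hx
  have h1 := ha _ hx _ (hg s hs)
  calc x * s = g * (g⁻¹ * x * g * (g⁻¹ * s * g)) * g⁻¹ := by group
    _ = s * x := by rw [h1]; group

omit [Fintype G] in
lemma frpg_supp_cj' {a : MonoidAlgebra R G} (ha : SuppCent S a) {g : G}
    (hg : g ∈ Subgroup.centralizer S) : SuppCent S (cjRep R G g a) :=
  frpg_supp_cj ha fun s hs => by rwa [mul_assoc, hg s hs, inv_mul_cancel_left]

omit [Fintype G] in
lemma frpg_fix_cj {T T' : Subgroup G} {a : MonoidAlgebra R G} (ha : FixedBy (cjRep R G) T a) {g : G}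
    (hg : ∀ t ∈ T', g⁻¹ * t * g ∈ T) : FixedBy (cjRep R G) T' (cjRep R G g a) := by
  intro t ht
  rw [frpg_cj_cj, show t * g = g * (g⁻¹ * t * g) by group, ← frpg_cj_cj, ha _ (hg t ht)]

omit [Fintype G] in
lemma frpg_supp_single {y : G} (hy : ∀ s ∈ S, y * s = s * y) :
    SuppCent S (single y 1 : MonoidAlgebra R G) := by
  intro x hx
  have : x = y := by
    by_contra e
    exact hx (by rw [MonoidAlgebra.coeff_single]; exact Finsupp.single_eq_of_ne e)
  rwa [this]

omit [Fintype G] in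
lemma frpg_fix_single (P : Subgroup G) (y : G) :
    FixedBy (cjRep R G) (P ⊓ Subgroup.centralizer {y}) (single y 1) := by
  intro g hg
  rw [frpg_cj_single, ← hg.2 y rfl, mul_inv_cancel_right]

lemma frpg_supp_rtr {a : MonoidAlgebra R G} (ha : SuppCent S a) (T : Subgroup G) {U : Subgroup G}
    (hU : U ≤ Subgroup.centralizer S) : SuppCent S (rtr (cjRep R G) T U a) :=
  rtr_mem (centAlg R S).toSubring.toAddSubgroup fun _ hg => frpg_supp_cj' ha (hU hg)

lemma frpg_rtr_conj {T U : Subgroup G} (hTU : T ≤ U) {m : MonoidAlgebra R G}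
    (hm : FixedBy (cjRep R G) T m) (g : G) :
    rtr (cjRep R G) (T.map (MulAut.conj g).toMonoidHom) (U.map (MulAut.conj g).toMonoidHom)
      (cjRep R G g m) = cjRep R G g (rtr (cjRep R G) T U m) := by
  obtain ⟨n, t, -, ht, hu⟩ := exists_transversal hTU
  rw [rtr_eq_sum hTU hm t ht hu, map_sum, rtr_eq_sum (Subgroup.map_mono hTU)
    (frpg_fix_cj hm fun _ h => frpg_mem_conj.1 h) (fun i => g * t i * g⁻¹)
    (fun i => frpg_mem_conj.2 (by simpa [mul_assoc] using ht i))]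
  · refine Finset.sum_congr rfl fun i _ => ?_
    rw [frpg_cj_cj, frpg_cj_cj, inv_mul_cancel_right]
  · intro x hx
    have h1 := hu _ (frpg_mem_conj.1 hx)
    refine (existsUnique_congr fun i => ?_).1 h1
    rw [frpg_mem_conj, show g⁻¹ * ((g * t i * g⁻¹)⁻¹ * x) * g = (t i)⁻¹ * (g⁻¹ * x * g) by group]

variable (R) in
/-- The fixed elements supported on a centraliser. -/
def frpgAlg (S : Set G) (P : Subgroup G) : Subalgebra R (MonoidAlgebra R G) where
  carrier := {a | SuppCent S a ∧ FixedBy (cjRep R G) P a}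
  mul_mem' := fun ha hb => ⟨(centAlg R S).mul_mem ha.1 hb.1, fun g hg => by
    rw [cjRep_mul, ha.2 g hg, hb.2 g hg]⟩
  add_mem' := fun ha hb => ⟨(centAlg R S).add_mem ha.1 hb.1, fun g hg => by
    rw [map_add, ha.2 g hg, hb.2 g hg]⟩
  algebraMap_mem' := fun r => ⟨(centAlg R S).algebraMap_mem r, fun g _ => by
    rw [Algebra.algebraMap_eq_smul_one, map_smul, frpg_cj_one]⟩

lemma frpg_comm {z b : MonoidAlgebra R G} (hz : FixedBy (cjRep R G) (Subgroup.centralizer S) z)
    (hb : SuppCent S b) : z * b = b * z := by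
  rw [eq_sum_single b, Finset.mul_sum, Finset.sum_mul]
  refine Finset.sum_congr rfl fun y _ => ?_
  by_cases hy : b.coeff y = 0
  · simp [hy]
  · have h1 := hz y (frpg_cent.1 (hb y hy))
    rw [mul_smul_comm, smul_mul_assoc]
    congr 1
    conv_lhs => rw [← h1, cjRep_apply, mul_assoc, mul_assoc, MonoidAlgebra.single_mul_single,
      inv_mul_cancel, mul_one, ← MonoidAlgebra.one_def, mul_one]

omit [Fintype G] in
lemma frpg_fix_of_comm {f : MonoidAlgebra R G} (hc : ∀ b, SuppCent S b → f * b = b * f) :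
    FixedBy (cjRep R G) (Subgroup.centralizer S) f := by
  intro g hg
  rw [cjRep_apply, ← mul_assoc, ← hc _ (frpg_supp_single (frpg_cent.2 hg)), mul_assoc,
    MonoidAlgebra.single_mul_single, mul_inv_cancel, mul_one, ← MonoidAlgebra.one_def, mul_one]

lemma suppCent_brT (S : Set G) (b : MonoidAlgebra R G) : SuppCent S (brT R S b) := by
  intro x hx
  rw [coeff_brT] at hx
  by_contra h
  exact hx (if_neg h)

lemma brT_of_suppCent {b : MonoidAlgebra R G} (h : SuppCent S b) : brT R S b = b := by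
  ext x
  rw [coeff_brT]
  split_ifs with e
  · rfl
  · by_contra h0
    exact e (h x (Ne.symm h0))

lemma SuppCent.brT {b : MonoidAlgebra R G} (h : SuppCent S b) (S' : Set G) :
    SuppCent (S ∪ S') (brT R S' b) := by
  intro x hx s hs
  rcases hs with hs | hs
  · refine h x (fun e => hx ?_) s hs
    rw [coeff_brT, e, ite_self]
  · exact suppCent_brT S' b x hx s hs

lemma brT_brT (h : S ⊆ S') (b : MonoidAlgebra R G) : brT R S' (brT R S b) = brT R S' b := by
  ext x
  rw [coeff_brT, coeff_brT, coeff_brT]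
  split_ifs with e e'
  · rfl
  · exact absurd (fun s hs => e s (h hs)) e'
  · rfl

lemma brT_mul_left {a : MonoidAlgebra R G} (h : SuppCent S a) (b : MonoidAlgebra R G) :
    brT R S (a * b) = a * brT R S b := by
  ext x
  rw [coeff_brT, coeff_mul_fin, coeff_mul_fin]
  have key : ∀ y, a.coeff y ≠ 0 →
      ((∀ s ∈ S, y⁻¹ * x * s = s * (y⁻¹ * x)) ↔ ∀ s ∈ S, x * s = s * x) := fun y hy => by
    rw [frpg_cent, frpg_cent]
    exact Subgroup.mul_mem_cancel_left _ (Subgroup.inv_mem _ (frpg_cent.1 (h y hy)))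
  split_ifs with e
  · refine Finset.sum_congr rfl fun y _ => ?_
    by_cases hy : a.coeff y = 0
    · rw [hy, zero_mul, zero_mul]
    · rw [coeff_brT, if_pos ((key y hy).2 e)]
  · refine (Finset.sum_eq_zero fun y _ => ?_).symm
    by_cases hy : a.coeff y = 0
    · rw [hy, zero_mul]
    · rw [coeff_brT, if_neg fun e' => e ((key y hy).1 e'), mul_zero]

lemma brT_mul_right {a : MonoidAlgebra R G} (h : SuppCent S a) (b : MonoidAlgebra R G) :
    brT R S (b * a) = brT R S b * a := by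
  ext x
  rw [coeff_brT, coeff_mul_fin, coeff_mul_fin]
  have key : ∀ y, a.coeff (y⁻¹ * x) ≠ 0 →
      ((∀ s ∈ S, y * s = s * y) ↔ ∀ s ∈ S, x * s = s * x) := fun y hy => by
    rw [frpg_cent, frpg_cent, ← Subgroup.mul_mem_cancel_right _ (frpg_cent.1 (h _ hy)),
      mul_inv_cancel_left]
  split_ifs with e
  · refine Finset.sum_congr rfl fun y _ => ?_
    by_cases hy : a.coeff (y⁻¹ * x) = 0
    · rw [hy, mul_zero, mul_zero]
    · rw [coeff_brT, if_pos ((key y hy).2 e)]
  · refine (Finset.sum_eq_zero fun y _ => ?_).symm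
    by_cases hy : a.coeff (y⁻¹ * x) = 0
    · rw [hy, mul_zero]
    · rw [coeff_brT, if_neg fun e' => e ((key y hy).1 e'), zero_mul]

lemma frpg_brT_cj (g : G) (h : ∀ s ∈ S, g * s * g⁻¹ ∈ S') (h' : ∀ s ∈ S', g⁻¹ * s * g ∈ S)
    (b : MonoidAlgebra R G) : brT R S' (cjRep R G g b) = cjRep R G g (brT R S b) := by
  classical
  ext x
  rw [coeff_brT, coeff_cjRep, coeff_cjRep, coeff_brT]
  refine if_congr ⟨fun e s hs => ?_, fun e s hs => ?_⟩ rfl rfl
  · calc g⁻¹ * x * g * s = g⁻¹ * (x * (g * s * g⁻¹)) * g := by group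
      _ = s * (g⁻¹ * x * g) := by rw [e _ (h s hs)]; group
  · calc x * s = g * (g⁻¹ * x * g * (g⁻¹ * s * g)) * g⁻¹ := by group
      _ = s * x := by rw [e _ (h' s hs)]; group

lemma brT_cjRep (g : G) (S : Set G) (b : MonoidAlgebra R G) :
    brT R ((fun x => g * x * g⁻¹) '' S) (cjRep R G g b) = cjRep R G g (brT R S b) := by
  refine frpg_brT_cj g (fun s hs => Set.mem_image_of_mem _ hs) ?_ b
  rintro _ ⟨s, hs, rfl⟩
  simpa [mul_assoc] using hs

/-- Truncation commutes with conjugation by elements that centralise `S`. -/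
lemma brT_fixed {P : Subgroup G} (hP : ∀ u ∈ P, ∀ s ∈ S, u * s = s * u) {b : MonoidAlgebra R G}
    (hb : FixedBy (cjRep R G) P b) : FixedBy (cjRep R G) P (brT R S b) := by
  intro u hu
  rw [← frpg_brT_cj (S' := S) u, hb u hu]
  · intro s hs
    rwa [hP u hu s hs, mul_inv_cancel_right]
  · intro s hs
    rwa [mul_assoc, ← hP u hu s hs, inv_mul_cancel_left]

/-- `perm_fixed_mem`: the difference is a combination of orbit sums of non-fixed elements. -/
lemma sub_brT_mem {P : Subgroup G} {b : MonoidAlgebra R G} (hb : FixedBy (cjRep R G) P b)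
    (W : Submodule R (MonoidAlgebra R G))
    (h : ∀ y, b.coeff y ≠ 0 → ¬ (∀ u ∈ P, y * u = u * y) →
      rtr (cjRep R G) (P ⊓ Subgroup.centralizer {y}) P (single y 1) ∈ W) :
    b - brT R P b ∈ W := by
  refine perm_fixed_mem (cjRep R G) ((MulAut.toPerm G).comp MulAut.conj)
    (fun g y => frpg_cj_single g y) (S := P) ?_ W fun y hy => ?_
  · intro u hu
    rw [map_sub, hb u hu, (tr_fixed_of_suppCent (suppCent_brT (P : Set G) b)) u hu]
  · have e : stabP ((MulAut.toPerm G).comp MulAut.conj) y = Subgroup.centralizer {y} := by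
      ext g
      rw [mem_stabP, Subgroup.mem_centralizer_singleton_iff]
      exact mul_inv_eq_iff_eq_mul
    rw [MonoidAlgebra.coeff_sub, Finsupp.sub_apply, coeff_brT] at hy
    rw [e]
    split_ifs at hy with e'
    · exact absurd (sub_self _) hy
    · exact h y (by rwa [sub_zero] at hy) e'

variable [IsLocalRing R] {p : ℕ} {P : Subgroup G}

/-- The Brauer homomorphism (`pull_mul_brauer` for the inclusion of the centraliser). -/
lemma brT_mul (hp : p.Prime) (hpR : (p : R) ∈ maximalIdeal R) (hP : IsPGroup p P)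
    {b b' : MonoidAlgebra R G} (hb : FixedBy (cjRep R G) P b) (hb' : FixedBy (cjRep R G) P b') :
    InMax R (brT R P (b * b') - brT R P b * brT R P b') := by
  let C := Subgroup.centralizer (P : Set G)
  let _ : Fintype C := Fintype.ofFinite _
  have hr : ∀ g, g ∈ C.subtype.range ↔ ∀ u ∈ P, g * u = u * g := fun g => by
    rw [Subgroup.range_subtype]
    exact frpg_cent.symm
  have e : ∀ a : MonoidAlgebra R G, brT R P a = inc R C.subtype (pull R C.subtype a) := by
    intro a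
    rw [← inc_pull C.subtype_injective (b := brT R P a)
      fun g hg => (hr g).2 (suppCent_brT _ a g hg)]
    congr 1
    ext c
    rw [coeff_pull, coeff_pull, coeff_brT]
    exact if_pos ((hr _).1 ⟨c, rfl⟩)
  have h1 := pull_mul_brauer hp hpR hP C.subtype_injective hr hb hb'
  rw [← map_mul, ← sub_eq_zero, ← map_sub, toRes_eq_zero_iff] at h1
  rw [e, e, e, ← map_mul, ← map_sub]
  exact idem_inMax_map (inc R C.subtype).toLinearMap h1

/-- `rtr_functional_mem`. -/
lemma brT_rtr (hp : p.Prime) (hpR : (p : R) ∈ maximalIdeal R) (hP : IsPGroup p P)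
    {P' : Subgroup G} (h : P' < P) {b : MonoidAlgebra R G} (hb : FixedBy (cjRep R G) P' b) :
    InMax R (brT R P (rtr (cjRep R G) P' P b)) := by
  refine inMax_monoidAlgebra_iff.2 fun x => ?_
  rw [coeff_brT]
  split_ifs with e
  · refine rtr_functional_mem hp h.le le_rfl hP hb (coef R x) (fun u hu a => ?_) _ hpR
      fun g hg h1 => absurd (fun v hv => ?_) (not_le_of_gt h)
    · rw [coef_apply, coef_apply, coeff_cjRep, mul_assoc, e u hu, inv_mul_cancel_left]
    · have := h1 _ (P.mul_mem (P.mul_mem hg hv) (P.inv_mem hg))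
      rwa [show g⁻¹ * (g * v * g⁻¹) * g = v by group] at this
  · exact Submodule.zero_mem _

lemma toRes_brT (S : Set G) (b : MonoidAlgebra R G) :
    toRes R G (brT R S b) = brT (ResidueField R) S (toRes R G b) := by
  ext x
  rw [coeff_toRes, coeff_brT, coeff_brT, coeff_toRes]
  split_ifs
  · rfl
  · exact map_zero _

/-- Lift the coefficients by a fixed section of the residue map sending `0` to `0`. -/
lemma exists_lift_fixed (z : MonoidAlgebra (ResidueField R) G) :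
    ∃ w : MonoidAlgebra R G, toRes R G w = z ∧ (∀ S, SuppCent S z → SuppCent S w) ∧
      ∀ P, FixedBy (cjRep (ResidueField R) G) P z → FixedBy (cjRep R G) P w := by
  classical
  obtain ⟨σ, hσ, h0⟩ : ∃ σ : ResidueField R → R, (∀ c, residue R (σ c) = c) ∧ σ 0 = 0 := by
    choose τ hτ using residue_surjective (R := R)
    refine ⟨fun c => if c = 0 then 0 else τ c, fun c => ?_, if_pos rfl⟩
    by_cases e : c = 0
    · simp only [if_pos e]
      rw [map_zero, e]
    · simp only [if_neg e]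
      exact hτ c
  have hw : ∀ x, (MonoidAlgebra.ofCoeff (z.coeff.mapRange σ h0) : MonoidAlgebra R G).coeff x =
      σ (z.coeff x) := fun x => Finsupp.mapRange_apply (hf := h0)
  refine ⟨MonoidAlgebra.ofCoeff (z.coeff.mapRange σ h0), ?_, fun S hS x hx => ?_,
    fun P hP g hg => ?_⟩
  · ext x
    rw [coeff_toRes, hw, hσ]
  · refine hS x fun e => hx ?_
    rw [hw, e, h0]
  · ext x
    rw [coeff_cjRep, hw, hw, ← coeff_cjRep, hP g hg]

lemma LocPt.toRes {i : MonoidAlgebra R G} (h : LocPt S P i) : LocPt S P (toRes R G i) := by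
  have hn : ∀ x : MonoidAlgebra R G, NilR R x → NilR (ResidueField R) (St.toRes R G x) :=
    fun x hx => nilR_field.2 ((red_toRes G).nilR_iff.1 hx)
  refine ⟨h.le, fun x hx => h.supp x fun e => hx ?_, ?_, fun g hg => ?_, fun z hz hz' => ?_,
    fun P' hP' z hz hz' => ?_, fun e => h.ne (toRes_eq_zero_iff.1 (inMax_field.1 e))⟩
  · rw [coeff_toRes, e, map_zero]
  · rw [← map_mul, h.idem]
  · ext x
    rw [coeff_cjRep, coeff_toRes, coeff_toRes, ← coeff_cjRep, h.fix g hg]
  · obtain ⟨w, rfl, h1, h2⟩ := exists_lift_fixed z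
    obtain ⟨c, hc⟩ := h.loc w (h1 S hz) (h2 P hz')
    refine ⟨residue R c, ?_⟩
    have := hn _ hc
    rwa [map_sub, map_mul, map_mul, (red_toRes G).smul] at this
  · obtain ⟨w, rfl, h1, h2⟩ := exists_lift_fixed z
    have := hn _ (h.nt P' hP' w (h1 S hz) (h2 P' hz'))
    rwa [map_mul, map_mul, toRes_rtr] at this

omit [Fintype G] in
lemma frpg_nilR_cj (g : G) {x : MonoidAlgebra R G} (h : NilR R x) : NilR R (cjRep R G g x) := by
  obtain ⟨n, hn⟩ := h
  exact ⟨n, by rw [← frpg_cj_pow]; exact idem_inMax_map _ hn⟩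

lemma LocPt.conj {i : MonoidAlgebra R G} (h : LocPt S P i) (g : G) :
    LocPt ((fun x => g * x * g⁻¹) '' S) (P.map (MulAut.conj g).toMonoidHom)
      (cjRep R G g i) := by
  have hs : ∀ z : MonoidAlgebra R G, SuppCent ((fun x => g * x * g⁻¹) '' S) z →
      SuppCent S (cjRep R G g⁻¹ z) := fun z hz =>
    frpg_supp_cj hz fun s hs => ⟨s, hs, by rw [inv_inv]⟩
  have hf : ∀ (T : Subgroup G) (z : MonoidAlgebra R G),
      FixedBy (cjRep R G) (T.map (MulAut.conj g).toMonoidHom) z →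
      FixedBy (cjRep R G) T (cjRep R G g⁻¹ z) := fun T z hz =>
    frpg_fix_cj hz fun t ht => ⟨t, ht, by rw [inv_inv]; rfl⟩
  refine ⟨?_, frpg_supp_cj h.supp ?_, by rw [← cjRep_mul, h.idem],
    frpg_fix_cj h.fix fun _ ht => frpg_mem_conj.1 ht, fun z hz hz' => ?_,
    fun P' hP' z hz hz' => ?_, fun e => h.ne ?_⟩
  · rintro _ ⟨u, hu, rfl⟩ _ ⟨s, hs, rfl⟩
    calc g * u * g⁻¹ * (g * s * g⁻¹) = g * (u * s) * g⁻¹ := by group
      _ = g * s * g⁻¹ * (g * u * g⁻¹) := by rw [h.le u hu s hs]; group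
  · rintro _ ⟨s, hs, rfl⟩
    simpa [mul_assoc] using hs
  · obtain ⟨c, hc⟩ := h.loc _ (hs z hz) (hf P z hz')
    refine ⟨c, ?_⟩
    have := frpg_nilR_cj g hc
    rwa [map_sub, map_smul, cjRep_mul, cjRep_mul, frpg_cj_inv] at this
  · obtain ⟨P₀, rfl⟩ : ∃ P₀ : Subgroup G, P₀.map (MulAut.conj g).toMonoidHom = P' :=
      ⟨_, Subgroup.map_comap_eq_self_of_surjective (MulAut.conj g).surjective P'⟩
    have hlt : P₀ < P := (Subgroup.map_lt_map_iff_of_injective (MulAut.conj g).injective).1 hP'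
    have := frpg_nilR_cj g (h.nt P₀ hlt _ (hs z hz) (hf P₀ z hz'))
    rwa [cjRep_mul, cjRep_mul, ← frpg_rtr_conj hlt.le (hf P₀ z hz'), frpg_cj_inv] at this
  · have := idem_inMax_map (cjRep R G g⁻¹) e
    rwa [frpg_inv_cj] at this

end trunc

variable {k G : Type} [Field k] [IsAlgClosed k] [Group G] [Fintype G] {S : Set G} {p : ℕ}
  {P P₁ P₂ : Subgroup G} {i i₁ i₂ : MonoidAlgebra k G}

omit [Fintype G] in
lemma frpg_cent1 {u y : G} (h : u ∈ P ⊓ Subgroup.centralizer {y}) : y * u = u * y :=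
  Subgroup.mem_centralizer_iff.1 (Subgroup.mem_inf.1 h).2 y rfl

omit [IsAlgClosed k] in
lemma LocPt.frpg_le (h : LocPt S P i) : P ≤ Subgroup.centralizer S :=
  fun u hu => frpg_cent.1 (h.le u hu)

omit [IsAlgClosed k] in
lemma LocPt.frpg_not_nil (h : LocPt S P i) : ¬ IsNilpotent i := fun hn =>
  h.ne (inMax_field.2 (IsIdempotentElem.eq_zero_of_isNilpotent h.idem hn))

lemma LocPt.frpg_W (h : LocPt S P i) : ∃ W : Submodule k (MonoidAlgebra k G),
    ∀ x, x ∈ W ↔ x ∈ frpgAlg k S P ∧ NilR k (i * x * i) :=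
  exists_nil_submodule (monicSplit_of_isAlgClosed k) _ h.idem ⟨h.supp, h.fix⟩
    fun z hz => h.loc z hz.1 hz.2

omit [IsAlgClosed k] in
lemma LocPt.frpg_nt (h : LocPt S P i) {P' : Subgroup G} (hP' : P' < P) {z : MonoidAlgebra k G}
    (hz : z ∈ frpgAlg k S P') :
    rtr (cjRep k G) P' P z ∈ frpgAlg k S P ∧ NilR k (i * rtr (cjRep k G) P' P z * i) :=
  ⟨⟨frpg_supp_rtr hz.1 _ h.frpg_le, rtr_fixed hP'.le hz.2⟩, h.nt P' hP' z hz.1 hz.2⟩

/-- If `brT P i = 0` then `i` is a sum of proper traces (`sub_brT_mem`), so it is nilpotent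
(`exists_nil_submodule` for the subalgebra of `P`-fixed elements of `centAlg k S`). -/
lemma LocPt.brT_ne (h : LocPt S P i) : brT k P i ≠ 0 := by
  intro h0
  obtain ⟨W, hW⟩ := h.frpg_W
  have h1 := sub_brT_mem h.fix W fun y hy hy' => (hW _).2 (h.frpg_nt
    (lt_of_le_of_ne inf_le_left fun e => hy' fun u hu => frpg_cent1 (e.ge hu))
    ⟨frpg_supp_single (h.supp y hy), frpg_fix_single P y⟩)
  rw [h0, sub_zero, hW, h.idem, h.idem] at h1
  exact h.frpg_not_nil (nilR_field.1 h1.2)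

omit [IsAlgClosed k] in
lemma frpg_brT_mul (hp : p.Prime) (hpk : (p : k) = 0) (hP : IsPGroup p P)
    {b b' : MonoidAlgebra k G} (hb : FixedBy (cjRep k G) P b) (hb' : FixedBy (cjRep k G) P b') :
    brT k P (b * b') = brT k P b * brT k P b' :=
  sub_eq_zero.1 (inMax_field.1 (brT_mul hp (hpk ▸ Submodule.zero_mem _) hP hb hb'))

omit [IsAlgClosed k] in
lemma frpg_brT_pow (hp : p.Prime) (hpk : (p : k) = 0) (hP : IsPGroup p P)
    {b : MonoidAlgebra k G} (hb : FixedBy (cjRep k G) P b) (n : ℕ) :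
    brT k P (b ^ n) = brT k P b ^ n := by
  induction n with
  | zero => rw [pow_zero, pow_zero, brT_of_suppCent (centAlg k (P : Set G)).one_mem]
  | succ n ih =>
    have h1 : b ^ n ∈ frpgAlg k ∅ P := (frpgAlg k ∅ P).pow_mem
      (show b ∈ frpgAlg k ∅ P from ⟨fun _ _ _ h => h.elim, hb⟩) n
    rw [pow_succ, pow_succ, frpg_brT_mul hp hpk hP h1.2 hb, ih]

omit [IsAlgClosed k] in
lemma frpg_brT_nil (hp : p.Prime) (hpk : (p : k) = 0) (hP : IsPGroup p P)
    {b : MonoidAlgebra k G} (hb : FixedBy (cjRep k G) P b) (hn : NilR k b) :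
    NilR k (brT k P b) := by
  obtain ⟨n, hn⟩ := hn
  exact ⟨n, by rw [← frpg_brT_pow hp hpk hP hb]; exact idem_inMax_map _ hn⟩

/-- `brT k T` is a ring homomorphism on `T`-fixed elements, and the identity on `centAlg k (S ∪ T)`. -/
lemma LocPt.brauer (hp : p.Prime) (hpk : (p : k) = 0) (hP : IsPGroup p P) (h : LocPt S P i)
    {T : Subgroup G} (hT : T ≤ P) (hc : ∀ u ∈ P, ∀ t ∈ T, u * t = t * u) :
    LocPt (S ∪ T) P (brT k T i) := by
  have hTp : IsPGroup p T := hP.to_le hT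
  have hi : i ∈ frpgAlg k S P := ⟨h.supp, h.fix⟩
  have hres : ∀ z ∈ frpgAlg k S P, FixedBy (cjRep k G) T z := fun z hz g hg => hz.2 g (hT hg)
  have hle : ∀ u ∈ P, ∀ s ∈ S ∪ T, u * s = s * u := fun u hu s hs =>
    hs.elim (h.le u hu s) (hc u hu s)
  have key : ∀ z ∈ frpgAlg k (S ∪ T) P, z ∈ frpgAlg k S P ∧
      brT k T (i * z * i) = brT k T i * z * brT k T i := fun z hz => by
    have h1 : z ∈ frpgAlg k S P := ⟨fun x hx s hs => hz.1 x hx s (Or.inl hs), hz.2⟩
    refine ⟨h1, ?_⟩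
    rw [frpg_brT_mul hp hpk hTp (hres _ (mul_mem hi h1)) (hres _ hi),
      brT_mul_right fun x hx s hs => hz.1 x hx s (Or.inr hs)]
  refine ⟨hle, h.supp.brT _, ?_, brT_fixed hc h.fix, fun z hz hz' => ?_,
    fun P' hP' z hz hz' => ?_, fun e => h.brT_ne ?_⟩
  · rw [← frpg_brT_mul hp hpk hTp (hres _ hi) (hres _ hi), h.idem]
  · obtain ⟨h1, h2⟩ := key z ⟨hz, hz'⟩
    obtain ⟨c, hc⟩ := h.loc z h1.1 h1.2
    have := frpg_brT_nil hp hpk hTp
      (hres _ (sub_mem (mul_mem (mul_mem hi h1) hi) (Subalgebra.smul_mem _ hi c))) hc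
    rw [map_sub, map_smul, h2] at this
    exact ⟨c, this⟩
  · obtain ⟨h1, h2⟩ := key (rtr (cjRep k G) P' P z)
      ⟨frpg_supp_rtr hz _ fun u hu => frpg_cent.1 (hle u hu), rtr_fixed hP'.le hz'⟩
    rw [← h2]
    exact frpg_brT_nil hp hpk hTp (hres _ (mul_mem (mul_mem hi h1) hi))
      (h.nt P' hP' z (fun x hx s hs => hz x hx s (Or.inl hs)) hz')
  · rw [← brT_brT (S := T) hT, inMax_field.1 e, map_zero]

/-- A central idempotent of `centAlg k S` acts on `i` as `0` or `1` (`idem_dichotomy`). -/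
lemma LocPt.central_idem (h : LocPt S P i) {f : MonoidAlgebra k G} (hf : f * f = f)
    (hs : SuppCent S f) (hc : ∀ b, SuppCent S b → f * b = b * f) : f * i = 0 ∨ f * i = i := by
  have hi : i ∈ frpgAlg k S P := ⟨h.supp, h.fix⟩
  have hf' : f ∈ frpgAlg k S P := ⟨hs, fun g hg => frpg_fix_of_comm hc g (h.frpg_le hg)⟩
  refine idem_dichotomy (monicSplit_of_isAlgClosed k) (frpgAlg k S P) h.idem hi
    (fun z hz => h.loc z hz.1 hz.2) (mul_mem hf' hi) ?_ ?_
  · rw [mul_assoc, ← mul_assoc i, ← hc i h.supp, mul_assoc, h.idem, ← mul_assoc, hf]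
  · rw [← mul_assoc i, ← hc i h.supp, mul_assoc f, h.idem, mul_assoc, h.idem]

/-- Take a primitive idempotent `j` of `centAlg k P` below `f` (`exists_minimal_idem`,
`exists_scalar_of_primitive`), and `exists_min_idem` for the `P`-fixed elements and the kernel of
`brT k P`. -/
lemma exists_locPt (hp : p.Prime) (hpk : (p : k) = 0) (hP : IsPGroup p P)
    {f : MonoidAlgebra k G} (hf : f * f = f) (hs : SuppCent (P : Set G) f) (h0 : f ≠ 0) :
    ∃ i : MonoidAlgebra k G, LocPt ∅ P i ∧ brT k P i * f = brT k P i := by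
  obtain ⟨j, hj, ⟨hjs, hj0, hjf, hfj⟩, hmin⟩ := exists_minimal_idem (R := k)
    (fun π : MonoidAlgebra k G => SuppCent (P : Set G) π ∧ π ≠ 0 ∧ π * f = π ∧ f * π = π) hf
    ⟨hs, h0, hf, hf⟩
  have hsc : ∀ z, SuppCent (P : Set G) z → ∃ c : k, IsNilpotent (j * z * j - c • j) := by
    intro z hz
    let j' : centAlg k (P : Set G) := ⟨j, hjs⟩
    have hj' : j' * j' = j' := Subtype.ext hj
    have hpr : ∀ ε : centAlg k (P : Set G), IsIdempotentElem ε → j' * ε = ε → ε * j' = ε →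
        ε = 0 ∨ ε = j' := by
      intro ε hε h1 h2
      have h1' : j * ε.1 = ε.1 := congrArg Subtype.val h1
      have h2' : ε.1 * j = ε.1 := congrArg Subtype.val h2
      by_cases e : ε = 0
      · exact Or.inl e
      · refine Or.inr (Subtype.ext (hmin ε.1 (congrArg Subtype.val hε.eq)
          ⟨ε.2, fun e' => e (Subtype.ext e'), ?_, ?_⟩ h1' h2'))
        · rw [← h2', mul_assoc, hjf]
        · rw [← h1', ← mul_assoc, hfj]
    obtain ⟨c, hc⟩ := exists_scalar_of_primitive (monicSplit_of_isAlgClosed k) (j := j') hj'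
      hpr (y := j' * ⟨z, hz⟩ * j') (by rw [← mul_assoc, ← mul_assoc, hj'])
      (by rw [mul_assoc, hj'])
    exact ⟨c, (nilR_field.1 hc).map (centAlg k (P : Set G)).val⟩
  have he : ∀ z : MonoidAlgebra k G, SuppCent ∅ z := fun _ _ _ _ h => h.elim
  have hjΛ : j ∈ frpgAlg k ∅ P := ⟨he _, tr_fixed_of_suppCent hjs⟩
  obtain ⟨ε, hε, h1, h2, h3, h4, h5, h6⟩ := exists_min_idem (monicSplit_of_isAlgClosed k)
    (frpgAlg k ∅ P) ((frpgAlg k ∅ P).toSubmodule ⊓ LinearMap.ker (brT k P)) (fun x hx => hx.1)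
    (fun a ha x hx => ⟨(frpgAlg k ∅ P).mul_mem ha hx.1, by
      change brT k P (a * x) = 0
      rw [frpg_brT_mul hp hpk hP ha.2 hx.1.2, show brT k P x = 0 from hx.2, mul_zero]⟩)
    (fun a ha x hx => ⟨(frpgAlg k ∅ P).mul_mem hx.1 ha, by
      change brT k P (x * a) = 0
      rw [frpg_brT_mul hp hpk hP hx.1.2 ha.2, show brT k P x = 0 from hx.2, zero_mul]⟩)
    hj hjΛ (fun z hz => by
      obtain ⟨c, N, hN⟩ := hsc _ (suppCent_brT (P : Set G) z)
      have hm : j * z * j - c • j ∈ frpgAlg k ∅ P :=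
        sub_mem (mul_mem (mul_mem hjΛ hz) hjΛ) (Subalgebra.smul_mem _ hjΛ c)
      refine ⟨c, N, (frpgAlg k ∅ P).pow_mem hm _, ?_⟩
      change brT k (P : Set G) _ = 0
      rw [frpg_brT_pow hp hpk hP hm.2, map_sub, map_smul, brT_mul_right hjs, brT_mul_left hjs,
        brT_of_suppCent hjs, pow_succ, hN, zero_mul])
  have h7 : brT k P ε = j := by
    have : brT k P (j - ε) = 0 := h4.2
    rw [map_sub, brT_of_suppCent hjs, sub_eq_zero] at this
    exact this.symm
  refine ⟨ε, ⟨fun _ _ _ h => h.elim, he _, h1, hε.2, fun z hz hz' => h6 z ⟨hz, hz'⟩,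
    fun P' hP' z _ hz' => h5 _ ⟨⟨he _, rtr_fixed hP'.le hz'⟩,
      inMax_field.1 (brT_rtr hp (hpk ▸ Submodule.zero_mem _) hP hP' hz')⟩, fun e => hj0 ?_⟩,
    by rw [h7, hjf]⟩
  rw [← h7, inMax_field.1 e, map_zero]

/-- The Mackey step. -/
lemma LocPt.frpg_mackey (h : LocPt S P i) {T : Subgroup G} (hT : T ≤ Subgroup.centralizer S)
    {m : MonoidAlgebra k G} (hm : m ∈ frpgAlg k S T)
    (hn : ¬ NilR k (i * rtr (cjRep k G) T (Subgroup.centralizer S) m * i)) :
    ∃ g ∈ Subgroup.centralizer S, P ≤ T.map (MulAut.conj g).toMonoidHom ∧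
      ¬ NilR k (i * cjRep k G g m * i) := by
  obtain ⟨W, hW⟩ := h.frpg_W
  by_contra hcon
  refine hn ((hW _).1 (mackey_mem hT h.frpg_le hm.2 W.toAddSubgroup fun g hg => (hW _).2 ?_)).2
  have h1 : cjRep k G g m ∈ frpgAlg k S (P ⊓ T.map (MulAut.conj g).toMonoidHom) :=
    ⟨frpg_supp_cj' hm.1 hg, fixedBy_conj hm.2 g⟩
  by_cases e : P ≤ T.map (MulAut.conj g).toMonoidHom
  · rw [inf_eq_left.2 e] at h1 ⊢
    rw [rtr_self h1.2]
    exact ⟨h1, by_contra fun e' => hcon ⟨g, hg, e, e'⟩⟩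
  · exact h.frpg_nt (inf_lt_left.2 e) h1

omit [IsAlgClosed k] in
lemma LocPt.frpg_central (h : LocPt S P i) {T : Subgroup G} (hT : T ≤ Subgroup.centralizer S)
    {m : MonoidAlgebra k G} (hm : FixedBy (cjRep k G) T m) :
    i * rtr (cjRep k G) T (Subgroup.centralizer S) m * i =
      rtr (cjRep k G) T (Subgroup.centralizer S) m * i := by
  rw [← frpg_comm (rtr_fixed hT hm) h.supp, mul_assoc, h.idem]

/-- A subgroup of minimal order with a trace that is not nilpotent on `i`. -/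
lemma LocPt.frpg_small (hp : p.Prime) (hpk : (p : k) = 0) (h : LocPt S P i)
    {f : MonoidAlgebra k G} (hc : ∀ b, SuppCent S b → f * b = b * f) (hs : SuppCent S f)
    (hfi : f * i = i)
    (hb : ∀ y, f.coeff y ≠ 0 → ∀ T : Subgroup G, IsPGroup p T → (∀ t ∈ T, t * y = y * t) →
      Nat.card T ≤ Nat.card P) :
    ∃ T ≤ Subgroup.centralizer S, Nat.card T ≤ Nat.card P ∧ ∃ a ∈ frpgAlg k S T,
      ¬ NilR k (i * rtr (cjRep k G) T (Subgroup.centralizer S) a * i) := by
  obtain ⟨W, hW⟩ := h.frpg_W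
  have hmem : ∀ T ≤ Subgroup.centralizer S, ∀ a ∈ frpgAlg k S T,
      rtr (cjRep k G) T (Subgroup.centralizer S) a ∈ frpgAlg k S P := fun T hT a ha =>
    ⟨frpg_supp_rtr ha.1 _ le_rfl, fun g hg => rtr_fixed hT ha.2 g (h.frpg_le hg)⟩
  obtain ⟨T, ⟨hT, a, ha, hn⟩, hmin⟩ := (wellFounded_lt (α := Subgroup G)).has_min
    {T | T ≤ Subgroup.centralizer S ∧ ∃ a ∈ frpgAlg k S T,
      rtr (cjRep k G) T (Subgroup.centralizer S) a ∉ W} ⟨_, le_rfl, 1, one_mem _, by
      rw [rtr_self (frpgAlg k S _).one_mem.2, hW, mul_one, h.idem, nilR_field]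
      exact fun e => h.frpg_not_nil e.2⟩
  have hlt : ∀ T' < T, ∀ a ∈ frpgAlg k S T',
      rtr (cjRep k G) T' (Subgroup.centralizer S) a ∈ W := fun T' hT' a ha =>
    by_contra fun e => hmin T' ⟨hT'.le.trans hT, a, ha, e⟩ hT'
  have hTp : IsPGroup p T := by
    have := Fact.mk hp
    obtain ⟨Q⟩ : Nonempty (Sylow p T) := inferInstance
    have hle : (Q : Subgroup T).map T.subtype ≤ T := Subgroup.map_subtype_le _
    rcases hle.lt_or_eq with e | e
    · have hi : ((Q : Subgroup T).map T.subtype).relIndex T = (Q : Subgroup T).index := by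
        rw [Subgroup.relIndex, Subgroup.subgroupOf,
          Subgroup.comap_map_eq_self_of_injective T.subtype_injective]
      obtain ⟨c, hc⟩ := (bouc_unit (R := k) hp (hpk ▸ Submodule.zero_mem _)
        (hi ▸ Q.not_dvd_index)).exists_left_inv
      have ha' : FixedBy (cjRep k G) ((Q : Subgroup T).map T.subtype) a :=
        fun g hg => ha.2 g (hle hg)
      have h1 := W.smul_mem c (hlt _ e a ⟨ha.1, ha'⟩)
      rw [← rtr_trans hle hT ha', rtr_of_fixed hle ha.2, ← Nat.cast_smul_eq_nsmul k, map_smul,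
        smul_smul, hc, one_smul] at h1
      exact absurd h1 hn
    · rw [← e]
      exact Q.isPGroup'.map T.subtype
  refine ⟨T, hT, ?_, a, ha, fun e => hn ((hW _).2 ⟨hmem T hT a ha, e⟩)⟩
  by_contra hcard
  have hf := frpg_fix_of_comm hc
  have h0 : brT k T f = 0 := by
    ext y
    rw [coeff_brT]
    split_ifs with e
    · by_contra e'
      exact hcard (hb y e' T hTp fun t ht => (e t ht).symm)
    · rfl
  have h1 := sub_brT_mem (P := T) (fun g hg => hf g (hT hg))
    (W.comap (rtr (cjRep k G) T (Subgroup.centralizer S) ∘ₗ LinearMap.mulLeft k a))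
    fun y hy hy' => by
      have h2 : a * single y 1 ∈ frpgAlg k S (T ⊓ Subgroup.centralizer {y}) :=
        mul_mem ⟨ha.1, fun g hg => ha.2 g hg.1⟩ ⟨frpg_supp_single (hs y hy), frpg_fix_single T y⟩
      change rtr (cjRep k G) T (Subgroup.centralizer S) (a * _) ∈ W
      rw [(mul_rtr_cj ha.2 _).1, rtr_trans inf_le_left hT h2.2]
      exact hlt _ (lt_of_le_of_ne inf_le_left fun e => hy' fun u hu => frpg_cent1 (e.ge hu)) _ h2
  rw [h0, sub_zero] at h1
  change rtr (cjRep k G) T (Subgroup.centralizer S) (a * f) ∈ W at h1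
  rw [← (mul_rtr_cj hf _).2, hW, mul_assoc, mul_assoc, hfi, ← mul_assoc] at h1
  exact hn ((hW _).2 ⟨hmem T hT a ha, h1.2⟩)

/-- Let `C` be the centraliser of `S`.  Take `T ≤ C` of minimal order such that
`rtr T C a * i` is not nilpotent for some `T`-fixed `a` supported on `C` (`T = C`, `a = 1` works).
Central elements of `centAlg k S` that are nilpotent on `i` are closed under sums.  `T` is a
`p`-group (pass to a Sylow subgroup).  `brT T f ≠ 0`, else `f` is a sum of proper traces and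
`rtr T C (a f)` too; so `|T| ≤ |P|`.  Take a minimal `T`-fixed idempotent `j` such that
`rtr T C (a j) * i` is not nilpotent for some `a`; it is primitive among `T`-fixed idempotents.
Mackey (`mackey_mem`) gives `g ∈ C` with `P ≤ g T g⁻¹` and `i (g a j g⁻¹) i` not nilpotent, so
`P = g T g⁻¹`.  With `j' = g j g⁻¹`, `α = w i a' j'`, `β = j' i`: `α β = i`, and `β α = j'` by
primitivity, so `a' j' = (a' β) i α`. -/
theorem LocPt.exists_trace (hp : p.Prime) (hpk : (p : k) = 0) (h : LocPt S P i)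
    {f : MonoidAlgebra k G} (hs : SuppCent S f) (hc : ∀ b, SuppCent S b → f * b = b * f)
    (hfi : f * i = i)
    (hb : ∀ y, f.coeff y ≠ 0 → ∀ T : Subgroup G, IsPGroup p T → (∀ t ∈ T, t * y = y * t) →
      Nat.card T ≤ Nat.card P) :
    ∃ a a', SuppCent S a ∧ SuppCent S a' ∧ FixedBy (cjRep k G) P a ∧ FixedBy (cjRep k G) P a' ∧
      ¬ IsNilpotent (rtr (cjRep k G) P (Subgroup.centralizer S) (a * i * a') * i) := by
  obtain ⟨W, hW⟩ := h.frpg_W
  obtain ⟨T, hT, hcard, a₀, ha₀, hn₀⟩ := h.frpg_small hp hpk hc hs hfi hb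
  have hmem : ∀ a ∈ frpgAlg k S T,
      rtr (cjRep k G) T (Subgroup.centralizer S) a ∈ frpgAlg k S P := fun a ha =>
    ⟨frpg_supp_rtr ha.1 _ le_rfl, fun g hg => rtr_fixed hT ha.2 g (h.frpg_le hg)⟩
  obtain ⟨j, hj, ⟨hjΛ, a, ha, hn⟩, hmin⟩ := exists_minimal_idem (R := k)
    (fun π : MonoidAlgebra k G => π ∈ frpgAlg k S T ∧ ∃ a ∈ frpgAlg k S T,
      rtr (cjRep k G) T (Subgroup.centralizer S) (a * π) ∉ W) (mul_one 1)
    ⟨one_mem _, a₀, ha₀, fun e => hn₀ (by rw [mul_one, hW] at e; exact e.2)⟩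
  have hprim : ∀ ε ∈ frpgAlg k S T, ε * ε = ε → j * ε = ε → ε * j = ε → ε = 0 ∨ ε = j := by
    intro ε hε h1 h2 h3
    by_cases e : rtr (cjRep k G) T (Subgroup.centralizer S) (a * ε) ∈ W
    · refine Or.inl (sub_eq_self.1 (hmin (j - ε) ?_ ⟨sub_mem hjΛ hε, a, ha, fun e' => hn ?_⟩ ?_ ?_))
      · rw [mul_sub, sub_mul, sub_mul, hj, h1, h2, h3, sub_self, sub_zero]
      · have := W.add_mem e e'
        rwa [← map_add, ← mul_add, add_sub_cancel] at this
      · rw [mul_sub, hj, h2]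
      · rw [sub_mul, hj, h3]
    · exact Or.inr (hmin ε h1 ⟨hε, a, ha, e⟩ h2 h3)
  have haj := mul_mem ha hjΛ
  have hn' : ¬ NilR k (i * rtr (cjRep k G) T (Subgroup.centralizer S) (a * j) * i) :=
    fun e => hn ((hW _).2 ⟨hmem _ haj, e⟩)
  obtain ⟨g, hg, hle, hng⟩ := h.frpg_mackey hT haj hn'
  have hPT : P = T.map (MulAut.conj g).toMonoidHom := Subgroup.eq_of_le_of_card_ge hle (by
    rwa [Subgroup.card_map_of_injective (MulAut.conj g).injective])
  have hcj : ∀ x ∈ frpgAlg k S T, cjRep k G g x ∈ frpgAlg k S P := fun x hx =>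
    ⟨frpg_supp_cj' hx.1 hg, frpg_fix_cj hx.2 fun t ht => frpg_mem_conj.1 (hle ht)⟩
  have hi : i ∈ frpgAlg k S P := ⟨h.supp, h.fix⟩
  obtain ⟨w, hw, -, hw1, -⟩ := exists_inv_of_not_nil (monicSplit_of_isAlgClosed k)
    (frpgAlg k S P) h.idem hi (fun z hz => h.loc z hz.1 hz.2) (hcj _ haj) hng
  rw [cjRep_mul] at hw1
  set a' := cjRep k G g a with ha'
  set j' := cjRep k G g j with hj'
  have hjj : j' * j' = j' := by rw [hj', ← cjRep_mul, hj]
  have hα : w * i * a' * j' ∈ frpgAlg k S P :=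
    mul_mem (mul_mem (mul_mem hw hi) (hcj a ha)) (hcj j hjΛ)
  have hβ : j' * i ∈ frpgAlg k S P := mul_mem (hcj j hjΛ) hi
  have hαβ : w * i * a' * j' * (j' * i) = i := by
    rw [← mul_assoc, mul_assoc _ j' j', hjj]
    simpa only [mul_assoc] using hw1
  have hβα : j' * i * (w * i * a' * j') = j' := by
    have hm := mul_mem hβ hα
    have hq := hprim (cjRep k G g⁻¹ (j' * i * (w * i * a' * j'))) ⟨frpg_supp_cj' hm.1 (inv_mem hg),
      frpg_fix_cj hm.2 fun t ht => hPT ▸ ⟨t, ht, by rw [inv_inv]; rfl⟩⟩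
      (by rw [← cjRep_mul, mul_assoc, ← mul_assoc (w * i * a' * j'), hαβ, ← mul_assoc,
        mul_assoc j', h.idem])
      (by rw [← frpg_inv_cj g j, ← cjRep_mul, ← hj', ← mul_assoc j', ← mul_assoc j', hjj])
      (by rw [← frpg_inv_cj g j, ← cjRep_mul, ← hj', mul_assoc, mul_assoc _ j' j', hjj])
    rcases hq with e | e
    · have e' := congrArg (cjRep k G g) e
      rw [frpg_cj_inv, map_zero] at e'
      refine absurd ⟨1, ?_⟩ h.frpg_not_nil
      rw [pow_one, ← h.idem]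
      nth_rewrite 1 [← hαβ]
      nth_rewrite 3 [← hαβ]
      rw [mul_assoc, ← mul_assoc (j' * i), e', zero_mul, mul_zero]
    · have e' := congrArg (cjRep k G g) e
      rwa [frpg_cj_inv] at e'
  have h1 := mul_mem (hcj a ha) hβ
  refine ⟨a' * (j' * i), w * i * a' * j', h1.1, hα.1, h1.2, hα.2, fun e => hn' ?_⟩
  have h2 : a' * (j' * i) * i * (w * i * a' * j') = cjRep k G g (a * j) := by
    rw [cjRep_mul, mul_assoc a', mul_assoc j', h.idem, mul_assoc a', hβα]
  have h3 : (Subgroup.centralizer S).map (MulAut.conj g).toMonoidHom = Subgroup.centralizer S := by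
    ext x
    rw [frpg_mem_conj, Subgroup.mul_mem_cancel_right _ hg,
      Subgroup.mul_mem_cancel_left _ (inv_mem hg)]
  have h4 := frpg_rtr_conj hT haj.2 g
  rw [h3, ← hPT, rtr_fixed hT haj.2 g hg] at h4
  rw [h2, h4] at e
  rw [h.frpg_central hT haj.2]
  exact nilR_field.2 e

omit [IsAlgClosed k] [Fintype G] in
lemma frpg_kill {z x : MonoidAlgebra k G} {c : k} (hc : c ≠ 0) {M : ℕ}
    (h2 : (z - c • 1) ^ M * x = 0) {L : ℕ} (h1 : z ^ L * x = 0) : x = 0 := by
  induction L with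
  | zero => simpa using h1
  | succ L ih =>
    refine ih ?_
    have h3 : ∀ n : ℕ, (z - c • 1) ^ n * (z ^ L * x) = (-c) ^ n • (z ^ L * x) := by
      intro n
      induction n with
      | zero => simp
      | succ n ih' =>
        rw [pow_succ, mul_assoc, sub_mul, ← mul_assoc z, ← pow_succ', h1, smul_mul_assoc, one_mul,
          zero_sub, ← neg_smul, mul_smul_comm, ih', smul_smul, pow_succ']
    have h4 : Commute ((z - c • 1) ^ M) (z ^ L) :=
      (((Commute.refl z).sub_left ((Commute.one_left z).smul_left c)).pow_left M).pow_right L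
    have h5 := h3 M
    rw [← mul_assoc, h4.eq, mul_assoc, h2, mul_zero] at h5
    exact (smul_eq_zero.1 h5.symm).resolve_left (pow_ne_zero _ (neg_ne_zero.2 hc))

omit [IsAlgClosed k] [Fintype G] in
lemma frpg_pow_idem {z i : MonoidAlgebra k G} (hi : i * i = i) (hc : z * i = i * z)
    (hn : IsNilpotent (z * i)) : ∃ n, z ^ n * i = 0 := by
  obtain ⟨n, hn⟩ := hn
  refine ⟨n + 1, ?_⟩
  rw [← IsIdempotentElem.pow_succ_eq n hi, ← Commute.mul_pow hc, pow_succ, hn, zero_mul]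

/-- `z = rtr P₂ C (a i₂ a')` is central in `centAlg k S`; `(z - c₁) ^ N i₁ = 0` and
`(z - c₂) ^ N i₂ = 0` with `c₂ ≠ 0`; both kill `i₁ b i₂ ≠ 0`, so `c₁ = c₂` and `z i₁` is not
nilpotent.  Mackey gives `g`; the term `i₁ g (a i₂ a') g⁻¹ i₁` is a unit of the corner. -/
theorem LocPt.exists_conj (h₁ : LocPt S P₁ i₁) (h₂ : LocPt S P₂ i₂) {b : MonoidAlgebra k G}
    (hb : SuppCent S b) (h0 : i₁ * b * i₂ ≠ 0) {a a' : MonoidAlgebra k G} (ha : SuppCent S a)
    (ha' : SuppCent S a') (hf : FixedBy (cjRep k G) P₂ a) (hf' : FixedBy (cjRep k G) P₂ a')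
    (hn : ¬ IsNilpotent (rtr (cjRep k G) P₂ (Subgroup.centralizer S) (a * i₂ * a') * i₂)) :
    ∃ g ∈ Subgroup.centralizer S, P₁ ≤ P₂.map (MulAut.conj g).toMonoidHom ∧
      ∃ c c', FixedBy (cjRep k G) P₁ c ∧ FixedBy (cjRep k G) P₁ c' ∧
        i₁ * c * cjRep k G g i₂ * c' = i₁ := by
  have hm : a * i₂ * a' ∈ frpgAlg k S P₂ :=
    mul_mem (mul_mem ⟨ha, hf⟩ ⟨h₂.supp, h₂.fix⟩) ⟨ha', hf'⟩
  have hz := rtr_fixed h₂.frpg_le hm.2
  have hzs := frpg_supp_rtr hm.1 P₂ le_rfl
  have hn₁ : ¬ NilR k (i₁ * rtr (cjRep k G) P₂ (Subgroup.centralizer S) (a * i₂ * a') * i₁) := by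
    rw [h₁.frpg_central h₂.frpg_le hm.2, nilR_field]
    intro e
    obtain ⟨c, hc⟩ := h₂.loc _ hzs fun g hg => hz g (h₂.frpg_le hg)
    rw [h₂.frpg_central h₂.frpg_le hm.2, nilR_field] at hc
    set z := rtr (cjRep k G) P₂ (Subgroup.centralizer S) (a * i₂ * a')
    have hcm : ∀ x, SuppCent S x → Commute (z - c • 1) x := fun x hx =>
      Commute.sub_left (frpg_comm hz hx) ((Commute.one_left x).smul_left c)
    obtain ⟨L, hL⟩ := frpg_pow_idem h₁.idem (frpg_comm hz h₁.supp) e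
    obtain ⟨M, hM⟩ := frpg_pow_idem h₂.idem (hcm _ h₂.supp)
      (by rwa [sub_mul, smul_mul_assoc, one_mul])
    refine h0 (frpg_kill (z := z) (c := c) (M := M) (L := L) (fun e' => hn ?_) ?_ ?_)
    · rwa [e', zero_smul, sub_zero] at hc
    · rw [← mul_assoc, ((hcm _ ((centAlg k S).mul_mem h₁.supp hb)).pow_left M).eq, mul_assoc, hM,
        mul_zero]
    · rw [← mul_assoc, ← mul_assoc, hL, zero_mul, zero_mul]
  obtain ⟨g, hg, hle, hng⟩ := h₁.frpg_mackey h₂.frpg_le hm hn₁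
  have hcj : ∀ x ∈ frpgAlg k S P₂, cjRep k G g x ∈ frpgAlg k S P₁ := fun x hx =>
    ⟨frpg_supp_cj' hx.1 hg, frpg_fix_cj hx.2 fun t ht => frpg_mem_conj.1 (hle ht)⟩
  have hi : i₁ ∈ frpgAlg k S P₁ := ⟨h₁.supp, h₁.fix⟩
  obtain ⟨w, hw, hw0, hw1, -⟩ := exists_inv_of_not_nil (monicSplit_of_isAlgClosed k)
    (frpgAlg k S P₁) h₁.idem hi (fun z hz => h₁.loc z hz.1 hz.2) (hcj _ hm) hng
  refine ⟨g, hg, hle, w * i₁ * cjRep k G g a, cjRep k G g a' * i₁,
    (mul_mem (mul_mem hw hi) (hcj a ⟨ha, hf⟩)).2, (mul_mem (hcj a' ⟨ha', hf'⟩) hi).2, ?_⟩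
  rw [cjRep_mul, cjRep_mul] at hw1
  have h1 := congrArg (i₁ * ·) hw1
  simp only [h₁.idem] at h1
  simpa only [mul_assoc] using h1

end Pool.Agent.Lib.MP_b6945b_al.St
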