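import Pool.Agent.Lib.MP_b6945b_al.St.FrI1

set_option autoImplicit false

/-!
Reduction modulo the maximal ideal.
-/

namespace Pool.Agent.Lib.MP_b6945b_al.St

open IsLocalRing
open MonoidAlgebra (single)

variable {R : Type} [CommRing R] [IsLocalRing R]

variable (R) in
/-- `τ` is the reduction of `M` modulo the maximal ideal. -/
structure Red {M N : Type} [AddCommGroup M] [Module R M] [AddCommGroup N]
    [Module (ResidueField R) N] (τ : M → N) : Prop where
  add : ∀ x y, τ (x + y) = τ x + τ y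
  smul : ∀ (r : R) x, τ (r • x) = residue R r • τ x
  surj : Function.Surjective τ
  ker : ∀ x, τ x = 0 ↔ InMax R x

section modules

variable {M N M' N' : Type} [AddCommGroup M] [Module R M] [AddCommGroup N]
  [Module (ResidueField R) N] [AddCommGroup M'] [Module R M'] [AddCommGroup N']
  [Module (ResidueField R) N'] {τ : M → N} {τ' : M' → N'}

/-- The reduction as a semilinear map. -/
def Red.sl (h : Red R τ) : M →ₛₗ[residue R] N where
  toFun := τ
  map_add' := h.add
  map_smul' := h.smul

lemma Red.map_zero (h : Red R τ) : τ 0 = 0 := h.sl.map_zero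

lemma Red.map_sum (h : Red R τ) {ι : Type} (s : Finset ι) (x : ι → M) :
    τ (∑ i ∈ s, x i) = ∑ i ∈ s, τ (x i) := by
  exact _root_.map_sum h.sl x s

lemma Red.map_sub (h : Red R τ) (x y : M) : τ (x - y) = τ x - τ y := by
  exact _root_.map_sub h.sl x y

lemma Red.finite [Module.Finite R M] (h : Red R τ) : Module.Finite (ResidueField R) N := by
  exact Module.Finite.of_surjective h.sl h.surj

lemma Red.descend (h : Red R τ) (h' : Red R τ') (f : M →ₗ[R] M') :
    ∃ g : N →ₗ[ResidueField R] N', ∀ x, g (τ x) = τ' (f x) := by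
  have key : ∀ x, τ' (f (Function.surjInv h.surj (τ x))) = τ' (f x) := fun x => by
    rw [← sub_eq_zero, ← h'.map_sub, ← _root_.map_sub, h'.ker]
    refine idem_inMax_map f ((h.ker _).1 ?_)
    rw [h.map_sub, Function.surjInv_eq h.surj, sub_self]
  refine ⟨⟨⟨fun n => τ' (f (Function.surjInv h.surj n)), fun a b => ?_⟩, fun c a => ?_⟩, key⟩
  · obtain ⟨a, rfl⟩ := h.surj a
    obtain ⟨b, rfl⟩ := h.surj b
    rw [← h.add, key, key, key, map_add, h'.add]
  · obtain ⟨a, rfl⟩ := h.surj a
    obtain ⟨c, rfl⟩ := residue_surjective c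
    change τ' (f _) = residue R c • τ' (f _)
    rw [← h.smul, key, key, map_smul, h'.smul]

/-- Choose a basis of `M` and lift the images. -/
lemma Red.lift [Module.Free R M] (h : Red R τ) (h' : Red R τ') (g : N →ₗ[ResidueField R] N') :
    ∃ f : M →ₗ[R] M', ∀ x, g (τ x) = τ' (f x) := by
  let b := Module.Free.chooseBasis R M
  choose y hy using fun i => h'.surj (g (τ (b i)))
  refine ⟨b.constr R y, fun x => ?_⟩
  induction b.mem_span x using Submodule.span_induction with
  | mem x hx =>
    obtain ⟨i, rfl⟩ := hx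
    rw [b.constr_basis, hy]
  | zero => rw [h.map_zero, _root_.map_zero, _root_.map_zero, h'.map_zero]
  | add x y _ _ hx hy => rw [h.add, map_add, map_add, h'.add, hx, hy]
  | smul c x _ hx => rw [h.smul, map_smul, map_smul, h'.smul, hx]

lemma Red.map_rtr {Γ : Type} [Group Γ] [Fintype Γ] (h : Red R τ) {ρ : Representation R Γ M}
    {σ : Representation (ResidueField R) Γ N} (hρ : ∀ g x, τ (ρ g x) = σ g (τ x))
    (S T : Subgroup Γ) (m : M) : τ (rtr ρ S T m) = rtr σ S T (τ m) := by
  rw [tr_apply, tr_apply, h.map_sum]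
  refine Finset.sum_congr rfl fun q _ => ?_
  split_ifs
  · exact hρ _ _
  · exact h.map_zero

lemma red_residue : Red R (residue R) := by
  refine ⟨map_add _, fun r x => map_mul _ r x, residue_surjective, fun x => ?_⟩
  rw [residue_eq_zero_iff, InMax, smul_eq_mul, Ideal.mul_top]

lemma red_toRes (G : Type) [Group G] : Red R (toRes R G) := by
  refine ⟨map_add _, fun r x => ?_, toRes_surjective, fun x => toRes_eq_zero_iff⟩
  ext g
  simp [coeff_toRes]

lemma Red.matrix (h : Red R τ) (κ κ' : Type) [Fintype κ] [Fintype κ'] :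
    Red R (fun x : Matrix κ κ' M => x.map τ) := by
  classical
  refine ⟨fun x y => Matrix.ext fun i j => h.add _ _, fun r x => Matrix.ext fun i j => h.smul _ _,
    fun y => ⟨y.map (Function.surjInv h.surj), Matrix.ext fun i j => Function.surjInv_eq h.surj _⟩,
    fun x => ⟨fun hx => ?_, fun hx => Matrix.ext fun i j => ?_⟩⟩
  · rw [Matrix.matrix_eq_sum_single x]
    refine Submodule.sum_mem _ fun i _ => Submodule.sum_mem _ fun j _ => ?_
    exact idem_inMax_map (Matrix.singleLinearMap R i j)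
      ((h.ker _).1 (congrFun (congrFun hx i) j))
  · exact (h.ker _).2 (idem_inMax_map (Matrix.entryLinearMap R M i j) hx)

end modules

/-- `Field` gives the valuation ring instances; `MonicSplit.isAlgClosed`, `IsAlgClosed.splits`,
`charP_of_mem`. -/
lemma Std.res {p : ℕ} {D : Type} [Group D] (h : Std p R D) : Std p (ResidueField R) D := by
  have := h.split.isAlgClosed
  refine ⟨fun f hf => ⟨f.roots, (IsAlgClosed.splits f).eq_prod_roots_of_monic hf⟩, h.prime, ?_,
    h.pD⟩
  rw [← map_natCast (residue R), (residue_eq_zero_iff _).2 h.pR]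
  exact zero_mem _

lemma monicSplit_of_isAlgClosed (k : Type) [Field k] [IsAlgClosed k] : MonicSplit k := by
  exact fun f hf => ⟨f.roots, (IsAlgClosed.splits f).eq_prod_roots_of_monic hf⟩

variable {A B : Type} [Ring A] [Algebra R A] [Ring B] [Algebra (ResidueField R) B]

variable (R A) in
/-- Take the tensor product with the residue field (`Algebra.TensorProduct.includeRight`; the
kernel comes from `TensorProduct.quotTensorEquivQuotSMul`), or the quotient by the ideal spanned by
the image of the maximal ideal. -/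
lemma exists_red : ∃ (B : Type) (_ : Ring B) (_ : Algebra (ResidueField R) B) (τ : A →+* B),
    Red R τ := by
  refine ⟨TensorProduct R (ResidueField R) A, inferInstance, inferInstance,
    (Algebra.TensorProduct.includeRight (R := R) (A := ResidueField R) (B := A)).toRingHom,
    map_add _, fun r x => ?_, fun z => ?_, fun x => ?_⟩
  · change (1 : ResidueField R) ⊗ₜ[R] (r • x) = residue R r • ((1 : ResidueField R) ⊗ₜ[R] x)
    rw [TensorProduct.smul_tmul', ← TensorProduct.smul_tmul, Algebra.smul_def, smul_eq_mul]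
    rfl
  · induction z using TensorProduct.induction_on with
    | zero => exact ⟨0, _root_.map_zero _⟩
    | tmul c a =>
      obtain ⟨c, rfl⟩ := residue_surjective c
      refine ⟨c • a, ?_⟩
      change (1 : ResidueField R) ⊗ₜ[R] (c • a) = _
      rw [← TensorProduct.smul_tmul, Algebra.smul_def, mul_one]
      rfl
    | add x y hx hy =>
      obtain ⟨x, rfl⟩ := hx
      obtain ⟨y, rfl⟩ := hy
      exact ⟨x + y, map_add _ _ _⟩
  · change (TensorProduct.quotTensorEquivQuotSMul A (maximalIdeal R)).symm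
      (Submodule.Quotient.mk x) = 0 ↔ _
    rw [LinearEquiv.map_eq_zero_iff, Submodule.Quotient.mk_eq_zero, InMax]

lemma Red.nilR_iff {τ : A →+* B} (h : Red R τ) {x : A} : NilR R x ↔ IsNilpotent (τ x) := by
  exact exists_congr fun n => by rw [← map_pow, h.ker]

lemma Red.descend_alg {A' B' : Type} [Ring A'] [Algebra R A'] [Ring B']
    [Algebra (ResidueField R) B'] {τ : A →+* B} {τ' : A' →+* B'} (h : Red R τ) (h' : Red R τ')
    (f : A →ₐ[R] A') : ∃ g : B →ₐ[ResidueField R] B', ∀ x, g (τ x) = τ' (f x) := by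
  obtain ⟨g, hg⟩ := h.descend h' f.toLinearMap
  refine ⟨AlgHom.ofLinearMap g ?_ fun a b => ?_, hg⟩
  · rw [← map_one τ, hg, AlgHom.toLinearMap_apply, map_one, map_one]
  · obtain ⟨a, rfl⟩ := h.surj a
    obtain ⟨b, rfl⟩ := h.surj b
    rw [← map_mul, hg, hg, hg, AlgHom.toLinearMap_apply, map_mul, map_mul]
    rfl

variable {D : Type} [CommGroup D] [Fintype D] {δ : D →* A} {Q : Subgroup D}

lemma Red.map_hatI {τ : A →+* B} (h : Red R τ) (c : MonoidAlgebra R D) :
    τ (hatI R δ c) = hatI (ResidueField R) (τ.toMonoidHom.comp δ) (toRes R D c) := by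
  rw [hatI_apply, hatI_apply, _root_.map_sum]
  refine Finset.sum_congr rfl fun u _ => ?_
  rw [h.smul, coeff_toRes]
  rfl

omit [Fintype D] in
lemma SepI.red {τ : A →+* B} (h : Red R τ) {ι : Type} [Fintype ι] {x y : ι → A}
    (hs : SepI R δ x y) :
    SepI (ResidueField R) (τ.toMonoidHom.comp δ) (fun i => τ (x i)) (fun i => τ (y i)) := by
  intro N _ β hβ a
  obtain ⟨a, rfl⟩ := h.surj a
  have := hs N (fun x y => β (τ x) (τ y))
    ⟨fun x x' y => by rw [map_add, hβ.add_left], fun x y y' => by rw [map_add, hβ.add_right],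
      fun x y u => by rw [map_mul, map_mul]; exact hβ.mid _ _ u,
      fun r x y => by rw [h.smul, h.smul, hβ.smul]⟩ a
  simpa only [map_mul] using this

lemma PreI.red {τ : A →+* B} (h : Red R τ) (hN : PreI R δ Q) :
    PreI (ResidueField R) (τ.toMonoidHom.comp δ) Q := by
  obtain ⟨ι, _, x, y, hs, h1⟩ := hN.sep
  obtain ⟨r, t, hH⟩ := hN.hig
  obtain ⟨r', hr⟩ := h.descend (red_toRes D) r
  obtain ⟨t', ht⟩ := h.descend h t
  have e : ∀ u, (τ.toMonoidHom.comp δ) u = τ (δ u) := fun _ => rfl
  have e1 : ∀ u : D, toRes R D (single u 1) = single u 1 := fun u => by simp [toRes]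
  refine ⟨hN.ne_top, fun q hq a => ?_, ⟨ι, inferInstance, _, _, hs.red h, ?_⟩, r', t',
    fun u a => ?_, fun u a => ?_, fun u a => ?_, fun a => ?_⟩
  · obtain ⟨a, rfl⟩ := h.surj a
    rw [e, ← map_mul, hN.cent q hq, map_mul]
  · simp only [← map_mul, ← _root_.map_sum, h1, map_one]
  · obtain ⟨a, rfl⟩ := h.surj a
    rw [e, ← map_mul, hr, hr, hH.r_left, map_mul, e1]
  · obtain ⟨a, rfl⟩ := h.surj a
    rw [e, ← map_mul, hr, hr, hH.r_right, map_mul, e1]
  · obtain ⟨a, rfl⟩ := h.surj a
    rw [e, ← map_mul, ht, ht, hH.t_right, map_mul]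
  · obtain ⟨a, rfl⟩ := h.surj a
    conv_lhs => rw [hH.eq a]
    rw [map_add, h.map_hatI, hr, tr_apply, tr_apply, LinearMap.sum_apply, LinearMap.sum_apply,
      _root_.map_sum]
    refine congrArg _ (Finset.sum_congr rfl fun q _ => ?_)
    rw [if_pos (Subgroup.mem_top _), if_pos (Subgroup.mem_top _)]
    change τ (δ q.out * t (δ q.out⁻¹ * a)) = τ (δ q.out) * t' (τ (δ q.out⁻¹) * τ a)
    rw [← map_mul τ (δ q.out⁻¹), ht, map_mul]

lemma NilI.red {τ : A →+* B} (h : Red R τ) (hN : NilI R δ Q) :
    NilI (ResidueField R) (τ.toMonoidHom.comp δ) Q := by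
  refine ⟨hN.toPreI.red h, fun a => ?_, fun h1 => hN.ne ((h.ker _).1 ?_)⟩
  · obtain ⟨a, rfl⟩ := h.surj a
    rw [← h.map_rtr (ρ := cjI R δ) (fun g x => by rw [cjI_apply, map_mul, map_mul]; rfl),
      nilR_field, ← h.nilR_iff]
    exact hN.nt a
  · rw [map_one]
    exact inMax_field.1 h1

/-- A central element `z` of `B` is `hat c + rtr m` (`HigI.fixed`), which lifts to a fixed element
`a`; then `∑ x i * a * y i` is central and maps to `z * ∑ x i * y i = z`. -/
lemma PreI.center_lift {τ : A →+* B} (h : Red R τ) (hN : PreI R δ Q) {z : B}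
    (hz : ∀ b, z * b = b * z) : ∃ w : A, (∀ a, w * a = a * w) ∧ τ w = z := by
  have hN' := hN.red h
  obtain ⟨r, t, hH⟩ := hN'.hig
  obtain ⟨m, hm⟩ := hH.fixed hN'.cent le_top (x := z)
    (fixedBy_cjI_iff.2 fun u _ => (hz _).symm)
  obtain ⟨m, rfl⟩ := h.surj m
  obtain ⟨c, hc⟩ := toRes_surjective (R := R) (r z)
  rw [← hc, ← h.map_hatI,
    ← h.map_rtr (ρ := cjI R δ) (fun g x => by rw [cjI_apply, map_mul, map_mul]; rfl),
    ← map_add] at hm
  obtain ⟨ι, _, x, y, hs, h1⟩ := hN.sep
  have ha : FixedBy (cjI R δ) ⊤ (hatI R δ c + rtr (cjI R δ) Q ⊤ m) := fun g hg => by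
    rw [map_add, hatI_fixed c ⊤ g hg, rtr_fixed le_top (fixedBy_of_cent hN.cent m) g hg]
  refine ⟨_, fun b => (hs.central ha b).symm, ?_⟩
  have h2 := congrArg (fun w => z * τ w) h1
  simp only [_root_.map_sum, map_mul, map_one, mul_one, Finset.mul_sum] at h2
  rw [_root_.map_sum, ← h2]
  refine Finset.sum_congr rfl fun i _ => ?_
  rw [map_mul, map_mul, ← hm, ← hz, mul_assoc]

end Pool.Agent.Lib.MP_b6945b_al.St
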