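import Pool.Agent.Lib.MP_b6945b_al.St.Tr

set_option autoImplicit false

/-!
A Mackey formula for subgroups with trivial intersections modulo a central subgroup.
-/

namespace Pool.Agent.Lib.MP_b6945b_al.St

variable {R C Γ M : Type} [CommRing R] [Group C] [Fintype C] [Group Γ] [Fintype Γ]
  [AddCommGroup M] [Module R M]

/-- `Γ` embeds in `C`, `Q` is central in `C`, `D` is normal in `Γ`, and conjugates of `D` by
elements outside `Γ` meet `D` inside `Q`. -/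
structure TIData (ι : Γ →* C) (Q D : Subgroup Γ) : Prop where
  inj : Function.Injective ι
  le : Q ≤ D
  normal : D.Normal
  cent : ∀ q ∈ Q, ∀ c, ι q * c = c * ι q
  ti : ∀ g : C, g ∉ ι.range → ∀ δ ∈ D, ∀ δ' ∈ D, g⁻¹ * ι δ * g = ι δ' → δ ∈ Q

open Classical in
lemma mackey_apply (ρ : Representation R Γ M) (S T : Subgroup Γ) (m : M) :
    rtr ρ S T m = ∑ q : Γ ⧸ S, if q.out ∈ T then ρ q.out m else 0 := by
  unfold rtr
  rw [LinearMap.sum_apply]
  refine Finset.sum_congr rfl fun q _ => ?_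
  split_ifs <;> rfl

omit [Fintype Γ] in
lemma mackey_out_mem {S T : Subgroup Γ} (hST : S ≤ T) (g : Γ) :
    (QuotientGroup.mk g : Γ ⧸ S).out ∈ T ↔ g ∈ T := by
  obtain ⟨s, hs⟩ := QuotientGroup.mk_out_eq_mul S g
  rw [hs]
  exact T.mul_mem_cancel_right (hST s.2)

omit [Fintype Γ] in
lemma mackey_out_apply {ρ : Representation R Γ M} {S : Subgroup Γ} {m : M} (hm : FixedBy ρ S m)
    (g : Γ) : ρ (QuotientGroup.mk g : Γ ⧸ S).out m = ρ g m := by
  obtain ⟨s, hs⟩ := QuotientGroup.mk_out_eq_mul S g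
  rw [hs, map_mul, Module.End.mul_apply, hm s s.2]

/-- A sum over a union of `D`-orbits with stabiliser `Q` is a relative trace. -/
lemma mackey_orbit_sum {Y : Type} [MulAction Γ Y] (σ : Representation R Γ M) {Q D : Subgroup Γ}
    (hQD : Q ≤ D) (Z : Finset Y) (hZ : ∀ δ ∈ D, ∀ y ∈ Z, δ • y ∈ Z)
    (hst : ∀ y ∈ Z, ∀ δ ∈ D, (δ • y = y ↔ δ ∈ Q)) (f : Y → M)
    (hf : ∀ δ ∈ D, ∀ y, f (δ • y) = σ δ (f y)) :
    ∃ Y₀ ⊆ Z, FixedBy σ Q (∑ y ∈ Y₀, f y) ∧ ∑ y ∈ Z, f y = rtr σ Q D (∑ y ∈ Y₀, f y) := by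
  classical
  let rep : Y → Y := fun y => (Quotient.mk (MulAction.orbitRel D Y) y).out
  have hrep : ∀ δ ∈ D, ∀ y, rep (δ • y) = rep y := by
    intro δ hδ y
    have : Quotient.mk (MulAction.orbitRel D Y) (δ • y) = Quotient.mk (MulAction.orbitRel D Y) y :=
      Quotient.sound (MulAction.orbitRel_apply.2 ⟨⟨δ, hδ⟩, rfl⟩)
    simp only [rep, this]
  have hex : ∀ y, ∃ δ ∈ D, δ • rep y = y := by
    intro y
    have : (MulAction.orbitRel D Y) y (rep y) :=
      Quotient.exact (Quotient.out_eq (Quotient.mk (MulAction.orbitRel D Y) y)).symm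
    obtain ⟨δ, hδ⟩ := MulAction.orbitRel_apply.1 this
    exact ⟨δ, δ.2, hδ⟩
  have hfix : FixedBy σ Q (∑ y ∈ Z.filter (fun y => rep y = y), f y) := by
    intro q hq
    rw [map_sum]
    refine Finset.sum_congr rfl fun y hy => ?_
    rw [← hf q (hQD hq), (hst y (Finset.mem_filter.1 hy).1 q (hQD hq)).2 hq]
  refine ⟨Z.filter (fun y => rep y = y), Finset.filter_subset _ _, hfix, ?_⟩
  obtain ⟨n, t, -, ht, hu⟩ := exists_transversal hQD
  rw [rtr_eq_sum hQD hfix t ht hu]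
  simp only [map_sum]
  rw [← Finset.sum_product']
  symm
  refine Finset.sum_bij (fun x _ => t x.1 • x.2) ?_ ?_ ?_ ?_
  · intro x hx
    exact hZ _ (ht _) _ (Finset.mem_filter.1 (Finset.mem_product.1 hx).2).1
  · rintro ⟨i, y⟩ hx ⟨j, y'⟩ hx' e
    have h1 := Finset.mem_filter.1 (Finset.mem_product.1 hx).2
    have h2 := Finset.mem_filter.1 (Finset.mem_product.1 hx').2
    simp only at e h1 h2
    have h3 : y = y' := by
      rw [← h1.2, ← h2.2, ← hrep _ (ht i) y, e, hrep _ (ht j)]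
    subst h3
    have h4 : (t j)⁻¹ * t i ∈ Q := by
      refine (hst y h1.1 _ (D.mul_mem (D.inv_mem (ht j)) (ht i))).1 ?_
      rw [mul_smul, e, inv_smul_smul]
    have h5 : (t i)⁻¹ * t i ∈ Q := by rw [inv_mul_cancel]; exact Q.one_mem
    rw [(hu _ (ht i)).unique h5 h4]
  · intro z hz
    obtain ⟨δ, hδ, e⟩ := hex z
    have h1 : rep z = δ⁻¹ • z := eq_inv_smul_iff.2 e
    have h2 : rep z ∈ Z := by rw [h1]; exact hZ _ (D.inv_mem hδ) _ hz
    have h3 : rep (rep z) = rep z := by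
      conv_lhs => rw [h1]
      exact hrep _ (D.inv_mem hδ) _
    obtain ⟨i, hi, -⟩ := hu δ hδ
    refine ⟨(i, rep z), Finset.mem_product.2 ⟨Finset.mem_univ _,
      Finset.mem_filter.2 ⟨h2, h3⟩⟩, ?_⟩
    have h4 := (hst _ h2 _ (hQD hi)).2 hi
    rw [mul_smul, e, inv_smul_eq_iff] at h4
    exact h4.symm
  · intro x _
    exact (hf _ (ht _) _).symm

lemma mackey_orbit_sum' {Y : Type} (act : Γ →* Equiv.Perm Y) (σ : Representation R Γ M)
    {Q D : Subgroup Γ} (hQD : Q ≤ D) (Z : Finset Y) (hZ : ∀ δ ∈ D, ∀ y ∈ Z, act δ y ∈ Z)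
    (hst : ∀ y ∈ Z, ∀ δ ∈ D, (act δ y = y ↔ δ ∈ Q)) (f : Y → M)
    (hf : ∀ δ ∈ D, ∀ y, f (act δ y) = σ δ (f y)) :
    ∃ Y₀ ⊆ Z, FixedBy σ Q (∑ y ∈ Y₀, f y) ∧ ∑ y ∈ Z, f y = rtr σ Q D (∑ y ∈ Y₀, f y) := by
  let _ : MulAction Γ Y := MulAction.compHom Y act
  exact mackey_orbit_sum σ hQD Z hZ hst f hf

lemma mackey_rtr_apply_fixed {σ : Representation R Γ M} {S T : Subgroup Γ} {x : M}
    (hx : FixedBy σ T x) (a : Module.End R M) :
    rtr (σ.linHom σ) S T a x = rtr σ S T (a x) := by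
  refine rtr_map (φ := LinearMap.applyₗ x) (fun g hg b => ?_) a
  change σ g (b (σ g⁻¹ x)) = σ g (b x)
  rw [hx _ (T.inv_mem hg)]

omit [Fintype C] [Fintype Γ] in
lemma mackey_fixed_map {ι : Γ →* C} {D : Subgroup Γ} {ρ : Representation R C M} {m : M}
    (hm : FixedBy (ρ.comp ι) D m) : FixedBy ρ (D.map ι) m := by
  rintro _ ⟨δ, hδ, rfl⟩
  exact hm δ hδ

/-- The cosets `g D` with `g` outside `Γ` fall into `D`-orbits with stabiliser `Q`; `θ` is the sum
of `ρ g m` over orbit representatives (`rtr_eq_sum` with a transversal indexed by a sum type, or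
`exists_higman_perm` for the action of `D` on the cosets). -/
theorem TIData.mackey {ι : Γ →* C} {Q D : Subgroup Γ} (h : TIData ι Q D)
    (ρ : Representation R C M) {m : M} (hm : FixedBy (ρ.comp ι) D m) (W : AddSubgroup M)
    (hW : ∀ g, ρ g m ∈ W) :
    ∃ θ ∈ W, FixedBy (ρ.comp ι) Q θ ∧
      rtr ρ (D.map ι) ⊤ m = rtr (ρ.comp ι) D ⊤ m + rtr (ρ.comp ι) Q D θ := by
  classical
  have hm' := mackey_fixed_map hm
  have hle : D.map ι ≤ ι.range := Subgroup.map_le_range ι D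
  let _ : MulAction Γ (C ⧸ D.map ι) := MulAction.compHom _ ι
  have hsm : ∀ (γ : Γ) (g : C), γ • (QuotientGroup.mk g : C ⧸ D.map ι) =
      QuotientGroup.mk (ι γ * g) := fun _ _ => rfl
  refine (mackey_orbit_sum (Y := C ⧸ D.map ι) (ρ.comp ι) h.le
    (Finset.univ.filter fun q => q.out ∉ ι.range) ?_ ?_ (fun q => ρ q.out m) ?_).elim ?_
  rotate_right
  · rintro Y₀ ⟨-, h1, h2⟩
    refine ⟨_, W.sum_mem fun q _ => hW _, h1, ?_⟩
    rw [← h2, rtr_comp_hom ι hle le_top (fun g _ => ⟨g, rfl⟩) ?_ ?_ hm', mackey_apply,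
      mackey_apply, Finset.sum_filter, ← Finset.sum_add_distrib]
    · refine Finset.sum_congr rfl fun q _ => ?_
      by_cases e : q.out ∈ ι.range <;> simp [e]
    · intro g _
      exact Subgroup.mem_map_iff_mem h.inj
    · rintro _ ⟨g, rfl⟩
      exact ⟨g, trivial, by rw [inv_mul_cancel]; exact Subgroup.one_mem _⟩
  · intro δ _ q hq
    obtain ⟨g, rfl⟩ := QuotientGroup.mk_surjective q
    rw [Finset.mem_filter, mackey_out_mem hle] at hq
    rw [hsm, Finset.mem_filter, mackey_out_mem hle, ι.range.mul_mem_cancel_left ⟨δ, rfl⟩]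
    exact ⟨Finset.mem_univ _, hq.2⟩
  · intro q hq δ hδ
    obtain ⟨g, rfl⟩ := QuotientGroup.mk_surjective q
    rw [Finset.mem_filter, mackey_out_mem hle] at hq
    rw [hsm, eq_comm, QuotientGroup.eq, ← mul_assoc]
    constructor
    · rintro ⟨δ', hδ', e⟩
      exact h.ti g hq.2 δ hδ δ' hδ' e.symm
    · intro hQ
      rw [mul_assoc, h.cent δ hQ, inv_mul_cancel_left]
      exact ⟨δ, hδ, rfl⟩
  · intro δ _ q
    obtain ⟨g, rfl⟩ := QuotientGroup.mk_surjective q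
    rw [hsm, mackey_out_apply hm', mackey_out_apply hm', map_mul]
    rfl

/-- Let `F = rtr a'` and `F φ = φ`.  Put `m = a' φ`, `Φ = rtr m`; then
`Φ = φ + rtr Q D θ₀` and `F Φ = φ + rtr Q ⊤ (a' θ₀)`. -/
theorem TIData.exists_lift {ι : Γ →* C} {Q D : Subgroup Γ} (h : TIData ι Q D)
    (ρ : Representation R C M) (a' : Module.End R M) (ha : EquivOn (ρ.comp ι) (ρ.comp ι) D a')
    {φ : M} (hφ : FixedBy (ρ.comp ι) ⊤ φ)
    (hF : rtr (Representation.linHom (ρ.comp ι) (ρ.comp ι)) D ⊤ a' φ = φ) (W : AddSubgroup M)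
    (hφW : φ ∈ W) (hW : ∀ g, ∀ w ∈ W, ρ g w ∈ W) (haW : ∀ w ∈ W, a' w ∈ W) :
    ∃ Φ ∈ W, ∃ θ ∈ W, FixedBy ρ ⊤ Φ ∧ FixedBy (ρ.comp ι) Q θ ∧
      rtr (Representation.linHom (ρ.comp ι) (ρ.comp ι)) D ⊤ a' Φ =
        φ + rtr (ρ.comp ι) Q ⊤ θ := by
  have hm : FixedBy (ρ.comp ι) D (a' φ) := fun δ hδ => by
    rw [← ha δ hδ, hφ δ trivial]
  have hmW : ∀ g, ρ g (a' φ) ∈ W := fun g => hW g _ (haW _ hφW)
  obtain ⟨θ, hθW, hθ, e⟩ := h.mackey ρ hm W hmW
  rw [← mackey_rtr_apply_fixed hφ, hF] at e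
  have hΦ : FixedBy ρ ⊤ (rtr ρ (D.map ι) ⊤ (a' φ)) := rtr_fixed le_top (mackey_fixed_map hm)
  have hθ' : FixedBy (ρ.comp ι) Q (a' θ) := fun δ hδ => by
    rw [← ha δ (h.le hδ), hθ δ hδ]
  refine ⟨_, rtr_mem W fun g _ => hmW g, a' θ, haW _ hθW, hΦ, hθ', ?_⟩
  have hx : FixedBy (ρ.comp ι) ⊤ (rtr (ρ.comp ι) Q D θ) := by
    intro g _
    rw [← sub_eq_iff_eq_add'.2 e, map_sub, hφ g trivial]
    exact congrArg (· - φ) (hΦ (ι g) trivial)
  rw [e, map_add, hF, mackey_rtr_apply_fixed hx, rtr_map ha, rtr_trans h.le le_top hθ']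

omit [Fintype Γ] in
lemma mackey_equivOn_alg (ρ : Representation R Γ M) (T : Subgroup Γ) :
    EquivOn (cjRep R Γ) (ρ.linHom ρ) T ρ.asAlgebraHom.toLinearMap := by
  intro g _ b
  change ρ.asAlgebraHom (cjRep R Γ g b) = ρ g ∘ₗ ρ.asAlgebraHom b ∘ₗ ρ g⁻¹
  rw [cjRep_apply, map_mul, map_mul, Representation.asAlgebraHom_single_one,
    Representation.asAlgebraHom_single_one]
  rfl

/-- The action of a relative trace is the relative trace of the action (`rtr_map`). -/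
lemma asAlgebraHom_rtr (ρ : Representation R Γ M) (S T : Subgroup Γ) (a : MonoidAlgebra R Γ) :
    ρ.asAlgebraHom (rtr (cjRep R Γ) S T a) = rtr (ρ.linHom ρ) S T (ρ.asAlgebraHom a) := by
  exact rtr_map (mackey_equivOn_alg ρ T) a

omit [Fintype Γ] in
lemma equivOn_asAlgebraHom (ρ : Representation R Γ M) {S : Subgroup Γ} {a : MonoidAlgebra R Γ}
    (ha : FixedBy (cjRep R Γ) S a) : EquivOn ρ ρ S (ρ.asAlgebraHom a) := by
  refine fixedBy_linHom.1 fun g hg => ?_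
  have h := mackey_equivOn_alg ρ S g hg a
  rw [ha g hg] at h
  exact h.symm

/-- A class function for `D` vanishing on the centraliser of `D` is a relative trace from `Q`
when `Q` is central of prime index in `D`. -/
lemma exists_rtr_of_coeff {p : ℕ} (hp : p.Prime) {Q D : Subgroup C} (hQD : Q ≤ D)
    (hi : Q.relIndex D = p) (hc : ∀ q ∈ Q, ∀ c, q * c = c * q) {z : MonoidAlgebra R C}
    (hz : FixedBy (cjRep R C) D z) (h0 : ∀ x, (∀ δ ∈ D, x * δ = δ * x) → z.coeff x = 0) :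
    ∃ w, z = rtr (cjRep R C) Q D w := by
  classical
  have hsm : ∀ g x : C, (MulAut.toPerm C).comp MulAut.conj g x = g * x * g⁻¹ := fun _ _ => rfl
  refine (mackey_orbit_sum' (Y := C) ((MulAut.toPerm C).comp MulAut.conj) (cjRep R C) hQD
    (Finset.univ.filter fun x => ¬ ∀ δ ∈ D, x * δ = δ * x) ?_ ?_
    (fun x => MonoidAlgebra.single x (z.coeff x)) ?_).elim ?_
  rotate_right
  · rintro Y₀ ⟨-, -, h2⟩
    refine ⟨_, Eq.trans ?_ h2⟩
    rw [Finset.sum_filter]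
    conv_lhs => rw [eq_sum_single z]
    refine Finset.sum_congr rfl fun x _ => ?_
    split_ifs with e
    · rw [h0 x e, zero_smul]
    · simp
  · intro δ hδ x hx
    rw [Finset.mem_filter] at hx ⊢
    refine ⟨Finset.mem_univ _, fun e => hx.2 fun δ' hδ' => ?_⟩
    have h1 := e (δ * δ' * δ⁻¹) (D.mul_mem (D.mul_mem hδ hδ') (D.inv_mem hδ))
    rw [hsm] at h1
    calc x * δ' = δ⁻¹ * (δ * x * δ⁻¹ * (δ * δ' * δ⁻¹)) * δ := by group
      _ = δ' * x := by rw [h1]; group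
  · intro x hx δ hδ
    rw [Finset.mem_filter] at hx
    rw [hsm, mul_inv_eq_iff_eq_mul]
    refine ⟨fun e => ?_, fun e => hc δ e x⟩
    let S : Subgroup C := D ⊓ Subgroup.centralizer {x}
    have hQS : Q ≤ S := fun q hq =>
      ⟨hQD hq, Subgroup.mem_centralizer_singleton_iff.2 (hc q hq x)⟩
    have hmul := Subgroup.relIndex_mul_relIndex Q S D hQS inf_le_left
    rw [hi] at hmul
    rcases (Nat.dvd_prime hp).1 (Dvd.intro_left _ hmul) with h1 | h1
    · refine absurd (fun δ' hδ' => ?_) hx.2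
      exact (Subgroup.mem_centralizer_singleton_iff.1 (Subgroup.relIndex_eq_one.1 h1 hδ').2).symm
    · rw [h1] at hmul
      have h3 : Q.relIndex S = 1 := (Nat.mul_eq_right hp.ne_zero).1 hmul
      exact Subgroup.relIndex_eq_one.1 h3 ⟨hδ, Subgroup.mem_centralizer_singleton_iff.2 e⟩
  · intro δ hδ x
    have h1 : z.coeff (δ * x * δ⁻¹) = z.coeff x := by
      conv_lhs => rw [← hz δ hδ, coeff_cjRep]
      congr 1
      group
    rw [hsm, h1, cjRep_apply, MonoidAlgebra.single_mul_single, MonoidAlgebra.single_mul_single,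
      mul_one, one_mul, mul_assoc]

end Pool.Agent.Lib.MP_b6945b_al.St
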