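import Pool.Agent.Lib.MP_b6945b_al.St.FrDefs
import Pool.Agent.Lib.MP_b6945b_al.St.Mackey

set_option autoImplicit false

/-!
Spans of relative traces, the kernel of the Brauer map, the Mackey formula.
-/

namespace Pool.Agent.Lib.MP_b6945b_al.St

open IsLocalRing
open MonoidAlgebra (single)

section basic

variable {R Γ M M' : Type} [CommRing R] [Group Γ] [Fintype Γ] [AddCommGroup M] [Module R M]
  [AddCommGroup M'] [Module R M'] {ρ : Representation R Γ M} {ρ' : Representation R Γ M'}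
  {Pr Pr' : Subgroup Γ → Prop} {S T U : Subgroup Γ}

/-- A sum of an equivariant function is a sum of relative traces from stabilisers. -/
lemma frrk1_orbit {Y : Type} [MulAction Γ Y] [Fintype Y] (σ : Representation R Γ M)
    (T : Subgroup Γ) (f : Y → M) (hf : ∀ δ ∈ T, ∀ y, f (δ • y) = σ δ (f y)) (W : AddSubgroup M)
    (h : ∀ y, rtr σ (T ⊓ MulAction.stabilizer Γ y) T (f y) ∈ W) : ∑ y, f y ∈ W := by
  classical
  let _ : Fintype (MulAction.orbitRel.Quotient T Y) := Fintype.ofFinite _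
  rw [← Fintype.sum_fiberwise
    (g := fun y => (Quotient.mk (MulAction.orbitRel T Y) y : MulAction.orbitRel.Quotient T Y))]
  refine W.sum_mem fun ω _ => ?_
  have hex : ∀ i : {y // (Quotient.mk (MulAction.orbitRel T Y) y :
      MulAction.orbitRel.Quotient T Y) = ω}, ∃ g ∈ T, g • ω.out = i.1 := by
    intro i
    have : (MulAction.orbitRel T Y) i.1 ω.out :=
      Quotient.exact (i.2.trans (Quotient.out_eq ω).symm)
    obtain ⟨g, hg⟩ := MulAction.orbitRel_apply.1 this
    exact ⟨g, g.2, hg⟩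
  choose t ht ht' using hex
  have hfix : FixedBy σ (T ⊓ MulAction.stabilizer Γ ω.out) (f ω.out) := fun g hg => by
    rw [← hf g hg.1, MulAction.mem_stabilizer_iff.1 hg.2]
  have h1 := h ω.out
  rw [rtr_eq_sum inf_le_left hfix t ht] at h1
  · simp only [← hf _ (ht _), ht'] at h1
    exact h1
  · intro g hg
    have h2 : (Quotient.mk (MulAction.orbitRel T Y) (g • ω.out) :
        MulAction.orbitRel.Quotient T Y) = ω :=
      (Quotient.sound (s := MulAction.orbitRel T Y) ⟨⟨g, hg⟩, rfl⟩).trans (Quotient.out_eq ω)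
    have key : ∀ i, (t i)⁻¹ * g ∈ T ⊓ MulAction.stabilizer Γ ω.out ↔ i = ⟨_, h2⟩ := by
      intro i
      rw [Subgroup.mem_inf, MulAction.mem_stabilizer_iff, mul_smul, inv_smul_eq_iff, ht',
        Subtype.ext_iff]
      exact ⟨fun e => e.2.symm, fun e => ⟨T.mul_mem (T.inv_mem (ht i)) hg, e.symm⟩⟩
    exact ⟨_, (key _).2 rfl, fun i hi => (key i).1 hi⟩

omit [Fintype Γ] in
lemma frrk1_fixed_sup {m : M} (h1 : FixedBy ρ S m) (h2 : FixedBy ρ T m) :
    FixedBy ρ (S ⊔ T) m := by
  let K : Subgroup Γ :=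
    { carrier := {g | ρ g m = m}
      one_mem' := by simp
      mul_mem' := fun {a b} ha hb => by
        change ρ (a * b) m = m
        rw [map_mul, Module.End.mul_apply, hb, ha]
      inv_mem' := fun {a} ha => by
        change ρ a⁻¹ m = m
        conv_lhs => rw [← (ha : ρ a m = m), Representation.inv_self_apply] }
  exact fun g hg => (sup_le (a := S) (b := T) (c := K) h1 h2) hg

omit [Fintype Γ] in
lemma frrk1_fix_eq (ρ : Representation R Γ M) (S : Subgroup Γ) :
    bouc_fix ρ S = LinearMap.ker (LinearMap.pi fun g : S => ρ g - LinearMap.id) := by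
  ext m
  rw [LinearMap.mem_ker, funext_iff]
  simp only [LinearMap.pi_apply, LinearMap.sub_apply, LinearMap.id_apply, Pi.zero_apply,
    sub_eq_zero, Subtype.forall]
  rfl

lemma rtr_mem_trSpan (h : Pr S) (hST : S ≤ T) {m : M} (hm : FixedBy ρ S m) :
    rtr ρ S T m ∈ trSpan ρ Pr T := by
  exact Submodule.subset_span ⟨S, m, h, hST, hm, rfl⟩

lemma trSpan_fixed {x : M} (hx : x ∈ trSpan ρ Pr T) : FixedBy ρ T x := by
  have h : trSpan ρ Pr T ≤ bouc_fix ρ T := by
    refine Submodule.span_le.2 ?_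
    rintro _ ⟨S, m, -, hST, hm, rfl⟩
    exact rtr_fixed hST hm
  exact h hx

lemma trSpan_mono (h : ∀ S, S ≤ T → Pr S → Pr' S) : trSpan ρ Pr T ≤ trSpan ρ Pr' T := by
  refine Submodule.span_mono ?_
  rintro _ ⟨S, m, h1, hST, hm, rfl⟩
  exact ⟨S, m, h S hST h1, hST, hm, rfl⟩

lemma trSpan_map {φ : M →ₗ[R] M'} (hφ : EquivOn ρ ρ' T φ) {x : M} (hx : x ∈ trSpan ρ Pr T) :
    φ x ∈ trSpan ρ' Pr T := by
  have h : trSpan ρ Pr T ≤ (trSpan ρ' Pr T).comap φ := by
    refine Submodule.span_le.2 ?_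
    rintro _ ⟨S, m, h1, hST, hm, rfl⟩
    change φ (rtr ρ S T m) ∈ trSpan ρ' Pr T
    rw [rtr_map hφ]
    exact rtr_mem_trSpan h1 hST fun g hg => by rw [← hφ g (hST hg), hm g hg]
  exact h hx

lemma trSpan_rtr (hTU : T ≤ U) {x : M} (hx : x ∈ trSpan ρ Pr T) :
    rtr ρ T U x ∈ trSpan ρ Pr U := by
  have h : trSpan ρ Pr T ≤ (trSpan ρ Pr U).comap (rtr ρ T U) := by
    refine Submodule.span_le.2 ?_
    rintro _ ⟨S, m, h1, hST, hm, rfl⟩
    change rtr ρ T U (rtr ρ S T m) ∈ trSpan ρ Pr U
    rw [rtr_trans hST hTU hm]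
    exact rtr_mem_trSpan h1 (hST.trans hTU) hm
  exact h hx

/-- `mackey_rtr_apply_fixed` for two representations: for `T`-fixed `z`,
`rtr (linHom) S T θ z = rtr ρ' S T (θ z)`. -/
lemma trSpan_apply {Θ : M →ₗ[R] M'} (hΘ : Θ ∈ trSpan (ρ.linHom ρ') Pr T) {z : M}
    (hz : FixedBy ρ T z) : Θ z ∈ trSpan ρ' Pr T := by
  refine trSpan_map (φ := LinearMap.applyₗ z) (fun g hg b => ?_) hΘ
  change ρ' g (b (ρ g⁻¹ z)) = ρ' g (b z)
  rw [hz _ (T.inv_mem hg)]

/-- Mackey formula.  `T` acts on the cosets `U / S`; the orbit of `g S` contributes the trace of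
`ρ g m` from its stabiliser.  Sketch: `tr_apply`, group the cosets by `T`-orbits
(induction on a `T`-stable finset of cosets as in `mackey_orbit_sum`), `rtr_eq_sum`. -/
lemma mackey_mem (hS : S ≤ U) (hT : T ≤ U) {m : M} (hm : FixedBy ρ S m) (W : AddSubgroup M)
    (h : ∀ g ∈ U, rtr ρ (T ⊓ S.map (MulAut.conj g).toMonoidHom) T (ρ g m) ∈ W) :
    rtr ρ S U m ∈ W := by
  classical
  rw [tr_apply]
  have key : ∀ g : Γ, (if (QuotientGroup.mk g : Γ ⧸ S).out ∈ U then
      ρ (QuotientGroup.mk g : Γ ⧸ S).out m else 0) = if g ∈ U then ρ g m else 0 := by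
    intro g
    by_cases hg : g ∈ U
    · rw [if_pos ((tr_out_mem hS g).2 hg), if_pos hg, tr_out_apply hm]
    · rw [if_neg (fun e => hg ((tr_out_mem hS g).1 e)), if_neg hg]
  refine frrk1_orbit ρ T _ ?_ W ?_
  · intro u hu q
    obtain ⟨g, rfl⟩ := QuotientGroup.mk_surjective q
    have h1 : u • (QuotientGroup.mk g : Γ ⧸ S) = QuotientGroup.mk (u * g) := rfl
    rw [h1, key, key]
    by_cases hg : g ∈ U
    · rw [if_pos hg, if_pos (U.mul_mem (hT hu) hg), map_mul, Module.End.mul_apply]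
    · rw [if_neg hg, if_neg (fun e => hg ((U.mul_mem_cancel_left (hT hu)).1 e)), map_zero]
  · intro q
    obtain ⟨g, rfl⟩ := QuotientGroup.mk_surjective q
    rw [key]
    by_cases hg : g ∈ U
    · have e : MulAction.stabilizer Γ (QuotientGroup.mk g : Γ ⧸ S)
          = S.map (MulAut.conj g).toMonoidHom := by
        ext u
        have h1 : u • (QuotientGroup.mk g : Γ ⧸ S) = QuotientGroup.mk (u * g) := rfl
        rw [MulAction.mem_stabilizer_iff, h1, eq_comm, QuotientGroup.eq]
        constructor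
        · intro h2
          refine ⟨_, h2, ?_⟩
          change g * (g⁻¹ * (u * g)) * g⁻¹ = u
          group
        · rintro ⟨s, hs, rfl⟩
          change g⁻¹ * (g * s * g⁻¹ * g) ∈ S
          rwa [inv_mul_cancel_right, inv_mul_cancel_left]
      rw [if_pos hg, e]
      exact h g hg
    · rw [if_neg hg, map_zero]
      exact W.zero_mem

omit [Fintype Γ] in
lemma fixedBy_conj {m : M} (hm : FixedBy ρ S m) (g : Γ) :
    FixedBy ρ (T ⊓ S.map (MulAut.conj g).toMonoidHom) (ρ g m) := by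
  rintro _ ⟨-, s, hs, rfl⟩
  change ρ (g * s * g⁻¹) (ρ g m) = ρ g m
  rw [← Module.End.mul_apply, ← map_mul, inv_mul_cancel_right, map_mul, Module.End.mul_apply,
    hm s hs]

variable [IsLocalRing R]

lemma brK_fixed {x : M} (hx : x ∈ brK ρ T) : FixedBy ρ T x := by
  have h : brK ρ T ≤ bouc_fix ρ T := sup_le (fun _ hy => trSpan_fixed hy) Submodule.smul_le_right
  exact h hx

lemma brK_map {φ : M →ₗ[R] M'} (hφ : EquivOn ρ ρ' T φ) {x : M} (hx : x ∈ brK ρ T) :
    φ x ∈ brK ρ' T := by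
  have h : brK ρ T ≤ (brK ρ' T).comap φ := by
    refine sup_le (fun y hy => Submodule.mem_sup_left (trSpan_map hφ hy)) ?_
    refine Submodule.smul_le.2 fun r hr m hm => ?_
    rw [Submodule.mem_comap, map_smul]
    exact Submodule.mem_sup_right (Submodule.smul_mem_smul hr
      fun g hg => by rw [← hφ g hg, hm g hg])
  exact h hx

lemma rtr_mem_brK (hST : S < T) {m : M} (hm : FixedBy ρ S m) : rtr ρ S T m ∈ brK ρ T := by
  exact Submodule.mem_sup_left (rtr_mem_trSpan (Pr := (· < T)) hST hST.le hm)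

lemma smul_mem_brK {r : R} (hr : r ∈ maximalIdeal R) {m : M} (hm : FixedBy ρ T m) :
    r • m ∈ brK ρ T := by
  exact Submodule.mem_sup_right (Submodule.smul_mem_smul hr hm)

/-- Induction principle for `brK`. -/
lemma brK_le {W : Submodule R M} (h1 : ∀ S m, S < T → FixedBy ρ S m → rtr ρ S T m ∈ W)
    (h2 : ∀ r ∈ maximalIdeal R, ∀ m, FixedBy ρ T m → r • m ∈ W) : brK ρ T ≤ W := by
  refine sup_le (Submodule.span_le.2 ?_) (Submodule.smul_le.2 h2)
  rintro _ ⟨S, m, h, -, hm, rfl⟩
  exact h1 S m h hm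

omit [Fintype Γ] in
/-- The index of a proper subgroup of a finite `p`-group is divisible by `p`. -/
lemma relIndex_mem_max [Finite Γ] {p : ℕ} (hp : p.Prime) (hpR : (p : R) ∈ maximalIdeal R)
    (hT : IsPGroup p T) (hST : S < T) : (S.relIndex T : R) ∈ maximalIdeal R := by
  have := Fact.mk hp
  obtain ⟨n, hn⟩ := hT.index (S.subgroupOf T)
  rcases n with _ | n
  · exact absurd (Subgroup.relIndex_eq_one.1 hn) (not_le_of_gt hST)
  · rw [Subgroup.relIndex, hn, Nat.cast_pow, pow_succ]
    exact Ideal.mul_mem_left _ _ hpR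

/-- If a subgroup `Q ≤ T` acts trivially only subgroups containing `Q` are needed:
`rtr S T m = rtr (S ⊔ Q) T (rtr S (S ⊔ Q) m)`; if `S ⊔ Q = T` then `m` is `T`-fixed and
`rtr S T m = [T : S] • m`. -/
lemma brK_le_of_triv {p : ℕ} (hp : p.Prime) (hpR : (p : R) ∈ maximalIdeal R) (hT : IsPGroup p T)
    {Q : Subgroup Γ} (hQT : Q ≤ T) (hQ : ∀ m, FixedBy ρ Q m) :
    brK ρ T ≤ trSpan ρ (fun S => Q ≤ S ∧ S < T) T ⊔ maximalIdeal R • bouc_fix ρ T := by
  refine brK_le (fun S m hST hm => ?_)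
    fun r hr m hm => Submodule.mem_sup_right (Submodule.smul_mem_smul hr hm)
  have hle : S ⊔ Q ≤ T := sup_le hST.le hQT
  rcases hle.lt_or_eq with h | h
  · rw [← rtr_trans le_sup_left hle hm]
    exact Submodule.mem_sup_left (rtr_mem_trSpan ⟨le_sup_right, h⟩ hle (rtr_fixed le_sup_left hm))
  · have hm' : FixedBy ρ T m := h ▸ frrk1_fixed_sup hm (hQ m)
    rw [rtr_of_fixed hST.le hm', ← Nat.cast_smul_eq_nsmul R]
    exact Submodule.mem_sup_right
      (Submodule.smul_mem_smul (relIndex_mem_max hp hpR hT hST) hm')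

end basic

section comm

variable {R Γ M : Type} [CommRing R] [CommGroup Γ] [Fintype Γ] [AddCommGroup M] [Module R M]
  {ρ : Representation R Γ M} {Pr : Subgroup Γ → Prop} {S T U : Subgroup Γ}

omit [Fintype Γ] in
lemma frrk1_map_conj (S : Subgroup Γ) (g : Γ) : S.map (MulAut.conj g).toMonoidHom = S := by
  have e : (MulAut.conj g).toMonoidHom = MonoidHom.id Γ := by
    ext u
    simp
  rw [e, Subgroup.map_id]

lemma mackey_mem_comm (hS : S ≤ U) (hT : T ≤ U) {m : M} (hm : FixedBy ρ S m) (W : AddSubgroup M)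
    (h : ∀ g ∈ U, rtr ρ (T ⊓ S) T (ρ g m) ∈ W) : rtr ρ S U m ∈ W := by
  refine mackey_mem hS hT hm W fun g hg => ?_
  rw [frrk1_map_conj]
  exact h g hg

lemma trSpan_res (hT : T ≤ U) :
    trSpan ρ Pr U ≤ trSpan ρ (fun S' => ∃ S, Pr S ∧ S' = T ⊓ S) T := by
  refine Submodule.span_le.2 ?_
  rintro _ ⟨S, m, h1, hS, hm, rfl⟩
  refine mackey_mem_comm hS hT hm
    (trSpan ρ (fun S' => ∃ S, Pr S ∧ S' = T ⊓ S) T).toAddSubgroup fun g _ => ?_
  refine rtr_mem_trSpan (Pr := fun S' => ∃ S, Pr S ∧ S' = T ⊓ S) ⟨S, h1, rfl⟩ inf_le_left ?_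
  have := fixedBy_conj (T := T) hm g
  rwa [frrk1_map_conj] at this

end comm

section valuation

variable {R M N : Type} [CommRing R] [IsDomain R] [ValuationRing R] [AddCommGroup M] [Module R M]
  [AddCommGroup N] [Module R N]

lemma frrk1_free [Module.Finite R M] [Module.IsTorsionFree R M] : Module.Free R M := by
  have h : Module.Flat R M := Module.Flat.flat_iff_torsion_eq_bot_of_isBezout.2
    (Submodule.isTorsionFree_iff_torsion_eq_bot.1 inferInstance)
  exact Module.free_of_flat_of_isLocalRing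

/-- The range of `f` is finite and torsion free, so flat
(`Module.Flat.flat_iff_torsion_eq_bot_of_isBezout`), so free
(`Module.free_of_flat_of_isLocalRing`), so the kernel is a direct summand. -/
lemma fg_ker [Module.Finite R M] [Module.IsTorsionFree R N] (f : M →ₗ[R] N) :
    (LinearMap.ker f).FG := by
  have h1 : Module.IsTorsionFree R (LinearMap.range f) :=
    Function.Injective.moduleIsTorsionFree (fun a : LinearMap.range f => a.1)
      Subtype.val_injective fun _ _ => rfl
  have h2 : Module.Free R (LinearMap.range f) := frrk1_free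
  have h3 : Module.FinitePresentation R (LinearMap.range f) :=
    Module.finitePresentation_of_projective R _
  rw [← LinearMap.ker_rangeRestrict]
  exact Module.FinitePresentation.fg_ker _ f.surjective_rangeRestrict

lemma free_of_torsionFree [Module.Finite R M] [Module.IsTorsionFree R M] : Module.Free R M := by
  exact frrk1_free

/-- `inMax_iff_valuation` and cancellation. -/
lemma mem_smul_ker [Module.IsTorsionFree R N] (f : M →ₗ[R] N) {x : M} (hx : f x = 0)
    (h : InMax R x) : x ∈ maximalIdeal R • LinearMap.ker f := by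
  obtain ⟨m, hm, y, rfl⟩ := inMax_iff_valuation.1 h
  rw [map_smul, smul_eq_zero] at hx
  rcases hx with hx | hx
  · rw [hx, zero_smul]
    exact Submodule.zero_mem _
  · exact Submodule.smul_mem_smul hm hx

/-- The kernel `K` satisfies `K = 𝔪 K`. -/
lemma injective_of_inMax [Module.Finite R M] [Module.IsTorsionFree R N] (f : M →ₗ[R] N)
    (h : ∀ x, InMax R (f x) → InMax R x) : Function.Injective f := by
  rw [← LinearMap.ker_eq_bot]
  refine Submodule.eq_bot_of_le_smul_of_le_jacobson_bot (maximalIdeal R) _ (fg_ker f)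
    (fun x hx => mem_smul_ker f hx (h x ?_)) (IsLocalRing.maximalIdeal_le_jacobson _)
  rw [LinearMap.mem_ker.1 hx]
  exact Submodule.zero_mem _

variable {Γ : Type} [Group Γ] [Fintype Γ] [Module.IsTorsionFree R M] {ρ : Representation R Γ M}

lemma fix_fg [Module.Finite R M] (S : Subgroup Γ) : (bouc_fix ρ S).FG := by
  rw [frrk1_fix_eq]
  exact fg_ker _

lemma inMax_mem_brK {T : Subgroup Γ} {x : M} (h : InMax R x) (hx : FixedBy ρ T x) :
    x ∈ brK ρ T := by
  refine Submodule.mem_sup_right ?_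
  have hx' : x ∈ bouc_fix ρ T := hx
  rw [frrk1_fix_eq] at hx' ⊢
  exact mem_smul_ker _ hx' h

/-- Induction on `S` (strong induction on the order) and Nakayama
(`Submodule.le_of_le_smul_of_le_jacobson_bot`) for the finitely generated module `bouc_fix ρ S`. -/
lemma nak_induct [Module.Finite R M] (B : Subgroup Γ) (P : Subgroup Γ → Submodule R M)
    (h1 : ∀ S, B ≤ S → ∀ a, FixedBy ρ S a →
      a ∈ P S ⊔ (trSpan ρ (fun S' => B ≤ S' ∧ S' < S) S ⊔ maximalIdeal R • bouc_fix ρ S))
    (h2 : ∀ S' S, B ≤ S' → S' < S → ∀ a ∈ P S', FixedBy ρ S' a →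
      rtr ρ S' S a ∈ P S ⊔ maximalIdeal R • bouc_fix ρ S)
    {S : Subgroup Γ} (hS : B ≤ S) {a : M} (ha : FixedBy ρ S a) : a ∈ P S := by
  induction S using WellFoundedLT.induction generalizing a with
  | ind S ih =>
    have key : bouc_fix ρ S ≤ P S := by
      refine Submodule.le_of_le_smul_of_le_jacobson_bot (fix_fg S)
        (IsLocalRing.maximalIdeal_le_jacobson _) fun b hb => ?_
      have h3 : P S ⊔ (trSpan ρ (fun S' => B ≤ S' ∧ S' < S) S ⊔ maximalIdeal R • bouc_fix ρ S)
          ≤ P S ⊔ maximalIdeal R • bouc_fix ρ S := by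
        refine sup_le le_sup_left (sup_le (Submodule.span_le.2 ?_) le_sup_right)
        rintro _ ⟨S', m, ⟨h4, h5⟩, -, hm, rfl⟩
        exact h2 S' S h4 h5 m (ih S' h5 h4 hm) hm
      exact h3 (h1 S hS b hb)
    exact key ha

end valuation

section perm

variable {R Γ Y : Type} [CommRing R] [Group Γ] [Fintype Γ] [Fintype Y]

/-- The stabiliser of a point. -/
def stabP (act : Γ →* Equiv.Perm Y) (y : Y) : Subgroup Γ where
  carrier := {g | act g y = y}
  one_mem' := by simp
  mul_mem' := fun {a b} ha hb => by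
    change act (a * b) y = y
    rw [map_mul, Equiv.Perm.mul_apply, hb, ha]
  inv_mem' := fun {a} ha => by
    change act a⁻¹ y = y
    rw [map_inv, Equiv.Perm.inv_eq_iff_eq]
    exact Eq.symm ha

omit [Fintype Γ] [Fintype Y] in
lemma mem_stabP {act : Γ →* Equiv.Perm Y} {y : Y} {g : Γ} : g ∈ stabP act y ↔ act g y = y :=
  Iff.rfl

/-- A fixed vector of a permutation module is a combination of orbit sums (compare
`bouc_decomp`): induct on the support, subtract `a.coeff y • rtr ρ (S ⊓ stabP act y) S (single y 1)`,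
where the trace is the orbit sum of `y`. -/
lemma perm_fixed_mem' (ρ : Representation R Γ (MonoidAlgebra R Y)) (act : Γ →* Equiv.Perm Y)
    (hρ : ∀ g y, ρ g (single y 1) = single (act g y) 1) {S : Subgroup Γ}
    {a : MonoidAlgebra R Y} (ha : FixedBy ρ S a) (W : AddSubgroup (MonoidAlgebra R Y))
    (h : ∀ y, a.coeff y • rtr ρ (S ⊓ stabP act y) S (single y 1) ∈ W) : a ∈ W := by
  classical
  let _ : MulAction Γ Y := MulAction.compHom Y act
  have e : ∀ b : MonoidAlgebra R Y, b = ∑ y, b.coeff y • single y (1 : R) := by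
    intro b
    ext z
    simp [MonoidAlgebra.coeff_single]
  have hc : ∀ g ∈ S, ∀ y, a.coeff (act g y) = a.coeff y := by
    intro g hg y
    conv_lhs => rw [← ha g hg, e a, map_sum]
    simp only [map_smul, hρ]
    simp [MonoidAlgebra.coeff_single, Finsupp.single_apply]
  rw [e a]
  refine frrk1_orbit ρ S (fun y => a.coeff y • single y (1 : R)) (fun g hg y => ?_) W fun y => ?_
  · change a.coeff (act g y) • single (act g y) (1 : R) = _
    rw [map_smul, hρ, hc g hg]
  · rw [map_smul]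
    exact h y

lemma perm_fixed_mem (ρ : Representation R Γ (MonoidAlgebra R Y)) (act : Γ →* Equiv.Perm Y)
    (hρ : ∀ g y, ρ g (single y 1) = single (act g y) 1) {S : Subgroup Γ}
    {a : MonoidAlgebra R Y} (ha : FixedBy ρ S a) (W : Submodule R (MonoidAlgebra R Y))
    (h : ∀ y, a.coeff y ≠ 0 → rtr ρ (S ⊓ stabP act y) S (single y 1) ∈ W) : a ∈ W := by
  refine perm_fixed_mem' ρ act hρ ha W.toAddSubgroup fun y => ?_
  by_cases hy : a.coeff y = 0
  · rw [hy, zero_smul]
    exact W.zero_mem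
  · exact W.smul_mem _ (h y hy)

end perm

end Pool.Agent.Lib.MP_b6945b_al.St
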