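import Pool.Agent.Lib.MP_b6945b_al.St.Chart

set_option autoImplicit false

/-!
The endomorphism complex of the two-term complex splits.
-/

namespace Pool.Agent.Lib.MP_b6945b_al.St

open IsLocalRing

variable {R : Type} [CommRing R] [IsLocalRing R] {G : Type} [Group G] [Fintype G]
  {H : Subgroup G} {X : Type} [Fintype X] [DecidableEq X] [MulAction (G × H) X] {κ : X → G}
  {p : ℕ} {ε₀ ε₁ d σ : Kern R H X} {𝒬 : Set (Subgroup H)}

omit [IsLocalRing R] [Fintype G] in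
lemma gta_left {u : Kern R H X} (hu : GInv u) (γ : G × G) (a : Kern R H X) :
    biRep R H X γ (u * a) = u * biRep R H X γ a := by
  rw [biRep_apply, biRep_apply, ← mul_assoc u, ← hu, mul_assoc u, mul_assoc]

omit [IsLocalRing R] [Fintype G] in
lemma gta_right {u : Kern R H X} (hu : GInv u) (γ : G × G) (a : Kern R H X) :
    biRep R H X γ (a * u) = biRep R H X γ a * u := by
  rw [biRep_apply, biRep_apply, mul_assoc a, ← hu, mul_assoc, mul_assoc]

omit [IsLocalRing R] [Fintype G] in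
lemma gta_fix_left {P : Subgroup (G × G)} {u a : Kern R H X} (hu : GInv u)
    (ha : FixedBy (biRep R H X) P a) : FixedBy (biRep R H X) P (u * a) :=
  fun g hg => by rw [gta_left hu, ha g hg]

omit [IsLocalRing R] [Fintype G] in
lemma gta_fix_right {P : Subgroup (G × G)} {u a : Kern R H X} (hu : GInv u)
    (ha : FixedBy (biRep R H X) P a) : FixedBy (biRep R H X) P (a * u) :=
  fun g hg => by rw [gta_right hu, ha g hg]

omit [IsLocalRing R] [Fintype G] in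
lemma gta_fix_add {P : Subgroup (G × G)} {a b : Kern R H X} (ha : FixedBy (biRep R H X) P a)
    (hb : FixedBy (biRep R H X) P b) : FixedBy (biRep R H X) P (a + b) :=
  fun g hg => by rw [map_add, ha g hg, hb g hg]

/-- The map `a ↦ u a v`. -/
noncomputable def gtaSand (u v : Kern R H X) : Kern R H X →ₗ[R] Kern R H X :=
  LinearMap.mulRight R v ∘ₗ LinearMap.mulLeft R u

omit [IsLocalRing R] [Fintype G] in
lemma gtaSand_apply (u v a : Kern R H X) : gtaSand u v a = u * a * v := rfl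

/-- The block diagonal part. -/
noncomputable def gtaDiag (ε₀ ε₁ : Kern R H X) : Kern R H X →ₗ[R] Kern R H X :=
  gtaSand ε₀ ε₀ + gtaSand ε₁ ε₁

omit [IsLocalRing R] [Fintype G] in
lemma gtaDiag_apply (a : Kern R H X) : gtaDiag ε₀ ε₁ a = ε₀ * a * ε₀ + ε₁ * a * ε₁ := rfl

/-- The differential of the endomorphism complex. -/
noncomputable def gtaTheta (ε₀ ε₁ d : Kern R H X) : Kern R H X →ₗ[R] Kern R H X :=
  (LinearMap.mulRight R d - LinearMap.mulLeft R d) ∘ₗ gtaDiag ε₀ ε₁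

omit [IsLocalRing R] [Fintype G] in
lemma gtaTheta_apply (a : Kern R H X) : gtaTheta ε₀ ε₁ d a =
    (ε₀ * a * ε₀ + ε₁ * a * ε₁) * d - d * (ε₀ * a * ε₀ + ε₁ * a * ε₁) := rfl

omit [IsLocalRing R] [Fintype G] in
lemma gta_e1d (hC : CxData ε₀ ε₁ d σ) : ε₁ * d = 0 := by
  rw [← hC.d0, ← mul_assoc, hC.e10, zero_mul]

omit [IsLocalRing R] [Fintype G] in
lemma gta_de0 (hC : CxData ε₀ ε₁ d σ) : d * ε₀ = 0 := by
  rw [← hC.d1, mul_assoc, hC.e10, mul_zero]

omit [IsLocalRing R] [Fintype G] in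
lemma gta_e0s (hC : CxData ε₀ ε₁ d σ) : ε₀ * σ = 0 := by
  rw [← hC.s1, ← mul_assoc, hC.e01, zero_mul]

omit [IsLocalRing R] [Fintype G] in
lemma gtaTheta_eq (hC : CxData ε₀ ε₁ d σ) (a : Kern R H X) :
    gtaTheta ε₀ ε₁ d a = ε₀ * a * d - d * a * ε₁ := by
  rw [gtaTheta_apply, add_mul, mul_add, mul_assoc _ ε₀ d, hC.d0, mul_assoc _ ε₁ d, gta_e1d hC,
    mul_zero, add_zero, ← mul_assoc d, ← mul_assoc d, gta_de0 hC, zero_mul, zero_mul, zero_add,
    ← mul_assoc d, ← mul_assoc d, hC.d1]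

omit [IsLocalRing R] [Fintype G] in
lemma gtaDiag_idem (hC : CxData ε₀ ε₁ d σ) (a : Kern R H X) :
    gtaDiag ε₀ ε₁ a = ε₀ * gtaDiag ε₀ ε₁ a * ε₀ + ε₁ * gtaDiag ε₀ ε₁ a * ε₁ := by
  rw [gtaDiag_apply]
  simp only [mul_add, ← mul_assoc, hC.e00, hC.e01, hC.e10, hC.e11, zero_mul, add_zero,
    zero_add]
  simp only [mul_assoc, hC.e00, hC.e11]

omit [IsLocalRing R] [Fintype G] in
lemma gtaSand_equiv {u v : Kern R H X} (hu : GInv u) (hv : GInv v) :
    EquivOn (biRep R H X) (biRep R H X) ⊤ (gtaSand u v) := fun g _ m => by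
  rw [gtaSand_apply, gtaSand_apply, gta_right hv, gta_left hu]

omit [IsLocalRing R] [Fintype G] in
lemma gtaDiag_equiv (hC : CxData ε₀ ε₁ d σ) :
    EquivOn (biRep R H X) (biRep R H X) ⊤ (gtaDiag ε₀ ε₁) := fun g _ m => by
  rw [gtaDiag_apply, gtaDiag_apply, map_add, gta_right hC.inv₀, gta_left hC.inv₀,
    gta_right hC.inv₁, gta_left hC.inv₁]

omit [IsLocalRing R] [Fintype G] in
lemma gtaTheta_equiv (hC : CxData ε₀ ε₁ d σ) :
    EquivOn (biRep R H X) (biRep R H X) ⊤ (gtaTheta ε₀ ε₁ d) := fun g _ m => by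
  rw [gtaTheta_eq hC, gtaTheta_eq hC, map_sub, gta_right hC.invd, gta_left hC.inv₀,
    gta_right hC.inv₁, gta_left hC.invd]

lemma gta_brc_sand (hp : p.Prime) (hpR : (p : R) ∈ maximalIdeal R) {P : Subgroup (G × G)}
    {Q : Subgroup H} {γ : G × G} (hQ : IsPGroup p Q) (h : IsChart P Q γ) {a u v : Kern R H X}
    (ha : FixedBy (biRep R H X) P a) (hu : GInv u) (hv : GInv v) :
    brc Q γ (u * a * v) = br Q u.1 * brc Q γ a * br Q v.1 := by
  rw [brc_mul_right hp hpR hQ h (gta_fix_left hu ha) hv, brc_mul_left hp hpR hQ h ha hu]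

lemma gta_brc_theta (hp : p.Prime) (hpR : (p : R) ∈ maximalIdeal R) (hC : CxData ε₀ ε₁ d σ)
    {P : Subgroup (G × G)} {Q : Subgroup H} {γ : G × G} (hQ : IsPGroup p Q) (h : IsChart P Q γ)
    {a : Kern R H X} (ha : FixedBy (biRep R H X) P a) :
    brc Q γ (gtaTheta ε₀ ε₁ d a) =
      (br Q ε₀.1 * brc Q γ a * br Q ε₀.1 + br Q ε₁.1 * brc Q γ a * br Q ε₁.1) * br Q d.1 -
        br Q d.1 * (br Q ε₀.1 * brc Q γ a * br Q ε₀.1 + br Q ε₁.1 * brc Q γ a * br Q ε₁.1) := by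
  have hf : FixedBy (biRep R H X) P (ε₀ * a * ε₀ + ε₁ * a * ε₁) :=
    gta_fix_add (gta_fix_right hC.inv₀ (gta_fix_left hC.inv₀ ha))
      (gta_fix_right hC.inv₁ (gta_fix_left hC.inv₁ ha))
  rw [gtaTheta_apply, brc_sub, brc_mul_right hp hpR hQ h hf hC.invd,
    brc_mul_left hp hpR hQ h hf hC.invd, brc_add, gta_brc_sand hp hpR hQ h ha hC.inv₀ hC.inv₀,
    gta_brc_sand hp hpR hQ h ha hC.inv₁ hC.inv₁]

/-- The kernel of the Brauer map of a chart. -/
def gtaKer (Q : Subgroup H) (γ : G × G) : AddSubgroup (Kern R H X) where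
  carrier := {a | brc Q γ a = 0}
  zero_mem' := by
    have := brc_sub (Q := Q) (γ := γ) (0 : Kern R H X) 0
    rwa [sub_self, sub_self] at this
  add_mem' := fun {a b} ha hb => by
    change brc Q γ (a + b) = 0
    rw [brc_add, show brc Q γ a = 0 from ha, show brc Q γ b = 0 from hb, add_zero]
  neg_mem' := fun {a} ha => by
    change brc Q γ (-a) = 0
    have := brc_sub (Q := Q) (γ := γ) a (a + a)
    rw [brc_add, show brc Q γ a = 0 from ha, add_zero, sub_zero] at this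
    rw [← this]
    congr 1
    abel

lemma mem_gtaKer {Q : Subgroup H} {γ : G × G} {a : Kern R H X} :
    a ∈ gtaKer Q γ ↔ brc Q γ a = 0 := Iff.rfl

/-- The fixed kernels. -/
def gtaFix (P : Subgroup (G × G)) : AddSubgroup (Kern R H X) where
  carrier := {a | FixedBy (biRep R H X) P a}
  zero_mem' := fun _ _ => map_zero _
  add_mem' := fun ha hb => gta_fix_add ha hb
  neg_mem' := fun {a} ha g hg => by rw [map_neg, ha g hg]

lemma gta_local (hp : p.Prime) (hpR : (p : R) ∈ maximalIdeal R) (hX : Biset H X κ)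
    (hC : CxData ε₀ ε₁ d σ) (hL : LocHyp p ε₀ ε₁ d 𝒬) {P : Subgroup (G × G)}
    (hP : IsPGroup p P) {w : Kern R H X} (hw : ε₀ * w * ε₁ = w)
    (hf : FixedBy (biRep R H X) P w) :
    ∃ l, FixedBy (biRep R H X) P l ∧ ∀ x y, FixP H P x y →
      (gtaTheta ε₀ ε₁ d l).1 x y - w.1 x y ∈ maximalIdeal R := by
  by_cases hP0 : P = ⊥
  · refine ⟨-(σ * w), fun g hg => ?_, fun x y _ => ?_⟩
    · rw [hP0, Subgroup.mem_bot] at hg
      rw [hg, map_one, Module.End.one_apply]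
    · have : gtaTheta ε₀ ε₁ d (-(σ * w)) = w := by
        rw [map_neg, gtaTheta_eq hC, ← mul_assoc, gta_e0s hC, zero_mul, zero_mul,
          ← mul_assoc, hC.ds, zero_sub, neg_neg, hw]
      rw [this, sub_self]
      exact zero_mem _
  · obtain ⟨l, hl, hl'⟩ := glue P 𝒬 (gtaFix P) (gtaTheta ε₀ ε₁ d).toAddMonoidHom w gtaKer
      (fun Q γ Q' γ' h h' e a ha => ChartRel.brc_eq_zero h h' e ha)
      (fun Q hQ γ h => by
        obtain ⟨a, ha, ha1, ha2⟩ := hL.surj Q hQ _ (brc_mem_lk (γ := γ) w)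
        obtain ⟨l, hl, hl1, hl2⟩ := exists_brc_lift hX h ha
        refine ⟨l, hl, ?_, fun Q' hQ' γ' h' e => ?_⟩
        · rw [mem_gtaKer, brc_sub, LinearMap.toAddMonoidHom_coe,
            gta_brc_theta hp hpR hC (hL.pgroup Q hQ) h hl, hl1, ← ha1, ha2,
            ← gta_brc_sand hp hpR (hL.pgroup Q hQ) h hf hC.inv₀ hC.inv₁, hw, sub_self]
        · rw [mem_gtaKer, LinearMap.toAddMonoidHom_coe,
            gta_brc_theta hp hpR hC (hL.pgroup Q' hQ') h' hl, hl2 Q' γ' h' e]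
          simp)
    refine ⟨l, hl, fun x y hxy => ?_⟩
    exact entry_mem_of_brc hX hL.cover hP hP0 (a := gtaTheta ε₀ ε₁ d l - w) hl' hxy

/-- `boucK_split` for `ε w = ε₀ w ε₁` and `θ a = a' d - d a'`, `a' = ε₀ a ε₀ + ε₁ a ε₁`.  For
`P = ⊥` take `a = - σ w`; otherwise use `glue` with `U Q γ` the kernel of `brc Q γ`,
`LocSurj` and `exists_brc_lift`. -/
theorem exists_section (hp : p.Prime) (hpR : (p : R) ∈ maximalIdeal R) (hX : Biset H X κ)
    (hC : CxData ε₀ ε₁ d σ) (hL : LocHyp p ε₀ ε₁ d 𝒬) :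
    ∃ s₁ : Kern R H X →ₗ[R] Kern R H X, EquivOn (biRep R H X) (biRep R H X) ⊤ s₁ ∧
      ∀ w, s₁ w = ε₀ * s₁ w * ε₀ + ε₁ * s₁ w * ε₁ ∧ s₁ w * d - d * s₁ w = ε₀ * w * ε₁ := by
  obtain ⟨τ, hτ, hτ'⟩ := boucK_split hp hpR (biRep R H X) (gtaSand ε₀ ε₁)
    (gtaSand_equiv hC.inv₀ hC.inv₁)
    (fun w => by
      simp only [gtaSand_apply, ← mul_assoc, hC.e00]
      rw [mul_assoc _ ε₁ ε₁, hC.e11])
    (gtaTheta ε₀ ε₁ d) (gtaTheta_equiv hC)
    (fun l => by
      rw [gtaSand_apply, gtaTheta_eq hC]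
      simp only [mul_sub, sub_mul, ← mul_assoc, hC.e00, hC.d0]
      simp only [mul_assoc, hC.e11, hC.d1])
    (fun P hP w hw hf => gta_local hp hpR hX hC hL hP hw hf)
  refine ⟨gtaDiag ε₀ ε₁ ∘ₗ τ, fun g hg m => ?_, fun w => ⟨gtaDiag_idem hC _, hτ' w⟩⟩
  rw [LinearMap.comp_apply, LinearMap.comp_apply, hτ g hg, gtaDiag_equiv hC g hg]

omit [IsLocalRing R] [Fintype G] in
/-- Adjoints for a frame of the whole algebra. -/
lemma gta_adjoint {A ι : Type} [Ring A] [Algebra R A] [Fintype ι] {s : A →ₗ[R] R} {β β' : ι → A}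
    (hF : IsFrame s ⊤ β β') (T : A →ₗ[R] A) :
    ∃ t : A →ₗ[R] A, ∀ b z, s (t b * z) = s (b * T z) := by
  refine ⟨∑ j, (s ∘ₗ LinearMap.mulRight R (T (β j))).smulRight (β' j), fun b z => ?_⟩
  conv_rhs => rw [← hF.repro z trivial]
  simp only [LinearMap.coe_sum, Finset.sum_apply, LinearMap.smulRight_apply, LinearMap.comp_apply,
    LinearMap.mulRight_apply, Finset.sum_mul, Finset.mul_sum, map_sum, smul_mul_assoc,
    mul_smul_comm, map_smul, smul_eq_mul]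
  exact Finset.sum_congr rfl (fun j _ => by rw [hF.symm _ trivial z trivial, mul_comm])

/-- The adjoint of the section for the form of `Biset.exists_frame`:
`t b = ∑ s (b (ε₀ - ε₁) s₁ (β j)) • β' j`, so `s (t b * z) = s (b (ε₀ - ε₁) s₁ z)`; note
`s₁ z = s₁ (ε₀ z ε₁)` may be arranged by precomposition. -/
theorem exists_retraction (hX : Biset H X κ) (hC : CxData ε₀ ε₁ d σ)
    (s₁ : Kern R H X →ₗ[R] Kern R H X) (h1 : EquivOn (biRep R H X) (biRep R H X) ⊤ s₁)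
    (h2 : ∀ w, s₁ w = ε₀ * s₁ w * ε₀ + ε₁ * s₁ w * ε₁ ∧ s₁ w * d - d * s₁ w = ε₀ * w * ε₁) :
    ∃ t : Kern R H X →ₗ[R] Kern R H X, EquivOn (biRep R H X) (biRep R H X) ⊤ t ∧
      (∀ b, t b = ε₁ * t b * ε₀) ∧ ∀ y, y = ε₁ * y * ε₀ → t (d * y + y * d) = y := by
  obtain ⟨s, n, β, β', hF⟩ := hX.exists_frame (R := R)
  obtain ⟨t, ht⟩ := gta_adjoint hF (LinearMap.mulLeft R (ε₀ - ε₁) ∘ₗ s₁ ∘ₗ gtaSand ε₀ ε₁)
  have ht' : ∀ b z, s (t b * z) = s (b * ((ε₀ - ε₁) * s₁ (ε₀ * z * ε₁))) := ht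
  have hs : ∀ x y, s (x * y) = s (y * x) := fun x y => hF.symm x trivial y trivial
  have he : GInv (ε₀ - ε₁) := fun g => by rw [mul_sub, sub_mul, hC.inv₀ g, hC.inv₁ g]
  have had : ∀ (γ : G × G) a z,
      s (biRep R H X γ a * z) = s (a * biRep R H X (γ.2⁻¹, γ.1⁻¹) z) := fun γ a z => by
    rw [biRep_apply, biRep_apply, mul_assoc, hs, inv_inv]
    simp only [mul_assoc]
  have hcut : ∀ z, ε₀ * (ε₀ * z * ε₁) * ε₁ = ε₀ * z * ε₁ := fun z => by
    simp only [← mul_assoc, hC.e00]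
    rw [mul_assoc _ ε₁ ε₁, hC.e11]
  refine ⟨t, fun γ _ b => ?_, fun b => ?_, fun y hy => ?_⟩
  · refine hF.ext trivial trivial (fun z _ => ?_)
    rw [ht', had, had, ht', ← gta_left hC.inv₀, ← gta_right hC.inv₁, h1 _ trivial, gta_left he]
  · refine hF.ext trivial trivial (fun z _ => ?_)
    rw [mul_assoc, mul_assoc, hs ε₁, mul_assoc, ht', ht', hcut]
  · refine hF.ext trivial trivial (fun z _ => ?_)
    have e0 : y * ε₀ = y := by rw [hy, mul_assoc, hC.e00]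
    have e1 : y * ε₁ = 0 := by rw [hy, mul_assoc, hC.e01, mul_zero]
    have e2 : (d * y + y * d) * (ε₀ - ε₁) = d * y - y * d := by
      rw [add_mul, mul_sub, mul_sub, mul_assoc, mul_assoc, mul_assoc, mul_assoc, e0, e1,
        gta_de0 hC, hC.d1, mul_zero, mul_zero, sub_zero, zero_sub, sub_eq_add_neg]
    rw [ht', ← mul_assoc, e2, sub_mul, map_sub, mul_assoc d, hs d, mul_assoc y, mul_assoc y,
      ← map_sub, ← mul_sub, (h2 _).2, hcut, ← mul_assoc, hs, ← mul_assoc, ← mul_assoc,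
      ← hy]

end Pool.Agent.Lib.MP_b6945b_al.St
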