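import Pool.Agent.Lib.MP_b6945b_al.St.Tr

set_option autoImplicit false
set_option linter.unusedSectionVars false

/-!
The two-term complex over a group with a subquotient `D / Q` of order `p`: the long Jordan blocks
of `N` are covered by the relatively projective module `T`.
-/

namespace Pool.Agent.Lib.MP_b6945b_al.St

variable {k Γ T N : Type} [Field k] [Group Γ] [Fintype Γ] [AddCommGroup T] [Module k T]
  [AddCommGroup N] [Module k N]

/-- `D / Q` is cyclic of order `p`, generated by `dd`. -/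
structure CycData (p : ℕ) (Q D : Subgroup Γ) (dd : Γ) : Prop where
  le : Q ≤ D
  normal : Q.Normal
  mem : dd ∈ D
  gen : ∀ δ ∈ D, ∃! i : Fin p, (dd ^ (i : ℕ))⁻¹ * δ ∈ Q
  pow : dd ^ p ∈ Q

omit [Fintype Γ] in
/-- A quotient of prime order is cyclic: take any `dd ∈ D` outside `Q`. -/
lemma exists_cycData [Finite Γ] {p : ℕ} (hp : p.Prime) {Q D : Subgroup Γ} (hQD : Q ≤ D)
    [Q.Normal] (h : Q.relIndex D = p) : ∃ dd, CycData p Q D dd := by
  have hF : Fact p.Prime := ⟨hp⟩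
  have hc : Nat.card (D ⧸ Q.subgroupOf D) = p := h
  have hC : IsCyclic (D ⧸ Q.subgroupOf D) := isCyclic_of_prime_card hc
  obtain ⟨g, hg⟩ := IsCyclic.exists_generator (α := D ⧸ Q.subgroupOf D)
  have ho : orderOf g = p := (orderOf_eq_card_of_forall_mem_zpowers hg).trans hc
  obtain ⟨a, rfl⟩ := QuotientGroup.mk_surjective g
  have key : ∀ (i : ℕ) (δ : D), ((a : Γ) ^ i)⁻¹ * δ ∈ Q ↔
      (a : D ⧸ Q.subgroupOf D) ^ i = (δ : D ⧸ Q.subgroupOf D) := by
    intro i δ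
    rw [← QuotientGroup.mk_pow, QuotientGroup.eq, Subgroup.mem_subgroupOf]
    simp
  refine ⟨a, hQD, inferInstance, a.2, fun δ hδ => ?_, ?_⟩
  · have h1 := mem_powers_iff_mem_zpowers.2 (hg ((⟨δ, hδ⟩ : D) : D ⧸ Q.subgroupOf D))
    obtain ⟨i, hi⟩ := h1
    have hi' : (a : D ⧸ Q.subgroupOf D) ^ (i % p) = ((⟨δ, hδ⟩ : D) : D ⧸ Q.subgroupOf D) := by
      rw [← ho, pow_mod_orderOf]
      exact hi
    refine ⟨⟨i % p, Nat.mod_lt _ hp.pos⟩, (key _ ⟨δ, hδ⟩).2 hi', fun j hj => Fin.ext ?_⟩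
    have hj' := (key j ⟨δ, hδ⟩).1 hj
    refine pow_injOn_Iio_orderOf (x := (a : D ⧸ Q.subgroupOf D)) ?_ ?_ (hj'.trans hi'.symm)
    · rw [ho]
      exact j.2
    · rw [ho]
      exact Nat.mod_lt _ hp.pos
  · have h1 := (key p 1).2 (by rw [← ho, pow_orderOf_eq_one]; rfl)
    simpa using h1

/-- The hypotheses on the two-term complex; `x` is `ρ dd - 1` and `h = p / 2`. -/
structure HeartData (p : ℕ) (Q D : Subgroup Γ) (dd : Γ) (ρT : Representation k Γ T)
    (ρN : Representation k Γ N) (d : T →ₗ[k] N) : Prop where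
  cyc : CycData p Q D dd
  trivT : ∀ q ∈ Q, ∀ t, ρT q t = t
  trivN : ∀ q ∈ Q, ∀ n, ρN q n = n
  equiv : EquivOn ρT ρN ⊤ d
  higT : ∃ ι, rtr (ρT.linHom ρT) Q ⊤ ι = LinearMap.id
  higN : ∃ ι, EquivOn ρN ρN D ι ∧ (∀ t, ι (d t) ∈ LinearMap.range d) ∧
    rtr (ρN.linHom ρN) D ⊤ ι = LinearMap.id
  cov1 : ∀ n, ∃ t n' κ, n = d t + (ρN dd - 1) n' + κ ∧ ((ρN dd - 1) ^ (p / 2)) κ = 0
  cov2 : ∀ t n' κ, d t = (ρN dd - 1) n' + κ → ((ρN dd - 1) ^ (p / 2)) κ = 0 →
    ∃ t', t = (ρT dd - 1) t'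
  reg : ∀ α, EquivOn ρN ρN ⊤ α → ∃ β θ, EquivOn ρN ρN ⊤ β ∧
    α ∘ₗ β ∘ₗ α - α = rtr (ρN.linHom ρN) Q ⊤ θ

omit [Fintype Γ] in
lemma CycData.pow_eq_zero {p : ℕ} [Fact p.Prime] [CharP k p] {Q D : Subgroup Γ} {dd : Γ}
    (h : CycData p Q D dd) {ρ : Representation k Γ T} (hQ : ∀ q ∈ Q, ∀ t, ρ q t = t) :
    (ρ dd - 1) ^ p = 0 := by
  have h1 : ((Polynomial.X - 1 : Polynomial k)) ^ p = Polynomial.X ^ p - 1 := by
    rw [sub_pow_char, one_pow]
  have h2 := congrArg (Polynomial.aeval (ρ dd)) h1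
  simp only [map_pow, map_sub, Polynomial.aeval_X, map_one] at h2
  have h3 : ρ (dd ^ p) = 1 := LinearMap.ext (hQ _ h.pow)
  rw [h2, ← map_pow, h3, sub_self]

omit [Fintype Γ] in
lemma hearta_eq_pow {p : ℕ} {Q D : Subgroup Γ} {dd : Γ} (h : CycData p Q D dd)
    {ρ : Representation k Γ T} (hQ : ∀ q ∈ Q, ∀ t, ρ q t = t) {δ : Γ} (hδ : δ ∈ D) :
    ∃ i : ℕ, ρ δ = ρ dd ^ i := by
  obtain ⟨i, hi, -⟩ := h.gen δ hδ
  refine ⟨i, ?_⟩
  have e : δ = dd ^ (i : ℕ) * ((dd ^ (i : ℕ))⁻¹ * δ) := by group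
  have e1 : ρ ((dd ^ (i : ℕ))⁻¹ * δ) = 1 := LinearMap.ext (hQ _ hi)
  rw [e, map_mul, e1, mul_one, map_pow]

omit [Fintype Γ] in
/-- `ρ δ - 1` is `x` times a polynomial in `ρ dd`. -/
lemma CycData.exists_mul {p : ℕ} {Q D : Subgroup Γ} {dd : Γ} (h : CycData p Q D dd)
    {ρ : Representation k Γ T} (hQ : ∀ q ∈ Q, ∀ t, ρ q t = t) {δ : Γ} (hδ : δ ∈ D) :
    ∃ y : Module.End k T, Commute (ρ dd - 1) y ∧ ρ δ - 1 = (ρ dd - 1) * y := by
  obtain ⟨i, hi⟩ := hearta_eq_pow h hQ hδ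
  refine ⟨∑ j ∈ Finset.range i, ρ dd ^ j, ?_, ?_⟩
  · exact Commute.sum_right _ _ _ fun j _ =>
      ((Commute.refl (ρ dd)).sub_left (Commute.one_left _)).pow_right j
  · rw [hi, mul_geom_sum]

lemma hearta_geom {p : ℕ} [Fact p.Prime] [CharP k p] (y : Module.End k T) :
    ∑ i ∈ Finset.range p, y ^ i = (y - 1) ^ (p - 1) := by
  have hp1 : p - 1 + 1 = p := Nat.sub_add_cancel (Fact.out : p.Prime).pos
  have h0 : (Polynomial.X - 1 : Polynomial k) ≠ 0 := by
    rw [← Polynomial.C_1]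
    exact Polynomial.X_sub_C_ne_zero 1
  have h1 : ∑ i ∈ Finset.range p, (Polynomial.X : Polynomial k) ^ i =
      (Polynomial.X - 1) ^ (p - 1) := by
    refine mul_left_cancel₀ h0 ?_
    rw [mul_geom_sum, ← pow_succ', hp1, sub_pow_char, one_pow]
  have h2 := congrArg (Polynomial.aeval y) h1
  simpa only [map_sum, map_pow, map_sub, Polynomial.aeval_X, map_one] using h2

lemma hearta_pow_zero {x : Module.End k T} {a b : ℕ} {t : T} (h : (x ^ a) t = 0) (hab : a ≤ b) :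
    (x ^ b) t = 0 := by
  rw [← Nat.sub_add_cancel hab, pow_add, Module.End.mul_apply, h, map_zero]

omit [Fintype Γ] in
lemma hearta_ker {ρ : Representation k Γ T} {ρ' : Representation k Γ N} (dd : Γ)
    (W : Submodule k N) (hW : ∀ n ∈ W, ρ' dd n ∈ W) (φ : T →ₗ[k] N) (hφ : ∀ t, φ t ∈ W) (m : ℕ) :
    ∀ (j : ℕ) (t : T), ((ρ dd - 1) ^ j) t = 0 → ∃ n ∈ W,
      (((ρ.linHom ρ') dd - 1) ^ m) φ t = ((ρ' dd - 1) ^ (m + 1 - j)) n := by
  have hx : ∀ (e : ℕ), ∀ n ∈ W, ((ρ' dd - 1) ^ e) n ∈ W := by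
    intro e
    induction e with
    | zero => exact fun n hn => hn
    | succ e ih =>
      intro n hn
      rw [pow_succ, Module.End.mul_apply]
      exact ih _ (sub_mem (hW n hn) hn)
  have hz : ∀ (m : ℕ) (t : T), ((ρ dd - 1) ^ (0 : ℕ) : Module.End k T) t = 0 → ∃ n ∈ W,
      (((ρ.linHom ρ') dd - 1) ^ m) φ t = ((ρ' dd - 1) ^ (m + 1 - 0)) n := by
    intro m t ht
    have e : t = 0 := ht
    exact ⟨0, zero_mem _, by rw [e, map_zero, map_zero]⟩
  induction m with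
  | zero =>
    intro j t ht
    rcases j with _ | j
    · exact hz 0 t ht
    · exact ⟨φ t, hφ t, by simp⟩
  | succ m ih =>
    intro j t ht
    rcases j with _ | j
    · exact hz _ t ht
    have hc : Commute (ρ dd⁻¹) (ρ dd - 1) := by
      refine Commute.sub_right ?_ (Commute.one_right _)
      exact (Commute.refl dd).inv_left.map ρ
    have h1 : ((ρ dd - 1) ^ (j + 1)) (ρ dd⁻¹ t) = 0 := by
      rw [← Module.End.mul_apply, ← (hc.pow_right _).eq, Module.End.mul_apply, ht, map_zero]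
    have h2 : ((ρ dd - 1) ^ j) ((ρ dd - 1) (ρ dd⁻¹ t)) = 0 := by
      rw [← Module.End.mul_apply, ← pow_succ, h1]
    obtain ⟨n1, hn1, e1⟩ := ih _ _ h1
    obtain ⟨n2, hn2, e2⟩ := ih _ _ h2
    have e3 : t = ρ dd⁻¹ t + (ρ dd - 1) (ρ dd⁻¹ t) := by
      rw [LinearMap.sub_apply, Module.End.one_apply, add_sub_cancel, ← Module.End.mul_apply,
        ← map_mul, mul_inv_cancel, map_one, Module.End.one_apply]
    have e4 : m + 1 + 1 - (j + 1) = m + 1 - j := by omega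
    obtain ⟨c, hc⟩ : ∃ c, m + 1 - (j + 1) + 1 = m + 1 - j + c := ⟨_, (Nat.add_sub_cancel'
      (by omega)).symm⟩
    refine ⟨((ρ' dd - 1) ^ c) n1 - n2, sub_mem (hx c n1 hn1) hn2, ?_⟩
    set ψ := (((ρ.linHom ρ') dd - 1) ^ m) φ with hψ
    have e5 : (((ρ.linHom ρ') dd - 1) ^ (m + 1)) φ t = ρ' dd (ψ (ρ dd⁻¹ t)) - ψ t := by
      rw [pow_succ', Module.End.mul_apply, ← hψ]
      rfl
    have e6 : ψ t = ψ (ρ dd⁻¹ t) + ψ ((ρ dd - 1) (ρ dd⁻¹ t)) := by rw [← map_add, ← e3]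
    have e7 : ((ρ' dd - 1) ^ (m + 1 - j)) (((ρ' dd - 1) ^ c) n1) =
        ρ' dd (ψ (ρ dd⁻¹ t)) - ψ (ρ dd⁻¹ t) := by
      rw [← Module.End.mul_apply, ← pow_add, ← hc, pow_succ', Module.End.mul_apply, ← e1]
      rfl
    rw [e4, e5, e6, map_sub, e7, ← e2, sub_sub]

/-- Relatively projective maps send the kernel of `x ^ j` into the range of `x ^ (p - j)`.
With a right transversal `t` of `D` the elements `dd ^ i * t` form a left transversal of the
normal subgroup `Q` (`rtr_eq_sum`), so the map is `∑ i, g ^ i θ' g ^ (-i)`.  In characteristic `p`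
one has `∑ i < p, Y ^ i = (Y - 1) ^ (p - 1)`; for `Y` conjugation by `g = 1 + x` this is
`(L x - R x) ^ (p - 1)` composed with a power of `R g⁻¹`; expand binomially. -/
lemma CycData.rtr_ker {p : ℕ} [Fact p.Prime] [CharP k p] {Q D : Subgroup Γ} {dd : Γ}
    (h : CycData p Q D dd) {ρ : Representation k Γ T} {ρ' : Representation k Γ N}
    (hQ : ∀ q ∈ Q, ∀ t, ρ q t = t) (hQ' : ∀ q ∈ Q, ∀ n, ρ' q n = n) (θ : T →ₗ[k] N) {j : ℕ}
    {t : T} (ht : ((ρ dd - 1) ^ j) t = 0) :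
    ∃ n ∈ Submodule.span k {n | ∃ g t', n = ρ' g (θ t')},
      rtr (ρ.linHom ρ') Q ⊤ θ t = ((ρ' dd - 1) ^ (p - j)) n := by
  obtain ⟨n, s, -, -, hs⟩ := exists_transversal (le_top : D ≤ ⊤)
  have hfix : FixedBy (ρ.linHom ρ') Q θ := fixedBy_linHom.2 fun g hg m => by
    rw [hQ g hg, hQ' g hg]
  have hn : ∀ (i : Fin p) (a : Fin n) (g : Γ),
      (dd ^ (i : ℕ) * (s a)⁻¹)⁻¹ * g ∈ Q ↔ (dd ^ (i : ℕ))⁻¹ * (g * s a) ∈ Q := by
    intro i a g
    rw [mul_inv_rev, inv_inv, mul_assoc, h.normal.mem_comm_iff, mul_assoc]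
  have e1 : rtr (ρ.linHom ρ') Q ⊤ θ =
      ∑ x : Fin p × Fin n, (ρ.linHom ρ') (dd ^ (x.1 : ℕ) * (s x.2)⁻¹) θ := by
    refine rtr_eq_sum le_top hfix _ (fun _ => Subgroup.mem_top _) fun g _ => ?_
    obtain ⟨a, ha, hu⟩ := hs g⁻¹ (Subgroup.mem_top _)
    have ha' : g * s a ∈ D := by simpa using D.inv_mem ha
    obtain ⟨i, hi, hu'⟩ := h.gen _ ha'
    refine ⟨(i, a), (hn i a g).2 hi, ?_⟩
    rintro ⟨j, b⟩ hj
    have hj' := (hn j b g).1 hj
    have hb : g * s b ∈ D := by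
      simpa using D.mul_mem (D.pow_mem h.mem j) (h.le hj')
    have e : b = a := hu b (by simpa using D.inv_mem hb)
    subst e
    rw [hu' j hj']
  have e2 : rtr (ρ.linHom ρ') Q ⊤ θ =
      (((ρ.linHom ρ') dd - 1) ^ (p - 1)) (∑ a, (ρ.linHom ρ') (s a)⁻¹ θ) := by
    rw [e1, ← hearta_geom, Fintype.sum_prod_type, LinearMap.sum_apply,
      ← Fin.sum_univ_eq_sum_range (fun i => ((ρ.linHom ρ') dd ^ i) (∑ a, (ρ.linHom ρ') (s a)⁻¹ θ))]
    refine Finset.sum_congr rfl fun i _ => ?_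
    rw [map_sum]
    refine Finset.sum_congr rfl fun a _ => ?_
    rw [map_mul, map_pow, Module.End.mul_apply]
  have hp1 : p - 1 + 1 = p := Nat.sub_add_cancel (Fact.out : p.Prime).pos
  have hW : ∀ m ∈ Submodule.span k {n | ∃ g t', n = ρ' g (θ t')},
      ρ' dd m ∈ Submodule.span k {n | ∃ g t', n = ρ' g (θ t')} := by
    intro m hm
    refine Submodule.span_induction (fun x hx => ?_) (by simp) (fun x y _ _ hx hy => ?_)
      (fun a x _ hx => ?_) hm
    · obtain ⟨g, t', rfl⟩ := hx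
      exact Submodule.subset_span ⟨dd * g, t', by rw [map_mul, Module.End.mul_apply]⟩
    · rw [map_add]
      exact add_mem hx hy
    · rw [map_smul]
      exact Submodule.smul_mem _ _ hx
  have := hearta_ker dd (Submodule.span k {n | ∃ g t', n = ρ' g (θ t')}) hW
    (∑ a, (ρ.linHom ρ') (s a)⁻¹ θ) (fun t' => by
      rw [LinearMap.sum_apply]
      exact Submodule.sum_mem _ fun a _ => Submodule.subset_span ⟨_, _, rfl⟩) (p - 1) j t ht
  rwa [hp1, ← e2] at this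

lemma hearta_compl (x : Module.End k N) (e : ℕ) : ∀ (L M : Submodule k N), L ≤ M →
    (∀ l ∈ L, x l ∈ L) → (∀ m ∈ M, x m ∈ M) → (∀ m ∈ M, (x ^ e) m = 0) →
    (∀ (j : ℕ), ∀ m ∈ M, (x ^ j) m ∈ L → ∃ l ∈ L, (x ^ j) m = (x ^ j) l) →
    ∃ C : Submodule k N, C ≤ M ∧ (∀ c ∈ C, x c ∈ C) ∧ Disjoint L C ∧ L ⊔ C = M := by
  induction e with
  | zero =>
    intro L M hLM _ _ h0 _
    refine ⟨⊥, bot_le, fun c hc => ?_, disjoint_bot_right, ?_⟩
    · rw [(Submodule.mem_bot k).1 hc, map_zero]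
      exact zero_mem _
    · rw [sup_bot_eq]
      refine le_antisymm hLM fun m hm => ?_
      have : m = 0 := h0 m hm
      rw [this]
      exact zero_mem _
  | succ e ih =>
    intro L M hLM hL hM h0 hp
    obtain ⟨C1, a1, a2, a3, a4⟩ := ih (L.map x) (M.map x) (Submodule.map_mono hLM)
      (by
        rintro _ ⟨l, hl, rfl⟩
        exact ⟨x l, hL l hl, rfl⟩)
      (by
        rintro _ ⟨m, hm, rfl⟩
        exact ⟨x m, hM m hm, rfl⟩)
      (by
        rintro _ ⟨m, hm, rfl⟩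
        rw [← Module.End.mul_apply, ← pow_succ]
        exact h0 m hm)
      (by
        rintro j _ ⟨m, hm, rfl⟩ ⟨l, hl, h1⟩
        rw [← Module.End.mul_apply, ← pow_succ] at h1
        obtain ⟨l', hl', h2⟩ := hp (j + 1) m hm (h1 ▸ hL l hl)
        refine ⟨x l', ⟨l', hl', rfl⟩, ?_⟩
        rw [← Module.End.mul_apply, ← pow_succ, h2, pow_succ, Module.End.mul_apply])
    have b1 : C1 ≤ M ⊓ C1.comap x := fun c hc => by
      obtain ⟨m, hm, rfl⟩ := a1 hc
      exact ⟨hM m hm, a2 _ hc⟩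
    have b2 : Disjoint L C1 := by
      rw [Submodule.disjoint_def] at a3 ⊢
      intro c hl hc
      obtain ⟨m, hm, rfl⟩ := a1 hc
      obtain ⟨l, hl', h2⟩ := hp 1 m hm (by rwa [pow_one])
      rw [pow_one] at h2
      exact a3 _ ⟨l, hl', h2.symm⟩ hc
    obtain ⟨E, c1, c2⟩ := IsModularLattice.exists_disjoint_and_sup_eq
      (show L ⊓ (M ⊓ C1.comap x) ⊔ C1 ≤ M ⊓ C1.comap x from sup_le inf_le_right b1)
    have d1 : C1 ⊔ E ≤ M ⊓ C1.comap x := sup_le b1 (c2 ▸ le_sup_right)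
    refine ⟨C1 ⊔ E, d1.trans inf_le_left, fun c hc => Submodule.mem_sup_left (d1 hc).2, ?_, ?_⟩
    · have d2 : Disjoint (L ⊓ (M ⊓ C1.comap x)) (C1 ⊔ E) :=
        (b2.mono_left inf_le_left).disjoint_sup_right_of_disjoint_sup_left c1
      rw [Submodule.disjoint_def] at d2 ⊢
      exact fun c hl hc => d2 c ⟨hl, d1 hc⟩ hc
    · refine le_antisymm (sup_le hLM (d1.trans inf_le_left)) fun m hm => ?_
      have d3 : x m ∈ L.map x ⊔ C1 := a4 ▸ ⟨m, hm, rfl⟩
      obtain ⟨_, ⟨l, hl, rfl⟩, c, hc, d4⟩ := Submodule.mem_sup.1 d3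
      have d5 : m - l ∈ M ⊓ C1.comap x := by
        refine ⟨sub_mem hm (hLM hl), ?_⟩
        change x (m - l) ∈ C1
        rw [map_sub, ← d4, add_sub_cancel_left]
        exact hc
      have d6 : M ⊓ C1.comap x ≤ L ⊔ (C1 ⊔ E) := by
        rw [← c2, sup_assoc]
        exact sup_le_sup_right inf_le_left _
      have d7 := add_mem (d6 d5) (Submodule.mem_sup_left hl)
      rwa [sub_add_cancel] at d7

/-- Pure submodules for a nilpotent endomorphism split.  Either use the structure theorem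
`Module.torsion_by_prime_power_decomposition` for `N / L` over `k[X]`, lifting generators to
elements of the same order, or argue by induction on the dimension of `N / L`. -/
theorem exists_split_of_pure [FiniteDimensional k N] (x : Module.End k N) (hx : IsNilpotent x)
    (L : Submodule k N) (hL : ∀ l ∈ L, x l ∈ L)
    (hp : ∀ (j : ℕ) (n : N), (x ^ j) n ∈ L → ∃ l ∈ L, (x ^ j) n = (x ^ j) l) :
    ∃ π : Module.End k N, π * x = x * π ∧ (∀ n, π n ∈ L) ∧ ∀ l ∈ L, π l = l := by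
  obtain ⟨e, he⟩ := hx
  obtain ⟨C, -, hC, h1, h2⟩ := hearta_compl x e L ⊤ le_top hL (fun _ _ => Submodule.mem_top)
    (fun m _ => by rw [he, LinearMap.zero_apply]) fun j m _ hm => hp j m hm
  have hc : IsCompl L C := ⟨h1, codisjoint_iff.2 h2⟩
  refine ⟨L.projection C hc, LinearMap.ext fun n => ?_, Submodule.projection_apply_mem hc,
    fun l hl => Submodule.projection_apply_of_mem_left hc hl⟩
  have h3 := Submodule.sub_projection_mem hc n
  have h4 : x n = x (L.projection C hc n) + x (n - L.projection C hc n) := by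
    rw [← map_add, add_sub_cancel]
  rw [Module.End.mul_apply, Module.End.mul_apply, h4, map_add,
    Submodule.projection_apply_of_mem_left hc (hL _ (Submodule.projection_apply_mem hc n)),
    (Submodule.projection_apply_eq_zero_iff hc).2 (hC _ h3), add_zero]

namespace HeartData

variable {p : ℕ} [Fact p.Prime] [CharP k p] {Q D : Subgroup Γ} {dd : Γ}
  {ρT : Representation k Γ T} {ρN : Representation k Γ N} {d : T →ₗ[k] N}

omit [Fact p.Prime] [CharP k p] in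
lemma hearta_comm (h : HeartData p Q D dd ρT ρN d) (j : ℕ) (t : T) :
    d (((ρT dd - 1) ^ j) t) = ((ρN dd - 1) ^ j) (d t) := by
  induction j with
  | zero => rfl
  | succ j ih =>
    rw [pow_succ', pow_succ', Module.End.mul_apply, Module.End.mul_apply, ← ih,
      LinearMap.sub_apply, LinearMap.sub_apply, map_sub, h.equiv dd (Subgroup.mem_top _)]
    rfl

omit [Fact p.Prime] [CharP k p] in
lemma hearta_div (h : HeartData p Q D dd ρT ρN d) {j : ℕ} (hj : j ≤ p / 2 + 1) {t : T} {n : N}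
    (ht : d t = ((ρN dd - 1) ^ j) n) : ∃ t', t = ((ρT dd - 1) ^ j) t' := by
  have key : ∀ i, i ≤ j → ∃ t', t = ((ρT dd - 1) ^ i) t' := by
    intro i
    induction i with
    | zero => exact fun _ => ⟨t, rfl⟩
    | succ i ih =>
      intro hi
      obtain ⟨t', e⟩ := ih (by omega)
      obtain ⟨c, rfl⟩ : ∃ c, j = i + (1 + c) := ⟨j - (i + 1), by omega⟩
      have h1 : ((ρN dd - 1) ^ i) (d t' - (ρN dd - 1) (((ρN dd - 1) ^ c) n)) = 0 := by
        rw [map_sub, ← h.hearta_comm, ← e, ht, pow_add, pow_add, pow_one, Module.End.mul_apply,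
          Module.End.mul_apply, sub_self]
      obtain ⟨t'', e'⟩ := h.cov2 t' (((ρN dd - 1) ^ c) n) _ (add_sub_cancel _ _).symm
        (hearta_pow_zero h1 (by omega))
      exact ⟨t'', by rw [e, e', pow_succ, Module.End.mul_apply]⟩
  exact key j le_rfl

/-- Iterate `cov2`: if `t = x ^ j t'` with `j ≤ h` then `d t'` is killed by `x ^ h`. -/
lemma ker_le (h : HeartData p Q D dd ρT ρN d) {t : T} (ht : d t = 0) :
    ∃ t', t = ((ρT dd - 1) ^ (p / 2 + 1)) t' := by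
  exact h.hearta_div le_rfl (n := 0) (by rw [ht, map_zero])

/-- Iterate `cov1`, using that `x` is nilpotent. -/
lemma pow_range (h : HeartData p Q D dd ρT ρN d) {j : ℕ} (hj : p / 2 ≤ j) (n : N) :
    ∃ t, ((ρN dd - 1) ^ j) n = ((ρN dd - 1) ^ j) (d t) := by
  have key : ∀ m : ℕ, ∃ t n', ((ρN dd - 1) ^ j) n =
      ((ρN dd - 1) ^ j) (d t) + ((ρN dd - 1) ^ (j + m)) n' := by
    intro m
    induction m with
    | zero => exact ⟨0, n, by simp⟩
    | succ m ih =>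
      obtain ⟨t, n', e⟩ := ih
      obtain ⟨t1, n1, κ, e1, hκ⟩ := h.cov1 n'
      refine ⟨t + ((ρT dd - 1) ^ m) t1, n1, ?_⟩
      have e2 : ((ρN dd - 1) ^ (j + m)) κ = 0 := hearta_pow_zero hκ (by omega)
      rw [e, e1, map_add, map_add, e2, map_add, map_add, h.hearta_comm, add_zero,
        ← add_assoc j m 1, pow_succ, pow_add, Module.End.mul_apply, Module.End.mul_apply,
        Module.End.mul_apply, add_assoc, Module.End.mul_apply]
  obtain ⟨t, n', e⟩ := key p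
  refine ⟨t, ?_⟩
  rw [e, pow_add, h.cyc.pow_eq_zero h.trivN, mul_zero, LinearMap.zero_apply, add_zero]

/-- Induction on `j`; for `j ≤ h + 1` use `cov2`, otherwise `pow_range`. -/
lemma pure (h : HeartData p Q D dd ρT ρN d) (j : ℕ) (n : N)
    (hn : ((ρN dd - 1) ^ j) n ∈ LinearMap.range d) :
    ∃ t, ((ρN dd - 1) ^ j) n = ((ρN dd - 1) ^ j) (d t) := by
  by_cases hj : p / 2 ≤ j
  · exact h.pow_range hj n
  · obtain ⟨t0, ht0⟩ := hn
    obtain ⟨t, rfl⟩ := h.hearta_div (by omega) ht0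
    exact ⟨t, by rw [← ht0, h.hearta_comm]⟩

/-- The range of `d` is a direct summand: average `π₀ ∘ ι` from `D`. -/
theorem exists_proj [FiniteDimensional k N] (h : HeartData p Q D dd ρT ρN d) :
    ∃ π : N →ₗ[k] N, EquivOn ρN ρN ⊤ π ∧ (∀ n, π n ∈ LinearMap.range d) ∧
      ∀ t, π (d t) = d t := by
  obtain ⟨π, h1, h2, h3⟩ := exists_split_of_pure (ρN dd - 1) ⟨p, h.cyc.pow_eq_zero h.trivN⟩
    (LinearMap.range d) (by
      rintro _ ⟨t, rfl⟩
      refine ⟨(ρT dd - 1) t, ?_⟩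
      have := h.hearta_comm 1 t
      rwa [pow_one, pow_one] at this) (fun j n hn => by
      obtain ⟨t, ht⟩ := h.pure j n hn
      exact ⟨d t, ⟨t, rfl⟩, ht⟩)
  obtain ⟨ι, i1, i2, i3⟩ := h.higN
  have hc : Commute π (ρN dd) := by
    have := (show Commute π (ρN dd - 1) from h1).add_right (Commute.one_right π)
    rwa [sub_add_cancel] at this
  have hπ : EquivOn ρN ρN D (π ∘ₗ ι) := by
    intro g hg m
    obtain ⟨i, hi⟩ := hearta_eq_pow h.cyc h.trivN hg
    rw [LinearMap.comp_apply, LinearMap.comp_apply, i1 g hg, hi]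
    exact LinearMap.congr_fun (hc.pow_right i).eq _
  refine ⟨rtr (ρN.linHom ρN) D ⊤ (π ∘ₗ ι),
    fixedBy_linHom.1 (rtr_fixed le_top (fixedBy_linHom.2 hπ)), ?_, fun t => ?_⟩
  · let W : AddSubgroup (N →ₗ[k] N) :=
      { carrier := {φ | ∀ n, φ n ∈ LinearMap.range d}
        add_mem' := fun ha hb n => add_mem (ha n) (hb n)
        zero_mem' := fun _ => zero_mem _
        neg_mem' := fun ha n => neg_mem (ha n) }
    refine rtr_mem W fun g _ n => ?_
    obtain ⟨t, ht⟩ := h2 (ι (ρN g⁻¹ n))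
    exact ⟨ρT g t, by rw [h.equiv g (Subgroup.mem_top _), ht]; rfl⟩
  · have e1 : (π ∘ₗ ι) ∘ₗ d = ι ∘ₗ d := LinearMap.ext fun t => h3 _ (i2 t)
    have e2 : rtr (ρN.linHom ρN) D ⊤ (π ∘ₗ ι) ∘ₗ d = d := by
      rw [rtr_comp h.equiv, e1, ← rtr_comp h.equiv, i3, LinearMap.id_comp]
    exact LinearMap.congr_fun e2 t

end HeartData

end Pool.Agent.Lib.MP_b6945b_al.St
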