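import Pool.Agent.Lib.MP_b6945b_al.St.HeartA

set_option autoImplicit false

/-!
Vanishing of negative self-extensions, and relatively projective chain maps are null-homotopic.
-/

namespace Pool.Agent.Lib.MP_b6945b_al.St

variable {k Γ T N : Type} [Field k] [Group Γ] [Fintype Γ] [AddCommGroup T] [Module k T]
  [AddCommGroup N] [Module k N]

omit [Fintype Γ] in
lemma heartb_dual [FiniteDimensional k T] [FiniteDimensional k N]
    (f : Module.Dual k (T →ₗ[k] N)) :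
    ∃ z : N →ₗ[k] T, ∀ ψ : T →ₗ[k] N, f ψ = LinearMap.trace k N (ψ ∘ₗ z) := by
  let B : (N →ₗ[k] T) →ₗ[k] Module.Dual k (T →ₗ[k] N) :=
    { toFun := fun z => LinearMap.trace k N ∘ₗ LinearMap.lcomp k N z
      map_add' := fun z z' => by
        refine LinearMap.ext fun ψ => ?_
        change LinearMap.trace k N (ψ ∘ₗ (z + z')) =
          LinearMap.trace k N (ψ ∘ₗ z) + LinearMap.trace k N (ψ ∘ₗ z')
        rw [LinearMap.comp_add, map_add]
      map_smul' := fun c z => by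
        refine LinearMap.ext fun ψ => ?_
        change LinearMap.trace k N (ψ ∘ₗ (c • z)) = c • LinearMap.trace k N (ψ ∘ₗ z)
        rw [LinearMap.comp_smul, map_smul] }
  have hinj : Function.Injective B := by
    rw [injective_iff_map_eq_zero]
    intro z hz
    refine LinearMap.ext fun n => ?_
    refine (Module.forall_dual_apply_eq_zero_iff k (z n)).1 fun g => ?_
    have h1 : LinearMap.trace k N (g.smulRight n ∘ₗ z) = 0 := LinearMap.congr_fun hz (g.smulRight n)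
    have h2 : g.smulRight n ∘ₗ z = (g ∘ₗ z).smulRight n := rfl
    rw [h2, LinearMap.trace_smulRight] at h1
    exact h1
  have hdim : Module.finrank k (N →ₗ[k] T) = Module.finrank k (Module.Dual k (T →ₗ[k] N)) := by
    rw [Subspace.dual_finrank_eq, Module.finrank_linearMap, Module.finrank_linearMap, mul_comm]
  obtain ⟨z, hz⟩ := (LinearMap.injective_iff_surjective_of_finrank_eq_finrank hdim).1 hinj f
  exact ⟨z, fun ψ => (LinearMap.congr_fun hz ψ).symm⟩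

omit [Fintype Γ] in
lemma heartb_nondeg [FiniteDimensional k N] {z : N →ₗ[k] T}
    (h : ∀ ψ : T →ₗ[k] N, LinearMap.trace k N (ψ ∘ₗ z) = 0) : z = 0 := by
  refine LinearMap.ext fun n => ?_
  refine (Module.forall_dual_apply_eq_zero_iff k (z n)).1 fun g => ?_
  have h1 := h (g.smulRight n)
  have h2 : g.smulRight n ∘ₗ z = (g ∘ₗ z).smulRight n := rfl
  rw [h2, LinearMap.trace_smulRight] at h1
  exact h1

omit [Fintype Γ] in
lemma heartb_inv (ρ : Representation k Γ T) (g : Γ) (t : T) : ρ g (ρ g⁻¹ t) = t := by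
  rw [← Module.End.mul_apply, ← map_mul, mul_inv_cancel, map_one, Module.End.one_apply]

omit [Fintype Γ] in
lemma heartb_fixed {Q : Subgroup Γ} {ρ : Representation k Γ T} {ρ' : Representation k Γ N}
    (hQ : ∀ q ∈ Q, ∀ t, ρ q t = t) (hQ' : ∀ q ∈ Q, ∀ n, ρ' q n = n) (θ : T →ₗ[k] N) :
    FixedBy (ρ.linHom ρ') Q θ :=
  fixedBy_linHom.2 fun g hg m => by rw [hQ g hg, hQ' g hg]

lemma heartb_sum {Q : Subgroup Γ} [Fintype (Γ ⧸ Q)] {ρ : Representation k Γ T} {m : T}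
    (hm : FixedBy ρ Q m) (f : Γ ⧸ Q → Γ) (hf : Function.Bijective fun q => (f q : Γ ⧸ Q)) :
    rtr ρ Q ⊤ m = ∑ q, ρ (f q) m := by
  refine rtr_eq_sum le_top hm f (fun _ => Subgroup.mem_top _) fun g _ => ?_
  obtain ⟨q, hq, hu⟩ := hf.existsUnique (g : Γ ⧸ Q)
  exact ⟨q, QuotientGroup.eq.1 hq, fun q' h => hu q' (QuotientGroup.eq.2 h)⟩

lemma heartb_rtr_act {Q : Subgroup Γ} (hn : Q.Normal) {ρ : Representation k Γ T} {m : T}
    (hm : FixedBy ρ Q m) (g : Γ) : rtr ρ Q ⊤ (ρ g m) = rtr ρ Q ⊤ m := by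
  classical
  have hm' : FixedBy ρ Q (ρ g m) := fun q hq => by
    have h1 := hm _ (hn.conj_mem' q hq g)
    rw [← Module.End.mul_apply, ← map_mul, show q * g = g * (g⁻¹ * q * g) by group, map_mul,
      Module.End.mul_apply, h1]
  rw [heartb_sum hm' Quotient.out (by simp),
    heartb_sum hm (fun q => q.out * g) (by simpa using Group.mulRight_bijective (g : Γ ⧸ Q))]
  exact Finset.sum_congr rfl fun q _ => by rw [map_mul, Module.End.mul_apply]

lemma heartb_trace [FiniteDimensional k N] {Q : Subgroup Γ} (hn : Q.Normal)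
    {ρ : Representation k Γ N} (hQ : ∀ q ∈ Q, ∀ n, ρ q n = n) (φ ζ : N →ₗ[k] N) :
    LinearMap.trace k N (φ ∘ₗ rtr (ρ.linHom ρ) Q ⊤ ζ) =
      LinearMap.trace k N (rtr (ρ.linHom ρ) Q ⊤ φ ∘ₗ ζ) := by
  classical
  rw [heartb_sum (heartb_fixed hQ hQ ζ) Quotient.out (by simp),
    heartb_sum (heartb_fixed hQ hQ φ) (fun q => q.out⁻¹)
      (by simpa using (inv_involutive (G := Γ ⧸ Q)).bijective),
    ← Module.End.mul_eq_comp, ← Module.End.mul_eq_comp, Finset.mul_sum, Finset.sum_mul, map_sum,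
    map_sum]
  refine Finset.sum_congr rfl fun q _ => ?_
  rw [Representation.linHom_apply, Representation.linHom_apply, inv_inv,
    ← Module.End.mul_eq_comp, ← Module.End.mul_eq_comp, ← Module.End.mul_eq_comp,
    ← Module.End.mul_eq_comp, ← mul_assoc, ← mul_assoc, LinearMap.trace_mul_comm, ← mul_assoc,
    ← mul_assoc, mul_assoc (ρ _) φ]

omit [Fintype Γ] in
lemma heartb_pow {ρ : Representation k Γ T} {ρ' : Representation k Γ N} {φ : T →ₗ[k] N}
    (hφ : EquivOn ρ ρ' ⊤ φ) (g : Γ) (j : ℕ) (t : T) :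
    φ (((ρ g - 1) ^ j) t) = ((ρ' g - 1) ^ j) (φ t) := by
  induction j generalizing t with
  | zero => rfl
  | succ j ih =>
    rw [pow_succ, pow_succ, Module.End.mul_apply, Module.End.mul_apply, ih, LinearMap.sub_apply,
      LinearMap.sub_apply, map_sub φ, hφ g (Subgroup.mem_top _), Module.End.one_apply,
      Module.End.one_apply]

omit [Fintype Γ] in
lemma heartb_comp {M : Type} [AddCommGroup M] [Module k M] {ρ : Representation k Γ T}
    {ρ' : Representation k Γ N} {ρ'' : Representation k Γ M} {φ : T →ₗ[k] N} {ψ : N →ₗ[k] M}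
    (hψ : EquivOn ρ' ρ'' ⊤ ψ) (hφ : EquivOn ρ ρ' ⊤ φ) : EquivOn ρ ρ'' ⊤ (ψ ∘ₗ φ) :=
  fun g hg m => by rw [LinearMap.comp_apply, LinearMap.comp_apply, hφ g hg, hψ g hg]

omit [Fintype Γ] in
lemma heartb_sub {ρ : Representation k Γ T} {ρ' : Representation k Γ N} {φ ψ : T →ₗ[k] N}
    (hφ : EquivOn ρ ρ' ⊤ φ) (hψ : EquivOn ρ ρ' ⊤ ψ) : EquivOn ρ ρ' ⊤ (φ - ψ) :=
  fun g hg m => by rw [LinearMap.sub_apply, LinearMap.sub_apply, hφ g hg, hψ g hg, map_sub]

omit [Fintype Γ] in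
lemma heartb_section {d : T →ₗ[k] N} {π : N →ₗ[k] N} (h1 : ∀ n, π n ∈ LinearMap.range d) :
    ∃ s : N →ₗ[k] T, ∀ n, d (s n) = π n := by
  obtain ⟨s0, hs⟩ := d.rangeRestrict.exists_rightInverse_of_surjective d.range_rangeRestrict
  refine ⟨s0 ∘ₗ π.codRestrict _ h1, fun n => ?_⟩
  exact congrArg Subtype.val (LinearMap.congr_fun hs ⟨π n, h1 n⟩)

omit [Fintype Γ] in
/-- The annihilator of the invariants under the trace pairing is the augmentation submodule: a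
functional on `T →ₗ N` is `φ ↦ trace (φ ∘ z)` for some `z`, and it kills all `g ψ - ψ` exactly
when `z` is equivariant. -/
lemma mem_aug_of_trace [FiniteDimensional k T] [FiniteDimensional k N]
    {ρ : Representation k Γ T} {ρ' : Representation k Γ N} {φ : T →ₗ[k] N}
    (h : ∀ z : N →ₗ[k] T, EquivOn ρ' ρ ⊤ z → LinearMap.trace k N (φ ∘ₗ z) = 0) :
    φ ∈ Submodule.span k {ψ | ∃ g ψ₀, ψ = ρ.linHom ρ' g ψ₀ - ψ₀} := by
  by_contra hφ
  obtain ⟨f, hf, hf'⟩ := Submodule.exists_dual_map_eq_bot_of_notMem hφ inferInstance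
  obtain ⟨z, hz⟩ := heartb_dual f
  refine hf ((hz φ).trans (h z fun g _ n => ?_))
  have h1 : ρ g⁻¹ ∘ₗ z ∘ₗ ρ' g - z = 0 := by
    refine heartb_nondeg fun ψ => ?_
    have h2 : f (ρ.linHom ρ' g ψ - ψ) = 0 := by
      rw [← Submodule.mem_bot k, ← hf']
      exact Submodule.mem_map_of_mem (Submodule.subset_span ⟨g, ψ, rfl⟩)
    rw [map_sub, hz, hz, Representation.linHom_apply, LinearMap.comp_assoc,
      LinearMap.trace_comp_comm'] at h2
    rw [LinearMap.comp_sub, map_sub]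
    exact h2
  have h3 : ρ g⁻¹ (z (ρ' g n)) = z n := sub_eq_zero.1 (LinearMap.congr_fun h1 n)
  rw [← h3, heartb_inv]

namespace HeartData

variable {p : ℕ} [Fact p.Prime] [CharP k p] {Q D : Subgroup Γ} {dd : Γ}
  {ρT : Representation k Γ T} {ρN : Representation k Γ N} {d : T →ₗ[k] N}

lemma heartb_short (h : HeartData p Q D dd ρT ρN d) {π : N →ₗ[k] N} (hπ : EquivOn ρN ρN ⊤ π)
    (h2 : ∀ t, π (d t) = d t) (n : N) : ((ρN dd - 1) ^ (p / 2)) (n - π n) = 0 := by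
  obtain ⟨t, ht⟩ := h.pow_range le_rfl n
  rw [map_sub, ← heartb_pow hπ, ht, heartb_pow hπ, h2, sub_self]

lemma heartb_kill (h : HeartData p Q D dd ρT ρN d) {t : T} (ht : d t = 0) {j : ℕ}
    (hj : p ≤ j + (p / 2 + 1)) : ((ρT dd - 1) ^ j) t = 0 := by
  obtain ⟨t', rfl⟩ := h.ker_le ht
  obtain ⟨c, hc⟩ := Nat.exists_eq_add_of_le hj
  rw [← Module.End.mul_apply, ← pow_add, hc, pow_add, h.cyc.pow_eq_zero h.trivT, zero_mul,
    LinearMap.zero_apply]

/-- Equivariant maps from the long part to the short part are relatively projective.  Let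
`π` be the projection of `exists_proj` and `α = (1 - π) α π`.  With `β` from `reg`,
`ε = π β α` maps into the range of `d` and is killed by `x ^ h` (`pow_range`: `x ^ h (1 - π) = 0`),
so by `cov2` maps the range of `d` into `x` times it; hence `ε ^ p π = 0`, while
`α ≡ α ε ≡ α ε ^ p` modulo relative traces (`comp_rtr`, `rtr_comp`). -/
lemma exists_rtr_of_long_short [FiniteDimensional k N] (h : HeartData p Q D dd ρT ρN d)
    {π : N →ₗ[k] N} (hπ : EquivOn ρN ρN ⊤ π) (h1 : ∀ n, π n ∈ LinearMap.range d)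
    (h2 : ∀ t, π (d t) = d t) {α : N →ₗ[k] N} (hα : EquivOn ρN ρN ⊤ α)
    (h3 : ∀ n, α (π n) = α n) (h4 : ∀ n, π (α n) = 0) :
    ∃ ζ, α = rtr (ρN.linHom ρN) Q ⊤ ζ := by
  obtain ⟨β, θ, hβ, hθ⟩ := h.reg α hα
  have hε : EquivOn ρN ρN ⊤ (π ∘ₗ β ∘ₗ α) := heartb_comp hπ (heartb_comp hβ hα)
  have e1 : ∀ n, ∃ n', (π ∘ₗ β ∘ₗ α) n = (ρN dd - 1) n' := by
    intro n
    obtain ⟨t, ht⟩ := h1 (β (α n))
    have a1 : ((ρN dd - 1) ^ (p / 2)) (α n) = 0 := by
      have := heartb_short h hπ h2 (α n)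
      rwa [h4, sub_zero] at this
    have a2 : ((ρN dd - 1) ^ (p / 2)) (π (β (α n))) = 0 := by
      rw [← heartb_pow hπ, ← heartb_pow hβ, a1, map_zero, map_zero]
    obtain ⟨t', ht'⟩ := h.cov2 t 0 (π (β (α n))) (by rw [map_zero, zero_add, ht]) a2
    refine ⟨d t', ?_⟩
    have a3 := heartb_pow h.equiv dd 1 t'
    rw [pow_one, pow_one, ← ht', ht] at a3
    exact a3
  have e2 : ∀ (j : ℕ) (n : N), ∃ n', ((π ∘ₗ β ∘ₗ α : Module.End k N) ^ j) n =
      ((ρN dd - 1) ^ j) n' := by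
    intro j n
    induction j with
    | zero => exact ⟨n, rfl⟩
    | succ j ih =>
      obtain ⟨n', hn'⟩ := ih
      obtain ⟨n'', hn''⟩ := e1 n'
      refine ⟨n'', ?_⟩
      rw [pow_succ', Module.End.mul_apply, hn', heartb_pow hε, hn'', pow_succ,
        Module.End.mul_apply]
  have e3 : (π ∘ₗ β ∘ₗ α : Module.End k N) ^ p = 0 := by
    refine LinearMap.ext fun n => ?_
    obtain ⟨n', hn'⟩ := e2 p n
    rw [hn', h.cyc.pow_eq_zero h.trivN]
    rfl
  have e4 : α ∘ₗ (π ∘ₗ β ∘ₗ α) = α + rtr (ρN.linHom ρN) Q ⊤ θ := by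
    rw [← hθ, add_sub_cancel]
    exact LinearMap.ext fun n => h3 _
  have e5 : ∀ j : ℕ, ∃ ζ, α ∘ₗ ((π ∘ₗ β ∘ₗ α : Module.End k N) ^ j) =
      α + rtr (ρN.linHom ρN) Q ⊤ ζ := by
    intro j
    induction j with
    | zero => exact ⟨0, by rw [map_zero, add_zero]; rfl⟩
    | succ j ih =>
      obtain ⟨ζ, hζ⟩ := ih
      refine ⟨θ + ζ ∘ₗ (π ∘ₗ β ∘ₗ α), ?_⟩
      rw [pow_succ, Module.End.mul_eq_comp, ← LinearMap.comp_assoc, hζ, LinearMap.add_comp, e4,
        rtr_comp hε, map_add, add_assoc]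
  obtain ⟨ζ, hζ⟩ := e5 p
  rw [e3, LinearMap.comp_zero] at hζ
  exact ⟨-ζ, by rw [map_neg]; exact eq_neg_of_add_eq_zero_left hζ.symm⟩

/-- `y = rtr θ` with `θ = ι y (1 - π)`.  For equivariant `z`, `trace (d θ z)` equals
`trace (d θ α)` with `α = (1 - π) z π = rtr ζ`, which is `trace (d (rtr θ) ζ) = 0`.  So `d θ` lies
in the augmentation submodule (`mem_aug_of_trace`); multiply by `π` on the left and `1 - π` on the
right, lift through `d`, and correct `θ` to `θ'` with `d θ' = 0`, `rtr θ' = y`.  By `rtr_ker`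
with `j = h` (the range of `1 - π` is killed by `x ^ h`) the values of `y` lie in `x ^ (p - h)`
times the kernel of `d`, which is zero by `ker_le`. -/
theorem h1 [FiniteDimensional k T] [FiniteDimensional k N] (h : HeartData p Q D dd ρT ρN d)
    {y : N →ₗ[k] T} (hy : EquivOn ρN ρT ⊤ y) (h1 : y ∘ₗ d = 0) (h2 : d ∘ₗ y = 0) : y = 0 := by
  obtain ⟨π, hπ, p1, p2⟩ := h.exists_proj
  obtain ⟨ι, hι⟩ := h.higT
  obtain ⟨s, hs⟩ := heartb_section p1
  have hπ2 : ∀ n, π (π n) = π n := fun n => by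
    obtain ⟨t, ht⟩ := p1 n
    rw [← ht, p2]
  have y0 : ∀ n, y (π n) = 0 := fun n => by
    obtain ⟨t, ht⟩ := p1 n
    rw [← ht]
    exact LinearMap.congr_fun h1 t
  have e1 : rtr (ρN.linHom ρT) Q ⊤ (ι ∘ₗ y) = y := by
    rw [← rtr_comp hy, hι, LinearMap.id_comp]
  have e2 : d ∘ₗ ι ∘ₗ y ∈ Submodule.span k {ψ | ∃ g ψ₀, ψ = ρN.linHom ρN g ψ₀ - ψ₀} := by
    refine mem_aug_of_trace fun z hz => ?_
    obtain ⟨ζ, hζ⟩ := h.exists_rtr_of_long_short hπ p1 p2 (α := z ∘ₗ π - π ∘ₗ z ∘ₗ π)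
      (heartb_sub (heartb_comp hz hπ) (heartb_comp hπ (heartb_comp hz hπ)))
      (fun n => by simp only [LinearMap.sub_apply, LinearMap.comp_apply, hπ2])
      (fun n => by simp only [LinearMap.sub_apply, LinearMap.comp_apply, map_sub, hπ2, sub_self])
    have a1 : (d ∘ₗ ι ∘ₗ y) ∘ₗ z = π ∘ₗ ((d ∘ₗ ι ∘ₗ y) ∘ₗ z) :=
      LinearMap.ext fun n => (p2 _).symm
    have a2 : ((d ∘ₗ ι ∘ₗ y) ∘ₗ z) ∘ₗ π = (d ∘ₗ ι ∘ₗ y) ∘ₗ (z ∘ₗ π - π ∘ₗ z ∘ₗ π) :=
      LinearMap.ext fun n => by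
        simp only [LinearMap.sub_apply, LinearMap.comp_apply, map_sub, y0, map_zero, sub_zero]
    rw [a1, LinearMap.trace_comp_comm', a2, hζ, heartb_trace h.cyc.normal h.trivN,
      ← comp_rtr h.equiv, e1, h2, LinearMap.zero_comp, map_zero]
  have e3 : ∀ φ ∈ Submodule.span k {ψ | ∃ g ψ₀, ψ = ρN.linHom ρN g ψ₀ - ψ₀},
      ∃ η : N →ₗ[k] T, d ∘ₗ η = π ∘ₗ φ ∧ rtr (ρN.linHom ρT) Q ⊤ η = 0 := by
    intro φ hφ
    induction hφ using Submodule.span_induction with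
    | mem φ hφ =>
      obtain ⟨g, ψ, rfl⟩ := hφ
      refine ⟨ρN.linHom ρT g (s ∘ₗ ψ) - s ∘ₗ ψ, LinearMap.ext fun n => ?_, ?_⟩
      · simp only [LinearMap.sub_apply, LinearMap.comp_apply, map_sub, Representation.linHom_apply,
          h.equiv g (Subgroup.mem_top _), hπ g (Subgroup.mem_top _), hs]
      · rw [map_sub, heartb_rtr_act h.cyc.normal (heartb_fixed h.trivN h.trivT _), sub_self]
    | zero => exact ⟨0, by rw [LinearMap.comp_zero, LinearMap.comp_zero], map_zero _⟩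
    | add φ φ' _ _ ih ih' =>
      obtain ⟨η, a1, a2⟩ := ih
      obtain ⟨η', b1, b2⟩ := ih'
      exact ⟨η + η', by rw [LinearMap.comp_add, LinearMap.comp_add, a1, b1],
        by rw [map_add, a2, b2, add_zero]⟩
    | smul c φ _ ih =>
      obtain ⟨η, a1, a2⟩ := ih
      exact ⟨c • η, by rw [LinearMap.comp_smul, LinearMap.comp_smul, a1],
        by rw [map_smul, a2, smul_zero]⟩
  obtain ⟨η, f1, f2⟩ := e3 _ e2
  have f3 : ∀ n, d ((ι ∘ₗ y - η) n) = 0 := fun n => by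
    have a1 : d (η n) = π (d (ι (y n))) := LinearMap.congr_fun f1 n
    rw [LinearMap.sub_apply, map_sub, a1, p2]
    exact sub_self _
  have f4 : rtr (ρN.linHom ρT) Q ⊤ (ι ∘ₗ y - η) = y := by rw [map_sub, e1, f2, sub_zero]
  refine LinearMap.ext fun n => ?_
  obtain ⟨m, hm, hm'⟩ := h.cyc.rtr_ker h.trivN h.trivT (ι ∘ₗ y - η) (heartb_short h hπ p2 n)
  have f5 : d m = 0 := by
    refine (Submodule.span_le (p := LinearMap.ker d)).2 ?_ hm
    rintro _ ⟨g, t', rfl⟩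
    change d _ = 0
    rw [h.equiv g (Subgroup.mem_top _), f3, map_zero]
  rw [f4, map_sub, y0, sub_zero, heartb_kill h f5 (by omega)] at hm'
  exact hm'

/-- `(1 - π) b₀` kills the range of `d`, and `(1 - π) b₀ (1 - π) = 0` by `rtr_ker`; so
`b₀ = rtr (π θ)`.  Lift `π θ = d θ'`, `y₀ = rtr θ'`.  Then `φ = b₁ - y₀ d` maps into the kernel
of `d` and kills it (`ker_le` twice, `2 h + 2 ≥ p`), so `φ = u d` with `u` equivariant,
`u = u π`, `d u = 0`. -/
theorem h2 [FiniteDimensional k T] [FiniteDimensional k N] (h : HeartData p Q D dd ρT ρN d)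
    {b₀ : N →ₗ[k] N} {b₁ : T →ₗ[k] T} (hb : EquivOn ρT ρT ⊤ b₁) (hc : b₀ ∘ₗ d = d ∘ₗ b₁)
    (θ : N →ₗ[k] N) (hθ : b₀ = rtr (ρN.linHom ρN) Q ⊤ θ) :
    ∃ y : N →ₗ[k] T, EquivOn ρN ρT ⊤ y ∧ b₀ = d ∘ₗ y ∧ b₁ = y ∘ₗ d := by
  obtain ⟨π, hπ, p1, p2⟩ := h.exists_proj
  obtain ⟨s, hs⟩ := heartb_section p1
  have hc' : ∀ t, b₀ (d t) = d (b₁ t) := fun t => LinearMap.congr_fun hc t
  have e1 : ∀ n, π (b₀ n) = b₀ n := fun n => by
    obtain ⟨m, -, hm⟩ := h.cyc.rtr_ker h.trivN h.trivN θ (heartb_short h hπ p2 n)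
    rw [← hθ] at hm
    obtain ⟨t, ht⟩ := p1 n
    have a1 : ((ρN dd - 1) ^ (p - p / 2)) (m - π m) = 0 := by
      rw [show p - p / 2 = (p - p / 2 - p / 2) + p / 2 by omega, pow_add, Module.End.mul_apply,
        heartb_short h hπ p2, map_zero]
    have a2 : π (b₀ (n - π n)) = b₀ (n - π n) := by
      rw [hm, heartb_pow hπ]
      rw [map_sub] at a1
      exact (sub_eq_zero.1 a1).symm
    rw [map_sub, map_sub, ← ht, hc', p2] at a2
    exact sub_left_inj.1 a2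
  have hy : EquivOn ρN ρT ⊤ (rtr (ρN.linHom ρT) Q ⊤ (s ∘ₗ θ)) :=
    fixedBy_linHom.1 (rtr_fixed le_top (heartb_fixed h.trivN h.trivT _))
  have e2 : d ∘ₗ rtr (ρN.linHom ρT) Q ⊤ (s ∘ₗ θ) = b₀ := by
    have a1 : d ∘ₗ s ∘ₗ θ = π ∘ₗ θ := LinearMap.ext fun n => hs _
    rw [comp_rtr h.equiv, a1, ← comp_rtr hπ, ← hθ]
    exact LinearMap.ext e1
  generalize rtr (ρN.linHom ρT) Q ⊤ (s ∘ₗ θ) = y₀ at hy e2
  have e2' : ∀ n, d (y₀ n) = b₀ n := fun n => LinearMap.congr_fun e2 n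
  have hφ : EquivOn ρT ρT ⊤ (b₁ - y₀ ∘ₗ d) := heartb_sub hb (heartb_comp hy h.equiv)
  have e3 : ∀ t, d ((b₁ - y₀ ∘ₗ d) t) = 0 := fun t => by
    rw [LinearMap.sub_apply, LinearMap.comp_apply, map_sub, e2', hc', sub_self]
  have e4 : ∀ t t', d t = d t' → (b₁ - y₀ ∘ₗ d) t = (b₁ - y₀ ∘ₗ d) t' := fun t t' ht => by
    obtain ⟨u, hu⟩ := h.ker_le (t := t - t') (by rw [map_sub, ht, sub_self])
    rw [← sub_eq_zero, ← map_sub, hu, heartb_pow hφ]
    exact heartb_kill h (e3 u) (by omega)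
  refine ⟨y₀ + (b₁ - y₀ ∘ₗ d) ∘ₗ s, fun g hg n => ?_, LinearMap.ext fun n => ?_,
    LinearMap.ext fun t => ?_⟩
  · rw [LinearMap.add_apply, LinearMap.add_apply, LinearMap.comp_apply, LinearMap.comp_apply,
      map_add, hy g hg, ← hφ g hg, e4 (s (ρN g n)) (ρT g (s n))]
    rw [hs, h.equiv g hg, hs, hπ g hg]
  · rw [LinearMap.comp_apply, LinearMap.add_apply, map_add, e2', LinearMap.comp_apply, e3, add_zero]
  · rw [LinearMap.comp_apply, LinearMap.add_apply, LinearMap.comp_apply,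
      e4 (s (d t)) t (by rw [hs, p2]), LinearMap.sub_apply, LinearMap.comp_apply, add_sub_cancel]

end HeartData

end Pool.Agent.Lib.MP_b6945b_al.St
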