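import Pool.Agent.Lib.MP_b6945b_al.St.HeartB

set_option autoImplicit false

/-!
The same results for a complex cut out of one module by two orthogonal idempotents.
-/

namespace Pool.Agent.Lib.MP_b6945b_al.St

variable {k Γ W : Type} [Field k] [Group Γ] [Fintype Γ] [AddCommGroup W] [Module k W]

/-- The augmentation submodule for `D`. -/
def augS (ρ : Representation k Γ W) (D : Subgroup Γ) : Submodule k W :=
  Submodule.span k {w | ∃ δ ∈ D, ∃ w', w = ρ δ w' - w'}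

/-- Elements sent into `J` by the `h`-th power of every `ρ δ - 1`. -/
def kapS (ρ : Representation k Γ W) (D : Subgroup Γ) (h : ℕ) (J : Submodule k W) :
    Submodule k W := ⨅ δ ∈ D, J.comap ((ρ δ - 1) ^ h)

omit [Fintype Γ] in
lemma mem_kapS {ρ : Representation k Γ W} {D : Subgroup Γ} {h : ℕ} {J : Submodule k W} {w : W} :
    w ∈ kapS ρ D h J ↔ ∀ δ ∈ D, ((ρ δ - 1) ^ h) w ∈ J := by
  simp [kapS, Submodule.mem_iInf]

/-- A two-term complex `η₁ W → η₀ W`. -/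
structure TwoTerm (η₀ η₁ δ : Module.End k W) : Prop where
  e00 : η₀ * η₀ = η₀
  e11 : η₁ * η₁ = η₁
  e01 : η₀ * η₁ = 0
  e10 : η₁ * η₀ = 0
  d0 : η₀ * δ = δ
  d1 : δ * η₁ = δ

/-- The hypotheses in idempotent form. -/
structure HeartI (p : ℕ) (Q D : Subgroup Γ) (ρ : Representation k Γ W)
    (η₀ η₁ δ : Module.End k W) : Prop where
  le : Q ≤ D
  normal : Q.Normal
  idx : Q.relIndex D = p
  triv : ∀ q ∈ Q, ∀ w, ρ q w = w
  tt : TwoTerm η₀ η₁ δ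
  eq0 : EquivOn ρ ρ ⊤ η₀
  eq1 : EquivOn ρ ρ ⊤ η₁
  eqd : EquivOn ρ ρ ⊤ δ
  higT : ∃ ι, rtr (ρ.linHom ρ) Q ⊤ ι * η₁ = η₁
  higN : ∃ ι : Module.End k W, EquivOn ρ ρ D ι ∧ ι * δ = δ * ι ∧
    rtr (ρ.linHom ρ) D ⊤ ι * η₀ = η₀
  cov1 : ∀ w, ∃ t, η₀ w - δ t ∈ augS ρ D ⊔ kapS ρ D (p / 2) ⊥
  cov2 : ∀ t, δ t ∈ augS ρ D ⊔ kapS ρ D (p / 2) ⊥ → η₁ t ∈ augS ρ D
  reg : ∀ α : Module.End k W, EquivOn ρ ρ ⊤ α → η₀ * α * η₀ = α →
    ∃ β θ : Module.End k W, EquivOn ρ ρ ⊤ β ∧ α * β * α - α = rtr (ρ.linHom ρ) Q ⊤ θ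

omit [Fintype Γ] in
lemma hearti_sub (ρ : Representation k Γ W) {η : Module.End k W} (h1 : η * η = η)
    (h2 : EquivOn ρ ρ ⊤ η) :
    ∃ (T : Submodule k W) (ρT : Representation k Γ T) (pT : W →ₗ[k] T),
      EquivOn ρT ρ ⊤ T.subtype ∧ EquivOn ρ ρT ⊤ pT ∧ (∀ w, (pT w : W) = η w) ∧
        ∀ t : T, η t = t := by
  have h3 : ∀ g, LinearMap.range η ≤ (LinearMap.range η).comap (ρ g) := by
    rintro g _ ⟨w, rfl⟩
    exact ⟨ρ g w, h2 g trivial w⟩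
  refine ⟨LinearMap.range η, ρ.subrepresentation _ h3, η.rangeRestrict, fun _ _ _ => rfl,
    fun g _ w => Subtype.ext (h2 g trivial w), fun _ => rfl, ?_⟩
  rintro ⟨_, w, rfl⟩
  exact LinearMap.congr_fun h1 w

omit [Fintype Γ] in
lemma hearti_comp {M M' M'' : Type} [AddCommGroup M] [Module k M] [AddCommGroup M'] [Module k M']
    [AddCommGroup M''] [Module k M''] {ρ : Representation k Γ M} {ρ' : Representation k Γ M'}
    {ρ'' : Representation k Γ M''} {S : Subgroup Γ} {φ : M →ₗ[k] M'} {ψ : M' →ₗ[k] M''}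
    (hψ : EquivOn ρ' ρ'' S ψ) (hφ : EquivOn ρ ρ' S φ) : EquivOn ρ ρ'' S (ψ ∘ₗ φ) := by
  intro g hg m
  rw [LinearMap.comp_apply, LinearMap.comp_apply, hφ g hg, hψ g hg]

omit [Fintype Γ] in
lemma hearti_pow {M M' : Type} [AddCommGroup M] [Module k M] [AddCommGroup M'] [Module k M']
    {ρ : Representation k Γ M} {ρ' : Representation k Γ M'} {φ : M →ₗ[k] M'}
    (hφ : EquivOn ρ ρ' ⊤ φ) (g : Γ) (j : ℕ) (m : M) :
    φ (((ρ g - 1) ^ j) m) = ((ρ' g - 1) ^ j) (φ m) := by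
  induction j with
  | zero => rfl
  | succ j ih =>
    rw [pow_succ', pow_succ', Module.End.mul_apply, Module.End.mul_apply, ← ih,
      LinearMap.sub_apply, LinearMap.sub_apply, map_sub, hφ g trivial]
    rfl

omit [Fintype Γ] in
lemma hearti_one {M M' : Type} [AddCommGroup M] [Module k M] [AddCommGroup M'] [Module k M']
    {ρ : Representation k Γ M} {ρ' : Representation k Γ M'} {φ : M →ₗ[k] M'}
    (hφ : EquivOn ρ ρ' ⊤ φ) (g : Γ) (m : M) : φ ((ρ g - 1) m) = (ρ' g - 1) (φ m) := by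
  have h := hearti_pow hφ g 1 m
  rwa [pow_one, pow_one] at h

lemma hearti_rtr {M : Type} [AddCommGroup M] [Module k M] {ρ : Representation k Γ W}
    {ρ' : Representation k Γ M} {i : M →ₗ[k] W} {π : W →ₗ[k] M} (hi : EquivOn ρ' ρ ⊤ i)
    (hπ : EquivOn ρ ρ' ⊤ π) (S : Subgroup Γ) (θ : W →ₗ[k] W) :
    rtr (ρ'.linHom ρ') S ⊤ (π ∘ₗ θ ∘ₗ i) = π ∘ₗ rtr (ρ.linHom ρ) S ⊤ θ ∘ₗ i := by
  rw [rtr_comp hi, comp_rtr hπ]

omit [Fintype Γ] in
lemma hearti_aug {p : ℕ} {Q D : Subgroup Γ} {dd : Γ} (h : CycData p Q D dd)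
    {ρ : Representation k Γ W} (hQ : ∀ q ∈ Q, ∀ w, ρ q w = w) {w : W} :
    w ∈ augS ρ D ↔ ∃ w', w = (ρ dd - 1) w' := by
  constructor
  · intro hw
    have h1 : augS ρ D ≤ LinearMap.range (ρ dd - 1) := by
      refine Submodule.span_le.2 ?_
      rintro _ ⟨δ, hδ, w', rfl⟩
      obtain ⟨y, -, hy⟩ := h.exists_mul hQ hδ
      exact ⟨y w', (LinearMap.congr_fun hy w').symm⟩
    obtain ⟨w', hw'⟩ := h1 hw
    exact ⟨w', hw'.symm⟩
  · rintro ⟨w', rfl⟩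
    exact Submodule.subset_span ⟨dd, h.mem, w', rfl⟩

omit [Fintype Γ] in
lemma hearti_kap {p : ℕ} {Q D : Subgroup Γ} {dd : Γ} (h : CycData p Q D dd)
    {ρ : Representation k Γ W} (hQ : ∀ q ∈ Q, ∀ w, ρ q w = w) {j : ℕ} {w : W} :
    w ∈ kapS ρ D j ⊥ ↔ ((ρ dd - 1) ^ j) w = 0 := by
  rw [mem_kapS]
  constructor
  · intro hw
    exact (Submodule.mem_bot k).1 (hw dd h.mem)
  · intro hw δ hδ
    obtain ⟨y, hc, hy⟩ := h.exists_mul hQ hδ
    rw [Submodule.mem_bot, hy, hc.mul_pow, (hc.pow_pow j j).eq, Module.End.mul_apply, hw,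
      map_zero]

namespace HeartI

variable {p : ℕ} [Fact p.Prime] [CharP k p] {Q D : Subgroup Γ} {ρ : Representation k Γ W}
  {η₀ η₁ δ : Module.End k W}

/-- Restrict to the subrepresentations `range η₁` and `range η₀`
(`Representation.subrepresentation`); `augS ρ D` is the range of `x` and `kapS ρ D h ⊥` is the
kernel of `x ^ h` by `CycData.exists_mul`.  The maps `iT, pT, iN, pN` are the inclusions and
projections. -/
lemma exists_heartData (h : HeartI p Q D ρ η₀ η₁ δ) :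
    ∃ (T N : Submodule k W) (ρT : Representation k Γ T) (ρN : Representation k Γ N)
      (d : T →ₗ[k] N) (dd : Γ) (pT : W →ₗ[k] T) (pN : W →ₗ[k] N),
      HeartData p Q D dd ρT ρN d ∧ EquivOn ρT ρ ⊤ T.subtype ∧ EquivOn ρN ρ ⊤ N.subtype ∧
      EquivOn ρ ρT ⊤ pT ∧ EquivOn ρ ρN ⊤ pN ∧ (∀ w, (pT w : W) = η₁ w) ∧
      (∀ w, (pN w : W) = η₀ w) ∧ (∀ t : T, η₁ t = t) ∧ (∀ n : N, η₀ n = n) ∧
      ∀ t : T, (d t : W) = δ t := by
  obtain ⟨T, ρT, pT, iT, eT, cT, fT⟩ := hearti_sub ρ h.tt.e11 h.eq1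
  obtain ⟨N, ρN, pN, iN, eN, cN, fN⟩ := hearti_sub ρ h.tt.e00 h.eq0
  have hn := h.normal
  obtain ⟨dd, hc⟩ := exists_cycData (Fact.out : p.Prime) h.le h.idx
  have d0 : ∀ w, η₀ (δ w) = δ w := fun w => LinearMap.congr_fun h.tt.d0 w
  have d1 : ∀ w, δ (η₁ w) = δ w := fun w => LinearMap.congr_fun h.tt.d1 w
  have pT1 : ∀ t : T, pT t = t := fun t => Subtype.ext (by rw [cT, fT])
  have pN1 : ∀ n : N, pN n = n := fun n => Subtype.ext (by rw [cN, fN])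
  have iT' : ∀ g (t : T), (ρT g t : W) = ρ g t := fun g t => iT g trivial t
  have iN' : ∀ g (n : N), (ρN g n : W) = ρ g n := fun g n => iN g trivial n
  have hd : ∀ w, (pN ∘ₗ δ ∘ₗ T.subtype) (pT w) = pN (δ w) := fun w => by
    change pN (δ (pT w)) = _
    rw [cT, d1]
  refine ⟨T, N, ρT, ρN, pN ∘ₗ δ ∘ₗ T.subtype, dd, pT, pN, ⟨hc, ?_, ?_, ?_, ?_, ?_, ?_, ?_, ?_⟩,
    iT, iN, eT, eN, cT, cN, fT, fN, fun t => (cN _).trans (d0 _)⟩
  · intro q hq t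
    exact Subtype.ext (by rw [iT', h.triv q hq])
  · intro q hq n
    exact Subtype.ext (by rw [iN', h.triv q hq])
  · exact hearti_comp eN (hearti_comp h.eqd iT)
  · obtain ⟨ι, hι⟩ := h.higT
    refine ⟨pT ∘ₗ ι ∘ₗ T.subtype, ?_⟩
    rw [hearti_rtr iT eT]
    refine LinearMap.ext fun t => ?_
    have h1 : rtr (ρ.linHom ρ) Q ⊤ ι (η₁ t) = η₁ t := LinearMap.congr_fun hι t
    rw [fT] at h1
    change pT (rtr (ρ.linHom ρ) Q ⊤ ι t) = t
    rw [h1, pT1]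
  · obtain ⟨ι, h1, h2, hι⟩ := h.higN
    refine ⟨pN ∘ₗ ι ∘ₗ N.subtype, hearti_comp (fun g _ => eN g trivial)
      (hearti_comp h1 fun g _ => iN g trivial), fun t => ⟨pT (ι t), ?_⟩, ?_⟩
    · rw [hd]
      change pN (δ (ι t)) = pN (ι (pN (δ t)))
      rw [cN, d0]
      exact congrArg pN (LinearMap.congr_fun h2 t).symm
    · rw [hearti_rtr iN eN]
      refine LinearMap.ext fun n => ?_
      have h3 : rtr (ρ.linHom ρ) D ⊤ ι (η₀ n) = η₀ n := LinearMap.congr_fun hι n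
      rw [fN] at h3
      change pN (rtr (ρ.linHom ρ) D ⊤ ι n) = n
      rw [h3, pN1]
  · intro n
    obtain ⟨t, ht⟩ := h.cov1 n
    obtain ⟨a, ha, κ, hκ, e⟩ := Submodule.mem_sup.1 ht
    obtain ⟨w', rfl⟩ := (hearti_aug hc h.triv).1 ha
    refine ⟨pT t, pN w', pN κ, ?_, ?_⟩
    · rw [hd, ← hearti_one eN, add_assoc, ← map_add, e, ← map_add, fN, add_sub_cancel, pN1]
    · rw [← hearti_pow eN, (hearti_kap hc h.triv).1 hκ, map_zero]
  · intro t n' κ h1 h2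
    have h3 : δ t = (ρ dd - 1) n' + κ := by
      have h4 := congrArg N.subtype h1
      rw [map_add, hearti_one iN] at h4
      rw [← d0, ← cN]
      exact h4
    have h5 : ((ρ dd - 1) ^ (p / 2)) (κ : W) = 0 := by
      have h4 := congrArg N.subtype h2
      rw [hearti_pow iN, map_zero] at h4
      exact h4
    have h6 := h.cov2 t (by
      rw [h3]
      exact Submodule.add_mem_sup ((hearti_aug hc h.triv).2 ⟨_, rfl⟩)
        ((hearti_kap hc h.triv).2 h5))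
    obtain ⟨w', hw'⟩ := (hearti_aug hc h.triv).1 h6
    refine ⟨pT w', ?_⟩
    rw [← hearti_one eT, ← hw', fT, pT1]
  · intro α hα
    obtain ⟨β, θ, hβ, e⟩ := h.reg (N.subtype ∘ₗ α ∘ₗ pN) (hearti_comp iN (hearti_comp hα eN)) (by
      refine LinearMap.ext fun w => ?_
      change η₀ (α (pN (η₀ w))) = α (pN w)
      rw [fN, ← cN, pN1])
    refine ⟨pN ∘ₗ β ∘ₗ N.subtype, pN ∘ₗ θ ∘ₗ N.subtype, hearti_comp eN (hearti_comp hβ iN), ?_⟩
    rw [hearti_rtr iN eN, ← e]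
    refine LinearMap.ext fun n => ?_
    change α (pN (β (α n))) - α n = pN ((α (pN (β (α (pN n)))) : W) - α (pN n))
    rw [map_sub, pN1, pN1, pN1]

theorem h1 [FiniteDimensional k W] (h : HeartI p Q D ρ η₀ η₁ δ) {y : Module.End k W}
    (hy : EquivOn ρ ρ ⊤ y) (h0 : η₁ * y * η₀ = y) (h1 : y * δ = 0) (h2 : δ * y = 0) :
    y = 0 := by
  obtain ⟨T, N, ρT, ρN, d, dd, pT, pN, hD, iT, iN, eT, eN, cT, cN, fT, fN, hd⟩ :=
    h.exists_heartData
  have d1 : ∀ w, δ (η₁ w) = δ w := fun w => LinearMap.congr_fun h.tt.d1 w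
  have h3 := hD.h1 (y := pT ∘ₗ y ∘ₗ N.subtype) (hearti_comp eT (hearti_comp hy iN))
    (LinearMap.ext fun t => by
      change pT (y (d t)) = 0
      rw [hd, show y (δ t) = 0 from LinearMap.congr_fun h1 t, map_zero])
    (LinearMap.ext fun n => Subtype.ext (by
      change (d (pT (y n)) : W) = 0
      rw [hd, cT, d1]
      exact LinearMap.congr_fun h2 n))
  refine LinearMap.ext fun w => ?_
  have h4 : pT (y (pN w)) = 0 := LinearMap.congr_fun h3 (pN w)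
  have h5 : η₁ (y (η₀ w)) = y w := LinearMap.congr_fun h0 w
  rw [← h5, ← cN, ← cT, h4]
  rfl

theorem h2 [FiniteDimensional k W] (h : HeartI p Q D ρ η₀ η₁ δ) {b : Module.End k W}
    (hb : EquivOn ρ ρ ⊤ b) (h0 : η₀ * b * η₀ + η₁ * b * η₁ = b) (hc : b * δ = δ * b)
    (θ : Module.End k W) (hθ : η₀ * b * η₀ = rtr (ρ.linHom ρ) Q ⊤ θ) :
    ∃ y : Module.End k W, EquivOn ρ ρ ⊤ y ∧ η₁ * y * η₀ = y ∧ b = δ * y + y * δ := by
  obtain ⟨T, N, ρT, ρN, d, dd, pT, pN, hD, iT, iN, eT, eN, cT, cN, fT, fN, hd⟩ :=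
    h.exists_heartData
  have d0 : ∀ w, η₀ (δ w) = δ w := fun w => LinearMap.congr_fun h.tt.d0 w
  have d1 : ∀ w, δ (η₁ w) = δ w := fun w => LinearMap.congr_fun h.tt.d1 w
  have pN1 : ∀ n : N, pN n = n := fun n => Subtype.ext (by rw [cN, fN])
  obtain ⟨y, hy, e0, e1⟩ := hD.h2 (b₀ := pN ∘ₗ b ∘ₗ N.subtype) (b₁ := pT ∘ₗ b ∘ₗ T.subtype)
    (hearti_comp eT (hearti_comp hb iT))
    (LinearMap.ext fun t => Subtype.ext (by
      change (pN (b (d t)) : W) = d (pT (b t))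
      rw [hd, hd, cT, cN, d1, show b (δ t) = δ (b t) from LinearMap.congr_fun hc t, d0]))
    (pN ∘ₗ θ ∘ₗ N.subtype) (by
      rw [hearti_rtr iN eN, ← hθ]
      refine LinearMap.ext fun n => ?_
      change pN (b n) = pN (η₀ (b (η₀ n)))
      rw [fN, ← cN, pN1])
  refine ⟨T.subtype ∘ₗ y ∘ₗ pN, hearti_comp iT (hearti_comp hy eN), LinearMap.ext fun w => ?_,
    LinearMap.ext fun w => ?_⟩
  · change η₁ (y (pN (η₀ w))) = y (pN w)
    rw [fT, ← cN, pN1]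
  · have h1 : η₀ (b (η₀ w)) + η₁ (b (η₁ w)) = b w := LinearMap.congr_fun h0 w
    have h2 : pN (b (pN w)) = d (y (pN w)) := LinearMap.congr_fun e0 (pN w)
    have h3 : pT (b (pT w)) = y (d (pT w)) := LinearMap.congr_fun e1 (pT w)
    have h4 : pN (δ w) = d (pT w) := Subtype.ext (by rw [cN, hd, cT, d0, d1])
    change b w = δ (y (pN w)) + y (pN (δ w))
    rw [← h1, h4, ← h3, ← hd, ← h2, cN, cN, cT, cT]

end HeartI

end Pool.Agent.Lib.MP_b6945b_al.St
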