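import Pool.Agent.Lib.MP_b6945b_al.Normal

set_option autoImplicit false

/-!
Chains whose top member has order dividing `p ^ 2`.
-/

namespace Pool.Agent.Lib.MP_b6945b_al.St

open Finset

variable {p : ℕ} {G : Type} [Group G] [Finite G]

/-- Chains all of whose members have order `p` or `p ^ 2`. -/
def kr0W (p : ℕ) (σ : Finset (Subgroup G)) : Prop :=
  IsPChain p σ ∧ ∀ P ∈ σ, Nat.card P = p ∨ Nat.card P = p ^ 2

/-- Admissible pairs. -/
def kr0V (p : ℕ) (x : Option (Subgroup G) × Option (Subgroup G)) : Prop :=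
  (∀ Q, x.1 = some Q → Nat.card Q = p) ∧ (∀ T, x.2 = some T → Nat.card T = p ^ 2) ∧
    ∀ Q T, x.1 = some Q → x.2 = some T → Q < T

open Classical in
/-- The chain of a pair. -/
noncomputable def kr0f (x : Option (Subgroup G) × Option (Subgroup G)) : Finset (Subgroup G) :=
  x.1.toFinset ∪ x.2.toFinset

omit [Finite G] in
lemma kr0_mem {x : Option (Subgroup G) × Option (Subgroup G)} {P : Subgroup G} :
    P ∈ kr0f x ↔ x.1 = some P ∨ x.2 = some P := by
  simp [kr0f, Option.mem_toFinset]

lemma kr0_lt (hp : p.Prime) : p < p ^ 2 := by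
  have := hp.two_le
  nlinarith

lemma kr0_nc (hp : p.Prime) {σ : Finset (Subgroup G)} (h : kr0W p σ) : IsNC σ := by
  haveI := Fact.mk hp
  rcases sup_chain_cases h.1.1 σ (Finset.Subset.refl _) with e | e
  · rw [IsNC, e]
    exact bot_le
  · intro g hg
    rw [mem_stab]
    intro P hP
    have hle : P ≤ σ.sup id := Finset.le_sup (f := id) hP
    rcases h.2 _ e with h1 | h1
    · have h2 : P = σ.sup id := by
        refine Subgroup.eq_of_le_of_card_ge hle ?_
        have := kr0_lt hp
        rcases h.2 P hP with h3 | h3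
        · rw [h1, h3]
        · rw [h1, h3]
          omega
      rw [h2]
      exact Subgroup.le_normalizer hg
    · have hc := (IsPGroup.isMulCommutative_of_card_eq_prime_sq h1).is_comm.comm
      refine Subgroup.centralizer_le_normalizer _ ?_
      rw [Subgroup.mem_centralizer_iff]
      intro x hx
      exact congrArg Subtype.val (hc ⟨x, hle hx⟩ ⟨g, hg⟩)

lemma kr0_w (hp : p.Prime) {σ : Finset (Subgroup G)} (h : IsPChain p σ)
    (hd : Nat.card (σ.sup id : Subgroup G) ∣ p ^ 2) : kr0W p σ := by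
  refine ⟨h, fun P hP => ?_⟩
  have h1 : Nat.card P ∣ p ^ 2 :=
    (Subgroup.card_dvd_of_le (Finset.le_sup (f := id) hP)).trans hd
  obtain ⟨k, hk, e⟩ := (Nat.dvd_prime_pow hp).1 h1
  have h0 : k ≠ 0 := by
    rintro rfl
    exact (h.2 P hP).2 (Subgroup.card_eq_one.1 (by rw [e, pow_zero]))
  have : k = 1 ∨ k = 2 := by omega
  rcases this with rfl | rfl
  · exact Or.inl (by rw [e, pow_one])
  · exact Or.inr e

omit [Finite G] in
lemma kr0_map (hp : p.Prime) {x : Option (Subgroup G) × Option (Subgroup G)} (h : kr0V p x) :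
    kr0W p (kr0f x) := by
  have hc : ∀ P ∈ kr0f x, Nat.card P = p ∨ Nat.card P = p ^ 2 := fun P hP =>
    (kr0_mem.1 hP).imp (h.1 P) (h.2.1 P)
  refine ⟨⟨?_, fun P hP => ⟨?_, ?_⟩⟩, hc⟩
  · intro P hP P' hP' hne
    rcases kr0_mem.1 (Finset.mem_coe.1 hP) with e | e <;>
      rcases kr0_mem.1 (Finset.mem_coe.1 hP') with e' | e'
    · exact absurd (Option.some.inj (e.symm.trans e')) hne
    · exact Or.inl (h.2.2 _ _ e e').le
    · exact Or.inr (h.2.2 _ _ e' e).le
    · exact absurd (Option.some.inj (e.symm.trans e')) hne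
  · rcases hc P hP with e | e
    · exact IsPGroup.of_card (n := 1) (by rw [e, pow_one])
    · exact IsPGroup.of_card e
  · intro e0
    have h1 := Subgroup.card_eq_one.2 e0
    have h2 := kr0_lt hp
    have h3 := hp.two_le
    rcases hc P hP with e | e <;> omega

omit [Finite G] in
lemma kr0_inj (hp : p.Prime) {x y : Option (Subgroup G) × Option (Subgroup G)} (hx : kr0V p x)
    (hy : kr0V p y) (e : kr0f x = kr0f y) : x = y := by
  have h2 := kr0_lt hp
  have key : ∀ {x y : Option (Subgroup G) × Option (Subgroup G)}, kr0V p x → kr0V p y →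
      kr0f x = kr0f y → (∀ P, x.1 = some P → y.1 = some P) ∧
        ∀ P, x.2 = some P → y.2 = some P := by
    intro x y hx hy e
    refine ⟨fun P hP => ?_, fun P hP => ?_⟩
    · have h1 : P ∈ kr0f y := e ▸ kr0_mem.2 (Or.inl hP)
      rcases kr0_mem.1 h1 with h | h
      · exact h
      · have := hx.1 P hP
        have := hy.2.1 P h
        omega
    · have h1 : P ∈ kr0f y := e ▸ kr0_mem.2 (Or.inr hP)
      rcases kr0_mem.1 h1 with h | h
      · have := hx.2.1 P hP
        have := hy.1 P h
        omega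
      · exact h
  exact Prod.ext
    (Option.ext fun P => ⟨(key hx hy e).1 P, (key hy hx e.symm).1 P⟩)
    (Option.ext fun P => ⟨(key hx hy e).2 P, (key hy hx e.symm).2 P⟩)

lemma kr0_pick {σ : Finset (Subgroup G)} (h : IsChain (· ≤ ·) (σ : Set (Subgroup G))) (n : ℕ) :
    ∃ a : Option (Subgroup G), ∀ P, a = some P ↔ P ∈ σ ∧ Nat.card P = n := by
  by_cases hex : ∃ Q ∈ σ, Nat.card Q = n
  · obtain ⟨Q, hQ, e⟩ := hex
    refine ⟨some Q, fun P => ⟨fun e' => Option.some.inj e' ▸ ⟨hQ, e⟩, fun hP => ?_⟩⟩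
    rcases h.total (Finset.mem_coe.2 hQ) (Finset.mem_coe.2 hP.1) with l | l
    · rw [Subgroup.eq_of_le_of_card_ge l (by rw [e, hP.2])]
    · rw [Subgroup.eq_of_le_of_card_ge l (by rw [e, hP.2])]
  · exact ⟨none, fun P => ⟨fun e => by simp at e, fun hP => absurd ⟨P, hP.1, hP.2⟩ hex⟩⟩

lemma kr0_surj (hp : p.Prime) {σ : Finset (Subgroup G)} (h : kr0W p σ) :
    ∃ x, kr0V p x ∧ kr0f x = σ := by
  have h2 := kr0_lt hp
  obtain ⟨a, ha⟩ := kr0_pick h.1.1 p
  obtain ⟨b, hb⟩ := kr0_pick h.1.1 (p ^ 2)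
  refine ⟨(a, b), ⟨fun Q e => ((ha Q).1 e).2, fun T e => ((hb T).1 e).2, ?_⟩, ?_⟩
  · intro Q T e e'
    have hQ := (ha Q).1 e
    have hT := (hb T).1 e'
    rcases h.1.1.total (Finset.mem_coe.2 hQ.1) (Finset.mem_coe.2 hT.1) with l | l
    · refine lt_of_le_of_ne l ?_
      rintro rfl
      have := hQ.2
      have := hT.2
      omega
    · have h3 : Nat.card T ≤ Nat.card Q := Nat.le_of_dvd Nat.card_pos (Subgroup.card_dvd_of_le l)
      have := hQ.2
      have := hT.2
      omega
  · ext P
    rw [kr0_mem]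
    change a = some P ∨ b = some P ↔ _
    rw [ha, hb]
    exact ⟨fun e => e.elim And.left And.left,
      fun hP => (h.2 P hP).imp (fun e => ⟨hP, e⟩) (fun e => ⟨hP, e⟩)⟩

omit [Finite G] in
lemma kr0_stab_one (Q : Subgroup G) : stab {Q} = Subgroup.normalizer (Q : Set G) := by
  ext g
  simp [mem_stab]

open Classical in
omit [Finite G] in
lemma kr0_stab_two (Q T : Subgroup G) :
    stab {Q, T} = Subgroup.normalizer (Q : Set G) ⊓ Subgroup.normalizer (T : Set G) := by
  ext g
  simp [mem_stab]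

open Classical in
lemma kr0_step1 (hp : p.Prime) [Fintype (Finset (Subgroup G))] (F : Subgroup G → ℕ)
    (hF : ∀ T L : Subgroup G, IsPGroup p T → T ≤ L → L ≤ Subgroup.normalizer (T : Set G) →
      F L ≠ 0 → Nat.card T ∣ p ^ 2) :
    ∑ σ : Finset (Subgroup G), (if IsPChain p σ then sgn σ * (F (stab σ) : ℤ) else 0) =
      ∑ σ ∈ univ.filter (fun σ : Finset (Subgroup G) => kr0W p σ), sgn σ * (F (stab σ) : ℤ) := by
  haveI := Fact.mk hp
  have h := sum_normal (G := G) p (fun L => (F L : ℂ))
  have h1 : ∑ σ : Finset (Subgroup G), (if IsPChain p σ then sgn σ * (F (stab σ) : ℤ) else 0) =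
      ∑ σ : Finset (Subgroup G), (if IsPChain p σ then
        (if IsNC σ then sgn σ * (F (stab σ) : ℤ) else 0) else 0) := by
    apply Int.cast_injective (α := ℂ)
    push_cast
    exact h
  rw [h1, Finset.sum_filter]
  refine Finset.sum_congr rfl fun σ _ => ?_
  by_cases hW : kr0W p σ
  · rw [if_pos hW.1, if_pos (kr0_nc hp hW), if_pos hW]
  · rw [if_neg hW]
    by_cases e1 : IsPChain p σ
    · rw [if_pos e1]
      by_cases e2 : IsNC σ
      · rw [if_pos e2]
        by_cases e3 : F (stab σ) = 0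
        · rw [e3]
          simp
        · exact absurd (kr0_w hp e1 (hF _ _ (top_spec e1).1 e2 (top_spec e1).2.1 e3)) hW
      · rw [if_neg e2]
    · rw [if_neg e1]

open Classical in
/-- Pure combinatorics.  By `sum_normal` only normal chains matter; by `hF` (with `top_spec`) only
those whose top member has order dividing `p ^ 2`; these are `∅`, `{T}` and `{Q, T}` with `Q` of
order `p` inside `T` of order `p ^ 2`, all of them normal. -/
theorem chain_sum_eq (hp : p.Prime) [Fintype (Subgroup G)] [Fintype (Finset (Subgroup G))]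
    (F : Subgroup G → ℕ)
    (hF : ∀ T L : Subgroup G, IsPGroup p T → T ≤ L → L ≤ Subgroup.normalizer (T : Set G) →
      F L ≠ 0 → Nat.card T ∣ p ^ 2) :
    ∑ σ : Finset (Subgroup G), (if IsPChain p σ then sgn σ * (F (stab σ) : ℤ) else 0) =
      (F ⊤ : ℤ) -
      ∑ Q ∈ univ.filter (fun Q : Subgroup G => Nat.card Q = p),
        (F (Subgroup.normalizer (Q : Set G)) : ℤ) -
      ∑ T ∈ univ.filter (fun T : Subgroup G => Nat.card T = p ^ 2),
        (F (Subgroup.normalizer (T : Set G)) : ℤ) +
      ∑ Q ∈ univ.filter (fun Q : Subgroup G => Nat.card Q = p),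
        ∑ T ∈ univ.filter (fun T : Subgroup G => Q < T ∧ Nat.card T = p ^ 2),
          (F (Subgroup.normalizer (Q : Set G) ⊓ Subgroup.normalizer (T : Set G)) : ℤ) := by
  rw [kr0_step1 hp F hF]
  have h1 : ∑ x ∈ univ.filter (fun x : Option (Subgroup G) × Option (Subgroup G) => kr0V p x),
      sgn (kr0f x) * (F (stab (kr0f x)) : ℤ) =
      ∑ σ ∈ univ.filter (fun σ : Finset (Subgroup G) => kr0W p σ), sgn σ * (F (stab σ) : ℤ) := by
    refine Finset.sum_bij (fun x _ => kr0f x) ?_ ?_ ?_ ?_
    · intro x hx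
      exact Finset.mem_filter.2 ⟨Finset.mem_univ _, kr0_map hp (Finset.mem_filter.1 hx).2⟩
    · intro x hx y hy e
      exact kr0_inj hp (Finset.mem_filter.1 hx).2 (Finset.mem_filter.1 hy).2 e
    · intro σ hσ
      obtain ⟨x, hx, e⟩ := kr0_surj hp (Finset.mem_filter.1 hσ).2
      exact ⟨x, Finset.mem_filter.2 ⟨Finset.mem_univ _, hx⟩, e⟩
    · intro x _
      rfl
  rw [← h1, Finset.sum_filter, Fintype.sum_prod_type, Fintype.sum_option, Fintype.sum_option]
  have e0 : (if kr0V p ((none, none) : Option (Subgroup G) × Option (Subgroup G)) then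
      sgn (kr0f ((none, none) : Option (Subgroup G) × Option (Subgroup G))) *
        (F (stab (kr0f ((none, none) : Option (Subgroup G) × Option (Subgroup G)))) : ℤ) else 0) =
      (F ⊤ : ℤ) := by
    have : kr0f ((none, none) : Option (Subgroup G) × Option (Subgroup G)) = ∅ := by
      ext P
      simp [kr0_mem]
    rw [if_pos (by simp [kr0V]), this, stab_empty]
    simp [sgn]
  have e1 : ∀ T : Subgroup G, (if kr0V p (none, some T) then
      sgn (kr0f (none, some T)) * (F (stab (kr0f (none, some T))) : ℤ) else 0) =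
      - (if Nat.card T = p ^ 2 then (F (Subgroup.normalizer (T : Set G)) : ℤ) else 0) := by
    intro T
    have : kr0f (none, some T) = {T} := by
      ext P
      simp [kr0_mem, eq_comm]
    have hV : kr0V p (none, some T) ↔ Nat.card T = p ^ 2 := by simp [kr0V]
    rw [this, kr0_stab_one]
    by_cases h : Nat.card T = p ^ 2
    · rw [if_pos (hV.2 h), if_pos h]
      simp [sgn]
    · rw [if_neg (fun h' => h (hV.1 h')), if_neg h, neg_zero]
  have e2 : ∀ Q : Subgroup G, ∑ b : Option (Subgroup G), (if kr0V p (some Q, b) then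
      sgn (kr0f (some Q, b)) * (F (stab (kr0f (some Q, b))) : ℤ) else 0) =
      - (if Nat.card Q = p then (F (Subgroup.normalizer (Q : Set G)) : ℤ) else 0) +
      (if Nat.card Q = p then
        ∑ T ∈ univ.filter (fun T : Subgroup G => Q < T ∧ Nat.card T = p ^ 2),
          (F (Subgroup.normalizer (Q : Set G) ⊓ Subgroup.normalizer (T : Set G)) : ℤ) else 0) := by
    intro Q
    by_cases h : Nat.card Q = p
    · rw [Fintype.sum_option, if_pos h, if_pos h, Finset.sum_filter]
      have h0 : kr0f (some Q, none) = {Q} := by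
        ext P
        simp [kr0_mem, eq_comm]
      have hV : kr0V p (some Q, none) := by simpa [kr0V] using h
      rw [if_pos hV, h0, kr0_stab_one]
      refine congrArg₂ (· + ·) (by simp [sgn]) (Finset.sum_congr rfl fun T _ => ?_)
      have h2 : kr0f (some Q, some T) = {Q, T} := by
        ext P
        simp [kr0_mem, eq_comm]
      have hV2 : kr0V p (some Q, some T) ↔ Q < T ∧ Nat.card T = p ^ 2 :=
        ⟨fun hv => ⟨hv.2.2 Q T rfl rfl, hv.2.1 T rfl⟩, fun hv =>
          ⟨fun Q' e => Option.some.inj e ▸ h, fun T' e => Option.some.inj e ▸ hv.2,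
            fun Q' T' e e' => Option.some.inj e ▸ Option.some.inj e' ▸ hv.1⟩⟩
      rw [h2, kr0_stab_two]
      by_cases h3 : Q < T ∧ Nat.card T = p ^ 2
      · rw [if_pos (hV2.2 h3), if_pos h3, sgn, Finset.card_pair h3.1.ne]
        simp
      · rw [if_neg (fun h' => h3 (hV2.1 h')), if_neg h3]
    · rw [if_neg h, if_neg h, neg_zero, add_zero]
      exact Finset.sum_eq_zero fun b _ => if_neg fun hv => h (hv.1 Q rfl)
  rw [e0, Finset.sum_congr rfl fun T _ => e1 T, Finset.sum_congr rfl fun Q _ => e2 Q,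
    Finset.sum_add_distrib, Finset.sum_neg_distrib, Finset.sum_neg_distrib, ← Finset.sum_filter,
    ← Finset.sum_filter, ← Finset.sum_filter]
  ring

end Pool.Agent.Lib.MP_b6945b_al.St
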