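import Pool.Agent.Lib.MP_b6945b_al.St.BlkE

set_option autoImplicit false

/-!
Defect groups and induced blocks in terms of characters.
-/

namespace Pool.Agent.Lib.MP_b6945b_al.St

open Finset

variable {p : ℕ} {G : Type} [Group G] [Finite G] {M : Ideal (integralClosure ℤ ℂ)}

/-- The block of `θ` induces the block of `χ`. -/
def IndTo (M : Ideal (integralClosure ℤ ℂ)) (χ : G → ℂ) (N : Subgroup G) (θ : N → ℂ) : Prop :=
  ∀ x : G, InIdeal M (omega θ {h : N | IsConj x (h : G)} - omega χ {g | IsConj x g})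

omit [Finite G] in
lemma kInd_def (χ : G → ℂ) (N : Subgroup G) :
    kInd M χ N = Nat.card {θ : N → ℂ // IsIrrChar θ ∧ IndTo M χ N θ} := rfl

/-- Irreducible characters are the `I.χ i` (`IrrData.exists_eq`, `matIrr`). -/
lemma isIrrChar_iff [Fintype G] (I : IrrData G) {χ : G → ℂ} : IsIrrChar χ ↔ ∃ i, χ = I.χ i := by
  constructor
  · rintro ⟨n, ρ, hn, h, rfl⟩
    obtain ⟨i, -, hi⟩ := I.exists_eq ρ hn h
    exact ⟨i, hi⟩
  · rintro ⟨i, rfl⟩
    exact ⟨I.d i, I.ρ i, I.pos i, I.matIrr i, rfl⟩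

/-- Choose `x` with central character outside `M` (`x = 1` is one) and the `p`-part of the order of
its centraliser minimal. -/
theorem exists_defectGroup (hp : p.Prime) (hM : M.IsMaximal) {χ : G → ℂ} (hχ : IsIrrChar χ) :
    ∃ D : Subgroup G, IsDefectGroup p M χ D := by
  classical
  have : Fact p.Prime := ⟨hp⟩
  let _ : Fintype G := Fintype.ofFinite G
  have h1 : ¬ InIdeal M (omega χ {g | IsConj 1 g}) := by
    obtain ⟨n, ρ, hn, -, rfl⟩ := hχ
    have e : {g : G | IsConj 1 g} = {1} := by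
      ext g
      simp [eq_comm]
    have hn' : (n : ℂ) ≠ 0 := by exact_mod_cast hn.ne'
    have e2 : omega (fun g => (ρ g).trace) {g : G | IsConj 1 g} = 1 := by
      rw [e, omega, finsum_mem_singleton]
      simp [hn']
    rw [e2]
    rintro ⟨m, hm, h⟩
    have : m = 1 := Subtype.ext h
    exact hM.ne_top ((Ideal.eq_top_iff_one M).2 (this ▸ hm))
  obtain ⟨x, hx, hmin⟩ := Finset.exists_min_image
    (univ.filter fun x : G => ¬ InIdeal M (omega χ {g | IsConj x g}))
    (fun x => (Nat.card (Subgroup.centralizer {x})).factorization p) ⟨1, by simpa using h1⟩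
  obtain ⟨P⟩ : Nonempty (Sylow p (Subgroup.centralizer {x})) := inferInstance
  refine ⟨_, ⟨x, (mem_filter.1 hx).2, P, rfl⟩, fun y hy => ?_⟩
  rw [Subgroup.card_map_of_injective (Subgroup.subtype_injective _), P.card_eq_multiplicity]
  exact (pow_dvd_pow p (hmin y (mem_filter.2 ⟨mem_univ _, hy⟩))).trans (Nat.ordProj_dvd _ p)

omit [Finite G] in
lemma IsDefectGroup.isPGroup' {χ : G → ℂ} {D : Subgroup G} (h : IsDefectGroup p M χ D) :
    IsPGroup p D := by
  obtain ⟨⟨x, -, P, rfl⟩, -⟩ := h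
  exact P.isPGroup'.map _

/-- `om_nil` for the normal `p`-subgroup `T` of `L`: some conjugate of `x` centralises `T`. -/
theorem conj_le_of_kInd (hp : p.Prime) (hM : M.IsMaximal) (hpM : (p : integralClosure ℤ ℂ) ∈ M)
    {χ : G → ℂ} (hχ : IsIrrChar χ) {D : Subgroup G} (hD : IsDefectGroup p M χ D)
    {T L : Subgroup G} (hT : IsPGroup p T) (hTL : T ≤ L)
    (hL : L ≤ Subgroup.normalizer (T : Set G)) (h : kInd M χ L ≠ 0) :
    ∃ g : G, ∀ t ∈ T, g⁻¹ * t * g ∈ D := by
  classical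
  have : Fact p.Prime := ⟨hp⟩
  let _ : Fintype G := Fintype.ofFinite G
  let _ : Fintype L := Fintype.ofFinite L
  obtain ⟨I⟩ := exists_irrData G
  obtain ⟨I'⟩ := exists_irrData L
  obtain ⟨V, hV⟩ := exists_val_of_maximal M hM
  have hpV : (p : ℂ) ∈ V.nonunits := (hV _ (isIntegral_natCast p)).1 ⟨_, hpM, by simp⟩
  obtain ⟨i, rfl⟩ := (isIrrChar_iff I).1 hχ
  obtain ⟨x, hx, -, hS⟩ := (defV_of_isDefectGroup hV I i hD).ex
  rw [kInd_eq_card hV I i L I'] at h
  obtain ⟨j, hj⟩ := Finset.card_ne_zero.1 h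
  have hj' := (mem_filter.1 hj).2 x
  have hN : (T.subgroupOf L).Normal := (Subgroup.normal_subgroupOf_iff_le_normalizer hTL).2 hL
  have key : ∃ y : L, IsConj x (y : G) ∧ ∀ g ∈ T.subgroupOf L, g * y = y * g := by
    by_contra hno
    have h1 := I'.om_nil hpV j (T.subgroupOf L) hT.comap_subtype
      ((isCF_ind (isConj_conj_iff x)).res L) (fun y => ind_mem V _ _)
      (fun y hy => ind_neg (S := IsConj x) fun e => hno ⟨y, e, hy⟩)
    have h2 := sub_mem h1 hj'
    rw [sub_sub_cancel] at h2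
    exact hx h2
  obtain ⟨y, hy, hc⟩ := key
  obtain ⟨c, hcy⟩ := isConj_iff.1 hy
  obtain ⟨c', hc'⟩ := hS (T.map (MulAut.conj c⁻¹).toMonoidHom) (hT.map _) (by
    rintro _ ⟨t, ht, rfl⟩
    have h1 : t * (y : G) = y * t := congrArg Subtype.val (hc ⟨t, hTL ht⟩ ht)
    rw [← hcy] at h1
    change c⁻¹ * t * c⁻¹⁻¹ * x = x * (c⁻¹ * t * c⁻¹⁻¹)
    calc c⁻¹ * t * c⁻¹⁻¹ * x = c⁻¹ * (t * (c * x * c⁻¹)) * c := by group
      _ = x * (c⁻¹ * t * c⁻¹⁻¹) := by rw [h1]; group)
  refine ⟨c * c', fun t ht => ?_⟩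
  have h2 : c'⁻¹ * (c⁻¹ * t * c⁻¹⁻¹) * c' ∈ D := hc' _ ⟨t, ht, rfl⟩
  rwa [show c'⁻¹ * (c⁻¹ * t * c⁻¹⁻¹) * c' = (c * c')⁻¹ * t * (c * c') by group] at h2

/-- Normal `p`-subgroups lie in every defect group. -/
theorem le_defectGroup (hp : p.Prime) (hM : M.IsMaximal) (hpM : (p : integralClosure ℤ ℂ) ∈ M)
    {χ : G → ℂ} (hχ : IsIrrChar χ) {D : Subgroup G} (hD : IsDefectGroup p M χ D)
    {Q : Subgroup G} [Q.Normal] (hQ : IsPGroup p Q) : Q ≤ D := by
  classical
  have h : kInd M χ ⊤ ≠ 0 := by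
    let _ : Fintype G := Fintype.ofFinite G
    obtain ⟨I⟩ := exists_irrData G
    obtain ⟨V, hV⟩ := exists_val_of_maximal M hM
    obtain ⟨i, rfl⟩ := (isIrrChar_iff I).1 hχ
    rw [kInd_top_eq_card hV I i]
    exact Finset.card_ne_zero.2 ⟨i, mem_filter.2 ⟨mem_univ _, blkE_bl_self I i⟩⟩
  obtain ⟨g, hg⟩ := conj_le_of_kInd hp hM hpM hχ hD hQ le_top
    (Subgroup.normalizer_eq_top Q).ge h
  intro q hq
  have := hg _ (‹Q.Normal›.conj_mem q hq g)
  rwa [show g⁻¹ * (g * q * g⁻¹) * g = q by group] at this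

omit [Finite G] in
lemma kr1_mem (D : Subgroup G) (g t : G) :
    t ∈ D.map (MulAut.conj g).toMonoidHom ↔ g⁻¹ * t * g ∈ D := by
  rw [Subgroup.mem_map_equiv]
  simp

omit [Finite G] in
lemma kr1_fiber (D : Subgroup G) (a g : G) :
    g ∈ Subgroup.normalizer ((D.map (MulAut.conj a).toMonoidHom : Subgroup G) : Set G) ↔
      D.map (MulAut.conj (g * a)).toMonoidHom = D.map (MulAut.conj a).toMonoidHom := by
  rw [Subgroup.mem_normalizer_iff, Subgroup.ext_iff]
  simp only [kr1_mem]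
  constructor
  · intro h t
    have := h (g⁻¹ * t * g)
    rwa [show a⁻¹ * (g⁻¹ * t * g) * a = (g * a)⁻¹ * t * (g * a) by group,
      show g * (g⁻¹ * t * g) * g⁻¹ = t by group] at this
  · intro h t
    have := h (g * t * g⁻¹)
    rwa [show (g * a)⁻¹ * (g * t * g⁻¹) * (g * a) = a⁻¹ * t * a by group] at this

omit [Finite G] in
lemma kr1_norm (D : Subgroup G) (a b : G) :
    b ∈ Subgroup.normalizer (D : Set G) ↔ a * b * a⁻¹ ∈
      Subgroup.normalizer ((D.map (MulAut.conj a).toMonoidHom : Subgroup G) : Set G) := by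
  rw [Subgroup.mem_normalizer_iff, Subgroup.mem_normalizer_iff]
  simp only [kr1_mem]
  constructor
  · intro h t
    rw [h (a⁻¹ * t * a), show b * (a⁻¹ * t * a) * b⁻¹ =
      a⁻¹ * (a * b * a⁻¹ * t * (a * b * a⁻¹)⁻¹) * a by group]
  · intro h t
    have := h (a * t * a⁻¹)
    rwa [show a⁻¹ * (a * t * a⁻¹) * a = t by group, show
      a⁻¹ * (a * b * a⁻¹ * (a * t * a⁻¹) * (a * b * a⁻¹)⁻¹) * a = b * t * b⁻¹ by group] at this

open Classical in
/-- Only the conjugates of `D` contribute (`conj_le_of_kInd`), all equally (`kInd_le`), and their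
number is the index of the normaliser. -/
theorem sum_conj (hp : p.Prime) (hM : M.IsMaximal) (hpM : (p : integralClosure ℤ ℂ) ∈ M)
    {χ : G → ℂ} (hχ : IsIrrChar χ) {D : Subgroup G} (hD : IsDefectGroup p M χ D)
    [Fintype (Subgroup G)] :
    ∑ T ∈ univ.filter (fun T : Subgroup G => Nat.card T = Nat.card D),
      Nat.card (Subgroup.normalizer (T : Set G)) * kInd M χ (Subgroup.normalizer (T : Set G)) =
      Nat.card G * kInd M χ (Subgroup.normalizer (D : Set G)) := by
  have : Fact p.Prime := ⟨hp⟩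
  let _ : Fintype G := Fintype.ofFinite G
  have hcard : ∀ g : G, Nat.card (D.map (MulAut.conj g).toMonoidHom) = Nat.card D := fun g =>
    Subgroup.card_map_of_injective (MulAut.conj g).injective
  have h1 := Finset.sum_fiberwise_of_maps_to (s := (univ : Finset G))
    (t := univ.filter (fun T : Subgroup G => Nat.card T = Nat.card D))
    (g := fun g => D.map (MulAut.conj g).toMonoidHom)
    (fun g _ => mem_filter.2 ⟨mem_univ _, hcard g⟩)
    (fun _ => kInd M χ (Subgroup.normalizer (D : Set G)))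
  rw [sum_const, card_univ, smul_eq_mul, ← Nat.card_eq_fintype_card] at h1
  rw [← h1]
  refine Finset.sum_congr rfl fun T hT => ?_
  have hT' := (mem_filter.1 hT).2
  rw [sum_const, smul_eq_mul]
  by_cases hex : ∃ g : G, D.map (MulAut.conj g).toMonoidHom = T
  · obtain ⟨a, rfl⟩ := hex
    congr 1
    · rw [← Fintype.card_subtype, ← Nat.card_eq_fintype_card]
      exact Nat.card_congr (Equiv.subtypeEquiv (Equiv.mulRight a) fun g => kr1_fiber D a g)
    · symm
      refine kInd_le M χ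
        { Equiv.subtypeEquiv (MulAut.conj a).toEquiv (fun b => kr1_norm D a b) with
          map_mul' := fun b c => Subtype.ext (map_mul (MulAut.conj a) (b : G) c) } ?_
      intro h
      exact isConj_iff.2 ⟨a, rfl⟩
  · have h0 : kInd M χ (Subgroup.normalizer (T : Set G)) = 0 := by
      by_contra hne
      obtain ⟨n, hn⟩ := IsPGroup.iff_card.1 (IsDefectGroup.isPGroup' hD)
      obtain ⟨g, hg⟩ := conj_le_of_kInd hp hM hpM hχ hD (IsPGroup.of_card (hT'.trans hn))
        Subgroup.le_normalizer le_rfl hne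
      refine hex ⟨g, (Subgroup.eq_of_le_of_card_ge (fun t ht => (kr1_mem D g t).2 (hg t ht))
        ((hcard g).trans hT'.symm).le).symm⟩
    rw [h0, mul_zero, filter_eq_empty_iff.2 fun g _ e => hex ⟨g, e⟩, card_empty, zero_mul]

end Pool.Agent.Lib.MP_b6945b_al.St
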