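import Pool.Agent.Lib.MP_b6945b_al.St.KernDefs

set_option autoImplicit false

/-!
Basic facts on kernel algebras and Brauer maps.
-/

namespace Pool.Agent.Lib.MP_b6945b_al.St

open IsLocalRing
open MonoidAlgebra (single)

lemma kern_sum_orbit {Γ Y M : Type} [Group Γ] [MulAction Γ Y] [Fintype Y] [AddCommGroup M]
    (φ : Y → M) (hφ : ∀ (g : Γ) y, φ (g • y) = φ y) (J : AddSubgroup M)
    (h : ∀ y, Nat.card (MulAction.orbit Γ y) • φ y ∈ J) : ∑ y, φ y ∈ J := by
  classical
  let _ : Fintype (MulAction.orbitRel.Quotient Γ Y) := Fintype.ofFinite _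
  rw [← Finset.sum_fiberwise (s := Finset.univ)
    (g := fun y => (Quotient.mk (MulAction.orbitRel Γ Y) y : MulAction.orbitRel.Quotient Γ Y))]
  refine J.sum_mem ?_
  intro ω _
  have h1 : ∀ y ∈ Finset.univ.filter (fun y => (Quotient.mk (MulAction.orbitRel Γ Y) y :
      MulAction.orbitRel.Quotient Γ Y) = ω), φ y = φ ω.out := by
    intro y hy
    have hy' := (Finset.mem_filter.1 hy).2
    have : (MulAction.orbitRel Γ Y) y ω.out :=
      Quotient.exact (hy'.trans (Quotient.out_eq ω).symm)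
    obtain ⟨g, hg⟩ := (MulAction.orbitRel_apply.1 this)
    rw [← hg]; exact hφ g _
  rw [Finset.sum_congr rfl h1, Finset.sum_const]
  have h2 : (Finset.univ.filter (fun y => (Quotient.mk (MulAction.orbitRel Γ Y) y :
      MulAction.orbitRel.Quotient Γ Y) = ω)).card = Nat.card (MulAction.orbit Γ ω.out) := by
    rw [Nat.card_eq_fintype_card, Fintype.card_subtype]
    congr 1
    ext y
    simp only [Finset.mem_filter, Finset.mem_univ, true_and]
    rw [← MulAction.orbitRel_apply]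
    constructor
    · intro hy; exact Quotient.exact (hy.trans (Quotient.out_eq ω).symm)
    · intro hy; exact (Quotient.sound hy).trans (Quotient.out_eq ω)
  rw [h2]; exact h _

/-- Sum of an invariant function over a set on which a `p`-group acts through a homomorphism. -/
lemma kern_sum_hom {Γ Γ' Y R : Type} [Group Γ] [Group Γ'] [MulAction Γ' Y] [Fintype Y]
    [CommRing R] {p : ℕ} (hp : p.Prime) (hΓ : IsPGroup p Γ) (f : Γ →* Γ') (φ : Y → R)
    (hφ : ∀ (g : Γ) y, φ (f g • y) = φ y) (J : Ideal R) (hpJ : (p : R) ∈ J)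
    (h : ∀ y, (∀ g : Γ, f g • y = y) → φ y ∈ J) : ∑ y, φ y ∈ J := by
  let _ : MulAction Γ Y := MulAction.compHom Y f
  have _ : Fact p.Prime := ⟨hp⟩
  refine kern_sum_orbit (Γ := Γ) φ hφ J.toAddSubgroup (fun y => ?_)
  obtain ⟨n, hn⟩ := hΓ.card_orbit y
  rcases n with _ | n
  · rw [hn, pow_zero, one_smul]
    refine h y ?_
    let _ := Fintype.ofFinite (MulAction.orbit Γ y)
    rw [pow_zero, Nat.card_eq_fintype_card] at hn
    exact MulAction.mem_fixedPoints.1 (MulAction.mem_fixedPoints_iff_card_orbit_eq_one.2 hn)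
  · rw [hn, pow_succ, mul_smul, nsmul_eq_mul, nsmul_eq_mul]
    exact J.mul_mem_left _ (J.mul_mem_right _ hpJ)

/-- Orbit representatives of a free action. -/
lemma kern_exists_rep {Γ Y : Type} [Group Γ] (act : Γ → Y → Y) (h1 : ∀ x, act 1 x = x)
    (hm : ∀ a b x, act (a * b) x = act a (act b x)) (hf : ∀ a x, act a x = x → a = 1) :
    ∃ (rep : Y → Y) (c : Y → Γ), (∀ x, act (c x) (rep x) = x) ∧ (∀ a x, rep (act a x) = rep x) ∧
      (∀ a x, c (act a x) = a * c x) ∧ ∀ x, rep x = x → c x = 1 := by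
  let S : Setoid Y :=
    { r := fun x y => ∃ a, act a x = y
      iseqv := ⟨fun x => ⟨1, h1 x⟩,
        fun ⟨a, h⟩ => ⟨a⁻¹, by rw [← h, ← hm, inv_mul_cancel, h1]⟩,
        fun ⟨a, h⟩ ⟨b, h'⟩ => ⟨b * a, by rw [hm, h, h']⟩⟩ }
  have h2 : ∀ x, ∃ a, act a (Quotient.mk S x).out = x := fun x => Quotient.mk_out (s := S) x
  choose c hc using h2
  have h3 : ∀ a x, (Quotient.mk S (act a x)).out = (Quotient.mk S x).out := fun a x =>
    congrArg Quotient.out (Quotient.sound (s := S) (a := x) ⟨a, rfl⟩).symm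
  refine ⟨fun x => (Quotient.mk S x).out, c, hc, h3, fun a x => ?_, fun x hx => ?_⟩
  · have h4 := hc (act a x)
    rw [h3] at h4
    have h5 : act ((a * c x)⁻¹ * c (act a x)) (Quotient.mk S x).out = (Quotient.mk S x).out := by
      have h6 : act a x = act (a * c x) (Quotient.mk S x).out := by rw [hm, hc]
      rw [hm, h4, h6, ← hm, inv_mul_cancel, h1]
    exact (inv_mul_eq_one.1 (hf _ _ h5)).symm
  · have h4 := hc x
    have hx' : (Quotient.mk S x).out = x := hx
    rw [hx'] at h4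
    exact hf _ _ h4

/-- Extension by zero of an invariant kernel defined on a subset (choose for each pair in the
saturation of `Z × Z` a group element moving it into `Z × Z`, and a set-theoretic section of
`π`). -/
lemma exists_ext_zero {Γ X R k : Type} [Group Γ] [MulAction Γ X] [Zero R] (π : R → k)
    (hπ : Function.Surjective π) (Z : X → Prop) (M : X → X → k)
    (hM : ∀ (γ : Γ) x y, Z x → Z y → Z (γ • x) → Z (γ • y) → M (γ • x) (γ • y) = M x y) :
    ∃ N : X → X → R, (∀ (γ : Γ) x y, N (γ • x) (γ • y) = N x y) ∧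
      (∀ x y, Z x → Z y → π (N x y) = M x y) ∧
      (∀ x y x' y', Z x → Z y → Z x' → Z y' → M x y = M x' y' → N x y = N x' y') ∧
      ∀ x y, N x y ≠ 0 → ∃ γ : Γ, Z (γ • x) ∧ Z (γ • y) := by
  classical
  obtain ⟨sec, hsec⟩ := hπ.hasRightInverse
  have wd : ∀ (γ γ' : Γ) x y, Z (γ • x) → Z (γ • y) → Z (γ' • x) → Z (γ' • y) →
      M (γ' • x) (γ' • y) = M (γ • x) (γ • y) := by
    intro γ γ' x y h1 h2 h3 h4
    have e : ∀ z : X, γ' • z = (γ' * γ⁻¹) • γ • z := fun z => by rw [mul_smul, inv_smul_smul]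
    rw [e x, e y]
    exact hM _ _ _ h1 h2 (by rw [← e]; exact h3) (by rw [← e]; exact h4)
  let N : X → X → R := fun x y =>
    if h : ∃ γ : Γ, Z (γ • x) ∧ Z (γ • y) then sec (M (h.choose • x) (h.choose • y)) else 0
  have hN : ∀ (γ : Γ) x y, Z (γ • x) → Z (γ • y) → N x y = sec (M (γ • x) (γ • y)) := by
    intro γ x y h1 h2
    have h : ∃ γ : Γ, Z (γ • x) ∧ Z (γ • y) := ⟨γ, h1, h2⟩
    change (if h : ∃ γ : Γ, Z (γ • x) ∧ Z (γ • y) then
      sec (M (h.choose • x) (h.choose • y)) else 0) = _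
    rw [dif_pos h, wd γ h.choose x y h1 h2 h.choose_spec.1 h.choose_spec.2]
  have hN0 : ∀ x y, (¬ ∃ γ : Γ, Z (γ • x) ∧ Z (γ • y)) → N x y = 0 := fun x y h => dif_neg h
  have hN1 : ∀ x y, Z x → Z y → N x y = sec (M x y) := by
    intro x y h1 h2
    have := hN 1 x y (by rwa [one_smul]) (by rwa [one_smul])
    rwa [one_smul, one_smul] at this
  refine ⟨N, fun γ x y => ?_, fun x y h1 h2 => ?_, fun x y x' y' h1 h2 h3 h4 e => ?_,
    fun x y h => ?_⟩
  · by_cases h : ∃ γ : Γ, Z (γ • x) ∧ Z (γ • y)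
    · obtain ⟨δ, h1, h2⟩ := h
      have e : ∀ z : X, (δ * γ⁻¹) • γ • z = δ • z := fun z => by rw [mul_smul, inv_smul_smul]
      rw [hN δ x y h1 h2, hN (δ * γ⁻¹) _ _ (by rwa [e]) (by rwa [e]), e, e]
    · rw [hN0 x y h, hN0]
      rintro ⟨δ, h1, h2⟩
      exact h ⟨δ * γ, by rwa [mul_smul], by rwa [mul_smul]⟩
  · rw [hN1 x y h1 h2, hsec]
  · rw [hN1 x y h1 h2, hN1 x' y' h3 h4, e]
  · by_contra h'
    exact h (hN0 x y h')

variable {R : Type} [CommRing R] {G : Type} [Group G] [Fintype G] {H : Subgroup G} {X : Type}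
  [Fintype X] [DecidableEq X] [MulAction (G × H) X]

lemma piA_single (g : G) : piA R H X (single g 1) = piK R H X g := by
  simp [piA]

lemma piA_apply (b : MonoidAlgebra R G) (x y : X) :
    (piA R H X b).1 x y = ∑ g, if x = ((g, 1) : G × H) • y then b.coeff g else 0 := by
  conv_lhs => rw [eq_sum_single b]
  rw [map_sum, AddSubmonoidClass.coe_finsetSum, Matrix.sum_apply]
  refine Finset.sum_congr rfl (fun g _ => ?_)
  rw [map_smul, piA_single]
  change b.coeff g * pmat R H X (g, 1) x y = _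
  rw [pmat_apply]
  split_ifs <;> simp

lemma biRep_entry (γ : G × G) (a : Kern R H X) (x y : X) :
    (biRep R H X γ a).1 x y = a.1 (((γ.1⁻¹, 1) : G × H) • x) (((γ.2⁻¹, 1) : G × H) • y) := by
  change (pmat R H X (γ.1, 1) * (a.1 * pmat R H X (γ.2⁻¹, 1))) x y = _
  rw [pmat_mul_apply, mul_pmat_apply]
  simp

lemma kern_comm_iff {a : Kern R H X} {g : G} : piK R H X g * a = a * piK R H X g ↔
    ∀ x y, a.1 (((g, 1) : G × H) • x) (((g, 1) : G × H) • y) = a.1 x y := by
  rw [Subtype.ext_iff]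
  change pmat R H X (g, 1) * a.1 = a.1 * pmat R H X (g, 1) ↔ _
  refine ⟨fun e x y => ?_, fun e => ?_⟩
  · have := congrFun (congrFun e (((g, 1) : G × H) • x)) y
    rw [pmat_mul_apply, mul_pmat_apply, inv_smul_smul] at this
    exact this.symm
  · ext x y
    rw [pmat_mul_apply, mul_pmat_apply, ← e, smul_inv_smul]

lemma gInv_iff {a : Kern R H X} : GInv a ↔
    ∀ (g : G) x y, a.1 (((g, 1) : G × H) • x) (((g, 1) : G × H) • y) = a.1 x y := by
  exact forall_congr' (fun g => kern_comm_iff)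

lemma GInv.piA_comm {a : Kern R H X} (h : GInv a) (b : MonoidAlgebra R G) :
    piA R H X b * a = a * piA R H X b := by
  rw [eq_sum_single b, map_sum, Finset.sum_mul, Finset.mul_sum]
  refine Finset.sum_congr rfl (fun g _ => ?_)
  rw [map_smul, piA_single, smul_mul_assoc, mul_smul_comm, h g]

lemma GInv.entry {a : Kern R H X} (h : GInv a) (γ : G × H) (x y : X) :
    a.1 (γ • x) (γ • y) = a.1 x y := by
  have e : ∀ z : X, γ • z = ((γ.1, 1) : G × H) • ((1, γ.2) : G × H) • z := fun z => by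
    rw [← mul_smul]; simp
  rw [e x, e y, gInv_iff.1 h, (mem_Kern R H X).1 a.2]

lemma piA_equiv : EquivOn (gaRep R G) (biRep R H X) ⊤ (piA R H X).toLinearMap := by
  intro γ _ m
  rw [gaRep_apply, biRep_apply]
  change piA R H X _ = _ * (piA R H X m * _)
  rw [map_mul, map_mul, piA_single, piA_single]

lemma dInv_of_comm {Q : Subgroup H} {a : Kern R H X}
    (h : ∀ q ∈ Q, piK R H X q * a = a * piK R H X q) : DInv Q a.1 := by
  intro q hq x y
  have e : ∀ z : X, (((q : G), q) : G × H) • z =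
      (((q : G), 1) : G × H) • ((1, q) : G × H) • z := fun z => by
    rw [← mul_smul]; simp
  rw [e x, e y, kern_comm_iff.1 (h q hq), (mem_Kern R H X).1 a.2]

lemma GInv.dInv {a : Kern R H X} (h : GInv a) (Q : Subgroup H) : DInv Q a.1 := by
  exact fun q _ x y => h.entry _ x y

lemma dInv_piA {Q : Subgroup H} {b : MonoidAlgebra R G} (h : SuppCent (imG Q) b) :
    DInv Q (piA R H X b).1 := by
  intro q hq x y
  have hq' : (q : G) ∈ imG Q := ⟨q, hq, rfl⟩
  have hc : ∀ g : G, b.coeff ((q : G) * g * (q : G)⁻¹) = b.coeff g := by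
    intro g
    by_cases h1 : b.coeff g = 0
    · by_contra h2
      rw [h1] at h2
      have h3 := h _ h2 q hq'
      have h4 : (q : G) * g * (q : G)⁻¹ = g := by
        have h5 : (q : G) * g = q * (q * g * (q : G)⁻¹) := by rw [← h3]; group
        exact (mul_left_cancel h5).symm
      rw [h4] at h2
      exact h2 h1
    · rw [← h g h1 q hq', mul_inv_cancel_right]
  rw [piA_apply, piA_apply, ← Equiv.sum_comp (MulAut.conj (q : G)).toEquiv]
  refine Finset.sum_congr rfl (fun g _ => ?_)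
  change (if (((q : G), q) : G × H) • x =
    (((q : G) * g * (q : G)⁻¹, 1) : G × H) • (((q : G), q) : G × H) • y then
    b.coeff ((q : G) * g * (q : G)⁻¹) else 0) = _
  have e : (((q : G) * g * (q : G)⁻¹, 1) : G × H) • (((q : G), q) : G × H) • y =
      (((q : G), q) : G × H) • ((g, 1) : G × H) • y := by
    rw [← mul_smul, ← mul_smul]; simp
  exact if_congr (by rw [e, smul_left_cancel_iff]) (hc g) rfl

lemma DInv.mul {Q : Subgroup H} {M N : Matrix X X R} (hM : DInv Q M) (hN : DInv Q N) :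
    DInv Q (M * N) := by
  intro q hq x y
  rw [Matrix.mul_apply, Matrix.mul_apply,
    ← Equiv.sum_comp (MulAction.toPerm (((q : G), q) : G × H))]
  refine Finset.sum_congr rfl (fun z _ => ?_)
  rw [MulAction.toPerm_apply, hM q hq, hN q hq]

lemma DInv.add {Q : Subgroup H} {M N : Matrix X X R} (hM : DInv Q M) (hN : DInv Q N) :
    DInv Q (M + N) := by
  intro q hq x y
  rw [Matrix.add_apply, Matrix.add_apply, hM q hq, hN q hq]

lemma DInv.sub {Q : Subgroup H} {M N : Matrix X X R} (hM : DInv Q M) (hN : DInv Q N) :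
    DInv Q (M - N) := by
  intro q hq x y
  rw [Matrix.sub_apply, Matrix.sub_apply, hM q hq, hN q hq]

section rho

variable [Fintype H]

lemma rhoM_mul (a b : MonoidAlgebra R H) : rhoM R H X (a * b) = rhoM R H X b * rhoM R H X a := by
  simp only [rhoM, coeff_mul_fin, Finset.sum_smul, Finset.sum_mul, Finset.mul_sum]
  rw [Finset.sum_comm]
  refine Finset.sum_congr rfl (fun y _ => ?_)
  rw [← Equiv.sum_comp (Equiv.mulLeft y)]
  refine Finset.sum_congr rfl (fun h _ => ?_)
  rw [smul_mul_assoc, mul_smul_comm, smul_smul, ← map_mul]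
  simp [mul_comm]

lemma rhoM_single (h : H) : rhoM R H X (single h 1) = pmat R H X (1, h⁻¹) := by
  classical
  unfold rhoM
  rw [Finset.sum_eq_single h]
  · simp
  · intro h' _ e
    simp [Finsupp.single_eq_of_ne e]
  · simp

lemma rhoM_comm (a : MonoidAlgebra R H) (M : Kern R H X) :
    rhoM R H X a * M.1 = M.1 * rhoM R H X a := by
  unfold rhoM
  rw [Finset.sum_mul, Finset.mul_sum]
  refine Finset.sum_congr rfl (fun h _ => ?_)
  rw [smul_mul_assoc, mul_smul_comm]
  exact congrArg _ (M.2 _ ⟨h⁻¹, rfl⟩)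

lemma rhoM_mem {a : MonoidAlgebra R H} (h : ∀ b, a * b = b * a) : rhoM R H X a ∈ Kern R H X := by
  rintro _ ⟨g, rfl⟩
  have e : pmat R H X (1, g) = rhoM R H X (single g⁻¹ 1) := by rw [rhoM_single, inv_inv]
  change pmat R H X (1, g) * _ = _ * pmat R H X (1, g)
  rw [e, ← rhoM_mul, ← rhoM_mul, h]

end rho

variable {κ : X → G}

/-- An element of `H` moving one fixed point to a fixed point centralises `Q`. -/
lemma Biset.cent_right (hX : Biset H X κ) {Q : Subgroup H} {h : H} {x x' : Fix X Q}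
    (e : x'.1 = ((1, h) : G × H) • x.1) : ∀ q ∈ Q, h * q = q * h := by
  intro q hq
  have h1 := x'.2 q hq
  have h2 := x.2 q hq
  rw [e] at h1
  have h3 : ((1, (h * q)⁻¹ * (q * h)) : G × H) • x.1 = x.1 := by
    have e1 : ((1, (h * q)⁻¹ * (q * h)) : G × H) =
        (((q : G), q) : G × H)⁻¹ * ((1, h) : G × H)⁻¹ * (((q : G), q) * (1, h)) := by simp
    rw [e1, mul_smul, mul_smul, mul_smul, h1, inv_smul_smul, inv_smul_eq_iff, h2]
  exact (inv_mul_eq_one.1 (hX.right _ _ h3))

lemma Biset.cent_left (hX : Biset H X κ) {Q : Subgroup H} {g : G} {x x' : Fix X Q}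
    (e : x'.1 = ((g, 1) : G × H) • x.1) : ∀ q ∈ imG Q, g * q = q * g := by
  rintro _ ⟨q, hq, rfl⟩
  have h1 := x'.2 q hq
  have h2 := x.2 q hq
  rw [e] at h1
  have h3 : (((g * q)⁻¹ * (q * g), 1) : G × H) • x.1 = x.1 := by
    have e1 : (((g * q)⁻¹ * (q * g), 1) : G × H) =
        (((q : G), q) : G × H)⁻¹ * ((g, 1) : G × H)⁻¹ * (((q : G), q) * (g, 1)) := by simp
    rw [e1, mul_smul, mul_smul, mul_smul, h1, inv_smul_smul, inv_smul_eq_iff, h2]
  exact (inv_mul_eq_one.1 (hX.left _ _ h3))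

lemma Biset.kappa_cent (hX : Biset H X κ) {Q : Subgroup H} (x : Fix X Q) :
    ∀ q ∈ imG Q, κ x.1 * q = q * κ x.1 := by
  rintro _ ⟨q, hq, rfl⟩
  have h1 := hX.map ((q : G), q) x.1
  rw [x.2 q hq] at h1
  exact eq_mul_inv_iff_mul_eq.1 h1

lemma Biset.lk_mul (hX : Biset H X κ) {k : Type} [CommRing k] {Q : Subgroup H}
    {M N : Matrix (Fix X Q) (Fix X Q) k} (hM : M ∈ LK k Q) (hN : N ∈ LK k Q) :
    M * N ∈ LK k Q := by
  intro h x y x' y' e1 e2
  have hc := hX.cent_right e1
  have hc' : ∀ q ∈ Q, h⁻¹ * q = q * h⁻¹ := fun q hq => by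
    rw [inv_mul_eq_iff_eq_mul, ← mul_assoc, hc q hq, mul_inv_cancel_right]
  have hf : ∀ g : H, (∀ q ∈ Q, g * q = q * g) → ∀ z : Fix X Q, ∀ q ∈ Q,
      (((q : G), q) : G × H) • ((1, g) : G × H) • z.1 = ((1, g) : G × H) • z.1 := by
    intro g hg z q hq
    conv_rhs => rw [← z.2 q hq]
    rw [← mul_smul, ← mul_smul]
    simp [hg q hq]
  let τ : Fix X Q ≃ Fix X Q :=
    { toFun := fun z => ⟨((1, h) : G × H) • z.1, hf h hc z⟩
      invFun := fun z => ⟨((1, h⁻¹) : G × H) • z.1, hf h⁻¹ hc' z⟩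
      left_inv := fun z => Subtype.ext (by
        change ((1, h⁻¹) : G × H) • ((1, h) : G × H) • z.1 = z.1
        rw [← mul_smul]; simp [← Prod.one_eq_mk])
      right_inv := fun z => Subtype.ext (by
        change ((1, h) : G × H) • ((1, h⁻¹) : G × H) • z.1 = z.1
        rw [← mul_smul]; simp [← Prod.one_eq_mk]) }
  rw [Matrix.mul_apply, Matrix.mul_apply, ← Equiv.sum_comp τ]
  refine Finset.sum_congr rfl (fun z _ => ?_)
  rw [hM h x z x' (τ z) e1 rfl, hN h z y (τ z) y' rfl e2]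

lemma lk_add {k : Type} [CommRing k] {Q : Subgroup H}
    {M N : Matrix (Fix X Q) (Fix X Q) k} (hM : M ∈ LK k Q) (hN : N ∈ LK k Q) :
    M + N ∈ LK k Q := by
  intro h x y x' y' e1 e2
  rw [Matrix.add_apply, Matrix.add_apply, hM h x y x' y' e1 e2, hN h x y x' y' e1 e2]

lemma lk_sub {k : Type} [CommRing k] {Q : Subgroup H}
    {M N : Matrix (Fix X Q) (Fix X Q) k} (hM : M ∈ LK k Q) (hN : N ∈ LK k Q) :
    M - N ∈ LK k Q := by
  intro h x y x' y' e1 e2
  rw [Matrix.sub_apply, Matrix.sub_apply, hM h x y x' y' e1 e2, hN h x y x' y' e1 e2]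

/-- The kernel algebra is symmetric: `s a = ∑ a x x` over representatives `x` of the (free)
`H`-orbits, with the orbit indicators of pairs and their transposes as dual frames. -/
theorem Biset.exists_frame (hX : Biset H X κ) :
    ∃ (s : Kern R H X →ₗ[R] R) (n : ℕ) (β β' : Fin n → Kern R H X), IsFrame s ⊤ β β' := by
  classical
  let act : H → X → X := fun h x => ((1, h) : G × H) • x
  have h1 : ∀ x, act 1 x = x := fun x => one_smul (G × H) x
  have hm : ∀ a b x, act (a * b) x = act a (act b x) := fun a b x => by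
    change ((1, a * b) : G × H) • x = ((1, a) : G × H) • ((1, b) : G × H) • x
    rw [← mul_smul]; simp
  obtain ⟨rep, c, hc, hr, hcm, hc1⟩ := kern_exists_rep act h1 hm hX.right
  have hi : ∀ a x, act a⁻¹ (act a x) = x := fun a x => by rw [← hm, inv_mul_cancel, h1]
  have hi' : ∀ a x, act a (act a⁻¹ x) = x := fun a x => by rw [← hm, mul_inv_cancel, h1]
  have hrr : ∀ x, act (c x)⁻¹ x = rep x := fun x => by
    conv_lhs => rw [← hc x]
    rw [hcm, hc1 (rep x) ?_, mul_one, hi]
    conv_rhs => rw [← hc x, hr]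
  have hrep : ∀ x, rep (rep x) = rep x := fun x => by
    conv_rhs => rw [← hc x, hr]
  have hK : ∀ (a : Kern R H X) h x y, a.1 (act h x) (act h y) = a.1 x y :=
    fun a => (mem_Kern R H X).1 a.2
  let s : Kern R H X →ₗ[R] R :=
    { toFun := fun a => ∑ x, if rep x = x then a.1 x x else 0
      map_add' := fun a b => by
        rw [← Finset.sum_add_distrib]
        refine Finset.sum_congr rfl (fun x _ => ?_)
        split_ifs
        · rfl
        · simp
      map_smul' := fun r a => by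
        rw [RingHom.id_apply, Finset.smul_sum]
        refine Finset.sum_congr rfl (fun x _ => ?_)
        split_ifs
        · rfl
        · simp }
  have hs : ∀ a b : Kern R H X, s (a * b) =
      ∑ p ∈ Finset.univ.filter (fun p : X × X => rep p.1 = p.1), a.1 p.1 p.2 * b.1 p.2 p.1 := by
    intro a b
    change (∑ x, if rep x = x then (a.1 * b.1) x x else 0) = _
    rw [Finset.sum_filter, Fintype.sum_prod_type]
    refine Finset.sum_congr rfl (fun x _ => ?_)
    split_ifs
    · rw [Matrix.mul_apply]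
    · simp
  let b₀ : X × X → X → X → R := fun p x y =>
    if (rep x, act (c x)⁻¹ y) = p then 1 else 0
  have hb : ∀ p h x y, b₀ p (act h x) (act h y) = b₀ p x y := by
    intro p h x y
    change (if (rep (act h x), act (c (act h x))⁻¹ (act h y)) = p then (1 : R) else 0) = _
    rw [hr, hcm, mul_inv_rev, hm, hi]
  let β : X × X → Kern R H X := fun p =>
    ⟨fun x y => b₀ p x y, (mem_Kern R H X).2 (fun h x y => hb p h x y)⟩
  let β' : X × X → Kern R H X := fun p =>
    ⟨fun x y => b₀ p y x, (mem_Kern R H X).2 (fun h x y => hb p h y x)⟩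
  have hF : IsFrame s ⊤ β β' := by
    refine ⟨fun _ => trivial, fun _ => trivial, fun a _ b _ => ?_, fun a _ => ?_⟩
    · rw [hs, hs]
      have key : ∀ p : X × X, rep p.1 = p.1 →
          (rep (act (c p.2)⁻¹ p.1), act (c (act (c p.2)⁻¹ p.1))⁻¹ (rep p.2)) = p := by
        intro p hp
        rw [hr, hcm, hc1 _ hp, mul_one, inv_inv, hc, hp]
      refine Finset.sum_nbij' (fun p => (rep p.2, act (c p.2)⁻¹ p.1))
        (fun p => (rep p.2, act (c p.2)⁻¹ p.1)) (fun p _ => ?_) (fun p _ => ?_)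
        (fun p hp => key p ?_) (fun p hp => key p ?_) (fun p _ => ?_)
      · simp [hrep]
      · simp [hrep]
      · simpa using hp
      · simpa using hp
      · change _ = b.1 (rep p.2) (act (c p.2)⁻¹ p.1) * a.1 (act (c p.2)⁻¹ p.1) (rep p.2)
        rw [← hrr, hK, hK, mul_comm]
    · have h2 : ∀ p : X × X, s (a * β' p) = if rep p.1 = p.1 then a.1 p.1 p.2 else 0 := by
        intro p
        rw [hs, Finset.sum_filter, Finset.sum_eq_single p]
        · split_ifs with hp
          · change a.1 p.1 p.2 * (if (rep p.1, act (c p.1)⁻¹ p.2) = p then 1 else 0) = _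
            rw [hc1 _ hp, inv_one, h1, hp, if_pos rfl, mul_one]
          · rfl
        · intro p' _ hpp
          split_ifs with hp
          · change a.1 p'.1 p'.2 * (if (rep p'.1, act (c p'.1)⁻¹ p'.2) = p then 1 else 0) = _
            rw [hc1 _ hp, inv_one, h1, hp, if_neg hpp, mul_zero]
          · rfl
        · simp
      refine Subtype.ext (Matrix.ext (fun x y => ?_))
      rw [AddSubmonoidClass.coe_finsetSum, Matrix.sum_apply,
        Finset.sum_eq_single (rep x, act (c x)⁻¹ y)]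
      · rw [h2, if_pos (hrep x)]
        change a.1 (rep x) (act (c x)⁻¹ y) *
          (if (rep x, act (c x)⁻¹ y) = (rep x, act (c x)⁻¹ y) then 1 else 0) = _
        rw [if_pos rfl, mul_one, ← hrr, hK]
      · intro p _ hp
        change s (a * β' p) * (if (rep x, act (c x)⁻¹ y) = p then 1 else 0) = _
        rw [if_neg (Ne.symm hp), mul_zero]
      · simp
  let e := (Fintype.equivFin (X × X)).symm
  exact ⟨s, _, fun i => β (e i), fun i => β' (e i), fun _ => trivial, fun _ => trivial, hF.symm,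
    fun y hy => (Equiv.sum_comp e (fun p => s (y * β' p) • β p)).trans (hF.repro y hy)⟩

variable [IsLocalRing R]

lemma br_add (Q : Subgroup H) (M N : Matrix X X R) : br Q (M + N) = br Q M + br Q N := by
  ext x y
  exact map_add (residue R) _ _

lemma br_sub (Q : Subgroup H) (M N : Matrix X X R) : br Q (M - N) = br Q M - br Q N := by
  ext x y
  exact map_sub (residue R) _ _

lemma br_zero (Q : Subgroup H) : br Q (0 : Matrix X X R) = 0 := by
  ext x y
  exact map_zero (residue R)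

lemma br_one (Q : Subgroup H) : br Q (1 : Matrix X X R) = 1 := by
  ext x y
  change residue R ((1 : Matrix X X R) x.1 y.1) = _
  by_cases e : x = y
  · rw [e, Matrix.one_apply_eq, Matrix.one_apply_eq, map_one]
  · rw [Matrix.one_apply_ne e, Matrix.one_apply_ne (fun h => e (Subtype.ext h)), map_zero]

lemma br_smul (Q : Subgroup H) (r : R) (M : Matrix X X R) :
    br Q (r • M) = residue R r • br Q M := by
  ext x y
  exact map_mul (residue R) _ _

lemma br_sum (Q : Subgroup H) {ι : Type} (t : Finset ι) (M : ι → Matrix X X R) :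
    br Q (∑ i ∈ t, M i) = ∑ i ∈ t, br Q (M i) := by
  ext x y
  change residue R ((∑ i ∈ t, M i) x.1 y.1) = _
  rw [Matrix.sum_apply, Matrix.sum_apply, map_sum]
  rfl

lemma br_mem_lk (Q : Subgroup H) (a : Kern R H X) : br Q a.1 ∈ LK (ResidueField R) Q := by
  intro h x y x' y' e1 e2
  change residue R (a.1 x'.1 y'.1) = residue R (a.1 x.1 y.1)
  rw [e1, e2, (mem_Kern R H X).1 a.2]

/-- The Brauer map is multiplicative: orbits of non-fixed points have size divisible by `p`. -/
theorem br_mul {p : ℕ} (hp : p.Prime) (hpR : (p : R) ∈ maximalIdeal R) {Q : Subgroup H}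
    (hQ : IsPGroup p Q) {M N : Matrix X X R} (hM : DInv Q M) (hN : DInv Q N) :
    br Q (M * N) = br Q M * br Q N := by
  classical
  ext x y
  have hsplit : (M * N) x.1 y.1 = ∑ z : Fix X Q, M x.1 z.1 * N z.1 y.1 +
      ∑ z, if (∀ q ∈ Q, (((q : G), q) : G × H) • z = z) then 0 else M x.1 z * N z y.1 := by
    rw [← Finset.sum_subtype (Finset.univ.filter
      (fun z : X => ∀ q ∈ Q, (((q : G), q) : G × H) • z = z)) (by simp)
      (fun z => M x.1 z * N z y.1), Finset.sum_filter, ← Finset.sum_add_distrib, Matrix.mul_apply]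
    refine Finset.sum_congr rfl (fun z _ => ?_)
    split_ifs <;> simp
  have hmem : (∑ z, if (∀ q ∈ Q, (((q : G), q) : G × H) • z = z) then 0
      else M x.1 z * N z y.1) ∈ maximalIdeal R := by
    refine kern_sum_hom hp hQ ((H.subtype.prod (MonoidHom.id H)).comp Q.subtype) _ ?_ _ hpR ?_
    · intro g z
      change (if (∀ q ∈ Q, (((q : G), q) : G × H) • (((g.1 : G), g.1) : G × H) • z =
        (((g.1 : G), g.1) : G × H) • z) then 0 else M x.1 ((((g.1 : G), g.1) : G × H) • z) *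
          N ((((g.1 : G), g.1) : G × H) • z) y.1) = _
      by_cases hz : ∀ q ∈ Q, (((q : G), q) : G × H) • z = z
      · rw [hz g.1 g.2]
      · rw [if_neg hz, if_neg]
        · conv_lhs => rw [← x.2 g.1 g.2, ← y.2 g.1 g.2]
          rw [hM g.1 g.2, hN g.1 g.2]
        · intro h
          have h1 := h g.1⁻¹ (Q.inv_mem g.2)
          have e : ((((g.1⁻¹ : H) : G), g.1⁻¹) : G × H) = (((g.1 : G), g.1) : G × H)⁻¹ := rfl
          rw [e, inv_smul_smul] at h1
          rw [← h1] at h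
          exact hz h
    · intro z hz
      have hz' : ∀ q ∈ Q, (((q : G), q) : G × H) • z = z := fun q hq => hz ⟨q, hq⟩
      rw [if_pos hz']
      exact zero_mem _
  change residue R ((M * N) x.1 y.1) = _
  rw [hsplit, map_add, (residue_eq_zero_iff _).2 hmem, add_zero, map_sum, Matrix.mul_apply]
  exact Finset.sum_congr rfl (fun z _ => map_mul (residue R) _ _)

/-- Traces from the trivial group are killed (`Q` acts freely on `G` by left translation). -/
lemma br_trace {p : ℕ} (hp : p.Prime) (hpR : (p : R) ∈ maximalIdeal R) {Q : Subgroup H}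
    (hQ : IsPGroup p Q) (hQ0 : Q ≠ ⊥) (w : Kern R H X) :
    br Q (∑ g, piK R H X g * w * piK R H X g⁻¹).1 = 0 := by
  ext x y
  change residue R ((∑ g, piK R H X g * w * piK R H X g⁻¹).1 x.1 y.1) = 0
  rw [residue_eq_zero_iff, AddSubmonoidClass.coe_finsetSum, Matrix.sum_apply]
  have e : ∀ g : G, (piK R H X g * w * piK R H X g⁻¹).1 x.1 y.1 =
      w.1 (((g⁻¹, 1) : G × H) • x.1) (((g⁻¹, 1) : G × H) • y.1) := by
    intro g
    rw [mul_assoc]
    exact biRep_entry (g, g) w x.1 y.1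
  rw [Finset.sum_congr rfl (fun g _ => e g)]
  refine kern_sum_hom hp hQ (H.subtype.comp Q.subtype) _ ?_ _ hpR ?_
  · intro q g
    have h1 : ∀ z : Fix X Q, ((((q.1 : G) * g)⁻¹, 1) : G × H) • z.1 =
        ((1, q.1) : G × H) • ((g⁻¹, 1) : G × H) • z.1 := by
      intro z
      conv_lhs => rw [← z.2 q.1 q.2]
      rw [← mul_smul, ← mul_smul]
      simp
    change w.1 (((((q.1 : G) * g)⁻¹, 1) : G × H) • x.1)
      (((((q.1 : G) * g)⁻¹, 1) : G × H) • y.1) = _
    rw [h1 x, h1 y, (mem_Kern R H X).1 w.2]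
  · intro g hg
    exfalso
    refine hQ0 ((Subgroup.eq_bot_iff_forall Q).2 (fun q hq => ?_))
    have h1 : (q : G) * g = g := hg ⟨q, hq⟩
    exact Subtype.ext (mul_eq_right.1 h1)

/-- Only the coefficients on the centraliser matter. -/
lemma Biset.br_piA_congr (hX : Biset H X κ) (Q : Subgroup H) {b b' : MonoidAlgebra R G}
    (h : ∀ x, (∀ q ∈ imG Q, x * q = q * x) → b.coeff x - b'.coeff x ∈ maximalIdeal R) :
    br Q (piA R H X b).1 = br Q (piA R H X b').1 := by
  ext x y
  change residue R ((piA R H X b).1 x.1 y.1) = residue R ((piA R H X b').1 x.1 y.1)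
  rw [piA_apply, piA_apply, map_sum, map_sum]
  refine Finset.sum_congr rfl (fun g _ => ?_)
  split_ifs with e
  · rw [← sub_eq_zero, ← map_sub, residue_eq_zero_iff]
    exact h g (hX.cent_left e)
  · rfl

/-- Local kernels lift, with support in the `H`-saturation of the fixed pairs. -/
theorem exists_br_lift (Q : Subgroup H) {M : Matrix (Fix X Q) (Fix X Q) (ResidueField R)}
    (hM : M ∈ LK (ResidueField R) Q) :
    ∃ a : Kern R H X, br Q a.1 = M ∧ (∀ q ∈ Q, piK R H X q * a = a * piK R H X q) ∧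
      ∀ x y, a.1 x y ≠ 0 → ∃ (h : H) (x' y' : Fix X Q),
        x'.1 = ((1, h) : G × H) • x ∧ y'.1 = ((1, h) : G × H) • y := by
  classical
  let _ : MulAction H X := MulAction.compHom X (MonoidHom.inr G H)
  have hsm : ∀ (h : H) (x : X), h • x = ((1, h) : G × H) • x := fun _ _ => rfl
  let Z : X → Prop := fun x => ∀ q ∈ Q, (((q : G), q) : G × H) • x = x
  let M' : X → X → ResidueField R := fun x y =>
    if h : Z x ∧ Z y then M ⟨x, h.1⟩ ⟨y, h.2⟩ else 0
  have hM' : ∀ x y (hx : Z x) (hy : Z y), M' x y = M ⟨x, hx⟩ ⟨y, hy⟩ :=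
    fun x y hx hy => dif_pos ⟨hx, hy⟩
  obtain ⟨N, h1, h2, -, h4⟩ := exists_ext_zero (Γ := H) (residue R) residue_surjective Z M'
    (fun h x y hx hy hx' hy' => by
      rw [hM' _ _ hx hy, hM' _ _ hx' hy']
      exact hM h _ _ _ _ rfl rfl)
  have hq : ∀ q ∈ Q, ∀ x y, (∃ h : H, Z (h • x) ∧ Z (h • y)) →
      N ((((q : G), 1) : G × H) • x) ((((q : G), 1) : G × H) • y) = N x y := by
    rintro q hq x y ⟨h, hx, hy⟩
    have e : ∀ z, Z (h • z) → (((q : G), 1) : G × H) • z = (h⁻¹ * q⁻¹ * h) • z := by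
      intro z hz
      have e1 := hz q hq
      have e2 : (((q : G), 1) : G × H) = ((1, h⁻¹ * q⁻¹) : G × H) * (((q : G), q) * (1, h)) := by
        simp
      rw [e2, mul_smul, mul_smul, ← hsm h z, e1, ← hsm, ← mul_smul]
    rw [e x hx, e y hy, h1]
  refine ⟨⟨N, (mem_Kern R H X).2 h1⟩, ?_, fun q hqQ => kern_comm_iff.2 (fun x y => ?_),
    fun x y hxy => ?_⟩
  · ext x y
    exact (h2 x.1 y.1 x.2 y.2).trans (hM' _ _ x.2 y.2)
  · change N _ _ = N x y
    by_cases h : N x y = 0
    · by_contra h'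
      have h5 := hq q⁻¹ (Q.inv_mem hqQ) _ _ (h4 _ _ (by rwa [h] at h'))
      have e : ((((q⁻¹ : H) : G), 1) : G × H) = (((q : G), 1) : G × H)⁻¹ := by simp
      rw [e, inv_smul_smul, inv_smul_smul] at h5
      exact h' h5.symm
    · exact hq q hqQ x y (h4 x y h)
  · obtain ⟨h, hx, hy⟩ := h4 x y hxy
    exact ⟨h, ⟨_, hx⟩, ⟨_, hy⟩, rfl, rfl⟩

section null

variable {p : ℕ} {ε₀ ε₁ d σ : Kern R H X} {Q : Subgroup H}

lemma kern_br_comm (hp : p.Prime) (hpR : (p : R) ∈ maximalIdeal R) (hQ : IsPGroup p Q)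
    {a : Kern R H X} (ha : GInv a) {b : MonoidAlgebra R G} (hb : SuppCent (imG Q) b) :
    br Q (piA R H X b).1 * br Q a.1 = br Q a.1 * br Q (piA R H X b).1 := by
  rw [← br_mul hp hpR hQ (dInv_piA hb) (ha.dInv Q), ← br_mul hp hpR hQ (ha.dInv Q) (dInv_piA hb)]
  exact congrArg (fun z : Kern R H X => br Q z.1) (ha.piA_comm b)

lemma Null.add {b b' : MonoidAlgebra R G} (h : Null ε₀ ε₁ d Q b) (h' : Null ε₀ ε₁ d Q b') :
    Null ε₀ ε₁ d Q (b + b') := by
  obtain ⟨y, hy, e1, e2⟩ := h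
  obtain ⟨y', hy', e1', e2'⟩ := h'
  refine ⟨y + y', lk_add hy hy', ?_, ?_⟩
  · rw [mul_add, add_mul, ← e1, ← e1']
  · rw [map_add, Subalgebra.coe_add, br_add, add_mul, e2, e2', mul_add, add_mul]
    abel

lemma Null.mul_left (hp : p.Prime) (hpR : (p : R) ∈ maximalIdeal R) (hX : Biset H X κ)
    (hC : CxData ε₀ ε₁ d σ) (hQ : IsPGroup p Q) {b b' : MonoidAlgebra R G}
    (h : Null ε₀ ε₁ d Q b) (hb : SuppCent (imG Q) b) (hb' : SuppCent (imG Q) b') :
    Null ε₀ ε₁ d Q (b' * b) := by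
  obtain ⟨y, hy, e1, e2⟩ := h
  refine ⟨br Q (piA R H X b').1 * y, hX.lk_mul (br_mem_lk Q _) hy, ?_, ?_⟩
  · rw [← mul_assoc, ← kern_br_comm hp hpR hQ hC.inv₁ hb', mul_assoc, mul_assoc,
      ← mul_assoc _ y, ← e1]
  · rw [map_mul, Subalgebra.coe_mul, br_mul hp hpR hQ (dInv_piA hb') (dInv_piA hb), mul_assoc,
      e2, mul_add, ← mul_assoc, kern_br_comm hp hpR hQ hC.invd hb', mul_assoc, mul_assoc]

lemma Null.mul_right (hp : p.Prime) (hpR : (p : R) ∈ maximalIdeal R) (hX : Biset H X κ)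
    (hC : CxData ε₀ ε₁ d σ) (hQ : IsPGroup p Q) {b b' : MonoidAlgebra R G}
    (h : Null ε₀ ε₁ d Q b) (hb : SuppCent (imG Q) b) (hb' : SuppCent (imG Q) b') :
    Null ε₀ ε₁ d Q (b * b') := by
  obtain ⟨y, hy, e1, e2⟩ := h
  refine ⟨y * br Q (piA R H X b').1, hX.lk_mul hy (br_mem_lk Q _), ?_, ?_⟩
  · rw [mul_assoc, mul_assoc, kern_br_comm hp hpR hQ hC.inv₀ hb', ← mul_assoc, ← mul_assoc,
      ← e1]
  · rw [map_mul, Subalgebra.coe_mul, br_mul hp hpR hQ (dInv_piA hb) (dInv_piA hb'), mul_assoc,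
      mul_add (br Q (piA R H X b').1), kern_br_comm hp hpR hQ hC.inv₀ hb',
      kern_br_comm hp hpR hQ hC.inv₁ hb', ← add_mul, ← mul_assoc, e2, add_mul, mul_assoc,
      mul_assoc, mul_assoc, kern_br_comm hp hpR hQ hC.invd hb']

end null

end Pool.Agent.Lib.MP_b6945b_al.St
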