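import Pool.Agent.Lib.MP_b6945b_al.St.Tr

set_option autoImplicit false

/-!
Endomorphism algebras of permutation bimodules as algebras of invariant kernels.  A finite set
`X` with commuting actions of `G` (left) and `H` (right) is a `G × H`-set, `(g, h)` acting as
`x ↦ g x h⁻¹`.
-/

namespace Pool.Agent.Lib.MP_b6945b_al.St

open IsLocalRing
open MonoidAlgebra (single)

section

variable (R : Type) [CommRing R] {G : Type} [Group G] (H : Subgroup G) (X : Type) [Fintype X]
  [DecidableEq X] [MulAction (G × H) X]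

/-- The permutation matrix of a group element. -/
def pmat : G × H →* Matrix X X R where
  toFun γ := fun x y => if x = γ • y then 1 else 0
  map_one' := by ext x y; simp [Matrix.one_apply]
  map_mul' γ γ' := by
    ext x y
    simp [Matrix.mul_apply, mul_smul]

lemma pmat_apply (γ : G × H) (x y : X) : pmat R H X γ x y = if x = γ • y then 1 else 0 := rfl

lemma pmat_mul_apply (γ : G × H) (M : Matrix X X R) (x y : X) :
    (pmat R H X γ * M) x y = M (γ⁻¹ • x) y := by
  simp only [Matrix.mul_apply, pmat_apply, ← inv_smul_eq_iff, ite_mul, one_mul, zero_mul]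
  simp

lemma mul_pmat_apply (γ : G × H) (M : Matrix X X R) (x y : X) :
    (M * pmat R H X γ) x y = M x (γ • y) := by
  simp [Matrix.mul_apply, pmat_apply]

/-- Kernels invariant under `H`: the endomorphism algebra of `R X` as a right `R H`-module. -/
def Kern : Subalgebra R (Matrix X X R) :=
  Subalgebra.centralizer R (Set.range fun h : H => pmat R H X (1, h))

lemma mem_Kern {M : Matrix X X R} : M ∈ Kern R H X ↔
    ∀ (h : H) x y, M (((1, h) : G × H) • x) (((1, h) : G × H) • y) = M x y := by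
  simp only [Kern, Subalgebra.mem_centralizer_iff, Set.forall_mem_range]
  refine forall_congr' (fun h => ⟨fun e x y => ?_, fun e => ?_⟩)
  · have := congrFun (congrFun e (((1, h) : G × H) • x)) y
    rw [pmat_mul_apply, mul_pmat_apply, inv_smul_smul] at this
    exact this.symm
  · ext x y
    rw [pmat_mul_apply, mul_pmat_apply, ← e, smul_inv_smul]

/-- The left action of `G`. -/
def piK : G →* Kern R H X where
  toFun g := ⟨pmat R H X (g, 1), by
    rintro _ ⟨h, rfl⟩
    rw [← map_mul, ← map_mul]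
    simp⟩
  map_one' := Subtype.ext (map_one (pmat R H X))
  map_mul' g g' := Subtype.ext (by
    change pmat R H X (g * g', 1) = pmat R H X (g, 1) * pmat R H X (g', 1)
    rw [← map_mul]; simp)

lemma piK_val (g : G) : (piK R H X g : Matrix X X R) = pmat R H X (g, 1) := rfl

/-- The left action of the group algebra. -/
noncomputable def piA : MonoidAlgebra R G →ₐ[R] Kern R H X :=
  MonoidAlgebra.lift R _ G (piK R H X)

/-- Right multiplication by an element of the group algebra of `H`. -/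
noncomputable def rhoM [Fintype H] (a : MonoidAlgebra R H) : Matrix X X R :=
  ∑ h : H, a.coeff h • pmat R H X (1, h⁻¹)

/-- The bimodule structure of the kernel algebra as a representation of `G × G`. -/
noncomputable def biRep : Representation R (G × G) (Kern R H X) where
  toFun γ := LinearMap.mulLeft R (piK R H X γ.1) ∘ₗ LinearMap.mulRight R (piK R H X γ.2⁻¹)
  map_one' := by
    refine LinearMap.ext (fun a => ?_)
    simp
  map_mul' g h := by
    refine LinearMap.ext (fun a => ?_)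
    simp [mul_assoc]

lemma biRep_apply (γ : G × G) (a : Kern R H X) :
    biRep R H X γ a = piK R H X γ.1 * (a * piK R H X γ.2⁻¹) := rfl

/-- The regular bimodule as a representation of `G × G`. -/
noncomputable def gaRep (G : Type) [Group G] : Representation R (G × G) (MonoidAlgebra R G) where
  toFun γ := LinearMap.mulLeft R (single γ.1 1) ∘ₗ LinearMap.mulRight R (single γ.2⁻¹ 1)
  map_one' := by
    refine LinearMap.ext (fun a => ?_)
    simp [← MonoidAlgebra.one_def]
  map_mul' g h := by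
    refine LinearMap.ext (fun a => ?_)
    simp only [LinearMap.comp_apply, LinearMap.mulLeft_apply, LinearMap.mulRight_apply,
      Module.End.mul_apply, Prod.fst_mul, Prod.snd_mul, mul_inv_rev]
    rw [← mul_one (1 : R), ← MonoidAlgebra.single_mul_single, ← MonoidAlgebra.single_mul_single]
    simp only [mul_assoc, mul_one]

lemma gaRep_apply (γ : G × G) (a : MonoidAlgebra R G) :
    gaRep R G γ a = single γ.1 1 * (a * single γ.2⁻¹ 1) := rfl

variable {R H X}

/-- Kernels commuting with the left action: bimodule endomorphisms. -/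
def GInv (a : Kern R H X) : Prop := ∀ g, piK R H X g * a = a * piK R H X g

variable (H X) in
/-- Both actions are free, and `κ` is a map of bisets to `G`. -/
structure Biset (κ : X → G) : Prop where
  left : ∀ (g : G) (x : X), ((g, 1) : G × H) • x = x → g = 1
  right : ∀ (h : H) (x : X), ((1, h) : G × H) • x = x → h = 1
  map : ∀ (γ : G × H) (x : X), κ (γ • x) = γ.1 * κ x * ((γ.2 : G))⁻¹

variable (X) in
/-- Fixed points of the diagonal of `Q`. -/
abbrev Fix (Q : Subgroup H) : Type := {x : X // ∀ q ∈ Q, (((q : G), q) : G × H) • x = x}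

noncomputable instance (Q : Subgroup H) : Fintype (Fix X Q) := Fintype.ofFinite _

/-- Matrices invariant under the diagonal of `Q`. -/
def DInv (Q : Subgroup H) (M : Matrix X X R) : Prop :=
  ∀ q ∈ Q, ∀ x y, M ((((q : G), q) : G × H) • x) ((((q : G), q) : G × H) • y) = M x y

/-- Local kernels: invariant under the centraliser of `Q` in `H`. -/
def LK (k : Type) (Q : Subgroup H) : Set (Matrix (Fix X Q) (Fix X Q) k) :=
  {M | ∀ h : H, ∀ x y x' y' : Fix X Q, x'.1 = ((1, h) : G × H) • x.1 →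
    y'.1 = ((1, h) : G × H) • y.1 → M x' y' = M x y}

/-- The Brauer map. -/
noncomputable def br [IsLocalRing R] (Q : Subgroup H) (M : Matrix X X R) :
    Matrix (Fix X Q) (Fix X Q) (ResidueField R) := fun x y => residue R (M x.1 y.1)

/-- A two-term complex of bimodules `ε₁ R X → ε₀ R X` with a right linear section. -/
structure CxData (ε₀ ε₁ d σ : Kern R H X) : Prop where
  inv₀ : GInv ε₀
  inv₁ : GInv ε₁
  invd : GInv d
  e00 : ε₀ * ε₀ = ε₀
  e11 : ε₁ * ε₁ = ε₁
  e01 : ε₀ * ε₁ = 0
  e10 : ε₁ * ε₀ = 0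
  d0 : ε₀ * d = d
  d1 : d * ε₁ = d
  s0 : σ * ε₀ = σ
  s1 : ε₁ * σ = σ
  ds : d * σ = ε₀

variable [IsLocalRing R]

/-- The local complex has no first self-extension. -/
def LocSurj (ε₀ ε₁ d : Kern R H X) (Q : Subgroup H) : Prop :=
  ∀ z ∈ LK (ResidueField R) Q, ∃ a ∈ LK (ResidueField R) Q,
    a = br Q ε₀.1 * a * br Q ε₀.1 + br Q ε₁.1 * a * br Q ε₁.1 ∧
    a * br Q d.1 - br Q d.1 * a = br Q ε₀.1 * z * br Q ε₁.1

/-- `b` acts on the local complex by a null-homotopic map. -/
def Null (ε₀ ε₁ d : Kern R H X) (Q : Subgroup H) (b : MonoidAlgebra R G) : Prop :=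
  ∃ y ∈ LK (ResidueField R) Q, y = br Q ε₁.1 * y * br Q ε₀.1 ∧
    br Q (piA R H X b).1 * (br Q ε₀.1 + br Q ε₁.1) = br Q d.1 * y + y * br Q d.1

/-- The image of `Q` in `G`. -/
def imG (Q : Subgroup H) : Set G := {x | ∃ q ∈ Q, x = (q : G)}

/-- Local chain maps are homotopic to left multiplications. -/
def LocGen (ε₀ ε₁ d : Kern R H X) (Q : Subgroup H) : Prop :=
  ∀ a ∈ LK (ResidueField R) Q, a = br Q ε₀.1 * a * br Q ε₀.1 + br Q ε₁.1 * a * br Q ε₁.1 →
    a * br Q d.1 = br Q d.1 * a →
    ∃ b : MonoidAlgebra R G, SuppCent (imG Q) b ∧ ∃ y ∈ LK (ResidueField R) Q,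
      y = br Q ε₁.1 * y * br Q ε₀.1 ∧
      a = br Q (piA R H X b).1 * (br Q ε₀.1 + br Q ε₁.1) + br Q d.1 * y + y * br Q d.1

/-- The local algebras seen by inequivalent embeddings of `Q` are comaximal. -/
def LocOrth (ε₀ ε₁ d : Kern R H X) (Q Q' : Subgroup H) : Prop :=
  ∀ g : G, (∀ x : G, x ∈ imG Q' ↔ g * x * g⁻¹ ∈ imG Q) →
    (¬ ∃ (c : G) (h : H), (∀ x ∈ imG Q, c * x = x * c) ∧ g = c * h) →
    ∃ z : MonoidAlgebra R G, SuppCent (imG Q) z ∧ ∃ m : ℕ, Null ε₀ ε₁ d Q ((1 - z) ^ m) ∧
      Null ε₀ ε₁ d Q' (cjRep R G g⁻¹ (z ^ m))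

/-- The local hypotheses on a set of representatives of nontrivial `p`-subgroups. -/
structure LocHyp (p : ℕ) (ε₀ ε₁ d : Kern R H X) (𝒬 : Set (Subgroup H)) : Prop where
  cover : ∀ Q' : Subgroup H, IsPGroup p Q' → Q' ≠ ⊥ →
    ∃ Q ∈ 𝒬, ∃ h : H, ∀ x, x ∈ Q ↔ h * x * h⁻¹ ∈ Q'
  pgroup : ∀ Q ∈ 𝒬, IsPGroup p Q
  surj : ∀ Q ∈ 𝒬, LocSurj ε₀ ε₁ d Q
  gen : ∀ Q ∈ 𝒬, LocGen ε₀ ε₁ d Q
  orth : ∀ Q ∈ 𝒬, ∀ Q' ∈ 𝒬, LocOrth ε₀ ε₁ d Q Q'

end

end Pool.Agent.Lib.MP_b6945b_al.St
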