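import Pool.Agent.Lib.MP_b6945b_al.St.ModelDefs
import Pool.Agent.Lib.MP_b6945b_al.St.GT
import Pool.Agent.Lib.MP_b6945b_al.St.Source4

set_option autoImplicit false

/-!
The endomorphism algebra of the kernel of the differential is Morita equivalent to the block of
`H`.
-/

namespace Pool.Agent.Lib.MP_b6945b_al.St

open IsLocalRing
open MonoidAlgebra (single)

variable {K : Type} [Field K] (V : ValuationSubring K) {G : Type} [Group G] (H : Subgroup G)
  (X : Type) [Fintype X] [DecidableEq X] [MulAction (G × H) X]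

/-- Extension of scalars for kernels. -/
noncomputable def kerK : Kern V H X →+* Kern K H X where
  toFun a := ⟨a.1.map (algebraMap V K), (mem_Kern K H X).2 fun h x y => by
    simp only [Matrix.map_apply, (mem_Kern V H X).1 a.2 h x y]⟩
  map_one' := Subtype.ext (Matrix.map_one _ (map_zero _) (map_one _))
  map_mul' _ _ := Subtype.ext Matrix.map_mul
  map_zero' := Subtype.ext (Matrix.map_zero _ (map_zero _))
  map_add' _ _ := Subtype.ext (Matrix.map_add _ (map_add _) _ _)

/-- The order of integral kernels. -/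
noncomputable def KO : Subring (Kern K H X) := (kerK V H X).range

variable {V H X}

lemma kerK_apply (a : Kern V H X) (x y : X) : (kerK V H X a).1 x y = (a.1 x y : K) := rfl

lemma kerK_injective : Function.Injective (kerK V H X) := by
  intro a b h
  refine Subtype.ext (Matrix.ext fun x y => Subtype.ext ?_)
  rw [← kerK_apply, ← kerK_apply, h]

lemma mem_KO {a : Kern K H X} : a ∈ KO V H X ↔ ∀ x y, a.1 x y ∈ V := by
  constructor
  · rintro ⟨b, rfl⟩ x y
    rw [kerK_apply]
    exact (b.1 x y).2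
  · intro h
    refine ⟨⟨fun x y => ⟨a.1 x y, h x y⟩, (mem_Kern V H X).2 fun g x y => Subtype.ext ?_⟩, ?_⟩
    · exact (mem_Kern K H X).1 a.2 g x y
    · exact Subtype.ext (Matrix.ext fun x y => rfl)

lemma kerK_smul (v : V) (a : Kern V H X) : kerK V H X (v • a) = (v : K) • kerK V H X a := by
  exact Subtype.ext (Matrix.ext fun x y => rfl)

lemma kerK_piK (g : G) : kerK V H X (piK V H X g) = piK K H X g := by
  refine Subtype.ext (Matrix.ext fun x y => ?_)
  rw [kerK_apply, piK_val, piK_val, pmat_apply, pmat_apply]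
  split_ifs <;> rfl

lemma kerK_piA [Fintype G] (b : MonoidAlgebra V G) :
    kerK V H X (piA V H X b) = piA K H X (toK V G b) := by
  conv_lhs => rw [eq_sum_single b]
  conv_rhs => rw [eq_sum_single (toK V G b)]
  rw [map_sum, map_sum, map_sum]
  refine Finset.sum_congr rfl fun g _ => ?_
  rw [map_smul (piA V H X), map_smul (piA K H X), piA_single, piA_single, kerK_smul, kerK_piK,
    coeff_toK]

lemma idem_kerK {μ : Kern V H X} (h : μ * μ = μ) : IsIdempotentElem (kerK V H X μ) := by
  change kerK V H X μ * kerK V H X μ = kerK V H X μ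
  rw [← map_mul, h]

variable [Fintype G] [Fintype H] {κ : X → G}

section kernemb_aux

open Matrix

omit [Fintype G] [Fintype H] [Fintype X] in
variable (K H) in
/-- The chart of the orbit of `x`. -/
def kernembB (x : X) : Matrix X H K := fun y h => if y = ((1, h⁻¹) : G × H) • x then 1 else 0

omit [Fintype G] [Fintype H] [Fintype X] in
lemma kernemb_shift (x y : X) (h k : H) :
    kernembB K H x (((1, h) : G × H) • y) k = kernembB K H x y (k * h) := by
  have e : (((1, h) : G × H) • y = ((1, k⁻¹) : G × H) • x) ↔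
      y = ((1, (k * h)⁻¹) : G × H) • x := by
    rw [smul_eq_iff_eq_inv_smul, smul_smul]
    simp
  simp only [kernembB, e]

omit [Fintype G] [Fintype H] in
lemma kernemb_tmul (x : X) {Y : Type} (N : Matrix X Y K) (h : H) (y : Y) :
    ((kernembB K H x)ᵀ * N) h y = N (((1, h⁻¹) : G × H) • x) y := by
  simp [Matrix.mul_apply, kernembB]

omit [Fintype G] [Fintype H] in
lemma kernemb_mulB (x : X) {Y : Type} (N : Matrix Y X K) (h : H) (y : Y) :
    (N * kernembB K H x) y h = N y (((1, h⁻¹) : G × H) • x) := by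
  simp [Matrix.mul_apply, kernembB]

omit [Fintype G] [Fintype H] [Fintype X] [DecidableEq X] in
lemma kernemb_free (hX : Biset H X κ) (x : X) {h k : H}
    (e : ((1, h) : G × H) • x = ((1, k) : G × H) • x) : h = k := by
  have e1 : ((1, k⁻¹ * h) : G × H) • x = x := by
    have e2 : ((1, k⁻¹ * h) : G × H) = ((1, k) : G × H)⁻¹ * (1, h) := by simp
    rw [e2, mul_smul, e, inv_smul_smul]
  have e3 := hX.right _ _ e1
  rw [inv_mul_eq_one] at e3
  exact e3.symm

omit [Fintype G] [Fintype H] in
lemma kernemb_orth [DecidableEq H] (hX : Biset H X κ) (x : X) :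
    (kernembB K H x)ᵀ * kernembB K H x = 1 := by
  ext h k
  rw [kernemb_tmul, kernembB, Matrix.one_apply]
  by_cases e : h = k
  · rw [if_pos e, if_pos (by rw [e])]
  · rw [if_neg e, if_neg fun e' => e (inv_injective (kernemb_free hX x e'))]

omit [Fintype G] in
lemma kernemb_mem (x x' : X) (M : Matrix H H K) (hM : ∀ h k l, M (k * h) (l * h) = M k l) :
    kernembB K H x * M * (kernembB K H x')ᵀ ∈ Kern K H X := by
  refine (mem_Kern K H X).2 fun h y z => ?_
  simp only [Matrix.mul_apply, Matrix.transpose_apply, kernemb_shift]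
  rw [← Equiv.sum_comp (Equiv.mulRight h) fun l => (∑ k, kernembB K H x y k * M k l) *
    kernembB K H x' z l]
  refine Finset.sum_congr rfl fun l _ => ?_
  rw [Equiv.coe_mulRight, ← Equiv.sum_comp (Equiv.mulRight h) fun k =>
    kernembB K H x y k * M k (l * h)]
  simp only [Equiv.coe_mulRight, hM]

omit [Fintype G] [Fintype X] in
lemma kernemb_int (x x' : X) (M : Matrix H H K) (hM : ∀ k l, M k l ∈ V) (y z : X) :
    (kernembB K H x * M * (kernembB K H x')ᵀ) y z ∈ V := by
  have hB : ∀ (x y : X) (k : H), kernembB K H x y k ∈ V := by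
    intro x y k
    unfold kernembB
    split_ifs
    · exact V.one_mem
    · exact V.zero_mem
  simp only [Matrix.mul_apply, Matrix.transpose_apply]
  exact sum_mem fun l _ => V.mul_mem _ _
    (sum_mem fun k _ => V.mul_mem _ _ (hB _ _ _) (hM _ _)) (hB _ _ _)

omit [Fintype G] [Fintype H] in
/-- The regular representation. -/
def kernembL (a : MonoidAlgebra K H) : Matrix H H K := fun k l => a.coeff (k * l⁻¹)

omit [Fintype G] in
lemma kernembL_mul (a b : MonoidAlgebra K H) : kernembL (a * b) = kernembL a * kernembL b := by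
  ext k l
  rw [Matrix.mul_apply, kernembL, coeff_mul_fin,
    ← Equiv.sum_comp ((Equiv.inv H).trans (Equiv.mulLeft k))]
  refine Finset.sum_congr rfl fun m _ => ?_
  simp [kernembL, mul_assoc]

omit [Fintype G] [Fintype H] in
lemma kernembL_one [DecidableEq H] : kernembL (1 : MonoidAlgebra K H) = 1 := by
  ext k l
  rw [kernembL, MonoidAlgebra.one_def, MonoidAlgebra.coeff_single, Finsupp.single_apply,
    Matrix.one_apply]
  exact if_congr (by rw [eq_comm, mul_inv_eq_one]) rfl rfl

omit [Fintype G] in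
variable (K H) in
/-- The embedding of the group algebra. -/
noncomputable def kernembLam (x : X) : MonoidAlgebra K H →ₗ[K] Kern K H X where
  toFun a := ⟨kernembB K H x * kernembL a * (kernembB K H x)ᵀ,
    kernemb_mem x x _ fun h k l => by simp [kernembL, mul_assoc]⟩
  map_add' a b := Subtype.ext (by
    have e : kernembL (a + b) = kernembL a + kernembL b := by
      ext k l
      simp [kernembL]
    change _ * kernembL (a + b) * _ = _ * kernembL a * _ + _ * kernembL b * _
    rw [e, Matrix.mul_add, Matrix.add_mul])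
  map_smul' c a := Subtype.ext (by
    have e : kernembL (c • a) = c • kernembL a := by
      ext k l
      simp [kernembL]
    change _ * kernembL (c • a) * _ = c • (_ * kernembL a * _)
    rw [e, Matrix.mul_smul, Matrix.smul_mul])

omit [Fintype G] in
lemma kernembLam_val (x : X) (a : MonoidAlgebra K H) :
    (kernembLam K H x a).1 = kernembB K H x * kernembL a * (kernembB K H x)ᵀ := rfl

omit [Fintype G] in
lemma kernembLam_one (x : X) :
    (kernembLam K H x 1).1 = kernembB K H x * (kernembB K H x)ᵀ := by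
  classical
  rw [kernembLam_val, kernembL_one, Matrix.mul_one]

omit [Fintype G] in
lemma kernembLam_entry (hX : Biset H X κ) (x : X) (a : MonoidAlgebra K H) (h : H) :
    (kernembLam K H x a).1 (((1, h⁻¹) : G × H) • x) (((1, (1 : H)⁻¹) : G × H) • x) =
      a.coeff h := by
  classical
  have e : (kernembB K H x)ᵀ * (kernembLam K H x a).1 * kernembB K H x = kernembL a := by
    rw [kernembLam_val, ← Matrix.mul_assoc, ← Matrix.mul_assoc, kernemb_orth hX, Matrix.one_mul,
      Matrix.mul_assoc, kernemb_orth hX, Matrix.mul_one]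
  have e1 := congrFun (congrFun e h) 1
  rw [kernemb_mulB, kernemb_tmul, kernembL] at e1
  rw [e1, inv_one, mul_one]

omit [Fintype G] in
lemma kernemb_ind (hX : Biset H X κ) (x₀ x y : X) :
    ((∃ h : H, x = ((1, h) : G × H) • x₀) ∧ x = y → (kernembLam K H x₀ 1).1 x y = 1) ∧
      (¬ ((∃ h : H, x = ((1, h) : G × H) • x₀) ∧ x = y) → (kernembLam K H x₀ 1).1 x y = 0) := by
  classical
  rw [kernembLam_one]
  constructor
  · rintro ⟨⟨h, rfl⟩, rfl⟩
    rw [Matrix.mul_apply, Finset.sum_eq_single h⁻¹]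
    · simp [kernembB]
    · intro k _ hk
      have e : ¬ (((1, h) : G × H) • x₀ = ((1, k⁻¹) : G × H) • x₀) := fun e =>
        hk (by rw [kernemb_free hX x₀ e, inv_inv])
      simp [kernembB, e]
    · simp
  · intro hn
    rw [Matrix.mul_apply]
    refine Finset.sum_eq_zero fun k _ => ?_
    simp only [kernembB, Matrix.transpose_apply]
    split_ifs with h1 h2
    · exact absurd ⟨⟨_, h1⟩, h1.trans h2.symm⟩ hn
    · exact mul_zero _
    · exact zero_mul _
    · exact zero_mul _

omit [Fintype G] in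
lemma kernemb_full (hX : Biset H X κ) (x₀ : X) :
    InIdl (KO V H X) (kernembLam K H x₀ 1) 1 := by
  classical
  let s : Setoid X := ⟨fun x y => ∃ h : H, x = ((1, h) : G × H) • y,
    ⟨fun x => ⟨1, (one_smul (G × H) x).symm⟩,
      fun ⟨h, e⟩ => ⟨h⁻¹, by
        rw [e, smul_smul, Prod.mk_mul_mk, mul_one, inv_mul_cancel]
        exact (one_smul (G × H) _).symm⟩,
      fun ⟨h, e⟩ ⟨k, e'⟩ => ⟨h * k, by rw [e, e', smul_smul]; simp⟩⟩⟩
  have h1 : ∀ h k l : H, (1 : Matrix H H K) (k * h) (l * h) = (1 : Matrix H H K) k l := by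
    intro h k l
    simp [Matrix.one_apply]
  have h2 : ∀ k l : H, (1 : Matrix H H K) k l ∈ V := by
    intro k l
    rw [Matrix.one_apply]
    split_ifs
    · exact V.one_mem
    · exact V.zero_mem
  refine morita_inIdl (ι := Quotient s) (fun q => ⟨_, kernemb_mem q.out x₀ 1 h1⟩)
    (fun q => ⟨_, kernemb_mem x₀ q.out 1 h1⟩)
    (fun q => mem_KO.2 (kernemb_int _ _ _ h2)) (fun q => mem_KO.2 (kernemb_int _ _ _ h2)) ?_
  refine Subtype.ext ?_
  rw [AddSubmonoidClass.coe_finsetSum]
  have e : ∀ q : Quotient s, kernembB K H q.out * (1 : Matrix H H K) * (kernembB K H x₀)ᵀ *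
      (kernembLam K H x₀ 1).1 *
        (kernembB K H x₀ * (1 : Matrix H H K) * (kernembB K H q.out)ᵀ) =
      (kernembLam K H q.out 1).1 := by
    intro q
    rw [kernembLam_one, kernembLam_one, Matrix.mul_one, Matrix.mul_one]
    simp only [Matrix.mul_assoc]
    rw [← Matrix.mul_assoc (kernembB K H x₀)ᵀ (kernembB K H x₀) (kernembB K H q.out)ᵀ,
      kernemb_orth hX, Matrix.one_mul, ← Matrix.mul_assoc (kernembB K H x₀)ᵀ, kernemb_orth hX,
      Matrix.one_mul]
  refine Eq.trans ?_ (Finset.sum_congr rfl fun q _ => (e q).symm)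
  ext x y
  rw [Matrix.sum_apply, Finset.sum_eq_single (Quotient.mk s x)]
  · change (1 : Matrix X X K) x y = _
    rw [Matrix.one_apply]
    split_ifs with hxy
    · exact ((kernemb_ind hX _ x y).1 ⟨s.symm (Quotient.mk_out (s := s) x), hxy⟩).symm
    · exact ((kernemb_ind hX _ x y).2 fun h => hxy h.2).symm
  · intro q _ hq
    refine (kernemb_ind hX _ x y).2 fun h => hq ?_
    rw [← q.out_eq]
    exact (Quotient.sound (s := s) h.1).symm
  · simp

omit [Fintype G] in
lemma kernemb_central (x₀ : X) (z : MonoidAlgebra K H) (hz : ∀ b, z * b = b * z) :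
    kernembB K H x₀ * kernembL z = rhoM K H X z * kernembB K H x₀ := by
  have hc : ∀ g h : H, z.coeff (g * h * g⁻¹) = z.coeff h := by
    intro g h
    have e := congrArg (fun c : MonoidAlgebra K H => c.coeff (g * h)) (hz (single g 1))
    simpa [MonoidAlgebra.coeff_mul_single_apply, MonoidAlgebra.coeff_single_mul_apply] using e
  ext x l
  rw [rhoM, Matrix.sum_mul, Matrix.sum_apply, Matrix.mul_apply,
    ← Equiv.sum_comp (Equiv.mulLeft l)]
  refine Finset.sum_congr rfl fun h _ => ?_
  have e : (pmat K H X (1, h⁻¹) * kernembB K H x₀) x l = kernembB K H x₀ x (l * h) := by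
    rw [kernemb_mulB, pmat_apply, kernembB, smul_smul]
    simp
  rw [Matrix.smul_mul, Matrix.smul_apply, e, Equiv.coe_mulLeft, kernembL, hc, smul_eq_mul,
    mul_comm]

end kernemb_aux

omit [Fintype G] in
/-- The group algebra of `H` is the corner at the orbit of a point:
`lam a ((1, h₁⁻¹) • x₀) ((1, h₂⁻¹) • x₀) = a.coeff (h₁ * h₂⁻¹)`, zero off the orbit.  All orbits
are free, so the indicator of any orbit is `u * lam 1 * u'` for the kernels `u, u'` matching it
with the orbit of `x₀`; hence `1` lies in the ideal generated by `lam 1`. -/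
theorem Biset.exists_emb (hX : Biset H X κ) (x₀ : X) :
    ∃ lam : MonoidAlgebra K H →ₗ[K] Kern K H X, CornerEmb lam (GO V H) (KO V H X) ∧
      InIdl (KO V H X) (lam 1) 1 ∧
      (∀ x y, ((∃ h : H, x = ((1, h) : G × H) • x₀) ∧ x = y → (lam 1).1 x y = 1) ∧
        (¬ ((∃ h : H, x = ((1, h) : G × H) • x₀) ∧ x = y) → (lam 1).1 x y = 0)) ∧
      ∀ z, (∀ b, z * b = b * z) → (lam z).1 = rhoM K H X z * (lam 1).1 := by
  classical
  refine ⟨kernembLam K H x₀, ⟨fun a b => Subtype.ext ?_, ?_, fun y => ?_, fun a => ⟨fun ha => ?_,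
    fun ha => ?_⟩⟩, kernemb_full hX x₀, kernemb_ind hX x₀, fun z hz => ?_⟩
  · change _ = (kernembLam K H x₀ a).1 * (kernembLam K H x₀ b).1
    simp only [kernembLam_val, kernembL_mul, Matrix.mul_assoc]
    rw [← Matrix.mul_assoc (kernembB K H x₀).transpose, kernemb_orth hX, Matrix.one_mul]
  · intro a b h
    ext k
    rw [← kernembLam_entry hX x₀ a, ← kernembLam_entry hX x₀ b, h]
  · refine ⟨MonoidAlgebra.ofCoeff (Finsupp.equivFunOnFinite.symm
      fun h => y.1 (((1, h⁻¹) : G × H) • x₀) x₀), Subtype.ext ?_⟩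
    change _ = (kernembLam K H x₀ 1).1 * y.1 * (kernembLam K H x₀ 1).1
    have e : kernembL (MonoidAlgebra.ofCoeff (Finsupp.equivFunOnFinite.symm
        fun h : H => y.1 (((1, h⁻¹) : G × H) • x₀) x₀)) =
        (kernembB K H x₀).transpose * y.1 * kernembB K H x₀ := by
      ext k l
      rw [kernemb_mulB, kernemb_tmul, ← (mem_Kern K H X).1 y.2 l, smul_smul, smul_smul,
        Prod.mk_mul_mk, Prod.mk_mul_mk, mul_inv_cancel, mul_one, Prod.mk_one_one, one_smul]
      simp [kernembL]
    rw [kernembLam_val, e, kernembLam_one]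
    simp only [Matrix.mul_assoc]
  · exact mem_KO.2 (kernemb_int _ _ _ fun k l => ha _)
  · intro h
    rw [← kernembLam_entry hX x₀ a]
    exact mem_KO.1 ha _ _
  · rw [kernembLam_val, kernemb_central x₀ z hz, kernembLam_one, Matrix.mul_assoc]

variable {p : ℕ} {D : Subgroup H} {e : MonoidAlgebra V G} {f : MonoidAlgebra V H}
  {ε₀ ε₁ d σ : Kern V H X} {x₀ : X}

omit [Fintype G] in
lemma kernemb_rho (f : MonoidAlgebra V H) (x y : X) :
    ((rhoM V H X f x y : V) : K) = rhoM K H X (toK V H f) x y := by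
  simp only [rhoM, Matrix.sum_apply, Matrix.smul_apply, pmat_apply, coeff_toK, smul_eq_mul]
  rw [AddSubmonoidClass.coe_finsetSum]
  refine Finset.sum_congr rfl fun h _ => ?_
  split_ifs <;> simp

lemma kernemb_morita {A A' : Type} [Ring A] [Algebra K A] [Ring A'] [Algebra K A']
    {O : Subring A} {O' : Subring A'} {lam : A →ₗ[K] A'} (hc : CornerEmb lam O O') {j : A}
    (hj : IsIdempotentElem j) (hjO : j ∈ O) {μ : A'} (hμ : IsIdempotentElem μ) (hμO : μ ∈ O')
    (h10 : InIdl O' (lam j) μ) (h01 : InIdl O' μ (lam j)) (hG : Good V p (cornerO hj O hjO)) :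
    Good V p (cornerO hμ O' hμO) ∧
      Module.finrank K (Subalgebra.center K hμ.Corner) =
        Module.finrank K (Subalgebra.center K hj.Corner) := by
  have c0 := (cornerEmb_cval (K := K) hj O hjO).comp hc
  have c1 := cornerEmb_cval (K := K) hμ O' hμO
  exact ⟨morita_good c0 c1 h10 h01 hG, morita_finrank c0 c1 h10 h01⟩

/-- With `E = lam 1`, `F = rhoM f` and `μ = ε₁ - σ d`: `F μ = μ` and `F` is central, so
`μ = ∑ u i * (F E) * (u' i * μ)`.  Conversely `μ E = piA e F E` (`dead1`, `dead2` and invariance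
under `H`), and `E piK g⁻¹ piA e E = e.coeff g • E` by `free`; some coefficient of `e` is a unit
(`NilR.eq_zero`). -/
theorem ModelData.inIdl (hM : ModelData p D e f κ ε₀ ε₁ d σ x₀) (he : IsBlock e)
    (hf : IsBlock f) : ∃ lam : MonoidAlgebra K H →ₗ[K] Kern K H X,
      CornerEmb lam (GO V H) (KO V H X) ∧
      InIdl (KO V H X) (lam (toK V H f)) (kerK V H X (ε₁ - σ * d)) ∧
      InIdl (KO V H X) (kerK V H X (ε₁ - σ * d)) (lam (toK V H f)) := by
  classical
  obtain ⟨lam, hc, ⟨n, u, u', hu, hu', h1⟩, hE, hz⟩ := hM.biset.exists_emb (V := V) x₀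
  refine ⟨lam, hc, ?_⟩
  obtain ⟨FV, hFV⟩ : ∃ FV : Kern V H X, FV.1 = rhoM V H X f := ⟨⟨_, rhoM_mem hf.cent⟩, rfl⟩
  have hF : (kerK V H X FV).1 = rhoM K H X (toK V H f) := by
    ext x y
    rw [kerK_apply, hFV, kernemb_rho]
  have hcomm : ∀ a : Kern K H X, kerK V H X FV * a = a * kerK V H X FV := fun a =>
    Subtype.ext (by
      change (kerK V H X FV).1 * a.1 = a.1 * (kerK V H X FV).1
      rw [hF, rhoM_comm])
  have hlam : lam (toK V H f) = kerK V H X FV * lam 1 := Subtype.ext (by
    change _ = (kerK V H X FV).1 * (lam 1).1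
    rw [hF, hz _ (toK_central hf.cent)])
  have hF1 : FV * ε₁ = ε₁ := Subtype.ext (by
    change FV.1 * ε₁.1 = ε₁.1
    rw [hFV, hM.f1])
  have hFμ : FV * (ε₁ - σ * d) = ε₁ - σ * d := by
    have e : FV * σ = σ := by rw [← hM.cx.s1, ← mul_assoc, hF1]
    rw [mul_sub, hF1, ← mul_assoc, e]
  have hr : ∀ (a : Matrix X X K) x y, (a * (lam 1).1) x y =
      if ∃ h : H, y = ((1, h) : G × H) • x₀ then a x y else 0 := by
    intro a x y
    rw [Matrix.mul_apply, Finset.sum_eq_single y]
    · split_ifs with h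
      · rw [(hE y y).1 ⟨h, rfl⟩, mul_one]
      · rw [(hE y y).2 fun h' => h h'.1, mul_zero]
    · intro z _ hzy
      rw [(hE z y).2 fun h' => hzy h'.2, mul_zero]
    · simp
  have hl : ∀ (a : Matrix X X K) x y, ((lam 1).1 * a) x y =
      if ∃ h : H, x = ((1, h) : G × H) • x₀ then a x y else 0 := by
    intro a x y
    rw [Matrix.mul_apply, Finset.sum_eq_single x]
    · split_ifs with h
      · rw [(hE x x).1 ⟨h, rfl⟩, one_mul]
      · rw [(hE x x).2 fun h' => h h'.1, zero_mul]
    · intro z _ hzx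
      rw [(hE x z).2 fun h' => hzx h'.2.symm, zero_mul]
    · simp
  constructor
  · refine ⟨n, u, fun i => u' i * kerK V H X (ε₁ - σ * d), hu,
      fun i => (KO V H X).mul_mem (hu' i) ⟨_, rfl⟩, ?_⟩
    calc kerK V H X (ε₁ - σ * d) = kerK V H X FV * 1 * kerK V H X (ε₁ - σ * d) := by
          rw [mul_one, ← map_mul, hFμ]
      _ = _ := by
          rw [h1, Finset.mul_sum, Finset.sum_mul]
          refine Finset.sum_congr rfl fun i _ => ?_
          rw [hlam, ← mul_assoc, ← mul_assoc, hcomm (u i)]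
          simp only [mul_assoc]
  · have hcol : ∀ x, (ε₁ - σ * d).1 x x₀ = (piA V H X e * FV).1 x x₀ := by
      intro x
      change ε₁.1 x x₀ - (σ.1 * d.1) x x₀ = ((piA V H X e).1 * FV.1) x x₀
      rw [hFV, ← hM.dead1, Matrix.mul_apply]
      simp [hM.dead2]
    have hμE : kerK V H X (ε₁ - σ * d) * lam 1 = kerK V H X (piA V H X e * FV) * lam 1 := by
      refine Subtype.ext (Matrix.ext fun x y => ?_)
      change ((kerK V H X (ε₁ - σ * d)).1 * (lam 1).1) x y =
        ((kerK V H X (piA V H X e * FV)).1 * (lam 1).1) x y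
      rw [hr, hr]
      split_ifs with h
      · obtain ⟨h, rfl⟩ := h
        have e1 : x = ((1, h) : G × H) • (((1, h) : G × H)⁻¹ • x) := (smul_inv_smul _ _).symm
        rw [kerK_apply, kerK_apply, e1, (mem_Kern V H X).1 (ε₁ - σ * d).2,
          (mem_Kern V H X).1 (piA V H X e * FV).2, hcol]
      · rfl
    have hsand : ∀ b : MonoidAlgebra K G, lam 1 * piA K H X b * lam 1 = b.coeff 1 • lam 1 := by
      intro b
      refine Subtype.ext (Matrix.ext fun x y => ?_)
      change ((lam 1).1 * (piA K H X b).1 * (lam 1).1) x y = b.coeff 1 * (lam 1).1 x y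
      rw [hr, hl]
      split_ifs with h2 h3
      · obtain ⟨k, hk⟩ := h2
        obtain ⟨l, hl'⟩ := h3
        rw [piA_apply, Finset.sum_eq_single 1]
        · by_cases hxy : x = y
          · rw [(hE x y).1 ⟨⟨l, hl'⟩, hxy⟩, mul_one, if_pos]
            rw [hxy]
            exact (one_smul (G × H) y).symm
          · rw [(hE x y).2 fun h' => hxy h'.2, mul_zero, if_neg]
            intro h'
            exact hxy (h'.trans (one_smul (G × H) y))
        · intro g _ hg
          refine if_neg fun h' => hg ?_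
          have e1 : (((1, l) : G × H)⁻¹ * ((g, 1) * (1, k))) • x₀ = x₀ := by
            rw [mul_smul, mul_smul, ← hk, ← h', hl', inv_smul_smul]
          simpa using congrArg Prod.fst (hM.free _ e1)
        · simp
      · rw [(hE x y).2 fun h' => h3 h'.1, mul_zero]
      · rw [(hE x y).2 fun h' => h2 (h'.2 ▸ h'.1), mul_zero]
    obtain ⟨g, hg⟩ : ∃ g, IsUnit (e.coeff g) := by
      by_contra hn
      refine he.ne (NilR.eq_zero (R := V) ⟨1, ?_⟩ he.idem)
      rw [pow_one, inMax_monoidAlgebra_iff]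
      exact fun g => (mem_maximalIdeal _).2 fun h => hn ⟨g, h⟩
    obtain ⟨v, hv⟩ := hg.exists_left_inv
    obtain ⟨E, hEV⟩ := hc.corner_one_mem
    have hEV' : kerK V H X E = lam 1 := hEV
    refine ⟨1, fun _ => kerK V H X (v • (E * piK V H X g⁻¹)), fun _ => lam 1,
      fun _ => ⟨_, rfl⟩, fun _ => hc.corner_one_mem, ?_⟩
    have e2 := hsand (toK V G (single g⁻¹ 1 * e))
    rw [coeff_toK, MonoidAlgebra.coeff_single_mul_apply, one_mul, inv_inv, mul_one,
      ← kerK_piA, map_mul, piA_single, map_mul] at e2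
    have e3 : (v : K) * (e.coeff g : K) = 1 := congrArg Subtype.val hv
    rw [Fin.sum_univ_one, mul_assoc, hμE, kerK_smul, map_mul, map_mul, hEV', smul_mul_assoc,
      mul_assoc _ (kerK V H X FV), hcomm, ← mul_assoc, ← mul_assoc,
      mul_assoc (lam 1) (kerK V H X (piK V H X g⁻¹)), e2, smul_mul_assoc, smul_smul, e3, one_smul,
      hlam, hcomm]

/-- `morita_good`, `morita_finrank` for `lam ∘ cval` and `cval`. -/
theorem ModelData.morita (hM : ModelData p D e f κ ε₀ ε₁ d σ x₀) (he : IsBlock e)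
    (hf : IsBlock f) (hμ : IsIdempotentElem (kerK V H X (ε₁ - σ * d)))
    (hG : Good V p (cornerO (idem_toK hf.idem) (GO V H) (toK_mem f))) :
    Good V p (cornerO hμ (KO V H X) ⟨_, rfl⟩) ∧
      Module.finrank K (Subalgebra.center K hμ.Corner) =
        Module.finrank K (Subalgebra.center K (idem_toK hf.idem).Corner) := by
  obtain ⟨lam, hc, h10, h01⟩ := hM.inIdl he hf
  exact kernemb_morita hc _ _ hμ _ h10 h01 hG

end Pool.Agent.Lib.MP_b6945b_al.St
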