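import Pool.Agent.Lib.MP_b6945b_al.St.Tr
import Pool.Agent.Lib.MP_b6945b_al.St.Idem

set_option autoImplicit false

/-!
Restriction of coefficients, inclusion of group algebras, the Brauer homomorphism, and the data
attached to a block idempotent.
-/

namespace Pool.Agent.Lib.MP_b6945b_al.St

open IsLocalRing
open MonoidAlgebra (single)

section

variable {R A G : Type} [CommRing R]

variable (R) in
/-- Pull back the coefficients along a map. -/
noncomputable def pull [Fintype A] (φ : A → G) : MonoidAlgebra R G →ₗ[R] MonoidAlgebra R A where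
  toFun b := MonoidAlgebra.ofCoeff (Finsupp.equivFunOnFinite.symm fun a => b.coeff (φ a))
  map_add' b b' := by ext a; simp
  map_smul' r b := by ext a; simp

lemma coeff_pull [Fintype A] (φ : A → G) (b : MonoidAlgebra R G) (a : A) :
    (pull R φ b).coeff a = b.coeff (φ a) := by
  simp [pull]

variable [Group A] [Group G]

variable (R) in
/-- The map of group algebras induced by a group homomorphism. -/
noncomputable def inc (φ : A →* G) : MonoidAlgebra R A →ₐ[R] MonoidAlgebra R G :=
  MonoidAlgebra.mapDomainAlgHom R R φ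

lemma inc_single (φ : A →* G) (a : A) (r : R) : inc R φ (single a r) = single (φ a) r := by
  simp [inc]

lemma trunc_coeff_inc (φ : A →* G) (x : MonoidAlgebra R A) :
    (inc R φ x).coeff = Finsupp.mapDomain φ x.coeff := rfl

lemma coeff_inc {φ : A →* G} (hφ : Function.Injective φ) (x : MonoidAlgebra R A) (a : A) :
    (inc R φ x).coeff (φ a) = x.coeff a := by
  rw [trunc_coeff_inc, Finsupp.mapDomain_apply hφ]

lemma coeff_inc_of_notMem (φ : A →* G) (x : MonoidAlgebra R A) {g : G} (hg : g ∉ φ.range) :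
    (inc R φ x).coeff g = 0 := by
  rw [trunc_coeff_inc]
  exact Finsupp.mapDomain_of_notMem_range _ _ hg

variable [Fintype A] [Fintype G]

omit [Fintype G] in
lemma pull_inc {φ : A →* G} (hφ : Function.Injective φ) (x : MonoidAlgebra R A) :
    pull R φ (inc R φ x) = x := by
  ext a
  rw [coeff_pull, coeff_inc hφ]

omit [Fintype G] in
lemma inc_pull {φ : A →* G} (hφ : Function.Injective φ) {b : MonoidAlgebra R G}
    (hb : ∀ g, b.coeff g ≠ 0 → g ∈ φ.range) : inc R φ (pull R φ b) = b := by
  ext g
  by_cases hg : g ∈ φ.range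
  · obtain ⟨a, rfl⟩ := hg
    rw [coeff_inc hφ, coeff_pull]
  · rw [coeff_inc_of_notMem φ _ hg]
    by_contra e
    exact hg (hb g (Ne.symm e))

/-- A sum over the group of a function supported in the image. -/
lemma trunc_sum {M : Type} [AddCommMonoid M] {φ : A →* G} (hφ : Function.Injective φ) (f : G → M)
    (hf : ∀ g, g ∉ φ.range → f g = 0) : ∑ g, f g = ∑ a, f (φ a) :=
  (Fintype.sum_of_injective φ hφ _ _ hf fun _ => rfl).symm

lemma pull_mul_left {φ : A →* G} (hφ : Function.Injective φ) {b : MonoidAlgebra R G}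
    (hb : ∀ g, b.coeff g ≠ 0 → g ∈ φ.range) (b' : MonoidAlgebra R G) :
    pull R φ (b * b') = pull R φ b * pull R φ b' := by
  ext a
  rw [coeff_pull, coeff_mul_fin, coeff_mul_fin, trunc_sum hφ]
  · exact Finset.sum_congr rfl fun c _ => by rw [coeff_pull, coeff_pull, map_mul φ, map_inv φ]
  · intro g hg
    have : b.coeff g = 0 := by
      by_contra e
      exact hg (hb g e)
    rw [this, zero_mul]

lemma pull_mul_right {φ : A →* G} (hφ : Function.Injective φ) (b : MonoidAlgebra R G)
    {b' : MonoidAlgebra R G} (hb : ∀ g, b'.coeff g ≠ 0 → g ∈ φ.range) :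
    pull R φ (b * b') = pull R φ b * pull R φ b' := by
  ext a
  rw [coeff_pull, coeff_mul_fin, coeff_mul_fin, trunc_sum hφ]
  · exact Finset.sum_congr rfl fun c _ => by rw [coeff_pull, coeff_pull, map_mul φ, map_inv φ]
  · intro g hg
    have : b'.coeff (g⁻¹ * φ a) = 0 := by
      by_contra e
      have h1 := hb _ e
      rw [φ.range.mul_mem_cancel_right ⟨a, rfl⟩, inv_mem_iff] at h1
      exact hg h1
    rw [this, mul_zero]

omit [Fintype G] in
lemma pull_cjRep (φ : A →* G) (a : A) (b : MonoidAlgebra R G) :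
    pull R φ (cjRep R G (φ a) b) = cjRep R A a (pull R φ b) := by
  ext c
  rw [coeff_pull, coeff_cjRep, coeff_cjRep, coeff_pull, map_mul φ, map_mul φ, map_inv φ]

/-- The antipode reverses products. -/
lemma pull_inv_mul (b b' : MonoidAlgebra R G) :
    pull R (fun g : G => g⁻¹) (b * b') =
      pull R (fun g : G => g⁻¹) b' * pull R (fun g : G => g⁻¹) b := by
  ext x
  rw [coeff_pull, coeff_mul_fin, coeff_mul_fin, ← Equiv.sum_comp (Equiv.mulLeft x⁻¹)]
  refine Finset.sum_congr rfl fun y _ => ?_
  rw [coeff_pull, coeff_pull, mul_comm]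
  simp

lemma pull_inv_cjRep (g : G) (b : MonoidAlgebra R G) :
    pull R (fun g : G => g⁻¹) (cjRep R G g b) = cjRep R G g (pull R (fun g : G => g⁻¹) b) := by
  ext x
  rw [coeff_pull, coeff_cjRep, coeff_cjRep, coeff_pull]
  simp [mul_assoc]

/-- `rtr_comp_hom` and `rtr_map`. -/
lemma pull_rtr {φ : A →* G} (hφ : Function.Injective φ) {S : Subgroup G} (hS : S ≤ φ.range)
    {b : MonoidAlgebra R G} (hb : FixedBy (cjRep R G) S b) :
    pull R φ (rtr (cjRep R G) S φ.range b) =
      rtr (cjRep R A) (S.comap φ) ⊤ (pull R φ b) := by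
  rw [← rtr_comp_hom φ (S' := S.comap φ) (T' := ⊤) hS le_top (fun g _ => ⟨g, rfl⟩)
    (fun g _ => Iff.rfl) ?_ hb]
  · exact rtr_map (fun a _ m => pull_cjRep φ a m) b
  · rintro _ ⟨a, rfl⟩
    exact ⟨a, trivial, by rw [inv_mul_cancel]; exact S.one_mem⟩

omit [Fintype A] in
lemma fixedBy_top_iff {z : MonoidAlgebra R G} :
    FixedBy (cjRep R G) ⊤ z ↔ ∀ b, z * b = b * z := by
  have h1 : ∀ g : G, (single g⁻¹ 1 : MonoidAlgebra R G) * single g 1 = 1 := fun g => by
    rw [MonoidAlgebra.single_mul_single, inv_mul_cancel, mul_one, MonoidAlgebra.one_def]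
  constructor
  · intro h b
    have h2 : ∀ g : G, z * single g 1 = single g 1 * z := fun g => by
      conv_lhs => rw [← h g trivial, cjRep_apply, mul_assoc, mul_assoc, h1, mul_one]
    rw [eq_sum_single b, Finset.mul_sum, Finset.sum_mul]
    exact Finset.sum_congr rfl fun g _ => by rw [mul_smul_comm, smul_mul_assoc, h2]
  · intro h g _
    have h2 := h1 g⁻¹
    rw [inv_inv] at h2
    rw [cjRep_apply, h, ← mul_assoc, h2, one_mul]

omit [Fintype A] [Fintype G] in
lemma SuppCent.fixedBy {D : Subgroup G} {a : MonoidAlgebra R G} (h : SuppCent (D : Set G) a) :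
    FixedBy (cjRep R G) D a := by
  intro g hg
  ext x
  rw [coeff_cjRep]
  by_cases e : a.coeff x = 0
  · by_contra e'
    have h1 := h (g⁻¹ * x * g) (by rwa [e] at e') g hg
    have h2 : g⁻¹ * x * g = x := by
      have : g⁻¹ * x * g * g = x * g := by rw [h1]; group
      exact mul_right_cancel this
    exact e' (by rw [h2])
  · rw [mul_assoc, h x e g hg, inv_mul_cancel_left]

omit [Fintype A] [Fintype G] in
lemma SuppCent.cjRep {D : Subgroup G} [D.Normal] {a : MonoidAlgebra R G}
    (h : SuppCent (D : Set G) a) (g : G) : SuppCent (D : Set G) (cjRep R G g a) := by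
  intro x hx δ hδ
  rw [coeff_cjRep] at hx
  have h1 := h _ hx (g⁻¹ * δ * g) (Subgroup.Normal.conj_mem' inferInstance δ hδ g)
  calc x * δ = g * (g⁻¹ * x * g * (g⁻¹ * δ * g)) * g⁻¹ := by group
    _ = δ * x := by rw [h1]; group

omit [Fintype A] in
lemma SuppCent.rtr {D : Subgroup G} [D.Normal] {a : MonoidAlgebra R G}
    (h : SuppCent (D : Set G) a) (S T : Subgroup G) :
    SuppCent (D : Set G) (rtr (St.cjRep R G) S T a) := by
  exact rtr_mem (centAlg R (D : Set G)).toSubring.toAddSubgroup fun g _ => h.cjRep g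

omit [Fintype A] in
instance centAlg_finite (D : Set G) : Module.Finite R (centAlg R D) := by
  classical
  let π : MonoidAlgebra R G →ₗ[R] centAlg R D :=
    { toFun := fun b => ⟨MonoidAlgebra.ofCoeff (b.coeff.filter fun x => ∀ δ ∈ D, x * δ = δ * x),
        fun x hx => by
          by_contra e
          exact hx (Finsupp.filter_apply_neg _ _ e)⟩
      map_add' := fun b b' => Subtype.ext (by
        ext x
        simp [Finsupp.filter_add])
      map_smul' := fun r b => Subtype.ext (by
        ext x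
        simp [Finsupp.filter_smul]) }
  refine Module.Finite.of_surjective π fun a => ⟨a.1, Subtype.ext ?_⟩
  ext x
  change (a.1.coeff.filter fun x => ∀ δ ∈ D, x * δ = δ * x) x = a.1.coeff x
  rw [Finsupp.filter_apply]
  split_ifs with e
  · rfl
  · by_contra e'
    exact e (a.2 x (Ne.symm e'))

variable [IsLocalRing R]

/-- The Brauer homomorphism (`sum_mem_of_conj`-type orbit argument for the convolution). -/
theorem pull_mul_brauer {p : ℕ} (hp : p.Prime) (hpR : (p : R) ∈ maximalIdeal R) {P : Subgroup G}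
    (hP : IsPGroup p P) {φ : A →* G} (hφ : Function.Injective φ)
    (hr : ∀ g, g ∈ φ.range ↔ ∀ u ∈ P, g * u = u * g) {b b' : MonoidAlgebra R G}
    (hb : FixedBy (cjRep R G) P b) (hb' : FixedBy (cjRep R G) P b') :
    toRes R A (pull R φ (b * b')) = toRes R A (pull R φ b) * toRes R A (pull R φ b') := by
  classical
  have : Fact p.Prime := ⟨hp⟩
  rw [← map_mul]
  ext a
  rw [coeff_toRes, coeff_toRes, ← sub_eq_zero, ← map_sub, residue_eq_zero_iff, coeff_pull,
    coeff_mul_fin, coeff_mul_fin]
  let f : G → R := fun y => b.coeff y * b'.coeff (y⁻¹ * φ a)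
  have e1 : ∑ c, (pull R φ b).coeff c * (pull R φ b').coeff (c⁻¹ * a) =
      ∑ y, if y ∈ φ.range then f y else 0 := by
    rw [trunc_sum hφ _ fun g hg => if_neg hg]
    exact Finset.sum_congr rfl fun c _ => by
      rw [if_pos ⟨c, rfl⟩, coeff_pull, coeff_pull, map_mul φ, map_inv φ]
  have e2 : ∑ y, f y - ∑ y, (if y ∈ φ.range then f y else 0) =
      ∑ y, if y ∈ φ.range then 0 else f y := by
    rw [← Finset.sum_sub_distrib]
    exact Finset.sum_congr rfl fun y _ => by split_ifs <;> simp
  rw [e1, e2]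
  let _ : MulAction P G := MulAction.compHom G ((MulAut.conj : G →* MulAut G).comp P.subtype)
  have hs : ∀ (u : P) (y : G), u • y = (u : G) * y * (u : G)⁻¹ := fun _ _ => rfl
  refine tr_sum_mem_of_pgroup (Γ := P) hP _ ?_ (maximalIdeal R).toAddSubgroup ?_ ?_
  · intro u y
    have h1 : u • y ∈ φ.range ↔ y ∈ φ.range := by
      have key : ∀ (v : G), v ∈ P → ∀ z ∈ φ.range, v * z * v⁻¹ ∈ φ.range := fun v hv z hz => by
        rwa [← (hr z).1 hz v hv, mul_inv_cancel_right]
      refine ⟨fun h => ?_, key u u.2 y⟩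
      have h2 := key _ (P.inv_mem u.2) _ h
      rw [hs] at h2
      simpa [mul_assoc] using h2
    have h2 : f (u • y) = f y := by
      have h3 := congrArg (fun z => z.coeff ((u : G) * y * (u : G)⁻¹)) (hb u u.2)
      have h4 := congrArg (fun z => z.coeff (((u : G) * y * (u : G)⁻¹)⁻¹ * φ a)) (hb' u u.2)
      simp only [coeff_cjRep] at h3 h4
      have h5 := (hr (φ a)).1 ⟨a, rfl⟩ u u.2
      simp only [f, hs]
      rw [← h3, ← h4, mul_assoc _ (_ * φ a), mul_assoc _ (φ a), h5]
      congr 2 <;> group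
    rw [h2]
    simp only [h1]
  · intro y
    rw [nsmul_eq_mul]
    exact Ideal.mul_mem_right _ _ hpR
  · intro y hy
    rw [if_pos ((hr y).2 fun u hu => ?_)]
    · exact zero_mem _
    · have h1 := hy ⟨u, hu⟩
      rw [hs] at h1
      exact (mul_inv_eq_iff_eq_mul.1 h1).symm

omit [Fintype A] [Fintype G] in
lemma toRes_eq_zero_iff {z : MonoidAlgebra R G} : toRes R G z = 0 ↔ InMax R z := by
  rw [inMax_monoidAlgebra_iff]
  constructor
  · intro h x
    rw [← residue_eq_zero_iff, ← coeff_toRes, h]
    rfl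
  · intro h
    ext x
    rw [coeff_toRes, (residue_eq_zero_iff _).2 (h x)]
    rfl

omit [Fintype A] [Fintype G] in
lemma toRes_surjective : Function.Surjective (toRes R G) := by
  exact MonoidAlgebra.map_surjective (residue R).toAddMonoidHom residue_surjective

omit [Fintype A] in
lemma toRes_rtr (S T : Subgroup G) (b : MonoidAlgebra R G) :
    toRes R G (rtr (cjRep R G) S T b) = rtr (cjRep (ResidueField R) G) S T (toRes R G b) := by
  rw [tr_apply, tr_apply, map_sum]
  refine Finset.sum_congr rfl fun q _ => ?_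
  split_ifs
  · ext x
    rw [coeff_toRes, coeff_cjRep, coeff_cjRep, coeff_toRes]
  · exact map_zero _

lemma charP_of_mem {p : ℕ} (hp : p.Prime) (hpR : (p : R) ∈ maximalIdeal R) :
    CharP (ResidueField R) p := by
  refine (CharP.charP_iff_prime_eq_zero hp).2 ?_
  rw [← map_natCast (residue R), residue_eq_zero_iff]
  exact hpR

section nil

variable {B : Type} [Ring B] [Algebra R B]

lemma NilR.add {x y : B} (hx : NilR R x) (hy : NilR R y) (h : x * y = y * x) :
    NilR R (x + y) := by
  obtain ⟨n, hn⟩ := hx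
  obtain ⟨m, hm⟩ := hy
  refine ⟨n + m, ?_⟩
  rw [Commute.add_pow h]
  refine Submodule.sum_mem _ fun i _ => idem_inMax_mul_right _ ?_
  by_cases e : n ≤ i
  · obtain ⟨k, rfl⟩ := Nat.exists_eq_add_of_le e
    rw [pow_add]
    exact idem_inMax_mul_right _ (idem_inMax_mul_right _ hn)
  · rw [show n + m - i = (n - i) + m by omega, pow_add]
    exact idem_inMax_mul_left _ (idem_inMax_mul_left _ hm)

lemma NilR.mul_right {x y : B} (hx : NilR R x) (h : x * y = y * x) : NilR R (x * y) := by
  obtain ⟨n, hn⟩ := hx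
  refine ⟨n, ?_⟩
  rw [Commute.mul_pow h]
  exact idem_inMax_mul_right _ hn

lemma InMax.nilR {x : B} (hx : InMax R x) : NilR R x := by
  exact ⟨1, by rwa [pow_one]⟩

lemma inMax_smul {m : R} (hm : m ∈ maximalIdeal R) (x : B) : InMax R (m • x) := by
  exact Submodule.smul_mem_smul hm trivial

lemma NilR.map {B' : Type} [Ring B'] [Algebra R B'] (φ : B →ₐ[R] B') {x : B} (hx : NilR R x) :
    NilR R (φ x) := by
  obtain ⟨n, hn⟩ := hx
  refine ⟨n, ?_⟩
  rw [← map_pow]
  exact idem_inMax_map φ.toLinearMap hn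

/-- An idempotent that is nilpotent modulo the maximal ideal vanishes. -/
lemma NilR.eq_zero [Module.Finite R B] {x : B} (hx : NilR R x) (h : x * x = x) : x = 0 := by
  have h1 : (1 - x) * x = 0 := by rw [sub_mul, one_mul, h, sub_self]
  exact (hx.isUnit_one_sub.mul_right_eq_zero).1 h1

end nil

end

variable {R G : Type} [CommRing R] [IsLocalRing R] [Group G] [Fintype G]

/-- A central idempotent cutting out a local piece of the centre. -/
structure IsBlock (e : MonoidAlgebra R G) : Prop where
  idem : e * e = e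
  cent : ∀ b, e * b = b * e
  ne : e ≠ 0
  loc : ∀ z, (∀ b, z * b = b * z) → ∃ v : R, NilR R (z * e - v • e)

/-- A block whose defect groups are nontrivial and of order dividing `n`. -/
structure BlockE (p n : ℕ) (e : MonoidAlgebra R G) : Prop extends IsBlock e where
  bound : ∀ y, e.coeff y ∉ maximalIdeal R → ∀ S : Subgroup G, IsPGroup p S →
    (∀ s ∈ S, s * y = y * s) → Nat.card S ∣ n
  tr : ∀ b, NilR R (e * ∑ g : G, single g 1 * b * single g⁻¹ 1)

/-- A block which is a trace from the normal subgroup `D`. -/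
structure BlockF (D : Subgroup G) (f a : MonoidAlgebra R G) : Prop extends IsBlock f where
  supp : SuppCent (D : Set G) a
  tr : f = rtr (cjRep R G) D ⊤ a

end Pool.Agent.Lib.MP_b6945b_al.St
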