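import Pool.Agent.Lib.MP_b6945b_al.St.Kern
import Pool.Agent.Lib.MP_b6945b_al.St.Trunc

set_option autoImplicit false

/-!
The action of the normaliser of the diagonal of `Q` on the fixed points.
-/

namespace Pool.Agent.Lib.MP_b6945b_al.St

open IsLocalRing

variable {G : Type} [Group G] {H : Subgroup G}

/-- The centraliser of `Q` in `G`. -/
def CG (Q : Subgroup H) : Subgroup G := Subgroup.centralizer (imG Q)

/-- The centraliser of `Q` in `H`. -/
def CH (Q : Subgroup H) : Subgroup H := Subgroup.centralizer (Q : Set H)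

lemma mem_CG {Q : Subgroup H} {g : G} : g ∈ CG Q ↔ ∀ q ∈ Q, (q : G) * g = g * q := by
  simp only [CG, Subgroup.mem_centralizer_iff, imG, Set.mem_ofPred_eq]
  exact ⟨fun h q hq => h _ ⟨q, hq, rfl⟩, by rintro h _ ⟨q, hq, rfl⟩; exact h q hq⟩

lemma mem_CH {Q : Subgroup H} {h : H} : h ∈ CH Q ↔ ∀ q ∈ Q, q * h = h * q := Iff.rfl

/-- The normaliser of the diagonal of `Q`. -/
def NQ (Q : Subgroup H) : Subgroup (G × H) where
  carrier := {γ | (∀ q, q ∈ Q ↔ γ.2 * q * γ.2⁻¹ ∈ Q) ∧
    ∀ q ∈ Q, γ.1 * q * γ.1⁻¹ = ((γ.2 * q * γ.2⁻¹ : H) : G)}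
  one_mem' := ⟨fun q => by simp, fun q _ => by simp⟩
  mul_mem' := by
    rintro γ γ' ⟨h1, h2⟩ ⟨h3, h4⟩
    refine ⟨fun q => ?_, fun q hq => ?_⟩
    · rw [h3 q, h1]
      simp [mul_assoc]
    · have := h2 _ ((h3 q).1 hq)
      calc (γ * γ').1 * q * (γ * γ').1⁻¹ = γ.1 * (γ'.1 * q * γ'.1⁻¹) * γ.1⁻¹ := by
            simp [mul_assoc]
        _ = _ := by rw [h4 q hq, this]; simp [mul_assoc]
  inv_mem' := by
    rintro γ ⟨h1, h2⟩
    have h3 : ∀ q, q ∈ Q ↔ γ.2⁻¹ * q * γ.2 ∈ Q := fun q => by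
      rw [h1 (γ.2⁻¹ * q * γ.2)]
      simp [mul_assoc]
    refine ⟨fun q => by simpa using h3 q, fun q hq => ?_⟩
    have := h2 _ ((h3 q).1 hq)
    have e : ((γ.2 * (γ.2⁻¹ * q * γ.2) * γ.2⁻¹ : H) : G) = q := by simp [mul_assoc]
    rw [e] at this
    calc γ⁻¹.1 * q * γ⁻¹.1⁻¹ = γ.1⁻¹ * (γ.1 * ((γ.2⁻¹ * q * γ.2 : H) : G) * γ.1⁻¹) * γ.1 := by
          rw [this]; simp
      _ = _ := by simp [mul_assoc]

lemma mem_NQ {Q : Subgroup H} {γ : G × H} : γ ∈ NQ Q ↔ (∀ q, q ∈ Q ↔ γ.2 * q * γ.2⁻¹ ∈ Q) ∧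
    ∀ q ∈ Q, γ.1 * q * γ.1⁻¹ = ((γ.2 * q * γ.2⁻¹ : H) : G) := Iff.rfl

noncomputable instance [Finite G] (Q : Subgroup H) : Fintype (CG Q) := Fintype.ofFinite _

noncomputable instance [Finite G] (Q : Subgroup H) : Fintype (CH Q) := Fintype.ofFinite _

noncomputable instance [Finite G] (Q : Subgroup H) : Fintype (NQ Q) := Fintype.ofFinite _

/-- The inclusion of centralisers. -/
def iotaQ (Q : Subgroup H) : CH Q →* CG Q where
  toFun h := ⟨((h : H) : G), mem_CG.2 fun q hq => by exact_mod_cast h.2 q hq⟩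
  map_one' := rfl
  map_mul' _ _ := rfl

lemma iotaQ_val (Q : Subgroup H) (h : CH Q) : (iotaQ Q h : G) = ((h : H) : G) := rfl

/-- The left factor. -/
def inlN (Q : Subgroup H) : CG Q →* NQ Q where
  toFun c := ⟨((c : G), 1), fun q => by simp, fun q hq => by
    have := mem_CG.1 c.2 q hq
    simp [← this]⟩
  map_one' := rfl
  map_mul' _ _ := Subtype.ext (by simp)

/-- The right factor. -/
def inrN (Q : Subgroup H) : CH Q →* NQ Q where
  toFun h := ⟨(1, (h : H)), fun q => by
    constructor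
    · intro hq
      have := h.2 q hq
      simpa [← this] using hq
    · intro hq
      have := h.2 _ hq
      have e : q = (h : H) * q * (h : H)⁻¹ := by
        calc q = (h : H)⁻¹ * ((h : H) * q * (h : H)⁻¹ * h) := by simp [mul_assoc]
          _ = _ := by rw [this]; simp [mul_assoc]
      rw [e]; exact hq, fun q hq => by
    have := h.2 q hq
    simp only [one_mul, inv_one, mul_one]
    rw [← this]; simp⟩
  map_one' := rfl
  map_mul' _ _ := Subtype.ext (by simp)

lemma inlN_val (Q : Subgroup H) (c : CG Q) : (inlN Q c : G × H) = ((c : G), 1) := rfl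

lemma inrN_val (Q : Subgroup H) (h : CH Q) : (inrN Q h : G × H) = (1, (h : H)) := rfl

variable {X : Type} [MulAction (G × H) X]

instance (Q : Subgroup H) : MulAction (NQ Q) (Fix X Q) where
  smul γ x := ⟨(γ : G × H) • x.1, fun q hq => by
    obtain ⟨h1, h2⟩ := (NQ Q).inv_mem γ.2
    have h3 := x.2 _ ((h1 q).1 hq)
    rw [← h2 q hq] at h3
    conv_rhs => rw [← h3]
    rw [← mul_smul, ← mul_smul]
    congr 1
    ext <;> simp [mul_assoc]⟩
  one_smul x := Subtype.ext (one_smul (G × H) x.1)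
  mul_smul γ γ' x := Subtype.ext (mul_smul (γ : G × H) (γ' : G × H) x.1)

lemma NQ_smul_val {Q : Subgroup H} (γ : NQ Q) (x : Fix X Q) :
    (γ • x).1 = (γ : G × H) • x.1 := rfl

variable (k : Type) [CommRing k] (X)

/-- The permutation representation on the fixed points. -/
def nRep (Q : Subgroup H) : Representation k (NQ Q) (Fix X Q → k) := permRep k (NQ Q) (Fix X Q)

/-- The left action of the centraliser. -/
def lamQ (Q : Subgroup H) : Representation k (CG Q) (Fix X Q → k) := (nRep X k Q).comp (inlN Q)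

/-- The right action of the centraliser. -/
def rhoQ (Q : Subgroup H) : Representation k (CH Q) (Fix X Q → k) := (nRep X k Q).comp (inrN Q)

variable {X k} {R : Type} [CommRing R] [IsLocalRing R] [Fintype X] [DecidableEq X]

/-- The Brauer map with values in linear maps. -/
noncomputable def loc (Q : Subgroup H) (M : Matrix X X R) :
    Module.End (ResidueField R) (Fix X Q → ResidueField R) := Matrix.toLin' (br Q M)

variable (R) in
/-- The local image of an element of the group ring of `G`. -/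
noncomputable def locL [Finite G] (Q : Subgroup H) (b : MonoidAlgebra R G) :
    MonoidAlgebra (ResidueField R) (CG Q) := toRes R _ (pull R (CG Q).subtype b)

variable (R) in
/-- The local image, with antipode, of an element of the group ring of `H`. -/
noncomputable def locR [Finite G] (Q : Subgroup H) (a : MonoidAlgebra R H) :
    MonoidAlgebra (ResidueField R) (CH Q) :=
  toRes R _ (pull R (fun h : CH Q => (h : H)⁻¹) a)

end Pool.Agent.Lib.MP_b6945b_al.St
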