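import Pool.Agent.Lib.MP_b6945b_al.St.Tr

set_option autoImplicit false

/-!
The Jacobson radical of a group algebra over an algebraically closed field.
-/

namespace Pool.Agent.Lib.MP_b6945b_al.St

open MonoidAlgebra (single)

variable {k C U : Type} [Field k] [Group C] [Fintype C] [AddCommGroup U] [Module k U]

variable (k C) in
/-- The Jacobson radical of the group algebra. -/
noncomputable abbrev Jac : Ideal (MonoidAlgebra k C) := Ring.jacobson (MonoidAlgebra k C)

/-- The radical of a representation. -/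
def JU (lam : Representation k C U) : Submodule k U :=
  Submodule.span k {u | ∃ j ∈ Jac k C, ∃ u', u = lam.asAlgebraHom j u'}

lemma locJ_artinian : IsArtinianRing (MonoidAlgebra k C) :=
  IsArtinianRing.of_finite k (MonoidAlgebra k C)

lemma locJ_semisimple : IsSemisimpleRing (MonoidAlgebra k C ⧸ Jac k C) :=
  have : IsArtinianRing (MonoidAlgebra k C) := locJ_artinian
  inferInstance

/-- A nondegenerate functional represents every functional. -/
lemma locJ_repr {P : Type} [Ring P] [Algebra k P] [FiniteDimensional k P] (t : P →ₗ[k] k)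
    (ht : ∀ x, (∀ y, t (y * x) = 0) → x = 0) (f : P →ₗ[k] k) : ∃ x, ∀ y, t (y * x) = f y := by
  let Φ : P →ₗ[k] Module.Dual k P := (LinearMap.mul k P).flip.compr₂ t
  have hΦ : ∀ x y, Φ x y = t (y * x) := fun x y => rfl
  have hinj : Function.Injective Φ := by
    rw [← LinearMap.ker_eq_bot, LinearMap.ker_eq_bot']
    intro x hx
    exact ht x fun y => by rw [← hΦ, hx]; rfl
  have hsurj : Function.Surjective Φ :=
    (LinearMap.injective_iff_surjective_of_finrank_eq_finrank
      (Subspace.dual_finrank_eq (K := k) (V := P)).symm).mp hinj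
  obtain ⟨x, hx⟩ := hsurj f
  exact ⟨x, fun y => by rw [← hΦ, hx]⟩

variable (k C) in
/-- The coefficient of the unit. -/
noncomputable def locJ_c1 : MonoidAlgebra k C →ₗ[k] k where
  toFun b := b.coeff 1
  map_add' x y := by simp
  map_smul' a x := by simp

omit [Fintype C] in
lemma locJ_c1_comm (x y : MonoidAlgebra k C) : locJ_c1 k C (x * y) = locJ_c1 k C (y * x) := by
  induction x using MonoidAlgebra.induction_linear with
  | zero => simp
  | add a b ha hb => rw [add_mul, mul_add, map_add, map_add, ha, hb]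
  | single g r =>
    change (single g r * y).coeff 1 = (y * single g r).coeff 1
    rw [MonoidAlgebra.coeff_single_mul_apply, MonoidAlgebra.coeff_mul_single_apply, mul_one,
      one_mul, mul_comm]

omit [Fintype C] in
lemma locJ_c1_nondeg (x : MonoidAlgebra k C) (h : ∀ y, locJ_c1 k C (y * x) = 0) : x = 0 := by
  ext g
  have := h (single g⁻¹ 1)
  change (single g⁻¹ 1 * x).coeff 1 = 0 at this
  rw [MonoidAlgebra.coeff_single_mul_apply] at this
  simpa using this

omit [Fintype C] in
lemma locJ_equiv {U' : Type} [AddCommGroup U'] [Module k U']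
    {lam : Representation k C U} {lam' : Representation k C U'} {φ : U →ₗ[k] U'}
    (hφ : EquivOn lam lam' ⊤ φ) (b : MonoidAlgebra k C) (u : U) :
    φ (lam.asAlgebraHom b u) = lam'.asAlgebraHom b (φ u) := by
  induction b using MonoidAlgebra.induction_linear with
  | zero => simp
  | add a b ha hb => simp only [map_add, LinearMap.add_apply, ha, hb]
  | single g r =>
    rw [Representation.asAlgebraHom_single, Representation.asAlgebraHom_single,
      LinearMap.smul_apply, LinearMap.smul_apply, map_smul, hφ g trivial]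

/-- `IsSemiprimaryRing.isNilpotent` for the Artinian ring. -/
lemma jac_nilpotent : ∃ n : ℕ, Jac k C ^ n = ⊥ := by
  have : IsArtinianRing (MonoidAlgebra k C) := locJ_artinian
  obtain ⟨n, hn⟩ := IsSemiprimaryRing.isNilpotent (R := MonoidAlgebra k C)
  exact ⟨n, hn⟩

/-- A central nilpotent element generates a nilpotent ideal. -/
lemma single_sub_one_mem_jac {p : ℕ} [Fact p.Prime] [CharP k p] {q : C} (hq : ∀ c, q * c = c * q)
    {n : ℕ} (hn : q ^ p ^ n = 1) : single q 1 - 1 ∈ Jac k C := by
  have : CharP (MonoidAlgebra k C) p :=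
    charP_of_injective_algebraMap (algebraMap k (MonoidAlgebra k C)).injective p
  have hc : ∀ y : MonoidAlgebra k C, Commute (single q (1 : k) - 1) y := fun y =>
    (MonoidAlgebra.single_commute hq (fun r => Commute.one_left r) y).sub_left (Commute.one_left y)
  have hnil : IsNilpotent (single q (1 : k) - 1 : MonoidAlgebra k C) := by
    refine ⟨p ^ n, ?_⟩
    rw [sub_pow_char_pow_of_commute p n (Commute.one_right _), MonoidAlgebra.single_pow, hn,
      one_pow, one_pow, ← MonoidAlgebra.one_def, sub_self]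
  rw [Jac, ← Ideal.jacobson_bot, Ideal.mem_jacobson_iff]
  intro y
  have h2 : IsNilpotent (y * (single q (1 : k) - 1)) := (hc y).symm.isNilpotent_mul_left hnil
  obtain ⟨z, hz⟩ := h2.isUnit_add_one.exists_left_inv
  refine ⟨z, ?_⟩
  rw [mul_add, mul_one, ← mul_assoc] at hz
  rw [Ideal.mem_bot, sub_eq_zero, hz]

lemma domCongr_mem_jac (φ : C ≃* C) {b : MonoidAlgebra k C} (hb : b ∈ Jac k C) :
    MonoidAlgebra.domCongr k k φ b ∈ Jac k C := by
  let f : MonoidAlgebra k C →+* MonoidAlgebra k C :=
    (MonoidAlgebra.domCongr k k φ).toRingEquiv.toRingHom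
  have : RingHomSurjective f := ⟨(MonoidAlgebra.domCongr k k φ).surjective⟩
  exact Ring.le_comap_jacobson f hb

/-- The semisimple quotient is von Neumann regular
(`IsSemisimpleRing.ideal_eq_span_idempotent`). -/
lemma exists_reg_jac (b : MonoidAlgebra k C) : ∃ b', b * b' * b - b ∈ Jac k C := by
  have := locJ_semisimple (k := k) (C := C)
  obtain ⟨e, he, hspan⟩ := IsSemisimpleRing.ideal_eq_span_idempotent
    (Ideal.span {Ideal.Quotient.mk (Jac k C) b})
  have h1 : e ∈ Ideal.span {Ideal.Quotient.mk (Jac k C) b} := by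
    rw [hspan]; exact Ideal.mem_span_singleton_self e
  have h2 : Ideal.Quotient.mk (Jac k C) b ∈ Ideal.span {e} := by
    rw [← hspan]; exact Ideal.mem_span_singleton_self _
  obtain ⟨r, hr⟩ := Ideal.mem_span_singleton'.mp h1
  obtain ⟨s, hs⟩ := Ideal.mem_span_singleton'.mp h2
  obtain ⟨b', rfl⟩ := Ideal.Quotient.mk_surjective r
  refine ⟨b', ?_⟩
  rw [← Ideal.Quotient.eq_zero_iff_mem, map_sub, map_mul, map_mul, mul_assoc, hr, sub_eq_zero,
    ← hs, mul_assoc, he.eq]

/-- The socle is generated by a central element.  The quotient by the radical is a product of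
matrix algebras (`IsSemisimpleRing.exists_algEquiv_pi_matrix_of_isAlgClosed`); let `τ` be the sum
of the traces, a symmetric form with radical `J`, and let `σ` represent it:
`(σ * b).coeff 1 = τ b`.  If `J t = 0` the functional `b ↦ (b * t).coeff 1` kills `J`, so it is
`τ (· * b₀)`. -/
theorem exists_sigma [IsAlgClosed k] : ∃ σ : MonoidAlgebra k C, (∀ b, σ * b = b * σ) ∧
    (∀ b, σ * b = 0 ↔ b ∈ Jac k C) ∧
    ∀ t, (∀ j ∈ Jac k C, j * t = 0) → ∃ b, t = σ * b := by
  have := locJ_semisimple (k := k) (C := C)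
  obtain ⟨n, d, _, ⟨e⟩⟩ := IsSemisimpleRing.exists_algEquiv_pi_matrix_of_isAlgClosed k
    (MonoidAlgebra k C ⧸ Jac k C)
  let π : MonoidAlgebra k C →ₐ[k] Π i, Matrix (Fin (d i)) (Fin (d i)) k :=
    e.toAlgHom.comp (Ideal.Quotient.mkₐ k (Jac k C))
  have hπ : ∀ b, π b = e (Ideal.Quotient.mk (Jac k C) b) := fun b => rfl
  have hπ0 : ∀ b, π b = 0 ↔ b ∈ Jac k C := fun b => by
    rw [hπ, map_eq_zero_iff _ e.injective, Ideal.Quotient.eq_zero_iff_mem]
  have hπs : Function.Surjective π := e.surjective.comp Ideal.Quotient.mk_surjective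
  let tr : (Π i, Matrix (Fin (d i)) (Fin (d i)) k) →ₗ[k] k :=
    ∑ i, Matrix.traceLinearMap (Fin (d i)) k k ∘ₗ LinearMap.proj i
  have htr : ∀ x, tr x = ∑ i, (x i).trace := fun x => by simp [tr]
  have htrc : ∀ x y, tr (x * y) = tr (y * x) := fun x y => by
    rw [htr, htr]
    exact Finset.sum_congr rfl fun i _ => Matrix.trace_mul_comm _ _
  have htrn : ∀ x, (∀ y, tr (y * x) = 0) → x = 0 := by
    intro x hx
    funext i
    rw [Matrix.ext_iff_trace_mul_left]
    intro z
    have := hx (Pi.single i z)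
    rw [htr, Finset.sum_eq_single i] at this
    · simpa using this
    · intro j _ hj
      simp [Pi.single_eq_of_ne hj]
    · simp
  obtain ⟨σ, hσ⟩ := locJ_repr (locJ_c1 k C) locJ_c1_nondeg (tr ∘ₗ π.toLinearMap)
  have hσ' : ∀ y, locJ_c1 k C (y * σ) = tr (π y) := hσ
  have hcent : ∀ b, σ * b = b * σ := by
    intro b
    rw [← sub_eq_zero]
    apply locJ_c1_nondeg
    intro y
    rw [mul_sub, map_sub, ← mul_assoc, locJ_c1_comm, ← mul_assoc, ← mul_assoc, hσ', hσ',
      map_mul π, map_mul π, htrc, sub_self]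
  refine ⟨σ, hcent, fun b => ?_, fun t ht => ?_⟩
  · rw [hcent, ← hπ0]
    constructor
    · intro h
      apply htrn
      intro y
      obtain ⟨y', rfl⟩ := hπs y
      rw [← map_mul, ← hσ', mul_assoc, h, mul_zero, map_zero]
    · intro h
      apply locJ_c1_nondeg
      intro y
      rw [← mul_assoc, hσ', map_mul, h, mul_zero, map_zero]
  · obtain ⟨s, hs⟩ := π.toLinearMap.exists_rightInverse_of_surjective
      (LinearMap.range_eq_top.mpr hπs)
    have hs' : ∀ x, π (s x) = x := fun x => LinearMap.congr_fun hs x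
    obtain ⟨m, hm⟩ := locJ_repr tr htrn (locJ_c1 k C ∘ₗ LinearMap.mulRight k t ∘ₗ s)
    obtain ⟨b, rfl⟩ := hπs m
    refine ⟨b, ?_⟩
    rw [hcent, ← sub_eq_zero]
    apply locJ_c1_nondeg
    intro y
    have h1 : (y - s (π y)) * t = 0 := ht _ ((hπ0 _).mp (by rw [map_sub, hs', sub_self]))
    have h2 : y * t = s (π y) * t := by rwa [sub_mul, sub_eq_zero] at h1
    have h3 := hm (π y)
    rw [mul_sub, map_sub, ← mul_assoc, hσ', map_mul π, h3, h2, sub_eq_zero]
    rfl

omit [Fintype C] in
lemma mem_JU (lam : Representation k C U) {j : MonoidAlgebra k C} (hj : j ∈ Jac k C) (u : U) :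
    lam.asAlgebraHom j u ∈ JU lam := Submodule.subset_span ⟨j, hj, u, rfl⟩

omit [Fintype C] in
lemma map_JU {U' : Type} [AddCommGroup U'] [Module k U'] {lam : Representation k C U}
    {lam' : Representation k C U'} {φ : U →ₗ[k] U'} (hφ : EquivOn lam lam' ⊤ φ) {u : U}
    (hu : u ∈ JU lam) : φ u ∈ JU lam' := by
  induction hu using Submodule.span_induction with
  | mem x hx =>
    obtain ⟨j, hj, u', rfl⟩ := hx
    rw [locJ_equiv hφ]
    exact mem_JU lam' hj _
  | zero => simp
  | add x y _ _ hx hy => rw [map_add]; exact add_mem hx hy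
  | smul a x _ hx => rw [map_smul]; exact Submodule.smul_mem _ a hx

omit [Fintype C] in
lemma lam_mem_JU (lam : Representation k C U) (b : MonoidAlgebra k C) {u : U} (hu : u ∈ JU lam) :
    lam.asAlgebraHom b u ∈ JU lam := by
  induction hu using Submodule.span_induction with
  | mem x hx =>
    obtain ⟨j, hj, u', rfl⟩ := hx
    rw [← Module.End.mul_apply, ← map_mul]
    exact mem_JU lam (Ideal.mul_mem_left _ b hj) _
  | zero => simp
  | add x y _ _ hx hy => rw [map_add]; exact add_mem hx hy
  | smul a x _ hx => rw [map_smul]; exact Submodule.smul_mem _ a hx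

omit [Fintype C] in
lemma EquivOn.asAlgebraHom {U' : Type} [AddCommGroup U'] [Module k U']
    {lam : Representation k C U} {lam' : Representation k C U'} {φ : U →ₗ[k] U'}
    (hφ : EquivOn lam lam' ⊤ φ) (b : MonoidAlgebra k C) (u : U) :
    φ (lam.asAlgebraHom b u) = lam'.asAlgebraHom b (φ u) := by
  exact locJ_equiv hφ b u

/-- For a projective module the coordinates `Ψ u = ∑ c, single c 1 ⊗ ι (c⁻¹ u)` embed `U` in a
free module: for a functional `ξ` on `U` the map `u ↦ ∑ c, ξ (ι (c⁻¹ u)) • single c 1` is a module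
homomorphism to the group algebra, and `u = ∑ i, lam (that element for ξ i) (basis i)`. -/
lemma exists_coords [FiniteDimensional k U] (lam : Representation k C U)
    (h : ∃ ι : Module.End k U, ∀ u, ∑ c, lam c (ι (lam c⁻¹ u)) = u) :
    ∃ (n : ℕ) (ψ : Fin n → U →ₗ[k] MonoidAlgebra k C) (v : Fin n → U),
      (∀ i b u, ψ i (lam.asAlgebraHom b u) = b * ψ i u) ∧
      ∀ u, ∑ i, lam.asAlgebraHom (ψ i u) (v i) = u := by
  obtain ⟨ι, hι⟩ := h
  let v := Module.finBasis k U
  let ψ : Fin (Module.finrank k U) → U →ₗ[k] MonoidAlgebra k C := fun i =>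
    ∑ c, (v.coord i ∘ₗ ι ∘ₗ lam c⁻¹).smulRight (single c (1 : k))
  have hψ : ∀ i u, ψ i u = ∑ c, v.coord i (ι (lam c⁻¹ u)) • single c (1 : k) := fun i u => by
    simp [ψ]
  refine ⟨_, ψ, v, fun i b u => ?_, fun u => ?_⟩
  · induction b using MonoidAlgebra.induction_linear with
    | zero => simp
    | add a b ha hb => simp only [map_add, LinearMap.add_apply, ha, hb, add_mul]
    | single g r =>
      rw [Representation.asAlgebraHom_single, LinearMap.smul_apply, map_smul, hψ, hψ,
        Finset.mul_sum, Finset.smul_sum, ← Equiv.sum_comp (Equiv.mulLeft g)]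
      refine Finset.sum_congr rfl fun c _ => ?_
      have h1 : lam (g * c)⁻¹ (lam g u) = lam c⁻¹ u := by
        rw [← Module.End.mul_apply, ← map_mul, mul_inv_rev, inv_mul_cancel_right]
      change r • v.coord i (ι (lam (g * c)⁻¹ (lam g u))) • single (g * c) (1 : k) = _
      rw [h1, mul_smul_comm, MonoidAlgebra.single_mul_single, mul_one, smul_comm,
        MonoidAlgebra.smul_single r, smul_eq_mul, mul_one]
  · simp only [hψ, map_sum, map_smul, LinearMap.sum_apply, LinearMap.smul_apply,
      Representation.asAlgebraHom_single_one]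
    rw [Finset.sum_comm]
    refine Eq.trans (Finset.sum_congr rfl fun c _ => ?_) (hι u)
    conv_rhs => rw [← v.sum_repr (ι (lam c⁻¹ u))]
    simp only [map_sum, map_smul, Module.Basis.coord_apply]

/-- The socle of a projective module (`exists_coords`). -/
theorem exists_sigma_rep [IsAlgClosed k] [FiniteDimensional k U] (lam : Representation k C U)
    (h : ∃ ι : Module.End k U, ∀ u, ∑ c, lam c (ι (lam c⁻¹ u)) = u) :
    ∃ σ : MonoidAlgebra k C, (∀ u, lam.asAlgebraHom σ u = 0 ↔ u ∈ JU lam) ∧
      ∀ u, (∀ j ∈ Jac k C, lam.asAlgebraHom j u = 0) → ∃ u', u = lam.asAlgebraHom σ u' := by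
  obtain ⟨σ, -, h2, h3⟩ := exists_sigma (k := k) (C := C)
  obtain ⟨n, ψ, v, hψ, hv⟩ := exists_coords lam h
  refine ⟨σ, fun u => ⟨fun hu => ?_, fun hu => ?_⟩, fun u hu => ?_⟩
  · rw [← hv u]
    refine Submodule.sum_mem _ fun i _ => mem_JU lam ((h2 _).mp ?_) _
    rw [← hψ, hu, map_zero]
  · induction hu using Submodule.span_induction with
    | mem x hx =>
      obtain ⟨j, hj, u', rfl⟩ := hx
      rw [← Module.End.mul_apply, ← map_mul, (h2 j).mpr hj, map_zero, LinearMap.zero_apply]
    | zero => simp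
    | add x y _ _ hx hy => rw [map_add, hx, hy, add_zero]
    | smul a x _ hx => rw [map_smul, hx, smul_zero]
  · have : ∀ i, ∃ b, ψ i u = σ * b := fun i => h3 _ fun j hj => by
      rw [← hψ, hu j hj, map_zero]
    choose b hb using this
    refine ⟨∑ i, lam.asAlgebraHom (b i) (v i), ?_⟩
    rw [map_sum]
    refine (hv u).symm.trans (Finset.sum_congr rfl fun i _ => ?_)
    rw [hb, map_mul, Module.End.mul_apply]

/-- A linear map into the radical is a combination of radical elements times linear maps (lift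
through the surjection `(Fin r → U) → JU lam` given by a basis of the radical). -/
lemma exists_sum_of_range_le {U' : Type} [AddCommGroup U'] [Module k U']
    (lam : Representation k C U) (θ : U' →ₗ[k] U) (h : ∀ u, θ u ∈ JU lam) :
    ∃ (n : ℕ) (j : Fin n → MonoidAlgebra k C) (θ' : Fin n → U' →ₗ[k] U),
      (∀ i, j i ∈ Jac k C) ∧ θ = ∑ i, lam.asAlgebraHom (j i) ∘ₗ θ' i := by
  let J : Submodule k (MonoidAlgebra k C) := (Jac k C).restrictScalars k
  let w := Module.finBasis k J
  let Φ : (Fin (Module.finrank k J) → U) →ₗ[k] U :=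
    ∑ i, lam.asAlgebraHom (w i : MonoidAlgebra k C) ∘ₗ LinearMap.proj i
  have hΦ : ∀ x, Φ x = ∑ i, lam.asAlgebraHom (w i : MonoidAlgebra k C) (x i) := fun x => by
    simp [Φ]
  have hle : JU lam ≤ LinearMap.range Φ := by
    rw [JU, Submodule.span_le]
    rintro _ ⟨j, hj, u', rfl⟩
    refine ⟨fun i => w.repr ⟨j, hj⟩ i • u', ?_⟩
    have h1 := congrArg (fun x : J => (x : MonoidAlgebra k C)) (w.sum_repr ⟨j, hj⟩)
    simp only [Submodule.coe_sum, Submodule.coe_smul] at h1
    rw [hΦ]
    conv_rhs => rw [← h1]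
    simp only [map_sum, map_smul, LinearMap.sum_apply, LinearMap.smul_apply]
  obtain ⟨s, hs⟩ := Φ.rangeRestrict.exists_rightInverse_of_surjective
    (LinearMap.range_rangeRestrict Φ)
  let θ0 : U' →ₗ[k] (Fin (Module.finrank k J) → U) :=
    s ∘ₗ θ.codRestrict (LinearMap.range Φ) fun u => hle (h u)
  refine ⟨_, fun i => w i, fun i => LinearMap.proj i ∘ₗ θ0, fun i => (w i).2, ?_⟩
  ext u
  have h1 := congrArg Subtype.val (LinearMap.congr_fun hs ⟨θ u, hle (h u)⟩)
  have h2 : Φ (θ0 u) = θ u := h1
  rw [← h2, hΦ]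
  simp

/-- Modules killed by the radical are semisimple, so `S' / S` has a complement in `U / S`; lift
the projection onto it. -/
theorem exists_compl_mod (lam : Representation k C U) {S S' : Submodule k U} (hJ : JU lam ≤ S)
    (hSS' : S ≤ S') (hS : ∀ c, ∀ u ∈ S, lam c u ∈ S) (hS' : ∀ c, ∀ u ∈ S', lam c u ∈ S') :
    ∃ η : Module.End k U, (∀ u ∈ S', η u ∈ S) ∧ (∀ u, η u - u ∈ S') ∧
      ∀ c u, η (lam c u) - lam c (η u) ∈ S := by
  have := locJ_semisimple (k := k) (C := C)
  let : Module (MonoidAlgebra k C) U := Module.compHom U lam.asAlgebraHom.toRingHom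
  have hsm : ∀ (b : MonoidAlgebra k C) (u : U), b • u = lam.asAlgebraHom b u := fun b u => rfl
  have hst : ∀ (T : Submodule k U), (∀ c, ∀ u ∈ T, lam c u ∈ T) →
      ∀ (b : MonoidAlgebra k C), ∀ u ∈ T, lam.asAlgebraHom b u ∈ T := by
    intro T hT b u hu
    induction b using MonoidAlgebra.induction_linear with
    | zero => simp
    | add a b ha hb => rw [map_add, LinearMap.add_apply]; exact add_mem ha hb
    | single g r =>
      rw [Representation.asAlgebraHom_single, LinearMap.smul_apply]
      exact T.smul_mem r (hT g u hu)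
  let SA : Submodule (MonoidAlgebra k C) U :=
    { carrier := S
      add_mem' := S.add_mem
      zero_mem' := S.zero_mem
      smul_mem' := fun b u hu => hst S hS b u hu }
  let SA' : Submodule (MonoidAlgebra k C) U :=
    { carrier := S'
      add_mem' := S'.add_mem
      zero_mem' := S'.zero_mem
      smul_mem' := fun b u hu => hst S' hS' b u hu }
  have htor : Module.IsTorsionBySet (MonoidAlgebra k C) (U ⧸ SA) (Jac k C) := by
    rw [Module.isTorsionBySet_quotient_iff]
    intro u j hj
    exact hJ (mem_JU lam hj u)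
  have hss : IsSemisimpleModule (MonoidAlgebra k C) (U ⧸ SA) := by
    let := htor.module
    exact htor.isSemisimpleModule_iff.mp inferInstance
  obtain ⟨T, hT⟩ := exists_isCompl (SA'.map SA.mkQ)
  let TA : Submodule (MonoidAlgebra k C) U := T.comap SA.mkQ
  have hk : ∀ (a : k) (u : U), (single (1 : C) a : MonoidAlgebra k C) • u = a • u := by
    intro a u
    rw [hsm, Representation.asAlgebraHom_single, map_one]
    rfl
  let Tk : Submodule k U :=
    { carrier := TA
      add_mem' := TA.add_mem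
      zero_mem' := TA.zero_mem
      smul_mem' := fun a u hu => by
        have := TA.smul_mem (single (1 : C) a) hu
        rwa [hk] at this }
  have hinf : ∀ u, u ∈ S' → u ∈ Tk → u ∈ S := by
    intro u h1 h2
    have h3 : SA.mkQ u ∈ SA'.map SA.mkQ ⊓ T := ⟨⟨u, h1, rfl⟩, h2⟩
    rw [hT.inf_eq_bot, Submodule.mem_bot, Submodule.mkQ_apply,
      Submodule.Quotient.mk_eq_zero] at h3
    exact h3
  have hsup : S' ⊔ Tk = ⊤ := by
    rw [eq_top_iff]
    intro u _
    have h3 : SA.mkQ u ∈ SA'.map SA.mkQ ⊔ T := by rw [hT.sup_eq_top]; trivial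
    obtain ⟨_, ⟨a, ha, rfl⟩, z, hz, hsum⟩ := Submodule.mem_sup.mp h3
    refine Submodule.mem_sup.mpr ⟨a, ha, u - a, ?_, add_sub_cancel a u⟩
    change SA.mkQ (u - a) ∈ T
    rw [map_sub, ← hsum, add_sub_cancel_left]
    exact hz
  have hTk : ∀ c, ∀ u ∈ Tk, lam c u ∈ Tk := by
    intro c u hu
    have := TA.smul_mem (single c (1 : k)) hu
    rwa [hsm, Representation.asAlgebraHom_single_one] at this
  have hsurj : LinearMap.range (S'.mkQ ∘ₗ Tk.subtype) = ⊤ := by
    rw [LinearMap.range_comp, Submodule.range_subtype, Submodule.map_mkQ_eq_top, hsup]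
  obtain ⟨s, hs⟩ := (S'.mkQ ∘ₗ Tk.subtype).exists_rightInverse_of_surjective hsurj
  let η : Module.End k U := Tk.subtype ∘ₗ s ∘ₗ S'.mkQ
  have hη1 : ∀ u, η u ∈ Tk := fun u => (s (S'.mkQ u)).2
  have hη2 : ∀ u, η u - u ∈ S' := by
    intro u
    have h1 : S'.mkQ (η u) = S'.mkQ u := LinearMap.congr_fun hs (S'.mkQ u)
    exact (Submodule.Quotient.eq S').mp h1
  refine ⟨η, fun u hu => hinf _ ?_ (hη1 u), hη2, fun c u => hinf _ ?_ ?_⟩
  · have := S'.add_mem (hη2 u) hu
    rwa [sub_add_cancel] at this
  · have h1 := S'.sub_mem (hη2 (lam c u)) (hS' c _ (hη2 u))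
    rwa [map_sub, sub_sub_sub_cancel_right] at h1
  · exact Tk.sub_mem (hη1 _) (hTk c _ (hη1 u))

end Pool.Agent.Lib.MP_b6945b_al.St
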