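import Pool.Agent.Lib.MP_b6945b_al.St.HeartI
import Pool.Agent.Lib.MP_b6945b_al.St.Mackey
import Pool.Agent.Lib.MP_b6945b_al.St.LocJ

set_option autoImplicit false

/-!
The local two-term complex of bimodules.  `lam` is the left action of `C` and `rho h` is right
multiplication by `h⁻¹`.
-/

namespace Pool.Agent.Lib.MP_b6945b_al.St

open MonoidAlgebra (single)

variable {k C Γ U W : Type} [Field k] [Group C] [Fintype C] [Group Γ] [Fintype Γ]
  [AddCommGroup U] [Module k U] [AddCommGroup W] [Module k W]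

/-- The degree zero term is `e k C f`. -/
structure LocZero (ι : Γ →* C) (D : Subgroup Γ) (lam : Representation k C U)
    (rho : Representation k Γ U) (e : MonoidAlgebra k C) (f a : MonoidAlgebra k Γ)
    (i₀ : MonoidAlgebra k C →ₗ[k] U) (p₀ : U →ₗ[k] MonoidAlgebra k C) (ε₀ : Module.End k U) :
    Prop where
  i_left : ∀ c b, i₀ (single c 1 * b) = lam c (i₀ b)
  i_right : ∀ h b, i₀ (b * single (ι h)⁻¹ 1) = rho h (i₀ b)
  p_left : ∀ c u, p₀ (lam c u) = single c 1 * p₀ u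
  p_right : ∀ h u, p₀ (rho h u) = p₀ u * single (ι h)⁻¹ 1
  pi : ∀ b, p₀ (i₀ b) = b
  e_idem : e * e = e
  e_cent : ∀ b, e * b = b * e
  f_idem : f * f = f
  a_fix : FixedBy (cjRep k Γ) D a
  f_tr : f = rtr (cjRep k Γ) D ⊤ a
  eps : ∀ u, ε₀ u = lam.asAlgebraHom e (rho.asAlgebraHom f (i₀ (p₀ u)))

/-- The local structure. -/
structure LocStruct (p : ℕ) (ι : Γ →* C) (Q D : Subgroup Γ) (lam : Representation k C U)
    (rho : Representation k Γ U) (ε₀ ε₁ d : Module.End k U) : Prop where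
  ti : TIData ι Q D
  pQ : IsPGroup p Q
  idx : Q.relIndex D = p
  comm : ∀ c h u, lam c (rho h u) = rho h (lam c u)
  diag : ∀ q ∈ Q, ∀ u, lam (ι q) (rho q u) = u
  zero : ∃ e f a i₀ p₀, LocZero ι D lam rho e f a i₀ p₀ ε₀
  tt : TwoTerm ε₀ ε₁ d
  l0 : EquivOn lam lam ⊤ ε₀
  l1 : EquivOn lam lam ⊤ ε₁
  ld : EquivOn lam lam ⊤ d
  r0 : EquivOn rho rho ⊤ ε₀
  r1 : EquivOn rho rho ⊤ ε₁
  rd : EquivOn rho rho ⊤ d
  higL : ∃ ι' : Module.End k U, ∀ u, ∑ c, lam c (ι' (lam c⁻¹ u)) = u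
  higR : ∃ ι' : Module.End k U, ∀ u, ∑ h, rho h (ι' (rho h⁻¹ u)) = u
  higT : ∃ ι' : Module.End k U, EquivOn lam lam ⊤ ι' ∧ EquivOn rho rho Q ι' ∧
    rtr (rho.linHom rho) Q ⊤ ι' * ε₁ = ε₁
  cov1 : ∀ u, ∃ t, ε₀ u - d t ∈ (JU lam ⊔ augS rho D) ⊔ kapS rho D (p / 2) (JU lam)
  cov2 : ∀ t, d t ∈ (JU lam ⊔ augS rho D) ⊔ kapS rho D (p / 2) (JU lam) →
    ε₁ t ∈ JU lam ⊔ augS rho D

/-- The complex modulo the radical. -/
structure Bar (lam : Representation k C U) (rho : Representation k Γ U)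
    (ε₀ ε₁ d : Module.End k U) (π : U →ₗ[k] W) (ρ : Representation k Γ W)
    (η₀ η₁ δ : Module.End k W) : Prop where
  surj : Function.Surjective π
  ker : ∀ u, π u = 0 ↔ u ∈ JU lam
  equiv : EquivOn rho ρ ⊤ π
  h0 : ∀ u, π (ε₀ u) = η₀ (π u)
  h1 : ∀ u, π (ε₁ u) = η₁ (π u)
  hd : ∀ u, π (d u) = δ (π u)

/-- Chain endomorphisms commuting with the right action. -/
structure IsChain' (rho : Representation k Γ U) (ε₀ ε₁ d a : Module.End k U) : Prop where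
  equiv : EquivOn rho rho ⊤ a
  block : ε₀ * a * ε₀ + ε₁ * a * ε₁ = a
  comm : a * d = d * a

/-- Null-homotopic endomorphisms. -/
def IsNull (rho : Representation k Γ U) (ε₀ ε₁ d a : Module.End k U) : Prop :=
  ∃ y : Module.End k U, EquivOn rho rho ⊤ y ∧ ε₁ * y * ε₀ = y ∧ a = d * y + y * d

end Pool.Agent.Lib.MP_b6945b_al.St
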