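import Pool.Agent.Lib.MP_b6945b_al.St.LocAct
import Pool.Agent.Lib.MP_b6945b_al.St.LocDefs

set_option autoImplicit false

/-!
Dictionary between Brauer maps of kernels and the local representations.
-/

namespace Pool.Agent.Lib.MP_b6945b_al.St

open IsLocalRing
open MonoidAlgebra (single)

variable {R : Type} [CommRing R] [IsLocalRing R] {G : Type} [Group G] [Fintype G]
  {H : Subgroup G} {X : Type} [Fintype X] [DecidableEq X] [MulAction (G × H) X] {κ : X → G}
  {p : ℕ} {Q : Subgroup H}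

section basic

omit [Fintype G]

lemma loc_apply (M : Matrix X X R) (w : Fix X Q → ResidueField R) (x : Fix X Q) :
    loc Q M w x = ∑ y, residue R (M x.1 y.1) * w y := by
  rfl

lemma loc_add (M N : Matrix X X R) : loc Q (M + N) = loc Q M + loc Q N := by
  have e : br Q (M + N) = br Q M + br Q N := by
    ext x y
    exact map_add (residue R) _ _
  unfold loc
  rw [e, map_add]

lemma loc_sub (M N : Matrix X X R) : loc Q (M - N) = loc Q M - loc Q N := by
  have e : br Q (M - N) = br Q M - br Q N := by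
    ext x y
    exact map_sub (residue R) _ _
  unfold loc
  rw [e, map_sub]

lemma loc_zero : loc Q (0 : Matrix X X R) = 0 := by
  have e : br Q (0 : Matrix X X R) = 0 := by
    ext x y
    exact map_zero (residue R)
  unfold loc
  rw [e, map_zero]

lemma loc_one : loc Q (1 : Matrix X X R) = 1 := by
  have e : br Q (1 : Matrix X X R) = 1 := by
    ext x y
    change residue R ((1 : Matrix X X R) x.1 y.1) = _
    by_cases e : x = y
    · rw [e, Matrix.one_apply_eq, Matrix.one_apply_eq, map_one]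
    · rw [Matrix.one_apply_ne e, Matrix.one_apply_ne (fun h => e (Subtype.ext h)), map_zero]
  unfold loc
  rw [e, Matrix.toLin'_one]
  rfl

lemma loc_sum {ι : Type} (t : Finset ι) (M : ι → Matrix X X R) :
    loc Q (∑ i ∈ t, M i) = ∑ i ∈ t, loc Q (M i) := by
  classical
  induction t using Finset.induction_on with
  | empty => rw [Finset.sum_empty, Finset.sum_empty, loc_zero]
  | insert i t hi ih => rw [Finset.sum_insert hi, Finset.sum_insert hi, loc_add, ih]

lemma locact2_toLin_mul {k Y : Type} [CommRing k] [Fintype Y] [DecidableEq Y]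
    (M N : Matrix Y Y k) : Matrix.toLin' (M * N) = Matrix.toLin' M * Matrix.toLin' N :=
  Matrix.toLin'_mul M N

lemma locact2_alg {k C Y : Type} [CommRing k] [Group C] [Fintype C]
    (ρ : Representation k C (Y → k)) (z : MonoidAlgebra k C) (w : Y → k) (x : Y) :
    ρ.asAlgebraHom z w x = ∑ c, z.coeff c * ρ c w x := by
  conv_lhs => rw [eq_sum_single z]
  rw [map_sum, LinearMap.sum_apply, Finset.sum_apply]
  refine Finset.sum_congr rfl fun c _ => ?_
  rw [map_smul, Representation.asAlgebraHom_single, one_smul]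
  rfl

omit [Fintype X] [DecidableEq X] in
lemma locact2_nRep {k : Type} [CommRing k] (γ : NQ Q) (w : Fix X Q → k) (x : Fix X Q) :
    nRep X k Q γ w x = w (γ⁻¹ • x) := rfl

omit [Fintype X] [DecidableEq X] in
lemma locact2_lamQ {k : Type} [CommRing k] (c : CG Q) :
    lamQ X k Q c = nRep X k Q (inlN Q c) := rfl

omit [Fintype X] [DecidableEq X] in
lemma locact2_rhoQ {k : Type} [CommRing k] (h : CH Q) :
    rhoQ X k Q h = nRep X k Q (inrN Q h) := rfl

lemma locact2_toLin {k : Type} [CommRing k] (M : Matrix (Fix X Q) (Fix X Q) k)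
    (w : Fix X Q → k) (x : Fix X Q) : Matrix.toLin' M w x = ∑ y, M x y * w y := rfl

lemma locact2_comm_iff {k : Type} [CommRing k] (M : Matrix (Fix X Q) (Fix X Q) k) (γ : NQ Q) :
    (∀ w, Matrix.toLin' M (nRep X k Q γ w) = nRep X k Q γ (Matrix.toLin' M w)) ↔
      ∀ x y, M (γ • x) (γ • y) = M x y := by
  constructor
  · intro h x y
    have h1 := congrFun (h (Pi.single y 1)) (γ • x)
    rw [locact2_nRep, inv_smul_smul, locact2_toLin, locact2_toLin,
      Finset.sum_eq_single (γ • y), Finset.sum_eq_single y] at h1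
    · rwa [locact2_nRep, inv_smul_smul, Pi.single_eq_same, mul_one, mul_one] at h1
    · intro z _ hz
      rw [Pi.single_eq_of_ne hz, mul_zero]
    · intro hy
      exact absurd (Finset.mem_univ _) hy
    · intro z _ hz
      rw [locact2_nRep, Pi.single_eq_of_ne (fun e => hz (inv_smul_eq_iff.1 e)), mul_zero]
    · intro hy
      exact absurd (Finset.mem_univ _) hy
  · intro h w
    funext x
    rw [locact2_nRep, locact2_toLin, locact2_toLin, ← Equiv.sum_comp (MulAction.toPerm γ)]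
    refine Finset.sum_congr rfl fun y _ => ?_
    rw [MulAction.toPerm_apply, locact2_nRep, inv_smul_smul, ← h (γ⁻¹ • x) y, smul_inv_smul]

lemma locact2_sum_pt {k : Type} [CommRing k] (γ : NQ Q) (r : k) (w : Fix X Q → k) (x : Fix X Q) :
    ∑ y : Fix X Q, (if x.1 = (γ : G × H) • y.1 then r else 0) * w y = r * nRep X k Q γ w x := by
  rw [Finset.sum_eq_single (γ⁻¹ • x), locact2_nRep, if_pos]
  · rw [← NQ_smul_val, smul_inv_smul]
  · intro y _ hy
    rw [if_neg, zero_mul]
    intro e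
    exact hy (eq_inv_smul_iff.2 (Subtype.ext e.symm))
  · intro hy
    exact absurd (Finset.mem_univ _) hy

omit [IsLocalRing R] in
lemma locact2_rhoM_apply [Fintype H] (a : MonoidAlgebra R H) (x y : X) :
    rhoM R H X a x y = ∑ h : H, if x = ((1, h) : G × H) • y then a.coeff h⁻¹ else 0 := by
  unfold rhoM
  rw [Matrix.sum_apply, ← Equiv.sum_comp (Equiv.inv H)]
  refine Finset.sum_congr rfl fun h _ => ?_
  rw [Equiv.inv_apply, inv_inv, Matrix.smul_apply, pmat_apply, smul_eq_mul, mul_ite, mul_one,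
    mul_zero]

omit [IsLocalRing R] in
lemma locact2_rhoM_cj [Fintype H] (γ : G × H) (a : MonoidAlgebra R H) (x y : X) :
    rhoM R H X (cjRep R H γ.2 a) (γ • x) (γ • y) = rhoM R H X a x y := by
  rw [locact2_rhoM_apply, locact2_rhoM_apply, ← Equiv.sum_comp (MulAut.conj γ.2).toEquiv]
  refine Finset.sum_congr rfl fun h _ => ?_
  change (if γ • x = ((1, γ.2 * h * γ.2⁻¹) : G × H) • γ • y then
    (cjRep R H γ.2 a).coeff (γ.2 * h * γ.2⁻¹)⁻¹ else 0) = _
  have e : ((1, γ.2 * h * γ.2⁻¹) : G × H) • γ • y = γ • ((1, h) : G × H) • y := by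
    rw [← mul_smul, ← mul_smul]
    congr 1
    ext <;> simp
  refine if_congr (by rw [e, smul_left_cancel_iff]) ?_ rfl
  rw [coeff_cjRep]
  congr 1
  group

end basic

lemma loc_mul (hp : p.Prime) (hpR : (p : R) ∈ maximalIdeal R) (hQ : IsPGroup p Q)
    {M N : Matrix X X R} (hM : DInv Q M) (hN : DInv Q N) :
    loc Q (M * N) = loc Q M * loc Q N := by
  unfold loc
  rw [br_mul hp hpR hQ hM hN, locact2_toLin_mul]

lemma Biset.loc_piA (hX : Biset H X κ) (b : MonoidAlgebra R G) :
    loc Q (piA R H X b).1 = (lamQ X (ResidueField R) Q).asAlgebraHom (locL R Q b) := by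
  refine LinearMap.ext fun w => funext fun x => ?_
  rw [loc_apply, locact2_alg]
  have e : ∀ y : Fix X Q, residue R ((piA R H X b).1 x.1 y.1) * w y =
      ∑ g, (if x.1 = ((g, 1) : G × H) • y.1 then residue R (b.coeff g) else 0) * w y := by
    intro y
    rw [piA_apply, map_sum, Finset.sum_mul]
    refine Finset.sum_congr rfl fun g _ => ?_
    rw [apply_ite (residue R), map_zero]
  rw [Finset.sum_congr rfl fun y _ => e y, Finset.sum_comm,
    trunc_sum (φ := (CG Q).subtype) (CG Q).subtype_injective]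
  · refine Finset.sum_congr rfl fun c _ => ?_
    rw [locact2_lamQ, ← locact2_sum_pt]
    unfold locL
    rw [coeff_toRes, coeff_pull]
    rfl
  · intro g hg
    refine Finset.sum_eq_zero fun y _ => ?_
    rw [if_neg, zero_mul]
    intro e
    exact hg ⟨⟨g, fun q hq => (hX.cent_left e q hq).symm⟩, rfl⟩

lemma Biset.loc_rhoM [Fintype H] (hX : Biset H X κ) (a : MonoidAlgebra R H) :
    loc Q (rhoM R H X a) = (rhoQ X (ResidueField R) Q).asAlgebraHom (locR R Q a) := by
  refine LinearMap.ext fun w => funext fun x => ?_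
  rw [loc_apply, locact2_alg]
  have e : ∀ y : Fix X Q, residue R (rhoM R H X a x.1 y.1) * w y =
      ∑ h : H, (if x.1 = ((1, h) : G × H) • y.1 then residue R (a.coeff h⁻¹) else 0) * w y := by
    intro y
    rw [locact2_rhoM_apply, map_sum, Finset.sum_mul]
    refine Finset.sum_congr rfl fun g _ => ?_
    rw [apply_ite (residue R), map_zero]
  rw [Finset.sum_congr rfl fun y _ => e y, Finset.sum_comm,
    trunc_sum (φ := (CH Q).subtype) (CH Q).subtype_injective]
  · refine Finset.sum_congr rfl fun c _ => ?_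
    rw [locact2_rhoQ, ← locact2_sum_pt]
    unfold locR
    rw [coeff_toRes, coeff_pull]
    rfl
  · intro g hg
    refine Finset.sum_eq_zero fun y _ => ?_
    rw [if_neg, zero_mul]
    intro e
    exact hg ⟨⟨g, fun q hq => (hX.cent_right e q hq).symm⟩, rfl⟩

omit [IsLocalRing R] [Fintype G] in
lemma dInv_rhoM [Fintype H] {a : MonoidAlgebra R H} (ha : FixedBy (cjRep R H) Q a) :
    DInv Q (rhoM R H X a) := by
  intro q hq x y
  have h := locact2_rhoM_cj (((q : G), q) : G × H) a x y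
  rwa [ha q hq] at h

lemma Biset.lk_iff (hX : Biset H X κ) {k : Type} [CommRing k]
    {M : Matrix (Fix X Q) (Fix X Q) k} :
    M ∈ LK k Q ↔ EquivOn (rhoQ X k Q) (rhoQ X k Q) ⊤ (Matrix.toLin' M) := by
  constructor
  · intro hM h _
    exact (locact2_comm_iff M (inrN Q h)).2 fun x y => hM h x y _ _ rfl rfl
  · intro hM h x y x' y' e1 e2
    have hc : h ∈ CH Q := fun q hq => (hX.cent_right e1 q hq).symm
    have h1 := (locact2_comm_iff M (inrN Q ⟨h, hc⟩)).1 (hM ⟨h, hc⟩ trivial) x y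
    have e3 : x' = inrN Q ⟨h, hc⟩ • x := Subtype.ext e1
    have e4 : y' = inrN Q ⟨h, hc⟩ • y := Subtype.ext e2
    rw [e3, e4, h1]

lemma GInv.loc_equiv {a : Kern R H X} (h : GInv a) :
    EquivOn (nRep X (ResidueField R) Q) (nRep X (ResidueField R) Q) ⊤ (loc Q a.1) := by
  intro γ _
  exact (locact2_comm_iff (br Q a.1) γ).2 fun x y =>
    congrArg (residue R) (h.entry (γ : G × H) x.1 y.1)

lemma GInv.loc_lam {a : Kern R H X} (h : GInv a) :
    EquivOn (lamQ X (ResidueField R) Q) (lamQ X (ResidueField R) Q) ⊤ (loc Q a.1) := by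
  intro c _
  exact h.loc_equiv (inlN Q c) trivial

lemma loc_rho (a : Kern R H X) :
    EquivOn (rhoQ X (ResidueField R) Q) (rhoQ X (ResidueField R) Q) ⊤ (loc Q a.1) := by
  intro h _
  exact (locact2_comm_iff (br Q a.1) (inrN Q h)).2 fun x y =>
    congrArg (residue R) ((mem_Kern R H X).1 a.2 h x.1 y.1)

/-- Conjugating a right multiplication by an element of the normaliser. -/
lemma nRep_loc_rhoM [Fintype H] (γ : NQ Q) (a : MonoidAlgebra R H) (w : Fix X Q → ResidueField R) :
    nRep X (ResidueField R) Q γ (loc Q (rhoM R H X a) (nRep X (ResidueField R) Q γ⁻¹ w)) =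
      loc Q (rhoM R H X (cjRep R H (γ : G × H).2 a)) w := by
  funext x
  rw [locact2_nRep, loc_apply, loc_apply, ← Equiv.sum_comp (MulAction.toPerm γ⁻¹)]
  refine Finset.sum_congr rfl fun y _ => ?_
  rw [MulAction.toPerm_apply, locact2_nRep, inv_smul_smul,
    ← locact2_rhoM_cj (γ : G × H) a, ← NQ_smul_val, ← NQ_smul_val, smul_inv_smul, smul_inv_smul]

lemma exists_locL (b₀ : MonoidAlgebra (ResidueField R) (CG Q)) :
    ∃ b : MonoidAlgebra R G, SuppCent (imG Q) b ∧ locL R Q b = b₀ := by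
  obtain ⟨b₁, rfl⟩ := toRes_surjective b₀
  refine ⟨inc R (CG Q).subtype b₁, fun x hx δ hδ => ?_, ?_⟩
  · by_contra e
    refine hx (coeff_inc_of_notMem _ _ ?_)
    rintro ⟨c, rfl⟩
    exact e (c.2 δ hδ).symm
  · unfold locL
    rw [pull_inc (CG Q).subtype_injective]

lemma coeff_locL (b : MonoidAlgebra R G) (c : CG Q) :
    (locL R Q b).coeff c = residue R (b.coeff c) := by
  unfold locL
  rw [coeff_toRes, coeff_pull]
  rfl

lemma coeff_locR (a : MonoidAlgebra R H) (h : CH Q) :
    (locR R Q a).coeff h = residue R (a.coeff (h : H)⁻¹) := by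
  unfold locR
  rw [coeff_toRes, coeff_pull]

lemma locact2_locL_one : locL R Q (1 : MonoidAlgebra R G) = 1 := by
  unfold locL
  rw [← map_one (inc R (CG Q).subtype), pull_inc (CG Q).subtype_injective, map_one]

lemma locL_pow {b : MonoidAlgebra R G} (hb : SuppCent (imG Q) b) (m : ℕ) :
    locL R Q (b ^ m) = locL R Q b ^ m := by
  induction m with
  | zero => rw [pow_zero, pow_zero, locact2_locL_one]
  | succ m ih =>
    rw [pow_succ, pow_succ, ← ih]
    unfold locL
    rw [pull_mul_right (CG Q).subtype_injective _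
      (fun g hg => ⟨⟨g, fun q hq => (hb g hg q hq).symm⟩, rfl⟩), map_mul]

lemma locL_one_sub (b : MonoidAlgebra R G) : locL R Q (1 - b) = 1 - locL R Q b := by
  rw [← locact2_locL_one (R := R) (Q := Q)]
  unfold locL
  rw [map_sub, map_sub]

/-- The local image of a class function for the centraliser is central. -/
lemma locL_central {b : MonoidAlgebra R G}
    (hb : ∀ c ∈ CG Q, ∀ x, b.coeff (c⁻¹ * x * c) = b.coeff x)
    (y : MonoidAlgebra (ResidueField R) (CG Q)) : locL R Q b * y = y * locL R Q b := by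
  refine fixedBy_top_iff.1 (fun c _ => ?_) y
  ext x
  rw [coeff_cjRep, coeff_locL, coeff_locL]
  exact congrArg (residue R) (hb c c.2 x)

/-- `pull_mul_brauer` for the subgroup `Q.map H.subtype`. -/
lemma locL_idem (hp : p.Prime) (hpR : (p : R) ∈ maximalIdeal R) (hQ : IsPGroup p Q)
    {e : MonoidAlgebra R G} (he : e * e = e) (hc : ∀ b, e * b = b * e) :
    locL R Q e * locL R Q e = locL R Q e := by
  have hf : FixedBy (cjRep R G) (Q.map H.subtype) e :=
    fun g _ => fixedBy_top_iff.2 hc g trivial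
  unfold locL
  rw [← pull_mul_brauer hp hpR (hQ.map H.subtype) (CG Q).subtype_injective ?_ hf hf, he]
  intro g
  constructor
  · rintro ⟨c, rfl⟩ _ ⟨q, hq, rfl⟩
    exact (mem_CG.1 c.2 q hq).symm
  · intro h
    exact ⟨⟨g, mem_CG.2 fun q hq => (h q ⟨q, hq, rfl⟩).symm⟩, rfl⟩

section act

variable {k : Type} [Field k]

omit [Fintype G] [Fintype X] [DecidableEq X] in
lemma lamQ_rhoQ (c : CG Q) (h : CH Q) (u : Fix X Q → k) :
    lamQ X k Q c (rhoQ X k Q h u) = rhoQ X k Q h (lamQ X k Q c u) := by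
  have e : inlN Q c * inrN Q h = inrN Q h * inlN Q c :=
    Subtype.ext (by simp [inlN_val, inrN_val])
  rw [locact2_lamQ, locact2_rhoQ, ← Module.End.mul_apply, ← map_mul, e, map_mul,
    Module.End.mul_apply]

omit [Fintype G] [Fintype X] [DecidableEq X] in
lemma lamQ_diag (q : CH Q) (hq : q ∈ Q.subgroupOf (CH Q)) (u : Fix X Q → k) :
    lamQ X k Q (iotaQ Q q) (rhoQ X k Q q u) = u := by
  funext x
  rw [locact2_lamQ, locact2_rhoQ, ← Module.End.mul_apply, ← map_mul, locact2_nRep]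
  congr 1
  rw [inv_smul_eq_iff]
  refine Subtype.ext ?_
  have h1 := x.2 q (Subgroup.mem_subgroupOf.1 hq)
  rw [NQ_smul_val]
  conv_lhs => rw [← h1]
  congr 1
  simp [inlN_val, inrN_val, iotaQ_val]

omit [Fintype G] [Fintype X] [DecidableEq X] in
lemma locact2_hig {C : Type} [Group C] [Fintype C] (f : C →* NQ Q)
    (hf : ∀ (c : C) (x : Fix X Q), f c • x = x → c = 1) : ∃ ι' : Module.End k (Fix X Q → k),
    ∀ u, ∑ c, nRep X k Q (f c) (ι' (nRep X k Q (f c⁻¹) u)) = u := by
  let _ : MulAction C (Fix X Q) := MulAction.compHom _ f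
  obtain ⟨ι, -, hι⟩ := exists_higman_perm k (Γ := C) (Y := Fix X Q) ⊥ (fun _ => True)
    (fun _ _ _ => trivial) (fun y _ g hg => Subgroup.mem_bot.2 (hf g y hg))
  have e : ∀ c : C, permRep k C (Fix X Q) c = nRep X k Q (f c) := by
    intro c
    refine LinearMap.ext fun w => funext fun y => ?_
    rw [permRep_apply, locact2_nRep, ← map_inv]
    rfl
  refine ⟨ι, fun u => funext fun y => ?_⟩
  have h1 := (hι u y).1 trivial
  rw [rtr_bot_top, LinearMap.sum_apply] at h1
  rw [← h1, Finset.sum_apply, Finset.sum_apply]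
  refine Finset.sum_congr rfl fun c _ => ?_
  rw [Representation.linHom_apply, LinearMap.comp_apply, LinearMap.comp_apply, e, e]

omit [Fintype X] [DecidableEq X] in
/-- `exists_higman_perm` for the action through `inlN` (`MulAction.compHom`), `S = ⊥`. -/
lemma Biset.higL (hX : Biset H X κ) : ∃ ι' : Module.End k (Fix X Q → k),
    ∀ u, ∑ c, lamQ X k Q c (ι' (lamQ X k Q c⁻¹ u)) = u := by
  exact locact2_hig (inlN Q) fun c x h =>
    Subtype.ext (hX.left c x.1 (congrArg Subtype.val h))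

omit [Fintype X] [DecidableEq X] in
lemma Biset.higR (hX : Biset H X κ) : ∃ ι' : Module.End k (Fix X Q → k),
    ∀ u, ∑ h, rhoQ X k Q h (ι' (rhoQ X k Q h⁻¹ u)) = u := by
  exact locact2_hig (inrN Q) fun c x h =>
    Subtype.ext (hX.right c x.1 (congrArg Subtype.val h))

omit [Fintype G] in
lemma locact2_conj_CG (γ : NQ Q) (c : CG Q) :
    (γ : G × H).1 * c * (γ : G × H).1⁻¹ ∈ CG Q := by
  refine mem_CG.2 fun q hq => ?_
  obtain ⟨h1, h2⟩ := (NQ Q).inv_mem γ.2
  have h3 := mem_CG.1 c.2 _ ((h1 q).1 hq)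
  rw [← h2 q hq, Prod.fst_inv, inv_inv] at h3
  calc (q : G) * ((γ : G × H).1 * c * (γ : G × H).1⁻¹)
      = (γ : G × H).1 * ((γ : G × H).1⁻¹ * q * (γ : G × H).1 * c) * (γ : G × H).1⁻¹ := by group
    _ = _ := by rw [h3]; group

omit [Fintype G] in
lemma locact2_conj_CH (γ : NQ Q) (c : CH Q) :
    (γ : G × H).2 * c * (γ : G × H).2⁻¹ ∈ CH Q := by
  refine mem_CH.2 fun q hq => ?_
  obtain ⟨h1, -⟩ := (NQ Q).inv_mem γ.2
  have h3 := mem_CH.1 c.2 _ ((h1 q).1 hq)
  rw [Prod.snd_inv, inv_inv] at h3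
  calc q * ((γ : G × H).2 * c * (γ : G × H).2⁻¹)
      = (γ : G × H).2 * ((γ : G × H).2⁻¹ * q * (γ : G × H).2 * c) * (γ : G × H).2⁻¹ := by group
    _ = _ := by rw [h3]; group

/-- Conjugation on the centraliser. -/
def locact2_cj (γ : NQ Q) : CG Q ≃* CG Q where
  toFun c := ⟨_, locact2_conj_CG γ c⟩
  invFun c := ⟨_, locact2_conj_CG γ⁻¹ c⟩
  left_inv c := Subtype.ext (by simp [mul_assoc])
  right_inv c := Subtype.ext (by simp [mul_assoc])
  map_mul' c c' := Subtype.ext (by simp [mul_assoc])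

omit [Fintype G] [Fintype X] [DecidableEq X] in
lemma locact2_n_lam (γ : NQ Q) (c : CG Q) (u : Fix X Q → k) :
    nRep X k Q γ (lamQ X k Q c u) = lamQ X k Q (locact2_cj γ c) (nRep X k Q γ u) := by
  have e : γ * inlN Q c = inlN Q (locact2_cj γ c) * γ := by
    refine Subtype.ext (Prod.ext ?_ ?_)
    · change (γ : G × H).1 * c = (γ : G × H).1 * c * (γ : G × H).1⁻¹ * (γ : G × H).1
      rw [inv_mul_cancel_right]
    · change (γ : G × H).2 * 1 = 1 * (γ : G × H).2
      rw [mul_one, one_mul]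
  rw [locact2_lamQ, locact2_lamQ, ← Module.End.mul_apply, ← map_mul, e, map_mul,
    Module.End.mul_apply]

omit [Fintype G] [Fintype X] [DecidableEq X] in
lemma locact2_n_rho (γ : NQ Q) (c : CH Q) :
    nRep X k Q γ * rhoQ X k Q c = rhoQ X k Q ⟨_, locact2_conj_CH γ c⟩ * nRep X k Q γ := by
  have e : γ * inrN Q c = inrN Q ⟨_, locact2_conj_CH γ c⟩ * γ := by
    refine Subtype.ext (Prod.ext ?_ ?_)
    · change (γ : G × H).1 * 1 = 1 * (γ : G × H).1
      rw [mul_one, one_mul]
    · change (γ : G × H).2 * c = (γ : G × H).2 * c * (γ : G × H).2⁻¹ * (γ : G × H).2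
      rw [inv_mul_cancel_right]
  rw [locact2_rhoQ, locact2_rhoQ, ← map_mul, e, map_mul]

omit [Fintype G] [Fintype X] [DecidableEq X] in
lemma locact2_n_alg (γ : NQ Q) (j : MonoidAlgebra k (CG Q)) (u : Fix X Q → k) :
    nRep X k Q γ ((lamQ X k Q).asAlgebraHom j u) = (lamQ X k Q).asAlgebraHom
      (MonoidAlgebra.domCongr k k (locact2_cj γ) j) (nRep X k Q γ u) := by
  induction j using MonoidAlgebra.induction_linear with
  | zero => simp
  | add a b ha hb => simp only [map_add, LinearMap.add_apply, ha, hb]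
  | single g r =>
    rw [MonoidAlgebra.domCongr_single, Representation.asAlgebraHom_single,
      Representation.asAlgebraHom_single, LinearMap.smul_apply, LinearMap.smul_apply, map_smul,
      locact2_n_lam]

omit [Fintype X] [DecidableEq X] in
/-- `nRep γ ∘ lamQ c = lamQ (γ c γ⁻¹) ∘ nRep γ` and `domCongr_mem_jac`. -/
lemma nRep_mem_JU (γ : NQ Q) {u : Fix X Q → k} (hu : u ∈ JU (lamQ X k Q)) :
    nRep X k Q γ u ∈ JU (lamQ X k Q) := by
  induction hu using Submodule.span_induction with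
  | mem x hx =>
    obtain ⟨j, hj, u', rfl⟩ := hx
    rw [locact2_n_alg]
    exact mem_JU _ (domCongr_mem_jac _ hj) _
  | zero => simp
  | add x y _ _ hx hy => rw [map_add]; exact add_mem hx hy
  | smul a x _ hx => rw [map_smul]; exact Submodule.smul_mem _ a hx

omit [Fintype G] [Fintype X] [DecidableEq X] in
lemma nRep_mem_augS {D : Subgroup H} [D.Normal] (γ : NQ Q) {u : Fix X Q → k}
    (hu : u ∈ augS (rhoQ X k Q) (D.subgroupOf (CH Q))) :
    nRep X k Q γ u ∈ augS (rhoQ X k Q) (D.subgroupOf (CH Q)) := by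
  induction hu using Submodule.span_induction with
  | mem x hx =>
    obtain ⟨δ, hδ, u', rfl⟩ := hx
    rw [map_sub, ← Module.End.mul_apply, locact2_n_rho, Module.End.mul_apply]
    refine Submodule.subset_span ⟨_, ?_, _, rfl⟩
    exact Subgroup.mem_subgroupOf.2
      (Subgroup.Normal.conj_mem inferInstance _ (Subgroup.mem_subgroupOf.1 hδ) _)
  | zero => simp
  | add x y _ _ hx hy => rw [map_add]; exact add_mem hx hy
  | smul a x _ hx => rw [map_smul]; exact Submodule.smul_mem _ a hx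

omit [Fintype X] [DecidableEq X] in
lemma nRep_mem_kapS {D : Subgroup H} [D.Normal] (n : ℕ) (γ : NQ Q) {u : Fix X Q → k}
    (hu : u ∈ kapS (rhoQ X k Q) (D.subgroupOf (CH Q)) n (JU (lamQ X k Q))) :
    nRep X k Q γ u ∈ kapS (rhoQ X k Q) (D.subgroupOf (CH Q)) n (JU (lamQ X k Q)) := by
  refine mem_kapS.2 fun δ hδ => ?_
  have h1 : (⟨_, locact2_conj_CH γ⁻¹ δ⟩ : CH Q) ∈ D.subgroupOf (CH Q) :=
    Subgroup.mem_subgroupOf.2
      (Subgroup.Normal.conj_mem inferInstance _ (Subgroup.mem_subgroupOf.1 hδ) _)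
  have h2 := nRep_mem_JU γ (mem_kapS.1 hu _ h1)
  have h3 := locact2_n_rho (X := X) (k := k) γ ⟨_, locact2_conj_CH γ⁻¹ δ⟩
  have e : (⟨_, locact2_conj_CH γ ⟨_, locact2_conj_CH γ⁻¹ δ⟩⟩ : CH Q) = δ :=
    Subtype.ext (by simp [mul_assoc])
  rw [e] at h3
  have h4 : SemiconjBy (nRep X k Q γ) (rhoQ X k Q ⟨_, locact2_conj_CH γ⁻¹ δ⟩ - 1)
      (rhoQ X k Q δ - 1) := SemiconjBy.sub_right h3 (SemiconjBy.one_right _)
  have h5 := (h4.pow_right n).eq
  rw [← Module.End.mul_apply, h5] at h2
  exact h2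

end act

section translate

variable {ε₀ ε₁ d : Kern R H X}

lemma Biset.locSurj_of (hX : Biset H X κ)
    (h : ∀ z, EquivOn (rhoQ X (ResidueField R) Q) (rhoQ X (ResidueField R) Q) ⊤ z →
      ∃ a : Module.End (ResidueField R) (Fix X Q → ResidueField R),
        EquivOn (rhoQ X (ResidueField R) Q) (rhoQ X (ResidueField R) Q) ⊤ a ∧
        loc Q ε₀.1 * a * loc Q ε₀.1 + loc Q ε₁.1 * a * loc Q ε₁.1 = a ∧
        a * loc Q d.1 - loc Q d.1 * a = loc Q ε₀.1 * z * loc Q ε₁.1) :
    LocSurj ε₀ ε₁ d Q := by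
  intro z hz
  obtain ⟨a, h1, h2, h3⟩ := h _ (hX.lk_iff.1 hz)
  obtain ⟨A, rfl⟩ := Matrix.toLin'.surjective a
  refine ⟨A, hX.lk_iff.2 h1, Matrix.toLin'.injective ?_, Matrix.toLin'.injective ?_⟩
  · simp only [map_add, locact2_toLin_mul]
    exact h2.symm
  · simp only [map_sub, locact2_toLin_mul]
    exact h3

lemma Biset.locGen_of (hX : Biset H X κ)
    (h : ∀ a, IsChain' (rhoQ X (ResidueField R) Q) (loc Q ε₀.1) (loc Q ε₁.1) (loc Q d.1) a →
      ∃ b, IsNull (rhoQ X (ResidueField R) Q) (loc Q ε₀.1) (loc Q ε₁.1) (loc Q d.1)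
        (a - (lamQ X (ResidueField R) Q).asAlgebraHom b * (loc Q ε₀.1 + loc Q ε₁.1))) :
    LocGen ε₀ ε₁ d Q := by
  intro a ha h1 h2
  have h3 := congrArg Matrix.toLin' h1
  have h4 := congrArg Matrix.toLin' h2
  simp only [map_add, locact2_toLin_mul] at h3 h4
  obtain ⟨b₀, y, h5, h6, h7⟩ := h _ ⟨hX.lk_iff.1 ha, h3.symm, h4⟩
  obtain ⟨b, hb, rfl⟩ := exists_locL b₀
  obtain ⟨Y, rfl⟩ := Matrix.toLin'.surjective y
  refine ⟨b, hb, Y, hX.lk_iff.2 h5, Matrix.toLin'.injective ?_, Matrix.toLin'.injective ?_⟩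
  · simp only [locact2_toLin_mul]
    exact h6.symm
  · simp only [map_add, locact2_toLin_mul]
    rw [← hX.loc_piA, sub_eq_iff_eq_add'] at h7
    rw [h7, add_assoc]
    rfl

lemma Biset.null_of (hX : Biset H X κ) {b : MonoidAlgebra R G}
    (h : IsNull (rhoQ X (ResidueField R) Q) (loc Q ε₀.1) (loc Q ε₁.1) (loc Q d.1)
      ((lamQ X (ResidueField R) Q).asAlgebraHom (locL R Q b) * (loc Q ε₀.1 + loc Q ε₁.1))) :
    Null ε₀ ε₁ d Q b := by
  obtain ⟨y, h5, h6, h7⟩ := h
  obtain ⟨Y, rfl⟩ := Matrix.toLin'.surjective y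
  refine ⟨Y, hX.lk_iff.2 h5, Matrix.toLin'.injective ?_, Matrix.toLin'.injective ?_⟩
  · simp only [locact2_toLin_mul]
    exact h6.symm
  · simp only [map_add, locact2_toLin_mul]
    rw [← hX.loc_piA] at h7
    exact h7

end translate

end Pool.Agent.Lib.MP_b6945b_al.St
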