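import Pool.Agent.Lib.MP_b6945b_al.St.LocDefs

set_option autoImplicit false

/-!
The local complex modulo the radical satisfies the hypotheses of the cyclic analysis.
-/

namespace Pool.Agent.Lib.MP_b6945b_al.St

open MonoidAlgebra (single)

variable {k C Γ U W : Type} [Field k] [Group C] [Fintype C] [Group Γ] [Fintype Γ]
  [AddCommGroup U] [Module k U] [AddCommGroup W] [Module k W]
  {p : ℕ} [Fact p.Prime] [CharP k p] {ι : Γ →* C} {Q D : Subgroup Γ}
  {lam : Representation k C U} {rho : Representation k Γ U} {ε₀ ε₁ d : Module.End k U}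
  {π : U →ₗ[k] W} {ρ : Representation k Γ W} {η₀ η₁ δ : Module.End k W}

omit [Fact p.Prime] [CharP k p] in
lemma locBar_rho_equiv (h : LocStruct p ι Q D lam rho ε₀ ε₁ d) (g : Γ) :
    EquivOn lam lam ⊤ (rho g) := fun c _ u => (h.comm c g u).symm

omit [Fact p.Prime] [CharP k p] in
lemma locBar_lam_equiv (h : LocStruct p ι Q D lam rho ε₀ ε₁ d) (x : MonoidAlgebra k C) :
    EquivOn rho rho ⊤ (lam.asAlgebraHom x) :=
  fun g _ u => ((locBar_rho_equiv h g).asAlgebraHom x u).symm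

omit [Fact p.Prime] [CharP k p] in
lemma locBar_rhoA_equiv (h : LocStruct p ι Q D lam rho ε₀ ε₁ d) (y : MonoidAlgebra k Γ) :
    EquivOn lam lam ⊤ (rho.asAlgebraHom y) := by
  intro c _ u
  have h1 : EquivOn rho rho ⊤ (lam c) := fun g _ u => h.comm c g u
  exact (h1.asAlgebraHom y u).symm

omit [Fact p.Prime] [CharP k p] in
/-- `Representation.quotient` and `Submodule.mapQ`, with `map_JU`. -/
theorem LocStruct.exists_bar (h : LocStruct p ι Q D lam rho ε₀ ε₁ d) :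
    ∃ (ρ : Representation k Γ (U ⧸ JU lam)) (η₀ η₁ δ : Module.End k (U ⧸ JU lam)),
      Bar lam rho ε₀ ε₁ d (JU lam).mkQ ρ η₀ η₁ δ := by
  refine ⟨rho.quotient (JU lam) fun g _ hu => map_JU (locBar_rho_equiv h g) hu,
    (JU lam).mapQ (JU lam) ε₀ fun _ hu => map_JU h.l0 hu,
    (JU lam).mapQ (JU lam) ε₁ fun _ hu => map_JU h.l1 hu,
    (JU lam).mapQ (JU lam) d fun _ hu => map_JU h.ld hu,
    (JU lam).mkQ_surjective, fun u => ?_, fun _ _ _ => rfl, fun _ => rfl, fun _ => rfl,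
    fun _ => rfl⟩
  exact Submodule.Quotient.mk_eq_zero _

omit [Fintype C] in
lemma locBar_desc {U U' W' : Type} [AddCommGroup U] [Module k U] [AddCommGroup U'] [Module k U']
    [AddCommGroup W'] [Module k W'] (π : U →ₗ[k] U') (hπ : Function.Surjective π)
    (φ : U →ₗ[k] W') (hφ : ∀ u, π u = 0 → φ u = 0) : ∃ φ' : U' →ₗ[k] W', ∀ u, φ' (π u) = φ u := by
  obtain ⟨g, hg⟩ := π.exists_rightInverse_of_surjective (LinearMap.range_eq_top.2 hπ)
  refine ⟨φ ∘ₗ g, fun u => ?_⟩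
  have h1 : π (g (π u)) = π u := LinearMap.congr_fun hg (π u)
  have h2 := hφ (g (π u) - u) (by rw [map_sub, h1, sub_self])
  rw [map_sub, sub_eq_zero] at h2
  exact h2

omit [Fintype C] [Fintype Γ] in
/-- Maps killing the radical descend. -/
lemma Bar.exists_desc (hB : Bar lam rho ε₀ ε₁ d π ρ η₀ η₁ δ) {W' : Type} [AddCommGroup W']
    [Module k W'] (φ : U →ₗ[k] W') (hφ : ∀ j ∈ Jac k C, ∀ u, φ (lam.asAlgebraHom j u) = 0) :
    ∃ φ' : W →ₗ[k] W', ∀ u, φ' (π u) = φ u := by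
  refine locBar_desc π hB.surj φ fun u hu => ?_
  have h1 : JU lam ≤ LinearMap.ker φ := by
    refine Submodule.span_le.2 ?_
    rintro _ ⟨j, hj, u', rfl⟩
    exact hφ j hj u'
  exact h1 ((hB.ker u).1 hu)

omit [Fintype C] [Fintype Γ] in
lemma locBar_desc_end (hB : Bar lam rho ε₀ ε₁ d π ρ η₀ η₁ δ) (ψ : Module.End k U)
    (hψ : ∀ u ∈ JU lam, ψ u ∈ JU lam) : ∃ ψ' : Module.End k W, ∀ u, ψ' (π u) = π (ψ u) :=
  locBar_desc π hB.surj (π ∘ₗ ψ) fun u hu => (hB.ker _).2 (hψ u ((hB.ker u).1 hu))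

omit [Fintype C] [Fintype Γ] in
lemma locBar_ext (hB : Bar lam rho ε₀ ε₁ d π ρ η₀ η₁ δ) {W' : Type} [AddCommGroup W']
    [Module k W'] {α β : W →ₗ[k] W'} (h : ∀ u, α (π u) = β (π u)) : α = β := by
  refine LinearMap.ext fun w => ?_
  obtain ⟨u, rfl⟩ := hB.surj w
  exact h u

omit [Fintype C] [Fintype Γ] in
lemma locBar_equiv_desc (hB : Bar lam rho ε₀ ε₁ d π ρ η₀ η₁ δ) {S : Subgroup Γ}
    {ψ : Module.End k U} {ψ' : Module.End k W} (h : ∀ u, ψ' (π u) = π (ψ u))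
    (hψ : EquivOn rho rho S ψ) : EquivOn ρ ρ S ψ' := by
  intro g hg w
  obtain ⟨u, rfl⟩ := hB.surj w
  rw [← hB.equiv g trivial, h, h, hψ g hg, hB.equiv g trivial]

omit [Fintype C] in
lemma locBar_rtr_desc (hB : Bar lam rho ε₀ ε₁ d π ρ η₀ η₁ δ) (S : Subgroup Γ)
    {ψ : Module.End k U} {ψ' : Module.End k W} (h : ∀ u, ψ' (π u) = π (ψ u)) (u : U) :
    rtr (ρ.linHom ρ) S ⊤ ψ' (π u) = π (rtr (rho.linHom rho) S ⊤ ψ u) := by
  have h1 := LinearMap.congr_fun (rtr_comp (S := S) (ρ'' := ρ) hB.equiv ψ') u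
  have h2 := LinearMap.congr_fun (comp_rtr (S := S) (ρ := rho) hB.equiv ψ) u
  have h3 : ψ' ∘ₗ π = π ∘ₗ ψ := LinearMap.ext h
  rw [h3] at h1
  exact h1.trans h2.symm

/-- `Q` acts trivially: `rho q = lam (ι q)⁻¹` and `single_sub_one_mem_jac`. -/
lemma Bar.triv (h : LocStruct p ι Q D lam rho ε₀ ε₁ d) (hB : Bar lam rho ε₀ ε₁ d π ρ η₀ η₁ δ) :
    ∀ q ∈ Q, ∀ w, ρ q w = w := by
  intro q hq w
  obtain ⟨u, rfl⟩ := hB.surj w
  obtain ⟨n, hn⟩ := h.pQ ⟨q, hq⟩
  have h1 : ι q ^ p ^ n = 1 := by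
    have : q ^ p ^ n = 1 := congrArg Subtype.val hn
    rw [← map_pow, this, map_one]
  have h2 := (hB.ker _).2 (mem_JU lam (single_sub_one_mem_jac (k := k) (h.ti.cent q hq) h1)
    (rho q u))
  rw [map_sub, map_one, LinearMap.sub_apply, Representation.asAlgebraHom_single_one, h.diag q hq,
    map_sub, sub_eq_zero] at h2
  rw [← hB.equiv q trivial]
  exact h2.symm

variable (k C) in
/-- The right regular representation. -/
noncomputable def locBar_rR : Representation k C (MonoidAlgebra k C) where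
  toFun c := LinearMap.mulRight k (single c⁻¹ 1)
  map_one' := by
    refine LinearMap.ext fun a => ?_
    rw [inv_one, ← MonoidAlgebra.one_def, LinearMap.mulRight_apply, mul_one]
    rfl
  map_mul' g h := by
    refine LinearMap.ext fun a => ?_
    change a * single (g * h)⁻¹ 1 = a * single h⁻¹ 1 * single g⁻¹ 1
    rw [mul_assoc, MonoidAlgebra.single_mul_single, mul_inv_rev, mul_one]

omit [Fintype C] in
lemma locBar_rR_apply (c : C) (a : MonoidAlgebra k C) :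
    locBar_rR k C c a = a * single c⁻¹ 1 := rfl

section Zero

variable {e : MonoidAlgebra k C} {f a : MonoidAlgebra k Γ} {i₀ : MonoidAlgebra k C →ₗ[k] U}
  {p₀ : U →ₗ[k] MonoidAlgebra k C}

omit [Fintype C] in
lemma locBar_i_lam (hz : LocZero ι D lam rho e f a i₀ p₀ ε₀) (x b : MonoidAlgebra k C) :
    i₀ (x * b) = lam.asAlgebraHom x (i₀ b) := by
  induction x using MonoidAlgebra.induction_on with
  | of c => rw [Representation.asAlgebraHom_of, MonoidAlgebra.of_apply, hz.i_left]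
  | add x y hx hy => rw [add_mul, map_add, map_add, LinearMap.add_apply, hx, hy]
  | smul r x hx => rw [smul_mul_assoc, map_smul, map_smul, LinearMap.smul_apply, hx]

omit [Fintype C] in
lemma locBar_p_lam (hz : LocZero ι D lam rho e f a i₀ p₀ ε₀) (x : MonoidAlgebra k C) (u : U) :
    p₀ (lam.asAlgebraHom x u) = x * p₀ u := by
  induction x using MonoidAlgebra.induction_on with
  | of c => rw [Representation.asAlgebraHom_of, MonoidAlgebra.of_apply, hz.p_left]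
  | add x y hx hy => rw [add_mul, map_add, LinearMap.add_apply, map_add, hx, hy]
  | smul r x hx => rw [smul_mul_assoc, map_smul, LinearMap.smul_apply, map_smul, hx]

omit [Fintype C] in
lemma locBar_i_equiv (hz : LocZero ι D lam rho e f a i₀ p₀ ε₀) :
    EquivOn ((locBar_rR k C).comp ι) rho ⊤ i₀ := fun g _ b => hz.i_right g b

omit [Fintype C] in
lemma locBar_p_equiv (hz : LocZero ι D lam rho e f a i₀ p₀ ε₀) :
    EquivOn rho ((locBar_rR k C).comp ι) ⊤ p₀ := fun g _ u => hz.p_right g u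

omit [Fintype C] in
lemma locBar_eps_ip (hz : LocZero ι D lam rho e f a i₀ p₀ ε₀) (u : U) :
    ε₀ (i₀ (p₀ u)) = ε₀ u := by
  rw [hz.eps, hz.pi, ← hz.eps]

omit [Fintype C] in
lemma locBar_ip_eps (hz : LocZero ι D lam rho e f a i₀ p₀ ε₀) (u : U) :
    i₀ (p₀ (ε₀ u)) = ε₀ u := by
  rw [hz.eps, locBar_p_lam hz, locBar_i_lam hz, (locBar_p_equiv hz).asAlgebraHom,
    (locBar_i_equiv hz).asAlgebraHom, hz.pi]

omit [Fact p.Prime] [CharP k p] in
lemma locBar_f_eps (h : LocStruct p ι Q D lam rho ε₀ ε₁ d)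
    (hz : LocZero ι D lam rho e f a i₀ p₀ ε₀) (u : U) : rho.asAlgebraHom f (ε₀ u) = ε₀ u := by
  rw [hz.eps, (locBar_rhoA_equiv h f).asAlgebraHom, ← Module.End.mul_apply (rho.asAlgebraHom f),
    ← map_mul, hz.f_idem]

end Zero

omit [Fintype C] [Fintype Γ] in
lemma locBar_linHom_comp {M M' : Type} [AddCommGroup M] [Module k M] [AddCommGroup M']
    [Module k M'] (σ : Representation k C M) (σ' : Representation k C M') :
    (σ.linHom σ').comp ι = Representation.linHom (σ.comp ι) (σ'.comp ι) := by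
  refine MonoidHom.ext fun g => LinearMap.ext fun φ => ?_
  change σ' (ι g) ∘ₗ φ ∘ₗ σ ((ι g)⁻¹) = σ' (ι g) ∘ₗ φ ∘ₗ σ (ι (g⁻¹))
  rw [map_inv ι]

omit [Fintype Γ] in
/-- Postcomposition with the action of an element of the group algebra. -/
lemma locBar_post {M M' : Type} [AddCommGroup M] [Module k M] [AddCommGroup M']
    [Module k M'] (σ : Representation k Γ M) (σ' : Representation k Γ M') :
    EquivOn (σ'.linHom σ') ((σ.linHom σ').linHom (σ.linHom σ')) ⊤
      (LinearMap.llcomp k M M' M') := by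
  intro g _ α
  refine LinearMap.ext fun φ => LinearMap.ext fun m => ?_
  change σ' g (α (σ' g⁻¹ (φ m))) = σ' g (α (σ' g⁻¹ (φ (σ g⁻¹⁻¹ (σ g⁻¹ m)))))
  rw [← Module.End.mul_apply (σ g⁻¹⁻¹), ← map_mul, inv_mul_cancel, map_one, Module.End.one_apply]

/-- Mackey.  Let `S` be the quotient of `k C` by the radical, with `C` acting by right
multiplication, `pb : W → S` induced by `p₀` and `ib : S → W` induced by `π ∘ i₀`.  Apply
`TIData.exists_lift` to `M = k C →ₗ S` (`linHom` of the right regular actions), `φ' = pb φ i₀`,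
`a'` the postcomposition with the action of `a` (`asAlgebraHom_rtr`), and `W` the maps killing
`I`.  A `C`-fixed `Φ` is left multiplication by some `b`.  Then
`φ = φ ε₀ = ib (F Φ - rtr θ₀) p₀ ε₀`, and `θ = - η₀ ib θ₀ p₀ ε₀`. -/
theorem Bar.mackey (h : LocStruct p ι Q D lam rho ε₀ ε₁ d)
    (hB : Bar lam rho ε₀ ε₁ d π ρ η₀ η₁ δ) (I : Ideal (MonoidAlgebra k C)) [I.IsTwoSided]
    (φ : U →ₗ[k] W) (hφ : EquivOn rho ρ ⊤ φ) (h0 : η₀ ∘ₗ φ ∘ₗ ε₀ = φ)
    (hI : ∀ x ∈ I, ∀ u, φ (lam.asAlgebraHom x u) = 0) :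
    ∃ (b : MonoidAlgebra k C) (θ : U →ₗ[k] W), EquivOn rho ρ Q θ ∧
      (∀ x ∈ I, ∀ u, θ (lam.asAlgebraHom x u) = 0) ∧
      φ = π ∘ₗ lam.asAlgebraHom b ∘ₗ ε₀ + rtr (rho.linHom ρ) Q ⊤ θ := by
  obtain ⟨e, f, a, i₀, p₀, hz⟩ := h.zero
  obtain ⟨J, hJ⟩ : ∃ J : Submodule k (MonoidAlgebra k C), ∀ x, x ∈ J ↔ x ∈ Jac k C :=
    ⟨(Jac k C).restrictScalars k, fun _ => Iff.rfl⟩
  obtain ⟨σ, hσ⟩ : ∃ σ : Representation k C (MonoidAlgebra k C ⧸ J),
      EquivOn (locBar_rR k C) σ ⊤ J.mkQ :=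
    ⟨(locBar_rR k C).quotient J fun c x hx =>
      (hJ _).2 (Ideal.mul_mem_right _ _ ((hJ x).1 hx)), fun _ _ _ => rfl⟩
  have hσ' : EquivOn ((locBar_rR k C).comp ι) (σ.comp ι) ⊤ J.mkQ := fun g _ => hσ (ι g) trivial
  obtain ⟨pb, hpb⟩ := hB.exists_desc (J.mkQ ∘ₗ p₀) fun j hj u => by
    rw [LinearMap.comp_apply, locBar_p_lam hz]
    exact (Submodule.Quotient.mk_eq_zero _).2 ((hJ _).2 (Ideal.mul_mem_right _ _ hj))
  obtain ⟨ib, hib⟩ := locBar_desc J.mkQ J.mkQ_surjective (π ∘ₗ i₀) fun x hx => by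
    have hx' := (hJ x).1 ((Submodule.Quotient.mk_eq_zero _).1 hx)
    rw [LinearMap.comp_apply, ← mul_one x, locBar_i_lam hz]
    exact (hB.ker _).2 (mem_JU lam hx' _)
  simp only [LinearMap.comp_apply] at hpb hib
  have epb : EquivOn ρ (σ.comp ι) ⊤ pb := by
    intro g _ w
    obtain ⟨u, rfl⟩ := hB.surj w
    rw [← hB.equiv g trivial, hpb, hpb, locBar_p_equiv hz g trivial, hσ' g trivial]
  have eib : EquivOn (σ.comp ι) ρ ⊤ ib := by
    intro g _ s
    obtain ⟨x, rfl⟩ := J.mkQ_surjective s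
    rw [← hσ' g trivial, hib, hib, locBar_i_equiv hz g trivial, hB.equiv g trivial]
  have eη : EquivOn ρ ρ ⊤ η₀ := locBar_equiv_desc hB (fun u => (hB.h0 u).symm) h.r0
  have hφ0 : ∀ u, η₀ (φ (ε₀ u)) = φ u := fun u => LinearMap.congr_fun h0 u
  have hεε : ∀ u, ε₀ (ε₀ u) = ε₀ u := fun u => LinearMap.congr_fun h.tt.e00 u
  have hφε : ∀ u, φ (ε₀ u) = φ u := fun u => by rw [← hφ0, hεε, hφ0]
  have hφf : ∀ u, ρ.asAlgebraHom f (φ u) = φ u := fun u => by
    rw [← hφε, ← hφ.asAlgebraHom, locBar_f_eps h hz]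
  have hF : ∀ ψ : MonoidAlgebra k C →ₗ[k] MonoidAlgebra k C ⧸ J,
      rtr (Representation.linHom (((locBar_rR k C).linHom σ).comp ι)
        (((locBar_rR k C).linHom σ).comp ι)) D ⊤
        (LinearMap.llcomp k _ _ _ (Representation.asAlgebraHom (σ.comp ι) a)) ψ =
          Representation.asAlgebraHom (σ.comp ι) f ∘ₗ ψ := by
    intro ψ
    rw [locBar_linHom_comp, ← rtr_map (locBar_post _ _), ← asAlgebraHom_rtr, ← hz.f_tr]
    rfl
  obtain ⟨Φ, -, θ₀, hθI, hΦ, hθ, hlift⟩ := h.ti.exists_lift ((locBar_rR k C).linHom σ)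
    (LinearMap.llcomp k _ _ _ (Representation.asAlgebraHom (σ.comp ι) a))
    (by
      intro g hg ψ
      refine LinearMap.ext fun x => ?_
      exact equivOn_asAlgebraHom (σ.comp ι) hz.a_fix g hg _)
    (φ := pb ∘ₗ φ ∘ₗ i₀)
    (by
      rw [locBar_linHom_comp, fixedBy_linHom]
      intro g _ x
      simp only [LinearMap.comp_apply]
      rw [locBar_i_equiv hz g trivial, hφ g trivial, epb g trivial])
    (by
      rw [hF]
      refine LinearMap.ext fun x => ?_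
      simp only [LinearMap.comp_apply]
      rw [← epb.asAlgebraHom, hφf])
    { carrier := {ψ | ∀ x ∈ I, ψ x = 0}
      add_mem' := fun ha hb x hx => by rw [LinearMap.add_apply, ha x hx, hb x hx, add_zero]
      zero_mem' := fun _ _ => rfl
      neg_mem' := fun ha x hx => by rw [LinearMap.neg_apply, ha x hx, neg_zero] }
    (fun x hx => by
      simp only [LinearMap.comp_apply]
      rw [← mul_one x, locBar_i_lam hz, hI x hx, map_zero])
    (fun g ψ hψ x hx => by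
      change σ g (ψ (x * single g⁻¹⁻¹ 1)) = 0
      rw [hψ _ (Ideal.mul_mem_right _ _ hx), map_zero])
    (fun ψ hψ x hx => by
      change Representation.asAlgebraHom (σ.comp ι) a (ψ x) = 0
      rw [hψ x hx, map_zero])
  rw [hF, locBar_linHom_comp] at hlift
  rw [locBar_linHom_comp, fixedBy_linHom] at hθ
  rw [fixedBy_linHom] at hΦ
  obtain ⟨b, hb⟩ := J.mkQ_surjective (Φ 1)
  have hΦb : ∀ x, Φ x = J.mkQ (b * x) := by
    intro x
    induction x using MonoidAlgebra.induction_on with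
    | of c =>
      have e1 := hΦ c⁻¹ trivial 1
      have e2 := hσ c⁻¹ trivial b
      rw [locBar_rR_apply, inv_inv, one_mul] at e1
      rw [locBar_rR_apply, inv_inv] at e2
      rw [MonoidAlgebra.of_apply, e1, e2, hb]
    | add x y hx hy => rw [mul_add, map_add, map_add, hx, hy]
    | smul r x hx => rw [mul_smul_comm, map_smul, map_smul, hx]
  have e1 : EquivOn (σ.comp ι) ρ ⊤ (η₀ ∘ₗ ib) := fun g _ s => by
    rw [LinearMap.comp_apply, LinearMap.comp_apply, eib g trivial, eη g trivial]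
  have e2 : EquivOn rho ((locBar_rR k C).comp ι) ⊤ (p₀ ∘ₗ ε₀) := fun g _ u => by
    rw [LinearMap.comp_apply, LinearMap.comp_apply, h.r0 g trivial, locBar_p_equiv hz g trivial]
  refine ⟨b, -(((η₀ ∘ₗ ib) ∘ₗ θ₀) ∘ₗ (p₀ ∘ₗ ε₀)), fun g hg u => ?_, fun x hx u => ?_, ?_⟩
  · rw [LinearMap.neg_apply, LinearMap.neg_apply, map_neg, LinearMap.comp_apply,
      LinearMap.comp_apply, e2 g trivial, hθ g hg, e1 g trivial]
    rfl
  · have := hθI (x * p₀ (ε₀ u)) (Ideal.mul_mem_right _ _ hx)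
    simp only [LinearMap.neg_apply, LinearMap.comp_apply]
    rw [h.l0.asAlgebraHom, locBar_p_lam hz, this, map_zero, map_zero, neg_zero]
  · rw [map_neg, ← rtr_comp e2, ← comp_rtr e1, eq_add_neg_iff_add_eq]
    refine LinearMap.ext fun u => ?_
    have e3 := congrArg (fun s => η₀ (ib s)) (LinearMap.congr_fun hlift (p₀ (ε₀ u)))
    simp only [LinearMap.comp_apply, LinearMap.add_apply, map_add] at e3 ⊢
    have e4 : η₀ (ib (pb (φ (i₀ (p₀ (ε₀ u)))))) = φ u := by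
      rw [locBar_ip_eps hz, ← hφ0 u]
      obtain ⟨v, hv⟩ := hB.surj (φ (ε₀ u))
      rw [← hv, hpb, hib, ← hB.h0, locBar_eps_ip hz, hB.h0]
    rw [e4] at e3
    rw [← e3, eib.asAlgebraHom, hΦb, hib, locBar_i_lam hz, locBar_ip_eps hz,
      ← hB.equiv.asAlgebraHom, (locBar_rhoA_equiv h f).asAlgebraHom, locBar_f_eps h hz, ← hB.h0,
      h.l0.asAlgebraHom, hεε]

omit [Fintype C] [Fintype Γ] in
lemma locBar_pow (hB : Bar lam rho ε₀ ε₁ d π ρ η₀ η₁ δ) (g : Γ) (n : ℕ) (u : U) :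
    ((ρ g - 1) ^ n) (π u) = π (((rho g - 1) ^ n) u) := by
  induction n generalizing u with
  | zero => rfl
  | succ n ih =>
    rw [pow_succ, pow_succ, Module.End.mul_apply, Module.End.mul_apply, ← ih, LinearMap.sub_apply,
      LinearMap.sub_apply, map_sub π, hB.equiv g trivial]
    rfl

omit [Fintype C] [Fintype Γ] in
lemma locBar_map_aug (hB : Bar lam rho ε₀ ε₁ d π ρ η₀ η₁ δ) :
    (augS rho D).map π = augS ρ D := by
  unfold augS
  rw [Submodule.map_span]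
  refine congrArg (Submodule.span k) (Set.ext fun w => ⟨?_, ?_⟩)
  · rintro ⟨_, ⟨g, hg, u, rfl⟩, rfl⟩
    exact ⟨g, hg, π u, by rw [map_sub, hB.equiv g trivial]⟩
  · rintro ⟨g, hg, w', rfl⟩
    obtain ⟨u, rfl⟩ := hB.surj w'
    exact ⟨_, ⟨g, hg, u, rfl⟩, by rw [map_sub, hB.equiv g trivial]⟩

omit [Fintype C] [Fintype Γ] in
lemma locBar_mem_kap (hB : Bar lam rho ε₀ ε₁ d π ρ η₀ η₁ δ) (n : ℕ) (u : U) :
    π u ∈ kapS ρ D n ⊥ ↔ u ∈ kapS rho D n (JU lam) := by
  simp only [mem_kapS, locBar_pow hB, Submodule.mem_bot, hB.ker]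

omit [Fintype C] [Fintype Γ] in
lemma locBar_mem_aug (hB : Bar lam rho ε₀ ε₁ d π ρ η₀ η₁ δ) (u : U) :
    π u ∈ augS ρ D ↔ u ∈ JU lam ⊔ augS rho D := by
  have hk : LinearMap.ker π = JU lam := Submodule.ext hB.ker
  rw [← locBar_map_aug hB, ← Submodule.mem_comap, Submodule.comap_map_eq, hk, sup_comm]

omit [Fintype C] [Fintype Γ] in
lemma locBar_mem_sup (hB : Bar lam rho ε₀ ε₁ d π ρ η₀ η₁ δ) (n : ℕ) (u : U) :
    π u ∈ augS ρ D ⊔ kapS ρ D n ⊥ ↔ u ∈ (JU lam ⊔ augS rho D) ⊔ kapS rho D n (JU lam) := by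
  rw [Submodule.mem_sup, Submodule.mem_sup]
  constructor
  · rintro ⟨y, hy, z, hz, e⟩
    obtain ⟨v, rfl⟩ := hB.surj z
    refine ⟨u - v, (locBar_mem_aug hB _).1 ?_, v, (locBar_mem_kap hB n v).1 hz, sub_add_cancel _ _⟩
    rw [map_sub, ← e, add_sub_cancel_right]
    exact hy
  · rintro ⟨y, hy, z, hz, rfl⟩
    exact ⟨π y, (locBar_mem_aug hB y).2 hy, π z, (locBar_mem_kap hB n z).2 hz, (map_add _ _ _).symm⟩

/-- For `reg` apply `Bar.mackey` to `α ∘ π` with `I` the radical, descend `θ` and the left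
multiplications, and use `exists_reg_jac`.  For `higN` take the action of `a`. -/
theorem Bar.heartI (h : LocStruct p ι Q D lam rho ε₀ ε₁ d)
    (hB : Bar lam rho ε₀ ε₁ d π ρ η₀ η₁ δ) : HeartI p Q D ρ η₀ η₁ δ := by
  have g0 : ∀ u, η₀ (π u) = π (ε₀ u) := fun u => (hB.h0 u).symm
  have g1 : ∀ u, η₁ (π u) = π (ε₁ u) := fun u => (hB.h1 u).symm
  have gd : ∀ u, δ (π u) = π (d u) := fun u => (hB.hd u).symm
  have q0 := locBar_equiv_desc hB g0 h.r0
  have qd := locBar_equiv_desc hB gd h.rd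
  have mul : ∀ {x y z : Module.End k U} {x' y' z' : Module.End k W},
      (∀ u, x' (π u) = π (x u)) → (∀ u, y' (π u) = π (y u)) → (∀ u, z' (π u) = π (z u)) →
        x * y = z → x' * y' = z' := by
    intro x y z x' y' z' hx hy hz e
    refine locBar_ext hB fun u => ?_
    rw [Module.End.mul_apply, hy, hx, hz, ← e, Module.End.mul_apply]
  have gz : ∀ u, (0 : Module.End k W) (π u) = π ((0 : Module.End k U) u) := fun u => by simp
  refine ⟨h.ti.le, ⟨fun q hq g => ?_⟩, h.idx, hB.triv h,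
    ⟨mul g0 g0 g0 h.tt.e00, mul g1 g1 g1 h.tt.e11, mul g0 g1 gz h.tt.e01, mul g1 g0 gz h.tt.e10,
      mul g0 gd gd h.tt.d0, mul gd g1 gd h.tt.d1⟩,
    q0, locBar_equiv_desc hB g1 h.r1, qd, ?_, ?_, fun w => ?_, fun t ht => ?_, fun α hα hα0 => ?_⟩
  · have e : g * q * g⁻¹ = q := h.ti.inj (by
      rw [map_mul, map_mul, ← h.ti.cent q hq, map_inv, mul_inv_cancel_right])
    rw [e]
    exact hq
  · obtain ⟨ι', hl, -, ht⟩ := h.higT
    obtain ⟨ιb, hιb⟩ := locBar_desc_end hB ι' fun u hu => map_JU hl hu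
    exact ⟨ιb, mul (locBar_rtr_desc hB Q hιb) g1 g1 ht⟩
  · obtain ⟨e, f, a, i₀, p₀, hz⟩ := h.zero
    refine ⟨ρ.asAlgebraHom a, equivOn_asAlgebraHom ρ hz.a_fix,
      LinearMap.ext fun w => (qd.asAlgebraHom a w).symm, ?_⟩
    rw [← asAlgebraHom_rtr, ← hz.f_tr]
    exact mul (fun u => (hB.equiv.asAlgebraHom f u).symm) g0 g0
      (LinearMap.ext fun u => locBar_f_eps h hz u)
  · obtain ⟨u, rfl⟩ := hB.surj w
    obtain ⟨t, ht⟩ := h.cov1 u
    refine ⟨π t, ?_⟩
    rw [g0, gd, ← map_sub]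
    exact (locBar_mem_sup hB _ _).2 ht
  · obtain ⟨u, rfl⟩ := hB.surj t
    rw [gd] at ht
    rw [g1]
    exact (locBar_mem_aug hB _).2 (h.cov2 u ((locBar_mem_sup hB _ _).1 ht))
  · have hαη : ∀ w, η₀ (α (η₀ w)) = α w := fun w => LinearMap.congr_fun hα0 w
    obtain ⟨b, θ, -, hθJ, hφ⟩ := hB.mackey h (Jac k C) (α ∘ₗ π)
      (fun g _ u => by
        rw [LinearMap.comp_apply, LinearMap.comp_apply, hB.equiv g trivial, hα g trivial])
      (LinearMap.ext fun u => by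
        simp only [LinearMap.comp_apply]
        rw [← g0, hαη])
      (fun x hx u => by rw [LinearMap.comp_apply, (hB.ker _).2 (mem_JU lam hx u), map_zero])
    obtain ⟨b', hb'⟩ := exists_reg_jac b
    obtain ⟨θb, hθb⟩ := hB.exists_desc θ hθJ
    obtain ⟨β, hβ⟩ := locBar_desc_end hB (lam.asAlgebraHom b') fun u hu => lam_mem_JU lam b' hu
    obtain ⟨γ, hγ⟩ := locBar_desc_end hB (lam.asAlgebraHom b * ε₀)
      fun u hu => lam_mem_JU lam b (map_JU h.l0 hu)
    have eβ := locBar_equiv_desc hB hβ (locBar_lam_equiv h b')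
    have eγ : EquivOn ρ ρ ⊤ γ := locBar_equiv_desc hB hγ fun g _ u => by
      rw [Module.End.mul_apply, Module.End.mul_apply, h.r0 g trivial,
        locBar_lam_equiv h b g trivial]
    have hsplit : α = γ + rtr (ρ.linHom ρ) Q ⊤ θb := by
      refine locBar_ext hB fun u => ?_
      have e1 := LinearMap.congr_fun (rtr_comp (S := Q) (ρ'' := ρ) hB.equiv θb) u
      have e2 : θb ∘ₗ π = θ := LinearMap.ext hθb
      rw [e2, LinearMap.comp_apply] at e1
      rw [LinearMap.add_apply, e1, hγ]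
      exact LinearMap.congr_fun hφ u
    have hreg : γ * β * γ = γ := by
      refine locBar_ext hB fun u => ?_
      have hεε : ε₀ (ε₀ u) = ε₀ u := LinearMap.congr_fun h.tt.e00 u
      have e1 := (hB.ker _).2 (mem_JU lam hb' (ε₀ u))
      rw [map_sub, map_mul, map_mul, LinearMap.sub_apply, map_sub, sub_eq_zero] at e1
      rw [Module.End.mul_apply, Module.End.mul_apply, hγ, hβ, hγ]
      simp only [Module.End.mul_apply] at e1 ⊢
      rw [h.l0.asAlgebraHom, h.l0.asAlgebraHom, hεε, e1]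
    have c1 : rtr (ρ.linHom ρ) Q ⊤ θb * (β * α) = rtr (ρ.linHom ρ) Q ⊤ (θb * (β * α)) :=
      rtr_comp (ψ := β * α) (fun g _ w => by
        rw [Module.End.mul_apply, Module.End.mul_apply, hα g trivial, eβ g trivial]) θb
    have c2 : γ * β * rtr (ρ.linHom ρ) Q ⊤ θb = rtr (ρ.linHom ρ) Q ⊤ (γ * β * θb) :=
      comp_rtr (ψ := γ * β) (fun g _ w => by
        rw [Module.End.mul_apply, Module.End.mul_apply, eβ g trivial, eγ g trivial]) θb
    refine ⟨β, θb * (β * α) + γ * β * θb - θb, eβ, ?_⟩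
    rw [map_sub, map_add, ← c1, ← c2]
    generalize rtr (ρ.linHom ρ) Q ⊤ θb = T at hsplit
    have e3 : α * β * α = T * (β * α) + (γ * β * γ + γ * β * T) := by
      rw [← mul_add, ← hsplit, ← mul_assoc, ← add_mul, ← add_mul, add_comm, ← hsplit]
    rw [e3, hreg]
    conv_lhs => rw [hsplit]
    conv_rhs => rw [hsplit]
    abel

/-- A central element vanishing on the centraliser of `D` acts on the degree zero term by a
relatively projective map: `z = rtr Q D w` (`exists_rtr_of_coeff`), left multiplication by `z` on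
`k C` is right multiplication by `z`, and right multiplication by `z f` is the trace from `D` of
right multiplication by `z` composed with the action of `a`. -/
theorem Bar.central (h : LocStruct p ι Q D lam rho ε₀ ε₁ d)
    (hB : Bar lam rho ε₀ ε₁ d π ρ η₀ η₁ δ) {z : MonoidAlgebra k C} (hz : ∀ b, z * b = b * z)
    (h0 : ∀ x, (∀ δ' ∈ D, x * ι δ' = ι δ' * x) → z.coeff x = 0) :
    ∃ θ : Module.End k W, ∀ u,
      π (lam.asAlgebraHom z (ε₀ u)) = rtr (ρ.linHom ρ) Q ⊤ θ (π u) := by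
  obtain ⟨e, f, a, i₀, p₀, hZ⟩ := h.zero
  have hcj : ∀ c : C, cjRep k C c z = z := fun c => by
    rw [cjRep_apply, hz, ← mul_assoc, MonoidAlgebra.single_mul_single, mul_inv_cancel, mul_one,
      ← MonoidAlgebra.one_def, one_mul]
  have hcQ : ∀ q ∈ Q.map ι, ∀ c, q * c = c * q := by
    rintro _ ⟨q, hq, rfl⟩ c
    exact h.ti.cent q hq c
  obtain ⟨w, hw⟩ := exists_rtr_of_coeff (R := k) (Fact.out : p.Prime) (Subgroup.map_mono h.ti.le)
    ((Subgroup.relIndex_map_map_of_injective Q D h.ti.inj).trans h.idx) hcQ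
    (z := z) (fun c _ => hcj c) fun x hx => h0 x fun g hg => hx (ι g) ⟨g, hg, rfl⟩
  have hwQ : FixedBy (cjRep k C) (Q.map ι) w := by
    intro q hq
    ext x
    rw [coeff_cjRep, mul_assoc, ← hcQ q hq, inv_mul_cancel_left]
  have hw' : z = rtr ((cjRep k C).comp ι) Q D w := by
    rw [hw]
    refine (rtr_comp_hom ι (Subgroup.map_mono h.ti.le) h.ti.le (fun g hg => ⟨g, hg, rfl⟩)
      (fun g _ => Subgroup.mem_map_iff_mem h.ti.inj) ?_ hwQ).symm
    rintro _ ⟨g, hg, rfl⟩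
    exact ⟨g, hg, by rw [inv_mul_cancel]; exact Subgroup.one_mem _⟩
  obtain ⟨Rm, hRm⟩ : ∃ Rm : MonoidAlgebra k C →ₗ[k] Module.End k U,
      ∀ x u, Rm x u = i₀ (p₀ u * x) :=
    ⟨LinearMap.llcomp k U _ U i₀ ∘ₗ LinearMap.lcomp k _ p₀ ∘ₗ (LinearMap.mul k _).flip,
      fun _ _ => rfl⟩
  have eR : EquivOn ((cjRep k C).comp ι) (rho.linHom rho) ⊤ Rm := by
    intro g _ x
    refine LinearMap.ext fun u => ?_
    change Rm (cjRep k C (ι g) x) u = rho g (Rm x (rho g⁻¹ u))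
    rw [hRm, hRm, ← hZ.i_right, hZ.p_right, cjRep_apply, map_inv, inv_inv, mul_assoc, mul_assoc]
  have lR : ∀ x, EquivOn lam lam ⊤ (Rm x) := fun x c _ u => by
    rw [hRm, hRm, hZ.p_left, mul_assoc, hZ.i_left]
  have eRz : EquivOn rho rho ⊤ (Rm z) := fixedBy_linHom.1 fun g _ => by
    rw [← eR g trivial]
    exact congrArg Rm (hcj (ι g))
  have eRw : EquivOn rho rho Q (Rm w) := fixedBy_linHom.1 fun g hg => by
    rw [← eR g trivial]
    exact congrArg Rm (hwQ (ι g) ⟨g, hg, rfl⟩)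
  have hRz : Rm z = rtr (rho.linHom rho) Q D (Rm w) := by
    rw [← rtr_map (fun g _ => eR g trivial), ← hw']
  have ea : EquivOn rho rho D (rho.asAlgebraHom a ∘ₗ ε₀) := fun g hg u => by
    rw [LinearMap.comp_apply, LinearMap.comp_apply, h.r0 g trivial,
      equivOn_asAlgebraHom rho hZ.a_fix g hg]
  have hε : rtr (rho.linHom rho) D ⊤ (rho.asAlgebraHom a ∘ₗ ε₀) = ε₀ := by
    rw [← rtr_comp h.r0, ← asAlgebraHom_rtr, ← hZ.f_tr]
    exact LinearMap.ext fun u => locBar_f_eps h hZ u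
  have hfin : Rm z ∘ₗ ε₀ =
      rtr (rho.linHom rho) Q ⊤ (Rm w ∘ₗ (rho.asAlgebraHom a ∘ₗ ε₀)) := by
    rw [← rtr_trans h.ti.le le_top (fixedBy_linHom.2 fun g hg u => by
      rw [LinearMap.comp_apply, ea g (h.ti.le hg), eRw g hg]
      rfl), ← rtr_comp ea, ← hRz, ← comp_rtr eRz, hε]
  obtain ⟨θ, hθ⟩ := locBar_desc_end hB (Rm w ∘ₗ (rho.asAlgebraHom a ∘ₗ ε₀)) fun u hu =>
    map_JU (lR w) (map_JU (locBar_rhoA_equiv h a) (map_JU h.l0 hu))
  refine ⟨θ, fun u => ?_⟩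
  rw [locBar_rtr_desc hB Q hθ, ← hfin, LinearMap.comp_apply, hRm, ← hz, locBar_i_lam hZ,
    locBar_ip_eps hZ]

end Pool.Agent.Lib.MP_b6945b_al.St
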