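import Pool.Agent.Lib.MP_b6945b_al.St.LocBar

set_option autoImplicit false

/-!
Chain maps from the local complex to its quotient by the radical.
-/

namespace Pool.Agent.Lib.MP_b6945b_al.St

variable {k C Γ U W : Type} [Field k] [Group C] [Fintype C] [Group Γ] [Fintype Γ]
  [AddCommGroup U] [Module k U] [FiniteDimensional k U] [AddCommGroup W] [Module k W]
  {p : ℕ} [Fact p.Prime] [CharP k p] {ι : Γ →* C} {Q D : Subgroup Γ}
  {lam : Representation k C U} {rho : Representation k Γ U} {ε₀ ε₁ d : Module.End k U}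
  {π : U →ₗ[k] W} {ρ : Representation k Γ W} {η₀ η₁ δ : Module.End k W}

omit [FiniteDimensional k U] [Fact p.Prime] [CharP k p] in
lemma local2_comm (h : LocStruct p ι Q D lam rho ε₀ ε₁ d) (x : MonoidAlgebra k C) :
    EquivOn rho rho ⊤ (lam.asAlgebraHom x) := fun g _ u =>
  (EquivOn.asAlgebraHom (lam := lam) (lam' := lam) (φ := rho g)
    (fun c _ v => (h.comm c g v).symm) x u).symm

omit [Fintype C] [FiniteDimensional k U] in
lemma local2_mul (lam : Representation k C U) (x y : MonoidAlgebra k C) (u : U) :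
    lam.asAlgebraHom (x * y) u = lam.asAlgebraHom x (lam.asAlgebraHom y u) := by
  rw [map_mul]
  rfl

omit [Fintype C] [Fintype Γ] [FiniteDimensional k U] in
lemma local2_pi (hB : Bar lam rho ε₀ ε₁ d π ρ η₀ η₁ δ) {j : MonoidAlgebra k C}
    (hj : j ∈ Jac k C) (u : U) : π (lam.asAlgebraHom j u) = 0 :=
  (hB.ker _).2 (mem_JU lam hj u)

omit [Fintype Γ] [FiniteDimensional k U] in
lemma local2_tt {V : Type} [AddCommGroup V] [Module k V] {a b c : Module.End k V}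
    (h : TwoTerm a b c) : (∀ u, a (a u) = a u) ∧ (∀ u, b (b u) = b u) ∧ (∀ u, a (b u) = 0) ∧
      (∀ u, b (a u) = 0) ∧ (∀ u, a (c u) = c u) ∧ (∀ u, c (b u) = c u) ∧ (∀ u, b (c u) = 0) ∧
      (∀ u, c (a u) = 0) ∧ ∀ u, c (c u) = 0 := by
  have h1 : ∀ u, b (a u) = 0 := LinearMap.congr_fun h.e10
  have h2 : ∀ u, a (c u) = c u := LinearMap.congr_fun h.d0
  have h3 : ∀ u, c (b u) = c u := LinearMap.congr_fun h.d1
  have h4 : ∀ u, b (c u) = 0 := fun u => by rw [← h2, h1]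
  exact ⟨LinearMap.congr_fun h.e00, LinearMap.congr_fun h.e11, LinearMap.congr_fun h.e01, h1, h2,
    h3, h4, fun u => by rw [← h3, h1, map_zero], fun u => by rw [← h3, h4, map_zero]⟩

/-- A chain map that kills the radical and whose degree zero part is a relative trace is
null-homotopic on the quotient. -/
lemma local2_desc (h : LocStruct p ι Q D lam rho ε₀ ε₁ d) (hB : Bar lam rho ε₀ ε₁ d π ρ η₀ η₁ δ)
    {a θ : U →ₗ[k] W} (ha : EquivOn rho ρ ⊤ a)
    (hb : ∀ u, η₀ (a (ε₀ u)) + η₁ (a (ε₁ u)) = a u) (hc : ∀ u, a (d u) = δ (a u))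
    (hn : ∀ x ∈ Jac k C, ∀ u, a (lam.asAlgebraHom x u) = 0)
    (hθ : ∀ x ∈ Jac k C, ∀ u, θ (lam.asAlgebraHom x u) = 0)
    (h0 : ∀ u, η₀ (a (ε₀ u)) = rtr (rho.linHom ρ) Q ⊤ θ u) :
    ∃ y : Module.End k W, EquivOn ρ ρ ⊤ y ∧ η₁ * y * η₀ = y ∧
      ∀ u, a u = δ (y (π u)) + y (δ (π u)) := by
  have : FiniteDimensional k W := Module.Finite.of_surjective π hB.surj
  obtain ⟨b, hb'⟩ := hB.exists_desc a hn
  obtain ⟨θ', hθ'⟩ := hB.exists_desc θ hθ
  have e1 : θ = θ' ∘ₗ π := LinearMap.ext fun u => (hθ' u).symm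
  obtain ⟨y, h1, h2, h3⟩ := (hB.heartI h).h2 (b := b) (fun g hg w => by
      obtain ⟨u, rfl⟩ := hB.surj w
      rw [← hB.equiv g hg, hb', hb', ha g hg])
    (LinearMap.ext fun w => by
      obtain ⟨u, rfl⟩ := hB.surj w
      change η₀ (b (η₀ (π u))) + η₁ (b (η₁ (π u))) = b (π u)
      rw [← hB.h0, ← hB.h1, hb', hb', hb', hb])
    (LinearMap.ext fun w => by
      obtain ⟨u, rfl⟩ := hB.surj w
      change b (δ (π u)) = δ (b (π u))
      rw [← hB.hd, hb', hb', hc]) θ'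
    (LinearMap.ext fun w => by
      obtain ⟨u, rfl⟩ := hB.surj w
      change η₀ (b (η₀ (π u))) = _
      rw [← hB.h0, hb', h0, e1, ← rtr_comp hB.equiv]
      rfl)
  refine ⟨y, h1, h2, fun u => ?_⟩
  rw [← hb', h3]
  rfl

/-- The equivariant maps of degree one. -/
def local2_H (ρ : Representation k Γ W) (η₀ η₁ : Module.End k W) :
    Submodule k (Module.End k W) where
  carrier := {y | EquivOn ρ ρ ⊤ y ∧ η₁ * y * η₀ = y}
  add_mem' := by
    rintro y z ⟨h1, h2⟩ ⟨h3, h4⟩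
    refine ⟨fun g hg w => ?_, by rw [mul_add, add_mul, h2, h4]⟩
    rw [LinearMap.add_apply, LinearMap.add_apply, h1 g hg, h3 g hg, map_add]
  zero_mem' := ⟨fun g _ w => by simp, by simp⟩
  smul_mem' := by
    rintro c y ⟨h1, h2⟩
    refine ⟨fun g hg w => ?_, by rw [mul_smul_comm, smul_mul_assoc, h2]⟩
    rw [LinearMap.smul_apply, LinearMap.smul_apply, h1 g hg, map_smul]

/-- The homotopy depends linearly on the null-homotopic map. -/
lemma local2_inv (h : LocStruct p ι Q D lam rho ε₀ ε₁ d) (hB : Bar lam rho ε₀ ε₁ d π ρ η₀ η₁ δ) :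
    ∃ Y : (U →ₗ[k] W) →ₗ[k] Module.End k W, ∀ (a : U →ₗ[k] W) (y : Module.End k W),
      EquivOn ρ ρ ⊤ y → η₁ * y * η₀ = y → (∀ u, a u = δ (y (π u)) + y (δ (π u))) → Y a = y := by
  have : FiniteDimensional k W := Module.Finite.of_surjective π hB.surj
  have hH := hB.heartI h
  obtain ⟨-, -, t3, -, t5, -⟩ := local2_tt hH.tt
  let Δ : local2_H ρ η₀ η₁ →ₗ[k] (U →ₗ[k] W) :=
    { toFun := fun y => (δ * y.1 + y.1 * δ) ∘ₗ π
      map_add' := fun y z => by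
        ext u
        simp only [Submodule.coe_add, LinearMap.comp_apply, LinearMap.add_apply,
          Module.End.mul_apply, map_add]
        abel
      map_smul' := fun c y => by
        ext u
        simp only [Submodule.coe_smul, LinearMap.comp_apply, LinearMap.add_apply,
          Module.End.mul_apply, LinearMap.smul_apply, map_smul, RingHom.id_apply, smul_add] }
  obtain ⟨Y, hY⟩ := Δ.exists_leftInverse_of_injective (LinearMap.ker_eq_bot'.2 fun y hy => by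
    have h1 : ∀ w, δ (y.1 w) + y.1 (δ w) = 0 := fun w => by
      obtain ⟨u, rfl⟩ := hB.surj w
      exact LinearMap.congr_fun hy u
    have h2 : ∀ w, η₁ (y.1 (η₀ w)) = y.1 w := LinearMap.congr_fun y.2.2
    have h3 : ∀ w, δ (y.1 w) = 0 := fun w => by
      have h4 := congrArg η₀ (h1 w)
      rwa [map_add, t5, ← h2 (δ w), t3, add_zero, map_zero] at h4
    refine Subtype.ext (hH.h1 y.2.1 y.2.2 (LinearMap.ext fun w => ?_) (LinearMap.ext h3))
    have h4 := h1 w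
    rwa [h3, zero_add] at h4)
  refine ⟨(local2_H ρ η₀ η₁).subtype ∘ₗ Y, fun a y h1 h2 h3 => ?_⟩
  have e : a = Δ ⟨y, h1, h2⟩ := LinearMap.ext h3
  rw [e, LinearMap.comp_apply, ← LinearMap.comp_apply Y, hY]
  rfl

/-- One step of the dévissage.  By `Bar.mackey` with `I = J ^ (n + 2)`, for `x ∈ J ^ (n + 1)` the
map `a ∘ lam x` descends to a chain map of `W` whose degree zero part is a relative trace, so
(`HeartI.h2`) it is `δ y + y δ` for a unique (`HeartI.h1`) `y = Y x`.  `Y` is linear,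
`Y (x c) π = Y x π lam c`, and `Y x = 0` for `x` in the span `A` of the `(ι q - 1) c`, since
`a ∘ lam x = 0`.  Extend `Y` linearly to the group algebra, killing `A`.  With `ψ i, v i` from
`exists_coords` put `θ u = ∑ i, Y (ψ i u) (π (v i))`; then `θ (lam x u) = Y x (π u)` and `θ` is
`Q`-invariant.  Average: `y = η₁ rtr (ιb θ) ε₀` with `ιb` from `HeartI.higT`. -/
lemma Bar.step (h : LocStruct p ι Q D lam rho ε₀ ε₁ d) (hB : Bar lam rho ε₀ ε₁ d π ρ η₀ η₁ δ)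
    (n : ℕ) {a : U →ₗ[k] W} (ha : EquivOn rho ρ ⊤ a)
    (hb : η₀ ∘ₗ a ∘ₗ ε₀ + η₁ ∘ₗ a ∘ₗ ε₁ = a) (hc : a ∘ₗ d = δ ∘ₗ a)
    (hn : ∀ x ∈ Jac k C ^ (n + 2), ∀ u, a (lam.asAlgebraHom x u) = 0) :
    ∃ y : U →ₗ[k] W, EquivOn rho ρ ⊤ y ∧ η₁ ∘ₗ y ∘ₗ ε₀ = y ∧
      ∀ x ∈ Jac k C ^ (n + 1), ∀ u,
        (a - (δ ∘ₗ y + y ∘ₗ d)) (lam.asAlgebraHom x u) = 0 := by
  have hH := hB.heartI h
  obtain ⟨s1, -, -, -, -, -⟩ := local2_tt h.tt
  obtain ⟨t1, t2, -, -, -, -⟩ := local2_tt hH.tt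
  have hb' : ∀ u, η₀ (a (ε₀ u)) + η₁ (a (ε₁ u)) = a u := LinearMap.congr_fun hb
  have hc' : ∀ u, a (d u) = δ (a u) := LinearMap.congr_fun hc
  have hJ : ∀ x ∈ Jac k C ^ (n + 1), x ∈ Jac k C := fun x hx => Ideal.pow_le_self n.succ_ne_zero hx
  have hJJ : ∀ x ∈ Jac k C ^ (n + 1), ∀ j ∈ Jac k C, x * j ∈ Jac k C ^ (n + 2) :=
    fun x hx j hj => Ideal.mul_mem_mul hx hj
  obtain ⟨b, θ₀, -, hθ₀, hφ⟩ := hB.mackey h (Jac k C ^ (n + 2)) (η₀ ∘ₗ a ∘ₗ ε₀)
    (fun g hg u => by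
      simp only [LinearMap.comp_apply]
      rw [h.r0 g hg, ha g hg, hH.eq0 g hg])
    (LinearMap.ext fun u => by simp only [LinearMap.comp_apply, s1, t1])
    (fun x hx u => by
      simp only [LinearMap.comp_apply]
      rw [h.l0.asAlgebraHom, hn x hx, map_zero])
  obtain ⟨Y, hY⟩ := local2_inv h hB
  have key : ∀ x ∈ Jac k C ^ (n + 1), EquivOn ρ ρ ⊤ (Y (a ∘ₗ lam.asAlgebraHom x)) ∧
      η₁ * Y (a ∘ₗ lam.asAlgebraHom x) * η₀ = Y (a ∘ₗ lam.asAlgebraHom x) ∧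
      ∀ u, a (lam.asAlgebraHom x u) =
        δ (Y (a ∘ₗ lam.asAlgebraHom x) (π u)) + Y (a ∘ₗ lam.asAlgebraHom x) (δ (π u)) := by
    intro x hx
    obtain ⟨y, h1, h2, h3⟩ := local2_desc h hB (a := a ∘ₗ lam.asAlgebraHom x)
      (θ := θ₀ ∘ₗ lam.asAlgebraHom x)
      (fun g hg u => by
        simp only [LinearMap.comp_apply]
        rw [local2_comm h x g hg, ha g hg])
      (fun u => by
        simp only [LinearMap.comp_apply]
        rw [← h.l0.asAlgebraHom, ← h.l1.asAlgebraHom, hb'])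
      (fun u => by
        simp only [LinearMap.comp_apply]
        rw [← h.ld.asAlgebraHom, hc'])
      (fun j hj u => by
        rw [LinearMap.comp_apply, ← local2_mul, hn _ (hJJ x hx j hj)])
      (fun j hj u => by
        rw [LinearMap.comp_apply, ← local2_mul, hθ₀ _ (hJJ x hx j hj)])
      (fun u => by
        have e := LinearMap.congr_fun hφ (lam.asAlgebraHom x u)
        simp only [LinearMap.comp_apply, LinearMap.add_apply] at e
        rw [LinearMap.comp_apply, ← h.l0.asAlgebraHom, e, h.l0.asAlgebraHom, ← local2_mul,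
          local2_pi hB (Ideal.mul_mem_left _ b (hJ x hx)), zero_add,
          ← rtr_comp (local2_comm h x)]
        rfl)
    rw [hY _ y h1 h2 h3]
    exact ⟨h1, h2, h3⟩
  have hmul : ∀ x ∈ Jac k C ^ (n + 1), ∀ m u, Y (a ∘ₗ lam.asAlgebraHom (x * m)) (π u) =
      Y (a ∘ₗ lam.asAlgebraHom x) (π (lam.asAlgebraHom m u)) := by
    intro x hx m u
    obtain ⟨h1, h2, h3⟩ := key x hx
    have h2' : ∀ w, η₁ (Y (a ∘ₗ lam.asAlgebraHom x) (η₀ w)) = Y (a ∘ₗ lam.asAlgebraHom x) w :=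
      LinearMap.congr_fun h2
    obtain ⟨μ, hμ⟩ := hB.exists_desc (π ∘ₗ lam.asAlgebraHom m) fun j hj u => by
      rw [LinearMap.comp_apply, ← local2_mul, local2_pi hB (Ideal.mul_mem_left _ m hj)]
    simp only [LinearMap.comp_apply] at hμ
    rw [hY _ (Y (a ∘ₗ lam.asAlgebraHom x) * μ) (fun g hg w => by
        obtain ⟨v, rfl⟩ := hB.surj w
        simp only [Module.End.mul_apply]
        rw [← hB.equiv g hg, hμ, hμ, local2_comm h m g hg, hB.equiv g hg, h1 g hg])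
      (LinearMap.ext fun w => by
        obtain ⟨v, rfl⟩ := hB.surj w
        simp only [Module.End.mul_apply]
        rw [← hB.h0, hμ, hμ, ← h.l0.asAlgebraHom, hB.h0, h2'])
      (fun v => by
        simp only [Module.End.mul_apply, LinearMap.comp_apply]
        rw [local2_mul, h3, ← hB.hd v, hμ, hμ, ← h.ld.asAlgebraHom, hB.hd]),
      Module.End.mul_apply, hμ]
  obtain ⟨r, ψ, v, hψ, hv⟩ := exists_coords lam h.higL
  let T : MonoidAlgebra k C →ₗ[k] Module.End k W :=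
    Y ∘ₗ LinearMap.llcomp k U U W a ∘ₗ lam.asAlgebraHom.toLinearMap
  have hT : ∀ x, T x = Y (a ∘ₗ lam.asAlgebraHom x) := fun x => rfl
  let θ : U →ₗ[k] W := ∑ i, (T.flip (π (v i))) ∘ₗ ψ i
  have hθ : ∀ u, θ u = ∑ i, Y (a ∘ₗ lam.asAlgebraHom (ψ i u)) (π (v i)) := fun u => by
    simp only [θ, LinearMap.sum_apply, LinearMap.comp_apply, LinearMap.flip_apply, hT]
  have hθ1 : ∀ x ∈ Jac k C ^ (n + 1), ∀ u,
      θ (lam.asAlgebraHom x u) = Y (a ∘ₗ lam.asAlgebraHom x) (π u) := by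
    intro x hx u
    rw [hθ]
    simp only [hψ, hmul x hx]
    rw [← map_sum, ← map_sum, hv]
  have hθ2 : ∀ q ∈ Q, ∀ u, θ (rho q u) = θ u := by
    intro q hq u
    have e1 : ∀ w, rho q w = lam.asAlgebraHom (MonoidAlgebra.single (ι q⁻¹) 1) w := fun w => by
      have e2 := h.diag q⁻¹ (inv_mem hq) (rho q w)
      rw [← Module.End.mul_apply (rho q⁻¹), ← map_mul, inv_mul_cancel, map_one,
        Module.End.one_apply] at e2
      rw [Representation.asAlgebraHom_single_one, e2]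
    rw [hθ, hθ]
    refine Finset.sum_congr rfl fun i _ => ?_
    have e3 : a ∘ₗ lam.asAlgebraHom (ψ i (rho q u)) = a ∘ₗ lam.asAlgebraHom (ψ i u) := by
      refine LinearMap.ext fun w => ?_
      rw [LinearMap.comp_apply, LinearMap.comp_apply, e1, hψ, local2_mul, ← e1,
        ha q (Subgroup.mem_top q), hH.triv q hq]
    rw [e3]
  obtain ⟨ιb, hι⟩ := hH.higT
  have hι' : ∀ w, rtr (ρ.linHom ρ) Q ⊤ ιb (η₁ w) = η₁ w := LinearMap.congr_fun hι
  have hfix : EquivOn rho ρ ⊤ (rtr (rho.linHom ρ) Q ⊤ (ιb ∘ₗ θ)) :=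
    fixedBy_linHom.1 (rtr_fixed le_top (fixedBy_linHom.2 fun q hq u => by
      rw [hH.triv q hq, LinearMap.comp_apply, LinearMap.comp_apply, hθ2 q hq]))
  refine ⟨η₁ ∘ₗ rtr (rho.linHom ρ) Q ⊤ (ιb ∘ₗ θ) ∘ₗ ε₀, fun g hg u => ?_,
    LinearMap.ext fun u => ?_, fun x hx u => ?_⟩
  · simp only [LinearMap.comp_apply]
    rw [h.r0 g hg, hfix g hg, hH.eq1 g hg]
  · simp only [LinearMap.comp_apply, s1, t2]
  · obtain ⟨h1, h2, h3⟩ := key x hx
    have h2' : ∀ w, η₁ (Y (a ∘ₗ lam.asAlgebraHom x) (η₀ w)) = Y (a ∘ₗ lam.asAlgebraHom x) w :=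
      LinearMap.congr_fun h2
    have e1 : (ιb ∘ₗ θ) ∘ₗ lam.asAlgebraHom x = ιb ∘ₗ (Y (a ∘ₗ lam.asAlgebraHom x) ∘ₗ π) :=
      LinearMap.ext fun w => by simp only [LinearMap.comp_apply, hθ1 x hx]
    have e2 : EquivOn rho ρ ⊤ (Y (a ∘ₗ lam.asAlgebraHom x) ∘ₗ π) := fun g hg w => by
      simp only [LinearMap.comp_apply]
      rw [hB.equiv g hg, h1 g hg]
    have e3 := rtr_comp (S := Q) (ρ'' := ρ) (local2_comm h x) (ιb ∘ₗ θ)
    rw [e1, ← rtr_comp e2] at e3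
    have e4 : ∀ w, η₁ (rtr (rho.linHom ρ) Q ⊤ (ιb ∘ₗ θ) (ε₀ (lam.asAlgebraHom x w))) =
        Y (a ∘ₗ lam.asAlgebraHom x) (π w) := fun w => by
      have e5 := LinearMap.congr_fun e3 (ε₀ w)
      simp only [LinearMap.comp_apply] at e5
      rw [h.l0.asAlgebraHom, e5, hB.h0, ← h2', hι', t2, t1, h2']
    simp only [LinearMap.sub_apply, LinearMap.add_apply, LinearMap.comp_apply]
    rw [h.ld.asAlgebraHom, e4, e4, h3, hB.hd, sub_self]

/-- The last step: `Bar.mackey` with `I = J` and `HeartI.h2`. -/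
lemma Bar.base (h : LocStruct p ι Q D lam rho ε₀ ε₁ d) (hB : Bar lam rho ε₀ ε₁ d π ρ η₀ η₁ δ)
    {a : U →ₗ[k] W} (ha : EquivOn rho ρ ⊤ a)
    (hb : η₀ ∘ₗ a ∘ₗ ε₀ + η₁ ∘ₗ a ∘ₗ ε₁ = a) (hc : a ∘ₗ d = δ ∘ₗ a)
    (hn : ∀ x ∈ Jac k C, ∀ u, a (lam.asAlgebraHom x u) = 0) :
    ∃ (b : MonoidAlgebra k C) (y : U →ₗ[k] W), EquivOn rho ρ ⊤ y ∧ η₁ ∘ₗ y ∘ₗ ε₀ = y ∧
      a = π ∘ₗ lam.asAlgebraHom b ∘ₗ (ε₀ + ε₁) + (δ ∘ₗ y + y ∘ₗ d) := by
  have hH := hB.heartI h
  obtain ⟨s1, s2, s3, s4, s5, s6, s7, s8, -⟩ := local2_tt h.tt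
  obtain ⟨t1, -⟩ := local2_tt hH.tt
  have hb' : ∀ u, η₀ (a (ε₀ u)) + η₁ (a (ε₁ u)) = a u := LinearMap.congr_fun hb
  have hc' : ∀ u, a (d u) = δ (a u) := LinearMap.congr_fun hc
  obtain ⟨b, θ, -, hθ, hφ⟩ := hB.mackey h (Jac k C) (η₀ ∘ₗ a ∘ₗ ε₀)
    (fun g hg u => by
      simp only [LinearMap.comp_apply]
      rw [h.r0 g hg, ha g hg, hH.eq0 g hg])
    (LinearMap.ext fun u => by simp only [LinearMap.comp_apply, s1, t1])
    (fun x hx u => by
      simp only [LinearMap.comp_apply]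
      rw [h.l0.asAlgebraHom, hn x hx, map_zero])
  obtain ⟨y, h1, h2, h3⟩ := local2_desc h hB (a := a - π ∘ₗ lam.asAlgebraHom b ∘ₗ (ε₀ + ε₁))
    (θ := θ)
    (fun g hg u => by
      simp only [LinearMap.sub_apply, LinearMap.add_apply, LinearMap.comp_apply]
      rw [h.r0 g hg, h.r1 g hg, ← map_add, local2_comm h b g hg, ha g hg, hB.equiv g hg, map_sub])
    (fun u => by
      simp only [LinearMap.sub_apply, LinearMap.add_apply, LinearMap.comp_apply, s1, s2, s3, s4,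
        add_zero, zero_add, map_sub, map_add]
      rw [← hB.h0, ← hB.h1, h.l0.asAlgebraHom, h.l1.asAlgebraHom, s1, s2, ← hb' u]
      abel)
    (fun u => by
      simp only [LinearMap.sub_apply, LinearMap.add_apply, LinearMap.comp_apply, s5, s7,
        add_zero, map_sub]
      rw [hc', ← hB.hd, h.ld.asAlgebraHom, map_add, s8, s6, zero_add])
    (fun j hj u => by
      simp only [LinearMap.sub_apply, LinearMap.add_apply, LinearMap.comp_apply]
      rw [hn j hj, h.l0.asAlgebraHom, h.l1.asAlgebraHom, ← map_add, ← local2_mul,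
        local2_pi hB (Ideal.mul_mem_left _ b hj), sub_self])
    hθ
    (fun u => by
      have e := LinearMap.congr_fun hφ u
      simp only [LinearMap.comp_apply, LinearMap.add_apply] at e
      simp only [LinearMap.sub_apply, LinearMap.add_apply, LinearMap.comp_apply, s1, s4,
        add_zero, map_sub]
      rw [e, ← hB.h0, h.l0.asAlgebraHom, s1, add_sub_cancel_left])
  have h2' : ∀ w, η₁ (y (η₀ w)) = y w := LinearMap.congr_fun h2
  refine ⟨b, y ∘ₗ π, fun g hg u => ?_, LinearMap.ext fun u => ?_, LinearMap.ext fun u => ?_⟩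
  · simp only [LinearMap.comp_apply]
    rw [hB.equiv g hg, h1 g hg]
  · simp only [LinearMap.comp_apply]
    rw [hB.h0, h2']
  · have e := h3 u
    simp only [LinearMap.sub_apply, LinearMap.add_apply, LinearMap.comp_apply] at e ⊢
    rw [hB.hd, ← e, add_sub_cancel]

/-- Descending induction from `jac_nilpotent`. -/
theorem Bar.gen (h : LocStruct p ι Q D lam rho ε₀ ε₁ d) (hB : Bar lam rho ε₀ ε₁ d π ρ η₀ η₁ δ)
    {a : U →ₗ[k] W} (ha : EquivOn rho ρ ⊤ a)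
    (hb : η₀ ∘ₗ a ∘ₗ ε₀ + η₁ ∘ₗ a ∘ₗ ε₁ = a) (hc : a ∘ₗ d = δ ∘ₗ a) :
    ∃ (b : MonoidAlgebra k C) (y : U →ₗ[k] W), EquivOn rho ρ ⊤ y ∧ η₁ ∘ₗ y ∘ₗ ε₀ = y ∧
      a = π ∘ₗ lam.asAlgebraHom b ∘ₗ (ε₀ + ε₁) + (δ ∘ₗ y + y ∘ₗ d) := by
  have hH := hB.heartI h
  obtain ⟨s1, -, s3, -, s5, s6, -, s8, s9⟩ := local2_tt h.tt
  obtain ⟨-, t2, t3, -, t5, -, t7, -, t9⟩ := local2_tt hH.tt
  have key : ∀ (m : ℕ) (a : U →ₗ[k] W), EquivOn rho ρ ⊤ a →
      η₀ ∘ₗ a ∘ₗ ε₀ + η₁ ∘ₗ a ∘ₗ ε₁ = a → a ∘ₗ d = δ ∘ₗ a →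
      (∀ x ∈ Jac k C ^ (m + 1), ∀ u, a (lam.asAlgebraHom x u) = 0) →
      ∃ (b : MonoidAlgebra k C) (y : U →ₗ[k] W), EquivOn rho ρ ⊤ y ∧ η₁ ∘ₗ y ∘ₗ ε₀ = y ∧
        a = π ∘ₗ lam.asAlgebraHom b ∘ₗ (ε₀ + ε₁) + (δ ∘ₗ y + y ∘ₗ d) := by
    intro m
    induction m with
    | zero =>
      intro a ha hb hc hn
      exact hB.base h ha hb hc fun x hx => hn x (by rwa [Nat.zero_add, Submodule.pow_one])
    | succ m ih =>
      intro a ha hb hc hn
      obtain ⟨y, h1, h2, h3⟩ := hB.step h m ha hb hc hn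
      have hb' : ∀ u, η₀ (a (ε₀ u)) + η₁ (a (ε₁ u)) = a u := LinearMap.congr_fun hb
      have hc' : ∀ u, a (d u) = δ (a u) := LinearMap.congr_fun hc
      have h2' : ∀ u, η₁ (y (ε₀ u)) = y u := LinearMap.congr_fun h2
      have y0 : ∀ u, y (ε₀ u) = y u := fun u => by rw [← h2', s1, h2']
      have y1 : ∀ u, η₁ (y u) = y u := fun u => by rw [← h2', t2]
      obtain ⟨b, z, h4, h5, h6⟩ := ih (a - (δ ∘ₗ y + y ∘ₗ d))
        (fun g hg u => by
          simp only [LinearMap.sub_apply, LinearMap.add_apply, LinearMap.comp_apply]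
          rw [ha g hg, h.rd g hg, h1 g hg, h1 g hg, hH.eqd g hg, map_sub, map_add])
        (LinearMap.ext fun u => by
          simp only [LinearMap.sub_apply, LinearMap.add_apply, LinearMap.comp_apply, map_sub,
            map_add, y0, y1, s8, s6, t5, t7, map_zero, add_zero, zero_add]
          rw [← hb' u]
          abel)
        (LinearMap.ext fun u => by
          simp only [LinearMap.sub_apply, LinearMap.add_apply, LinearMap.comp_apply, map_sub,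
            map_add, s9, t9, hc', map_zero, add_zero, zero_add]) h3
      have h5' : ∀ u, η₁ (z (ε₀ u)) = z u := LinearMap.congr_fun h5
      refine ⟨b, z + y, fun g hg u => ?_, LinearMap.ext fun u => ?_, ?_⟩
      · rw [LinearMap.add_apply, LinearMap.add_apply, h4 g hg, h1 g hg, map_add]
      · simp only [LinearMap.add_apply, LinearMap.comp_apply, map_add, h5', h2']
      · rw [sub_eq_iff_eq_add.1 h6, LinearMap.comp_add z y δ, LinearMap.add_comp]
        abel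
  obtain ⟨N, hN⟩ := jac_nilpotent (k := k) (C := C)
  refine key N a ha hb hc fun x hx u => ?_
  have hx' : x ∈ Jac k C ^ N := Ideal.pow_le_pow_right N.le_succ hx
  rw [hN, Ideal.mem_bot] at hx'
  rw [hx', map_zero, LinearMap.zero_apply, map_zero]

omit [FiniteDimensional k U] [Fact p.Prime] [CharP k p] in
/-- Homotopies lift, `U` being projective for the right action (`higR`). -/
lemma Bar.lift (h : LocStruct p ι Q D lam rho ε₀ ε₁ d) (hB : Bar lam rho ε₀ ε₁ d π ρ η₀ η₁ δ)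
    {y : U →ₗ[k] W} (hy : EquivOn rho ρ ⊤ y) (h0 : η₁ ∘ₗ y ∘ₗ ε₀ = y) :
    ∃ y' : Module.End k U, EquivOn rho rho ⊤ y' ∧ ε₁ * y' * ε₀ = y' ∧ π ∘ₗ y' = y := by
  obtain ⟨s1, s2, -⟩ := local2_tt h.tt
  obtain ⟨ι', hι⟩ := h.higR
  obtain ⟨s, hs⟩ := π.exists_rightInverse_of_surjective (LinearMap.range_eq_top.2 hB.surj)
  have hs' : ∀ w, π (s w) = w := LinearMap.congr_fun hs
  have h0' : ∀ u, η₁ (y (ε₀ u)) = y u := LinearMap.congr_fun h0
  have hfix : EquivOn rho rho ⊤ (rtr (rho.linHom rho) ⊥ ⊤ (s ∘ₗ y ∘ₗ ι')) :=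
    fixedBy_linHom.1 (rtr_fixed le_top fun g hg => by
      rw [Subgroup.mem_bot.1 hg, map_one, Module.End.one_apply])
  have hπ : ∀ u, π (rtr (rho.linHom rho) ⊥ ⊤ (s ∘ₗ y ∘ₗ ι') u) = y u := fun u => by
    rw [rtr_bot_top, LinearMap.sum_apply, map_sum]
    conv_rhs => rw [← hι u, map_sum]
    refine Finset.sum_congr rfl fun g _ => ?_
    simp only [Representation.linHom_apply, LinearMap.comp_apply]
    rw [hB.equiv g (Subgroup.mem_top g), hs', hy g (Subgroup.mem_top g)]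
  refine ⟨ε₁ * rtr (rho.linHom rho) ⊥ ⊤ (s ∘ₗ y ∘ₗ ι') * ε₀, fun g hg u => ?_,
    LinearMap.ext fun u => ?_, LinearMap.ext fun u => ?_⟩
  · simp only [Module.End.mul_apply]
    rw [h.r0 g hg, hfix g hg, h.r1 g hg]
  · simp only [Module.End.mul_apply, s1, s2]
  · simp only [Module.End.mul_apply, LinearMap.comp_apply]
    rw [hB.h1, hπ, h0']

end Pool.Agent.Lib.MP_b6945b_al.St
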