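import Pool.Agent.Lib.MP_b6945b_al.St.Local1
import Pool.Agent.Lib.MP_b6945b_al.St.Local2

set_option autoImplicit false

/-!
Chain endomorphisms of the local complex are homotopic to left multiplications.
-/

namespace Pool.Agent.Lib.MP_b6945b_al.St

variable {k C Γ U : Type} [Field k] [IsAlgClosed k] [Group C] [Fintype C] [Group Γ] [Fintype Γ]
  [AddCommGroup U] [Module k U] [FiniteDimensional k U]
  {p : ℕ} [Fact p.Prime] [CharP k p] {ι : Γ →* C} {Q D : Subgroup Γ}
  {lam : Representation k C U} {rho : Representation k Γ U} {ε₀ ε₁ d : Module.End k U}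

section aux

omit [IsAlgClosed k] [FiniteDimensional k U] [Fact p.Prime] [CharP k p]

omit [Fintype C] [Fintype Γ] [Group C] in
lemma local3_iff {a : Module.End k U} :
    EquivOn rho rho ⊤ a ↔ ∀ g, a * rho g = rho g * a :=
  ⟨fun h g => LinearMap.ext fun u => h g trivial u,
    fun h g _ u => LinearMap.congr_fun (h g) u⟩

/-- The equivariant maps as a subalgebra. -/
def local3E (rho : Representation k Γ U) : Subalgebra k (Module.End k U) :=
  Subalgebra.centralizer k (Set.range rho)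

omit [Fintype C] [Fintype Γ] [Group C] in
lemma local3_mem {a : Module.End k U} : a ∈ local3E rho ↔ EquivOn rho rho ⊤ a := by
  rw [local3_iff, local3E, Subalgebra.mem_centralizer_iff]
  simp only [Set.forall_mem_range]
  exact forall_congr' fun g => eq_comm

omit [Fintype C] [Fintype Γ] in
lemma local3_comm {φ : Module.End k U} (hφ : EquivOn lam lam ⊤ φ) (b : MonoidAlgebra k C) :
    φ * lam.asAlgebraHom b = lam.asAlgebraHom b * φ :=
  LinearMap.ext fun u => hφ.asAlgebraHom b u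

lemma local3_lam (h : LocStruct p ι Q D lam rho ε₀ ε₁ d) (b : MonoidAlgebra k C) :
    lam.asAlgebraHom b ∈ local3E rho := by
  rw [local3_mem, local3_iff]
  intro g
  have : EquivOn lam lam ⊤ (rho g) := fun c _ u => (h.comm c g u).symm
  exact (local3_comm this b).symm

omit [Fintype C] [Group C] in
lemma local3_avg (w : Module.End k U) : ∑ g, rho g * w * rho g⁻¹ ∈ local3E rho := by
  rw [local3_mem, local3_iff]
  intro g
  rw [Finset.sum_mul, Finset.mul_sum, ← Equiv.sum_comp (Equiv.mulLeft g)]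
  refine Finset.sum_congr rfl fun x _ => ?_
  simp only [Equiv.coe_mulLeft, mul_inv_rev, map_mul, mul_assoc]
  rw [← map_mul rho g⁻¹ g, inv_mul_cancel, map_one, mul_one]

omit [Fintype C] [Group C] in
lemma local3_avg_mul {w : Module.End k U} (hw : w ∈ local3E rho) {ιR : Module.End k U}
    (hR : ∀ u, ∑ g, rho g (ιR (rho g⁻¹ u)) = u) : ∑ g, rho g * (w * ιR) * rho g⁻¹ = w := by
  have h1 := local3_iff.1 (local3_mem.1 hw)
  refine LinearMap.ext fun u => ?_
  conv_rhs => rw [← hR u]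
  rw [map_sum, LinearMap.sum_apply]
  refine Finset.sum_congr rfl fun g _ => ?_
  exact (LinearMap.congr_fun (h1 g) _).symm

lemma local3_null_left (h : LocStruct p ι Q D lam rho ε₀ ε₁ d) (b : MonoidAlgebra k C)
    {a : Module.End k U} (ha : IsNull rho ε₀ ε₁ d a) :
    IsNull rho ε₀ ε₁ d (lam.asAlgebraHom b * a) := by
  obtain ⟨y, h1, h2, h3⟩ := ha
  refine ⟨lam.asAlgebraHom b * y, local3_mem.1 (mul_mem (local3_lam h b) (local3_mem.2 h1)), ?_, ?_⟩
  · rw [← mul_assoc, local3_comm h.l1, mul_assoc, mul_assoc, ← mul_assoc ε₁, h2]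
  · rw [h3, mul_add, ← mul_assoc, ← local3_comm h.ld, mul_assoc, mul_assoc]

omit [Fintype C] [Fintype Γ] [Group C] in
lemma local3_null_add {a a' : Module.End k U} (ha : IsNull rho ε₀ ε₁ d a)
    (ha' : IsNull rho ε₀ ε₁ d a') : IsNull rho ε₀ ε₁ d (a + a') := by
  obtain ⟨y, h1, h2, h3⟩ := ha
  obtain ⟨y', h1', h2', h3'⟩ := ha'
  refine ⟨y + y', local3_mem.1 (add_mem (local3_mem.2 h1) (local3_mem.2 h1')), ?_, ?_⟩
  · rw [mul_add, add_mul, h2, h2']
  · rw [h3, h3']; noncomm_ring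

omit [Fintype C] [Fintype Γ] [Group C] in
lemma local3_null_zero : IsNull rho ε₀ ε₁ d 0 :=
  ⟨0, local3_mem.1 (zero_mem _), by simp, by simp⟩

omit [Fintype C] [Fintype Γ] [Group C] in
lemma local3_null_sum {I : Type} (t : Finset I) (a : I → Module.End k U)
    (ha : ∀ i ∈ t, IsNull rho ε₀ ε₁ d (a i)) : IsNull rho ε₀ ε₁ d (∑ i ∈ t, a i) :=
  Finset.sum_induction a _ (fun _ _ => local3_null_add) local3_null_zero ha

lemma local3_chain_null (h : LocStruct p ι Q D lam rho ε₀ ε₁ d) {y : Module.End k U}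
    (h1 : EquivOn rho rho ⊤ y) (h2 : ε₁ * y * ε₀ = y) :
    IsChain' rho ε₀ ε₁ d (d * y + y * d) := by
  obtain ⟨e00, e11, e01, e10, d0, d1⟩ := h.tt
  have y0 : y * ε₀ = y := by rw [← h2, mul_assoc _ ε₀, e00]
  have y1 : ε₁ * y = y := by rw [← h2, ← mul_assoc, ← mul_assoc, e11]
  have y2 : ε₀ * y = 0 := by rw [← y1, ← mul_assoc, e01, zero_mul]
  have y3 : y * ε₁ = 0 := by rw [← y0, mul_assoc, e01, mul_zero]
  have d2 : ε₁ * d = 0 := by rw [← d0, ← mul_assoc, e10, zero_mul]
  have d3 : d * ε₀ = 0 := by rw [← d1, mul_assoc, e10, mul_zero]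
  have dd : d * d = 0 := by
    calc d * d = d * (ε₀ * d) := by rw [d0]
      _ = 0 := by rw [← mul_assoc, d3, zero_mul]
  have hd := local3_mem.2 h.rd
  have hy := local3_mem.2 h1
  refine ⟨local3_mem.1 (add_mem (mul_mem hd hy) (mul_mem hy hd)), ?_, ?_⟩
  · simp only [mul_add, ← mul_assoc, d0, y2, d2, y1, zero_mul, add_zero, zero_add]
    rw [mul_assoc d y, y0, mul_assoc y d, d1]
  · simp only [mul_add, add_mul, ← mul_assoc, dd, zero_mul, zero_add]
    rw [mul_assoc y d, dd, mul_zero, add_zero]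

lemma local3_chain_lam (h : LocStruct p ι Q D lam rho ε₀ ε₁ d) (b : MonoidAlgebra k C) :
    IsChain' rho ε₀ ε₁ d (lam.asAlgebraHom b * (ε₀ + ε₁)) := by
  obtain ⟨e00, e11, e01, e10, d0, d1⟩ := h.tt
  have d2 : ε₁ * d = 0 := by rw [← d0, ← mul_assoc, e10, zero_mul]
  have d3 : d * ε₀ = 0 := by rw [← d1, mul_assoc, e10, mul_zero]
  refine ⟨local3_mem.1 (mul_mem (local3_lam h b)
    (add_mem (local3_mem.2 h.r0) (local3_mem.2 h.r1))), ?_, ?_⟩
  · rw [← mul_assoc ε₀, ← mul_assoc ε₁, local3_comm h.l0, local3_comm h.l1]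
    simp only [mul_assoc, mul_add, e00, e11, e01, e10, mul_zero, add_zero, zero_add]
  · rw [← mul_assoc d, local3_comm h.ld]
    simp only [mul_assoc, mul_add, add_mul, d0, d1, d2, d3, mul_zero, add_zero, zero_add]

omit [Fintype C] [Fintype Γ] [Group C] in
lemma local3_chain_sub {a a' : Module.End k U} (ha : IsChain' rho ε₀ ε₁ d a)
    (ha' : IsChain' rho ε₀ ε₁ d a') : IsChain' rho ε₀ ε₁ d (a - a') := by
  refine ⟨local3_mem.1 (sub_mem (local3_mem.2 ha.equiv) (local3_mem.2 ha'.equiv)), ?_, ?_⟩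
  · conv_rhs => rw [← ha.block, ← ha'.block]
    noncomm_ring
  · rw [sub_mul, mul_sub, ha.comm, ha'.comm]

end aux

/-- A linear section on the equivariant maps. -/
lemma local3_sec (h : LocStruct p ι Q D lam rho ε₀ ε₁ d) :
    ∃ s₀ : Module.End k U →ₗ[k] Module.End k U, ∀ z ∈ local3E rho, s₀ z ∈ local3E rho ∧
      ε₀ * s₀ z * ε₀ + ε₁ * s₀ z * ε₁ = s₀ z ∧ s₀ z * d - d * s₀ z = ε₀ * z * ε₁ := by
  let E := (local3E rho).toSubmodule
  let bs := Module.finBasis k E
  choose a ha using fun i => h.ext_pos (local3_mem.1 (bs i).2)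
  obtain ⟨s₀, hs⟩ := LinearMap.exists_extend (bs.constr k a)
  refine ⟨s₀, fun z hz => ?_⟩
  have e1 : s₀ z = ∑ i, bs.repr ⟨z, hz⟩ i • a i := by
    have := LinearMap.congr_fun hs ⟨z, hz⟩
    rw [Module.Basis.constr_apply_fintype] at this
    exact this
  have e2 : z = ∑ i, bs.repr ⟨z, hz⟩ i • (bs i : Module.End k U) := by
    have := congrArg Subtype.val (bs.sum_repr ⟨z, hz⟩)
    rw [AddSubmonoidClass.coe_finsetSum] at this
    exact this.symm
  refine ⟨?_, ?_, ?_⟩
  · rw [e1]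
    exact sum_mem fun i _ => Subalgebra.smul_mem _ (local3_mem.2 (ha i).1) _
  · rw [e1, Finset.mul_sum, Finset.mul_sum, Finset.sum_mul, Finset.sum_mul,
      ← Finset.sum_add_distrib]
    refine Finset.sum_congr rfl fun i _ => ?_
    rw [mul_smul_comm, mul_smul_comm, smul_mul_assoc, smul_mul_assoc, ← smul_add, (ha i).2.1]
  · rw [e1]
    conv_rhs => rw [e2]
    rw [Finset.mul_sum, Finset.mul_sum, Finset.sum_mul, Finset.sum_mul, ← Finset.sum_sub_distrib]
    refine Finset.sum_congr rfl fun i _ => ?_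
    rw [mul_smul_comm, mul_smul_comm, smul_mul_assoc, smul_mul_assoc, ← smul_sub, (ha i).2.2]

lemma LocStruct.exists_tau (h : LocStruct p ι Q D lam rho ε₀ ε₁ d) :
    ∃ τ : Module.End k U →ₗ[k] Module.End k U,
      (∀ w, EquivOn rho rho ⊤ w → IsChain' rho ε₀ ε₁ d (τ w)) ∧
      (∀ w, IsChain' rho ε₀ ε₁ d w → τ w = w) ∧
      ∀ b w, EquivOn rho rho ⊤ w → τ (lam.asAlgebraHom b * w) = lam.asAlgebraHom b * τ w := by
  obtain ⟨s₀, hs⟩ := local3_sec h
  obtain ⟨ιL, hL⟩ := h.higL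
  obtain ⟨ιR, hR⟩ := h.higR
  obtain ⟨e00, e11, e01, e10, d0, d1⟩ := h.tt
  have d2 : ε₁ * d = 0 := by rw [← d0, ← mul_assoc, e10, zero_mul]
  have d3 : d * ε₀ = 0 := by rw [← d1, mul_assoc, e10, mul_zero]
  have hl : ∀ c, lam c = lam.asAlgebraHom (MonoidAlgebra.single c 1) := fun c => by simp
  have hlE : ∀ c, lam c ∈ local3E rho := fun c => hl c ▸ local3_lam h _
  have c0 : ∀ c, ε₀ * lam c = lam c * ε₀ := fun c => hl c ▸ local3_comm h.l0 _
  have c1 : ∀ c, ε₁ * lam c = lam c * ε₁ := fun c => hl c ▸ local3_comm h.l1 _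
  have cd : ∀ c, d * lam c = lam c * d := fun c => hl c ▸ local3_comm h.ld _
  let ι' : Module.End k U →ₗ[k] Module.End k U :=
    ∑ g, LinearMap.mulLeft k (rho g * ιL) ∘ₗ LinearMap.mulRight k (ιR * rho g⁻¹)
  have hι : ∀ w, ι' w = ∑ g, rho g * (ιL * w * ιR) * rho g⁻¹ := fun w => by
    simp only [ι', LinearMap.sum_apply, LinearMap.comp_apply, LinearMap.mulLeft_apply,
      LinearMap.mulRight_apply, mul_assoc]
  have hιE : ∀ w, ι' w ∈ local3E rho := fun w => hι w ▸ local3_avg _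
  have hL' : ∑ c, lam c * ιL * lam c⁻¹ = 1 := LinearMap.ext fun u => by
    rw [LinearMap.sum_apply]; exact hL u
  have hιs : ∀ w ∈ local3E rho, ∑ c, lam c * ι' (lam c⁻¹ * w) = w := fun w hw => by
    conv_rhs => rw [← local3_avg_mul hw hR, ← one_mul w, ← hL']
    simp only [hι, Finset.mul_sum, Finset.sum_mul]
    rw [Finset.sum_comm]
    refine Finset.sum_congr rfl fun g _ => Finset.sum_congr rfl fun c _ => ?_
    simp only [← mul_assoc]
    rw [local3_iff.1 (local3_mem.1 (hlE c)) g]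
  let s : Module.End k U →ₗ[k] Module.End k U :=
    ∑ c, LinearMap.mulLeft k (lam c) ∘ₗ s₀ ∘ₗ ι' ∘ₗ LinearMap.mulLeft k (lam c⁻¹)
  have hs' : ∀ z, s z = ∑ c, lam c * s₀ (ι' (lam c⁻¹ * z)) := fun z => by
    simp only [s, LinearMap.sum_apply, LinearMap.comp_apply, LinearMap.mulLeft_apply]
  have s1 : ∀ z, s z ∈ local3E rho := fun z =>
    hs' z ▸ sum_mem fun c _ => mul_mem (hlE c) (hs _ (hιE _)).1
  have s2 : ∀ z, ε₀ * s z * ε₀ + ε₁ * s z * ε₁ = s z := fun z => by
    rw [hs', Finset.mul_sum, Finset.mul_sum, Finset.sum_mul, Finset.sum_mul,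
      ← Finset.sum_add_distrib]
    refine Finset.sum_congr rfl fun c _ => ?_
    conv_rhs => rw [← (hs _ (hιE (lam c⁻¹ * z))).2.1]
    rw [← mul_assoc, ← mul_assoc, c0, c1, mul_add]
    simp only [mul_assoc]
  have s3 : ∀ z ∈ local3E rho, s z * d - d * s z = ε₀ * z * ε₁ := fun z hz => by
    conv_rhs => rw [← hιs z hz]
    rw [hs', Finset.mul_sum, Finset.mul_sum, Finset.sum_mul, Finset.sum_mul,
      ← Finset.sum_sub_distrib]
    refine Finset.sum_congr rfl fun c _ => ?_
    rw [← mul_assoc d, cd, ← mul_assoc ε₀, c0, mul_assoc, mul_assoc, ← mul_sub,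
      (hs _ (hιE _)).2.2]
    simp only [mul_assoc]
  have s4 : ∀ c z, s (lam c * z) = lam c * s z := fun c z => by
    rw [hs', hs', Finset.mul_sum, ← Equiv.sum_comp (Equiv.mulLeft c)]
    refine Finset.sum_congr rfl fun x _ => ?_
    simp only [Equiv.coe_mulLeft, mul_inv_rev, map_mul, mul_assoc]
    rw [← mul_assoc (lam c⁻¹), ← map_mul lam c⁻¹ c, inv_mul_cancel, map_one, one_mul]
  let dg : Module.End k U →ₗ[k] Module.End k U :=
    LinearMap.mulLeft k ε₀ ∘ₗ LinearMap.mulRight k ε₀ + LinearMap.mulLeft k ε₁ ∘ₗ LinearMap.mulRight k ε₁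
  have hdg : ∀ w, dg w = ε₀ * w * ε₀ + ε₁ * w * ε₁ := fun w => by
    simp only [dg, LinearMap.add_apply, LinearMap.comp_apply, LinearMap.mulLeft_apply,
      LinearMap.mulRight_apply, mul_assoc]
  let τ : Module.End k U →ₗ[k] Module.End k U :=
    dg - s ∘ₗ (LinearMap.mulRight k d - LinearMap.mulLeft k d) ∘ₗ dg
  have hτ : ∀ w, τ w = dg w - s (dg w * d - d * dg w) := fun w => rfl
  have g1 : ∀ w ∈ local3E rho, dg w ∈ local3E rho := fun w hw => by
    have h0 := local3_mem.2 h.r0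
    have h1 := local3_mem.2 h.r1
    rw [hdg]
    exact add_mem (mul_mem (mul_mem h0 hw) h0) (mul_mem (mul_mem h1 hw) h1)
  have g2 : ∀ w, ε₀ * dg w * ε₀ + ε₁ * dg w * ε₁ = dg w := fun w => by
    rw [hdg]
    simp only [mul_add, ← mul_assoc, e00, e11, e01, e10, zero_mul, add_zero, zero_add]
    simp only [mul_assoc, e00, e11]
  have g3 : ∀ w, ε₀ * (dg w * d - d * dg w) * ε₁ = dg w * d - d * dg w := fun w => by
    rw [hdg]
    simp only [mul_add, add_mul, mul_sub, sub_mul, ← mul_assoc, e00, e01, d0, d3, d1, zero_mul,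
      add_zero, zero_add]
    simp only [mul_assoc, d0, d1, d2, e11, mul_zero, add_zero]
  have g4 : ∀ c w, dg (lam c * w) = lam c * dg w := fun c w => by
    rw [hdg, hdg, ← mul_assoc, ← mul_assoc, c0, c1, mul_add]
    simp only [mul_assoc]
  refine ⟨τ, fun w hw => ?_, fun w hw => ?_, fun b w _ => ?_⟩
  · have hw' := g1 w (local3_mem.2 hw)
    have hd := local3_mem.2 h.rd
    have hz := s3 _ (sub_mem (mul_mem hw' hd) (mul_mem hd hw'))
    rw [g3] at hz
    refine ⟨local3_mem.1 (sub_mem hw' (s1 _)), ?_, ?_⟩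
    · rw [hτ]
      have t1 := g2 w
      have t2 := s2 (dg w * d - d * dg w)
      linear_combination (norm := noncomm_ring) t1 - t2
    · rw [hτ, sub_mul, mul_sub]
      linear_combination (norm := noncomm_ring) -hz
  · rw [hτ, hdg, hw.block, hw.comm, sub_self, map_zero, sub_zero]
  · have t1 : ∀ c w, τ (lam c * w) = lam c * τ w := fun c w => by
      rw [hτ, hτ, g4, mul_assoc, ← mul_assoc d, cd, mul_assoc, ← mul_sub, s4, mul_sub]
    induction b using MonoidAlgebra.induction_on with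
    | of g => rw [MonoidAlgebra.of_apply, ← hl, t1]
    | add x y hx hy => rw [map_add, add_mul, map_add, hx, hy, add_mul]
    | smul r x hx => rw [map_smul, smul_mul_assoc, map_smul, hx, smul_mul_assoc]

lemma LocStruct.exists_sum_jac (h : LocStruct p ι Q D lam rho ε₀ ε₁ d) {a : Module.End k U}
    (ha : IsChain' rho ε₀ ε₁ d a) (hJ : ∀ u, a u ∈ JU lam) :
    ∃ (n : ℕ) (j : Fin n → MonoidAlgebra k C) (w : Fin n → Module.End k U),
      (∀ i, j i ∈ Jac k C) ∧ (∀ i, IsChain' rho ε₀ ε₁ d (w i)) ∧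
      a = ∑ i, lam.asAlgebraHom (j i) * w i := by
  obtain ⟨τ, h1, h2, h3⟩ := h.exists_tau
  obtain ⟨ιR, hR⟩ := h.higR
  obtain ⟨n, j, θ, hj, hθ⟩ := exists_sum_of_range_le lam (a * ιR) (fun u => hJ _)
  refine ⟨n, j, fun i => τ (∑ g, rho g * θ i * rho g⁻¹), hj,
    fun i => h1 _ (local3_mem.1 (local3_avg _)), ?_⟩
  have e : a = ∑ i, lam.asAlgebraHom (j i) * ∑ g, rho g * θ i * rho g⁻¹ := by
    conv_lhs => rw [← local3_avg_mul (local3_mem.2 ha.equiv) hR, hθ]
    simp only [Finset.mul_sum, Finset.sum_mul]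
    rw [Finset.sum_comm]
    refine Finset.sum_congr rfl fun i _ => Finset.sum_congr rfl fun g _ => ?_
    rw [← mul_assoc, ← mul_assoc, local3_iff.1 (local3_mem.1 (local3_lam h (j i))) g]
    rfl
  conv_lhs => rw [← h2 a ha, e, map_sum]
  exact Finset.sum_congr rfl fun i _ => h3 _ _ (local3_mem.1 (local3_avg _))

/-- One step: modulo left multiplications and null-homotopic maps a chain map lies in the radical
times the chain maps. -/
lemma local3_step (h : LocStruct p ι Q D lam rho ε₀ ε₁ d) {a : Module.End k U}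
    (ha : IsChain' rho ε₀ ε₁ d a) :
    ∃ (b : MonoidAlgebra k C) (n : ℕ) (j : Fin n → MonoidAlgebra k C)
      (w : Fin n → Module.End k U), (∀ i, j i ∈ Jac k C) ∧ (∀ i, IsChain' rho ε₀ ε₁ d (w i)) ∧
      IsNull rho ε₀ ε₁ d
        (a - lam.asAlgebraHom b * (ε₀ + ε₁) - ∑ i, lam.asAlgebraHom (j i) * w i) := by
  obtain ⟨ρ, η₀, η₁, δ, hB⟩ := h.exists_bar
  obtain ⟨b, y, y1, y2, y3⟩ := hB.gen h (a := (JU lam).mkQ ∘ₗ a)
    (fun g _ u => by
      rw [LinearMap.comp_apply, ha.equiv g trivial, hB.equiv g trivial]; rfl)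
    (LinearMap.ext fun u => by
      simp only [LinearMap.add_apply, LinearMap.comp_apply, ← hB.h0, ← hB.h1, ← map_add]
      exact congrArg _ (LinearMap.congr_fun ha.block u))
    (LinearMap.ext fun u => by
      simp only [LinearMap.comp_apply, ← hB.hd]
      exact congrArg _ (LinearMap.congr_fun ha.comm u))
  obtain ⟨y', z1, z2, z3⟩ := hB.lift h y1 y2
  obtain ⟨n, j, w, hj, hw, e⟩ := h.exists_sum_jac
    (local3_chain_sub (local3_chain_sub ha (local3_chain_lam h b)) (local3_chain_null h z1 z2))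
    (fun u => by
      rw [← hB.ker]
      have := LinearMap.congr_fun y3 u
      simp only [LinearMap.add_apply, LinearMap.comp_apply, ← z3, ← hB.hd] at this
      simp only [LinearMap.sub_apply, LinearMap.add_apply, Module.End.mul_apply, map_sub,
        map_add, this]
      abel)
  exact ⟨b, n, j, w, hj, hw, y', z1, z2, by rw [← e]; abel⟩

theorem LocStruct.gen (h : LocStruct p ι Q D lam rho ε₀ ε₁ d) {a : Module.End k U}
    (ha : IsChain' rho ε₀ ε₁ d a) :
    ∃ b, IsNull rho ε₀ ε₁ d (a - lam.asAlgebraHom b * (ε₀ + ε₁)) := by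
  obtain ⟨N, hN⟩ := jac_nilpotent (k := k) (C := C)
  have key : ∀ m n, n + m = N → ∀ x ∈ Jac k C ^ n, ∀ w, IsChain' rho ε₀ ε₁ d w →
      ∃ b, IsNull rho ε₀ ε₁ d (lam.asAlgebraHom x * w - lam.asAlgebraHom b * (ε₀ + ε₁)) := by
    intro m
    induction m with
    | zero =>
      intro n hn x hx w _
      rw [add_zero] at hn
      rw [hn, hN, Ideal.mem_bot] at hx
      exact ⟨0, by simpa [hx] using local3_null_zero⟩
    | succ m ih =>
      intro n hn x hx w hw
      obtain ⟨b, r, j, w', hj, hw', hnull⟩ := local3_step h hw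
      choose b' hb' using fun i => ih (n + 1) (by omega) (x * j i)
        (by rw [Submodule.pow_succ]; exact Ideal.mul_mem_mul hx (hj i)) (w' i) (hw' i)
      refine ⟨x * b + ∑ i, b' i, ?_⟩
      have := local3_null_add (local3_null_left h x hnull)
        (local3_null_sum Finset.univ _ fun i _ => hb' i)
      convert this using 1
      simp only [map_add, map_sum, map_mul, mul_sub, add_mul, Finset.sum_mul, Finset.mul_sum,
        Finset.sum_sub_distrib, mul_assoc]
      abel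
  obtain ⟨b, hb⟩ := key N 0 (zero_add N) 1 (by rw [Submodule.pow_zero, Ideal.one_eq_top]; trivial)
    a ha
  exact ⟨b, by simpa using hb⟩

theorem LocStruct.central (h : LocStruct p ι Q D lam rho ε₀ ε₁ d) {z : MonoidAlgebra k C}
    (hz : ∀ b, z * b = b * z) (h0 : ∀ x, (∀ δ ∈ D, x * ι δ = ι δ * x) → z.coeff x = 0) :
    ∃ m₀ : ℕ, ∀ m, m₀ ≤ m → IsNull rho ε₀ ε₁ d (lam.asAlgebraHom (z ^ m) * (ε₀ + ε₁)) := by
  obtain ⟨N, hN⟩ := jac_nilpotent (k := k) (C := C)
  obtain ⟨ρ, η₀, η₁, δ, hB⟩ := h.exists_bar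
  have hI := hB.heartI h
  have hc := local3_chain_lam h z
  set a := lam.asAlgebraHom z * (ε₀ + ε₁) with ha
  obtain ⟨e00, e11, e01, e10, d0, d1⟩ := h.tt
  obtain ⟨ab, hab⟩ := hB.exists_desc ((JU lam).mkQ ∘ₗ a) (fun j hj u => by
    rw [LinearMap.comp_apply, hB.ker, ha, Module.End.mul_apply, LinearMap.add_apply,
      h.l0.asAlgebraHom, h.l1.asAlgebraHom, ← map_add]
    exact lam_mem_JU _ _ (mem_JU _ hj _))
  simp only [LinearMap.comp_apply] at hab
  have ext : ∀ {φ ψ : Module.End k (U ⧸ JU lam)},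
      (∀ u, φ ((JU lam).mkQ u) = ψ ((JU lam).mkQ u)) → φ = ψ := fun e =>
    LinearMap.ext fun w => by obtain ⟨u, rfl⟩ := hB.surj w; exact e u
  obtain ⟨θ, hθ⟩ := hB.central h hz h0
  obtain ⟨y, y1, y2, y3⟩ := hI.h2 (b := ab)
    (fun g _ w => by
      obtain ⟨u, rfl⟩ := hB.surj w
      rw [← hB.equiv g trivial, hab, hab, hc.equiv g trivial, hB.equiv g trivial])
    (ext fun u => by
      simp only [LinearMap.add_apply, Module.End.mul_apply, ← hB.h0, ← hB.h1, hab, ← map_add]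
      exact congrArg _ (LinearMap.congr_fun hc.block u))
    (ext fun u => by
      simp only [Module.End.mul_apply, ← hB.hd, hab]
      exact congrArg _ (LinearMap.congr_fun hc.comm u)) θ
    (ext fun u => by
      simp only [Module.End.mul_apply, ← hB.h0, hab, ← hθ]
      refine congrArg _ (LinearMap.congr_fun (?_ : ε₀ * a * ε₀ = lam.asAlgebraHom z * ε₀) u)
      rw [ha, ← mul_assoc, local3_comm h.l0]
      simp only [mul_add, mul_assoc, e00, e01, mul_zero, add_zero])
  obtain ⟨y', z1, z2, z3⟩ := hB.lift h (y := y ∘ₗ (JU lam).mkQ)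
    (fun g _ u => by
      rw [LinearMap.comp_apply, hB.equiv g trivial, y1 g trivial]; rfl)
    (LinearMap.ext fun u => by
      simp only [LinearMap.comp_apply, hB.h0]
      exact LinearMap.congr_fun y2 _)
  have z4 : ∀ u, (JU lam).mkQ (y' u) = y ((JU lam).mkQ u) := fun u => LinearMap.congr_fun z3 u
  obtain ⟨n, j, w, hj, hw, e⟩ := h.exists_sum_jac
    (local3_chain_sub hc (local3_chain_null h z1 z2)) (fun u => by
      rw [← hB.ker]
      simp only [LinearMap.sub_apply, LinearMap.add_apply, Module.End.mul_apply, map_sub,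
        map_add, ← hab, y3, hB.hd, z4, sub_self])
  choose b hb using fun i => h.gen (hw i)
  have hj' : ∑ i, j i * b i ∈ Jac k C := sum_mem fun i _ => Ideal.mul_mem_right _ _ (hj i)
  set x := ∑ i, j i * b i with hx
  have n1 : IsNull rho ε₀ ε₁ d (lam.asAlgebraHom (z - x) * (ε₀ + ε₁)) := by
    have := local3_null_add (⟨y', z1, z2, rfl⟩ : IsNull rho ε₀ ε₁ d (d * y' + y' * d))
      (local3_null_sum Finset.univ _ fun i _ => local3_null_left h (j i) (hb i))
    convert this using 1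
    simp only [hx, map_sub, map_sum, map_mul, mul_sub, sub_mul, Finset.sum_mul,
      Finset.sum_sub_distrib, mul_assoc, ← e, ← ha]
    abel
  refine ⟨N, fun m hm => ?_⟩
  have hxm : x ^ m = 0 := by
    have : x ^ N ∈ Jac k C ^ N := Ideal.pow_mem_pow hj' N
    rw [hN, Ideal.mem_bot] at this
    exact pow_eq_zero_of_le hm this
  have := local3_null_left h (∑ i ∈ Finset.range m, z ^ i * x ^ (m - 1 - i)) n1
  rwa [← mul_assoc, ← map_mul, Commute.geom_sum₂_mul (hz x), hxm, sub_zero] at this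

end Pool.Agent.Lib.MP_b6945b_al.St
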