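import Pool.Agent.Lib.MP_b6945b_al.St.Model2
import Pool.Agent.Lib.MP_b6945b_al.St.Local3

set_option autoImplicit false

/-!
The local structure at a representative.
-/

namespace Pool.Agent.Lib.MP_b6945b_al.St

open IsLocalRing
open MonoidAlgebra (single)

variable {R : Type} [CommRing R] [IsLocalRing R] {G : Type} [Group G] [Fintype G]
  {H : Subgroup G} [Fintype H] {X : Type} [Fintype X] [DecidableEq X] [MulAction (G × H) X]
  {p : ℕ} {D : Subgroup H} {e : MonoidAlgebra R G} {f a : MonoidAlgebra R H} {I : Type}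
  {Qf : I → Subgroup H} {c : I → G} {i₀ iT iF : I} {Reps : Finset (Subgroup H)} {κ : X → G}
  {comp : X → I} {b : I → X} {ef D₀ : Kern R H X} {P : (I → Prop) → Kern R H X}
  {ε : Subgroup H → Kern R H X} {ε₀ ε₁ d : Kern R H X}

section aux

omit [IsLocalRing R] [Fintype H] [Fintype G] in
lemma locbuild_ginv_mul {u v : Kern R H X} (hu : GInv u) (hv : GInv v) : GInv (u * v) := by
  intro g
  rw [← mul_assoc, hu g, mul_assoc, hv g, mul_assoc]

omit [IsLocalRing R] [Fintype H] in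
lemma locbuild_ginv_piA {z : MonoidAlgebra R G} (hz : ∀ y, z * y = y * z) :
    GInv (piA R H X z) := by
  intro g
  rw [← piA_single, ← map_mul, ← map_mul, hz]

lemma locbuild_pQ (h : Setup p D e f a Qf c i₀ iT iF Reps κ comp b ef D₀ P)
    {Q : Subgroup H} (hQ : Q ≤ D) : IsPGroup p Q := h.set.pD.to_le hQ

lemma locbuild_mul (h : Setup p D e f a Qf c i₀ iT iF Reps κ comp b ef D₀ P)
    {Q : Subgroup H} (hQ : Q ≤ D) {u v : Kern R H X} (hu : GInv u) (hv : GInv v) :
    loc Q (u * v).1 = loc Q u.1 * loc Q v.1 :=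
  loc_mul h.set.prime h.pR (locbuild_pQ h hQ) (hu.dInv Q) (hv.dInv Q)

lemma locbuild_P (h : Setup p D e f a Qf c i₀ iT iF Reps κ comp b ef D₀ P) (Q : Subgroup H)
    (S : I → Prop) (w : Fix X Q → ResidueField R) (x : Fix X Q) :
    (S (comp x.1) → loc Q (P S).1 w x = w x) ∧ (¬ S (comp x.1) → loc Q (P S).1 w x = 0) := by
  classical
  rw [loc_apply]
  constructor
  · intro hS
    rw [Finset.sum_eq_single x]
    · rw [h.ker.P_val, if_pos ⟨rfl, hS⟩, map_one, one_mul]
    · intro y _ hy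
      rw [h.ker.P_val, if_neg (fun e => hy (Subtype.ext e.1.symm)), map_zero, zero_mul]
    · intro e
      exact absurd (Finset.mem_univ x) e
  · intro hS
    refine Finset.sum_eq_zero fun y _ => ?_
    rw [h.ker.P_val, if_neg (fun e => hS e.2), map_zero, zero_mul]

lemma locbuild_PP (h : Setup p D e f a Qf c i₀ iT iF Reps κ comp b ef D₀ P) (S : I → Prop) :
    P S * P S = P S := by
  rw [h.P_mul]
  simp only [and_self]

/-- The product of the two centralisers inside the normaliser of the diagonal. -/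
def locbuild_hom (Q : Subgroup H) : CG Q × CH Q →* NQ Q where
  toFun γ := inlN Q γ.1 * inrN Q γ.2
  map_one' := by simp
  map_mul' γ γ' := Subtype.ext (by simp [inlN_val, inrN_val])

omit [Fintype G] [Fintype H] in
lemma locbuild_hom_val (Q : Subgroup H) (γ : CG Q × CH Q) :
    (locbuild_hom Q γ : G × H) = ((γ.1 : G), (γ.2 : H)) := by
  change ((inlN Q γ.1 * inrN Q γ.2 : NQ Q) : G × H) = _
  simp [inlN_val, inrN_val]

end aux

/-- The copy of the centraliser inside the fixed points: `i u x = u.coeff (κ x)` on the copy of `G`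
and zero elsewhere; `(p' w).coeff g = w ((g, 1) • b i₀)`. -/
lemma Setup.exists_emb (h : Setup p D e f a Qf c i₀ iT iF Reps κ comp b ef D₀ P)
    (Q : Subgroup H) (k : Type) [Field k] :
    ∃ (i : MonoidAlgebra k (CG Q) →ₗ[k] (Fix X Q → k))
      (p' : (Fix X Q → k) →ₗ[k] MonoidAlgebra k (CG Q)),
      (∀ g u, i (single g 1 * u) = lamQ X k Q g (i u)) ∧
      (∀ g u, i (u * single (iotaQ Q g)⁻¹ 1) = rhoQ X k Q g (i u)) ∧
      (∀ g w, p' (lamQ X k Q g w) = single g 1 * p' w) ∧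
      (∀ g w, p' (rhoQ X k Q g w) = p' w * single (iotaQ Q g)⁻¹ 1) ∧
      (∀ u, p' (i u) = u) ∧
      ∀ w x, (comp x.1 = i₀ → i (p' w) x = w x) ∧ (comp x.1 ≠ i₀ → i (p' w) x = 0) := by
  classical
  let kx : Fix X Q → CG Q := fun x => ⟨κ x.1, mem_CG.2 fun q hq =>
    (h.pre.biset.kappa_cent x (q : G) ⟨q, hq, rfl⟩).symm⟩
  have hkx : ∀ x, (kx x : G) = κ x.1 := fun _ => rfl
  let pt : CG Q → Fix X Q := fun g => ⟨(((g : G), 1) : G × H) • b i₀,
    h.pre.fix_of_cent h.fam (h.pre.kappa_pt h.fam g).2 (by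
      rw [(h.pre.kappa_pt h.fam g).1]; exact g.2)⟩
  have hk : ∀ g, kx (pt g) = g := fun g => Subtype.ext (h.pre.kappa_pt h.fam g).1
  have hc : ∀ g, comp (pt g).1 = i₀ := fun g => (h.pre.kappa_pt h.fam g).2
  have hp : ∀ x : Fix X Q, comp x.1 = i₀ → pt (kx x) = x := fun x hx =>
    Subtype.ext (h.pre.kappa_inj h.fam (hc _) hx (h.pre.kappa_pt h.fam _).1)
  have hcs : ∀ (γ : NQ Q) (x : Fix X Q), comp (γ • x).1 = comp x.1 := fun γ x =>
    h.pre.comp_smul _ _
  have hkl : ∀ (g : CG Q) (x : Fix X Q), kx ((inlN Q g)⁻¹ • x) = g⁻¹ * kx x := by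
    intro g x
    apply Subtype.ext
    rw [← map_inv, hkx, NQ_smul_val, h.pre.biset.map, inlN_val]
    simp [hkx]
  have hkr : ∀ (g : CH Q) (x : Fix X Q), kx ((inrN Q g)⁻¹ • x) = kx x * iotaQ Q g := by
    intro g x
    apply Subtype.ext
    rw [← map_inv, hkx, NQ_smul_val, h.pre.biset.map, inrN_val]
    simp [hkx, iotaQ_val]
  let i : MonoidAlgebra k (CG Q) →ₗ[k] (Fix X Q → k) :=
    { toFun := fun u x => if comp x.1 = i₀ then u.coeff (kx x) else 0
      map_add' := fun u v => by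
        funext x
        simp only [Pi.add_apply]
        split_ifs <;> simp
      map_smul' := fun r u => by
        funext x
        simp only [Pi.smul_apply, RingHom.id_apply]
        split_ifs <;> simp }
  have hi : ∀ u x, i u x = if comp x.1 = i₀ then u.coeff (kx x) else 0 := fun _ _ => rfl
  let p' : (Fix X Q → k) →ₗ[k] MonoidAlgebra k (CG Q) :=
    { toFun := fun w => MonoidAlgebra.ofCoeff (Finsupp.equivFunOnFinite.symm fun g => w (pt g))
      map_add' := fun u v => by ext g; simp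
      map_smul' := fun r u => by ext g; simp }
  have hp' : ∀ w g, (p' w).coeff g = w (pt g) := fun w g => by simp [p']
  have hl : ∀ (g : CG Q) (w : Fix X Q → k) x, lamQ X k Q g w x = w ((inlN Q g)⁻¹ • x) :=
    fun _ _ _ => rfl
  have hr : ∀ (g : CH Q) (w : Fix X Q → k) x, rhoQ X k Q g w x = w ((inrN Q g)⁻¹ • x) :=
    fun _ _ _ => rfl
  refine ⟨i, p', fun g u => ?_, fun g u => ?_, fun g w => ?_, fun g w => ?_, fun u => ?_,
    fun w x => ⟨fun hx => ?_, fun hx => ?_⟩⟩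
  · funext x
    rw [hl, hi, hi, hcs, hkl, MonoidAlgebra.coeff_single_mul_apply, one_mul]
  · funext x
    rw [hr, hi, hi, hcs, hkr, MonoidAlgebra.coeff_mul_single_apply, mul_one, inv_inv]
  · ext x
    rw [hp', hl, MonoidAlgebra.coeff_single_mul_apply, one_mul, hp',
      ← hp ((inlN Q g)⁻¹ • pt x) (by rw [hcs, hc]), hkl, hk]
  · ext x
    rw [hp', hr, MonoidAlgebra.coeff_mul_single_apply, mul_one, inv_inv, hp',
      ← hp ((inrN Q g)⁻¹ • pt x) (by rw [hcs, hc]), hkr, hk]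
  · ext x
    rw [hp', hi, if_pos (hc x), hk]
  · rw [hi, if_pos hx, hp', hp x hx]
  · rw [hi, if_neg hx]

/-- Write `f = rtr D (CH Q) a'` (`exists_rtr_intermediate`); `locR` is `toRes` of the pull-back
along `(CH Q).subtype` of the antipode (`pull_rtr`, `pull_inv_cjRep`, `toRes_rtr`,
`pull_mul_left`, `pull_inv_mul`; `f` is supported on the centraliser of `D`). -/
lemma Setup.exists_locR (h : Setup p D e f a Qf c i₀ iT iF Reps κ comp b ef D₀ P)
    {Q : Subgroup H} (hQ : Q ≤ D) :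
    locR R Q f * locR R Q f = locR R Q f ∧ ∃ a' : MonoidAlgebra (ResidueField R) (CH Q),
      FixedBy (cjRep (ResidueField R) (CH Q)) (D.subgroupOf (CH Q)) a' ∧
      locR R Q f = rtr (cjRep (ResidueField R) (CH Q)) (D.subgroupOf (CH Q)) ⊤ a' := by
  have := h.set.normal
  have hD : D ≤ CH Q := h.set.le_CH hQ
  have hdef : ∀ y : MonoidAlgebra R H, locR R Q y =
      toRes R _ (pull R (CH Q).subtype (pull R (fun g : H => g⁻¹) y)) := by
    intro y
    ext x
    rw [coeff_locR, coeff_toRes, coeff_pull, coeff_pull]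
    rfl
  have hinj : Function.Injective (CH Q).subtype := Subtype.val_injective
  have hf : SuppCent (D : Set H) f := by
    rw [h.blF.tr]
    exact h.blF.supp.rtr _ _
  constructor
  · rw [hdef, ← map_mul, ← pull_mul_left hinj, ← pull_inv_mul, h.blF.idem]
    intro g hg
    rw [coeff_pull] at hg
    rw [Subgroup.range_subtype, ← Subgroup.inv_mem_iff]
    exact fun q hq => (hf _ hg q (hQ hq)).symm
  · obtain ⟨a', ha', htr⟩ := exists_rtr_intermediate D (CH Q) hD h.blF.supp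
    have hfix : FixedBy (cjRep R H) D (pull R (fun g : H => g⁻¹) a') := fun g hg => by
      rw [← pull_inv_cjRep, ha'.fixedBy g hg]
    refine ⟨toRes R _ (pull R (CH Q).subtype (pull R (fun g : H => g⁻¹) a')), ?_, ?_⟩
    · intro g hg
      have h1 := pull_cjRep (R := R) (CH Q).subtype g (pull R (fun g : H => g⁻¹) a')
      rw [hfix ((CH Q).subtype g) hg] at h1
      ext x
      rw [coeff_cjRep, coeff_toRes, coeff_toRes, ← coeff_cjRep, ← h1]
    · have h2 := pull_rtr (R := R) hinj (S := D) (by rw [Subgroup.range_subtype]; exact hD) hfix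
      rw [Subgroup.range_subtype] at h2
      rw [hdef, h.blF.tr, htr,
        rtr_map (ρ' := cjRep R H) (φ := pull R (fun g : H => g⁻¹))
          (fun g _ m => pull_inv_cjRep g m), h2, toRes_rtr]
      rfl

lemma Setup.locZero (h : Setup p D e f a Qf c i₀ iT iF Reps κ comp b ef D₀ P)
    {Q : Subgroup H} (hQ : Q ≤ D) :
    ∃ e' f' a' i p', LocZero (iotaQ Q) (D.subgroupOf (CH Q)) (lamQ X (ResidueField R) Q)
      (rhoQ X (ResidueField R) Q) e' f' a' i p' (loc Q (ef * P (· = i₀)).1) := by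
  obtain ⟨i, p', h1, h2, h3, h4, h5, h6⟩ := h.exists_emb Q (ResidueField R)
  obtain ⟨h7, a', h8, h9⟩ := h.exists_locR hQ
  have hpQ := locbuild_pQ h hQ
  have he : FixedBy (cjRep R G) ⊤ e := fixedBy_top_iff.2 h.blE.cent
  have hf : FixedBy (cjRep R H) Q f := fun g _ => fixedBy_top_iff.2 h.blF.cent g trivial
  refine ⟨locL R Q e, locR R Q f, a', i, p', h1, h2, h3, h4, h5,
    locL_idem h.set.prime h.pR hpQ h.blE.idem h.blE.cent,
    locL_central (fun g _ x => ?_), h7, h8, h9, fun u => ?_⟩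
  · rw [← coeff_cjRep, he g trivial]
  · have h10 : loc Q (P (· = i₀)).1 u = i (p' u) := by
      funext x
      by_cases hx : comp x.1 = i₀
      · rw [(h6 u x).1 hx, (locbuild_P h Q _ u x).1 hx]
      · rw [(h6 u x).2 hx, (locbuild_P h Q _ u x).2 hx]
    rw [locbuild_mul h hQ h.ef_inv (h.P_inv _), h.ker.ef_val,
      loc_mul h.set.prime h.pR hpQ ((locbuild_ginv_piA h.blE.cent).dInv Q) (dInv_rhoM hf),
      h.pre.biset.loc_piA, h.pre.biset.loc_rhoM, Module.End.mul_apply, Module.End.mul_apply, h10]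

/-- `exists_higman_perm` for `CG Q × CH Q` acting through `inlN, inrN` and `S = ⊤ × Q`
(`stab_fix`); compare the relative traces with `rtr_comp_hom` or `rtr_eq_sum`. -/
lemma Setup.higT (h : Setup p D e f a Qf c i₀ iT iF Reps κ comp b ef D₀ P)
    {Q : Subgroup H} (hQ : Q ∈ Reps) :
    ∃ ι' : Module.End (ResidueField R) (Fix X Q → ResidueField R),
      EquivOn (lamQ X (ResidueField R) Q) (lamQ X (ResidueField R) Q) ⊤ ι' ∧
      EquivOn (rhoQ X (ResidueField R) Q) (rhoQ X (ResidueField R) Q) (Q.subgroupOf (CH Q)) ι' ∧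
      rtr ((rhoQ X (ResidueField R) Q).linHom (rhoQ X (ResidueField R) Q))
        (Q.subgroupOf (CH Q)) ⊤ ι' = loc Q (P (fun i => Qf i = Q)).1 := by
  let _ : MulAction (CG Q × CH Q) (Fix X Q) := MulAction.compHom (Fix X Q) (locbuild_hom Q)
  have hs : ∀ (γ : CG Q × CH Q) (x : Fix X Q),
      (γ • x).1 = (((γ.1 : G), (γ.2 : H)) : G × H) • x.1 := fun γ x => by
    rw [← locbuild_hom_val]
    rfl
  obtain ⟨ι', h1, h2⟩ := exists_higman_perm (ResidueField R)
    ((⊤ : Subgroup (CG Q)).prod (Q.subgroupOf (CH Q))) (fun x : Fix X Q => Qf (comp x.1) = Q)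
    (fun γ x hx => by rw [hs, h.pre.comp_smul]; exact hx)
    (fun x hx γ e => ⟨trivial, (h.pre.stab_fix x hx (γ := ((γ.1 : G), (γ.2 : H)))
      (by rw [← hs, e])).1⟩)
  have hl : ∀ g : CG Q, lamQ X (ResidueField R) Q g =
      permRep (ResidueField R) (CG Q × CH Q) (Fix X Q) (g, 1) := by
    intro g
    refine LinearMap.ext fun w => funext fun x => ?_
    change w ((inlN Q g)⁻¹ • x) = w (((g, 1) : CG Q × CH Q)⁻¹ • x)
    congr 1
    apply Subtype.ext
    rw [hs, ← map_inv, NQ_smul_val, inlN_val]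
    simp
  have hr : ∀ g : CH Q, rhoQ X (ResidueField R) Q g =
      permRep (ResidueField R) (CG Q × CH Q) (Fix X Q) (1, g) := by
    intro g
    refine LinearMap.ext fun w => funext fun x => ?_
    change w ((inrN Q g)⁻¹ • x) = w (((1, g) : CG Q × CH Q)⁻¹ • x)
    congr 1
    apply Subtype.ext
    rw [hs, ← map_inv, NQ_smul_val, inrN_val]
    simp
  refine ⟨ι', fun g _ w => ?_, fun g hg w => ?_, ?_⟩
  · rw [hl]
    exact h1 _ ⟨trivial, Subgroup.one_mem _⟩ w
  · rw [hr]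
    exact h1 _ ⟨trivial, hg⟩ w
  · have h3 : (rhoQ X (ResidueField R) Q).linHom (rhoQ X (ResidueField R) Q) =
        ((permRep (ResidueField R) (CG Q × CH Q) (Fix X Q)).linHom
          (permRep (ResidueField R) (CG Q × CH Q) (Fix X Q))).comp (MonoidHom.inr _ _) := by
      refine MonoidHom.ext fun g => LinearMap.ext fun θ => ?_
      rw [Representation.linHom_apply, hr, hr, MonoidHom.comp_apply,
        Representation.linHom_apply, ← map_inv]
      rfl
    rw [h3, rtr_comp_hom (MonoidHom.inr (CG Q) (CH Q))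
      (S := (⊤ : Subgroup (CG Q)).prod (Q.subgroupOf (CH Q))) (T := ⊤)
      (S' := Q.subgroupOf (CH Q)) (T' := ⊤) le_top le_top (fun _ _ => trivial)
      (fun g _ => ⟨fun e => e.2, fun e => ⟨trivial, e⟩⟩)
      (fun γ _ => ⟨γ.2, trivial, trivial, by simp⟩) (fixedBy_linHom.2 h1)]
    refine LinearMap.ext fun w => funext fun x => ?_
    by_cases hx : Qf (comp x.1) = Q
    · rw [(h2 w x).1 hx, (locbuild_P h Q _ w x).1 hx]
    · rw [(h2 w x).2 hx, (locbuild_P h Q _ w x).2 hx]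

/-- `cov1`: `ε₀ u = loc (ε₀ D₀) w` by `loc_D_surj`, and `loc (ε₀ D₀) (loc (P _ * ef) w)` is the
same by `loc_D_P`. -/
theorem Built.locStruct (h : Setup p D e f a Qf c i₀ iT iF Reps κ comp b ef D₀ P)
    (hB : Built p D Qf i₀ iT iF Reps ef D₀ P ε ε₀ ε₁ d) {Q : Subgroup H} (hQ : Q ∈ Reps) :
    LocStruct p (iotaQ Q) (Q.subgroupOf (CH Q)) (D.subgroupOf (CH Q))
      (lamQ X (ResidueField R) Q) (rhoQ X (ResidueField R) Q) (loc Q ε₀.1) (loc Q ε₁.1)
      (loc Q d.1) := by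
  obtain ⟨h0, hlt⟩ := h.fam.lt Q hQ
  have hle := hlt.le
  obtain ⟨σ, hC⟩ := hB.exists_cxData h
  have hcov := hB.cover Q hQ
  have hε : loc Q ε₁.1 = loc Q (ε Q).1 := congrArg Matrix.toLin' (hB.br_eps h hQ)
  have hdf : GInv (ε₀ * D₀) := locbuild_ginv_mul hC.inv₀ h.D_inv
  have hd : loc Q d.1 = loc Q (ε₀ * D₀).1 * loc Q (ε Q).1 := by
    rw [← hε, ← locbuild_mul h hle hdf hC.inv₁, ← hB.dd]
  have hεε : loc Q (ε Q).1 * loc Q (ε Q).1 = loc Q (ε Q).1 := by
    rw [← locbuild_mul h hle hcov.inv hcov.inv, hcov.idem]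
  refine
    { ti := h.set.tiData h0 hlt
      pQ := (locbuild_pQ h hle).comap_subtype
      idx := h.set.idx h0 hlt
      comm := lamQ_rhoQ
      diag := fun q hq u => lamQ_diag q hq u
      zero := by rw [hB.e0]; exact h.locZero hle
      tt := ⟨?_, ?_, ?_, ?_, ?_, ?_⟩
      l0 := hC.inv₀.loc_lam
      l1 := hC.inv₁.loc_lam
      ld := hC.invd.loc_lam
      r0 := loc_rho ε₀
      r1 := loc_rho ε₁
      rd := loc_rho d
      higL := h.pre.biset.higL
      higR := h.pre.biset.higR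
      higT := ?_
      cov1 := fun u => ?_
      cov2 := fun t ht => ?_ }
  · rw [← locbuild_mul h hle hC.inv₀ hC.inv₀, hC.e00]
  · rw [← locbuild_mul h hle hC.inv₁ hC.inv₁, hC.e11]
  · rw [← locbuild_mul h hle hC.inv₀ hC.inv₁, hC.e01]
    exact loc_zero
  · rw [← locbuild_mul h hle hC.inv₁ hC.inv₀, hC.e10]
    exact loc_zero
  · rw [← locbuild_mul h hle hC.inv₀ hC.invd, hC.d0]
  · rw [← locbuild_mul h hle hC.invd hC.inv₁, hC.d1]
  · obtain ⟨ι', h1, h2, h3⟩ := h.higT hQ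
    refine ⟨ι', h1, h2, ?_⟩
    have h4 : P (fun i => Qf i = Q) * ε Q = ε Q := by
      conv_lhs => rw [← hcov.left, ← mul_assoc, ← mul_assoc, locbuild_PP h]
      exact hcov.left
    rw [h3, hε, ← locbuild_mul h hle (h.P_inv _) hcov.inv, h4]
  · obtain ⟨w, hw⟩ := h.loc_D_surj hQ u
    refine ⟨w, ?_⟩
    have h1 : ε₀ * P (· = i₀) = ε₀ := by rw [hB.e0, mul_assoc, locbuild_PP h]
    have hPf : GInv (P (fun i => Qf i = Q) * ef) := locbuild_ginv_mul (h.P_inv _) h.ef_inv
    have hDP : GInv (D₀ * P (fun i => Qf i = Q)) := locbuild_ginv_mul h.D_inv (h.P_inv _)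
    have h2 : ε₀ * D₀ * (P (fun i => Qf i = Q) * ef) = ε₀ * (D₀ * P (fun i => Qf i = Q)) := by
      rw [← mul_assoc, mul_assoc ε₀, ← h.ef_comm (locbuild_ginv_mul hC.inv₀ hDP), ← mul_assoc,
        (hB.ef_left h).1]
    have h3 : loc Q (ε₀ * D₀).1 (loc Q (P (fun i => Qf i = Q) * ef).1 w) = loc Q ε₀.1 u := by
      rw [← Module.End.mul_apply, ← locbuild_mul h hle hdf hPf, h2,
        locbuild_mul h hle hC.inv₀ hDP, h.loc_D_P hQ, Module.End.mul_apply, hw,
        ← Module.End.mul_apply, ← locbuild_mul h hle hC.inv₀ (h.P_inv _), h1]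
    have h4 := Submodule.neg_mem _ (hcov.cov1 w)
    rw [map_sub, neg_sub, h3] at h4
    rw [hd]
    exact h4
  · rw [hd] at ht
    have h1 := hcov.cov2 _ ht
    rw [← Module.End.mul_apply, hεε] at h1
    rw [hε]
    exact h1

/-- `LocStruct.ext_pos` (instances from `charP_of_mem`, `MonicSplit.isAlgClosed`). -/
theorem Built.locSurj (h : Setup p D e f a Qf c i₀ iT iF Reps κ comp b ef D₀ P)
    (hB : Built p D Qf i₀ iT iF Reps ef D₀ P ε ε₀ ε₁ d) {Q : Subgroup H} (hQ : Q ∈ Reps) :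
    LocSurj ε₀ ε₁ d Q := by
  have : Fact p.Prime := ⟨h.set.prime⟩
  have := charP_of_mem h.set.prime h.pR
  have := h.split.isAlgClosed
  exact h.pre.biset.locSurj_of fun z hz => (hB.locStruct h hQ).ext_pos hz

theorem Built.locGen (h : Setup p D e f a Qf c i₀ iT iF Reps κ comp b ef D₀ P)
    (hB : Built p D Qf i₀ iT iF Reps ef D₀ P ε ε₀ ε₁ d) {Q : Subgroup H} (hQ : Q ∈ Reps) :
    LocGen ε₀ ε₁ d Q := by
  have : Fact p.Prime := ⟨h.set.prime⟩
  have := charP_of_mem h.set.prime h.pR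
  have := h.split.isAlgClosed
  exact h.pre.biset.locGen_of fun a' ha' => (hB.locStruct h hQ).gen ha'

/-- `LocStruct.central`, `locL_central`, `locL_pow`, `null_of`. -/
theorem Built.null_central (h : Setup p D e f a Qf c i₀ iT iF Reps κ comp b ef D₀ P)
    (hB : Built p D Qf i₀ iT iF Reps ef D₀ P ε ε₀ ε₁ d) {Q : Subgroup H} (hQ : Q ∈ Reps)
    {z : MonoidAlgebra R G} (hz : SuppCent (imG Q) z)
    (hc : ∀ g ∈ CG Q, ∀ x, z.coeff (g⁻¹ * x * g) = z.coeff x)
    (h0 : ∀ x, (∀ δ ∈ D, x * (δ : G) = δ * x) → z.coeff x ∈ maximalIdeal R) :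
    ∃ m₀ : ℕ, ∀ m, m₀ ≤ m → Null ε₀ ε₁ d Q (z ^ m) := by
  have : Fact p.Prime := ⟨h.set.prime⟩
  have := charP_of_mem h.set.prime h.pR
  have := h.split.isAlgClosed
  have hD : D ≤ CH Q := h.set.le_CH (h.fam.lt Q hQ).2.le
  obtain ⟨m₀, hm⟩ := (hB.locStruct h hQ).central (z := locL R Q z) (locL_central hc)
    (fun x hx => by
      rw [coeff_locL, residue_eq_zero_iff]
      exact h0 x fun δ hδ => congrArg Subtype.val (hx ⟨δ, hD hδ⟩ hδ))
  refine ⟨m₀, fun m hm' => h.pre.biset.null_of ?_⟩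
  rw [locL_pow hz]
  exact hm m hm'

/-- `locL e` is a central idempotent acting as the identity on the complex, so `(1 - z) ^ m` acts
as `(locL e - locL z) ^ m` for `m ≥ 1`. -/
theorem Built.null_one_sub (h : Setup p D e f a Qf c i₀ iT iF Reps κ comp b ef D₀ P)
    (hB : Built p D Qf i₀ iT iF Reps ef D₀ P ε ε₀ ε₁ d) {Q : Subgroup H} (hQ : Q ∈ Reps)
    {z : MonoidAlgebra R G} (hz : SuppCent (imG Q) z)
    (hc : ∀ g ∈ CG Q, ∀ x, z.coeff (g⁻¹ * x * g) = z.coeff x)
    (h0 : ∀ x, (∀ δ ∈ D, x * (δ : G) = δ * x) → e.coeff x - z.coeff x ∈ maximalIdeal R) :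
    ∃ m₀ : ℕ, ∀ m, m₀ ≤ m → Null ε₀ ε₁ d Q ((1 - z) ^ m) := by
  have : Fact p.Prime := ⟨h.set.prime⟩
  have := charP_of_mem h.set.prime h.pR
  have := h.split.isAlgClosed
  have hle := (h.fam.lt Q hQ).2.le
  have hD : D ≤ CH Q := h.set.le_CH hle
  obtain ⟨σ, hC⟩ := hB.exists_cxData h
  have he : FixedBy (cjRep R G) ⊤ e := fixedBy_top_iff.2 h.blE.cent
  have hE : ∀ y, locL R Q e * y = y * locL R Q e :=
    locL_central (fun g _ x => by rw [← coeff_cjRep, he g trivial])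
  have hZ : ∀ y, (locL R Q e - locL R Q z) * y = y * (locL R Q e - locL R Q z) := fun y => by
    rw [sub_mul, mul_sub, hE, locL_central hc]
  obtain ⟨m₀, hm⟩ := (hB.locStruct h hQ).central (z := locL R Q e - locL R Q z) hZ
    (fun x hx => by
      have h1 := h0 x fun δ hδ => congrArg Subtype.val (hx ⟨δ, hD hδ⟩ hδ)
      rw [← residue_eq_zero_iff, map_sub, ← coeff_locL, ← coeff_locL] at h1
      simpa using h1)
  have h1 : ∀ u : Kern R H X, GInv u → ef * u = u →
      (lamQ X (ResidueField R) Q).asAlgebraHom (locL R Q e) * loc Q u.1 = loc Q u.1 := by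
    intro u hu hu'
    have h2 : piA R H X e * u = u := by rw [← hu', ← mul_assoc, h.piA_ef]
    rw [← h.pre.biset.loc_piA, ← locbuild_mul h hle (locbuild_ginv_piA h.blE.cent) hu, h2]
  have h2 : (lamQ X (ResidueField R) Q).asAlgebraHom (locL R Q e) * (loc Q ε₀.1 + loc Q ε₁.1) =
      loc Q ε₀.1 + loc Q ε₁.1 := by
    rw [mul_add, h1 _ hC.inv₀ (hB.ef_left h).1, h1 _ hC.inv₁ (hB.ef_left h).2.1]
  have h3 : ∀ m : ℕ, (lamQ X (ResidueField R) Q).asAlgebraHom ((1 - locL R Q z) ^ m) *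
      (loc Q ε₀.1 + loc Q ε₁.1) =
      (lamQ X (ResidueField R) Q).asAlgebraHom ((locL R Q e - locL R Q z) ^ m) *
        (loc Q ε₀.1 + loc Q ε₁.1) := by
    intro m
    induction m with
    | zero => rw [pow_zero, pow_zero]
    | succ m ih =>
      have h4 : (lamQ X (ResidueField R) Q).asAlgebraHom (1 - locL R Q z) *
          (loc Q ε₀.1 + loc Q ε₁.1) =
          (lamQ X (ResidueField R) Q).asAlgebraHom (locL R Q e - locL R Q z) *
            (loc Q ε₀.1 + loc Q ε₁.1) := by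
        rw [map_sub, map_sub, sub_mul, sub_mul, h2, map_one, one_mul]
      rw [pow_succ, map_mul, mul_assoc, h4, ← mul_assoc, ← map_mul, ← hZ, map_mul, mul_assoc, ih,
        ← mul_assoc, ← map_mul, ← pow_succ']
  have h5 : SuppCent (imG Q) (1 - z) :=
    mem_centAlg.1 (Subalgebra.sub_mem _ (Subalgebra.one_mem _) (mem_centAlg.2 hz))
  refine ⟨m₀, fun m hm' => h.pre.biset.null_of ?_⟩
  rw [locL_pow h5, locL_one_sub, h3]
  exact hm m hm'

end Pool.Agent.Lib.MP_b6945b_al.St
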