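import Pool.Agent.Lib.MP_b6945b_al.St.LocBar

set_option autoImplicit false

/-!
The local complex has no self-extensions in degrees `-1` and `1`.
-/

namespace Pool.Agent.Lib.MP_b6945b_al.St

variable {k C Γ U : Type} [Field k] [IsAlgClosed k] [Group C] [Fintype C] [Group Γ] [Fintype Γ]
  [AddCommGroup U] [Module k U] [FiniteDimensional k U]
  {p : ℕ} [Fact p.Prime] [CharP k p] {ι : Γ →* C} {Q D : Subgroup Γ}
  {lam : Representation k C U} {rho : Representation k Γ U} {ε₀ ε₁ d : Module.End k U}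

/-- The maps of degree `-1` that are cycles on both sides. -/
structure Local1Neg (rho : Representation k Γ U) (ε₀ ε₁ d y : Module.End k U) : Prop where
  eq : EquivOn rho rho ⊤ y
  h0 : ∀ u, ε₁ (y (ε₀ u)) = y u
  h1 : ∀ u, y (d u) = 0
  h2 : ∀ u, d (y u) = 0

omit [IsAlgClosed k] [FiniteDimensional k U] [Fact p.Prime] [CharP k p] in
lemma local1_comm (h : LocStruct p ι Q D lam rho ε₀ ε₁ d) (b : MonoidAlgebra k C) (g : Γ)
    (u : U) : rho g (lam.asAlgebraHom b u) = lam.asAlgebraHom b (rho g u) :=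
  EquivOn.asAlgebraHom (φ := rho g) (fun c _ u => (h.comm c g u).symm) b u

omit [IsAlgClosed k] [FiniteDimensional k U] [Fact p.Prime] [CharP k p] in
lemma local1_left (h : LocStruct p ι Q D lam rho ε₀ ε₁ d) {y : Module.End k U}
    (hy : Local1Neg rho ε₀ ε₁ d y) (b : MonoidAlgebra k C) :
    Local1Neg rho ε₀ ε₁ d (lam.asAlgebraHom b * y) where
  eq := fun g hg u => by
    rw [Module.End.mul_apply, Module.End.mul_apply, hy.eq g hg, local1_comm h]
  h0 := fun u => by
    rw [Module.End.mul_apply, Module.End.mul_apply, h.l1.asAlgebraHom, hy.h0]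
  h1 := fun u => by rw [Module.End.mul_apply, hy.h1, map_zero]
  h2 := fun u => by rw [Module.End.mul_apply, h.ld.asAlgebraHom, hy.h2, map_zero]

omit [IsAlgClosed k] [FiniteDimensional k U] [Fact p.Prime] [CharP k p] in
lemma local1_right (h : LocStruct p ι Q D lam rho ε₀ ε₁ d) {y : Module.End k U}
    (hy : Local1Neg rho ε₀ ε₁ d y) (b : MonoidAlgebra k C) :
    Local1Neg rho ε₀ ε₁ d (y * lam.asAlgebraHom b) where
  eq := fun g hg u => by
    rw [Module.End.mul_apply, Module.End.mul_apply, ← local1_comm h, hy.eq g hg]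
  h0 := fun u => by
    rw [Module.End.mul_apply, Module.End.mul_apply, ← h.l0.asAlgebraHom, hy.h0]
  h1 := fun u => by rw [Module.End.mul_apply, ← h.ld.asAlgebraHom, hy.h1]
  h2 := fun u => by rw [Module.End.mul_apply, hy.h2]

/-- The case of a map killed by the radical on both sides. -/
lemma local1_base (h : LocStruct p ι Q D lam rho ε₀ ε₁ d) {y : Module.End k U}
    (hy : Local1Neg rho ε₀ ε₁ d y) (hl : ∀ j ∈ Jac k C, lam.asAlgebraHom j * y = 0)
    (hr : ∀ j ∈ Jac k C, y * lam.asAlgebraHom j = 0) : y = 0 := by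
  obtain ⟨σ, hσ1, hσ2⟩ := exists_sigma_rep lam h.higL
  obtain ⟨ρ, η₀, η₁, δ, hB⟩ := h.exists_bar
  have hH := hB.heartI h
  obtain ⟨sb, hsb⟩ := hB.exists_desc (lam.asAlgebraHom σ)
    (fun j hj u => (hσ1 _).2 (mem_JU lam hj u))
  obtain ⟨y', hy'⟩ := hB.exists_desc y (fun j hj u => by
    have := LinearMap.congr_fun (hr j hj) u
    simpa using this)
  have hinj : Function.Injective sb := by
    rw [injective_iff_map_eq_zero]
    intro w hw
    obtain ⟨u, rfl⟩ := hB.surj w
    rw [hsb] at hw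
    exact (hB.ker u).2 ((hσ1 u).1 hw)
  obtain ⟨g, hg⟩ := sb.exists_leftInverse_of_injective (LinearMap.ker_eq_bot.2 hinj)
  have key : ∀ u, sb ((g ∘ₗ y') ((JU lam).mkQ u)) = y u := by
    intro u
    obtain ⟨u', hu'⟩ := hσ2 (y u) (fun j hj => by
      have := LinearMap.congr_fun (hl j hj) u
      simpa using this)
    have e : g (sb ((JU lam).mkQ u')) = (JU lam).mkQ u' := LinearMap.congr_fun hg _
    rw [LinearMap.comp_apply, hy', hu', ← hsb, e]
  have sρ : ∀ (c : Γ) w, sb (ρ c w) = rho c (sb w) := by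
    intro c w
    obtain ⟨u, rfl⟩ := hB.surj w
    rw [← hB.equiv c (Subgroup.mem_top c), hsb, hsb, local1_comm h]
  have s1 : ∀ w, sb (η₁ w) = ε₁ (sb w) := by
    intro w
    obtain ⟨u, rfl⟩ := hB.surj w
    rw [← hB.h1, hsb, hsb, h.l1.asAlgebraHom]
  have sd : ∀ w, sb (δ w) = d (sb w) := by
    intro w
    obtain ⟨u, rfl⟩ := hB.surj w
    rw [← hB.hd, hsb, hsb, h.ld.asAlgebraHom]
  have hz : (g ∘ₗ y' : Module.End k (U ⧸ JU lam)) = 0 := by
    refine hH.h1 ?_ ?_ ?_ ?_
    · intro c hc w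
      obtain ⟨u, rfl⟩ := hB.surj w
      apply hinj
      rw [← hB.equiv c hc, key, sρ, key, hy.eq c hc]
    · refine LinearMap.ext fun w => ?_
      obtain ⟨u, rfl⟩ := hB.surj w
      apply hinj
      rw [Module.End.mul_apply, Module.End.mul_apply, s1, ← hB.h0, key, key, hy.h0]
    · refine LinearMap.ext fun w => ?_
      obtain ⟨u, rfl⟩ := hB.surj w
      apply hinj
      rw [Module.End.mul_apply, ← hB.hd, key, hy.h1, LinearMap.zero_apply, map_zero]
    · refine LinearMap.ext fun w => ?_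
      obtain ⟨u, rfl⟩ := hB.surj w
      apply hinj
      rw [Module.End.mul_apply, sd, key, hy.h2, LinearMap.zero_apply, map_zero]
  refine LinearMap.ext fun u => ?_
  rw [← key, hz, LinearMap.zero_apply, map_zero, LinearMap.zero_apply]

lemma local1_step1 (h : LocStruct p ι Q D lam rho ε₀ ε₁ d) (n : ℕ) {y : Module.End k U}
    (hy : Local1Neg rho ε₀ ε₁ d y) (hl : ∀ j ∈ Jac k C, lam.asAlgebraHom j * y = 0)
    (hr : ∀ j ∈ Jac k C ^ n, y * lam.asAlgebraHom j = 0) : y = 0 := by
  induction n with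
  | zero =>
    have := hr 1 (by rw [Submodule.pow_zero, Ideal.one_eq_top]; exact Submodule.mem_top)
    rwa [map_one, mul_one] at this
  | succ n ih =>
    refine ih fun j' hj' => local1_base h (local1_right h hy j') (fun j hj => ?_) (fun j hj => ?_)
    · rw [← mul_assoc, hl j hj, zero_mul]
    · rw [mul_assoc, ← map_mul]
      exact hr _ (by rw [Submodule.pow_succ]; exact Ideal.mul_mem_mul hj' hj)

lemma local1_step2 (h : LocStruct p ι Q D lam rho ε₀ ε₁ d) (m n : ℕ) {y : Module.End k U}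
    (hy : Local1Neg rho ε₀ ε₁ d y) (hl : ∀ j ∈ Jac k C ^ m, lam.asAlgebraHom j * y = 0)
    (hr : ∀ j ∈ Jac k C ^ n, y * lam.asAlgebraHom j = 0) : y = 0 := by
  induction m with
  | zero =>
    have := hl 1 (by rw [Submodule.pow_zero, Ideal.one_eq_top]; exact Submodule.mem_top)
    rwa [map_one, one_mul] at this
  | succ m ih =>
    refine ih fun j' hj' =>
      local1_step1 h n (local1_left h hy j') (fun j hj => ?_) (fun j hj => ?_)
    · rw [← mul_assoc, ← map_mul]
      exact hl _ (by rw [Ideal.IsTwoSided.pow_succ]; exact Ideal.mul_mem_mul hj hj')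
    · rw [mul_assoc, hr j hj, mul_zero]

/-- The maps `y` in question are stable under composition with `lam.asAlgebraHom b` on both
sides.  If `y ≠ 0`, by nilpotence of the radical there is such a `y ≠ 0` killed by the radical on
both sides.  With `σ` from `exists_sigma_rep`, `lam σ = sb ∘ π` with `sb` injective, and
`y = sb ∘ yb ∘ π`; apply `HeartI.h1` to `yb`. -/
theorem LocStruct.ext_neg (h : LocStruct p ι Q D lam rho ε₀ ε₁ d) {y : Module.End k U}
    (hy : EquivOn rho rho ⊤ y) (h0 : ε₁ * y * ε₀ = y) (h1 : y * d = 0) (h2 : d * y = 0) :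
    y = 0 := by
  obtain ⟨n, hn⟩ := jac_nilpotent (k := k) (C := C)
  have hN : Local1Neg rho ε₀ ε₁ d y :=
    ⟨hy, fun u => LinearMap.congr_fun h0 u, fun u => LinearMap.congr_fun h1 u,
      fun u => LinearMap.congr_fun h2 u⟩
  refine local1_step2 h n n hN (fun j hj => ?_) (fun j hj => ?_)
  · rw [hn, Submodule.mem_bot] at hj
    rw [hj, map_zero, zero_mul]
  · rw [hn, Submodule.mem_bot] at hj
    rw [hj, map_zero, mul_zero]

omit [IsAlgClosed k] [Fintype Γ] [FiniteDimensional k U] in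
lemma local1_equiv_iff {a : Module.End k U} :
    EquivOn rho rho ⊤ a ↔ ∀ g, a * rho g = rho g * a :=
  ⟨fun h g => LinearMap.ext fun u => h g (Subgroup.mem_top g) u,
    fun h g _ u => LinearMap.congr_fun (h g) u⟩

omit [IsAlgClosed k] [Fintype Γ] [FiniteDimensional k U] in
lemma local1_equiv_mul {a b : Module.End k U} (ha : EquivOn rho rho ⊤ a)
    (hb : EquivOn rho rho ⊤ b) : EquivOn rho rho ⊤ (a * b) := fun g hg u => by
  rw [Module.End.mul_apply, Module.End.mul_apply, hb g hg, ha g hg]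

omit [IsAlgClosed k] [FiniteDimensional k U] in
lemma local1_avg_equiv (θ : Module.End k U) :
    EquivOn rho rho ⊤ (∑ g, rho g * θ * rho g⁻¹) := by
  rw [local1_equiv_iff]
  intro c
  rw [Finset.sum_mul, Finset.mul_sum]
  refine Fintype.sum_equiv (Equiv.mulLeft c⁻¹) _ _ fun g => ?_
  rw [Equiv.coe_mulLeft, mul_assoc (rho g * θ), ← map_mul, ← mul_assoc, ← mul_assoc, ← map_mul,
    mul_inv_cancel_left, mul_inv_rev, inv_inv]

omit [IsAlgClosed k] in
lemma local1_trace_nondeg {a : Module.End k U}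
    (h : ∀ θ : Module.End k U, LinearMap.trace k U (a * θ) = 0) : a = 0 := by
  refine LinearMap.ext fun u => ?_
  rw [LinearMap.zero_apply]
  refine (Module.forall_dual_apply_eq_zero_iff k (a u)).1 fun f => ?_
  have := h (f.smulRight u)
  have e : a * f.smulRight u = f.smulRight (a u) := by
    refine LinearMap.ext fun v => ?_
    simp
  rwa [e, LinearMap.trace_smulRight] at this

omit [IsAlgClosed k] in
lemma local1_trace_rep (ξ : Module.End k U →ₗ[k] k) :
    ∃ θ : Module.End k U, ∀ a, ξ a = LinearMap.trace k U (θ * a) := by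
  let B : Module.End k U →ₗ[k] Module.Dual k (Module.End k U) :=
    (LinearMap.mul k (Module.End k U)).compr₂ (LinearMap.trace k U)
  have hB : ∀ θ a, B θ a = LinearMap.trace k U (θ * a) := fun θ a => rfl
  have hinj : Function.Injective B := by
    rw [injective_iff_map_eq_zero]
    intro θ hθ
    exact local1_trace_nondeg fun a => by rw [← hB, hθ, LinearMap.zero_apply]
  have hsurj : Function.Surjective B :=
    (LinearMap.injective_iff_surjective_of_finrank_eq_finrank
      (Subspace.dual_finrank_eq).symm).1 hinj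
  obtain ⟨θ, hθ⟩ := hsurj ξ
  exact ⟨θ, fun a => by rw [← hB, hθ]⟩

omit [IsAlgClosed k] in
/-- The form `s a = trace (a ι)` on the algebra of equivariant maps is symmetric
(`trace (a b ι) = trace (a (∑ g ι g⁻¹) b ι) = trace (a ι b)`) and nondegenerate (every equivariant
`b` is `∑ g θ g⁻¹` with `θ = b ι`, and `s (a ∑ g θ g⁻¹) = trace (a θ)`); so every functional on the
equivariant maps is represented. -/
lemma exists_form_equiv (h : ∃ ι' : Module.End k U, ∀ u, ∑ g, rho g (ι' (rho g⁻¹ u)) = u) :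
    ∃ s : Module.End k U →ₗ[k] k,
      (∀ a b, EquivOn rho rho ⊤ a → EquivOn rho rho ⊤ b → s (a * b) = s (b * a)) ∧
      (∀ a, EquivOn rho rho ⊤ a → (∀ b, EquivOn rho rho ⊤ b → s (a * b) = 0) → a = 0) ∧
      ∀ ξ : Module.End k U →ₗ[k] k, ∃ y, EquivOn rho rho ⊤ y ∧
        ∀ a, EquivOn rho rho ⊤ a → ξ a = s (y * a) := by
  obtain ⟨ι', hι⟩ := h
  have h1 : ∑ g, rho g * ι' * rho g⁻¹ = 1 := by
    refine LinearMap.ext fun u => ?_
    rw [LinearMap.sum_apply]
    exact hι u
  have h2 : ∑ g, rho g⁻¹ * ι' * rho g = 1 := by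
    rw [← h1]
    refine Fintype.sum_equiv (Equiv.inv Γ) _ _ fun g => ?_
    rw [Equiv.inv_apply, inv_inv]
  let s : Module.End k U →ₗ[k] k := LinearMap.trace k U ∘ₗ LinearMap.mulRight k ι'
  have hs : ∀ a, s a = LinearMap.trace k U (a * ι') := fun a => rfl
  have key : ∀ a θ : Module.End k U, EquivOn rho rho ⊤ a →
      s (a * ∑ g, rho g * θ * rho g⁻¹) = LinearMap.trace k U (a * θ) := by
    intro a θ ha
    rw [local1_equiv_iff] at ha
    have e : ∀ g, LinearMap.trace k U (a * (rho g * θ * rho g⁻¹) * ι') =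
        LinearMap.trace k U (a * θ * (rho g⁻¹ * ι' * rho g)) := by
      intro g
      have e1 : a * (rho g * θ * rho g⁻¹) * ι' = rho g * (a * θ * rho g⁻¹ * ι') := by
        simp only [← mul_assoc]
        rw [ha g]
      rw [e1, LinearMap.trace_mul_comm]
      simp only [mul_assoc]
    rw [hs, Finset.mul_sum, Finset.sum_mul, map_sum, Finset.sum_congr rfl fun g _ => e g,
      ← map_sum, ← Finset.mul_sum, h2, mul_one]
  have symm : ∀ a b, EquivOn rho rho ⊤ a → EquivOn rho rho ⊤ b → s (a * b) = s (b * a) := by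
    intro a b ha hb
    have e : b = ∑ g, rho g * (ι' * b) * rho g⁻¹ := by
      have hb' := local1_equiv_iff.1 hb
      calc b = (∑ g, rho g * ι' * rho g⁻¹) * b := by rw [h1, one_mul]
        _ = _ := by
          rw [Finset.sum_mul]
          refine Finset.sum_congr rfl fun g _ => ?_
          rw [mul_assoc, ← hb', mul_assoc, mul_assoc, mul_assoc]
    calc s (a * b) = s (a * ∑ g, rho g * (ι' * b) * rho g⁻¹) := by rw [← e]
      _ = LinearMap.trace k U (a * (ι' * b)) := key a _ ha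
      _ = s (b * a) := by rw [hs, ← mul_assoc, LinearMap.trace_mul_cycle]
  refine ⟨s, symm, fun a ha h0 => local1_trace_nondeg fun θ => ?_, fun ξ => ?_⟩
  · rw [← key a θ ha]
    exact h0 _ (local1_avg_equiv θ)
  · obtain ⟨θ, hθ⟩ := local1_trace_rep ξ
    refine ⟨_, local1_avg_equiv θ, fun a ha => ?_⟩
    rw [symm _ _ (local1_avg_equiv θ) ha, key a θ ha, hθ, LinearMap.trace_mul_comm]

/-- Duality: if `ε₀ z ε₁` is not in the subspace of all `a d - d a`, a functional separates; it is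
represented by `y`, and `y' = ε₁ y ε₀` has `d y' = 0`, `y' d = 0`. -/
theorem LocStruct.ext_pos (h : LocStruct p ι Q D lam rho ε₀ ε₁ d) {z : Module.End k U}
    (hz : EquivOn rho rho ⊤ z) :
    ∃ a : Module.End k U, EquivOn rho rho ⊤ a ∧ ε₀ * a * ε₀ + ε₁ * a * ε₁ = a ∧
      a * d - d * a = ε₀ * z * ε₁ := by
  obtain ⟨s, symm, nd, rep⟩ := exists_form_equiv (rho := rho) h.higR
  let A : Submodule k (Module.End k U) :=
    { carrier := {a | EquivOn rho rho ⊤ a ∧ ε₀ * a * ε₀ + ε₁ * a * ε₁ = a}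
      add_mem' := by
        rintro a b ⟨ha, ha'⟩ ⟨hb, hb'⟩
        refine ⟨fun g hg u => ?_, ?_⟩
        · rw [LinearMap.add_apply, LinearMap.add_apply, ha g hg, hb g hg, map_add]
        · rw [mul_add, add_mul, mul_add, add_mul, add_add_add_comm, ha', hb']
      zero_mem' := ⟨fun g _ u => by simp, by simp⟩
      smul_mem' := by
        rintro c a ⟨ha, ha'⟩
        refine ⟨fun g hg u => ?_, ?_⟩
        · rw [LinearMap.smul_apply, LinearMap.smul_apply, ha g hg, map_smul]
        · rw [mul_smul_comm, smul_mul_assoc, mul_smul_comm, smul_mul_assoc, ← smul_add, ha'] }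
  let Φ : Module.End k U →ₗ[k] Module.End k U := LinearMap.mulRight k d - LinearMap.mulLeft k d
  have hΦ : ∀ a, Φ a = a * d - d * a := fun a => rfl
  by_contra hne
  have hx : ε₀ * z * ε₁ ∉ A.map Φ := by
    rintro ⟨a, ⟨ha, ha'⟩, e⟩
    exact hne ⟨a, ha, ha', e⟩
  obtain ⟨ξ, hξ, hξ'⟩ := Submodule.exists_dual_map_eq_bot_of_notMem hx inferInstance
  have hA : ∀ a, EquivOn rho rho ⊤ a → ε₀ * a * ε₀ + ε₁ * a * ε₁ = a →
      ξ (a * d - d * a) = 0 := by
    intro a ha ha'
    have : ξ (Φ a) ∈ (A.map Φ).map ξ :=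
      Submodule.mem_map_of_mem (Submodule.mem_map_of_mem (show a ∈ A from ⟨ha, ha'⟩))
    rwa [hξ', Submodule.mem_bot] at this
  obtain ⟨y, hy, hrep⟩ := rep ξ
  obtain ⟨e00, e11, e01, e10, d0, d1⟩ := h.tt
  have hd0 : d * ε₀ = 0 := by rw [← d1, mul_assoc, e10, mul_zero]
  have hd1 : ε₁ * d = 0 := by rw [← d0, ← mul_assoc, e10, zero_mul]
  have c1 : d * y * ε₀ = 0 := by
    refine nd _ (local1_equiv_mul (local1_equiv_mul h.rd hy) h.r0) fun b hb => ?_
    have hb' := local1_equiv_mul (local1_equiv_mul h.r0 hb) h.r0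
    have e := hA (ε₀ * b * ε₀) hb' (by
      rw [← mul_assoc, ← mul_assoc, e00, mul_assoc (ε₀ * b), e00, ← mul_assoc ε₁, ← mul_assoc ε₁,
        e10, zero_mul, zero_mul, zero_mul, add_zero])
    rw [← mul_assoc d, ← mul_assoc d, hd0, zero_mul, zero_mul, sub_zero, mul_assoc (ε₀ * b), d0,
      hrep _ (local1_equiv_mul (local1_equiv_mul h.r0 hb) h.rd), ← mul_assoc,
      symm _ _ (local1_equiv_mul hy (local1_equiv_mul h.r0 hb)) h.rd] at e
    simpa only [mul_assoc] using e
  have c2 : ε₁ * y * d = 0 := by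
    refine nd _ (local1_equiv_mul (local1_equiv_mul h.r1 hy) h.rd) fun b hb => ?_
    have hb' := local1_equiv_mul (local1_equiv_mul h.r1 hb) h.r1
    have e := hA (ε₁ * b * ε₁) hb' (by
      rw [← mul_assoc, ← mul_assoc, e01, zero_mul, zero_mul, zero_mul, zero_add, ← mul_assoc ε₁,
        ← mul_assoc ε₁, e11, mul_assoc (ε₁ * b), e11])
    rw [mul_assoc (ε₁ * b), hd1, mul_zero, zero_sub, map_neg, neg_eq_zero, ← mul_assoc d,
      ← mul_assoc d, d1, hrep _ (local1_equiv_mul (local1_equiv_mul h.rd hb) h.r1), ← mul_assoc,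
      symm _ _ (local1_equiv_mul hy (local1_equiv_mul h.rd hb)) h.r1] at e
    simpa only [mul_assoc] using e
  have hy0 : ε₁ * y * ε₀ = 0 := by
    refine h.ext_neg (local1_equiv_mul (local1_equiv_mul h.r1 hy) h.r0) ?_ ?_ ?_
    · rw [← mul_assoc, ← mul_assoc, e11, mul_assoc (ε₁ * y), e00]
    · rw [mul_assoc, d0, c2]
    · rw [← mul_assoc, ← mul_assoc, d1, c1]
  apply hξ
  rw [hrep _ (local1_equiv_mul (local1_equiv_mul h.r0 hz) h.r1), ← mul_assoc,
    symm _ _ (local1_equiv_mul hy (local1_equiv_mul h.r0 hz)) h.r1, ← mul_assoc, ← mul_assoc, hy0,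
    zero_mul, map_zero]

end Pool.Agent.Lib.MP_b6945b_al.St
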