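import Pool.Agent.Lib.MP_b6945b_al.St.ModelDefs

set_option autoImplicit false

/-!
Existence of the biset and elementary group theory.
-/

namespace Pool.Agent.Lib.MP_b6945b_al.St

open IsLocalRing

variable {G : Type} [Group G] [Fintype G] {H : Subgroup G} {p : ℕ} {D : Subgroup H}

lemma model1_conj_iff {Q Q' : Subgroup H} (g : H) (hle : ∀ q ∈ Q, g⁻¹ * q * g ∈ Q')
    (hc : Nat.card Q' ≤ Nat.card Q) (x : H) : x ∈ Q ↔ g⁻¹ * x * g ∈ Q' := by
  let S : Subgroup H := Q'.comap (MulAut.conj g⁻¹).toMonoidHom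
  have hS : ∀ y, y ∈ S ↔ g⁻¹ * y * g ∈ Q' := fun y => by simp [S]
  have h1 : Nat.card S ≤ Nat.card Q' :=
    Nat.le_of_dvd Nat.card_pos
      (Subgroup.card_comap_dvd_of_injective Q' _ (MulAut.conj g⁻¹).injective)
  have : Q = S := Subgroup.eq_of_le_of_card_ge (fun q hq => (hS q).2 (hle q hq)) (h1.trans hc)
  rw [← hS, ← this]

/-- Groups of order dividing `p ^ 2` are commutative. -/
lemma Setting.comm (h : Setting p D) : ∀ x ∈ D, ∀ y ∈ D, x * y = y * x := by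
  have hp : Fact p.Prime := ⟨h.prime⟩
  have key : IsMulCommutative D := by
    obtain ⟨k, hk, e⟩ := (Nat.dvd_prime_pow h.prime).1 h.card
    by_cases h2 : k = 2
    · subst h2
      exact IsPGroup.isMulCommutative_of_card_eq_prime_sq e
    · have hd : Nat.card D ∣ p := by
        rw [e]
        have : k ≤ 1 := by omega
        simpa using pow_dvd_pow p this
      exact (isCyclic_of_card_dvd_prime hd).isMulCommutative
  intro x hx y hy
  exact congrArg Subtype.val (key.is_comm.comm (⟨x, hx⟩ : D) ⟨y, hy⟩)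

lemma Setting.card_of_lt (h : Setting p D) {Q : Subgroup H} (h0 : Q ≠ ⊥) (hQ : Q < D) :
    Nat.card Q = p ∧ Nat.card D = p ^ 2 ∧ Q.relIndex D = p := by
  have hd : Nat.card Q ∣ Nat.card D := Subgroup.card_dvd_of_le hQ.le
  obtain ⟨j, hj, ej⟩ := (Nat.dvd_prime_pow h.prime).1 h.card
  obtain ⟨i, hi, ei⟩ := (Nat.dvd_prime_pow h.prime).1 (hd.trans h.card)
  have hi0 : i ≠ 0 := by
    rintro rfl
    exact h0 (Subgroup.card_eq_one.1 (by simpa using ei))
  have hij : i < j := by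
    by_contra hc
    refine hQ.ne (Subgroup.eq_of_le_of_card_ge hQ.le ?_)
    rw [ei, ej]
    exact Nat.pow_le_pow_right h.prime.pos (by omega)
  have e1 : i = 1 := by omega
  have e2 : j = 2 := by omega
  subst e1 e2
  refine ⟨by simpa using ei, ej, ?_⟩
  have h1 := (Q.subgroupOf D).card_mul_index
  rw [Nat.card_congr (Subgroup.subgroupOfEquivOfLe hQ.le).toEquiv, ei, ej, pow_one, sq] at h1
  exact Nat.eq_of_mul_eq_mul_left h.prime.pos h1

lemma Setting.le_CH (h : Setting p D) {Q : Subgroup H} (hQ : Q ≤ D) : D ≤ CH Q := by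
  intro x hx q hq
  exact h.comm q (hQ hq) x hx

/-- If `δ ∉ Q` then `D` is generated by `Q` and `δ` (prime index), so `g` normalises `D`. -/
lemma Setting.tiData (h : Setting p D) {Q : Subgroup H} (h0 : Q ≠ ⊥) (hQ : Q < D) :
    TIData (iotaQ Q) (Q.subgroupOf (CH Q)) (D.subgroupOf (CH Q)) := by
  have hn := h.normal
  refine ⟨fun a b e => ?_, fun x hx => hQ.le hx, hn.subgroupOf _, fun q hq c => ?_,
    fun g hg δ hδ δ' hδ' e => ?_⟩
  · have := congrArg Subtype.val e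
    exact Subtype.ext (Subtype.ext this)
  · exact Subtype.ext (mem_CG.1 c.2 _ hq)
  · by_contra hc
    apply hg
    let S : Subgroup H :=
      { carrier := {x | x ∈ D ∧ ∃ x' ∈ D, (g : G)⁻¹ * x * g = x'}
        one_mem' := ⟨D.one_mem, 1, D.one_mem, by simp⟩
        mul_mem' := by
          rintro x y ⟨hx, x', hx', ex⟩ ⟨hy, y', hy', ey⟩
          refine ⟨D.mul_mem hx hy, x' * y', D.mul_mem hx' hy', ?_⟩
          rw [Subgroup.coe_mul, Subgroup.coe_mul, ← ex, ← ey]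
          simp [mul_assoc]
        inv_mem' := by
          rintro x ⟨hx, x', hx', ex⟩
          refine ⟨D.inv_mem hx, x'⁻¹, D.inv_mem hx', ?_⟩
          rw [Subgroup.coe_inv, Subgroup.coe_inv, ← ex]
          simp [mul_assoc] }
    have hQS : Q ≤ S := fun q hq => ⟨hQ.le hq, q, hQ.le hq, by
      rw [mul_assoc, mem_CG.1 g.2 q hq]
      simp⟩
    have hδS : (δ : H) ∈ S := ⟨hδ, δ', hδ', congrArg Subtype.val e⟩
    have hSD : S = D := by
      by_contra hne
      have hlt : S < D := lt_of_le_of_ne (fun x hx => hx.1) hne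
      have hS0 : S ≠ ⊥ := fun e0 => h0 (le_bot_iff.1 (e0 ▸ hQS))
      have : Q = S := Subgroup.eq_of_le_of_card_ge hQS (by
        rw [(h.card_of_lt h0 hQ).1, (h.card_of_lt hS0 hlt).1])
      exact hc (Subgroup.mem_subgroupOf.2 (this.ge hδS))
    have hgH : (g : G) ∈ H := h.norm g (fun x hx => (hSD.ge hx).2)
    exact ⟨⟨⟨g, hgH⟩, fun q hq => Subtype.ext (mem_CG.1 g.2 q hq)⟩, rfl⟩

lemma Setting.idx (h : Setting p D) {Q : Subgroup H} (h0 : Q ≠ ⊥) (hQ : Q < D) :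
    (Q.subgroupOf (CH Q)).relIndex (D.subgroupOf (CH Q)) = p := by
  rw [Subgroup.relIndex_subgroupOf (h.le_CH hQ.le)]
  exact (h.card_of_lt h0 hQ).2.2

/-- Take representatives of the conjugacy classes of the subgroups strictly between `⊥` and `D`,
and `I = Option ((Σ Q : Reps, CG Q) ⊕ Bool)`. -/
theorem exists_family (D : Subgroup H) [D.Normal] :
    ∃ (I : Type) (_ : Fintype I) (Qf : I → Subgroup H) (c : I → G) (i₀ iT iF : I)
      (Reps : Finset (Subgroup H)), Family D Qf c i₀ iT iF Reps := by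
  classical
  let s : Setoid (Subgroup H) :=
    { r := fun Q Q' => ∃ h : H, ∀ x, x ∈ Q ↔ h * x * h⁻¹ ∈ Q'
      iseqv :=
        ⟨fun Q => ⟨1, fun x => by simp⟩,
          by
            rintro Q Q' ⟨h, e⟩
            exact ⟨h⁻¹, fun x => by rw [e]; simp [mul_assoc]⟩,
          by
            rintro Q Q' Q'' ⟨h, e⟩ ⟨h', e'⟩
            exact ⟨h' * h, fun x => by rw [e, e']; simp [mul_assoc]⟩⟩ }
  have hn : D.Normal := inferInstance
  have hfin : Fintype (Subgroup H) := Fintype.ofFinite _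
  let Reps : Finset (Subgroup H) :=
    (Finset.univ.filter fun Q => Q ≠ ⊥ ∧ Q < D).image fun Q => (Quotient.mk s Q).out
  have hrel : ∀ Q, ∃ h : H, ∀ x, x ∈ (Quotient.mk s Q).out ↔ h * x * h⁻¹ ∈ Q :=
    fun Q => Quotient.mk_out (s := s) Q
  let I : Type := Option ((Σ Q : Reps, CG (Q : Subgroup H)) ⊕ Bool)
  let Qf : I → Subgroup H := fun i => match i with
    | none => ⊤
    | some (Sum.inl x) => x.1
    | some (Sum.inr _) => ⊥
  let c : I → G := fun i => match i with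
    | none => 1
    | some (Sum.inl x) => x.2
    | some (Sum.inr _) => 1
  refine ⟨I, Fintype.ofFinite _, Qf, c, none, some (Sum.inr true), some (Sum.inr false), Reps,
    rfl, rfl, rfl, rfl, rfl, by simp [I], by simp [I], by simp [I], ?_, ?_, ?_, ?_, ?_, ?_⟩
  · rintro (_ | x | _)
    · exact Subgroup.one_mem _
    · exact x.2.2
    · exact Subgroup.one_mem _
  · rintro (_ | x | _ | _) h1 h2 h3
    · exact absurd rfl h1
    · exact x.1.2
    · exact absurd rfl h3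
    · exact absurd rfl h2
  · intro Q hQ g hg
    exact ⟨some (Sum.inl ⟨⟨Q, hQ⟩, ⟨g, hg⟩⟩), rfl, rfl⟩
  · intro Q hQ
    obtain ⟨Q', hQ', rfl⟩ := Finset.mem_image.1 hQ
    obtain ⟨h0, hlt⟩ := (Finset.mem_filter.1 hQ').2
    obtain ⟨h, e⟩ := hrel Q'
    refine ⟨fun e0 => h0 ?_, lt_of_le_of_ne (fun x hx => ?_) (fun e0 => hlt.not_ge fun x hx => ?_)⟩
    · refine (Subgroup.eq_bot_iff_forall _).2 fun x hx => ?_
      have : h⁻¹ * x * h ∈ (Quotient.mk s Q').out := by rw [e]; simpa [mul_assoc] using hx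
      rw [e0, Subgroup.mem_bot] at this
      calc x = h * (h⁻¹ * x * h) * h⁻¹ := by simp [mul_assoc]
        _ = 1 := by rw [this]; simp
    · have := hn.conj_mem _ (hlt.le ((e x).1 hx)) h⁻¹
      simpa [mul_assoc] using this
    · have : h⁻¹ * x * h ∈ (Quotient.mk s Q').out := by
        rw [e0]
        simpa using hn.conj_mem _ hx h⁻¹
      rw [e] at this
      simpa [mul_assoc] using this
  · intro Q' h0 hlt
    exact ⟨_, Finset.mem_image.2 ⟨Q', Finset.mem_filter.2 ⟨Finset.mem_univ _, h0, hlt⟩, rfl⟩,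
      hrel Q'⟩
  · intro Q hQ Q' hQ' h e
    obtain ⟨A, -, rfl⟩ := Finset.mem_image.1 hQ
    obtain ⟨B, -, rfl⟩ := Finset.mem_image.1 hQ'
    have : Quotient.mk s (Quotient.mk s A).out = Quotient.mk s (Quotient.mk s B).out :=
      Quotient.sound ⟨h, e⟩
    rw [Quotient.out_eq, Quotient.out_eq] at this
    rw [this]

/-- `X = Σ i, (G × H) ⧸ Δ (Qf i)` with `κ ⟨i, (g, h)⟩ = g * c i * h⁻¹`. -/
theorem exists_preModel {I : Type} [Fintype I] (Qf : I → Subgroup H) (c : I → G)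
    (hc : ∀ i, c i ∈ CG (Qf i)) :
    ∃ (X : Type) (_ : Fintype X) (_ : DecidableEq X) (_ : MulAction (G × H) X) (κ : X → G)
      (comp : X → I) (b : I → X), PreModel Qf c κ comp b := by
  classical
  let Δ : I → Subgroup (G × H) := fun i =>
    { carrier := {γ | γ.2 ∈ Qf i ∧ γ.1 = γ.2}
      one_mem' := ⟨Subgroup.one_mem _, rfl⟩
      mul_mem' := by
        rintro γ γ' ⟨h1, h2⟩ ⟨h3, h4⟩
        exact ⟨Subgroup.mul_mem _ h1 h3, by simp [h2, h4]⟩
      inv_mem' := by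
        rintro γ ⟨h1, h2⟩
        exact ⟨Subgroup.inv_mem _ h1, by simp [h2]⟩ }
  have hΔ : ∀ i γ, γ ∈ Δ i ↔ γ.2 ∈ Qf i ∧ γ.1 = γ.2 := fun _ _ => Iff.rfl
  let k : ∀ i, (G × H) ⧸ Δ i → G := fun i x =>
    Quotient.liftOn' x (fun γ => γ.1 * c i * ((γ.2 : G))⁻¹) (by
      intro γ γ' e
      obtain ⟨h1, h2⟩ := (hΔ i _).1 (QuotientGroup.leftRel_apply.1 e)
      have h3 := mem_CG.1 (hc i) _ h1
      have h4 : γ'.1 = γ.1 * ((γ⁻¹ * γ').2 : G) := by rw [← h2]; simp
      have h5 : (γ'.2 : G) = γ.2 * ((γ⁻¹ * γ').2 : G) := by simp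
      rw [h4, h5, mul_assoc γ.1 _ (c i), h3]
      simp [mul_assoc])
  have hk : ∀ i (γ : G × H), k i (QuotientGroup.mk γ) = γ.1 * c i * ((γ.2 : G))⁻¹ :=
    fun _ _ => rfl
  let X : Type := Σ i, (G × H) ⧸ Δ i
  have hsm : ∀ (γ γ' : G × H) i, γ • (⟨i, QuotientGroup.mk γ'⟩ : X) =
      ⟨i, QuotientGroup.mk (γ * γ')⟩ := fun _ _ _ => rfl
  have hfix : ∀ (γ γ' : G × H) i, γ • (⟨i, QuotientGroup.mk γ'⟩ : X) = ⟨i, QuotientGroup.mk γ'⟩ ↔
      (γ * γ')⁻¹ * γ' ∈ Δ i := fun γ γ' i => by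
    rw [hsm, ← QuotientGroup.eq]
    exact ⟨fun e => eq_of_heq (Sigma.mk.inj e).2, fun e => by rw [e]⟩
  refine ⟨X, Fintype.ofFinite _, inferInstance, inferInstance, fun x => k x.1 x.2, fun x => x.1,
    fun i => ⟨i, QuotientGroup.mk 1⟩, ⟨?_, ?_, ?_⟩, ?_, fun _ => rfl, ?_, ?_, ?_⟩
  · rintro g ⟨i, x⟩ e
    induction x using QuotientGroup.induction_on with
    | H γ =>
      have := ((hΔ i _).1 ((hfix _ _ _).1 e)).2
      have h2 : γ.1⁻¹ * g⁻¹ * γ.1 = 1 := by simpa using this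
      calc g = γ.1 * (γ.1⁻¹ * g⁻¹ * γ.1)⁻¹ * γ.1⁻¹ := by simp [mul_assoc]
        _ = 1 := by rw [h2]; simp
  · rintro g ⟨i, x⟩ e
    induction x using QuotientGroup.induction_on with
    | H γ =>
      have := ((hΔ i _).1 ((hfix _ _ _).1 e)).2
      have h2 : ((γ.2⁻¹ * g⁻¹ * γ.2 : H) : G) = 1 := by simpa using this.symm
      have h3 : γ.2⁻¹ * g⁻¹ * γ.2 = 1 := by exact_mod_cast h2
      calc g = γ.2 * (γ.2⁻¹ * g⁻¹ * γ.2)⁻¹ * γ.2⁻¹ := by simp [mul_assoc]
        _ = 1 := by rw [h3]; simp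
  · rintro γ ⟨i, x⟩
    induction x using QuotientGroup.induction_on with
    | H γ' =>
      rw [hsm]
      change k i (QuotientGroup.mk (γ * γ')) = γ.1 * k i (QuotientGroup.mk γ') * _
      rw [hk, hk]
      simp [mul_assoc]
  · rintro γ ⟨i, x⟩
    rfl
  · rintro ⟨i, x⟩
    induction x using QuotientGroup.induction_on with
    | H γ' => exact ⟨γ', by rw [hsm, mul_one]⟩
  · intro i γ
    rw [hfix, mul_one, mul_one, Subgroup.inv_mem_iff, hΔ]
  · intro i
    change k i (QuotientGroup.mk 1) = _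
    rw [hk]
    simp

variable {X : Type} [Fintype X] [DecidableEq X] [MulAction (G × H) X] {I : Type}
  {Qf : I → Subgroup H} {c : I → G} {κ : X → G} {comp : X → I} {b : I → X} {i₀ iT iF : I}
  {Reps : Finset (Subgroup H)}

theorem PreModel.exists_kers {R : Type} [CommRing R] [Fintype H] (h : PreModel Qf c κ comp b)
    (e : MonoidAlgebra R G) {f : MonoidAlgebra R H} (hf : ∀ y, f * y = y * f) (i₀ iF : I) :
    ∃ (ef D₀ : Kern R H X) (P : (I → Prop) → Kern R H X), Kers e f κ comp i₀ iF ef D₀ P := by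
  classical
  refine ⟨piA R H X e * ⟨rhoM R H X f, rhoM_mem hf⟩,
    ⟨fun x y => if comp x = i₀ ∧ comp y ≠ i₀ ∧ comp y ≠ iF ∧ κ x = κ y then 1 else 0, ?_⟩,
    fun S => ⟨fun x y => if x = y ∧ S (comp x) then 1 else 0, ?_⟩, rfl, fun _ _ _ => ?_,
    fun _ _ => ?_⟩
  · refine (mem_Kern R H X).2 fun g x y => ?_
    simp [h.comp_smul, h.biset.map]
  · refine (mem_Kern R H X).2 fun g x y => ?_
    simp [h.comp_smul]
  · exact if_congr Iff.rfl rfl rfl
  · exact if_congr Iff.rfl rfl rfl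

section

omit [Fintype G] [Fintype X] [DecidableEq X]

lemma model1_stab (h : PreModel Qf c κ comp b) {x : X} {β γ : G × H} (eβ : x = β • b (comp x))
    (e : γ • x = x) :
    β.2⁻¹ * γ.2 * β.2 ∈ Qf (comp x) ∧ β.1⁻¹ * γ.1 * β.1 = ((β.2⁻¹ * γ.2 * β.2 : H) : G) := by
  have : (β⁻¹ * γ * β) • b (comp x) = b (comp x) := by
    rw [mul_smul, mul_smul, ← eβ, e, inv_smul_eq_iff, ← eβ]
  exact (h.stab _ _).1 this

/-- `κ` is injective on the copy of `G`. -/
lemma PreModel.kappa_inj (h : PreModel Qf c κ comp b) (hF : Family D Qf c i₀ iT iF Reps) {x y : X}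
    (hx : comp x = i₀) (hy : comp y = i₀) (e : κ x = κ y) : x = y := by
  obtain ⟨γ, ex⟩ := h.trans x
  obtain ⟨γ', ey⟩ := h.trans y
  rw [hx] at ex
  rw [hy] at ey
  rw [ex, ey, h.biset.map, h.biset.map, h.kb, hF.c0, mul_one, mul_one] at e
  have : (γ'⁻¹ * γ) • b i₀ = b i₀ := by
    rw [h.stab, hF.q0]
    refine ⟨trivial, ?_⟩
    have e2 : γ.1 = γ'.1 * ((γ'.2 : G))⁻¹ * γ.2 := by rw [← e]; simp
    simp [e2, mul_assoc]
  rw [ex, ey, ← inv_smul_eq_iff.1 ((mul_smul _ _ _).symm.trans this)]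

lemma PreModel.kappa_pt (h : PreModel Qf c κ comp b) (hF : Family D Qf c i₀ iT iF Reps) (g : G) :
    κ (((g, 1) : G × H) • b i₀) = g ∧ comp (((g, 1) : G × H) • b i₀) = i₀ := by
  refine ⟨?_, by rw [h.comp_smul, h.comp_b]⟩
  rw [h.biset.map, h.kb, hF.c0]
  simp

/-- Points of the copy of `G` over the centraliser are fixed. -/
lemma PreModel.fix_of_cent (h : PreModel Qf c κ comp b) (hF : Family D Qf c i₀ iT iF Reps)
    {Q : Subgroup H} {x : X} (hx : comp x = i₀) (hc : κ x ∈ CG Q) :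
    ∀ q ∈ Q, (((q : G), q) : G × H) • x = x := by
  intro q hq
  refine h.kappa_inj hF (by rw [h.comp_smul, hx]) hx ?_
  rw [h.biset.map]
  change (q : G) * κ x * (q : G)⁻¹ = κ x
  rw [mem_CG.1 hc q hq]
  simp

lemma PreModel.conj_le (h : PreModel Qf c κ comp b) {Q : Subgroup H} (x : Fix X Q) {γ : G × H}
    (e : x.1 = γ • b (comp x.1)) : ∀ q ∈ Q, γ.2⁻¹ * q * γ.2 ∈ Qf (comp x.1) := by
  intro q hq
  exact (model1_stab h e (x.2 q hq)).1

end

omit [Fintype X] [DecidableEq X] in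
/-- Fixed points of a representative lie in the copy of `G` or in an orbit of its type. -/
lemma PreModel.comp_fix (h : PreModel Qf c κ comp b) (hS : Setting p D)
    (hF : Family D Qf c i₀ iT iF Reps) {Q : Subgroup H} (hQ : Q ∈ Reps) (x : Fix X Q) :
    comp x.1 = i₀ ∨ Qf (comp x.1) = Q := by
  by_cases h0 : comp x.1 = i₀
  · exact Or.inl h0
  right
  obtain ⟨γ, e⟩ := h.trans x.1
  have hle := h.conj_le x e
  obtain ⟨hQ0, hQD⟩ := hF.lt Q hQ
  have hbot : Qf (comp x.1) ≠ ⊥ := fun e0 => hQ0 <| by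
    refine (Subgroup.eq_bot_iff_forall _).2 fun q hq => ?_
    have := hle q hq
    rw [e0, Subgroup.mem_bot] at this
    calc q = γ.2 * (γ.2⁻¹ * q * γ.2) * γ.2⁻¹ := by simp [mul_assoc]
      _ = 1 := by rw [this]; simp
  have hR : Qf (comp x.1) ∈ Reps :=
    hF.other _ h0 (fun e0 => hbot (e0 ▸ hF.qT)) (fun e0 => hbot (e0 ▸ hF.qF))
  obtain ⟨hR0, hRD⟩ := hF.lt _ hR
  have := model1_conj_iff γ.2 hle (by
    rw [(hS.card_of_lt hQ0 hQD).1, (hS.card_of_lt hR0 hRD).1])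
  exact (hF.uniq Q hQ _ hR γ.2⁻¹ (fun y => by simpa using this y)).symm

omit [Fintype X] [DecidableEq X] in
lemma PreModel.comp_fix_D (h : PreModel Qf c κ comp b) (hS : Setting p D)
    (hF : Family D Qf c i₀ iT iF Reps) (x : Fix X D) : comp x.1 = i₀ := by
  by_contra h0
  obtain ⟨γ, e⟩ := h.trans x.1
  have hle : D ≤ Qf (comp x.1) := fun δ hδ => by
    have := h.conj_le x e _ (hS.normal.conj_mem δ hδ γ.2)
    simpa [mul_assoc] using this
  have hbot : Qf (comp x.1) ≠ ⊥ := fun e0 => hS.ne (le_bot_iff.1 (e0 ▸ hle))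
  have hR : Qf (comp x.1) ∈ Reps :=
    hF.other _ h0 (fun e0 => hbot (e0 ▸ hF.qT)) (fun e0 => hbot (e0 ▸ hF.qF))
  exact (hF.lt _ hR).2.not_ge hle

omit [Fintype X] [DecidableEq X] in
/-- The stabiliser of a fixed point in an orbit of type `Q` is the diagonal of `Q`. -/
lemma PreModel.stab_fix (h : PreModel Qf c κ comp b) {Q : Subgroup H} (x : Fix X Q)
    (hx : Qf (comp x.1) = Q) {γ : G × H} (e : γ • x.1 = x.1) : γ.2 ∈ Q ∧ γ.1 = γ.2 := by
  obtain ⟨β, eβ⟩ := h.trans x.1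
  have hle := h.conj_le x eβ
  obtain ⟨h1, h2⟩ := model1_stab h eβ e
  rw [hx] at hle h1
  have hγ : γ.2 ∈ Q := (model1_conj_iff β.2 hle le_rfl _).2 h1
  refine ⟨hγ, ?_⟩
  have h3 := (model1_stab h eβ (x.2 _ hγ)).2
  have h4 := h2.trans h3.symm
  simpa using h4

omit [Fintype X] [DecidableEq X] in
/-- An element moving such a point to a fixed point normalises the diagonal. -/
lemma PreModel.mem_NQ_of_move (h : PreModel Qf c κ comp b) {Q : Subgroup H} (x x' : Fix X Q)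
    (hx : Qf (comp x.1) = Q) {γ : G × H} (e : x'.1 = γ • x.1) : γ ∈ NQ Q := by
  have key : ∀ q ∈ Q, γ.2⁻¹ * q * γ.2 ∈ Q ∧ γ.1⁻¹ * q * γ.1 = ((γ.2⁻¹ * q * γ.2 : H) : G) := by
    intro q hq
    have h1 := x'.2 q hq
    rw [e] at h1
    have h2 : (γ⁻¹ * (((q : G), q) : G × H) * γ) • x.1 = x.1 := by
      rw [mul_smul, mul_smul, h1, inv_smul_smul]
    exact h.stab_fix x hx h2
  rw [← Subgroup.inv_mem_iff, mem_NQ]
  refine ⟨fun q => ?_, fun q hq => ?_⟩
  · simpa using model1_conj_iff γ.2 (fun q hq => (key q hq).1) le_rfl q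
  · simpa using (key q hq).2

end Pool.Agent.Lib.MP_b6945b_al.St
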