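import Pool.Agent.Lib.MP_b6945b_al.St.Model1
import Pool.Agent.Lib.MP_b6945b_al.St.LocAct2

set_option autoImplicit false

/-!
Relations between the basic kernels, and the two-term complex.
-/

namespace Pool.Agent.Lib.MP_b6945b_al.St

open IsLocalRing

variable {R : Type} [CommRing R] [IsLocalRing R] {G : Type} [Group G] [Fintype G]
  {H : Subgroup G} [Fintype H] {X : Type} [Fintype X] [DecidableEq X] [MulAction (G × H) X]
  {p : ℕ} {D : Subgroup H} {e : MonoidAlgebra R G} {f a : MonoidAlgebra R H} {I : Type}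
  {Qf : I → Subgroup H} {c : I → G} {i₀ iT iF : I} {Reps : Finset (Subgroup H)} {κ : X → G}
  {comp : X → I} {b : I → X} {ef D₀ : Kern R H X} {P : (I → Prop) → Kern R H X}
  {ε : Subgroup H → Kern R H X} {ε₀ ε₁ d : Kern R H X}

section aux

omit [IsLocalRing R] [Fintype G] [Fintype H]

lemma model2_gInv_mul {u v : Kern R H X} (hu : GInv u) (hv : GInv v) : GInv (u * v) := by
  intro g
  rw [← mul_assoc, hu g, mul_assoc, hv g, mul_assoc]

lemma model2_gInv_add {u v : Kern R H X} (hu : GInv u) (hv : GInv v) : GInv (u + v) := by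
  intro g
  rw [mul_add, add_mul, hu g, hv g]

lemma model2_gInv_sum {ι : Type} (t : Finset ι) {u : ι → Kern R H X} (hu : ∀ i ∈ t, GInv (u i)) :
    GInv (∑ i ∈ t, u i) := by
  intro g
  rw [Finset.mul_sum, Finset.sum_mul]
  exact Finset.sum_congr rfl fun i hi => hu i hi g

lemma model2_ext {u v : Kern R H X} (h : ∀ x y, u.1 x y = v.1 x y) : u = v :=
  Subtype.ext (Matrix.ext h)

end aux

omit [IsLocalRing R] [Fintype G] in
lemma model2_rhoM_apply (z : MonoidAlgebra R H) (x y : X) :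
    rhoM R H X z x y = ∑ h : H, if x = ((1, h⁻¹) : G × H) • y then z.coeff h else 0 := by
  unfold rhoM
  rw [Matrix.sum_apply]
  refine Finset.sum_congr rfl fun h _ => ?_
  rw [Matrix.smul_apply, pmat_apply, smul_eq_mul]
  split_ifs <;> simp

omit [IsLocalRing R] in
lemma model2_rhoM_left (z : MonoidAlgebra R H) (g : G) (x y : X) :
    rhoM R H X z (((g, 1) : G × H) • x) (((g, 1) : G × H) • y) = rhoM R H X z x y := by
  have h1 := congrFun (congrFun (rhoM_comm z (piK R H X g)) (((g, 1) : G × H) • x)) y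
  rw [piK_val, pmat_mul_apply, mul_pmat_apply, inv_smul_smul] at h1
  exact h1

omit [IsLocalRing R] in
lemma model2_rhoM_cj {Q : Subgroup H} (x y : Fix X Q) {u : H} (hu : u ∈ Q)
    (z : MonoidAlgebra R H) : rhoM R H X (cjRep R H u z) x.1 y.1 = rhoM R H X z x.1 y.1 := by
  have e : ∀ w : Fix X Q, ((1, u⁻¹) : G × H) • w.1 = (((u : G), 1) : G × H) • w.1 := by
    intro w
    conv_lhs => rw [← w.2 u hu]
    rw [← mul_smul]
    simp
  have e' : ((1, u) : G × H)⁻¹ = (1, u⁻¹) := by simp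
  rw [cjRep_apply, rhoM_mul, rhoM_mul, rhoM_single, rhoM_single, inv_inv, mul_pmat_apply,
    pmat_mul_apply, e', e x, e y, model2_rhoM_left]

/-- The idempotent as a product of two commuting kernels, the second one central. -/
lemma model2_F (h : Setup p D e f a Qf c i₀ iT iF Reps κ comp b ef D₀ P) :
    ∃ F : Kern R H X, F.1 = rhoM R H X f ∧ ef = piA R H X e * F ∧ F * F = F ∧
      ∀ u, F * u = u * F := by
  refine ⟨⟨rhoM R H X f, rhoM_mem h.blF.cent⟩, rfl, Subtype.ext h.ker.ef_val, Subtype.ext ?_,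
    fun u => Subtype.ext (rhoM_comm f u)⟩
  change rhoM R H X f * rhoM R H X f = rhoM R H X f
  rw [← rhoM_mul, h.blF.idem]

lemma model2_ne (h : Setup p D e f a Qf c i₀ iT iF Reps κ comp b ef D₀ P) {Q : Subgroup H}
    (hQ : Q ∈ Reps) : Qf i₀ ≠ Q ∧ Qf iT ≠ Q ∧ Qf iF ≠ Q := by
  obtain ⟨h1, h2⟩ := h.fam.lt Q hQ
  rw [h.fam.q0, h.fam.qT, h.fam.qF]
  exact ⟨(h2.trans_le le_top).ne', h1.symm, h1.symm⟩

namespace Setup

lemma ef_inv (h : Setup p D e f a Qf c i₀ iT iF Reps κ comp b ef D₀ P) : GInv ef := by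
  obtain ⟨F, -, h1, -, h2⟩ := model2_F h
  intro g
  rw [h1, ← mul_assoc, mul_assoc _ F, h2, ← mul_assoc, ← piA_single, ← map_mul, ← map_mul,
    h.blE.cent]

lemma ef_idem (h : Setup p D e f a Qf c i₀ iT iF Reps κ comp b ef D₀ P) : ef * ef = ef := by
  obtain ⟨F, -, h1, h3, h2⟩ := model2_F h
  rw [h1, mul_assoc, ← mul_assoc F, h2, mul_assoc, h3, ← mul_assoc, ← map_mul, h.blE.idem]

lemma ef_comm (h : Setup p D e f a Qf c i₀ iT iF Reps κ comp b ef D₀ P) {u : Kern R H X}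
    (hu : GInv u) : ef * u = u * ef := by
  obtain ⟨F, -, h1, -, h2⟩ := model2_F h
  rw [h1, mul_assoc, h2, ← mul_assoc, hu.piA_comm, mul_assoc]

lemma piA_ef (h : Setup p D e f a Qf c i₀ iT iF Reps κ comp b ef D₀ P) :
    piA R H X e * ef = ef := by
  obtain ⟨F, -, h1, -, -⟩ := model2_F h
  rw [h1, ← mul_assoc, ← map_mul, h.blE.idem]

lemma rhoM_ef (h : Setup p D e f a Qf c i₀ iT iF Reps κ comp b ef D₀ P) :
    rhoM R H X f * ef.1 = ef.1 := by
  obtain ⟨F, h0, h1, h3, h2⟩ := model2_F h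
  have h4 : F * ef = ef := by rw [h2, h1, mul_assoc, h3]
  rw [← h0]
  exact congrArg Subtype.val h4

lemma P_inv (h : Setup p D e f a Qf c i₀ iT iF Reps κ comp b ef D₀ P) (S : I → Prop) :
    GInv (P S) := by
  classical
  refine gInv_iff.2 fun g x y => ?_
  rw [h.ker.P_val, h.ker.P_val, h.pre.comp_smul]
  exact if_congr (and_congr_left' (smul_left_cancel_iff _)) rfl rfl

lemma model2_P_mul (h : Setup p D e f a Qf c i₀ iT iF Reps κ comp b ef D₀ P) (S : I → Prop)
    (u : Kern R H X) (x y : X) :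
    (S (comp x) → (P S * u).1 x y = u.1 x y) ∧ (¬ S (comp x) → (P S * u).1 x y = 0) := by
  classical
  have h1 : (P S * u).1 x y = (P S).1 x x * u.1 x y := by
    change ((P S).1 * u.1) x y = _
    rw [Matrix.mul_apply, Finset.sum_eq_single x]
    · intro z _ hz
      rw [h.ker.P_val, if_neg (fun e => hz e.1.symm), zero_mul]
    · simp
  rw [h1, h.ker.P_val]
  exact ⟨fun hS => by rw [if_pos ⟨rfl, hS⟩, one_mul],
    fun hS => by rw [if_neg (fun e => hS e.2), zero_mul]⟩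

lemma P_mul (h : Setup p D e f a Qf c i₀ iT iF Reps κ comp b ef D₀ P) (S T : I → Prop) :
    P S * P T = P (fun i => S i ∧ T i) := by
  classical
  refine model2_ext fun x y => ?_
  by_cases hS : S (comp x)
  · rw [(h.model2_P_mul S _ x y).1 hS, h.ker.P_val, h.ker.P_val]
    by_cases e : x = y ∧ T (comp x)
    · rw [if_pos e, if_pos ⟨e.1, hS, e.2⟩]
    · rw [if_neg e, if_neg (fun e' => e ⟨e'.1, e'.2.2⟩)]
  · rw [(h.model2_P_mul S _ x y).2 hS, h.ker.P_val, if_neg (fun e => hS e.2.1)]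

lemma P_mul_eq_zero (h : Setup p D e f a Qf c i₀ iT iF Reps κ comp b ef D₀ P) {S T : I → Prop}
    (hST : ∀ i, S i → ¬ T i) : P S * P T = 0 := by
  classical
  rw [h.P_mul]
  refine model2_ext fun x y => ?_
  rw [h.ker.P_val, if_neg (fun e => hST _ e.2.1 e.2.2)]
  rfl

lemma P_mul_apply (h : Setup p D e f a Qf c i₀ iT iF Reps κ comp b ef D₀ P) (S : I → Prop)
    (u : Kern R H X) (x y : X) :
    (S (comp x) → (P S * u).1 x y = u.1 x y) ∧ (¬ S (comp x) → (P S * u).1 x y = 0) := by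
  exact h.model2_P_mul S u x y

lemma mul_P_apply (h : Setup p D e f a Qf c i₀ iT iF Reps κ comp b ef D₀ P) (S : I → Prop)
    (u : Kern R H X) (x y : X) :
    (S (comp y) → (u * P S).1 x y = u.1 x y) ∧ (¬ S (comp y) → (u * P S).1 x y = 0) := by
  classical
  have h1 : (u * P S).1 x y = u.1 x y * (P S).1 y y := by
    change (u.1 * (P S).1) x y = _
    rw [Matrix.mul_apply, Finset.sum_eq_single y]
    · intro z _ hz
      rw [h.ker.P_val, if_neg (fun e => hz e.1), mul_zero]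
    · simp
  rw [h1, h.ker.P_val]
  exact ⟨fun hS => by rw [if_pos ⟨rfl, hS⟩, mul_one],
    fun hS => by rw [if_neg (fun e => hS e.2), mul_zero]⟩

lemma D_inv (h : Setup p D e f a Qf c i₀ iT iF Reps κ comp b ef D₀ P) : GInv D₀ := by
  classical
  refine gInv_iff.2 fun g x y => ?_
  rw [h.ker.D_val, h.ker.D_val, h.pre.comp_smul, h.pre.comp_smul, h.pre.biset.map,
    h.pre.biset.map, mul_left_inj, mul_right_inj]

lemma P_D (h : Setup p D e f a Qf c i₀ iT iF Reps κ comp b ef D₀ P) : P (· = i₀) * D₀ = D₀ := by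
  classical
  refine model2_ext fun x y => ?_
  by_cases hx : comp x = i₀
  · exact (h.P_mul_apply _ _ x y).1 hx
  · rw [(h.P_mul_apply (· = i₀) _ x y).2 hx, h.ker.D_val, if_neg (fun e => hx e.1)]

/-- Choose representatives `t` of the left cosets of `H`; send the point over `t h` to
`(t, h⁻¹) • b iT`. -/
lemma exists_sec (h : Setup p D e f a Qf c i₀ iT iF Reps κ comp b ef D₀ P) :
    ∃ s₀ : Kern R H X, D₀ * s₀ = P (· = i₀) ∧ P (· = iT) * s₀ = s₀ := by
  classical
  let t : G → G := fun g => (QuotientGroup.mk g : G ⧸ H).out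
  have ht : ∀ g, g⁻¹ * t g ∈ H := fun g =>
    QuotientGroup.eq.1 (QuotientGroup.out_eq' (QuotientGroup.mk g : G ⧸ H)).symm
  let σ : G → X := fun g => ((t g, ⟨g⁻¹ * t g, ht g⟩) : G × H) • b iT
  have hc : ∀ g, comp (σ g) = iT := fun g => (h.pre.comp_smul _ _).trans (h.pre.comp_b iT)
  have hk : ∀ g, κ (σ g) = g := by
    intro g
    rw [h.pre.biset.map, h.pre.kb, h.fam.cT]
    simp
  have he : ∀ (k : H) (x : X), σ (κ (((1, k) : G × H) • x)) = ((1, k) : G × H) • σ (κ x) := by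
    intro k x
    have h1 : κ (((1, k) : G × H) • x) = κ x * ((k⁻¹ : H) : G) := by
      rw [h.pre.biset.map]
      simp
    have h2 : t (κ x * ((k⁻¹ : H) : G)) = t (κ x) :=
      congrArg Quotient.out (QuotientGroup.mk_mul_of_mem (κ x) (k⁻¹).2)
    rw [h1, ← mul_smul]
    refine congrArg (· • b iT) (Prod.ext ?_ (Subtype.ext ?_))
    · simpa using h2
    · change (κ x * ((k⁻¹ : H) : G))⁻¹ * t (κ x * ((k⁻¹ : H) : G)) = k * ((κ x)⁻¹ * t (κ x))
      rw [h2]
      simp [mul_assoc]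
  let s : Matrix X X R := fun y x => if y = σ (κ x) ∧ comp x = i₀ then 1 else 0
  have hs : s ∈ Kern R H X := by
    refine (mem_Kern R H X).2 fun k y x => ?_
    change (if ((1, k) : G × H) • y = σ (κ (((1, k) : G × H) • x)) ∧
      comp (((1, k) : G × H) • x) = i₀ then (1 : R) else 0) =
        if y = σ (κ x) ∧ comp x = i₀ then 1 else 0
    rw [he, h.pre.comp_smul]
    exact if_congr (and_congr_left' (smul_left_cancel_iff _)) rfl rfl
  refine ⟨⟨s, hs⟩, model2_ext fun x y => ?_, model2_ext fun x y => ?_⟩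
  · change (D₀.1 * s) x y = _
    rw [Matrix.mul_apply, Finset.sum_eq_single (σ (κ y))]
    · change D₀.1 x (σ (κ y)) * (if σ (κ y) = σ (κ y) ∧ comp y = i₀ then 1 else 0) = _
      rw [h.ker.D_val, h.ker.P_val, hc, hk]
      by_cases e : x = y ∧ comp x = i₀
      · rw [if_pos e, if_pos ⟨e.2, h.fam.n0T.symm, h.fam.nTF, by rw [e.1]⟩,
          if_pos ⟨rfl, e.1 ▸ e.2⟩, mul_one]
      · rw [if_neg e]
        by_cases hy : comp y = i₀
        · rw [if_neg, zero_mul]
          exact fun e' => e ⟨h.pre.kappa_inj h.fam e'.1 hy e'.2.2.2, e'.1⟩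
        · rw [if_neg (fun e' : σ (κ y) = σ (κ y) ∧ comp y = i₀ => hy e'.2), mul_zero]
    · intro z _ hz
      change D₀.1 x z * (if z = σ (κ y) ∧ comp y = i₀ then 1 else 0) = 0
      rw [if_neg (fun e => hz e.1), mul_zero]
    · simp
  · by_cases hx : comp x = iT
    · exact (h.P_mul_apply _ _ x y).1 hx
    · rw [(h.P_mul_apply (· = iT) _ x y).2 hx]
      change 0 = if x = σ (κ y) ∧ comp y = i₀ then 1 else 0
      rw [if_neg (fun e => hx (by rw [e.1, hc]))]

/-- `rhoM f` is the sum of the `rhoM` of the conjugates of `a`; use `rtr_functional_mem` for the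
functional `a ↦ rhoM a x y`: no coset of the normal subgroup `D` is fixed by `Q`. -/
lemma br_rhoM_eq_zero (h : Setup p D e f a Qf c i₀ iT iF Reps κ comp b ef D₀ P) {Q : Subgroup H}
    (hQ : IsPGroup p Q) (hQD : ¬ Q ≤ D) : br Q (rhoM R H X f) = 0 := by
  ext x y
  let lam : MonoidAlgebra R H →ₗ[R] R :=
    { toFun := fun z => rhoM R H X z x.1 y.1
      map_add' := fun z z' => by
        rw [model2_rhoM_apply, model2_rhoM_apply, model2_rhoM_apply, ← Finset.sum_add_distrib]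
        refine Finset.sum_congr rfl fun k _ => ?_
        split_ifs <;> simp
      map_smul' := fun r z => by
        rw [model2_rhoM_apply, model2_rhoM_apply, RingHom.id_apply, smul_eq_mul, Finset.mul_sum]
        refine Finset.sum_congr rfl fun k _ => ?_
        split_ifs <;> simp }
  change residue R (lam f) = 0
  rw [residue_eq_zero_iff, h.blF.tr]
  refine rtr_functional_mem h.set.prime le_top le_top hQ h.blF.supp.fixedBy lam
    (fun u hu z => model2_rhoM_cj x y hu z) _ h.pR fun g _ hg => ?_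
  refine absurd (fun u hu => ?_) hQD
  have h1 := h.set.normal.conj_mem _ (hg u hu) g
  simpa [mul_assoc] using h1

/-- At `D` the idempotent acts on the centraliser as multiplication by the images of `e` and
`f`, which agree; if the entries at the base point all vanished, `f * f = f` would have all
coefficients in the maximal ideal (`f` is supported on the centraliser). -/
lemma br_D_ne (h : Setup p D e f a Qf c i₀ iT iF Reps κ comp b ef D₀ P) :
    br D (ef * P (· = i₀)).1 ≠ 0 := by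
  classical
  intro h0
  have hN := h.set.normal
  have hf : SuppCent (D : Set H) f := by
    rw [h.blF.tr]
    exact h.blF.supp.rtr D ⊤
  have hb : ∀ k : H, (((k : G), k) : G × H) • b i₀ = b i₀ := fun k =>
    (h.pre.stab i₀ _).2 ⟨by rw [h.fam.q0]; trivial, rfl⟩
  have hr : ∀ k : H, ((1, k⁻¹) : G × H) • b i₀ = (((k : G), 1) : G × H) • b i₀ := by
    intro k
    conv_lhs => rw [← hb k]
    rw [← mul_smul]
    simp
  have hent : ∀ g : G, ef.1 (((g, 1) : G × H) • b i₀) (b i₀) =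
      ∑ k : H, e.coeff (g * (k : G)⁻¹) * f.coeff k := by
    intro g
    rw [h.ker.ef_val]
    unfold rhoM
    rw [Finset.mul_sum, Matrix.sum_apply]
    refine Finset.sum_congr rfl fun k _ => ?_
    rw [mul_smul_comm, Matrix.smul_apply, mul_pmat_apply, hr, smul_eq_mul, mul_comm, piA_apply,
      Finset.sum_eq_single (g * (k : G)⁻¹)]
    · rw [if_pos]
      rw [← mul_smul]
      simp
    · intro g' _ hg'
      rw [if_neg]
      intro e'
      have h1 := congrArg κ e'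
      rw [← mul_smul, Prod.mk_mul_mk, mul_one, (h.pre.kappa_pt h.fam _).1,
        (h.pre.kappa_pt h.fam _).1] at h1
      exact hg' (by rw [h1, mul_inv_cancel_right])
    · simp
  have hm : InMax R f := by
    refine inMax_monoidAlgebra_iff.2 fun k => ?_
    by_cases hk : ∀ δ ∈ D, k * δ = δ * k
    · have hx : ∀ q ∈ D, (((q : G), q) : G × H) • (((k : G), 1) : G × H) • b i₀ =
          (((k : G), 1) : G × H) • b i₀ := by
        refine h.pre.fix_of_cent h.fam (h.pre.kappa_pt h.fam _).2 ?_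
        rw [(h.pre.kappa_pt h.fam _).1]
        exact mem_CG.2 fun q hq => by exact_mod_cast (hk q hq).symm
      have h1 := congrFun (congrFun h0 ⟨_, hx⟩) ⟨b i₀, fun q _ => hb q⟩
      change residue R ((ef * P (· = i₀)).1 ((((k : G), 1) : G × H) • b i₀) (b i₀)) = 0 at h1
      rw [(h.mul_P_apply (· = i₀) ef _ _).1 (h.pre.comp_b i₀), hent, residue_eq_zero_iff] at h1
      have h2 : f.coeff k = ∑ l : H, f.coeff (k * l⁻¹) * f.coeff l := by
        conv_lhs => rw [← h.blF.idem, coeff_mul_fin]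
        rw [← Equiv.sum_comp ((Equiv.inv H).trans (Equiv.mulLeft k))]
        refine Finset.sum_congr rfl fun l _ => ?_
        simp
      have h3 : ∑ l : H, e.coeff ((k : G) * (l : G)⁻¹) * f.coeff l - f.coeff k ∈
          maximalIdeal R := by
        rw [h2, ← Finset.sum_sub_distrib]
        refine Ideal.sum_mem _ fun l _ => ?_
        rw [← sub_mul]
        by_cases hl : f.coeff l = 0
        · rw [hl, mul_zero]
          exact zero_mem _
        · refine Ideal.mul_mem_right _ _ (h.brc (k * l⁻¹) fun δ hδ => ?_)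
          have h4 : l⁻¹ * δ = δ * l⁻¹ := by
            rw [inv_mul_eq_iff_eq_mul, ← mul_assoc, hf l hl δ hδ, mul_inv_cancel_right]
          rw [mul_assoc, h4, ← mul_assoc, hk δ hδ, mul_assoc]
      simpa using Ideal.sub_mem _ h1 h3
    · have h1 : f.coeff k = 0 := by
        by_contra h1
        exact hk (hf k h1)
      rw [h1]
      exact zero_mem _
  exact h.blF.ne (hm.nilR.eq_zero h.blF.idem)

/-- The projection onto orbits without fixed points is killed. -/
lemma br_P_mul (h : Setup p D e f a Qf c i₀ iT iF Reps κ comp b ef D₀ P) {Q : Subgroup H}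
    {S : I → Prop} (hS : ∀ x : Fix X Q, ¬ S (comp x.1)) (u : Kern R H X) :
    br Q (P S * u).1 = 0 := by
  ext x y
  change residue R ((P S * u).1 x.1 y.1) = 0
  rw [(h.P_mul_apply S u _ _).2 (hS x), map_zero]

/-- On the fixed points of a representative only the orbits of its type matter. -/
lemma loc_D_P (h : Setup p D e f a Qf c i₀ iT iF Reps κ comp b ef D₀ P) {Q : Subgroup H}
    (hQ : Q ∈ Reps) : loc Q (D₀ * P (fun i => Qf i = Q)).1 = loc Q D₀.1 := by
  classical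
  refine congrArg Matrix.toLin' ?_
  ext x y
  change residue R ((D₀ * P (fun i => Qf i = Q)).1 x.1 y.1) = residue R (D₀.1 x.1 y.1)
  by_cases hy : Qf (comp y.1) = Q
  · rw [(h.mul_P_apply (fun i => Qf i = Q) D₀ _ _).1 hy]
  · rw [(h.mul_P_apply (fun i => Qf i = Q) D₀ _ _).2 hy, h.ker.D_val, if_neg]
    exact fun e => e.2.1 ((h.pre.comp_fix h.set h.fam hQ y).resolve_right hy)

/-- Locally `D₀` is onto the copy of the centraliser (`Family.all`: the point over `g` is the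
image of the base point `b i` with `Qf i = Q`, `c i = g`). -/
lemma loc_D_surj (h : Setup p D e f a Qf c i₀ iT iF Reps κ comp b ef D₀ P) {Q : Subgroup H}
    (hQ : Q ∈ Reps) (u : Fix X Q → ResidueField R) :
    ∃ w, loc Q D₀.1 w = loc Q (P (· = i₀)).1 u := by
  classical
  have h1 : ∀ x : Fix X Q, ∃ y : Fix X Q, comp y.1 ≠ i₀ ∧ comp y.1 ≠ iF ∧ κ y.1 = κ x.1 := by
    intro x
    obtain ⟨i, hi, hc⟩ := h.fam.all Q hQ (κ x.1)
      (mem_CG.2 fun q hq => (h.pre.biset.kappa_cent x _ ⟨q, hq, rfl⟩).symm)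
    obtain ⟨n1, -, n3⟩ := model2_ne h hQ
    refine ⟨⟨b i, fun q hq => (h.pre.stab i _).2 ⟨by rw [hi]; exact hq, rfl⟩⟩, ?_, ?_,
      (h.pre.kb i).trans hc⟩
    · rw [h.pre.comp_b]
      rintro rfl
      exact n1 hi
    · rw [h.pre.comp_b]
      rintro rfl
      exact n3 hi
  choose τ h2 h3 h4 using h1
  let T : Matrix (Fix X Q) (Fix X Q) (ResidueField R) :=
    fun y x => if y = τ x ∧ comp x.1 = i₀ then 1 else 0
  have hT : br Q D₀.1 * T = br Q (P (· = i₀)).1 := by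
    ext x y
    rw [Matrix.mul_apply, Finset.sum_eq_single (τ y)]
    · change residue R (D₀.1 x.1 (τ y).1) * (if τ y = τ y ∧ comp y.1 = i₀ then 1 else 0) =
        residue R ((P (· = i₀)).1 x.1 y.1)
      rw [h.ker.D_val, h.ker.P_val, h4]
      by_cases e : x.1 = y.1 ∧ comp x.1 = i₀
      · rw [if_pos e, if_pos ⟨e.2, h2 y, h3 y, by rw [e.1]⟩, if_pos ⟨rfl, e.1 ▸ e.2⟩, mul_one]
      · rw [if_neg e, map_zero]
        by_cases hy : comp y.1 = i₀
        · rw [if_neg, map_zero, zero_mul]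
          exact fun e' => e ⟨h.pre.kappa_inj h.fam e'.1 hy e'.2.2.2, e'.1⟩
        · rw [if_neg (fun e' : τ y = τ y ∧ comp y.1 = i₀ => hy e'.2), mul_zero]
    · intro z _ hz
      change _ * (if z = τ y ∧ comp y.1 = i₀ then (1 : ResidueField R) else 0) = 0
      rw [if_neg (fun e => hz e.1), mul_zero]
    · simp
  refine ⟨T.mulVec u, ?_⟩
  unfold loc
  rw [Matrix.toLin'_apply, Matrix.toLin'_apply, Matrix.mulVec_mulVec, hT]

end Setup

lemma model2_eps (h : Setup p D e f a Qf c i₀ iT iF Reps κ comp b ef D₀ P)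
    (hB : Built p D Qf i₀ iT iF Reps ef D₀ P ε ε₀ ε₁ d) {Q : Subgroup H} (hQ : Q ∈ Reps) :
    ef * ε Q = ε Q ∧ ε Q * ef = ε Q ∧ P (fun i => Qf i = Q) * ε Q = ε Q ∧
      ε Q * P (fun i => Qf i = Q) = ε Q := by
  have hc := hB.cover Q hQ
  have h1 := h.ef_comm (h.P_inv fun i => Qf i = Q)
  have h2 : ef * ε Q = ε Q := by
    rw [← hc.left, ← mul_assoc, ← h1, ← mul_assoc, h.ef_idem]
  have h3 : ε Q * ef = ε Q := by rw [← h.ef_comm hc.inv, h2]
  refine ⟨h2, h3, ?_, ?_⟩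
  · have h4 := hc.left
    rwa [mul_assoc, h2] at h4
  · have h4 := hc.right
    rwa [← h1, ← mul_assoc, h3] at h4

lemma model2_P_eps (h : Setup p D e f a Qf c i₀ iT iF Reps κ comp b ef D₀ P)
    (hB : Built p D Qf i₀ iT iF Reps ef D₀ P ε ε₀ ε₁ d) {Q : Subgroup H} (hQ : Q ∈ Reps)
    {S : I → Prop} (hS : ∀ i, S i → Qf i ≠ Q) : P S * ε Q = 0 ∧ ε Q * P S = 0 := by
  obtain ⟨-, -, h1, h2⟩ := model2_eps h hB hQ
  constructor
  · rw [← h1, ← mul_assoc, h.P_mul_eq_zero hS, zero_mul]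
  · rw [← h2, mul_assoc, h.P_mul_eq_zero fun i hi hs => hS i hs hi, mul_zero]

lemma model2_TF (h : Setup p D e f a Qf c i₀ iT iF Reps κ comp b ef D₀ P) {Q : Subgroup H}
    (hQ : Q ∈ Reps) (i : I) (hi : i = iT ∨ i = iF) : Qf i ≠ Q := by
  obtain ⟨-, n2, n3⟩ := model2_ne h hQ
  rcases hi with rfl | rfl
  · exact n2
  · exact n3

lemma model2_inv (h : Setup p D e f a Qf c i₀ iT iF Reps κ comp b ef D₀ P)
    (hB : Built p D Qf i₀ iT iF Reps ef D₀ P ε ε₀ ε₁ d) : GInv ε₀ ∧ GInv ε₁ ∧ GInv d := by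
  have h0 : GInv ε₀ := by
    rw [hB.e0]
    exact model2_gInv_mul h.ef_inv (h.P_inv _)
  have h1 : GInv ε₁ := by
    rw [hB.e1]
    exact model2_gInv_add (model2_gInv_sum _ fun Q hQ => (hB.cover Q hQ).inv)
      (model2_gInv_mul h.ef_inv (h.P_inv _))
  refine ⟨h0, h1, ?_⟩
  rw [hB.dd]
  exact model2_gInv_mul (model2_gInv_mul h0 h.D_inv) h1

lemma model2_ef_e1 (h : Setup p D e f a Qf c i₀ iT iF Reps κ comp b ef D₀ P)
    (hB : Built p D Qf i₀ iT iF Reps ef D₀ P ε ε₀ ε₁ d) : ef * ε₁ = ε₁ := by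
  rw [hB.e1, mul_add, Finset.mul_sum, ← mul_assoc, h.ef_idem,
    Finset.sum_congr rfl fun Q hQ => (model2_eps h hB hQ).1]

/-- On the two free orbits the degree one idempotent is `ef`. -/
lemma model2_e1_P (h : Setup p D e f a Qf c i₀ iT iF Reps κ comp b ef D₀ P)
    (hB : Built p D Qf i₀ iT iF Reps ef D₀ P ε ε₀ ε₁ d) {S : I → Prop}
    (hS : ∀ i, S i → i = iT ∨ i = iF) : ε₁ * P S = ef * P S ∧ P S * ε₁ = ef * P S := by
  have h1 : (fun i => (i = iT ∨ i = iF) ∧ S i) = S :=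
    funext fun i => propext ⟨fun e => e.2, fun e => ⟨hS i e, e⟩⟩
  have h2 : (fun i => S i ∧ (i = iT ∨ i = iF)) = S :=
    funext fun i => propext ⟨fun e => e.1, fun e => ⟨e, hS i e⟩⟩
  constructor
  · rw [hB.e1, add_mul, Finset.sum_mul, Finset.sum_eq_zero fun Q hQ =>
      (model2_P_eps h hB hQ fun i hi => model2_TF h hQ i (hS i hi)).2, zero_add, mul_assoc,
      h.P_mul, h1]
  · rw [hB.e1, mul_add, Finset.mul_sum, Finset.sum_eq_zero fun Q hQ =>
      (model2_P_eps h hB hQ fun i hi => model2_TF h hQ i (hS i hi)).1, zero_add, ← mul_assoc,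
      ← h.ef_comm (h.P_inv _), mul_assoc, h.P_mul, h2]

lemma model2_e1_P0 (h : Setup p D e f a Qf c i₀ iT iF Reps κ comp b ef D₀ P)
    (hB : Built p D Qf i₀ iT iF Reps ef D₀ P ε ε₀ ε₁ d) :
    ε₁ * P (· = i₀) = 0 ∧ P (· = i₀) * ε₁ = 0 := by
  have h1 : ∀ i, i = i₀ → ¬ (i = iT ∨ i = iF) := by
    rintro i rfl (e | e)
    · exact h.fam.n0T e
    · exact h.fam.n0F e
  have h2 : ∀ Q ∈ Reps, ∀ i, i = i₀ → Qf i ≠ Q := by
    rintro Q hQ i rfl
    exact (model2_ne h hQ).1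
  constructor
  · rw [hB.e1, add_mul, Finset.sum_mul, Finset.sum_eq_zero fun Q hQ =>
      (model2_P_eps h hB hQ (h2 Q hQ)).2, zero_add, mul_assoc,
      h.P_mul_eq_zero fun i hi e => h1 i e hi, mul_zero]
  · rw [hB.e1, mul_add, Finset.mul_sum, Finset.sum_eq_zero fun Q hQ =>
      (model2_P_eps h hB hQ (h2 Q hQ)).1, zero_add, ← mul_assoc,
      ← h.ef_comm (h.P_inv _), mul_assoc, h.P_mul_eq_zero h1, mul_zero]

lemma model2_e11 (h : Setup p D e f a Qf c i₀ iT iF Reps κ comp b ef D₀ P)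
    (hB : Built p D Qf i₀ iT iF Reps ef D₀ P ε ε₀ ε₁ d) : ε₁ * ε₁ = ε₁ := by
  have h1 : ∀ Q ∈ Reps, ε₁ * ε Q = ε Q := by
    intro Q hQ
    rw [hB.e1, add_mul, mul_assoc, (model2_P_eps h hB hQ (model2_TF h hQ)).1, mul_zero, add_zero,
      Finset.sum_mul, Finset.sum_eq_single Q, (hB.cover Q hQ).idem]
    · intro Q' hQ' hne
      rw [← (model2_eps h hB hQ).2.2.1, ← mul_assoc,
        (model2_P_eps h hB hQ' fun i hi e => hne (e.symm.trans hi)).2, zero_mul]
    · exact fun e => absurd hQ e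
  have h2 : ε₁ * (ef * P (fun i => i = iT ∨ i = iF)) = ef * P (fun i => i = iT ∨ i = iF) := by
    rw [← mul_assoc, ← h.ef_comm (model2_inv h hB).2.1, model2_ef_e1 h hB,
      (model2_e1_P h hB fun i hi => hi).1]
  calc ε₁ * ε₁ = ε₁ * (∑ Q ∈ Reps, ε Q + ef * P (fun i => i = iT ∨ i = iF)) := by rw [← hB.e1]
    _ = ε₁ := by rw [mul_add, h2, Finset.mul_sum, Finset.sum_congr rfl h1, ← hB.e1]

lemma model2_e00 (h : Setup p D e f a Qf c i₀ iT iF Reps κ comp b ef D₀ P)
    (hB : Built p D Qf i₀ iT iF Reps ef D₀ P ε ε₀ ε₁ d) : ε₀ * ε₀ = ε₀ := by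
  have h1 : (fun i => i = i₀ ∧ i = i₀) = (· = i₀) := funext fun i => propext and_self_iff
  rw [hB.e0, mul_assoc, ← mul_assoc (P _), ← h.ef_comm (h.P_inv _), mul_assoc, h.P_mul, h1,
    ← mul_assoc, h.ef_idem]

/-- `σ = ef * s₀ * ε₀` with `s₀` from `exists_sec`; `ε Q` and `ε Q'` are orthogonal because they
are cut out by orthogonal projections. -/
theorem Built.exists_cxData (h : Setup p D e f a Qf c i₀ iT iF Reps κ comp b ef D₀ P)
    (hB : Built p D Qf i₀ iT iF Reps ef D₀ P ε ε₀ ε₁ d) : ∃ σ, CxData ε₀ ε₁ d σ := by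
  obtain ⟨s₀, hs1, hs2⟩ := h.exists_sec
  obtain ⟨i0, i1, id⟩ := model2_inv h hB
  have e00 := model2_e00 h hB
  have e11 := model2_e11 h hB
  have h1 : ε₁ * ef = ε₁ := by rw [← h.ef_comm i1, model2_ef_e1 h hB]
  have s1 : ε₁ * (ef * s₀ * ε₀) = ef * s₀ * ε₀ := by
    rw [← mul_assoc, ← mul_assoc, h1, ← hs2, ← mul_assoc ε₁,
      (model2_e1_P h hB fun i hi => Or.inl hi).1, mul_assoc ef]
  refine ⟨ef * s₀ * ε₀, i0, i1, id, e00, e11, ?_, ?_, ?_, ?_, ?_, s1, ?_⟩
  · rw [hB.e0, mul_assoc, (model2_e1_P0 h hB).2, mul_zero]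
  · rw [hB.e0, ← mul_assoc, h1, (model2_e1_P0 h hB).1]
  · rw [hB.dd, ← mul_assoc, ← mul_assoc, e00]
  · rw [hB.dd, mul_assoc, e11]
  · rw [mul_assoc, e00]
  · rw [hB.dd, mul_assoc, s1, mul_assoc, ← mul_assoc D₀, ← mul_assoc D₀, ← h.ef_comm h.D_inv,
      mul_assoc ef, hs1, ← hB.e0, e00, e00]

lemma Built.ef_left (h : Setup p D e f a Qf c i₀ iT iF Reps κ comp b ef D₀ P)
    (hB : Built p D Qf i₀ iT iF Reps ef D₀ P ε ε₀ ε₁ d) :
    ef * ε₀ = ε₀ ∧ ef * ε₁ = ε₁ ∧ ef * d = d := by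
  have h0 : ef * ε₀ = ε₀ := by rw [hB.e0, ← mul_assoc, h.ef_idem]
  refine ⟨h0, model2_ef_e1 h hB, ?_⟩
  rw [hB.dd, ← mul_assoc, ← mul_assoc, h0]

lemma Built.br_eps (h : Setup p D e f a Qf c i₀ iT iF Reps κ comp b ef D₀ P)
    (hB : Built p D Qf i₀ iT iF Reps ef D₀ P ε ε₀ ε₁ d) {Q : Subgroup H} (hQ : Q ∈ Reps) :
    br Q ε₁.1 = br Q (ε Q).1 := by
  rw [hB.e1, Subalgebra.coe_add, br_add, h.ef_comm (h.P_inv _), h.br_P_mul, add_zero,
    AddSubmonoidClass.coe_finsetSum, br_sum, Finset.sum_eq_single Q]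
  · intro Q' hQ' hne
    rw [← (model2_eps h hB hQ').2.2.1]
    refine h.br_P_mul (fun x e => ?_) _
    rcases h.pre.comp_fix h.set h.fam hQ x with e' | e'
    · rw [e'] at e
      exact (model2_ne h hQ').1 e
    · exact hne (e.symm.trans e')
  · exact fun e => absurd hQ e
  · intro x e
    rcases h.pre.comp_fix h.set h.fam hQ x with e' | e'
    · rw [e'] at e
      exact e.elim h.fam.n0T h.fam.n0F
    · exact model2_TF h hQ _ e e'

lemma Built.br_D (h : Setup p D e f a Qf c i₀ iT iF Reps κ comp b ef D₀ P)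
    (hB : Built p D Qf i₀ iT iF Reps ef D₀ P ε ε₀ ε₁ d) : br D ε₁.1 = 0 ∧ br D d.1 = 0 := by
  have h1 : ∀ u : Kern R H X, br D (u * ε₁).1 = 0 := by
    intro u
    ext x y
    change residue R ((u * ε₁).1 x.1 y.1) = 0
    rw [← (h.mul_P_apply (· = i₀) (u * ε₁) _ _).1 (h.pre.comp_fix_D h.set h.fam y), mul_assoc,
      (model2_e1_P0 h hB).1, mul_zero]
    exact map_zero _
  constructor
  · rw [← one_mul ε₁]
    exact h1 1
  · rw [hB.dd]
    exact h1 _

lemma Built.br_out (h : Setup p D e f a Qf c i₀ iT iF Reps κ comp b ef D₀ P)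
    (hB : Built p D Qf i₀ iT iF Reps ef D₀ P ε ε₀ ε₁ d) {Q : Subgroup H} (hQ : IsPGroup p Q)
    (hQD : ¬ Q ≤ D) : br Q ε₀.1 = 0 ∧ br Q ε₁.1 = 0 ∧ br Q d.1 = 0 := by
  obtain ⟨F, h0, -, -, h2⟩ := model2_F h
  have hF : GInv F := fun g => (h2 _).symm
  have key : ∀ u : Kern R H X, GInv u → ef * u = u → br Q u.1 = 0 := by
    intro u hu e'
    have h3 : u.1 = F.1 * u.1 := by
      conv_rhs => rw [← e', Subalgebra.coe_mul, ← mul_assoc, h0, h.rhoM_ef]
      rw [← Subalgebra.coe_mul, e']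
    rw [h3, br_mul h.set.prime h.pR hQ (hF.dInv Q) (hu.dInv Q), h0, h.br_rhoM_eq_zero hQ hQD,
      zero_mul]
  obtain ⟨i0, i1, id⟩ := model2_inv h hB
  obtain ⟨l0, l1, ld⟩ := hB.ef_left h
  exact ⟨key _ i0 l0, key _ i1 l1, key _ id ld⟩

lemma Built.dead (h : Setup p D e f a Qf c i₀ iT iF Reps κ comp b ef D₀ P)
    (hB : Built p D Qf i₀ iT iF Reps ef D₀ P ε ε₀ ε₁ d) (x : X) :
    ε₁.1 x (b iF) = ((piA R H X e).1 * rhoM R H X f) x (b iF) ∧ d.1 x (b iF) = 0 := by
  classical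
  have h1 := (model2_e1_P h hB (S := (· = iF)) fun i hi => Or.inr hi).1
  have h2 : D₀ * P (· = iF) = 0 := by
    refine model2_ext fun y z => ?_
    by_cases hz : comp z = iF
    · rw [(h.mul_P_apply (· = iF) D₀ y z).1 hz, h.ker.D_val, if_neg (fun e => e.2.2.1 hz)]
      rfl
    · exact (h.mul_P_apply (· = iF) D₀ y z).2 hz
  constructor
  · rw [← (h.mul_P_apply (· = iF) ε₁ x _).1 (h.pre.comp_b iF), h1,
      (h.mul_P_apply (· = iF) ef x _).1 (h.pre.comp_b iF), h.ker.ef_val]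
  · rw [← (h.mul_P_apply (· = iF) d x _).1 (h.pre.comp_b iF), hB.dd, mul_assoc, h1, mul_assoc,
      ← mul_assoc D₀, ← h.ef_comm h.D_inv, mul_assoc ef, h2, mul_zero, mul_zero]
    rfl

end Pool.Agent.Lib.MP_b6945b_al.St
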