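import Pool.Agent.Lib.MP_b6945b_al.St.LocAct
import Pool.Agent.Lib.MP_b6945b_al.St.LocDefs

set_option autoImplicit false

/-!
The biset carrying the two-term complex: one copy of `G`, copies of the quotient of `G × H` by
the diagonal of `Q` for representatives `Q` of the proper nontrivial subgroups of `D`, and two
free orbits.
-/

namespace Pool.Agent.Lib.MP_b6945b_al.St

open IsLocalRing

variable {G : Type} [Group G] {H : Subgroup G}

/-- `D` is a nontrivial subgroup of order dividing `p ^ 2` with normaliser `H`. -/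
structure Setting (p : ℕ) (D : Subgroup H) : Prop where
  prime : p.Prime
  normal : D.Normal
  pD : IsPGroup p D
  ne : D ≠ ⊥
  card : Nat.card D ∣ p ^ 2
  norm : ∀ g : G, (∀ δ ∈ D, ∃ δ' ∈ D, g⁻¹ * δ * g = δ') → g ∈ H

/-- The index set of the orbits. -/
structure Family (D : Subgroup H) {I : Type} (Qf : I → Subgroup H) (c : I → G) (i₀ iT iF : I)
    (Reps : Finset (Subgroup H)) : Prop where
  q0 : Qf i₀ = ⊤
  c0 : c i₀ = 1
  qT : Qf iT = ⊥
  cT : c iT = 1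
  qF : Qf iF = ⊥
  n0T : i₀ ≠ iT
  n0F : i₀ ≠ iF
  nTF : iT ≠ iF
  cent : ∀ i, c i ∈ CG (Qf i)
  other : ∀ i, i ≠ i₀ → i ≠ iT → i ≠ iF → Qf i ∈ Reps
  all : ∀ Q ∈ Reps, ∀ g ∈ CG Q, ∃ i, Qf i = Q ∧ c i = g
  lt : ∀ Q ∈ Reps, Q ≠ ⊥ ∧ Q < D
  cover : ∀ Q' : Subgroup H, Q' ≠ ⊥ → Q' < D →
    ∃ Q ∈ Reps, ∃ h : H, ∀ x, x ∈ Q ↔ h * x * h⁻¹ ∈ Q'
  uniq : ∀ Q ∈ Reps, ∀ Q' ∈ Reps, ∀ h : H, (∀ x, x ∈ Q ↔ h * x * h⁻¹ ∈ Q') → Q = Q'

variable {X : Type} [MulAction (G × H) X]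

/-- The orbits and their base points. -/
structure PreModel {I : Type} (Qf : I → Subgroup H) (c : I → G) (κ : X → G) (comp : X → I)
    (b : I → X) : Prop where
  biset : Biset H X κ
  comp_smul : ∀ (γ : G × H) x, comp (γ • x) = comp x
  comp_b : ∀ i, comp (b i) = i
  trans : ∀ x, ∃ γ : G × H, x = γ • b (comp x)
  stab : ∀ i (γ : G × H), γ • b i = b i ↔ γ.2 ∈ Qf i ∧ γ.1 = γ.2
  kb : ∀ i, κ (b i) = c i

variable {R : Type} [CommRing R] [IsLocalRing R] [Fintype G] [Fintype H] [Fintype X]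
  [DecidableEq X]

open Classical in
/-- The basic kernels: multiplication by `e` and `f`, the projections onto unions of orbits, and
the map to the copy of `G`. -/
structure Kers {I : Type} (e : MonoidAlgebra R G) (f : MonoidAlgebra R H) (κ : X → G)
    (comp : X → I) (i₀ iF : I) (ef D₀ : Kern R H X) (P : (I → Prop) → Kern R H X) : Prop where
  ef_val : ef.1 = (piA R H X e).1 * rhoM R H X f
  P_val : ∀ S x y, (P S).1 x y = if x = y ∧ S (comp x) then 1 else 0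
  D_val : ∀ x y, D₀.1 x y =
    if comp x = i₀ ∧ comp y ≠ i₀ ∧ comp y ≠ iF ∧ κ x = κ y then 1 else 0

/-- All the standing data. -/
structure Setup (p : ℕ) (D : Subgroup H) (e : MonoidAlgebra R G) (f a : MonoidAlgebra R H)
    {I : Type} (Qf : I → Subgroup H) (c : I → G) (i₀ iT iF : I) (Reps : Finset (Subgroup H))
    (κ : X → G) (comp : X → I) (b : I → X) (ef D₀ : Kern R H X)
    (P : (I → Prop) → Kern R H X) : Prop where
  split : MonicSplit R
  pR : (p : R) ∈ maximalIdeal R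
  set : Setting p D
  fam : Family D Qf c i₀ iT iF Reps
  pre : PreModel Qf c κ comp b
  ker : Kers e f κ comp i₀ iF ef D₀ P
  blE : BlockE p (Nat.card D) e
  blF : BlockF D f a
  brc : ∀ h : H, (∀ δ ∈ D, h * δ = δ * h) → e.coeff h - f.coeff h ∈ maximalIdeal R

variable (X) in
/-- The radical for both actions. -/
noncomputable def radS (k : Type) [Field k] (D Q : Subgroup H) : Submodule k (Fix X Q → k) :=
  JU (lamQ X k Q) ⊔ augS (rhoQ X k Q) (D.subgroupOf (CH Q))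

variable (X) in
/-- The radical together with the short Jordan blocks. -/
noncomputable def shortS (k : Type) [Field k] (p : ℕ) (D Q : Subgroup H) :
    Submodule k (Fix X Q → k) :=
  radS X k D Q ⊔ kapS (rhoQ X k Q) (D.subgroupOf (CH Q)) (p / 2) (JU (lamQ X k Q))

/-- `ε` cuts out of `Pf` a projective cover of the long part, for the map `df`. -/
structure CoverOut (p : ℕ) (D Q : Subgroup H) (Pf df ε : Kern R H X) : Prop where
  inv : GInv ε
  idem : ε * ε = ε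
  left : Pf * ε = ε
  right : ε * Pf = ε
  cov1 : ∀ u, loc Q df.1 (loc Q ε.1 u - loc Q Pf.1 u) ∈ shortS X (ResidueField R) p D Q
  cov2 : ∀ u, loc Q df.1 u ∈ shortS X (ResidueField R) p D Q →
    loc Q ε.1 u ∈ radS X (ResidueField R) D Q

/-- The two-term complex. -/
structure Built (p : ℕ) (D : Subgroup H) {I : Type} (Qf : I → Subgroup H) (i₀ iT iF : I)
    (Reps : Finset (Subgroup H)) (ef D₀ : Kern R H X) (P : (I → Prop) → Kern R H X)
    (ε : Subgroup H → Kern R H X) (ε₀ ε₁ d : Kern R H X) : Prop where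
  e0 : ε₀ = ef * P (· = i₀)
  cover : ∀ Q ∈ Reps, CoverOut p D Q (P (fun i => Qf i = Q) * ef) (ε₀ * D₀) (ε Q)
  e1 : ε₁ = ∑ Q ∈ Reps, ε Q + ef * P (fun i => i = iT ∨ i = iF)
  dd : d = ε₀ * D₀ * ε₁

/-- What the final argument uses. -/
structure ModelData (p : ℕ) (D : Subgroup H) (e : MonoidAlgebra R G) (f : MonoidAlgebra R H)
    (κ : X → G) (ε₀ ε₁ d σ : Kern R H X) (x₀ : X) : Prop where
  biset : Biset H X κ
  cx : CxData ε₀ ε₁ d σ
  loc : ∃ 𝒬, LocHyp p ε₀ ε₁ d 𝒬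
  e0 : piA R H X e * ε₀ = ε₀
  e1 : piA R H X e * ε₁ = ε₁
  f1 : rhoM R H X f * ε₁.1 = ε₁.1
  br1 : br D ε₁.1 = 0
  br0 : br D ε₀.1 ≠ 0
  dead1 : ∀ x, ε₁.1 x x₀ = ((piA R H X e).1 * rhoM R H X f) x x₀
  dead2 : ∀ x, d.1 x x₀ = 0
  free : ∀ γ : G × H, γ • x₀ = x₀ → γ = 1

end Pool.Agent.Lib.MP_b6945b_al.St
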