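import Pool.Agent.Lib.MP_b6945b_al.St.Defs

set_option autoImplicit false

/-!
Basic facts on symmetric orders and their deformations.
-/

namespace Pool.Agent.Lib.MP_b6945b_al.St

open PowerSeries

variable {K : Type} [Field K] {V : ValuationSubring K} {A : Type} [Ring A] [Algebra K A]

lemma order0_inv_mem [FiniteDimensional K A] (B : Subalgebra K A) {u w : A} (hu : u ∈ B)
    (h1 : w * u = 1) : w ∈ B ∧ u * w = 1 := by
  have hinj : Function.Injective (LinearMap.mulLeft K (⟨u, hu⟩ : B)) := by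
    rw [injective_iff_map_eq_zero]
    intro x hx
    have h2 : u * (x : A) = 0 := congrArg Subtype.val hx
    apply Subtype.ext
    change (x : A) = 0
    rw [← one_mul (x : A), ← h1, mul_assoc, h2, mul_zero]
  obtain ⟨x, hx⟩ := LinearMap.surjective_of_injective hinj 1
  have h2 : u * (x : A) = 1 := congrArg Subtype.val hx
  have h3 : w = x := by rw [← mul_one w, ← h2, ← mul_assoc, h1, one_mul]
  exact ⟨h3 ▸ x.2, h3 ▸ h2⟩

lemma order0_common {ι : Type} (t : Finset ι) (c : ι → K) :
    ∃ d : K, d ≠ 0 ∧ ∀ i ∈ t, d * c i ∈ V := by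
  classical
  induction t using Finset.induction_on with
  | empty => exact ⟨1, one_ne_zero, fun i hi => absurd hi (Finset.notMem_empty i)⟩
  | insert j t hj ih =>
    obtain ⟨d, hd, h⟩ := ih
    rcases V.mem_or_inv_mem (d * c j) with h1 | h1
    · refine ⟨d, hd, fun i hi => ?_⟩
      rcases Finset.mem_insert.1 hi with rfl | hi
      · exact h1
      · exact h i hi
    · by_cases h0 : d * c j = 0
      · refine ⟨d, hd, fun i hi => ?_⟩
        rcases Finset.mem_insert.1 hi with rfl | hi
        · rw [h0]; exact V.zero_mem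
        · exact h i hi
      · refine ⟨(d * c j)⁻¹ * d, mul_ne_zero (inv_ne_zero h0) hd, fun i hi => ?_⟩
        rcases Finset.mem_insert.1 hi with rfl | hi
        · rw [mul_assoc, inv_mul_cancel₀ h0]; exact V.one_mem
        · rw [mul_assoc]; exact V.mul_mem _ _ h1 (h i hi)

namespace SymOrder

variable {O : Subring A} {s : A →ₗ[K] K}

/-- The order as a subalgebra over the valuation ring. -/
def order0_alg (h : SymOrder V O s) : Subalgebra V A where
  toSubsemiring := O.toSubsemiring
  algebraMap_mem' r := by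
    rw [Algebra.algebraMap_eq_smul_one]
    exact h.smul_mem r r.2 1 O.one_mem

lemma order0_mem_alg (h : SymOrder V O s) {a : A} : a ∈ h.order0_alg ↔ a ∈ O := Iff.rfl

lemma order0_fg (h : SymOrder V O s) : (Subalgebra.toSubmodule h.order0_alg).FG := by
  classical
  obtain ⟨n, β, β', hβ, hβ', hf⟩ := h.frame
  refine ⟨Finset.univ.image β, le_antisymm ?_ ?_⟩
  · rw [Submodule.span_le]
    intro x hx
    obtain ⟨i, -, rfl⟩ := Finset.mem_image.1 (Finset.mem_coe.1 hx)
    exact hβ i
  · intro y hy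
    rw [← hf.repro y trivial]
    refine Submodule.sum_mem _ (fun i _ => ?_)
    have hv : s (y * β' i) ∈ V := h.form_mem _ (O.mul_mem hy (hβ' i))
    have e : s (y * β' i) • β i = (⟨s (y * β' i), hv⟩ : V) • β i := rfl
    rw [e]
    exact Submodule.smul_mem _ _ (Submodule.subset_span
      (Finset.mem_coe.2 (Finset.mem_image_of_mem β (Finset.mem_univ i))))

/-- The frame spans `A`. -/
lemma finiteDimensional (h : SymOrder V O s) : FiniteDimensional K A := by
  obtain ⟨n, β, β', -, -, hf⟩ := h.frame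
  have e : Submodule.span K (Set.range β) = ⊤ := by
    rw [eq_top_iff]
    intro y _
    rw [← hf.repro y trivial]
    exact Submodule.sum_mem _ (fun i _ =>
      Submodule.smul_mem _ _ (Submodule.subset_span (Set.mem_range_self i)))
  exact Module.finite_def.2 (e ▸ Submodule.fg_span (Set.finite_range β))

lemma symm (h : SymOrder V O s) (x y : A) : s (x * y) = s (y * x) := by
  obtain ⟨n, β, β', -, -, hf⟩ := h.frame
  exact hf.symm x trivial y trivial

lemma algebraMap_mem (h : SymOrder V O s) {v : K} (hv : v ∈ V) : algebraMap K A v ∈ O := by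
  rw [Algebra.algebraMap_eq_smul_one]
  exact h.smul_mem v hv 1 O.one_mem

/-- Self-duality: use `a = ∑ s (a β') • β`. -/
lemma mem_of_form (h : SymOrder V O s) {a : A} (ha : ∀ y ∈ O, s (a * y) ∈ V) : a ∈ O := by
  obtain ⟨n, β, β', hβ, hβ', hf⟩ := h.frame
  rw [← hf.repro a trivial]
  exact O.sum_mem (fun i _ => h.smul_mem _ (ha _ (hβ' i)) _ (hβ i))

/-- Elements of the order are integral: the span over `V` of the frame is a finitely generated
faithful module stable under `a` (`isIntegral_of_smul_mem_submodule` or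
`IsIntegral.of_mem_of_fg` for the subalgebra over `V` with carrier `O`). -/
lemma isIntegral (h : SymOrder V O s) {a : A} (ha : a ∈ O) : IsIntegral V a :=
  IsIntegral.of_mem_of_fg h.order0_alg h.order0_fg a ha

lemma order0_inv_smul (h : SymOrder V O s) {m : K} (hm : m ∈ V.nonunits) {y : A} (hy : y ∈ O) :
    ∃ w ∈ O, (1 - m • y) * w = 1 := by
  obtain ⟨hmV, hm'⟩ := ValuationSubring.mem_nonunits_iff_exists_mem_maximalIdeal.1 hm
  have key : Subalgebra.toSubmodule h.order0_alg ≤
      (Subalgebra.toSubmodule h.order0_alg).map (LinearMap.mulLeft V (1 - m • y)) := by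
    refine Submodule.le_of_le_smul_of_le_jacobson_bot h.order0_fg
      (IsLocalRing.maximalIdeal_le_jacobson _) (fun x hx => ?_)
    have e : x = (1 - m • y) * x + (⟨m, hmV⟩ : V) • (y * x) := by
      change x = (1 - m • y) * x + m • (y * x)
      rw [sub_mul, one_mul, smul_mul_assoc, sub_add_cancel]
    rw [e]
    exact Submodule.add_mem_sup ⟨x, hx, rfl⟩
      (Submodule.smul_mem_smul hm' (O.mul_mem hy hx))
  obtain ⟨w, hw, e⟩ := key (O.one_mem)
  exact ⟨w, hw, e⟩

/-- Nakayama: if `z ^ n = m • y` then `1 - z ^ n = 1 - m • y` is a unit of `O` (the left and the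
right ideal it generates are everything, `Submodule.le_of_le_smul_of_le_jacobson_bot` over `V`),
and `1 - z` divides it on both sides. -/
lemma exists_inv_one_sub (h : SymOrder V O s) {z : A} (hz : z ∈ O) (hn : NilMod V O z) :
    ∃ w ∈ O, w * (1 - z) = 1 ∧ (1 - z) * w = 1 := by
  obtain ⟨n, m, hm, y, hy, e⟩ := hn
  obtain ⟨w, hw, h1⟩ := h.order0_inv_smul hm hy
  have := h.finiteDimensional
  rw [← e, ← mul_neg_geom_sum, mul_assoc] at h1
  refine ⟨(∑ i ∈ Finset.range n, z ^ i) * w,
    O.mul_mem (O.sum_mem (fun i _ => O.pow_mem hz i)) hw, ?_, h1⟩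
  exact (order0_inv_mem (⊤ : Subalgebra K A) trivial h1).2

/-- Apply the previous lemma to `1 - v⁻¹ • z`. -/
lemma exists_inv (h : SymOrder V O s) {z : A} (hz : z ∈ O) {v : K} (hv : v ∈ V)
    (hv' : v ∉ V.nonunits) (hn : NilMod V O (z - algebraMap K A v)) :
    ∃ w ∈ O, w * z = 1 ∧ z * w = 1 := by
  have h0 : v ≠ 0 := fun e => hv' (V.mem_nonunits_iff_or.2 (Or.inl e))
  have hi : v⁻¹ ∈ V := by
    by_contra e
    exact hv' (V.mem_nonunits_iff_or.2 (Or.inr e))
  obtain ⟨n, m, hm, y, hy, e⟩ := hn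
  have e1 : 1 - v⁻¹ • z = (-v⁻¹) • (z - algebraMap K A v) := by
    rw [Algebra.algebraMap_eq_smul_one, smul_sub, smul_smul, neg_mul, inv_mul_cancel₀ h0,
      neg_smul, neg_smul, one_smul]
    abel
  have hz' : 1 - v⁻¹ • z ∈ O := O.sub_mem O.one_mem (h.smul_mem _ hi _ hz)
  have hn' : NilMod V O (1 - v⁻¹ • z) := by
    refine ⟨n, m, hm, (-v⁻¹) ^ n • y,
      h.smul_mem _ (V.toSubring.pow_mem (V.toSubring.neg_mem hi) n) _ hy, ?_⟩
    rw [e1, smul_pow, e, smul_comm]
  obtain ⟨w, hw, h1, h2⟩ := h.exists_inv_one_sub hz' hn'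
  rw [sub_sub_cancel] at h1 h2
  refine ⟨v⁻¹ • w, h.smul_mem _ hi _ hw, ?_, ?_⟩
  · rw [smul_mul_assoc, ← mul_smul_comm, h1]
  · rw [mul_smul_comm, ← smul_mul_assoc, h2]

/-- A map that is linear on the order extends: `T' y = ∑ s (y β') • T β`. -/
lemma exists_extend (h : SymOrder V O s) {W : Type} [AddCommGroup W] [Module K W] (T : A → W)
    (hadd : ∀ a ∈ O, ∀ b ∈ O, T (a + b) = T a + T b)
    (hsmul : ∀ v ∈ V, ∀ a ∈ O, T (v • a) = v • T a) :
    ∃ T' : A →ₗ[K] W, ∀ a ∈ O, T' a = T a := by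
  obtain ⟨n, β, β', hβ, hβ', hf⟩ := h.frame
  have h0 : T 0 = 0 := by
    have := hsmul 0 V.zero_mem 0 O.zero_mem
    rwa [zero_smul, zero_smul] at this
  have hsum : ∀ (t : Finset (Fin n)) (x : Fin n → A), (∀ i, x i ∈ O) →
      T (∑ i ∈ t, x i) = ∑ i ∈ t, T (x i) := by
    intro t x hx
    induction t using Finset.induction_on with
    | empty => simpa using h0
    | insert j t hj ih =>
      rw [Finset.sum_insert hj, Finset.sum_insert hj,
        hadd _ (hx j) _ (O.sum_mem (fun i _ => hx i)), ih]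
  refine ⟨∑ i, (s ∘ₗ LinearMap.mulRight K (β' i)).smulRight (T (β i)), fun a ha => ?_⟩
  have hv : ∀ i, s (a * β' i) ∈ V := fun i => h.form_mem _ (O.mul_mem ha (hβ' i))
  conv_rhs => rw [← hf.repro a trivial]
  rw [hsum _ _ (fun i => h.smul_mem _ (hv i) _ (hβ i)), LinearMap.sum_apply]
  refine Finset.sum_congr rfl (fun i _ => ?_)
  rw [hsmul _ (hv i) _ (hβ i)]
  rfl

lemma linear_ext (h : SymOrder V O s) {W : Type} [AddCommGroup W] [Module K W]
    {T T' : A →ₗ[K] W} (e : ∀ a ∈ O, T a = T' a) : T = T' := by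
  obtain ⟨n, β, β', hβ, -, hf⟩ := h.frame
  ext a
  rw [← hf.repro a trivial, map_sum, map_sum]
  exact Finset.sum_congr rfl (fun i _ => by rw [map_smul, map_smul, e _ (hβ i)])

/-- Every element has a nonzero multiple in the order (valuation ring: among finitely many
coordinates one divides the others). -/
lemma exists_smul_mem (h : SymOrder V O s) (a : A) : ∃ c : K, c ≠ 0 ∧ c • a ∈ O := by
  obtain ⟨n, β, β', hβ, -, hf⟩ := h.frame
  obtain ⟨d, hd, hc⟩ := order0_common (V := V) Finset.univ (fun i => s (a * β' i))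
  refine ⟨d, hd, ?_⟩
  rw [← hf.repro a trivial, Finset.smul_sum]
  refine O.sum_mem (fun i hi => ?_)
  rw [smul_smul]
  exact h.smul_mem _ (hc i hi) _ (hβ i)

end SymOrder

/-- The inverse of an element of a subalgebra of a finite-dimensional algebra lies in it
(left multiplication on `B` is injective, hence surjective). -/
lemma inv_mem_of_finite [FiniteDimensional K A] (B : Subalgebra K A) {u w : A} (hu : u ∈ B)
    (h1 : w * u = 1) : w ∈ B ∧ u * w = 1 :=
  order0_inv_mem B hu h1

lemma C_mem_VX {v : K} (hv : v ∈ V) : (C v : K⟦X⟧) ∈ VX V := by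
  rw [mem_VX]
  intro n
  rw [coeff_C]
  split_ifs
  · exact hv
  · exact V.zero_mem

lemma X_mem_VX : (X : K⟦X⟧) ∈ VX V := by
  rw [mem_VX]
  intro n
  rw [coeff_X]
  split_ifs
  · exact V.one_mem
  · exact V.zero_mem

lemma closed_VX : Closed ((VX V : Subring K⟦X⟧) : Set K⟦X⟧) :=
  closed_coeff (fun _ a => a ∈ V)

/-- A series with central coefficients is central. -/
lemma central_series {g : A⟦X⟧} (h : ∀ m a, coeff m g * a = a * coeff m g) (F : A⟦X⟧) :
    g * F = F * g := by
  ext n
  simp only [coeff_mul]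
  rw [← Finset.Nat.sum_antidiagonal_swap]
  exact Finset.sum_congr rfl (fun q _ => h _ _)

/-- A central series has central coefficients (test against constants). -/
lemma central_coeff {g : A⟦X⟧} (h : ∀ F, g * F = F * g) (m : ℕ) (a : A) :
    coeff m g * a = a * coeff m g := by
  have := congrArg (coeff m) (h (C a))
  rwa [coeff_mul_C, coeff_C_mul] at this

/-- Series with invertible constant term, all of whose coefficients lie in a subalgebra containing
that inverse, have an inverse with coefficients in the subalgebra (`exists_neumann` for left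
multiplication by `C w * F`). -/
lemma exists_inv_coefAlg (B : Subalgebra K A) {F : A⟦X⟧} (hF : F ∈ coefAlg B) {w : A}
    (hw : w ∈ B) (h1 : w * coeff 0 F = 1) (h2 : coeff 0 F * w = 1) :
    ∃ G ∈ coefAlg B, G * F = 1 ∧ F * G = 1 ∧ coeff 0 G = w := by
  have hCw : (C w : A⟦X⟧) ∈ coefAlg B := by
    rw [mem_coefAlg]
    intro n
    rw [coeff_C]
    split_ifs
    · exact hw
    · exact B.zero_mem
  have hcl : Closed (((coefAlg B).toSubring.toAddSubgroup : AddSubgroup A⟦X⟧) : Set A⟦X⟧) :=
    closed_coeff (fun _ a => a ∈ B)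
  obtain ⟨L, hL1, -, hL0, hLW⟩ := exists_neumann (LinearMap.mulLeft K⟦X⟧ (F * C w)) (fun G => by
    rw [LinearMap.mulLeft_apply, coeff_zero_mul', coeff_zero_mul', coeff_zero_C, h2, one_mul])
  obtain ⟨R, hR1, -, -, -⟩ := exists_neumann (LinearMap.mulRight K⟦X⟧ (C w * F)) (fun G => by
    rw [LinearMap.mulRight_apply, coeff_zero_mul', coeff_zero_mul', coeff_zero_C, h1, mul_one])
  have e1 : F * (C w * L 1) = 1 := by
    rw [← mul_assoc]; exact hL1 1
  have e2 : (R 1 * C w) * F = 1 := by
    rw [mul_assoc]; exact hR1 1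
  have e3 : R 1 * C w = C w * L 1 := by
    calc R 1 * C w = (R 1 * C w) * (F * (C w * L 1)) := by rw [e1, mul_one]
      _ = C w * L 1 := by rw [← mul_assoc, e2, one_mul]
  have hL : L 1 ∈ coefAlg B :=
    hLW (coefAlg B).toSubring.toAddSubgroup hcl
      (fun G hG => (coefAlg B).mul_mem ((coefAlg B).mul_mem hF hCw) hG) 1 (coefAlg B).one_mem
  refine ⟨C w * L 1, (coefAlg B).mul_mem hCw hL, e3 ▸ e2, e1, ?_⟩
  rw [coeff_zero_mul', hL0, coeff_zero_C, coeff_zero_one, mul_one]

end Pool.Agent.Lib.MP_b6945b_al.St
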