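import Mathlib

set_option autoImplicit false

/-!
Power series over a noncommutative algebra: scalar series, coefficientwise extension of linear
maps, the Euler derivation `t d/dt`, order filtration, limits and fixed points.
-/

namespace Pool.Agent.Lib.MP_b6945b_al.St

open PowerSeries

/-- Scalar series act on series over a noncommutative algebra. -/
noncomputable scoped instance (priority := 50) psAlgebra {S A : Type} [CommRing S] [Ring A]
    [Algebra S A] : Algebra S⟦X⟧ A⟦X⟧ :=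
  (PowerSeries.map (algebraMap S A)).toAlgebra' (by
    intro c x
    ext n
    simp only [coeff_mul, coeff_map]
    rw [← Finset.Nat.sum_antidiagonal_swap]
    exact Finset.sum_congr rfl (fun p _ => Algebra.commutes _ _))

section Basic

variable {S A A' : Type} [CommRing S] [Ring A] [Algebra S A] [Ring A'] [Algebra S A']

lemma ps_smul_def (r : S⟦X⟧) (F : A⟦X⟧) : r • F = PowerSeries.map (algebraMap S A) r * F := rfl

lemma coeff_ps_smul (r : S⟦X⟧) (F : A⟦X⟧) (n : ℕ) :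
    coeff n (r • F) = ∑ q ∈ Finset.HasAntidiagonal.antidiagonal n, coeff q.1 r • coeff q.2 F := by
  rw [ps_smul_def, coeff_mul]
  exact Finset.sum_congr rfl (fun q _ => by rw [coeff_map, Algebra.smul_def])

lemma C_ps_smul (c : S) (F : A⟦X⟧) : (C c : S⟦X⟧) • F = c • F := by
  rw [ps_smul_def, map_C]
  ext n
  rw [coeff_C_mul, coeff_smul, Algebra.smul_def]

lemma X_ps_smul (F : A⟦X⟧) : (X : S⟦X⟧) • F = X * F := by
  rw [ps_smul_def, map_X]

lemma coeff_zero_ps_smul (r : S⟦X⟧) (F : A⟦X⟧) :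
    coeff 0 (r • F) = coeff 0 r • coeff 0 F := by
  simp [coeff_ps_smul]

lemma coeff_zero_mul' (F G : A⟦X⟧) : coeff 0 (F * G) = coeff 0 F * coeff 0 G := by
  simp [coeff_mul]

/-- Coefficientwise extension of a linear map. -/
noncomputable def ext (T : A →ₗ[S] A') : A⟦X⟧ →ₗ[S⟦X⟧] A'⟦X⟧ where
  toFun F := PowerSeries.mk fun n => T (coeff n F)
  map_add' F G := by ext n; simp
  map_smul' r F := by
    ext n
    simp [coeff_ps_smul, map_sum]

@[simp] lemma coeff_ext (T : A →ₗ[S] A') (F : A⟦X⟧) (n : ℕ) :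
    coeff n (ext T F) = T (coeff n F) := by
  simp [ext]

/-- Coefficientwise extension of a linear functional. -/
noncomputable def extF (s : A →ₗ[S] S) : A⟦X⟧ →ₗ[S⟦X⟧] S⟦X⟧ where
  toFun F := PowerSeries.mk fun n => s (coeff n F)
  map_add' F G := by ext n; simp
  map_smul' r F := by
    ext n
    simp [coeff_ps_smul, map_sum, coeff_mul]

@[simp] lemma coeff_extF (s : A →ₗ[S] S) (F : A⟦X⟧) (n : ℕ) :
    coeff n (extF s F) = s (coeff n F) := by
  simp [extF]

/-- The form `F ↦ s (g F)` on series. -/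
noncomputable def st (s : A →ₗ[S] S) (g : A⟦X⟧) : A⟦X⟧ →ₗ[S⟦X⟧] S⟦X⟧ :=
  extF s ∘ₗ LinearMap.mulLeft S⟦X⟧ g

lemma st_apply (s : A →ₗ[S] S) (g F : A⟦X⟧) : st s g F = extF s (g * F) := rfl

/-- The Euler derivation `t d/dt`. -/
noncomputable def th {A : Type} [Ring A] : A⟦X⟧ →+ A⟦X⟧ where
  toFun F := PowerSeries.mk fun n => (n : A) * coeff n F
  map_zero' := by ext n; simp
  map_add' F G := by ext n; simp [mul_add]

@[simp] lemma coeff_th (F : A⟦X⟧) (n : ℕ) : coeff n (th F) = (n : A) * coeff n F := by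
  simp [th]

lemma th_mul (F G : A⟦X⟧) : th (F * G) = th F * G + F * th G := by
  ext n
  simp only [coeff_th, coeff_mul, map_add, Finset.mul_sum, ← Finset.sum_add_distrib]
  refine Finset.sum_congr rfl (fun q hq => ?_)
  rw [← Finset.HasAntidiagonal.mem_antidiagonal.1 hq, Nat.cast_add, add_mul, mul_assoc, ← mul_assoc (q.2 : A),
    (Nat.cast_commute q.2 (coeff q.1 F)).eq, mul_assoc]

lemma th_C (a : A) : th (C a : A⟦X⟧) = 0 := by
  ext n
  rcases n with _ | n <;> simp [coeff_C]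

lemma th_one : th (1 : A⟦X⟧) = 0 := by
  rw [← map_one (C : A →+* A⟦X⟧), th_C]

lemma th_map (r : S⟦X⟧) :
    th (PowerSeries.map (algebraMap S A) r) = PowerSeries.map (algebraMap S A) (th r) := by
  ext n; simp

lemma th_smul (r : S⟦X⟧) (F : A⟦X⟧) : th (r • F) = th r • F + r • th F := by
  simp only [ps_smul_def, th_mul, th_map]

lemma extF_th (s : A →ₗ[S] S) (F : A⟦X⟧) : extF s (th F) = th (extF s F) := by
  ext n
  rw [coeff_extF, coeff_th, coeff_th, coeff_extF, ← nsmul_eq_mul, map_nsmul, nsmul_eq_mul]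

lemma ext_th (T : A →ₗ[S] A') (F : A⟦X⟧) : ext T (th F) = th (ext T F) := by
  ext n
  rw [coeff_ext, coeff_th, coeff_th, coeff_ext, ← nsmul_eq_mul, map_nsmul, nsmul_eq_mul]

/-- Series all of whose coefficients lie in a subring. -/
def coefSub {A : Type} [Ring A] (W : Subring A) : Subring A⟦X⟧ where
  carrier := {F | ∀ n, coeff n F ∈ W}
  zero_mem' := fun n => by simp
  one_mem' := fun n => by
    rw [coeff_one]
    split_ifs
    · exact W.one_mem
    · exact W.zero_mem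
  add_mem' := fun ha hb n => by rw [map_add]; exact W.add_mem (ha n) (hb n)
  neg_mem' := fun ha n => by rw [map_neg]; exact W.neg_mem (ha n)
  mul_mem' := fun ha hb n => by
    rw [coeff_mul]; exact W.sum_mem (fun q _ => W.mul_mem (ha _) (hb _))

lemma mem_coefSub {W : Subring A} {F : A⟦X⟧} : F ∈ coefSub W ↔ ∀ n, coeff n F ∈ W := Iff.rfl

lemma th_mem_coefSub {W : Subring A} {F : A⟦X⟧} (h : F ∈ coefSub W) : th F ∈ coefSub W :=
  fun n => by rw [coeff_th]; exact W.mul_mem (natCast_mem W n) (h n)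

/-- Series all of whose coefficients lie in a subalgebra. -/
def coefAlg (B : Subalgebra S A) : Subalgebra S⟦X⟧ A⟦X⟧ where
  toSubsemiring := (coefSub B.toSubring).toSubsemiring
  algebraMap_mem' r n := by
    change coeff n (PowerSeries.map (algebraMap S A) r) ∈ B
    rw [coeff_map]; exact B.algebraMap_mem _

lemma mem_coefAlg {B : Subalgebra S A} {F : A⟦X⟧} : F ∈ coefAlg B ↔ ∀ n, coeff n F ∈ B := Iff.rfl

/-- Series all of whose coefficients lie in a submodule. -/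
def coefMod (U : Submodule S A) : Submodule S⟦X⟧ A⟦X⟧ where
  carrier := {F | ∀ n, coeff n F ∈ U}
  zero_mem' := fun n => by simp
  add_mem' := fun ha hb n => by rw [map_add]; exact U.add_mem (ha n) (hb n)
  smul_mem' := fun r F h n => by
    rw [coeff_ps_smul]; exact U.sum_mem (fun q _ => U.smul_mem _ (h _))

lemma mem_coefMod {U : Submodule S A} {F : A⟦X⟧} : F ∈ coefMod U ↔ ∀ n, coeff n F ∈ U := Iff.rfl

end Basic

section Order

variable {A : Type} [Ring A]

/-- `F` vanishes to order `n`. -/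
def Ord (n : ℕ) (F : A⟦X⟧) : Prop := ∀ m < n, coeff m F = 0

lemma ord_iff_dvd {n : ℕ} {F : A⟦X⟧} : Ord n F ↔ (X : A⟦X⟧) ^ n ∣ F := X_pow_dvd_iff.symm

lemma ord_zero (F : A⟦X⟧) : Ord 0 F := fun _ h => absurd h (Nat.not_lt_zero _)

lemma Ord.zero (n : ℕ) : Ord n (0 : A⟦X⟧) := fun _ _ => by simp

lemma Ord.mono {n n' : ℕ} {F : A⟦X⟧} (h : Ord n F) (hn : n' ≤ n) : Ord n' F :=
  fun m hm => h m (lt_of_lt_of_le hm hn)

lemma Ord.add {n : ℕ} {F G : A⟦X⟧} (h : Ord n F) (h' : Ord n G) : Ord n (F + G) :=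
  fun m hm => by rw [map_add, h m hm, h' m hm, add_zero]

lemma Ord.neg {n : ℕ} {F : A⟦X⟧} (h : Ord n F) : Ord n (-F) :=
  fun m hm => by rw [map_neg, h m hm, neg_zero]

lemma Ord.sub {n : ℕ} {F G : A⟦X⟧} (h : Ord n F) (h' : Ord n G) : Ord n (F - G) :=
  fun m hm => by rw [map_sub, h m hm, h' m hm, sub_zero]

lemma Ord.sum {ι : Type} {n : ℕ} {t : Finset ι} {F : ι → A⟦X⟧} (h : ∀ i ∈ t, Ord n (F i)) :
    Ord n (∑ i ∈ t, F i) :=
  fun m hm => by rw [map_sum]; exact Finset.sum_eq_zero (fun i hi => h i hi m hm)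

lemma Ord.mul {n n' : ℕ} {F G : A⟦X⟧} (h : Ord n F) (h' : Ord n' G) : Ord (n + n') (F * G) := by
  intro m hm
  rw [coeff_mul]
  refine Finset.sum_eq_zero (fun q hq => ?_)
  have := Finset.HasAntidiagonal.mem_antidiagonal.1 hq
  by_cases e : q.1 < n
  · rw [h _ e, zero_mul]
  · rw [h' _ (by omega), mul_zero]

lemma Ord.mul_right {n : ℕ} {F : A⟦X⟧} (h : Ord n F) (G : A⟦X⟧) : Ord n (F * G) := by
  simpa using h.mul (ord_zero G)

lemma Ord.mul_left {n : ℕ} {F : A⟦X⟧} (h : Ord n F) (G : A⟦X⟧) : Ord n (G * F) := by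
  simpa using (ord_zero G).mul h

lemma Ord.X_mul {n : ℕ} {F : A⟦X⟧} (h : Ord n F) : Ord (n + 1) (X * F) := by
  have hX : Ord 1 (X : A⟦X⟧) := fun m hm => by
    rw [Nat.lt_one_iff.1 hm]; simp
  simpa [add_comm] using hX.mul h

lemma ord_one_iff {F : A⟦X⟧} : Ord 1 F ↔ coeff 0 F = 0 :=
  ⟨fun h => h 0 Nat.one_pos, fun h m hm => by rw [Nat.lt_one_iff.1 hm]; exact h⟩

lemma eq_zero_of_ord {F : A⟦X⟧} (h : ∀ n, Ord n F) : F = 0 := by
  ext m; exact h (m + 1) m (Nat.lt_succ_self m)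

lemma Ord.smul {S : Type} [CommRing S] [Algebra S A] {n : ℕ} {F : A⟦X⟧} (h : Ord n F)
    (r : S⟦X⟧) : Ord n (r • F) := h.mul_left _

lemma Ord.smul_left {S : Type} [CommRing S] [Algebra S A] {n : ℕ} {r : S⟦X⟧} (h : Ord n r)
    (F : A⟦X⟧) : Ord n (r • F) := by
  rw [ps_smul_def]
  refine Ord.mul_right (fun m hm => ?_) F
  rw [coeff_map, h m hm, map_zero]

/-- A linear map over the scalar series preserves the order filtration. -/
lemma Ord.map {S A' : Type} [CommRing S] [Algebra S A] [Ring A'] [Algebra S A'] {n : ℕ}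
    {F : A⟦X⟧} (h : Ord n F) (T : A⟦X⟧ →ₗ[S⟦X⟧] A'⟦X⟧) : Ord n (T F) := by
  obtain ⟨G, rfl⟩ := ord_iff_dvd.1 h
  have e : ∀ {B : Type} [Ring B] [Algebra S B] (H : B⟦X⟧),
      (X : B⟦X⟧) ^ n * H = ((X : S⟦X⟧) ^ n) • H := by
    intro B _ _ H
    rw [ps_smul_def, map_pow, map_X]
  rw [e, map_smul, ← e]
  exact ord_iff_dvd.2 ⟨_, rfl⟩

lemma Ord.mapF {S : Type} [CommRing S] [Algebra S A] {n : ℕ}
    {F : A⟦X⟧} (h : Ord n F) (T : A⟦X⟧ →ₗ[S⟦X⟧] S⟦X⟧) : Ord n (T F) := by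
  obtain ⟨G, rfl⟩ := ord_iff_dvd.1 h
  have e : (X : A⟦X⟧) ^ n * G = ((X : S⟦X⟧) ^ n) • G := by
    rw [ps_smul_def, map_pow, map_X]
  rw [e, map_smul, smul_eq_mul]
  exact ord_iff_dvd.2 ⟨_, rfl⟩

/-- Sets of series closed in the `t`-adic topology. -/
def Closed (W : Set A⟦X⟧) : Prop := ∀ F, (∀ n, ∃ G ∈ W, Ord n (F - G)) → F ∈ W

lemma Closed.inter {W W' : Set A⟦X⟧} (h : Closed W) (h' : Closed W') : Closed (W ∩ W') :=
  fun F hF => ⟨h F (fun n => let ⟨G, a, b⟩ := hF n; ⟨G, a.1, b⟩),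
    h' F (fun n => let ⟨G, a, b⟩ := hF n; ⟨G, a.2, b⟩)⟩

/-- A condition on single coefficients defines a closed set. -/
lemma closed_coeff (P : ℕ → A → Prop) : Closed {F : A⟦X⟧ | ∀ n, P n (coeff n F)} := by
  intro F hF n
  obtain ⟨G, hG, h⟩ := hF (n + 1)
  have := h n (Nat.lt_succ_self n)
  rw [map_sub, sub_eq_zero] at this
  rw [this]; exact hG n

/-- Limits of Cauchy sequences. -/
lemma exists_lim (F : ℕ → A⟦X⟧) (h : ∀ n, Ord n (F (n + 1) - F n)) :
    ∃ L : A⟦X⟧, ∀ n, Ord n (L - F n) := by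
  have key : ∀ n k, Ord n (F (n + k) - F n) := by
    intro n k
    induction k with
    | zero => simpa using Ord.zero n
    | succ k ih =>
      have := ((h (n + k)).mono (Nat.le_add_right n k)).add ih
      rwa [sub_add_sub_cancel] at this
  refine ⟨PowerSeries.mk fun m => coeff m (F (m + 1)), fun n m hm => ?_⟩
  obtain ⟨k, rfl⟩ := Nat.exists_eq_add_of_le (Nat.succ_le_of_lt hm)
  have := key (m + 1) k m (Nat.lt_succ_self m)
  rw [map_sub, sub_eq_zero] at this
  rw [map_sub, coeff_mk, sub_eq_zero]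
  exact this.symm

/-- Contractions of closed sets of families of series have fixed points. -/
lemma exists_fixed_family {ι : Type} (W : ι → Set A⟦X⟧) (hW : ∀ i, Closed (W i))
    (Φ : (ι → A⟦X⟧) → ι → A⟦X⟧) (F₀ : ι → A⟦X⟧) (h₀ : ∀ i, F₀ i ∈ W i)
    (hΦ : ∀ F, (∀ i, F i ∈ W i) → ∀ i, Φ F i ∈ W i)
    (hc : ∀ n F G, (∀ i, F i ∈ W i) → (∀ i, G i ∈ W i) → (∀ i, Ord n (F i - G i)) →
      ∀ i, Ord (n + 1) (Φ F i - Φ G i)) :
    ∃ F, (∀ i, F i ∈ W i) ∧ Φ F = F := by
  have hm : ∀ n i, (Φ^[n] F₀) i ∈ W i := by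
    intro n
    induction n with
    | zero => exact h₀
    | succ n ih => rw [Function.iterate_succ_apply']; exact hΦ _ ih
  have hs : ∀ n i, Ord n ((Φ^[n + 1] F₀) i - (Φ^[n] F₀) i) := by
    intro n
    induction n with
    | zero => exact fun i => ord_zero _
    | succ n ih =>
      intro i
      have := hc n _ _ (hm (n + 1)) (hm n) ih i
      rwa [← Function.iterate_succ_apply' Φ (n + 1), ← Function.iterate_succ_apply' Φ n] at this
  choose L hL using fun i => exists_lim (fun n => (Φ^[n] F₀) i) (fun n => hs n i)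
  have hLW : ∀ i, L i ∈ W i := fun i => hW i _ (fun n => ⟨_, hm n i, hL i n⟩)
  refine ⟨L, hLW, funext fun i => ?_⟩
  rw [← sub_eq_zero]
  refine eq_zero_of_ord (fun n => ?_)
  have h1 := hc n _ _ hLW (hm n) (fun i => hL i n) i
  rw [← Function.iterate_succ_apply' Φ n] at h1
  have := (h1.sub (hL i (n + 1))).mono (Nat.le_succ n)
  rwa [sub_sub_sub_cancel_right] at this

/-- Contractions of closed sets of series have fixed points. -/
lemma exists_fixed (W : Set A⟦X⟧) (hW : Closed W) (Φ : A⟦X⟧ → A⟦X⟧) (F₀ : A⟦X⟧) (h₀ : F₀ ∈ W)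
    (hΦ : ∀ F ∈ W, Φ F ∈ W)
    (hc : ∀ n, ∀ F ∈ W, ∀ G ∈ W, Ord n (F - G) → Ord (n + 1) (Φ F - Φ G)) :
    ∃ F ∈ W, Φ F = F := by
  obtain ⟨F, h1, h2⟩ := exists_fixed_family (ι := Unit) (fun _ => W) (fun _ => hW)
    (fun F _ => Φ (F ())) (fun _ => F₀) (fun _ => h₀) (fun F h _ => hΦ _ (h ()))
    (fun n F G hF hG h _ => hc n _ (hF ()) _ (hG ()) (h ()))
  exact ⟨F (), h1 (), congrFun h2 ()⟩

/-- Neumann series: a linear operator congruent to the identity modulo `t` is invertible, and its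
inverse preserves every closed additive subgroup that the operator preserves. -/
lemma exists_neumann {S : Type} [CommRing S] [Algebra S A] (T : A⟦X⟧ →ₗ[S⟦X⟧] A⟦X⟧)
    (hT : ∀ F, coeff 0 (T F) = coeff 0 F) :
    ∃ T' : A⟦X⟧ →ₗ[S⟦X⟧] A⟦X⟧, (∀ F, T (T' F) = F) ∧ (∀ F, T' (T F) = F) ∧
      (∀ F, coeff 0 (T' F) = coeff 0 F) ∧
      ∀ W : AddSubgroup A⟦X⟧, Closed (W : Set A⟦X⟧) → (∀ F ∈ W, T F ∈ W) → ∀ F ∈ W, T' F ∈ W := by
  have hN : ∀ n (F : A⟦X⟧), Ord n F → Ord (n + 1) (F - T F) := by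
    intro n F h
    obtain ⟨G, rfl⟩ := ord_iff_dvd.1 h
    have e : ∀ H : A⟦X⟧, (X : A⟦X⟧) ^ n * H = ((X : S⟦X⟧) ^ n) • H := by
      intro H
      rw [ps_smul_def, map_pow, map_X]
    rw [e, map_smul, ← smul_sub, ← e]
    refine Ord.mul (ord_iff_dvd.2 dvd_rfl) (ord_one_iff.2 ?_)
    rw [map_sub, hT, sub_self]
  have hsolve : ∀ W : AddSubgroup A⟦X⟧, Closed (W : Set A⟦X⟧) → (∀ F ∈ W, T F ∈ W) →
      ∀ F ∈ W, ∃ G ∈ W, T G = F := by
    intro W hW hTW F hF
    obtain ⟨G, hG, e⟩ := exists_fixed (W : Set A⟦X⟧) hW (fun G => F + (G - T G)) F hF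
      (fun G hG => W.add_mem hF (W.sub_mem hG (hTW G hG))) (fun n G _ G' _ h => by
        have := hN n _ h
        rw [map_sub] at this
        have e : F + (G - T G) - (F + (G' - T G')) = G - G' - (T G - T G') := by abel
        rw [e]; exact this)
    refine ⟨G, hG, ?_⟩
    have : F + (G - T G) = G := e
    have h2 : T G = F + (G - T G) - G + T G := by rw [this]; abel
    rw [h2]; abel
  have hinj : Function.Injective T := by
    rw [injective_iff_map_eq_zero]
    intro F hF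
    refine eq_zero_of_ord (fun n => ?_)
    induction n with
    | zero => exact ord_zero _
    | succ n ih => simpa [hF] using hN n F ih
  have hsurj : Function.Surjective T := fun F => by
    obtain ⟨G, -, e⟩ := hsolve ⊤ (fun _ _ => trivial) (fun _ _ => trivial) F trivial
    exact ⟨G, e⟩
  let E := LinearEquiv.ofBijective T ⟨hinj, hsurj⟩
  have h1 : ∀ F, T (E.symm F) = F := fun F => E.apply_symm_apply F
  refine ⟨E.symm.toLinearMap, h1, fun F => E.symm_apply_apply F, fun F => ?_, ?_⟩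
  · have := hT (E.symm F)
    rw [h1] at this
    exact this.symm
  · intro W hW hTW F hF
    obtain ⟨G, hG, rfl⟩ := hsolve W hW hTW F hF
    have : E.symm (T G) = G := E.symm_apply_apply G
    change E.symm (T G) ∈ W
    rw [this]; exact hG

end Order

end Pool.Agent.Lib.MP_b6945b_al.St
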