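import Pool.Agent.Lib.MP_b6945b_al.St.Source1

set_option autoImplicit false

/-!
A source idempotent of a block with a normal abelian defect group.
-/

namespace Pool.Agent.Lib.MP_b6945b_al.St

open IsLocalRing
open MonoidAlgebra (single)

variable {R H : Type} [CommRing R] [IsLocalRing R] [Group H] [Fintype H] {p : ℕ}
  {D : Subgroup H} [Fintype D]

/-- The properties of the source idempotent. -/
structure SrcIdem (D : Subgroup H) [Fintype D] (f j c : MonoidAlgebra R H) : Prop where
  idem : j * j = j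
  supp : SuppCent (D : Set H) j
  le : f * j = j
  csupp : SuppCent (D : Set H) c
  nn : ¬ NilR R (rtr (cjRep R H) D ⊤ (j * c))
  scalar : ∀ b, SuppCent (D : Set H) b → ∃ v : R, NilR R (j * b * j - v • j)
  span : ∀ b, SuppCent (D : Set H) b →
    ∃ a : MonoidAlgebra R D, j * b * j = inc R D.subtype a * j
  inj : ∀ a : MonoidAlgebra R D, inc R D.subtype a * j = 0 → a = 0
  dich : ∀ h : H, (∀ b, SuppCent (D : Set H) b → j * b * single h 1 * j = 0) ∨
    ∃ U U', SuppCent (D : Set H) (U * single h⁻¹ 1) ∧ SuppCent (D : Set H) (single h 1 * U') ∧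
      j * U * j = U ∧ j * U' * j = U' ∧ U * U' = j ∧ U' * U = j

omit [Fintype D] [IsLocalRing R] in
lemma source2_central {x : MonoidAlgebra R H} (hx : SuppCent (D : Set H) x)
    (b : MonoidAlgebra R H) :
    rtr (cjRep R H) D ⊤ x * b = b * rtr (cjRep R H) D ⊤ x :=
  fixedBy_top_iff.1 (rtr_fixed le_top hx.fixedBy) b

omit [Fintype D] [IsLocalRing R] in
lemma source2_supp_mul {x y : MonoidAlgebra R H} (hx : SuppCent (D : Set H) x)
    (hy : SuppCent (D : Set H) y) : SuppCent (D : Set H) (x * y) :=
  mem_centAlg.1 (Subalgebra.mul_mem _ (mem_centAlg.2 hx) (mem_centAlg.2 hy))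

omit [Fintype D] [IsLocalRing R] in
lemma source2_supp_sub {x y : MonoidAlgebra R H} (hx : SuppCent (D : Set H) x)
    (hy : SuppCent (D : Set H) y) : SuppCent (D : Set H) (x - y) :=
  mem_centAlg.1 (Subalgebra.sub_mem _ (mem_centAlg.2 hx) (mem_centAlg.2 hy))

variable (R) in
/-- The rank of left multiplication modulo the maximal ideal. -/
noncomputable def source2Rank (j : MonoidAlgebra R H) : ℕ :=
  Module.finrank (ResidueField R) (LinearMap.range
    (LinearMap.mulLeft (ResidueField R) (toRes R H j)))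

lemma source2_eq_of_rank {j ε : MonoidAlgebra R H} (hj : j * j = j) (hε : ε * ε = ε)
    (h1 : j * ε = ε) (h2 : ε * j = ε) (h : source2Rank R j ≤ source2Rank R ε) : ε = j := by
  have hle : LinearMap.range (LinearMap.mulLeft (ResidueField R) (toRes R H ε)) ≤
      LinearMap.range (LinearMap.mulLeft (ResidueField R) (toRes R H j)) := by
    rintro _ ⟨x, rfl⟩
    refine ⟨toRes R H ε * x, ?_⟩
    simp only [LinearMap.mulLeft_apply]
    rw [← mul_assoc, ← map_mul, h1]
  have heq := Submodule.eq_of_le_of_finrank_le hle h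
  have hmem : toRes R H j ∈
      LinearMap.range (LinearMap.mulLeft (ResidueField R) (toRes R H ε)) := by
    rw [heq]
    exact ⟨1, by simp⟩
  obtain ⟨x, hx⟩ := hmem
  rw [LinearMap.mulLeft_apply] at hx
  have h3 : toRes R H ε = toRes R H j := by
    calc toRes R H ε = toRes R H ε * toRes R H j := by rw [← map_mul, h2]
      _ = toRes R H ε * toRes R H ε * x := by rw [mul_assoc, hx]
      _ = toRes R H j := by rw [← map_mul, hε, hx]
  refine idem_eq_of_inMax (R := R) hε hj (by rw [h1, h2]) ?_
  rw [← toRes_eq_zero_iff, map_sub, h3, sub_self]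

omit [Fintype D] in
/-- Among the idempotents `j = f j` supported on the centraliser for which some trace of `j c` is
not nilpotent (`j = f`, `c = a` is one) choose one with the least rank of left multiplication by
`toRes j`.  If `j = ε + (j - ε)`, one of the two central traces is not nilpotent (`NilR.add`). -/
lemma exists_prim_idem [D.Normal] {f a : MonoidAlgebra R H} (hf : BlockF D f a) :
    ∃ j c, j * j = j ∧ SuppCent (D : Set H) j ∧ f * j = j ∧ SuppCent (D : Set H) c ∧
      ¬ NilR R (rtr (cjRep R H) D ⊤ (j * c)) ∧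
      ∀ ε, SuppCent (D : Set H) ε → ε * ε = ε → j * ε = ε → ε * j = ε → ε = 0 ∨ ε = j := by
  classical
  let P : MonoidAlgebra R H → Prop := fun j => j * j = j ∧ SuppCent (D : Set H) j ∧ f * j = j ∧
    ∃ c, SuppCent (D : Set H) c ∧ ¬ NilR R (rtr (cjRep R H) D ⊤ (j * c))
  have hPf : P f := by
    refine ⟨hf.idem, ?_, hf.idem, a, hf.supp, fun h => hf.ne ?_⟩
    · rw [hf.tr]
      exact hf.supp.rtr D ⊤
    · rw [← (mul_rtr_cj (fixedBy_top_iff.2 hf.cent) a).1, ← hf.tr, hf.idem] at h
      exact h.eq_zero hf.idem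
  have hex : ∃ n, ∃ j, P j ∧ source2Rank R j = n := ⟨_, f, hPf, rfl⟩
  obtain ⟨j, hj, hjn⟩ := Nat.find_spec hex
  have hmin : ∀ ε, P ε → source2Rank R j ≤ source2Rank R ε := by
    intro ε hε
    rw [hjn]
    exact Nat.find_min' hex ⟨ε, hε, rfl⟩
  obtain ⟨hjj, hjs, hfj, c, hcs, hcn⟩ := hj
  refine ⟨j, c, hjj, hjs, hfj, hcs, hcn, fun ε hεs hεε h1 h2 => ?_⟩
  have hfε : f * ε = ε := by rw [← h1, ← mul_assoc, hfj]
  by_cases hA : NilR R (rtr (cjRep R H) D ⊤ (ε * c))
  · left
    have hB : ¬ NilR R (rtr (cjRep R H) D ⊤ ((j - ε) * c)) := by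
      intro hB
      apply hcn
      have h3 : j * c = ε * c + (j - ε) * c := by rw [sub_mul]; abel
      rw [h3, map_add]
      exact hA.add hB (source2_central (source2_supp_mul hεs hcs) _)
    have hi : (j - ε) * (j - ε) = j - ε := by
      rw [sub_mul, mul_sub, mul_sub, hjj, h1, h2, hεε]; abel
    have hP : P (j - ε) :=
      ⟨hi, source2_supp_sub hjs hεs, by rw [mul_sub, hfj, hfε], c, hcs, hB⟩
    have h4 := source2_eq_of_rank hjj hi (by rw [mul_sub, hjj, h1])
      (by rw [sub_mul, hjj, h2]) (hmin _ hP)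
    exact sub_eq_self.1 h4
  · right
    exact source2_eq_of_rank hjj hεε h1 h2 (hmin _ ⟨hεε, hεs, hfε, c, hcs, hA⟩)

omit [Fintype H] [Fintype D] [IsLocalRing R] in
lemma source2_supp_iff {C : Subgroup H} (hC : C = Subgroup.centralizer (D : Set H))
    {b : MonoidAlgebra R H} : SuppCent (D : Set H) b ↔
    ∀ g, b.coeff g ≠ 0 → g ∈ C.subtype.range := by
  rw [Subgroup.range_subtype, hC]
  refine forall_congr' fun g => imp_congr_right fun _ => ?_
  rw [Subgroup.mem_centralizer_iff]
  exact forall_congr' fun δ => imp_congr_right fun _ => eq_comm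

omit [Fintype H] [Fintype D] [IsLocalRing R] in
lemma source2_supp_inc {C : Subgroup H} (hC : C = Subgroup.centralizer (D : Set H))
    (x : MonoidAlgebra R C) : SuppCent (D : Set H) (inc R C.subtype x) := by
  rw [source2_supp_iff hC]
  intro g hg
  by_contra h
  exact hg (coeff_inc_of_notMem _ x h)

omit [IsLocalRing R] in
lemma source2_inc_comp {A B E : Type} [Group A] [Group B] [Group E] (φ : A →* B) (ψ : B →* E)
    (x : MonoidAlgebra R A) : inc R ψ (inc R φ x) = inc R (ψ.comp φ) x := by
  induction x using MonoidAlgebra.induction_linear with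
  | zero => rw [map_zero, map_zero, map_zero]
  | add a b ha hb => rw [map_add, map_add, map_add, ha, hb]
  | single a r => rw [inc_single, inc_single, inc_single, MonoidHom.comp_apply]

omit [IsLocalRing R] in
lemma source2_inc_id {A : Type} [Group A] (x : MonoidAlgebra R A) :
    inc R (MonoidHom.id A) x = x := by
  induction x using MonoidAlgebra.induction_linear with
  | zero => rw [map_zero]
  | add a b ha hb => rw [map_add, ha, hb]
  | single a r => rw [inc_single, MonoidHom.id_apply]

omit [IsLocalRing R] in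
lemma source2_inc_inj {A B : Type} [Group A] [Group B] [Fintype A] {φ : A →* B}
    (hφ : Function.Injective φ) : Function.Injective (inc R φ) :=
  Function.LeftInverse.injective (pull_inc hφ)

lemma source2_nil_zero {B : Type} [Ring B] [Algebra R B] : NilR R (0 : B) :=
  ⟨1, by rw [pow_one]; exact Submodule.zero_mem _⟩

lemma source2_nil_sum {B ι : Type} [Ring B] [Algebra R B] (s : Finset ι) (x : ι → B)
    (hx : ∀ i, NilR R (x i)) (hc : ∀ i k, x i * x k = x k * x i) : NilR R (∑ i ∈ s, x i) := by
  classical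
  induction s using Finset.induction_on with
  | empty => rw [Finset.sum_empty]; exact source2_nil_zero
  | insert i s hi ih =>
    rw [Finset.sum_insert hi]
    refine (hx i).add ih ?_
    rw [Finset.mul_sum, Finset.sum_mul]
    exact Finset.sum_congr rfl fun k _ => hc i k

omit [Fintype H] [IsLocalRing R] in
lemma source2_cj_cj (g : H) (x : MonoidAlgebra R H) : cjRep R H g (cjRep R H g⁻¹ x) = x := by
  rw [← Module.End.mul_apply, ← map_mul, mul_inv_cancel, map_one, Module.End.one_apply]

omit [Fintype H] [IsLocalRing R] in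
lemma source2_cj_cj' (g : H) (x : MonoidAlgebra R H) : cjRep R H g⁻¹ (cjRep R H g x) = x := by
  rw [← Module.End.mul_apply, ← map_mul, inv_mul_cancel, map_one, Module.End.one_apply]

omit [Fintype H] in
lemma source2_nil_cj (g : H) {x : MonoidAlgebra R H} (hx : NilR R x) :
    NilR R (cjRep R H g x) := by
  obtain ⟨n, hn⟩ := hx
  have h : ∀ m : ℕ, (cjRep R H g x) ^ (m + 1) = cjRep R H g (x ^ (m + 1)) := by
    intro m
    induction m with
    | zero => rw [zero_add, pow_one, pow_one]
    | succ m ih => rw [pow_succ, ih, ← cjRep_mul, ← pow_succ]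
  refine ⟨n + 1, ?_⟩
  rw [h, pow_succ]
  exact idem_inMax_map _ (idem_inMax_mul_right x hn)

/-- If `j y` is nilpotent modulo the maximal ideal, for `y` the trace of `j c`, then so is `y`. -/
lemma source2_nil_trace {A : Type} [Group A] [Fintype A] {S : Subgroup A}
    {j c : MonoidAlgebra R A} (hj : j * j = j) (hfix : FixedBy (cjRep R A) S (j * c))
    (h : NilR R (j * rtr (cjRep R A) S ⊤ (j * c))) : NilR R (rtr (cjRep R A) S ⊤ (j * c)) := by
  set y := rtr (cjRep R A) S ⊤ (j * c) with hy
  have hyc : ∀ b, y * b = b * y := fixedBy_top_iff.1 (rtr_fixed le_top hfix)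
  have hyn : ∀ (m : ℕ) b, y ^ m * b = b * y ^ m := fun m b =>
    (Commute.pow_left (show Commute y b from hyc b) m).eq
  have hpow : ∀ m : ℕ, (j * y) ^ (m + 1) = j * y ^ (m + 1) := by
    intro m
    induction m with
    | zero => rw [zero_add, pow_one, pow_one]
    | succ m ih =>
      rw [pow_succ, ih, mul_assoc, ← mul_assoc (y ^ (m + 1)), hyn, ← mul_assoc, ← mul_assoc, hj,
        mul_assoc, ← pow_succ]
  obtain ⟨n, hn⟩ := h
  have h1 : InMax R (j * y ^ (n + 1)) := by
    rw [← hpow, pow_succ]
    exact idem_inMax_mul_right _ hn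
  refine ⟨n + 2, ?_⟩
  have h2 : y ^ (n + 2) = rtr (cjRep R A) S ⊤ (j * y ^ (n + 1) * c) := by
    rw [← hyn (n + 1) j, mul_assoc,
      ← (mul_rtr_cj (fixedBy_top_iff.2 (hyn (n + 1))) (j * c)).1, ← hy, ← pow_succ]
  rw [h2]
  exact idem_inMax_map _ (idem_inMax_mul_right c h1)

variable (D) in
/-- Primitive idempotents of the algebra of elements supported on the centraliser. -/
structure Source2Prim (j : MonoidAlgebra R H) : Prop where
  idem : j * j = j
  supp : SuppCent (D : Set H) j
  ne : j ≠ 0
  prim : ∀ ε, SuppCent (D : Set H) ε → ε * ε = ε → j * ε = ε → ε * j = ε → ε = 0 ∨ ε = j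

omit [Fintype H] [Fintype D] [IsLocalRing R] in
lemma Source2Prim.cj [D.Normal] {j : MonoidAlgebra R H} (hj : Source2Prim D j) (g : H) :
    Source2Prim D (cjRep R H g j) where
  idem := by rw [← cjRep_mul, hj.idem]
  supp := hj.supp.cjRep g
  ne := fun h => hj.ne (by rw [← source2_cj_cj' g j, h, map_zero])
  prim := by
    intro ε hs h0 h1 h2
    rcases hj.prim (cjRep R H g⁻¹ ε) (hs.cjRep g⁻¹) (by rw [← cjRep_mul, h0])
      (by rw [← source2_cj_cj' g j, ← cjRep_mul, h1])
      (by rw [← source2_cj_cj' g j, ← cjRep_mul, h2]) with h | h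
    · left
      rw [← source2_cj_cj g ε, h, map_zero]
    · right
      rw [← source2_cj_cj g ε, h]

omit [Fintype H] [Fintype D] [IsLocalRing R] in
lemma source2_inc_pull {C : Subgroup H} [Fintype C] (hC : C = Subgroup.centralizer (D : Set H))
    {b : MonoidAlgebra R H} (hb : SuppCent (D : Set H) b) :
    inc R C.subtype (pull R C.subtype b) = b :=
  inc_pull (Subgroup.subtype_injective _) ((source2_supp_iff hC).1 hb)

omit [Fintype H] [Fintype D] [IsLocalRing R] in
lemma Source2Prim.toPrim {C : Subgroup H} [Fintype C]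
    (hC : C = Subgroup.centralizer (D : Set H)) {j : MonoidAlgebra R H}
    (hj : Source2Prim D j) : Prim (pull R C.subtype j) := by
  have hinj := source2_inc_inj (R := R) (Subgroup.subtype_injective C)
  have hjj := source2_inc_pull hC hj.supp
  refine ⟨hinj (by rw [map_mul, hjj, hj.idem]), fun h => hj.ne (by rw [← hjj, h, map_zero]),
    fun ε h0 h1 h2 => ?_⟩
  rcases hj.prim _ (source2_supp_inc hC ε) (by rw [← map_mul, h0])
    (by rw [← hjj, ← map_mul, h1]) (by rw [← hjj, ← map_mul, h2]) with h | h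
  · exact Or.inl (hinj (by rw [h, map_zero]))
  · exact Or.inr (hinj (by rw [h, hjj]))

omit [Fintype D] in
lemma source2_not_nil [D.Normal] {C : Subgroup H} [Fintype C]
    (hC : C = Subgroup.centralizer (D : Set H))
    (hDC : D ≤ C) {j c : MonoidAlgebra R H} (hjj : j * j = j)
    (hjs : SuppCent (D : Set H) j) (hcs : SuppCent (D : Set H) c)
    (hn : ¬ NilR R (rtr (cjRep R H) D ⊤ (j * c))) :
    ¬ NilR R (pull R C.subtype j * rtr (cjRep R C) (D.subgroupOf C) ⊤
        (pull R C.subtype j * pull R C.subtype c)) := by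
  intro h
  apply hn
  have hφ := Subgroup.subtype_injective C
  have hjc : SuppCent (D : Set H) (j * c) := source2_supp_mul hjs hcs
  have hpm : pull R C.subtype (j * c) = pull R C.subtype j * pull R C.subtype c :=
    pull_mul_left hφ ((source2_supp_iff hC).1 hjs) c
  have hj0 : pull R C.subtype j * pull R C.subtype j = pull R C.subtype j := by
    rw [← pull_mul_left hφ ((source2_supp_iff hC).1 hjs), hjj]
  have hfix : FixedBy (cjRep R C) (D.subgroupOf C) (pull R C.subtype j * pull R C.subtype c) := by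
    intro g hg
    rw [← hpm, ← pull_cjRep, hjc.fixedBy (C.subtype g) (Subgroup.mem_subgroupOf.1 hg)]
  have h1 := source2_nil_trace hj0 hfix h
  have hy0 := fixedBy_top_iff.1 (rtr_fixed le_top hfix)
  set y := rtr (cjRep R H) D C (j * c) with hy
  have hys : SuppCent (D : Set H) y := hjc.rtr D C
  have hpy : pull R C.subtype y =
      rtr (cjRep R C) (D.subgroupOf C) ⊤ (pull R C.subtype j * pull R C.subtype c) := by
    have h2 := pull_rtr (R := R) hφ (S := D) (by rw [Subgroup.range_subtype]; exact hDC)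
      hjc.fixedBy
    rw [Subgroup.range_subtype, hpm] at h2
    exact h2
  rw [← hpy] at h1 hy0
  have hyn : NilR R y := by
    rw [← source2_inc_pull hC hys]
    exact h1.map _
  have hyc : ∀ b, SuppCent (D : Set H) b → y * b = b * y := by
    intro b hb
    have h2 := congrArg (inc R C.subtype) (hy0 (pull R C.subtype b))
    rwa [map_mul, map_mul, source2_inc_pull hC hys, source2_inc_pull hC hb] at h2
  obtain ⟨n, t, -, ht, hu⟩ := exists_transversal (le_top : C ≤ ⊤)
  rw [← rtr_trans hDC le_top hjc.fixedBy, ← hy,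
    rtr_eq_sum le_top (rtr_fixed hDC hjc.fixedBy) t ht hu]
  refine source2_nil_sum _ _ (fun i => source2_nil_cj _ hyn) fun i k => ?_
  conv_lhs => rw [← source2_cj_cj (t i) (cjRep R H (t k) y), ← cjRep_mul,
    hyc _ ((hys.cjRep _).cjRep _), cjRep_mul, source2_cj_cj]

/-- Transport `Source1` along `inc` and `pull` for the centraliser `C` of `D`.  With
`y = rtr D C (j c)`: if `j y` were nilpotent modulo the maximal ideal then so would be `y`
(`y ^ (n + 1) = rtr D C ((j y) ^ n c)`-like, `y` being central in `centAlg`), all its conjugates,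
and their sum `rtr D ⊤ (j c)` (`rtr_trans`).  For `dich` take `j' = h j h⁻¹`, `U = u h`,
`U' = h⁻¹ u'`. -/
theorem exists_srcIdem [D.Normal] (hR : MonicSplit R) (hp : p.Prime)
    (hpR : (p : R) ∈ maximalIdeal R) (hD : IsPGroup p D) (hc : ∀ x ∈ D, ∀ y ∈ D, x * y = y * x)
    {f a : MonoidAlgebra R H} (hf : BlockF D f a) : ∃ j c, SrcIdem D f j c := by
  classical
  obtain ⟨j, c, hjj, hjs, hfj, hcs, hn, hprim⟩ := exists_prim_idem hf
  have hj0 : j ≠ 0 := by
    intro h
    apply hn
    rw [h, zero_mul, map_zero]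
    exact source2_nil_zero
  have hP : Source2Prim D j := ⟨hjj, hjs, hj0, hprim⟩
  obtain ⟨C, hC⟩ : ∃ C : Subgroup H, C = Subgroup.centralizer (D : Set H) := ⟨_, rfl⟩
  have hDC : D ≤ C := fun x hx =>
    hC ▸ Subgroup.mem_centralizer_iff.2 fun y hy => hc y hy x hx
  have hnn := source2_not_nil hC hDC hjj hjs hcs hn
  have hP0 := hP.toPrim hC
  have hip : ∀ b : MonoidAlgebra R H, SuppCent (D : Set H) b →
      inc R C.subtype (pull R C.subtype b) = b := fun b hb => source2_inc_pull hC hb
  have hsi : ∀ x : MonoidAlgebra R C, SuppCent (D : Set H) (inc R C.subtype x) :=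
    source2_supp_inc hC
  have hPc : ∀ h : H, Prim (pull R C.subtype (cjRep R H h j)) := fun h => (hP.cj h).toPrim hC
  have hcD : ∀ δ ∈ D.subgroupOf C, ∀ x, δ * x = x * δ := by
    intro δ hδ x
    have hx : (x : H) ∈ Subgroup.centralizer (D : Set H) := hC ▸ x.2
    exact Subtype.ext (Subgroup.mem_centralizer_iff.1 hx _ (Subgroup.mem_subgroupOf.1 hδ))
  have hinj := source2_inc_inj (R := R) (Subgroup.subtype_injective C)
  let e : D.subgroupOf C ≃* D := Subgroup.subgroupOfEquivOfLe hDC
  have hD' : IsPGroup p (D.subgroupOf C) := hD.of_equiv e.symm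
  have he1 : D.subtype.comp e.toMonoidHom = C.subtype.comp (D.subgroupOf C).subtype := by
    ext x
    rfl
  have he2 : (C.subtype.comp (D.subgroupOf C).subtype).comp e.symm.toMonoidHom = D.subtype := by
    ext x
    rfl
  have he3 : e.toMonoidHom.comp e.symm.toMonoidHom = MonoidHom.id D := by
    ext x
    rfl
  have hspan := hP0.span hR hp hpR hD' hcD hnn
  have hjn := hip j hjs
  refine ⟨j, c, hjj, hjs, hfj, hcs, hn, fun b hb => ?_, fun b hb => ?_, fun x hx => ?_,
    fun h => ?_⟩
  · obtain ⟨v, hv⟩ := exists_scalar_of_primitive hR (j := pull R C.subtype j) hP0.idem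
      (fun ε h0 h1 h2 => hP0.prim ε h0 h1 h2)
      (y := pull R C.subtype j * pull R C.subtype b * pull R C.subtype j)
      (by rw [← mul_assoc, ← mul_assoc, hP0.idem])
      (by rw [mul_assoc _ _ (pull R C.subtype j), hP0.idem])
    refine ⟨v, ?_⟩
    have h1 := hv.map (inc R C.subtype)
    rwa [map_sub, map_mul, map_mul, map_smul, hjn, hip b hb] at h1
  · obtain ⟨x, hx⟩ := hspan (pull R C.subtype b)
    refine ⟨inc R e.toMonoidHom x, ?_⟩
    have h1 := congrArg (inc R C.subtype) hx
    rw [map_mul, map_mul, map_mul, hjn, hip b hb, source2_inc_comp] at h1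
    rw [source2_inc_comp, he1, h1]
  · have h1 : inc R (D.subgroupOf C).subtype (inc R e.symm.toMonoidHom x) *
        pull R C.subtype j = 0 := by
      apply hinj
      rw [map_mul, hjn, source2_inc_comp, source2_inc_comp, he2, hx, map_zero]
    have h2 := inc_mul_eq_zero hp hpR hD' hcD hP0.idem hP0.ne h1
    rw [← source2_inc_id x, ← he3, ← source2_inc_comp, h2, map_zero]
  · have hs1 : (single h⁻¹ 1 : MonoidAlgebra R H) * single h 1 = 1 := by
      rw [MonoidAlgebra.single_mul_single, inv_mul_cancel, mul_one, MonoidAlgebra.one_def]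
    have hs2 : (single h 1 : MonoidAlgebra R H) * single h⁻¹ 1 = 1 := by
      rw [MonoidAlgebra.single_mul_single, mul_inv_cancel, mul_one, MonoidAlgebra.one_def]
    have hj1 : single h 1 * j = cjRep R H h j * single h 1 := by
      rw [cjRep_apply, mul_assoc, mul_assoc, hs1, mul_one]
    have hj2 : j * single h⁻¹ 1 = single h⁻¹ 1 * cjRep R H h j := by
      rw [cjRep_apply, ← mul_assoc, hs1, one_mul]
    have hjn' := hip _ (hjs.cjRep h)
    rcases hP0.dichotomy hp hpR hD' hcD (hPc h) hspan with h0 | ⟨u, u', h1, h2, h3, h4⟩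
    · left
      intro b hb
      have h1 := congrArg (inc R C.subtype) (h0 (pull R C.subtype b))
      rw [map_mul, map_mul, hjn, hip b hb, hjn', map_zero] at h1
      rw [mul_assoc, hj1, ← mul_assoc, h1, zero_mul]
    · right
      have k1 := congrArg (inc R C.subtype) h1
      have k2 := congrArg (inc R C.subtype) h2
      have k3 := congrArg (inc R C.subtype) h3
      have k4 := congrArg (inc R C.subtype) h4
      rw [map_mul, map_mul, hjn, hjn'] at k1 k2
      rw [map_mul, hjn] at k3
      rw [map_mul, hjn'] at k4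
      refine ⟨inc R C.subtype u * single h 1, single h⁻¹ 1 * inc R C.subtype u', ?_, ?_, ?_, ?_,
        ?_, ?_⟩
      · rw [mul_assoc, hs2, mul_one]
        exact hsi u
      · rw [← mul_assoc, hs2, one_mul]
        exact hsi u'
      · rw [mul_assoc, mul_assoc, hj1, ← mul_assoc, ← mul_assoc, k1]
      · rw [← mul_assoc, hj2, mul_assoc, mul_assoc, ← mul_assoc (cjRep R H h j), k2]
      · rw [mul_assoc, ← mul_assoc (single h 1), hs2, one_mul, k3]
      · rw [mul_assoc, ← mul_assoc (inc R C.subtype u'), k4, ← hj1, ← mul_assoc, hs1, one_mul]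

end Pool.Agent.Lib.MP_b6945b_al.St
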