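import Pool.Agent.Lib.MP_b6945b_al.St.Source2
import Pool.Agent.Lib.MP_b6945b_al.St.Defs

set_option autoImplicit false

/-!
The source algebra is a crossed product.
-/

namespace Pool.Agent.Lib.MP_b6945b_al.St

open IsLocalRing
open MonoidAlgebra (single)

variable {R H : Type} [CommRing R] [IsLocalRing R] [Group H] [Fintype H] {p : ℕ}
  {D : Subgroup H} [Fintype D]

/-- The crossed product structure over `R`. -/
structure SrcData (p : ℕ) (D : Subgroup H) {E : Type} [Group E] [Fintype E]
    (φ : E →* MulAut D) (f j : MonoidAlgebra R H) (U U' : E → MonoidAlgebra R H) : Prop where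
  idem : j * j = j
  le : f * j = j
  full : InIdl (⊤ : Subring (MonoidAlgebra R H)) j f
  one : U 1 = j
  cut : ∀ l, j * U l * j = U l
  cut' : ∀ l, j * U' l * j = U' l
  inv : ∀ l, U l * U' l = j
  inv' : ∀ l, U' l * U l = j
  comm : ∀ l (δ : D), U l * single (δ : H) 1 = single ((φ l δ : D) : H) 1 * U l
  mul : ∀ l m, ∃ c : MonoidAlgebra R D, U l * U m = inc R D.subtype c * U (l * m)
  span : ∀ b, ∃ a : E → MonoidAlgebra R D, j * b * j = ∑ l, inc R D.subtype (a l) * U l
  inj : ∀ a : E → MonoidAlgebra R D, ∑ l, inc R D.subtype (a l) * U l = 0 → a = 0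
  card : ¬ p ∣ Fintype.card E

omit [IsLocalRing R] [Fintype D] in
lemma source3_supp_mul {a b : MonoidAlgebra R H} (ha : SuppCent (D : Set H) a)
    (hb : SuppCent (D : Set H) b) : SuppCent (D : Set H) (a * b) :=
  mem_centAlg.1 (mul_mem (mem_centAlg.2 ha) (mem_centAlg.2 hb))

/-- The central element `z = rtr D ⊤ (j c) = z f` is a unit on `f` (`IsBlock.loc`,
`NilR.isUnit_one_sub`). -/
lemma SrcIdem.exists_inv [D.Normal] {f a j c : MonoidAlgebra R H} (hf : BlockF D f a)
    (h : SrcIdem D f j c) :
    ∃ z', (∀ b, z' * b = b * z') ∧ z' * rtr (cjRep R H) D ⊤ (j * c) = f := by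
  set z := rtr (cjRep R H) D ⊤ (j * c) with hz
  have hzc : ∀ b, z * b = b * z :=
    fixedBy_top_iff.1 (rtr_fixed le_top (tr_fixed_of_suppCent (source3_supp_mul h.supp h.csupp)))
  have hfz : f * z = z := by
    rw [hz, (mul_rtr_cj (fixedBy_top_iff.2 hf.cent) _).1, ← mul_assoc, h.le]
  obtain ⟨v, hv⟩ := hf.loc z hzc
  rw [hzc, hfz] at hv
  have hu : IsUnit v := by
    by_contra hu
    have h1 := hv.add (inMax_smul ((mem_maximalIdeal v).2 hu) f).nilR (by
      rw [sub_mul, mul_sub, hzc])
    rw [sub_add_cancel] at h1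
    exact h.nn h1
  obtain ⟨u, rfl⟩ := hu
  have h1 := hv.mul_right (y := algebraMap R _ (-(↑u⁻¹ : R))) (Algebra.commutes _ _).symm
  have h2 : (z - (u : R) • f) * algebraMap R _ (-(↑u⁻¹ : R)) = f - (↑u⁻¹ : R) • z := by
    rw [← Algebra.commutes, ← Algebra.smul_def, neg_smul, smul_sub, smul_smul, Units.inv_mul,
      one_smul, neg_sub]
  rw [h2] at h1
  obtain ⟨w, hw⟩ := h1.isUnit_one_sub
  have hwc : ∀ b, Commute (w : MonoidAlgebra R H) b := by
    intro b
    rw [hw]
    exact (Commute.one_left b).sub_left
      (Commute.sub_left (hf.cent b) (Commute.smul_left (hzc b) _))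
  refine ⟨(↑u⁻¹ : R) • (↑w⁻¹ : MonoidAlgebra R H),
    fun b => ((hwc b).units_inv_left.smul_left _).eq, ?_⟩
  have h3 : (w : MonoidAlgebra R H) * f = (↑u⁻¹ : R) • z := by
    rw [hw, sub_mul, sub_mul, one_mul, hf.idem, smul_mul_assoc, hzc, hfz, sub_sub_cancel]
  rw [smul_mul_assoc, ← mul_smul_comm, ← h3, Units.inv_mul_cancel_left]

/-- `x` is supported on the coset `q` of the centraliser. -/
def source3_Deg (D : Subgroup H) (q : H ⧸ Subgroup.centralizer (D : Set H))
    (x : MonoidAlgebra R H) : Prop :=
  ∀ y : H, x.coeff y ≠ 0 → (y : H ⧸ Subgroup.centralizer (D : Set H)) = q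

section Deg

omit [IsLocalRing R] [Fintype D]

variable [D.Normal] {q q' : H ⧸ Subgroup.centralizer (D : Set H)} {x x' : MonoidAlgebra R H}

omit [Fintype H] in
lemma source3_deg_one : source3_Deg D 1 x ↔ SuppCent (D : Set H) x := by
  refine forall_congr' fun y => imp_congr_right fun _ => ?_
  rw [QuotientGroup.eq_one_iff, Subgroup.mem_centralizer_iff]
  exact forall_congr' fun δ => imp_congr_right fun _ => eq_comm

lemma source3_deg_mul (h : source3_Deg D q x) (h' : source3_Deg D q' x') :
    source3_Deg D (q * q') (x * x') := by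
  intro y hy
  rw [coeff_mul_fin] at hy
  obtain ⟨u, -, hu⟩ := Finset.exists_ne_zero_of_sum_ne_zero hy
  rw [← h u (left_ne_zero_of_mul hu), ← h' _ (right_ne_zero_of_mul hu), ← QuotientGroup.mk_mul,
    mul_inv_cancel_left]

omit [Fintype H] [D.Normal] in
lemma source3_deg_single (y : H) (r : R) :
    source3_Deg D (y : H ⧸ Subgroup.centralizer (D : Set H)) (single y r) := by
  intro u hu
  by_contra e
  refine hu ?_
  rw [MonoidAlgebra.coeff_single, Finsupp.single_eq_of_ne]
  rintro rfl
  exact e rfl

omit [Fintype H] in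
lemma source3_deg_inc (hDC : D ≤ Subgroup.centralizer (D : Set H)) (a : MonoidAlgebra R D) :
    source3_Deg D 1 (inc R D.subtype a) := by
  intro y hy
  rw [QuotientGroup.eq_one_iff]
  by_contra e
  refine hy (coeff_inc_of_notMem _ _ fun h => e (hDC ?_))
  rwa [Subgroup.range_subtype] at h

omit [Fintype H] [D.Normal] in
lemma source3_ss (t : H) : (single t⁻¹ 1 : MonoidAlgebra R H) * single t 1 = 1 := by
  rw [MonoidAlgebra.single_mul_single, inv_mul_cancel, mul_one, MonoidAlgebra.one_def]

lemma source3_supp_right {t : H}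
    (h : source3_Deg D (t : H ⧸ Subgroup.centralizer (D : Set H)) x) :
    SuppCent (D : Set H) (x * single t⁻¹ 1) := by
  have := source3_deg_mul h (source3_deg_single (D := D) t⁻¹ (1 : R))
  rwa [← QuotientGroup.mk_mul, mul_inv_cancel, QuotientGroup.mk_one, source3_deg_one] at this

omit [Fintype H] [D.Normal] in
lemma source3_commute {S : Subgroup H} (h : FixedBy (cjRep R H) S x) {g : H} (hg : g ∈ S) :
    single g 1 * x = x * single g 1 := by
  have := congrArg (· * (single g 1 : MonoidAlgebra R H)) (h g hg)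
  simpa only [cjRep_apply, mul_assoc, source3_ss, mul_one] using this

omit [D.Normal] in
lemma source3_cent (h : FixedBy (cjRep R H) (Subgroup.centralizer (D : Set H)) x)
    (h' : SuppCent (D : Set H) x') : Commute x' x := by
  rw [eq_sum_single x']
  refine Commute.sum_left _ _ _ fun y _ => ?_
  by_cases hy : x'.coeff y = 0
  · rw [hy, zero_smul]
    exact Commute.zero_left _
  · exact Commute.smul_left (source3_commute h
      (Subgroup.mem_centralizer_iff.2 fun δ hδ => (h' y hy δ hδ).symm)) _

omit [Fintype H] in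
lemma source3_fixed_cj (h : FixedBy (cjRep R H) (Subgroup.centralizer (D : Set H)) x) (t : H) :
    FixedBy (cjRep R H) (Subgroup.centralizer (D : Set H)) (cjRep R H t x) := by
  intro g hg
  have h1 := h _ (Subgroup.normal_centralizer.conj_mem g hg t⁻¹)
  have e : g * t = t * (t⁻¹ * g * t⁻¹⁻¹) := by group
  rw [← Module.End.mul_apply, ← map_mul, e, map_mul, Module.End.mul_apply, h1]

variable (D) in
/-- The action on `D` of the quotient by the centraliser. -/
def source3_phi : (H ⧸ Subgroup.centralizer (D : Set H)) →* MulAut D :=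
  QuotientGroup.lift _ MulAut.conjNormal fun g hg => by
    ext δ
    rw [MulAut.conjNormal_apply, ← Subgroup.mem_centralizer_iff.1 hg δ δ.2, mul_inv_cancel_right]
    rfl

lemma source3_comm (h : source3_Deg D q x) (δ : D) :
    x * single (δ : H) 1 = single ((source3_phi D q δ : D) : H) 1 * x := by
  obtain ⟨t, rfl⟩ := QuotientGroup.mk_surjective q
  have e : ((source3_phi D (t : H ⧸ Subgroup.centralizer (D : Set H)) δ : D) : H) =
      t * δ * t⁻¹ := MulAut.conjNormal_apply t δ
  have h1 := source3_commute (tr_fixed_of_suppCent (source3_supp_right h))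
    (source3_phi D (t : H ⧸ Subgroup.centralizer (D : Set H)) δ).2
  have h2 := congrArg (· * (single t 1 : MonoidAlgebra R H)) h1
  simp only [mul_assoc, source3_ss, mul_one] at h2
  rw [h2, e, MonoidAlgebra.single_mul_single, MonoidAlgebra.single_mul_single]
  congr 2
  · group
  · simp

end Deg

/-- Homogeneous units of the corner. -/
structure source3_Good (D : Subgroup H) [D.Normal] (j : MonoidAlgebra R H)
    (q : H ⧸ Subgroup.centralizer (D : Set H)) (U U' : MonoidAlgebra R H) : Prop where
  deg : source3_Deg D q U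
  deg' : source3_Deg D q⁻¹ U'
  cut : j * U * j = U
  cut' : j * U' * j = U'
  inv : U * U' = j
  inv' : U' * U = j

section Good

variable [D.Normal] {q q' : H ⧸ Subgroup.centralizer (D : Set H)}
  {f a j c U U' : MonoidAlgebra R H}

omit [IsLocalRing R] [Fintype H] [Fintype D] in
lemma source3_Good.left (h : source3_Good D j q U U') (hj : j * j = j) : j * U = U := by
  rw [← h.cut, ← mul_assoc, ← mul_assoc, hj]

omit [IsLocalRing R] [Fintype H] [Fintype D] in
lemma source3_Good.right (h : source3_Good D j q U U') (hj : j * j = j) : U * j = U := by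
  rw [← h.cut, mul_assoc, hj]

omit [IsLocalRing R] [Fintype H] [Fintype D] in
lemma source3_Good.symm (h : source3_Good D j q U U') : source3_Good D j q⁻¹ U' U :=
  ⟨h.deg', (inv_inv q).symm ▸ h.deg, h.cut', h.cut, h.inv', h.inv⟩

lemma source3_good_one (h : SrcIdem D f j c) : source3_Good D j 1 j j :=
  ⟨source3_deg_one.2 h.supp, by rw [inv_one]; exact source3_deg_one.2 h.supp,
    by rw [h.idem, h.idem], by rw [h.idem, h.idem], h.idem, h.idem⟩

/-- The group of the degrees of homogeneous units. -/
def source3_E (h : SrcIdem D f j c) : Subgroup (H ⧸ Subgroup.centralizer (D : Set H)) where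
  carrier := {q | ∃ U U', source3_Good D j q U U'}
  one_mem' := ⟨j, j, source3_good_one h⟩
  inv_mem' := fun ⟨U, U', hU⟩ => ⟨U', U, hU.symm⟩
  mul_mem' := by
    rintro q q' ⟨U, U', hU⟩ ⟨W, W', hW⟩
    refine ⟨U * W, W' * U', source3_deg_mul hU.deg hW.deg, ?_, ?_, ?_, ?_, ?_⟩
    · rw [mul_inv_rev]
      exact source3_deg_mul hW.deg' hU.deg'
    · rw [← mul_assoc, hU.left h.idem, mul_assoc, hW.right h.idem]
    · rw [← mul_assoc, hW.symm.left h.idem, mul_assoc, hU.symm.right h.idem]
    · rw [mul_assoc, ← mul_assoc W, hW.inv, hU.symm.left h.idem, hU.inv]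
    · rw [mul_assoc, ← mul_assoc U', hU.inv', hW.left h.idem, hW.inv']

lemma source3_zero (h : SrcIdem D f j c) (hq : q ∉ source3_E h) {b : MonoidAlgebra R H}
    (hb : source3_Deg D q b) : j * b * j = 0 := by
  obtain ⟨t, rfl⟩ := QuotientGroup.mk_surjective q
  rcases h.dich t with h0 | ⟨W, W', h1, h2, h3, h4, h5, h6⟩
  · have := h0 _ (source3_supp_right hb)
    rwa [mul_assoc j, mul_assoc b, source3_ss, mul_one] at this
  · refine absurd ⟨W, W', ?_, ?_, h3, h4, h5, h6⟩ hq
    · have := source3_deg_mul (source3_deg_one.2 h1) (source3_deg_single (D := D) t (1 : R))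
      rwa [one_mul, mul_assoc, source3_ss, mul_one] at this
    · have := source3_deg_mul (source3_deg_single (D := D) t⁻¹ (1 : R)) (source3_deg_one.2 h2)
      rwa [mul_one, ← mul_assoc, source3_ss, one_mul, QuotientGroup.mk_inv] at this

lemma source3_nil_sum {A ι : Type} [Ring A] [Algebra R A] (s : Finset ι) (x : ι → A)
    (hx : ∀ i, NilR R (x i)) (hc : ∀ i k, Commute (x i) (x k)) : NilR R (∑ i ∈ s, x i) := by
  classical
  induction s using Finset.induction_on with
  | empty => exact InMax.nilR (Submodule.zero_mem _)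
  | insert i s hi ih =>
    rw [Finset.sum_insert hi]
    exact (hx i).add ih (Commute.sum_right _ _ _ fun k _ => hc i k)

lemma source3_nil_conj {A : Type} [Ring A] [Algebra R A] {n u u' : A} (hn : NilR R n)
    (h : u' * u * n = n) : NilR R (u * n * u') := by
  obtain ⟨k, hk⟩ := hn
  have key : ∀ m : ℕ, (u * n * u') ^ (m + 1) = u * (n ^ m * n) * u' := by
    intro m
    induction m with
    | zero => simp
    | succ m ih =>
      have e : u * (n ^ m * n) * u' * (u * n * u') = u * (n ^ m * n * (u' * u * n)) * u' := by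
        simp only [mul_assoc]
      rw [pow_succ, ih, e, h, pow_succ]
  refine ⟨k + 1, ?_⟩
  rw [key]
  exact idem_inMax_mul_right _ (idem_inMax_mul_left _ (idem_inMax_mul_right _ hk))

lemma source3_card (hpR : (p : R) ∈ maximalIdeal R)
    (hDC : D ≤ Subgroup.centralizer (D : Set H)) (hf : BlockF D f a) (h : SrcIdem D f j c)
    [Fintype (source3_E h)] (hd : p ∣ Fintype.card (source3_E h)) : False := by
  classical
  have hjc := source3_supp_mul h.supp h.csupp
  have hfix := tr_fixed_of_suppCent hjc
  set y := rtr (cjRep R H) D (Subgroup.centralizer (D : Set H)) (j * c) with hy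
  have hyf : FixedBy (cjRep R H) (Subgroup.centralizer (D : Set H)) y := rtr_fixed hDC hfix
  have hys : SuppCent (D : Set H) y := hjc.rtr _ _
  have hz : rtr (cjRep R H) D ⊤ (j * c) =
      ∑ q : H ⧸ Subgroup.centralizer (D : Set H), cjRep R H q.out y := by
    rw [← rtr_trans hDC le_top hfix]
    refine rtr_eq_sum le_top hyf _ (fun _ => trivial) fun g _ => ⟨(g : H ⧸ _), ?_, fun q hq => ?_⟩
    · exact QuotientGroup.eq.1 (QuotientGroup.out_eq' _)
    · exact (QuotientGroup.out_eq' q).symm.trans (QuotientGroup.eq.2 hq)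
  have h0 : ∀ q, q ∉ source3_E h → j * cjRep R H q.out y = 0 := by
    intro q hq
    let W : AddSubgroup (MonoidAlgebra R H) :=
      (LinearMap.ker (LinearMap.mulLeft R (j * single q.out 1))).toAddSubgroup
    have h1 : y ∈ W := by
      refine rtr_mem W fun g hg => ?_
      have h2 := source3_deg_mul (source3_deg_single (D := D) q.out (1 : R))
        (source3_deg_single (D := D) g (1 : R))
      rw [QuotientGroup.out_eq', (QuotientGroup.eq_one_iff g).2 hg, mul_one] at h2
      have h3 := congrArg (· * (c * single g⁻¹ 1)) (source3_zero h hq h2)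
      change j * single q.out 1 * cjRep R H g (j * c) = 0
      simpa only [cjRep_apply, mul_assoc, zero_mul] using h3
    have h2 : j * single q.out 1 * y = 0 := h1
    rw [cjRep_apply, ← mul_assoc, ← mul_assoc, h2, zero_mul]
  obtain ⟨v, hv⟩ := h.scalar y hys
  have hcj : ∀ t, Commute j (cjRep R H t y) := fun t => source3_cent (source3_fixed_cj hyf t) h.supp
  have h1 : ∀ l : source3_E h, NilR R
      (j * cjRep R H (l : H ⧸ Subgroup.centralizer (D : Set H)).out y - v • j) := by
    rintro ⟨q, U, U', hU⟩
    have h2 := source3_nil_conj (u := U) (u' := U') hv (by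
      rw [hU.inv', mul_sub, mul_smul_comm, h.idem, ← mul_assoc, ← mul_assoc, h.idem])
    have h3 : source3_Deg D (q.out : H ⧸ Subgroup.centralizer (D : Set H)) U := by
      rw [QuotientGroup.out_eq']
      exact hU.deg
    have h4 := (source3_cent (source3_fixed_cj hyf q.out) (source3_supp_right h3)).eq
    have h5 : U * y = cjRep R H q.out y * U := by
      have h6 := congrArg (· * (single q.out 1 : MonoidAlgebra R H)) h4
      simp only [mul_assoc, source3_ss, mul_one] at h6
      rw [← h6, cjRep_apply]
      simp only [mul_assoc, source3_ss, mul_one]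
      rw [← mul_assoc (single q.out⁻¹ 1), source3_ss, one_mul]
    have h7 : U * (j * y * j - v • j) * U' = j * cjRep R H q.out y - v • j := by
      rw [mul_sub, sub_mul, mul_smul_comm, smul_mul_assoc, ← mul_assoc, ← mul_assoc,
        hU.right h.idem, hU.inv, mul_assoc _ j, hU.symm.left h.idem, h5, mul_assoc, hU.inv,
        (hcj _).eq]
    rwa [h7] at h2
  have h2 : ∀ t t', Commute (j * cjRep R H t y - v • j) (j * cjRep R H t' y - v • j) := by
    intro t t'
    have a1 : ∀ u, Commute j (j * cjRep R H u y - v • j) := fun u =>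
      ((Commute.refl j).mul_right (hcj u)).sub_right ((Commute.refl j).smul_right v)
    have a2 : Commute (cjRep R H t y) (cjRep R H t' y) :=
      source3_cent (source3_fixed_cj hyf t') (tr_suppCent_cj hys t)
    exact ((a1 t').mul_left (((hcj t).symm.mul_right a2).sub_right
      ((hcj t).symm.smul_right v))).sub_left ((a1 t').smul_left v)
  have h3 := source3_nil_sum Finset.univ _ h1 fun l m => h2 _ _
  have h4 : j * rtr (cjRep R H) D ⊤ (j * c) = ∑ l : source3_E h,
      j * cjRep R H (l : H ⧸ Subgroup.centralizer (D : Set H)).out y := by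
    rw [hz, Finset.mul_sum, ← Finset.sum_subtype (Finset.univ.filter (· ∈ source3_E h))
      (by simp) fun q => j * cjRep R H q.out y]
    refine (Finset.sum_subset (Finset.subset_univ _) fun q _ hq => h0 q ?_).symm
    simpa using hq
  rw [Finset.sum_sub_distrib, ← h4, Finset.sum_const, Finset.card_univ,
    ← Nat.cast_smul_eq_nsmul R] at h3
  obtain ⟨z', hz', hz''⟩ := h.exists_inv hf
  have hzc : ∀ b, rtr (cjRep R H) D ⊤ (j * c) * b = b * rtr (cjRep R H) D ⊤ (j * c) :=
    fixedBy_top_iff.1 (rtr_fixed le_top hfix)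
  have hm : ((Fintype.card (source3_E h) : ℕ) : R) ∈ maximalIdeal R := by
    obtain ⟨k, hk⟩ := hd
    rw [hk, Nat.cast_mul]
    exact Ideal.mul_mem_right _ _ hpR
  have h5 := h3.add (inMax_smul hm (v • j)).nilR (by
    refine Commute.sub_left ?_ (Commute.refl _)
    exact (((Commute.refl j).mul_left (hzc j)).smul_right v).smul_right _)
  rw [sub_add_cancel] at h5
  have h6 := h5.mul_right (hz' _).symm
  rw [mul_assoc, ← hz', hz'', ← hf.cent, h.le] at h6
  have h7 := h6.eq_zero h.idem
  refine h.nn ?_
  rw [h7, zero_mul, map_zero]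
  exact InMax.nilR (Submodule.zero_mem _)

end Good

/-- `N₁` is the subgroup of the `h` with the second alternative of `dich`, it contains the
centraliser `C` of `D`, and `E = N₁ ⧸ C`; choose `U l` for a representative of `l` (and `j` for
`l = 1`).  `span`: split `b` into its components on the cosets of `C`.  `inj`: multiply by `U' m`
and look at the part supported on `C`.  `card`: with `y = rtr D C (j c)`, central in `centAlg`,
`j z = ∑ t, j (t y t⁻¹)` over `H / C`; the terms with `t ∉ N₁` vanish and the others are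
`U l (j y) U' l = v • j +` nilpotent, commuting with each other by `span`; if `p` divides the
number of terms, `j z` is nilpotent modulo the maximal ideal, so `j = 0` by `exists_inv`. -/
theorem SrcIdem.exists_srcData [D.Normal] (hp : p.Prime) (hpR : (p : R) ∈ maximalIdeal R)
    (hc : ∀ x ∈ D, ∀ y ∈ D, x * y = y * x) {f a j c : MonoidAlgebra R H} (hf : BlockF D f a)
    (h : SrcIdem D f j c) :
    ∃ (E : Type) (_ : Group E) (_ : Fintype E) (φ : E →* MulAut D)
      (U U' : E → MonoidAlgebra R H), SrcData p D φ f j U U' := by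
  classical
  have hDC : D ≤ Subgroup.centralizer (D : Set H) := fun x hx =>
    Subgroup.mem_centralizer_iff.2 fun y hy => hc y hy x hx
  have hex : ∀ l : source3_E h, ∃ U U', source3_Good D j (l : H ⧸ _) U U' ∧ (l = 1 → U = j) := by
    intro l
    by_cases hl : l = 1
    · exact ⟨j, j, hl ▸ source3_good_one h, fun _ => rfl⟩
    · obtain ⟨U, U', hU⟩ := l.2
      exact ⟨U, U', hU, fun h0 => absurd h0 hl⟩
  choose U U' hU hU1 using hex
  have hred : ∀ (l : source3_E h) b, source3_Deg D (l : H ⧸ _) b →
      ∃ a : MonoidAlgebra R D, j * b * j = inc R D.subtype a * U l := by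
    intro l b hb
    have h1 := source3_deg_mul hb (hU l).deg'
    rw [mul_inv_cancel] at h1
    obtain ⟨a, ha⟩ := h.span _ (source3_deg_one.1 h1)
    refine ⟨a, ?_⟩
    rw [← (hU l).left h.idem, ← mul_assoc, ← ha, mul_assoc _ j, (hU l).left h.idem,
      ← mul_assoc j b, mul_assoc (j * b), (hU l).inv']
  refine ⟨source3_E h, inferInstance, inferInstance,
    (source3_phi D).comp (source3_E h).subtype, U, U', h.idem, h.le, ?_, hU1 1 rfl,
    fun l => (hU l).cut, fun l => (hU l).cut', fun l => (hU l).inv, fun l => (hU l).inv',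
    fun l δ => source3_comm (hU l).deg δ, fun l m => ?_, fun b => ?_, fun a ha => ?_, ?_⟩
  · obtain ⟨z', -, hz⟩ := h.exists_inv hf
    obtain ⟨n, t, -, ht, hu⟩ := exists_transversal (le_top : D ≤ ⊤)
    refine ⟨n, fun i => z' * single (t i) 1, fun i => c * single (t i)⁻¹ 1, fun _ => trivial,
      fun _ => trivial, ?_⟩
    rw [← hz, rtr_eq_sum le_top (tr_fixed_of_suppCent (source3_supp_mul h.supp h.csupp)) t ht hu,
      Finset.mul_sum]
    refine Finset.sum_congr rfl fun i _ => ?_
    simp only [cjRep_apply, mul_assoc]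
  · obtain ⟨a, ha⟩ := hred (l * m) _ (source3_deg_mul (hU l).deg (hU m).deg)
    refine ⟨a, ?_⟩
    rw [← ha, ← mul_assoc, (hU l).left h.idem, mul_assoc, (hU m).right h.idem]
  · induction b using MonoidAlgebra.induction_linear with
    | zero => exact ⟨0, by simp⟩
    | add b b' hb hb' =>
      obtain ⟨a, ha⟩ := hb
      obtain ⟨a', ha'⟩ := hb'
      refine ⟨a + a', ?_⟩
      rw [mul_add, add_mul, ha, ha', ← Finset.sum_add_distrib]
      exact Finset.sum_congr rfl fun l _ => by rw [Pi.add_apply, map_add, add_mul]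
    | single y r =>
      by_cases hy : (y : H ⧸ Subgroup.centralizer (D : Set H)) ∈ source3_E h
      · obtain ⟨a, ha⟩ := hred ⟨_, hy⟩ _ (source3_deg_single y r)
        refine ⟨Pi.single ⟨_, hy⟩ a, ?_⟩
        rw [ha, Finset.sum_eq_single ⟨_, hy⟩, Pi.single_eq_same]
        · intro l _ hl
          rw [Pi.single_eq_of_ne hl, map_zero, zero_mul]
        · simp
      · exact ⟨0, by simp [source3_zero h hy (source3_deg_single y r)]⟩
  · funext m
    have hd : ∀ l : source3_E h, source3_Deg D (l : H ⧸ _) (inc R D.subtype (a l) * U l) := by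
      intro l
      have := source3_deg_mul (source3_deg_inc hDC (a l)) (hU l).deg
      rwa [one_mul] at this
    have h1 : inc R D.subtype (a m) * U m = 0 := by
      ext y
      by_contra hy
      have h2 := congrArg (coef R y) ha
      rw [map_sum, map_zero, Finset.sum_eq_single m] at h2
      · exact hy h2
      · intro l _ hl
        by_contra h3
        exact hl (Subtype.ext ((hd l y h3).symm.trans (hd m y hy)))
      · simp
    refine h.inj _ ?_
    rw [← (hU m).inv, ← mul_assoc, h1, zero_mul]
  · exact fun hd => source3_card hpR hDC hf h hd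

end Pool.Agent.Lib.MP_b6945b_al.St
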