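import Pool.Agent.Lib.MP_b6945b_al.St.GA

set_option autoImplicit false

/-!
Relative traces.
-/

namespace Pool.Agent.Lib.MP_b6945b_al.St

open MonoidAlgebra (single)

section

variable {R Γ M M' M'' : Type} [CommRing R] [Group Γ] [Fintype Γ] [AddCommGroup M] [Module R M]
  [AddCommGroup M'] [Module R M'] [AddCommGroup M''] [Module R M'']

/-- `m` is fixed by the subgroup `S`. -/
def FixedBy (ρ : Representation R Γ M) (S : Subgroup Γ) (m : M) : Prop := ∀ g ∈ S, ρ g m = m

open Classical in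
/-- The relative trace from `S` to `T`, as a linear map. -/
noncomputable def rtr (ρ : Representation R Γ M) (S T : Subgroup Γ) : M →ₗ[R] M :=
  ∑ q : Γ ⧸ S, if q.out ∈ T then ρ q.out else 0

/-- `φ` commutes with the action of `S`. -/
def EquivOn (ρ : Representation R Γ M) (ρ' : Representation R Γ M') (S : Subgroup Γ)
    (φ : M →ₗ[R] M') : Prop := ∀ g ∈ S, ∀ m, φ (ρ g m) = ρ' g (φ m)

omit [Fintype Γ] in
lemma fixedBy_linHom {ρ : Representation R Γ M} {ρ' : Representation R Γ M'} {S : Subgroup Γ}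
    {φ : M →ₗ[R] M'} : FixedBy (ρ.linHom ρ') S φ ↔ EquivOn ρ ρ' S φ := by
  constructor
  · intro h g hg m
    have h1 := LinearMap.congr_fun (h g hg) (ρ g m)
    simp only [Representation.linHom_apply, LinearMap.comp_apply,
      Representation.inv_self_apply] at h1
    exact h1.symm
  · intro h g hg
    refine LinearMap.ext fun m => ?_
    simp only [Representation.linHom_apply, LinearMap.comp_apply]
    rw [← h g hg, Representation.self_inv_apply]

open Classical in
lemma tr_apply (ρ : Representation R Γ M) (S T : Subgroup Γ) (m : M) :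
    rtr ρ S T m = ∑ q : Γ ⧸ S, if q.out ∈ T then ρ q.out m else 0 := by
  unfold rtr
  rw [LinearMap.sum_apply]
  refine Finset.sum_congr rfl fun q _ => ?_
  split_ifs <;> rfl

omit [Fintype Γ] in
lemma tr_out_mem {S T : Subgroup Γ} (hST : S ≤ T) (g : Γ) :
    (QuotientGroup.mk g : Γ ⧸ S).out ∈ T ↔ g ∈ T := by
  obtain ⟨s, hs⟩ := QuotientGroup.mk_out_eq_mul S g
  rw [hs]
  exact T.mul_mem_cancel_right (hST s.2)

omit [Fintype Γ] in
lemma tr_out_apply {ρ : Representation R Γ M} {S : Subgroup Γ} {m : M} (hm : FixedBy ρ S m)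
    (g : Γ) : ρ (QuotientGroup.mk g : Γ ⧸ S).out m = ρ g m := by
  obtain ⟨s, hs⟩ := QuotientGroup.mk_out_eq_mul S g
  rw [hs, map_mul, Module.End.mul_apply, hm s s.2]

/-- The relative trace may be computed with any transversal. -/
lemma rtr_eq_sum {ρ : Representation R Γ M} {S T : Subgroup Γ} (hST : S ≤ T) {m : M}
    (hm : FixedBy ρ S m) {ι : Type} [Fintype ι] (t : ι → Γ) (ht : ∀ i, t i ∈ T)
    (hu : ∀ g ∈ T, ∃! i, (t i)⁻¹ * g ∈ S) : rtr ρ S T m = ∑ i, ρ (t i) m := by
  classical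
  rw [tr_apply]
  symm
  refine Finset.sum_of_injOn (fun i => (QuotientGroup.mk (t i) : Γ ⧸ S)) ?_ ?_ ?_ ?_
  · intro i _ j _ hij
    have h1 : (t i)⁻¹ * t j ∈ S := QuotientGroup.eq.1 hij
    have h2 : (t j)⁻¹ * t j ∈ S := by rw [inv_mul_cancel]; exact S.one_mem
    exact (hu _ (ht j)).unique h1 h2
  · intro i _
    exact Finset.mem_coe.2 (Finset.mem_univ _)
  · intro q _ hq
    rw [if_neg]
    intro h
    obtain ⟨i, hi, -⟩ := hu _ h
    exact hq ⟨i, Finset.mem_coe.2 (Finset.mem_univ _),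
      (QuotientGroup.eq.2 hi).trans q.out_eq'⟩
  · intro i _
    rw [if_pos ((tr_out_mem hST _).2 (ht i)), tr_out_apply hm]

/-- Transversals exist. -/
lemma exists_transversal {S T : Subgroup Γ} (hST : S ≤ T) :
    ∃ (n : ℕ) (t : Fin n → Γ), n = S.relIndex T ∧ (∀ i, t i ∈ T) ∧
      ∀ g ∈ T, ∃! i, (t i)⁻¹ * g ∈ S := by
  let e : Fin (S.relIndex T) ≃ T ⧸ S.subgroupOf T := (Finite.equivFin _).symm
  refine ⟨S.relIndex T, fun i => ((e i).out : T), rfl, fun i => ((e i).out).2, fun g hg => ?_⟩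
  have key : ∀ i, (((e i).out : T) : Γ)⁻¹ * g ∈ S ↔ i = e.symm (QuotientGroup.mk ⟨g, hg⟩) := by
    intro i
    rw [Equiv.eq_symm_apply]
    conv_rhs => rw [← (e i).out_eq', QuotientGroup.eq, Subgroup.mem_subgroupOf]
    rfl
  exact ⟨_, (key _).2 rfl, fun i hi => (key i).1 hi⟩

lemma rtr_fixed {ρ : Representation R Γ M} {S T : Subgroup Γ} (hST : S ≤ T) {m : M}
    (hm : FixedBy ρ S m) : FixedBy ρ T (rtr ρ S T m) := by
  obtain ⟨n, t, -, ht, hu⟩ := exists_transversal hST
  intro g hg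
  have h1 := rtr_eq_sum hST hm (fun i => g * t i) (fun i => T.mul_mem hg (ht i)) (fun x hx => by
    have := hu (g⁻¹ * x) (T.mul_mem (T.inv_mem hg) hx)
    simpa only [mul_inv_rev, mul_assoc] using this)
  conv_lhs => rw [rtr_eq_sum hST hm t ht hu, map_sum]
  rw [h1]
  exact Finset.sum_congr rfl fun i _ => by rw [map_mul, Module.End.mul_apply]

lemma rtr_trans {ρ : Representation R Γ M} {S T U : Subgroup Γ} (hST : S ≤ T) (hTU : T ≤ U)
    {m : M} (hm : FixedBy ρ S m) : rtr ρ T U (rtr ρ S T m) = rtr ρ S U m := by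
  obtain ⟨n, t, -, ht, hu⟩ := exists_transversal hST
  obtain ⟨n', t', -, ht', hu'⟩ := exists_transversal hTU
  rw [rtr_eq_sum hTU (rtr_fixed hST hm) t' ht' hu', rtr_eq_sum hST hm t ht hu,
    rtr_eq_sum (hST.trans hTU) hm (fun x : Fin n' × Fin n => t' x.1 * t x.2)
      (fun x => U.mul_mem (ht' _) (hTU (ht _))), Fintype.sum_prod_type]
  · refine Finset.sum_congr rfl fun j _ => ?_
    rw [map_sum]
    exact Finset.sum_congr rfl fun i _ => by rw [map_mul, Module.End.mul_apply]
  · intro g hg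
    obtain ⟨j, hj, hj'⟩ := hu' g hg
    obtain ⟨i, hi, hi'⟩ := hu _ hj
    refine ⟨(j, i), by simpa only [mul_inv_rev, mul_assoc] using hi, ?_⟩
    rintro ⟨j', i'⟩ h
    simp only [mul_inv_rev, mul_assoc] at h
    have h1 : j' = j := hj' j' ((T.mul_mem_cancel_left (T.inv_mem (ht i'))).1 (hST h))
    subst h1
    rw [hi' i' h]

lemma rtr_of_fixed {ρ : Representation R Γ M} {S T : Subgroup Γ} (hST : S ≤ T) {m : M}
    (hm : FixedBy ρ T m) : rtr ρ S T m = S.relIndex T • m := by
  obtain ⟨n, t, hn, ht, hu⟩ := exists_transversal hST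
  rw [rtr_eq_sum hST (fun g hg => hm g (hST hg)) t ht hu,
    Finset.sum_congr rfl (fun i _ => hm _ (ht i)), Finset.sum_const, Finset.card_univ,
    Fintype.card_fin, hn]

lemma rtr_self {ρ : Representation R Γ M} {S : Subgroup Γ} {m : M} (hm : FixedBy ρ S m) :
    rtr ρ S S m = m := by
  rw [rtr_of_fixed le_rfl hm, Subgroup.relIndex_self, one_smul]

omit [Fintype Γ] in
lemma tr_fixedBy_bot (ρ : Representation R Γ M) (m : M) : FixedBy ρ ⊥ m := by
  intro g hg
  rw [Subgroup.mem_bot.1 hg, map_one, Module.End.one_apply]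

lemma rtr_bot_top (ρ : Representation R Γ M) (m : M) : rtr ρ ⊥ ⊤ m = ∑ g, ρ g m := by
  refine rtr_eq_sum bot_le (tr_fixedBy_bot ρ m) (fun g => g) (fun _ => trivial) fun g _ => ?_
  simp only [Subgroup.mem_bot, inv_mul_eq_one]
  exact existsUnique_eq

lemma rtr_bot (ρ : Representation R Γ M) (T : Subgroup Γ) [Fintype T] (m : M) :
    rtr ρ ⊥ T m = ∑ g : T, ρ g m := by
  refine rtr_eq_sum bot_le (tr_fixedBy_bot ρ m) (fun g : T => (g : Γ)) (fun g => g.2)
    fun g hg => ?_
  simp only [Subgroup.mem_bot, inv_mul_eq_one]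
  exact ⟨⟨g, hg⟩, rfl, fun y hy => Subtype.ext hy⟩

lemma rtr_map {ρ : Representation R Γ M} {ρ' : Representation R Γ M'} {S T : Subgroup Γ}
    {φ : M →ₗ[R] M'} (hφ : EquivOn ρ ρ' T φ) (m : M) : φ (rtr ρ S T m) = rtr ρ' S T (φ m) := by
  rw [tr_apply, tr_apply, map_sum]
  refine Finset.sum_congr rfl fun q _ => ?_
  split_ifs with h
  · exact hφ _ h m
  · exact map_zero φ

lemma rtr_mem {ρ : Representation R Γ M} {S T : Subgroup Γ} (W : AddSubgroup M) {m : M}
    (h : ∀ g ∈ T, ρ g m ∈ W) : rtr ρ S T m ∈ W := by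
  rw [tr_apply]
  refine W.sum_mem fun q _ => ?_
  split_ifs with hq
  · exact h _ hq
  · exact W.zero_mem

lemma comp_rtr {ρ : Representation R Γ M} {ρ' : Representation R Γ M'}
    {ρ'' : Representation R Γ M''} {S T : Subgroup Γ} {ψ : M' →ₗ[R] M''}
    (hψ : EquivOn ρ' ρ'' T ψ) (θ : M →ₗ[R] M') :
    ψ ∘ₗ rtr (ρ.linHom ρ') S T θ = rtr (ρ.linHom ρ'') S T (ψ ∘ₗ θ) := by
  refine rtr_map (φ := LinearMap.llcomp R M M' M'' ψ) (fun g hg f => ?_) θ
  refine LinearMap.ext fun m => ?_
  exact hψ g hg _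

lemma rtr_comp {ρ : Representation R Γ M} {ρ' : Representation R Γ M'}
    {ρ'' : Representation R Γ M''} {S T : Subgroup Γ} {ψ : M →ₗ[R] M'}
    (hψ : EquivOn ρ ρ' T ψ) (θ : M' →ₗ[R] M'') :
    rtr (ρ'.linHom ρ'') S T θ ∘ₗ ψ = rtr (ρ.linHom ρ'') S T (θ ∘ₗ ψ) := by
  refine rtr_map (φ := LinearMap.lcomp R M'' ψ) (fun g hg f => ?_) θ
  refine LinearMap.ext fun m => ?_
  change ρ'' g (f (ρ' g⁻¹ (ψ m))) = ρ'' g (f (ψ (ρ g⁻¹ m)))
  rw [hψ g⁻¹ (T.inv_mem hg)]

/-- Relative traces along a group homomorphism that induces a bijection of coset spaces. -/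
lemma rtr_comp_hom {Γ' : Type} [Group Γ'] [Fintype Γ'] (π : Γ' →* Γ)
    {ρ : Representation R Γ M} {S T : Subgroup Γ} {S' T' : Subgroup Γ'} (hST : S ≤ T)
    (hST' : S' ≤ T') (hT : ∀ g ∈ T', π g ∈ T) (hS : ∀ g ∈ T', π g ∈ S ↔ g ∈ S')
    (hs : ∀ g ∈ T, ∃ g' ∈ T', (π g')⁻¹ * g ∈ S) {m : M} (hm : FixedBy ρ S m) :
    rtr (ρ.comp π) S' T' m = rtr ρ S T m := by
  obtain ⟨n, t, -, ht, hu⟩ := exists_transversal hST'
  have hm' : FixedBy (ρ.comp π) S' m := fun g hg => hm _ ((hS g (hST' hg)).2 hg)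
  rw [rtr_eq_sum hST' hm' t ht hu, rtr_eq_sum hST hm (fun i => π (t i)) (fun i => hT _ (ht i))]
  · rfl
  · intro g hg
    obtain ⟨g', hg', h1⟩ := hs g hg
    have key : ∀ i, (π (t i))⁻¹ * g ∈ S ↔ (t i)⁻¹ * g' ∈ S' := by
      intro i
      rw [← hS _ (T'.mul_mem (T'.inv_mem (ht i)) hg'), map_mul, map_inv,
        ← S.mul_mem_cancel_right (x := (π g')⁻¹ * g) h1 (y := (π (t i))⁻¹ * π g'), mul_assoc,
        mul_inv_cancel_left]
    simp only [key]
    exact hu g' hg'

omit [Fintype Γ] in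
lemma tr_sum_mem_of_orbit {Y : Type} [MulAction Γ Y] [Fintype Y]
    (φ : Y → M) (hφ : ∀ (g : Γ) y, φ (g • y) = φ y) (J : AddSubgroup M)
    (h : ∀ y, Nat.card (MulAction.orbit Γ y) • φ y ∈ J) : ∑ y, φ y ∈ J := by
  classical
  let _ : Fintype (MulAction.orbitRel.Quotient Γ Y) := Fintype.ofFinite _
  rw [← Finset.sum_fiberwise (s := Finset.univ)
    (g := fun y => (Quotient.mk (MulAction.orbitRel Γ Y) y : MulAction.orbitRel.Quotient Γ Y))]
  refine J.sum_mem ?_
  intro ω _
  have h1 : ∀ y ∈ Finset.univ.filter (fun y => (Quotient.mk (MulAction.orbitRel Γ Y) y :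
      MulAction.orbitRel.Quotient Γ Y) = ω), φ y = φ ω.out := by
    intro y hy
    have hy' := (Finset.mem_filter.1 hy).2
    have : (MulAction.orbitRel Γ Y) y ω.out :=
      Quotient.exact (hy'.trans (Quotient.out_eq ω).symm)
    obtain ⟨g, hg⟩ := (MulAction.orbitRel_apply.1 this)
    rw [← hg]; exact hφ g _
  rw [Finset.sum_congr rfl h1, Finset.sum_const]
  have h2 : (Finset.univ.filter (fun y => (Quotient.mk (MulAction.orbitRel Γ Y) y :
      MulAction.orbitRel.Quotient Γ Y) = ω)).card = Nat.card (MulAction.orbit Γ ω.out) := by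
    rw [Nat.card_eq_fintype_card, Fintype.card_subtype]
    congr 1
    ext y
    simp only [Finset.mem_filter, Finset.mem_univ, true_and]
    rw [← MulAction.orbitRel_apply]
    constructor
    · intro hy; exact Quotient.exact (hy.trans (Quotient.out_eq ω).symm)
    · intro hy; exact (Quotient.sound hy).trans (Quotient.out_eq ω)
  rw [h2]; exact h _

omit [Fintype Γ] in
lemma tr_sum_mem_of_pgroup {Y : Type} [MulAction Γ Y] [Fintype Y]
    {p : ℕ} [Fact p.Prime] (hΓ : IsPGroup p Γ) (φ : Y → M) (hφ : ∀ (g : Γ) y, φ (g • y) = φ y)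
    (J : AddSubgroup M) (hp : ∀ y, p • φ y ∈ J) (h : ∀ y, (∀ g : Γ, g • y = y) → φ y ∈ J) :
    ∑ y, φ y ∈ J := by
  refine tr_sum_mem_of_orbit φ hφ J (fun y => ?_)
  obtain ⟨n, hn⟩ := hΓ.card_orbit y
  rcases n with _ | n
  · rw [hn, pow_zero, one_smul]
    refine h y ?_
    let _ := Fintype.ofFinite (MulAction.orbit Γ y)
    rw [pow_zero, Nat.card_eq_fintype_card] at hn
    exact MulAction.mem_fixedPoints.1 (MulAction.mem_fixedPoints_iff_card_orbit_eq_one.2 hn)
  · rw [hn, pow_succ, mul_smul]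
    exact J.nsmul_mem (hp y) _

/-- A relative trace, tested by an invariant functional, lies in an additive subgroup containing
`p` times everything, provided the terms at cosets fixed by the `p`-group `P` do
(sum over the orbits of `P` on the cosets; compare `sum_mem_of_pgroup` in `Omega.lean`). -/
lemma rtr_functional_mem {p : ℕ} (hp : p.Prime) {ρ : Representation R Γ M} {S T P : Subgroup Γ}
    (hST : S ≤ T) (hPT : P ≤ T) (hP : IsPGroup p P) {m : M} (hm : FixedBy ρ S m)
    (lam : M →ₗ[R] R) (hl : ∀ u ∈ P, ∀ x, lam (ρ u x) = lam x) (I : Ideal R) (hpI : (p : R) ∈ I)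
    (h : ∀ g ∈ T, (∀ u ∈ P, g⁻¹ * u * g ∈ S) → lam (ρ g m) ∈ I) : lam (rtr ρ S T m) ∈ I := by
  classical
  have : Fact p.Prime := ⟨hp⟩
  rw [tr_apply, map_sum]
  have key : ∀ g : Γ, lam (if (QuotientGroup.mk g : Γ ⧸ S).out ∈ T then
      ρ (QuotientGroup.mk g : Γ ⧸ S).out m else 0) = if g ∈ T then lam (ρ g m) else 0 := by
    intro g
    by_cases hg : g ∈ T
    · rw [if_pos ((tr_out_mem hST g).2 hg), if_pos hg, tr_out_apply hm]
    · rw [if_neg (fun e => hg ((tr_out_mem hST g).1 e)), if_neg hg, map_zero]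
  refine tr_sum_mem_of_pgroup (Γ := P) hP _ ?_ I.toAddSubgroup ?_ ?_
  · intro u q
    obtain ⟨g, rfl⟩ := QuotientGroup.mk_surjective q
    have h1 : u • (QuotientGroup.mk g : Γ ⧸ S) = QuotientGroup.mk ((u : Γ) * g) := rfl
    rw [h1, key, key]
    by_cases hg : g ∈ T
    · rw [if_pos hg, if_pos (T.mul_mem (hPT u.2) hg), map_mul, Module.End.mul_apply, hl u u.2]
    · rw [if_neg hg, if_neg (fun e => hg ((T.mul_mem_cancel_left (hPT u.2)).1 e))]
  · intro q
    rw [nsmul_eq_mul]
    exact I.mul_mem_right _ hpI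
  · intro q hq
    obtain ⟨g, rfl⟩ := QuotientGroup.mk_surjective q
    rw [key]
    split_ifs with hg
    · refine h g hg fun u hu => ?_
      have h1 : (QuotientGroup.mk (u * g) : Γ ⧸ S) = QuotientGroup.mk g := hq ⟨u, hu⟩
      have h2 := QuotientGroup.eq.1 h1.symm
      rwa [← mul_assoc] at h2
    · exact I.zero_mem

end

/-- The permutation representation on functions. -/
def permRep (R Γ Y : Type) [CommRing R] [Group Γ] [MulAction Γ Y] :
    Representation R Γ (Y → R) where
  toFun g := LinearMap.funLeft R R (fun y => g⁻¹ • y)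
  map_one' := by ext w y; simp
  map_mul' g h := by ext w y; simp [mul_smul]

lemma permRep_apply {R Γ Y : Type} [CommRing R] [Group Γ] [MulAction Γ Y] (g : Γ) (w : Y → R)
    (y : Y) : permRep R Γ Y g w y = w (g⁻¹ • y) := rfl

/-- Higman's criterion for permutation modules: if all stabilisers of points of the invariant set
`Z` lie in `S`, the indicator of `Z` is the relative trace of the indicator of an `S`-stable
fundamental set (the union of the `S`-orbits of orbit representatives). -/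
lemma exists_higman_perm (R : Type) {Γ Y : Type} [CommRing R] [Group Γ] [Fintype Γ]
    [MulAction Γ Y] (S : Subgroup Γ) (Z : Y → Prop) (hZ : ∀ (g : Γ) y, Z y → Z (g • y))
    (h : ∀ y, Z y → ∀ g : Γ, g • y = y → g ∈ S) :
    ∃ ι : (Y → R) →ₗ[R] (Y → R), EquivOn (permRep R Γ Y) (permRep R Γ Y) S ι ∧
      ∀ w y, (Z y → rtr ((permRep R Γ Y).linHom (permRep R Γ Y)) S ⊤ ι w y = w y) ∧
        (¬ Z y → rtr ((permRep R Γ Y).linHom (permRep R Γ Y)) S ⊤ ι w y = 0) := by
  classical
  let rep : Y → Y := fun y => (Quotient.mk (MulAction.orbitRel Γ Y) y).out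
  have hrep : ∀ (g : Γ) y, rep (g • y) = rep y := by
    intro g y
    have : Quotient.mk (MulAction.orbitRel Γ Y) (g • y) = Quotient.mk (MulAction.orbitRel Γ Y) y :=
      Quotient.sound (MulAction.orbitRel_apply.2 ⟨g, rfl⟩)
    simp only [rep, this]
  have hex : ∀ y, ∃ g : Γ, g • rep y = y := by
    intro y
    have : (MulAction.orbitRel Γ Y) y (rep y) :=
      Quotient.exact (Quotient.out_eq (Quotient.mk (MulAction.orbitRel Γ Y) y)).symm
    exact MulAction.orbitRel_apply.1 this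
  let F : Y → Prop := fun y => Z y ∧ ∃ s ∈ S, s • rep y = y
  have hF : ∀ s ∈ S, ∀ y, F y → F (s • y) := by
    rintro s hs y ⟨h1, s', hs', h2⟩
    refine ⟨hZ s y h1, s * s', S.mul_mem hs hs', ?_⟩
    rw [hrep, mul_smul, h2]
  let ι : (Y → R) →ₗ[R] (Y → R) :=
    { toFun := fun w y => if F y then w y else 0
      map_add' := fun w w' => by
        funext y
        simp only [Pi.add_apply]
        split_ifs <;> simp
      map_smul' := fun c w => by
        funext y
        simp only [Pi.smul_apply, RingHom.id_apply]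
        split_ifs <;> simp }
  have hι : ∀ w y, ι w y = if F y then w y else 0 := fun _ _ => rfl
  have heq : EquivOn (permRep R Γ Y) (permRep R Γ Y) S ι := by
    intro s hs w
    funext y
    rw [permRep_apply, hι, hι, permRep_apply]
    by_cases hy : F y
    · rw [if_pos hy, if_pos (hF _ (S.inv_mem hs) y hy)]
    · rw [if_neg hy, if_neg]
      intro e
      have := hF s hs _ e
      rw [smul_inv_smul] at this
      exact hy this
  refine ⟨ι, heq, fun w y => ?_⟩
  obtain ⟨n, t, -, ht, hu⟩ := exists_transversal (le_top : S ≤ ⊤)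
  have hsum : rtr ((permRep R Γ Y).linHom (permRep R Γ Y)) S ⊤ ι w y =
      ∑ i, if F ((t i)⁻¹ • y) then w y else 0 := by
    rw [rtr_eq_sum le_top (fixedBy_linHom.2 heq) t ht hu, LinearMap.sum_apply, Finset.sum_apply]
    refine Finset.sum_congr rfl fun i _ => ?_
    rw [Representation.linHom_apply, LinearMap.comp_apply, LinearMap.comp_apply, permRep_apply,
      hι, permRep_apply, inv_inv, smul_inv_smul]
  rw [hsum]
  constructor
  · intro hy
    obtain ⟨g, hg⟩ := hex y
    have hr : Z (rep y) := by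
      have h1 : g⁻¹ • y = rep y := inv_smul_eq_iff.2 hg.symm
      exact h1 ▸ hZ g⁻¹ y hy
    have key : ∀ i, F ((t i)⁻¹ • y) ↔ (t i)⁻¹ * g ∈ S := by
      intro i
      constructor
      · rintro ⟨-, s, hs, h2⟩
        rw [hrep] at h2
        have h3 : (s⁻¹ * ((t i)⁻¹ * g)) • rep y = rep y := by
          rw [mul_smul, mul_smul, hg, ← h2, inv_smul_smul]
        exact (S.mul_mem_cancel_left (S.inv_mem hs)).1 (h _ hr _ h3)
      · intro hs
        refine ⟨hZ _ _ hy, _, hs, ?_⟩
        rw [hrep, mul_smul, hg]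
    obtain ⟨i, hi, hi'⟩ := hu g trivial
    rw [Finset.sum_eq_single i, if_pos ((key i).2 hi)]
    · intro j _ hj
      rw [if_neg (fun e => hj (hi' j ((key j).1 e)))]
    · intro e
      exact absurd (Finset.mem_univ i) e
  · intro hy
    refine Finset.sum_eq_zero fun i _ => if_neg fun e => hy ?_
    have := hZ (t i) _ e.1
    rwa [smul_inv_smul] at this

/-- The conjugation representation on the group algebra. -/
noncomputable def cjRep (R G : Type) [CommRing R] [Group G] :
    Representation R G (MonoidAlgebra R G) where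
  toFun g := LinearMap.mulLeft R (single g 1) ∘ₗ LinearMap.mulRight R (single g⁻¹ 1)
  map_one' := by
    refine LinearMap.ext (fun a => ?_)
    simp [← MonoidAlgebra.one_def]
  map_mul' g h := by
    refine LinearMap.ext (fun a => ?_)
    simp only [LinearMap.comp_apply, LinearMap.mulLeft_apply, LinearMap.mulRight_apply,
      Module.End.mul_apply, mul_inv_rev]
    rw [← mul_one (1 : R), ← MonoidAlgebra.single_mul_single, ← MonoidAlgebra.single_mul_single]
    simp only [mul_assoc, mul_one]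

lemma cjRep_apply {R G : Type} [CommRing R] [Group G] (g : G) (a : MonoidAlgebra R G) :
    cjRep R G g a = single g 1 * (a * single g⁻¹ 1) := rfl

lemma coeff_cjRep {R G : Type} [CommRing R] [Group G] (g x : G) (a : MonoidAlgebra R G) :
    (cjRep R G g a).coeff x = a.coeff (g⁻¹ * x * g) := by
  rw [cjRep_apply]
  simp [mul_assoc]

lemma cjRep_mul {R G : Type} [CommRing R] [Group G] (g : G) (a b : MonoidAlgebra R G) :
    cjRep R G g (a * b) = cjRep R G g a * cjRep R G g b := by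
  have h : (single g⁻¹ 1 : MonoidAlgebra R G) * single g 1 = 1 := by
    rw [MonoidAlgebra.single_mul_single, inv_mul_cancel, mul_one, MonoidAlgebra.one_def]
  simp only [cjRep_apply, mul_assoc]
  rw [← mul_assoc (single g⁻¹ 1 : MonoidAlgebra R G), h, one_mul]

lemma mul_rtr_cj {R G : Type} [CommRing R] [Group G] [Fintype G] {S T : Subgroup G}
    {z : MonoidAlgebra R G} (hz : FixedBy (cjRep R G) T z) (a : MonoidAlgebra R G) :
    z * rtr (cjRep R G) S T a = rtr (cjRep R G) S T (z * a) ∧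
      rtr (cjRep R G) S T a * z = rtr (cjRep R G) S T (a * z) := by
  constructor
  · refine rtr_map (φ := LinearMap.mulLeft R z) (fun g hg b => ?_) a
    simp only [LinearMap.mulLeft_apply]
    rw [cjRep_mul, hz g hg]
  · refine rtr_map (φ := LinearMap.mulRight R z) (fun g hg b => ?_) a
    simp only [LinearMap.mulRight_apply]
    rw [cjRep_mul, hz g hg]

/-- Elements supported on the centraliser of `D`. -/
def SuppCent {R G : Type} [CommRing R] [Group G] (D : Set G) (a : MonoidAlgebra R G) : Prop :=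
  ∀ x, a.coeff x ≠ 0 → ∀ δ ∈ D, x * δ = δ * x

/-- Elements supported on the centraliser of `D` form a subalgebra. -/
def centAlg (R : Type) {G : Type} [CommRing R] [Group G] [Fintype G] (D : Set G) :
    Subalgebra R (MonoidAlgebra R G) where
  carrier := {a | SuppCent D a}
  mul_mem' := by
    intro a b ha hb x hx δ hδ
    rw [coeff_mul_fin] at hx
    obtain ⟨y, -, hy⟩ := Finset.exists_ne_zero_of_sum_ne_zero hx
    have h1 := ha y (left_ne_zero_of_mul hy) δ hδ
    have h2 := hb _ (right_ne_zero_of_mul hy) δ hδ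
    calc x * δ = y * (y⁻¹ * x * δ) := by group
      _ = y * δ * (y⁻¹ * x) := by rw [h2]; group
      _ = δ * x := by rw [h1]; group
  add_mem' := by
    intro a b ha hb x hx
    by_cases e : a.coeff x = 0
    · exact hb x (by simpa [e] using hx)
    · exact ha x e
  algebraMap_mem' := by
    intro r x hx δ _
    have : x = 1 := by
      by_contra e
      exact hx (by simp [MonoidAlgebra.coe_algebraMap, Finsupp.single_eq_of_ne e])
    rw [this, one_mul, mul_one]

lemma mem_centAlg {R G : Type} [CommRing R] [Group G] [Fintype G] {D : Set G}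
    {a : MonoidAlgebra R G} : a ∈ centAlg R D ↔ SuppCent D a := Iff.rfl

lemma tr_fixed_of_suppCent {R G : Type} [CommRing R] [Group G] {D : Subgroup G}
    {a : MonoidAlgebra R G} (ha : SuppCent (D : Set G) a) : FixedBy (cjRep R G) D a := by
  intro δ hδ
  ext x
  rw [coeff_cjRep]
  by_cases h1 : a.coeff x = 0
  · by_contra h2
    rw [h1] at h2
    have h3 := ha _ h2 δ hδ
    have h4 : δ⁻¹ * x * δ = x := by
      have h5 : δ⁻¹ * x * δ = δ * (δ⁻¹ * x * δ) * δ⁻¹ := by rw [← h3]; group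
      rw [h5]; group
    rw [h4] at h2
    exact h2 h1
  · rw [mul_assoc, ha x h1 δ hδ, inv_mul_cancel_left]

lemma tr_suppCent_cj {R G : Type} [CommRing R] [Group G] {D : Subgroup G} [D.Normal]
    {a : MonoidAlgebra R G} (ha : SuppCent (D : Set G) a) (g : G) :
    SuppCent (D : Set G) (cjRep R G g a) := by
  intro x hx δ hδ
  rw [coeff_cjRep] at hx
  have h1 := ha _ hx (g⁻¹ * δ * g⁻¹⁻¹) (Subgroup.Normal.conj_mem ‹D.Normal› δ hδ g⁻¹)
  calc x * δ = g * (g⁻¹ * x * g * (g⁻¹ * δ * g⁻¹⁻¹)) * g⁻¹ := by group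
    _ = δ * x := by rw [h1]; group

/-- For `D` normal, a trace from `D` of an element supported on the centraliser of `D` is also a
trace from `D` to any intermediate subgroup of such an element (sum over a right transversal). -/
lemma exists_rtr_intermediate {R G : Type} [CommRing R] [Group G] [Fintype G] (D L : Subgroup G)
    [D.Normal] (hDL : D ≤ L) {a : MonoidAlgebra R G} (ha : SuppCent (D : Set G) a) :
    ∃ a', SuppCent (D : Set G) a' ∧ rtr (cjRep R G) D ⊤ a = rtr (cjRep R G) D L a' := by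
  obtain ⟨n, t, -, ht, hu⟩ := exists_transversal hDL
  obtain ⟨n', u, -, -, hu'⟩ := exists_transversal (le_top : L ≤ ⊤)
  have ha' : SuppCent (D : Set G) (∑ j, cjRep R G (u j)⁻¹ a) :=
    mem_centAlg.1 (Subalgebra.sum_mem _ fun j _ => mem_centAlg.2 (tr_suppCent_cj ha _))
  refine ⟨_, ha', ?_⟩
  rw [rtr_eq_sum hDL (tr_fixed_of_suppCent ha') t ht hu,
    rtr_eq_sum le_top (tr_fixed_of_suppCent ha) (fun x : Fin n × Fin n' => t x.1 * (u x.2)⁻¹)
      (fun _ => trivial), Fintype.sum_prod_type]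
  · refine Finset.sum_congr rfl fun i _ => ?_
    rw [map_sum]
    exact Finset.sum_congr rfl fun j _ => by rw [map_mul, Module.End.mul_apply]
  · intro g _
    have key : ∀ i j, (t i * (u j)⁻¹)⁻¹ * g ∈ D ↔ (t i)⁻¹ * (g * u j) ∈ D := by
      intro i j
      have h1 : (t i * (u j)⁻¹)⁻¹ * g = u j * ((t i)⁻¹ * g) := by group
      rw [h1, ‹D.Normal›.mem_comm_iff, mul_assoc]
    have key' : ∀ j, (u j)⁻¹ * g⁻¹ ∈ L ↔ g * u j ∈ L := by
      intro j
      rw [← mul_inv_rev, L.inv_mem_iff]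
    obtain ⟨j, hj, hj'⟩ := hu' g⁻¹ trivial
    obtain ⟨i, hi, hi'⟩ := hu _ ((key' j).1 hj)
    refine ⟨(i, j), (key i j).2 hi, ?_⟩
    rintro ⟨i', j'⟩ h
    have h1 := (key i' j').1 h
    have h2 : j' = j :=
      hj' j' ((key' j').2 ((L.mul_mem_cancel_left (L.inv_mem (ht i'))).1 (hDL h1)))
    subst h2
    rw [hi' i' h1]

end Pool.Agent.Lib.MP_b6945b_al.St
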